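import Pool.Agent.Lib.MP_1dedaf_gt.DK.TM.F0

section

/-!
# TM L1, L2: reference points `H_1 = (St, M/St)` for bodies which do not contain `(x1, y1)`
-/

set_option autoImplicit false

open MeasureTheory Set Filter Topology

namespace Pool.Agent.Lib.MP_1dedaf_gt.DK

namespace Bd

theorem L1 (K : Bd) (h : K.CF) (hq : 0 < K.q) (hr : 0 < K.r 0) (hc : K.u (K.r 0) < K.u 0) :
    K.col.Out K.St (K.col.M / K.St) := by
  have hx1 := x1_le K h
  have hXl : K.col.Xl (K.r 0) = K.St := Xl_t K h hr.le le_rfl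
  have hmr := K.col.mr_nonneg (cReg K h) (K.r 0) ⟨hr.le, hx1⟩
  have hXu : K.col.Xu (K.r 0) ≤ K.St := by
    unfold Dat.Xu
    rw [hXl]
    have : 0 ≤ K.col.q * K.col.mr (K.r 0) := mul_nonneg hq.le hmr
    linarith
  have hY := Yu_x1_le K h hr hc.le
  have hR := Y_right K h hr hc
  intro x hx
  have hxw : x ≤ K.w := hx.2
  constructor
  · rintro ⟨h1, h2⟩
    have h3 : K.r 0 < x := by
      by_contra hcon
      push Not at hcon
      have := (K.col.Xl_strictMono h.cl).monotone hcon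
      rw [hXl] at this
      linarith
    have := (hR x ⟨h3.le, hxw⟩).2.2.2
    linarith
  · rintro ⟨h1, h2⟩
    have h3 : K.r 0 < x := by
      by_contra hcon
      push Not at hcon
      have := (K.col.Xu_strictMono h.hq h.cl h.cu).monotone hcon
      linarith
    have := (hR x ⟨h3.le, hxw⟩).2.1
    linarith

/-- The point over `x` is not above the hyperbola: for `x ≤ x1` with `M / St < Yu x`. -/
theorem L2_key (K : Bd) (h : K.CF) (hr : 0 < K.r 0) {x : ℝ} (hx : 0 ≤ x) (hx1 : x ≤ K.r 0)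
    (hY : K.col.M / K.St < K.col.Yu x) :
    K.col.mr x - (K.St - ee K.p x) * ee K.q (K.u x) <
      Real.exp (K.p * K.r 0) * ∫ t in (0:ℝ)..x, Real.exp (K.p * t) * (ee K.q (K.u x) - ee K.q (K.u t)) := by
  have hS := St_pos K h hr
  rw [div_lt_iff₀ hS, Yu_t K h hx hx1] at hY
  have hM := M_split K h hx hx1
  have h2 := exp_ee K.p (K.r 0) h.hp
  have h3 : K.St = ee K.p (K.r 0) := rfl
  rw [← h3] at h2
  have h4 := exp_ee K.p x h.hp
  have hce : Continuous (ee K.q) := by unfold ee; fun_prop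
  have hI : ∫ t in (0:ℝ)..x, Real.exp (K.p * t) * (ee K.q (K.u x) - ee K.q (K.u t)) =
      ee K.p x * ee K.q (K.u x) - ∫ t in (0:ℝ)..x, Real.exp (K.p * t) * ee K.q (K.u t) := by
    simp only [mul_sub]
    rw [intervalIntegral.integral_sub, intervalIntegral.integral_mul_const, ee_int K.p x h.hp]
    · exact (by fun_prop : Continuous fun t : ℝ => Real.exp (K.p * t) * ee K.q (K.u x)).intervalIntegrable _ _
    · exact ((by fun_prop : Continuous fun t : ℝ => Real.exp (K.p * t)).mul (hce.comp h.cu)).intervalIntegrable _ _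
  rw [hI, h2]
  rw [h4, hM] at hY
  set I := ∫ t in (0:ℝ)..x, Real.exp (K.p * t) * ee K.q (K.u t)
  have h5 : (1 + K.p * K.St) * I + K.col.mr x < (1 + K.p * ee K.p x) * ee K.q (K.u x) * K.St := by
    have h6 : ((1 + K.p * ee K.p x) * ee K.q (K.u x) - K.p * (I + K.col.mr x) + K.p * K.col.mr x) * K.St =
        (1 + K.p * ee K.p x) * ee K.q (K.u x) * K.St - K.p * K.St * I := by ring
    rw [h6] at hY
    linarith
  have h7 : (1 + K.p * K.St) * (ee K.p x * ee K.q (K.u x) - I) - (K.col.mr x - (K.St - ee K.p x) * ee K.q (K.u x)) =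
      (1 + K.p * ee K.p x) * ee K.q (K.u x) * K.St - ((1 + K.p * K.St) * I + K.col.mr x) := by ring
  linarith

theorem L2 (K : Bd) (h : K.CF) (hp : K.p < 0) (hq : K.q < 0) (hr : 0 < K.r 0) (hu : 0 < K.u 0)
    (hc : K.u (K.r 0) < K.u 0) (ho : ¬ K.col.Out K.St (K.col.M / K.St)) :
    ∃ n g : ℝ, 0 < n ∧ n ≤ K.r 0 ∧ 0 < g ∧ K.mem (K.r 0 - n) (K.u 0 + g) ∧ - K.p * n < - K.q * g := by
  have hx1 := x1_le K h
  have hXl : K.col.Xl (K.r 0) = K.St := Xl_t K h hr.le le_rfl
  have hY := Yu_x1_le K h hr hc.le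
  have hR := Y_right K h hr hc
  unfold Dat.Out at ho
  push Not at ho
  obtain ⟨x, hx, hx2⟩ := ho
  have hxw : x ≤ K.w := hx.2
  -- the witness is an upper point over some `x < x1`
  have hwit : x < K.r 0 ∧ K.St < K.col.Xu x ∧ K.col.M / K.St < K.col.Yu x := by
    by_cases hl : K.St < K.col.Xl x ∧ K.col.M / K.St < K.col.Yl x
    · exfalso
      have h3 : K.r 0 < x := by
        by_contra hcon
        push Not at hcon
        have := (K.col.Xl_strictMono h.cl).monotone hcon
        rw [hXl] at this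
        linarith [hl.1]
      have := (hR x ⟨h3.le, hxw⟩).2.2.2
      linarith [hl.2]
    · have hl' : K.St < K.col.Xl x → K.col.Yl x ≤ K.col.M / K.St := by
        intro hh
        by_contra hcon
        push Not at hcon
        exact hl ⟨hh, hcon⟩
      obtain ⟨h5, h6⟩ := hx2 hl'
      refine ⟨?_, h5, h6⟩
      by_contra hcon
      push Not at hcon
      have := (hR x ⟨hcon, hxw⟩).2.1
      linarith
  obtain ⟨hxlt, hX, hYx⟩ := hwit
  have hx0 : 0 ≤ x := hx.1
  have hkey := L2_key K h hr hx0 hxlt.le hYx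
  have hS := St_pos K h hr
  -- `mr x ≥ T/Q`
  have hT : K.St - ee K.p x < - K.q * K.col.mr x := by
    have h1 : K.col.Xu x = ee K.p x - K.q * K.col.mr x := by
      unfold Dat.Xu
      rw [Xl_t K h hx0 hxlt.le]
      rfl
    rw [h1] at hX
    linarith
  have hTpos : 0 < K.St - ee K.p x := by
    have := ee_mono K.p h.hp hxlt
    have h3 : K.St = ee K.p (K.r 0) := rfl
    linarith
  have hQ : 0 < - K.q := by linarith
  have hP : 0 < - K.p := by linarith
  have hce : Continuous (ee K.q) := by unfold ee; fun_prop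
  -- `T e^{q u}/Q < rho1 * cut`
  have hE : ee K.q (K.u x) = (1 - Real.exp (K.q * K.u x)) / (- K.q) := by
    unfold ee
    rw [div_neg, ← neg_div]
    congr 1
    ring
  have h1 : (K.St - ee K.p x) * Real.exp (K.q * K.u x) < - K.q * (Real.exp (K.p * K.r 0) *
      ∫ t in (0:ℝ)..x, Real.exp (K.p * t) * (ee K.q (K.u x) - ee K.q (K.u t))) := by
    have h2 := mul_lt_mul_of_pos_left hkey hQ
    have hE' : -K.q * ee K.q (K.u x) = 1 - Real.exp (K.q * K.u x) := by
      rw [hE, mul_div_cancel₀ _ hQ.ne']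
    have h3 : -K.q * (K.col.mr x - (K.St - ee K.p x) * ee K.q (K.u x)) =
        -K.q * K.col.mr x - (K.St - ee K.p x) + (K.St - ee K.p x) * Real.exp (K.q * K.u x) := by
      linear_combination (-(K.St - ee K.p x)) * hE'
    rw [h3] at h2
    linarith
  -- `g > 0`
  have hmin : ∀ t ∈ Icc 0 x, min (K.u 0) (K.u x) ≤ K.u t := fun t ht =>
    h.vu.min_le_of_mem_Icc ⟨le_rfl, h.hw.le⟩ ⟨hx0, hxlt.le.trans hx1⟩ ht
  have hg : K.u 0 < K.u x := by
    by_contra hcon
    push Not at hcon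
    have hI : ∫ t in (0:ℝ)..x, Real.exp (K.p * t) * (ee K.q (K.u x) - ee K.q (K.u t)) ≤ 0 := by
      have h0 : 0 ≤ ∫ t in (0:ℝ)..x, -(Real.exp (K.p * t) * (ee K.q (K.u x) - ee K.q (K.u t))) := by
        refine intervalIntegral.integral_nonneg hx0 fun t ht => ?_
        rw [neg_nonneg]
        apply mul_nonpos_of_nonneg_of_nonpos (Real.exp_pos _).le
        have h2 := hmin t ht
        rw [min_eq_right hcon] at h2
        have := (ee_mono K.q h.hq).monotone h2
        linarith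
      rw [intervalIntegral.integral_neg] at h0
      linarith
    have h2 : 0 < (K.St - ee K.p x) * Real.exp (K.q * K.u x) := mul_pos hTpos (Real.exp_pos _)
    have h3 := mul_nonpos_of_nonneg_of_nonpos (mul_pos hQ (Real.exp_pos (K.p * K.r 0))).le hI
    rw [mul_assoc] at h3
    linarith
  -- the cut
  have hcut : ∫ t in (0:ℝ)..x, Real.exp (K.p * t) * (ee K.q (K.u x) - ee K.q (K.u t)) ≤
      ee K.p x * (ee K.q (K.u x) - ee K.q (K.u 0)) := by
    rw [← ee_int K.p x h.hp, ← intervalIntegral.integral_mul_const]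
    refine intervalIntegral.integral_mono_on hx0 ?_ ?_ fun t ht => ?_
    · exact ((by fun_prop : Continuous fun t : ℝ => Real.exp (K.p * t)).mul (continuous_const.sub (hce.comp h.cu))).intervalIntegrable _ _
    · exact (by fun_prop : Continuous fun t : ℝ => Real.exp (K.p * t) * (ee K.q (K.u x) - ee K.q (K.u 0))).intervalIntegrable _ _
    · refine mul_le_mul_of_nonneg_left ?_ (Real.exp_pos _).le
      have h2 := hmin t ht
      rw [min_eq_left hg.le] at h2
      have := (ee_mono K.q h.hq).monotone h2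
      linarith
  refine ⟨K.r 0 - x, K.u x - K.u 0, by linarith, by linarith, by linarith, ?_, ?_⟩
  · have e1 : K.r 0 - (K.r 0 - x) = x := by ring
    have e2 : K.u 0 + (K.u x - K.u 0) = K.u x := by ring
    rw [e1, e2]
    exact ⟨hx0, hxw, h.lu x hx, le_rfl⟩
  · -- the inequality
    have h2 : (K.St - ee K.p x) * Real.exp (K.q * K.u x) <
        Real.exp (K.p * K.r 0) * (ee K.p x * (Real.exp (K.q * K.u 0) - Real.exp (K.q * K.u x))) := by
      have h3 := mul_le_mul_of_nonneg_left hcut (mul_pos hQ (Real.exp_pos (K.p * K.r 0))).le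
      have h4 : -K.q * Real.exp (K.p * K.r 0) * (ee K.p x * (ee K.q (K.u x) - ee K.q (K.u 0))) =
          Real.exp (K.p * K.r 0) * (ee K.p x * (Real.exp (K.q * K.u 0) - Real.exp (K.q * K.u x))) := by
        unfold ee
        have := h.hq
        field_simp
        ring
      rw [h4, mul_assoc] at h3
      linarith
    -- multiply by `-p`
    have h5 : -K.p * (K.St - ee K.p x) = Real.exp (K.p * x) - Real.exp (K.p * K.r 0) := by
      have h3 : K.St = ee K.p (K.r 0) := rfl
      rw [h3, exp_ee K.p x h.hp, exp_ee K.p (K.r 0) h.hp]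
      ring
    have h6 : -K.p * ee K.p x = 1 - Real.exp (K.p * x) := by
      rw [exp_ee K.p x h.hp]
      ring
    have h7 := mul_lt_mul_of_pos_left h2 hP
    have h8 : (Real.exp (K.p * x) - Real.exp (K.p * K.r 0)) * Real.exp (K.q * K.u x) <
        Real.exp (K.p * K.r 0) * ((1 - Real.exp (K.p * x)) * (Real.exp (K.q * K.u 0) - Real.exp (K.q * K.u x))) := by
      rw [← h5, ← h6]
      calc _ = -K.p * ((K.St - ee K.p x) * Real.exp (K.q * K.u x)) := by ring
        _ < _ := h7
        _ = _ := by ring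
    have h9 : Real.exp (K.p * x) * Real.exp (K.q * K.u x) < Real.exp (K.p * K.r 0) * Real.exp (K.q * K.u 0) := by
      have e1 : 0 < Real.exp (K.p * x) := Real.exp_pos _
      have e2 : Real.exp (K.q * K.u x) < Real.exp (K.q * K.u 0) := Real.exp_lt_exp.2 (mul_lt_mul_of_neg_left hg hq)
      have e3 : 0 < Real.exp (K.p * K.r 0) := Real.exp_pos _
      have e4 : 0 ≤ Real.exp (K.p * K.r 0) * (Real.exp (K.p * x) * (Real.exp (K.q * K.u 0) - Real.exp (K.q * K.u x))) := by
        have : 0 < Real.exp (K.q * K.u 0) - Real.exp (K.q * K.u x) := by linarith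
        positivity
      nlinarith
    rw [← Real.exp_add, ← Real.exp_add, Real.exp_lt_exp] at h9
    nlinarith

end Bd

end Pool.Agent.Lib.MP_1dedaf_gt.DK
end

section

/-!
# TASK TM L3a: comparison of the upper arc with the top side of a box

`x1 = K.r 0`, `St = ee p x1`, `z` with `Xu z = St`, `G x = R1 - p (St - Xu x)`, `R1 = exp (p x1) (1 + q M/St)`, `q > 0`.

`L3_G`: `G z = R1`, `G 0 = 1 + q M/St > 0` (`Xu 0 = - q M`, `exp (p x1) = 1 + p St`), `G' = p ru` (`Xu_deriv`), so `G` is monotone or antitone on `[0, z]` and `G ≥ min (G 0) (G z) > 0` there.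
`L3_Y`: `G x - ru x = q (M/St - Yu x)`: by the definition of `Yu`, `ru x = 1 + p q M + p Xu x + q Yu x`, and `R1 - p St = 1 + p q M + q M/St`.
`L3_I1`: `∫_0^z ru/G = x1`: the integrand is the derivative of `(1/p) log G`, and `log R1 - log (G 0) = log (exp (p x1)) = p x1`.
`L3_I2`: `∫_0^z (St - Xu) ru/G^2 = ∫_0^{x1} (St - Xl)/rl`. The integrand on the left is the derivative of `H = -(1/p^2)(R1/G + log G)` (as `R1 - G = p (St - Xu)`), so the left side is `(1/p^2)(exp (p x1) - 1 - p x1)`. On the right (`Xl x = ee p x`, `rl x = exp (p x)` on `[0, x1]`)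
the integrand is `(exp (p (x1 - x)) - 1)/p`, with integral `(1/p)(ee p x1 - x1)`, the same number.
-/

set_option autoImplicit false

open MeasureTheory Set Filter Topology

namespace Pool.Agent.Lib.MP_1dedaf_gt.DK

namespace Bd

/-- The density on the line `Y = M/St` in the coordinates `X`, `Y`, at `X = Xu x`. -/
noncomputable def Gf (K : Bd) (x : ℝ) : ℝ :=
  Real.exp (K.p * K.r 0) * (1 + K.q * K.col.M / K.St) - K.p * (K.St - K.col.Xu x)

theorem Gf_cont (K : Bd) (h : K.CF) : Continuous K.Gf := by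
  unfold Gf
  exact continuous_const.sub (continuous_const.mul (continuous_const.sub (K.col.Xu_cont h.cl h.cu)))

private theorem L3a_exp (K : Bd) (h : K.CF) : Real.exp (K.p * K.r 0) = 1 + K.p * K.St :=
  exp_ee K.p (K.r 0) h.hp

private theorem L3a_G0 (K : Bd) (h : K.CF) (hr : 0 < K.r 0) : K.Gf 0 = 1 + K.q * K.col.M / K.St := by
  have hS := (K.St_pos h hr).ne'
  unfold Gf
  rw [K.col.Xu_zero, L3a_exp K h]
  have hq : K.col.q = K.q := rfl
  rw [hq]
  field_simp
  ring

private theorem L3a_Gz (K : Bd) (z : ℝ) (hX : K.col.Xu z = K.St) :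
    K.Gf z = Real.exp (K.p * K.r 0) * (1 + K.q * K.col.M / K.St) := by
  unfold Gf
  rw [hX, sub_self, mul_zero, sub_zero]

private theorem L3a_pos (K : Bd) (h : K.CF) (hq : 0 < K.q) (hr : 0 < K.r 0) :
    0 < 1 + K.q * K.col.M / K.St := by
  have hS := K.St_pos h hr
  have hM := K.col.M_pos (cReg K h)
  positivity

private theorem L3a_deriv (K : Bd) (h : K.CF) (x : ℝ) : HasDerivAt K.Gf (K.p * K.col.ru x) x := by
  have h1 := ((((K.col.Xu_deriv h.hq h.cl h.cu x).const_sub K.St).const_mul K.p).const_sub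
    (Real.exp (K.p * K.r 0) * (1 + K.q * K.col.M / K.St)))
  refine h1.congr_deriv ?_
  ring

theorem L3_G (K : Bd) (h : K.CF) (hq : 0 < K.q) (hr : 0 < K.r 0) (z : ℝ) (hz : 0 ≤ z) (hX : K.col.Xu z = K.St) :
    ∀ x ∈ Icc 0 z, 0 < K.Gf x := by
  intro x hx
  have hpos := L3a_pos K h hq hr
  have hmono := (K.col.Xu_strictMono h.hq h.cl h.cu).monotone
  rcases lt_or_gt_of_ne h.hp with hp | hp
  · have h1 : 0 < K.Gf z := by
      rw [L3a_Gz K z hX]
      exact mul_pos (Real.exp_pos _) hpos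
    have h2 : K.Gf z ≤ K.Gf x := by
      unfold Gf
      have h3 := hmono hx.2
      nlinarith
    linarith
  · have h1 : 0 < K.Gf 0 := by
      rw [L3a_G0 K h hr]
      exact hpos
    have h2 : K.Gf 0 ≤ K.Gf x := by
      unfold Gf
      have h3 := hmono hx.1
      nlinarith
    linarith

theorem L3_Y (K : Bd) (h : K.CF) (hr : 0 < K.r 0) (x : ℝ) : K.Gf x - K.col.ru x = K.q * (K.col.M / K.St - K.col.Yu x) := by
  have hS := (K.St_pos h hr).ne'
  have hq : K.q ≠ 0 := h.hq
  unfold Gf Dat.Yu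
  rw [L3a_exp K h]
  have e1 : K.col.q = K.q := rfl
  have e2 : K.col.p = K.p := rfl
  rw [e1, e2]
  field_simp
  ring

theorem L3_I1 (K : Bd) (h : K.CF) (hq : 0 < K.q) (hr : 0 < K.r 0) (z : ℝ) (hz : 0 ≤ z) (hX : K.col.Xu z = K.St) :
    ∫ x in (0:ℝ)..z, K.col.ru x / K.Gf x = K.r 0 := by
  have hp : K.p ≠ 0 := h.hp
  have hG := L3_G K h hq hr z hz hX
  have hpos := L3a_pos K h hq hr
  have hd : ∀ x ∈ uIcc 0 z, HasDerivAt (fun x => Real.log (K.Gf x) / K.p) (K.col.ru x / K.Gf x) x := by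
    intro x hx
    rw [uIcc_of_le hz] at hx
    have h1 := (hG x hx).ne'
    refine (((L3a_deriv K h x).log h1).div_const K.p).congr_deriv ?_
    field_simp
  have hi : IntervalIntegrable (fun x => K.col.ru x / K.Gf x) volume 0 z := by
    refine ContinuousOn.intervalIntegrable ?_
    refine (K.col.ru_cont h.cu).continuousOn.div (Gf_cont K h).continuousOn fun x hx => ?_
    rw [uIcc_of_le hz] at hx
    exact (hG x hx).ne'
  rw [intervalIntegral.integral_eq_sub_of_hasDerivAt hd hi, L3a_Gz K z hX, L3a_G0 K h hr,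
    Real.log_mul (Real.exp_pos _).ne' hpos.ne', Real.log_exp]
  field_simp
  ring

private theorem L3a_lhs (K : Bd) (h : K.CF) (hq : 0 < K.q) (hr : 0 < K.r 0) (z : ℝ) (hz : 0 ≤ z)
    (hX : K.col.Xu z = K.St) :
    ∫ x in (0:ℝ)..z, (K.St - K.col.Xu x) * K.col.ru x / K.Gf x ^ 2 =
      (Real.exp (K.p * K.r 0) - 1 - K.p * K.r 0) / K.p ^ 2 := by
  have hp : K.p ≠ 0 := h.hp
  have hG := L3_G K h hq hr z hz hX
  have hpos := L3a_pos K h hq hr
  have hR : ∀ x, Real.exp (K.p * K.r 0) * (1 + K.q * K.col.M / K.St) - K.Gf x = K.p * (K.St - K.col.Xu x) := by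
    intro x
    unfold Gf
    ring
  have hd : ∀ x ∈ uIcc 0 z, HasDerivAt (fun x => -((Real.exp (K.p * K.r 0) * (1 + K.q * K.col.M / K.St)) / K.Gf x +
      Real.log (K.Gf x)) / K.p ^ 2) ((K.St - K.col.Xu x) * K.col.ru x / K.Gf x ^ 2) x := by
    intro x hx
    rw [uIcc_of_le hz] at hx
    have h1 := (hG x hx).ne'
    have h2 := L3a_deriv K h x
    refine ((((hasDerivAt_const x (Real.exp (K.p * K.r 0) * (1 + K.q * K.col.M / K.St))).div h2 h1).add
      (h2.log h1)).neg.div_const (K.p ^ 2)).congr_deriv ?_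
    have h3 := hR x
    have h4 : K.St - K.col.Xu x = (Real.exp (K.p * K.r 0) * (1 + K.q * K.col.M / K.St) - K.Gf x) / K.p := by
      rw [h3]
      field_simp
    rw [h4]
    generalize Real.exp (K.p * K.r 0) * (1 + K.q * K.col.M / K.St) = R
    field_simp
    ring
  have hi : IntervalIntegrable (fun x => (K.St - K.col.Xu x) * K.col.ru x / K.Gf x ^ 2) volume 0 z := by
    refine ContinuousOn.intervalIntegrable ?_
    refine (((continuous_const.sub (K.col.Xu_cont h.cl h.cu)).mul (K.col.ru_cont h.cu)).continuousOn).div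
      ((Gf_cont K h).pow 2).continuousOn fun x hx => ?_
    rw [uIcc_of_le hz] at hx
    exact pow_ne_zero 2 (hG x hx).ne'
  rw [intervalIntegral.integral_eq_sub_of_hasDerivAt hd hi, L3a_Gz K z hX, L3a_G0 K h hr,
    Real.log_mul (Real.exp_pos _).ne' hpos.ne', Real.log_exp,
    div_self (mul_pos (Real.exp_pos _) hpos).ne', mul_div_cancel_right₀ _ hpos.ne']
  ring

private theorem L3a_rhs (K : Bd) (h : K.CF) (hr : 0 < K.r 0) :
    ∫ x in (0:ℝ)..(K.r 0), (K.St - K.col.Xl x) / K.col.rl x =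
      (Real.exp (K.p * K.r 0) - 1 - K.p * K.r 0) / K.p ^ 2 := by
  have hp : K.p ≠ 0 := h.hp
  have h1 : ∫ x in (0:ℝ)..(K.r 0), (K.St - K.col.Xl x) / K.col.rl x =
      ∫ x in (0:ℝ)..(K.r 0), (Real.exp (K.p * (K.r 0 - x)) - 1) / K.p := by
    refine intervalIntegral.integral_congr fun x hx => ?_
    rw [uIcc_of_le hr.le] at hx
    show (K.St - K.col.Xl x) / K.col.rl x = (Real.exp (K.p * (K.r 0 - x)) - 1) / K.p
    rw [Xl_t K h hx.1 hx.2, rl_t K h hx.1 hx.2, mul_sub, Real.exp_sub]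
    have hE := (Real.exp_pos (K.p * x)).ne'
    unfold St ee
    field_simp
    ring
  rw [h1]
  have hd : ∀ x ∈ uIcc 0 (K.r 0), HasDerivAt (fun x => (-(Real.exp (K.p * (K.r 0 - x)) / K.p) - x) / K.p)
      ((Real.exp (K.p * (K.r 0 - x)) - 1) / K.p) x := by
    intro x _
    have e1 : HasDerivAt (fun x => Real.exp (K.p * (K.r 0 - x))) (Real.exp (K.p * (K.r 0 - x)) * (K.p * -1)) x :=
      (((hasDerivAt_id x).const_sub (K.r 0)).const_mul K.p).exp
    refine ((((e1.div_const K.p).neg).sub (hasDerivAt_id x)).div_const K.p).congr_deriv ?_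
    field_simp
  have hi : IntervalIntegrable (fun x => (Real.exp (K.p * (K.r 0 - x)) - 1) / K.p) volume 0 (K.r 0) :=
    (by fun_prop : Continuous fun x : ℝ => (Real.exp (K.p * (K.r 0 - x)) - 1) / K.p).intervalIntegrable _ _
  rw [intervalIntegral.integral_eq_sub_of_hasDerivAt hd hi, sub_self, mul_zero, Real.exp_zero, sub_zero]
  field_simp
  ring_nf

theorem L3_I2 (K : Bd) (h : K.CF) (hq : 0 < K.q) (hr : 0 < K.r 0) (z : ℝ) (hz : 0 ≤ z) (hX : K.col.Xu z = K.St) :
    ∫ x in (0:ℝ)..z, (K.St - K.col.Xu x) * K.col.ru x / K.Gf x ^ 2 = ∫ x in (0:ℝ)..(K.r 0), (K.St - K.col.Xl x) / K.col.rl x := by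
  rw [L3a_lhs K h hq hr z hz hX, L3a_rhs K h hr]

end Bd

end Pool.Agent.Lib.MP_1dedaf_gt.DK
end
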