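import Mathlib

section

/-!
# The planar logarithmic Brunn-Minkowski inequality: definitions

Conventions. `E2` is the Euclidean plane, `rot` the rotation by a quarter turn, `hs K` the support
function, `Wu f` the Wulff shape of a function `f` on the unit circle, `ar` the area. For finitely many
unit vectors `u i` (condition `Adm`): `Q u k` is the polygon `{x : <x, u i> ≤ k i}`,
`Z u k θ = ∫_{Q u k} exp <θ, x>`, `sg u k θ i` the integral of `exp <θ, x>` over the edge with normal
`u i`, `th u S = ∑ S i • u i`, `G u k S = log (Z u k (th u S)) - ∑ S i * k i`, `Psi u S = sup_k G u k S`.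
`Opt u S k`: the polygon `Q u k` with the tilt `th u S` has centroid `0` and edge masses `S i * Z`.

For the `n` regular directions `dir n i` (`i : ZMod n`, angles `2π i / n`, `dl n = 2π/n`): `lo`, `hi` are the
end points of the edge `i`, `ver n k i` the vertex between the edges `i`, `i + 1`, `dens` the normalised density
`exp <θ, x> / Z` along an edge, `rh` its value at the vertices. The definitions after that belong to a pair of
edges `s`, `t = s + m` (`0 < m`, `2 m < n`): `u (s+j) = aj j • u s + bj j • u t`, tilt `= al • u s + be • u t`.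
-/

set_option autoImplicit false

open MeasureTheory Set Filter Topology

namespace Pool.Agent.Lib.MP_1dedaf_gt.LB

/-- The Euclidean plane. -/
abbrev E2 := EuclideanSpace ℝ (Fin 2)

/-- Rotation by a quarter turn. -/
noncomputable def rot (x : E2) : E2 := !₂[-x 1, x 0]

/-- The support function. -/
noncomputable def hs (K : Set E2) (u : E2) : ℝ := sSup ((fun y => inner ℝ y u) '' K)

/-- Convex bodies with the origin in the interior. -/
structure Body (K : Set E2) : Prop where
  conv : Convex ℝ K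
  comp : IsCompact K
  zero : (0 : E2) ∈ interior K

/-- The Wulff shape of a function on the unit circle. -/
def Wu (f : E2 → ℝ) : Set E2 := {x | ∀ u : E2, ‖u‖ = 1 → inner ℝ x u ≤ f u}

/-- The area. -/
noncomputable def ar (K : Set E2) : ℝ := (volume K).toReal

section Polygons

variable {ι : Type} [Fintype ι]

/-- Admissible directions: unit vectors, pairwise not parallel, positively spanning the plane. -/
structure Adm (u : ι → E2) : Prop where
  unit : ∀ i, ‖u i‖ = 1
  gen : ∀ i j, i ≠ j → inner ℝ (u j) (rot (u i)) ≠ 0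
  span : ∀ x : E2, x ≠ 0 → ∃ i, 0 < inner ℝ x (u i)

omit [Fintype ι] in
/-- The polygon with outer normals `u i` and support numbers `k i`. -/
def Q (u : ι → E2) (k : ι → ℝ) : Set E2 := {x | ∀ i, inner ℝ x (u i) ≤ k i}

omit [Fintype ι] in
/-- `Q u k` has interior points. -/
def Fat (u : ι → E2) (k : ι → ℝ) : Prop := ∃ x : E2, ∀ i, inner ℝ x (u i) < k i

omit [Fintype ι] in
/-- Every side touches the polygon. -/
def Tight (u : ι → E2) (k : ι → ℝ) : Prop := ∀ i, ∃ x ∈ Q u k, inner ℝ x (u i) = k i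

omit [Fintype ι] in
/-- The integral of `exp <θ, x>` over the polygon. -/
noncomputable def Z (u : ι → E2) (k : ι → ℝ) (θ : E2) : ℝ := ∫ x in Q u k, Real.exp (inner ℝ θ x)

omit [Fintype ι] in
/-- The edge with normal `u i`, in the coordinate `τ`. -/
def fac (u : ι → E2) (k : ι → ℝ) (i : ι) : Set ℝ := {τ | k i • u i + τ • rot (u i) ∈ Q u k}

omit [Fintype ι] in
/-- The integral of `exp <θ, x>` over the edge with normal `u i`. -/
noncomputable def sg (u : ι → E2) (k : ι → ℝ) (θ : E2) (i : ι) : ℝ :=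
  ∫ τ in fac u k i, Real.exp (inner ℝ θ (k i • u i + τ • rot (u i)))

omit [Fintype ι] in
/-- The integral over the slice at height `h` of the polygon without its `i`-th constraint. -/
noncomputable def sl (u : ι → E2) (k : ι → ℝ) (θ : E2) (i : ι) (h : ℝ) : ℝ :=
  ∫ τ in {τ : ℝ | ∀ j, j ≠ i → inner ℝ (h • u i + τ • rot (u i)) (u j) ≤ k j},
    Real.exp (inner ℝ θ (h • u i + τ • rot (u i)))

/-- The tilt belonging to the edge masses `S`. -/
noncomputable def th (u : ι → E2) (S : ι → ℝ) : E2 := ∑ i, S i • u i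

/-- `log ∫_{Q u k} exp (- ∑ S i (k i - <x, u i>)) dx`. -/
noncomputable def G (u : ι → E2) (k : ι → ℝ) (S : ι → ℝ) : ℝ :=
  Real.log (Z u k (th u S)) - ∑ i, S i * k i

/-- The dual functional. -/
noncomputable def Psi (u : ι → E2) (S : ι → ℝ) : ℝ := sSup {r | ∃ k, Fat u k ∧ r = G u k S}

/-- `Q u k` is the (centered) polygon with edge masses `S` for the tilt `th u S`. -/
structure Opt (u : ι → E2) (S : ι → ℝ) (k : ι → ℝ) : Prop where
  fat : Fat u k
  mass : ∀ i, sg u k (th u S) i = S i * Z u k (th u S)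
  cent : ∫ x in Q u k, Real.exp (inner ℝ (th u S) x) • x = 0

end Polygons

/-- The angle between consecutive directions. -/
noncomputable def dl (n : ℕ) : ℝ := 2 * Real.pi / n

/-- The `n` regular directions. -/
noncomputable def dir (n : ℕ) (i : ZMod n) : E2 := !₂[Real.cos (dl n * (i.val : ℝ)), Real.sin (dl n * (i.val : ℝ))]

noncomputable def hi (n : ℕ) (k : ZMod n → ℝ) (i : ZMod n) : ℝ :=
  (k (i + 1) - k i * Real.cos (dl n)) / Real.sin (dl n)

noncomputable def lo (n : ℕ) (k : ZMod n → ℝ) (i : ZMod n) : ℝ :=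
  (k i * Real.cos (dl n) - k (i - 1)) / Real.sin (dl n)

/-- The vertex between the edges `i` and `i + 1`. -/
noncomputable def ver (n : ℕ) (k : ZMod n → ℝ) (i : ZMod n) : E2 := k i • dir n i + hi n k i • rot (dir n i)

/-- The normalised density at the vertex `i`. -/
noncomputable def rh (n : ℕ) (k : ZMod n → ℝ) (θ : E2) (i : ZMod n) : ℝ :=
  Real.exp (inner ℝ θ (ver n k i)) / Z (dir n) k θ

/-- The normalised density along the edge `i`. -/
noncomputable def dens (n : ℕ) (k : ZMod n → ℝ) (θ : E2) (i : ZMod n) (τ : ℝ) : ℝ :=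
  Real.exp (inner ℝ θ (k i • dir n i + τ • rot (dir n i))) / Z (dir n) k θ

noncomputable def aj (n m j : ℕ) : ℝ := Real.sin (((m : ℝ) - j) * dl n) / Real.sin (m * dl n)

noncomputable def bj (n m j : ℕ) : ℝ := Real.sin (j * dl n) / Real.sin (m * dl n)

/-- The `u s`-component of the tilt. -/
noncomputable def al (n m : ℕ) (s : ZMod n) (T : ZMod n → ℝ) : ℝ := ∑ j ∈ Finset.range n, aj n m j * T (s + (j : ℕ))

/-- The `u (s+m)`-component of the tilt. -/
noncomputable def be (n m : ℕ) (s : ZMod n) (T : ZMod n → ℝ) : ℝ := ∑ j ∈ Finset.range n, bj n m j * T (s + (j : ℕ))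

noncomputable def Aj (n m : ℕ) (s : ZMod n) (T : ZMod n → ℝ) (l : ℕ) : ℝ :=
  ∑ j ∈ Finset.range l, aj n m (j + 1) * T (s + ((j + 1 : ℕ) : ZMod n))

noncomputable def Bj (n m : ℕ) (s : ZMod n) (T : ZMod n → ℝ) (l : ℕ) : ℝ :=
  ∑ j ∈ Finset.range l, bj n m (j + 1) * T (s + ((j + 1 : ℕ) : ZMod n))

/-- Linear interpolation. -/
def seg (x y σ : ℝ) : ℝ := x + σ * (y - x)

/-- The densities at the vertices `s`, `s+1`, ... -/
noncomputable def rr (n : ℕ) [NeZero n] (T k : ZMod n → ℝ) (s : ZMod n) (l : ℕ) : ℝ := rh n k (th (dir n) T) (s + (l : ℕ))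

/-- The function `a` on the edge `s + l + 1`: `A` before and on the edge `s + m`, `A - α` after it. -/
noncomputable def af (n m : ℕ) (s : ZMod n) (T : ZMod n → ℝ) (l : ℕ) (σ : ℝ) : ℝ :=
  seg (Aj n m s T l) (Aj n m s T (l + 1)) σ - (if m ≤ l then al n m s T else 0)

/-- `<g> = ∑_l b (l+1) T (l+1) ∫_0^1 g l σ / ρ²`. -/
noncomputable def br (n m : ℕ) [NeZero n] (s : ZMod n) (T k : ZMod n → ℝ) (g : ℕ → ℝ → ℝ) : ℝ :=
  ∑ l ∈ Finset.range (n - 1), bj n m (l + 1) * T (s + ((l + 1 : ℕ) : ZMod n)) *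
    ∫ σ in (0:ℝ)..1, g l σ / seg (rr n T k s l) (rr n T k s (l + 1)) σ ^ 2

/-- `A - A_m`. -/
noncomputable def At (n m : ℕ) (s : ZMod n) (T : ZMod n → ℝ) (l : ℕ) (σ : ℝ) : ℝ :=
  seg (Aj n m s T l) (Aj n m s T (l + 1)) σ - Aj n m s T m

/-- The kernel `R_{st}`, `t = s + m`: minus the derivative of the support number `k s` with respect to the mass of the edge `t`. -/
noncomputable def Rker (n m : ℕ) [NeZero n] (s : ZMod n) (T k : ZMod n → ℝ) : ℝ :=
  - (Real.sin (m * dl n) ^ 2 / al n m s T) *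
    (br n m s T k (fun l σ => af n m s T l σ * At n m s T l σ) +
      (1 / (Real.sin (m * dl n) * rr n T k s m) - br n m s T k (af n m s T)) / br n m s T k (fun _ _ => 1) *
        br n m s T k (At n m s T))

/-- The kernel is nonnegative. -/
def Ker : Prop := ∀ (n : ℕ) [NeZero n], Odd n → 3 ≤ n → ∀ m : ℕ, 0 < m → 2 * m < n → ∀ (s : ZMod n) (T k : ZMod n → ℝ),
  (∀ i, 0 < T i) → Opt (dir n) T k → al n m s T ≠ 0 → be n m s T ≠ 0 → 0 ≤ Rker n m s T k

end Pool.Agent.Lib.MP_1dedaf_gt.LB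
end

section

/-!
# TASK LB C0a: the regular directions

`dir n i = (cos (2π i/n), sin (2π i/n))`, `i ∈ ZMod n` (representative `i.val`). With `δ = 2π/n` (`dl n`): for `s : ZMod n`, `j : ℕ`
`<dir (s + j), dir s> = cos (j δ)`, `<dir (s+j), rot (dir s)> = sin (j δ)`, because `(s + j).val ≡ s.val + j` modulo `n` and
`cos, sin` have period `2π`. (`dir_comb`) `sin (m δ) dir (s+j) = sin ((m-j) δ) dir s + sin (j δ) dir (s+m)`: compare coordinates
(addition theorems).
-/

set_option autoImplicit false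

open MeasureTheory Set Filter Topology

namespace Pool.Agent.Lib.MP_1dedaf_gt.LB

private theorem C0a_ang (n : ℕ) [NeZero n] (s : ZMod n) (j : ℕ) :
    Real.cos (dl n * (((s + (j : ZMod n)).val : ℕ) : ℝ)) = Real.cos (dl n * s.val + j * dl n) ∧
    Real.sin (dl n * (((s + (j : ZMod n)).val : ℕ) : ℝ)) = Real.sin (dl n * s.val + j * dl n) := by
  have hn : (n : ℝ) ≠ 0 := by exact_mod_cast NeZero.ne n
  have h1 : (s + (j : ZMod n)).val = (s.val + j) % n := by
    rw [ZMod.val_add, ZMod.val_natCast, Nat.add_mod_mod]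
  have h2 := Nat.mod_add_div (s.val + j) n
  have h3 : dl n * s.val + j * dl n =
      dl n * (((s + (j : ZMod n)).val : ℕ) : ℝ) +
        (((s.val + j) / n : ℕ) : ℝ) * (2 * Real.pi) := by
    have h4 : ((s.val : ℕ) : ℝ) + (j : ℝ) =
        (((s.val + j) % n : ℕ) : ℝ) + (n : ℝ) * (((s.val + j) / n : ℕ) : ℝ) := by
      exact_mod_cast h2.symm
    rw [h1]
    have h5 : dl n * s.val + j * dl n = dl n * ((s.val : ℕ) + (j : ℝ)) := by ring
    rw [h5, h4, mul_add]
    congr 1
    rw [dl]
    field_simp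
  rw [h3, Real.cos_add_nat_mul_two_pi, Real.sin_add_nat_mul_two_pi]
  exact ⟨rfl, rfl⟩

theorem dir_norm (n : ℕ) (i : ZMod n) : ‖dir n i‖ = 1 := by
  rw [EuclideanSpace.norm_eq, Fin.sum_univ_two]
  simp [dir]

theorem dir_inner (n : ℕ) [NeZero n] (s : ZMod n) (j : ℕ) :
    inner ℝ (dir n (s + j)) (dir n s) = Real.cos (j * dl n) ∧
    inner ℝ (dir n (s + j)) (rot (dir n s)) = Real.sin (j * dl n) ∧
    inner ℝ (dir n s) (rot (dir n (s + j))) = - Real.sin (j * dl n) := by
  obtain ⟨h1, h2⟩ := C0a_ang n s j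
  have h3 := Real.sin_sq_add_cos_sq (dl n * s.val)
  refine ⟨?_, ?_, ?_⟩
  · simp only [dir, PiLp.inner_apply, Fin.sum_univ_two, RCLike.inner_apply, conj_trivial,
      Matrix.cons_val_zero, Matrix.cons_val_one, Matrix.cons_val_fin_one]
    rw [h1, h2, Real.cos_add, Real.sin_add]
    linear_combination Real.cos (j * dl n) * h3
  · simp only [dir, rot, PiLp.inner_apply, Fin.sum_univ_two, RCLike.inner_apply, conj_trivial,
      Matrix.cons_val_zero, Matrix.cons_val_one, Matrix.cons_val_fin_one]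
    rw [h1, h2, Real.cos_add, Real.sin_add]
    linear_combination Real.sin (j * dl n) * h3
  · simp only [dir, rot, PiLp.inner_apply, Fin.sum_univ_two, RCLike.inner_apply, conj_trivial,
      Matrix.cons_val_zero, Matrix.cons_val_one, Matrix.cons_val_fin_one]
    rw [h1, h2, Real.cos_add, Real.sin_add]
    linear_combination - Real.sin (j * dl n) * h3

theorem dir_comb (n : ℕ) [NeZero n] (s : ZMod n) (m j : ℕ) :
    Real.sin (m * dl n) • dir n (s + j) =
      Real.sin (((m : ℝ) - j) * dl n) • dir n s + Real.sin (j * dl n) • dir n (s + m) := by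
  obtain ⟨h1, h2⟩ := C0a_ang n s j
  obtain ⟨h3, h4⟩ := C0a_ang n s m
  ext i
  fin_cases i
  · simp only [dir, PiLp.smul_apply, PiLp.add_apply, smul_eq_mul, Fin.zero_eta,
      Matrix.cons_val_zero]
    rw [h1, h3, sub_mul, Real.sin_sub, Real.cos_add, Real.cos_add]
    ring
  · simp only [dir, PiLp.smul_apply, PiLp.add_apply, smul_eq_mul, Fin.mk_one,
      Matrix.cons_val_one, Matrix.cons_val_fin_one]
    rw [h2, h4, sub_mul, Real.sin_sub, Real.sin_add, Real.sin_add]
    ring

end Pool.Agent.Lib.MP_1dedaf_gt.LB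
end

section

/-!
# TASK LB A3a: orthonormal coordinates

Proof. The map is the composition of the measure preserving `EuclideanSpace.volume_preserving_...` (identification of `E2` with
`Fin 2 → ℝ`, then with `ℝ × ℝ`: `MeasureTheory.volume_preserving_finTwoArrow`) and the linear map `p ↦ p.1 • u + p.2 • rot u`,
which is a linear isometry of the Euclidean plane (`u`, `rot u` orthonormal, `LinearIsometryEquiv.measurePreserving`), or: its
matrix has determinant `(u 0)^2 + (u 1)^2 = 1` (`MeasureTheory.Measure.addHaar_preimage_linearMap` / `map_linearMap_addHaar_eq_smul_addHaar`).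
It is a homeomorphism, hence a measurable embedding.
-/

set_option autoImplicit false

open MeasureTheory Set Filter Topology

namespace Pool.Agent.Lib.MP_1dedaf_gt.LB

private theorem A3a_rot0 (u : E2) : rot u 0 = - u 1 := by simp [rot]

private theorem A3a_rot1 (u : E2) : rot u 1 = u 0 := by simp [rot]

private theorem A3a_inner (u v : E2) : (inner ℝ u v : ℝ) = u 0 * v 0 + u 1 * v 1 := by
  simp [PiLp.inner_apply, Fin.sum_univ_two, mul_comm]

private theorem A3a_nsq (u : E2) : ‖u‖ ^ 2 = u 0 ^ 2 + u 1 ^ 2 := by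
  rw [EuclideanSpace.norm_sq_eq, Fin.sum_univ_two]
  simp

theorem rot_norm (u : E2) : ‖rot u‖ = ‖u‖ := by
  have h : ‖rot u‖ ^ 2 = ‖u‖ ^ 2 := by
    rw [A3a_nsq, A3a_nsq, A3a_rot0, A3a_rot1]
    ring
  exact (pow_left_inj₀ (norm_nonneg _) (norm_nonneg _) two_ne_zero).1 h

theorem rot_inner (u : E2) : inner ℝ u (rot u) = 0 := by
  rw [A3a_inner, A3a_rot0, A3a_rot1]
  ring

private theorem A3a_ext {x y : E2} (h0 : x 0 = y 0) (h1 : x 1 = y 1) : x = y := by
  ext i
  fin_cases i
  · exact h0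
  · exact h1

/-- Every vector in the orthonormal basis `u`, `rot u`. -/
theorem rot_decomp (u : E2) (hu : ‖u‖ = 1) (x : E2) :
    x = (inner ℝ x u : ℝ) • u + (inner ℝ x (rot u) : ℝ) • rot u := by
  have h1 : u 0 ^ 2 + u 1 ^ 2 = 1 := by rw [← A3a_nsq, hu]; norm_num
  refine A3a_ext ?_ ?_
  · simp only [PiLp.add_apply, PiLp.smul_apply, smul_eq_mul, A3a_inner, A3a_rot0, A3a_rot1]
    linear_combination (- x 0) * h1
  · simp only [PiLp.add_apply, PiLp.smul_apply, smul_eq_mul, A3a_inner, A3a_rot0, A3a_rot1]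
    linear_combination (- x 1) * h1

private noncomputable def A3a_lin (u : E2) : E2 →ₗ[ℝ] E2 where
  toFun x := x 0 • u + x 1 • rot u
  map_add' x y := by
    simp only [PiLp.add_apply, add_smul]
    abel
  map_smul' c x := by
    simp only [PiLp.smul_apply, smul_eq_mul, RingHom.id_apply, smul_add, smul_smul]

private theorem A3a_norm (u : E2) (hu : ‖u‖ = 1) (x : E2) : ‖A3a_lin u x‖ = ‖x‖ := by
  have h1 : u 0 ^ 2 + u 1 ^ 2 = 1 := by rw [← A3a_nsq, hu]; norm_num
  have h : ‖A3a_lin u x‖ ^ 2 = ‖x‖ ^ 2 := by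
    rw [A3a_nsq, A3a_nsq]
    show (x 0 • u + x 1 • rot u) 0 ^ 2 + (x 0 • u + x 1 • rot u) 1 ^ 2 = _
    simp only [PiLp.add_apply, PiLp.smul_apply, smul_eq_mul, A3a_rot0, A3a_rot1]
    linear_combination (x 0 ^ 2 + x 1 ^ 2) * h1
  exact (pow_left_inj₀ (norm_nonneg _) (norm_nonneg _) two_ne_zero).1 h

theorem coord_mp (u : E2) (hu : ‖u‖ = 1) :
    MeasurePreserving (fun p : ℝ × ℝ => p.1 • u + p.2 • rot u) (volume : Measure (ℝ × ℝ)) (volume : Measure E2) ∧
    MeasurableEmbedding (fun p : ℝ × ℝ => p.1 • u + p.2 • rot u) := by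
  let L : E2 →ₗᵢ[ℝ] E2 := ⟨A3a_lin u, A3a_norm u hu⟩
  let e : E2 ≃ₗᵢ[ℝ] E2 := L.toLinearIsometryEquiv rfl
  let E : ℝ × ℝ ≃ᵐ E2 := ((MeasurableEquiv.finTwoArrow (α := ℝ)).symm.trans
    (MeasurableEquiv.toLp 2 (Fin 2 → ℝ))).trans e.toHomeomorph.toMeasurableEquiv
  have hE : (E : ℝ × ℝ → E2) = fun p => p.1 • u + p.2 • rot u := by
    funext p
    rfl
  have h1 : MeasurePreserving (E : ℝ × ℝ → E2) volume volume := by
    refine MeasurePreserving.comp (g := e) e.measurePreserving ?_
    refine MeasurePreserving.comp (g := MeasurableEquiv.toLp 2 (Fin 2 → ℝ)) ?_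
      ((volume_preserving_finTwoArrow ℝ).symm _)
    exact (EuclideanSpace.volume_preserving_symm_measurableEquiv_toLp (Fin 2)).symm
  rw [← hE]
  exact ⟨h1, E.measurableEmbedding⟩

end Pool.Agent.Lib.MP_1dedaf_gt.LB
end
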