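import Pool.Agent.Lib.MP_1dedaf_gt.Mg.G001

section

/-!
# TASK LB A0a: polygons: compactness

Proofs. (`span_const`) `m x = max_i <x, u i>` is continuous and positive on the unit sphere by `hu.span`, so `m ≥ c > 0`
there (compactness); scale. (There is an index, since `E2` has a nonzero vector.) For `x = 0` any index works.
(`Q_compact`) closed: intersection of closed half planes; bounded: `c * ‖x‖ ≤ <x, u i> ≤ k i ≤ ∑ |k j|`.
-/

set_option autoImplicit false

open MeasureTheory Set Filter Topology

namespace Pool.Agent.Lib.MP_1dedaf_gt.LB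

variable {ι : Type} [Fintype ι]

theorem span_const {u : ι → E2} (hu : Adm u) : ∃ c : ℝ, 0 < c ∧ ∀ x : E2, ∃ i, c * ‖x‖ ≤ inner ℝ x (u i) := by
  have h10 : (EuclideanSpace.single (0 : Fin 2) (1 : ℝ) : E2) ≠ 0 := by
    intro h
    have h2 := congrArg (fun v : E2 => v 0) h
    simp at h2
  obtain ⟨i0, -⟩ := hu.span _ h10
  have : Nonempty ι := ⟨i0⟩
  have hm : Continuous (fun x : E2 => Finset.univ.sup' Finset.univ_nonempty (fun i : ι => inner ℝ x (u i))) :=
    Continuous.finset_sup'_apply Finset.univ_nonempty
      (fun i _ => Continuous.inner continuous_id continuous_const)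
  have hpos : ∀ x : E2, x ≠ 0 → 0 < Finset.univ.sup' Finset.univ_nonempty (fun i : ι => inner ℝ x (u i)) := by
    intro x hx
    obtain ⟨i, hi⟩ := hu.span x hx
    exact lt_of_lt_of_le hi (Finset.le_sup' (fun i : ι => inner ℝ x (u i)) (Finset.mem_univ i))
  obtain ⟨z, hz, hmin⟩ := (isCompact_sphere (0 : E2) 1).exists_isMinOn
    (NormedSpace.sphere_nonempty.mpr zero_le_one) hm.continuousOn
  have hz0 : z ≠ 0 := by
    intro h
    rw [h] at hz
    simp at hz
  refine ⟨_, hpos z hz0, fun x => ?_⟩
  by_cases hx : x = 0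
  · refine ⟨i0, ?_⟩
    rw [hx]
    simp
  · have hnx : 0 < ‖x‖ := norm_pos_iff.mpr hx
    have hmem : ‖x‖⁻¹ • x ∈ Metric.sphere (0 : E2) 1 := by
      rw [mem_sphere_zero_iff_norm, norm_smul, norm_inv, norm_norm]
      exact inv_mul_cancel₀ hnx.ne'
    have h1 := hmin hmem
    obtain ⟨i, -, hi⟩ := Finset.exists_mem_eq_sup' Finset.univ_nonempty
      (fun i : ι => inner ℝ (‖x‖⁻¹ • x) (u i))
    refine ⟨i, ?_⟩
    have h2 : Finset.univ.sup' Finset.univ_nonempty (fun i : ι => inner ℝ z (u i)) ≤
        inner ℝ (‖x‖⁻¹ • x) (u i) := by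
      rw [← hi]
      exact h1
    rw [real_inner_smul_left] at h2
    calc _ ≤ (‖x‖⁻¹ * inner ℝ x (u i)) * ‖x‖ := mul_le_mul_of_nonneg_right h2 hnx.le
      _ = inner ℝ x (u i) := by field_simp

theorem Q_compact {u : ι → E2} (hu : Adm u) (k : ι → ℝ) : IsCompact (Q u k) := by
  obtain ⟨c, hc, hcx⟩ := span_const hu
  refine Metric.isCompact_of_isClosed_isBounded ?_ ?_
  · have : Q u k = ⋂ i, {x : E2 | inner ℝ x (u i) ≤ k i} := by
      ext x
      simp [Q]
    rw [this]
    exact isClosed_iInter fun i => isClosed_le (Continuous.inner continuous_id continuous_const) continuous_const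
  · refine (Metric.isBounded_iff_subset_closedBall (0 : E2)).mpr ⟨(∑ j, |k j|) / c, fun x hx => ?_⟩
    rw [mem_closedBall_zero_iff, le_div_iff₀ hc]
    obtain ⟨i, hi⟩ := hcx x
    have h1 : inner ℝ x (u i) ≤ k i := hx i
    have h2 : |k i| ≤ ∑ j, |k j| := Finset.single_le_sum (fun j _ => abs_nonneg (k j)) (Finset.mem_univ i)
    have h3 := le_abs_self (k i)
    linarith

theorem Q_convex (u : ι → E2) (k : ι → ℝ) : Convex ℝ (Q u k) := by
  intro x hx y hy a b ha hb hab i
  have h1 : inner ℝ x (u i) ≤ k i := hx i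
  have h2 : inner ℝ y (u i) ≤ k i := hy i
  show inner ℝ (a • x + b • y) (u i) ≤ k i
  rw [inner_add_left, real_inner_smul_left, real_inner_smul_left]
  calc a * inner ℝ x (u i) + b * inner ℝ y (u i) ≤ a * k i + b * k i :=
        add_le_add (mul_le_mul_of_nonneg_left h1 ha) (mul_le_mul_of_nonneg_left h2 hb)
    _ = k i := by rw [← add_mul, hab, one_mul]

theorem Z_integrable {u : ι → E2} (hu : Adm u) (k : ι → ℝ) (θ : E2) :
    IntegrableOn (fun x : E2 => Real.exp (inner ℝ θ x)) (Q u k) := by
  refine ContinuousOn.integrableOn_compact (Q_compact hu k) ?_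
  exact (Real.continuous_exp.comp (Continuous.inner continuous_const continuous_id)).continuousOn

end Pool.Agent.Lib.MP_1dedaf_gt.LB
end

section

/-!
# TASK LB A0c: translation and scaling of the polygons

Proofs. (`Z_translate`) `Q u (k + <x, u ·>) = x + Q u k`, translation
invariance of Lebesgue measure. (`Z_scale`) `Q u (r k) = r • Q u k`, substitution `x = r y` (`Measure.setIntegral_comp_smul`
or `addHaar`), the dimension is 2.
-/

set_option autoImplicit false

open MeasureTheory Set Filter Topology

namespace Pool.Agent.Lib.MP_1dedaf_gt.LB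

variable {ι : Type} [Fintype ι]

omit [Fintype ι] in
private theorem A0c_meas (u : ι → E2) (k : ι → ℝ) : MeasurableSet (Q u k) := by
  have h : Q u k = ⋂ i, {x : E2 | inner ℝ x (u i) ≤ k i} := by
    ext x
    simp [Q]
  rw [h]
  refine (isClosed_iInter fun i => ?_).measurableSet
  exact isClosed_le (continuous_id.inner continuous_const) continuous_const

theorem Z_translate (u : ι → E2) (k : ι → ℝ) (θ x : E2) :
    Z u (fun i => k i + inner ℝ x (u i)) θ = Real.exp (inner ℝ θ x) * Z u k θ := by
  unfold Z
  rw [← integral_indicator (A0c_meas u _), ← integral_indicator (A0c_meas u _),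
    ← integral_add_right_eq_self _ x, ← integral_const_mul]
  congr 1
  ext y
  have hmem : y + x ∈ Q u (fun i => k i + inner ℝ x (u i)) ↔ y ∈ Q u k := by
    constructor
    · intro h i
      have h1 := h i
      rw [inner_add_left] at h1
      linarith
    · intro h i
      have h1 := h i
      change inner ℝ (y + x) (u i) ≤ k i + inner ℝ x (u i)
      rw [inner_add_left]
      linarith
  by_cases hy : y ∈ Q u k
  · rw [Set.indicator_of_mem (hmem.2 hy), Set.indicator_of_mem hy, inner_add_right, Real.exp_add]
    ring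
  · rw [Set.indicator_of_notMem (fun h => hy (hmem.1 h)), Set.indicator_of_notMem hy, mul_zero]

theorem Z_scale (u : ι → E2) (k : ι → ℝ) (θ : E2) {r : ℝ} (hr : 0 < r) :
    Z u (fun i => r * k i) θ = r ^ 2 * Z u k (r • θ) := by
  unfold Z
  rw [← integral_indicator (A0c_meas u _), ← integral_indicator (A0c_meas u _)]
  have key := Measure.integral_comp_smul (volume : Measure E2)
    (Set.indicator (Q u (fun i => r * k i)) (fun x : E2 => Real.exp (inner ℝ θ x))) r
  have hfin : Module.finrank ℝ E2 = 2 := by simp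
  have hfun : (fun x : E2 => Set.indicator (Q u (fun i => r * k i))
      (fun x : E2 => Real.exp (inner ℝ θ x)) (r • x)) =
      Set.indicator (Q u k) (fun x : E2 => Real.exp (inner ℝ (r • θ) x)) := by
    ext y
    have hmem : r • y ∈ Q u (fun i => r * k i) ↔ y ∈ Q u k := by
      constructor
      · intro h i
        have h1 := h i
        rw [real_inner_smul_left] at h1
        exact le_of_mul_le_mul_left h1 hr
      · intro h i
        have h1 := h i
        change inner ℝ (r • y) (u i) ≤ r * k i
        rw [real_inner_smul_left]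
        exact mul_le_mul_of_nonneg_left h1 hr.le
    by_cases hy : y ∈ Q u k
    · rw [Set.indicator_of_mem (hmem.2 hy), Set.indicator_of_mem hy, real_inner_smul_left,
        real_inner_smul_right]
    · rw [Set.indicator_of_notMem (fun h => hy (hmem.1 h)), Set.indicator_of_notMem hy]
  rw [hfun, hfin, abs_of_pos (by positivity), smul_eq_mul] at key
  rw [key]
  field_simp

end Pool.Agent.Lib.MP_1dedaf_gt.LB
end
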