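import Pool.Agent.Lib.MP_1dedaf_gt.Mg.G001
import Pool.Agent.Lib.MP_1dedaf_gt.LB.C0b
import Pool.Agent.Lib.MP_1dedaf_gt.LB.C0c
import Pool.Agent.Lib.MP_1dedaf_gt.Mg.G008

section

/-!
# TASK LB C0: (done: imports)


-/

set_option autoImplicit false

open MeasureTheory Set Filter Topology

namespace Pool.Agent.Lib.MP_1dedaf_gt.LB



end Pool.Agent.Lib.MP_1dedaf_gt.LB
end

section

/-!
# TASK LB C1a: edges of the polygons with regular normals

`δ = dl n`, `u i = dir n i`, `0 < sin δ`. `ver n k i` is the intersection of the lines `i` and `i+1`.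
(`ver_inner`, `ver_eq`) `<u (i+1), rot (u i)> = sin δ`, `<u i, u (i+1)> = cos δ` (`dir_inner`); two vectors with the same inner
products with `u i`, `u (i+1)` are equal (`rot_decomp`).
(`facets_of_len`) Let `ℓ i = hi i - lo i ≥ 0`; `ver i - ver (i-1) = ℓ i • rot (u i)`. Claim: `<ver i, u j> ≤ k j` for all `i, j`. Write
`i = j + p` or `i = j - 1 - p` with `0 ≤ p ≤ (n-1)/2` (`n` odd, every residue is of one of these forms). In the first case
`<ver (j+p), u j> - k j = ∑_{l=1}^p ℓ (j+l) <rot (u (j+l)), u j> = - ∑ ℓ (j+l) sin (l δ) ≤ 0` (`0 ≤ l δ ≤ π`). In the second case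
`<ver (j-1-p), u j> - k j = - ∑_{l=0}^{p-1} ℓ (j-1-l) <rot (u (j-1-l)), u j> = - ∑ ℓ (j-1-l) sin ((l+1) δ) ≤ 0`.
So all vertices are in `Q`, and `[lo j, hi j] ⊆ fac j` by convexity (its end points are `ver (j-1)`, `ver j`). If `τ > hi j` then
`<k j u j + τ rot (u j), u (j+1)> = k j cos δ + τ sin δ > k (j+1)`; if `τ < lo j` the constraint `j - 1` is violated. So equality.
-/

set_option autoImplicit false

open MeasureTheory Set Filter Topology

namespace Pool.Agent.Lib.MP_1dedaf_gt.LB

private theorem C1a_sin_pos (n : ℕ) (h3 : 3 ≤ n) : 0 < Real.sin (dl n) := by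
  have hn : (3 : ℝ) ≤ n := by exact_mod_cast h3
  have hpi := Real.pi_pos
  apply Real.sin_pos_of_pos_of_lt_pi
  · unfold dl; positivity
  · unfold dl
    rw [div_lt_iff₀ (by linarith)]
    nlinarith

private theorem C1a_succ (n : ℕ) [NeZero n] (s : ZMod n) :
    inner ℝ (dir n (s + 1)) (dir n s) = Real.cos (dl n) ∧
    inner ℝ (dir n (s + 1)) (rot (dir n s)) = Real.sin (dl n) ∧
    inner ℝ (dir n s) (rot (dir n (s + 1))) = - Real.sin (dl n) := by
  have h := dir_inner n s 1
  simpa using h

private theorem C1a_uu (n : ℕ) (i : ZMod n) : inner ℝ (dir n i) (dir n i) = (1 : ℝ) := by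
  rw [real_inner_self_eq_norm_sq, dir_norm]; norm_num

theorem ver_inner (n : ℕ) [NeZero n] (hn : Odd n) (h3 : 3 ≤ n) (k : ZMod n → ℝ) (i : ZMod n) :
    inner ℝ (ver n k i) (dir n i) = k i ∧ inner ℝ (ver n k i) (dir n (i + 1)) = k (i + 1) := by
  have hs := C1a_sin_pos n h3
  obtain ⟨h1, h2, h3⟩ := C1a_succ n i
  have h4 : inner ℝ (rot (dir n i)) (dir n i) = (0 : ℝ) := by
    rw [real_inner_comm]; exact rot_inner _
  constructor
  · rw [ver, inner_add_left, real_inner_smul_left, real_inner_smul_left, C1a_uu, h4]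
    ring
  · rw [ver, inner_add_left, real_inner_smul_left, real_inner_smul_left,
      real_inner_comm, h1, real_inner_comm, h2, hi]
    field_simp
    ring

theorem ver_eq (n : ℕ) [NeZero n] (hn : Odd n) (h3 : 3 ≤ n) (k : ZMod n → ℝ) (i : ZMod n) :
    ver n k (i - 1) = k i • dir n i + lo n k i • rot (dir n i) := by
  have hs := C1a_sin_pos n h3
  obtain ⟨e1, e2⟩ := ver_inner n hn h3 k (i - 1)
  obtain ⟨h1, h2, h3⟩ := C1a_succ n (i - 1)
  rw [sub_add_cancel] at e2 h1 h2 h3
  have hx := rot_decomp (dir n i) (dir_norm n i) (ver n k (i - 1))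
  rw [e2] at hx
  have hy : inner ℝ (ver n k (i - 1)) (rot (dir n i)) = lo n k i := by
    have h5 : inner ℝ (ver n k (i - 1)) (dir n (i - 1)) =
        k i * Real.cos (dl n) + inner ℝ (ver n k (i - 1)) (rot (dir n i)) * (-Real.sin (dl n)) := by
      conv_lhs => rw [hx]
      rw [inner_add_left, real_inner_smul_left, real_inner_smul_left, h1,
        real_inner_comm (dir n (i - 1)) (rot (dir n i)), h3]
    rw [e1] at h5
    rw [lo, eq_div_iff hs.ne']
    linarith
  rw [hy] at hx
  exact hx

private theorem C1a_diff (n : ℕ) [NeZero n] (hn : Odd n) (h3 : 3 ≤ n) (k : ZMod n → ℝ) (i : ZMod n) :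
    ver n k i = ver n k (i - 1) + (hi n k i - lo n k i) • rot (dir n i) := by
  rw [ver_eq n hn h3, ver, sub_smul]
  abel

private theorem C1a_up (n : ℕ) [NeZero n] (hn : Odd n) (h3 : 3 ≤ n) {k : ZMod n → ℝ}
    (hl : ∀ i, lo n k i ≤ hi n k i) (s : ZMod n) (p : ℕ) (hp : 2 * p ≤ n) :
    inner ℝ (ver n k (s + p)) (dir n s) ≤ k s := by
  induction p with
  | zero =>
    rw [Nat.cast_zero, add_zero, (ver_inner n hn h3 k s).1]
  | succ p ih =>
    have h1 := ih (by omega)
    have h2 : s + ((p + 1 : ℕ) : ZMod n) - 1 = s + p := by push_cast; ring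
    rw [C1a_diff n hn h3, h2, inner_add_left, real_inner_smul_left,
      real_inner_comm (dir n s) (rot (dir n (s + ((p + 1 : ℕ) : ZMod n)))),
      (dir_inner n s (p + 1)).2.2]
    have h4 : 0 ≤ Real.sin (((p + 1 : ℕ) : ℝ) * dl n) := by
      have hpi := Real.pi_pos
      have hn0 : (0 : ℝ) < n := by
        have : (3 : ℝ) ≤ n := by exact_mod_cast h3
        linarith
      apply Real.sin_nonneg_of_nonneg_of_le_pi
      · unfold dl; positivity
      · unfold dl
        rw [mul_div_assoc', div_le_iff₀ hn0]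
        have : (2 : ℝ) * ((p + 1 : ℕ) : ℝ) ≤ n := by exact_mod_cast hp
        nlinarith
    have h5 : 0 ≤ hi n k (s + ((p + 1 : ℕ) : ZMod n)) - lo n k (s + ((p + 1 : ℕ) : ZMod n)) :=
      sub_nonneg.2 (hl _)
    have h6 := mul_nonneg h5 h4
    linarith

private theorem C1a_down (n : ℕ) [NeZero n] (hn : Odd n) (h3 : 3 ≤ n) {k : ZMod n → ℝ}
    (hl : ∀ i, lo n k i ≤ hi n k i) (s : ZMod n) (p : ℕ) (hp : 2 * p ≤ n) :
    inner ℝ (ver n k (s - 1 - p)) (dir n s) ≤ k s := by
  induction p with
  | zero =>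
    have h := (ver_inner n hn h3 k (s - 1)).2
    rw [sub_add_cancel] at h
    rw [Nat.cast_zero, sub_zero, h]
  | succ p ih =>
    have h1 := ih (by omega)
    have h2 : s - 1 - ((p + 1 : ℕ) : ZMod n) = s - 1 - p - 1 := by push_cast; ring
    have h3' : dir n s = dir n ((s - 1 - p) + ((p + 1 : ℕ) : ZMod n)) := by
      congr 1; push_cast; ring
    have h7 := C1a_diff n hn h3 k (s - 1 - p)
    rw [h7, inner_add_left, real_inner_smul_left, real_inner_comm (dir n s) (rot _)] at h1
    have h8 : inner ℝ (dir n s) (rot (dir n (s - 1 - p))) = Real.sin (((p + 1 : ℕ) : ℝ) * dl n) := by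
      rw [h3']
      exact (dir_inner n (s - 1 - p) (p + 1)).2.1
    rw [h8] at h1
    have h4 : 0 ≤ Real.sin (((p + 1 : ℕ) : ℝ) * dl n) := by
      have hpi := Real.pi_pos
      have hn0 : (0 : ℝ) < n := by
        have : (3 : ℝ) ≤ n := by exact_mod_cast h3
        linarith
      apply Real.sin_nonneg_of_nonneg_of_le_pi
      · unfold dl; positivity
      · unfold dl
        rw [mul_div_assoc', div_le_iff₀ hn0]
        have : (2 : ℝ) * ((p + 1 : ℕ) : ℝ) ≤ n := by exact_mod_cast hp
        nlinarith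
    have h5 : 0 ≤ hi n k (s - 1 - p) - lo n k (s - 1 - p) := sub_nonneg.2 (hl _)
    have h6 := mul_nonneg h5 h4
    rw [h2]
    linarith

private theorem C1a_all (n : ℕ) [NeZero n] (hn : Odd n) (h3 : 3 ≤ n) {k : ZMod n → ℝ}
    (hl : ∀ i, lo n k i ≤ hi n k i) (i j : ZMod n) : inner ℝ (ver n k i) (dir n j) ≤ k j := by
  have hlt : (i - j).val < n := ZMod.val_lt _
  have hc : (((i - j).val : ℕ) : ZMod n) = i - j := ZMod.natCast_zmod_val _
  by_cases h : 2 * (i - j).val ≤ n
  · have h1 := C1a_up n hn h3 hl j (i - j).val h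
    rw [hc] at h1
    rwa [add_sub_cancel] at h1
  · have h1 := C1a_down n hn h3 hl j (n - 1 - (i - j).val) (by omega)
    have h2 : ((n - 1 - (i - j).val : ℕ) : ZMod n) = -1 - (i - j) := by
      rw [Nat.cast_sub (by omega), Nat.cast_sub (by omega), hc, ZMod.natCast_self]
      push_cast
      ring
    rw [h2] at h1
    have h4 : j - 1 - (-1 - (i - j)) = i := by ring
    rwa [h4] at h1

theorem facets_of_len (n : ℕ) [NeZero n] (hn : Odd n) (h3 : 3 ≤ n) {k : ZMod n → ℝ} (hl : ∀ i, lo n k i ≤ hi n k i) (i : ZMod n) :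
    fac (dir n) k i = Icc (lo n k i) (hi n k i) := by
  have hs := C1a_sin_pos n h3
  ext τ
  constructor
  · intro h
    have h' : ∀ j, inner ℝ (k i • dir n i + τ • rot (dir n i)) (dir n j) ≤ k j := h
    constructor
    · have h1 := h' (i - 1)
      obtain ⟨e1, e2, e3⟩ := C1a_succ n (i - 1)
      rw [sub_add_cancel] at e1 e2 e3
      rw [inner_add_left, real_inner_smul_left, real_inner_smul_left, e1,
        real_inner_comm (dir n (i - 1)) (rot (dir n i)), e3] at h1
      rw [lo, div_le_iff₀ hs]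
      linarith
    · have h1 := h' (i + 1)
      obtain ⟨e1, e2, e3⟩ := C1a_succ n i
      rw [inner_add_left, real_inner_smul_left, real_inner_smul_left,
        real_inner_comm (dir n (i + 1)) (dir n i), e1,
        real_inner_comm (dir n (i + 1)) (rot (dir n i)), e2] at h1
      rw [hi, le_div_iff₀ hs]
      linarith
  · rintro ⟨h1, h2⟩
    show ∀ j, inner ℝ (k i • dir n i + τ • rot (dir n i)) (dir n j) ≤ k j
    intro j
    have a1 := C1a_all n hn h3 hl (i - 1) j
    have a2 := C1a_all n hn h3 hl i j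
    rw [ver_eq n hn h3, inner_add_left, real_inner_smul_left, real_inner_smul_left] at a1
    rw [ver, inner_add_left, real_inner_smul_left, real_inner_smul_left] at a2
    rw [inner_add_left, real_inner_smul_left, real_inner_smul_left]
    rcases le_total 0 (inner ℝ (rot (dir n i)) (dir n j) : ℝ) with h | h
    · nlinarith [mul_le_mul_of_nonneg_right h2 h]
    · nlinarith [mul_le_mul_of_nonpos_right h1 h]

end Pool.Agent.Lib.MP_1dedaf_gt.LB
end

section

/-!
# TASK LB C1b: polygons all of whose edges have positive length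

`δ = dl n`, `u i = dir n i`. Let `i` be given; `fac i` is a compact interval (`Q_compact`) of positive length (the integral over it is positive), let `τ₁` be its
maximum, `v = k i u i + τ₁ rot (u i) ∈ Q`. There is `j` with `<u j, rot (u i)> > 0` and `<v, u j> = k j` (otherwise `τ₁ + ε ∈ fac i`).
Write `j = i + m`, `0 < m < n`; `sin (m δ) > 0` gives `2 m < n`. If `m > 1`: `u (i+1) = a u i + b u j` with
`a = sin ((m-1)δ)/sin (mδ) > 0`, `b = sin δ/sin (mδ) > 0` (`dir_comb`). For `y ∈ Q`, `<y, u (i+1)> ≤ a k i + b k j = <v, u (i+1)> ≤ k (i+1)`;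
for `y` on the edge `i+1` equality holds, so `<y, u i> = k i`, `<y, u j> = k j` and `y = v`. So the edge `i+1` is a point, a contradiction to
`sg (i+1) > 0`. So `m = 1`, `<v, u (i+1)> = k (i+1)`, which says `τ₁ = hi i`. In the same way the minimum of `fac i` is `lo i`.
(The proof below is shorter: a point of the edge `i + 1` shows that `ver i` satisfies all constraints.)
-/

set_option autoImplicit false

open MeasureTheory Set Filter Topology

namespace Pool.Agent.Lib.MP_1dedaf_gt.LB

private theorem c1b_up (n : ℕ) [NeZero n] (s : ZMod n) (j : ℕ) (κ τ : ℝ) :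
    inner ℝ (κ • dir n s + τ • rot (dir n s)) (dir n (s + j)) =
      κ * Real.cos (j * dl n) + τ * Real.sin (j * dl n) := by
  have h := dir_inner n s j
  rw [inner_add_left, real_inner_smul_left, real_inner_smul_left, real_inner_comm (dir n (s + j)) (dir n s),
    real_inner_comm (dir n (s + j)) (rot (dir n s)), h.1, h.2.1]

private theorem c1b_dn (n : ℕ) [NeZero n] (s : ZMod n) (j : ℕ) (κ τ : ℝ) :
    inner ℝ (κ • dir n (s + j) + τ • rot (dir n (s + j))) (dir n s) =
      κ * Real.cos (j * dl n) - τ * Real.sin (j * dl n) := by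
  have h := dir_inner n s j
  rw [inner_add_left, real_inner_smul_left, real_inner_smul_left, h.1,
    real_inner_comm (dir n s) (rot (dir n (s + j))), h.2.2]
  ring

private theorem c1b_sin (n : ℕ) (h3 : 3 ≤ n) (m : ℕ) (hm : 2 * m < n) : 0 ≤ Real.sin (m * dl n) := by
  have hn : (0 : ℝ) < n := by exact_mod_cast (by omega : 0 < n)
  have hpi := Real.pi_pos
  have h1 : (m : ℝ) * dl n ≤ Real.pi := by
    unfold dl
    rw [mul_div_assoc', div_le_iff₀ hn]
    have : (2 * m : ℝ) ≤ n := by exact_mod_cast hm.le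
    nlinarith
  have h0 : 0 ≤ (m : ℝ) * dl n := by unfold dl; positivity
  exact Real.sin_nonneg_of_nonneg_of_le_pi h0 h1

private theorem c1b_sin1 (n : ℕ) (h3 : 3 ≤ n) : 0 < Real.sin (dl n) := by
  have hn : (0 : ℝ) < n := by exact_mod_cast (by omega : 0 < n)
  have hpi := Real.pi_pos
  have h1 : dl n < Real.pi := by
    unfold dl
    rw [div_lt_iff₀ hn]
    have : (3 : ℝ) ≤ n := by exact_mod_cast h3
    nlinarith
  have h0 : 0 < dl n := by unfold dl; positivity
  exact Real.sin_pos_of_pos_of_lt_pi h0 h1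

private theorem c1b_alg {s c S C S' C' K0 K1 Km σ : ℝ} (hs : 0 < s) (h1 : s ^ 2 + c ^ 2 = 1)
    (hS : S = S' * c + C' * s) (hC : C = C' * c - S' * s) (hS' : 0 ≤ S')
    (a : K1 * c - σ * s ≤ K0) (b : K1 * C' + σ * S' ≤ Km) :
    K0 * C + (K1 - K0 * c) / s * S ≤ Km := by
  have e : s * (K0 * C + (K1 - K0 * c) / s * S) = K1 * S - K0 * S' := by
    field_simp
    rw [hS, hC]
    linear_combination (-K0 * S') * h1
  have f : K1 * S - K0 * S' ≤ s * Km := by
    have f1 : S' * (K1 * c - K0) ≤ S' * (σ * s) := mul_le_mul_of_nonneg_left (by linarith) hS'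
    have f2 : s * (K1 * C' + σ * S') ≤ s * Km := mul_le_mul_of_nonneg_left b hs.le
    rw [hS]
    nlinarith
  rw [← e] at f
  exact le_of_mul_le_mul_left f hs

private theorem c1b_ne (n : ℕ) {k : ZMod n → ℝ} {θ : E2} {i : ZMod n}
    (hp : 0 < sg (dir n) k θ i) : (fac (dir n) k i).Nonempty := by
  rw [Set.nonempty_iff_ne_empty]
  intro h
  have : sg (dir n) k θ i = 0 := by
    unfold sg
    rw [h]
    simp
  linarith

theorem len_of_pos (n : ℕ) [NeZero n] (hn : Odd n) (h3 : 3 ≤ n) {k : ZMod n → ℝ} {θ : E2}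
    (hp : ∀ i, 0 < sg (dir n) k θ i) (i : ZMod n) :
    lo n k i < hi n k i ∧ fac (dir n) k i = Icc (lo n k i) (hi n k i) := by
  have hs := c1b_sin1 n h3
  have hsc : Real.sin (dl n) ^ 2 + Real.cos (dl n) ^ 2 = 1 := Real.sin_sq_add_cos_sq _
  obtain ⟨σ, hσ⟩ := c1b_ne n (hp (i + 1))
  obtain ⟨ρ, hρ⟩ := c1b_ne n (hp (i - 1))
  -- upper constraints
  have up : ∀ m : ℕ, 2 * m < n → k i * Real.cos (m * dl n) + hi n k i * Real.sin (m * dl n) ≤ k (i + m) := by
    intro m hm
    rcases Nat.eq_zero_or_pos m with rfl | hm0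
    · simp
    · obtain ⟨p, rfl⟩ : ∃ p, m = p + 1 := ⟨m - 1, by omega⟩
      have a0 := hσ i
      have e0 := c1b_dn n i 1 (k (i + 1)) σ
      rw [Nat.cast_one, Nat.cast_one, one_mul] at e0
      rw [e0] at a0
      have b0 := hσ (i + 1 + (p : ℕ))
      rw [c1b_up n (i + 1) p (k (i + 1)) σ] at b0
      have e1 : i + 1 + ((p : ℕ) : ZMod n) = i + ((p + 1 : ℕ) : ZMod n) := by push_cast; ring
      rw [e1] at b0
      have e2 : ((p + 1 : ℕ) : ℝ) * dl n = p * dl n + dl n := by push_cast; ring
      rw [e2]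
      exact c1b_alg hs hsc (Real.sin_add _ _) (Real.cos_add _ _) (c1b_sin n h3 p (by omega)) a0 b0
  have dn : ∀ (m : ℕ) (j : ZMod n), 2 * m < n → i = j + m →
      k i * Real.cos (m * dl n) - lo n k i * Real.sin (m * dl n) ≤ k j := by
    intro m j hm hj
    rcases Nat.eq_zero_or_pos m with rfl | hm0
    · have : i = j := by simpa using hj
      subst this
      simp
    · obtain ⟨p, rfl⟩ : ∃ p, m = p + 1 := ⟨m - 1, by omega⟩
      have a0 := hρ i
      have e0 := c1b_up n (i - 1) 1 (k (i - 1)) ρ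
      rw [Nat.cast_one, Nat.cast_one, one_mul, sub_add_cancel] at e0
      rw [e0] at a0
      have b0 := hρ j
      have e1 : i - 1 = j + ((p : ℕ) : ZMod n) := by rw [hj]; push_cast; ring
      have b1 := c1b_dn n j p (k (i - 1)) ρ
      rw [← e1] at b1
      rw [b1] at b0
      have e2 : ((p + 1 : ℕ) : ℝ) * dl n = p * dl n + dl n := by push_cast; ring
      rw [e2]
      have h := c1b_alg (K0 := k i) (K1 := k (i - 1)) (Km := k j) (σ := -ρ) hs hsc
        (Real.sin_add (p * dl n) (dl n)) (Real.cos_add (p * dl n) (dl n)) (c1b_sin n h3 p (by omega))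
        (by linarith) (by linarith)
      have e3 : lo n k i = -((k (i - 1) - k i * Real.cos (dl n)) / Real.sin (dl n)) := by
        unfold lo
        rw [← neg_div]
        ring
      rw [e3]
      linarith
  have hF : fac (dir n) k i = Icc (lo n k i) (hi n k i) := by
    ext τ
    constructor
    · intro hτ
      have a0 := hτ (i + ((1 : ℕ) : ZMod n))
      rw [c1b_up n i 1 (k i) τ, Nat.cast_one, Nat.cast_one, one_mul] at a0
      have b0 := hτ (i - 1)
      have b1 := c1b_dn n (i - 1) 1 (k i) τ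
      rw [Nat.cast_one, Nat.cast_one, one_mul, sub_add_cancel] at b1
      rw [b1] at b0
      constructor
      · unfold lo
        rw [div_le_iff₀ hs]
        linarith
      · unfold hi
        rw [le_div_iff₀ hs]
        linarith
    · rintro ⟨h1, h2⟩ j
      have hlt : (j - i).val < n := ZMod.val_lt _
      have hj : j = i + (((j - i).val : ℕ) : ZMod n) := by
        rw [ZMod.natCast_val, ZMod.cast_id', id_eq]
        ring
      rcases lt_or_ge (2 * (j - i).val) n with h | h
      · rw [hj]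
        rw [c1b_up n i _ (k i) τ]
        have h5 := up (j - i).val h
        have h6 := mul_le_mul_of_nonneg_right h2 (c1b_sin n h3 _ h)
        linarith
      · have hne : 2 * (j - i).val ≠ n := by
          intro he
          rcases hn with ⟨t, ht⟩
          omega
        have h' : 2 * (n - (j - i).val) < n := by omega
        have hij : i = j + ((n - (j - i).val : ℕ) : ZMod n) := by
          rw [Nat.cast_sub hlt.le, ZMod.natCast_self, ZMod.natCast_val, ZMod.cast_id', id_eq]
          ring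
        have h5 := dn _ j h' hij
        have h6 := mul_le_mul_of_nonneg_right h1 (c1b_sin n h3 _ h')
        have h7 := c1b_dn n j (n - (j - i).val) (k i) τ
        rw [← hij] at h7
        rw [h7]
        linarith
  refine ⟨?_, hF⟩
  by_contra hcon
  have hcon' : hi n k i ≤ lo n k i := not_lt.1 hcon
  have h0 : sg (dir n) k θ i = 0 := by
    unfold sg
    rw [hF]
    refine setIntegral_measure_zero _ ?_
    rw [Real.volume_Icc]
    simp [hcon']
  have := hp i
  linarith

end Pool.Agent.Lib.MP_1dedaf_gt.LB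
end
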