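import Pool.Agent.Lib.MP_1dedaf_gt.DK.Reg
import Pool.Agent.Lib.MP_1dedaf_gt.DK.A0
import Pool.Agent.Lib.MP_1dedaf_gt.Mg.G001
import Pool.Agent.Lib.MP_1dedaf_gt.Mg.G007
import Pool.Agent.Lib.MP_1dedaf_gt.DK.SDefs

section

/-!
# TASK DK C1a: integrals over the body by columns and by rows

Proof. `S = {z | K.mem z.1 z.2}` is closed (`l`, `u` continuous) and bounded, so compact; `F` is continuous. `slice_col`: Fubini (`setIntegral` over a measurable set of `ℝ × ℝ` as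
`∫ x, ∫ y, indicator`, `MeasureTheory.integral_prod`, integrable because continuous on a compact set): the inner integral is `∫ y in Icc (l x) (u x)` for `x ∈ [0, w]` and `0` otherwise
(`intervalIntegral.integral_of_le`, `Icc`/`Ioc` a.e. equal). `slice_row`: by `K.Ok.iff` the set is `{z | 0 ≤ z.2 ∧ z.2 ≤ h ∧ g z.2 ≤ z.1 ∧ z.1 ≤ r z.2}`; `integral_prod_symm` or swap. `mass_eq`: `F = exp (p x + q y)`,
inner integral `(exp (p x + q u) - exp (p x + q l))/q = mu x`. `D_eq`: `F = exp (- (p x + q y))`, inner integral `(1/rl - 1/ru)/q`. `mr_set`: the same with `S ∩ {x' ≥ x}`; for continuous `F` the columns `x' ≥ x`.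
-/

set_option autoImplicit false

open MeasureTheory Set Filter Topology

namespace Pool.Agent.Lib.MP_1dedaf_gt.DK

private def C1a_T (a b : ℝ) (l u : ℝ → ℝ) : Set (ℝ × ℝ) :=
  {z | a ≤ z.1 ∧ z.1 ≤ b ∧ l z.1 ≤ z.2 ∧ z.2 ≤ u z.1}

private theorem C1a_T_closed (a b : ℝ) {l u : ℝ → ℝ} (cl : Continuous l) (cu : Continuous u) :
    IsClosed (C1a_T a b l u) := by
  refine (isClosed_le continuous_const continuous_fst).inter
    ((isClosed_le continuous_fst continuous_const).inter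
      ((isClosed_le (cl.comp continuous_fst) continuous_snd).inter
        (isClosed_le continuous_snd (cu.comp continuous_fst))))

private theorem C1a_T_compact (a b : ℝ) {l u : ℝ → ℝ} (cl : Continuous l) (cu : Continuous u) :
    IsCompact (C1a_T a b l u) := by
  rcases (Icc a b).eq_empty_or_nonempty with h | h
  · have h1 : C1a_T a b l u = ∅ := by
      ext z
      simp only [mem_empty_iff_false, iff_false]
      intro hz
      have : z.1 ∈ Icc a b := ⟨hz.1, hz.2.1⟩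
      rw [h] at this
      exact this
    rw [h1]
    exact isCompact_empty
  · obtain ⟨x1, -, h1⟩ := isCompact_Icc.exists_isMinOn h cl.continuousOn
    obtain ⟨x2, -, h2⟩ := isCompact_Icc.exists_isMaxOn h cu.continuousOn
    refine IsCompact.of_isClosed_subset
      ((isCompact_Icc (a := a) (b := b)).prod (isCompact_Icc (a := l x1) (b := u x2)))
      (C1a_T_closed a b cl cu) ?_
    rintro ⟨x, y⟩ ⟨ha, hb, hl, hu⟩
    refine ⟨⟨ha, hb⟩, ?_, ?_⟩
    · exact (h1 ⟨ha, hb⟩ : l x1 ≤ l x).trans hl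
    · exact le_trans hu (h2 ⟨ha, hb⟩ : u x ≤ u x2)

private theorem C1a_fub {a b : ℝ} (hab : a ≤ b) {l u : ℝ → ℝ} (cl : Continuous l) (cu : Continuous u)
    (lu : ∀ x ∈ Icc a b, l x ≤ u x) (F : ℝ × ℝ → ℝ) (hF : Continuous F) :
    ∫ z in C1a_T a b l u, F z = ∫ x in a..b, ∫ y in (l x)..(u x), F (x, y) := by
  have hm : MeasurableSet (C1a_T a b l u) := (C1a_T_closed a b cl cu).measurableSet
  have hi : Integrable ((C1a_T a b l u).indicator F) ((volume : Measure ℝ).prod volume) := by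
    have h1 : IntegrableOn F (C1a_T a b l u) volume :=
      hF.continuousOn.integrableOn_compact (C1a_T_compact a b cl cu)
    exact (integrable_indicator_iff hm).2 h1
  rw [← integral_indicator hm]
  have h2 : ∫ z, (C1a_T a b l u).indicator F z =
      ∫ x, ∫ y, (C1a_T a b l u).indicator F (x, y) := by
    rw [Measure.volume_eq_prod]
    exact integral_prod _ hi
  rw [h2, intervalIntegral.integral_of_le hab, ← integral_Icc_eq_integral_Ioc,
    ← integral_indicator measurableSet_Icc]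
  congr 1
  funext x
  by_cases hx : x ∈ Icc a b
  · rw [indicator_of_mem hx, intervalIntegral.integral_of_le (lu x hx),
      ← integral_Icc_eq_integral_Ioc, ← integral_indicator measurableSet_Icc]
    congr 1
    funext y
    by_cases hy : y ∈ Icc (l x) (u x)
    · rw [indicator_of_mem hy, indicator_of_mem]
      exact ⟨hx.1, hx.2, hy.1, hy.2⟩
    · rw [indicator_of_notMem hy, indicator_of_notMem]
      rintro ⟨-, -, h3, h4⟩
      exact hy ⟨h3, h4⟩
  · rw [indicator_of_notMem hx]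
    have h3 : ∀ y, (C1a_T a b l u).indicator F (x, y) = 0 := by
      intro y
      rw [indicator_of_notMem]
      rintro ⟨h3, h4, -⟩
      exact hx ⟨h3, h4⟩
    simp only [h3, integral_zero]

private theorem C1a_swap (s : Set (ℝ × ℝ)) (F : ℝ × ℝ → ℝ) :
    ∫ z in Prod.swap ⁻¹' s, F z = ∫ z in s, F z.swap := by
  have h1 : MeasurePreserving (Prod.swap : ℝ × ℝ → ℝ × ℝ) volume volume := by
    rw [Measure.volume_eq_prod]
    exact Measure.measurePreserving_swap
  have h2 := h1.setIntegral_preimage_emb MeasurableEquiv.prodComm.measurableEmbedding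
    (fun z => F z.swap) s
  simpa using h2

private theorem C1a_in1 {q : ℝ} (hq : q ≠ 0) (c a b : ℝ) :
    ∫ y in a..b, Real.exp (c + q * y) = (Real.exp (c + q * b) - Real.exp (c + q * a)) / q := by
  have h1 : ∀ y ∈ uIcc a b, HasDerivAt (fun y => Real.exp (c + q * y) / q) (Real.exp (c + q * y)) y := by
    intro y _
    have h2 : HasDerivAt (fun y : ℝ => c + q * y) q y := by
      simpa using ((hasDerivAt_id y).const_mul q).const_add c
    have h3 := h2.exp.div_const q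
    have h4 : Real.exp (c + q * y) * q / q = Real.exp (c + q * y) := by field_simp
    rw [h4] at h3
    exact h3
  rw [intervalIntegral.integral_eq_sub_of_hasDerivAt h1]
  · ring
  · exact (Real.continuous_exp.comp (continuous_const.add (continuous_const.mul
      continuous_id))).intervalIntegrable _ _

private theorem C1a_in2 {q : ℝ} (hq : q ≠ 0) (c a b : ℝ) :
    ∫ y in a..b, (Real.exp (c + q * y))⁻¹ =
      (1 / Real.exp (c + q * a) - 1 / Real.exp (c + q * b)) / q := by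
  have h1 : ∀ y, (Real.exp (c + q * y))⁻¹ = Real.exp (-c + (-q) * y) := by
    intro y
    rw [← Real.exp_neg]
    congr 1
    ring
  simp only [h1]
  rw [C1a_in1 (neg_ne_zero.2 hq), one_div, one_div, h1, h1, div_neg, ← neg_div]
  ring

namespace Bd

/-- The body as a set. -/
def S (K : Bd) : Set (ℝ × ℝ) := {z | K.mem z.1 z.2}

/-- The density. -/
noncomputable def den (K : Bd) (z : ℝ × ℝ) : ℝ := Real.exp (K.p * z.1 + K.q * z.2)

private theorem C1a_S (K : Bd) : K.S = C1a_T 0 K.w K.l K.u := rfl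

private theorem C1a_S' (K : Bd) (h : K.Ok) : K.S = Prod.swap ⁻¹' C1a_T 0 K.h K.g K.r := by
  ext z
  exact h.iff z.1 z.2

private theorem C1a_den (K : Bd) : Continuous K.den :=
  Real.continuous_exp.comp ((continuous_const.mul continuous_fst).add
    (continuous_const.mul continuous_snd))

theorem S_compact (K : Bd) (h : K.Ok) : IsCompact K.S ∧ MeasurableSet K.S := by
  rw [C1a_S]
  exact ⟨C1a_T_compact _ _ h.cl h.cu, (C1a_T_closed _ _ h.cl h.cu).measurableSet⟩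

theorem slice_col (K : Bd) (h : K.Ok) (F : ℝ × ℝ → ℝ) (hF : Continuous F) :
    ∫ z in K.S, F z = ∫ x in (0:ℝ)..K.w, ∫ y in (K.l x)..(K.u x), F (x, y) := by
  rw [C1a_S]
  exact C1a_fub h.hw.le h.cl h.cu h.lu F hF

theorem slice_row (K : Bd) (h : K.Ok) (F : ℝ × ℝ → ℝ) (hF : Continuous F) :
    ∫ z in K.S, F z = ∫ y in (0:ℝ)..K.h, ∫ x in (K.g y)..(K.r y), F (x, y) := by
  rw [C1a_S' K h, C1a_swap]
  exact C1a_fub h.hh.le h.cg h.cr h.gr (fun z => F z.swap) (hF.comp continuous_swap)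

theorem M_set (K : Bd) (h : K.Ok) : K.col.M = ∫ z in K.S, K.den z := by
  rw [slice_col K h _ (C1a_den K)]
  unfold Dat.M
  congr 1
  funext x
  exact (C1a_in1 h.hq (K.p * x) (K.l x) (K.u x)).symm

private theorem C1a_deninv (K : Bd) : Continuous fun z => (K.den z)⁻¹ :=
  (C1a_den K).inv₀ fun _ => (Real.exp_pos _).ne'

theorem D_set (K : Bd) (h : K.Ok) : K.col.D = ∫ z in K.S, (K.den z)⁻¹ := by
  rw [slice_col K h _ (C1a_deninv K)]
  have h1 : ∀ x, ∫ y in (K.l x)..(K.u x), (K.den (x, y))⁻¹ =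
      (K.col.Xl x ^ 0 / K.col.rl x - K.col.Xu x ^ 0 / K.col.ru x) / K.q := by
    intro x
    rw [pow_zero, pow_zero]
    exact C1a_in2 h.hq (K.p * x) (K.l x) (K.u x)
  simp only [h1]
  rw [intervalIntegral.integral_div]
  rfl

private theorem C1a_rowden (K : Bd) (x y : ℝ) : K.den (x, y) = Real.exp (K.q * y + K.p * x) := by
  unfold den
  rw [add_comm]

private theorem C1a_rowM (K : Bd) (h : K.Ok) (y : ℝ) :
    ∫ x in (K.g y)..(K.r y), K.den (x, y) = K.row.mu y := by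
  simp only [C1a_rowden]
  exact C1a_in1 h.hp (K.q * y) (K.g y) (K.r y)

theorem row_M (K : Bd) (h : K.Ok) : K.row.M = K.col.M := by
  rw [M_set K h, slice_row K h _ (C1a_den K)]
  simp only [C1a_rowM K h]
  rfl

theorem row_D (K : Bd) (h : K.Ok) : K.row.D = K.col.D := by
  rw [D_set K h, slice_row K h _ (C1a_deninv K)]
  have h1 : ∀ y, ∫ x in (K.g y)..(K.r y), (K.den (x, y))⁻¹ =
      (K.row.Xl y ^ 0 / K.row.rl y - K.row.Xu y ^ 0 / K.row.ru y) / K.p := by
    intro y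
    rw [pow_zero, pow_zero]
    simp only [C1a_rowden]
    exact C1a_in2 h.hp (K.q * y) (K.g y) (K.r y)
  simp only [h1]
  rw [intervalIntegral.integral_div]
  rfl

/-- The mass of the part with coordinates `≥ x`, `≥ y`. -/
noncomputable def mne (K : Bd) (x y : ℝ) : ℝ := ∫ z in K.S ∩ (Ici x ×ˢ Ici y), K.den z

theorem mr_set (K : Bd) (h : K.Ok) (x : ℝ) (hx : x ∈ Icc 0 K.w) : K.col.mr x = K.mne x 0 := by
  have h1 : K.S ∩ (Ici x ×ˢ Ici 0) = C1a_T x K.w K.l K.u := by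
    ext z
    constructor
    · rintro ⟨⟨-, h2, h3, h4⟩, h5, -⟩
      exact ⟨h5, h2, h3, h4⟩
    · rintro ⟨h2, h3, h4, h5⟩
      have h6 : K.mem z.1 z.2 := ⟨hx.1.trans h2, h3, h4, h5⟩
      exact ⟨h6, h2, ((h.iff _ _).1 h6).1⟩
  unfold mne
  rw [h1, C1a_fub hx.2 h.cl h.cu (fun t ht => h.lu t ⟨hx.1.trans ht.1, ht.2⟩) _ (C1a_den K)]
  unfold Dat.mr
  congr 1
  funext t
  exact (C1a_in1 h.hq (K.p * t) (K.l t) (K.u t)).symm

theorem mr_set' (K : Bd) (h : K.Ok) (y : ℝ) (hy : y ∈ Icc 0 K.h) : K.row.mr y = K.mne 0 y := by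
  have h1 : K.S ∩ (Ici 0 ×ˢ Ici y) = Prod.swap ⁻¹' C1a_T y K.h K.g K.r := by
    ext z
    constructor
    · rintro ⟨h2, -, h5⟩
      obtain ⟨-, h6, h7, h8⟩ := (h.iff _ _).1 h2
      exact ⟨h5, h6, h7, h8⟩
    · rintro ⟨h2, h3, h4, h5⟩
      have h6 : K.mem z.1 z.2 := (h.iff _ _).2 ⟨hy.1.trans h2, h3, h4, h5⟩
      exact ⟨h6, h6.1, h2⟩
  unfold mne
  have h2 : Continuous fun z : ℝ × ℝ => K.den z.swap := (C1a_den K).comp continuous_swap
  rw [h1, C1a_swap, C1a_fub hy.2 h.cg h.cr (fun t ht => h.gr t ⟨hy.1.trans ht.1, ht.2⟩) _ h2]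
  unfold Dat.mr
  congr 1
  funext t
  exact (C1a_rowM K h t).symm

end Bd

end Pool.Agent.Lib.MP_1dedaf_gt.DK
end

section

/-!
# TASK LB C1: (done: imports)


-/

set_option autoImplicit false

open MeasureTheory Set Filter Topology

namespace Pool.Agent.Lib.MP_1dedaf_gt.LB



end Pool.Agent.Lib.MP_1dedaf_gt.LB
end

section

/-!
# TASK DK B1: coordinates of the vertices and edge points seen from `s`

Proof. `sx_zero`: `ver_inner` at `s`. `sx_last`: `s + (n-1) = s - 1`, `ver_inner` at `s - 1`: `<ver (s-1), u s> = k s`.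
`ver_eq` at `s + (j+1)`: `ver (s+j) = k u + lo rot u`, and `ver (s+j+1) = k u + hi rot u` (definition), with `u = dir n (s+(j+1))`, so the
difference is `(hi - lo) • rot u`; `<rot u, u s> = - sin ((j+1) δ)`, `<rot u, rot (u s)> = <u, u s> = cos ((j+1) δ)`, `<u, u s> = cos`,
`<u, rot (u s)> = sin` (`dir_inner`, `inner (rot x) (rot y) = inner x y`, `inner (rot x) y = - inner x (rot y)`; write everything in coordinates
if easier). `edge_x`, `edge_y`: the point `k u + τ rot u` of the edge; `<., u s> = k cos - τ sin`, `- <., rot (u s)> = - k sin - τ cos`;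
`ln` of the first one is the second one because `cos² + sin² = 1` (this needs `sin ≠ 0`).
-/

set_option autoImplicit false

open MeasureTheory Set Filter Topology

namespace Pool.Agent.Lib.MP_1dedaf_gt.DK

open Pool.Agent.Lib.MP_1dedaf_gt.LB

private theorem B1_inner_rot_rot (x y : E2) : inner ℝ (rot x) (rot y) = inner ℝ x y := by
  simp only [PiLp.inner_apply, rot, Fin.sum_univ_two, RCLike.inner_apply, conj_trivial,
    Matrix.cons_val_zero, Matrix.cons_val_one]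
  simp
  ring

private theorem B1_inner_rot (x y : E2) : inner ℝ (rot x) y = - inner ℝ x (rot y) := by
  simp only [PiLp.inner_apply, rot, Fin.sum_univ_two, RCLike.inner_apply, conj_trivial,
    Matrix.cons_val_zero, Matrix.cons_val_one]
  simp

/-- the coordinates of the points of the edge `s + (j+1)` -/
theorem B1_point_x (n : ℕ) [NeZero n] (s : ZMod n) (j : ℕ) (κ τ : ℝ) :
    inner ℝ (κ • dir n (s + ((j + 1 : ℕ) : ZMod n)) + τ • rot (dir n (s + ((j + 1 : ℕ) : ZMod n))))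
      (dir n s) = κ * Real.cos ((j + 1 : ℕ) * dl n) - τ * Real.sin ((j + 1 : ℕ) * dl n) := by
  obtain ⟨h1, h2, -⟩ := dir_inner n s (j + 1)
  rw [inner_add_left, real_inner_smul_left, real_inner_smul_left, B1_inner_rot, h1, h2]
  ring

theorem B1_point_y (n : ℕ) [NeZero n] (s : ZMod n) (j : ℕ) (κ τ : ℝ) :
    inner ℝ (κ • dir n (s + ((j + 1 : ℕ) : ZMod n)) + τ • rot (dir n (s + ((j + 1 : ℕ) : ZMod n))))
      (rot (dir n s)) = κ * Real.sin ((j + 1 : ℕ) * dl n) + τ * Real.cos ((j + 1 : ℕ) * dl n) := by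
  obtain ⟨h1, h2, -⟩ := dir_inner n s (j + 1)
  rw [inner_add_left, real_inner_smul_left, real_inner_smul_left, B1_inner_rot_rot, h1, h2]

theorem B1_ver_lo (n : ℕ) [NeZero n] (hn : Odd n) (h3 : 3 ≤ n) (k : ZMod n → ℝ) (s : ZMod n) (j : ℕ) :
    ver n k (s + (j : ℕ)) = k (s + ((j + 1 : ℕ) : ZMod n)) • dir n (s + ((j + 1 : ℕ) : ZMod n)) +
      lo n k (s + ((j + 1 : ℕ) : ZMod n)) • rot (dir n (s + ((j + 1 : ℕ) : ZMod n))) := by
  rw [← ver_eq n hn h3 k]
  congr 1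
  push_cast
  ring

theorem B1_sx (n : ℕ) [NeZero n] (hn : Odd n) (h3 : 3 ≤ n) (k : ZMod n → ℝ) (s : ZMod n) (j : ℕ) :
    sx n k s j = k s - (k (s + ((j + 1 : ℕ) : ZMod n)) * Real.cos ((j + 1 : ℕ) * dl n) -
      lo n k (s + ((j + 1 : ℕ) : ZMod n)) * Real.sin ((j + 1 : ℕ) * dl n)) := by
  unfold sx
  rw [B1_ver_lo n hn h3, B1_point_x]

theorem B1_sy (n : ℕ) [NeZero n] (hn : Odd n) (h3 : 3 ≤ n) (k : ZMod n → ℝ) (s : ZMod n) (j : ℕ) :
    sy n k s j = - (k (s + ((j + 1 : ℕ) : ZMod n)) * Real.sin ((j + 1 : ℕ) * dl n) +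
      lo n k (s + ((j + 1 : ℕ) : ZMod n)) * Real.cos ((j + 1 : ℕ) * dl n)) := by
  unfold sy
  rw [B1_ver_lo n hn h3, B1_point_y]

theorem B1_sx' (n : ℕ) [NeZero n] (k : ZMod n → ℝ) (s : ZMod n) (j : ℕ) :
    sx n k s (j + 1) = k s - (k (s + ((j + 1 : ℕ) : ZMod n)) * Real.cos ((j + 1 : ℕ) * dl n) -
      hi n k (s + ((j + 1 : ℕ) : ZMod n)) * Real.sin ((j + 1 : ℕ) * dl n)) := by
  unfold sx ver
  rw [B1_point_x]

theorem B1_sy' (n : ℕ) [NeZero n] (k : ZMod n → ℝ) (s : ZMod n) (j : ℕ) :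
    sy n k s (j + 1) = - (k (s + ((j + 1 : ℕ) : ZMod n)) * Real.sin ((j + 1 : ℕ) * dl n) +
      hi n k (s + ((j + 1 : ℕ) : ZMod n)) * Real.cos ((j + 1 : ℕ) * dl n)) := by
  unfold sy ver
  rw [B1_point_y]

theorem sx_zero (n : ℕ) [NeZero n] (hn : Odd n) (h3 : 3 ≤ n) (k : ZMod n → ℝ) (s : ZMod n) : sx n k s 0 = 0 := by
  unfold sx
  have h := (ver_inner n hn h3 k s).1
  simp only [Nat.cast_zero, add_zero]
  rw [h, sub_self]

theorem sx_last (n : ℕ) [NeZero n] (hn : Odd n) (h3 : 3 ≤ n) (k : ZMod n → ℝ) (s : ZMod n) : sx n k s (n - 1) = 0 := by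
  unfold sx
  have e : s + ((n - 1 : ℕ) : ZMod n) = s - 1 := by
    rw [Nat.cast_sub (by omega : 1 ≤ n)]
    simp
    ring
  have h := (ver_inner n hn h3 k (s - 1)).2
  rw [sub_add_cancel] at h
  rw [e, h, sub_self]

theorem sx_succ (n : ℕ) [NeZero n] (hn : Odd n) (h3 : 3 ≤ n) (k : ZMod n → ℝ) (s : ZMod n) (j : ℕ) :
    sx n k s (j + 1) = sx n k s j + Real.sin ((j + 1 : ℕ) * dl n) *
      (hi n k (s + ((j + 1 : ℕ) : ZMod n)) - lo n k (s + ((j + 1 : ℕ) : ZMod n))) := by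
  rw [B1_sx n hn h3 k s j, B1_sx']
  ring

theorem sy_succ (n : ℕ) [NeZero n] (hn : Odd n) (h3 : 3 ≤ n) (k : ZMod n → ℝ) (s : ZMod n) (j : ℕ) :
    sy n k s (j + 1) = sy n k s j - Real.cos ((j + 1 : ℕ) * dl n) *
      (hi n k (s + ((j + 1 : ℕ) : ZMod n)) - lo n k (s + ((j + 1 : ℕ) : ZMod n))) := by
  rw [B1_sy n hn h3 k s j, B1_sy']
  ring

theorem edge_x (n : ℕ) [NeZero n] (hn : Odd n) (h3 : 3 ≤ n) (k : ZMod n → ℝ) (s : ZMod n) (j : ℕ) (τ : ℝ) :
    k s - inner ℝ (k (s + ((j + 1 : ℕ) : ZMod n)) • dir n (s + ((j + 1 : ℕ) : ZMod n)) +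
        τ • rot (dir n (s + ((j + 1 : ℕ) : ZMod n)))) (dir n s) =
      sx n k s j + Real.sin ((j + 1 : ℕ) * dl n) * (τ - lo n k (s + ((j + 1 : ℕ) : ZMod n))) := by
  rw [B1_point_x, B1_sx n hn h3]
  ring

theorem edge_y (n : ℕ) [NeZero n] (hn : Odd n) (h3 : 3 ≤ n) (k : ZMod n → ℝ) (s : ZMod n) (j : ℕ) (τ : ℝ)
    (hs : Real.sin ((j + 1 : ℕ) * dl n) ≠ 0) :
    - inner ℝ (k (s + ((j + 1 : ℕ) : ZMod n)) • dir n (s + ((j + 1 : ℕ) : ZMod n)) +
        τ • rot (dir n (s + ((j + 1 : ℕ) : ZMod n)))) (rot (dir n s)) =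
      ln n k s (j + 1) (sx n k s j + Real.sin ((j + 1 : ℕ) * dl n) * (τ - lo n k (s + ((j + 1 : ℕ) : ZMod n)))) := by
  rw [← edge_x n hn h3 k s j τ, B1_point_x, B1_point_y]
  unfold ln
  rw [eq_div_iff hs]
  have h := Real.sin_sq_add_cos_sq (((j + 1 : ℕ) : ℝ) * dl n)
  linear_combination (k (s + ((j + 1 : ℕ) : ZMod n))) * (-h)

theorem ln_start (n : ℕ) [NeZero n] (hn : Odd n) (h3 : 3 ≤ n) (k : ZMod n → ℝ) (s : ZMod n) (j : ℕ)
    (hs : Real.sin ((j + 1 : ℕ) * dl n) ≠ 0) : ln n k s (j + 1) (sx n k s j) = sy n k s j := by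
  have h := edge_y n hn h3 k s j (lo n k (s + ((j + 1 : ℕ) : ZMod n))) hs
  rw [sub_self, mul_zero, add_zero] at h
  rw [← h, B1_point_y, B1_sy n hn h3]

theorem ln_end (n : ℕ) [NeZero n] (hn : Odd n) (h3 : 3 ≤ n) (k : ZMod n → ℝ) (s : ZMod n) (j : ℕ)
    (hs : Real.sin ((j + 1 : ℕ) * dl n) ≠ 0) : ln n k s (j + 1) (sx n k s (j + 1)) = sy n k s (j + 1) := by
  have h := edge_y n hn h3 k s j (hi n k (s + ((j + 1 : ℕ) : ZMod n))) hs
  rw [← sx_succ n hn h3] at h
  rw [← h, B1_point_y, B1_sy']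

end Pool.Agent.Lib.MP_1dedaf_gt.DK
end
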