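import Mathlib
import Pool.Agent.Lib.MP_1dedaf_gt.Mg.G001

section

/-!
# The two views of a body (campaign EP, SY1): arcs which are graphs over both axes

`PP φ ψ xs ys xe ye`: the product formula for the arc from `(xs, ys)` to `(xe, ye)` which is the graph `y = φ x` and the graph `x = ψ y`:
`∫ f(x) (∫_{ys}^{φ x} g) dx + ∫ g(y) (∫_{xs}^{ψ y} f) dy = (∫ f) (∫ g)`. It follows from Fubini's theorem on the region under the arc.
-/

set_option autoImplicit false

open MeasureTheory Set Filter Topology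

namespace Pool.Agent.Lib.MP_1dedaf_gt.DK

/-- The product formula for the arc from `(xs, ys)` to `(xe, ye)`. -/
def PP (φ ψ : ℝ → ℝ) (xs ys xe ye : ℝ) : Prop :=
  ∀ f g : ℝ → ℝ, Continuous f → Continuous g →
    (∫ t in xs..xe, f t * ∫ y in ys..φ t, g y) + (∫ y in ys..ye, g y * ∫ t in xs..ψ y, f t) =
      (∫ t in xs..xe, f t) * ∫ y in ys..ye, g y

private theorem SY1_intble (a b c d : ℝ) (φ f g : ℝ → ℝ) (cφ : Continuous φ) (cf : Continuous f) (cg : Continuous g) :
    Integrable (fun p : ℝ × ℝ => ({p : ℝ × ℝ | p.2 ≤ φ p.1}.indicator (fun p => f p.1 * g p.2)) p)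
      ((volume.restrict (Ioc a b)).prod (volume.restrict (Ioc c d))) := by
  rw [Measure.prod_restrict]
  refine Integrable.indicator ?_ (measurableSet_le measurable_snd (cφ.measurable.comp measurable_fst))
  have hc : Continuous (fun p : ℝ × ℝ => f p.1 * g p.2) := (cf.comp continuous_fst).mul (cg.comp continuous_snd)
  have h1 : IntegrableOn (fun p : ℝ × ℝ => f p.1 * g p.2) (Icc a b ×ˢ Icc c d) (volume.prod volume) :=
    hc.continuousOn.integrableOn_compact (isCompact_Icc.prod isCompact_Icc)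
  exact h1.mono_set (prod_mono Ioc_subset_Icc_self Ioc_subset_Icc_self)

/-- Fubini on the region under a decreasing arc. -/
theorem SY_fub (a b c d : ℝ) (hab : a ≤ b) (hcd : c ≤ d) (φ ψ f g : ℝ → ℝ) (cφ : Continuous φ)
    (cf : Continuous f) (cg : Continuous g) (hφ : ∀ x ∈ Icc a b, φ x ∈ Icc c d) (hψ : ∀ y ∈ Icc c d, ψ y ∈ Icc a b)
    (h : ∀ x ∈ Icc a b, ∀ y ∈ Icc c d, (y ≤ φ x ↔ x ≤ ψ y)) :
    (∫ x in a..b, f x * ∫ y in c..φ x, g y) = ∫ y in c..d, g y * ∫ x in a..ψ y, f x := by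
  rw [intervalIntegral.integral_of_le hab, intervalIntegral.integral_of_le hcd]
  have e1 : ∀ x ∈ Ioc a b, f x * ∫ y in c..φ x, g y =
      ∫ y in Ioc c d, ({p : ℝ × ℝ | p.2 ≤ φ p.1}.indicator (fun p => f p.1 * g p.2)) (x, y) := by
    intro x hx
    have hx' : x ∈ Icc a b := ⟨hx.1.le, hx.2⟩
    have h1 : (fun y => ({p : ℝ × ℝ | p.2 ≤ φ p.1}.indicator (fun p => f p.1 * g p.2)) (x, y)) =
        (Iic (φ x)).indicator (fun y => f x * g y) := by
      funext y
      by_cases hy : y ≤ φ x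
      · rw [indicator_of_mem (show (x, y) ∈ {p : ℝ × ℝ | p.2 ≤ φ p.1} from hy), indicator_of_mem (show y ∈ Iic (φ x) from hy)]
      · rw [indicator_of_notMem (show (x, y) ∉ {p : ℝ × ℝ | p.2 ≤ φ p.1} from hy), indicator_of_notMem (show y ∉ Iic (φ x) from hy)]
    rw [h1, setIntegral_indicator measurableSet_Iic]
    have h2 : Ioc c d ∩ Iic (φ x) = Ioc c (φ x) := by
      ext y
      constructor
      · rintro ⟨h3, h4⟩
        exact ⟨h3.1, h4⟩
      · rintro ⟨h3, h4⟩
        exact ⟨⟨h3, h4.trans (hφ x hx').2⟩, h4⟩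
    rw [h2, integral_const_mul, intervalIntegral.integral_of_le (hφ x hx').1]
  have e2 : ∀ y ∈ Ioc c d, g y * ∫ x in a..ψ y, f x =
      ∫ x in Ioc a b, ({p : ℝ × ℝ | p.2 ≤ φ p.1}.indicator (fun p => f p.1 * g p.2)) (x, y) := by
    intro y hy
    have hy' : y ∈ Icc c d := ⟨hy.1.le, hy.2⟩
    have h1 : ∀ x ∈ Ioc a b, ({p : ℝ × ℝ | p.2 ≤ φ p.1}.indicator (fun p => f p.1 * g p.2)) (x, y) =
        (Iic (ψ y)).indicator (fun x => g y * f x) x := by
      intro x hx
      have hx' : x ∈ Icc a b := ⟨hx.1.le, hx.2⟩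
      by_cases hxy : x ≤ ψ y
      · rw [indicator_of_mem (show (x, y) ∈ {p : ℝ × ℝ | p.2 ≤ φ p.1} from (h x hx' y hy').2 hxy),
          indicator_of_mem (show x ∈ Iic (ψ y) from hxy)]
        exact mul_comm _ _
      · rw [indicator_of_notMem (show (x, y) ∉ {p : ℝ × ℝ | p.2 ≤ φ p.1} from fun h5 => hxy ((h x hx' y hy').1 h5)),
          indicator_of_notMem (show x ∉ Iic (ψ y) from hxy)]
    rw [setIntegral_congr_fun measurableSet_Ioc h1, setIntegral_indicator measurableSet_Iic]
    have h2 : Ioc a b ∩ Iic (ψ y) = Ioc a (ψ y) := by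
      ext x
      constructor
      · rintro ⟨h3, h4⟩
        exact ⟨h3.1, h4⟩
      · rintro ⟨h3, h4⟩
        exact ⟨⟨h3, h4.trans (hψ y hy').2⟩, h4⟩
    rw [h2, integral_const_mul, intervalIntegral.integral_of_le (hψ y hy').1]
  rw [setIntegral_congr_fun measurableSet_Ioc e1, setIntegral_congr_fun measurableSet_Ioc e2]
  exact integral_integral_swap (f := fun x y => ({p : ℝ × ℝ | p.2 ≤ φ p.1}.indicator (fun p => f p.1 * g p.2)) (x, y))
    (SY1_intble a b c d φ f g cφ cf cg)

private theorem SY1_ii {f : ℝ → ℝ} (cf : Continuous f) (a b : ℝ) : IntervalIntegrable f volume a b :=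
  cf.intervalIntegrable a b

private theorem SY1_prim {g : ℝ → ℝ} (cg : Continuous g) (c : ℝ) : Continuous (fun x => ∫ y in c..x, g y) :=
  continuous_iff_continuousAt.mpr fun x => (cg.integral_hasStrictDerivAt c x).hasDerivAt.continuousAt

/-- Decreasing arcs, from the upper left to the lower right end. -/
theorem PP_dec (a b c d : ℝ) (hab : a ≤ b) (hcd : c ≤ d) (φ ψ : ℝ → ℝ) (cφ : Continuous φ) (cψ : Continuous ψ)
    (hφ : ∀ x ∈ Icc a b, φ x ∈ Icc c d) (hψ : ∀ y ∈ Icc c d, ψ y ∈ Icc a b)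
    (h : ∀ x ∈ Icc a b, ∀ y ∈ Icc c d, (y ≤ φ x ↔ x ≤ ψ y)) : PP φ ψ a d b c := by
  intro f g cf cg
  have h1 := SY_fub a b c d hab hcd φ ψ f g cφ cf cg hφ hψ h
  have h2 : (∫ t in a..b, f t * ∫ y in d..φ t, g y) =
      (∫ t in a..b, f t * ∫ y in c..φ t, g y) - (∫ t in a..b, f t) * ∫ y in c..d, g y := by
    rw [← intervalIntegral.integral_mul_const, ← intervalIntegral.integral_sub]
    · refine intervalIntegral.integral_congr fun t _ => ?_
      have h3 : (∫ y in c..d, g y) + (∫ y in d..φ t, g y) = ∫ y in c..φ t, g y :=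
        intervalIntegral.integral_add_adjacent_intervals (SY1_ii cg _ _) (SY1_ii cg _ _)
      show f t * (∫ y in d..φ t, g y) = f t * (∫ y in c..φ t, g y) - f t * ∫ y in c..d, g y
      rw [← h3]
      ring
    · exact SY1_ii (cf.mul ((SY1_prim cg c).comp cφ)) _ _
    · exact SY1_ii (cf.mul continuous_const) _ _
  rw [h2, h1, intervalIntegral.integral_symm c d, intervalIntegral.integral_symm c d]
  ring

/-- The reversed arc. -/
theorem PP.symm {φ ψ : ℝ → ℝ} {xs ys xe ye : ℝ} (cφ : Continuous φ) (cψ : Continuous ψ) (h : PP φ ψ xs ys xe ye) :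
    PP φ ψ xe ye xs ys := by
  intro f g cf cg
  have h1 := h f g cf cg
  have h2 : (∫ t in xs..xe, f t * ∫ y in ye..φ t, g y) =
      (∫ t in xs..xe, f t * ∫ y in ys..φ t, g y) - (∫ t in xs..xe, f t) * ∫ y in ys..ye, g y := by
    rw [← intervalIntegral.integral_mul_const, ← intervalIntegral.integral_sub]
    · refine intervalIntegral.integral_congr fun t _ => ?_
      have h3 : (∫ y in ys..ye, g y) + (∫ y in ye..φ t, g y) = ∫ y in ys..φ t, g y :=
        intervalIntegral.integral_add_adjacent_intervals (SY1_ii cg _ _) (SY1_ii cg _ _)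
      show f t * (∫ y in ye..φ t, g y) = f t * (∫ y in ys..φ t, g y) - f t * ∫ y in ys..ye, g y
      rw [← h3]
      ring
    · exact SY1_ii (cf.mul ((SY1_prim cg ys).comp cφ)) _ _
    · exact SY1_ii (cf.mul continuous_const) _ _
  have h4 : (∫ y in ys..ye, g y * ∫ t in xe..ψ y, f t) =
      (∫ y in ys..ye, g y * ∫ t in xs..ψ y, f t) - (∫ t in xs..xe, f t) * ∫ y in ys..ye, g y := by
    rw [← intervalIntegral.integral_const_mul, ← intervalIntegral.integral_sub]
    · refine intervalIntegral.integral_congr fun y _ => ?_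
      have h3 : (∫ t in xs..xe, f t) + (∫ t in xe..ψ y, f t) = ∫ t in xs..ψ y, f t :=
        intervalIntegral.integral_add_adjacent_intervals (SY1_ii cf _ _) (SY1_ii cf _ _)
      show g y * (∫ t in xe..ψ y, f t) = g y * (∫ t in xs..ψ y, f t) - (∫ t in xs..xe, f t) * g y
      rw [← h3]
      ring
    · exact SY1_ii (cg.mul ((SY1_prim cf xs).comp cψ)) _ _
    · exact SY1_ii (continuous_const.mul cg) _ _
  rw [intervalIntegral.integral_symm xs xe, intervalIntegral.integral_symm ys ye, h2, h4,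
    intervalIntegral.integral_symm xs xe, intervalIntegral.integral_symm ys ye]
  linear_combination (-1 : ℝ) * h1

/-- Increasing arcs, from the lower left to the upper right end. -/
theorem PP_inc (a b c d : ℝ) (hab : a ≤ b) (hcd : c ≤ d) (φ ψ : ℝ → ℝ) (cφ : Continuous φ) (cψ : Continuous ψ)
    (hφ : ∀ x ∈ Icc a b, φ x ∈ Icc c d) (hψ : ∀ y ∈ Icc c d, ψ y ∈ Icc a b)
    (h : ∀ x ∈ Icc a b, ∀ y ∈ Icc c d, (y ≤ φ x ↔ ψ y ≤ x)) : PP φ ψ a c b d := by
  intro f g cf cg
  have h1 := SY_fub (-b) (-a) c d (neg_le_neg hab) hcd (fun x => φ (-x)) (fun y => - ψ y) (fun x => f (-x)) g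
    (cφ.comp continuous_neg) (cf.comp continuous_neg) cg
    (fun x hx => hφ (-x) ⟨by linarith [hx.2], by linarith [hx.1]⟩)
    (fun y hy => ⟨by linarith [(hψ y hy).2], by linarith [(hψ y hy).1]⟩)
    (fun x hx y hy => by
      rw [h (-x) ⟨by linarith [hx.2], by linarith [hx.1]⟩ y hy]
      constructor <;> intro h <;> linarith)
  have h2 : (∫ x in (-b)..(-a), f (-x) * ∫ y in c..φ (-x), g y) = ∫ x in a..b, f x * ∫ y in c..φ x, g y := by
    rw [intervalIntegral.integral_comp_neg (fun x => f x * ∫ y in c..φ x, g y), neg_neg, neg_neg]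
  have h3 : ∀ y, (∫ x in (-b)..(- ψ y), f (-x)) = (∫ x in a..b, f x) - ∫ x in a..ψ y, f x := by
    intro y
    rw [intervalIntegral.integral_comp_neg, neg_neg, neg_neg]
    have := intervalIntegral.integral_add_adjacent_intervals (SY1_ii cf a (ψ y)) (SY1_ii cf (ψ y) b)
    linarith
  have h4 : (∫ y in c..d, g y * ∫ x in (-b)..(- ψ y), f (-x)) =
      (∫ t in a..b, f t) * (∫ y in c..d, g y) - ∫ y in c..d, g y * ∫ x in a..ψ y, f x := by
    rw [← intervalIntegral.integral_const_mul, ← intervalIntegral.integral_sub]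
    · refine intervalIntegral.integral_congr fun y _ => ?_
      show g y * (∫ x in (-b)..(- ψ y), f (-x)) = (∫ t in a..b, f t) * g y - g y * ∫ x in a..ψ y, f x
      rw [h3 y]
      ring
    · exact SY1_ii (continuous_const.mul cg) _ _
    · exact SY1_ii (cg.mul ((SY1_prim cf a).comp cψ)) _ _
  rw [h2, h4] at h1
  rw [h1]
  ring

/-- Horizontal segments. -/
theorem PP_hor (φ ψ : ℝ → ℝ) (xs xe y0 : ℝ) (h : ∀ x ∈ uIcc xs xe, φ x = y0) : PP φ ψ xs y0 xe y0 := by
  intro f g cf cg
  have h1 : (∫ t in xs..xe, f t * ∫ y in y0..φ t, g y) = 0 := by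
    rw [intervalIntegral.integral_congr (g := fun _ => (0:ℝ))]
    · simp
    · intro t ht
      show f t * (∫ y in y0..φ t, g y) = 0
      rw [h t ht, intervalIntegral.integral_same, mul_zero]
  rw [h1, intervalIntegral.integral_same, intervalIntegral.integral_same, mul_zero, add_zero]

/-- Vertical segments. -/
theorem PP_ver (φ ψ : ℝ → ℝ) (x0 ys ye : ℝ) (h : ∀ y ∈ uIcc ys ye, ψ y = x0) : PP φ ψ x0 ys x0 ye := by
  intro f g cf cg
  have h1 : (∫ y in ys..ye, g y * ∫ t in x0..ψ y, f t) = 0 := by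
    rw [intervalIntegral.integral_congr (g := fun _ => (0:ℝ))]
    · simp
    · intro y hy
      show g y * (∫ t in x0..ψ y, f t) = 0
      rw [h y hy, intervalIntegral.integral_same, mul_zero]
  rw [h1, intervalIntegral.integral_same, intervalIntegral.integral_same, zero_mul, add_zero]

/-- Integration by parts along an arc. -/
theorem PP.parts {φ ψ : ℝ → ℝ} {xs ys xe ye : ℝ} (h : PP φ ψ xs ys xe ye) (cφ : Continuous φ) (cψ : Continuous ψ)
    {A B f g : ℝ → ℝ} (cf : Continuous f) (cg : Continuous g) (hA : ∀ x, HasDerivAt A (f x) x)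
    (hB : ∀ y, HasDerivAt B (g y) y) :
    (∫ x in xs..xe, f x * B (φ x)) + (∫ y in ys..ye, A (ψ y) * g y) = A xe * B ye - A xs * B ys := by
  have eA : ∀ x, A x = A xs + ∫ t in xs..x, f t := by
    intro x
    rw [intervalIntegral.integral_eq_sub_of_hasDerivAt (fun t _ => hA t) (SY1_ii cf _ _)]
    ring
  have eB : ∀ y, B y = B ys + ∫ t in ys..y, g t := by
    intro y
    rw [intervalIntegral.integral_eq_sub_of_hasDerivAt (fun t _ => hB t) (SY1_ii cg _ _)]
    ring
  have h1 : (∫ x in xs..xe, f x * B (φ x)) = B ys * (∫ x in xs..xe, f x) + ∫ x in xs..xe, f x * ∫ y in ys..φ x, g y := by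
    rw [← intervalIntegral.integral_const_mul, ← intervalIntegral.integral_add]
    · refine intervalIntegral.integral_congr fun x _ => ?_
      show f x * B (φ x) = B ys * f x + f x * ∫ y in ys..φ x, g y
      rw [eB (φ x)]
      ring
    · exact SY1_ii (continuous_const.mul cf) _ _
    · exact SY1_ii (cf.mul ((SY1_prim cg ys).comp cφ)) _ _
  have h2 : (∫ y in ys..ye, A (ψ y) * g y) = A xs * (∫ y in ys..ye, g y) + ∫ y in ys..ye, g y * ∫ x in xs..ψ y, f x := by
    rw [← intervalIntegral.integral_const_mul, ← intervalIntegral.integral_add]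
    · refine intervalIntegral.integral_congr fun y _ => ?_
      show A (ψ y) * g y = A xs * g y + g y * ∫ x in xs..ψ y, f x
      rw [eA (ψ y)]
      ring
    · exact SY1_ii (continuous_const.mul cg) _ _
    · exact SY1_ii (cg.mul ((SY1_prim cf xs).comp cψ)) _ _
  have h3 := h f g cf cg
  rw [h1, h2, eA xe, eB ye]
  linear_combination h3

end Pool.Agent.Lib.MP_1dedaf_gt.DK
end

section

/-!
# TASK LB S0a: support functions

`hs K u = sup_{y ∈ K} <y, u>`. Proofs. (`inner_le_hs`) the image is bounded above (compact), `le_csSup`. (`hs_attained`)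
`IsCompact.exists_isMaxOn`. (`hs_pos`) for a body a small ball around `0` is in `K`, so `hs K u ≥ r ‖u‖`.
(`hs_cont`) `|hs K u - hs K v| ≤ R ‖u - v‖` with `K ⊆ ball 0 R`. (`hs_add_le`, `hs_smul`) immediate.
-/

set_option autoImplicit false

open MeasureTheory Set Filter Topology

namespace Pool.Agent.Lib.MP_1dedaf_gt.LB

private theorem S0a_cont (u : E2) : Continuous fun y : E2 => inner ℝ y u :=
  continuous_id.inner continuous_const

theorem inner_le_hs {K : Set E2} (hK : IsCompact K) {y : E2} (hy : y ∈ K) (u : E2) : inner ℝ y u ≤ hs K u :=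
  le_csSup (hK.image (S0a_cont u)).bddAbove (mem_image_of_mem _ hy)

theorem hs_attained {K : Set E2} (hK : IsCompact K) (hne : K.Nonempty) (u : E2) : ∃ y ∈ K, inner ℝ y u = hs K u := by
  obtain ⟨y, hy, hmax⟩ := hK.exists_isMaxOn hne (S0a_cont u).continuousOn
  refine ⟨y, hy, le_antisymm (inner_le_hs hK hy u) ?_⟩
  refine csSup_le (hne.image _) ?_
  rintro _ ⟨z, hz, rfl⟩
  exact hmax hz

theorem hs_le {K : Set E2} (hne : K.Nonempty) {u : E2} {c : ℝ} (h : ∀ y ∈ K, inner ℝ y u ≤ c) : hs K u ≤ c := by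
  refine csSup_le (hne.image _) ?_
  rintro _ ⟨z, hz, rfl⟩
  exact h z hz

private theorem S0a_ne {K : Set E2} (hK : Body K) : K.Nonempty := ⟨0, interior_subset hK.zero⟩

theorem hs_pos {K : Set E2} (hK : Body K) {u : E2} (hu : u ≠ 0) : 0 < hs K u := by
  obtain ⟨r, hr, hball⟩ := Metric.mem_nhds_iff.1 (mem_interior_iff_mem_nhds.1 hK.zero)
  have hn : 0 < ‖u‖ := norm_pos_iff.2 hu
  have hmem : (r / 2 / ‖u‖) • u ∈ K := by
    apply hball
    rw [mem_ball_zero_iff, norm_smul, Real.norm_of_nonneg (by positivity)]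
    rw [div_mul_cancel₀ _ hn.ne']
    linarith
  have h1 := inner_le_hs hK.comp hmem u
  rw [real_inner_smul_left, real_inner_self_eq_norm_sq] at h1
  have h2 : 0 < r / 2 / ‖u‖ * ‖u‖ ^ 2 := by positivity
  linarith

theorem hs_add_le {K : Set E2} (hK : Body K) (u v : E2) : hs K (u + v) ≤ hs K u + hs K v := by
  refine hs_le (S0a_ne hK) fun y hy => ?_
  rw [inner_add_right]
  exact add_le_add (inner_le_hs hK.comp hy u) (inner_le_hs hK.comp hy v)

theorem hs_cont {K : Set E2} (hK : Body K) : Continuous (hs K) := by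
  obtain ⟨R, hR⟩ := hK.comp.isBounded.exists_norm_le
  have hR0 : 0 ≤ R := (norm_nonneg (0 : E2)).trans (hR 0 (interior_subset hK.zero))
  have key : ∀ u v : E2, hs K u - hs K v ≤ R * ‖u - v‖ := by
    intro u v
    have h1 := hs_add_le hK (u - v) v
    rw [sub_add_cancel] at h1
    have h2 : hs K (u - v) ≤ R * ‖u - v‖ := by
      refine hs_le (S0a_ne hK) fun y hy => ?_
      exact (real_inner_le_norm _ _).trans (mul_le_mul_of_nonneg_right (hR y hy) (norm_nonneg _))
    linarith
  have hL : LipschitzWith (Real.toNNReal R) (hs K) := by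
    refine LipschitzWith.of_dist_le_mul fun u v => ?_
    rw [Real.coe_toNNReal _ hR0, Real.dist_eq, dist_eq_norm, abs_le]
    have h1 := key u v
    have h2 := key v u
    rw [norm_sub_rev] at h2
    constructor
    · linarith
    · exact h1
  exact hL.continuous

theorem hs_smul {K : Set E2} (hK : Body K) {r : ℝ} (hr : 0 ≤ r) (u : E2) : hs K (r • u) = r * hs K u := by
  apply le_antisymm
  · refine hs_le (S0a_ne hK) fun y hy => ?_
    rw [real_inner_smul_right]
    exact mul_le_mul_of_nonneg_left (inner_le_hs hK.comp hy u) hr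
  · obtain ⟨y, hy, h⟩ := hs_attained hK.comp (S0a_ne hK) u
    rw [← h, ← real_inner_smul_right]
    exact inner_le_hs hK.comp hy _

end Pool.Agent.Lib.MP_1dedaf_gt.LB
end
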