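import Pool.Agent.Lib.MP_1dedaf_gt.Mg.G001

section

/-!
# Equality cases of the planar logarithmic Brunn-Minkowski inequality: definitions

`gauge B` is the gauge function (Mathlib). For a body `B` it is differentiable at almost every `x`; there
`pv B x` is its gradient (an outer normal vector `p` of `B` at the boundary point `x / gauge B x` with
`h_B p = 1`), `nu B x` the outer unit normal. `EE B ψ` is the mean of `ψ` for the normalised cone volume
measure of `B`, `MV A B` the mixed area, `LC t K C` the logarithmic combination. `EqCase t K C`: `K`, `C`, `LC t K C`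
have the same area and the same cone volume measure.
-/

set_option autoImplicit false

open MeasureTheory Set Filter Topology
open scoped Pointwise

namespace Pool.Agent.Lib.MP_1dedaf_gt.LB

noncomputable def pv (B : Set E2) (x : E2) : E2 := gradient (gauge B) x

/-- The outer unit normal of `B` at the boundary point in the direction of `x` (for almost every `x`). -/
noncomputable def nu (B : Set E2) (x : E2) : E2 := (‖pv B x‖)⁻¹ • pv B x

/-- The gauge function is differentiable at `x ≠ 0`. -/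
def Good (B : Set E2) (x : E2) : Prop := x ≠ 0 ∧ DifferentiableAt ℝ (gauge B) x

/-- The mean of `ψ` for the normalised cone volume measure of `B`. -/
noncomputable def EE (B : Set E2) (ψ : E2 → ℝ) : ℝ := (∫ x in B, ψ (nu B x)) / ar B

/-- The mixed area. -/
noncomputable def MV (A B : Set E2) : ℝ := (ar (A + B) - ar A - ar B) / 2

/-- The logarithmic combination. -/
noncomputable def LC (t : ℝ) (K C : Set E2) : Set E2 := Wu (fun u => hs K u ^ (1 - t) * hs C u ^ t)

/-- Theorem A (the logarithmic Brunn-Minkowski inequality for tilted volumes), for one `t`. -/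
def ThmA (t : ℝ) : Prop := ∀ K C : Set E2, Body K → Body C → ∀ mK mC : ℝ,
  (∀ c : E2, mK ≤ Real.log (∫ x in K, Real.exp (inner ℝ c x))) →
  (∀ c : E2, mC ≤ Real.log (∫ x in C, Real.exp (inner ℝ c x))) →
  (1 - t) * mK + t * mC ≤ Real.log (ar (LC t K C))

structure EqCase (t : ℝ) (K C : Set E2) : Prop where
  bK : Body K
  bC : Body C
  arC : ar C = ar K
  arL : ar (LC t K C) = ar K
  lawC : ∀ ψ : E2 → ℝ, ContinuousOn ψ (Metric.sphere 0 1) → EE C ψ = EE K ψ
  lawL : ∀ ψ : E2 → ℝ, ContinuousOn ψ (Metric.sphere 0 1) → EE (LC t K C) ψ = EE K ψ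

/-- The logarithm of the quotient of the support functions. -/
noncomputable def yy (K C : Set E2) (u : E2) : ℝ := Real.log (hs C u / hs K u)

/-- A centrally symmetric parallelogram. -/
def par (v w : E2) (a b : ℝ) : Set E2 := {x | |inner ℝ x v| ≤ a ∧ |inner ℝ x w| ≤ b}

/-- The equality cases of the question. -/
def Dec (K C : Set E2) : Prop :=
  ∃ m : ℕ, ∃ Ks Cs : Fin m → Set E2,
    (∀ i, Convex ℝ (Ks i) ∧ IsCompact (Ks i) ∧ (Ks i).Nonempty ∧
      1 ≤ Module.finrank ℝ (affineSpan ℝ (Ks i)).direction) ∧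
    (∑ i, Module.finrank ℝ (affineSpan ℝ (Ks i)).direction) = 2 ∧
    K = ∑ i, Ks i ∧ C = ∑ i, Cs i ∧
    (∀ i, ∃ r : ℝ, 0 < r ∧ Cs i = r • Ks i)

end Pool.Agent.Lib.MP_1dedaf_gt.LB
end

section

/-!
# TASK LB E9: an inequality for cosh

Proof. `φ x = t cosh (t x) sinh x - sinh (t x) cosh x`: `φ 0 = 0`, `φ' x = (t² - 1) sinh (t x) sinh x < 0` for `x > 0`, so `φ < 0` on `(0, ∞)` and `sinh (t x)/sinh x` is strictly decreasing there
(its derivative is `φ x / sinh² x`). For `y ≥ 0` let `D y = cosh (tγ) + t (sinh (tγ)/sinh γ) (cosh y - cosh γ) - cosh (t y)`; `D γ = 0`, `D' y = t sinh y (sinh (tγ)/sinh γ - sinh (t y)/sinh y)` for `y > 0` is negative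
for `y < γ` and positive for `y > γ`. So `D y > 0` for `y ≥ 0`, `y ≠ γ`. For `y < 0` use that `D` is even.
-/

set_option autoImplicit false

open MeasureTheory Set Filter Topology

namespace Pool.Agent.Lib.MP_1dedaf_gt.LB

private theorem E9_phi_neg {t x : ℝ} (ht0 : 0 < t) (ht1 : t < 1) (hx : 0 < x) :
    t * Real.cosh (t * x) * Real.sinh x - Real.sinh (t * x) * Real.cosh x < 0 := by
  have hd : ∀ y : ℝ, HasDerivAt
      (fun y : ℝ => t * Real.cosh (t * y) * Real.sinh y - Real.sinh (t * y) * Real.cosh y)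
      ((t ^ 2 - 1) * (Real.sinh (t * y) * Real.sinh y)) y := by
    intro y
    have h1 : HasDerivAt (fun y : ℝ => t * y) t y := by
      simpa using (hasDerivAt_id y).const_mul t
    have h2 := (Real.hasDerivAt_cosh (t * y)).comp y h1
    have h3 := (Real.hasDerivAt_sinh (t * y)).comp y h1
    have h4 := ((h2.const_mul t).mul (Real.hasDerivAt_sinh y)).sub
      (h3.mul (Real.hasDerivAt_cosh y))
    refine h4.congr_deriv ?_
    simp only [Function.comp_apply]
    ring
  have hanti : StrictAntiOn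
      (fun y : ℝ => t * Real.cosh (t * y) * Real.sinh y - Real.sinh (t * y) * Real.cosh y)
      (Set.Ici 0) := by
    refine strictAntiOn_of_deriv_neg (convex_Ici 0)
      (fun y _ => (hd y).continuousAt.continuousWithinAt) ?_
    intro y hy
    rw [interior_Ici] at hy
    rw [(hd y).deriv]
    have hy0 : 0 < y := hy
    have h1 : 0 < Real.sinh (t * y) := Real.sinh_pos_iff.2 (mul_pos ht0 hy0)
    have h2 : 0 < Real.sinh y := Real.sinh_pos_iff.2 hy0
    have h3 : t ^ 2 - 1 < 0 := by nlinarith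
    exact mul_neg_of_neg_of_pos h3 (mul_pos h1 h2)
  have := hanti (Set.mem_Ici.2 le_rfl) (Set.mem_Ici.2 hx.le) hx
  simpa using this

private theorem E9_ratio {t a b : ℝ} (ht0 : 0 < t) (ht1 : t < 1) (ha : 0 < a) (hab : a < b) :
    Real.sinh (t * b) / Real.sinh b < Real.sinh (t * a) / Real.sinh a := by
  have hd : ∀ y : ℝ, 0 < y → HasDerivAt (fun y : ℝ => Real.sinh (t * y) / Real.sinh y)
      ((t * Real.cosh (t * y) * Real.sinh y - Real.sinh (t * y) * Real.cosh y) /
        Real.sinh y ^ 2) y := by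
    intro y hy
    have h1 : HasDerivAt (fun y : ℝ => t * y) t y := by
      simpa using (hasDerivAt_id y).const_mul t
    have h3 := (Real.hasDerivAt_sinh (t * y)).comp y h1
    have h4 := h3.div (Real.hasDerivAt_sinh y) (Real.sinh_pos_iff.2 hy).ne'
    refine h4.congr_deriv ?_
    simp only [Function.comp_apply]
    ring
  have hanti : StrictAntiOn (fun y : ℝ => Real.sinh (t * y) / Real.sinh y) (Set.Ioi 0) := by
    refine strictAntiOn_of_deriv_neg (convex_Ioi 0)
      (fun y hy => (hd y hy).continuousAt.continuousWithinAt) ?_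
    intro y hy
    rw [interior_Ioi] at hy
    rw [(hd y hy).deriv]
    have hy0 : 0 < y := hy
    exact div_neg_of_neg_of_pos (E9_phi_neg ht0 ht1 hy0)
      (pow_pos (Real.sinh_pos_iff.2 hy0) 2)
  exact hanti (Set.mem_Ioi.2 ha) (Set.mem_Ioi.2 (ha.trans hab)) hab

private theorem E9_pos {t γ : ℝ} (ht0 : 0 < t) (ht1 : t < 1) (hγ : 0 < γ) {y : ℝ} (hy : 0 ≤ y)
    (hne : y ≠ γ) : 0 < Real.cosh (t * γ) +
      t * (Real.sinh (t * γ) / Real.sinh γ) * (Real.cosh y - Real.cosh γ) - Real.cosh (t * y) := by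
  have hd : ∀ y : ℝ, HasDerivAt (fun y : ℝ => Real.cosh (t * γ) +
      t * (Real.sinh (t * γ) / Real.sinh γ) * (Real.cosh y - Real.cosh γ) - Real.cosh (t * y))
      (t * (Real.sinh (t * γ) / Real.sinh γ * Real.sinh y - Real.sinh (t * y))) y := by
    intro y
    have h1 : HasDerivAt (fun y : ℝ => t * y) t y := by
      simpa using (hasDerivAt_id y).const_mul t
    have h2 := (Real.hasDerivAt_cosh (t * y)).comp y h1
    have h3 := ((((Real.hasDerivAt_cosh y).sub_const (Real.cosh γ)).const_mul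
      (t * (Real.sinh (t * γ) / Real.sinh γ))).const_add (Real.cosh (t * γ))).sub h2
    refine h3.congr_deriv ?_
    ring
  have hγγ : Real.cosh (t * γ) +
      t * (Real.sinh (t * γ) / Real.sinh γ) * (Real.cosh γ - Real.cosh γ) - Real.cosh (t * γ)
      = 0 := by ring
  rcases lt_or_gt_of_ne hne with hlt | hgt
  · have hanti : StrictAntiOn (fun y : ℝ => Real.cosh (t * γ) +
        t * (Real.sinh (t * γ) / Real.sinh γ) * (Real.cosh y - Real.cosh γ) - Real.cosh (t * y))
        (Set.Icc 0 γ) := by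
      refine strictAntiOn_of_deriv_neg (convex_Icc 0 γ)
        (fun y _ => (hd y).continuousAt.continuousWithinAt) ?_
      intro z hz
      rw [interior_Icc] at hz
      rw [(hd z).deriv]
      have hz0 : 0 < z := hz.1
      have h1 := E9_ratio ht0 ht1 hz0 hz.2
      have h2 : 0 < Real.sinh z := Real.sinh_pos_iff.2 hz0
      have h3 := mul_lt_mul_of_pos_right h1 h2
      rw [div_mul_cancel₀ _ h2.ne'] at h3
      exact mul_neg_of_pos_of_neg ht0 (by linarith)
    have := hanti (Set.mem_Icc.2 ⟨hy, hlt.le⟩) (Set.mem_Icc.2 ⟨hγ.le, le_rfl⟩) hlt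
    simp only at this
    linarith
  · have hmono : StrictMonoOn (fun y : ℝ => Real.cosh (t * γ) +
        t * (Real.sinh (t * γ) / Real.sinh γ) * (Real.cosh y - Real.cosh γ) - Real.cosh (t * y))
        (Set.Ici γ) := by
      refine strictMonoOn_of_deriv_pos (convex_Ici γ)
        (fun y _ => (hd y).continuousAt.continuousWithinAt) ?_
      intro z hz
      rw [interior_Ici] at hz
      rw [(hd z).deriv]
      have hz0 : 0 < z := hγ.trans hz
      have h1 := E9_ratio ht0 ht1 hγ hz
      have h2 : 0 < Real.sinh z := Real.sinh_pos_iff.2 hz0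
      have h3 := mul_lt_mul_of_pos_right h1 h2
      rw [div_mul_cancel₀ _ h2.ne'] at h3
      exact mul_pos ht0 (by linarith)
    have := hmono (Set.mem_Ici.2 le_rfl) (Set.mem_Ici.2 hgt.le) hgt
    simp only at this
    linarith

private theorem E9_pos' {t γ : ℝ} (ht0 : 0 < t) (ht1 : t < 1) (hγ : 0 < γ) {y : ℝ}
    (hne : |y| ≠ γ) : 0 < Real.cosh (t * γ) +
      t * (Real.sinh (t * γ) / Real.sinh γ) * (Real.cosh y - Real.cosh γ) - Real.cosh (t * y) := by
  have h := E9_pos ht0 ht1 hγ (abs_nonneg y) hne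
  rw [Real.cosh_abs] at h
  have h2 : Real.cosh (t * |y|) = Real.cosh (t * y) := by
    rw [← Real.cosh_abs (t * y), abs_mul, abs_of_pos ht0]
  rwa [h2] at h

theorem cosh_ineq {t γ : ℝ} (ht0 : 0 < t) (ht1 : t < 1) (hγ : 0 < γ) (y : ℝ) :
    Real.cosh (t * y) ≤ Real.cosh (t * γ) + t * (Real.sinh (t * γ) / Real.sinh γ) * (Real.cosh y - Real.cosh γ) := by
  by_cases hy : |y| = γ
  · have h1 : Real.cosh y = Real.cosh γ := by rw [← Real.cosh_abs y, hy]
    have h2 : Real.cosh (t * y) = Real.cosh (t * γ) := by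
      rw [← Real.cosh_abs (t * y), abs_mul, abs_of_pos ht0, hy]
    rw [h1, h2]
    simp
  · have := E9_pos' ht0 ht1 hγ hy
    linarith

theorem cosh_eq {t γ : ℝ} (ht0 : 0 < t) (ht1 : t < 1) (hγ : 0 < γ) {y : ℝ}
    (h : Real.cosh (t * y) = Real.cosh (t * γ) + t * (Real.sinh (t * γ) / Real.sinh γ) * (Real.cosh y - Real.cosh γ)) : |y| = γ := by
  by_contra hne
  have := E9_pos' ht0 ht1 hγ hne
  linarith

end Pool.Agent.Lib.MP_1dedaf_gt.LB
end
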