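import Pool.Agent.Lib.MP_1dedaf_gt.Mg.G052
import Pool.Agent.Lib.MP_1dedaf_gt.Mg.G040
import Pool.Agent.Lib.MP_1dedaf_gt.LB.E1a

section

/-!
# TASK LB E1b: the outer unit normal

Write `g = gauge B`. (`pv_smul`, every set `B`) `g (r • y) = r * g y` (`gauge_smul_of_nonneg`), so `g` is differentiable at `r • x` iff at `x`, with the same
gradient (otherwise both gradients are `0`). (`nu_meas`) `measurable_fderiv`, `gradient` is `toDual.symm` of it.
(`nu_inner`, `nu_norm`) at a good point `<pv, x> = g x` (derivative of `g (t x) = t g x` at `t = 1`) and `<pv, y> ≤ g y` for all `y` (`g (x + t y) ≤ g x + t g y`,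
`gauge_add_le`). So `pv ≠ 0` (`g x > 0`), `<y, pv> ≤ 1` on `B`, and `(g x)⁻¹ • x ∈ B` gives `hs B pv = 1`; `nu = pv/‖pv‖`, `hs_smul`:
`<x, nu> = g x / ‖pv‖ = g x * hs B nu`.
(`nu_unique`) `hs B u > 0`; put `q = (hs B u)⁻¹ • u`: `<y, q> ≤ g y` for all `y` (`inner_le_gauge`) with equality at `x`, so `g - <., q>` has a minimum at `x`, its
derivative vanishes: `pv = q`. So `u = hs B u • pv` and `‖u‖ = 1` give `u = nu`.
-/

set_option autoImplicit false

open MeasureTheory Set Filter Topology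

namespace Pool.Agent.Lib.MP_1dedaf_gt.LB

private theorem E1b_fd (B : Set E2) (x y : E2) : inner ℝ (pv B x) y = fderiv ℝ (gauge B) x y := by
  unfold pv gradient
  exact InnerProductSpace.toDual_symm_apply

theorem pv_smul (B : Set E2) {r : ℝ} (hr : 0 < r) (x : E2) : pv B (r • x) = pv B x := by
  have h1 : fderiv ℝ (fun y => gauge B (r • y)) x = r • fderiv ℝ (gauge B) (r • x) := by
    exact fderiv_comp_smul r
  have h2 : (fun y : E2 => gauge B (r • y)) = fun y => r • gauge B y := by
    funext y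
    exact gauge_smul_of_nonneg hr.le y
  have h3 : fderiv ℝ (fun y => r • gauge B y) x = r • fderiv ℝ (gauge B) x := by
    have _inst : Invertible r := invertibleOfNonzero hr.ne'
    exact fderiv_const_smul_of_invertible r
  rw [h2, h3] at h1
  have h4 : fderiv ℝ (gauge B) x = fderiv ℝ (gauge B) (r • x) := by
    have := congrArg (fun L => r⁻¹ • L) h1
    simpa [smul_smul, hr.ne'] using this
  unfold pv gradient
  rw [h4]

theorem nu_smul (B : Set E2) {r : ℝ} (hr : 0 < r) (x : E2) : nu B (r • x) = nu B x := by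
  unfold nu
  rw [pv_smul B hr]

theorem nu_meas (B : Set E2) : Measurable (nu B) := by
  have h1 : Measurable (pv B) := by
    unfold pv gradient
    exact (LinearIsometryEquiv.continuous _).measurable.comp (measurable_fderiv ℝ (gauge B))
  unfold nu
  exact (h1.norm.inv).smul h1

private theorem E1b_self {B : Set E2} {x : E2} (hx : Good B x) : inner ℝ (pv B x) x = gauge B x := by
  rw [E1b_fd]
  have h1 : HasFDerivAt (gauge B) (fderiv ℝ (gauge B) x) ((1 : ℝ) • x) := by
    rw [one_smul]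
    exact hx.2.hasFDerivAt
  have h2 : HasDerivAt (fun t : ℝ => t • x) x 1 := by
    simpa using (hasDerivAt_id (1 : ℝ)).smul_const x
  have h3 : HasDerivAt (fun t : ℝ => gauge B (t • x)) (fderiv ℝ (gauge B) x x) 1 :=
    HasFDerivAt.comp_hasDerivAt (f := fun t : ℝ => t • x) (1 : ℝ) h1 h2
  have h4 : HasDerivAt (fun t : ℝ => t * gauge B x) (gauge B x) 1 := by
    simpa using (hasDerivAt_id (1 : ℝ)).mul_const (gauge B x)
  have h5 : (fun t : ℝ => gauge B (t • x)) =ᶠ[𝓝 1] fun t : ℝ => t * gauge B x := by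
    filter_upwards [lt_mem_nhds (show (0 : ℝ) < 1 by norm_num)] with t ht
    exact gauge_smul_of_nonneg ht.le x
  exact (h3.congr_of_eventuallyEq h5.symm).unique h4

private theorem E1b_le {B : Set E2} (hB : Body B) {x : E2} (hx : Good B x) (y : E2) :
    inner ℝ (pv B x) y ≤ gauge B y := by
  rw [E1b_fd]
  have habs : Absorbent ℝ B := absorbent_nhds_zero (mem_interior_iff_mem_nhds.1 hB.zero)
  have h1 : HasFDerivAt (gauge B) (fderiv ℝ (gauge B) x) (x + (0 : ℝ) • y) := by
    rw [zero_smul, add_zero]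
    exact hx.2.hasFDerivAt
  have h2 : HasDerivAt (fun t : ℝ => x + t • y) y 0 := by
    simpa using ((hasDerivAt_id (0 : ℝ)).smul_const y).const_add x
  have h3 : HasDerivAt (fun t : ℝ => gauge B (x + t • y)) (fderiv ℝ (gauge B) x y) 0 :=
    HasFDerivAt.comp_hasDerivAt (f := fun t : ℝ => x + t • y) (0 : ℝ) h1 h2
  have h4 := h3.tendsto_slope_zero_right
  refine le_of_tendsto h4 ?_
  filter_upwards [self_mem_nhdsWithin] with t ht
  have ht' : 0 < t := ht
  have h5 : gauge B (x + t • y) ≤ gauge B x + t * gauge B y := by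
    refine (gauge_add_le hB.conv habs x (t • y)).trans ?_
    rw [gauge_smul_of_nonneg ht'.le y]
    simp
  simp only [zero_add, zero_smul, add_zero, smul_eq_mul]
  rw [inv_mul_le_iff₀ ht']
  linarith

private theorem E1b_ne {B : Set E2} (hB : Body B) {x : E2} (hx : Good B x) : pv B x ≠ 0 := by
  intro h
  have h1 := E1b_self hx
  rw [h, inner_zero_left] at h1
  have h2 := gauge_pos' hB hx.1
  linarith

private theorem E1b_hs {B : Set E2} (hB : Body B) {x : E2} (hx : Good B x) : hs B (pv B x) = 1 := by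
  have hne : B.Nonempty := ⟨0, interior_subset hB.zero⟩
  apply le_antisymm
  · refine hs_le hne fun y hy => ?_
    rw [real_inner_comm]
    exact (E1b_le hB hx y).trans ((gauge_le_one_iff' hB y).2 hy)
  · have hg := gauge_pos' hB hx.1
    have h1 : (gauge B x)⁻¹ • x ∈ B := by
      rw [← gauge_le_one_iff' hB, gauge_smul_of_nonneg (inv_nonneg.2 hg.le)]
      simp [hg.ne']
    have h2 := inner_le_hs hB.comp h1 (pv B x)
    rw [real_inner_smul_left, real_inner_comm, E1b_self hx, inv_mul_cancel₀ hg.ne'] at h2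
    exact h2

theorem nu_norm {B : Set E2} (hB : Body B) {x : E2} (hx : Good B x) : ‖nu B x‖ = 1 := by
  unfold nu
  rw [norm_smul, norm_inv, norm_norm, inv_mul_cancel₀ (norm_ne_zero_iff.2 (E1b_ne hB hx))]

theorem nu_norm_le (B : Set E2) (x : E2) : ‖nu B x‖ ≤ 1 := by
  unfold nu
  rw [norm_smul, norm_inv, norm_norm]
  by_cases h : ‖pv B x‖ = 0
  · rw [h]
    simp
  · rw [inv_mul_cancel₀ h]

theorem nu_inner {B : Set E2} (hB : Body B) {x : E2} (hx : Good B x) : inner ℝ x (nu B x) = gauge B x * hs B (nu B x) := by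
  unfold nu
  rw [hs_smul hB (inv_nonneg.2 (norm_nonneg _)), E1b_hs hB hx, real_inner_smul_right, real_inner_comm, E1b_self hx]
  ring

theorem nu_unique {B : Set E2} (hB : Body B) {x u : E2} (hx : Good B x) (hu : ‖u‖ = 1)
    (h : inner ℝ x u = gauge B x * hs B u) : u = nu B x := by
  have hu0 : u ≠ 0 := by
    intro h0
    rw [h0, norm_zero] at hu
    exact zero_ne_one hu
  have hp := hs_pos hB hu0
  have h1 : pv B x = (hs B u)⁻¹ • u := by
    have hloc : IsLocalMin (fun y : E2 => gauge B y - (hs B u)⁻¹ * inner ℝ u y) x := by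
      refine Filter.Eventually.of_forall fun y => ?_
      have e1 : (hs B u)⁻¹ * inner ℝ u x = gauge B x := by
        rw [real_inner_comm, h]
        field_simp
      have e2 : (hs B u)⁻¹ * inner ℝ u y ≤ gauge B y := by
        rw [real_inner_comm, inv_mul_le_iff₀ hp]
        linarith [inner_le_gauge hB y u]
      show gauge B x - (hs B u)⁻¹ * inner ℝ u x ≤ gauge B y - (hs B u)⁻¹ * inner ℝ u y
      linarith
    have hd : HasFDerivAt (fun y : E2 => gauge B y - (hs B u)⁻¹ * inner ℝ u y)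
        (fderiv ℝ (gauge B) x - (hs B u)⁻¹ • innerSL ℝ u) x := by
      refine hx.2.hasFDerivAt.sub ?_
      exact ((innerSL ℝ u).hasFDerivAt).const_mul (hs B u)⁻¹
    have h0 := hloc.hasFDerivAt_eq_zero hd
    have h2 : ∀ y : E2, inner ℝ (pv B x) y = inner ℝ ((hs B u)⁻¹ • u) y := by
      intro y
      have := congrArg (fun L => L y) h0
      simp only [sub_apply, smul_apply, innerSL_apply_apply,
        zero_apply, smul_eq_mul] at this
      rw [E1b_fd, real_inner_smul_left]
      linarith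
    exact ext_inner_right ℝ h2
  have h3 : ‖pv B x‖ = (hs B u)⁻¹ := by
    rw [h1, norm_smul, hu, mul_one, Real.norm_of_nonneg (inv_nonneg.2 hp.le)]
  unfold nu
  rw [h3, h1, smul_smul, inv_inv, mul_inv_cancel₀ hp.ne', one_smul]

end Pool.Agent.Lib.MP_1dedaf_gt.LB
end

section

/-!
# TASK LB E1d: properties of almost all normals

(`ae_of_ae_body`) the exceptional set `E = {x | ¬ P (nu B x)}` satisfies `r • E = E` for `r > 0` (`nu_smul`); `E ∩ K` is a null set, so
`(n+1) • (E ∩ K) = E ∩ (n+1) • K` is a null set, and `⋃ (n+1) • K` is the whole plane. (Outer measure is enough, no measurability needed.)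
(`mem_of_normals`) Suppose `z ∉ B`, `1 + 3κ = gauge B z > 1` (or any `κ > 0` with `gauge B z ≥ 1 + 2 κ`). For `x` near `z`: `gauge B x ≥ 1 + κ`, and for good `x`, `u = nu B x`:
`<z, u> ≥ <x, u> - ‖x - z‖ = gauge B x * hs B u - ‖x - z‖ ≥ hs B u + κ (min hs B) - ‖x - z‖ > hs B u` for `x` close to `z` (`hs B` has a positive minimum on the circle),
for all good `x` in a ball, a set of positive measure: a contradiction.
-/

set_option autoImplicit false

open MeasureTheory Set Filter Topology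
open scoped Pointwise

namespace Pool.Agent.Lib.MP_1dedaf_gt.LB

theorem ae_of_ae_body {K : Set E2} (hK : Body K) (B : Set E2) {P : E2 → Prop}
    (h : ∀ᵐ x ∂(volume.restrict K : Measure E2), P (nu B x)) : ∀ᵐ x ∂(volume : Measure E2), P (nu B x) := by
  have hm : MeasurableSet K := hK.comp.isClosed.measurableSet
  rw [ae_restrict_iff' hm, ae_iff] at h
  rw [ae_iff]
  refine measure_mono_null (t := ⋃ n : ℕ, ((n : ℝ) + 1) • {x : E2 | ¬ (x ∈ K → P (nu B x))}) ?_
    (measure_iUnion_null fun n => ?_)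
  · intro x hx
    obtain ⟨r, hr, hball⟩ := Metric.mem_nhds_iff.1 (mem_interior_iff_mem_nhds.1 hK.zero)
    obtain ⟨n, hn⟩ := exists_nat_gt (‖x‖ / r)
    have hn1 : (0 : ℝ) < (n : ℝ) + 1 := by positivity
    refine mem_iUnion.2 ⟨n, (mem_smul_set_iff_inv_smul_mem₀ hn1.ne' _ _).2 ?_⟩
    have h1 : ((n : ℝ) + 1)⁻¹ • x ∈ K := by
      apply hball
      rw [mem_ball_zero_iff, norm_smul, norm_inv, Real.norm_of_nonneg hn1.le,
        inv_mul_lt_iff₀ hn1]
      rw [div_lt_iff₀ hr] at hn
      nlinarith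
    show ¬ (((n : ℝ) + 1)⁻¹ • x ∈ K → P (nu B (((n : ℝ) + 1)⁻¹ • x)))
    rw [nu_smul B (inv_pos.2 hn1)]
    intro h2
    exact hx (h2 h1)
  · rw [Measure.addHaar_smul, h, mul_zero]

theorem mem_of_normals {B : Set E2} (hB : Body B) {z : E2}
    (h : ∀ᵐ x ∂(volume : Measure E2), inner ℝ z (nu B x) ≤ hs B (nu B x)) : z ∈ B := by
  by_contra hz
  have h1 : 1 < gauge B z := by
    by_contra h2
    exact hz ((gauge_le_one_iff' hB z).1 (not_lt.1 h2))
  obtain ⟨κ, hκ, hκ2⟩ : ∃ κ : ℝ, 0 < κ ∧ 1 + κ < gauge B z :=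
    ⟨(gauge B z - 1) / 2, by linarith, by linarith⟩
  -- the minimum of the support function
  have hne : (Metric.sphere (0 : E2) 1).Nonempty := NormedSpace.sphere_nonempty.2 zero_le_one
  obtain ⟨w, hw, hmin⟩ := (isCompact_sphere (0 : E2) 1).exists_isMinOn hne
    (hs_cont hB).continuousOn
  have hw1 : ‖w‖ = 1 := mem_sphere_zero_iff_norm.1 hw
  have hm : 0 < hs B w := hs_pos hB (fun h0 => by rw [h0, norm_zero] at hw1; norm_num at hw1)
  -- continuity
  have hopen : IsOpen {x : E2 | 1 + κ < gauge B x} :=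
    isOpen_lt continuous_const (gauge_cont' hB)
  obtain ⟨ε, hε, hball⟩ := Metric.isOpen_iff.1 hopen z hκ2
  have hd : Dense {x : E2 | inner ℝ z (nu B x) ≤ hs B (nu B x) ∧ Good B x} :=
    Measure.dense_of_ae (h.and (good_ae hB))
  obtain ⟨x, ⟨hx1, hx2⟩, hx3⟩ := hd.exists_dist_lt z (lt_min hε (mul_pos hκ hm))
  have h2 : 1 + κ < gauge B x := by
    apply hball
    rw [Metric.mem_ball, dist_comm]
    exact hx3.trans_le (min_le_left _ _)
  have h3 : dist z x < κ * hs B w := hx3.trans_le (min_le_right _ _)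
  have hu1 : ‖nu B x‖ = 1 := nu_norm hB hx2
  have h4 : hs B w ≤ hs B (nu B x) := hmin (mem_sphere_zero_iff_norm.2 hu1)
  have h5 := nu_inner hB hx2
  have h6 : inner ℝ (x - z) (nu B x) ≤ dist z x := by
    refine (real_inner_le_norm _ _).trans ?_
    rw [hu1, mul_one, dist_comm, dist_eq_norm]
  rw [inner_sub_left] at h6
  have h7 : (1 + κ) * hs B (nu B x) ≤ gauge B x * hs B (nu B x) :=
    mul_le_mul_of_nonneg_right h2.le (hm.le.trans h4)
  have h8 : κ * hs B w ≤ κ * hs B (nu B x) := mul_le_mul_of_nonneg_left h4 hκ.le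
  linarith

end Pool.Agent.Lib.MP_1dedaf_gt.LB
end
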