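import Pool.Agent.Lib.MP_1dedaf_gt.Mg.G001
import Pool.Agent.Lib.MP_1dedaf_gt.Mg.G040
import Pool.Agent.Lib.MP_1dedaf_gt.LB.S0b
import Pool.Agent.Lib.MP_1dedaf_gt.LB.S0c
import Pool.Agent.Lib.MP_1dedaf_gt.Mg.G052
import Pool.Agent.Lib.MP_1dedaf_gt.LB.E1a
import Pool.Agent.Lib.MP_1dedaf_gt.Mg.G053

section

/-!
# TASK LB S0: (done: imports)


-/

set_option autoImplicit false

open MeasureTheory Set Filter Topology

namespace Pool.Agent.Lib.MP_1dedaf_gt.LB



end Pool.Agent.Lib.MP_1dedaf_gt.LB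
end

section

/-!
# TASK LB E1c: gauge function and normals of a Wulff shape

`B = Wu f` is a body (`Wu_body`). (`gauge_Wu_ge`) `inner_le_gauge` and `hs B u ≤ f u` (`hs_Wu_le`), `gauge ≥ 0`.
(`gauge_Wu_max`) `y = (gauge B x)⁻¹ • x` has gauge `1`. If `<y, u> < f u` for all unit `u`, then by compactness of the circle `<y, u> ≤ f u - c` with `c > 0` and
`(1 + ε) y ∈ Wu f` for small `ε > 0`, so its gauge `1 + ε` would be `≤ 1`. So `<y, u> ≥ f u` for some `u`, and `≤` always.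
(`contact`, `nu_unique_Wu`) take such `u` : `<x,u> = gauge x * f u ≥ gauge x * hs B u ≥ <x, u>`, so `f u = hs B u`, and `u = nu B x` by `nu_unique`.
-/

set_option autoImplicit false

open MeasureTheory Set Filter Topology
open scoped Pointwise

namespace Pool.Agent.Lib.MP_1dedaf_gt.LB

theorem gauge_Wu_ge {f : E2 → ℝ} (hf : ContinuousOn f (Metric.sphere 0 1)) (hp : ∀ u : E2, ‖u‖ = 1 → 0 < f u) (x : E2) {u : E2}
    (hu : ‖u‖ = 1) : inner ℝ x u ≤ gauge (Wu f) x * f u :=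
  (inner_le_gauge (Wu_body hf hp) x u).trans
    (mul_le_mul_of_nonneg_left (hs_Wu_le hf hp hu) (gauge_nonneg x))

theorem gauge_Wu_max {f : E2 → ℝ} (hf : ContinuousOn f (Metric.sphere 0 1)) (hp : ∀ u : E2, ‖u‖ = 1 → 0 < f u) {x : E2}
    (hx : x ≠ 0) : ∃ u : E2, ‖u‖ = 1 ∧ inner ℝ x u = gauge (Wu f) x * f u := by
  by_contra hcon
  have hg : 0 < gauge (Wu f) x := gauge_pos' (Wu_body hf hp) hx
  have hlt : ∀ u : E2, ‖u‖ = 1 → inner ℝ x u < gauge (Wu f) x * f u := by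
    intro u hu
    rcases lt_or_eq_of_le (gauge_Wu_ge hf hp x hu) with h | h
    · exact h
    · exact absurd ⟨u, hu, h⟩ hcon
  have hS : IsCompact (Metric.sphere (0 : E2) 1) := isCompact_sphere 0 1
  have hSn : (Metric.sphere (0 : E2) 1).Nonempty :=
    ⟨(‖x‖)⁻¹ • x, by
      rw [mem_sphere_zero_iff_norm, norm_smul, norm_inv, norm_norm,
        inv_mul_cancel₀ (norm_ne_zero_iff.2 hx)]⟩
  have hc1 : ContinuousOn (fun u : E2 => gauge (Wu f) x * f u - inner ℝ x u) (Metric.sphere 0 1) :=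
    (continuousOn_const.mul hf).sub (continuous_const.inner continuous_id).continuousOn
  obtain ⟨u0, hu0, hmin⟩ := hS.exists_isMinOn hSn hc1
  obtain ⟨u1, hu1, hmax⟩ := hS.exists_isMaxOn hSn hf
  have hu0' : ‖u0‖ = 1 := mem_sphere_zero_iff_norm.1 hu0
  have hu1' : ‖u1‖ = 1 := mem_sphere_zero_iff_norm.1 hu1
  set c := gauge (Wu f) x * f u0 - inner ℝ x u0 with hc
  have hcpos : 0 < c := sub_pos.2 (hlt u0 hu0')
  have hM : 0 < f u1 := hp u1 hu1'
  set ε := min (c / f u1) (gauge (Wu f) x / 2) with hε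
  have hεpos : 0 < ε := lt_min (div_pos hcpos hM) (by linarith)
  have hr : 0 < gauge (Wu f) x - ε := by
    have h1 : ε ≤ gauge (Wu f) x / 2 := min_le_right _ _
    linarith
  have hmem : x ∈ (gauge (Wu f) x - ε) • Wu f := by
    rw [Set.mem_smul_set_iff_inv_smul_mem₀ hr.ne']
    intro u hu
    rw [real_inner_smul_left, inv_mul_le_iff₀ hr]
    have h1 : c ≤ gauge (Wu f) x * f u - inner ℝ x u := hmin (mem_sphere_zero_iff_norm.2 hu)
    have h2 : f u ≤ f u1 := hmax (mem_sphere_zero_iff_norm.2 hu)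
    have h3 : ε * f u ≤ c := by
      calc ε * f u ≤ ε * f u1 := mul_le_mul_of_nonneg_left h2 hεpos.le
        _ ≤ c / f u1 * f u1 := mul_le_mul_of_nonneg_right (min_le_left _ _) hM.le
        _ = c := div_mul_cancel₀ c hM.ne'
    rw [sub_mul]
    linarith
  have h4 : gauge (Wu f) x ≤ gauge (Wu f) x - ε := gauge_le_of_mem hr.le hmem
  linarith

private theorem E1c_eq {f : E2 → ℝ} (hf : ContinuousOn f (Metric.sphere 0 1)) (hp : ∀ u : E2, ‖u‖ = 1 → 0 < f u) {x u : E2}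
    (hx : x ≠ 0) (hu : ‖u‖ = 1) (h : inner ℝ x u = gauge (Wu f) x * f u) : f u = hs (Wu f) u := by
  have hg : 0 < gauge (Wu f) x := gauge_pos' (Wu_body hf hp) hx
  have h1 := inner_le_gauge (Wu_body hf hp) x u
  rw [h] at h1
  exact le_antisymm (le_of_mul_le_mul_left h1 hg) (hs_Wu_le hf hp hu)

theorem nu_unique_Wu {f : E2 → ℝ} (hf : ContinuousOn f (Metric.sphere 0 1)) (hp : ∀ u : E2, ‖u‖ = 1 → 0 < f u) {x u : E2}
    (hx : Good (Wu f) x) (hu : ‖u‖ = 1) (h : inner ℝ x u = gauge (Wu f) x * f u) : u = nu (Wu f) x := by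
  refine nu_unique (Wu_body hf hp) hx hu ?_
  rw [← E1c_eq hf hp hx.1 hu h]
  exact h

theorem contact {f : E2 → ℝ} (hf : ContinuousOn f (Metric.sphere 0 1)) (hp : ∀ u : E2, ‖u‖ = 1 → 0 < f u) {x : E2}
    (hx : Good (Wu f) x) : f (nu (Wu f) x) = hs (Wu f) (nu (Wu f) x) := by
  obtain ⟨u, hu, h⟩ := gauge_Wu_max hf hp hx.1
  rw [← nu_unique_Wu hf hp hx hu h]
  exact E1c_eq hf hp hx.1 hu h

end Pool.Agent.Lib.MP_1dedaf_gt.LB
end

section

/-!
# TASK LB E3b: the derivative of the gauge function of a Wulff shape (Danskin)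

Proof. Let `g ε = gauge (Wu (f exp (ε ψ))) x > 0`, `u* = nu (Wu f) x`, so `<x, u*> = g 0 * f u*` (`nu_inner`, `contact`). Let `u_ε` be a unit vector with
`<x, u_ε> = g ε * f u_ε * exp (ε ψ(u_ε))` (`gauge_Wu_max`). `gauge_Wu_ge` for `f` at `u_ε`: `g ε exp (ε ψ(u_ε)) ≤ g 0`; for `f exp (ε ψ)` at `u*`:
`g 0 ≤ g ε exp (ε ψ(u*))`. So `- ε ψ(u*) ≤ log (g ε) - log (g 0) ≤ - ε ψ(u_ε)`. It remains to show `ψ(u_ε) → ψ(u*)` as `ε → 0`: otherwise there are `ε_j → 0` with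
`|ψ(u_{ε_j}) - ψ(u*)| ≥ η` and (compactness of the circle) `u_{ε_j} → v`, `‖v‖ = 1`; `g ε_j → g 0` (by the inequalities, `ψ` is bounded on the circle), so
`<x, v> = g 0 * f v` and `v = u*` by `nu_unique_Wu`, a contradiction.
-/

set_option autoImplicit false

open MeasureTheory Set Filter Topology

namespace Pool.Agent.Lib.MP_1dedaf_gt.LB

theorem danskin {f : E2 → ℝ} (hf : ContinuousOn f (Metric.sphere 0 1)) (hp : ∀ u : E2, ‖u‖ = 1 → 0 < f u) {ψ : E2 → ℝ}
    (hψ : Continuous ψ) {x : E2} (hx : Good (Wu f) x) :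
    HasDerivAt (fun ε : ℝ => Real.log (gauge (Wu (fun u => f u * Real.exp (ε * ψ u))) x)) (-ψ (nu (Wu f) x)) 0 := by
  classical
  obtain ⟨fe, hfe⟩ : ∃ fe : ℝ → E2 → ℝ, fe = fun ε u => f u * Real.exp (ε * ψ u) := ⟨_, rfl⟩
  obtain ⟨g, hg⟩ : ∃ g : ℝ → ℝ, g = fun ε => gauge (Wu (fe ε)) x := ⟨_, rfl⟩
  obtain ⟨us, hus⟩ : ∃ us : E2, us = nu (Wu f) x := ⟨_, rfl⟩
  have hfec : ∀ ε, ContinuousOn (fe ε) (Metric.sphere 0 1) := by
    intro ε
    rw [hfe]
    exact hf.mul ((by fun_prop : Continuous fun u => Real.exp (ε * ψ u))).continuousOn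
  have hfep : ∀ ε, ∀ u : E2, ‖u‖ = 1 → 0 < fe ε u := by
    intro ε u hu
    rw [hfe]
    exact mul_pos (hp u hu) (Real.exp_pos _)
  have hfe0 : fe 0 = f := by
    rw [hfe]
    funext u
    simp
  have hgpos : ∀ ε, 0 < g ε := by
    intro ε
    rw [hg]
    exact gauge_pos' (Wu_body (hfec ε) (hfep ε)) hx.1
  have hg0 : g 0 = gauge (Wu f) x := by
    rw [hg]
    show gauge (Wu (fe 0)) x = _
    rw [hfe0]
  have hus1 : ‖us‖ = 1 := by
    rw [hus]
    exact nu_norm (Wu_body hf hp) hx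
  have husx : inner ℝ x us = g 0 * f us := by
    rw [hg0, hus, nu_inner (Wu_body hf hp) hx, ← contact hf hp hx]
  have hmax : ∀ ε, ∃ u : E2, ‖u‖ = 1 ∧ inner ℝ x u = g ε * fe ε u := by
    intro ε
    obtain ⟨u, h1, h2⟩ := gauge_Wu_max (hfec ε) (hfep ε) hx.1
    exact ⟨u, h1, by rw [h2, hg]⟩
  choose ue hue1 hue2 using hmax
  have hup : ∀ ε, Real.log (g ε) - Real.log (g 0) ≤ -(ε * ψ (ue ε)) := by
    intro ε
    have h1 := gauge_Wu_ge hf hp x (hue1 ε)
    rw [hue2 ε, ← hg0, hfe] at h1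
    have h2 : g ε * Real.exp (ε * ψ (ue ε)) ≤ g 0 := by
      have h3 : (g ε * Real.exp (ε * ψ (ue ε))) * f (ue ε) ≤ g 0 * f (ue ε) := by
        calc (g ε * Real.exp (ε * ψ (ue ε))) * f (ue ε) = g ε * (f (ue ε) * Real.exp (ε * ψ (ue ε))) := by ring
          _ ≤ g 0 * f (ue ε) := h1
      exact le_of_mul_le_mul_right h3 (hp _ (hue1 ε))
    have h4 := Real.log_le_log (mul_pos (hgpos ε) (Real.exp_pos _)) h2
    rw [Real.log_mul (hgpos ε).ne' (Real.exp_pos _).ne', Real.log_exp] at h4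
    linarith
  have hlo : ∀ ε, -(ε * ψ us) ≤ Real.log (g ε) - Real.log (g 0) := by
    intro ε
    have h1 := gauge_Wu_ge (hfec ε) (hfep ε) x hus1
    have h1' : inner ℝ x us ≤ g ε * fe ε us := by
      rw [hg]
      exact h1
    rw [husx, hfe] at h1'
    have h2 : g 0 ≤ g ε * Real.exp (ε * ψ us) := by
      have h3 : g 0 * f us ≤ (g ε * Real.exp (ε * ψ us)) * f us := by
        calc g 0 * f us ≤ g ε * (f us * Real.exp (ε * ψ us)) := h1'
          _ = (g ε * Real.exp (ε * ψ us)) * f us := by ring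
      exact le_of_mul_le_mul_right h3 (hp _ hus1)
    have h4 := Real.log_le_log (hgpos 0) h2
    rw [Real.log_mul (hgpos ε).ne' (Real.exp_pos _).ne', Real.log_exp] at h4
    linarith
  -- the logarithm is continuous at zero
  have hcpt : IsCompact (Metric.sphere (0 : E2) 1) := isCompact_sphere 0 1
  obtain ⟨M, hM⟩ := hcpt.exists_bound_of_continuousOn hψ.continuousOn
  have hMs : ∀ u : E2, ‖u‖ = 1 → |ψ u| ≤ M := by
    intro u hu
    have := hM u (by simpa using hu)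
    simpa using this
  have hlog : Tendsto (fun ε => Real.log (g ε)) (𝓝 0) (𝓝 (Real.log (g 0))) := by
    rw [tendsto_iff_norm_sub_tendsto_zero]
    have hb : ∀ ε : ℝ, ‖Real.log (g ε) - Real.log (g 0)‖ ≤ |ε| * M := by
      intro ε
      rw [Real.norm_eq_abs, abs_le]
      have h1 : |ε * ψ (ue ε)| ≤ |ε| * M := by
        rw [abs_mul]
        exact mul_le_mul_of_nonneg_left (hMs _ (hue1 ε)) (abs_nonneg _)
      have h2 : |ε * ψ us| ≤ |ε| * M := by
        rw [abs_mul]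
        exact mul_le_mul_of_nonneg_left (hMs _ hus1) (abs_nonneg _)
      have h3 := (abs_le.mp h1).1
      have h4 := (abs_le.mp h2).2
      have h5 := hup ε
      have h6 := hlo ε
      constructor <;> linarith
    refine squeeze_zero (fun ε => norm_nonneg _) hb ?_
    have : Tendsto (fun ε : ℝ => |ε| * M) (𝓝 0) (𝓝 (|(0:ℝ)| * M)) :=
      ((continuous_abs.mul continuous_const).tendsto 0)
    simpa using this
  have hgc : Tendsto g (𝓝 0) (𝓝 (g 0)) := by
    have h1 := (Real.continuous_exp.tendsto _).comp hlog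
    rw [Real.exp_log (hgpos 0)] at h1
    refine h1.congr fun ε => ?_
    exact Real.exp_log (hgpos ε)
  have hψc : Tendsto (fun ε => ψ (ue ε)) (𝓝 0) (𝓝 (ψ us)) := by
    refine Filter.tendsto_of_subseq_tendsto fun ns hns => ?_
    obtain ⟨v, hv, φ, hφ, hlim⟩ := hcpt.tendsto_subseq (x := fun j => ue (ns j))
      (fun j => by simpa using hue1 (ns j))
    refine ⟨φ, ?_⟩
    have hns' : Tendsto (fun j => ns (φ j)) atTop (𝓝 0) := hns.comp hφ.tendsto_atTop
    have hlim' : Tendsto (fun j => ue (ns (φ j))) atTop (𝓝 v) := hlim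
    have hv1 : ‖v‖ = 1 := by simpa using hv
    have hlimw : Tendsto (fun j => ue (ns (φ j))) atTop (𝓝[Metric.sphere 0 1] v) := by
      rw [tendsto_nhdsWithin_iff]
      exact ⟨hlim', Eventually.of_forall fun j => by simpa using hue1 (ns (φ j))⟩
    have hfl : Tendsto (fun j => f (ue (ns (φ j)))) atTop (𝓝 (f v)) := (hf v hv).tendsto.comp hlimw
    have hψl : Tendsto (fun j => ψ (ue (ns (φ j)))) atTop (𝓝 (ψ v)) := (hψ.tendsto v).comp hlim'
    have h1 : Tendsto (fun j => g (ns (φ j)) * (f (ue (ns (φ j))) *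
        Real.exp (ns (φ j) * ψ (ue (ns (φ j)))))) atTop (𝓝 (g 0 * (f v * Real.exp (0 * ψ v)))) := by
      exact (hgc.comp hns').mul (hfl.mul ((Real.continuous_exp.tendsto _).comp (hns'.mul hψl)))
    have h2 : Tendsto (fun j => inner ℝ x (ue (ns (φ j)))) atTop (𝓝 (inner ℝ x v)) :=
      ((continuous_const.inner continuous_id).tendsto v).comp hlim'
    have h3 : inner ℝ x v = g 0 * (f v * Real.exp (0 * ψ v)) := by
      refine tendsto_nhds_unique h2 (h1.congr fun j => ?_)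
      rw [hue2 (ns (φ j)), hfe]
    rw [zero_mul, Real.exp_zero, mul_one, hg0] at h3
    have h4 : v = us := by
      rw [hus]
      exact nu_unique_Wu hf hp hx hv1 h3
    rw [← h4]
    exact hψl
  rw [← hus]
  have hgoal : (fun ε : ℝ => Real.log (gauge (Wu (fun u => f u * Real.exp (ε * ψ u))) x)) =
      fun ε => Real.log (g ε) := by
    rw [hg, hfe]
  rw [hgoal, hasDerivAt_iff_isLittleO, Asymptotics.isLittleO_iff]
  intro c hc
  have h1 : ∀ᶠ ε in 𝓝 (0 : ℝ), |ψ (ue ε) - ψ us| < c := by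
    have := (Metric.tendsto_nhds.mp hψc) c hc
    simpa [Real.dist_eq] using this
  filter_upwards [h1] with ε hε
  rw [sub_zero, smul_eq_mul, Real.norm_eq_abs, Real.norm_eq_abs]
  have h2 := hup ε
  have h3 := hlo ε
  have h4 : 0 ≤ Real.log (g ε) - Real.log (g 0) - ε * -ψ us := by linarith
  rw [abs_of_nonneg h4]
  have h5 : Real.log (g ε) - Real.log (g 0) - ε * -ψ us ≤ ε * (ψ us - ψ (ue ε)) := by
    have : ε * (ψ us - ψ (ue ε)) = ε * ψ us - ε * ψ (ue ε) := by ring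
    linarith
  refine h5.trans ?_
  calc ε * (ψ us - ψ (ue ε)) ≤ |ε * (ψ us - ψ (ue ε))| := le_abs_self _
    _ = |ε| * |ψ (ue ε) - ψ us| := by rw [abs_mul, abs_sub_comm]
    _ ≤ |ε| * c := mul_le_mul_of_nonneg_left hε.le (abs_nonneg _)
    _ = c * |ε| := mul_comm _ _

end Pool.Agent.Lib.MP_1dedaf_gt.LB
end
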