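import Pool.Agent.Lib.MP_1dedaf_gt.DK.TN.V1
import Pool.Agent.Lib.MP_1dedaf_gt.DK.TN.V0
import Pool.Agent.Lib.MP_1dedaf_gt.DK.A3

section

/-!
# TASK TN V2: the integral for the rectangle

`R X = 1 + p X + q (η + p M)`, `M = ξ η`. Proof. (i) Substitute `X = - q M + (1 + q η) τ`, `τ ∈ [0, ξ]` (`- q M + (1 + q η) ξ = ξ`) in the last integral: `ξ - X = (1 + q η)(ξ - τ)`, `R X = (1 + q η)(1 + p τ)`, so it equals `(1 + q η) ∫_0^ξ (ξ - τ)/(1 + p τ) dτ`.
(ii) `gg (1 + p X) (R X) = 1/(1 + p X) - q (η + p M)/(1 + p X)²` (as `R X = (1 + p X) + q (η + p M)`). Hence the left side is `q ξ M + ∫_0^ξ (ξ - X) [1/(1+pX) - q (η + p M)/(1+pX)² - (1 + q η)/(1+pX)] dX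
= q ξ M - q η ∫_0^ξ (ξ - X) [(1 + p X) + (1 + p ξ)]/(1+pX)² dX` (`η + p M = η (1 + p ξ)`). (iii) The integrand is the derivative of `- (ξ - X)²/(1 + p X)`, so the integral is `ξ²`. Total: `q ξ M - q η ξ² = 0`.
On `[0, ξ]`: `1 + p X > 0` (linear, positive at both ends).
-/

set_option autoImplicit false

open MeasureTheory Set Filter Topology

namespace Pool.Agent.Lib.MP_1dedaf_gt.DK

theorem Q_int (p q M ξ η : ℝ) (hξ : 0 < ξ) (hη : 0 < η) (hM : ξ * η = M) (h1 : 0 < 1 + p * ξ) (h2 : 0 < 1 + q * η) :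
    q * ξ * M + (∫ X in (0:ℝ)..ξ, (ξ - X) * gg (1 + p * X) (1 + p * q * M + q * η + p * X))
      - ∫ X in (-(q * M))..ξ, (ξ - X) * (1 / (1 + p * q * M + q * η + p * X)) = 0 := by
  subst hM
  have hpos : ∀ X ∈ Icc (0:ℝ) ξ, 0 < 1 + p * X := by
    intro X hX
    obtain ⟨h0, h3⟩ := hX
    have h4 : 0 < ξ * (1 + p * X) := by
      have e : ξ * (1 + p * X) = (ξ - X) + X * (1 + p * ξ) := by ring
      rw [e]
      rcases h3.eq_or_lt with h5 | h5
      · rw [h5]
        have := mul_pos hξ h1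
        linarith
      · have := mul_nonneg h0 h1.le
        linarith
    exact (mul_pos_iff_of_pos_left hξ).1 h4
  have huIcc : uIcc (0:ℝ) ξ = Icc 0 ξ := uIcc_of_le hξ.le
  have hsub : (∫ X in (-(q * (ξ * η)))..ξ, (ξ - X) * (1 / (1 + p * q * (ξ * η) + q * η + p * X)))
      = ∫ X in (0:ℝ)..ξ, (1 + q * η) * ((ξ - X) * (1 / (1 + p * X))) := by
    have h := intervalIntegral.mul_integral_comp_add_mul
      (f := fun X : ℝ => (ξ - X) * (1 / (1 + p * q * (ξ * η) + q * η + p * X))) (a := 0) (b := ξ)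
      (1 + q * η) (-(q * (ξ * η)))
    have e0 : -(q * (ξ * η)) + (1 + q * η) * 0 = -(q * (ξ * η)) := by ring
    have e1 : -(q * (ξ * η)) + (1 + q * η) * ξ = ξ := by ring
    rw [e0, e1] at h
    rw [← h, ← intervalIntegral.integral_const_mul]
    refine intervalIntegral.integral_congr fun X hX => ?_
    rw [huIcc] at hX
    have hX' := hpos X hX
    show (1 + q * η) * ((ξ - (-(q * (ξ * η)) + (1 + q * η) * X))
      * (1 / (1 + p * q * (ξ * η) + q * η + p * (-(q * (ξ * η)) + (1 + q * η) * X))))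
        = (1 + q * η) * ((ξ - X) * (1 / (1 + p * X)))
    have e2 : ξ - (-(q * (ξ * η)) + (1 + q * η) * X) = (1 + q * η) * (ξ - X) := by ring
    have e3 : 1 + p * q * (ξ * η) + q * η + p * (-(q * (ξ * η)) + (1 + q * η) * X)
        = (1 + q * η) * (1 + p * X) := by ring
    rw [e2, e3]
    have h2' := h2.ne'
    have hX'' := hX'.ne'
    field_simp
  rw [hsub]
  have hc1 : ContinuousOn (fun X : ℝ => (ξ - X) * gg (1 + p * X) (1 + p * q * (ξ * η) + q * η + p * X)) (uIcc 0 ξ) := by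
    unfold gg
    refine ContinuousOn.mul (by fun_prop) (ContinuousOn.sub ?_ ?_)
    · exact ContinuousOn.div (by fun_prop) (by fun_prop) fun X hX => by
        rw [huIcc] at hX
        exact (hpos X hX).ne'
    · exact ContinuousOn.div (by fun_prop) (by fun_prop) fun X hX => by
        rw [huIcc] at hX
        exact pow_ne_zero 2 (hpos X hX).ne'
  have hc2 : ContinuousOn (fun X : ℝ => (1 + q * η) * ((ξ - X) * (1 / (1 + p * X)))) (uIcc 0 ξ) := by
    refine ContinuousOn.mul (by fun_prop) (ContinuousOn.mul (by fun_prop) ?_)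
    exact ContinuousOn.div (by fun_prop) (by fun_prop) fun X hX => by
      rw [huIcc] at hX
      exact (hpos X hX).ne'
  rw [add_sub_assoc, ← intervalIntegral.integral_sub hc1.intervalIntegrable hc2.intervalIntegrable]
  have hder : ∀ X ∈ uIcc (0:ℝ) ξ, HasDerivAt (fun X : ℝ => q * η * ((ξ - X) ^ 2 / (1 + p * X)))
      ((ξ - X) * gg (1 + p * X) (1 + p * q * (ξ * η) + q * η + p * X)
        - (1 + q * η) * ((ξ - X) * (1 / (1 + p * X)))) X := by
    intro X hX
    rw [huIcc] at hX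
    have hX' := (hpos X hX).ne'
    have d1 : HasDerivAt (fun X : ℝ => (ξ - X) ^ 2) (2 * (ξ - X) * (-1)) X := by
      have h3 : HasDerivAt (fun X : ℝ => ξ - X) (-1) X := (hasDerivAt_id X).const_sub ξ
      refine (h3.fun_pow 2).congr_deriv ?_
      norm_num
    have d2 : HasDerivAt (fun X : ℝ => 1 + p * X) p X := by
      have := ((hasDerivAt_id X).const_mul p).const_add 1
      simpa using this
    have d3 := (d1.div d2 hX').const_mul (q * η)
    refine d3.congr_deriv ?_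
    unfold gg
    field_simp
    ring
  have hcont : ContinuousOn (fun X : ℝ => (ξ - X) * gg (1 + p * X) (1 + p * q * (ξ * η) + q * η + p * X)
        - (1 + q * η) * ((ξ - X) * (1 / (1 + p * X)))) (uIcc 0 ξ) := hc1.sub hc2
  rw [intervalIntegral.integral_eq_sub_of_hasDerivAt hder hcont.intervalIntegrable]
  simp only [sub_self, sub_zero, mul_zero, add_zero]
  ring

end Pool.Agent.Lib.MP_1dedaf_gt.DK
end

section

/-!
# TASK TN V3: comparison in the mass plane: the abstract inequality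

Everything is a function of `X`. `lo X`, `up X` are the densities at the lower and upper boundary point with the coordinate `X`, `Lo`, `Up` the `Y`-coordinates: `R X - lo X = q (η - Lo X)`, `R X - up X = q (η - Up X)`, `R X = 1 + p q M + q η + p X`;
`lo` lives on `[0, m]`, `up` on `[-q M, m]`. Proof. `g0 X := gg (1 + p X) (R X)` for `X ∈ [0, ξ]`; it belongs to `Y = - p M`: `R X - (1 + p X) = q (η - (- p M))`, and `- p M ≤ η` since `η + p M = η (1 + p ξ) > 0`.
`R > 0` on `[-q M, ξ]`: linear, `R (-q M) = 1 + q η > 0`, `R ξ = (1 + p ξ)(1 + q η) > 0`; also `- q M < ξ` (`ξ + q M = ξ (1 + q η)`).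
Pointwise: (a) `X ∈ [-q M, ξ] ∩ [-q M, m]`: `gg (up X) (R X) ≤ 1/R X` (`gg_le`). (b) `X ∈ [max 0 (-qM), min ξ m]`: `gg (lo X) (R X) - gg (up X) (R X) ≥ g0 X - 1/R X`: if `Lo X ≤ η` then `gg (lo X) ≥ g0 X` by `gg_mono_lo` (`- p M ≤ Lo X ≤ η`) and (a); if `Lo X > η` then `Lo X ≤ Up X`
by `hreg`, so `gg (up X) ≤ gg (lo X)` by `gg_mono_up`, and `g0 X ≤ 1/R X` by `gg_le`. (c) `X > ξ`, `X ≤ m`, `X ≥ 0` (and `X ≥ -q M`): `Lo X ≤ Up X ≤ η` (`hreg`, `hout`), so `gg (lo X) ≤ gg (up X)` by `gg_mono_lo`, and `(ξ - X)(gg (lo X) - gg (up X)) ≥ 0`.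
(d) if `q < 0`: `X ∈ [0, -q M]` (`⊆ [0, ξ]`, and `≤ m`): `Lo X ≤ η` by `hlow`, so `gg (lo X) ≥ g0 X`. (e) `g0 X ≤ 1/R X` on `[0, ξ]`.
Case `q ≥ 0` (`-q M ≤ 0`): split at `0`, `min ξ m`: `A - B = ∫_0^m (ξ - X)(gg lo - gg up) - ∫_{-qM}^0 (ξ - X) gg up ≥ ∫_0^{min ξ m} (ξ - X)(g0 - 1/R) - ∫_{-qM}^0 (ξ - X)/R ≥ ∫_0^ξ (ξ - X)(g0 - 1/R) - ∫_{-qM}^0 (ξ - X)/R`
((c) if `m > ξ`, (e) if `m < ξ`). Case `q < 0` (`0 < -qM ≤ m`): `A - B = ∫_0^{-qM} (ξ - X) gg lo + ∫_{-qM}^m (ξ - X)(gg lo - gg up) ≥ ∫_0^{-qM} (ξ - X) g0 + ∫_{-qM}^ξ (ξ - X)(g0 - 1/R)`. In both cases `A - B ≥ ∫_0^ξ (ξ - X) g0 - ∫_{-qM}^ξ (ξ - X)/R = - q ξ M` by `Q_int`.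
`A = ∫_0^m (ξ - X) gg (lo X) (R X)`, `B = ∫_{-qM}^m (ξ - X) gg (up X) (R X)`. All integrands are continuous on the intervals used (`lo`, `up` are continuous and positive there).
-/

set_option autoImplicit false

open MeasureTheory Set Filter Topology

namespace Pool.Agent.Lib.MP_1dedaf_gt.DK

private theorem V3_core (c ξ m : ℝ) (hc : c ≤ ξ) (hcm : c ≤ m) (F G : ℝ → ℝ) (cF : ContinuousOn F (Icc c m))
    (cG : ContinuousOn G (Icc c ξ)) (h1 : ∀ X ∈ Icc c m, X ≤ ξ → G X ≤ F X)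
    (h2 : ∀ X ∈ Icc c m, ξ < X → 0 ≤ F X) (h3 : ∀ X ∈ Icc c ξ, G X ≤ 0) :
    ∫ X in c..ξ, G X ≤ ∫ X in c..m, F X := by
  rcases le_or_gt m ξ with hm | hm
  · have i1 : IntervalIntegrable G volume c m :=
      (cG.mono (Icc_subset_Icc_right hm)).intervalIntegrable_of_Icc hcm
    have i2 : IntervalIntegrable G volume m ξ :=
      (cG.mono (Icc_subset_Icc_left hcm)).intervalIntegrable_of_Icc hm
    have i3 : IntervalIntegrable F volume c m := cF.intervalIntegrable_of_Icc hcm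
    rw [← intervalIntegral.integral_add_adjacent_intervals i1 i2]
    have e1 : ∫ X in c..m, G X ≤ ∫ X in c..m, F X :=
      intervalIntegral.integral_mono_on hcm i1 i3 fun X hX => h1 X hX (hX.2.trans hm)
    have e2 : ∫ X in m..ξ, G X ≤ ∫ X in m..ξ, (0 : ℝ) :=
      intervalIntegral.integral_mono_on hm i2 intervalIntegrable_const fun X hX =>
        h3 X ⟨hcm.trans hX.1, hX.2⟩
    rw [intervalIntegral.integral_zero] at e2
    linarith
  · have i1 : IntervalIntegrable F volume c ξ :=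
      (cF.mono (Icc_subset_Icc_right hm.le)).intervalIntegrable_of_Icc hc
    have i2 : IntervalIntegrable F volume ξ m :=
      (cF.mono (Icc_subset_Icc_left hc)).intervalIntegrable_of_Icc hm.le
    have i3 : IntervalIntegrable G volume c ξ := cG.intervalIntegrable_of_Icc hc
    rw [← intervalIntegral.integral_add_adjacent_intervals i1 i2]
    have e1 : ∫ X in c..ξ, G X ≤ ∫ X in c..ξ, F X :=
      intervalIntegral.integral_mono_on hc i3 i1 fun X hX => h1 X ⟨hX.1, hX.2.trans hm.le⟩ hX.2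
    have e2 : ∫ X in ξ..m, (0 : ℝ) ≤ ∫ X in ξ..m, F X := by
      refine intervalIntegral.integral_mono_on_of_le_Ioo hm.le intervalIntegrable_const i2 fun X hX => ?_
      exact h2 X ⟨hc.trans hX.1.le, hX.2.le⟩ hX.1
    rw [intervalIntegral.integral_zero] at e2
    linarith

private theorem V3_cont {s : Set ℝ} {f g : ℝ → ℝ} (ξ : ℝ) (hf : ContinuousOn f s) (hp : ∀ X ∈ s, 0 < f X)
    (hg : Continuous g) : ContinuousOn (fun X => (ξ - X) * gg (f X) (g X)) s := by
  have h0 : ∀ X ∈ s, f X ≠ 0 := fun X hX => (hp X hX).ne'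
  unfold gg
  refine ContinuousOn.mul (by fun_prop) (ContinuousOn.sub (continuousOn_const.div hf h0) ?_)
  exact hg.continuousOn.div (hf.pow 2) fun X hX => pow_ne_zero 2 (h0 X hX)

private theorem V3_lin {u v a b X : ℝ} (ha : 0 < u + v * a) (hb : 0 < u + v * b) (hX : X ∈ Icc a b) :
    0 < u + v * X := by
  rcases le_or_gt 0 v with hv | hv
  · have := mul_le_mul_of_nonneg_left hX.1 hv
    linarith
  · have := mul_le_mul_of_nonpos_left hX.2 hv.le
    linarith

theorem plane_ineq (p q M ξ η m : ℝ) (lo up Lo Up : ℝ → ℝ) (hξ : 0 < ξ) (hη : 0 < η) (hM : ξ * η = M) (h1 : 0 < 1 + p * ξ) (h2 : 0 < 1 + q * η)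
    (hm : 0 < m) (hqm : -(q * M) ≤ m)
    (clo : ContinuousOn lo (Icc 0 m)) (cup : ContinuousOn up (Icc (-(q * M)) m))
    (plo : ∀ X ∈ Icc 0 m, 0 < lo X) (pup : ∀ X ∈ Icc (-(q * M)) m, 0 < up X)
    (hLo : ∀ X ∈ Icc 0 m, (1 + p * q * M + q * η + p * X) - lo X = q * (η - Lo X))
    (hUp : ∀ X ∈ Icc (-(q * M)) m, (1 + p * q * M + q * η + p * X) - up X = q * (η - Up X))
    (hbot : ∀ X ∈ Icc 0 m, -(p * M) ≤ Lo X)
    (hout : ∀ X ∈ Icc (-(q * M)) m, ξ < X → Up X ≤ η)
    (hreg : ∀ X ∈ Icc 0 m, X ∈ Icc (-(q * M)) m → Lo X ≤ Up X ∨ (Lo X ≤ η ∧ X ≤ ξ))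
    (hlow : ∀ X ∈ Icc 0 m, X ≤ -(q * M) → Lo X ≤ η) :
    0 ≤ q * ξ * M + (∫ X in (0:ℝ)..m, (ξ - X) * gg (lo X) (1 + p * q * M + q * η + p * X))
      - ∫ X in (-(q * M))..m, (ξ - X) * gg (up X) (1 + p * q * M + q * η + p * X) := by
  set R : ℝ → ℝ := fun X => 1 + p * q * M + q * η + p * X with hRdef
  have cR : Continuous R := by
    rw [hRdef]
    fun_prop
  have hM0 : 0 < M := by
    rw [← hM]
    exact mul_pos hξ hη
  have haξ : -(q * M) < ξ := by
    have : ξ + q * M = ξ * (1 + q * η) := by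
      rw [← hM]
      ring
    have h3 : 0 < ξ * (1 + q * η) := mul_pos hξ h2
    linarith
  have hpM : -(p * M) ≤ η := by
    have : η + p * M = η * (1 + p * ξ) := by
      rw [← hM]
      ring
    have h3 : 0 < η * (1 + p * ξ) := mul_pos hη h1
    linarith
  have hRpos : ∀ X ∈ Icc (-(q * M)) ξ, 0 < R X := by
    intro X hX
    apply V3_lin (a := -(q * M)) (b := ξ) _ _ hX
    · have : 1 + p * q * M + q * η + p * -(q * M) = 1 + q * η := by ring
      rw [this]
      exact h2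
    · have : 1 + p * q * M + q * η + p * ξ = (1 + p * ξ) * (1 + q * η) := by
        rw [← hM]
        ring
      rw [this]
      exact mul_pos h1 h2
  have hPpos : ∀ X ∈ Icc 0 ξ, 0 < 1 + p * X := by
    intro X hX
    exact V3_lin (a := 0) (b := ξ) (by linarith) h1 hX
  have hR0 : ∀ X, R X - (1 + p * X) = q * (η - (-(p * M))) := by
    intro X
    rw [hRdef]
    ring
  -- the pointwise facts
  have pa : ∀ X ∈ Icc (-(q * M)) m, X ≤ ξ → gg (up X) (R X) ≤ 1 / R X := by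
    intro X hX hXξ
    exact gg_le _ _ (pup X hX) (hRpos X ⟨hX.1, hXξ⟩)
  have pe : ∀ X ∈ Icc 0 ξ, X ∈ Icc (-(q * M)) ξ → gg (1 + p * X) (R X) ≤ 1 / R X := by
    intro X hX hX2
    exact gg_le _ _ (hPpos X hX) (hRpos X hX2)
  have pd : ∀ X ∈ Icc 0 m, X ≤ ξ → Lo X ≤ η → gg (1 + p * X) (R X) ≤ gg (lo X) (R X) := by
    intro X hX hXξ hl
    exact gg_mono_lo q η (R X) (1 + p * X) (lo X) (-(p * M)) (Lo X) (hPpos X ⟨hX.1, hXξ⟩) (plo X hX)
      (hR0 X) (hLo X hX) (hbot X hX) hl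
  have pb : ∀ X ∈ Icc 0 m, X ∈ Icc (-(q * M)) m → X ≤ ξ →
      gg (1 + p * X) (R X) - 1 / R X ≤ gg (lo X) (R X) - gg (up X) (R X) := by
    intro X hX hX2 hXξ
    rcases le_or_gt (Lo X) η with hl | hl
    · have e1 := pd X hX hXξ hl
      have e2 := pa X hX2 hXξ
      linarith
    · have hlu : Lo X ≤ Up X := by
        rcases hreg X hX hX2 with h | h
        · exact h
        · exact absurd h.1 (not_le.2 hl)
      have e1 := gg_mono_up q η (R X) (lo X) (up X) (Lo X) (Up X) (plo X hX) (pup X hX2) (hLo X hX)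
        (hUp X hX2) hlu hl.le
      have e2 := pe X ⟨hX.1, hXξ⟩ ⟨hX2.1, hXξ⟩
      linarith
  have pc : ∀ X ∈ Icc 0 m, X ∈ Icc (-(q * M)) m → ξ < X → gg (lo X) (R X) ≤ gg (up X) (R X) := by
    intro X hX hX2 hXξ
    have hlu : Lo X ≤ Up X := by
      rcases hreg X hX hX2 with h | h
      · exact h
      · exact absurd h.2 (not_le.2 hXξ)
    exact gg_mono_lo q η (R X) (lo X) (up X) (Lo X) (Up X) (plo X hX) (pup X hX2) (hLo X hX)
      (hUp X hX2) hlu (hout X hX2 hXξ)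
  -- continuity
  have cl : ContinuousOn (fun X => (ξ - X) * gg (lo X) (R X)) (Icc 0 m) := V3_cont ξ clo plo cR
  have cu : ContinuousOn (fun X => (ξ - X) * gg (up X) (R X)) (Icc (-(q * M)) m) := V3_cont ξ cup pup cR
  have c0 : ContinuousOn (fun X => (ξ - X) * gg (1 + p * X) (R X)) (Icc 0 ξ) :=
    V3_cont ξ (by fun_prop) hPpos cR
  have c1 : ContinuousOn (fun X => (ξ - X) * (1 / R X)) (Icc (-(q * M)) ξ) := by
    refine ContinuousOn.mul (by fun_prop) (continuousOn_const.div cR.continuousOn fun X hX => ?_)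
    exact (hRpos X hX).ne'
  -- the common part
  have core : ∀ c, 0 ≤ c → -(q * M) ≤ c → c ≤ ξ → c ≤ m →
      (∫ X in c..ξ, (ξ - X) * gg (1 + p * X) (R X)) - (∫ X in c..ξ, (ξ - X) * (1 / R X)) ≤
      (∫ X in c..m, (ξ - X) * gg (lo X) (R X)) - ∫ X in c..m, (ξ - X) * gg (up X) (R X) := by
    intro c hc0 hca hcξ hcm
    have il : IntervalIntegrable (fun X => (ξ - X) * gg (lo X) (R X)) volume c m :=
      (cl.mono (Icc_subset_Icc_left hc0)).intervalIntegrable_of_Icc hcm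
    have iu : IntervalIntegrable (fun X => (ξ - X) * gg (up X) (R X)) volume c m :=
      (cu.mono (Icc_subset_Icc_left hca)).intervalIntegrable_of_Icc hcm
    have i0 : IntervalIntegrable (fun X => (ξ - X) * gg (1 + p * X) (R X)) volume c ξ :=
      (c0.mono (Icc_subset_Icc_left hc0)).intervalIntegrable_of_Icc hcξ
    have i1 : IntervalIntegrable (fun X => (ξ - X) * (1 / R X)) volume c ξ :=
      (c1.mono (Icc_subset_Icc_left hca)).intervalIntegrable_of_Icc hcξ
    rw [← intervalIntegral.integral_sub i0 i1, ← intervalIntegral.integral_sub il iu]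
    apply V3_core c ξ m hcξ hcm
    · exact (cl.mono (Icc_subset_Icc_left hc0)).sub (cu.mono (Icc_subset_Icc_left hca))
    · exact (c0.mono (Icc_subset_Icc_left hc0)).sub (c1.mono (Icc_subset_Icc_left hca))
    · intro X hX hXξ
      have e := pb X ⟨hc0.trans hX.1, hX.2⟩ ⟨hca.trans hX.1, hX.2⟩ hXξ
      have e2 := mul_le_mul_of_nonneg_left e (sub_nonneg.2 hXξ)
      rw [mul_sub, mul_sub] at e2
      exact e2
    · intro X hX hXξ
      have e := pc X ⟨hc0.trans hX.1, hX.2⟩ ⟨hca.trans hX.1, hX.2⟩ hXξ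
      have e2 := mul_le_mul_of_nonpos_left e (sub_nonpos.2 hXξ.le)
      linarith
    · intro X hX
      have e := pe X ⟨hc0.trans hX.1, hX.2⟩ ⟨hca.trans hX.1, hX.2⟩
      have e2 := mul_le_mul_of_nonneg_left e (sub_nonneg.2 hX.2)
      linarith
  have hQ : q * ξ * M + (∫ X in (0:ℝ)..ξ, (ξ - X) * gg (1 + p * X) (R X))
      - ∫ X in (-(q * M))..ξ, (ξ - X) * (1 / R X) = 0 := Q_int p q M ξ η hξ hη hM h1 h2
  change 0 ≤ q * ξ * M + (∫ X in (0:ℝ)..m, (ξ - X) * gg (lo X) (R X))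
      - ∫ X in (-(q * M))..m, (ξ - X) * gg (up X) (R X)
  rcases le_or_gt 0 q with hq | hq
  · have ha0 : -(q * M) ≤ 0 := by
      have := mul_nonneg hq hM0.le
      linarith
    have j1 : IntervalIntegrable (fun X => (ξ - X) * gg (up X) (R X)) volume (-(q * M)) 0 :=
      (cu.mono (Icc_subset_Icc_right hm.le)).intervalIntegrable_of_Icc ha0
    have j2 : IntervalIntegrable (fun X => (ξ - X) * gg (up X) (R X)) volume 0 m :=
      (cu.mono (Icc_subset_Icc_left ha0)).intervalIntegrable_of_Icc hm.le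
    have k1 : IntervalIntegrable (fun X => (ξ - X) * (1 / R X)) volume (-(q * M)) 0 :=
      (c1.mono (Icc_subset_Icc_right hξ.le)).intervalIntegrable_of_Icc ha0
    have k2 : IntervalIntegrable (fun X => (ξ - X) * (1 / R X)) volume 0 ξ :=
      (c1.mono (Icc_subset_Icc_left ha0)).intervalIntegrable_of_Icc hξ.le
    have e1 := intervalIntegral.integral_add_adjacent_intervals j1 j2
    have e2 := intervalIntegral.integral_add_adjacent_intervals k1 k2
    have e3 := core 0 le_rfl ha0 hξ.le hm.le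
    have e4 : ∫ X in (-(q * M))..0, (ξ - X) * gg (up X) (R X) ≤
        ∫ X in (-(q * M))..0, (ξ - X) * (1 / R X) := by
      refine intervalIntegral.integral_mono_on ha0 j1 k1 fun X hX => ?_
      exact mul_le_mul_of_nonneg_left (pa X ⟨hX.1, hX.2.trans hm.le⟩ (hX.2.trans hξ.le))
        (sub_nonneg.2 (hX.2.trans hξ.le))
    linarith
  · have ha0 : 0 < -(q * M) := by
      have := mul_pos (neg_pos.2 hq) hM0
      linarith
    have j1 : IntervalIntegrable (fun X => (ξ - X) * gg (lo X) (R X)) volume 0 (-(q * M)) :=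
      (cl.mono (Icc_subset_Icc_right hqm)).intervalIntegrable_of_Icc ha0.le
    have j2 : IntervalIntegrable (fun X => (ξ - X) * gg (lo X) (R X)) volume (-(q * M)) m :=
      (cl.mono (Icc_subset_Icc_left ha0.le)).intervalIntegrable_of_Icc hqm
    have k1 : IntervalIntegrable (fun X => (ξ - X) * gg (1 + p * X) (R X)) volume 0 (-(q * M)) :=
      (c0.mono (Icc_subset_Icc_right haξ.le)).intervalIntegrable_of_Icc ha0.le
    have k2 : IntervalIntegrable (fun X => (ξ - X) * gg (1 + p * X) (R X)) volume (-(q * M)) ξ :=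
      (c0.mono (Icc_subset_Icc_left ha0.le)).intervalIntegrable_of_Icc haξ.le
    have e1 := intervalIntegral.integral_add_adjacent_intervals j1 j2
    have e2 := intervalIntegral.integral_add_adjacent_intervals k1 k2
    have e3 := core (-(q * M)) ha0.le le_rfl haξ.le hqm
    have e4 : ∫ X in (0:ℝ)..(-(q * M)), (ξ - X) * gg (1 + p * X) (R X) ≤
        ∫ X in (0:ℝ)..(-(q * M)), (ξ - X) * gg (lo X) (R X) := by
      refine intervalIntegral.integral_mono_on ha0.le k1 j1 fun X hX => ?_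
      have hX0 : X ∈ Icc 0 m := ⟨hX.1, hX.2.trans hqm⟩
      exact mul_le_mul_of_nonneg_left (pd X hX0 (hX.2.trans haξ.le) (hlow X hX0 hX.2))
        (sub_nonneg.2 (hX.2.trans haξ.le))
    linarith

end Pool.Agent.Lib.MP_1dedaf_gt.DK
end
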