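import Pool.Agent.Lib.MP_1dedaf_gt.Mg.G052
import Pool.Agent.Lib.MP_1dedaf_gt.LB.S0b
import Pool.Agent.Lib.MP_1dedaf_gt.LB.E1a
import Pool.Agent.Lib.MP_1dedaf_gt.Mg.G053
import Pool.Agent.Lib.MP_1dedaf_gt.Mg.G051
import Pool.Agent.Lib.MP_1dedaf_gt.LB.E2

section

/-!
# TASK LB E3c: the derivative of the area of a Wulff shape

Proof. `B = Wu f`, `B_ε = Wu (f exp (ε ψ))`, `c = max |ψ|` on the circle. (`Wu_sandwich`) `x ∈ B → exp (-c|ε|) x ∈ B_ε` and conversely, so the gauges satisfy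
`exp (-c|ε|) gauge B x ≤ gauge B_ε x ≤ exp (c|ε|) gauge B x` (`gauge_Wu_max`, `gauge_Wu_ge`). Let `w_ε x = gauge B x / gauge B_ε x` for `x ≠ 0`, `w_ε 0 = 1`: measurable,
`0`-homogeneous, between `exp (∓ c|ε|)`; `B_ε = {gauge B x ≤ w_ε x}`. `vol_radial`: `ar B_ε = ∫_B w_ε²`. For good `x` the derivative of `w_ε x ^ 2 = exp (2 (log gauge B x - log gauge B_ε x))` at
`ε = 0` is `2 ψ(nu B x)` (`danskin`), and `|w_ε² - 1| ≤ exp (2c|ε|) - 1 ≤ 2 c exp(2c) |ε|` for `|ε| ≤ 1`. Dominated convergence for the difference quotients.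
-/

set_option autoImplicit false

open MeasureTheory Set Filter Topology

namespace Pool.Agent.Lib.MP_1dedaf_gt.LB

private theorem E3c_cont {f : E2 → ℝ} (hf : ContinuousOn f (Metric.sphere 0 1)) {ψ : E2 → ℝ}
    (hψ : Continuous ψ) (ε : ℝ) : ContinuousOn (fun u => f u * Real.exp (ε * ψ u)) (Metric.sphere 0 1) :=
  hf.mul (Real.continuous_exp.comp (continuous_const.mul hψ)).continuousOn

private theorem E3c_pos {f : E2 → ℝ} (hp : ∀ u : E2, ‖u‖ = 1 → 0 < f u) (ψ : E2 → ℝ) (ε : ℝ) :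
    ∀ u : E2, ‖u‖ = 1 → 0 < f u * Real.exp (ε * ψ u) :=
  fun u hu => mul_pos (hp u hu) (Real.exp_pos _)

theorem Wu_sandwich {f : E2 → ℝ} (hf : ContinuousOn f (Metric.sphere 0 1)) (hp : ∀ u : E2, ‖u‖ = 1 → 0 < f u) {ψ : E2 → ℝ}
    (hψ : Continuous ψ) : ∃ c : ℝ, 0 < c ∧ ∀ ε x, Real.exp (-(c * |ε|)) * gauge (Wu f) x ≤ gauge (Wu (fun u => f u * Real.exp (ε * ψ u))) x ∧
      gauge (Wu (fun u => f u * Real.exp (ε * ψ u))) x ≤ Real.exp (c * |ε|) * gauge (Wu f) x := by
  obtain ⟨C, hC⟩ := (isCompact_sphere (0 : E2) 1).exists_bound_of_continuousOn hψ.continuousOn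
  refine ⟨|C| + 1, by positivity, fun ε x => ?_⟩
  have hbd : ∀ u : E2, ‖u‖ = 1 → |ε * ψ u| ≤ (|C| + 1) * |ε| := by
    intro u hu
    have h1 := hC u (by simpa using hu)
    rw [Real.norm_eq_abs] at h1
    rw [abs_mul, mul_comm]
    exact mul_le_mul_of_nonneg_right (h1.trans ((le_abs_self C).trans (by linarith))) (abs_nonneg _)
  by_cases hx : x = 0
  · subst hx
    simp
  have hF := E3c_cont hf hψ ε
  have hq := E3c_pos hp ψ ε
  have hB0 : Body (Wu f) := Wu_body hf hp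
  have hBe : Body (Wu (fun u => f u * Real.exp (ε * ψ u))) := Wu_body hF hq
  have g0 : 0 < gauge (Wu f) x := gauge_pos' hB0 hx
  have ge : 0 < gauge (Wu (fun u => f u * Real.exp (ε * ψ u))) x := gauge_pos' hBe hx
  constructor
  · obtain ⟨u, hu, he⟩ := gauge_Wu_max hf hp hx
    have h1 := gauge_Wu_ge hF hq x hu
    rw [he] at h1
    have hfu := hp u hu
    have h2 : gauge (Wu f) x ≤ gauge (Wu (fun u => f u * Real.exp (ε * ψ u))) x * Real.exp (ε * ψ u) := by
      by_contra hcon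
      push Not at hcon
      have := mul_lt_mul_of_pos_right hcon hfu
      nlinarith
    have h3 : Real.exp (ε * ψ u) ≤ Real.exp ((|C| + 1) * |ε|) :=
      Real.exp_le_exp.2 ((le_abs_self _).trans (hbd u hu))
    have h4 : gauge (Wu f) x ≤ gauge (Wu (fun u => f u * Real.exp (ε * ψ u))) x * Real.exp ((|C| + 1) * |ε|) :=
      h2.trans (mul_le_mul_of_nonneg_left h3 ge.le)
    have h5 : Real.exp (-((|C| + 1) * |ε|)) * Real.exp ((|C| + 1) * |ε|) = 1 := by
      rw [← Real.exp_add]; simp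
    calc Real.exp (-((|C| + 1) * |ε|)) * gauge (Wu f) x
        ≤ Real.exp (-((|C| + 1) * |ε|)) * (gauge (Wu (fun u => f u * Real.exp (ε * ψ u))) x * Real.exp ((|C| + 1) * |ε|)) :=
          mul_le_mul_of_nonneg_left h4 (Real.exp_pos _).le
      _ = gauge (Wu (fun u => f u * Real.exp (ε * ψ u))) x * (Real.exp (-((|C| + 1) * |ε|)) * Real.exp ((|C| + 1) * |ε|)) := by ring
      _ = gauge (Wu (fun u => f u * Real.exp (ε * ψ u))) x := by rw [h5, mul_one]
  · obtain ⟨u, hu, he⟩ := gauge_Wu_max hF hq hx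
    have h1 := gauge_Wu_ge hf hp x hu
    rw [he] at h1
    have hfu := hp u hu
    have h2 : gauge (Wu (fun u => f u * Real.exp (ε * ψ u))) x * Real.exp (ε * ψ u) ≤ gauge (Wu f) x := by
      by_contra hcon
      push Not at hcon
      have := mul_lt_mul_of_pos_right hcon hfu
      nlinarith
    have h3 : Real.exp (-(ε * ψ u)) ≤ Real.exp ((|C| + 1) * |ε|) :=
      Real.exp_le_exp.2 ((neg_le_abs _).trans (hbd u hu))
    have h5 : Real.exp (ε * ψ u) * Real.exp (-(ε * ψ u)) = 1 := by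
      rw [← Real.exp_add]; simp
    calc gauge (Wu (fun u => f u * Real.exp (ε * ψ u))) x
        = gauge (Wu (fun u => f u * Real.exp (ε * ψ u))) x * (Real.exp (ε * ψ u) * Real.exp (-(ε * ψ u))) := by rw [h5, mul_one]
      _ = (gauge (Wu (fun u => f u * Real.exp (ε * ψ u))) x * Real.exp (ε * ψ u)) * Real.exp (-(ε * ψ u)) := by ring
      _ ≤ gauge (Wu f) x * Real.exp (-(ε * ψ u)) := mul_le_mul_of_nonneg_right h2 (Real.exp_pos _).le
      _ ≤ gauge (Wu f) x * Real.exp ((|C| + 1) * |ε|) := mul_le_mul_of_nonneg_left h3 g0.le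
      _ = Real.exp ((|C| + 1) * |ε|) * gauge (Wu f) x := mul_comm _ _

/-- The quotient of the gauge functions. -/
private noncomputable def E3c_w (f ψ : E2 → ℝ) (ε : ℝ) (x : E2) : ℝ :=
  if x = 0 then 1 else gauge (Wu f) x / gauge (Wu (fun u => f u * Real.exp (ε * ψ u))) x

private theorem E3c_w_meas {f : E2 → ℝ} (hf : ContinuousOn f (Metric.sphere 0 1)) (hp : ∀ u : E2, ‖u‖ = 1 → 0 < f u)
    {ψ : E2 → ℝ} (hψ : Continuous ψ) (ε : ℝ) : Measurable (E3c_w f ψ ε) := by
  have hB0 : Body (Wu f) := Wu_body hf hp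
  have hBe : Body (Wu (fun u => f u * Real.exp (ε * ψ u))) := Wu_body (E3c_cont hf hψ ε) (E3c_pos hp ψ ε)
  exact Measurable.ite (measurableSet_singleton (0 : E2)) measurable_const
    ((gauge_cont' hB0).measurable.div (gauge_cont' hBe).measurable)

private theorem E3c_w_smul (f ψ : E2 → ℝ) (ε : ℝ) (x : E2) (r : ℝ) (hr : 0 < r) :
    E3c_w f ψ ε (r • x) = E3c_w f ψ ε x := by
  unfold E3c_w
  by_cases hx : x = 0
  · simp [hx]
  · have h1 : r • x ≠ 0 := smul_ne_zero hr.ne' hx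
    rw [if_neg h1, if_neg hx, gauge_smul_of_nonneg hr.le, gauge_smul_of_nonneg hr.le, smul_eq_mul,
      smul_eq_mul, mul_div_mul_left _ _ hr.ne']

private theorem E3c_w_bds {f : E2 → ℝ} (hf : ContinuousOn f (Metric.sphere 0 1)) (hp : ∀ u : E2, ‖u‖ = 1 → 0 < f u)
    {ψ : E2 → ℝ} (hψ : Continuous ψ) {c : ℝ} (hc : 0 < c)
    (h : ∀ ε x, Real.exp (-(c * |ε|)) * gauge (Wu f) x ≤ gauge (Wu (fun u => f u * Real.exp (ε * ψ u))) x ∧
      gauge (Wu (fun u => f u * Real.exp (ε * ψ u))) x ≤ Real.exp (c * |ε|) * gauge (Wu f) x) (ε : ℝ) (x : E2) :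
    Real.exp (-(c * |ε|)) ≤ E3c_w f ψ ε x ∧ E3c_w f ψ ε x ≤ Real.exp (c * |ε|) := by
  have hce : 0 ≤ c * |ε| := by positivity
  unfold E3c_w
  by_cases hx : x = 0
  · rw [if_pos hx]
    exact ⟨Real.exp_le_one_iff.2 (by linarith), Real.one_le_exp hce⟩
  · rw [if_neg hx]
    have hB0 : Body (Wu f) := Wu_body hf hp
    have hBe : Body (Wu (fun u => f u * Real.exp (ε * ψ u))) := Wu_body (E3c_cont hf hψ ε) (E3c_pos hp ψ ε)
    have g0 : 0 < gauge (Wu f) x := gauge_pos' hB0 hx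
    have ge : 0 < gauge (Wu (fun u => f u * Real.exp (ε * ψ u))) x := gauge_pos' hBe hx
    obtain ⟨h1, h2⟩ := h ε x
    have h5 : Real.exp (-(c * |ε|)) * Real.exp (c * |ε|) = 1 := by
      rw [← Real.exp_add]; simp
    constructor
    · rw [le_div_iff₀ ge]
      calc Real.exp (-(c * |ε|)) * gauge (Wu (fun u => f u * Real.exp (ε * ψ u))) x
          ≤ Real.exp (-(c * |ε|)) * (Real.exp (c * |ε|) * gauge (Wu f) x) :=
            mul_le_mul_of_nonneg_left h2 (Real.exp_pos _).le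
        _ = gauge (Wu f) x := by rw [← mul_assoc, h5, one_mul]
    · rw [div_le_iff₀ ge]
      calc gauge (Wu f) x = Real.exp (c * |ε|) * (Real.exp (-(c * |ε|)) * gauge (Wu f) x) := by
            rw [← mul_assoc, mul_comm (Real.exp (c * |ε|)), h5, one_mul]
        _ ≤ Real.exp (c * |ε|) * gauge (Wu (fun u => f u * Real.exp (ε * ψ u))) x :=
            mul_le_mul_of_nonneg_left h1 (Real.exp_pos _).le

private theorem E3c_set {f : E2 → ℝ} (hf : ContinuousOn f (Metric.sphere 0 1)) (hp : ∀ u : E2, ‖u‖ = 1 → 0 < f u)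
    {ψ : E2 → ℝ} (hψ : Continuous ψ) (ε : ℝ) :
    Wu (fun u => f u * Real.exp (ε * ψ u)) = {x | gauge (Wu f) x ≤ E3c_w f ψ ε x} := by
  have hB0 : Body (Wu f) := Wu_body hf hp
  have hBe : Body (Wu (fun u => f u * Real.exp (ε * ψ u))) := Wu_body (E3c_cont hf hψ ε) (E3c_pos hp ψ ε)
  ext x
  rw [Set.mem_ofPred_eq, ← gauge_le_one_iff' hBe]
  by_cases hx : x = 0
  · simp [hx, E3c_w]
  · have g0 : 0 < gauge (Wu f) x := gauge_pos' hB0 hx
    have ge : 0 < gauge (Wu (fun u => f u * Real.exp (ε * ψ u))) x := gauge_pos' hBe hx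
    unfold E3c_w
    rw [if_neg hx, le_div_iff₀ ge]
    constructor
    · intro h
      exact mul_le_of_le_one_right g0.le h
    · intro h
      by_contra hcon
      push Not at hcon
      nlinarith

private theorem E3c_exp (t : ℝ) : Real.exp t - 1 ≤ t * Real.exp t := by
  have h1 := Real.add_one_le_exp (-t)
  have h2 : Real.exp (-t) * Real.exp t = 1 := by rw [← Real.exp_add]; simp
  have h3 := mul_le_mul_of_nonneg_right h1 (Real.exp_pos t).le
  nlinarith

theorem ar_Wu_deriv {f : E2 → ℝ} (hf : ContinuousOn f (Metric.sphere 0 1)) (hp : ∀ u : E2, ‖u‖ = 1 → 0 < f u) {ψ : E2 → ℝ}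
    (hψ : Continuous ψ) :
    HasDerivAt (fun ε : ℝ => ar (Wu (fun u => f u * Real.exp (ε * ψ u)))) (2 * ∫ x in Wu f, ψ (nu (Wu f) x)) 0 := by
  obtain ⟨c, hc, hsw⟩ := Wu_sandwich hf hp hψ
  have hB : Body (Wu f) := Wu_body hf hp
  have hbd := E3c_w_bds hf hp hψ hc hsw
  have harea : (fun ε : ℝ => ar (Wu (fun u => f u * Real.exp (ε * ψ u)))) =
      fun ε => ∫ x in Wu f, (E3c_w f ψ ε x) ^ 2 := by
    funext ε
    rw [E3c_set hf hp hψ ε]
    exact vol_radial hB (E3c_w_meas hf hp hψ ε) (E3c_w_smul f ψ ε) (Real.exp_pos _) (hbd ε)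
  rw [harea]
  have hfin : IsFiniteMeasure ((volume : Measure E2).restrict (Wu f)) :=
    ⟨by rw [Measure.restrict_apply_univ]; exact hB.comp.measure_lt_top⟩
  have hw0 : ∀ x, E3c_w f ψ 0 x = 1 := by
    intro x
    obtain ⟨h1, h2⟩ := hbd 0 x
    simp only [abs_zero, mul_zero, neg_zero, Real.exp_zero] at h1 h2
    linarith
  obtain ⟨hint, hder⟩ := hasFDerivAt_integral_of_dominated_loc_of_lip' (𝕜 := ℝ)
    (μ := (volume : Measure E2).restrict (Wu f)) (F := fun (ε : ℝ) x => (E3c_w f ψ ε x) ^ 2) (x₀ := (0 : ℝ))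
    (s := Metric.ball 0 1)
    (F' := fun x => ContinuousLinearMap.smulRight (1 : ℝ →L[ℝ] ℝ) (2 * ψ (nu (Wu f) x)))
    (bound := fun _ => 2 * c * Real.exp (2 * c)) (Metric.ball_mem_nhds 0 one_pos)
    (fun ε _ => ((E3c_w_meas hf hp hψ ε).pow_const 2).aestronglyMeasurable)
    (by simp only [hw0]; exact integrable_const _)
    (by
      have h1 : Measurable (fun x => 2 * ψ (nu (Wu f) x)) :=
        (hψ.measurable.comp (nu_meas (Wu f))).const_mul 2
      exact ((ContinuousLinearMap.smulRightL ℝ ℝ ℝ (1 : ℝ →L[ℝ] ℝ)).continuous.measurable.comp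
        h1).aestronglyMeasurable)
    (by
      refine Filter.Eventually.of_forall fun x ε hε => ?_
      have hε' : |ε| < 1 := by simpa using hε
      obtain ⟨h1, h2⟩ := hbd ε x
      have hce : 0 ≤ c * |ε| := by positivity
      have hwp : 0 < E3c_w f ψ ε x := (Real.exp_pos _).trans_le h1
      have e1 : Real.exp (-(c * |ε|)) ^ 2 = Real.exp (-(2 * c * |ε|)) := by
        rw [← Real.exp_nat_mul]; congr 1; push_cast; ring
      have e2 : Real.exp (c * |ε|) ^ 2 = Real.exp (2 * c * |ε|) := by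
        rw [← Real.exp_nat_mul]; congr 1; push_cast; ring
      have h3 : Real.exp (-(2 * c * |ε|)) ≤ E3c_w f ψ ε x ^ 2 := by
        rw [← e1]; exact pow_le_pow_left₀ (Real.exp_pos _).le h1 2
      have h4 : E3c_w f ψ ε x ^ 2 ≤ Real.exp (2 * c * |ε|) := by
        rw [← e2]; exact pow_le_pow_left₀ hwp.le h2 2
      have h5 := Real.add_one_le_exp (-(2 * c * |ε|))
      have h6 := E3c_exp (2 * c * |ε|)
      have h7 : Real.exp (2 * c * |ε|) ≤ Real.exp (2 * c) :=
        Real.exp_le_exp.2 (by nlinarith)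
      have h8 : (1 : ℝ) ≤ Real.exp (2 * c) := Real.one_le_exp (by positivity)
      have h9 : 0 ≤ 2 * c * |ε| := by positivity
      simp only [hw0, one_pow, Real.norm_eq_abs, sub_zero]
      rw [abs_le]
      constructor
      · nlinarith
      · nlinarith)
    (integrable_const _)
    (by
      refine (ae_restrict_of_ae (good_ae hB)).mono fun x hx => ?_
      have hd := danskin hf hp hψ hx
      have h1 : HasDerivAt (fun ε : ℝ => Real.exp (2 * (Real.log (gauge (Wu f) x) -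
          Real.log (gauge (Wu (fun u => f u * Real.exp (ε * ψ u))) x)))) (2 * ψ (nu (Wu f) x)) 0 := by
        have h2 := ((hd.const_sub (Real.log (gauge (Wu f) x))).const_mul 2).exp
        convert h2 using 1
        simp
      have h3 : (fun ε : ℝ => (E3c_w f ψ ε x) ^ 2) = fun ε : ℝ => Real.exp (2 * (Real.log (gauge (Wu f) x) -
          Real.log (gauge (Wu (fun u => f u * Real.exp (ε * ψ u))) x))) := by
        funext ε
        have g0 : 0 < gauge (Wu f) x := gauge_pos' hB hx.1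
        have ge : 0 < gauge (Wu (fun u => f u * Real.exp (ε * ψ u))) x :=
          gauge_pos' (Wu_body (E3c_cont hf hψ ε) (E3c_pos hp ψ ε)) hx.1
        unfold E3c_w
        rw [if_neg hx.1, ← Real.log_div g0.ne' ge.ne', two_mul, Real.exp_add,
          Real.exp_log (div_pos g0 ge), sq]
      rw [h3]
      exact h1.hasFDerivAt)
  have h := hder.hasDerivAt
  rw [ContinuousLinearMap.integral_apply hint] at h
  have hv : (∫ x in Wu f, (ContinuousLinearMap.smulRight (1 : ℝ →L[ℝ] ℝ) (2 * ψ (nu (Wu f) x))) 1) =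
      2 * ∫ x in Wu f, ψ (nu (Wu f) x) := by
    rw [← integral_const_mul]
    refine integral_congr_ae (Filter.Eventually.of_forall fun x => ?_)
    simp
  rw [hv] at h
  exact h

end Pool.Agent.Lib.MP_1dedaf_gt.LB
end

section

/-!
# TASK LB E11: equal support functions at the normals

Proof. For `z ∈ C` and almost every `x`: `<z, nu K x> ≤ hs C (nu K x) = hs K (nu K x)` (`inner_le_hs`; `yy = 0` and both support functions are positive at unit vectors, `good_ae`, `nu_norm`, `hs_pos`), so `z ∈ K` by `mem_of_normals`. So `C ⊆ K`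
and `C = K` by `eq_of_ar`.
-/

set_option autoImplicit false

open MeasureTheory Set Filter Topology

namespace Pool.Agent.Lib.MP_1dedaf_gt.LB

theorem eq_of_y_zero {t : ℝ} {K C : Set E2} (h : EqCase t K C)
    (hy : ∀ᵐ x ∂(volume : Measure E2), |yy K C (nu K x)| = 0) : K = C := by
  have hsub : C ⊆ K := by
    intro z hz
    refine mem_of_normals h.bK ?_
    filter_upwards [hy, good_ae h.bK] with x h1 h2
    have hn : ‖nu K x‖ = 1 := nu_norm h.bK h2
    have hne : nu K x ≠ 0 := by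
      intro h0
      rw [h0, norm_zero] at hn
      exact zero_ne_one hn
    have hpK := hs_pos h.bK hne
    have hpC := hs_pos h.bC hne
    have h3 : Real.log (hs C (nu K x) / hs K (nu K x)) = 0 := abs_eq_zero.mp h1
    have h4 : hs C (nu K x) / hs K (nu K x) = 1 := Real.eq_one_of_pos_of_log_eq_zero
      (div_pos hpC hpK) h3
    have h5 : hs C (nu K x) = hs K (nu K x) := by
      rwa [div_eq_one_iff_eq hpK.ne'] at h4
    rw [← h5]
    exact inner_le_hs h.bC.comp hz (nu K x)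
  exact (eq_of_ar h.bC h.bK hsub h.arC.ge).symm

end Pool.Agent.Lib.MP_1dedaf_gt.LB
end
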