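import Pool.Agent.Lib.MP_1dedaf_gt.Mg.G044
import Pool.Agent.Lib.MP_1dedaf_gt.Mg.G049
import Pool.Agent.Lib.MP_1dedaf_gt.DK.C1b
import Pool.Agent.Lib.MP_1dedaf_gt.Mg.G052
import Pool.Agent.Lib.MP_1dedaf_gt.Mg.G051
import Pool.Agent.Lib.MP_1dedaf_gt.LB.D0
import Pool.Agent.Lib.MP_1dedaf_gt.Mg.G054
import Pool.Agent.Lib.MP_1dedaf_gt.LB.E4b

section

/-!
# TM P2: a lower bound for the mass
-/

set_option autoImplicit false

open MeasureTheory Set Filter Topology

namespace Pool.Agent.Lib.MP_1dedaf_gt.DK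

namespace Dat

theorem P2 (K : Dat) (h : K.Reg) (vl : ConvexOn ℝ (Icc 0 K.w) K.l) (vu : ConcaveOn ℝ (Icc 0 K.w) K.u) (h0 : K.l 0 = 0) (hu : 0 < K.u 0)
    (hI : K.u 0 * K.w ≤ ∫ x in (0:ℝ)..K.w, (K.u x - K.l x)) (hne : ∃ x ∈ Icc 0 K.w, K.u x - K.l x ≠ K.u 0) :
    K.a * ee K.q (K.u 0) < K.M := by
  have hq := h.hq
  have hqa : 0 < |K.q| := abs_pos.2 hq
  have hs := K.P2_strip h vl vu
  have hom := K.P2_om
  have hom0 : om K.sL K.sR 0 = |K.q| * K.u 0 / 2 := by rw [hom, h0, sub_zero]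
  have hpos : 0 < om K.sL K.sR 0 := by
    rw [hom0]
    positivity
  have hint : 0 ≤ ∫ x in (0:ℝ)..K.w, (om K.sL K.sR x - om K.sL K.sR 0) := by
    have e : ∀ x, om K.sL K.sR x - om K.sL K.sR 0 = |K.q| / 2 * ((K.u x - K.l x) - K.u 0) := by
      intro x
      rw [hom0, hom]
      ring
    simp only [e]
    rw [intervalIntegral.integral_const_mul]
    apply mul_nonneg (by positivity)
    have hi : IntervalIntegrable (fun x => K.u x - K.l x) volume 0 K.w := (h.cu.sub h.cl).intervalIntegrable _ _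
    rw [intervalIntegral.integral_sub hi intervalIntegrable_const]
    simp only [intervalIntegral.integral_const, sub_zero, smul_eq_mul]
    linarith
  have hne' : ∃ x ∈ Icc 0 K.w, om K.sL K.sR x ≠ om K.sL K.sR 0 := by
    obtain ⟨x, hx, hx2⟩ := hne
    refine ⟨x, hx, fun hcon => hx2 ?_⟩
    rw [hom0, hom] at hcon
    have : |K.q| * (K.u x - K.l x) = |K.q| * K.u 0 := by linarith
    exact mul_left_cancel₀ hqa.ne' this
  have hP := strip_P2 hs hpos hint hne'
  have hid := K.P2_id h h0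
  have hD := K.D_pos h
  have h1 : 0 < (K.M - K.a * ee K.q (K.u 0)) * K.D := by
    rw [hid]
    apply mul_pos _ hP
    have : 0 < K.q ^ 2 := by positivity
    positivity
  have h2 := (mul_pos_iff_of_pos_right hD).1 h1
  linarith

end Dat

end Pool.Agent.Lib.MP_1dedaf_gt.DK
end

section

/-!
# TASK TN V4: the reference point inequality (C*)

Proof of `Yl_mono`: for `x ≤ x'` in `[0, w]`: `Yl x' - Yl x = (1/q) (rl x' - rl x - p ∫_x^{x'} rl)`, `l` is nondecreasing on `[0, w]` (convex with `l 0 = 0 ≤ l`; `l_mono` in C1b). If `λ t := exp (p t + q l x)` then `rl t = λ t * E t`, `E t = exp (q (l t - l x))`, and with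
`q > 0`, `p ≥ 0`: `p ∫ rl ≤ E x' ∫ p λ = E x' (λ x' - λ x)`, so `rl x' - rl x - p ∫ rl ≥ (E x' - 1) λ x ≥ 0`; `q > 0`, `p < 0`: `- p ∫ rl ≥ - p ∫ λ = λ x - λ x'`, so it is `≥ (E x' - 1) λ x' ≥ 0`; for `q < 0` all inequalities are reversed (`1 ≥ E t ≥ E x'`). (You may also use helper45's `arc_mono` if it is there.)
Proof of `CStar`. `q ≠ 0`, `K.col.Reg` (`cf_facts`), `f := K.col.Xl` has the derivative `rl > 0`, `K.col.Xu` has the derivative `ru > 0` (`Xl_deriv`, `Xu_deriv`), `Xl 0 = 0`, `Xu 0 = - q M`, `Xl w = Xu w =: m > 0`, so `- q M < m`. `gl`, `gu` := the inverse functions of `Xl`, `Xu` on `[0, w]` (`inv_fun`).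
`lo X := rl (gl X)`, `up X := ru (gu X)`, `Lo X := Yl (gl X)`, `Up X := Yu (gu X)`; they are continuous. Apply `plane_ineq`: `hLo`, `hUp` are `RR_rl`, `RR_ru`; `hbot`: `Yl x ≥ Yl 0 = - p M` (`Yl_mono`, `rl 0 = 1`, `Xl 0 = 0`); `hout`: `Out`, for `X = Xu (gu X) > ξ`: not `η < Yu`; `hreg`: the hypothesis `hreg`;
`hlow`: let `X = Xl x ≤ - q M`, `X ≥ 0`, so `q M ≤ 0`, that is `q < 0`. By `hl` either (i) `0 ≤ St + q M`: then `Xl x ≤ - q M ≤ St = Xl (r 0)` (on `[0, r 0]` `l = 0`, `rl t = e^{p t}`, `Xl (r 0) = ee p (r 0)`), so `x ≤ r 0` and `Yl x = - p M ≤ η` (`η + p M = η (1 + p ξ) > 0`; on `[0, r 0]`: `Xl x = ee p x`, `rl x = 1 + p ee p x`);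
or (ii) `Ss ≤ η`: let `x1 ∈ [0, w]` with `Xl x1 = - q M` (intermediate values, `- q M ≤ m`); `x ≤ x1`, `Yl x ≤ Yl x1`, and `hreg` for the pair `(x1, 0)` (`Xu 0 = - q M`): `Yl x1 ≤ Yu 0 = Ss ≤ η` or `Yl x1 ≤ η`. (`Yu 0 = (ru 0 - 1)/q = ee q (u 0)`.)
Then `Br_eq` and `int_subst` (with `φ X = (ξ - X) * gg (lo X) (R X)`, `lo (Xl x) = rl x`) give `q² Br ≥ 0`.
-/

set_option autoImplicit false

open MeasureTheory Set Filter Topology

namespace Pool.Agent.Lib.MP_1dedaf_gt.DK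

/-- Regular position of the lower arc with respect to the reference point. -/
def Dat.REG (K : Dat) (ξ η : ℝ) : Prop :=
  ∀ x ∈ Icc 0 K.w, ∀ x' ∈ Icc 0 K.w, K.Xl x = K.Xu x' → K.Yl x ≤ K.Yu x' ∨ (K.Yl x ≤ η ∧ K.Xl x ≤ ξ)

private theorem V4_mon (q a s t : ℝ) (h : s ≤ t) : q * Real.exp (a + q * s) ≤ q * Real.exp (a + q * t) := by
  rcases le_or_gt 0 q with hq | hq
  · exact mul_le_mul_of_nonneg_left (Real.exp_le_exp.2 (by nlinarith)) hq
  · exact mul_le_mul_of_nonpos_left (Real.exp_le_exp.2 (by nlinarith)) hq.le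

private theorem V4_exp_cont (p c : ℝ) : Continuous fun t : ℝ => Real.exp (p * t + c) := by
  fun_prop

private theorem V4_int (p c a b : ℝ) : p * ∫ t in a..b, Real.exp (p * t + c) = Real.exp (p * b + c) - Real.exp (p * a + c) := by
  rw [← intervalIntegral.integral_const_mul]
  have hd : ∀ t ∈ uIcc a b, HasDerivAt (fun t : ℝ => Real.exp (p * t + c)) (p * Real.exp (p * t + c)) t := by
    intro t _
    have h1 : HasDerivAt (fun t : ℝ => p * t + c) p t := by
      have h2 := ((hasDerivAt_id t).const_mul p).add_const c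
      rw [mul_one] at h2
      exact h2
    have h3 := h1.exp
    rw [mul_comm] at h3
    exact h3
  exact intervalIntegral.integral_eq_sub_of_hasDerivAt hd
    ((continuous_const.mul (V4_exp_cont p c)).intervalIntegrable a b)

theorem Yl_mono (K : Bd) (h : K.CF) (x x' : ℝ) (h0 : 0 ≤ x) (h1 : x ≤ x') (h2 : x' ≤ K.w) : K.col.Yl x ≤ K.col.Yl x' := by
  have hq : K.q ≠ 0 := h.hq
  have hm := (Bd.l_mono K h).1
  have hx : x ∈ Icc 0 K.w := ⟨h0, h1.trans h2⟩
  have hx' : x' ∈ Icc 0 K.w := ⟨h0.trans h1, h2⟩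
  have hcl : Continuous K.col.rl := Dat.rl_cont K.col h.cl
  have hX : K.col.Xl x' - K.col.Xl x = ∫ t in x..x', K.col.rl t := by
    have h3 := intervalIntegral.integral_add_adjacent_intervals (μ := volume) (hcl.intervalIntegrable 0 x)
      (hcl.intervalIntegrable x x')
    unfold Dat.Xl
    linarith
  have key : ∃ c, K.l x ≤ c ∧ c ≤ K.l x' ∧ ∀ t ∈ Icc x x', K.q * (K.p * K.col.rl t) ≤ K.q * (K.p * Real.exp (K.p * t + K.q * c)) := by
    rcases le_or_gt 0 K.p with hp | hp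
    · refine ⟨K.l x', hm hx hx' h1, le_refl _, fun t ht => ?_⟩
      have h3 : K.l t ≤ K.l x' := hm ⟨h0.trans ht.1, ht.2.trans h2⟩ hx' ht.2
      have h4 := V4_mon K.q (K.p * t) _ _ h3
      have h5 := mul_le_mul_of_nonneg_left h4 hp
      have h6 : K.q * (K.p * K.col.rl t) = K.p * (K.q * Real.exp (K.p * t + K.q * K.l t)) := by
        show K.q * (K.p * Real.exp (K.p * t + K.q * K.l t)) = _
        ring
      rw [h6]
      linarith
    · refine ⟨K.l x, le_refl _, hm hx hx' h1, fun t ht => ?_⟩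
      have h3 : K.l x ≤ K.l t := hm hx ⟨h0.trans ht.1, ht.2.trans h2⟩ ht.1
      have h4 := V4_mon K.q (K.p * t) _ _ h3
      have h5 := mul_le_mul_of_nonpos_left h4 hp.le
      have h6 : K.q * (K.p * K.col.rl t) = K.p * (K.q * Real.exp (K.p * t + K.q * K.l t)) := by
        show K.q * (K.p * Real.exp (K.p * t + K.q * K.l t)) = _
        ring
      rw [h6]
      linarith
  obtain ⟨c, hc1, hc2, hc3⟩ := key
  have hE := V4_int K.p (K.q * c) x x'
  have hI : K.q * (K.p * ∫ t in x..x', K.col.rl t) ≤ K.q * (K.p * ∫ t in x..x', Real.exp (K.p * t + K.q * c)) := by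
    rw [← intervalIntegral.integral_const_mul, ← intervalIntegral.integral_const_mul,
      ← intervalIntegral.integral_const_mul, ← intervalIntegral.integral_const_mul]
    refine intervalIntegral.integral_mono_on h1 ?_ ?_ hc3
    · exact (continuous_const.mul (continuous_const.mul hcl)).intervalIntegrable _ _
    · exact (continuous_const.mul (continuous_const.mul (V4_exp_cont _ _))).intervalIntegrable _ _
  rw [hE, ← hX] at hI
  have e1 := V4_mon K.q (K.p * x') _ _ hc2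
  have e2 := V4_mon K.q (K.p * x) _ _ hc1
  have r1 : K.col.rl x' = Real.exp (K.p * x' + K.q * K.l x') := rfl
  have r2 : K.col.rl x = Real.exp (K.p * x + K.q * K.l x) := rfl
  rw [← r1] at e1
  rw [← r2] at e2
  have hfin : 0 ≤ K.q * (K.col.rl x' - K.col.rl x - K.p * (K.col.Xl x' - K.col.Xl x)) := by
    linarith
  have hd : K.col.Yl x' - K.col.Yl x = K.q * (K.col.rl x' - K.col.rl x - K.p * (K.col.Xl x' - K.col.Xl x)) / K.q ^ 2 := by
    show (K.col.rl x' - 1 - K.p * K.q * K.col.M - K.p * K.col.Xl x') / K.q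
      - (K.col.rl x - 1 - K.p * K.q * K.col.M - K.p * K.col.Xl x) / K.q = _
    field_simp
    ring
  have hpos : 0 ≤ K.col.Yl x' - K.col.Yl x := by
    rw [hd]
    exact div_nonneg hfin (sq_nonneg _)
  linarith

private theorem V4_side (K : Bd) (h : K.CF) (x : ℝ) (h0 : 0 ≤ x) (h1 : x ≤ K.r 0) :
    K.col.rl x = Real.exp (K.p * x) ∧ K.col.Xl x = ee K.p x := by
  obtain ⟨-, -, -, -, -, -, hb, -⟩ := cf_facts K h
  have e1 : ∀ t ∈ Icc 0 x, K.col.rl t = Real.exp (K.p * t + 0) := by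
    intro t ht
    show Real.exp (K.p * t + K.q * K.l t) = _
    rw [(hb t ht.1 (ht.2.trans h1)).2.1, mul_zero]
  constructor
  · have h2 := e1 x ⟨h0, le_refl _⟩
    rw [add_zero] at h2
    exact h2
  · unfold Dat.Xl ee
    rw [eq_div_iff h.hp, mul_comm]
    have h2 : ∫ t in (0:ℝ)..x, K.col.rl t = ∫ t in (0:ℝ)..x, Real.exp (K.p * t + 0) := by
      refine intervalIntegral.integral_congr fun t ht => ?_
      rw [uIcc_of_le h0] at ht
      exact e1 t ht
    rw [h2, V4_int]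
    rw [add_zero, mul_zero, add_zero, Real.exp_zero]

private theorem V4_low (K : Bd) (h : K.CF) (ξ η : ℝ) (hξ : 0 < ξ) (hη : 0 < η) (hM : ξ * η = K.col.M) (h1 : 0 < 1 + K.p * ξ)
    (hreg : K.col.REG ξ η) (hl : K.q < 0 → K.Ss ≤ η ∨ 0 ≤ K.St + K.q * K.col.M) (x : ℝ) (hx : x ∈ Icc 0 K.w)
    (hx2 : K.col.Xl x ≤ -(K.q * K.col.M)) : K.col.Yl x ≤ η := by
  obtain ⟨hl0, -, hu0, hr0, -, -, -, -, hrw, -, -, -⟩ := cf_facts K h
  have hq : K.q ≠ 0 := h.hq
  have hw : 0 < K.w := h.hw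
  have hMp : 0 < K.col.M := hM ▸ mul_pos hξ hη
  have fl : ∀ x, HasDerivAt K.col.Xl (K.col.rl x) x := Dat.Xl_deriv K.col h.cl
  have sl : StrictMono K.col.Xl := V0_strict _ _ fl (Dat.rl_pos K.col)
  have fu : ∀ x, HasDerivAt K.col.Xu (K.col.ru x) x := Dat.Xu_deriv K.col hq h.cl h.cu
  have su : StrictMono K.col.Xu := V0_strict _ _ fu (Dat.ru_pos K.col)
  have hX0 : 0 ≤ K.col.Xl x := by
    have h2 := sl.monotone hx.1
    rw [Dat.Xl_zero] at h2
    exact h2
  have hqn : K.q < 0 := by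
    rcases lt_or_gt_of_ne hq with h2 | h2
    · exact h2
    · have := mul_pos h2 hMp
      linarith
  rcases hl hqn with h3 | h3
  · have h4 : -(K.q * K.col.M) ≤ K.col.Xl K.w := by
      have h5 : K.col.Xu 0 ≤ K.col.Xu K.w := su.monotone hw.le
      have h6 : K.col.Xu K.w = K.col.Xl K.w := Dat.Xu_w K.col
      rw [h6, Dat.Xu_zero] at h5
      exact h5
    have h5 : -(K.q * K.col.M) ∈ Icc (K.col.Xl 0) (K.col.Xl K.w) := by
      rw [Dat.Xl_zero]
      exact ⟨hX0.trans hx2, h4⟩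
    obtain ⟨x1, hx1, hx1e⟩ := intermediate_value_Icc hw.le (Dat.Xl_cont K.col h.cl).continuousOn h5
    have h6 : x ≤ x1 := by
      rw [← hx1e] at hx2
      exact sl.le_iff_le.1 hx2
    have h7 := Yl_mono K h x x1 hx.1 h6 hx1.2
    have h8 : K.col.Xl x1 = K.col.Xu 0 := by
      rw [hx1e, Dat.Xu_zero]
      rfl
    have h9 : K.col.Yu 0 = K.Ss := by
      show (K.col.ru 0 - 1 - K.p * K.q * K.col.M - K.p * K.col.Xu 0) / K.q = (Real.exp (K.q * K.u 0) - 1) / K.q
      have h10 : K.col.Xu 0 = -(K.q * K.col.M) := Dat.Xu_zero K.col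
      have h11 : K.col.ru 0 = Real.exp (K.q * K.u 0) := by
        show Real.exp (K.p * 0 + K.q * K.u 0) = _
        rw [mul_zero, zero_add]
      rw [h10, h11]
      congr 1
      ring
    rcases hreg x1 hx1 0 ⟨le_refl _, hw.le⟩ h8 with h12 | h12
    · rw [h9] at h12
      linarith
    · linarith [h12.1]
  · obtain ⟨-, hs⟩ := V4_side K h (K.r 0) hr0 (le_refl _)
    have h4 : K.col.Xl x ≤ K.col.Xl (K.r 0) := by
      rw [hs]
      have h5 : K.St = ee K.p (K.r 0) := rfl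
      rw [← h5]
      linarith
    have h5 : x ≤ K.r 0 := sl.le_iff_le.1 h4
    obtain ⟨hrx, hXx⟩ := V4_side K h x hx.1 h5
    have h6 : K.col.Yl x = -(K.p * K.col.M) := by
      show (K.col.rl x - 1 - K.p * K.q * K.col.M - K.p * K.col.Xl x) / K.q = _
      rw [hrx, hXx]
      unfold ee
      have hp : K.p ≠ 0 := h.hp
      rw [mul_div_cancel₀ _ hp, div_eq_iff hq]
      ring
    rw [h6, ← hM]
    have h7 := mul_pos hη h1
    nlinarith

private theorem V4_phi (f : ℝ → ℝ) (hf : Continuous f) (hp : ∀ x, 0 < f x) (ξ A p : ℝ) :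
    Continuous fun X : ℝ => (ξ - X) * gg (f X) (A + p * X) := by
  unfold gg
  refine (continuous_const.sub continuous_id).mul ((continuous_const.div hf fun x => (hp x).ne').sub ?_)
  exact (continuous_const.add (continuous_const.mul continuous_id)).div (hf.pow 2) fun x => (pow_pos (hp x) 2).ne'

theorem CStar (K : Bd) (h : K.CF) (ξ η : ℝ) (hξ : 0 < ξ) (hη : 0 < η) (hM : ξ * η = K.col.M) (h1 : 0 < 1 + K.p * ξ) (h2 : 0 < 1 + K.q * η)
    (hout : K.col.Out ξ η) (hreg : K.col.REG ξ η) (hl : K.q < 0 → K.Ss ≤ η ∨ 0 ≤ K.St + K.q * K.col.M) : 0 ≤ K.col.Br ξ η := by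
  obtain ⟨hl0, -, hu0, hr0, -, -, -, -, hrw, -, hR, -⟩ := cf_facts K h
  have hq : K.q ≠ 0 := h.hq
  have hw : 0 < K.w := h.hw
  have crl : Continuous K.col.rl := Dat.rl_cont K.col h.cl
  have cru : Continuous K.col.ru := Dat.ru_cont K.col h.cu
  have fl : ∀ x, HasDerivAt K.col.Xl (K.col.rl x) x := Dat.Xl_deriv K.col h.cl
  have sl : StrictMono K.col.Xl := V0_strict _ _ fl (Dat.rl_pos K.col)
  have fu : ∀ x, HasDerivAt K.col.Xu (K.col.ru x) x := Dat.Xu_deriv K.col hq h.cl h.cu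
  have su : StrictMono K.col.Xu := V0_strict _ _ fu (Dat.ru_pos K.col)
  have l0 : K.col.Xl 0 = 0 := Dat.Xl_zero K.col
  have u0 : K.col.Xu 0 = -(K.q * K.col.M) := Dat.Xu_zero K.col
  have uw : K.col.Xu K.w = K.col.Xl K.w := Dat.Xu_w K.col
  obtain ⟨gl, cgl, gl1, gl2⟩ := inv_fun K.col.Xl K.col.rl fl (Dat.rl_pos K.col) 0 K.w hw.le
  obtain ⟨gu, cgu, gu1, gu2⟩ := inv_fun K.col.Xu K.col.ru fu (Dat.ru_pos K.col) 0 K.w hw.le
  have il := int_subst K.col.Xl K.col.rl fl crl (Dat.rl_pos K.col) 0 K.w hw.le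
    (fun X => (ξ - X) * gg (K.col.rl (gl X)) (1 + K.p * K.q * K.col.M + K.q * η + K.p * X))
    (V4_phi _ (crl.comp cgl) (fun x => Dat.rl_pos K.col _) ξ _ K.p).continuousOn
  have iu := int_subst K.col.Xu K.col.ru fu cru (Dat.ru_pos K.col) 0 K.w hw.le
    (fun X => (ξ - X) * gg (K.col.ru (gu X)) (1 + K.p * K.q * K.col.M + K.q * η + K.p * X))
    (V4_phi _ (cru.comp cgu) (fun x => Dat.ru_pos K.col _) ξ _ K.p).continuousOn
  rw [l0] at il gl2
  rw [u0, uw] at iu gu2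
  have hm : 0 < K.col.Xl K.w := by
    have := sl hw
    rw [l0] at this
    exact this
  have hqm : -(K.q * K.col.M) ≤ K.col.Xl K.w := by
    have := su hw
    rw [u0, uw] at this
    exact this.le
  have jl : (∫ x in (0:ℝ)..K.w, (ξ - K.col.Xl x) * gg (K.col.rl x) (K.col.RR η (K.col.Xl x)) * K.col.rl x)
      = ∫ X in (0:ℝ)..K.col.Xl K.w, (ξ - X) * gg (K.col.rl (gl X)) (1 + K.p * K.q * K.col.M + K.q * η + K.p * X) := by
    rw [← il]
    refine intervalIntegral.integral_congr fun x hx => ?_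
    rw [uIcc_of_le hw.le] at hx
    show (ξ - K.col.Xl x) * gg (K.col.rl x) (K.col.RR η (K.col.Xl x)) * K.col.rl x
      = (ξ - K.col.Xl x) * gg (K.col.rl (gl (K.col.Xl x))) (1 + K.p * K.q * K.col.M + K.q * η + K.p * K.col.Xl x) * K.col.rl x
    rw [gl1 x hx]
    rfl
  have ju : (∫ x in (0:ℝ)..K.w, (ξ - K.col.Xu x) * gg (K.col.ru x) (K.col.RR η (K.col.Xu x)) * K.col.ru x)
      = ∫ X in (-(K.q * K.col.M))..K.col.Xl K.w, (ξ - X) * gg (K.col.ru (gu X)) (1 + K.p * K.q * K.col.M + K.q * η + K.p * X) := by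
    rw [← iu]
    refine intervalIntegral.integral_congr fun x hx => ?_
    rw [uIcc_of_le hw.le] at hx
    show (ξ - K.col.Xu x) * gg (K.col.ru x) (K.col.RR η (K.col.Xu x)) * K.col.ru x
      = (ξ - K.col.Xu x) * gg (K.col.ru (gu (K.col.Xu x))) (1 + K.p * K.q * K.col.M + K.q * η + K.p * K.col.Xu x) * K.col.ru x
    rw [gu1 x hx]
    rfl
  have hP := plane_ineq K.p K.q K.col.M ξ η (K.col.Xl K.w) (fun X => K.col.rl (gl X)) (fun X => K.col.ru (gu X))
    (fun X => K.col.Yl (gl X)) (fun X => K.col.Yu (gu X)) hξ hη hM h1 h2 hm hqm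
    (crl.comp cgl).continuousOn (cru.comp cgu).continuousOn (fun X _ => Dat.rl_pos K.col _) (fun X _ => Dat.ru_pos K.col _)
    (fun X hX => by
      have h3 := RR_rl K.col hq η (gl X)
      rw [(gl2 X hX).2] at h3
      exact h3)
    (fun X hX => by
      have h3 := RR_ru K.col hq η (gu X)
      rw [(gu2 X hX).2] at h3
      exact h3)
    (fun X hX => by
      have h3 := (gl2 X hX).1
      have h4 := Yl_mono K h 0 (gl X) (le_refl _) h3.1 h3.2
      have h5 : K.col.Yl 0 = -(K.p * K.col.M) := by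
        show (K.col.rl 0 - 1 - K.p * K.q * K.col.M - K.p * K.col.Xl 0) / K.q = _
        have h6 : K.col.rl 0 = 1 := by
          show Real.exp (K.p * 0 + K.q * K.l 0) = 1
          rw [hl0, mul_zero, mul_zero, add_zero, Real.exp_zero]
        rw [h6, l0, div_eq_iff hq]
        ring
      rw [h5] at h4
      exact h4)
    (fun X hX hX2 => by
      have h3 := (hout (gu X) (gu2 X hX).1).2
      rw [(gu2 X hX).2] at h3
      exact not_lt.1 fun h4 => h3 ⟨hX2, h4⟩)
    (fun X hX hX2 => by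
      have h3 := hreg (gl X) (gl2 X hX).1 (gu X) (gu2 X hX2).1
      rw [(gl2 X hX).2, (gu2 X hX2).2] at h3
      exact h3 rfl)
    (fun X hX hX2 => by
      have h3 := gl2 X hX
      refine V4_low K h ξ η hξ hη hM h1 hreg hl (gl X) h3.1 ?_
      rw [h3.2]
      exact hX2)
  have hq2 : 0 < K.col.q ^ 2 := by
    have : 0 < K.q ^ 2 := by positivity
    exact this
  have hB2 : K.col.q ^ 2 * K.col.Br ξ η = K.q * ξ * K.col.M
      + (∫ x in (0:ℝ)..K.w, (ξ - K.col.Xl x) * gg (K.col.rl x) (K.col.RR η (K.col.Xl x)) * K.col.rl x)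
      - ∫ x in (0:ℝ)..K.w, (ξ - K.col.Xu x) * gg (K.col.ru x) (K.col.RR η (K.col.Xu x)) * K.col.ru x := Br_eq K.col hR ξ η
  have hfin : 0 ≤ K.col.q ^ 2 * K.col.Br ξ η := by
    rw [hB2, jl, ju]
    exact hP
  exact nonneg_of_mul_nonneg_right hfin hq2

end Pool.Agent.Lib.MP_1dedaf_gt.DK
end

section

/-!
# TASK LB E5a: equality implies equal cone volume measures

Proof. (`law_K`) `f = h_K^(1-t) h_C^t` on the circle, `L = LC t K C = Wu f`. For small `ε` let `M_ε = Wu (h_K exp (ε ψ))`, a body (`Wu_body`), `hs M_ε u ≤ h_K(u) exp (ε ψ u)` for unit `u`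
(`hs_Wu_le`), so `LC t M_ε C ⊆ Wu (f exp (ε (1-t) ψ))`. `ThmA` for `M_ε`, `C` with `mK = log (ar M_ε) - c ε²` (`tilt_pert`) and `mC = log (ar C)` (`jensen_area`):
`(1-t) (log (ar M_ε) - c ε²) + t log (ar C) ≤ log (ar (Wu (f exp (ε (1-t) ψ))))` for `|ε| ≤ ε0`, with equality for `ε = 0` (`heq`; `Wu (hs K) = K`). Both sides are differentiable at `0`
(`ar_Wu_deriv`, `log`): the derivatives are `(1-t) 2 (∫_K ψ(nu K)) / ar K` and `2 (1-t) (∫_L ψ(nu L)) / ar L`, so they are equal (the difference has a local minimum). Divide by `2 (1-t)`.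
(`law_C`) the same with the second body perturbed.
-/

set_option autoImplicit false

open MeasureTheory Set Filter Topology

namespace Pool.Agent.Lib.MP_1dedaf_gt.LB

private theorem E5a_calc {A B : ℝ → ℝ} {A' B' s k c ε0 : ℝ} (hA : HasDerivAt A A' 0) (hB : HasDerivAt B B' 0)
    (hA0 : 0 < A 0) (hB0 : 0 < B 0) (he : 0 < ε0)
    (h : ∀ ε : ℝ, |ε| ≤ ε0 → s * (Real.log (A ε) - c * ε ^ 2) + k ≤ Real.log (B ε))
    (h0 : Real.log (B 0) = s * Real.log (A 0) + k) : s * (A' / A 0) = B' / B 0 := by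
  have d1 := hA.log hA0.ne'
  have d2 := hB.log hB0.ne'
  have d3 : HasDerivAt (fun ε : ℝ => c * ε ^ 2) 0 0 := by
    have := ((hasDerivAt_id (0:ℝ)).pow 2).const_mul c
    refine this.congr_deriv ?_
    simp
  have d4 : HasDerivAt (fun ε : ℝ => Real.log (B ε) - (s * (Real.log (A ε) - c * ε ^ 2) + k))
      (B' / B 0 - s * (A' / A 0 - 0)) 0 := d2.sub (((d1.sub d3).const_mul s).add_const k)
  have hmin : IsLocalMin (fun ε : ℝ => Real.log (B ε) - (s * (Real.log (A ε) - c * ε ^ 2) + k)) 0 := by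
    have hnb : ∀ᶠ ε in 𝓝 (0:ℝ), |ε| ≤ ε0 := by
      have : ∀ᶠ ε in 𝓝 (0:ℝ), |ε| < ε0 := by
        have h1 : Tendsto (fun ε : ℝ => |ε|) (𝓝 0) (𝓝 |(0:ℝ)|) := continuous_abs.tendsto 0
        rw [abs_zero] at h1
        exact h1.eventually (gt_mem_nhds he)
      filter_upwards [this] with ε hε using hε.le
    filter_upwards [hnb] with ε hε
    have h1 := h ε hε
    have h2 : Real.log (B 0) - (s * (Real.log (A 0) - c * (0:ℝ) ^ 2) + k) = 0 := by
      rw [h0]
      ring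
    show Real.log (B 0) - (s * (Real.log (A 0) - c * (0:ℝ) ^ 2) + k) ≤ _
    rw [h2]
    linarith
  have h3 := hmin.hasDerivAt_eq_zero d4
  linarith

private theorem E5a_fcont (t : ℝ) (ht0 : 0 < t) (ht1 : t < 1) {K C : Set E2} (hK : Body K) (hC : Body C) :
    ContinuousOn (fun u => hs K u ^ (1 - t) * hs C u ^ t) (Metric.sphere 0 1) :=
  (((hs_cont hK).rpow_const fun _ => Or.inr (by linarith)).mul
    ((hs_cont hC).rpow_const fun _ => Or.inr ht0.le)).continuousOn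

private theorem E5a_ne {u : E2} (hu : ‖u‖ = 1) : u ≠ 0 := by
  intro h
  rw [h, norm_zero] at hu
  exact zero_ne_one hu

private theorem E5a_fpos (t : ℝ) {K C : Set E2} (hK : Body K) (hC : Body C) :
    ∀ u : E2, ‖u‖ = 1 → 0 < hs K u ^ (1 - t) * hs C u ^ t := fun _ hu =>
  mul_pos (Real.rpow_pos_of_pos (hs_pos hK (E5a_ne hu)) _) (Real.rpow_pos_of_pos (hs_pos hC (E5a_ne hu)) _)

private theorem E5a_pert {f : E2 → ℝ} (hf : ContinuousOn f (Metric.sphere 0 1)) (hp : ∀ u : E2, ‖u‖ = 1 → 0 < f u)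
    {ψ : E2 → ℝ} (hψ : Continuous ψ) (ε : ℝ) : Body (Wu (fun u => f u * Real.exp (ε * ψ u))) :=
  Wu_body (hf.mul (Real.continuous_exp.comp (continuous_const.mul hψ)).continuousOn)
    fun u hu => mul_pos (hp u hu) (Real.exp_pos _)

private theorem E5a_pertK {K : Set E2} (hK : Body K) {ψ : E2 → ℝ} (hψ : Continuous ψ) (ε : ℝ) :
    Body (Wu (fun u => hs K u * Real.exp (ε * ψ u))) ∧
      ∀ u : E2, ‖u‖ = 1 → hs (Wu (fun u => hs K u * Real.exp (ε * ψ u))) u ≤ hs K u * Real.exp (ε * ψ u) :=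
  ⟨E5a_pert (hs_cont hK).continuousOn (fun _ hu => hs_pos hK (E5a_ne hu)) hψ ε, fun _ hu =>
    hs_Wu_le (f := fun u => hs K u * Real.exp (ε * ψ u))
      ((hs_cont hK).continuousOn.mul (Real.continuous_exp.comp (continuous_const.mul hψ)).continuousOn)
      (fun _ hu => mul_pos (hs_pos hK (E5a_ne hu)) (Real.exp_pos _)) hu⟩

private theorem E5a_rpow {a b e s : ℝ} (ha : 0 < a) (hb : 0 < b) (hs : 0 < s) (h : a ≤ b * Real.exp e) :
    a ^ s ≤ b ^ s * Real.exp (s * e) := by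
  have h1 := Real.rpow_le_rpow ha.le h hs.le
  rw [Real.mul_rpow hb.le (Real.exp_pos _).le, ← Real.exp_mul, mul_comm e s] at h1
  exact h1

private theorem E5a_Wu0 (f : E2 → ℝ) (ψ : E2 → ℝ) : Wu (fun u => f u * Real.exp (0 * ψ u)) = Wu f := by
  congr 1
  funext u
  rw [zero_mul, Real.exp_zero, mul_one]

theorem law_K {t : ℝ} (ht0 : 0 < t) (ht1 : t < 1) (hA : ThmA t) {K C : Set E2} (hK : Body K) (hC : Body C) (h0 : ∫ x in K, x = 0)
    (h0' : ∫ x in C, x = 0) (heq : Real.log (ar (LC t K C)) = (1 - t) * Real.log (ar K) + t * Real.log (ar C))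
    {ψ : E2 → ℝ} (hψ : Continuous ψ) : EE K ψ = EE (LC t K C) ψ := by
  have hf := E5a_fcont t ht0 ht1 hK hC
  have hp := E5a_fpos t hK hC
  have hψ' : Continuous fun u => (1 - t) * ψ u := continuous_const.mul hψ
  obtain ⟨c, ε0, -, hε0, hc⟩ := tilt_pert hK h0 hψ
  have hd1 := ar_Wu_deriv (hs_cont hK).continuousOn (fun u hu => hs_pos hK (E5a_ne hu)) hψ
  have hd2 := ar_Wu_deriv hf hp hψ'
  have hWK : Wu (hs K) = K := Wu_hs hK
  rw [hWK] at hd1
  have hL : Wu (fun u => hs K u ^ (1 - t) * hs C u ^ t) = LC t K C := rfl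
  rw [hL] at hd2
  have hA0 : ar (Wu (fun u => hs K u * Real.exp (0 * ψ u))) = ar K := by
    rw [E5a_Wu0 (hs K) ψ, hWK]
  have hB0 : ar (Wu (fun u => hs K u ^ (1 - t) * hs C u ^ t * Real.exp (0 * ((1 - t) * ψ u)))) = ar (LC t K C) := by
    rw [E5a_Wu0 (fun u => hs K u ^ (1 - t) * hs C u ^ t) (fun u => (1 - t) * ψ u), hL]
  have hBody : Body (LC t K C) := Wu_body hf hp
  have key := E5a_calc (s := 1 - t) (k := t * Real.log (ar C)) (c := c) hd1 hd2
    (by
      show 0 < ar (Wu (fun u => hs K u * Real.exp (0 * ψ u)))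
      rw [hA0]
      exact ar_pos hK)
    (by
      show 0 < ar (Wu (fun u => hs K u ^ (1 - t) * hs C u ^ t * Real.exp (0 * ((1 - t) * ψ u))))
      rw [hB0]
      exact ar_pos hBody)
    hε0
    (by
      intro ε hε
      obtain ⟨hM, hMs⟩ := E5a_pertK hK hψ ε
      have h1 := hA _ C hM hC _ (Real.log (ar C)) (hc ε hε)
        (fun c => Real.log_le_log (ar_pos hC) (jensen_area hC h0' c))
      refine h1.trans (Real.log_le_log (ar_pos (Wu_body (E5a_fcont t ht0 ht1 hM hC) (E5a_fpos t hM hC)))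
        (ar_mono (E5a_pert hf hp hψ' ε) ?_))
      intro x hx u hu
      refine (hx u hu).trans ?_
      have h2 := E5a_rpow (hs_pos hM (E5a_ne hu)) (hs_pos hK (E5a_ne hu)) (by linarith : 0 < 1 - t) (hMs u hu)
      have h3 := mul_le_mul_of_nonneg_right h2 (Real.rpow_pos_of_pos (hs_pos hC (E5a_ne hu)) t).le
      refine h3.trans (le_of_eq ?_)
      show _ = hs K u ^ (1 - t) * hs C u ^ t * Real.exp (ε * ((1 - t) * ψ u))
      rw [show ε * ((1 - t) * ψ u) = (1 - t) * (ε * ψ u) by ring]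
      ring)
    (by
      show Real.log (ar (Wu (fun u => hs K u ^ (1 - t) * hs C u ^ t * Real.exp (0 * ((1 - t) * ψ u))))) =
        (1 - t) * Real.log (ar (Wu (fun u => hs K u * Real.exp (0 * ψ u)))) + _
      rw [hA0, hB0, heq])
  rw [hA0, hB0, integral_const_mul] at key
  unfold EE
  have hs0 : (1 - t) ≠ 0 := by linarith
  have h2 : (1 - t) * 2 * ((∫ x in K, ψ (nu K x)) / ar K) =
      (1 - t) * 2 * ((∫ x in LC t K C, ψ (nu (LC t K C) x)) / ar (LC t K C)) := by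
    have e1 : (1 - t) * 2 * ((∫ x in K, ψ (nu K x)) / ar K) = (1 - t) * ((2 * ∫ x in K, ψ (nu K x)) / ar K) := by ring
    have e2 : (1 - t) * 2 * ((∫ x in LC t K C, ψ (nu (LC t K C) x)) / ar (LC t K C)) =
        (2 * ((1 - t) * ∫ x in LC t K C, ψ (nu (LC t K C) x))) / ar (LC t K C) := by ring
    rw [e1, e2]
    exact key
  exact mul_left_cancel₀ (mul_ne_zero hs0 two_ne_zero) h2

theorem law_C {t : ℝ} (ht0 : 0 < t) (ht1 : t < 1) (hA : ThmA t) {K C : Set E2} (hK : Body K) (hC : Body C) (h0 : ∫ x in K, x = 0)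
    (h0' : ∫ x in C, x = 0) (heq : Real.log (ar (LC t K C)) = (1 - t) * Real.log (ar K) + t * Real.log (ar C))
    {ψ : E2 → ℝ} (hψ : Continuous ψ) : EE C ψ = EE (LC t K C) ψ := by
  have hf := E5a_fcont t ht0 ht1 hK hC
  have hp := E5a_fpos t hK hC
  have hψ' : Continuous fun u => t * ψ u := continuous_const.mul hψ
  obtain ⟨c, ε0, -, hε0, hc⟩ := tilt_pert hC h0' hψ
  have hd1 := ar_Wu_deriv (hs_cont hC).continuousOn (fun u hu => hs_pos hC (E5a_ne hu)) hψ
  have hd2 := ar_Wu_deriv hf hp hψ'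
  have hWC : Wu (hs C) = C := Wu_hs hC
  rw [hWC] at hd1
  have hL : Wu (fun u => hs K u ^ (1 - t) * hs C u ^ t) = LC t K C := rfl
  rw [hL] at hd2
  have hA0 : ar (Wu (fun u => hs C u * Real.exp (0 * ψ u))) = ar C := by
    rw [E5a_Wu0 (hs C) ψ, hWC]
  have hB0 : ar (Wu (fun u => hs K u ^ (1 - t) * hs C u ^ t * Real.exp (0 * (t * ψ u)))) = ar (LC t K C) := by
    rw [E5a_Wu0 (fun u => hs K u ^ (1 - t) * hs C u ^ t) (fun u => t * ψ u), hL]
  have hBody : Body (LC t K C) := Wu_body hf hp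
  have key := E5a_calc (s := t) (k := (1 - t) * Real.log (ar K)) (c := c) hd1 hd2
    (by
      show 0 < ar (Wu (fun u => hs C u * Real.exp (0 * ψ u)))
      rw [hA0]
      exact ar_pos hC)
    (by
      show 0 < ar (Wu (fun u => hs K u ^ (1 - t) * hs C u ^ t * Real.exp (0 * (t * ψ u))))
      rw [hB0]
      exact ar_pos hBody)
    hε0
    (by
      intro ε hε
      obtain ⟨hM, hMs⟩ := E5a_pertK hC hψ ε
      have h1 := hA K _ hK hM (Real.log (ar K)) _
        (fun c => Real.log_le_log (ar_pos hK) (jensen_area hK h0 c)) (hc ε hε)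
      rw [add_comm] at h1
      refine h1.trans (Real.log_le_log (ar_pos (Wu_body (E5a_fcont t ht0 ht1 hK hM) (E5a_fpos t hK hM)))
        (ar_mono (E5a_pert hf hp hψ' ε) ?_))
      intro x hx u hu
      refine (hx u hu).trans ?_
      have h2 := E5a_rpow (hs_pos hM (E5a_ne hu)) (hs_pos hC (E5a_ne hu)) ht0 (hMs u hu)
      have h3 := mul_le_mul_of_nonneg_left h2 (Real.rpow_pos_of_pos (hs_pos hK (E5a_ne hu)) (1 - t)).le
      refine h3.trans (le_of_eq ?_)
      show _ = hs K u ^ (1 - t) * hs C u ^ t * Real.exp (ε * (t * ψ u))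
      rw [show ε * (t * ψ u) = t * (ε * ψ u) by ring]
      ring)
    (by
      show Real.log (ar (Wu (fun u => hs K u ^ (1 - t) * hs C u ^ t * Real.exp (0 * (t * ψ u))))) =
        t * Real.log (ar (Wu (fun u => hs C u * Real.exp (0 * ψ u)))) + _
      rw [hA0, hB0, heq]
      ring)
  rw [hA0, hB0, integral_const_mul] at key
  unfold EE
  have h2 : t * 2 * ((∫ x in C, ψ (nu C x)) / ar C) =
      t * 2 * ((∫ x in LC t K C, ψ (nu (LC t K C) x)) / ar (LC t K C)) := by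
    have e1 : t * 2 * ((∫ x in C, ψ (nu C x)) / ar C) = t * ((2 * ∫ x in C, ψ (nu C x)) / ar C) := by ring
    have e2 : t * 2 * ((∫ x in LC t K C, ψ (nu (LC t K C) x)) / ar (LC t K C)) =
        (2 * (t * ∫ x in LC t K C, ψ (nu (LC t K C) x))) / ar (LC t K C) := by ring
    rw [e1, e2]
    exact key
  exact mul_left_cancel₀ (mul_ne_zero ht0.ne' two_ne_zero) h2

end Pool.Agent.Lib.MP_1dedaf_gt.LB
end
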