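import Pool.Agent.Lib.MP_1dedaf_gt.DK.Goals

section

/-!
# TM: definitions for `P2` (strips), and the hypothesis of the reference point inequality
-/

set_option autoImplicit false

open MeasureTheory Set Filter Topology

namespace Pool.Agent.Lib.MP_1dedaf_gt.DK

/-- Half of the width of the strip `L x ≤ v ≤ R x`. -/
noncomputable def om (L R : ℝ → ℝ) (x : ℝ) : ℝ := (R x - L x) / 2

/-- The middle of the strip. -/
noncomputable def ec (L R : ℝ → ℝ) (x : ℝ) : ℝ := (R x + L x) / 2

/-- The integral of `sinh (om t) cosh (ec t - ec x)` over `t ≥ x`. -/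
noncomputable def Om (w : ℝ) (L R : ℝ → ℝ) (x : ℝ) : ℝ :=
  ∫ t in x..w, Real.sinh (om L R t) * Real.cosh (ec L R t - ec L R x)

/-- A convex strip. -/
structure Strip (w : ℝ) (L R : ℝ → ℝ) : Prop where
  hw : 0 < w
  cL : Continuous L
  cR : Continuous R
  vL : ConvexOn ℝ (Icc 0 w) L
  vR : ConcaveOn ℝ (Icc 0 w) R
  le : ∀ x ∈ Icc 0 w, L x ≤ R x

namespace Dat

/-- The smallest logarithm of the density in the column over `x`. -/
noncomputable def sL (K : Dat) (x : ℝ) : ℝ := K.p * x + K.q * (K.l x + K.u x) / 2 - |K.q| * (K.u x - K.l x) / 2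

/-- The greatest logarithm of the density in the column over `x`. -/
noncomputable def sR (K : Dat) (x : ℝ) : ℝ := K.p * x + K.q * (K.l x + K.u x) / 2 + |K.q| * (K.u x - K.l x) / 2

end Dat

end Pool.Agent.Lib.MP_1dedaf_gt.DK
end

section

/-!
# TASK TM M0: one variable lemmas for M1 and M2

`hh1 m = ∫_0^m sinh (max 0 r) dr`, `hh2 m = ∫_0^m (cosh (max 0 r) - 1) dr` are integrals of continuous functions, so they are
differentiable everywhere with these derivatives; they are `≥ 0`, `0` for `m ≤ 0`, and `cosh m - 1`, `sinh m - m` for `m ≥ 0`.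

`hh1_int`: the derivative of `t ↦ - hh1 (w0 - c (t - y)) / c` is `sinh (max 0 (w0 - c (t - y)))`, so the integral is `(hh1 w0 - hh1 (w0 - c (z - y)))/c ≤ hh1 w0 / c`. `hh2_int` the same.

`num1`: `sinh phi = sinh d + (sinh phi - sinh d)`, and by convexity of `cosh` (trapezoidal rule) `sinh d ≤ d (1 + cosh d)/2`, `sinh phi - sinh d ≤ (phi - d)(cosh d + cosh phi)/2`
(each one: the difference is `0` at the left end and monotone in `d`, resp. in `phi`). Hence `sinh phi - phi cosh d ≤ - phi cosh d/2 + d/2 + (phi - d) cosh phi/2`, and this is `≤ (phi - d)(cosh phi - 1)` because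
`2 phi - d - phi cosh d ≤ phi - d ≤ (phi - d) cosh phi`.
`num2`: `cosh (w0 + phi) - cosh w0 = cosh w0 (cosh phi - 1) + sinh w0 sinh phi`, `sinh phi ≥ phi`, `sinh w0 ≥ w0 ≥ 0`, `cosh phi > 1`.
-/

set_option autoImplicit false

open MeasureTheory Set Filter Topology

namespace Pool.Agent.Lib.MP_1dedaf_gt.DK

noncomputable def hh1 (m : ℝ) : ℝ := ∫ r in (0:ℝ)..m, Real.sinh (max 0 r)

noncomputable def hh2 (m : ℝ) : ℝ := ∫ r in (0:ℝ)..m, (Real.cosh (max 0 r) - 1)

private theorem M0_mono {f f' : ℝ → ℝ} (hf : ∀ x, HasDerivAt f (f' x) x) {a b : ℝ} (hab : a ≤ b)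
    (h : ∀ x, a ≤ x → 0 ≤ f' x) : f a ≤ f b :=
  monotoneOn_of_deriv_nonneg (convex_Icc a b) (fun x _ => (hf x).continuousAt.continuousWithinAt)
    (fun x _ => (hf x).differentiableAt.differentiableWithinAt)
    (fun x hx => by
      rw [(hf x).deriv]
      exact h x (interior_subset hx).1) ⟨le_rfl, hab⟩ ⟨hab, le_rfl⟩ hab

private theorem M0_c1 : Continuous fun r : ℝ => Real.sinh (max 0 r) :=
  Real.continuous_sinh.comp (continuous_const.max continuous_id)

private theorem M0_c2 : Continuous fun r : ℝ => Real.cosh (max 0 r) - 1 :=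
  (Real.continuous_cosh.comp (continuous_const.max continuous_id)).sub continuous_const

theorem hh1_of_nonneg {m : ℝ} (h : 0 ≤ m) : hh1 m = Real.cosh m - 1 := by
  have h1 : hh1 m = ∫ r in (0:ℝ)..m, Real.sinh r := by
    unfold hh1
    refine intervalIntegral.integral_congr fun r hr => ?_
    rw [uIcc_of_le h] at hr
    show Real.sinh (max 0 r) = Real.sinh r
    rw [max_eq_right hr.1]
  rw [h1, intervalIntegral.integral_eq_sub_of_hasDerivAt (f := Real.cosh)
    (fun x _ => Real.hasDerivAt_cosh x) (Real.continuous_sinh.intervalIntegrable _ _), Real.cosh_zero]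

theorem hh1_nonneg (m : ℝ) : 0 ≤ hh1 m := by
  rcases le_total 0 m with h | h
  · rw [hh1_of_nonneg h]
    linarith [Real.one_le_cosh m]
  · have h1 : hh1 m = ∫ r in (0:ℝ)..m, (0:ℝ) := by
      unfold hh1
      refine intervalIntegral.integral_congr fun r hr => ?_
      rw [uIcc_of_ge h] at hr
      show Real.sinh (max 0 r) = 0
      rw [max_eq_left hr.2, Real.sinh_zero]
    rw [h1, intervalIntegral.integral_zero]

theorem hh2_of_nonneg {m : ℝ} (h : 0 ≤ m) : hh2 m = Real.sinh m - m := by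
  have h1 : hh2 m = ∫ r in (0:ℝ)..m, (Real.cosh r - 1) := by
    unfold hh2
    refine intervalIntegral.integral_congr fun r hr => ?_
    rw [uIcc_of_le h] at hr
    show Real.cosh (max 0 r) - 1 = Real.cosh r - 1
    rw [max_eq_right hr.1]
  rw [h1, intervalIntegral.integral_eq_sub_of_hasDerivAt (f := fun r => Real.sinh r - r)
    (fun x _ => (Real.hasDerivAt_sinh x).sub (hasDerivAt_id x))
    ((Real.continuous_cosh.sub continuous_const).intervalIntegrable _ _), Real.sinh_zero]
  ring

theorem hh2_nonneg (m : ℝ) : 0 ≤ hh2 m := by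
  rcases le_total 0 m with h | h
  · rw [hh2_of_nonneg h]
    linarith [Real.self_le_sinh_iff.2 h]
  · have h1 : hh2 m = ∫ r in (0:ℝ)..m, (0:ℝ) := by
      unfold hh2
      refine intervalIntegral.integral_congr fun r hr => ?_
      rw [uIcc_of_ge h] at hr
      show Real.cosh (max 0 r) - 1 = 0
      rw [max_eq_left hr.2, Real.cosh_zero, sub_self]
    rw [h1, intervalIntegral.integral_zero]

theorem hh1_int (w0 c y z : ℝ) (hc : 0 < c) (hyz : y ≤ z) (hw0 : 0 ≤ w0) :
    ∫ t in y..z, Real.sinh (max 0 (w0 - c * (t - y))) ≤ (Real.cosh w0 - 1) / c := by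
  have hd : ∀ m : ℝ, HasDerivAt hh1 (Real.sinh (max 0 m)) m := fun m =>
    (M0_c1.integral_hasStrictDerivAt 0 m).hasDerivAt
  have hF : ∀ t ∈ uIcc y z, HasDerivAt (fun t => - hh1 (w0 - c * (t - y)) / c)
      (Real.sinh (max 0 (w0 - c * (t - y)))) t := by
    intro t _
    have e1 : HasDerivAt (fun t : ℝ => w0 - c * (t - y)) (- (c * 1)) t :=
      (((hasDerivAt_id t).sub_const y).const_mul c).const_sub w0
    have e2 := (((hd (w0 - c * (t - y))).comp t e1).neg).div_const c
    refine e2.congr_deriv ?_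
    field_simp
  have hcont : Continuous fun t : ℝ => Real.sinh (max 0 (w0 - c * (t - y))) :=
    M0_c1.comp (continuous_const.sub (continuous_const.mul (continuous_id.sub continuous_const)))
  rw [intervalIntegral.integral_eq_sub_of_hasDerivAt hF (hcont.intervalIntegrable _ _), sub_self, mul_zero,
    sub_zero, ← hh1_of_nonneg hw0, ← sub_div]
  exact div_le_div_of_nonneg_right (by linarith [hh1_nonneg (w0 - c * (z - y))]) hc.le

theorem hh2_int (w0 c y z : ℝ) (hc : 0 < c) (hyz : y ≤ z) (hw0 : 0 ≤ w0) :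
    ∫ t in y..z, (Real.cosh (max 0 (w0 - c * (t - y))) - 1) ≤ (Real.sinh w0 - w0) / c := by
  have hd : ∀ m : ℝ, HasDerivAt hh2 (Real.cosh (max 0 m) - 1) m := fun m =>
    (M0_c2.integral_hasStrictDerivAt 0 m).hasDerivAt
  have hF : ∀ t ∈ uIcc y z, HasDerivAt (fun t => - hh2 (w0 - c * (t - y)) / c)
      (Real.cosh (max 0 (w0 - c * (t - y))) - 1) t := by
    intro t _
    have e1 : HasDerivAt (fun t : ℝ => w0 - c * (t - y)) (- (c * 1)) t :=
      (((hasDerivAt_id t).sub_const y).const_mul c).const_sub w0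
    have e2 := (((hd (w0 - c * (t - y))).comp t e1).neg).div_const c
    refine e2.congr_deriv ?_
    field_simp
  have hcont : Continuous fun t : ℝ => Real.cosh (max 0 (w0 - c * (t - y))) - 1 :=
    M0_c2.comp (continuous_const.sub (continuous_const.mul (continuous_id.sub continuous_const)))
  rw [intervalIntegral.integral_eq_sub_of_hasDerivAt hF (hcont.intervalIntegrable _ _), sub_self, mul_zero,
    sub_zero, ← hh2_of_nonneg hw0, ← sub_div]
  exact div_le_div_of_nonneg_right (by linarith [hh2_nonneg (w0 - c * (z - y))]) hc.le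

theorem num1 (d phi : ℝ) (hd : 0 ≤ d) (hphi : d ≤ phi) :
    Real.sinh phi - phi * Real.cosh d ≤ (phi - d) * (Real.cosh phi - 1) := by
  -- `sinh d ≤ d cosh d`
  have h1 : ∀ x : ℝ, HasDerivAt (fun x => x * Real.cosh x - Real.sinh x)
      (1 * Real.cosh x + x * Real.sinh x - Real.cosh x) x := fun x =>
    ((hasDerivAt_id x).mul (Real.hasDerivAt_cosh x)).sub (Real.hasDerivAt_sinh x)
  have h2 := M0_mono h1 hd fun x hx => by
    have := mul_nonneg hx (Real.sinh_nonneg_iff.2 hx)
    linarith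
  simp only [Real.sinh_zero, Real.cosh_zero, zero_mul, sub_zero] at h2
  have h3 : ∀ x : ℝ, HasDerivAt (fun x => (x - d) * (Real.cosh x - 1) - Real.sinh x + x * Real.cosh d)
      (1 * (Real.cosh x - 1) + (x - d) * Real.sinh x - Real.cosh x + 1 * Real.cosh d) x := fun x =>
    ((((hasDerivAt_id x).sub_const d).mul ((Real.hasDerivAt_cosh x).sub_const 1)).sub
      (Real.hasDerivAt_sinh x)).add ((hasDerivAt_id x).mul_const (Real.cosh d))
  have h4 := M0_mono h3 hphi fun x hx => by
    have e1 := mul_nonneg (sub_nonneg.2 hx) (Real.sinh_nonneg_iff.2 (hd.trans hx))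
    have e2 := Real.one_le_cosh d
    linarith
  simp only [sub_self, zero_mul, zero_sub] at h4
  linarith

theorem num2 (w0 phi : ℝ) (hw : 0 ≤ w0) (hphi : 0 < phi) :
    2 * ((Real.cosh phi - 1) * (Real.cosh w0 - 1)) + phi * (Real.sinh w0 - w0) <
      2 * (Real.cosh (w0 + phi) - Real.cosh w0) := by
  rw [Real.cosh_add]
  have h1 : phi ≤ Real.sinh phi := Real.self_le_sinh_iff.2 hphi.le
  have h2 : 0 ≤ Real.sinh w0 := Real.sinh_nonneg_iff.2 hw
  have h3 : 1 < Real.cosh phi := Real.one_lt_cosh.2 hphi.ne'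
  have h4 := mul_le_mul_of_nonneg_left h1 h2
  have h5 := mul_nonneg hphi.le hw
  have h6 := mul_nonneg h2 hphi.le
  nlinarith

end Pool.Agent.Lib.MP_1dedaf_gt.DK
end
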