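import Pool.Agent.Lib.MP_1dedaf_gt.DK.Reg
import Pool.Agent.Lib.MP_1dedaf_gt.DK.A0
import Pool.Agent.Lib.MP_1dedaf_gt.Mg.G043

section

/-!
# TASK DK A1: positivity, moments, lower bound for the pivot

Proof. `mu_nonneg`: `ru - rl` has the sign of `q` if `l ≤ u`. `M_pos`, `D_pos`: the integrands `mu`, `(1/rl - 1/ru)/q` are continuous, `≥ 0` on `[0,w]`
and positive at one point (`intervalIntegral.intervalIntegral_pos_of_pos_on` or `integral_pos_iff_support..`, `Continuous` version). `mr_nonneg`. `xb_eq`: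
integration by parts: `∫_0^w x mu = - [x mr]_0^w + ∫_0^w mr`. `N1_eq`: `Xl / rl - Xu / ru = Xu (1/rl - 1/ru) + (Xl - Xu)/rl` and `Xl - Xu = q mr`.
`N1_eq'`: `= Xl (1/rl - 1/ru) + q mr / ru`. `a_gt`: `Xu` is strictly increasing with `Xu 0 = - q M`, so by `N1_eq`:
`N 1 / q = ∫ Xu (1/rl - 1/ru)/q + ∫ mr/rl > - q M * D` (the first integral is `≥ - q M D`, the second one is `> 0`: `mr > 0` near `0`), divide by `D > 0`.
`xb_pos`: `∫ mr`, `mr ≥ 0`, `mr 0 = M > 0`.
-/

set_option autoImplicit false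

open MeasureTheory Set Filter Topology

namespace Pool.Agent.Lib.MP_1dedaf_gt.DK

namespace Dat

private theorem A1_mul_pos (q a b : ℝ) (hq : q ≠ 0) (h : a < b) (c : ℝ) :
    0 < (Real.exp (c + q * b) - Real.exp (c + q * a)) / q := by
  rcases lt_or_gt_of_ne hq with h0 | h0
  · refine div_pos_of_neg_of_neg ?_ h0
    rw [sub_neg]
    exact Real.exp_lt_exp.2 (by nlinarith)
  · refine div_pos ?_ h0
    rw [sub_pos]
    exact Real.exp_lt_exp.2 (by nlinarith)

theorem A1_mu_pos (K : Dat) (hq : K.q ≠ 0) (x : ℝ) (hx : K.l x < K.u x) : 0 < K.mu x := by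
  unfold mu rl ru
  exact A1_mul_pos _ _ _ hq hx _

theorem mu_nonneg (K : Dat) (h : K.Reg) (x : ℝ) (hx : x ∈ Icc 0 K.w) : 0 ≤ K.mu x := by
  rcases (h.lu x hx).lt_or_eq with h1 | h1
  · exact (A1_mu_pos K h.hq x h1).le
  · unfold mu rl ru
    rw [h1]
    simp

theorem M_pos (K : Dat) (h : K.Reg) : 0 < K.M := by
  obtain ⟨c, hc, hc'⟩ := h.fat
  exact intervalIntegral.integral_pos h.hw (K.mu_cont h.cl h.cu).continuousOn
    (fun x hx => mu_nonneg K h x ⟨hx.1.le, hx.2⟩) ⟨c, hc, A1_mu_pos K h.hq c hc'⟩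

private theorem A1_dens (K : Dat) (hq : K.q ≠ 0) (x : ℝ) :
    1 / K.rl x - 1 / K.ru x = K.q * (K.mu x / (K.rl x * K.ru x)) := by
  have h1 := (K.rl_pos x).ne'
  have h2 := (K.ru_pos x).ne'
  unfold mu
  field_simp

private theorem A1_dens_cont (K : Dat) (cl : Continuous K.l) (cu : Continuous K.u) :
    Continuous (fun x => K.mu x / (K.rl x * K.ru x)) :=
  (K.mu_cont cl cu).div ((K.rl_cont cl).mul (K.ru_cont cu))
    fun x => (mul_pos (K.rl_pos x) (K.ru_pos x)).ne'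

theorem A1_N0_eq (K : Dat) (hq : K.q ≠ 0) :
    K.N 0 = K.q * ∫ x in (0:ℝ)..K.w, K.mu x / (K.rl x * K.ru x) := by
  unfold N
  rw [← intervalIntegral.integral_const_mul]
  refine intervalIntegral.integral_congr fun x _ => ?_
  simp only [pow_zero]
  exact A1_dens K hq x

theorem A1_D_eq (K : Dat) (hq : K.q ≠ 0) :
    K.D = ∫ x in (0:ℝ)..K.w, K.mu x / (K.rl x * K.ru x) := by
  unfold D
  rw [A1_N0_eq K hq, mul_div_assoc, mul_comm, div_mul_cancel₀ _ hq]

theorem D_pos (K : Dat) (h : K.Reg) : 0 < K.D := by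
  rw [A1_D_eq K h.hq]
  obtain ⟨c, hc, hc'⟩ := h.fat
  refine intervalIntegral.integral_pos h.hw (A1_dens_cont K h.cl h.cu).continuousOn
    (fun x hx => div_nonneg (mu_nonneg K h x ⟨hx.1.le, hx.2⟩)
      (mul_pos (K.rl_pos x) (K.ru_pos x)).le)
    ⟨c, hc, div_pos (A1_mu_pos K h.hq c hc') (mul_pos (K.rl_pos c) (K.ru_pos c))⟩

theorem N0_ne (K : Dat) (h : K.Reg) : K.N 0 ≠ 0 := by
  intro h0
  have h1 := D_pos K h
  unfold D at h1
  rw [h0, zero_div] at h1
  exact lt_irrefl _ h1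

theorem mr_nonneg (K : Dat) (h : K.Reg) (x : ℝ) (hx : x ∈ Icc 0 K.w) : 0 ≤ K.mr x := by
  unfold mr
  exact intervalIntegral.integral_nonneg hx.2
    (fun t ht => mu_nonneg K h t ⟨hx.1.trans ht.1, ht.2⟩)

theorem xb_eq (K : Dat) (cl : Continuous K.l) (cu : Continuous K.u) : K.xb = ∫ x in (0:ℝ)..K.w, K.mr x := by
  have hd : ∀ x : ℝ, HasDerivAt (fun t : ℝ => t * K.mr t) (1 * K.mr x + x * (- K.mu x)) x :=
    fun x => (hasDerivAt_id x).mul (K.mr_deriv cl cu x)
  have hm := K.mr_cont cl cu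
  have hu := K.mu_cont cl cu
  have hc : Continuous (fun x : ℝ => 1 * K.mr x + x * (- K.mu x)) := by fun_prop
  have h1 := intervalIntegral.integral_eq_sub_of_hasDerivAt (a := 0) (b := K.w)
    (fun x _ => hd x) (hc.intervalIntegrable _ _)
  rw [K.mr_w] at h1
  have h2 : (∫ x in (0:ℝ)..K.w, (1 * K.mr x + x * (- K.mu x))) =
      (∫ x in (0:ℝ)..K.w, K.mr x) - ∫ x in (0:ℝ)..K.w, x * K.mu x := by
    have hxm : Continuous (fun x : ℝ => x * K.mu x) := continuous_id.mul hu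
    rw [← intervalIntegral.integral_sub (hm.intervalIntegrable _ _)
      (hxm.intervalIntegrable _ _)]
    refine intervalIntegral.integral_congr fun x _ => ?_
    ring
  unfold xb
  rw [h2] at h1
  linarith

theorem xb_pos (K : Dat) (h : K.Reg) : 0 < K.xb := by
  rw [xb_eq K h.cl h.cu]
  refine intervalIntegral.integral_pos h.hw (K.mr_cont h.cl h.cu).continuousOn
    (fun x hx => mr_nonneg K h x ⟨hx.1.le, hx.2⟩) ⟨0, ⟨le_rfl, h.hw.le⟩, ?_⟩
  rw [K.mr_zero]
  exact M_pos K h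

private theorem A1_inv_cont {f : ℝ → ℝ} (hf : Continuous f) (hp : ∀ x, 0 < f x) :
    Continuous (fun x => 1 / f x) :=
  continuous_const.div hf fun x => (hp x).ne'

theorem N1_eq (K : Dat) (cl : Continuous K.l) (cu : Continuous K.u) :
    K.N 1 = (∫ x in (0:ℝ)..K.w, K.Xu x * (1 / K.rl x - 1 / K.ru x)) + K.q * ∫ x in (0:ℝ)..K.w, K.mr x / K.rl x := by
  have hXu := K.Xu_cont cl cu
  have hm := K.mr_cont cl cu
  have h1 := A1_inv_cont (K.rl_cont cl) K.rl_pos
  have h2 := A1_inv_cont (K.ru_cont cu) K.ru_pos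
  have h3 : Continuous (fun x => K.q * (K.mr x / K.rl x)) :=
    continuous_const.mul (hm.div (K.rl_cont cl) fun x => (K.rl_pos x).ne')
  have h4 : Continuous (fun x => K.Xu x * (1 / K.rl x - 1 / K.ru x)) := hXu.mul (h1.sub h2)
  rw [← intervalIntegral.integral_const_mul, ← intervalIntegral.integral_add
    (h4.intervalIntegrable _ _) (h3.intervalIntegrable _ _)]
  unfold N
  refine intervalIntegral.integral_congr fun x _ => ?_
  have e1 := (K.rl_pos x).ne'
  have e2 := (K.ru_pos x).ne'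
  have e3 : K.Xu x = K.Xl x - K.q * K.mr x := rfl
  simp only [pow_one]
  rw [e3]
  ring

theorem N1_eq' (K : Dat) (cl : Continuous K.l) (cu : Continuous K.u) :
    K.N 1 = (∫ x in (0:ℝ)..K.w, K.Xl x * (1 / K.rl x - 1 / K.ru x)) + K.q * ∫ x in (0:ℝ)..K.w, K.mr x / K.ru x := by
  have hXl := K.Xl_cont cl
  have hm := K.mr_cont cl cu
  have h1 := A1_inv_cont (K.rl_cont cl) K.rl_pos
  have h2 := A1_inv_cont (K.ru_cont cu) K.ru_pos
  have h3 : Continuous (fun x => K.q * (K.mr x / K.ru x)) :=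
    continuous_const.mul (hm.div (K.ru_cont cu) fun x => (K.ru_pos x).ne')
  have h4 : Continuous (fun x => K.Xl x * (1 / K.rl x - 1 / K.ru x)) := hXl.mul (h1.sub h2)
  rw [← intervalIntegral.integral_const_mul, ← intervalIntegral.integral_add
    (h4.intervalIntegrable _ _) (h3.intervalIntegrable _ _)]
  unfold N
  refine intervalIntegral.integral_congr fun x _ => ?_
  have e1 := (K.rl_pos x).ne'
  have e2 := (K.ru_pos x).ne'
  have e3 : K.Xu x = K.Xl x - K.q * K.mr x := rfl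
  simp only [pow_one]
  rw [e3]
  ring

theorem A1_Xu_ge (K : Dat) (hq : K.q ≠ 0) (cl : Continuous K.l) (cu : Continuous K.u) {x : ℝ}
    (hx : 0 ≤ x) : - (K.q * K.M) ≤ K.Xu x := by
  have hmono : Monotone K.Xu := by
    refine monotone_of_deriv_nonneg (fun x => (K.Xu_deriv hq cl cu x).differentiableAt) fun x => ?_
    rw [(K.Xu_deriv hq cl cu x).deriv]
    exact (K.ru_pos x).le
  rw [← K.Xu_zero]
  exact hmono hx

theorem a_gt (K : Dat) (h : K.Reg) : - (K.q * K.M) < K.a := by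
  have hq := h.hq
  have hD := D_pos K h
  have hN0 : K.N 0 = K.q * K.D := by rw [A1_D_eq K hq, A1_N0_eq K hq]
  have hXu := K.Xu_cont h.cl h.cu
  have hdc := A1_dens_cont K h.cl h.cu
  have e1 : (∫ x in (0:ℝ)..K.w, K.Xu x * (1 / K.rl x - 1 / K.ru x)) =
      K.q * ∫ x in (0:ℝ)..K.w, K.Xu x * (K.mu x / (K.rl x * K.ru x)) := by
    rw [← intervalIntegral.integral_const_mul]
    refine intervalIntegral.integral_congr fun x _ => ?_
    rw [A1_dens K hq x]
    ring
  have h1 := N1_eq K h.cl h.cu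
  rw [e1, ← mul_add] at h1
  have h2 : K.a = ((∫ x in (0:ℝ)..K.w, K.Xu x * (K.mu x / (K.rl x * K.ru x))) +
      ∫ x in (0:ℝ)..K.w, K.mr x / K.rl x) / K.D := by
    unfold a
    rw [h1, hN0, mul_div_mul_left _ _ hq]
  have h3 : - (K.q * K.M) * K.D ≤ ∫ x in (0:ℝ)..K.w, K.Xu x * (K.mu x / (K.rl x * K.ru x)) := by
    rw [A1_D_eq K hq, ← intervalIntegral.integral_const_mul]
    refine intervalIntegral.integral_mono_on h.hw.le
      ((continuous_const.mul hdc).intervalIntegrable _ _)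
      ((hXu.mul hdc).intervalIntegrable _ _) fun x hx => ?_
    exact mul_le_mul_of_nonneg_right (A1_Xu_ge K hq h.cl h.cu hx.1)
      (div_nonneg (mu_nonneg K h x hx) (mul_pos (K.rl_pos x) (K.ru_pos x)).le)
  have h4 : 0 < ∫ x in (0:ℝ)..K.w, K.mr x / K.rl x := by
    refine intervalIntegral.integral_pos h.hw
      ((K.mr_cont h.cl h.cu).div (K.rl_cont h.cl) fun x => (K.rl_pos x).ne').continuousOn
      (fun x hx => div_nonneg (mr_nonneg K h x ⟨hx.1.le, hx.2⟩) (K.rl_pos x).le)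
      ⟨0, ⟨le_rfl, h.hw.le⟩, ?_⟩
    rw [K.mr_zero]
    exact div_pos (M_pos K h) (K.rl_pos 0)
  rw [h2, lt_div_iff₀ hD]
  linarith

end Dat

end Pool.Agent.Lib.MP_1dedaf_gt.DK
end

section

/-!
# TASK TM P2ia: the strip of a body

`L = K.sL`, `R = K.sR`. `P2_strip`: for `q > 0` `L = p x + q l x`, `R = p x + q u x`; for `q < 0` `L = p x + q u x`, `R = p x + q l x`.
`P2_mu` (`o = om L R x = |q| (u-l)/2`, `e = ec L R x = p x + q (l+u)/2`): `rl = exp (e - q (u-l)/2)`, `ru = exp (e + q (u-l)/2)`, `mu = (ru - rl)/q = (2/|q|) exp e sinh o` (`sinh` is odd; cases of the sign of `q`),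
`mu/(rl ru) = (2/|q|) exp (-e) sinh o` (`rl ru = exp (2 e)`), `(rl + ru)/2 = exp e cosh o`, `(1/rl + 1/ru)/2 = exp (-e) cosh o`.
-/

set_option autoImplicit false

open MeasureTheory Set Filter Topology

namespace Pool.Agent.Lib.MP_1dedaf_gt.DK

namespace Dat

private theorem P2ia_pos (K : Dat) (hq : 0 < K.q) (x : ℝ) :
    K.sL x = K.p * x + K.q * K.l x ∧ K.sR x = K.p * x + K.q * K.u x := by
  unfold sL sR
  rw [abs_of_pos hq]
  constructor <;> ring

private theorem P2ia_neg (K : Dat) (hq : K.q < 0) (x : ℝ) :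
    K.sL x = K.p * x + K.q * K.u x ∧ K.sR x = K.p * x + K.q * K.l x := by
  unfold sL sR
  rw [abs_of_neg hq]
  constructor <;> ring

private theorem P2ia_cont (p q : ℝ) {f : ℝ → ℝ} (hf : Continuous f) : Continuous fun x => p * x + q * f x :=
  (continuous_const.mul continuous_id).add (continuous_const.mul hf)

private theorem P2ia_cvx (p q : ℝ) {f : ℝ → ℝ} {s : Set ℝ} (hq : 0 ≤ q) (hf : ConvexOn ℝ s f) :
    ConvexOn ℝ s fun x => p * x + q * f x := by
  refine ⟨hf.1, fun x hx y hy a b ha hb hab => ?_⟩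
  have h1 := mul_le_mul_of_nonneg_left (hf.2 hx hy ha hb hab) hq
  simp only [smul_eq_mul] at h1 ⊢
  linarith

private theorem P2ia_ccv (p q : ℝ) {f : ℝ → ℝ} {s : Set ℝ} (hq : 0 ≤ q) (hf : ConcaveOn ℝ s f) :
    ConcaveOn ℝ s fun x => p * x + q * f x := by
  refine ⟨hf.1, fun x hx y hy a b ha hb hab => ?_⟩
  have h1 := mul_le_mul_of_nonneg_left (hf.2 hx hy ha hb hab) hq
  simp only [smul_eq_mul] at h1 ⊢
  linarith

private theorem P2ia_cvx' (p q : ℝ) {f : ℝ → ℝ} {s : Set ℝ} (hq : q ≤ 0) (hf : ConcaveOn ℝ s f) :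
    ConvexOn ℝ s fun x => p * x + q * f x := by
  refine ⟨hf.1, fun x hx y hy a b ha hb hab => ?_⟩
  have h1 := mul_le_mul_of_nonpos_left (hf.2 hx hy ha hb hab) hq
  simp only [smul_eq_mul] at h1 ⊢
  linarith

private theorem P2ia_ccv' (p q : ℝ) {f : ℝ → ℝ} {s : Set ℝ} (hq : q ≤ 0) (hf : ConvexOn ℝ s f) :
    ConcaveOn ℝ s fun x => p * x + q * f x := by
  refine ⟨hf.1, fun x hx y hy a b ha hb hab => ?_⟩
  have h1 := mul_le_mul_of_nonpos_left (hf.2 hx hy ha hb hab) hq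
  simp only [smul_eq_mul] at h1 ⊢
  linarith

theorem P2_strip (K : Dat) (h : K.Reg) (vl : ConvexOn ℝ (Icc 0 K.w) K.l) (vu : ConcaveOn ℝ (Icc 0 K.w) K.u) :
    Strip K.w K.sL K.sR := by
  have hle : ∀ x ∈ Icc 0 K.w, K.sL x ≤ K.sR x := by
    intro x hx
    have h1 := mul_nonneg (abs_nonneg K.q) (sub_nonneg.2 (h.lu x hx))
    unfold sL sR
    linarith
  rcases lt_or_gt_of_ne h.hq with hq | hq
  · have hL : K.sL = fun x => K.p * x + K.q * K.u x := funext fun x => (P2ia_neg K hq x).1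
    have hR : K.sR = fun x => K.p * x + K.q * K.l x := funext fun x => (P2ia_neg K hq x).2
    refine ⟨h.hw, ?_, ?_, ?_, ?_, hle⟩
    · rw [hL]; exact P2ia_cont _ _ h.cu
    · rw [hR]; exact P2ia_cont _ _ h.cl
    · rw [hL]; exact P2ia_cvx' _ _ hq.le vu
    · rw [hR]; exact P2ia_ccv' _ _ hq.le vl
  · have hL : K.sL = fun x => K.p * x + K.q * K.l x := funext fun x => (P2ia_pos K hq x).1
    have hR : K.sR = fun x => K.p * x + K.q * K.u x := funext fun x => (P2ia_pos K hq x).2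
    refine ⟨h.hw, ?_, ?_, ?_, ?_, hle⟩
    · rw [hL]; exact P2ia_cont _ _ h.cl
    · rw [hR]; exact P2ia_cont _ _ h.cu
    · rw [hL]; exact P2ia_cvx _ _ hq.le vl
    · rw [hR]; exact P2ia_ccv _ _ hq.le vu

theorem P2_om (K : Dat) (x : ℝ) : om K.sL K.sR x = |K.q| * (K.u x - K.l x) / 2 := by
  unfold om sL sR
  ring

theorem P2_ec (K : Dat) (x : ℝ) : ec K.sL K.sR x = K.p * x + K.q * (K.l x + K.u x) / 2 := by
  unfold ec sL sR
  ring

theorem P2_mu (K : Dat) (hq : K.q ≠ 0) (x : ℝ) :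
    K.mu x = 2 / |K.q| * (Real.exp (ec K.sL K.sR x) * Real.sinh (om K.sL K.sR x)) ∧
    K.mu x / (K.rl x * K.ru x) = 2 / |K.q| * (Real.exp (- ec K.sL K.sR x) * Real.sinh (om K.sL K.sR x)) ∧
    (K.rl x + K.ru x) / 2 = Real.exp (ec K.sL K.sR x) * Real.cosh (om K.sL K.sR x) ∧
    (1 / K.rl x + 1 / K.ru x) / 2 = Real.exp (- ec K.sL K.sR x) * Real.cosh (om K.sL K.sR x) := by
  set e := ec K.sL K.sR x with he
  set o := om K.sL K.sR x with ho
  have hE := Real.exp_ne_zero e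
  have hA := Real.exp_ne_zero o
  have he' : e = K.p * x + K.q * (K.l x + K.u x) / 2 := P2_ec K x
  have ho' : o = |K.q| * (K.u x - K.l x) / 2 := P2_om K x
  have hp : Real.exp (e + o) = Real.exp e * Real.exp o := Real.exp_add _ _
  have hm : Real.exp (e - o) = Real.exp e * (Real.exp o)⁻¹ := by
    rw [sub_eq_add_neg, Real.exp_add, Real.exp_neg]
  rw [Real.sinh_eq, Real.cosh_eq, Real.exp_neg e, Real.exp_neg o]
  rcases lt_or_gt_of_ne hq with h0 | h0
  · rw [abs_of_neg h0] at ho' ⊢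
    have h1 : K.rl x = Real.exp e * Real.exp o := by
      rw [← hp]; unfold rl; congr 1; rw [he', ho']; ring
    have h2 : K.ru x = Real.exp e * (Real.exp o)⁻¹ := by
      rw [← hm]; unfold ru; congr 1; rw [he', ho']; ring
    unfold mu
    rw [h1, h2]
    refine ⟨?_, ?_, ?_, ?_⟩ <;> field_simp
    all_goals ring
  · rw [abs_of_pos h0] at ho' ⊢
    have h1 : K.rl x = Real.exp e * (Real.exp o)⁻¹ := by
      rw [← hm]; unfold rl; congr 1; rw [he', ho']; ring
    have h2 : K.ru x = Real.exp e * Real.exp o := by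
      rw [← hp]; unfold ru; congr 1; rw [he', ho']; ring
    unfold mu
    rw [h1, h2]
    refine ⟨?_, ?_, ?_, ?_⟩ <;> field_simp
    all_goals ring

end Dat

end Pool.Agent.Lib.MP_1dedaf_gt.DK
end
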