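import Pool.Agent.Lib.MP_1dedaf_gt.Mg.G001
import Pool.Agent.Lib.MP_1dedaf_gt.Mg.G008
import Pool.Agent.Lib.MP_1dedaf_gt.LB.A0b

section

/-!
# TASK LB A0: (done: imports)


-/

set_option autoImplicit false

open MeasureTheory Set Filter Topology

namespace Pool.Agent.Lib.MP_1dedaf_gt.LB



end Pool.Agent.Lib.MP_1dedaf_gt.LB
end

section

/-!
# TASK LB A2: continuity of the integrals

Proof. Let `(k_m, θ_m) → (k, θ)`. For large `m`, `Q u k_m ⊆ Q u (k + 1)`, a compact set, the integrands
`indicator (Q u k_m) x * exp <θ_m, x>` are bounded there by a constant, and for every `x` outside the lines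
`{<x, u i> = k i}` (null sets: `u i ≠ 0`) the indicators are eventually constant. Dominated convergence
(`tendsto_integral_of_dominated_convergence`, or `continuous_iff_continuousAt` and
`MeasureTheory.continuousAt_of_dominated`). The same for the vector valued integral.
-/

set_option autoImplicit false

open MeasureTheory Set Filter Topology

namespace Pool.Agent.Lib.MP_1dedaf_gt.LB

variable {ι : Type} [Fintype ι]

private theorem A2_null (v : E2) (hv : ‖v‖ = 1) (k : ℝ) : ∀ᵐ x : E2, inner ℝ x v ≠ k := by
  have h1 : AffineSubspace.mk' (k • v) (LinearMap.ker (innerₛₗ ℝ v)) ≠ ⊤ := by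
    intro h
    have h2 : k • v + v ∈ AffineSubspace.mk' (k • v) (LinearMap.ker (innerₛₗ ℝ v)) := by
      rw [h]
      exact AffineSubspace.mem_top _ _ _
    rw [AffineSubspace.mem_mk', vsub_eq_sub, add_sub_cancel_left, LinearMap.mem_ker,
      innerₛₗ_apply_apply, real_inner_self_eq_norm_sq, hv] at h2
    norm_num at h2
  have h2 := Measure.addHaar_affineSubspace (volume : Measure E2) _ h1
  rw [ae_iff]
  refine measure_mono_null ?_ h2
  intro x hx
  have hx' : inner ℝ x v = k := by
    by_contra h
    exact hx h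
  show x ∈ AffineSubspace.mk' (k • v) (LinearMap.ker (innerₛₗ ℝ v))
  rw [AffineSubspace.mem_mk', vsub_eq_sub, LinearMap.mem_ker, innerₛₗ_apply_apply, inner_sub_right,
    real_inner_comm, hx', real_inner_smul_right, real_inner_self_eq_norm_sq, hv]
  ring

private theorem A2_gen {V : Type} [NormedAddCommGroup V] [NormedSpace ℝ V] {u : ι → E2} (hu : Adm u)
    (g : E2 × E2 → V) (hg : Continuous g) :
    Continuous fun p : (ι → ℝ) × E2 => ∫ x in Q u p.1, g (p.2, x) := by
  rw [continuous_iff_continuousAt]
  rintro ⟨k, θ⟩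
  have hQm : ∀ k', MeasurableSet (Q u k') := fun k' => (Q_compact hu k').measurableSet
  have hcomp : IsCompact (Metric.closedBall θ 1 ×ˢ Q u (fun i => k i + 1)) :=
    (isCompact_closedBall θ 1).prod (Q_compact hu _)
  obtain ⟨M, hM⟩ := hcomp.exists_bound_of_continuousOn hg.continuousOn
  have heq : (fun p : (ι → ℝ) × E2 => ∫ x in Q u p.1, g (p.2, x)) =
      fun p => ∫ x, (Q u p.1).indicator (fun x => g (p.2, x)) x := by
    funext p
    exact (integral_indicator (hQm p.1)).symm
  rw [heq]
  have hci : ∀ i, Continuous fun p : (ι → ℝ) × E2 => p.1 i := fun i => by fun_prop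
  refine continuousAt_of_dominated (bound := (Q u (fun i => k i + 1)).indicator fun _ => M)
    ?_ ?_ ?_ ?_
  · refine Eventually.of_forall fun p => ?_
    have h1 : Continuous fun x => g (p.2, x) := by fun_prop
    exact h1.aestronglyMeasurable.indicator (hQm p.1)
  · have h1 : ∀ᶠ p : (ι → ℝ) × E2 in 𝓝 (k, θ), ∀ i, p.1 i < k i + 1 := by
      rw [eventually_all]
      intro i
      exact (hci i).continuousAt.eventually_lt continuousAt_const (lt_add_one (k i))
    have h2 : ∀ᶠ p : (ι → ℝ) × E2 in 𝓝 (k, θ), p.2 ∈ Metric.closedBall θ 1 :=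
      continuous_snd.continuousAt (Metric.closedBall_mem_nhds θ one_pos)
    filter_upwards [h1, h2] with p hp1 hp2
    refine Eventually.of_forall fun x => ?_
    by_cases hx : x ∈ Q u p.1
    · have hx' : x ∈ Q u (fun i => k i + 1) := fun i => (hx i).trans (hp1 i).le
      rw [indicator_of_mem hx, indicator_of_mem hx']
      exact hM (p.2, x) ⟨hp2, hx'⟩
    · rw [indicator_of_notMem hx, norm_zero]
      by_cases hx' : x ∈ Q u (fun i => k i + 1)
      · rw [indicator_of_mem hx']
        exact (norm_nonneg _).trans (hM (θ, x) ⟨Metric.mem_closedBall_self zero_le_one, hx'⟩)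
      · rw [indicator_of_notMem hx']
  · exact ((continuousOn_const (c := M)).integrableOn_compact
      (Q_compact hu fun i => k i + 1)).integrable_indicator (hQm _)
  · have hall : ∀ᵐ x : E2, ∀ i, inner ℝ x (u i) ≠ k i :=
      ae_all_iff.2 fun i => A2_null (u i) (hu.unit i) (k i)
    filter_upwards [hall] with x hx
    by_cases hx' : ∃ i, k i < inner ℝ x (u i)
    · obtain ⟨i, hi⟩ := hx'
      have h3 : ∀ᶠ p : (ι → ℝ) × E2 in 𝓝 (k, θ), p.1 i < inner ℝ x (u i) :=
        (hci i).continuousAt.eventually_lt continuousAt_const hi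
      have h4 : (fun _ : (ι → ℝ) × E2 => (0 : V)) =ᶠ[𝓝 (k, θ)]
          fun p => (Q u p.1).indicator (fun x => g (p.2, x)) x := by
        filter_upwards [h3] with p hp
        rw [indicator_of_notMem]
        intro h5
        exact absurd (h5 i) (not_le.2 hp)
      exact continuousAt_const.congr h4
    · have h3 : ∀ᶠ p : (ι → ℝ) × E2 in 𝓝 (k, θ), ∀ i, inner ℝ x (u i) < p.1 i := by
        rw [eventually_all]
        intro i
        refine continuousAt_const.eventually_lt (hci i).continuousAt ?_
        exact lt_of_le_of_ne (not_lt.1 fun h => hx' ⟨i, h⟩) (hx i)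
      have h4 : (fun p : (ι → ℝ) × E2 => g (p.2, x)) =ᶠ[𝓝 (k, θ)]
          fun p => (Q u p.1).indicator (fun x => g (p.2, x)) x := by
        filter_upwards [h3] with p hp
        rw [indicator_of_mem]
        exact fun i => (hp i).le
      have h5 : Continuous fun p : (ι → ℝ) × E2 => g (p.2, x) := by fun_prop
      exact h5.continuousAt.congr h4

theorem Z_cont {u : ι → E2} (hu : Adm u) : Continuous fun p : (ι → ℝ) × E2 => Z u p.1 p.2 :=
  A2_gen hu (fun q : E2 × E2 => Real.exp (inner ℝ q.1 q.2)) (by fun_prop)

theorem ZV_cont {u : ι → E2} (hu : Adm u) :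
    Continuous fun p : (ι → ℝ) × E2 => ∫ x in Q u p.1, Real.exp (inner ℝ p.2 x) • x :=
  A2_gen hu (fun q : E2 × E2 => Real.exp (inner ℝ q.1 q.2) • q.2) (by fun_prop)

end Pool.Agent.Lib.MP_1dedaf_gt.LB
end

section

/-!
# TASK LB A3c: moving one edge: Fubini

Notation: `x(h, τ) = h • u i + τ • rot (u i)`. Coordinates (`coord_mp`) and Fubini:
`Q u (update k i s) = {x(h,τ) : h ≤ s, ∀ j ≠ i, <x(h,τ), u j> ≤ k j}`. Integrability: `Z_integrable` and
`Integrable.integral_prod_left` (for the restriction of the function to `h ≤ s`).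
-/

set_option autoImplicit false

open MeasureTheory Set Filter Topology

namespace Pool.Agent.Lib.MP_1dedaf_gt.LB

variable {ι : Type} [Fintype ι]

omit [Fintype ι] in
private theorem A3c_inner_self {u : ι → E2} (hu : Adm u) (i : ι) (h τ : ℝ) :
    inner ℝ (h • u i + τ • rot (u i)) (u i) = h := by
  rw [inner_add_left, real_inner_smul_left, real_inner_smul_left, real_inner_self_eq_norm_sq, hu.unit i,
    real_inner_comm, rot_inner]
  ring

theorem Z_eq_sl [DecidableEq ι] {u : ι → E2} (hu : Adm u) (k : ι → ℝ) (θ : E2) (i : ι) (s : ℝ) :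
    IntegrableOn (sl u k θ i) (Iic s) ∧ Z u (Function.update k i s) θ = ∫ h in Iic s, sl u k θ i h := by
  obtain ⟨hmp, hme⟩ := coord_mp (u i) (hu.unit i)
  set Φ : ℝ × ℝ → E2 := fun p => p.1 • u i + p.2 • rot (u i) with hΦ
  set K : Set E2 := Q u (Function.update k i s) with hK
  have hKm : MeasurableSet K := (Q_compact hu _).isClosed.measurableSet
  have hint := Z_integrable hu (Function.update k i s) θ
  set g : ℝ × ℝ → ℝ := fun p => Real.exp (inner ℝ θ (Φ p)) with hg
  have hpre : MeasurableSet (Φ ⁻¹' K) := hmp.measurable hKm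
  have hI1 : IntegrableOn g (Φ ⁻¹' K) := by
    have := (hmp.integrableOn_comp_preimage hme (f := fun x : E2 => Real.exp (inner ℝ θ x)) (s := K)).2 hint
    exact this
  have hZ : Z u (Function.update k i s) θ = ∫ p in Φ ⁻¹' K, g p := by
    unfold Z
    exact (hmp.setIntegral_preimage_emb hme (fun x : E2 => Real.exp (inner ℝ θ x)) K).symm
  have hF : Integrable ((Φ ⁻¹' K).indicator g) (volume.prod volume) := by
    have := (integrable_indicator_iff hpre).2 hI1
    exact this
  have hsec : ∀ h : ℝ, (∫ τ, (Φ ⁻¹' K).indicator g (h, τ)) = (Iic s).indicator (sl u k θ i) h := by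
    intro h
    have hclosed : IsClosed {τ : ℝ | ∀ j, j ≠ i → inner ℝ (h • u i + τ • rot (u i)) (u j) ≤ k j} := by
      have : {τ : ℝ | ∀ j, j ≠ i → inner ℝ (h • u i + τ • rot (u i)) (u j) ≤ k j} =
          ⋂ j, ⋂ (_ : j ≠ i), {τ : ℝ | inner ℝ (h • u i + τ • rot (u i)) (u j) ≤ k j} := by
        ext τ; simp
      rw [this]
      refine isClosed_iInter fun j => isClosed_iInter fun _ => ?_
      exact isClosed_le (by fun_prop) continuous_const
    by_cases hh : h ≤ s
    · rw [Set.indicator_of_mem (Set.mem_Iic.2 hh)]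
      unfold sl
      rw [← integral_indicator hclosed.measurableSet]
      congr 1
      funext τ
      have hiff : (h, τ) ∈ Φ ⁻¹' K ↔ τ ∈ {τ : ℝ | ∀ j, j ≠ i → inner ℝ (h • u i + τ • rot (u i)) (u j) ≤ k j} := by
        constructor
        · intro hm j hj
          have := hm j
          rw [Function.update_of_ne hj] at this
          exact this
        · intro hm j
          by_cases hj : j = i
          · subst hj
            rw [Function.update_self]
            change inner ℝ (h • u j + τ • rot (u j)) (u j) ≤ s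
            rw [A3c_inner_self hu]
            exact hh
          · rw [Function.update_of_ne hj]
            exact hm j hj
      by_cases hτ : (h, τ) ∈ Φ ⁻¹' K
      · rw [Set.indicator_of_mem hτ, Set.indicator_of_mem (hiff.1 hτ)]
      · rw [Set.indicator_of_notMem hτ, Set.indicator_of_notMem (fun h' => hτ (hiff.2 h'))]
    · rw [Set.indicator_of_notMem (fun h' => hh (Set.mem_Iic.1 h'))]
      have : ∀ τ, (Φ ⁻¹' K).indicator g (h, τ) = 0 := by
        intro τ
        apply Set.indicator_of_notMem
        intro hm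
        apply hh
        have := hm i
        rw [Function.update_self] at this
        change inner ℝ (h • u i + τ • rot (u i)) (u i) ≤ s at this
        rw [A3c_inner_self hu] at this
        exact this
      simp [this]
  constructor
  · rw [← integrable_indicator_iff measurableSet_Iic]
    have := hF.integral_prod_left
    refine this.congr (Filter.Eventually.of_forall fun h => ?_)
    exact hsec h
  · rw [hZ, ← integral_indicator hpre, ← integral_indicator measurableSet_Iic]
    have h1 : (∫ p, (Φ ⁻¹' K).indicator g p) = ∫ h, ∫ τ, (Φ ⁻¹' K).indicator g (h, τ) :=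
      integral_prod _ hF
    rw [h1]
    congr 1
    funext h
    exact hsec h

end Pool.Agent.Lib.MP_1dedaf_gt.LB
end
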