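import Pool.Agent.Lib.MP_1dedaf_gt.Mg.G001
import Pool.Agent.Lib.MP_1dedaf_gt.Mg.G009
import Pool.Agent.Lib.MP_1dedaf_gt.Mg.G007
import Pool.Agent.Lib.MP_1dedaf_gt.Mg.G004

section

/-!
# TASK LB C2a: the density along an edge

`dens τ = exp <θ, k i u i + τ rot (u i)> / Z`; `dens' = λ dens` with `λ = <θ, rot (u i)>`, `dens (lo i) = rh (i-1)` (`ver_eq`), `dens (hi i) = rh i`
(definition of `ver`). `Z > 0` by `Z_pos`. (`dens_eq`) fundamental theorem of calculus. (`dens_mass`) definition of `sg` and `len_of_pos`.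
(`rh_diff`) `dens_eq` at `τ = hi i`.
-/

set_option autoImplicit false

open MeasureTheory Set Filter Topology

namespace Pool.Agent.Lib.MP_1dedaf_gt.LB

theorem rh_pos (n : ℕ) [NeZero n] (hn : Odd n) (h3 : 3 ≤ n) {k : ZMod n → ℝ} {θ : E2} (hk : Fat (dir n) k) (i : ZMod n) :
    0 < rh n k θ i :=
  div_pos (Real.exp_pos _) (Z_pos (dir_adm n hn h3) hk θ)

theorem dens_pos (n : ℕ) [NeZero n] (hn : Odd n) (h3 : 3 ≤ n) {k : ZMod n → ℝ} {θ : E2} (hk : Fat (dir n) k) (i : ZMod n) (τ : ℝ) :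
    0 < dens n k θ i τ :=
  div_pos (Real.exp_pos _) (Z_pos (dir_adm n hn h3) hk θ)

theorem dens_lo (n : ℕ) [NeZero n] (hn : Odd n) (h3 : 3 ≤ n) (k : ZMod n → ℝ) (θ : E2) (i : ZMod n) :
    dens n k θ i (lo n k i) = rh n k θ (i - 1) := by
  unfold dens rh
  rw [ver_eq n hn h3 k i]

theorem dens_hi (n : ℕ) (k : ZMod n → ℝ) (θ : E2) (i : ZMod n) : dens n k θ i (hi n k i) = rh n k θ i := rfl

private theorem C2a_inner (n : ℕ) (k : ZMod n → ℝ) (θ : E2) (i : ZMod n) (τ : ℝ) :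
    (inner ℝ θ (k i • dir n i + τ • rot (dir n i)) : ℝ) =
      k i * inner ℝ θ (dir n i) + τ * inner ℝ θ (rot (dir n i)) := by
  rw [inner_add_right, real_inner_smul_right, real_inner_smul_right]

private theorem C2a_deriv (n : ℕ) (k : ZMod n → ℝ) (θ : E2) (i : ZMod n) (τ : ℝ) :
    HasDerivAt (dens n k θ i) (inner ℝ θ (rot (dir n i)) * dens n k θ i τ) τ := by
  have h1 : HasDerivAt (fun τ : ℝ => k i * inner ℝ θ (dir n i) + τ * inner ℝ θ (rot (dir n i)))
      (1 * inner ℝ θ (rot (dir n i))) τ := ((hasDerivAt_id τ).mul_const _).const_add _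
  have h2 := (h1.exp).div_const (Z (dir n) k θ)
  have h3 : dens n k θ i = fun τ : ℝ => Real.exp (k i * inner ℝ θ (dir n i) +
      τ * inner ℝ θ (rot (dir n i))) / Z (dir n) k θ := by
    funext τ
    unfold dens
    rw [C2a_inner]
  rw [h3]
  refine h2.congr_deriv ?_
  ring

private theorem C2a_cont (n : ℕ) (k : ZMod n → ℝ) (θ : E2) (i : ZMod n) :
    Continuous (dens n k θ i) :=
  continuous_iff_continuousAt.2 fun τ => (C2a_deriv n k θ i τ).continuousAt

theorem dens_eq (n : ℕ) [NeZero n] (hn : Odd n) (h3 : 3 ≤ n) (k : ZMod n → ℝ) (θ : E2) (i : ZMod n) (τ : ℝ) :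
    dens n k θ i τ = rh n k θ (i - 1) + inner ℝ θ (rot (dir n i)) * ∫ x in (lo n k i)..τ, dens n k θ i x := by
  have h1 := intervalIntegral.integral_eq_sub_of_hasDerivAt (a := lo n k i) (b := τ)
    (fun x _ => C2a_deriv n k θ i x)
    ((continuous_const.mul (C2a_cont n k θ i)).intervalIntegrable _ _)
  rw [intervalIntegral.integral_const_mul, dens_lo n hn h3] at h1
  rw [h1]
  ring

theorem dens_mass (n : ℕ) [NeZero n] (hn : Odd n) (h3 : 3 ≤ n) {k : ZMod n → ℝ} {θ : E2}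
    (hp : ∀ i, 0 < sg (dir n) k θ i) (i : ZMod n) :
    ∫ x in (lo n k i)..(hi n k i), dens n k θ i x = sg (dir n) k θ i / Z (dir n) k θ := by
  obtain ⟨h1, h2⟩ := len_of_pos n hn h3 hp i
  rw [intervalIntegral.integral_of_le h1.le, ← integral_Icc_eq_integral_Ioc]
  unfold sg dens
  rw [h2, integral_div]

theorem rh_diff (n : ℕ) [NeZero n] (hn : Odd n) (h3 : 3 ≤ n) {k : ZMod n → ℝ} {θ : E2} (hk : Fat (dir n) k)
    (hp : ∀ i, 0 < sg (dir n) k θ i) (i : ZMod n) :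
    rh n k θ i - rh n k θ (i - 1) = sg (dir n) k θ i / Z (dir n) k θ * inner ℝ θ (rot (dir n i)) := by
  have h1 := dens_eq n hn h3 k θ i (hi n k i)
  rw [dens_mass n hn h3 hp i, dens_hi] at h1
  rw [h1]
  ring

end Pool.Agent.Lib.MP_1dedaf_gt.LB
end

section

/-!
# TASK LB A6b: tightening a polygon

Proof. Put `w k = Z u k (th u S) * exp (-∑ S i k i)`. It is invariant under `k ↦ k + <x, u ·>` (`Z_translate`,
`<th u S, x> = ∑ S i <x, u i>`). Let `k₁ i = max_{x ∈ Q u k} <x, u i> ≤ k i` (`Q u k` is compact and not empty): `Q u k₁ = Q u k`, so `Z` is the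
same, `w k₁ ≥ w k`, and `k₁` is `Tight`, Fat (`fat_of_Z_pos`). Translate by a point `y` of the polygon: `k' i = k₁ i - <y, u i> ≥ 0`; `Q u k' = Q u k₁ - y`.
-/

set_option autoImplicit false

open MeasureTheory Set Filter Topology

namespace Pool.Agent.Lib.MP_1dedaf_gt.LB

variable {ι : Type} [Fintype ι]

theorem w_translate (u : ι → E2) (k S : ι → ℝ) (x : E2) :
    Z u (fun i => k i + inner ℝ x (u i)) (th u S) * Real.exp (-∑ i, S i * (k i + inner ℝ x (u i))) =
      Z u k (th u S) * Real.exp (-∑ i, S i * k i) := by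
  rw [Z_translate]
  have h1 : inner ℝ (th u S) x = ∑ i, S i * inner ℝ x (u i) := by
    unfold th
    rw [sum_inner]
    refine Finset.sum_congr rfl fun i _ => ?_
    rw [real_inner_smul_left, real_inner_comm]
  have h2 : (-∑ i, S i * (k i + inner ℝ x (u i))) = -(∑ i, S i * k i) - inner ℝ (th u S) x := by
    rw [h1, ← sub_eq_zero]
    simp only [mul_add, Finset.sum_add_distrib]
    ring
  rw [h2, Real.exp_sub]
  have h3 : Real.exp (inner ℝ (th u S) x) ≠ 0 := Real.exp_ne_zero _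
  field_simp

theorem tighten {u : ι → E2} (hu : Adm u) {S : ι → ℝ} (hS : ∀ i, 0 < S i) {k : ι → ℝ} (hk : Fat u k) :
    ∃ k' : ι → ℝ, Tight u k' ∧ (∀ i, 0 ≤ k' i) ∧ Fat u k' ∧
      Z u k (th u S) * Real.exp (-∑ i, S i * k i) ≤ Z u k' (th u S) * Real.exp (-∑ i, S i * k' i) := by
  obtain ⟨y, hy⟩ := hk
  have hyQ : y ∈ Q u k := fun i => (hy i).le
  have hmax : ∀ i, ∃ x ∈ Q u k, ∀ z ∈ Q u k, inner ℝ z (u i) ≤ inner ℝ x (u i) := by
    intro i
    obtain ⟨x, hx, hx2⟩ := (Q_compact hu k).exists_isMaxOn ⟨y, hyQ⟩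
      (f := fun z : E2 => inner ℝ z (u i)) (by fun_prop)
    exact ⟨x, hx, fun z hz => hx2 hz⟩
  choose p hpQ hp using hmax
  obtain ⟨k₁, hk₁⟩ : ∃ k₁ : ι → ℝ, ∀ i, k₁ i = inner ℝ (p i) (u i) := ⟨_, fun i => rfl⟩
  have hle : ∀ i, k₁ i ≤ k i := fun i => by
    rw [hk₁]
    exact hpQ i i
  have hQ : Q u k₁ = Q u k := by
    ext z
    constructor
    · intro hz i
      exact (hz i).trans (hle i)
    · intro hz i
      rw [hk₁]
      exact hp i z hz
  have hZ : Z u k₁ (th u S) = Z u k (th u S) := by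
    unfold Z
    rw [hQ]
  have hpos : 0 < Z u k (th u S) := Z_pos hu ⟨y, hy⟩ _
  have hfat : Fat u k₁ := fat_of_Z_pos (θ := th u S) hu (by rw [hZ]; exact hpos)
  have hyQ1 : y ∈ Q u k₁ := by rw [hQ]; exact hyQ
  refine ⟨fun i => k₁ i + inner ℝ (-y) (u i), ?_, ?_, ?_, ?_⟩
  · intro i
    refine ⟨p i + -y, ?_, ?_⟩
    · intro j
      rw [inner_add_left]
      have : inner ℝ (p i) (u j) ≤ k₁ j := by
        have h : p i ∈ Q u k₁ := by rw [hQ]; exact hpQ i
        exact h j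
      linarith
    · beta_reduce
      rw [inner_add_left, hk₁]
  · intro i
    have := hyQ1 i
    beta_reduce
    rw [inner_neg_left]
    linarith
  · obtain ⟨z, hz⟩ := hfat
    refine ⟨z + -y, fun i => ?_⟩
    rw [inner_add_left]
    have := hz i
    linarith
  · rw [w_translate, hZ]
    refine mul_le_mul_of_nonneg_left (Real.exp_le_exp.mpr (neg_le_neg ?_)) hpos.le
    exact Finset.sum_le_sum fun i _ => mul_le_mul_of_nonneg_left (hle i) (hS i).le

end Pool.Agent.Lib.MP_1dedaf_gt.LB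
end
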