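import Pool.Agent.Lib.MP_1dedaf_gt.Mg.G001
import Pool.Agent.Lib.MP_c95dcf_gt.PL
import Pool.Agent.Lib.MP_c95dcf_gt.PL1

section

/-!
# Kernel part: planar bodies with an exponential density

`Dat` is the column description of a body `{(x, y) : 0 ≤ x ≤ w, l x ≤ y ≤ u x}` with the density
`exp (p x + q y)`, seen from the side `s = {x = 0}`. `rl`, `ru` are the density at the lower and upper boundary
point over `x`; `Xl`, `Xu` the integral of the density against `dx` along the boundary from the lower end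
of `s` (counterclockwise) to the lower / upper point over `x`; `mu` the column mass, `mr` the mass to the
right, `M` the mass, `xb` the first moment; `N i` the loop integral of `X ^ i` against `dx / density`;
`D = N 0 / q` is the integral of `1 / density` over the body; `a` is the pivot of `s`, `V` the loop
integral of `(X - a) ^ 2`, `Phi` the response. For the line `t` of slope `k` which touches the body from below at
`(x, l x)`, `j x k` is the kernel of the pair `(s, t)`. For a body containing the corner `(0, 0)`, touching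
`y = 0`, the kernel of the sides `x = 0`, `y = 0` is `J / M`, and `b` is the pivot of the side `y = 0`.

`Bd` is a body in the quadrant `x, y ≥ 0` with its column and its row functions; `Bd.col`, `Bd.row` its two
`Dat`s (as seen from `x = 0` and, after exchanging the coordinates, from `y = 0`).
-/

set_option autoImplicit false

open MeasureTheory Set Filter Topology

namespace Pool.Agent.Lib.MP_1dedaf_gt.DK

/-- Column data: the body `{(x, y) : 0 ≤ x ≤ w, l x ≤ y ≤ u x}` with the density `exp (p x + q y)`. -/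
structure Dat where
  p : ℝ
  q : ℝ
  w : ℝ
  l : ℝ → ℝ
  u : ℝ → ℝ

namespace Dat

variable (K : Dat)

/-- The density at the lower boundary. -/
noncomputable def rl (x : ℝ) : ℝ := Real.exp (K.p * x + K.q * K.l x)

/-- The density at the upper boundary. -/
noncomputable def ru (x : ℝ) : ℝ := Real.exp (K.p * x + K.q * K.u x)

/-- `∫ density dx` along the lower boundary. -/
noncomputable def Xl (x : ℝ) : ℝ := ∫ t in (0:ℝ)..x, K.rl t

/-- The mass of the column over `x`. -/
noncomputable def mu (x : ℝ) : ℝ := (K.ru x - K.rl x) / K.q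

/-- The mass to the right of `x`. -/
noncomputable def mr (x : ℝ) : ℝ := ∫ t in x..K.w, K.mu t

/-- The mass. -/
noncomputable def M : ℝ := ∫ t in (0:ℝ)..K.w, K.mu t

/-- `∫ density dx` along the boundary, at the upper point over `x`. -/
noncomputable def Xu (x : ℝ) : ℝ := K.Xl x - K.q * K.mr x

/-- The loop integral of `X ^ i dx / density`. -/
noncomputable def N (i : ℕ) : ℝ := ∫ x in (0:ℝ)..K.w, (K.Xl x ^ i / K.rl x - K.Xu x ^ i / K.ru x)

/-- The integral of `1 / density` over the body. -/
noncomputable def D : ℝ := K.N 0 / K.q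

/-- The pivot of the side `x = 0`. -/
noncomputable def a : ℝ := K.N 1 / K.N 0

/-- The first moment. -/
noncomputable def xb : ℝ := ∫ x in (0:ℝ)..K.w, x * K.mu x

/-- The loop integral of `(X - a) ^ 2 dx / density`. -/
noncomputable def V : ℝ := K.N 2 - K.a * K.N 1

/-- The kernel of the pair `(s, s)`. -/
noncomputable def psi : ℝ := - K.V / (K.q * K.M)

/-- The displacement of the lower boundary point over `x`. -/
noncomputable def Xi (x : ℝ) : ℝ := ∫ t in (0:ℝ)..x, (K.a - K.Xl t) / K.rl t

/-- The response function on the lower boundary. -/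
noncomputable def Phi (x : ℝ) : ℝ := K.psi - K.Xi x

/-- The kernel of the pair `(s, t)`, `t` the line of slope `k` touching at `(x, l x)`. -/
noncomputable def j (x k : ℝ) : ℝ :=
  (x - 2 * K.xb / K.M + (K.a - K.Xl x) / K.rl x - (K.p + K.q * k) * K.Phi x) / K.q

/-- `M` times the kernel of the sides `x = 0`, `y = 0`, for a body with `l 0 = 0`, `0 ≤ l`. -/
noncomputable def J : ℝ := (-2 * K.xb + K.M * K.a + K.p / K.q * K.V) / K.q

/-- The pivot of the side `y = 0`, for a body with `l 0 = 0`, `0 ≤ l`. -/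
noncomputable def b : ℝ := (K.M / K.D - 1 - K.p * K.a - K.p * K.q * K.M) / K.q

/-- The reference point functional: `J = Br ξ η + D (a - ξ) (b - η)`. -/
noncomputable def Br (ξ η : ℝ) : ℝ := K.J - K.D * (K.a - ξ) * (K.b - η)

/-- The body cut by `x ≥ a`, `y ≥ c` and moved to the origin (the part with `u < c` is collapsed). -/
noncomputable def cut (K : Dat) (a c : ℝ) : Dat where
  p := K.p
  q := K.q
  w := K.w - a
  l := fun x => max (K.l (a + x)) c - c
  u := fun x => max (K.u (a + x)) c - c

end Dat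

/-- A body in the quadrant, with column functions `l ≤ u` on `[0, w]` and row functions `g ≤ r` on `[0, h]`. -/
structure Bd where
  p : ℝ
  q : ℝ
  w : ℝ
  h : ℝ
  l : ℝ → ℝ
  u : ℝ → ℝ
  g : ℝ → ℝ
  r : ℝ → ℝ

namespace Bd

/-- The body seen from `x = 0`. -/
def col (K : Bd) : Dat := ⟨K.p, K.q, K.w, K.l, K.u⟩

/-- The body seen from `y = 0`. -/
def row (K : Bd) : Dat := ⟨K.q, K.p, K.h, K.g, K.r⟩

/-- Exchange of the coordinates. -/
def swap (K : Bd) : Bd := ⟨K.q, K.p, K.h, K.w, K.g, K.r, K.l, K.u⟩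

/-- The point `(x, y)` belongs to the body. -/
def mem (K : Bd) (x y : ℝ) : Prop := 0 ≤ x ∧ x ≤ K.w ∧ K.l x ≤ y ∧ y ≤ K.u x

/-- Convex bodies with interior points, touching the lines `x = 0`, `x = w`, `y = 0`, `y = h`. -/
structure Ok (K : Bd) : Prop where
  hp : K.p ≠ 0
  hq : K.q ≠ 0
  hw : 0 < K.w
  hh : 0 < K.h
  cl : Continuous K.l
  cu : Continuous K.u
  cg : Continuous K.g
  cr : Continuous K.r
  vl : ConvexOn ℝ (Icc 0 K.w) K.l
  vu : ConcaveOn ℝ (Icc 0 K.w) K.u
  vg : ConvexOn ℝ (Icc 0 K.h) K.g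
  vr : ConcaveOn ℝ (Icc 0 K.h) K.r
  lu : ∀ x ∈ Icc 0 K.w, K.l x ≤ K.u x
  gr : ∀ y ∈ Icc 0 K.h, K.g y ≤ K.r y
  fat : ∃ x ∈ Icc 0 K.w, K.l x < K.u x
  iff : ∀ x y, K.mem x y ↔ (0 ≤ y ∧ y ≤ K.h ∧ K.g y ≤ x ∧ x ≤ K.r y)

/-- The body contains the corner `(0, 0)`. -/
structure CF (K : Bd) : Prop extends K.Ok where
  corner : K.mem 0 0

end Bd

/-- `∫_0^x e^{k t} dt` for `k ≠ 0`. -/
noncomputable def ee (k x : ℝ) : ℝ := (Real.exp (k * x) - 1) / k

end Pool.Agent.Lib.MP_1dedaf_gt.DK
end

section

/-!
# Prékopa-Leindler in the plane (done)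
-/

set_option autoImplicit false

open MeasureTheory Set Filter Topology
open scoped ENNReal

namespace Pool.Agent.Lib.MP_1dedaf_gt.LB

theorem pl2 (f g h : E2 → ℝ≥0∞) (hf : Measurable f) (hg : Measurable g) (hh : Measurable h)
    (H : ∀ x y, f x * g y ≤ (h ((1 / 2 : ℝ) • (x + y))) ^ 2) :
    (∫⁻ x, f x) * (∫⁻ x, g x) ≤ (∫⁻ x, h x) ^ 2 :=
  MP_c95dcf_gt.pl MP_c95dcf_gt.pl1 2 f g h hf hg hh H

end Pool.Agent.Lib.MP_1dedaf_gt.LB
end
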