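import Pool.Agent.Lib.MP_1dedaf_gt.Mg.G001
import Pool.Agent.Lib.MP_1dedaf_gt.Mg.G009
import Pool.Agent.Lib.MP_1dedaf_gt.DK.SDefs
import Pool.Agent.Lib.MP_1dedaf_gt.DK.Reg
import Pool.Agent.Lib.MP_1dedaf_gt.DK.Goals

section

/-!
# TASK LB A3b: moving one edge: the slices

Notation: `x(h, τ) = h • u i + τ • rot (u i)`, so `<x(h,τ), u i> = h` and `<x(h,τ), u j> = h <u i, u j> + τ <rot (u i), u j>`
with `<rot (u i), u j> ≠ 0` for `j ≠ i` (`hu.gen`).
Proofs. (`sl_cont`) Fix `h₀`. For `|h - h₀| ≤ 1` the set `{τ | ∀ j ≠ i, <x(h,τ), u j> ≤ k j}` is contained in a fixed bounded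
interval, since `x(h,τ) ∈ Q u (update k i (h₀ + 1))`, which is compact; for every `τ` which is not one of the finitely many
numbers with `<x(h₀,τ), u j> = k j` for some `j ≠ i`, the indicator is constant in `h` near `h₀`. Dominated convergence.
(`sl_eq`) the sets are equal, as `<x(k i, τ), u i> = k i`.
-/

set_option autoImplicit false

open MeasureTheory Set Filter Topology

namespace Pool.Agent.Lib.MP_1dedaf_gt.LB

variable {ι : Type} [Fintype ι]

omit [Fintype ι] in
private theorem A3b_inner_self {u : ι → E2} (hu : Adm u) (i : ι) (h τ : ℝ) :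
    inner ℝ (h • u i + τ • rot (u i)) (u i) = h := by
  rw [inner_add_left, real_inner_smul_left, real_inner_smul_left, real_inner_self_eq_norm_sq, hu.unit i,
    real_inner_comm, rot_inner]
  ring

omit [Fintype ι] in
private theorem A3b_inner_rot {u : ι → E2} (hu : Adm u) (i : ι) (h τ : ℝ) :
    inner ℝ (h • u i + τ • rot (u i)) (rot (u i)) = τ := by
  rw [inner_add_left, real_inner_smul_left, real_inner_smul_left, real_inner_self_eq_norm_sq, rot_norm,
    hu.unit i, rot_inner]
  ring

theorem sl_cont {u : ι → E2} (hu : Adm u) (k : ι → ℝ) (θ : E2) (i : ι) : Continuous (sl u k θ i) := by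
  classical
  rw [continuous_iff_continuousAt]
  intro h₀
  set T : ℝ → Set ℝ := fun h => {τ : ℝ | ∀ j, j ≠ i → inner ℝ (h • u i + τ • rot (u i)) (u j) ≤ k j} with hT
  have hTc : ∀ h, IsClosed (T h) := by
    intro h
    have : T h = ⋂ j, ⋂ (_ : j ≠ i), {τ : ℝ | inner ℝ (h • u i + τ • rot (u i)) (u j) ≤ k j} := by
      ext τ; simp [hT]
    rw [this]
    refine isClosed_iInter fun j => isClosed_iInter fun _ => ?_
    exact isClosed_le (by fun_prop) continuous_const
  have hsl : sl u k θ i = fun h => ∫ τ, (T h).indicator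
      (fun τ => Real.exp (inner ℝ θ (h • u i + τ • rot (u i)))) τ := by
    funext h
    rw [integral_indicator (hTc h).measurableSet]
    rfl
  obtain ⟨R, hR⟩ := (Q_compact hu (fun j => if j = i then h₀ + 1 else k j)).isBounded.exists_norm_le
  have hbd : ∀ h, h ≤ h₀ + 1 → ∀ τ ∈ T h, ‖h • u i + τ • rot (u i)‖ ≤ R := by
    intro h hh τ hτ
    apply hR
    intro j
    by_cases hj : j = i
    · subst hj
      simp only [if_true]
      rw [A3b_inner_self hu]
      exact hh
    · simp only [hj, if_false]
      exact hτ j hj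
  rw [hsl]
  refine continuousAt_of_dominated (bound := (Icc (-R) R).indicator fun _ => Real.exp (‖θ‖ * R)) ?_ ?_ ?_ ?_
  · refine Filter.Eventually.of_forall fun h => ?_
    refine AEStronglyMeasurable.indicator ?_ (hTc h).measurableSet
    exact Continuous.aestronglyMeasurable (by fun_prop)
  · have hev : ∀ᶠ h in 𝓝 h₀, h ≤ h₀ + 1 := Filter.Tendsto.eventually_le_const (by linarith) tendsto_id
    filter_upwards [hev] with h hh
    refine Filter.Eventually.of_forall fun τ => ?_
    by_cases hτ : τ ∈ T h
    · have hn := hbd h hh τ hτ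
      have hτR : |τ| ≤ R := by
        have h1 := abs_real_inner_le_norm (h • u i + τ • rot (u i)) (rot (u i))
        rw [A3b_inner_rot hu, rot_norm, hu.unit i, mul_one] at h1
        exact h1.trans hn
      rw [Set.indicator_of_mem hτ, Set.indicator_of_mem (Set.mem_Icc.2 (abs_le.1 hτR)), Real.norm_eq_abs,
        Real.abs_exp]
      apply Real.exp_le_exp.2
      refine (real_inner_le_norm _ _).trans ?_
      exact mul_le_mul_of_nonneg_left hn (norm_nonneg _)
    · rw [Set.indicator_of_notMem hτ, norm_zero]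
      exact Set.indicator_nonneg (fun _ _ => (Real.exp_pos _).le) _
  · rw [integrable_indicator_iff measurableSet_Icc]
    exact integrableOn_const (by simp) (by simp)
  · have hnull : volume {τ : ℝ | ∃ j, j ≠ i ∧ inner ℝ (h₀ • u i + τ • rot (u i)) (u j) = k j} = 0 := by
      apply Set.Finite.measure_zero
      have : {τ : ℝ | ∃ j, j ≠ i ∧ inner ℝ (h₀ • u i + τ • rot (u i)) (u j) = k j} ⊆
          ⋃ j : ι, {τ : ℝ | j ≠ i ∧ inner ℝ (h₀ • u i + τ • rot (u i)) (u j) = k j} := by
        rintro τ ⟨j, hj⟩
        exact Set.mem_iUnion.2 ⟨j, hj⟩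
      refine Set.Finite.subset (Set.finite_iUnion fun j => ?_) this
      apply Set.Subsingleton.finite
      rintro a ⟨hj, ha⟩ b ⟨_, hb⟩
      have hne : inner ℝ (u j) (rot (u i)) ≠ 0 := hu.gen i j (Ne.symm hj)
      rw [inner_add_left, real_inner_smul_left, real_inner_smul_left] at ha hb
      rw [real_inner_comm] at hne
      have : (a - b) * inner ℝ (rot (u i)) (u j) = 0 := by linarith
      rcases mul_eq_zero.1 this with h | h
      · linarith
      · exact absurd h hne
    have hae : ∀ᵐ τ : ℝ, τ ∉ {τ : ℝ | ∃ j, j ≠ i ∧ inner ℝ (h₀ • u i + τ • rot (u i)) (u j) = k j} :=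
      measure_eq_zero_iff_ae_notMem.1 hnull
    filter_upwards [hae] with τ hτ
    have hcont : ∀ j, Continuous fun h : ℝ => (inner ℝ (h • u i + τ • rot (u i)) (u j) : ℝ) := by
      intro j; fun_prop
    by_cases hall : ∀ j, j ≠ i → inner ℝ (h₀ • u i + τ • rot (u i)) (u j) < k j
    · have hev : ∀ᶠ h in 𝓝 h₀, ∀ j, j ≠ i → inner ℝ (h • u i + τ • rot (u i)) (u j) < k j := by
        rw [Filter.eventually_all]
        intro j
        by_cases hj : j = i
        · exact Filter.Eventually.of_forall fun _ h => absurd hj h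
        · filter_upwards [(hcont j).continuousAt.eventually_lt_const (hall j hj)] with h hh _
          exact hh
      have hg : ContinuousAt (fun h : ℝ => Real.exp (inner ℝ θ (h • u i + τ • rot (u i)))) h₀ :=
        Continuous.continuousAt (by fun_prop)
      refine hg.congr ?_
      filter_upwards [hev] with h hh
      rw [Set.indicator_of_mem]
      exact fun j hj => (hh j hj).le
    · push Not at hall
      obtain ⟨j, hj, hge⟩ := hall
      have hgt : k j < inner ℝ (h₀ • u i + τ • rot (u i)) (u j) :=
        lt_of_le_of_ne hge fun h => hτ ⟨j, hj, h.symm⟩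
      refine (continuousAt_const (y := (0 : ℝ))).congr ?_
      filter_upwards [(hcont j).continuousAt.eventually_const_lt hgt] with h hh
      rw [Set.indicator_of_notMem]
      intro hmem
      exact absurd (hmem j hj) (not_le.2 hh)

theorem sl_eq {u : ι → E2} (hu : Adm u) (k : ι → ℝ) (θ : E2) (i : ι) : sl u k θ i (k i) = sg u k θ i := by
  have hset : {τ : ℝ | ∀ j, j ≠ i → inner ℝ (k i • u i + τ • rot (u i)) (u j) ≤ k j} = fac u k i := by
    ext τ
    constructor
    · intro h j
      by_cases hj : j = i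
      · subst hj
        rw [A3b_inner_self hu]
      · exact h j hj
    · intro h j _
      exact h j
  unfold sl sg
  rw [hset]

end Pool.Agent.Lib.MP_1dedaf_gt.LB
end

section

/-!
# Near arcs: the statement to be proved

`T0 = (K.g 0, 0)` is the near end of the side on `y = 0`, `S0 = (0, K.l 0)` the near end of the side on `x = 0`.
-/

set_option autoImplicit false

open MeasureTheory Set Filter Topology

namespace Pool.Agent.Lib.MP_1dedaf_gt.DK

open Pool.Agent.Lib.MP_1dedaf_gt.LB

/-- Case C: both responses are positive at the near ends. -/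
def CaseC : Prop := ∀ K : Bd, K.Ok → 0 < K.g 0 → K.g 0 < K.r 0 → 0 < K.l 0 → K.l 0 < K.u 0 → K.l K.w = K.u K.w → K.g K.h = K.r K.h →
  0 < K.col.Phi (K.g 0) → 0 < K.row.Phi (K.l 0) → 0 ≤ K.col.j (K.g 0) 0

/-- Column data in the coordinates `x' = c x`, `y' = d y`. -/
noncomputable def Dat.scale (K : Dat) (c d : ℝ) : Dat where
  p := K.p / c
  q := K.q / d
  w := c * K.w
  l := fun x => d * K.l (x / c)
  u := fun x => d * K.u (x / c)

/-- Column data in the coordinates `y' = y - (k x + e)`. -/
noncomputable def Dat.shr (K : Dat) (k e : ℝ) : Dat :=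
  ⟨K.p + K.q * k, K.q, K.w, fun t => K.l t - (k * t + e), fun t => K.u t - (k * t + e)⟩

/-- The slope of the line of the edge `s + m` seen from `s`. -/
noncomputable def slk (n m : ℕ) : ℝ := - (Real.cos (m * dl n) / Real.sin (m * dl n))

/-- The value at `0` of the line of the edge `s + m` seen from `s`. -/
noncomputable def sle (n : ℕ) (k : ZMod n → ℝ) (s : ZMod n) (m : ℕ) : ℝ := ln n k s m 0

/-- The polygon seen from the edge `s + m`, reflected. -/
noncomputable def sv' (n : ℕ) [NeZero n] (T k : ZMod n → ℝ) (s : ZMod n) (m : ℕ) : Dat :=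
  sv n (fun i => k (-i)) (th (dir n) (fun i => T (-i))) (-(s + (m : ℕ)))

end Pool.Agent.Lib.MP_1dedaf_gt.DK
end
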