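import Pool.Agent.Lib.MP_1dedaf_gt.Mg.G001

section

/-!
# TASK LB P1: midpoint concave and continuous implies concave

Proof. Fix `x, y ∈ D`; `φ t = f (x + t (y - x)) - (1 - t) f x - t f y` on `[0,1]` is continuous, `φ 0 = φ 1 = 0` and
`(φ s + φ t)/2 ≤ φ ((s+t)/2)`. If `φ` takes a negative value, let `m < 0` be its minimum and `t₀` the smallest point with
`φ t₀ = m` (closed nonempty set); `0 < t₀ < 1`. With `δ = min t₀ (1 - t₀)`: `φ (t₀ - δ) > m`, `φ (t₀ + δ) ≥ m`, so
`φ t₀ ≥ (φ (t₀ - δ) + φ (t₀ + δ))/2 > m`, a contradiction. So `φ ≥ 0`.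
-/

set_option autoImplicit false

open MeasureTheory Set Filter Topology

namespace Pool.Agent.Lib.MP_1dedaf_gt.LB

private theorem P1_aux {φ : ℝ → ℝ} (hc : ContinuousOn φ (Icc 0 1)) (h0 : φ 0 = 0) (h1 : φ 1 = 0)
    (hm : ∀ s ∈ Icc (0 : ℝ) 1, ∀ t ∈ Icc (0 : ℝ) 1, (φ s + φ t) / 2 ≤ φ ((s + t) / 2)) :
    ∀ t ∈ Icc (0 : ℝ) 1, 0 ≤ φ t := by
  intro t1 ht1
  by_contra hneg
  push Not at hneg
  obtain ⟨tm, htm, hmin⟩ := isCompact_Icc.exists_isMinOn ⟨t1, ht1⟩ hc
  set m := φ tm with hmdef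
  have hm0 : m < 0 := lt_of_le_of_lt (hmin ht1) hneg
  have hcl : IsClosed (Icc (0 : ℝ) 1 ∩ φ ⁻¹' {m}) :=
    hc.preimage_isClosed_of_isClosed isClosed_Icc isClosed_singleton
  have hcp : IsCompact (Icc (0 : ℝ) 1 ∩ φ ⁻¹' {m}) :=
    isCompact_Icc.of_isClosed_subset hcl inter_subset_left
  obtain ⟨t0, ⟨ht0, ht0m⟩, hleast⟩ := hcp.exists_isLeast ⟨tm, htm, rfl⟩
  have ht0m' : φ t0 = m := ht0m
  have h0lt : 0 < t0 := by
    rcases eq_or_lt_of_le ht0.1 with h | h
    · rw [← h, h0] at ht0m'; linarith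
    · exact h
  have h1lt : t0 < 1 := by
    rcases eq_or_lt_of_le ht0.2 with h | h
    · rw [h, h1] at ht0m'; linarith
    · exact h
  set δ := min t0 (1 - t0) with hδ
  have hδ0 : 0 < δ := lt_min h0lt (by linarith)
  have hδ1 : δ ≤ t0 := min_le_left _ _
  have hδ2 : δ ≤ 1 - t0 := min_le_right _ _
  have hA : t0 - δ ∈ Icc (0 : ℝ) 1 := ⟨by linarith, by linarith⟩
  have hB : t0 + δ ∈ Icc (0 : ℝ) 1 := ⟨by linarith, by linarith⟩
  have h2 := hm _ hA _ hB
  have h3 : (t0 - δ + (t0 + δ)) / 2 = t0 := by ring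
  rw [h3, ht0m'] at h2
  have h4 : m ≤ φ (t0 + δ) := hmin hB
  have h5 : m < φ (t0 - δ) := by
    refine lt_of_le_of_ne (hmin hA) ?_
    intro h
    have := hleast ⟨hA, h.symm⟩
    linarith
  linarith

theorem concaveOn_of_mid {E : Type} [NormedAddCommGroup E] [NormedSpace ℝ E] {D : Set E} (hD : Convex ℝ D) {f : E → ℝ}
    (hc : ContinuousOn f D) (hm : ∀ x ∈ D, ∀ y ∈ D, (f x + f y) / 2 ≤ f ((1 / 2 : ℝ) • (x + y))) :
    ConcaveOn ℝ D f := by
  refine ⟨hD, ?_⟩
  intro x hx y hy a b ha hb hab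
  have hin : ∀ t ∈ Icc (0 : ℝ) 1, x + t • (y - x) ∈ D := by
    intro t ht
    have := hD hx hy (sub_nonneg.mpr ht.2) ht.1 (by ring)
    have e : x + t • (y - x) = (1 - t) • x + t • y := by
      rw [smul_sub, sub_smul, one_smul]; abel
    rw [e]; exact this
  set φ : ℝ → ℝ := fun t => f (x + t • (y - x)) - ((1 - t) * f x + t * f y) with hφ
  have key := P1_aux (φ := φ) ?_ ?_ ?_ ?_ b ⟨hb, by linarith⟩
  · have e2 : a = 1 - b := by linarith
    subst e2
    have e : x + b • (y - x) = (1 - b) • x + b • y := by module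
    simp only [hφ, e] at key
    simp only [smul_eq_mul]
    linarith
  · refine ContinuousOn.sub (hc.comp (by fun_prop) hin) (by fun_prop)
  · simp [hφ]
  · simp [hφ]
  · intro s hs t ht
    have h := hm _ (hin s hs) _ (hin t ht)
    have e : (1 / 2 : ℝ) • (x + s • (y - x) + (x + t • (y - x))) = x + ((s + t) / 2) • (y - x) := by
      module
    rw [e] at h
    simp only [hφ]
    linarith

end Pool.Agent.Lib.MP_1dedaf_gt.LB
end

section

/-!
# TASK LB P2: partial derivatives of a concave function give a tangent plane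

Proof. Let `v = k' - k`, `N = card ι > 0` (if `N = 0` then `k = k'`). For small `τ > 0` the points `k + τ v` and
`w_i = k - τ N v_i e_i = update k i (k i - τ N v i)` lie in the open set `D`, and
`k = (1/2) (k + τ v) + (1/2) ∑_i (1/N) w_i`. By concavity (Jensen) `f k ≥ (1/2) f (k + τ v) + (1/2) ∑ (1/N) f (w_i)`, so
`f (k + τ v) - f k ≤ ∑ (1/N) (f k - f (w_i))`. Also `f (k + τ v) ≥ (1 - τ) f k + τ f k'` for `τ ≤ 1`. Divide by `τ` and let
`τ → 0+`: `(f k - f (w_i))/τ → N v_i g_i`. So `f k' - f k ≤ ∑ v_i g_i`.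
-/

set_option autoImplicit false

open MeasureTheory Set Filter Topology

namespace Pool.Agent.Lib.MP_1dedaf_gt.LB

theorem tangent_of_partials {ι : Type} [Fintype ι] [DecidableEq ι] {D : Set (ι → ℝ)} (hD : IsOpen D) {f : (ι → ℝ) → ℝ}
    (hf : ConcaveOn ℝ D f) {k : ι → ℝ} (hk : k ∈ D) {g : ι → ℝ}
    (hg : ∀ i, HasDerivAt (fun s => f (Function.update k i s)) (g i) (k i)) {k' : ι → ℝ} (hk' : k' ∈ D) :
    f k' ≤ f k + ∑ i, g i * (k' i - k i) := by
  rcases isEmpty_or_nonempty ι with h | h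
  · have hkk : k' = k := Subsingleton.elim _ _
    simp [hkk]
  obtain ⟨N, hN⟩ : ∃ N : ℝ, N = (Fintype.card ι : ℝ) := ⟨_, rfl⟩
  have hN0 : 0 < N := by
    rw [hN]
    exact_mod_cast Fintype.card_pos
  obtain ⟨w, hw⟩ : ∃ w : ι → ℝ → (ι → ℝ),
      w = fun i τ => Function.update k i (k i - τ * (N * (k' i - k i))) := ⟨_, rfl⟩
  have hw' : ∀ i τ, w i τ = Function.update k i (k i - τ * (N * (k' i - k i))) := by
    intro i τ
    rw [hw]
  have hw0 : ∀ i, w i 0 = k := by
    intro i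
    rw [hw']
    simp
  have hwc : ∀ i, Continuous (w i) := by
    intro i
    rw [hw]
    exact continuous_const.update i (by fun_prop)
  have hmem : ∀ᶠ τ in 𝓝[>] (0:ℝ), ∀ i, w i τ ∈ D := by
    rw [eventually_all]
    intro i
    have h1 : ∀ᶠ τ in 𝓝 (0:ℝ), w i τ ∈ D := by
      apply (hwc i).continuousAt.eventually_mem
      rw [hw0]
      exact hD.mem_nhds hk
    exact h1.filter_mono nhdsWithin_le_nhds
  have hder : HasDerivAt (fun τ => ∑ i, N⁻¹ * (f k - f (w i τ))) (∑ i, g i * (k' i - k i)) 0 := by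
    apply HasDerivAt.fun_sum
    intro i _
    have h1 : HasDerivAt (fun τ : ℝ => k i - τ * (N * (k' i - k i))) (-(N * (k' i - k i))) 0 := by
      have h2 := ((hasDerivAt_id (0:ℝ)).mul_const (N * (k' i - k i))).const_sub (k i)
      simpa using h2
    have h2 : HasDerivAt (fun s => f (Function.update k i s)) (g i) (k i - 0 * (N * (k' i - k i))) := by
      simpa using hg i
    have h3 := h2.comp (0:ℝ) h1
    have h4 := (h3.const_sub (f k)).const_mul N⁻¹
    have h5 : N⁻¹ * -(g i * -(N * (k' i - k i))) = g i * (k' i - k i) := by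
      field_simp
    rw [h5] at h4
    have h6 : (fun τ => N⁻¹ * (f k - f (w i τ))) =
        fun y => N⁻¹ * (f k - ((fun s => f (Function.update k i s)) ∘
          fun τ : ℝ => k i - τ * (N * (k' i - k i))) y) := by
      funext y
      rw [hw']
      rfl
    rw [h6]
    exact h4
  have hkey : ∀ᶠ τ in 𝓝[>] (0:ℝ), f k' - f k ≤ slope (fun τ => ∑ i, N⁻¹ * (f k - f (w i τ))) 0 τ := by
    have hlt : ∀ᶠ τ in 𝓝[>] (0:ℝ), τ < 1 := by
      have h1 : ∀ᶠ τ in 𝓝 (0:ℝ), τ < 1 := eventually_lt_nhds (by norm_num)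
      exact h1.filter_mono nhdsWithin_le_nhds
    filter_upwards [hmem, hlt, self_mem_nhdsWithin] with τ h1 h2 h3
    have h3' : (0:ℝ) < τ := h3
    have hy : ∑ i, N⁻¹ • w i τ = k - τ • (k' - k) := by
      funext j
      rw [Finset.sum_apply]
      have h4 : ∀ i, (N⁻¹ • w i τ) j = N⁻¹ * k j - (if i = j then τ * (k' j - k j) else 0) := by
        intro i
        rw [Pi.smul_apply, hw', smul_eq_mul]
        by_cases hij : i = j
        · subst hij
          rw [Function.update_self, if_pos rfl]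
          field_simp
        · rw [Function.update_of_ne (Ne.symm hij), if_neg hij, sub_zero]
      rw [Finset.sum_congr rfl (fun i _ => h4 i), Finset.sum_sub_distrib, Finset.sum_const,
        Finset.sum_ite_eq' Finset.univ j, if_pos (Finset.mem_univ j), Finset.card_univ, nsmul_eq_mul,
        ← hN, mul_inv_cancel_left₀ hN0.ne']
      simp
    have hsum : ∑ _i : ι, N⁻¹ = 1 := by
      rw [Finset.sum_const, Finset.card_univ, nsmul_eq_mul, ← hN, mul_inv_cancel₀ hN0.ne']
    have hj := hf.le_map_sum (t := Finset.univ) (w := fun _ => N⁻¹) (p := fun i => w i τ)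
      (fun i _ => by positivity) hsum (fun i _ => h1 i)
    have hyD : k - τ • (k' - k) ∈ D := by
      rw [← hy]
      exact hf.1.sum_mem (fun i _ => by positivity) hsum (fun i _ => h1 i)
    have hzD : (1 - τ) • k + τ • k' ∈ D := hf.1 hk hk' (by linarith) h3'.le (by ring)
    have h5 := hf.2 hk hk' (by linarith : 0 ≤ 1 - τ) h3'.le (by ring)
    have h6 := hf.2 hzD hyD (by norm_num : (0:ℝ) ≤ 1 / 2) (by norm_num : (0:ℝ) ≤ 1 / 2) (by norm_num)
    have h7 : (1 / 2 : ℝ) • ((1 - τ) • k + τ • k') + (1 / 2 : ℝ) • (k - τ • (k' - k)) = k := by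
      funext j
      simp only [Pi.add_apply, Pi.smul_apply, Pi.sub_apply, smul_eq_mul]
      ring
    rw [h7] at h6
    simp only [smul_eq_mul] at h5 h6 hj
    rw [hy] at hj
    have h8 : ∑ i, N⁻¹ * (f k - f (w i τ)) = f k - ∑ i, N⁻¹ * f (w i τ) := by
      rw [← Finset.sum_congr rfl (fun i _ => (mul_sub N⁻¹ (f k) (f (w i τ))).symm),
        Finset.sum_sub_distrib, ← Finset.sum_mul, hsum, one_mul]
    have h9 : ∑ i, N⁻¹ * (f k - f (w i 0)) = 0 := by
      apply Finset.sum_eq_zero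
      intro i _
      rw [hw0, sub_self, mul_zero]
    rw [slope_def_field, h9, sub_zero, sub_zero, le_div_iff₀ h3', h8]
    linarith
  have hlim := (hasDerivWithinAt_iff_tendsto_slope' (self_notMem_Ioi (a := (0:ℝ)))).1
    (hder.hasDerivWithinAt (s := Ioi 0))
  have hfin := ge_of_tendsto hlim hkey
  linarith

end Pool.Agent.Lib.MP_1dedaf_gt.LB
end
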