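import Pool.Agent.Lib.MP_1dedaf_gt.Mg.G001
import Pool.Agent.Lib.MP_1dedaf_gt.Mg.G009
import Pool.Agent.Lib.MP_1dedaf_gt.Mg.G007
import Pool.Agent.Lib.MP_1dedaf_gt.Mg.G004
import Pool.Agent.Lib.MP_1dedaf_gt.Mg.G010
import Pool.Agent.Lib.MP_1dedaf_gt.LB.C2b
import Pool.Agent.Lib.MP_1dedaf_gt.LB.A1
import Pool.Agent.Lib.MP_1dedaf_gt.LB.A3
import Pool.Agent.Lib.MP_1dedaf_gt.Mg.G016

section

/-!
# TASK LB C2c: integration by parts on an edge

`M = sg i / Z`, `A τ = A0 + a ∫_{lo}^τ dens`, `p τ = p0 + c (τ - lo)`. `a ∫ p dens = ∫ p A' = p(hi) A(hi) - p0 A0 - c ∫ A dτ`, `A(hi) = A0 + a M` (`dens_mass`), and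
`∫_{lo}^{hi} A dτ = ∫ (A/dens) dens dτ = M ∫_0^1 (A0 + σ a M)/(rh (i-1) + σ (rh i - rh (i-1))) dσ` by `mass_subst`
(`A = A0 + a M g`, `dens = rh (i-1) + g (rh i - rh (i-1))` with `g = (1/M) ∫_{lo}^τ dens ∈ [0,1]`, the denominator is positive on `[0,1]`).
-/

set_option autoImplicit false

open MeasureTheory Set Filter Topology

namespace Pool.Agent.Lib.MP_1dedaf_gt.LB

private theorem C2c_cont (n : ℕ) (k : ZMod n → ℝ) (θ : E2) (i : ZMod n) :
    Continuous fun τ => dens n k θ i τ := by
  unfold dens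
  refine Continuous.div_const (Real.continuous_exp.comp ?_) _
  exact continuous_const.inner (continuous_const.add (continuous_id.smul continuous_const))

theorem edge_parts (n : ℕ) [NeZero n] (hn : Odd n) (h3 : 3 ≤ n) {k : ZMod n → ℝ} {θ : E2} (hk : Fat (dir n) k)
    (hp : ∀ i, 0 < sg (dir n) k θ i) (i : ZMod n) (a A0 c p0 M : ℝ) (hM : M = sg (dir n) k θ i / Z (dir n) k θ) :
    a * ∫ τ in (lo n k i)..(hi n k i), (p0 + c * (τ - lo n k i)) * dens n k θ i τ =
      (p0 + c * (hi n k i - lo n k i)) * (A0 + a * M) - p0 * A0 -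
        c * (M * ∫ σ in (0:ℝ)..1, (A0 + σ * (a * M)) / (rh n k θ (i - 1) + σ * (rh n k θ i - rh n k θ (i - 1)))) := by
  have hZ : 0 < Z (dir n) k θ := Z_pos (dir_adm n hn h3) hk θ
  have hMpos : 0 < M := by
    rw [hM]
    exact div_pos (hp i) hZ
  have hr0 := rh_pos n hn h3 (θ := θ) hk (i - 1)
  have hr1 := rh_pos n hn h3 (θ := θ) hk i
  have hcont := C2c_cont n k θ i
  have hder : ∀ τ : ℝ, HasDerivAt (fun τ => A0 + a * ∫ x in (lo n k i)..τ, dens n k θ i x)
      (a * dens n k θ i τ) τ := by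
    intro τ
    exact ((intervalIntegral.integral_hasDerivAt_right (hcont.intervalIntegrable _ _)
      (hcont.stronglyMeasurableAtFilter _ _) hcont.continuousAt).const_mul a).const_add A0
  have hder2 : ∀ τ : ℝ, HasDerivAt (fun τ => p0 + c * (τ - lo n k i)) c τ := by
    intro τ
    have h1 := (((hasDerivAt_id τ).sub_const (lo n k i)).const_mul c).const_add p0
    simpa using h1
  have hparts := intervalIntegral.integral_mul_deriv_eq_deriv_mul
    (a := lo n k i) (b := hi n k i)
    (u := fun τ => p0 + c * (τ - lo n k i)) (u' := fun _ => c)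
    (v := fun τ => A0 + a * ∫ x in (lo n k i)..τ, dens n k θ i x)
    (v' := fun τ => a * dens n k θ i τ)
    (fun τ _ => hder2 τ) (fun τ _ => hder τ)
    (intervalIntegrable_const) ((continuous_const.mul hcont).intervalIntegrable _ _)
  have hmass := dens_mass n hn h3 hp i
  rw [← hM] at hmass
  have hF : ContinuousOn (fun σ : ℝ => (A0 + σ * (a * M)) /
      (rh n k θ (i - 1) + σ * (rh n k θ i - rh n k θ (i - 1)))) (Icc 0 1) := by
    refine ContinuousOn.div (by fun_prop) (by fun_prop) ?_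
    intro σ hσ
    have h1 : rh n k θ (i - 1) + σ * (rh n k θ i - rh n k θ (i - 1)) =
        (1 - σ) * rh n k θ (i - 1) + σ * rh n k θ i := by ring
    rw [h1]
    rcases eq_or_lt_of_le hσ.1 with h0 | h0
    · rw [← h0]
      simpa using hr0.ne'
    · have h2 : 0 ≤ (1 - σ) * rh n k θ (i - 1) := mul_nonneg (by linarith [hσ.2]) hr0.le
      have h4 : 0 < σ * rh n k θ i := mul_pos h0 hr1
      linarith
  have hsub := mass_subst n hn h3 hk hp i hF
  rw [← hM] at hsub
  have hint : ∫ τ in (lo n k i)..(hi n k i),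
      (A0 + a * ∫ x in (lo n k i)..τ, dens n k θ i x) =
      M * ∫ σ in (0:ℝ)..1, (A0 + σ * (a * M)) /
        (rh n k θ (i - 1) + σ * (rh n k θ i - rh n k θ (i - 1))) := by
    rw [← hsub]
    refine intervalIntegral.integral_congr fun τ _ => ?_
    have h1 := dens_eq n hn h3 k θ i τ
    have h2 := rh_diff n hn h3 hk hp i
    rw [← hM] at h2
    have h4 := dens_pos n hn h3 (θ := θ) hk i τ
    set J := ∫ x in (lo n k i)..τ, dens n k θ i x with hJ
    have h5 : rh n k θ (i - 1) + J / M * (rh n k θ i - rh n k θ (i - 1)) = dens n k θ i τ := by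
      rw [h2, h1]
      field_simp
    rw [h5, div_mul_cancel₀ _ h4.ne']
    field_simp
  have hself : ∫ x in (lo n k i)..(lo n k i), dens n k θ i x = 0 := intervalIntegral.integral_same
  simp only [hmass, hself, mul_zero, add_zero, sub_self] at hparts
  rw [intervalIntegral.integral_const_mul, hint] at hparts
  rw [← hparts, ← intervalIntegral.integral_const_mul]
  refine intervalIntegral.integral_congr fun τ _ => ?_
  ring

end Pool.Agent.Lib.MP_1dedaf_gt.LB
end

section

/-!
# TASK LB A4: concavity of log Z and the tangent inequality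

Proof. (`logZ_concave`) `log Z` is continuous on the open convex set `{Fat}` (`Z_cont`, `Z_pos`) and midpoint concave by
`Z_mid` (take logarithms; `(1/2) • (k + k') = fun i => (k i + k' i)/2`), so concave by `concaveOn_of_mid`.
(`Z_tangent`) `tangent_of_partials` with the partial derivatives `sg i / Z` of `log Z` (`Z_hasDerivAt`, `HasDerivAt.log`).
-/

set_option autoImplicit false

open MeasureTheory Set Filter Topology

namespace Pool.Agent.Lib.MP_1dedaf_gt.LB

variable {ι : Type} [Fintype ι]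

theorem logZ_concave {u : ι → E2} (hu : Adm u) (θ : E2) :
    ConcaveOn ℝ {k : ι → ℝ | Fat u k} (fun k => Real.log (Z u k θ)) := by
  refine concaveOn_of_mid (fat_convex u) ?_ ?_
  · refine ContinuousOn.log ?_ (fun k hk => (Z_pos hu hk θ).ne')
    exact ((Z_cont hu).comp (continuous_id.prodMk continuous_const)).continuousOn
  · intro x hx y hy
    have e : (1 / 2 : ℝ) • (x + y) = fun i => (x i + y i) / 2 := by
      ext i
      simp only [Pi.smul_apply, Pi.add_apply, smul_eq_mul]
      ring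
    have hm : Fat u ((1 / 2 : ℝ) • (x + y)) := by
      have h1 := fat_convex u hx hy (by norm_num : (0 : ℝ) ≤ 1 / 2) (by norm_num : (0 : ℝ) ≤ 1 / 2)
        (by norm_num)
      rw [← smul_add] at h1
      exact h1
    have hx0 := Z_pos hu hx θ
    have hy0 := Z_pos hu hy θ
    have hm0 := Z_pos hu hm θ
    have h2 := Z_mid hu x y θ
    rw [← e] at h2
    have h3 := Real.log_le_log (mul_pos hx0 hy0) h2
    rw [Real.log_mul hx0.ne' hy0.ne', Real.log_pow] at h3
    push_cast at h3
    show (Real.log (Z u x θ) + Real.log (Z u y θ)) / 2 ≤ Real.log (Z u ((1 / 2 : ℝ) • (x + y)) θ)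
    linarith

theorem Z_tangent {u : ι → E2} (hu : Adm u) {k k' : ι → ℝ} (hk : Fat u k) (hk' : Fat u k') (θ : E2) :
    Real.log (Z u k' θ) ≤ Real.log (Z u k θ) + ∑ i, sg u k θ i / Z u k θ * (k' i - k i) := by
  classical
  refine tangent_of_partials (fat_isOpen u) (logZ_concave hu θ) hk (fun i => ?_) hk'
  have h1 := Z_hasDerivAt hu k θ i
  have h2 := h1.log (by
    rw [Function.update_eq_self]
    exact (Z_pos hu hk θ).ne')
  rw [Function.update_eq_self] at h2
  exact h2

end Pool.Agent.Lib.MP_1dedaf_gt.LB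
end
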