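import Pool.Agent.Lib.MP_1dedaf_gt.Mg.G001
import Pool.Agent.Lib.MP_1dedaf_gt.Mg.G010
import Pool.Agent.Lib.MP_1dedaf_gt.LB.C2b
import Pool.Agent.Lib.MP_1dedaf_gt.Mg.G011
import Pool.Agent.Lib.MP_1dedaf_gt.DK.SDefs
import Pool.Agent.Lib.MP_1dedaf_gt.Mg.G007
import Pool.Agent.Lib.MP_1dedaf_gt.Mg.G004

section

/-!
# TASK LB C2: (done: imports)


-/

set_option autoImplicit false

open MeasureTheory Set Filter Topology

namespace Pool.Agent.Lib.MP_1dedaf_gt.LB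



end Pool.Agent.Lib.MP_1dedaf_gt.LB
end

section

/-!
# TASK DK B2: signs, lengths, masses, density

`n = 2 h + 1`, `h = (n-1)/2`. Proof. `sin_lo`: `0 < (j+1) δ < π` for `j < h`. `sin_up`: `π < (j+1) δ < 2 π` for `h ≤ j < n-1`.
`sg_pos`: `sg = T i * Z`, `0 < Z` (`Z_pos` in LB or `setIntegral_pos`; see how LB.C2a/C6 do it: `rh_pos` gives `0 < 1/Z` because the exponential is
positive). `len_pos`: if `hi i ≤ lo i` the interval integral `∫_{lo}^{hi} dens` of the positive function `dens` is `≤ 0`, but it is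
`sg / Z > 0` (`dens_mass`, `dens_pos`). `mass_T`: `dens_mass` with `sg / Z = T i`. `dens_sv`: `<θ, z> = <θ, u s> <z, u s> + <θ, rot (u s)> <z, rot (u s)>`
with `x = k s - <z, u s>`, `y = - <z, rot (u s)>`, so `exp <θ, z> = exp (k s <θ, u s>) exp (p x + q y)`. `rr_eq`: the same at a vertex.
`sC_pos`: as `0 < Z`.
-/

set_option autoImplicit false

open MeasureTheory Set Filter Topology

namespace Pool.Agent.Lib.MP_1dedaf_gt.DK

open Pool.Agent.Lib.MP_1dedaf_gt.LB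

private theorem B2_inner_frame (u θ z : E2) (hu : ‖u‖ = 1) :
    inner ℝ θ z = inner ℝ θ u * inner ℝ z u + inner ℝ θ (rot u) * inner ℝ z (rot u) := by
  have h1 : u 0 ^ 2 + u 1 ^ 2 = 1 := by
    have h := EuclideanSpace.real_norm_sq_eq u
    rw [Fin.sum_univ_two, hu] at h
    linarith
  simp only [PiLp.inner_apply, rot, Fin.sum_univ_two, RCLike.inner_apply, conj_trivial]
  simp
  linear_combination (-(z 0 * θ 0 + z 1 * θ 1)) * h1

private theorem B2_exp (u θ z : E2) (hu : ‖u‖ = 1) (κ : ℝ) :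
    Real.exp (inner ℝ θ z) = Real.exp (κ * inner ℝ θ u) *
      Real.exp (- inner ℝ θ u * (κ - inner ℝ z u) + - inner ℝ θ (rot u) * (- inner ℝ z (rot u))) := by
  rw [← Real.exp_add]
  congr 1
  rw [B2_inner_frame u θ z hu]
  ring

private theorem B2_Z_pos (n : ℕ) [NeZero n] (hn : Odd n) (h3 : 3 ≤ n) {k : ZMod n → ℝ} {θ : E2}
    (hk : Fat (dir n) k) : 0 < Z (dir n) k θ := by
  have h := rh_pos n hn h3 (θ := θ) hk 0
  unfold rh at h
  exact (div_pos_iff_of_pos_left (Real.exp_pos _)).1 h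

theorem sin_lo (n : ℕ) [NeZero n] (hn : Odd n) (h3 : 3 ≤ n) (j : ℕ) (hj : j < (n - 1) / 2) :
    0 < Real.sin ((j + 1 : ℕ) * dl n) := by
  have h1 : 2 * (j + 1) < n := by omega
  have h2 : (2 : ℝ) * ((j + 1 : ℕ) : ℝ) < n := by exact_mod_cast h1
  have hn0 : (0 : ℝ) < n := by
    have : 0 < n := by omega
    exact_mod_cast this
  have hj0 : (0 : ℝ) < ((j + 1 : ℕ) : ℝ) := by positivity
  unfold dl
  apply Real.sin_pos_of_pos_of_lt_pi
  · have := Real.pi_pos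
    positivity
  · have e : ((j + 1 : ℕ) : ℝ) * (2 * Real.pi / n) = (2 * ((j + 1 : ℕ) : ℝ) / n) * Real.pi := by ring
    rw [e]
    have : 2 * ((j + 1 : ℕ) : ℝ) / n < 1 := by rwa [div_lt_one hn0]
    nlinarith [Real.pi_pos]

theorem sin_up (n : ℕ) [NeZero n] (hn : Odd n) (h3 : 3 ≤ n) (j : ℕ) (hj : (n - 1) / 2 ≤ j) (hj2 : j < n - 1) :
    Real.sin ((j + 1 : ℕ) * dl n) < 0 := by
  obtain ⟨m, hm⟩ := hn
  have h1 : n < 2 * (j + 1) := by omega
  have h2 : (n : ℝ) < (2 : ℝ) * ((j + 1 : ℕ) : ℝ) := by exact_mod_cast h1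
  have h3' : ((j + 1 : ℕ) : ℝ) < n := by
    have : j + 1 < n := by omega
    exact_mod_cast this
  have hn0 : (0 : ℝ) < n := by
    have : 0 < n := by omega
    exact_mod_cast this
  unfold dl
  have e : ((j + 1 : ℕ) : ℝ) * (2 * Real.pi / n) =
      (2 * ((j + 1 : ℕ) : ℝ) / n - 1) * Real.pi + Real.pi := by ring
  rw [e, Real.sin_add_pi]
  have hp := Real.pi_pos
  have ha : 0 < 2 * ((j + 1 : ℕ) : ℝ) / n - 1 := by
    rw [sub_pos, one_lt_div hn0]
    exact h2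
  have hb : 2 * ((j + 1 : ℕ) : ℝ) / n - 1 < 1 := by
    have : 2 * ((j + 1 : ℕ) : ℝ) / n < 2 := by
      rw [div_lt_iff₀ hn0]
      linarith
    linarith
  have : 0 < Real.sin ((2 * ((j + 1 : ℕ) : ℝ) / n - 1) * Real.pi) := by
    apply Real.sin_pos_of_pos_of_lt_pi
    · positivity
    · nlinarith
  linarith

theorem sg_pos (n : ℕ) [NeZero n] (hn : Odd n) (h3 : 3 ≤ n) {T k : ZMod n → ℝ} (hT : ∀ i, 0 < T i)
    (ho : Opt (dir n) T k) (i : ZMod n) : 0 < sg (dir n) k (th (dir n) T) i ∧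
      sg (dir n) k (th (dir n) T) i / Z (dir n) k (th (dir n) T) = T i ∧ 0 < Z (dir n) k (th (dir n) T) := by
  have hZ : 0 < Z (dir n) k (th (dir n) T) := B2_Z_pos n hn h3 ho.fat
  refine ⟨?_, ?_, hZ⟩
  · rw [ho.mass i]
    exact mul_pos (hT i) hZ
  · rw [ho.mass i, mul_div_assoc, div_self hZ.ne', mul_one]

theorem len_pos (n : ℕ) [NeZero n] (hn : Odd n) (h3 : 3 ≤ n) {T k : ZMod n → ℝ} (hT : ∀ i, 0 < T i)
    (ho : Opt (dir n) T k) (i : ZMod n) : lo n k i < hi n k i :=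
  (len_of_pos n hn h3 (fun i => (sg_pos n hn h3 hT ho i).1) i).1

theorem mass_T (n : ℕ) [NeZero n] (hn : Odd n) (h3 : 3 ≤ n) {T k : ZMod n → ℝ} (hT : ∀ i, 0 < T i)
    (ho : Opt (dir n) T k) (i : ZMod n) :
    ∫ x in (lo n k i)..(hi n k i), dens n k (th (dir n) T) i x = T i := by
  rw [dens_mass n hn h3 (fun i => (sg_pos n hn h3 hT ho i).1) i]
  exact (sg_pos n hn h3 hT ho i).2.1

theorem dens_sv (n : ℕ) [NeZero n] (hn : Odd n) (h3 : 3 ≤ n) (k : ZMod n → ℝ) (θ : E2) (s i : ZMod n) (τ : ℝ) :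
    dens n k θ i τ = sC n k θ s *
      Real.exp ((sv n k θ s).p * (k s - inner ℝ (k i • dir n i + τ • rot (dir n i)) (dir n s)) +
        (sv n k θ s).q * (- inner ℝ (k i • dir n i + τ • rot (dir n i)) (rot (dir n s)))) := by
  unfold dens sC
  rw [B2_exp (dir n s) θ (k i • dir n i + τ • rot (dir n i)) (dir_norm n s) (k s)]
  simp only [sv]
  ring

theorem rr_eq (n : ℕ) [NeZero n] (hn : Odd n) (h3 : 3 ≤ n) (T k : ZMod n → ℝ) (s : ZMod n) (j : ℕ) :
    rr n T k s j = sC n k (th (dir n) T) s *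
      Real.exp ((sv n k (th (dir n) T) s).p * sx n k s j + (sv n k (th (dir n) T) s).q * sy n k s j) := by
  unfold rr rh sC
  rw [B2_exp (dir n s) (th (dir n) T) (ver n k (s + (j : ℕ))) (dir_norm n s) (k s)]
  simp only [sv, sx, sy]
  ring

theorem sC_pos (n : ℕ) [NeZero n] (hn : Odd n) (h3 : 3 ≤ n) {T k : ZMod n → ℝ} (hT : ∀ i, 0 < T i)
    (ho : Opt (dir n) T k) (s : ZMod n) : 0 < sC n k (th (dir n) T) s := by
  unfold sC
  exact div_pos (Real.exp_pos _) (sg_pos n hn h3 hT ho s).2.2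

end Pool.Agent.Lib.MP_1dedaf_gt.DK
end
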