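import Pool.Agent.Lib.MP_1dedaf_gt.DK.Reg
import Pool.Agent.Lib.MP_1dedaf_gt.DK.A0
import Pool.Agent.Lib.MP_1dedaf_gt.DK.A3
import Pool.Agent.Lib.MP_1dedaf_gt.Mg.G004
import Pool.Agent.Lib.MP_1dedaf_gt.DK.C1b
import Pool.Agent.Lib.MP_1dedaf_gt.Mg.G003
import Pool.Agent.Lib.MP_1dedaf_gt.DK.A4
import Pool.Agent.Lib.MP_1dedaf_gt.DK.Goals
import Pool.Agent.Lib.MP_1dedaf_gt.Mg.G001
import Pool.Agent.Lib.MP_1dedaf_gt.Mg.G009
import Pool.Agent.Lib.MP_1dedaf_gt.Mg.G007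
import Pool.Agent.Lib.MP_1dedaf_gt.Mg.G012

section

/-!
# TASK DK C1c: the two decompositions

Proof. `box_dec`: for `(x, y)` in the body, `∫_{[0,x]×[0,y]} den = ee p x * ee q y`; by `cover`, `disj` the box is (up to null sets) the disjoint union of the part `{y0 < l x0}` (mass `∫_0^x (∫_0^{l t} e^{q y0} dy0) e^{p t} dt`, because
`l t ≤ l x ≤ y` for `t ≤ x`; inner integral `ee q (l t)`), the part `{x0 < g y0}` (mirror) and `S ∩ box`, and the mass of `S ∩ box` is `M - mne x 0 - mne 0 y + mne x y`. With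
`∫_0^x e^{p t} ee q (l t) dt = (Xl x - ee p x)/q` (and the mirror image) this is the claim. `fub`: Fubini for `(z, z')`, `z ∈ [0,w]×[0,h]`, `z' ∈ S`, `z ≤ z'` of the function `den z' / den z` (bounded, compact region):
integrate first over `z`: `∫_0^{x'} e^{-p t} dt = ee (-p) x'`. `part`: the box `[0,w]×[0,h]` is the disjoint union of `S`, `{y < l x}`, `{x < g y}` and a rest where `mne = 0` (`no_ne`); on `{y < l x}`:
`mne x y = mne x 0` (`below`), on `{x < g y}`: `mne x y = mne 0 y` (`left`); iterated integrals by Fubini, `mne` is continuous (or measurable and bounded).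
-/

set_option autoImplicit false

open MeasureTheory Set Filter Topology

namespace Pool.Agent.Lib.MP_1dedaf_gt.DK

namespace Bd

private theorem C1c_ee {k : ℝ} (hk : k ≠ 0) (x : ℝ) : ∫ t in (0:ℝ)..x, Real.exp (k * t) = ee k x := by
  rw [intervalIntegral.integral_comp_mul_left (fun t => Real.exp t) hk, integral_exp]
  unfold ee
  rw [mul_zero, Real.exp_zero, smul_eq_mul]
  ring

private theorem C1c_Icc {a b : ℝ} (hab : a ≤ b) (f : ℝ → ℝ) : ∫ t in Icc a b, f t = ∫ t in a..b, f t := by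
  rw [integral_Icc_eq_integral_Ioc, intervalIntegral.integral_of_le hab]

private theorem C1c_Ico {a b : ℝ} (hab : a ≤ b) (f : ℝ → ℝ) : ∫ t in Ico a b, f t = ∫ t in a..b, f t := by
  rw [integral_Ico_eq_integral_Ioo, ← integral_Ioc_eq_integral_Ioo, intervalIntegral.integral_of_le hab]

/-- the region under a graph -/
private def C1c_U (l : ℝ → ℝ) (I : Set ℝ) : Set (ℝ × ℝ) := {z | z.1 ∈ I ∧ 0 ≤ z.2 ∧ z.2 < l z.1}

private theorem C1c_U_meas {l : ℝ → ℝ} (cl : Continuous l) {I : Set ℝ} (hI : MeasurableSet I) : MeasurableSet (C1c_U l I) := by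
  have h1 : MeasurableSet {z : ℝ × ℝ | z.1 ∈ I} := measurable_fst hI
  have h2 : MeasurableSet {z : ℝ × ℝ | 0 ≤ z.2} := measurableSet_le measurable_const measurable_snd
  have h3 : MeasurableSet {z : ℝ × ℝ | z.2 < l z.1} := measurableSet_lt measurable_snd (cl.measurable.comp measurable_fst)
  exact h1.inter (h2.inter h3)

private theorem C1c_under {l : ℝ → ℝ} (cl : Continuous l) {a : ℝ} {I : Set ℝ} (hI : MeasurableSet I) (hIa : I ⊆ Icc 0 a)
    (hl : ∀ x ∈ I, 0 ≤ l x) {F : ℝ × ℝ → ℝ} (hF : Continuous F) :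
    IntegrableOn F (C1c_U l I) ∧ ∫ z in C1c_U l I, F z = ∫ x in I, ∫ y in (0:ℝ)..(l x), F (x, y) := by
  obtain ⟨L, hL⟩ := (isCompact_Icc (a := (0:ℝ)) (b := a)).exists_bound_of_continuousOn cl.continuousOn
  have hsub : C1c_U l I ⊆ Icc 0 a ×ˢ Icc 0 L := by
    rintro z ⟨h1, h2, h3⟩
    refine ⟨hIa h1, h2, ?_⟩
    have := (le_abs_self _).trans (hL z.1 (hIa h1))
    linarith
  have hint : IntegrableOn F (C1c_U l I) :=
    (hF.continuousOn.integrableOn_compact (isCompact_Icc.prod isCompact_Icc)).mono_set hsub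
  refine ⟨hint, ?_⟩
  have hm := C1c_U_meas cl hI
  rw [← integral_indicator hm, Measure.volume_eq_prod, integral_prod]
  · rw [← integral_indicator hI]
    refine integral_congr_ae (Filter.Eventually.of_forall fun x => ?_)
    beta_reduce
    by_cases hx : x ∈ I
    · rw [indicator_of_mem hx, ← C1c_Ico (hl x hx), ← integral_indicator measurableSet_Ico]
      refine integral_congr_ae (Filter.Eventually.of_forall fun y => ?_)
      beta_reduce
      by_cases hy : y ∈ Ico 0 (l x)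
      · rw [indicator_of_mem hy, indicator_of_mem (show (x, y) ∈ C1c_U l I from ⟨hx, hy.1, hy.2⟩)]
      · rw [indicator_of_notMem hy, indicator_of_notMem]
        rintro ⟨-, h2, h3⟩
        exact hy ⟨h2, h3⟩
    · rw [indicator_of_notMem hx]
      have : ∀ y : ℝ, (C1c_U l I).indicator F (x, y) = 0 := fun y => indicator_of_notMem (fun h => hx h.1) _
      simp only [this, integral_zero]
  · rw [← Measure.volume_eq_prod]
    exact hint.integrable_indicator hm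

private theorem C1c_swap (s : Set (ℝ × ℝ)) (F : ℝ × ℝ → ℝ) : ∫ z in s, F z = ∫ z in Prod.swap ⁻¹' s, F z.swap := by
  have h : MeasurePreserving (Prod.swap : ℝ × ℝ → ℝ × ℝ) volume volume := by
    rw [Measure.volume_eq_prod]
    exact Measure.measurePreserving_swap
  exact (h.setIntegral_preimage_emb MeasurableEquiv.prodComm.measurableEmbedding F s).symm

private theorem C1c_den_cont (K : Bd) : Continuous K.den := by
  unfold den
  fun_prop

private theorem C1c_den_pos (K : Bd) (z : ℝ × ℝ) : 0 < K.den z := Real.exp_pos _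

private theorem C1c_den_int (K : Bd) (h : K.Ok) {s : Set (ℝ × ℝ)} (hs : s ⊆ K.S) : IntegrableOn K.den s :=
  ((C1c_den_cont K).continuousOn.integrableOn_compact (S_compact K h).1).mono_set hs

/-- `mne` is bounded and measurable. -/
theorem mne_meas (K : Bd) (h : K.CF) : Measurable (fun z : ℝ × ℝ => K.mne z.1 z.2) ∧ ∀ x y, 0 ≤ K.mne x y ∧ K.mne x y ≤ K.col.M := by
  have hS := (S_compact K h.toOk).2
  refine ⟨?_, fun x y => ⟨?_, ?_⟩⟩
  · have h1 : (fun z : ℝ × ℝ => K.mne z.1 z.2) = fun z => ∫ z' : ℝ × ℝ,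
        ({w : (ℝ × ℝ) × (ℝ × ℝ) | w.2 ∈ K.S ∧ w.1.1 ≤ w.2.1 ∧ w.1.2 ≤ w.2.2}.indicator (fun w => K.den w.2)) (z, z') := by
      funext z
      unfold mne
      rw [← integral_indicator (hS.inter (measurableSet_Ici.prod measurableSet_Ici))]
      rfl
    rw [h1]
    have h2 : Measurable ({w : (ℝ × ℝ) × (ℝ × ℝ) | w.2 ∈ K.S ∧ w.1.1 ≤ w.2.1 ∧ w.1.2 ≤ w.2.2}.indicator (fun w => K.den w.2)) := by
      refine ((C1c_den_cont K).measurable.comp measurable_snd).indicator ?_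
      refine (measurable_snd hS).inter (MeasurableSet.inter ?_ ?_)
      · exact measurableSet_le (measurable_fst.comp measurable_fst) (measurable_fst.comp measurable_snd)
      · exact measurableSet_le (measurable_snd.comp measurable_fst) (measurable_snd.comp measurable_snd)
    exact (h2.stronglyMeasurable.integral_prod_right' (ν := (volume : Measure (ℝ × ℝ)))).measurable
  · unfold mne
    exact integral_nonneg fun z => (C1c_den_pos K z).le
  · unfold mne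
    rw [M_set K h.toOk]
    exact setIntegral_mono_set (C1c_den_int K h.toOk (Subset.refl _)) (Filter.Eventually.of_forall fun z => (C1c_den_pos K z).le)
      (Filter.Eventually.of_forall inter_subset_left)

private theorem C1c_rect (K : Bd) (h : K.Ok) {a b : ℝ} (ha : 0 ≤ a) (hb : 0 ≤ b) :
    ∫ z in (Icc 0 a ×ˢ Icc 0 b), (K.den z)⁻¹ = ee (-K.p) a * ee (-K.q) b := by
  have h1 : ∀ z : ℝ × ℝ, (K.den z)⁻¹ = Real.exp (-K.p * z.1) * Real.exp (-K.q * z.2) := by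
    intro z
    unfold den
    rw [← Real.exp_neg, ← Real.exp_add]
    congr 1
    ring
  simp only [h1]
  rw [Measure.volume_eq_prod, setIntegral_prod_mul (fun x => Real.exp (-K.p * x)) (fun y => Real.exp (-K.q * y)), C1c_Icc ha, C1c_Icc hb,
    C1c_ee (neg_ne_zero.mpr h.hp), C1c_ee (neg_ne_zero.mpr h.hq)]

private theorem C1c_rect' (K : Bd) (h : K.Ok) {a b : ℝ} (ha : 0 ≤ a) (hb : 0 ≤ b) :
    ∫ z in (Ico 0 a ×ˢ Ico 0 b), K.den z = ee K.p a * ee K.q b := by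
  have h1 : ∀ z : ℝ × ℝ, K.den z = Real.exp (K.p * z.1) * Real.exp (K.q * z.2) := by
    intro z
    unfold den
    rw [← Real.exp_add]
  simp only [h1]
  rw [Measure.volume_eq_prod, setIntegral_prod_mul (fun x => Real.exp (K.p * x)) (fun y => Real.exp (K.q * y)), C1c_Ico ha, C1c_Ico hb,
    C1c_ee h.hp, C1c_ee h.hq]

theorem fub (K : Bd) (h : K.CF) :
    ∫ z in (Icc 0 K.w ×ˢ Icc 0 K.h), K.mne z.1 z.2 / K.den z = ∫ z in K.S, K.den z * (ee (-K.p) z.1 * ee (-K.q) z.2) := by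
  obtain ⟨hSc, hSm⟩ := S_compact K h.toOk
  have hB : IsCompact (Icc 0 K.w ×ˢ Icc 0 K.h : Set (ℝ × ℝ)) := isCompact_Icc.prod isCompact_Icc
  have hBm : MeasurableSet (Icc 0 K.w ×ˢ Icc 0 K.h : Set (ℝ × ℝ)) := measurableSet_Icc.prod measurableSet_Icc
  have hE : MeasurableSet {w : (ℝ × ℝ) × (ℝ × ℝ) | w.1.1 ≤ w.2.1 ∧ w.1.2 ≤ w.2.2} := by
    refine MeasurableSet.inter ?_ ?_
    · exact measurableSet_le (measurable_fst.comp measurable_fst) (measurable_fst.comp measurable_snd)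
    · exact measurableSet_le (measurable_snd.comp measurable_fst) (measurable_snd.comp measurable_snd)
  obtain ⟨f, hf⟩ : ∃ f : (ℝ × ℝ) → (ℝ × ℝ) → ℝ, f = fun z z' =>
      ({w : (ℝ × ℝ) × (ℝ × ℝ) | w.1.1 ≤ w.2.1 ∧ w.1.2 ≤ w.2.2}.indicator (fun w => K.den w.2 * (K.den w.1)⁻¹)) (z, z') := ⟨_, rfl⟩
  have hcont : Continuous (fun w : (ℝ × ℝ) × (ℝ × ℝ) => K.den w.2 * (K.den w.1)⁻¹) := by
    refine ((C1c_den_cont K).comp continuous_snd).mul (((C1c_den_cont K).comp continuous_fst).inv₀ fun w => (C1c_den_pos K _).ne')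
  have hint : Integrable (Function.uncurry f) ((volume.restrict (Icc 0 K.w ×ˢ Icc 0 K.h)).prod (volume.restrict K.S)) := by
    have h1 : Function.uncurry f = {w : (ℝ × ℝ) × (ℝ × ℝ) | w.1.1 ≤ w.2.1 ∧ w.1.2 ≤ w.2.2}.indicator (fun w => K.den w.2 * (K.den w.1)⁻¹) := by
      rw [hf]
      rfl
    rw [h1, Measure.prod_restrict]
    refine Integrable.indicator ?_ hE
    exact hcont.continuousOn.integrableOn_compact (hB.prod hSc)
  have hswap := integral_integral_swap hint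
  have hL : ∀ z, ∫ z' in K.S, f z z' = K.mne z.1 z.2 / K.den z := by
    intro z
    have h1 : ∀ z', f z z' = (Ici z.1 ×ˢ Ici z.2).indicator (fun z' => K.den z' * (K.den z)⁻¹) z' := by
      intro z'
      rw [hf]
      rfl
    simp only [h1]
    rw [setIntegral_indicator (measurableSet_Ici.prod measurableSet_Ici), integral_mul_const]
    rfl
  have hR : ∀ z' ∈ K.S, ∫ z in (Icc 0 K.w ×ˢ Icc 0 K.h), f z z' = K.den z' * (ee (-K.p) z'.1 * ee (-K.q) z'.2) := by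
    intro z' hz'
    have hz1 : K.mem z'.1 z'.2 := hz'
    have hz2 := (h.iff _ _).1 hz1
    have h1 : ∀ z, f z z' = (Iic z'.1 ×ˢ Iic z'.2).indicator (fun z => K.den z' * (K.den z)⁻¹) z := by
      intro z
      rw [hf]
      rfl
    simp only [h1]
    rw [setIntegral_indicator (measurableSet_Iic.prod measurableSet_Iic), integral_const_mul]
    have h2 : (Icc 0 K.w ×ˢ Icc 0 K.h) ∩ (Iic z'.1 ×ˢ Iic z'.2) = Icc 0 z'.1 ×ˢ Icc 0 z'.2 := by
      ext z
      constructor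
      · rintro ⟨⟨h3, h4⟩, h5, h6⟩
        exact ⟨⟨h3.1, h5⟩, ⟨h4.1, h6⟩⟩
      · rintro ⟨h3, h4⟩
        exact ⟨⟨⟨h3.1, h3.2.trans hz1.2.1⟩, ⟨h4.1, h4.2.trans hz2.2.1⟩⟩, h3.2, h4.2⟩
    rw [h2, C1c_rect K h.toOk hz1.1 hz2.1]
  simp only [hL] at hswap
  rw [hswap]
  exact setIntegral_congr_fun hSm hR

private theorem C1c_inner (K : Bd) (h : K.Ok) (c x a : ℝ) :
    ∫ y in (0:ℝ)..a, c * (K.den (x, y))⁻¹ = c * (Real.exp (- (K.p * x)) * ee (-K.q) a) := by
  have h1 : ∀ y : ℝ, c * (K.den (x, y))⁻¹ = c * Real.exp (- (K.p * x)) * Real.exp (-K.q * y) := by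
    intro y
    unfold den
    rw [← Real.exp_neg, mul_assoc, ← Real.exp_add]
    congr 2
    ring
  simp only [h1]
  rw [intervalIntegral.integral_const_mul, C1c_ee (neg_ne_zero.mpr h.hq), mul_assoc]

private theorem C1c_inner' (K : Bd) (h : K.Ok) (c y a : ℝ) :
    ∫ x in (0:ℝ)..a, c * (K.den (x, y))⁻¹ = c * (Real.exp (- (K.q * y)) * ee (-K.p) a) := by
  have h1 : ∀ x : ℝ, c * (K.den (x, y))⁻¹ = c * Real.exp (- (K.q * y)) * Real.exp (-K.p * x) := by
    intro x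
    unfold den
    rw [← Real.exp_neg, mul_assoc, ← Real.exp_add]
    congr 2
    ring
  simp only [h1]
  rw [intervalIntegral.integral_const_mul, C1c_ee (neg_ne_zero.mpr h.hp), mul_assoc]

theorem part (K : Bd) (h : K.CF) :
    ∫ z in (Icc 0 K.w ×ˢ Icc 0 K.h), K.mne z.1 z.2 / K.den z = (∫ z in K.S, K.mne z.1 z.2 / K.den z) +
      (∫ x in (0:ℝ)..K.w, K.col.mr x * (Real.exp (- (K.p * x)) * ee (-K.q) (K.l x))) +
      ∫ y in (0:ℝ)..K.h, K.row.mr y * (Real.exp (- (K.q * y)) * ee (-K.p) (K.g y)) := by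
  obtain ⟨hSc, hSm⟩ := S_compact K h.toOk
  obtain ⟨hmeas, hbd⟩ := mne_meas K h
  obtain ⟨f1, f2, f3, f4, f5, f6, f7, f8, f9, f10, f11, f12, f13⟩ := cf_facts K h
  have hB : IsCompact (Icc 0 K.w ×ˢ Icc 0 K.h : Set (ℝ × ℝ)) := isCompact_Icc.prod isCompact_Icc
  have hBm : MeasurableSet (Icc 0 K.w ×ˢ Icc 0 K.h : Set (ℝ × ℝ)) := measurableSet_Icc.prod measurableSet_Icc
  have hSB : K.S ⊆ Icc 0 K.w ×ˢ Icc 0 K.h := by
    intro z hz
    have hz1 : K.mem z.1 z.2 := hz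
    have hz2 := (h.iff _ _).1 hz1
    exact ⟨⟨hz1.1, hz1.2.1⟩, ⟨hz2.1, hz2.2.1⟩⟩
  obtain ⟨φ, hφ⟩ : ∃ φ : ℝ × ℝ → ℝ, φ = fun z => K.mne z.1 z.2 / K.den z := ⟨_, rfl⟩
  have hφi : IntegrableOn φ (Icc 0 K.w ×ˢ Icc 0 K.h) := by
    have h1 : IntegrableOn (fun z => (K.den z)⁻¹) (Icc 0 K.w ×ˢ Icc 0 K.h) :=
      ((C1c_den_cont K).inv₀ fun z => (C1c_den_pos K z).ne').continuousOn.integrableOn_compact hB
    have h2 : IntegrableOn (fun z => K.mne z.1 z.2 * (K.den z)⁻¹) (Icc 0 K.w ×ˢ Icc 0 K.h) := by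
      refine Integrable.bdd_mul (c := K.col.M) h1 hmeas.aestronglyMeasurable (Filter.Eventually.of_forall fun z => ?_)
      rw [Real.norm_of_nonneg (hbd _ _).1]
      exact (hbd _ _).2
    rw [hφ]
    exact h2
  have hA'm : MeasurableSet {z : ℝ × ℝ | z.2 < K.l z.1} := measurableSet_lt measurable_snd (h.cl.measurable.comp measurable_fst)
  have hB'm : MeasurableSet {z : ℝ × ℝ | z.1 < K.g z.2} := measurableSet_lt measurable_fst (h.cg.measurable.comp measurable_snd)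
  have e1 := integral_inter_add_sdiff (μ := volume) hSm hφi
  have hD1i : IntegrableOn φ ((Icc 0 K.w ×ˢ Icc 0 K.h) \ K.S) := hφi.mono_set sdiff_subset
  have e2 := integral_inter_add_sdiff (μ := volume) hA'm hD1i
  have hD2i : IntegrableOn φ (((Icc 0 K.w ×ˢ Icc 0 K.h) \ K.S) \ {z : ℝ × ℝ | z.2 < K.l z.1}) := hD1i.mono_set sdiff_subset
  have e3 := integral_inter_add_sdiff (μ := volume) hB'm hD2i
  have s1 : (Icc 0 K.w ×ˢ Icc 0 K.h) ∩ K.S = K.S := inter_eq_right.mpr hSB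
  have s2 : ((Icc 0 K.w ×ˢ Icc 0 K.h) \ K.S) ∩ {z : ℝ × ℝ | z.2 < K.l z.1} = C1c_U K.l (Icc 0 K.w) := by
    ext z
    constructor
    · rintro ⟨⟨⟨h1, h2⟩, h3⟩, h4⟩
      exact ⟨h1, h2.1, h4⟩
    · rintro ⟨h1, h2, h3⟩
      have h4 : K.mem z.1 (K.l z.1) := ⟨h1.1, h1.2, le_rfl, h.lu _ h1⟩
      have h5 := ((h.iff _ _).1 h4).2.1
      have h6 : z.2 ∈ Icc 0 K.h := ⟨h2, h3.le.trans h5⟩
      exact ⟨⟨⟨h1, h6⟩, (disj K h z.1 z.2 h1 h6).2.1 h3⟩, h3⟩
  have s3 : (((Icc 0 K.w ×ˢ Icc 0 K.h) \ K.S) \ {z : ℝ × ℝ | z.2 < K.l z.1}) ∩ {z : ℝ × ℝ | z.1 < K.g z.2} =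
      Prod.swap ⁻¹' C1c_U K.g (Icc 0 K.h) := by
    ext z
    constructor
    · rintro ⟨⟨⟨⟨h1, h2⟩, h3⟩, h4⟩, h5⟩
      exact ⟨h2, h1.1, h5⟩
    · rintro ⟨h1, h2, h3⟩
      have h1' : z.2 ∈ Icc 0 K.h := h1
      have h2' : 0 ≤ z.1 := h2
      have h3' : z.1 < K.g z.2 := h3
      have h4 : K.mem (K.g z.2) z.2 := (h.iff _ _).2 ⟨h1'.1, h1'.2, le_rfl, h.gr _ h1'⟩
      have h6 : z.1 ∈ Icc 0 K.w := ⟨h2', h3'.le.trans h4.2.1⟩
      have h7 := disj K h z.1 z.2 h6 h1'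
      exact ⟨⟨⟨⟨h6, h1'⟩, h7.2.2 h3'⟩, fun h8 => h7.1 ⟨h8, h3'⟩⟩, h3'⟩
  have i4 : ∫ z in (((Icc 0 K.w ×ˢ Icc 0 K.h) \ K.S) \ {z : ℝ × ℝ | z.2 < K.l z.1}) \ {z : ℝ × ℝ | z.1 < K.g z.2}, φ z = 0 := by
    refine setIntegral_eq_zero_of_forall_eq_zero ?_
    rintro z ⟨⟨⟨⟨h1, h2⟩, h3⟩, h4⟩, h5⟩
    have h4' : K.l z.1 ≤ z.2 := not_lt.mp h4
    have h5' : K.g z.2 ≤ z.1 := not_lt.mp h5
    have h6 : K.mne z.1 z.2 = 0 := by
      unfold mne
      have h7 : K.S ∩ (Ici z.1 ×ˢ Ici z.2) = ∅ := by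
        rw [eq_empty_iff_forall_notMem]
        rintro z' ⟨h8, h9, h10⟩
        exact no_ne K h z.1 z.2 z'.1 z'.2 h1 h2 h4' h5' h3 h9 h10 h8
      rw [h7]
      simp
    rw [hφ]
    simp only [h6, zero_div]
  have i2 : ∫ z in C1c_U K.l (Icc 0 K.w), φ z = ∫ x in (0:ℝ)..K.w, K.col.mr x * (Real.exp (- (K.p * x)) * ee (-K.q) (K.l x)) := by
    have hc : Continuous (fun z : ℝ × ℝ => K.col.mr z.1 * (K.den z)⁻¹) :=
      ((Dat.mr_cont K.col h.cl h.cu).comp continuous_fst).mul ((C1c_den_cont K).inv₀ fun z => (C1c_den_pos K z).ne')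
    have h1 : ∫ z in C1c_U K.l (Icc 0 K.w), φ z = ∫ z in C1c_U K.l (Icc 0 K.w), K.col.mr z.1 * (K.den z)⁻¹ := by
      refine setIntegral_congr_fun (C1c_U_meas h.cl measurableSet_Icc) ?_
      rintro z ⟨h2, h3, h4⟩
      have h5 : K.mne z.1 z.2 = K.mne z.1 0 := by
        unfold mne
        congr 2
        ext z'
        constructor
        · rintro ⟨h6, h7, h8⟩
          exact ⟨h6, h7, h3.trans h8⟩
        · rintro ⟨h6, h7, h8⟩
          exact ⟨h6, h7, below K h z.1 z.2 z'.1 z'.2 h2 h4 h7 h6⟩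
      rw [hφ]
      simp only [h5]
      rw [mr_set K h.toOk z.1 h2, div_eq_mul_inv]
    rw [h1, (C1c_under h.cl measurableSet_Icc (Subset.refl _) (fun x hx => f5 x hx) hc).2, C1c_Icc h.hw.le]
    refine intervalIntegral.integral_congr fun x _ => ?_
    exact C1c_inner K h.toOk (K.col.mr x) x (K.l x)
  have i3 : ∫ z in Prod.swap ⁻¹' C1c_U K.g (Icc 0 K.h), φ z = ∫ y in (0:ℝ)..K.h, K.row.mr y * (Real.exp (- (K.q * y)) * ee (-K.p) (K.g y)) := by
    have hc : Continuous (fun z : ℝ × ℝ => K.row.mr z.1 * (K.den z.swap)⁻¹) :=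
      ((Dat.mr_cont K.row h.cg h.cr).comp continuous_fst).mul (((C1c_den_cont K).comp continuous_swap).inv₀ fun z => (C1c_den_pos K _).ne')
    have h1 : ∫ z in Prod.swap ⁻¹' C1c_U K.g (Icc 0 K.h), φ z = ∫ z in C1c_U K.g (Icc 0 K.h), K.row.mr z.1 * (K.den z.swap)⁻¹ := by
      rw [C1c_swap]
      have h0 : Prod.swap ⁻¹' (Prod.swap ⁻¹' C1c_U K.g (Icc 0 K.h)) = C1c_U K.g (Icc 0 K.h) := by
        ext z
        simp
      rw [h0]
      refine setIntegral_congr_fun (C1c_U_meas h.cg measurableSet_Icc) ?_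
      rintro z ⟨h2, h3, h4⟩
      have h5 : K.mne z.2 z.1 = K.mne 0 z.1 := by
        unfold mne
        congr 2
        ext z'
        constructor
        · rintro ⟨h6, h7, h8⟩
          exact ⟨h6, h3.trans h7, h8⟩
        · rintro ⟨h6, h7, h8⟩
          exact ⟨h6, left K h z.2 z.1 z'.1 z'.2 h2 h4 h8 h6, h8⟩
      rw [hφ]
      simp only [Prod.fst_swap, Prod.snd_swap, h5]
      rw [mr_set' K h.toOk z.1 h2, div_eq_mul_inv]
    rw [h1, (C1c_under h.cg measurableSet_Icc (Subset.refl _) (fun x hx => f6 x hx) hc).2, C1c_Icc h.hh.le]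
    refine intervalIntegral.integral_congr fun y _ => ?_
    exact C1c_inner' K h.toOk (K.row.mr y) y (K.g y)
  rw [s2] at e2
  rw [s3, i4, i3] at e3
  rw [i2] at e2
  rw [s1] at e1
  have hfin : ∫ z in (Icc 0 K.w ×ˢ Icc 0 K.h), φ z = (∫ z in K.S, φ z) +
      (∫ x in (0:ℝ)..K.w, K.col.mr x * (Real.exp (- (K.p * x)) * ee (-K.q) (K.l x))) +
      ∫ y in (0:ℝ)..K.h, K.row.mr y * (Real.exp (- (K.q * y)) * ee (-K.p) (K.g y)) := by
    linarith
  rw [hφ] at hfin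
  exact hfin

private theorem C1c_A (K : Bd) (h : K.CF) {x : ℝ} (hx : x ∈ Icc 0 K.w) :
    IntegrableOn K.den (C1c_U K.l (Ico 0 x)) ∧ ∫ z in C1c_U K.l (Ico 0 x), K.den z = (K.col.Xl x - ee K.p x) / K.q := by
  obtain ⟨f1, f2, f3, f4, f5, f6, f7, f8, f9, f10, f11, f12, f13⟩ := cf_facts K h
  have hsub : Ico 0 x ⊆ Icc 0 x := Ico_subset_Icc_self
  obtain ⟨h1, h2⟩ := C1c_under h.cl measurableSet_Ico hsub (fun t ht => f5 t ⟨ht.1, ht.2.le.trans hx.2⟩) (C1c_den_cont K)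
  refine ⟨h1, ?_⟩
  rw [h2, C1c_Ico hx.1]
  have h3 : ∀ t : ℝ, ∫ y in (0:ℝ)..(K.l t), K.den (t, y) = (K.col.rl t - Real.exp (K.p * t)) / K.q := by
    intro t
    have h4 : ∀ y : ℝ, K.den (t, y) = Real.exp (K.p * t) * Real.exp (K.q * y) := fun y => by
      unfold den
      rw [← Real.exp_add]
    simp only [h4]
    rw [intervalIntegral.integral_const_mul, C1c_ee h.hq]
    unfold ee Dat.rl col
    simp only
    rw [Real.exp_add]
    ring
  simp only [h3]
  rw [intervalIntegral.integral_div, intervalIntegral.integral_sub, C1c_ee h.hp]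
  · rfl
  · exact (Dat.rl_cont K.col h.cl).intervalIntegrable _ _
  · exact (Continuous.intervalIntegrable (by fun_prop) _ _)

private theorem C1c_B (K : Bd) (h : K.CF) {y : ℝ} (hy : y ∈ Icc 0 K.h) :
    IntegrableOn K.den (Prod.swap ⁻¹' C1c_U K.g (Ico 0 y)) ∧
      ∫ z in Prod.swap ⁻¹' C1c_U K.g (Ico 0 y), K.den z = (K.row.Xl y - ee K.q y) / K.p := by
  obtain ⟨f1, f2, f3, f4, f5, f6, f7, f8, f9, f10, f11, f12, f13⟩ := cf_facts K h
  obtain ⟨h1, h2⟩ := C1c_A K.swap f13 (x := y) hy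
  have h3 : ∀ z : ℝ × ℝ, K.swap.den z = K.den z.swap := by
    intro z
    unfold den swap
    simp only [Prod.fst_swap, Prod.snd_swap]
    congr 1
    ring
  have hmp : MeasurePreserving (Prod.swap : ℝ × ℝ → ℝ × ℝ) volume volume := by
    rw [Measure.volume_eq_prod]
    exact Measure.measurePreserving_swap
  have h0 : Prod.swap ⁻¹' (Prod.swap ⁻¹' C1c_U K.g (Ico 0 y)) = C1c_U K.g (Ico 0 y) := by
    ext z
    simp
  refine ⟨?_, ?_⟩
  · have h4 := (hmp.integrableOn_comp_preimage MeasurableEquiv.prodComm.measurableEmbedding (f := K.den)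
      (s := Prod.swap ⁻¹' C1c_U K.g (Ico 0 y))).1
    apply h4
    rw [h0]
    have h5 : (K.den ∘ Prod.swap) = K.swap.den := by
      funext z
      exact (h3 z).symm
    rw [h5]
    exact h1
  · rw [C1c_swap, h0]
    simp only [← h3]
    exact h2

theorem box_dec (K : Bd) (h : K.CF) (x y : ℝ) (hm : K.mem x y) :
    ee K.p x * ee K.q y = (K.col.Xl x - ee K.p x) / K.q + (K.row.Xl y - ee K.q y) / K.p +
      (K.col.M - K.col.mr x - K.row.mr y + K.mne x y) := by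
  obtain ⟨hSc, hSm⟩ := S_compact K h.toOk
  have hm00 := hm
  obtain ⟨m1, m2, m3, m4⟩ := hm00
  obtain ⟨n1, n2, n3, n4⟩ := (h.iff x y).1 hm
  obtain ⟨hlm, hgm⟩ := l_mono K h
  have hx : x ∈ Icc 0 K.w := ⟨m1, m2⟩
  have hy : y ∈ Icc 0 K.h := ⟨n1, n2⟩
  obtain ⟨a1, a2⟩ := C1c_A K h hx
  obtain ⟨b1, b2⟩ := C1c_B K h hy
  have hBm : MeasurableSet (Ico 0 x ×ˢ Ico 0 y : Set (ℝ × ℝ)) := measurableSet_Ico.prod measurableSet_Ico
  have hBi : IntegrableOn K.den (Ico 0 x ×ˢ Ico 0 y : Set (ℝ × ℝ)) :=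
    ((C1c_den_cont K).continuousOn.integrableOn_compact ((isCompact_Icc (a := (0:ℝ)) (b := x)).prod (isCompact_Icc (a := (0:ℝ)) (b := y)))).mono_set
      (prod_mono Ico_subset_Icc_self Ico_subset_Icc_self)
  have hA'm : MeasurableSet {z : ℝ × ℝ | z.2 < K.l z.1} := measurableSet_lt measurable_snd (h.cl.measurable.comp measurable_fst)
  have hB'm : MeasurableSet {z : ℝ × ℝ | z.1 < K.g z.2} := measurableSet_lt measurable_fst (h.cg.measurable.comp measurable_snd)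
  have e1 := integral_inter_add_sdiff (μ := volume) hSm hBi
  have hD1i : IntegrableOn K.den ((Ico 0 x ×ˢ Ico 0 y) \ K.S) := hBi.mono_set sdiff_subset
  have e2 := integral_inter_add_sdiff (μ := volume) hA'm hD1i
  have hD2i : IntegrableOn K.den (((Ico 0 x ×ˢ Ico 0 y) \ K.S) \ {z : ℝ × ℝ | z.2 < K.l z.1}) := hD1i.mono_set sdiff_subset
  have e3 := integral_inter_add_sdiff (μ := volume) hB'm hD2i
  have s2 : ((Ico 0 x ×ˢ Ico 0 y) \ K.S) ∩ {z : ℝ × ℝ | z.2 < K.l z.1} = C1c_U K.l (Ico 0 x) := by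
    ext z
    constructor
    · rintro ⟨⟨⟨h1, h2⟩, h3⟩, h4⟩
      exact ⟨h1, h2.1, h4⟩
    · rintro ⟨h1, h2, h3⟩
      have h1' : z.1 ∈ Icc 0 K.w := ⟨h1.1, h1.2.le.trans m2⟩
      have h4 : K.l z.1 ≤ K.l x := hlm h1' hx h1.2.le
      have h6 : z.2 ∈ Ico 0 y := ⟨h2, h3.trans_le (h4.trans m3)⟩
      exact ⟨⟨⟨h1, h6⟩, (disj K h z.1 z.2 h1' ⟨h6.1, h6.2.le.trans n2⟩).2.1 h3⟩, h3⟩
  have s3 : (((Ico 0 x ×ˢ Ico 0 y) \ K.S) \ {z : ℝ × ℝ | z.2 < K.l z.1}) ∩ {z : ℝ × ℝ | z.1 < K.g z.2} =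
      Prod.swap ⁻¹' C1c_U K.g (Ico 0 y) := by
    ext z
    constructor
    · rintro ⟨⟨⟨⟨h1, h2⟩, h3⟩, h4⟩, h5⟩
      exact ⟨h2, h1.1, h5⟩
    · rintro ⟨h1, h2, h3⟩
      have h1' : z.2 ∈ Ico 0 y := h1
      have h2' : 0 ≤ z.1 := h2
      have h3' : z.1 < K.g z.2 := h3
      have h1'' : z.2 ∈ Icc 0 K.h := ⟨h1'.1, h1'.2.le.trans n2⟩
      have h4 : K.g z.2 ≤ K.g y := hgm h1'' hy h1'.2.le
      have h6 : z.1 ∈ Ico 0 x := ⟨h2', h3'.trans_le (h4.trans n3)⟩
      have h7 := disj K h z.1 z.2 ⟨h6.1, h6.2.le.trans m2⟩ h1''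
      exact ⟨⟨⟨⟨h6, h1'⟩, h7.2.2 h3'⟩, fun h8 => h7.1 ⟨h8, h3'⟩⟩, h3'⟩
  have s4 : (((Ico 0 x ×ˢ Ico 0 y) \ K.S) \ {z : ℝ × ℝ | z.2 < K.l z.1}) \ {z : ℝ × ℝ | z.1 < K.g z.2} = ∅ := by
    rw [eq_empty_iff_forall_notMem]
    rintro z ⟨⟨⟨⟨h1, h2⟩, h3⟩, h4⟩, h5⟩
    rcases cover K h x y z.1 z.2 hm h1.1 h1.2.le h2.1 h2.2.le with h6 | h6 | h6
    · exact h4 h6
    · exact h5 h6
    · exact h3 h6
  rw [s2, a2] at e2
  rw [s3, s4, b2, setIntegral_empty, add_zero] at e3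
  rw [C1c_rect' K h.toOk m1 n1] at e1
  -- the part in the body
  have hSi : IntegrableOn K.den K.S := C1c_den_int K h.toOk (Subset.refl _)
  have hX : MeasurableSet {z : ℝ × ℝ | x ≤ z.1} := measurableSet_le measurable_const measurable_fst
  have hY : MeasurableSet {z : ℝ × ℝ | y ≤ z.2} := measurableSet_le measurable_const measurable_snd
  have g1 := integral_inter_add_sdiff (μ := volume) hX hSi
  have g2 := integral_inter_add_sdiff (μ := volume) hY (hSi.mono_set (sdiff_subset (t := {z : ℝ × ℝ | x ≤ z.1})))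
  have g3 := integral_inter_add_sdiff (μ := volume) hX (hSi.mono_set (inter_subset_left (t := {z : ℝ × ℝ | y ≤ z.2})))
  have t1 : ∫ z in K.S ∩ {z : ℝ × ℝ | x ≤ z.1}, K.den z = K.col.mr x := by
    rw [mr_set K h.toOk x hx]
    unfold mne
    congr 2
    ext z
    constructor
    · rintro ⟨h1, h2⟩
      exact ⟨h1, h2, ((h.iff z.1 z.2).1 h1).1⟩
    · rintro ⟨h1, h2, h3⟩
      exact ⟨h1, h2⟩
  have t2 : ∫ z in K.S ∩ {z : ℝ × ℝ | y ≤ z.2}, K.den z = K.row.mr y := by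
    rw [mr_set' K h.toOk y hy]
    unfold mne
    congr 2
    ext z
    constructor
    · rintro ⟨h1, h2⟩
      exact ⟨h1, h1.1, h2⟩
    · rintro ⟨h1, h2, h3⟩
      exact ⟨h1, h3⟩
  have t3 : ∫ z in (K.S ∩ {z : ℝ × ℝ | y ≤ z.2}) ∩ {z : ℝ × ℝ | x ≤ z.1}, K.den z = K.mne x y := by
    unfold mne
    congr 2
    ext z
    constructor
    · rintro ⟨⟨h1, h2⟩, h3⟩
      exact ⟨h1, h3, h2⟩
    · rintro ⟨h1, h2, h3⟩
      exact ⟨⟨h1, h3⟩, h2⟩
  have t4 : (K.S ∩ {z : ℝ × ℝ | y ≤ z.2}) \ {z : ℝ × ℝ | x ≤ z.1} = (K.S \ {z : ℝ × ℝ | x ≤ z.1}) ∩ {z : ℝ × ℝ | y ≤ z.2} := by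
    ext z
    constructor
    · rintro ⟨⟨h1, h2⟩, h3⟩
      exact ⟨⟨h1, h3⟩, h2⟩
    · rintro ⟨⟨h1, h2⟩, h3⟩
      exact ⟨⟨h1, h3⟩, h2⟩
  have t5 : (K.S \ {z : ℝ × ℝ | x ≤ z.1}) \ {z : ℝ × ℝ | y ≤ z.2} = (Ico 0 x ×ˢ Ico 0 y) ∩ K.S := by
    ext z
    constructor
    · rintro ⟨⟨h1, h2⟩, h3⟩
      exact ⟨⟨⟨h1.1, not_le.mp h2⟩, ⟨((h.iff z.1 z.2).1 h1).1, not_le.mp h3⟩⟩, h1⟩
    · rintro ⟨⟨h1, h2⟩, h3⟩
      exact ⟨⟨h3, not_le.mpr h1.2⟩, not_le.mpr h2.2⟩
  rw [t1, ← M_set K h.toOk] at g1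
  rw [t5] at g2
  rw [t3, t4, t2] at g3
  linarith

end Bd

end Pool.Agent.Lib.MP_1dedaf_gt.DK
end

section

/-!
# TASK DK C5: the cut body as a body

`(a, c)` in the body, `P := K.col.cut a c`, `P.D ≠ 0`. Proof. `w1 := sSup {x ∈ [0, w - a] : c ≤ u (a + x)}` (a compact set which contains `0`, because `c ≤ u a`); `u` is concave, so `c ≤ u (a + x)` on `[0, w1]`, and `u (a + x) < c` for
`w1 < x ≤ w - a`, there `P.l = P.u = 0`. `0 < w1`: otherwise `P.l = P.u` on all of `(0, w - a]` and `P.D = 0` (if `a = w` as well). Apply `exists_bd` to `⟨p, q, w1, P.l, P.u⟩`: `P.l x = max (l (a + x)) c - c` is convex, `P.u x = u (a + x) - c` on `[0, w1]` is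
concave, `0 ≤ P.l ≤ P.u`, `P.l 0 = 0` (`l a ≤ c`), `fat` (otherwise `D = 0`). The corner of the new body is `(a, c)`: `K0.mem x y ↔ K.mem (a+x) (c+y)` for `x, y ≥ 0`. `(0, y) ∈ K0` for `0 ≤ y ≤ u a - c`, so `K0.u 0 = u a - c`, and `K0.r 0 = r c - a` (row of height `0`: the points `(x, 0)` with
`(a + x, c) ∈ K`). `corner_pos`: if `K.r 0 > 0`, `K.u 0 > 0`, then `u a = c` and `r c = a` are not both true when `P.D > 0`: some `(x', y')` in `K` has `x' > a`, `y' > c`; if `a = 0` then `u a = u 0 > 0`; `c = u 0 > 0` (so `(0, c)`, `(x', y')`, `(r 0, 0)` are in `K` with `r 0 > 0`, and `(0, 0)` is: the segment from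
`(r 0, 0)` to `(x', y')` crosses height `c` at an abscissa `> 0 = a`, so `r c > a`); the case `c = 0` is the mirror image. If `a, c > 0`: consider the line through `(0,0)` and `(a, c)`. The triangle with the vertices `(x', y')`, `(r 0, 0)`, `(0, 0)` or the triangle with the vertices `(x', y')`, `(0, u 0)`, `(0,0)`
contains a point `(x'', c)` with `x'' > a` or `(a, y'')` with `y'' > c`: if `y'/x' ≥ c/a` then the segment from `(0, u 0)` to `(x', y')` passes above `(a, c)` (at abscissa `a < x'` its height is `(1-a/x') u0 + (a/x') y' > (a/x') y' ≥ c`), so `u a > c`; otherwise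
(`x'/y' > a/c`) the segment from `(r 0, 0)` to `(x', y')` at height `c` has abscissa `> (c/y') x' > a`, so `r c > a`.
-/

set_option autoImplicit false

open MeasureTheory Set Filter Topology

namespace Pool.Agent.Lib.MP_1dedaf_gt.DK

private theorem C5_fat (P : Dat) (hw : 0 ≤ P.w) (hlu : ∀ x ∈ Icc 0 P.w, P.l x ≤ P.u x) (hD : P.D ≠ 0) :
    ∃ x ∈ Ioc 0 P.w, P.l x < P.u x := by
  by_contra hcon
  push Not at hcon
  apply hD
  have h0 : P.N 0 = 0 := by
    unfold Dat.N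
    apply intervalIntegral.integral_zero_ae
    refine Filter.Eventually.of_forall ?_
    intro x hx
    rw [uIoc_of_le hw] at hx
    have h1 : P.l x = P.u x := le_antisymm (hlu x ⟨hx.1.le, hx.2⟩) (hcon x hx)
    have h2 : P.rl x = P.ru x := by
      unfold Dat.rl Dat.ru
      rw [h1]
    simp [h2]
  unfold Dat.D
  rw [h0, zero_div]

private theorem C5_cutlu (K : Bd) (h : K.CF) (a c : ℝ) (ha : 0 ≤ a) :
    ∀ x ∈ Icc 0 (K.w - a), (K.col.cut a c).l x ≤ (K.col.cut a c).u x := by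
  intro x hx
  have h1 : K.l (a + x) ≤ K.u (a + x) := h.lu _ ⟨by linarith [hx.1], by linarith [hx.2]⟩
  show max (K.l (a + x)) c - c ≤ max (K.u (a + x)) c - c
  have := max_le_max h1 (le_refl c)
  linarith

private theorem C5_pt (K : Bd) (h : K.CF) (a c : ℝ) (hm : K.mem a c) (hD : (K.col.cut a c).D ≠ 0) :
    ∃ x ∈ Ioc 0 (K.w - a), (K.col.cut a c).l x < (K.col.cut a c).u x ∧ c < K.u (a + x) := by
  obtain ⟨ha, haw, hl, hu⟩ := hm
  obtain ⟨x, hx, hlt⟩ := C5_fat (K.col.cut a c) (show (0:ℝ) ≤ K.w - a by linarith) (C5_cutlu K h a c ha) hD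
  refine ⟨x, hx, hlt, ?_⟩
  by_contra hcon
  push Not at hcon
  have h1 : (K.col.cut a c).u x = 0 := by
    show max (K.u (a + x)) c - c = 0
    rw [max_eq_right hcon]
    ring
  have h2 : 0 ≤ (K.col.cut a c).l x := by
    show 0 ≤ max (K.l (a + x)) c - c
    have := le_max_right (K.l (a + x)) c
    linarith
  linarith

private theorem C5_collapse (K : Dat) (cl : Continuous K.l) (cu : Continuous K.u) (w1 : ℝ) (h0 : 0 ≤ w1) (h1 : w1 ≤ K.w)
    (h : ∀ x ∈ Ioc w1 K.w, K.l x = K.u x) (K' : Dat) (hK' : K' = ⟨K.p, K.q, w1, K.l, K.u⟩) :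
    K'.J = K.J ∧ K'.D = K.D := by
  rcases h1.eq_or_lt with h2 | h2
  · subst hK'
    rw [h2]
    exact ⟨rfl, rfl⟩
  · have h3 : K.l w1 = K.u w1 := by
      have h4 : Tendsto K.l (𝓝[>] w1) (𝓝 (K.l w1)) := cl.continuousAt.tendsto.mono_left nhdsWithin_le_nhds
      have h5 : Tendsto K.u (𝓝[>] w1) (𝓝 (K.u w1)) := cu.continuousAt.tendsto.mono_left nhdsWithin_le_nhds
      refine tendsto_nhds_unique_of_eventuallyEq h4 h5 ?_
      filter_upwards [Ioc_mem_nhdsGT h2] with x hx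
      exact h x hx
    have h6 : ∀ x ∈ Icc w1 K.w, K.l x = K.u x := by
      intro x hx
      rcases hx.1.eq_or_lt with h7 | h7
      · rw [← h7]
        exact h3
      · exact h x ⟨h7, hx.2⟩
    obtain ⟨-, -, -, hD, -, -, hJ, -⟩ := Dat.collapse K cl cu w1 h0 h1 h6 K' hK'
    exact ⟨hJ, hD⟩

theorem cut_bd (K : Bd) (h : K.CF) (a c : ℝ) (hm : K.mem a c) (hD : (K.col.cut a c).D ≠ 0) :
    ∃ (K0 : Bd) (w1 : ℝ), K0.CF ∧ 0 < w1 ∧ w1 ≤ K.w - a ∧ K0.col = ⟨K.p, K.q, w1, (K.col.cut a c).l, (K.col.cut a c).u⟩ ∧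
      (∀ x ∈ Ioc w1 (K.w - a), (K.col.cut a c).l x = (K.col.cut a c).u x) ∧
      (∀ x y, 0 ≤ x → 0 ≤ y → (K0.mem x y ↔ K.mem (a + x) (c + y))) ∧ K0.u 0 = K.u a - c ∧ K0.r 0 = K.r c - a := by
  obtain ⟨x1, hx1, hfat, hcu⟩ := C5_pt K h a c hm hD
  have hm' := hm
  obtain ⟨ha, haw, hl, hu⟩ := hm
  have hcl : Continuous (fun x : ℝ => K.l (a + x)) := h.cl.comp (by fun_prop)
  have hcu' : Continuous (fun x : ℝ => K.u (a + x)) := h.cu.comp (by fun_prop)
  have hPl : Continuous (K.col.cut a c).l := by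
    show Continuous (fun x : ℝ => max (K.l (a + x)) c - c)
    exact (hcl.max continuous_const).sub continuous_const
  have hPu : Continuous (K.col.cut a c).u := by
    show Continuous (fun x : ℝ => max (K.u (a + x)) c - c)
    exact (hcu'.max continuous_const).sub continuous_const
  have hScl : IsClosed {x : ℝ | c ≤ K.u (a + x)} := isClosed_le continuous_const hcu'
  have hS : IsCompact (Icc 0 (K.w - a) ∩ {x : ℝ | c ≤ K.u (a + x)}) := isCompact_Icc.inter_right hScl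
  have hSne : (Icc 0 (K.w - a) ∩ {x : ℝ | c ≤ K.u (a + x)}).Nonempty :=
    ⟨x1, ⟨⟨hx1.1.le, hx1.2⟩, hcu.le⟩⟩
  have hmem1 := hS.sSup_mem hSne
  have hub : ∀ x ∈ Icc 0 (K.w - a) ∩ {x : ℝ | c ≤ K.u (a + x)}, x ≤ sSup (Icc 0 (K.w - a) ∩ {x : ℝ | c ≤ K.u (a + x)}) :=
    fun x hx => le_csSup hS.bddAbove hx
  generalize sSup (Icc 0 (K.w - a) ∩ {x : ℝ | c ≤ K.u (a + x)}) = w1 at hmem1 hub
  obtain ⟨⟨hw10, hw1W⟩, hw1u⟩ := hmem1
  have hw1x : x1 ≤ w1 := hub x1 ⟨⟨hx1.1.le, hx1.2⟩, hcu.le⟩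
  have hw1pos : 0 < w1 := lt_of_lt_of_le hx1.1 hw1x
  have hw1u' : c ≤ K.u (a + w1) := hw1u
  have hge : ∀ x ∈ Icc 0 w1, c ≤ K.u (a + x) := by
    intro x hx
    have ha1 : a ∈ Icc 0 K.w := ⟨ha, haw⟩
    have ha2 : a + w1 ∈ Icc 0 K.w := ⟨by linarith, by linarith⟩
    have h3 : min (K.u a) (K.u (a + w1)) ≤ K.u (a + x) := by
      apply h.vu.min_le_of_mem_Icc ha1 ha2
      exact ⟨by linarith [hx.1], by linarith [hx.2]⟩
    exact le_trans (le_min hu hw1u') h3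
  have hgt : ∀ x ∈ Ioc w1 (K.w - a), K.u (a + x) < c := by
    intro x hx
    by_contra hcon
    push Not at hcon
    have := hub x ⟨⟨by linarith [hx.1], hx.2⟩, hcon⟩
    linarith [hx.1]
  have hlu := C5_cutlu K h a c ha
  have hl0 : ∀ x, 0 ≤ (K.col.cut a c).l x := by
    intro x
    show 0 ≤ max (K.l (a + x)) c - c
    have := le_max_right (K.l (a + x)) c
    linarith
  have hl00 : (K.col.cut a c).l 0 = 0 := by
    show max (K.l (a + 0)) c - c = 0
    rw [add_zero, max_eq_right hl]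
    ring
  have hsub : Icc 0 w1 ⊆ (fun z : ℝ => a + z) ⁻¹' (Icc 0 K.w) := by
    intro x hx
    exact ⟨by linarith [hx.1], by linarith [hx.2]⟩
  have hvl : ConvexOn ℝ (Icc 0 w1) (K.col.cut a c).l := by
    have h3 : ConvexOn ℝ (Icc 0 w1) (fun x : ℝ => K.l (a + x)) :=
      (h.vl.translate_right a).subset hsub (convex_Icc _ _)
    have h4 : ConvexOn ℝ (Icc 0 w1) (fun x : ℝ => max (K.l (a + x)) c) := h3.sup (convexOn_const c (convex_Icc _ _))
    exact h4.sub (concaveOn_const c (convex_Icc _ _))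
  have hvu : ConcaveOn ℝ (Icc 0 w1) (K.col.cut a c).u := by
    have h3 : ConcaveOn ℝ (Icc 0 w1) (fun x : ℝ => K.u (a + x)) :=
      (h.vu.translate_right a).subset hsub (convex_Icc _ _)
    have h4 : ConcaveOn ℝ (Icc 0 w1) (fun x : ℝ => K.u (a + x) - c) := h3.sub (convexOn_const c (convex_Icc _ _))
    refine h4.congr ?_
    intro x hx
    show K.u (a + x) - c = max (K.u (a + x)) c - c
    rw [max_eq_left (hge x hx)]
  obtain ⟨K0, hOk, hcol, hCF⟩ := exists_bd K.p K.q w1 (K.col.cut a c).l (K.col.cut a c).u h.hp h.hq hw1pos hPl hPu hvl hvu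
    (fun x hx => hlu x ⟨hx.1, by linarith [hx.2]⟩) ⟨x1, ⟨hx1.1.le, hw1x⟩, hfat⟩ (fun x _ => hl0 x)
    ⟨0, ⟨le_refl _, hw1pos.le⟩, hl00⟩
  have hCF0 : K0.CF := hCF hl00
  have ew : K0.w = w1 := congrArg Dat.w hcol
  have el : K0.l = (K.col.cut a c).l := congrArg Dat.l hcol
  have eu : K0.u = (K.col.cut a c).u := congrArg Dat.u hcol
  have hmem : ∀ x y, 0 ≤ x → 0 ≤ y → (K0.mem x y ↔ K.mem (a + x) (c + y)) := by
    intro x y hx hy
    constructor
    · rintro ⟨h1, h2, h3, h4⟩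
      rw [ew] at h2
      rw [el] at h3
      rw [eu] at h4
      change max (K.l (a + x)) c - c ≤ y at h3
      change y ≤ max (K.u (a + x)) c - c at h4
      rw [max_eq_left (hge x ⟨h1, h2⟩)] at h4
      have := le_max_left (K.l (a + x)) c
      exact ⟨by linarith, by linarith, by linarith, by linarith⟩
    · rintro ⟨h1, h2, h3, h4⟩
      have h5 : x ≤ w1 := hub x ⟨⟨hx, by linarith⟩, show c ≤ K.u (a + x) by linarith⟩
      refine ⟨hx, by rw [ew]; exact h5, ?_, ?_⟩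
      · rw [el]
        show max (K.l (a + x)) c - c ≤ y
        have : max (K.l (a + x)) c ≤ c + y := max_le h3 (by linarith)
        linarith
      · rw [eu]
        show y ≤ max (K.u (a + x)) c - c
        have := le_max_left (K.u (a + x)) c
        linarith
  refine ⟨K0, w1, hCF0, hw1pos, hw1W, hcol, ?_, hmem, ?_, ?_⟩
  · intro x hx
    show max (K.l (a + x)) c - c = max (K.u (a + x)) c - c
    have h3 := hgt x hx
    have h4 : K.l (a + x) ≤ K.u (a + x) := h.lu _ ⟨by linarith [hx.1], by linarith [hx.2]⟩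
    rw [max_eq_right h3.le, max_eq_right (h4.trans h3.le)]
  · rw [eu]
    show max (K.u (a + 0)) c - c = K.u a - c
    rw [add_zero, max_eq_left hu]
  · obtain ⟨hc0, hch, hg, hr⟩ := (h.iff a c).1 hm'
    obtain ⟨-, hh0, hg0, hr0⟩ := (hCF0.iff 0 0).1 hCF0.corner
    apply le_antisymm
    · have h3 : K0.mem (K0.r 0) 0 := (hCF0.iff _ _).2 ⟨le_refl _, hh0, hg0.trans hr0, le_refl _⟩
      have h4 := (hmem _ _ hr0 (le_refl _)).1 h3
      rw [add_zero] at h4
      have h5 := ((h.iff _ _).1 h4).2.2.2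
      linarith
    · have h3 : K.mem (K.r c) c := (h.iff _ _).2 ⟨hc0, hch, hg.trans hr, le_refl _⟩
      have h4 : K.mem (a + (K.r c - a)) (c + 0) := by
        rw [add_zero, show a + (K.r c - a) = K.r c by ring]
        exact h3
      have h5 := (hmem (K.r c - a) 0 (by linarith) (le_refl _)).2 h4
      exact ((hCF0.iff _ _).1 h5).2.2.2

private theorem C5_seg (K : Bd) (h : K.CF) (x y x' y' θ : ℝ) (hm : K.mem x y) (hm' : K.mem x' y') (h0 : 0 ≤ θ) (h1 : θ ≤ 1) :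
    K.mem ((1 - θ) * x + θ * x') ((1 - θ) * y + θ * y') := by
  obtain ⟨a1, a2, a3, a4⟩ := hm
  obtain ⟨b1, b2, b3, b4⟩ := hm'
  have hθ : 0 ≤ 1 - θ := by linarith
  have hl := h.vl.2 (show x ∈ Icc 0 K.w from ⟨a1, a2⟩) (show x' ∈ Icc 0 K.w from ⟨b1, b2⟩) hθ h0 (by ring)
  have hu := h.vu.2 (show x ∈ Icc 0 K.w from ⟨a1, a2⟩) (show x' ∈ Icc 0 K.w from ⟨b1, b2⟩) hθ h0 (by ring)
  simp only [smul_eq_mul] at hl hu
  have e1 := mul_le_mul_of_nonneg_left a3 hθ
  have e2 := mul_le_mul_of_nonneg_left b3 h0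
  have e3 := mul_le_mul_of_nonneg_left a4 hθ
  have e4 := mul_le_mul_of_nonneg_left b4 h0
  have e5 := mul_le_mul_of_nonneg_left a2 hθ
  have e6 := mul_le_mul_of_nonneg_left b2 h0
  have e7 := mul_nonneg hθ a1
  have e8 := mul_nonneg h0 b1
  exact ⟨by linarith, by linarith, by linarith, by linarith⟩

theorem corner_pos (K : Bd) (h : K.CF) (hr : 0 < K.r 0) (hu : 0 < K.u 0) (a c : ℝ) (hm : K.mem a c) (hD : (K.col.cut a c).D ≠ 0) :
    c < K.u a ∨ a < K.r c := by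
  obtain ⟨x1, hx1, -, hcu⟩ := C5_pt K h a c hm hD
  have hm' := hm
  obtain ⟨ha, haw, hl, hua⟩ := hm
  obtain ⟨hc0, hch, hg, hrc⟩ := (h.iff a c).1 hm'
  obtain ⟨hl0, hg0, -, -, -, -, -, -, -, -, -, -, -⟩ := cf_facts K h
  have hmt : K.mem (a + x1) (K.u (a + x1)) := by
    refine ⟨by linarith [hx1.1], by linarith [hx1.2], h.lu _ ⟨by linarith [hx1.1], by linarith [hx1.2]⟩, le_refl _⟩
  generalize K.u (a + x1) = y' at hcu hmt
  have hx' : a < a + x1 := by linarith [hx1.1]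
  generalize a + x1 = x' at hmt hx'
  have hx'0 : 0 < x' := lt_of_le_of_lt ha hx'
  have hy'0 : 0 < y' := lt_of_le_of_lt hc0 hcu
  have hmu : K.mem 0 (K.u 0) := ⟨le_refl _, h.hw.le, by rw [hl0]; exact hu.le, le_refl _⟩
  have hmr : K.mem (K.r 0) 0 := (h.iff _ _).2 ⟨le_refl _, h.hh.le, by rw [hg0]; exact hr.le, le_refl _⟩
  rcases le_or_gt (c * x') (a * y') with h1 | h1
  · left
    have h2 : 0 ≤ a / x' := div_nonneg ha hx'0.le
    have h3 : a / x' < 1 := (div_lt_one hx'0).2 hx'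
    have h4 := C5_seg K h 0 (K.u 0) x' y' (a / x') hmu hmt h2 h3.le
    have e1 : (1 - a / x') * 0 + a / x' * x' = a := by
      field_simp
      ring
    rw [e1] at h4
    have h5 := h4.2.2.2
    have h6 : c ≤ a / x' * y' := by
      rw [div_mul_eq_mul_div, le_div_iff₀ hx'0]
      exact h1
    have h7 : 0 < (1 - a / x') * K.u 0 := mul_pos (by linarith) hu
    linarith
  · right
    have h2 : 0 ≤ c / y' := div_nonneg hc0 hy'0.le
    have h3 : c / y' < 1 := (div_lt_one hy'0).2 hcu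
    have h4 := C5_seg K h (K.r 0) 0 x' y' (c / y') hmr hmt h2 h3.le
    have e1 : (1 - c / y') * 0 + c / y' * y' = c := by
      field_simp
      ring
    rw [e1] at h4
    have h5 := ((h.iff _ _).1 h4).2.2.2
    have h6 : a < c / y' * x' := by
      rw [div_mul_eq_mul_div, lt_div_iff₀ hy'0]
      exact h1
    have h7 : 0 < (1 - c / y') * K.r 0 := mul_pos (by linarith) hr
    linarith

/-- The kernels of the cut body and of its cuts. -/
theorem cut_J (K : Bd) (h : K.CF) (a c : ℝ) (_hm : K.mem a c) (K0 : Bd) (w1 : ℝ) (h0 : 0 ≤ w1) (h1 : w1 ≤ K.w - a)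
    (hK : K0.col = ⟨K.p, K.q, w1, (K.col.cut a c).l, (K.col.cut a c).u⟩)
    (hc : ∀ x ∈ Ioc w1 (K.w - a), (K.col.cut a c).l x = (K.col.cut a c).u x) :
    K0.col.J = (K.col.cut a c).J ∧ K0.col.D = (K.col.cut a c).D ∧
    (∀ ε, 0 ≤ ε → (K0.col.cut 0 ε).J = (K.col.cut a (c + ε)).J) ∧
    (∀ ε, 0 ≤ ε → ε ≤ w1 → (K0.col.cut ε 0).J = (K.col.cut (a + ε) c).J) := by
  have hcl : Continuous (fun x : ℝ => K.l (a + x)) := h.cl.comp (by fun_prop)
  have hcu' : Continuous (fun x : ℝ => K.u (a + x)) := h.cu.comp (by fun_prop)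
  have hPl : Continuous (K.col.cut a c).l := by
    show Continuous (fun x : ℝ => max (K.l (a + x)) c - c)
    exact (hcl.max continuous_const).sub continuous_const
  have hPu : Continuous (K.col.cut a c).u := by
    show Continuous (fun x : ℝ => max (K.u (a + x)) c - c)
    exact (hcu'.max continuous_const).sub continuous_const
  have hcc : ∀ e d : ℝ, Continuous ((K.col.cut a c).cut e d).l ∧ Continuous ((K.col.cut a c).cut e d).u := by
    intro e d
    constructor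
    · show Continuous (fun x : ℝ => max ((K.col.cut a c).l (e + x)) d - d)
      exact ((hPl.comp (by fun_prop)).max continuous_const).sub continuous_const
    · show Continuous (fun x : ℝ => max ((K.col.cut a c).u (e + x)) d - d)
      exact ((hPu.comp (by fun_prop)).max continuous_const).sub continuous_const
  have hA := C5_collapse (K.col.cut a c) hPl hPu w1 h0 h1 hc K0.col hK
  refine ⟨hA.1, hA.2, ?_, ?_⟩
  · intro ε hε
    have hB := C5_collapse ((K.col.cut a c).cut 0 ε) (hcc 0 ε).1 (hcc 0 ε).2 (w1 - 0) (by linarith)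
      (show w1 - 0 ≤ (K.w - a) - 0 by linarith) (by
        intro x hx
        show max ((K.col.cut a c).l (0 + x)) ε - ε = max ((K.col.cut a c).u (0 + x)) ε - ε
        have hx2 : x ≤ (K.w - a) - 0 := hx.2
        rw [hc (0 + x) ⟨by linarith [hx.1], by linarith⟩]) (K0.col.cut 0 ε) (by rw [hK]; rfl)
    rw [hB.1, Dat.cut_t K.col a c ε hε]
  · intro ε hε hεw
    have hB := C5_collapse ((K.col.cut a c).cut ε 0) (hcc ε 0).1 (hcc ε 0).2 (w1 - ε) (by linarith)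
      (show w1 - ε ≤ (K.w - a) - ε by linarith) (by
        intro x hx
        show max ((K.col.cut a c).l (ε + x)) 0 - 0 = max ((K.col.cut a c).u (ε + x)) 0 - 0
        have hx2 : x ≤ (K.w - a) - ε := hx.2
        rw [hc (ε + x) ⟨by linarith [hx.1], by linarith⟩]) (K0.col.cut ε 0) (by rw [hK]; rfl)
    rw [hB.1, Dat.cut_s K.col a c ε]

end Pool.Agent.Lib.MP_1dedaf_gt.DK
end

section

/-!
# TASK LB C4a: a pair of edges: coefficients and densities

Fix `s : ZMod n`, `0 < m`, `2 m < n`, `t = s + m`; `S = sin (m δ) > 0`. (`dir_pair`) `dir_comb` divided by `S`. (`lin_indep`) `<u t, rot (u s)> = S ≠ 0`.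
(`th_pair`) sum over `ZMod n` = sum over `j ∈ range n` of the values at `s + j` (`sum_shift`). (`al_eq`) `aj n m 0 = 1` etc. are evaluations.
(`pair_rho`) `rh_diff` (with `sg/Z = T`, `ho.mass`, `Z > 0`): `rr (l+1) - rr l = T (s+l+1) <th, rot (u (s+l+1))>`, and
`<α u s + β u t, rot (u (s+j))> = - α sin (jδ) + β sin ((m-j)δ) = S (β a j - α b j)` (`dir_inner`); sum over `l` (induction).
-/

set_option autoImplicit false

open MeasureTheory Set Filter Topology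

namespace Pool.Agent.Lib.MP_1dedaf_gt.LB

theorem sin_pos (n : ℕ) [NeZero n] {m : ℕ} (hm : 0 < m) (hm2 : 2 * m < n) : 0 < Real.sin (m * dl n) := by
  have hn : (0 : ℝ) < n := by exact_mod_cast (Nat.pos_of_ne_zero (NeZero.ne n))
  have hm' : (0 : ℝ) < m := by exact_mod_cast hm
  have hm2' : 2 * (m : ℝ) < n := by exact_mod_cast hm2
  have hpi := Real.pi_pos
  apply Real.sin_pos_of_pos_of_lt_pi
  · unfold dl
    positivity
  · unfold dl
    rw [show (m : ℝ) * (2 * Real.pi / n) = (2 * m) * Real.pi / n by ring, div_lt_iff₀ hn]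
    nlinarith

private theorem C4a_rot_add (x y : E2) : rot (x + y) = rot x + rot y := by
  ext i
  fin_cases i
  · simp [rot]; ring
  · simp [rot]

private theorem C4a_rot_smul (c : ℝ) (x : E2) : rot (c • x) = c • rot x := by
  ext i
  fin_cases i <;> simp [rot]

private theorem C4a_in0 (n : ℕ) [NeZero n] (s : ZMod n) (m : ℕ) :
    inner ℝ (dir n (s + (m : ℕ))) (rot (dir n s)) = Real.sin (m * dl n) ∧
    inner ℝ (dir n s) (rot (dir n (s + (m : ℕ)))) = - Real.sin (m * dl n) :=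
  ⟨(dir_inner n s m).2.1, (dir_inner n s m).2.2⟩

theorem aj_zero (n : ℕ) [NeZero n] {m : ℕ} (hm : 0 < m) (hm2 : 2 * m < n) : aj n m 0 = 1 ∧ aj n m m = 0 ∧ bj n m 0 = 0 ∧ bj n m m = 1 := by
  have hS := (sin_pos n hm hm2).ne'
  unfold aj bj
  refine ⟨?_, ?_, ?_, ?_⟩
  · rw [Nat.cast_zero, sub_zero, div_self hS]
  · rw [sub_self, zero_mul, Real.sin_zero, zero_div]
  · rw [Nat.cast_zero, zero_mul, Real.sin_zero, zero_div]
  · rw [div_self hS]

theorem dir_pair (n : ℕ) [NeZero n] {m : ℕ} (hm : 0 < m) (hm2 : 2 * m < n) (s : ZMod n) (j : ℕ) :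
    dir n (s + (j : ℕ)) = aj n m j • dir n s + bj n m j • dir n (s + (m : ℕ)) := by
  have hS := (sin_pos n hm hm2).ne'
  have h := dir_comb n s m j
  have h2 : dir n (s + (j : ℕ)) = (Real.sin (m * dl n))⁻¹ •
      (Real.sin (m * dl n) • dir n (s + (j : ℕ))) := by
    rw [smul_smul, inv_mul_cancel₀ hS, one_smul]
  rw [h2, h, smul_add, smul_smul, smul_smul]
  unfold aj bj
  rw [div_eq_inv_mul, div_eq_inv_mul]

/-- `u s`, `u (s+m)` are linearly independent. -/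
theorem pair_indep (n : ℕ) [NeZero n] {m : ℕ} (hm : 0 < m) (hm2 : 2 * m < n) (s : ZMod n) {x y x' y' : ℝ}
    (h : x • dir n s + y • dir n (s + (m : ℕ)) = x' • dir n s + y' • dir n (s + (m : ℕ))) : x = x' ∧ y = y' := by
  have hS := (sin_pos n hm hm2).ne'
  obtain ⟨i1, i2⟩ := C4a_in0 n s m
  have h1 := congrArg (fun v => inner ℝ v (rot (dir n s))) h
  have h2 := congrArg (fun v => inner ℝ v (rot (dir n (s + (m : ℕ))))) h
  simp only [inner_add_left, real_inner_smul_left, rot_inner, i1, i2, mul_zero, zero_add,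
    add_zero, mul_neg, neg_inj] at h1 h2
  exact ⟨mul_right_cancel₀ hS h2, mul_right_cancel₀ hS h1⟩

theorem sum_shift {M : Type} [AddCommMonoid M] (n : ℕ) [NeZero n] (s : ZMod n) (f : ZMod n → M) :
    ∑ i, f i = ∑ j ∈ Finset.range n, f (s + (j : ℕ)) := by
  rw [← Equiv.sum_comp (Equiv.addLeft s) f]
  refine Finset.sum_nbij' (fun i : ZMod n => i.val) (fun j : ℕ => (j : ZMod n)) ?_ ?_ ?_ ?_ ?_
  · intro i _
    exact Finset.mem_range.2 (ZMod.val_lt i)
  · intro j _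
    exact Finset.mem_univ _
  · intro i _
    exact ZMod.natCast_zmod_val i
  · intro j hj
    exact ZMod.val_cast_of_lt (Finset.mem_range.1 hj)
  · intro i _
    simp only [Equiv.coe_addLeft]
    rw [ZMod.natCast_zmod_val i]

theorem th_pair (n : ℕ) [NeZero n] (hn : Odd n) (h3 : 3 ≤ n) {m : ℕ} (hm : 0 < m) (hm2 : 2 * m < n) (s : ZMod n) (T : ZMod n → ℝ) :
    th (dir n) T = al n m s T • dir n s + be n m s T • dir n (s + (m : ℕ)) := by
  unfold th al be
  rw [sum_shift n s, Finset.sum_smul, Finset.sum_smul, ← Finset.sum_add_distrib]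
  refine Finset.sum_congr rfl fun j _ => ?_
  conv_lhs => rw [dir_pair n hm hm2 s j]
  rw [smul_add, smul_smul, smul_smul]
  rw [mul_comm (T (s + (j : ℕ))) (aj n m j), mul_comm (T (s + (j : ℕ))) (bj n m j)]

theorem pair_rho (n : ℕ) [NeZero n] (hn : Odd n) (h3 : 3 ≤ n) {m : ℕ} (hm : 0 < m) (hm2 : 2 * m < n) (s : ZMod n) {T k : ZMod n → ℝ}
    (hT : ∀ i, 0 < T i) (ho : Opt (dir n) T k) (l : ℕ) :
    rr n T k s l = rr n T k s 0 + Real.sin (m * dl n) * (be n m s T * Aj n m s T l - al n m s T * Bj n m s T l) := by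
  have hS := (sin_pos n hm hm2).ne'
  have hu := dir_adm n hn h3
  have hZ : 0 < Z (dir n) k (th (dir n) T) := Z_pos hu ho.fat _
  have hp : ∀ i, 0 < sg (dir n) k (th (dir n) T) i := by
    intro i
    rw [ho.mass i]
    exact mul_pos (hT i) hZ
  obtain ⟨i1, i2⟩ := C4a_in0 n s m
  induction l with
  | zero => simp [Aj, Bj]
  | succ l ih =>
    have h1 := rh_diff n hn h3 ho.fat hp (s + ((l + 1 : ℕ) : ZMod n))
    have h2 : s + ((l + 1 : ℕ) : ZMod n) - 1 = s + (l : ℕ) := by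
      push_cast
      ring
    rw [h2, ho.mass, mul_div_cancel_right₀ _ hZ.ne'] at h1
    have h3' : inner ℝ (th (dir n) T) (rot (dir n (s + ((l + 1 : ℕ) : ZMod n)))) =
        Real.sin (m * dl n) * (be n m s T * aj n m (l + 1) - al n m s T * bj n m (l + 1)) := by
      rw [dir_pair n hm hm2 s (l + 1), C4a_rot_add, C4a_rot_smul, C4a_rot_smul,
        th_pair n hn h3 hm hm2 s T]
      simp only [inner_add_left, inner_add_right, real_inner_smul_left, real_inner_smul_right,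
        rot_inner, i1, i2]
      ring
    rw [h3'] at h1
    have h4 : rr n T k s (l + 1) = rr n T k s l + T (s + ((l + 1 : ℕ) : ZMod n)) *
        (Real.sin (m * dl n) * (be n m s T * aj n m (l + 1) - al n m s T * bj n m (l + 1))) := by
      unfold rr
      linarith
    have h5 : Aj n m s T (l + 1) = Aj n m s T l + aj n m (l + 1) * T (s + ((l + 1 : ℕ) : ZMod n)) := by
      unfold Aj
      rw [Finset.sum_range_succ]
    have h6 : Bj n m s T (l + 1) = Bj n m s T l + bj n m (l + 1) * T (s + ((l + 1 : ℕ) : ZMod n)) := by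
      unfold Bj
      rw [Finset.sum_range_succ]
    rw [h4, ih, h5, h6]
    ring

end Pool.Agent.Lib.MP_1dedaf_gt.LB
end
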