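import Pool.Agent.Lib.MP_1dedaf_gt.DK.Reg
import Pool.Agent.Lib.MP_1dedaf_gt.DK.A0
import Pool.Agent.Lib.MP_1dedaf_gt.Mg.G003
import Pool.Agent.Lib.MP_1dedaf_gt.DK.A3
import Pool.Agent.Lib.MP_1dedaf_gt.DK.A4
import Pool.Agent.Lib.MP_1dedaf_gt.DK.Goals
import Pool.Agent.Lib.MP_1dedaf_gt.DK.C2a
import Pool.Agent.Lib.MP_1dedaf_gt.DK.C2b
import Pool.Agent.Lib.MP_1dedaf_gt.DK.C1
import Pool.Agent.Lib.MP_1dedaf_gt.DK.C3
import Pool.Agent.Lib.MP_1dedaf_gt.DK.C4
import Pool.Agent.Lib.MP_1dedaf_gt.Mg.G005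

section

/-!
# TASK DK C2: moving the side `y = 0`: the derivative of the kernel

Proof. `cut_scale`: the densities of `K.cut 0 c` are `e^{-q c}` times those of `tc K c` (`max l c - c`), so with `e = e^{-q c}`: `M`, `xb` have the factor `e`, `N 0` the factor `e⁻¹`, `N 1` the factor `1`, `N 2` the factor `e`; hence
`e^{q c} J (cut 0 c) = (1/q)(-2 xb + e M a + (p/q)(N2 - a N1))` with the moments of `tc K c` and `a = N1/N0`. `t_move`: differentiate at `0` (right derivatives from `C2b`, `N 0 ≠ 0`, `tc_zero`): with `St = (e^{p x1} - 1)/p`, `ρ1 = e^{p x1} = 1 + p St`,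
`R0 = ∫ e^{-p x} = St/ρ1`, `R1 = ∫ ee e^{-p x} = (x1 - R0)/p`, `R2 = ∫ ee² e^{-p x} = (St - 2 x1 + R0)/p²`, `∫ x e^{p x} = (x1 ρ1 - St)/p` (all integrals over `[0, x1]`), `xb' = - ∫ x e^{p x}`, `M' = - St`, `N0' = - q R0`,
`N1' = q St (N0 - R0)`, `N2' = q R2 + 2 q St (N1 - R1)`, `a' = (N1' - a N0')/N0`, the derivative is `(1/q) [-2 xb' + M' a + M a' - q M a + (p/q)(N2' - a' N1 - a N1')]`; with `N1 = a N0`, `N0 = q D`, `q b = M/D - 1 - p a - p q M` it is equal to
`(a - St)(b St - M)/ρ1` (`field_simp; ring`; the terms with `x1` cancel because `ρ1 - 1 = p St`).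
-/

set_option autoImplicit false

open MeasureTheory Set Filter Topology

namespace Pool.Agent.Lib.MP_1dedaf_gt.DK

section Scale

variable (K : Dat) (c : ℝ)

private theorem C2_rl (x : ℝ) : (K.cut 0 c).rl x = Real.exp (- (K.q * c)) * (tc K c).rl x := by
  have h1 : (K.cut 0 c).rl x = Real.exp (K.p * x + K.q * (max (K.l (0 + x)) c - c)) := rfl
  have h2 : (tc K c).rl x = Real.exp (K.p * x + K.q * max (K.l x) c) := rfl
  rw [h1, h2, zero_add, ← Real.exp_add]
  congr 1
  ring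

private theorem C2_ru (x : ℝ) : (K.cut 0 c).ru x = Real.exp (- (K.q * c)) * (tc K c).ru x := by
  have h1 : (K.cut 0 c).ru x = Real.exp (K.p * x + K.q * (max (K.u (0 + x)) c - c)) := rfl
  have h2 : (tc K c).ru x = Real.exp (K.p * x + K.q * max (K.u x) c) := rfl
  rw [h1, h2, zero_add, ← Real.exp_add]
  congr 1
  ring

private theorem C2_w : (K.cut 0 c).w = (tc K c).w := sub_zero K.w

private theorem C2_mu (x : ℝ) : (K.cut 0 c).mu x = Real.exp (- (K.q * c)) * (tc K c).mu x := by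
  have h1 : (K.cut 0 c).mu x = ((K.cut 0 c).ru x - (K.cut 0 c).rl x) / K.q := rfl
  have h2 : (tc K c).mu x = ((tc K c).ru x - (tc K c).rl x) / K.q := rfl
  rw [h1, h2, C2_rl, C2_ru]
  ring

private theorem C2_Xl (x : ℝ) : (K.cut 0 c).Xl x = Real.exp (- (K.q * c)) * (tc K c).Xl x := by
  unfold Dat.Xl
  rw [← intervalIntegral.integral_const_mul]
  exact intervalIntegral.integral_congr fun t _ => C2_rl K c t

private theorem C2_mr (x : ℝ) : (K.cut 0 c).mr x = Real.exp (- (K.q * c)) * (tc K c).mr x := by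
  unfold Dat.mr
  rw [← intervalIntegral.integral_const_mul, C2_w]
  exact intervalIntegral.integral_congr fun t _ => C2_mu K c t

private theorem C2_Xu (x : ℝ) : (K.cut 0 c).Xu x = Real.exp (- (K.q * c)) * (tc K c).Xu x := by
  have h1 : (K.cut 0 c).Xu x = (K.cut 0 c).Xl x - K.q * (K.cut 0 c).mr x := rfl
  have h2 : (tc K c).Xu x = (tc K c).Xl x - K.q * (tc K c).mr x := rfl
  rw [h1, h2, C2_Xl, C2_mr]
  ring

private theorem C2_M : (K.cut 0 c).M = Real.exp (- (K.q * c)) * (tc K c).M := C2_mr K c 0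

private theorem C2_xb : (K.cut 0 c).xb = Real.exp (- (K.q * c)) * (tc K c).xb := by
  unfold Dat.xb
  rw [← intervalIntegral.integral_const_mul, C2_w]
  refine intervalIntegral.integral_congr fun t _ => ?_
  simp only [C2_mu]
  ring

private theorem C2_N (i : ℕ) : (K.cut 0 c).N i =
    Real.exp (- (K.q * c)) ^ i / Real.exp (- (K.q * c)) * (tc K c).N i := by
  unfold Dat.N
  rw [← intervalIntegral.integral_const_mul, C2_w]
  refine intervalIntegral.integral_congr fun t _ => ?_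
  simp only [C2_Xl, C2_Xu, C2_rl, C2_ru]
  rw [mul_pow, mul_pow, mul_div_mul_comm, mul_div_mul_comm]
  ring

end Scale

theorem cut_scale (K : Dat) (hq : K.q ≠ 0) (c : ℝ) : Real.exp (K.q * c) * (K.cut 0 c).J =
    (-2 * (tc K c).xb + Real.exp (- (K.q * c)) * (tc K c).M * ((tc K c).N 1 / (tc K c).N 0) +
      K.p / K.q * ((tc K c).N 2 - (tc K c).N 1 / (tc K c).N 0 * (tc K c).N 1)) / K.q := by
  have _ := hq
  set E := Real.exp (- (K.q * c)) with hE
  have hE0 : E ≠ 0 := (Real.exp_pos _).ne'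
  have hEE : Real.exp (K.q * c) * E = 1 := by
    rw [hE, ← Real.exp_add, add_neg_cancel, Real.exp_zero]
  have h0 : (K.cut 0 c).N 0 = E⁻¹ * (tc K c).N 0 := by
    rw [C2_N, ← hE, pow_zero, one_div]
  have h1 : (K.cut 0 c).N 1 = (tc K c).N 1 := by
    rw [C2_N, ← hE, pow_one, div_self hE0, one_mul]
  have h2 : (K.cut 0 c).N 2 = E * (tc K c).N 2 := by
    rw [C2_N, ← hE]
    congr 1
    field_simp
  have ha : (K.cut 0 c).a = E * ((tc K c).N 1 / (tc K c).N 0) := by
    unfold Dat.a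
    rw [h0, h1, div_mul_eq_div_div, div_inv_eq_mul]
    ring
  have hV : (K.cut 0 c).V = E * ((tc K c).N 2 - (tc K c).N 1 / (tc K c).N 0 * (tc K c).N 1) := by
    unfold Dat.V
    rw [ha, h1, h2]
    ring
  have hJ : (K.cut 0 c).J = (-2 * (K.cut 0 c).xb + (K.cut 0 c).M * (K.cut 0 c).a + K.p / K.q * (K.cut 0 c).V) / K.q := rfl
  rw [hJ, ha, hV, C2_M, C2_xb, ← hE]
  have e1 : Real.exp (K.q * c) * ((-2 * (E * (tc K c).xb) + E * (tc K c).M * (E * ((tc K c).N 1 / (tc K c).N 0)) +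
      K.p / K.q * (E * ((tc K c).N 2 - (tc K c).N 1 / (tc K c).N 0 * (tc K c).N 1))) / K.q) =
      (Real.exp (K.q * c) * E) * ((-2 * (tc K c).xb + E * (tc K c).M * ((tc K c).N 1 / (tc K c).N 0) +
      K.p / K.q * ((tc K c).N 2 - (tc K c).N 1 / (tc K c).N 0 * (tc K c).N 1)) / K.q) := by ring
  rw [e1, hEE, one_mul]

section Integrals

private theorem C2_ftc {F f : ℝ → ℝ} (hF : ∀ x, HasDerivAt F (f x) x) (hf : Continuous f) (x1 : ℝ) :
    ∫ x in (0:ℝ)..x1, f x = F x1 - F 0 :=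
  intervalIntegral.integral_eq_sub_of_hasDerivAt (fun x _ => hF x) (hf.intervalIntegrable _ _)

private theorem C2_em (p x : ℝ) : HasDerivAt (fun x => Real.exp (- (p * x))) (- (p * Real.exp (- (p * x)))) x := by
  have h1 : HasDerivAt (fun x : ℝ => - (p * x)) (- p) x := by
    have h0 := (hasDerivAt_id x).const_mul (- p)
    simpa using h0
  have h2 := h1.exp
  have h3 : Real.exp (- (p * x)) * (- p) = - (p * Real.exp (- (p * x))) := by ring
  rw [h3] at h2
  exact h2

private theorem C2_ep (p x : ℝ) : HasDerivAt (fun x => Real.exp (p * x)) (p * Real.exp (p * x)) x := by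
  have h1 : HasDerivAt (fun x : ℝ => p * x) p x := by
    simpa using (hasDerivAt_id x).const_mul p
  have h2 := h1.exp
  have h3 : Real.exp (p * x) * p = p * Real.exp (p * x) := by ring
  rw [h3] at h2
  exact h2

private theorem C2_inv (p x : ℝ) : Real.exp (p * x) * Real.exp (- (p * x)) = 1 := by
  rw [← Real.exp_add, add_neg_cancel, Real.exp_zero]

private theorem C2_i0 {p : ℝ} (hp : p ≠ 0) (x1 : ℝ) :
    ∫ x in (0:ℝ)..x1, Real.exp (- (p * x)) = (1 - Real.exp (- (p * x1))) / p := by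
  have h := C2_ftc (F := fun x => - (Real.exp (- (p * x)) / p)) (f := fun x => Real.exp (- (p * x)))
    (fun x => by
      have h1 := ((C2_em p x).div_const p).neg
      have h2 : - (- (p * Real.exp (- (p * x))) / p) = Real.exp (- (p * x)) := by field_simp
      rw [h2] at h1
      exact h1) (by fun_prop) x1
  rw [h]
  simp only [mul_zero, neg_zero, Real.exp_zero]
  ring

private theorem C2_i1 {p : ℝ} (hp : p ≠ 0) (x1 : ℝ) :
    ∫ x in (0:ℝ)..x1, ee p x * Real.exp (- (p * x)) = (x1 - (1 - Real.exp (- (p * x1))) / p) / p := by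
  have h := C2_ftc (F := fun x => x / p + Real.exp (- (p * x)) / p ^ 2) (f := fun x => ee p x * Real.exp (- (p * x)))
    (fun x => by
      have h1 := ((hasDerivAt_id x).div_const p).add ((C2_em p x).div_const (p ^ 2))
      have h2 : 1 / p + - (p * Real.exp (- (p * x))) / p ^ 2 = ee p x * Real.exp (- (p * x)) := by
        have h3 := C2_inv p x
        unfold ee
        have h4 : (Real.exp (p * x) - 1) / p * Real.exp (- (p * x)) =
            (Real.exp (p * x) * Real.exp (- (p * x)) - Real.exp (- (p * x))) / p := by ring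
        rw [h4, h3]
        field_simp
        ring
      rw [h2] at h1
      exact h1) (by unfold ee; fun_prop) x1
  rw [h]
  simp only [mul_zero, neg_zero, Real.exp_zero]
  field_simp
  ring

private theorem C2_i2 {p : ℝ} (hp : p ≠ 0) (x1 : ℝ) :
    ∫ x in (0:ℝ)..x1, ee p x ^ 2 * Real.exp (- (p * x)) =
      (ee p x1 - 2 * x1 + (1 - Real.exp (- (p * x1))) / p) / p ^ 2 := by
  have h := C2_ftc (F := fun x => Real.exp (p * x) / p ^ 3 - 2 * x / p ^ 2 - Real.exp (- (p * x)) / p ^ 3)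
    (f := fun x => ee p x ^ 2 * Real.exp (- (p * x)))
    (fun x => by
      have h1 := (((C2_ep p x).div_const (p ^ 3)).sub (((hasDerivAt_id x).const_mul 2).div_const (p ^ 2))).sub
        ((C2_em p x).div_const (p ^ 3))
      have h2 : p * Real.exp (p * x) / p ^ 3 - 2 * 1 / p ^ 2 - - (p * Real.exp (- (p * x))) / p ^ 3 =
          ee p x ^ 2 * Real.exp (- (p * x)) := by
        have h3 := C2_inv p x
        unfold ee
        have h4 : ((Real.exp (p * x) - 1) / p) ^ 2 * Real.exp (- (p * x)) =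
            (Real.exp (p * x) * (Real.exp (p * x) * Real.exp (- (p * x))) -
              2 * (Real.exp (p * x) * Real.exp (- (p * x))) + Real.exp (- (p * x))) / p ^ 2 := by ring
        rw [h4, h3]
        field_simp
        ring
      rw [h2] at h1
      exact h1) (by unfold ee; fun_prop) x1
  rw [h]
  unfold ee
  simp only [mul_zero, neg_zero, Real.exp_zero]
  field_simp
  ring

private theorem C2_ix {p : ℝ} (hp : p ≠ 0) (x1 : ℝ) :
    ∫ x in (0:ℝ)..x1, x * Real.exp (p * x) = (x1 * Real.exp (p * x1) - ee p x1) / p := by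
  have h := C2_ftc (F := fun x => x * Real.exp (p * x) / p - Real.exp (p * x) / p ^ 2)
    (f := fun x => x * Real.exp (p * x))
    (fun x => by
      have h1 := (((hasDerivAt_id x).mul (C2_ep p x)).div_const p).sub ((C2_ep p x).div_const (p ^ 2))
      have h2 : (1 * Real.exp (p * x) + x * (p * Real.exp (p * x))) / p - p * Real.exp (p * x) / p ^ 2 =
          x * Real.exp (p * x) := by
        field_simp
        ring
      have h3 := h1.congr_deriv h2
      exact h3) (by fun_prop) x1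
  rw [h]
  unfold ee
  simp only [mul_zero, Real.exp_zero, zero_mul]
  field_simp
  ring

end Integrals

theorem t_move (K : Bd) (h : K.CF) :
    HasDerivWithinAt (fun c => Real.exp (K.q * c) * (K.col.cut 0 c).J)
      ((K.col.a - K.St) * (K.col.b * K.St - K.col.M) / Real.exp (K.p * K.r 0)) (Ici 0) 0 := by
  have hp := h.hp
  have hq := h.hq
  have hreg : K.col.Reg := (cf_facts K h).2.2.2.2.2.2.2.2.2.2.1
  have hN0 : K.col.N 0 ≠ 0 := Dat.N0_ne K.col hreg
  obtain ⟨zM, zx, zN⟩ := tc_zero K h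
  have hE : HasDerivWithinAt (fun c => Real.exp (- (K.q * c))) (- K.q) (Ici 0) 0 := by
    have h1 := (C2_em K.q 0).hasDerivWithinAt (s := Ici 0)
    simpa using h1
  have hM := tc_M K h
  have hx := tc_xb K h
  have h0 := tc_N0 K h
  have h1 := tc_N1 K h
  have h2 := tc_N2 K h
  have hN0' : (tc K.col 0).N 0 ≠ 0 := by rw [zN]; exact hN0
  have ha := h1.div h0 hN0'
  have hF := (((hx.const_mul (-2)).add ((hE.mul hM).mul ha)).add ((h2.sub (ha.mul h1)).const_mul (K.p / K.q))).div_const K.q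
  have hfun : ∀ c, Real.exp (K.q * c) * (K.col.cut 0 c).J =
      (-2 * (tc K.col c).xb + Real.exp (- (K.q * c)) * (tc K.col c).M * ((tc K.col c).N 1 / (tc K.col c).N 0) +
      K.p / K.q * ((tc K.col c).N 2 - (tc K.col c).N 1 / (tc K.col c).N 0 * (tc K.col c).N 1)) / K.q :=
    fun c => cut_scale K.col hq c
  rw [funext hfun]
  refine HasDerivWithinAt.congr_deriv hF ?_
  simp only [Pi.mul_apply, Pi.div_apply]
  rw [zM, zN, zN, C2_i0 hp, C2_i1 hp, C2_i2 hp, C2_ix hp]
  have hSt : K.St = ee K.p (K.r 0) := rfl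
  rw [hSt]
  have hb : K.col.b = (K.col.M / (K.col.N 0 / K.q) - 1 - K.p * K.col.a - K.p * K.q * K.col.M) / K.q := rfl
  have hN1 : K.col.N 1 = K.col.a * K.col.N 0 := by
    unfold Dat.a
    field_simp
  rw [hb, hN1]
  set a := K.col.a
  set N0 := K.col.N 0
  set M := K.col.M
  set x1 := K.r 0
  have hρ : Real.exp (- (K.p * x1)) = (Real.exp (K.p * x1))⁻¹ := Real.exp_neg _
  rw [hρ]
  unfold ee
  have hρ0 : Real.exp (K.p * x1) ≠ 0 := (Real.exp_pos _).ne'
  set ρ := Real.exp (K.p * x1)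
  simp only [mul_zero, neg_zero, Real.exp_zero]
  field_simp
  ring

end Pool.Agent.Lib.MP_1dedaf_gt.DK
end

section

/-!
# TASK DK C6: the minimum argument: terminal inequality ⟹ corner-filled inequality

Proof. Let `K.col.J < 0`. By `F_min` there is a minimum point `(a, c)` of `F` in the body; `F (0,0) = J (cut 0 0) = K.col.J < 0` (`cut_zero`), so `P := K.col.cut a c` has `P.J < 0` and `P.D ≠ 0` (`cut_bound`). `K0` from `cut_bd`, `K0.col.J = P.J < 0`.
(T) If `0 < K0.u 0`: for small `ε ≥ 0` `(a, c + ε)` is in the body (`c + ε ≤ u a`), so `φ ε := e^{q ε} J (K0.col.cut 0 ε) ≥ φ 0` (`cut_J`; `F (a, c+ε) = e^{p a + q c} φ ε`), and its right derivative at `0` is `≥ 0`: by `t_move`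
`0 ≤ (a0 - St)(b0 St - M)` (`a0, b0, St, M` of `K0`). (S) If `0 < K0.r 0`: in the same way `0 ≤ (b0 - Ss)(a0 Ss - M)` by `s_move` (`(a + ε, c)` is in the body for `ε ≤ r c - a`; the row is convex).
`corner_pos`: `0 < K0.u 0` or `0 < K0.r 0`. Both positive: `Term` gives `0 ≤ K0.col.J`, contradiction. Only `0 < K0.u 0` (`K0.r 0 = 0`, `St = ee p 0 = 0`): (T) says `0 ≤ - a0 M`, but `a0 > 0` (`a_pos`: `N1_eq'`: `N 1 / q = ∫ Xl (1/rl - 1/ru)/q + ∫ mr/ru > 0`, `N 0 / q = D > 0`). Only `0 < K0.r 0` (`Ss = 0`): (S) says `0 ≤ - b0 M`, but `b0 = K0.row.a > 0` (`pivot_symm`, `a_pos` for `K0.row`).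
-/

set_option autoImplicit false

open MeasureTheory Set Filter Topology

namespace Pool.Agent.Lib.MP_1dedaf_gt.DK

/-- The pivot is positive. -/
theorem Dat.a_pos (K : Dat) (h : K.Reg) : 0 < K.a := by
  have hq := h.hq
  have hD := Dat.D_pos K h
  have hN0 : K.N 0 = K.q * K.D := by rw [Dat.A1_D_eq K hq, Dat.A1_N0_eq K hq]
  have hXl := K.Xl_cont h.cl
  have hdc : Continuous (fun x => K.mu x / (K.rl x * K.ru x)) :=
    (K.mu_cont h.cl h.cu).div ((K.rl_cont h.cl).mul (K.ru_cont h.cu))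
      fun x => (mul_pos (K.rl_pos x) (K.ru_pos x)).ne'
  have hdens : ∀ x, 1 / K.rl x - 1 / K.ru x = K.q * (K.mu x / (K.rl x * K.ru x)) := by
    intro x
    have h1 := (K.rl_pos x).ne'
    have h2 := (K.ru_pos x).ne'
    unfold Dat.mu
    field_simp
  have e1 : (∫ x in (0:ℝ)..K.w, K.Xl x * (1 / K.rl x - 1 / K.ru x)) =
      K.q * ∫ x in (0:ℝ)..K.w, K.Xl x * (K.mu x / (K.rl x * K.ru x)) := by
    rw [← intervalIntegral.integral_const_mul]
    refine intervalIntegral.integral_congr fun x _ => ?_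
    rw [hdens x]
    ring
  have h1 := Dat.N1_eq' K h.cl h.cu
  rw [e1, ← mul_add] at h1
  have h2 : K.a = ((∫ x in (0:ℝ)..K.w, K.Xl x * (K.mu x / (K.rl x * K.ru x))) +
      ∫ x in (0:ℝ)..K.w, K.mr x / K.ru x) / K.D := by
    unfold Dat.a
    rw [h1, hN0, mul_div_mul_left _ _ hq]
  have h3 : 0 ≤ ∫ x in (0:ℝ)..K.w, K.Xl x * (K.mu x / (K.rl x * K.ru x)) := by
    refine intervalIntegral.integral_nonneg h.hw.le fun x hx => ?_
    refine mul_nonneg ?_ (div_nonneg (Dat.mu_nonneg K h x hx) (mul_pos (K.rl_pos x) (K.ru_pos x)).le)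
    unfold Dat.Xl
    exact intervalIntegral.integral_nonneg hx.1 fun t _ => (K.rl_pos t).le
  have h4 : 0 < ∫ x in (0:ℝ)..K.w, K.mr x / K.ru x := by
    refine intervalIntegral.integral_pos h.hw
      ((K.mr_cont h.cl h.cu).div (K.ru_cont h.cu) fun x => (K.ru_pos x).ne').continuousOn
      (fun x hx => div_nonneg (Dat.mr_nonneg K h x ⟨hx.1.le, hx.2⟩) (K.ru_pos x).le)
      ⟨0, ⟨le_rfl, h.hw.le⟩, ?_⟩
    rw [K.mr_zero]
    exact div_pos (Dat.M_pos K h) (K.ru_pos 0)
  rw [h2]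
  exact div_pos (by linarith) hD

/-- A right derivative at a minimum is not negative. -/
private theorem C6_deriv {f : ℝ → ℝ} {f' : ℝ} (hf : HasDerivWithinAt f f' (Ici 0) 0) {δ : ℝ} (hδ : 0 < δ)
    (h : ∀ ε, 0 ≤ ε → ε ≤ δ → f 0 ≤ f ε) : 0 ≤ f' := by
  have h1 : Tendsto (slope f 0) (𝓝[>] (0:ℝ)) (𝓝 f') :=
    (hasDerivWithinAt_iff_tendsto_slope' (lt_irrefl (0:ℝ))).1 (hf.mono Ioi_subset_Ici_self)
  refine ge_of_tendsto h1 ?_
  have h2 : ∀ᶠ ε in 𝓝[>] (0:ℝ), ε ∈ Ioc 0 δ := Ioc_mem_nhdsGT hδ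
  filter_upwards [h2] with ε hε
  rw [slope_def_field]
  exact div_nonneg (sub_nonneg.2 (h ε hε.1.le hε.2)) (by linarith [hε.1])

private theorem C6_ee (k : ℝ) : ee k 0 = 0 := by
  unfold ee
  rw [mul_zero, Real.exp_zero, sub_self, zero_div]

theorem cf_pos (h1 : Term) : CFPos := by
  intro K h hr hu
  by_contra hJ
  rw [not_le] at hJ
  obtain ⟨-, -, -, -, hlx, -, -, -, -, -, -, -, -⟩ := cf_facts K h
  obtain ⟨⟨a, c⟩, hm, hmin⟩ := F_min K h
  dsimp only at hm hmin
  -- the minimum is negative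
  have hP : (K.col.cut a c).J < 0 := by
    have h3 := hmin (0, 0) h.corner
    dsimp only at h3
    have h4 : (K.col.cut 0 0).J = K.col.J := Dat.cut_zero K.col h.hw.le hlx h.lu
    rw [h4, mul_zero, mul_zero, add_zero, Real.exp_zero, one_mul] at h3
    have h5 := h3.trans_lt hJ
    by_contra h6
    exact absurd h5 (not_lt.2 (mul_nonneg (Real.exp_pos _).le (not_lt.1 h6)))
  have hD : (K.col.cut a c).D ≠ 0 := by
    intro h3
    obtain ⟨C, hC⟩ := cut_bound K h
    have h4 := (hC (a, c) hm).2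
    dsimp only at h4
    rw [h3, mul_zero] at h4
    have h5 := abs_nonpos_iff.1 h4
    rw [h5] at hP
    exact lt_irrefl _ hP
  obtain ⟨K0, w1, hK0, hw1, hw1', hcol, hcoll, hmem, hu0, hr0⟩ := cut_bd K h a c hm hD
  obtain ⟨hJ0, -, hct, hcs⟩ := cut_J K h a c hm K0 w1 hw1.le hw1' hcol hcoll
  have hp0 : K0.p = K.p := congrArg Dat.p hcol
  have hq0 : K0.q = K.q := congrArg Dat.q hcol
  have hw0 : K0.w = w1 := congrArg Dat.w hcol
  have hJn : K0.col.J < 0 := by
    rw [hJ0]
    exact hP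
  obtain ⟨hl0, hg0, hu00, hr00, -, -, hrow, -, hrw, -, hReg, hReg', -⟩ := cf_facts K0 hK0
  have hM := Dat.M_pos K0.col hReg
  -- the two moves
  have hT : 0 < K0.u 0 → 0 ≤ (K0.col.a - K0.St) * (K0.col.b * K0.St - K0.col.M) := by
    intro hpos
    have h3 := C6_deriv (t_move K0 hK0) hpos (by
      intro ε h4 h5
      have h6 : K.mem (a + 0) (c + ε) := (hmem 0 ε le_rfl h4).1 ⟨le_rfl, hK0.hw.le, by rw [hl0]; exact h4, h5⟩
      rw [add_zero] at h6
      have h7 := hmin (a, c + ε) h6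
      dsimp only at h7
      rw [hct 0 le_rfl, hct ε h4, hq0, mul_zero, Real.exp_zero, one_mul, add_zero]
      have h8 : K.p * a + K.q * (c + ε) = (K.p * a + K.q * c) + K.q * ε := by ring
      rw [h8, Real.exp_add (K.p * a + K.q * c) (K.q * ε), mul_assoc (Real.exp (K.p * a + K.q * c))] at h7
      exact le_of_mul_le_mul_left h7 (Real.exp_pos _))
    have h4 := mul_nonneg h3 (Real.exp_pos (K0.p * K0.r 0)).le
    rwa [div_mul_cancel₀ _ (Real.exp_pos _).ne'] at h4
  have hS : 0 < K0.r 0 → 0 ≤ (K0.col.b - K0.Ss) * (K0.col.a * K0.Ss - K0.col.M) := by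
    intro hpos
    have h3 := C6_deriv (s_move K0 hK0) hpos (by
      intro ε h4 h5
      obtain ⟨h9, h10, h11⟩ := hrow ε h4 h5
      have h6 : K.mem (a + ε) (c + 0) := (hmem ε 0 h4 le_rfl).1 ⟨h4, h9, h10.le, h11⟩
      rw [add_zero] at h6
      have h7 := hmin (a + ε, c) h6
      dsimp only at h7
      rw [hcs 0 le_rfl hw1.le, hcs ε h4 (by rw [← hw0]; exact h9), hp0, mul_zero, Real.exp_zero, one_mul,
        add_zero]
      have h8 : K.p * (a + ε) + K.q * c = (K.p * a + K.q * c) + K.p * ε := by ring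
      rw [h8, Real.exp_add (K.p * a + K.q * c) (K.p * ε), mul_assoc (Real.exp (K.p * a + K.q * c))] at h7
      exact le_of_mul_le_mul_left h7 (Real.exp_pos _))
    have h4 := mul_nonneg h3 (Real.exp_pos (K0.q * K0.u 0)).le
    rwa [div_mul_cancel₀ _ (Real.exp_pos _).ne'] at h4
  have hpos : 0 < K0.u 0 ∨ 0 < K0.r 0 := by
    rcases corner_pos K h hr hu a c hm hD with h3 | h3
    · left
      rw [hu0]
      linarith
    · right
      rw [hr0]
      linarith
  rcases hu00.lt_or_eq with hU | hU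
  · rcases hr00.lt_or_eq with hR | hR
    · -- both sides have positive length
      exact absurd (h1 K0 hK0 hR hU (hT hU) (hS hR)) (not_le.2 hJn)
    · -- the side on `y = 0` is a point
      have h3 := hT hU
      have h4 : K0.St = 0 := by
        unfold Bd.St
        rw [← hR, C6_ee]
      rw [h4, mul_zero, sub_zero, zero_sub] at h3
      have ha := Dat.a_pos K0.col hReg
      have h5 := mul_pos ha hM
      linarith
  · -- the side on `x = 0` is a point
    have hR : 0 < K0.r 0 := by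
      rcases hpos with h3 | h3
      · rw [← hU] at h3
        exact absurd h3 (lt_irrefl _)
      · exact h3
    have h3 := hS hR
    have h4 : K0.Ss = 0 := by
      unfold Bd.Ss
      rw [← hU, C6_ee]
    rw [h4, mul_zero, sub_zero, zero_sub] at h3
    have hb := Dat.a_pos K0.row hReg'
    rw [(Bd.pivot_symm K0 hK0).1] at hb
    have h5 := mul_pos hb hM
    linarith

end Pool.Agent.Lib.MP_1dedaf_gt.DK
end
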