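import Pool.Agent.Lib.MP_1dedaf_gt.DK.TM.F0
import Pool.Agent.Lib.MP_1dedaf_gt.DK.C1
import Pool.Agent.Lib.MP_1dedaf_gt.Mg.G004
import Pool.Agent.Lib.MP_1dedaf_gt.DK.C1b
import Pool.Agent.Lib.MP_1dedaf_gt.Mg.G005
import Pool.Agent.Lib.MP_1dedaf_gt.Mg.G052
import Pool.Agent.Lib.MP_1dedaf_gt.Mg.G051
import Pool.Agent.Lib.MP_1dedaf_gt.LB.E1a
import Pool.Agent.Lib.MP_1dedaf_gt.Mg.G053
import Pool.Agent.Lib.MP_1dedaf_gt.Mg.G048

section

/-!
# TASK TM OS: outer reference points and the exchange of the coordinates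

`OS_dens`: for `(x, y)` in `K`: `exp (p x + q y) = 1 + p q M + p Xu x + q (row.Xu y) + p q (mne x y)`. This is `box_dec` multiplied by `p q`: `exp (p x) = 1 + p ee p x`, `exp (q y) = 1 + q ee q y` (`exp_ee`), `Xu x = Xl x - q mr x`, `row.Xu y = row.Xl y - p (row.mr y)`
(`K.row.q = p`; all by `unfold`).

`OS_mne`: let `xN ≤ x ≤ w` with `u` antitone on `[xN, w]`. Then `mne x (u x) = 0`: the set `S ∩ (Ici x ×ˢ Ici (u x))` consists of points `(x', y')` with `x ≤ x'`, `u x ≤ y' ≤ u x' ≤ u x`, so it is contained in the line `{z | z.2 = u x}`, a null set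
(`MeasureTheory.Measure.restrict_zero_set`/`setIntegral_measure_zero`; the null set: `Measure.prod` of `univ` and a point, or `Measure.addHaar_affineSubspace`, or `measure_mono_null` with `(volume.prod volume) (univ ×ˢ {c}) = ∞ * 0 = 0`).
The same for `mne (r y) y = 0` with `y = u x`, `x ≥ xN`: it is `≥ 0` and `≤ mne x y = 0` by monotonicity of the set (`x ≤ r y` by `Ok.iff`), the integrand is `≥ 0`; or use that the set is again contained in the line.

`out_symm`. Assume `¬ (K.col.Out ξ η)` and show `¬ (K.row.Out η ξ)`. Let `xN` be as in `exists_top`. There is `x0 ∈ [xN, w]` with `ξ < Xu x0` and `η < Yu x0`: (upper witness `x ≤ xN`) take `x0 = xN`: `Xu xN ≥ Xu x` (`Xu_strictMono`), `Yu xN ≥ Yu x` (`Yu_le`, `u` is monotone on `[0, xN]`);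
(upper witness `x ≥ xN`) `x0 = x`; (lower witness `x`) `x0 = w`: `Xu w = Xl w ≥ Xl x` (`Xu_w`, `Xl_strictMono`), `Yu w ≥ Yl w ≥ Yl x` (`Dat.Yw`, `Bd.Yl_mono`). Let `y = u x0`, so `(x0, y) ∈ K` and `y ∈ [0, h]`, `x0 ≤ r y` (`Ok.iff`).
`OS_dens` at `(x0, y)` with `mne x0 y = 0`, compared with the definition of `Yu x0` (`ru x0 = 1 + p q M + p Xu x0 + q Yu x0`): `row.Xu y = Yu x0 > η`. `OS_dens` at `(r y, y)` with `mne (r y) y = 0`: `row.ru y = 1 + p q M + p Xu (r y) + q row.Xu y`,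
and by the definition of `row.Yu y` (`K.row.M = K.col.M` is `row_M`): `row.Yu y = Xu (r y) ≥ Xu x0 > ξ`. So `y` is a witness against `K.row.Out η ξ`.
-/

set_option autoImplicit false

open MeasureTheory Set Filter Topology

namespace Pool.Agent.Lib.MP_1dedaf_gt.DK

namespace Bd

theorem OS_dens (K : Bd) (h : K.CF) (x y : ℝ) (hm : K.mem x y) :
    Real.exp (K.p * x + K.q * y) = 1 + K.p * K.q * K.col.M + K.p * K.col.Xu x + K.q * K.row.Xu y + K.p * K.q * K.mne x y := by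
  have h1 := box_dec K h x y hm
  have hp := h.hp
  have hq := h.hq
  have e1 := exp_ee K.p x hp
  have e2 := exp_ee K.q y hq
  have e3 : K.col.Xu x = K.col.Xl x - K.q * K.col.mr x := rfl
  have e4 : K.row.Xu y = K.row.Xl y - K.p * K.row.mr y := rfl
  rw [Real.exp_add, e1, e2, e3, e4]
  have h2 : K.p * K.q * (ee K.p x * ee K.q y) = K.p * (K.col.Xl x - ee K.p x) + K.q * (K.row.Xl y - ee K.q y) +
      K.p * K.q * (K.col.M - K.col.mr x - K.row.mr y + K.mne x y) := by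
    rw [h1]
    field_simp
  linear_combination h2

private theorem OS_line (c : ℝ) : (volume : Measure (ℝ × ℝ)) {z : ℝ × ℝ | z.2 = c} = 0 := by
  have h1 : {z : ℝ × ℝ | z.2 = c} = (univ : Set ℝ) ×ˢ {c} := by
    ext z
    simp
  rw [h1, Measure.volume_eq_prod, Measure.prod_prod, Real.volume_singleton, mul_zero]

private theorem OS_mne0 (K : Bd) (xN x x' : ℝ) (hN : 0 ≤ xN) (ha : AntitoneOn K.u (Icc xN K.w)) (hx : xN ≤ x)
    (hx' : x ≤ x') : K.mne x' (K.u x) = 0 := by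
  unfold mne
  refine setIntegral_measure_zero _ (measure_mono_null ?_ (OS_line (K.u x)))
  rintro z ⟨hz, hz1, hz2⟩
  obtain ⟨m1, m2, m3, m4⟩ : K.mem z.1 z.2 := hz
  have g1 : x ≤ z.1 := hx'.trans hz1
  have h1 : K.u z.1 ≤ K.u x := ha ⟨hx, g1.trans m2⟩ ⟨hx.trans g1, m2⟩ g1
  exact le_antisymm (m4.trans h1) hz2

theorem OS_mne (K : Bd) (h : K.CF) (xN x : ℝ) (hN : 0 ≤ xN) (ha : AntitoneOn K.u (Icc xN K.w)) (hx : xN ≤ x) (hxw : x ≤ K.w) :
    K.mne x (K.u x) = 0 ∧ K.mne (K.r (K.u x)) (K.u x) = 0 := by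
  have hx0 : 0 ≤ x := hN.trans hx
  have hm := (h.iff x (K.u x)).1 ⟨hx0, hxw, h.lu x ⟨hx0, hxw⟩, le_rfl⟩
  exact ⟨OS_mne0 K xN x x hN ha hx le_rfl, OS_mne0 K xN x _ hN ha hx hm.2.2.2⟩

private theorem OS_core (K : Bd) (h : K.CF) (ξ η : ℝ) (ho : K.row.Out η ξ) (xN x : ℝ) (hN : 0 ≤ xN)
    (ha : AntitoneOn K.u (Icc xN K.w)) (hx : xN ≤ x) (hxw : x ≤ K.w) (h1 : ξ < K.col.Xu x) (h2 : η < K.col.Yu x) :
    False := by
  have hx0 : 0 ≤ x := hN.trans hx
  have hp := h.hp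
  have hq := h.hq
  have hmem : K.mem x (K.u x) := ⟨hx0, hxw, h.lu x ⟨hx0, hxw⟩, le_rfl⟩
  have hm := (h.iff x (K.u x)).1 hmem
  obtain ⟨z1, z2⟩ := OS_mne K h xN x hN ha hx hxw
  have hmem2 : K.mem (K.r (K.u x)) (K.u x) :=
    (h.iff _ _).2 ⟨hm.1, hm.2.1, hm.2.2.1.trans hm.2.2.2, le_rfl⟩
  have d1 := OS_dens K h x (K.u x) hmem
  have d2 := OS_dens K h (K.r (K.u x)) (K.u x) hmem2
  rw [z1, mul_zero, add_zero] at d1
  rw [z2, mul_zero, add_zero] at d2
  have e1 : K.col.Yu x = K.row.Xu (K.u x) := by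
    have e : K.col.Yu x = (Real.exp (K.p * x + K.q * K.u x) - 1 - K.p * K.q * K.col.M - K.p * K.col.Xu x) / K.q := rfl
    rw [e, d1]
    field_simp
    ring
  have e2 : K.row.Yu (K.u x) = K.col.Xu (K.r (K.u x)) := by
    have e : K.row.Yu (K.u x) = (Real.exp (K.q * K.u x + K.p * K.r (K.u x)) - 1 - K.q * K.p * K.row.M -
      K.q * K.row.Xu (K.u x)) / K.p := rfl
    rw [e, add_comm (K.q * K.u x), d2, row_M K h.toOk]
    field_simp
    ring
  have e3 : K.col.Xu x ≤ K.col.Xu (K.r (K.u x)) :=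
    (K.col.Xu_strictMono h.hq h.cl h.cu).monotone hm.2.2.2
  refine (ho (K.u x) ⟨hm.1, hm.2.1⟩).2 ⟨?_, ?_⟩
  · rw [← e1]
    exact h2
  · rw [e2]
    exact h1.trans_le e3

theorem out_symm (K : Bd) (h : K.CF) (ξ η : ℝ) (ho : K.row.Out η ξ) : K.col.Out ξ η := by
  obtain ⟨xN, hxN, hm, ha⟩ := exists_top K h.toOk
  have hR := cReg K h
  intro x hx
  have hx' : x ∈ Icc 0 K.w := hx
  constructor
  · rintro ⟨h1, h2⟩
    refine OS_core K h ξ η ho xN K.w hxN.1 ha hxN.2 le_rfl ?_ ?_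
    · have e1 : K.col.Xu K.w = K.col.Xl K.w := K.col.Xu_w
      rw [e1]
      exact h1.trans_le ((K.col.Xl_strictMono h.cl).monotone hx'.2)
    · have e1 : K.col.Yl K.w ≤ K.col.Yu K.w := K.col.Yw hR
      have e2 : K.col.Yl x ≤ K.col.Yl K.w := Yl_mono K h hx' ⟨h.hw.le, le_rfl⟩ hx'.2
      exact h2.trans_le (e2.trans e1)
  · rintro ⟨h1, h2⟩
    rcases le_total x xN with hc | hc
    · refine OS_core K h ξ η ho xN xN hxN.1 ha le_rfl hxN.2 ?_ ?_
      · exact h1.trans_le ((K.col.Xu_strictMono h.hq h.cl h.cu).monotone hc)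
      · exact h2.trans_le (K.col.Yu_le h.hq h.cl h.cu x xN hc (hm.mono fun t ht => ⟨hx'.1.trans ht.1, ht.2⟩))
    · exact OS_core K h ξ η ho xN x hxN.1 ha hc hx'.2 h1 h2

end Bd

end Pool.Agent.Lib.MP_1dedaf_gt.DK
end

section

/-!
# TASK LB E5b: the equality case as a structure

Proof. (`exists_ext`) `ψ' x = ‖x‖ * ψ (‖x‖⁻¹ • x)` (continuous at `0` since `ψ` is bounded on the circle). (`EE_congr`) `nu B x` is a unit vector for almost every `x`
(`good_ae`, `nu_norm`). (`eqCase`) `arL`: `heq` with `ar C = ar K` and `log` injective on positive numbers (`ar_pos`; `LC t K C` is a body, `Wu_body`); the laws: `law_K`, `law_C` for `ψ'`.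
-/

set_option autoImplicit false

open MeasureTheory Set Filter Topology

namespace Pool.Agent.Lib.MP_1dedaf_gt.LB

theorem exists_ext {ψ : E2 → ℝ} (hψ : ContinuousOn ψ (Metric.sphere 0 1)) :
    ∃ ψ' : E2 → ℝ, Continuous ψ' ∧ ∀ u : E2, ‖u‖ = 1 → ψ' u = ψ u := by
  obtain ⟨g, hg⟩ := ContinuousMap.exists_restrict_eq (Metric.isClosed_sphere (x := (0 : E2)) (ε := 1))
    (⟨(Metric.sphere (0 : E2) 1).domRestrict ψ, hψ.domRestrict⟩ : C(Metric.sphere (0 : E2) 1, ℝ))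
  refine ⟨g, g.continuous, fun u hu => ?_⟩
  have hmem : u ∈ Metric.sphere (0 : E2) 1 := by simpa using hu
  have h := congrArg (fun f : C(Metric.sphere (0 : E2) 1, ℝ) => f ⟨u, hmem⟩) hg
  exact h

theorem EE_congr {B : Set E2} (hB : Body B) {ψ ψ' : E2 → ℝ} (h : ∀ u : E2, ‖u‖ = 1 → ψ u = ψ' u) : EE B ψ = EE B ψ' := by
  unfold EE
  congr 1
  refine integral_congr_ae ?_
  filter_upwards [ae_restrict_of_ae (good_ae hB)] with x hx
  exact h _ (nu_norm hB hx)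

theorem LC_body {t : ℝ} {K C : Set E2} (hK : Body K) (hC : Body C) : Body (LC t K C) := by
  have h1 : ∀ u ∈ Metric.sphere (0 : E2) 1, u ≠ 0 := by
    intro u hu h0
    subst h0
    simp at hu
  refine Wu_body ?_ ?_
  · refine ContinuousOn.mul ?_ ?_
    · exact (hs_cont hK).continuousOn.rpow_const fun u hu => Or.inl (hs_pos hK (h1 u hu)).ne'
    · exact (hs_cont hC).continuousOn.rpow_const fun u hu => Or.inl (hs_pos hC (h1 u hu)).ne'
  · intro u hu
    have hu0 : u ≠ 0 := by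
      intro h0
      subst h0
      simp at hu
    exact mul_pos (Real.rpow_pos_of_pos (hs_pos hK hu0) _) (Real.rpow_pos_of_pos (hs_pos hC hu0) _)

theorem eqCase {t : ℝ} (ht0 : 0 < t) (ht1 : t < 1) (hA : ThmA t) {K C : Set E2} (hK : Body K) (hC : Body C) (h0 : ∫ x in K, x = 0)
    (h0' : ∫ x in C, x = 0) (har : ar C = ar K)
    (heq : Real.log (ar (LC t K C)) = (1 - t) * Real.log (ar K) + t * Real.log (ar C)) : EqCase t K C := by
  have hL : Body (LC t K C) := LC_body hK hC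
  have harL : ar (LC t K C) = ar K := by
    refine Real.log_injOn_pos (ar_pos hL) (ar_pos hK) ?_
    rw [heq, har]
    ring
  refine ⟨hK, hC, har, harL, fun ψ hψ => ?_, fun ψ hψ => ?_⟩
  · obtain ⟨ψ', hc, he⟩ := exists_ext hψ
    have e1 : EE C ψ = EE C ψ' := EE_congr hC fun u hu => (he u hu).symm
    have e2 : EE K ψ = EE K ψ' := EE_congr hK fun u hu => (he u hu).symm
    rw [e1, e2, law_C ht0 ht1 hA hK hC h0 h0' heq hc, law_K ht0 ht1 hA hK hC h0 h0' heq hc]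
  · obtain ⟨ψ', hc, he⟩ := exists_ext hψ
    have e1 : EE (LC t K C) ψ = EE (LC t K C) ψ' := EE_congr hL fun u hu => (he u hu).symm
    have e2 : EE K ψ = EE K ψ' := EE_congr hK fun u hu => (he u hu).symm
    rw [e1, e2, law_K ht0 ht1 hA hK hC h0 h0' heq hc]

end Pool.Agent.Lib.MP_1dedaf_gt.LB
end
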