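import Mathlib

section

/-!
# Opposite pairs: the one-dimensional inequality (campaign OP), definitions

`φ` is the logarithm of a density. `cA, cI, cP, cS` are the integrals over `[0, x]` of `e^φ`, `e^{-φ}`, `A e^{-φ}`, `A² e^{-φ}` (`A = cA φ`).
`mL, mI, mP, mQ, mG` are the moments over `[a, b]`: with `A(x) = ∫_a^x e^φ`, `B(x) = ∫_x^b e^φ` they are `A(b)`, `∫ e^{-φ}`, `∫ A e^{-φ}`,
`∫ B e^{-φ}`, `∫ A B e^{-φ}`. For a pair `f ≤ g`: `dD`, `dM`, `al`, `be`, `dJ`, `Xi`, `Xi'`, and `Fa f β a b` the value at `a` of `(B - β) e^{-f}`.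
`PD`: `C¹` functions, `f'` monotone, `g'` antitone on `[a, b]`, `f ≤ g` there, not identical.
-/

set_option autoImplicit false

open MeasureTheory Set Filter Topology

namespace Pool.Agent.Lib.MP_1dedaf_gt.DK

noncomputable def oI (w : ℝ) (f : ℝ → ℝ) : ℝ := ∫ x in (0:ℝ)..w, Real.exp (-f x)

noncomputable def oP (w : ℝ) (f : ℝ → ℝ) : ℝ := ∫ x in (0:ℝ)..w, (∫ t in (0:ℝ)..x, Real.exp (f t)) * Real.exp (-f x)

noncomputable def oQ (w : ℝ) (f : ℝ → ℝ) : ℝ := ∫ x in (0:ℝ)..w, (∫ t in x..w, Real.exp (f t)) * Real.exp (-f x)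

noncomputable def oG (w : ℝ) (f : ℝ → ℝ) : ℝ :=
  ∫ x in (0:ℝ)..w, (∫ t in (0:ℝ)..x, Real.exp (f t)) * (∫ t in x..w, Real.exp (f t)) * Real.exp (-f x)

/-- The inequality for opposite pairs. -/
def OPP1 : Prop := ∀ (w : ℝ) (f g : ℝ → ℝ), 0 < w → Continuous f → Continuous g → ConvexOn ℝ (Icc 0 w) f → ConcaveOn ℝ (Icc 0 w) g →
  (∀ x ∈ Icc 0 w, f x ≤ g x) → f w = g w → 0 ≤ (oG w g - oG w f) * (oI w f - oI w g) + (oP w f - oP w g) * (oQ w f - oQ w g)

namespace OP

noncomputable def cA (φ : ℝ → ℝ) (x : ℝ) : ℝ := ∫ t in (0:ℝ)..x, Real.exp (φ t)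

noncomputable def cI (φ : ℝ → ℝ) (x : ℝ) : ℝ := ∫ t in (0:ℝ)..x, Real.exp (-φ t)

noncomputable def cP (φ : ℝ → ℝ) (x : ℝ) : ℝ := ∫ t in (0:ℝ)..x, cA φ t * Real.exp (-φ t)

noncomputable def cS (φ : ℝ → ℝ) (x : ℝ) : ℝ := ∫ t in (0:ℝ)..x, cA φ t ^ 2 * Real.exp (-φ t)

noncomputable def mL (φ : ℝ → ℝ) (a b : ℝ) : ℝ := cA φ b - cA φ a

noncomputable def mI (φ : ℝ → ℝ) (a b : ℝ) : ℝ := cI φ b - cI φ a

noncomputable def mP (φ : ℝ → ℝ) (a b : ℝ) : ℝ := (cP φ b - cP φ a) - cA φ a * mI φ a b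

noncomputable def mQ (φ : ℝ → ℝ) (a b : ℝ) : ℝ := cA φ b * mI φ a b - (cP φ b - cP φ a)

noncomputable def mG (φ : ℝ → ℝ) (a b : ℝ) : ℝ :=
  (cA φ a + cA φ b) * (cP φ b - cP φ a) - (cS φ b - cS φ a) - cA φ a * cA φ b * mI φ a b

noncomputable def dD (f g : ℝ → ℝ) (a b : ℝ) : ℝ := mI f a b - mI g a b

noncomputable def dM (f g : ℝ → ℝ) (a b : ℝ) : ℝ := mL g a b - mL f a b

noncomputable def al (f g : ℝ → ℝ) (a b : ℝ) : ℝ := (mP f a b - mP g a b) / dD f g a b

noncomputable def be (f g : ℝ → ℝ) (a b : ℝ) : ℝ := (mQ f a b - mQ g a b) / dD f g a b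

noncomputable def dJ (f g : ℝ → ℝ) (a b : ℝ) : ℝ := mG g a b - mG f a b + (mP f a b - mP g a b) * (mQ f a b - mQ g a b) / dD f g a b

noncomputable def Xi (f g : ℝ → ℝ) (a b : ℝ) : ℝ := mQ f a b - be f g a b * mI f a b

noncomputable def Xi' (f g : ℝ → ℝ) (a b : ℝ) : ℝ := mP f a b - al f g a b * mI f a b

/-- The value at `a` of `(B - β) e^{-φ}`. -/
noncomputable def Fa (φ : ℝ → ℝ) (β a b : ℝ) : ℝ := (mL φ a b - β) * Real.exp (-φ a)

/-- `C¹` data. -/
structure PD (f g f' g' : ℝ → ℝ) (a b : ℝ) : Prop where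
  ab : a < b
  df : ∀ x, HasDerivAt f (f' x) x
  dg : ∀ x, HasDerivAt g (g' x) x
  cf : Continuous f'
  cg : Continuous g'
  mf : MonotoneOn f' (Icc a b)
  mg : AntitoneOn g' (Icc a b)
  le : ∀ x ∈ Icc a b, f x ≤ g x
  fat : ∃ x ∈ Icc a b, f x < g x

/-- The properties of a minimum of `dJ / (b - a)` in the family of vertical cuts and raised lower boundaries. -/
def Mn (f g : ℝ → ℝ) (a b m : ℝ) : Prop := dJ f g a b = -m * (b - a) ∧
  ∀ a' b' c, a ≤ a' → a' < b' → b' ≤ b → 0 ≤ c → (∀ x ∈ Icc a' b', f x + c ≤ g x) → (∃ x ∈ Icc a' b', f x + c < g x) →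
    -m * (b' - a') ≤ dJ (fun x => f x + c) g a' b'

end OP

end Pool.Agent.Lib.MP_1dedaf_gt.DK
end

section

/-!
# TASK OP B1: calculus of the moments

Proof. `cA_deriv`...: fundamental theorem of calculus (`intervalIntegral.integral_hasDerivAt_right`, integrand continuous); `cA` is continuous because it has a
derivative. `*_int`: `intervalIntegral.integral_interval_sub_left` and linearity of the integral (expand `(A x - A a) (A b - A x)`; integrands continuous).
`*_cat`: unfold, ring. `*_up`: `e^{φ + c} = e^c e^φ`, so `cA (φ + c) = e^c cA φ`, `cI = e^{-c} cI`, `cP` unchanged, `cS = e^c cS` (move constants out of the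
integrals; `e^{-c} e^c = 1`). `*_neg`: `intervalIntegral.integral_comp_neg`: `cA (φ ∘ neg) x = - cA φ (-x)`, `cI` the same, `cP (φ ∘ neg) x = cP φ (-x)`,
`cS (φ ∘ neg) x = - cS φ (-x)`. `o*_eq`: `cA φ 0 = 0` etc.
-/

set_option autoImplicit false

open MeasureTheory Set Filter Topology

namespace Pool.Agent.Lib.MP_1dedaf_gt.DK

namespace OP

variable {φ : ℝ → ℝ}

theorem B1_exp (c : ℝ) : Real.exp c * Real.exp (-c) = 1 := by
  rw [← Real.exp_add, add_neg_cancel, Real.exp_zero]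

theorem B1_cA0 (φ : ℝ → ℝ) : cA φ 0 = 0 := intervalIntegral.integral_same

theorem B1_cI0 (φ : ℝ → ℝ) : cI φ 0 = 0 := intervalIntegral.integral_same

theorem B1_cP0 (φ : ℝ → ℝ) : cP φ 0 = 0 := intervalIntegral.integral_same

theorem B1_cA_up (φ : ℝ → ℝ) (c x : ℝ) : cA (fun x => φ x + c) x = Real.exp c * cA φ x := by
  unfold cA
  rw [← intervalIntegral.integral_const_mul]
  congr 1
  funext t
  rw [Real.exp_add]
  ring

theorem B1_cI_up (φ : ℝ → ℝ) (c x : ℝ) : cI (fun x => φ x + c) x = Real.exp (-c) * cI φ x := by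
  unfold cI
  rw [← intervalIntegral.integral_const_mul]
  congr 1
  funext t
  rw [neg_add, Real.exp_add]
  ring

theorem B1_cP_up (φ : ℝ → ℝ) (c x : ℝ) : cP (fun x => φ x + c) x = cP φ x := by
  unfold cP
  congr 1
  funext t
  rw [B1_cA_up, neg_add, Real.exp_add]
  have he := B1_exp c
  linear_combination (cA φ t * Real.exp (-φ t)) * he

theorem B1_cS_up (φ : ℝ → ℝ) (c x : ℝ) : cS (fun x => φ x + c) x = Real.exp c * cS φ x := by
  unfold cS
  rw [← intervalIntegral.integral_const_mul]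
  congr 1
  funext t
  rw [B1_cA_up, neg_add, Real.exp_add]
  have he := B1_exp c
  linear_combination (Real.exp c * cA φ t ^ 2 * Real.exp (-φ t)) * he

theorem B1_cA_neg (φ : ℝ → ℝ) (x : ℝ) : cA (fun x => φ (-x)) x = -cA φ (-x) := by
  unfold cA
  have h := intervalIntegral.integral_comp_neg (a := (0:ℝ)) (b := x) (fun t => Real.exp (φ t))
  rw [h, neg_zero, intervalIntegral.integral_symm]

theorem B1_cI_neg (φ : ℝ → ℝ) (x : ℝ) : cI (fun x => φ (-x)) x = -cI φ (-x) := by
  unfold cI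
  have h := intervalIntegral.integral_comp_neg (a := (0:ℝ)) (b := x) (fun t => Real.exp (-φ t))
  rw [h, neg_zero, intervalIntegral.integral_symm]

theorem B1_cP_neg (φ : ℝ → ℝ) (x : ℝ) : cP (fun x => φ (-x)) x = cP φ (-x) := by
  unfold cP
  have h := intervalIntegral.integral_comp_neg (a := (0:ℝ)) (b := x) (fun t => -(cA φ t * Real.exp (-φ t)))
  have h2 : (∫ t in (0:ℝ)..x, cA (fun x => φ (-x)) t * Real.exp (-φ (-t))) =
      ∫ t in (0:ℝ)..x, -(cA φ (-t) * Real.exp (-φ (-t))) := by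
    congr 1
    funext t
    rw [B1_cA_neg]
    ring
  rw [h2, h, neg_zero, intervalIntegral.integral_symm, intervalIntegral.integral_neg, neg_neg]

theorem B1_cS_neg (φ : ℝ → ℝ) (x : ℝ) : cS (fun x => φ (-x)) x = -cS φ (-x) := by
  unfold cS
  have h := intervalIntegral.integral_comp_neg (a := (0:ℝ)) (b := x) (fun t => cA φ t ^ 2 * Real.exp (-φ t))
  have h2 : (∫ t in (0:ℝ)..x, cA (fun x => φ (-x)) t ^ 2 * Real.exp (-φ (-t))) =
      ∫ t in (0:ℝ)..x, cA φ (-t) ^ 2 * Real.exp (-φ (-t)) := by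
    congr 1
    funext t
    rw [B1_cA_neg]
    ring
  rw [h2, h, neg_zero, intervalIntegral.integral_symm]

theorem cA_deriv (h : Continuous φ) (x : ℝ) : HasDerivAt (cA φ) (Real.exp (φ x)) x := by
  have hc : Continuous (fun t => Real.exp (φ t)) := Real.continuous_exp.comp h
  exact intervalIntegral.integral_hasDerivAt_right (hc.intervalIntegrable _ _)
    (hc.stronglyMeasurableAtFilter _ _) hc.continuousAt

theorem cI_deriv (h : Continuous φ) (x : ℝ) : HasDerivAt (cI φ) (Real.exp (-φ x)) x := by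
  have hc : Continuous (fun t => Real.exp (-φ t)) := Real.continuous_exp.comp h.neg
  exact intervalIntegral.integral_hasDerivAt_right (hc.intervalIntegrable _ _)
    (hc.stronglyMeasurableAtFilter _ _) hc.continuousAt

theorem cP_deriv (h : Continuous φ) (x : ℝ) : HasDerivAt (cP φ) (cA φ x * Real.exp (-φ x)) x := by
  have hA : Continuous (cA φ) := continuous_iff_continuousAt.2 (fun y => (cA_deriv h y).continuousAt)
  have hc : Continuous (fun t => cA φ t * Real.exp (-φ t)) := hA.mul (Real.continuous_exp.comp h.neg)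
  exact intervalIntegral.integral_hasDerivAt_right (hc.intervalIntegrable _ _)
    (hc.stronglyMeasurableAtFilter _ _) hc.continuousAt

theorem cS_deriv (h : Continuous φ) (x : ℝ) : HasDerivAt (cS φ) (cA φ x ^ 2 * Real.exp (-φ x)) x := by
  have hA : Continuous (cA φ) := continuous_iff_continuousAt.2 (fun y => (cA_deriv h y).continuousAt)
  have hc : Continuous (fun t => cA φ t ^ 2 * Real.exp (-φ t)) :=
    (hA.pow 2).mul (Real.continuous_exp.comp h.neg)
  exact intervalIntegral.integral_hasDerivAt_right (hc.intervalIntegrable _ _)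
    (hc.stronglyMeasurableAtFilter _ _) hc.continuousAt

theorem cA_cont (h : Continuous φ) : Continuous (cA φ) := by
  exact continuous_iff_continuousAt.2 (fun y => (cA_deriv h y).continuousAt)

theorem mL_int (h : Continuous φ) (a b : ℝ) : mL φ a b = ∫ x in a..b, Real.exp (φ x) := by
  have hc : Continuous (fun t => Real.exp (φ t)) := Real.continuous_exp.comp h
  exact intervalIntegral.integral_interval_sub_left (hc.intervalIntegrable _ _) (hc.intervalIntegrable _ _)

theorem mI_int (h : Continuous φ) (a b : ℝ) : mI φ a b = ∫ x in a..b, Real.exp (-φ x) := by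
  have hc : Continuous (fun t => Real.exp (-φ t)) := Real.continuous_exp.comp h.neg
  exact intervalIntegral.integral_interval_sub_left (hc.intervalIntegrable _ _) (hc.intervalIntegrable _ _)

theorem mP_int (h : Continuous φ) (a b : ℝ) : mP φ a b = ∫ x in a..b, mL φ a x * Real.exp (-φ x) := by
  have hE : Continuous (fun t => Real.exp (-φ t)) := Real.continuous_exp.comp h.neg
  have hc : Continuous (fun t => cA φ t * Real.exp (-φ t)) := (cA_cont h).mul hE
  have h1 : cP φ b - cP φ a = ∫ x in a..b, cA φ x * Real.exp (-φ x) :=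
    intervalIntegral.integral_interval_sub_left (hc.intervalIntegrable _ _) (hc.intervalIntegrable _ _)
  have h2 : (∫ x in a..b, mL φ a x * Real.exp (-φ x)) =
      (∫ x in a..b, cA φ x * Real.exp (-φ x)) - ∫ x in a..b, cA φ a * Real.exp (-φ x) := by
    have i1 : IntervalIntegrable (fun x => cA φ x * Real.exp (-φ x)) volume a b := hc.intervalIntegrable _ _
    have i2 : IntervalIntegrable (fun x => cA φ a * Real.exp (-φ x)) volume a b :=
      (hE.intervalIntegrable _ _).const_mul _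
    rw [← intervalIntegral.integral_sub i1 i2]
    congr 1
    funext x
    unfold mL
    ring
  rw [h2, intervalIntegral.integral_const_mul, ← mI_int h, ← h1]
  rfl

theorem mQ_int (h : Continuous φ) (a b : ℝ) : mQ φ a b = ∫ x in a..b, mL φ x b * Real.exp (-φ x) := by
  have hE : Continuous (fun t => Real.exp (-φ t)) := Real.continuous_exp.comp h.neg
  have hc : Continuous (fun t => cA φ t * Real.exp (-φ t)) := (cA_cont h).mul hE
  have h1 : cP φ b - cP φ a = ∫ x in a..b, cA φ x * Real.exp (-φ x) :=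
    intervalIntegral.integral_interval_sub_left (hc.intervalIntegrable _ _) (hc.intervalIntegrable _ _)
  have h2 : (∫ x in a..b, mL φ x b * Real.exp (-φ x)) =
      (∫ x in a..b, cA φ b * Real.exp (-φ x)) - ∫ x in a..b, cA φ x * Real.exp (-φ x) := by
    have i1 : IntervalIntegrable (fun x => cA φ x * Real.exp (-φ x)) volume a b := hc.intervalIntegrable _ _
    have i2 : IntervalIntegrable (fun x => cA φ b * Real.exp (-φ x)) volume a b :=
      (hE.intervalIntegrable _ _).const_mul _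
    rw [← intervalIntegral.integral_sub i2 i1]
    congr 1
    funext x
    unfold mL
    ring
  rw [h2, intervalIntegral.integral_const_mul, ← mI_int h, ← h1]
  rfl

theorem mG_int (h : Continuous φ) (a b : ℝ) : mG φ a b = ∫ x in a..b, mL φ a x * mL φ x b * Real.exp (-φ x) := by
  have hE : Continuous (fun t => Real.exp (-φ t)) := Real.continuous_exp.comp h.neg
  have hc : Continuous (fun t => cA φ t * Real.exp (-φ t)) := (cA_cont h).mul hE
  have hs : Continuous (fun t => cA φ t ^ 2 * Real.exp (-φ t)) := ((cA_cont h).pow 2).mul hE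
  have h1 : cP φ b - cP φ a = ∫ x in a..b, cA φ x * Real.exp (-φ x) :=
    intervalIntegral.integral_interval_sub_left (hc.intervalIntegrable _ _) (hc.intervalIntegrable _ _)
  have h3 : cS φ b - cS φ a = ∫ x in a..b, cA φ x ^ 2 * Real.exp (-φ x) :=
    intervalIntegral.integral_interval_sub_left (hs.intervalIntegrable _ _) (hs.intervalIntegrable _ _)
  have h2 : (∫ x in a..b, mL φ a x * mL φ x b * Real.exp (-φ x)) =
      (∫ x in a..b, (cA φ a + cA φ b) * (cA φ x * Real.exp (-φ x))) -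
        (∫ x in a..b, cA φ x ^ 2 * Real.exp (-φ x)) - ∫ x in a..b, cA φ a * cA φ b * Real.exp (-φ x) := by
    have i1 : IntervalIntegrable (fun x => (cA φ a + cA φ b) * (cA φ x * Real.exp (-φ x))) volume a b :=
      (hc.intervalIntegrable _ _).const_mul _
    have i2 : IntervalIntegrable (fun x => cA φ x ^ 2 * Real.exp (-φ x)) volume a b := hs.intervalIntegrable _ _
    have i3 : IntervalIntegrable (fun x => cA φ a * cA φ b * Real.exp (-φ x)) volume a b :=
      (hE.intervalIntegrable _ _).const_mul _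
    rw [← intervalIntegral.integral_sub i1 i2, ← intervalIntegral.integral_sub (i1.sub i2) i3]
    congr 1
    funext x
    unfold mL
    ring
  rw [h2, intervalIntegral.integral_const_mul, intervalIntegral.integral_const_mul, ← mI_int h, ← h1, ← h3]
  rfl

theorem mL_cat (φ : ℝ → ℝ) (a v b : ℝ) : mL φ a b = mL φ a v + mL φ v b := by
  unfold mL
  ring

theorem mI_cat (φ : ℝ → ℝ) (a v b : ℝ) : mI φ a b = mI φ a v + mI φ v b := by
  unfold mI
  ring

theorem mP_cat (φ : ℝ → ℝ) (a v b : ℝ) : mP φ a b = mP φ a v + mP φ v b + mL φ a v * mI φ v b := by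
  unfold mP mL mI
  ring

theorem mQ_cat (φ : ℝ → ℝ) (a v b : ℝ) : mQ φ a b = mQ φ a v + mQ φ v b + mL φ v b * mI φ a v := by
  unfold mQ mL mI
  ring

theorem mG_cat (φ : ℝ → ℝ) (a v b : ℝ) : mG φ a b = mG φ a v + mG φ v b + mL φ v b * mP φ a v + mL φ a v * mQ φ v b := by
  unfold mG mP mQ mL mI
  ring

theorem mPQ (φ : ℝ → ℝ) (a b : ℝ) : mP φ a b + mQ φ a b = mL φ a b * mI φ a b := by
  unfold mP mQ mL mI
  ring

theorem m_self (φ : ℝ → ℝ) (a : ℝ) : mL φ a a = 0 ∧ mI φ a a = 0 ∧ mP φ a a = 0 ∧ mQ φ a a = 0 ∧ mG φ a a = 0 := by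
  refine ⟨?_, ?_, ?_, ?_, ?_⟩
  · unfold mL; ring
  · unfold mI; ring
  · unfold mP mI; ring
  · unfold mQ mI; ring
  · unfold mG mI; ring

theorem mL_up (h : Continuous φ) (c a b : ℝ) : mL (fun x => φ x + c) a b = Real.exp c * mL φ a b := by
  unfold mL
  rw [B1_cA_up, B1_cA_up]
  ring

theorem mI_up (h : Continuous φ) (c a b : ℝ) : mI (fun x => φ x + c) a b = Real.exp (-c) * mI φ a b := by
  unfold mI
  rw [B1_cI_up, B1_cI_up]
  ring

theorem mP_up (h : Continuous φ) (c a b : ℝ) : mP (fun x => φ x + c) a b = mP φ a b := by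
  unfold mP
  rw [mI_up h, B1_cP_up, B1_cP_up, B1_cA_up]
  have he := B1_exp c
  linear_combination (-(cA φ a * mI φ a b)) * he

theorem mQ_up (h : Continuous φ) (c a b : ℝ) : mQ (fun x => φ x + c) a b = mQ φ a b := by
  unfold mQ
  rw [mI_up h, B1_cP_up, B1_cP_up, B1_cA_up]
  have he := B1_exp c
  linear_combination (cA φ b * mI φ a b) * he

theorem mG_up (h : Continuous φ) (c a b : ℝ) : mG (fun x => φ x + c) a b = Real.exp c * mG φ a b := by
  unfold mG
  rw [mI_up h, B1_cP_up, B1_cP_up, B1_cA_up, B1_cA_up, B1_cS_up, B1_cS_up]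
  have he := B1_exp c
  linear_combination (-(cA φ a * cA φ b * mI φ a b * Real.exp c)) * he

theorem mL_neg (φ : ℝ → ℝ) (a b : ℝ) : mL (fun x => φ (-x)) (-b) (-a) = mL φ a b := by
  unfold mL
  rw [B1_cA_neg, B1_cA_neg, neg_neg, neg_neg]
  ring

theorem mI_neg (φ : ℝ → ℝ) (a b : ℝ) : mI (fun x => φ (-x)) (-b) (-a) = mI φ a b := by
  unfold mI
  rw [B1_cI_neg, B1_cI_neg, neg_neg, neg_neg]
  ring

theorem mP_neg (φ : ℝ → ℝ) (a b : ℝ) : mP (fun x => φ (-x)) (-b) (-a) = mQ φ a b := by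
  unfold mP mQ
  rw [mI_neg, B1_cP_neg, B1_cP_neg, B1_cA_neg, neg_neg, neg_neg]
  ring

theorem mQ_neg (φ : ℝ → ℝ) (a b : ℝ) : mQ (fun x => φ (-x)) (-b) (-a) = mP φ a b := by
  unfold mP mQ
  rw [mI_neg, B1_cP_neg, B1_cP_neg, B1_cA_neg, neg_neg, neg_neg]
  ring

theorem mG_neg (φ : ℝ → ℝ) (a b : ℝ) : mG (fun x => φ (-x)) (-b) (-a) = mG φ a b := by
  unfold mG
  rw [mI_neg, B1_cP_neg, B1_cP_neg, B1_cA_neg, B1_cA_neg, B1_cS_neg, B1_cS_neg, neg_neg, neg_neg]
  ring

theorem oI_eq (w : ℝ) (f : ℝ → ℝ) : oI w f = mI f 0 w := by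
  unfold oI mI
  rw [B1_cI0, sub_zero]
  rfl

theorem oP_eq (w : ℝ) (f : ℝ → ℝ) : oP w f = mP f 0 w := by
  unfold oP mP
  rw [B1_cA0, B1_cP0, zero_mul, sub_zero, sub_zero]
  rfl

theorem oQ_eq (w : ℝ) (f : ℝ → ℝ) (h : Continuous f) : oQ w f = mQ f 0 w := by
  rw [mQ_int h]
  unfold oQ
  congr 1
  funext x
  rw [mL_int h]

theorem oG_eq (w : ℝ) (f : ℝ → ℝ) (h : Continuous f) : oG w f = mG f 0 w := by
  rw [mG_int h]
  unfold oG
  congr 1
  funext x
  rw [mL_int h, mL_int h]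

end OP

end Pool.Agent.Lib.MP_1dedaf_gt.DK
end

section

/-!
# TASK OP Ch: a one-crossing integral inequality

Proof. `(u x - u c) * v x ≤ 0` on `[a, b]` when `u` is monotone (on `[a, c]`: `u x ≤ u c`, `v x ≥ 0`; on `[c, b]`: `u x ≥ u c`, `v x ≤ 0`), so
`∫ u v = ∫ (u - u c) v + u c ∫ v ≤ 0`. For antitone `u` apply this to `-u`.
-/

set_option autoImplicit false

open MeasureTheory Set Filter Topology

namespace Pool.Agent.Lib.MP_1dedaf_gt.DK

namespace OP

theorem cheb {u v : ℝ → ℝ} {a b c : ℝ} (hu : Continuous u) (hv : Continuous v) (hac : a ≤ c) (hcb : c ≤ b) (mono : MonotoneOn u (Icc a b))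
    (h1 : ∀ x ∈ Icc a c, 0 ≤ v x) (h2 : ∀ x ∈ Icc c b, v x ≤ 0) (h0 : ∫ x in a..b, v x = 0) : ∫ x in a..b, u x * v x ≤ 0 := by
  have hab : a ≤ b := hac.trans hcb
  have key : ∫ x in a..b, (u x - u c) * v x ≤ 0 := by
    have h : ∫ x in a..b, (u x - u c) * v x ≤ ∫ x in a..b, (0 : ℝ) := by
      apply intervalIntegral.integral_mono_on hab
      · exact ((hu.sub continuous_const).mul hv).intervalIntegrable _ _
      · exact continuous_const.intervalIntegrable _ _
      · intro x hx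
        rcases le_total x c with hxc | hxc
        · have e1 := mono hx ⟨hac, hcb⟩ hxc
          have e2 := h1 x ⟨hx.1, hxc⟩
          nlinarith
        · have e1 := mono ⟨hac, hcb⟩ hx hxc
          have e2 := h2 x ⟨hxc, hx.2⟩
          nlinarith
    simpa using h
  have e : ∫ x in a..b, u x * v x = (∫ x in a..b, (u x - u c) * v x) + u c * ∫ x in a..b, v x := by
    rw [← intervalIntegral.integral_const_mul, ← intervalIntegral.integral_add]
    · congr 1
      funext x
      ring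
    · exact ((hu.sub continuous_const).mul hv).intervalIntegrable _ _
    · exact (continuous_const.mul hv).intervalIntegrable _ _
  rw [e, h0, mul_zero, add_zero]
  exact key

theorem cheb' {u v : ℝ → ℝ} {a b c : ℝ} (hu : Continuous u) (hv : Continuous v) (hac : a ≤ c) (hcb : c ≤ b) (anti : AntitoneOn u (Icc a b))
    (h1 : ∀ x ∈ Icc a c, 0 ≤ v x) (h2 : ∀ x ∈ Icc c b, v x ≤ 0) (h0 : ∫ x in a..b, v x = 0) : 0 ≤ ∫ x in a..b, u x * v x := by
  have h := cheb (u := fun x => -u x) hu.neg hv hac hcb (fun x hx y hy hxy => neg_le_neg (anti hx hy hxy)) h1 h2 h0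
  have e : ∫ x in a..b, -u x * v x = -∫ x in a..b, u x * v x := by
    rw [← intervalIntegral.integral_neg]
    congr 1
    funext x
    ring
  rw [e] at h
  linarith

end OP

end Pool.Agent.Lib.MP_1dedaf_gt.DK
end

section

/-!
# TASK OP U1: smoothing

Proof. `sm_deriv`: with `F u = ∫ t in 0..u, f t`, `∫ s in 0..δ, f (y + s) = F (y + δ) - F y` (`intervalIntegral.integral_comp_add_left`, `integral_interval_sub_left`), chain rule.
`sm_mono`: for convex `f`, `u ↦ f (u + δ) - f u` is monotone on `[0, w - δ]` (for `u ≤ v`: if `u = v` trivial; `f` convex, `u ≤ v`, `u + δ ≤ v + δ`: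
`v = (1 - θ) u + θ (v + δ)` and `u + δ = θ u + (1 - θ) (v + δ)` with `θ = (v - u) / (v - u + δ)`, add the two convexity inequalities); and `x ↦ (1 - δ/w) x` maps
`[0, w]` to `[0, w - δ]`. `sm_anti`: apply `sm_mono` to `-f`. `sm_le`, `sm_bd`: monotonicity of the integral, the argument `(1 - δ/w) x + s` is in `[0, w]`.
`sm_lim`: given `ε`, continuity of `f` at `x`: `|(1 - δ/w) x + s - x| ≤ δ` for `x ∈ [0, w]`, `s ∈ [0, δ]`.
-/

set_option autoImplicit false

open MeasureTheory Set Filter Topology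

namespace Pool.Agent.Lib.MP_1dedaf_gt.DK

namespace OP

noncomputable def sm (f : ℝ → ℝ) (w δ x : ℝ) : ℝ := (1 / δ) * ∫ s in (0:ℝ)..δ, f ((1 - δ / w) * x + s)

noncomputable def sm' (f : ℝ → ℝ) (w δ x : ℝ) : ℝ := (1 - δ / w) * (f ((1 - δ / w) * x + δ) - f ((1 - δ / w) * x)) / δ

variable {f g : ℝ → ℝ} {w δ : ℝ}

private theorem U1_shift (hf : Continuous f) (y : ℝ) :
    ∫ s in (0:ℝ)..δ, f (y + s) = (∫ t in (0:ℝ)..(y + δ), f t) - ∫ t in (0:ℝ)..y, f t := by
  rw [intervalIntegral.integral_comp_add_left (fun t => f t) y, add_zero,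
    intervalIntegral.integral_interval_sub_left (hf.intervalIntegrable _ _) (hf.intervalIntegrable _ _)]

theorem sm_deriv (hf : Continuous f) (hδ : 0 < δ) (x : ℝ) : HasDerivAt (sm f w δ) (sm' f w δ x) x := by
  have h1 : sm f w δ = fun x => (1 / δ) * ((∫ t in (0:ℝ)..((1 - δ / w) * x + δ), f t) - ∫ t in (0:ℝ)..((1 - δ / w) * x), f t) := by
    funext x
    rw [sm, U1_shift hf]
  have hF : ∀ u : ℝ, HasDerivAt (fun u => ∫ t in (0:ℝ)..u, f t) (f u) u := fun u =>
    intervalIntegral.integral_hasDerivAt_right (hf.intervalIntegrable _ _)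
      (hf.stronglyMeasurableAtFilter _ _) hf.continuousAt
  have hl : HasDerivAt (fun x : ℝ => (1 - δ / w) * x) (1 - δ / w) x := by
    simpa using (hasDerivAt_id x).const_mul (1 - δ / w)
  have hl' : HasDerivAt (fun x : ℝ => (1 - δ / w) * x + δ) (1 - δ / w) x := hl.add_const δ
  have h2 := (((hF _).comp x hl').sub ((hF _).comp x hl)).const_mul (1 / δ)
  rw [h1]
  refine h2.congr_deriv ?_
  rw [sm']
  field_simp

theorem sm'_cont (hf : Continuous f) : Continuous (sm' f w δ) := by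
  unfold sm'
  have h1 : Continuous fun x : ℝ => f ((1 - δ / w) * x + δ) := hf.comp (by fun_prop)
  have h2 : Continuous fun x : ℝ => f ((1 - δ / w) * x) := hf.comp (by fun_prop)
  exact (continuous_const.mul (h1.sub h2)).div_const δ

private theorem U1_incr (hc : ConvexOn ℝ (Icc 0 w) f) (hδ : 0 < δ) {u v : ℝ} (hu : 0 ≤ u) (huv : u ≤ v) (hv : v + δ ≤ w) :
    f (u + δ) - f u ≤ f (v + δ) - f v := by
  have hden : 0 < v - u + δ := by linarith
  set θ : ℝ := (v - u) / (v - u + δ) with hθ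
  have hθ0 : 0 ≤ θ := div_nonneg (by linarith) hden.le
  have hθ1 : θ ≤ 1 := by rw [hθ, div_le_one hden]; linarith
  have e1 : (1 - θ) * u + θ * (v + δ) = v := by
    rw [hθ]; field_simp; ring
  have e2 : θ * u + (1 - θ) * (v + δ) = u + δ := by
    rw [hθ]; field_simp; ring
  have hmu : u ∈ Icc 0 w := ⟨hu, by linarith⟩
  have hmv : v + δ ∈ Icc 0 w := ⟨by linarith, hv⟩
  have c1 := hc.2 hmu hmv (sub_nonneg.2 hθ1) hθ0 (by ring)
  have c2 := hc.2 hmu hmv hθ0 (sub_nonneg.2 hθ1) (by ring)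
  simp only [smul_eq_mul] at c1 c2
  rw [e1] at c1
  rw [e2] at c2
  nlinarith [c1, c2]

private theorem U1_fac (hδ : 0 < δ) (hw : δ < w) : 0 < 1 - δ / w ∧ 1 - δ / w ≤ 1 := by
  have hw0 : 0 < w := hδ.trans hw
  constructor
  · rw [sub_pos, div_lt_one hw0]; exact hw
  · have := div_pos hδ hw0; linarith

private theorem U1_arg (hδ : 0 < δ) (hw : δ < w) {x : ℝ} (hx : x ∈ Icc 0 w) :
    0 ≤ (1 - δ / w) * x ∧ (1 - δ / w) * x + δ ≤ w := by
  have hw0 : 0 < w := hδ.trans hw
  obtain ⟨h0, h1⟩ := U1_fac hδ hw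
  refine ⟨mul_nonneg h0.le hx.1, ?_⟩
  have : (1 - δ / w) * x ≤ (1 - δ / w) * w := mul_le_mul_of_nonneg_left hx.2 h0.le
  have e : (1 - δ / w) * w = w - δ := by field_simp
  linarith

theorem sm_mono (hc : ConvexOn ℝ (Icc 0 w) f) (hδ : 0 < δ) (hw : δ < w) : MonotoneOn (sm' f w δ) (Icc 0 w) := by
  intro x hx y hy hxy
  obtain ⟨h0, h1⟩ := U1_fac hδ hw
  have ax := U1_arg hδ hw hx
  have ay := U1_arg hδ hw hy
  have hle : (1 - δ / w) * x ≤ (1 - δ / w) * y := mul_le_mul_of_nonneg_left hxy h0.le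
  have := U1_incr hc hδ ax.1 hle ay.2
  unfold sm'
  exact div_le_div_of_nonneg_right (mul_le_mul_of_nonneg_left this h0.le) hδ.le

theorem sm_anti (hc : ConcaveOn ℝ (Icc 0 w) f) (hδ : 0 < δ) (hw : δ < w) : AntitoneOn (sm' f w δ) (Icc 0 w) := by
  intro x hx y hy hxy
  have h := sm_mono (f := fun x => - f x) hc.neg hδ hw hx hy hxy
  have e : ∀ z, sm' (fun x => - f x) w δ z = - sm' f w δ z := by
    intro z
    unfold sm'
    ring
  rw [e, e] at h
  linarith

theorem sm_le (hf : Continuous f) (hg : Continuous g) (hle : ∀ x ∈ Icc 0 w, f x ≤ g x) (hδ : 0 < δ) (hw : δ < w) {x : ℝ} (hx : x ∈ Icc 0 w) :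
    sm f w δ x ≤ sm g w δ x := by
  unfold sm
  have ax := U1_arg hδ hw hx
  refine mul_le_mul_of_nonneg_left ?_ (by positivity)
  refine intervalIntegral.integral_mono_on hδ.le ((hf.comp (by fun_prop)).intervalIntegrable _ _)
    ((hg.comp (by fun_prop)).intervalIntegrable _ _) ?_
  intro s hs
  exact hle _ ⟨by linarith [hs.1], by linarith [hs.2]⟩

theorem sm_bd (hf : Continuous f) {H : ℝ} (hb : ∀ x ∈ Icc 0 w, |f x| ≤ H) (hδ : 0 < δ) (hw : δ < w) {x : ℝ} (hx : x ∈ Icc 0 w) : |sm f w δ x| ≤ H := by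
  have ax := U1_arg hδ hw hx
  have h1 : ‖∫ s in (0:ℝ)..δ, f ((1 - δ / w) * x + s)‖ ≤ H * |δ - 0| := by
    refine intervalIntegral.norm_integral_le_of_norm_le_const ?_
    intro s hs
    rw [uIoc_of_le hδ.le] at hs
    rw [Real.norm_eq_abs]
    exact hb _ ⟨by linarith [hs.1], by linarith [hs.2]⟩
  rw [sub_zero, abs_of_pos hδ, Real.norm_eq_abs] at h1
  unfold sm
  rw [abs_mul, abs_of_pos (by positivity : (0:ℝ) < 1 / δ), one_div, inv_mul_le_iff₀ hδ]
  linarith

theorem sm_lim (hf : Continuous f) (hw : 0 < w) {x : ℝ} (hx : x ∈ Icc 0 w) : Tendsto (fun δ => sm f w δ x) (𝓝[>] 0) (𝓝 (f x)) := by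
  rw [Metric.tendsto_nhds]
  intro ε hε
  obtain ⟨η, hη, hc⟩ := Metric.continuousAt_iff.1 (hf.continuousAt (x := x)) (ε / 2) (half_pos hε)
  have hmem : Ioo (0:ℝ) (min η w) ∈ 𝓝[>] (0:ℝ) := Ioo_mem_nhdsGT (lt_min hη hw)
  filter_upwards [hmem] with δ hδ
  have hδ0 : 0 < δ := hδ.1
  have hδη : δ < η := hδ.2.trans_le (min_le_left _ _)
  have hδw : δ < w := hδ.2.trans_le (min_le_right _ _)
  have key : ‖∫ s in (0:ℝ)..δ, (f ((1 - δ / w) * x + s) - f x)‖ ≤ (ε / 2) * |δ - 0| := by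
    refine intervalIntegral.norm_integral_le_of_norm_le_const ?_
    intro s hs
    rw [uIoc_of_le hδ0.le] at hs
    have hd : dist ((1 - δ / w) * x + s) x < η := by
      rw [Real.dist_eq]
      have e : (1 - δ / w) * x + s - x = s - δ * (x / w) := by ring
      have hxw0 : 0 ≤ x / w := div_nonneg hx.1 hw.le
      have hxw1 : x / w ≤ 1 := by rw [div_le_one hw]; exact hx.2
      have h1 : 0 ≤ δ * (x / w) := mul_nonneg hδ0.le hxw0
      have h2 : δ * (x / w) ≤ δ := by nlinarith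
      rw [e, abs_lt]
      constructor
      · linarith [hs.1]
      · linarith [hs.2]
    have := hc hd
    rw [Real.dist_eq] at this
    rw [Real.norm_eq_abs]
    exact this.le
  rw [sub_zero, abs_of_pos hδ0, Real.norm_eq_abs] at key
  have hint : IntervalIntegrable (fun s => f ((1 - δ / w) * x + s)) volume 0 δ := (hf.comp (by fun_prop)).intervalIntegrable _ _
  have e2 : ∫ s in (0:ℝ)..δ, (f ((1 - δ / w) * x + s) - f x) = (∫ s in (0:ℝ)..δ, f ((1 - δ / w) * x + s)) - δ * f x := by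
    rw [intervalIntegral.integral_sub hint intervalIntegrable_const, intervalIntegral.integral_const]
    simp
  have e3 : sm f w δ x - f x = (1 / δ) * ∫ s in (0:ℝ)..δ, (f ((1 - δ / w) * x + s) - f x) := by
    rw [e2, sm]
    field_simp
  rw [Real.dist_eq, e3, abs_mul, abs_of_pos (by positivity : (0:ℝ) < 1 / δ), one_div, inv_mul_lt_iff₀ hδ0]
  nlinarith

end OP

end Pool.Agent.Lib.MP_1dedaf_gt.DK
end
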