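import Pool.Agent.Lib.MP_1dedaf_gt.Mg.G001
import Pool.Agent.Lib.MP_1dedaf_gt.Mg.G009
import Pool.Agent.Lib.MP_1dedaf_gt.DK.OP.B2
import Pool.Agent.Lib.MP_1dedaf_gt.Mg.G029

section

/-!
# TASK LB A6a: a bound for the dual functional

Proof. Let `c₀` be the constant of `span_const`; `C = π / c₀²` (or `4 / c₀²`), `c = c₀ / 2`. For `x ∈ Q u k`:
`c₀ ‖x‖ ≤ max <x, u i> ≤ D`, so `Q u k` is contained in the ball of radius `D / c₀` (in a square of side `2 D / c₀`), whose area
is `≤ C D²`. `Z u k (th u S) * exp (-∑ S i k i) = ∫_{Q u k} exp (- ∑ S i (k i - <x, u i>)) dx`, all `k i - <x, u i> ≥ 0` on `Q u k`.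
Claim: for `x ∈ Q u k` there is `i` with `k i - <x, u i> ≥ c D`; then the integrand is `≤ exp (- s0 c D)` and we are done.
Let `η = max_i (k i - <x, u i>)`. For every `z ∈ Q u k`: `<z - x, u i> ≤ k i - <x, u i> ≤ η` for all `i`, so `c₀ ‖z - x‖ ≤ η`.
Since `0 ∈ Q u k` (`0 ≤ k i`) and there is `y ∈ Q u k` with `<y, u i₀> = k i₀ = D`: `D = <y, u i₀> ≤ ‖y‖ ≤ ‖y - x‖ + ‖x‖ ≤ 2 η / c₀`.
-/

set_option autoImplicit false

open MeasureTheory Set Filter Topology

namespace Pool.Agent.Lib.MP_1dedaf_gt.LB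

variable {ι : Type} [Fintype ι]

theorem w_claim {u : ι → E2} (hu : Adm u) {c : ℝ} (hc : 0 < c)
    (hspan : ∀ x : E2, ∃ i, c * ‖x‖ ≤ inner ℝ x (u i))
    {k : ι → ℝ} (ht : Tight u k) (hk : ∀ i, 0 ≤ k i) {D : ℝ} (i₀ : ι) (hD : k i₀ = D) {x : E2}
    (_hx : x ∈ Q u k) : ∃ i, c / 2 * D ≤ k i - inner ℝ x (u i) := by
  by_contra hcon
  push Not at hcon
  obtain ⟨y, hy, hy0⟩ := ht i₀
  obtain ⟨i, hi⟩ := hspan (y - x)
  obtain ⟨j, hj⟩ := hspan (-x)
  rw [inner_sub_left] at hi
  rw [inner_neg_left, norm_neg] at hj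
  have h1 := hy i
  have h2 := hcon i
  have h3 := hcon j
  have h4 := hk j
  have h5 : c * ‖y - x‖ < c * (D / 2) := by linarith
  have h6 : c * ‖x‖ < c * (D / 2) := by linarith
  have h7 := lt_of_mul_lt_mul_left h5 hc.le
  have h8 := lt_of_mul_lt_mul_left h6 hc.le
  have h9 : inner ℝ y (u i₀) ≤ ‖y‖ * ‖u i₀‖ := real_inner_le_norm y (u i₀)
  rw [hu.unit i₀, mul_one] at h9
  have h10 : ‖y‖ ≤ ‖y - x‖ + ‖x‖ := by
    calc ‖y‖ = ‖(y - x) + x‖ := by rw [sub_add_cancel]
      _ ≤ _ := norm_add_le _ _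
  linarith

theorem w_bound {u : ι → E2} (hu : Adm u) : ∃ C c : ℝ, 0 < C ∧ 0 < c ∧ ∀ (s0 : ℝ), 0 < s0 → ∀ S : ι → ℝ, (∀ i, s0 ≤ S i) →
    ∀ k : ι → ℝ, Tight u k → (∀ i, 0 ≤ k i) → ∀ D : ℝ, (∀ i, k i ≤ D) → (∃ i, k i = D) →
      Z u k (th u S) * Real.exp (-∑ i, S i * k i) ≤ C * D ^ 2 * Real.exp (-(c * s0 * D)) := by
  obtain ⟨c, hc, hspan⟩ := span_const hu
  have hB0 : volume (Metric.ball (0 : E2) 1) ≠ 0 := (Metric.measure_ball_pos volume _ one_pos).ne'
  have hB1 : volume (Metric.ball (0 : E2) 1) ≠ ⊤ := measure_ball_lt_top.ne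
  have hB : 0 < (volume (Metric.ball (0 : E2) 1)).toReal := ENNReal.toReal_pos hB0 hB1
  refine ⟨(volume (Metric.ball (0 : E2) 1)).toReal / c ^ 2, c / 2, by positivity, by positivity, ?_⟩
  intro s0 hs0 S hS k ht hk D hkD ⟨i₀, hi₀⟩
  have hD : 0 ≤ D := hi₀ ▸ hk i₀
  have hsub : Q u k ⊆ Metric.closedBall (0 : E2) (D / c) := by
    intro x hx
    obtain ⟨i, hi⟩ := hspan x
    rw [mem_closedBall_zero_iff, le_div_iff₀ hc]
    have := hx i
    have := hkD i
    linarith
  have hvol : volume (Q u k) ≤ ENNReal.ofReal ((D / c) ^ 2) * volume (Metric.ball (0 : E2) 1) := by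
    refine (measure_mono hsub).trans ?_
    rw [Measure.addHaar_closedBall _ _ (by positivity)]
    simp
  have hfin : ENNReal.ofReal ((D / c) ^ 2) * volume (Metric.ball (0 : E2) 1) ≠ ⊤ :=
    ENNReal.mul_ne_top ENNReal.ofReal_ne_top hB1
  have hvr : volume.real (Q u k) ≤ (D / c) ^ 2 * (volume (Metric.ball (0 : E2) 1)).toReal := by
    have := ENNReal.toReal_mono hfin hvol
    rwa [ENNReal.toReal_mul, ENNReal.toReal_ofReal (by positivity)] at this
  have hb : ∀ x ∈ Q u k, ‖Real.exp (inner ℝ (th u S) x) * Real.exp (-∑ i, S i * k i)‖ ≤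
      Real.exp (-(c / 2 * s0 * D)) := by
    intro x hx
    rw [Real.norm_of_nonneg (by positivity), ← Real.exp_add, Real.exp_le_exp]
    have h1 : inner ℝ (th u S) x + -∑ i, S i * k i = -∑ i, S i * (k i - inner ℝ x (u i)) := by
      rw [th, sum_inner, ← sub_eq_add_neg, ← Finset.sum_sub_distrib, ← Finset.sum_neg_distrib]
      refine Finset.sum_congr rfl fun i _ => ?_
      rw [real_inner_smul_left, real_inner_comm]
      ring
    rw [h1, neg_le_neg_iff]
    obtain ⟨i, hi⟩ := w_claim hu hc hspan ht hk i₀ hi₀ hx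
    calc c / 2 * s0 * D = s0 * (c / 2 * D) := by ring
      _ ≤ S i * (k i - inner ℝ x (u i)) :=
        mul_le_mul (hS i) hi (by positivity) (hs0.le.trans (hS i))
      _ ≤ ∑ i, S i * (k i - inner ℝ x (u i)) :=
        Finset.single_le_sum (f := fun i => S i * (k i - inner ℝ x (u i)))
          (fun j _ => mul_nonneg (hs0.le.trans (hS j)) (sub_nonneg.2 (hx j))) (Finset.mem_univ i)
  have h2 := norm_setIntegral_le_of_norm_le_const (μ := volume) (s := Q u k)
    (f := fun x => Real.exp (inner ℝ (th u S) x) * Real.exp (-∑ i, S i * k i))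
    (lt_of_le_of_lt hvol hfin.lt_top) hb
  rw [integral_mul_const] at h2
  refine (le_abs_self _).trans (h2.trans ?_)
  calc Real.exp (-(c / 2 * s0 * D)) * volume.real (Q u k)
      ≤ Real.exp (-(c / 2 * s0 * D)) * ((D / c) ^ 2 * (volume (Metric.ball (0 : E2) 1)).toReal) :=
        mul_le_mul_of_nonneg_left hvr (Real.exp_pos _).le
    _ = (volume (Metric.ball (0 : E2) 1)).toReal / c ^ 2 * D ^ 2 * Real.exp (-(c / 2 * s0 * D)) := by
        rw [div_pow]
        ring

end Pool.Agent.Lib.MP_1dedaf_gt.LB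
end

section

/-!
# TASK OP L1: concave case

Proof. `K x = mL φ x b - β`, `F x = K x e^{-φ x}`, `Ξ = mQ - β mI = ∫_a^b F` (`mQ_int`, `mI_int`), `F a = Fa φ β a b`, `F b = -β e^{-φ b}`, `F' = -1 - φ' F = -N e^{-φ}`,
`N x = e^{φ x} + φ' x * K x`. As `Ξ > 0` and `K` is decreasing, `K a > 0`; `K b = -β ≤ 0`, let `x0` be a zero of `K`. For `x ≤ x0`: `K x = ∫_x^{x0} e^φ` and
`e^{φ x0} - e^{φ x} = ∫_x^{x0} φ' e^φ ≤ φ' x * K x`; for `x ≥ x0`: `K x = -∫_{x0}^x e^φ` and `e^{φ x} - e^{φ x0} = ∫_{x0}^x φ' e^φ ≥ -φ' x * K x`. So `N x ≥ e^{φ x0} > 0`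
and `F` is antitone on `[a, b]`. So `Ξ ≤ (b - a) F a` (`L1_a`). With `m = Ξ / (b - a)`: `F a ≥ m`, `F b ≤ 0 < m`, let `c` be a zero of `F - m`; `F - m ≥ 0` on `[a, c]`, `≤ 0` on
`[c, b]`, `∫ (F - m) = 0`, so by `cheb'` `∫ φ' F ≥ m (φ b - φ a)`, and `∫ φ' F = -(b - a) - (F b - F a)` (`L1_b`).
-/

set_option autoImplicit false

open MeasureTheory Set Filter Topology

namespace Pool.Agent.Lib.MP_1dedaf_gt.DK

namespace OP

variable {φ φ' : ℝ → ℝ} {a b β : ℝ}

private theorem L1_Fderiv (hd : ∀ x, HasDerivAt φ (φ' x) x) (β b x : ℝ) :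
    HasDerivAt (fun x => (mL φ x b - β) * Real.exp (-φ x)) (-1 - φ' x * ((mL φ x b - β) * Real.exp (-φ x))) x := by
  have hφ : Continuous φ := continuous_iff_continuousAt.2 (fun x => (hd x).continuousAt)
  have h1 : HasDerivAt (fun x => mL φ x b - β) (-Real.exp (φ x)) x := by
    have h := ((cA_deriv hφ x).const_sub (cA φ b)).sub_const β
    exact h
  have h2 : HasDerivAt (fun x => Real.exp (-φ x)) (Real.exp (-φ x) * (-φ' x)) x := (hd x).neg.exp
  have h3 := h1.mul h2
  refine h3.congr_deriv ?_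
  have he : Real.exp (φ x) * Real.exp (-φ x) = 1 := by
    rw [← Real.exp_add]; simp
  calc -Real.exp (φ x) * Real.exp (-φ x) + (mL φ x b - β) * (Real.exp (-φ x) * -φ' x)
      = -(Real.exp (φ x) * Real.exp (-φ x)) - φ' x * ((mL φ x b - β) * Real.exp (-φ x)) := by ring
    _ = -1 - φ' x * ((mL φ x b - β) * Real.exp (-φ x)) := by rw [he]

private theorem L1_anti (hd : ∀ x, HasDerivAt φ (φ' x) x) (anti : AntitoneOn φ' (Icc a b)) {x y : ℝ} (hx : x ∈ Icc a b) (hy : y ∈ Icc a b) :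
    Real.exp (φ y) ≤ Real.exp (φ x) + φ' x * (cA φ y - cA φ x) := by
  have hφ : Continuous φ := continuous_iff_continuousAt.2 (fun x => (hd x).continuousAt)
  have hder : ∀ t, HasDerivAt (fun t => Real.exp (φ t) - φ' x * cA φ t) (Real.exp (φ t) * φ' t - φ' x * Real.exp (φ t)) t := by
    intro t
    exact ((hd t).exp).sub ((cA_deriv hφ t).const_mul (φ' x))
  rcases le_total x y with hxy | hxy
  · have hmono : AntitoneOn (fun t => Real.exp (φ t) - φ' x * cA φ t) (Icc x y) := by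
      apply antitoneOn_of_deriv_nonpos (convex_Icc x y)
      · exact fun t _ => (hder t).continuousAt.continuousWithinAt
      · exact fun t _ => (hder t).differentiableAt.differentiableWithinAt
      · intro t ht
        rw [interior_Icc] at ht
        rw [(hder t).deriv]
        have h1 : φ' t ≤ φ' x := anti hx ⟨hx.1.trans ht.1.le, ht.2.le.trans hy.2⟩ ht.1.le
        have h2 : 0 < Real.exp (φ t) := Real.exp_pos _
        nlinarith
    have h0 : Real.exp (φ y) - φ' x * cA φ y ≤ Real.exp (φ x) - φ' x * cA φ x :=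
      hmono (left_mem_Icc.2 hxy) (right_mem_Icc.2 hxy) hxy
    linarith
  · have hmono : MonotoneOn (fun t => Real.exp (φ t) - φ' x * cA φ t) (Icc y x) := by
      apply monotoneOn_of_deriv_nonneg (convex_Icc y x)
      · exact fun t _ => (hder t).continuousAt.continuousWithinAt
      · exact fun t _ => (hder t).differentiableAt.differentiableWithinAt
      · intro t ht
        rw [interior_Icc] at ht
        rw [(hder t).deriv]
        have h1 : φ' x ≤ φ' t := anti ⟨hy.1.trans ht.1.le, ht.2.le.trans hx.2⟩ hx ht.2.le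
        have h2 : 0 < Real.exp (φ t) := Real.exp_pos _
        nlinarith
    have h0 : Real.exp (φ y) - φ' x * cA φ y ≤ Real.exp (φ x) - φ' x * cA φ x :=
      hmono (left_mem_Icc.2 hxy) (right_mem_Icc.2 hxy) hxy
    linarith

private theorem L1_core (hd : ∀ x, HasDerivAt φ (φ' x) x) (hab : a < b) (anti : AntitoneOn φ' (Icc a b)) (hβ : 0 ≤ β)
    (hX : 0 < mQ φ a b - β * mI φ a b) :
    ∃ F : ℝ → ℝ, (∀ x, F x = (mL φ x b - β) * Real.exp (-φ x)) ∧ (∀ x, HasDerivAt F (-1 - φ' x * F x) x) ∧ Continuous F ∧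
      (∫ x in a..b, F x = mQ φ a b - β * mI φ a b) ∧ AntitoneOn F (Icc a b) := by
  have hφ : Continuous φ := continuous_iff_continuousAt.2 (fun x => (hd x).continuousAt)
  have hba : 0 < b - a := sub_pos.2 hab
  obtain ⟨F, hFdef⟩ : ∃ F : ℝ → ℝ, F = fun x => (mL φ x b - β) * Real.exp (-φ x) := ⟨_, rfl⟩
  have hFd : ∀ x, HasDerivAt F (-1 - φ' x * F x) x := by
    intro x
    have h := L1_Fderiv hd β b x
    rw [hFdef]
    exact h
  have hFc : Continuous F := continuous_iff_continuousAt.2 (fun x => (hFd x).continuousAt)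
  have hFx : ∀ x, F x = (mL φ x b - β) * Real.exp (-φ x) := fun x => by rw [hFdef]
  have hFN : ∀ x, -1 - φ' x * F x = -((Real.exp (φ x) + φ' x * (mL φ x b - β)) * Real.exp (-φ x)) := by
    intro x
    have he : Real.exp (φ x) * Real.exp (-φ x) = 1 := by
      rw [← Real.exp_add]; simp
    rw [hFx]
    linear_combination he
  have hcL : Continuous (fun x => mL φ x b) := by
    unfold mL
    exact continuous_const.sub (cA_cont hφ)
  have hXi : ∫ x in a..b, F x = mQ φ a b - β * mI φ a b := by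
    have hce : Continuous (fun x => Real.exp (-φ x)) := Real.continuous_exp.comp hφ.neg
    rw [mQ_int hφ, mI_int hφ, ← intervalIntegral.integral_const_mul, ← intervalIntegral.integral_sub]
    · apply intervalIntegral.integral_congr
      intro x _
      simp only [hFdef]
      ring
    · exact (hcL.mul hce).intervalIntegrable _ _
    · exact (continuous_const.mul hce).intervalIntegrable _ _
  have hKle : ∀ x, a ≤ x → mL φ x b - β ≤ mL φ a b - β := by
    intro x hx
    rcases eq_or_lt_of_le hx with h | h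
    · rw [h]
    · have h1 := mL_pos hφ h
      have h2 := mL_cat φ a x b
      linarith
  have hKa : 0 < mL φ a b - β := by
    by_contra hcon
    push Not at hcon
    have hle : ∫ x in a..b, F x ≤ ∫ x in a..b, (0 : ℝ) := by
      apply intervalIntegral.integral_mono_on hab.le (hFc.intervalIntegrable _ _) (continuous_const.intervalIntegrable _ _)
      intro x hx
      rw [hFx]
      exact mul_nonpos_of_nonpos_of_nonneg ((hKle x hx.1).trans hcon) (Real.exp_pos _).le
    rw [intervalIntegral.integral_zero, hXi] at hle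
    linarith
  have hKb : mL φ b b - β ≤ 0 := by
    have : mL φ b b = 0 := by unfold mL; ring
    rw [this]; linarith
  obtain ⟨x0, hx0, hx0e⟩ : ∃ x0 ∈ Icc a b, mL φ x0 b - β = 0 := by
    have hcK : ContinuousOn (fun x => mL φ x b - β) (Icc a b) := (hcL.sub continuous_const).continuousOn
    have h := intermediate_value_Icc' hab.le hcK
    obtain ⟨x0, h1, h2⟩ := h ⟨hKb, hKa.le⟩
    exact ⟨x0, h1, h2⟩
  refine ⟨F, hFx, hFd, hFc, hXi, ?_⟩
  apply antitoneOn_of_deriv_nonpos (convex_Icc a b) hFc.continuousOn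
  · exact fun t _ => (hFd t).differentiableAt.differentiableWithinAt
  · intro x hx
    rw [interior_Icc] at hx
    rw [(hFd x).deriv, hFN]
    have h1 := L1_anti hd anti (x := x) (y := x0) ⟨hx.1.le, hx.2.le⟩ hx0
    have h2 : cA φ x0 - cA φ x = mL φ x b - β := by
      unfold mL at hx0e ⊢
      linarith
    rw [h2] at h1
    have h3 : 0 < Real.exp (φ x0) := Real.exp_pos _
    have h4 : 0 < Real.exp (-φ x) := Real.exp_pos _
    have h5 : 0 ≤ (Real.exp (φ x) + φ' x * (mL φ x b - β)) * Real.exp (-φ x) := mul_nonneg (by linarith) h4.le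
    linarith

theorem L1_a (hd : ∀ x, HasDerivAt φ (φ' x) x) (hc : Continuous φ') (hab : a < b) (anti : AntitoneOn φ' (Icc a b)) (hβ : 0 ≤ β)
    (hX : 0 < mQ φ a b - β * mI φ a b) : mQ φ a b - β * mI φ a b ≤ (b - a) * Fa φ β a b := by
  obtain ⟨F, hFx, hFd, hFc, hXi, hFa⟩ := L1_core hd hab anti hβ hX
  have h1 : ∫ x in a..b, F x ≤ ∫ x in a..b, F a := by
    apply intervalIntegral.integral_mono_on hab.le (hFc.intervalIntegrable _ _) (continuous_const.intervalIntegrable _ _)
    intro x hx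
    exact hFa (left_mem_Icc.2 hab.le) hx hx.1
  rw [intervalIntegral.integral_const, smul_eq_mul, hXi, hFx a] at h1
  exact h1

theorem L1_b (hd : ∀ x, HasDerivAt φ (φ' x) x) (hc : Continuous φ') (hab : a < b) (anti : AntitoneOn φ' (Icc a b)) (hβ : 0 ≤ β)
    (hX : 0 < mQ φ a b - β * mI φ a b) :
    (φ b - φ a) * (mQ φ a b - β * mI φ a b) ≤ (b - a) * (Fa φ β a b + β * Real.exp (-φ b) - (b - a)) := by
  have ha := L1_a hd hc hab anti hβ hX
  obtain ⟨F, hFx, hFd, hFc, hXi, hFanti⟩ := L1_core hd hab anti hβ hX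
  have hba : 0 < b - a := sub_pos.2 hab
  obtain ⟨m, hm⟩ : ∃ m : ℝ, m = (mQ φ a b - β * mI φ a b) / (b - a) := ⟨_, rfl⟩
  have hmpos : 0 < m := by rw [hm]; exact div_pos hX hba
  have hmX : m * (b - a) = mQ φ a b - β * mI φ a b := by
    rw [hm]; exact div_mul_cancel₀ _ hba.ne'
  have hFa : F a = Fa φ β a b := by rw [hFx]; rfl
  have hFa_ge : m ≤ F a := by
    rw [hFa, hm, div_le_iff₀ hba]
    linarith
  have hFb : F b = -β * Real.exp (-φ b) := by
    rw [hFx]
    have : mL φ b b = 0 := by unfold mL; ring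
    rw [this]; ring
  have hFb_le : F b ≤ 0 := by
    rw [hFb]
    have : 0 < Real.exp (-φ b) := Real.exp_pos _
    nlinarith
  obtain ⟨c, hcm, hcF⟩ : ∃ c ∈ Icc a b, F c = m := by
    have h := intermediate_value_Icc' hab.le hFc.continuousOn
    obtain ⟨c, h1, h2⟩ := h ⟨by linarith, hFa_ge⟩
    exact ⟨c, h1, h2⟩
  have hge : ∀ x ∈ Icc a c, 0 ≤ F x - m := by
    intro x hx
    have := hFanti ⟨hx.1, hx.2.trans hcm.2⟩ hcm hx.2
    linarith
  have hle : ∀ x ∈ Icc c b, F x - m ≤ 0 := by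
    intro x hx
    have := hFanti hcm ⟨hcm.1.trans hx.1, hx.2⟩ hx.1
    linarith
  have h0 : ∫ x in a..b, (F x - m) = 0 := by
    rw [intervalIntegral.integral_sub (hFc.intervalIntegrable _ _) (continuous_const.intervalIntegrable _ _), hXi,
      intervalIntegral.integral_const, smul_eq_mul]
    linarith
  have hch := cheb' hc (hFc.sub continuous_const) hcm.1 hcm.2 anti hge hle h0
  have hcF' : Continuous (fun x => φ' x * F x) := hc.mul hFc
  have hcm' : Continuous (fun x => m * φ' x) := continuous_const.mul hc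
  have e1 : ∫ x in a..b, φ' x * (F x - m) = (∫ x in a..b, φ' x * F x) - m * (φ b - φ a) := by
    have e2 : ∫ x in a..b, φ' x = φ b - φ a :=
      intervalIntegral.integral_eq_sub_of_hasDerivAt (fun x _ => hd x) (hc.intervalIntegrable _ _)
    have e3 : ∫ x in a..b, φ' x * (F x - m) = ∫ x in a..b, (φ' x * F x - m * φ' x) := by
      apply intervalIntegral.integral_congr
      intro x _
      ring
    rw [e3, intervalIntegral.integral_sub (hcF'.intervalIntegrable _ _) (hcm'.intervalIntegrable _ _),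
      intervalIntegral.integral_const_mul, e2]
  have e4 : ∫ x in a..b, φ' x * F x = -(b - a) - (F b - F a) := by
    have e5 : ∫ x in a..b, (-1 - φ' x * F x) = F b - F a :=
      intervalIntegral.integral_eq_sub_of_hasDerivAt (fun x _ => hFd x)
        ((continuous_const.sub (hc.mul hFc)).intervalIntegrable _ _)
    rw [intervalIntegral.integral_sub (continuous_const.intervalIntegrable _ _) (hcF'.intervalIntegrable _ _),
      intervalIntegral.integral_const, smul_eq_mul] at e5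
    linarith
  have hch' : 0 ≤ ∫ x in a..b, φ' x * (F x - m) := hch
  rw [e1, e4, hFb, hFa] at hch'
  have hfin : m * (φ b - φ a) ≤ Fa φ β a b + β * Real.exp (-φ b) - (b - a) := by linarith
  calc (φ b - φ a) * (mQ φ a b - β * mI φ a b) = (b - a) * (m * (φ b - φ a)) := by rw [← hmX]; ring
    _ ≤ (b - a) * (Fa φ β a b + β * Real.exp (-φ b) - (b - a)) := mul_le_mul_of_nonneg_left hfin hba.le

end OP

end Pool.Agent.Lib.MP_1dedaf_gt.DK
end
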