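import Pool.Agent.Lib.MP_1dedaf_gt.DK.SDefs
import Pool.Agent.Lib.MP_1dedaf_gt.Mg.G004
import Pool.Agent.Lib.MP_1dedaf_gt.Mg.G012
import Pool.Agent.Lib.MP_1dedaf_gt.Mg.G001
import Pool.Agent.Lib.MP_1dedaf_gt.Mg.G009
import Pool.Agent.Lib.MP_1dedaf_gt.LB.A5
import Pool.Agent.Lib.MP_1dedaf_gt.Mg.G007
import Pool.Agent.Lib.MP_1dedaf_gt.Mg.G010
import Pool.Agent.Lib.MP_1dedaf_gt.LB.A6c
import Pool.Agent.Lib.MP_1dedaf_gt.LB.A7a

section

/-!
# TASK DK B5: the integral over one edge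

`i = s + (j+1)`, `S = sin ((j+1) δ)`, `f x = sC * exp (p x + q ln (j+1) x)` (the density along the line of the edge `i`), `δ = dl n`.
Proof. `mass_subst` with `F σ = G (seg ..) (seg ..) / seg (rr j) (rr (j+1)) σ ^ 2` (continuous on `[0,1]`: `rr > 0` by `rh_pos`, so the segment is
positive) gives `T i ∫_0^1 F = ∫_{lo}^{hi} F (σ τ) dens τ dτ`, `σ τ = (∫_{lo}^τ dens) / T i`. By `dens_eq` and `rh_diff`:
`seg (rr j) (rr (j+1)) (σ τ) = dens τ` (`rr n T k s j = rh n k θ (i-1)`, `rr (j+1) = rh i`), so `F (σ τ) dens τ = G (..) (dens τ) / dens τ`. Substitute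
`x = sx j + S (τ - lo)` (`intervalIntegral.integral_comp_mul_add` or the like; `sx_succ`: `τ = hi` gives `sx (j+1)`); by `dens_sv`, `edge_x`, `edge_y`:
`dens τ = f x`, and `∫_{lo}^τ dens = (1/S) ∫_{sx j}^x f`, and `Xj (j+1) = Xj j + S T i`, so `seg (Xj j) (Xj (j+1)) (σ τ) = Xj j + ∫_{sx j}^x f`.
-/

set_option autoImplicit false

open MeasureTheory Set Filter Topology

namespace Pool.Agent.Lib.MP_1dedaf_gt.DK

open Pool.Agent.Lib.MP_1dedaf_gt.LB

private theorem B5_dens (n : ℕ) [NeZero n] (hn : Odd n) (h3 : 3 ≤ n) {T k : ZMod n → ℝ}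
    (s : ZMod n) (j : ℕ) (hs : Real.sin ((j + 1 : ℕ) * dl n) ≠ 0) (f : ℝ → ℝ)
    (hf : ∀ x, f x = sC n k (th (dir n) T) s *
      Real.exp ((sv n k (th (dir n) T) s).p * x + (sv n k (th (dir n) T) s).q * ln n k s (j + 1) x)) (τ : ℝ) :
    dens n k (th (dir n) T) (s + ((j + 1 : ℕ) : ZMod n)) τ =
      f ((sx n k s j - Real.sin ((j + 1 : ℕ) * dl n) * lo n k (s + ((j + 1 : ℕ) : ZMod n))) +
        Real.sin ((j + 1 : ℕ) * dl n) * τ) := by
  have e : (sx n k s j - Real.sin ((j + 1 : ℕ) * dl n) * lo n k (s + ((j + 1 : ℕ) : ZMod n))) +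
        Real.sin ((j + 1 : ℕ) * dl n) * τ = sx n k s j + Real.sin ((j + 1 : ℕ) * dl n) *
          (τ - lo n k (s + ((j + 1 : ℕ) : ZMod n))) := by ring
  rw [e, hf, dens_sv n hn h3 k (th (dir n) T) s (s + ((j + 1 : ℕ) : ZMod n)) τ, edge_x n hn h3 k s j τ,
    edge_y n hn h3 k s j τ hs]

private theorem B5_prim (n : ℕ) [NeZero n] (hn : Odd n) (h3 : 3 ≤ n) {T k : ZMod n → ℝ}
    (s : ZMod n) (j : ℕ) (hs : Real.sin ((j + 1 : ℕ) * dl n) ≠ 0) (f : ℝ → ℝ)
    (hf : ∀ x, f x = sC n k (th (dir n) T) s *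
      Real.exp ((sv n k (th (dir n) T) s).p * x + (sv n k (th (dir n) T) s).q * ln n k s (j + 1) x)) (τ : ℝ) :
    Real.sin ((j + 1 : ℕ) * dl n) * ∫ x in (lo n k (s + ((j + 1 : ℕ) : ZMod n)))..τ,
      dens n k (th (dir n) T) (s + ((j + 1 : ℕ) : ZMod n)) x =
    ∫ x in (sx n k s j)..((sx n k s j - Real.sin ((j + 1 : ℕ) * dl n) * lo n k (s + ((j + 1 : ℕ) : ZMod n))) +
        Real.sin ((j + 1 : ℕ) * dl n) * τ), f x := by
  have h1 : (fun x => dens n k (th (dir n) T) (s + ((j + 1 : ℕ) : ZMod n)) x) = fun x =>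
      f ((sx n k s j - Real.sin ((j + 1 : ℕ) * dl n) * lo n k (s + ((j + 1 : ℕ) : ZMod n))) +
        Real.sin ((j + 1 : ℕ) * dl n) * x) := funext fun x => B5_dens n hn h3 s j hs f hf x
  rw [h1, intervalIntegral.integral_comp_add_mul f hs, smul_eq_mul, ← mul_assoc, mul_inv_cancel₀ hs, one_mul]
  have e : (sx n k s j - Real.sin ((j + 1 : ℕ) * dl n) * lo n k (s + ((j + 1 : ℕ) : ZMod n))) +
      Real.sin ((j + 1 : ℕ) * dl n) * lo n k (s + ((j + 1 : ℕ) : ZMod n)) = sx n k s j := by ring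
  rw [e]

private theorem B5_end (n : ℕ) [NeZero n] (hn : Odd n) (h3 : 3 ≤ n) (k : ZMod n → ℝ) (s : ZMod n) (j : ℕ) :
    (sx n k s j - Real.sin ((j + 1 : ℕ) * dl n) * lo n k (s + ((j + 1 : ℕ) : ZMod n))) +
        Real.sin ((j + 1 : ℕ) * dl n) * hi n k (s + ((j + 1 : ℕ) : ZMod n)) = sx n k s (j + 1) := by
  rw [sx_succ n hn h3 k s j]
  ring

private theorem B5_X (n : ℕ) (T : ZMod n → ℝ) (s : ZMod n) (j : ℕ) :
    Xj n T s (j + 1) - Xj n T s j = Real.sin ((j + 1 : ℕ) * dl n) * T (s + ((j + 1 : ℕ) : ZMod n)) := by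
  unfold Xj
  rw [Finset.sum_range_succ]
  ring

private theorem B5_idx (n : ℕ) (s : ZMod n) (j : ℕ) : s + ((j + 1 : ℕ) : ZMod n) - 1 = s + (j : ℕ) := by
  push_cast
  ring

theorem edge_int (n : ℕ) [NeZero n] (hn : Odd n) (h3 : 3 ≤ n) {T k : ZMod n → ℝ} (hT : ∀ i, 0 < T i)
    (ho : Opt (dir n) T k) (s : ZMod n) (j : ℕ) (hs : Real.sin ((j + 1 : ℕ) * dl n) ≠ 0)
    (G : ℝ → ℝ → ℝ) (hG : Continuous (fun z : ℝ × ℝ => G z.1 z.2)) (f : ℝ → ℝ)
    (hf : ∀ x, f x = sC n k (th (dir n) T) s *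
      Real.exp ((sv n k (th (dir n) T) s).p * x + (sv n k (th (dir n) T) s).q * ln n k s (j + 1) x)) :
    T (s + ((j + 1 : ℕ) : ZMod n)) * ∫ σ in (0:ℝ)..1,
      G (seg (Xj n T s j) (Xj n T s (j + 1)) σ) (seg (rr n T k s j) (rr n T k s (j + 1)) σ) /
        seg (rr n T k s j) (rr n T k s (j + 1)) σ ^ 2 =
    1 / Real.sin ((j + 1 : ℕ) * dl n) * ∫ x in (sx n k s j)..(sx n k s (j + 1)),
      G (Xj n T s j + ∫ t in (sx n k s j)..x, f t) (f x) / f x := by
  have hp : ∀ i, 0 < sg (dir n) k (th (dir n) T) i := fun i => (sg_pos n hn h3 hT ho i).1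
  have hM : sg (dir n) k (th (dir n) T) (s + ((j + 1 : ℕ) : ZMod n)) / Z (dir n) k (th (dir n) T) =
      T (s + ((j + 1 : ℕ) : ZMod n)) := (sg_pos n hn h3 hT ho _).2.1
  have hM0 : T (s + ((j + 1 : ℕ) : ZMod n)) ≠ 0 := (hT _).ne'
  have hr0 : 0 < rr n T k s j := rh_pos n hn h3 ho.fat _
  have hr1 : 0 < rr n T k s (j + 1) := rh_pos n hn h3 ho.fat _
  have hsegpos : ∀ σ ∈ Icc (0:ℝ) 1, 0 < seg (rr n T k s j) (rr n T k s (j + 1)) σ := by
    intro σ hσ
    have e : seg (rr n T k s j) (rr n T k s (j + 1)) σ =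
        (1 - σ) * rr n T k s j + σ * rr n T k s (j + 1) := by
      unfold seg
      ring
    rw [e]
    rcases eq_or_lt_of_le hσ.1 with h0 | h0
    · rw [← h0]
      simpa using hr0
    · have h1 : 0 ≤ (1 - σ) * rr n T k s j := mul_nonneg (by linarith [hσ.2]) hr0.le
      have h2 : 0 < σ * rr n T k s (j + 1) := mul_pos h0 hr1
      linarith
  have hsegc : ∀ x y : ℝ, Continuous (fun σ => seg x y σ) := by
    intro x y
    unfold seg
    fun_prop
  have hF : ContinuousOn (fun σ : ℝ => G (seg (Xj n T s j) (Xj n T s (j + 1)) σ)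
      (seg (rr n T k s j) (rr n T k s (j + 1)) σ) /
        seg (rr n T k s j) (rr n T k s (j + 1)) σ ^ 2) (Icc 0 1) := by
    refine ContinuousOn.div ?_ ?_ ?_
    · exact (hG.comp ((hsegc _ _).prodMk (hsegc _ _))).continuousOn
    · exact ((hsegc _ _).pow 2).continuousOn
    · intro σ hσ
      exact pow_ne_zero 2 (hsegpos σ hσ).ne'
  have hsub := mass_subst n hn h3 ho.fat hp (s + ((j + 1 : ℕ) : ZMod n)) hF
  rw [hM] at hsub
  rw [← hsub]
  have hdiff := rh_diff n hn h3 ho.fat hp (s + ((j + 1 : ℕ) : ZMod n))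
  rw [hM, B5_idx] at hdiff
  have hpt : ∀ τ : ℝ, (fun σ : ℝ => G (seg (Xj n T s j) (Xj n T s (j + 1)) σ)
      (seg (rr n T k s j) (rr n T k s (j + 1)) σ) /
        seg (rr n T k s j) (rr n T k s (j + 1)) σ ^ 2)
        ((∫ x in (lo n k (s + ((j + 1 : ℕ) : ZMod n)))..τ,
          dens n k (th (dir n) T) (s + ((j + 1 : ℕ) : ZMod n)) x) / T (s + ((j + 1 : ℕ) : ZMod n))) *
        dens n k (th (dir n) T) (s + ((j + 1 : ℕ) : ZMod n)) τ =
      (fun x => G (Xj n T s j + ∫ t in (sx n k s j)..x, f t) (f x) / f x)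
        ((sx n k s j - Real.sin ((j + 1 : ℕ) * dl n) * lo n k (s + ((j + 1 : ℕ) : ZMod n))) +
        Real.sin ((j + 1 : ℕ) * dl n) * τ) := by
    intro τ
    have e1 : seg (rr n T k s j) (rr n T k s (j + 1)) ((∫ x in (lo n k (s + ((j + 1 : ℕ) : ZMod n)))..τ,
          dens n k (th (dir n) T) (s + ((j + 1 : ℕ) : ZMod n)) x) / T (s + ((j + 1 : ℕ) : ZMod n))) =
        dens n k (th (dir n) T) (s + ((j + 1 : ℕ) : ZMod n)) τ := by
      rw [dens_eq n hn h3 k (th (dir n) T) (s + ((j + 1 : ℕ) : ZMod n)) τ, B5_idx]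
      have e2 : rr n T k s (j + 1) - rr n T k s j = T (s + ((j + 1 : ℕ) : ZMod n)) *
          inner ℝ (th (dir n) T) (rot (dir n (s + ((j + 1 : ℕ) : ZMod n)))) := hdiff
      unfold seg
      rw [e2]
      have e3 : rr n T k s j = rh n k (th (dir n) T) (s + (j : ℕ)) := rfl
      rw [e3]
      field_simp
    have e2 : seg (Xj n T s j) (Xj n T s (j + 1)) ((∫ x in (lo n k (s + ((j + 1 : ℕ) : ZMod n)))..τ,
          dens n k (th (dir n) T) (s + ((j + 1 : ℕ) : ZMod n)) x) / T (s + ((j + 1 : ℕ) : ZMod n))) =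
        Xj n T s j + ∫ t in (sx n k s j)..((sx n k s j - Real.sin ((j + 1 : ℕ) * dl n) *
          lo n k (s + ((j + 1 : ℕ) : ZMod n))) + Real.sin ((j + 1 : ℕ) * dl n) * τ), f t := by
      rw [← B5_prim n hn h3 s j hs f hf τ]
      unfold seg
      rw [B5_X]
      field_simp
    simp only
    rw [e1, e2, ← B5_dens n hn h3 s j hs f hf τ]
    have hd : dens n k (th (dir n) T) (s + ((j + 1 : ℕ) : ZMod n)) τ ≠ 0 :=
      (dens_pos n hn h3 ho.fat _ τ).ne'
    field_simp
  rw [intervalIntegral.integral_congr (fun τ _ => hpt τ)]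
  rw [intervalIntegral.integral_comp_add_mul
    (fun x => G (Xj n T s j + ∫ t in (sx n k s j)..x, f t) (f x) / f x) hs, B5_end n hn h3 k s j]
  have e : (sx n k s j - Real.sin ((j + 1 : ℕ) * dl n) * lo n k (s + ((j + 1 : ℕ) : ZMod n))) +
      Real.sin ((j + 1 : ℕ) * dl n) * lo n k (s + ((j + 1 : ℕ) : ZMod n)) = sx n k s j := by ring
  rw [e, smul_eq_mul, one_div]

theorem edge_mass (n : ℕ) [NeZero n] (hn : Odd n) (h3 : 3 ≤ n) {T k : ZMod n → ℝ} (hT : ∀ i, 0 < T i)
    (ho : Opt (dir n) T k) (s : ZMod n) (j : ℕ) (hs : Real.sin ((j + 1 : ℕ) * dl n) ≠ 0) (f : ℝ → ℝ)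
    (hf : ∀ x, f x = sC n k (th (dir n) T) s *
      Real.exp ((sv n k (th (dir n) T) s).p * x + (sv n k (th (dir n) T) s).q * ln n k s (j + 1) x)) :
    ∫ t in (sx n k s j)..(sx n k s (j + 1)), f t = Xj n T s (j + 1) - Xj n T s j := by
  have h1 := B5_prim n hn h3 s j hs f hf (hi n k (s + ((j + 1 : ℕ) : ZMod n)))
  rw [B5_end n hn h3 k s j, mass_T n hn h3 hT ho] at h1
  rw [← h1, B5_X]

end Pool.Agent.Lib.MP_1dedaf_gt.DK
end

section

/-!
# TASK LB C3b: vector identity 2

`fac i = Icc (lo i) (hi i)` (`len_of_pos`), so integrals over `fac i` are interval integrals. For `ε : ℝ` `sg_sum` with tilt `θ + ε ν`: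
`∑ sg k (θ+εν) i • u i = Z(k, θ+εν) • (θ + ε ν)`; differentiate at `ε = 0`
(differentiation under the integral signs, compact sets): `∑ (∫_{fac i} <ν, x(τ)> exp <θ,x(τ)>) • u i = (∫_Q <ν,x> exp <θ,x>) • θ + Z • ν`,
and the first integral on the right is `<ν, ∫_Q exp <θ,x> • x> = 0`. Divide by `Z`.
-/

set_option autoImplicit false

open MeasureTheory Set Filter Topology

namespace Pool.Agent.Lib.MP_1dedaf_gt.LB

/-- Differentiation under the integral sign for a bounded exponential family on a finite measure space. -/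
private theorem C3b_deriv {α : Type} [MeasurableSpace α] (μ : Measure α) [IsFiniteMeasure μ] (g h : α → ℝ)
    (hg : AEStronglyMeasurable g μ) (hh : AEStronglyMeasurable h μ) (C : ℝ)
    (hgC : ∀ᵐ x ∂μ, |g x| ≤ C) (hhC : ∀ᵐ x ∂μ, |h x| ≤ C) :
    HasDerivAt (fun ε : ℝ => ∫ x, Real.exp (g x + ε * h x) ∂μ) (∫ x, h x * Real.exp (g x) ∂μ) 0 := by
  have hmeas : ∀ ε : ℝ, AEStronglyMeasurable (fun x => Real.exp (g x + ε * h x)) μ := fun ε =>
    Real.continuous_exp.comp_aestronglyMeasurable (hg.add (hh.const_mul ε))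
  have hmeas' : ∀ ε : ℝ, AEStronglyMeasurable (fun x => h x * Real.exp (g x + ε * h x)) μ := fun ε =>
    hh.mul (hmeas ε)
  have key := hasDerivAt_integral_of_dominated_loc_of_deriv_le (μ := μ) (𝕜 := ℝ)
    (F := fun ε x => Real.exp (g x + ε * h x)) (F' := fun ε x => h x * Real.exp (g x + ε * h x))
    (x₀ := (0:ℝ)) (s := Metric.ball (0:ℝ) 1) (bound := fun _ => C * Real.exp (C + C))
    (Metric.ball_mem_nhds _ one_pos) (Eventually.of_forall hmeas) ?_ (hmeas' 0) ?_ ?_ ?_
  · have h2 := key.2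
    simpa using h2
  · refine Integrable.of_bound (hmeas 0) (Real.exp C) ?_
    filter_upwards [hgC] with x hx
    rw [Real.norm_eq_abs, Real.abs_exp]
    have := abs_le.1 hx
    apply Real.exp_le_exp.2
    simpa using this.2
  · filter_upwards [hgC, hhC] with x hx hx' ε hε
    rw [norm_mul, Real.norm_eq_abs, Real.norm_eq_abs, Real.abs_exp]
    have h1 : |ε| < 1 := by simpa [Metric.mem_ball, Real.dist_eq] using hε
    have hC0 : 0 ≤ C := (abs_nonneg _).trans hx
    refine mul_le_mul hx' (Real.exp_le_exp.2 ?_) (Real.exp_pos _).le hC0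
    have h3 : ε * h x ≤ C := by
      calc ε * h x ≤ |ε * h x| := le_abs_self _
        _ = |ε| * |h x| := abs_mul _ _
        _ ≤ 1 * C := mul_le_mul h1.le hx' (abs_nonneg _) zero_le_one
        _ = C := one_mul _
    have h4 : g x ≤ C := (abs_le.1 hx).2
    linarith
  · exact integrable_const _
  · filter_upwards with x ε hε
    have h1 : HasDerivAt (fun ε : ℝ => g x + ε * h x) (h x) ε := by
      simpa using ((hasDerivAt_id ε).mul_const (h x)).const_add (g x)
    have h2 := h1.exp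
    simpa [mul_comm] using h2

theorem id2 (n : ℕ) [NeZero n] (hn : Odd n) (h3 : 3 ≤ n) {k : ZMod n → ℝ} {θ : E2} (hk : Fat (dir n) k)
    (hp : ∀ i, 0 < sg (dir n) k θ i) (hc : ∫ x in Q (dir n) k, Real.exp (inner ℝ θ x) • x = 0) (ν : E2) :
    ∑ i, (∫ τ in (lo n k i)..(hi n k i), inner ℝ ν (k i • dir n i + τ • rot (dir n i)) * dens n k θ i τ) • dir n i = ν := by
  have hA := dir_adm n hn h3
  have hZ : 0 < Z (dir n) k θ := Z_pos hA hk θ
  have hQc : IsCompact (Q (dir n) k) := Q_compact hA k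
  have hQm : MeasurableSet (Q (dir n) k) := hQc.isClosed.measurableSet
  -- derivative of an edge integral
  have hedge : ∀ i, HasDerivAt (fun ε : ℝ => sg (dir n) k (θ + ε • ν) i)
      (∫ τ in fac (dir n) k i, inner ℝ ν (k i • dir n i + τ • rot (dir n i)) *
        Real.exp (inner ℝ θ (k i • dir n i + τ • rot (dir n i)))) 0 := by
    intro i
    obtain ⟨hlt, hfac⟩ := len_of_pos n hn h3 hp i
    have hcont : ∀ w : E2, Continuous (fun τ : ℝ => inner ℝ w (k i • dir n i + τ • rot (dir n i))) := by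
      intro w
      fun_prop
    have hfc : IsCompact (fac (dir n) k i) := by rw [hfac]; exact isCompact_Icc
    obtain ⟨C1, hC1⟩ := hfc.exists_bound_of_continuousOn (hcont θ).continuousOn
    obtain ⟨C2, hC2⟩ := hfc.exists_bound_of_continuousOn (hcont ν).continuousOn
    have : IsFiniteMeasure (volume.restrict (fac (dir n) k i)) := ⟨by
      rw [Measure.restrict_apply_univ]; exact hfc.measure_lt_top⟩
    have hfm : MeasurableSet (fac (dir n) k i) := hfc.isClosed.measurableSet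
    have := C3b_deriv (volume.restrict (fac (dir n) k i))
      (fun τ : ℝ => inner ℝ θ (k i • dir n i + τ • rot (dir n i)))
      (fun τ : ℝ => inner ℝ ν (k i • dir n i + τ • rot (dir n i)))
      (hcont θ).aestronglyMeasurable (hcont ν).aestronglyMeasurable (max C1 C2)
      ((ae_restrict_iff' hfm).2 (Eventually.of_forall fun τ hτ => (hC1 τ hτ).trans (le_max_left _ _)))
      ((ae_restrict_iff' hfm).2 (Eventually.of_forall fun τ hτ => (hC2 τ hτ).trans (le_max_right _ _)))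
    refine this.congr_of_eventuallyEq (Eventually.of_forall fun ε => ?_)
    simp only [sg, inner_add_left (𝕜 := ℝ) θ, real_inner_smul_left]
  have hZd : HasDerivAt (fun ε : ℝ => Z (dir n) k (θ + ε • ν))
      (∫ x in Q (dir n) k, inner ℝ ν x * Real.exp (inner ℝ θ x)) 0 := by
    have hcont : ∀ w : E2, Continuous (fun x : E2 => inner ℝ w x) := by
      intro w
      fun_prop
    obtain ⟨C1, hC1⟩ := hQc.exists_bound_of_continuousOn (hcont θ).continuousOn
    obtain ⟨C2, hC2⟩ := hQc.exists_bound_of_continuousOn (hcont ν).continuousOn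
    have : IsFiniteMeasure (volume.restrict (Q (dir n) k)) := ⟨by
      rw [Measure.restrict_apply_univ]; exact hQc.measure_lt_top⟩
    have := C3b_deriv (volume.restrict (Q (dir n) k))
      (fun x : E2 => inner ℝ θ x) (fun x : E2 => inner ℝ ν x)
      (hcont θ).aestronglyMeasurable (hcont ν).aestronglyMeasurable (max C1 C2)
      ((ae_restrict_iff' hQm).2 (Eventually.of_forall fun τ hτ => (hC1 τ hτ).trans (le_max_left _ _)))
      ((ae_restrict_iff' hQm).2 (Eventually.of_forall fun τ hτ => (hC2 τ hτ).trans (le_max_right _ _)))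
    refine this.congr_of_eventuallyEq (Eventually.of_forall fun ε => ?_)
    simp only [Z, inner_add_left (𝕜 := ℝ) θ, real_inner_smul_left]
  have hzero : ∫ x in Q (dir n) k, inner ℝ ν x * Real.exp (inner ℝ θ x) = 0 := by
    have hint : IntegrableOn (fun x : E2 => Real.exp (inner ℝ θ x) • x) (Q (dir n) k) := by
      apply ContinuousOn.integrableOn_compact hQc
      apply Continuous.continuousOn
      fun_prop
    have h1 := integral_inner (𝕜 := ℝ) hint ν
    rw [hc, inner_zero_right] at h1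
    rw [← h1]
    refine integral_congr_ae (Eventually.of_forall fun x => ?_)
    simp only [real_inner_smul_right]
    ring
  have hsum : HasDerivAt (fun ε : ℝ => ∑ i, sg (dir n) k (θ + ε • ν) i • dir n i)
      (∑ i, (∫ τ in fac (dir n) k i, inner ℝ ν (k i • dir n i + τ • rot (dir n i)) *
        Real.exp (inner ℝ θ (k i • dir n i + τ • rot (dir n i)))) • dir n i) 0 := by
    have := HasDerivAt.fun_sum (u := Finset.univ) (fun i _ => (hedge i).smul_const (dir n i))
    exact this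
  have hright : HasDerivAt (fun ε : ℝ => Z (dir n) k (θ + ε • ν) • (θ + ε • ν))
      (Z (dir n) k θ • ν) 0 := by
    have h1 : HasDerivAt (fun ε : ℝ => θ + ε • ν) ν 0 := by
      simpa using ((hasDerivAt_id (0:ℝ)).smul_const ν).const_add θ
    have h2 := hZd.smul h1
    have h3 : Z (dir n) k (θ + (0:ℝ) • ν) • ν +
        (∫ x in Q (dir n) k, inner ℝ ν x * Real.exp (inner ℝ θ x)) • (θ + (0:ℝ) • ν) = Z (dir n) k θ • ν := by
      rw [hzero]; simp
    rw [h3] at h2
    exact h2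
  have heq : (fun ε : ℝ => ∑ i, sg (dir n) k (θ + ε • ν) i • dir n i) =
      fun ε : ℝ => Z (dir n) k (θ + ε • ν) • (θ + ε • ν) := by
    funext ε
    exact sg_sum hA hk _
  rw [heq] at hsum
  have hfin := hsum.unique hright
  have hterm : ∀ i, (∫ τ in (lo n k i)..(hi n k i), inner ℝ ν (k i • dir n i + τ • rot (dir n i)) * dens n k θ i τ) =
      (Z (dir n) k θ)⁻¹ * (∫ τ in fac (dir n) k i, inner ℝ ν (k i • dir n i + τ • rot (dir n i)) *
        Real.exp (inner ℝ θ (k i • dir n i + τ • rot (dir n i)))) := by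
    intro i
    obtain ⟨hlt, hfac⟩ := len_of_pos n hn h3 hp i
    rw [hfac, integral_Icc_eq_integral_Ioc, ← intervalIntegral.integral_of_le hlt.le,
      ← intervalIntegral.integral_const_mul]
    refine intervalIntegral.integral_congr fun τ _ => ?_
    simp only [dens]
    rw [div_eq_mul_inv]
    ring
  calc ∑ i, (∫ τ in (lo n k i)..(hi n k i), inner ℝ ν (k i • dir n i + τ • rot (dir n i)) * dens n k θ i τ) • dir n i
      = ∑ i, (Z (dir n) k θ)⁻¹ • ((∫ τ in fac (dir n) k i, inner ℝ ν (k i • dir n i + τ • rot (dir n i)) *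
        Real.exp (inner ℝ θ (k i • dir n i + τ • rot (dir n i)))) • dir n i) := by
        refine Finset.sum_congr rfl fun i _ => ?_
        rw [hterm i, smul_smul]
    _ = (Z (dir n) k θ)⁻¹ • (Z (dir n) k θ • ν) := by rw [← Finset.smul_sum, hfin]
    _ = ν := by rw [smul_smul, inv_mul_cancel₀ hZ.ne', one_smul]

end Pool.Agent.Lib.MP_1dedaf_gt.LB
end

section

/-!
# TASK LB A6: existence of the centered polygon with given edge masses

Proof. Take the maximiser `k₁` of `exists_max` and translate by `-x₀`, `x₀ = (1/Z) ∫_{Q u k₁} exp<θ,x> • x` (`θ = th u S`): with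
`k = k₁ - <x₀, u ·>` `Q u k = Q u k₁ - x₀`, Fat, `cent` holds, and `G u k S = G u k₁ S` (`w_translate`), so `k` is a maximiser too; `max_mass`.
-/

set_option autoImplicit false

open MeasureTheory Set Filter Topology

namespace Pool.Agent.Lib.MP_1dedaf_gt.LB

variable {ι : Type} [Fintype ι]

theorem exists_opt {u : ι → E2} (hu : Adm u) {S : ι → ℝ} (hS : ∀ i, 0 < S i) : ∃ k, Opt u S k := by
  obtain ⟨k₁, hk₁, hmax⟩ := exists_max hu hS
  set θ : E2 := th u S with hθ
  have hZ1 : 0 < Z u k₁ θ := Z_pos hu hk₁ θ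
  set v : E2 := ∫ x in Q u k₁, Real.exp (inner ℝ θ x) • x with hv
  set x₀ : E2 := (Z u k₁ θ)⁻¹ • v with hx₀
  set k : ι → ℝ := fun i => k₁ i + inner ℝ (-x₀) (u i) with hk
  have hZk : Z u k θ = Real.exp (inner ℝ θ (-x₀)) * Z u k₁ θ := Z_translate u k₁ θ (-x₀)
  have hZkpos : 0 < Z u k θ := by
    rw [hZk]
    exact mul_pos (Real.exp_pos _) hZ1
  have hfat : Fat u k := fat_of_Z_pos hu hZkpos
  have hin : ∀ x : E2, inner ℝ θ x = ∑ i, S i * inner ℝ x (u i) := by
    intro x
    rw [hθ]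
    unfold th
    rw [sum_inner]
    refine Finset.sum_congr rfl fun i _ => ?_
    rw [real_inner_smul_left, real_inner_comm]
  have hGk : G u k S = G u k₁ S := by
    unfold G
    rw [← hθ, hZk, Real.log_mul (Real.exp_pos _).ne' hZ1.ne', Real.log_exp, hin (-x₀)]
    have h1 : ∑ i, S i * k i = ∑ i, S i * k₁ i + ∑ i, S i * inner ℝ (-x₀) (u i) := by
      rw [← Finset.sum_add_distrib]
      refine Finset.sum_congr rfl fun i _ => ?_
      rw [hk]
      ring
    rw [h1]
    ring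
  refine ⟨k, hfat, ?_, ?_⟩
  · exact max_mass hu hfat fun k' hk' => (hmax k' hk').trans hGk.ge
  · have hQ : Q u k = (fun x : E2 => x + x₀) ⁻¹' Q u k₁ := by
      ext x
      simp only [Q, Set.mem_ofPred_eq, Set.mem_preimage, hk, inner_add_left, inner_neg_left]
      constructor
      · intro h i
        have := h i
        linarith
      · intro h i
        have := h i
        linarith
    have hch : ∫ x in Q u k, Real.exp (inner ℝ θ x) • x =
        ∫ y in Q u k₁, Real.exp (inner ℝ θ (y - x₀)) • (y - x₀) := by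
      have h2 := (measurePreserving_add_right (volume : Measure E2) x₀).setIntegral_preimage_emb
        (MeasurableEquiv.addRight x₀).measurableEmbedding
        (fun y : E2 => Real.exp (inner ℝ θ (y - x₀)) • (y - x₀)) (Q u k₁)
      rw [← h2, hQ]
      refine integral_congr_ae (Filter.Eventually.of_forall fun x => ?_)
      simp only [add_sub_cancel_right]
    rw [← hθ, hch]
    have hi1 : IntegrableOn (fun y : E2 => Real.exp (inner ℝ θ y) • y) (Q u k₁) := by
      apply ContinuousOn.integrableOn_compact (Q_compact hu k₁)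
      exact Continuous.continuousOn (by fun_prop)
    have hi2 : IntegrableOn (fun y : E2 => Real.exp (inner ℝ θ y) • x₀) (Q u k₁) := by
      apply ContinuousOn.integrableOn_compact (Q_compact hu k₁)
      exact Continuous.continuousOn (by fun_prop)
    have h3 : ∀ y : E2, Real.exp (inner ℝ θ (y - x₀)) • (y - x₀) =
        Real.exp (-inner ℝ θ x₀) • (Real.exp (inner ℝ θ y) • y - Real.exp (inner ℝ θ y) • x₀) := by
      intro y
      rw [inner_sub_right, sub_eq_add_neg, add_comm (inner ℝ θ y), Real.exp_add, ← smul_sub, smul_smul]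
    simp only [h3]
    rw [integral_smul, integral_sub hi1 hi2, integral_smul_const, ← hv]
    have h4 : (∫ y in Q u k₁, Real.exp (inner ℝ θ y)) = Z u k₁ θ := rfl
    rw [h4, hx₀, smul_smul, mul_inv_cancel₀ hZ1.ne', one_smul, sub_self, smul_zero]

end Pool.Agent.Lib.MP_1dedaf_gt.LB
end
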