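import Pool.Agent.Lib.MP_1dedaf_gt.DK.SDefs
import Pool.Agent.Lib.MP_1dedaf_gt.Mg.G004
import Pool.Agent.Lib.MP_1dedaf_gt.Mg.G012
import Pool.Agent.Lib.MP_1dedaf_gt.DK.Reg
import Pool.Agent.Lib.MP_1dedaf_gt.DK.A0
import Pool.Agent.Lib.MP_1dedaf_gt.Mg.G014

section

/-!
# TASK DK B3: the lower and the upper boundary are piecewise the lines of the edges

`h = (n-1)/2`, `n = 2 h + 1`. Proof. `sx_lt_lo`, `sx_lt_up`: `sx_succ`, `sin_lo` / `sin_up`, `len_pos`. `sv_l_eq`: the slope of `ln (j+1)` is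
`- cot ((j+1) δ)`, strictly increasing in `j < h` (`0 < (j+1) δ < π`; the difference of `cot` at `a < b` in `(0, π)` is
`sin (b - a) / (sin a sin b)`), and `ln (j+1)`, `ln (j+2)` agree at `sx (j+1)` (`ln_end`, `ln_start`). So `ln (i+1) ≤ ln (i+2)` to the
right of `sx (i+1)` and `≥` to the left. For `x ∈ [sx j, sx (j+1)]` and `i ≤ j` we get `ln (i+1) x ≤ ln (j+1) x` by induction
(`sx` is increasing on `0..h`), for `i ≥ j` as well. So the supremum is `ln (j+1) x` (`ciSup`: `le_antisymm (ciSup_le ..) (le_ciSup (Finite.bddAbove_range _) _)`).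
`sv_u_eq` is the mirror image: for `h ≤ j < n-1` the angles lie in `(π, 2 π)`, the slopes `- cot ((j+1) δ)` increase with `j` again, `sx` is
decreasing on `h..n-1`; `ln (i+2) - ln (i+1)` is an affine function with positive slope which vanishes at `sx (i+1)`, so
`ln (i+2) ≥ ln (i+1)` to the right of `sx (i+1)` and `≤` to the left; for `x ∈ [sx (j+1), sx j]` the minimum is at `j`.
-/

set_option autoImplicit false

open MeasureTheory Set Filter Topology

namespace Pool.Agent.Lib.MP_1dedaf_gt.DK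

open Pool.Agent.Lib.MP_1dedaf_gt.LB

private theorem B3_ln_affine (n : ℕ) (k : ZMod n → ℝ) (s : ZMod n) (j : ℕ) (x y : ℝ) :
    ln n k s j x = ln n k s j y - (x - y) * (Real.cos (j * dl n) / Real.sin (j * dl n)) := by
  unfold ln
  ring

private theorem B3_alg (y X : ℝ) {a b c d : ℝ} (hb : b ≠ 0) (hd : d ≠ 0) :
    y - X * (c / d) - (y - X * (a / b)) = X * ((d * a - c * b) / (b * d)) := by
  field_simp
  ring

private theorem B3_step (n : ℕ) [NeZero n] (hn : Odd n) (h3 : 3 ≤ n) (k : ZMod n → ℝ) (s : ZMod n)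
    (i : ℕ) (h1 : Real.sin ((i + 1 : ℕ) * dl n) ≠ 0) (h2 : Real.sin ((i + 1 + 1 : ℕ) * dl n) ≠ 0)
    (x : ℝ) : ln n k s (i + 1 + 1) x - ln n k s (i + 1) x = (x - sx n k s (i + 1)) *
      (Real.sin (dl n) / (Real.sin ((i + 1 : ℕ) * dl n) * Real.sin ((i + 1 + 1 : ℕ) * dl n))) := by
  have e1 := ln_end n hn h3 k s i h1
  have e2 := ln_start n hn h3 k s (i + 1) h2
  have a1 := B3_ln_affine n k s (i + 1) x (sx n k s (i + 1))
  have a2 := B3_ln_affine n k s (i + 1 + 1) x (sx n k s (i + 1))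
  rw [e1] at a1
  rw [e2] at a2
  rw [a1, a2]
  have hs : Real.sin (dl n) = Real.sin ((i + 1 + 1 : ℕ) * dl n) * Real.cos ((i + 1 : ℕ) * dl n) -
      Real.cos ((i + 1 + 1 : ℕ) * dl n) * Real.sin ((i + 1 : ℕ) * dl n) := by
    rw [← Real.sin_sub]
    congr 1
    push_cast
    ring
  rw [hs]
  exact B3_alg _ _ h1 h2

private theorem B3_sin_dl (n : ℕ) [NeZero n] (hn : Odd n) (h3 : 3 ≤ n) : 0 < Real.sin (dl n) := by
  have h := sin_lo n hn h3 0 (by omega)
  simpa using h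

theorem sx_lt_lo (n : ℕ) [NeZero n] (hn : Odd n) (h3 : 3 ≤ n) {T k : ZMod n → ℝ} (hT : ∀ i, 0 < T i)
    (ho : Opt (dir n) T k) (s : ZMod n) (j : ℕ) (hj : j < (n - 1) / 2) : sx n k s j < sx n k s (j + 1) := by
  rw [sx_succ n hn h3 k s j]
  have h1 := sin_lo n hn h3 j hj
  have h2 := len_pos n hn h3 hT ho (s + ((j + 1 : ℕ) : ZMod n))
  have h4 := mul_pos h1 (sub_pos.mpr h2)
  linarith

theorem sx_lt_up (n : ℕ) [NeZero n] (hn : Odd n) (h3 : 3 ≤ n) {T k : ZMod n → ℝ} (hT : ∀ i, 0 < T i)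
    (ho : Opt (dir n) T k) (s : ZMod n) (j : ℕ) (hj : (n - 1) / 2 ≤ j) (hj2 : j < n - 1) :
    sx n k s (j + 1) < sx n k s j := by
  rw [sx_succ n hn h3 k s j]
  have h1 := sin_up n hn h3 j hj hj2
  have h2 := len_pos n hn h3 hT ho (s + ((j + 1 : ℕ) : ZMod n))
  have h4 := mul_neg_of_neg_of_pos h1 (sub_pos.mpr h2)
  linarith

private theorem B3_mono_lo (n : ℕ) [NeZero n] (hn : Odd n) (h3 : 3 ≤ n) {T k : ZMod n → ℝ}
    (hT : ∀ i, 0 < T i) (ho : Opt (dir n) T k) (s : ZMod n) (i : ℕ) :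
    ∀ j, i ≤ j → j ≤ (n - 1) / 2 → sx n k s i ≤ sx n k s j := by
  intro j hij
  induction j, hij using Nat.le_induction with
  | base => exact fun _ => le_rfl
  | succ j hij ih =>
    intro hj
    exact (ih (by omega)).trans (sx_lt_lo n hn h3 hT ho s j (by omega)).le

private theorem B3_mono_up (n : ℕ) [NeZero n] (hn : Odd n) (h3 : 3 ≤ n) {T k : ZMod n → ℝ}
    (hT : ∀ i, 0 < T i) (ho : Opt (dir n) T k) (s : ZMod n) (i : ℕ) (hi : (n - 1) / 2 ≤ i) :
    ∀ j, i ≤ j → j ≤ n - 1 → sx n k s j ≤ sx n k s i := by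
  intro j hij
  induction j, hij using Nat.le_induction with
  | base => exact fun _ => le_rfl
  | succ j hij ih =>
    intro hj
    exact (sx_lt_up n hn h3 hT ho s j (by omega) (by omega)).le.trans (ih (by omega))

private theorem B3_le_lo (n : ℕ) [NeZero n] (hn : Odd n) (h3 : 3 ≤ n) {T k : ZMod n → ℝ}
    (hT : ∀ i, 0 < T i) (ho : Opt (dir n) T k) (s : ZMod n) (j : ℕ) (hj : j < (n - 1) / 2) (x : ℝ)
    (hx : x ∈ Icc (sx n k s j) (sx n k s (j + 1))) (i : ℕ) (hi : i < (n - 1) / 2) :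
    ln n k s (i + 1) x ≤ ln n k s (j + 1) x := by
  have hstep : ∀ m, m + 1 < (n - 1) / 2 → 0 < Real.sin (dl n) /
      (Real.sin ((m + 1 : ℕ) * dl n) * Real.sin ((m + 1 + 1 : ℕ) * dl n)) := fun m hm =>
    div_pos (B3_sin_dl n hn h3) (mul_pos (sin_lo n hn h3 m (by omega)) (sin_lo n hn h3 (m + 1) hm))
  have hne : ∀ m, m < (n - 1) / 2 → Real.sin ((m + 1 : ℕ) * dl n) ≠ 0 := fun m hm =>
    (sin_lo n hn h3 m hm).ne'
  rcases le_total i j with hij | hij
  · -- increasing up to `j`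
    have key : ∀ m, i ≤ m → m ≤ j → ln n k s (i + 1) x ≤ ln n k s (m + 1) x := by
      intro m him
      induction m, him using Nat.le_induction with
      | base => exact fun _ => le_rfl
      | succ m him ih =>
        intro hm
        refine (ih (by omega)).trans ?_
        have h1 := B3_step n hn h3 k s m (hne m (by omega)) (hne (m + 1) (by omega)) x
        have h2 := B3_mono_lo n hn h3 hT ho s (m + 1) j hm hj.le
        have h4 := mul_nonneg (sub_nonneg.mpr (h2.trans hx.1)) (hstep m (by omega)).le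
        linarith
    exact key j hij le_rfl
  · have key : ∀ m, j ≤ m → m < (n - 1) / 2 → ln n k s (m + 1) x ≤ ln n k s (j + 1) x := by
      intro m hjm
      induction m, hjm using Nat.le_induction with
      | base => exact fun _ => le_rfl
      | succ m hjm ih =>
        intro hm
        refine le_trans ?_ (ih (by omega))
        have h1 := B3_step n hn h3 k s m (hne m (by omega)) (hne (m + 1) hm) x
        have h2 := B3_mono_lo n hn h3 hT ho s (j + 1) (m + 1) (by omega) (by omega)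
        have h4 := mul_nonneg (sub_nonneg.mpr (hx.2.trans h2)) (hstep m hm).le
        linarith
    exact key i hij hi

private theorem B3_le_up (n : ℕ) [NeZero n] (hn : Odd n) (h3 : 3 ≤ n) {T k : ZMod n → ℝ}
    (hT : ∀ i, 0 < T i) (ho : Opt (dir n) T k) (s : ZMod n) (j : ℕ) (hj : (n - 1) / 2 ≤ j)
    (hj2 : j < n - 1) (x : ℝ) (hx : x ∈ Icc (sx n k s (j + 1)) (sx n k s j)) (i : ℕ)
    (hi : (n - 1) / 2 ≤ i) (hi2 : i < n - 1) :
    ln n k s (j + 1) x ≤ ln n k s (i + 1) x := by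
  have hstep : ∀ m, (n - 1) / 2 ≤ m → m + 1 < n - 1 → 0 < Real.sin (dl n) /
      (Real.sin ((m + 1 : ℕ) * dl n) * Real.sin ((m + 1 + 1 : ℕ) * dl n)) := fun m hm hm2 =>
    div_pos (B3_sin_dl n hn h3) (mul_pos_of_neg_of_neg (sin_up n hn h3 m hm (by omega))
      (sin_up n hn h3 (m + 1) (by omega) hm2))
  have hne : ∀ m, (n - 1) / 2 ≤ m → m < n - 1 → Real.sin ((m + 1 : ℕ) * dl n) ≠ 0 :=
    fun m hm hm2 => (sin_up n hn h3 m hm hm2).ne
  rcases le_total i j with hij | hij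
  · have key : ∀ m, i ≤ m → m ≤ j → ln n k s (m + 1) x ≤ ln n k s (i + 1) x := by
      intro m him
      induction m, him using Nat.le_induction with
      | base => exact fun _ => le_rfl
      | succ m him ih =>
        intro hm
        refine le_trans ?_ (ih (by omega))
        have h1 := B3_step n hn h3 k s m (hne m (by omega) (by omega))
          (hne (m + 1) (by omega) (by omega)) x
        have h2 := B3_mono_up n hn h3 hT ho s (m + 1) (by omega) j hm hj2.le
        have h4 := mul_nonneg (sub_nonneg.mpr (hx.2.trans h2))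
          (hstep m (by omega) (by omega)).le
        linarith
    exact key j hij le_rfl
  · have key : ∀ m, j ≤ m → m < n - 1 → ln n k s (j + 1) x ≤ ln n k s (m + 1) x := by
      intro m hjm
      induction m, hjm using Nat.le_induction with
      | base => exact fun _ => le_rfl
      | succ m hjm ih =>
        intro hm
        refine (ih (by omega)).trans ?_
        have h1 := B3_step n hn h3 k s m (hne m (by omega) (by omega))
          (hne (m + 1) (by omega) hm) x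
        have h2 := B3_mono_up n hn h3 hT ho s (j + 1) (by omega) (m + 1) (by omega) (by omega)
        have h4 := mul_nonneg (sub_nonneg.mpr (h2.trans hx.1)) (hstep m (by omega) hm).le
        linarith
    exact key i hij hi2

theorem sv_l_eq (n : ℕ) [NeZero n] (hn : Odd n) (h3 : 3 ≤ n) {T k : ZMod n → ℝ} (hT : ∀ i, 0 < T i)
    (ho : Opt (dir n) T k) (s : ZMod n) (j : ℕ) (hj : j < (n - 1) / 2) (x : ℝ)
    (hx : x ∈ Icc (sx n k s j) (sx n k s (j + 1))) :
    (sv n k (th (dir n) T) s).l x = ln n k s (j + 1) x := by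
  show (⨆ i : Fin ((n - 1) / 2), ln n k s (i.val + 1) x) = ln n k s (j + 1) x
  have : Nonempty (Fin ((n - 1) / 2)) := ⟨⟨j, hj⟩⟩
  refine le_antisymm (ciSup_le fun i => B3_le_lo n hn h3 hT ho s j hj x hx i.val i.isLt) ?_
  exact le_ciSup (f := fun i : Fin ((n - 1) / 2) => ln n k s (i.val + 1) x)
    (Set.finite_range _).bddAbove ⟨j, hj⟩

theorem sv_u_eq (n : ℕ) [NeZero n] (hn : Odd n) (h3 : 3 ≤ n) {T k : ZMod n → ℝ} (hT : ∀ i, 0 < T i)
    (ho : Opt (dir n) T k) (s : ZMod n) (j : ℕ) (hj : (n - 1) / 2 ≤ j) (hj2 : j < n - 1) (x : ℝ)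
    (hx : x ∈ Icc (sx n k s (j + 1)) (sx n k s j)) :
    (sv n k (th (dir n) T) s).u x = ln n k s (j + 1) x := by
  show (⨅ i : Fin ((n - 1) / 2), ln n k s ((n - 1) / 2 + 1 + i.val) x) = ln n k s (j + 1) x
  have hodd : n - 1 = 2 * ((n - 1) / 2) := by
    obtain ⟨m, hm⟩ := hn
    omega
  have hjf : j - (n - 1) / 2 < (n - 1) / 2 := by omega
  have : Nonempty (Fin ((n - 1) / 2)) := ⟨⟨j - (n - 1) / 2, hjf⟩⟩
  refine le_antisymm ?_ (le_ciInf fun i => ?_)
  · have h1 := ciInf_le (f := fun i : Fin ((n - 1) / 2) => ln n k s ((n - 1) / 2 + 1 + i.val) x)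
      (Set.finite_range _).bddBelow ⟨j - (n - 1) / 2, hjf⟩
    have h2 : (n - 1) / 2 + 1 + (j - (n - 1) / 2) = j + 1 := by omega
    simp only [h2] at h1
    exact h1
  · have h1 := B3_le_up n hn h3 hT ho s j hj hj2 x hx ((n - 1) / 2 + i.val) (by omega)
      (by have := i.isLt; omega)
    have h2 : (n - 1) / 2 + 1 + i.val = (n - 1) / 2 + i.val + 1 := by omega
    rw [h2]
    exact h1

end Pool.Agent.Lib.MP_1dedaf_gt.DK
end

section

/-!
# TASK DK B4: regularity of the column data of the polygon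

`h = (n-1)/2 ≥ 1`. Proof. `ln` is affine in `x`, so `l` (a finite supremum) is continuous and convex, `u` continuous and concave
(`sv_l_cont` also for a general index type: e.g. write `⨆ i : Fin h` of continuous functions as `Finset.sup'`, or use `continuous_finset_sup'`
or `ciSup` as `Finset.univ.sup'` (`Finset.sup'_univ_eq_ciSup`)). `w = sx h > 0` by `sx_lt_lo` and `sx_zero`. `l 0 = ln 1 0 = sy 0`,
`u 0 = ln (n-1) 0 = sy (n-1)` (`sv_l_eq`, `sv_u_eq`, `ln_start`, `ln_end`), `l w = ln h w = sy h = ln (h+1) w = u w`. `sy (n-1) - sy 0`: both are points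
of the edge `s`: `ver (s+(n-1)) = ver (s-1) = k s u s + lo rot (u s)`, so `sy (n-1) = - lo`, `sy 0 = - hi`; `lo < hi` gives `l 0 < u 0`.
`l ≤ u` on `[0,w]`: at `x = (1-t) 0 + t w` convexity and concavity give `l x ≤ (1-t) l 0 + t l w ≤ (1-t) u 0 + t u w ≤ u x`, strict for `x < w`.
-/

set_option autoImplicit false

open MeasureTheory Set Filter Topology

namespace Pool.Agent.Lib.MP_1dedaf_gt.DK

open Pool.Agent.Lib.MP_1dedaf_gt.LB

private theorem B4_h (n : ℕ) (hn : Odd n) (h3 : 3 ≤ n) : 0 < (n - 1) / 2 ∧ n = 2 * ((n - 1) / 2) + 1 := by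
  obtain ⟨m, rfl⟩ := hn
  omega

private theorem B4_ln_cont (n : ℕ) (k : ZMod n → ℝ) (s : ZMod n) (j : ℕ) : Continuous (ln n k s j) := by
  unfold ln
  fun_prop

private theorem B4_ln_aff (n : ℕ) (k : ZMod n → ℝ) (s : ZMod n) (j : ℕ) (x y a b : ℝ) (hab : a + b = 1) :
    ln n k s j (a * x + b * y) = a * ln n k s j x + b * ln n k s j y := by
  unfold ln
  have hb : b = 1 - a := by linarith
  subst hb
  ring

theorem sv_l_cont (n : ℕ) [NeZero n] (hn : Odd n) (h3 : 3 ≤ n) (k : ZMod n → ℝ) (θ : E2) (s : ZMod n) :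
    Continuous (sv n k θ s).l ∧ ConvexOn ℝ univ (sv n k θ s).l := by
  obtain ⟨hh, hnn⟩ := B4_h n hn h3
  have : Nonempty (Fin ((n - 1) / 2)) := ⟨⟨0, hh⟩⟩
  constructor
  · have he : (sv n k θ s).l = fun x => Finset.univ.sup' Finset.univ_nonempty
        (fun i : Fin ((n - 1) / 2) => ln n k s (i.val + 1) x) := by
      funext x
      show (⨆ i : Fin ((n - 1) / 2), ln n k s (i.val + 1) x) = _
      rw [Finset.sup'_univ_eq_ciSup]
    rw [he]
    exact Continuous.finset_sup'_apply _ (fun i _ => B4_ln_cont n k s (i.val + 1))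
  · refine ⟨convex_univ, ?_⟩
    intro x _ y _ a b ha hb hab
    show (⨆ i : Fin ((n - 1) / 2), ln n k s (i.val + 1) (a • x + b • y)) ≤
      a • (⨆ i : Fin ((n - 1) / 2), ln n k s (i.val + 1) x) + b • (⨆ i : Fin ((n - 1) / 2), ln n k s (i.val + 1) y)
    apply ciSup_le
    intro i
    simp only [smul_eq_mul]
    rw [B4_ln_aff n k s _ x y a b hab]
    have h1 : ln n k s (i.val + 1) x ≤ ⨆ i : Fin ((n - 1) / 2), ln n k s (i.val + 1) x :=
      le_ciSup (f := fun i : Fin ((n - 1) / 2) => ln n k s (i.val + 1) x) (Set.finite_range _).bddAbove i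
    have h2 : ln n k s (i.val + 1) y ≤ ⨆ i : Fin ((n - 1) / 2), ln n k s (i.val + 1) y :=
      le_ciSup (f := fun i : Fin ((n - 1) / 2) => ln n k s (i.val + 1) y) (Set.finite_range _).bddAbove i
    exact add_le_add (mul_le_mul_of_nonneg_left h1 ha) (mul_le_mul_of_nonneg_left h2 hb)

theorem sv_u_cont (n : ℕ) [NeZero n] (hn : Odd n) (h3 : 3 ≤ n) (k : ZMod n → ℝ) (θ : E2) (s : ZMod n) :
    Continuous (sv n k θ s).u ∧ ConcaveOn ℝ univ (sv n k θ s).u := by
  obtain ⟨hh, hnn⟩ := B4_h n hn h3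
  have : Nonempty (Fin ((n - 1) / 2)) := ⟨⟨0, hh⟩⟩
  constructor
  · have he : (sv n k θ s).u = fun x => Finset.univ.inf' Finset.univ_nonempty
        (fun i : Fin ((n - 1) / 2) => ln n k s ((n - 1) / 2 + 1 + i.val) x) := by
      funext x
      show (⨅ i : Fin ((n - 1) / 2), ln n k s ((n - 1) / 2 + 1 + i.val) x) = _
      rw [Finset.inf'_univ_eq_ciInf]
    rw [he]
    exact Continuous.finset_inf'_apply _ (fun i _ => B4_ln_cont n k s ((n - 1) / 2 + 1 + i.val))
  · refine ⟨convex_univ, ?_⟩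
    intro x _ y _ a b ha hb hab
    show a • (⨅ i : Fin ((n - 1) / 2), ln n k s ((n - 1) / 2 + 1 + i.val) x) +
      b • (⨅ i : Fin ((n - 1) / 2), ln n k s ((n - 1) / 2 + 1 + i.val) y) ≤
      (⨅ i : Fin ((n - 1) / 2), ln n k s ((n - 1) / 2 + 1 + i.val) (a • x + b • y))
    apply le_ciInf
    intro i
    simp only [smul_eq_mul]
    rw [B4_ln_aff n k s _ x y a b hab]
    have h1 : (⨅ i : Fin ((n - 1) / 2), ln n k s ((n - 1) / 2 + 1 + i.val) x) ≤ ln n k s ((n - 1) / 2 + 1 + i.val) x :=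
      ciInf_le (f := fun i : Fin ((n - 1) / 2) => ln n k s ((n - 1) / 2 + 1 + i.val) x) (Set.finite_range _).bddBelow i
    have h2 : (⨅ i : Fin ((n - 1) / 2), ln n k s ((n - 1) / 2 + 1 + i.val) y) ≤ ln n k s ((n - 1) / 2 + 1 + i.val) y :=
      ciInf_le (f := fun i : Fin ((n - 1) / 2) => ln n k s ((n - 1) / 2 + 1 + i.val) y) (Set.finite_range _).bddBelow i
    exact add_le_add (mul_le_mul_of_nonneg_left h1 ha) (mul_le_mul_of_nonneg_left h2 hb)

private theorem B4_sx_pos (n : ℕ) [NeZero n] (hn : Odd n) (h3 : 3 ≤ n) {T k : ZMod n → ℝ} (hT : ∀ i, 0 < T i)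
    (ho : Opt (dir n) T k) (s : ZMod n) (j : ℕ) (hj : j < (n - 1) / 2) : 0 < sx n k s (j + 1) := by
  induction j with
  | zero =>
    have h := sx_lt_lo n hn h3 hT ho s 0 hj
    rw [sx_zero n hn h3 k s] at h
    exact h
  | succ j ih =>
    have h := sx_lt_lo n hn h3 hT ho s (j + 1) hj
    exact (ih (by omega)).trans h

theorem sv_w_pos (n : ℕ) [NeZero n] (hn : Odd n) (h3 : 3 ≤ n) {T k : ZMod n → ℝ} (hT : ∀ i, 0 < T i)
    (ho : Opt (dir n) T k) (s : ZMod n) : 0 < (sv n k (th (dir n) T) s).w := by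
  obtain ⟨hh, hnn⟩ := B4_h n hn h3
  show 0 < sx n k s ((n - 1) / 2)
  have h := B4_sx_pos n hn h3 hT ho s ((n - 1) / 2 - 1) (by omega)
  have he : (n - 1) / 2 - 1 + 1 = (n - 1) / 2 := by omega
  rwa [he] at h

private theorem B4_rot_rot (x y : E2) : inner ℝ (rot x) (rot y) = inner ℝ x y := by
  simp [rot, EuclideanSpace.inner_eq_star_dotProduct, dotProduct, Fin.sum_univ_two]
  ring

private theorem B4_rot_self (x : E2) : inner ℝ x (rot x) = 0 := by
  simp [rot, EuclideanSpace.inner_eq_star_dotProduct, dotProduct, Fin.sum_univ_two]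
  ring

private theorem B4_inner (n : ℕ) (s : ZMod n) (c t : ℝ) :
    inner ℝ (c • dir n s + t • rot (dir n s)) (rot (dir n s)) = t := by
  rw [inner_add_left, real_inner_smul_left, real_inner_smul_left, B4_rot_self, B4_rot_rot,
    real_inner_self_eq_norm_sq, dir_norm]
  ring

theorem sv_ends (n : ℕ) [NeZero n] (hn : Odd n) (h3 : 3 ≤ n) {T k : ZMod n → ℝ} (hT : ∀ i, 0 < T i)
    (ho : Opt (dir n) T k) (s : ZMod n) :
    (sv n k (th (dir n) T) s).l 0 = sy n k s 0 ∧ (sv n k (th (dir n) T) s).u 0 = sy n k s (n - 1) ∧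
    (sv n k (th (dir n) T) s).l 0 < (sv n k (th (dir n) T) s).u 0 ∧
    (sv n k (th (dir n) T) s).l (sv n k (th (dir n) T) s).w = (sv n k (th (dir n) T) s).u (sv n k (th (dir n) T) s).w := by
  obtain ⟨hh, hnn⟩ := B4_h n hn h3
  have hz := sx_zero n hn h3 k s
  have hl := sx_last n hn h3 k s
  have e1 : (sv n k (th (dir n) T) s).l 0 = sy n k s 0 := by
    have h1 : (0 : ℝ) ∈ Icc (sx n k s 0) (sx n k s (0 + 1)) := by
      rw [hz]
      exact ⟨le_refl _, (B4_sx_pos n hn h3 hT ho s 0 hh).le⟩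
    rw [sv_l_eq n hn h3 hT ho s 0 hh 0 h1]
    have h2 := ln_start n hn h3 k s 0 (sin_lo n hn h3 0 hh).ne'
    rw [hz] at h2
    exact h2
  have hn2 : n - 2 + 1 = n - 1 := by omega
  have e2 : (sv n k (th (dir n) T) s).u 0 = sy n k s (n - 1) := by
    have hlt := sx_lt_up n hn h3 hT ho s (n - 2) (by omega) (by omega)
    rw [hn2, hl] at hlt
    have h1 : (0 : ℝ) ∈ Icc (sx n k s (n - 2 + 1)) (sx n k s (n - 2)) := by
      rw [hn2, hl]
      exact ⟨le_refl _, hlt.le⟩
    rw [sv_u_eq n hn h3 hT ho s (n - 2) (by omega) (by omega) 0 h1]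
    have h2 := ln_end n hn h3 k s (n - 2) (sin_up n hn h3 (n - 2) (by omega) (by omega)).ne
    rw [hn2, hl] at h2
    rw [hn2]
    exact h2
  refine ⟨e1, e2, ?_, ?_⟩
  · rw [e1, e2]
    have h1 : sy n k s 0 = - hi n k s := by
      unfold sy ver
      have h0 : s + ((0 : ℕ) : ZMod n) = s := by simp
      rw [h0, B4_inner]
    have h2 : sy n k s (n - 1) = - lo n k s := by
      unfold sy
      have h0 : s + ((n - 1 : ℕ) : ZMod n) = s - 1 := by
        rw [Nat.cast_sub (by omega : 1 ≤ n)]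
        simp
        ring
      rw [h0, ver_eq n hn h3 k s, B4_inner]
    rw [h1, h2]
    have h4 := len_pos n hn h3 hT ho s
    linarith
  · show (sv n k (th (dir n) T) s).l (sx n k s ((n - 1) / 2)) = (sv n k (th (dir n) T) s).u (sx n k s ((n - 1) / 2))
    have h5 : (sv n k (th (dir n) T) s).l (sx n k s ((n - 1) / 2)) = sy n k s ((n - 1) / 2) := by
      have he : (n - 1) / 2 - 1 + 1 = (n - 1) / 2 := by omega
      have hlt := sx_lt_lo n hn h3 hT ho s ((n - 1) / 2 - 1) (by omega)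
      have h6 := sv_l_eq n hn h3 hT ho s ((n - 1) / 2 - 1) (by omega) (sx n k s ((n - 1) / 2))
        (by rw [he] at hlt ⊢; exact ⟨hlt.le, le_refl _⟩)
      have h7 := ln_end n hn h3 k s ((n - 1) / 2 - 1) (sin_lo n hn h3 ((n - 1) / 2 - 1) (by omega)).ne'
      rw [he] at h6 h7
      rw [h6, h7]
    have h8 : (sv n k (th (dir n) T) s).u (sx n k s ((n - 1) / 2)) = sy n k s ((n - 1) / 2) := by
      have hlt := sx_lt_up n hn h3 hT ho s ((n - 1) / 2) (le_refl _) (by omega)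
      rw [sv_u_eq n hn h3 hT ho s ((n - 1) / 2) (le_refl _) (by omega) (sx n k s ((n - 1) / 2)) ⟨hlt.le, le_refl _⟩]
      exact ln_start n hn h3 k s ((n - 1) / 2) (sin_up n hn h3 ((n - 1) / 2) (le_refl _) (by omega)).ne
    rw [h5, h8]

theorem sv_lt (n : ℕ) [NeZero n] (hn : Odd n) (h3 : 3 ≤ n) {T k : ZMod n → ℝ} (hT : ∀ i, 0 < T i)
    (ho : Opt (dir n) T k) (s : ZMod n) (x : ℝ) (hx : 0 ≤ x) (hx2 : x < (sv n k (th (dir n) T) s).w) :
    (sv n k (th (dir n) T) s).l x < (sv n k (th (dir n) T) s).u x := by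
  have hw := sv_w_pos n hn h3 hT ho s
  obtain ⟨e1, e2, e3, e4⟩ := sv_ends n hn h3 hT ho s
  obtain ⟨_, hcl⟩ := sv_l_cont n hn h3 k (th (dir n) T) s
  obtain ⟨_, hcu⟩ := sv_u_cont n hn h3 k (th (dir n) T) s
  set K := sv n k (th (dir n) T) s with hK
  set t : ℝ := x / K.w with ht
  have ht0 : 0 ≤ t := div_nonneg hx hw.le
  have ht1 : t < 1 := by rw [ht, div_lt_one hw]; exact hx2
  have hxe : x = (1 - t) * 0 + t * K.w := by rw [ht]; field_simp; ring
  have h1 := hcl.2 (mem_univ (0 : ℝ)) (mem_univ K.w) (by linarith : 0 ≤ 1 - t) ht0 (by ring)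
  have h2 := hcu.2 (mem_univ (0 : ℝ)) (mem_univ K.w) (by linarith : 0 ≤ 1 - t) ht0 (by ring)
  simp only [smul_eq_mul] at h1 h2
  rw [← hxe] at h1 h2
  have h3' : (1 - t) * K.l 0 < (1 - t) * K.u 0 := mul_lt_mul_of_pos_left e3 (by linarith)
  rw [e4] at h1
  linarith

end Pool.Agent.Lib.MP_1dedaf_gt.DK
end

section

/-!
# TASK DK B6: the brackets of the kernel as loop integrals

`K = sv n k (th (dir n) T) s`, `C = sC ..`, `h = (n-1)/2`, `n - 1 = 2 h`. Proof. `Xl_at`: induction on `j ≤ h`: on `[sx j, sx (j+1)]` `C rl x = f x`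
(`sv_l_eq`, `f` as in `edge_mass`), so `C (Xl (sx (j+1)) - Xl (sx j)) = ∫ f = Xj (j+1) - Xj j`. `Xu_at`: start with `Xu w = Xl w` at `j = h` (`sx h = w`),
then for `j ≥ h`: `C (Xu (sx (j+1)) - Xu (sx j)) = ∫_{sx j}^{sx (j+1)} C ru = ∫ f` (`Xu_deriv` or `Xu_eq`; `sv_u_eq` on `[sx (j+1), sx j]`). `path_lo`, `path_up`: for a
point `x` of the interval of the edge: `Xj j + ∫_{sx j}^x f = C Xl x` (resp. `C Xu x`), `f x = C rl x` (resp. `C ru x`), so the integral over the edge in `edge_int`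
is `∫_{sx j}^{sx (j+1)} G (C Xl x) (C rl x) / (C rl x) dx`. `br_eq`: `bj n m (l+1) = sin ((l+1) δ) / sin (m δ)`, `edge_int` (`sin ≠ 0` by `sin_lo`, `sin_up`; note that
`(l + 1 : ℕ)`-casts of `bj` and `Xj` agree), so `br` is `1 / sin (m δ)` times the sum over `l < n-1` of the integrals over `[sx l, sx (l+1)]`
(`intervalIntegral.sum_integral_adjacent_intervals`): the sum over `l < h` is `∫_0^w` of the lower integrand (`sx 0 = 0`, `sx h = w`), over `m ≤ l < h` it is
`∫_{sx m}^w`, over `h ≤ l < n-1` it is `∫_w^0` of the upper integrand (`sx (n-1) = 0`). Note `m ≤ h`.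
-/

set_option autoImplicit false

open MeasureTheory Set Filter Topology

namespace Pool.Agent.Lib.MP_1dedaf_gt.DK

open Pool.Agent.Lib.MP_1dedaf_gt.LB

private theorem B6_rl (n : ℕ) [NeZero n] (hn : Odd n) (h3 : 3 ≤ n) {T k : ZMod n → ℝ} (hT : ∀ i, 0 < T i)
    (ho : Opt (dir n) T k) (s : ZMod n) (j : ℕ) (hj : j < (n - 1) / 2) (x : ℝ)
    (hx : x ∈ Icc (sx n k s j) (sx n k s (j + 1))) :
    sC n k (th (dir n) T) s * (sv n k (th (dir n) T) s).rl x = sC n k (th (dir n) T) s *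
      Real.exp ((sv n k (th (dir n) T) s).p * x + (sv n k (th (dir n) T) s).q * ln n k s (j + 1) x) := by
  unfold Dat.rl
  rw [sv_l_eq n hn h3 hT ho s j hj x hx]

private theorem B6_ru (n : ℕ) [NeZero n] (hn : Odd n) (h3 : 3 ≤ n) {T k : ZMod n → ℝ} (hT : ∀ i, 0 < T i)
    (ho : Opt (dir n) T k) (s : ZMod n) (j : ℕ) (hj : (n - 1) / 2 ≤ j) (hj2 : j < n - 1) (x : ℝ)
    (hx : x ∈ Icc (sx n k s (j + 1)) (sx n k s j)) :
    sC n k (th (dir n) T) s * (sv n k (th (dir n) T) s).ru x = sC n k (th (dir n) T) s *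
      Real.exp ((sv n k (th (dir n) T) s).p * x + (sv n k (th (dir n) T) s).q * ln n k s (j + 1) x) := by
  unfold Dat.ru
  rw [sv_u_eq n hn h3 hT ho s j hj hj2 x hx]

private theorem B6_lo (n : ℕ) [NeZero n] (hn : Odd n) (h3 : 3 ≤ n) {T k : ZMod n → ℝ} (hT : ∀ i, 0 < T i)
    (ho : Opt (dir n) T k) (s : ZMod n) (j : ℕ) (hj : j < (n - 1) / 2) (f : ℝ → ℝ)
    (hf : ∀ x, f x = sC n k (th (dir n) T) s *
      Real.exp ((sv n k (th (dir n) T) s).p * x + (sv n k (th (dir n) T) s).q * ln n k s (j + 1) x)) (x : ℝ)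
    (hx : x ∈ Icc (sx n k s j) (sx n k s (j + 1))) :
    sC n k (th (dir n) T) s * (sv n k (th (dir n) T) s).Xl x - sC n k (th (dir n) T) s *
      (sv n k (th (dir n) T) s).Xl (sx n k s j) = ∫ t in (sx n k s j)..x, f t := by
  have cl := (sv_l_cont n hn h3 k (th (dir n) T) s).1
  have h1 : ∫ t in (sx n k s j)..x, (sv n k (th (dir n) T) s).rl t =
      (sv n k (th (dir n) T) s).Xl x - (sv n k (th (dir n) T) s).Xl (sx n k s j) :=
    intervalIntegral.integral_eq_sub_of_hasDerivAt (fun t _ => Dat.Xl_deriv _ cl t)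
      ((Dat.rl_cont _ cl).intervalIntegrable _ _)
  have h2 : ∫ t in (sx n k s j)..x, f t =
      ∫ t in (sx n k s j)..x, sC n k (th (dir n) T) s * (sv n k (th (dir n) T) s).rl t := by
    apply intervalIntegral.integral_congr
    intro t ht
    rw [uIcc_of_le hx.1] at ht
    show f t = _
    rw [hf t]
    exact (B6_rl n hn h3 hT ho s j hj t ⟨ht.1, ht.2.trans hx.2⟩).symm
  rw [h2, intervalIntegral.integral_const_mul, h1]
  ring

private theorem B6_up (n : ℕ) [NeZero n] (hn : Odd n) (h3 : 3 ≤ n) {T k : ZMod n → ℝ} (hT : ∀ i, 0 < T i)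
    (ho : Opt (dir n) T k) (s : ZMod n) (hq : (sv n k (th (dir n) T) s).q ≠ 0)
    (j : ℕ) (hj : (n - 1) / 2 ≤ j) (hj2 : j < n - 1) (f : ℝ → ℝ)
    (hf : ∀ x, f x = sC n k (th (dir n) T) s *
      Real.exp ((sv n k (th (dir n) T) s).p * x + (sv n k (th (dir n) T) s).q * ln n k s (j + 1) x)) (x : ℝ)
    (hx : x ∈ Icc (sx n k s (j + 1)) (sx n k s j)) :
    sC n k (th (dir n) T) s * (sv n k (th (dir n) T) s).Xu x - sC n k (th (dir n) T) s *
      (sv n k (th (dir n) T) s).Xu (sx n k s j) = ∫ t in (sx n k s j)..x, f t := by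
  have cl := (sv_l_cont n hn h3 k (th (dir n) T) s).1
  have cu := (sv_u_cont n hn h3 k (th (dir n) T) s).1
  have h1 : ∫ t in (sx n k s j)..x, (sv n k (th (dir n) T) s).ru t =
      (sv n k (th (dir n) T) s).Xu x - (sv n k (th (dir n) T) s).Xu (sx n k s j) :=
    intervalIntegral.integral_eq_sub_of_hasDerivAt (fun t _ => Dat.Xu_deriv _ hq cl cu t)
      ((Dat.ru_cont _ cu).intervalIntegrable _ _)
  have h2 : ∫ t in (sx n k s j)..x, f t =
      ∫ t in (sx n k s j)..x, sC n k (th (dir n) T) s * (sv n k (th (dir n) T) s).ru t := by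
    apply intervalIntegral.integral_congr
    intro t ht
    rw [uIcc_of_ge hx.2] at ht
    show f t = _
    rw [hf t]
    exact (B6_ru n hn h3 hT ho s j hj hj2 t ⟨hx.1.trans ht.1, ht.2⟩).symm
  rw [h2, intervalIntegral.integral_const_mul, h1]
  ring

theorem Xl_at (n : ℕ) [NeZero n] (hn : Odd n) (h3 : 3 ≤ n) {T k : ZMod n → ℝ} (hT : ∀ i, 0 < T i)
    (ho : Opt (dir n) T k) (s : ZMod n) (j : ℕ) (hj : j ≤ (n - 1) / 2) :
    sC n k (th (dir n) T) s * (sv n k (th (dir n) T) s).Xl (sx n k s j) = Xj n T s j := by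
  induction j with
  | zero =>
    rw [sx_zero n hn h3, Dat.Xl_zero]
    simp [Xj]
  | succ j ih =>
    have hj' : j < (n - 1) / 2 := by omega
    have h1 := ih hj'.le
    have h2 := B6_lo n hn h3 hT ho s j hj' _ (fun x => rfl) (sx n k s (j + 1))
      ⟨(sx_lt_lo n hn h3 hT ho s j hj').le, le_rfl⟩
    rw [edge_mass n hn h3 hT ho s j (sin_lo n hn h3 j hj').ne' _ (fun x => rfl)] at h2
    linarith

theorem Xu_at (n : ℕ) [NeZero n] (hn : Odd n) (h3 : 3 ≤ n) {T k : ZMod n → ℝ} (hT : ∀ i, 0 < T i)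
    (ho : Opt (dir n) T k) (s : ZMod n) (hq : (sv n k (th (dir n) T) s).q ≠ 0) (j : ℕ) (hj : (n - 1) / 2 ≤ j) (hj2 : j ≤ n - 1) :
    sC n k (th (dir n) T) s * (sv n k (th (dir n) T) s).Xu (sx n k s j) = Xj n T s j := by
  induction j, hj using Nat.le_induction with
  | base =>
    have hw : sx n k s ((n - 1) / 2) = (sv n k (th (dir n) T) s).w := rfl
    have h1 := Xl_at n hn h3 hT ho s ((n - 1) / 2) le_rfl
    rw [hw] at h1 ⊢
    rw [Dat.Xu_w]
    exact h1
  | succ j hj ih =>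
    have hj' : j < n - 1 := by omega
    have h1 := ih hj'.le
    have h2 := B6_up n hn h3 hT ho s hq j hj hj' _ (fun x => rfl) (sx n k s (j + 1))
      ⟨le_rfl, (sx_lt_up n hn h3 hT ho s j hj hj').le⟩
    rw [edge_mass n hn h3 hT ho s j (sin_up n hn h3 j hj hj').ne _ (fun x => rfl)] at h2
    linarith

theorem path_lo (n : ℕ) [NeZero n] (hn : Odd n) (h3 : 3 ≤ n) {T k : ZMod n → ℝ} (hT : ∀ i, 0 < T i)
    (ho : Opt (dir n) T k) (s : ZMod n) (j : ℕ) (hj : j < (n - 1) / 2)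
    (G : ℝ → ℝ → ℝ) (hG : Continuous (fun z : ℝ × ℝ => G z.1 z.2)) (K : Dat) (hK : K = sv n k (th (dir n) T) s)
    (C : ℝ) (hC : C = sC n k (th (dir n) T) s) :
    T (s + ((j + 1 : ℕ) : ZMod n)) * ∫ σ in (0:ℝ)..1,
      G (seg (Xj n T s j) (Xj n T s (j + 1)) σ) (seg (rr n T k s j) (rr n T k s (j + 1)) σ) /
        seg (rr n T k s j) (rr n T k s (j + 1)) σ ^ 2 =
    1 / Real.sin ((j + 1 : ℕ) * dl n) * ∫ x in (sx n k s j)..(sx n k s (j + 1)),
      G (C * K.Xl x) (C * K.rl x) / (C * K.rl x) := by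
  subst hK hC
  rw [edge_int n hn h3 hT ho s j (sin_lo n hn h3 j hj).ne' G hG _ (fun x => rfl)]
  congr 1
  apply intervalIntegral.integral_congr
  intro x hx
  rw [uIcc_of_le (sx_lt_lo n hn h3 hT ho s j hj).le] at hx
  show _ = G _ _ / _
  have h1 := B6_lo n hn h3 hT ho s j hj _ (fun x => rfl) x hx
  have h2 := Xl_at n hn h3 hT ho s j hj.le
  have h3' := B6_rl n hn h3 hT ho s j hj x hx
  rw [h3', show sC n k (th (dir n) T) s * (sv n k (th (dir n) T) s).Xl x = Xj n T s j +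
    ∫ t in (sx n k s j)..x, sC n k (th (dir n) T) s *
      Real.exp ((sv n k (th (dir n) T) s).p * t + (sv n k (th (dir n) T) s).q * ln n k s (j + 1) t) by
    rw [← h1, ← h2]; ring]

theorem path_up (n : ℕ) [NeZero n] (hn : Odd n) (h3 : 3 ≤ n) {T k : ZMod n → ℝ} (hT : ∀ i, 0 < T i)
    (ho : Opt (dir n) T k) (s : ZMod n) (j : ℕ) (hj : (n - 1) / 2 ≤ j) (hj2 : j < n - 1)
    (G : ℝ → ℝ → ℝ) (hG : Continuous (fun z : ℝ × ℝ => G z.1 z.2)) (K : Dat) (hK : K = sv n k (th (dir n) T) s) (hq : K.q ≠ 0)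
    (C : ℝ) (hC : C = sC n k (th (dir n) T) s) :
    T (s + ((j + 1 : ℕ) : ZMod n)) * ∫ σ in (0:ℝ)..1,
      G (seg (Xj n T s j) (Xj n T s (j + 1)) σ) (seg (rr n T k s j) (rr n T k s (j + 1)) σ) /
        seg (rr n T k s j) (rr n T k s (j + 1)) σ ^ 2 =
    1 / Real.sin ((j + 1 : ℕ) * dl n) * ∫ x in (sx n k s j)..(sx n k s (j + 1)),
      G (C * K.Xu x) (C * K.ru x) / (C * K.ru x) := by
  subst hK hC
  rw [edge_int n hn h3 hT ho s j (sin_up n hn h3 j hj hj2).ne G hG _ (fun x => rfl)]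
  congr 1
  apply intervalIntegral.integral_congr
  intro x hx
  rw [uIcc_of_ge (sx_lt_up n hn h3 hT ho s j hj hj2).le] at hx
  show _ = G _ _ / _
  have h1 := B6_up n hn h3 hT ho s hq j hj hj2 _ (fun x => rfl) x hx
  have h2 := Xu_at n hn h3 hT ho s hq j hj hj2.le
  have h3' := B6_ru n hn h3 hT ho s j hj hj2 x hx
  rw [h3', show sC n k (th (dir n) T) s * (sv n k (th (dir n) T) s).Xu x = Xj n T s j +
    ∫ t in (sx n k s j)..x, sC n k (th (dir n) T) s *
      Real.exp ((sv n k (th (dir n) T) s).p * t + (sv n k (th (dir n) T) s).q * ln n k s (j + 1) t) by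
    rw [← h1, ← h2]; ring]

theorem br_eq (n : ℕ) [NeZero n] (hn : Odd n) (h3 : 3 ≤ n) {T k : ZMod n → ℝ} (hT : ∀ i, 0 < T i)
    (ho : Opt (dir n) T k) (s : ZMod n) (m : ℕ) (hm : 0 < m) (hm2 : 2 * m < n)
    (G H : ℝ → ℝ → ℝ) (hG : Continuous (fun z : ℝ × ℝ => G z.1 z.2)) (hH : Continuous (fun z : ℝ × ℝ => H z.1 z.2)) (κ : ℝ)
    (K : Dat) (hK : K = sv n k (th (dir n) T) s) (hq : K.q ≠ 0) (C : ℝ) (hC : C = sC n k (th (dir n) T) s) :
    br n m s T k (fun l σ =>
      G (seg (Xj n T s l) (Xj n T s (l + 1)) σ) (seg (rr n T k s l) (rr n T k s (l + 1)) σ) +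
      (if m ≤ l then κ * H (seg (Xj n T s l) (Xj n T s (l + 1)) σ) (seg (rr n T k s l) (rr n T k s (l + 1)) σ) else 0)) =
    1 / Real.sin (m * dl n) * (K.loop C G + κ * K.far C (sx n k s m) H) := by
  have hn2 : n - 1 = (n - 1) / 2 + (n - 1) / 2 := by
    obtain ⟨r, hr⟩ := hn
    omega
  have hmh : m ≤ (n - 1) / 2 := by omega
  have hCpos : 0 < C := by rw [hC]; exact sC_pos n hn h3 hT ho s
  have cl : Continuous K.l := by rw [hK]; exact (sv_l_cont n hn h3 k (th (dir n) T) s).1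
  have cu : Continuous K.u := by rw [hK]; exact (sv_u_cont n hn h3 k (th (dir n) T) s).1
  have hw : sx n k s ((n - 1) / 2) = K.w := by rw [hK]; rfl
  have cL : ∀ F : ℝ → ℝ → ℝ, Continuous (fun z : ℝ × ℝ => F z.1 z.2) →
      Continuous (fun x => F (C * K.Xl x) (C * K.rl x) / (C * K.rl x)) := by
    intro F hF
    have c1 : Continuous (fun x => C * K.Xl x) := continuous_const.mul (Dat.Xl_cont K cl)
    have c2 : Continuous (fun x => C * K.rl x) := continuous_const.mul (Dat.rl_cont K cl)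
    have c3 : Continuous (fun x => F (C * K.Xl x) (C * K.rl x)) := hF.comp (c1.prodMk c2)
    exact c3.div c2 (fun x => (mul_pos hCpos (Dat.rl_pos K x)).ne')
  have cU : ∀ F : ℝ → ℝ → ℝ, Continuous (fun z : ℝ × ℝ => F z.1 z.2) →
      Continuous (fun x => F (C * K.Xu x) (C * K.ru x) / (C * K.ru x)) := by
    intro F hF
    have c1 : Continuous (fun x => C * K.Xu x) := continuous_const.mul (Dat.Xu_cont K cl cu)
    have c2 : Continuous (fun x => C * K.ru x) := continuous_const.mul (Dat.ru_cont K cu)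
    have c3 : Continuous (fun x => F (C * K.Xu x) (C * K.ru x)) := hF.comp (c1.prodMk c2)
    exact c3.div c2 (fun x => (mul_pos hCpos (Dat.ru_pos K x)).ne')
  have hsplit : ∀ (a b : ℝ) (l : ℕ) (X R : ℝ → ℝ),
      Continuous (fun x => G (X x) (R x) / R x) → Continuous (fun x => H (X x) (R x) / R x) →
      ∫ x in a..b, (G (X x) (R x) + (if m ≤ l then κ * H (X x) (R x) else 0)) / R x =
      (∫ x in a..b, G (X x) (R x) / R x) + (if m ≤ l then κ * ∫ x in a..b, H (X x) (R x) / R x else 0) := by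
    intro a b l X R c1 c2
    by_cases hl : m ≤ l
    · simp only [if_pos hl]
      rw [← intervalIntegral.integral_const_mul, ← intervalIntegral.integral_add (c1.intervalIntegrable _ _)
        ((c2.const_mul κ).intervalIntegrable _ _)]
      apply intervalIntegral.integral_congr
      intro x _
      show (_ + _) / _ = _ / _ + κ * (_ / _)
      ring
    · simp only [if_neg hl, add_zero]
  have hcG : ∀ l : ℕ, Continuous (fun z : ℝ × ℝ => (fun a b => G a b + (if m ≤ l then κ * H a b else 0)) z.1 z.2) := by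
    intro l
    by_cases hl : m ≤ l
    · simp only [if_pos hl]
      exact hG.add (hH.const_mul κ)
    · simp only [if_neg hl, add_zero]
      exact hG
  have hlo : ∀ l ∈ Finset.Ico 0 ((n - 1) / 2), bj n m (l + 1) * T (s + ((l + 1 : ℕ) : ZMod n)) *
      (∫ σ in (0:ℝ)..1, (G (seg (Xj n T s l) (Xj n T s (l + 1)) σ) (seg (rr n T k s l) (rr n T k s (l + 1)) σ) +
      (if m ≤ l then κ * H (seg (Xj n T s l) (Xj n T s (l + 1)) σ) (seg (rr n T k s l) (rr n T k s (l + 1)) σ) else 0)) /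
        seg (rr n T k s l) (rr n T k s (l + 1)) σ ^ 2) =
      1 / Real.sin (m * dl n) * ((∫ x in (sx n k s l)..(sx n k s (l + 1)), G (C * K.Xl x) (C * K.rl x) / (C * K.rl x)) +
        (if m ≤ l then κ * ∫ x in (sx n k s l)..(sx n k s (l + 1)), H (C * K.Xl x) (C * K.rl x) / (C * K.rl x) else 0)) := by
    intro l hl
    have hl' : l < (n - 1) / 2 := (Finset.mem_Ico.mp hl).2
    have h1 := path_lo n hn h3 hT ho s l hl' (fun a b => G a b + (if m ≤ l then κ * H a b else 0)) (hcG l) K hK C hC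
    beta_reduce at h1
    rw [hsplit _ _ l (fun x => C * K.Xl x) (fun x => C * K.rl x) (cL G hG) (cL H hH)] at h1
    have hne := (sin_lo n hn h3 l hl').ne'
    rw [mul_assoc, h1]
    unfold bj
    rw [← mul_assoc]
    congr 1
    field_simp
  have hup : ∀ l ∈ Finset.Ico ((n - 1) / 2) (n - 1), bj n m (l + 1) * T (s + ((l + 1 : ℕ) : ZMod n)) *
      (∫ σ in (0:ℝ)..1, (G (seg (Xj n T s l) (Xj n T s (l + 1)) σ) (seg (rr n T k s l) (rr n T k s (l + 1)) σ) +
      (if m ≤ l then κ * H (seg (Xj n T s l) (Xj n T s (l + 1)) σ) (seg (rr n T k s l) (rr n T k s (l + 1)) σ) else 0)) /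
        seg (rr n T k s l) (rr n T k s (l + 1)) σ ^ 2) =
      1 / Real.sin (m * dl n) * ((∫ x in (sx n k s l)..(sx n k s (l + 1)), G (C * K.Xu x) (C * K.ru x) / (C * K.ru x)) +
        κ * ∫ x in (sx n k s l)..(sx n k s (l + 1)), H (C * K.Xu x) (C * K.ru x) / (C * K.ru x)) := by
    intro l hl
    have hl1 : (n - 1) / 2 ≤ l := (Finset.mem_Ico.mp hl).1
    have hl' : l < n - 1 := (Finset.mem_Ico.mp hl).2
    have hq' : (sv n k (th (dir n) T) s).q ≠ 0 := by rw [← hK]; exact hq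
    have h1 := path_up n hn h3 hT ho s l hl1 hl' (fun a b => G a b + (if m ≤ l then κ * H a b else 0)) (hcG l) K hK hq C hC
    beta_reduce at h1
    rw [hsplit _ _ l (fun x => C * K.Xu x) (fun x => C * K.ru x) (cU G hG) (cU H hH)] at h1
    have hne := (sin_up n hn h3 l hl1 hl').ne
    rw [mul_assoc, h1, if_pos (hmh.trans hl1)]
    unfold bj
    rw [← mul_assoc]
    congr 1
    field_simp
  have e1 : ∑ l ∈ Finset.Ico 0 ((n - 1) / 2), (∫ x in (sx n k s l)..(sx n k s (l + 1)), G (C * K.Xl x) (C * K.rl x) / (C * K.rl x)) =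
      ∫ x in (0:ℝ)..K.w, G (C * K.Xl x) (C * K.rl x) / (C * K.rl x) := by
    rw [intervalIntegral.sum_integral_adjacent_intervals_Ico (a := fun l => sx n k s l) (Nat.zero_le _)
      (fun l _ => (cL G hG).intervalIntegrable _ _), hw, sx_zero n hn h3]
  have e2 : ∑ l ∈ Finset.Ico 0 ((n - 1) / 2), (if m ≤ l then
      κ * ∫ x in (sx n k s l)..(sx n k s (l + 1)), H (C * K.Xl x) (C * K.rl x) / (C * K.rl x) else 0) =
      κ * ∫ x in (sx n k s m)..K.w, H (C * K.Xl x) (C * K.rl x) / (C * K.rl x) := by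
    rw [← Finset.sum_Ico_consecutive _ (Nat.zero_le m) hmh]
    have z1 : ∑ l ∈ Finset.Ico 0 m, (if m ≤ l then
      κ * ∫ x in (sx n k s l)..(sx n k s (l + 1)), H (C * K.Xl x) (C * K.rl x) / (C * K.rl x) else 0) = 0 := by
      apply Finset.sum_eq_zero
      intro l hl
      rw [if_neg (by have := (Finset.mem_Ico.mp hl).2; omega)]
    have z2 : ∑ l ∈ Finset.Ico m ((n - 1) / 2), (if m ≤ l then
      κ * ∫ x in (sx n k s l)..(sx n k s (l + 1)), H (C * K.Xl x) (C * K.rl x) / (C * K.rl x) else 0) =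
      ∑ l ∈ Finset.Ico m ((n - 1) / 2),
      κ * ∫ x in (sx n k s l)..(sx n k s (l + 1)), H (C * K.Xl x) (C * K.rl x) / (C * K.rl x) := by
      apply Finset.sum_congr rfl
      intro l hl
      rw [if_pos (Finset.mem_Ico.mp hl).1]
    rw [z1, z2, zero_add, ← Finset.mul_sum,
      intervalIntegral.sum_integral_adjacent_intervals_Ico (a := fun l => sx n k s l) hmh
      (fun l _ => (cL H hH).intervalIntegrable _ _), hw]
  have e3 : ∀ F : ℝ → ℝ → ℝ, Continuous (fun z : ℝ × ℝ => F z.1 z.2) →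
      ∑ l ∈ Finset.Ico ((n - 1) / 2) (n - 1), (∫ x in (sx n k s l)..(sx n k s (l + 1)), F (C * K.Xu x) (C * K.ru x) / (C * K.ru x)) =
      - ∫ x in (0:ℝ)..K.w, F (C * K.Xu x) (C * K.ru x) / (C * K.ru x) := by
    intro F hF
    rw [intervalIntegral.sum_integral_adjacent_intervals_Ico (a := fun l => sx n k s l) (by omega)
      (fun l _ => (cU F hF).intervalIntegrable _ _), hw, sx_last n hn h3, intervalIntegral.integral_symm]
  unfold br Dat.loop Dat.far
  rw [Finset.range_eq_Ico, ← Finset.sum_Ico_consecutive _ (Nat.zero_le ((n - 1) / 2)) (by omega : (n - 1) / 2 ≤ n - 1),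
    Finset.sum_congr rfl hlo, Finset.sum_congr rfl hup, ← Finset.mul_sum, ← Finset.mul_sum, Finset.sum_add_distrib,
    Finset.sum_add_distrib, e1, e2, ← Finset.mul_sum, e3 G hG, e3 H hH,
    intervalIntegral.integral_sub ((cL G hG).intervalIntegrable _ _) ((cU G hG).intervalIntegrable _ _)]
  ring

end Pool.Agent.Lib.MP_1dedaf_gt.DK
end
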