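import Pool.Agent.Lib.MP_1dedaf_gt.Mg.G001
import Pool.Agent.Lib.MP_1dedaf_gt.Mg.G009
import Pool.Agent.Lib.MP_1dedaf_gt.LB.A5
import Pool.Agent.Lib.MP_1dedaf_gt.Mg.G007
import Pool.Agent.Lib.MP_1dedaf_gt.Mg.G004
import Pool.Agent.Lib.MP_1dedaf_gt.Mg.G012
import Pool.Agent.Lib.MP_1dedaf_gt.Mg.G005

section

/-!
# TASK LB C3a: vector identities 1 and 3

`fac i = Icc (lo i) (hi i)` (`len_of_pos`), so integrals over `fac i` are interval integrals.
(`id1`) `sg_sum` with tilt `0`: `∑ sg k 0 i • u i = 0` and `sg k 0 i = hi i - lo i = ∫ (1/d) d = (sg i/Z) ∫_0^1 1/ρ` (`mass_param`, `f x = 1/x`).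
(`id3`) `sg_sum` with tilt `-θ`: `∑ sg k (-θ) i • u i = - Z(k,-θ) • θ`; `exp(-<θ,x>) = (1/Z) (1/d²) d` (`d = dens`), so
`sg k (-θ) i = (1/Z) (sg i/Z) ∫_0^1 1/ρ²`; multiply by `Z`; `N0 = Z(k,θ) Z(k,-θ)`.
-/

set_option autoImplicit false

open MeasureTheory Set Filter Topology

namespace Pool.Agent.Lib.MP_1dedaf_gt.LB

private theorem C3a_sg (n : ℕ) [NeZero n] (hn : Odd n) (h3 : 3 ≤ n) {k : ZMod n → ℝ} {θ : E2}
    (hp : ∀ i, 0 < sg (dir n) k θ i) (θ' : E2) (i : ZMod n) :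
    sg (dir n) k θ' i = ∫ τ in (lo n k i)..(hi n k i),
      Real.exp (inner ℝ θ' (k i • dir n i + τ • rot (dir n i))) := by
  obtain ⟨h1, h2⟩ := len_of_pos n hn h3 hp i
  rw [sg, h2, integral_Icc_eq_integral_Ioc, intervalIntegral.integral_of_le h1.le]

private theorem C3a_f (m : ℕ) : ContinuousOn (fun x : ℝ => 1 / x ^ m) (Ioi 0) := by
  refine continuousOn_const.div (continuous_pow m).continuousOn ?_
  intro x hx
  exact pow_ne_zero _ (ne_of_gt hx)

theorem id1 (n : ℕ) [NeZero n] (hn : Odd n) (h3 : 3 ≤ n) {k : ZMod n → ℝ} {θ : E2} (hk : Fat (dir n) k)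
    (hp : ∀ i, 0 < sg (dir n) k θ i) :
    ∑ i, (sg (dir n) k θ i / Z (dir n) k θ *
      ∫ σ in (0:ℝ)..1, 1 / (rh n k θ (i - 1) + σ * (rh n k θ i - rh n k θ (i - 1)))) • dir n i = 0 := by
  have hs := sg_sum (dir_adm n hn h3) hk (0 : E2)
  rw [smul_zero] at hs
  rw [← hs]
  refine Finset.sum_congr rfl fun i _ => ?_
  congr 1
  have hm := mass_param n hn h3 hk hp i (C3a_f 1)
  simp only [pow_one] at hm
  rw [← hm, C3a_sg n hn h3 hp 0 i]
  refine intervalIntegral.integral_congr fun τ _ => ?_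
  have h0 := dens_pos n hn h3 (θ := θ) hk i τ
  simp only [inner_zero_left, Real.exp_zero]
  field_simp

theorem id3 (n : ℕ) [NeZero n] (hn : Odd n) (h3 : 3 ≤ n) {k : ZMod n → ℝ} {θ : E2} (hk : Fat (dir n) k)
    (hp : ∀ i, 0 < sg (dir n) k θ i) :
    ∃ N0 : ℝ, 0 < N0 ∧ ∑ i, (sg (dir n) k θ i / Z (dir n) k θ *
      ∫ σ in (0:ℝ)..1, 1 / (rh n k θ (i - 1) + σ * (rh n k θ i - rh n k θ (i - 1))) ^ 2) • dir n i = - (N0 • θ) := by
  have hA := dir_adm n hn h3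
  have hZ := Z_pos hA hk θ
  have hZ' := Z_pos hA hk (-θ)
  refine ⟨Z (dir n) k θ * Z (dir n) k (-θ), mul_pos hZ hZ', ?_⟩
  have hs := sg_sum hA hk (-θ)
  have e : -((Z (dir n) k θ * Z (dir n) k (-θ)) • θ) = Z (dir n) k θ • (Z (dir n) k (-θ) • (-θ)) := by
    rw [smul_neg, smul_neg, smul_smul]
  rw [e, ← hs, Finset.smul_sum]
  refine Finset.sum_congr rfl fun i _ => ?_
  rw [smul_smul]
  congr 1
  rw [← mass_param n hn h3 hk hp i (C3a_f 2), C3a_sg n hn h3 hp (-θ) i, ← intervalIntegral.integral_const_mul]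
  refine intervalIntegral.integral_congr fun τ _ => ?_
  have h0 := dens_pos n hn h3 (θ := θ) hk i τ
  have h1 : 1 / dens n k θ i τ ^ 2 * dens n k θ i τ = 1 / dens n k θ i τ := by
    field_simp
  rw [h1, inner_neg_left, Real.exp_neg, dens, one_div, inv_div]
  rfl

end Pool.Agent.Lib.MP_1dedaf_gt.LB
end

section

/-!
# TASK LB C4b: a pair of edges: the identities for 1/ρ and 1/ρ²

(`pair_one`) the `u t`-component (`dir_pair`, `pair_indep`) of `id1`, with `sg/Z = T` (`ho.mass`, `Z > 0`; `sg = T Z > 0`); the sum over `ZMod n` is `sum_shift`; the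
term `j = 0` has `b 0 = 0`, and `j = l + 1`. Note `rh (i-1)`, `rh i` for `i = s + (l+1)` are `rr l`, `rr (l+1)`.
(`pair_sq`) the `u t`-component of `id3` (`θ = α u s + β u t`, `th_pair`).
-/

set_option autoImplicit false

open MeasureTheory Set Filter Topology

namespace Pool.Agent.Lib.MP_1dedaf_gt.LB

/-- The `u t`-component of a vector identity. -/
private theorem C4b_comp (n : ℕ) [NeZero n] {m : ℕ} (hm : 0 < m) (hm2 : 2 * m < n) (s : ZMod n)
    (W : ZMod n → ℝ) (a b : ℝ)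
    (h : ∑ i, W i • dir n i = a • dir n s + b • dir n (s + (m : ℕ))) :
    ∑ l ∈ Finset.range (n - 1), bj n m (l + 1) * W (s + ((l + 1 : ℕ) : ZMod n)) = b := by
  have hn : n - 1 + 1 = n := Nat.succ_pred_eq_of_pos (Nat.pos_of_ne_zero (NeZero.ne n))
  have h1 : ∑ i, W i • dir n i =
      (∑ j ∈ Finset.range n, W (s + (j : ℕ)) * aj n m j) • dir n s +
        (∑ j ∈ Finset.range n, W (s + (j : ℕ)) * bj n m j) • dir n (s + (m : ℕ)) := by
    rw [sum_shift n s, Finset.sum_smul, Finset.sum_smul, ← Finset.sum_add_distrib]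
    refine Finset.sum_congr rfl fun j _ => ?_
    rw [dir_pair n hm hm2 s j, smul_add, smul_smul, smul_smul]
  rw [h1] at h
  have h2 := (pair_indep n hm hm2 s h).2
  have hr : Finset.range n = Finset.range (n - 1 + 1) := by rw [hn]
  rw [hr, Finset.sum_range_succ'] at h2
  have h3 := (aj_zero n hm hm2).2.2.1
  rw [h3, mul_zero, add_zero] at h2
  rw [← h2]
  exact Finset.sum_congr rfl fun l _ => mul_comm _ _

private theorem C4b_seg (n : ℕ) [NeZero n] (s : ZMod n) (T k : ZMod n → ℝ) (l : ℕ) (σ : ℝ) :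
    rh n k (th (dir n) T) (s + ((l + 1 : ℕ) : ZMod n) - 1) +
      σ * (rh n k (th (dir n) T) (s + ((l + 1 : ℕ) : ZMod n)) -
        rh n k (th (dir n) T) (s + ((l + 1 : ℕ) : ZMod n) - 1)) =
      seg (rr n T k s l) (rr n T k s (l + 1)) σ := by
  have h : s + ((l + 1 : ℕ) : ZMod n) - 1 = s + (l : ℕ) := by
    push_cast
    ring
  rw [h]
  rfl

theorem pair_one (n : ℕ) [NeZero n] (hn : Odd n) (h3 : 3 ≤ n) {m : ℕ} (hm : 0 < m) (hm2 : 2 * m < n) (s : ZMod n) {T k : ZMod n → ℝ}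
    (hT : ∀ i, 0 < T i) (ho : Opt (dir n) T k) :
    ∑ l ∈ Finset.range (n - 1), bj n m (l + 1) * T (s + ((l + 1 : ℕ) : ZMod n)) *
      ∫ σ in (0:ℝ)..1, 1 / seg (rr n T k s l) (rr n T k s (l + 1)) σ = 0 := by
  have hZ : 0 < Z (dir n) k (th (dir n) T) := Z_pos (dir_adm n hn h3) ho.fat _
  have hsg : ∀ i, sg (dir n) k (th (dir n) T) i / Z (dir n) k (th (dir n) T) = T i := fun i => by
    rw [ho.mass i, mul_div_assoc, div_self hZ.ne', mul_one]
  have hp : ∀ i, 0 < sg (dir n) k (th (dir n) T) i := fun i => by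
    rw [ho.mass i]; exact mul_pos (hT i) hZ
  have h := id1 n hn h3 ho.fat hp
  simp only [hsg] at h
  have h' := C4b_comp n hm hm2 s (fun i => T i *
      ∫ σ in (0:ℝ)..1, 1 / (rh n k (th (dir n) T) (i - 1) +
        σ * (rh n k (th (dir n) T) i - rh n k (th (dir n) T) (i - 1)))) 0 0
    (by rw [zero_smul, zero_smul, add_zero]; exact h)
  simp only [C4b_seg] at h'
  refine Eq.trans ?_ h'
  exact Finset.sum_congr rfl fun l _ => mul_assoc _ _ _

theorem pair_sq (n : ℕ) [NeZero n] (hn : Odd n) (h3 : 3 ≤ n) {m : ℕ} (hm : 0 < m) (hm2 : 2 * m < n) (s : ZMod n) {T k : ZMod n → ℝ}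
    (hT : ∀ i, 0 < T i) (ho : Opt (dir n) T k) :
    ∃ N0 : ℝ, 0 < N0 ∧ ∑ l ∈ Finset.range (n - 1), bj n m (l + 1) * T (s + ((l + 1 : ℕ) : ZMod n)) *
      ∫ σ in (0:ℝ)..1, 1 / seg (rr n T k s l) (rr n T k s (l + 1)) σ ^ 2 = - (N0 * be n m s T) := by
  have hZ : 0 < Z (dir n) k (th (dir n) T) := Z_pos (dir_adm n hn h3) ho.fat _
  have hsg : ∀ i, sg (dir n) k (th (dir n) T) i / Z (dir n) k (th (dir n) T) = T i := fun i => by
    rw [ho.mass i, mul_div_assoc, div_self hZ.ne', mul_one]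
  have hp : ∀ i, 0 < sg (dir n) k (th (dir n) T) i := fun i => by
    rw [ho.mass i]; exact mul_pos (hT i) hZ
  obtain ⟨N0, hN0, h⟩ := id3 n hn h3 ho.fat hp
  refine ⟨N0, hN0, ?_⟩
  simp only [hsg] at h
  have h' := C4b_comp n hm hm2 s (fun i => T i *
      ∫ σ in (0:ℝ)..1, 1 / (rh n k (th (dir n) T) (i - 1) +
        σ * (rh n k (th (dir n) T) i - rh n k (th (dir n) T) (i - 1))) ^ 2)
    (-(N0 * al n m s T)) (-(N0 * be n m s T))
    (by
      rw [h, th_pair n hn h3 hm hm2 s T, smul_add, smul_smul, smul_smul, neg_add, neg_smul, neg_smul])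
  simp only [C4b_seg] at h'
  refine Eq.trans ?_ h'
  exact Finset.sum_congr rfl fun l _ => mul_assoc _ _ _

end Pool.Agent.Lib.MP_1dedaf_gt.LB
end
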