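import Pool.Agent.Lib.MP_1dedaf_gt.Mg.G001
import Pool.Agent.Lib.MP_1dedaf_gt.Mg.G009
import Pool.Agent.Lib.MP_1dedaf_gt.Mg.G007
import Pool.Agent.Lib.MP_1dedaf_gt.Mg.G004
import Pool.Agent.Lib.MP_1dedaf_gt.Mg.G012
import Pool.Agent.Lib.MP_1dedaf_gt.Mg.G014
import Pool.Agent.Lib.MP_1dedaf_gt.Mg.G005
import Pool.Agent.Lib.MP_1dedaf_gt.Mg.G017

section

/-!
# TASK LB C4c: a pair of edges: the support number

`u (s+j) = a j u s + b j u t`. `id2` with `ν = u s`: its `u s`-component (`dir_pair`, `pair_indep`, `sum_shift`) is `∑_{j=0}^{n-1} a j ∫_{edge j} <u s, x> d = 1`.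
Put `p = k s - <u s, x>`; since `∑ a j ∫_{edge j} d = ∑ a j T j = α` (`dens_mass`): `α k s = 1 + ∑_{j=1}^{n-1} a j ∫_{edge j} p d` (`p = 0` on the edge `s`).
On the edge `s + j` `p τ = p_{j-1} + c (τ - lo)`, `c = - <u s, rot (u (s+j))> = sin (jδ) = S b j`, where `p_j = k s - <u s, ver (s+j)>`. `edge_parts` with
`a = a j`, `A0 = A_{j-1}`: `a j ∫ p d = p_j A_j - p_{j-1} A_{j-1} - S b j T j ∫_0^1 (A_{j-1} + σ(A_j - A_{j-1})) / (ρ_{j-1} + σ (ρ_j - ρ_{j-1})) dσ`; the sum of the first
two terms over `j = 1..n-1` telescopes to `p_{n-1} A_{n-1} - p_0 A_0 = 0` (`ver (s-1)` and `ver s` are on the line `s`).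
-/

set_option autoImplicit false

open MeasureTheory Set Filter Topology

namespace Pool.Agent.Lib.MP_1dedaf_gt.LB

/-- Continuity of the density along an edge. -/
private lemma C4c_dens_cont (n : ℕ) (k : ZMod n → ℝ) (θ : E2) (i : ZMod n) : Continuous (fun τ : ℝ => dens n k θ i τ) := by
  unfold dens
  fun_prop

/-- The contribution of one edge. -/
private lemma C4c_edge (n : ℕ) [NeZero n] (hn : Odd n) (h3 : 3 ≤ n) {m : ℕ} (hm : 0 < m) (hm2 : 2 * m < n) (s : ZMod n) {T k : ZMod n → ℝ}
    (hk : Fat (dir n) k) (hp : ∀ i, 0 < sg (dir n) k (th (dir n) T) i) (hq : ∀ i, sg (dir n) k (th (dir n) T) i / Z (dir n) k (th (dir n) T) = T i) (l : ℕ) :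
    aj n m (l + 1) * (k s * T (s + ((l + 1 : ℕ) : ZMod n)) -
      ∫ τ in (lo n k (s + ((l + 1 : ℕ) : ZMod n)))..(hi n k (s + ((l + 1 : ℕ) : ZMod n))),
        inner ℝ (dir n s) (k (s + ((l + 1 : ℕ) : ZMod n)) • dir n (s + ((l + 1 : ℕ) : ZMod n)) +
          τ • rot (dir n (s + ((l + 1 : ℕ) : ZMod n)))) * dens n k (th (dir n) T) (s + ((l + 1 : ℕ) : ZMod n)) τ) =
    (k s - inner ℝ (dir n s) (ver n k (s + ((l + 1 : ℕ) : ZMod n)))) * Aj n m s T (l + 1) -
      (k s - inner ℝ (dir n s) (ver n k (s + ((l : ℕ) : ZMod n)))) * Aj n m s T l -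
      Real.sin (m * dl n) * (bj n m (l + 1) * T (s + ((l + 1 : ℕ) : ZMod n)) *
        ∫ σ in (0:ℝ)..1, seg (Aj n m s T l) (Aj n m s T (l + 1)) σ / seg (rr n T k s l) (rr n T k s (l + 1)) σ) := by
  have hS : Real.sin (m * dl n) ≠ 0 := (sin_pos n hm hm2).ne'
  have hi1 : s + ((l + 1 : ℕ) : ZMod n) - 1 = s + ((l : ℕ) : ZMod n) := by push_cast; ring
  have hc : inner ℝ (dir n s) (rot (dir n (s + ((l + 1 : ℕ) : ZMod n)))) = - (Real.sin (m * dl n) * bj n m (l + 1)) := by
    rw [(dir_inner n s (l + 1)).2.2]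
    unfold bj
    rw [mul_div_cancel₀ _ hS]
  have hA : Aj n m s T (l + 1) = Aj n m s T l + aj n m (l + 1) * T (s + ((l + 1 : ℕ) : ZMod n)) := by
    unfold Aj
    rw [Finset.sum_range_succ]
  have hver := ver_eq n hn h3 k (s + ((l + 1 : ℕ) : ZMod n))
  rw [hi1] at hver
  have hrr0 : rr n T k s l = rh n k (th (dir n) T) (s + ((l + 1 : ℕ) : ZMod n) - 1) := by
    rw [hi1]; rfl
  have hrr1 : rr n T k s (l + 1) = rh n k (th (dir n) T) (s + ((l + 1 : ℕ) : ZMod n)) := rfl
  have hE := edge_parts n hn h3 hk hp (s + ((l + 1 : ℕ) : ZMod n)) (aj n m (l + 1)) (Aj n m s T l)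
    (Real.sin (m * dl n) * bj n m (l + 1)) (k s - inner ℝ (dir n s) (ver n k (s + ((l : ℕ) : ZMod n))))
    (T (s + ((l + 1 : ℕ) : ZMod n))) (hq _).symm
  have hmass := dens_mass n hn h3 hp (s + ((l + 1 : ℕ) : ZMod n))
  rw [hq] at hmass
  have hdc := C4c_dens_cont n k (th (dir n) T) (s + ((l + 1 : ℕ) : ZMod n))
  -- the linear function
  have hlin : ∀ τ : ℝ, k s - inner ℝ (dir n s) (ver n k (s + ((l : ℕ) : ZMod n))) +
      Real.sin (m * dl n) * bj n m (l + 1) * (τ - lo n k (s + ((l + 1 : ℕ) : ZMod n))) =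
      k s - inner ℝ (dir n s) (k (s + ((l + 1 : ℕ) : ZMod n)) • dir n (s + ((l + 1 : ℕ) : ZMod n)) +
          τ • rot (dir n (s + ((l + 1 : ℕ) : ZMod n)))) := by
    intro τ
    rw [hver, inner_add_right, inner_add_right, inner_smul_right, inner_smul_right, inner_smul_right, hc]
    ring
  have hI : ∫ τ in (lo n k (s + ((l + 1 : ℕ) : ZMod n)))..(hi n k (s + ((l + 1 : ℕ) : ZMod n))),
      (k s - inner ℝ (dir n s) (ver n k (s + ((l : ℕ) : ZMod n))) +
        Real.sin (m * dl n) * bj n m (l + 1) * (τ - lo n k (s + ((l + 1 : ℕ) : ZMod n)))) *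
        dens n k (th (dir n) T) (s + ((l + 1 : ℕ) : ZMod n)) τ =
      k s * T (s + ((l + 1 : ℕ) : ZMod n)) -
      ∫ τ in (lo n k (s + ((l + 1 : ℕ) : ZMod n)))..(hi n k (s + ((l + 1 : ℕ) : ZMod n))),
        inner ℝ (dir n s) (k (s + ((l + 1 : ℕ) : ZMod n)) • dir n (s + ((l + 1 : ℕ) : ZMod n)) +
          τ • rot (dir n (s + ((l + 1 : ℕ) : ZMod n)))) * dens n k (th (dir n) T) (s + ((l + 1 : ℕ) : ZMod n)) τ := by
    rw [← hmass, ← intervalIntegral.integral_const_mul, ← intervalIntegral.integral_sub]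
    · apply intervalIntegral.integral_congr
      intro τ _
      simp only
      rw [hlin τ]
      ring
    · exact (continuous_const.mul hdc).intervalIntegrable _ _
    · refine Continuous.intervalIntegrable ?_ _ _
      refine Continuous.mul ?_ hdc
      fun_prop
  have hend : k s - inner ℝ (dir n s) (ver n k (s + ((l : ℕ) : ZMod n))) +
      Real.sin (m * dl n) * bj n m (l + 1) * (hi n k (s + ((l + 1 : ℕ) : ZMod n)) - lo n k (s + ((l + 1 : ℕ) : ZMod n))) =
      k s - inner ℝ (dir n s) (ver n k (s + ((l + 1 : ℕ) : ZMod n))) := by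
    rw [hlin]
    rfl
  rw [hI, hend] at hE
  rw [hE, hA, hrr0, hrr1]
  have hseg : ∀ σ : ℝ, seg (Aj n m s T l) (Aj n m s T l + aj n m (l + 1) * T (s + ((l + 1 : ℕ) : ZMod n))) σ /
      seg (rh n k (th (dir n) T) (s + ((l + 1 : ℕ) : ZMod n) - 1)) (rh n k (th (dir n) T) (s + ((l + 1 : ℕ) : ZMod n))) σ =
      (Aj n m s T l + σ * (aj n m (l + 1) * T (s + ((l + 1 : ℕ) : ZMod n)))) /
        (rh n k (th (dir n) T) (s + ((l + 1 : ℕ) : ZMod n) - 1) + σ * (rh n k (th (dir n) T) (s + ((l + 1 : ℕ) : ZMod n)) -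
          rh n k (th (dir n) T) (s + ((l + 1 : ℕ) : ZMod n) - 1))) := by
    intro σ
    unfold seg
    rw [add_sub_cancel_left]
  simp only [hseg]
  ring

theorem pair_k (n : ℕ) [NeZero n] (hn : Odd n) (h3 : 3 ≤ n) {m : ℕ} (hm : 0 < m) (hm2 : 2 * m < n) (s : ZMod n) {T k : ZMod n → ℝ}
    (hT : ∀ i, 0 < T i) (ho : Opt (dir n) T k) :
    al n m s T * k s = 1 - Real.sin (m * dl n) *
      ∑ l ∈ Finset.range (n - 1), bj n m (l + 1) * T (s + ((l + 1 : ℕ) : ZMod n)) *
        ∫ σ in (0:ℝ)..1, seg (Aj n m s T l) (Aj n m s T (l + 1)) σ / seg (rr n T k s l) (rr n T k s (l + 1)) σ := by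
  have hZ : 0 < Z (dir n) k (th (dir n) T) := Z_pos (dir_adm n hn h3) ho.fat _
  have hp : ∀ i, 0 < sg (dir n) k (th (dir n) T) i := by
    intro i
    rw [ho.mass i]
    exact mul_pos (hT i) hZ
  have hq : ∀ i, sg (dir n) k (th (dir n) T) i / Z (dir n) k (th (dir n) T) = T i := by
    intro i
    rw [ho.mass i]
    field_simp
  obtain ⟨I, hI⟩ : ∃ I : ZMod n → ℝ, ∀ i, I i = ∫ τ in (lo n k i)..(hi n k i),
      inner ℝ (dir n s) (k i • dir n i + τ • rot (dir n i)) * dens n k (th (dir n) T) i τ := ⟨_, fun _ => rfl⟩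
  -- the `u s`-component of `id2`
  have h1 : ∑ j ∈ Finset.range n, aj n m j * I (s + ((j : ℕ) : ZMod n)) = 1 := by
    have h := id2 n hn h3 ho.fat hp ho.cent (dir n s)
    simp only [← hI] at h
    rw [sum_shift n s (fun i => I i • dir n i)] at h
    have h' : (∑ j ∈ Finset.range n, aj n m j * I (s + ((j : ℕ) : ZMod n))) • dir n s +
        (∑ j ∈ Finset.range n, bj n m j * I (s + ((j : ℕ) : ZMod n))) • dir n (s + (m : ℕ)) =
        (1 : ℝ) • dir n s + (0 : ℝ) • dir n (s + (m : ℕ)) := by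
      rw [one_smul, zero_smul, add_zero, Finset.sum_smul, Finset.sum_smul, ← Finset.sum_add_distrib]
      refine Eq.trans ?_ h
      apply Finset.sum_congr rfl
      intro j _
      conv_rhs => rw [dir_pair n hm hm2 s j]
      rw [smul_add, smul_smul, smul_smul, mul_comm (aj n m j), mul_comm (bj n m j)]
    exact (pair_indep n hm hm2 s h').1
  -- the edge `s`
  have h0 : I s = k s * T s := by
    rw [hI]
    have hmass := dens_mass n hn h3 hp s
    rw [hq] at hmass
    rw [← hmass, ← intervalIntegral.integral_const_mul]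
    apply intervalIntegral.integral_congr
    intro τ _
    simp only
    have e1 : inner ℝ (dir n s) (rot (dir n s)) = 0 := by
      have := (dir_inner n s 0).2.2
      simpa using this
    have e2 : inner ℝ (dir n s) (dir n s) = (1 : ℝ) := by
      rw [real_inner_self_eq_norm_sq, dir_norm]; norm_num
    rw [inner_add_right, inner_smul_right, inner_smul_right, e1, e2]
    ring
  have hn1 : n = (n - 1) + 1 := by omega
  have hal : al n m s T * k s - 1 = ∑ l ∈ Finset.range (n - 1), aj n m (l + 1) *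
      (k s * T (s + ((l + 1 : ℕ) : ZMod n)) - I (s + ((l + 1 : ℕ) : ZMod n))) := by
    have e : al n m s T * k s - 1 = ∑ j ∈ Finset.range n, aj n m j *
        (k s * T (s + ((j : ℕ) : ZMod n)) - I (s + ((j : ℕ) : ZMod n))) := by
      rw [← h1]
      unfold al
      rw [Finset.sum_mul, ← Finset.sum_sub_distrib]
      apply Finset.sum_congr rfl
      intro j _
      ring
    rw [e]
    have e3 : ∀ f : ℕ → ℝ, ∑ j ∈ Finset.range n, f j = ∑ l ∈ Finset.range (n - 1), f (l + 1) + f 0 := by
      intro f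
      rw [← Finset.sum_range_succ', ← hn1]
    rw [e3]
    have e4 : k s * T (s + ((0 : ℕ) : ZMod n)) - I (s + ((0 : ℕ) : ZMod n)) = 0 := by
      have : s + ((0 : ℕ) : ZMod n) = s := by simp
      rw [this, h0, sub_self]
    rw [e4, mul_zero, add_zero]
  have hsum : ∑ l ∈ Finset.range (n - 1), aj n m (l + 1) *
      (k s * T (s + ((l + 1 : ℕ) : ZMod n)) - I (s + ((l + 1 : ℕ) : ZMod n))) =
      ∑ l ∈ Finset.range (n - 1), ((k s - inner ℝ (dir n s) (ver n k (s + ((l + 1 : ℕ) : ZMod n)))) * Aj n m s T (l + 1) -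
        (k s - inner ℝ (dir n s) (ver n k (s + ((l : ℕ) : ZMod n)))) * Aj n m s T l) -
      Real.sin (m * dl n) * ∑ l ∈ Finset.range (n - 1), bj n m (l + 1) * T (s + ((l + 1 : ℕ) : ZMod n)) *
        ∫ σ in (0:ℝ)..1, seg (Aj n m s T l) (Aj n m s T (l + 1)) σ / seg (rr n T k s l) (rr n T k s (l + 1)) σ := by
    rw [Finset.mul_sum, ← Finset.sum_sub_distrib]
    apply Finset.sum_congr rfl
    intro l _
    rw [hI]
    exact C4c_edge n hn h3 hm hm2 s ho.fat hp hq l
  have htel := Finset.sum_range_sub (fun l : ℕ => (k s - inner ℝ (dir n s) (ver n k (s + ((l : ℕ) : ZMod n)))) * Aj n m s T l) (n - 1)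
  rw [htel] at hsum
  have hA0 : Aj n m s T 0 = 0 := by simp [Aj]
  have hv : inner ℝ (dir n s) (ver n k (s + ((n - 1 : ℕ) : ZMod n))) = k s := by
    have e5 : s + ((n - 1 : ℕ) : ZMod n) = s - 1 := by
      rw [Nat.cast_sub (by omega : 1 ≤ n)]
      simp
      ring
    have := (ver_inner n hn h3 k (s - 1)).2
    rw [sub_add_cancel] at this
    rw [e5, real_inner_comm]
    exact this
  rw [hA0, hv, sub_self, zero_mul, mul_zero, sub_zero, zero_sub] at hsum
  rw [hsum] at hal
  linarith

end Pool.Agent.Lib.MP_1dedaf_gt.LB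
end

section

/-!
# TASK LB C4: (done: imports)


-/

set_option autoImplicit false

open MeasureTheory Set Filter Topology

namespace Pool.Agent.Lib.MP_1dedaf_gt.LB



end Pool.Agent.Lib.MP_1dedaf_gt.LB
end

section

/-!
# TASK LB C5a: the dependence of the coefficients on the mass of one edge

For `j < n` and `t = s + m` (`m < n`): `s + j = t` in `ZMod n` iff `j = m`. `aj n m m = 0`, `bj n m m = 1` (`aj_zero`). (`seg_upd`) `pair_rho` for `l` and `l + 1`, the
`_upd` lemmas and `Bj (l+1) - Bj l` jumps by `x` exactly at `l + 1 = m`.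
-/

set_option autoImplicit false

open MeasureTheory Set Filter Topology

namespace Pool.Agent.Lib.MP_1dedaf_gt.LB

theorem upd_T (n m : ℕ) [NeZero n] (hm : m < n) (s : ZMod n) (T : ZMod n → ℝ) (x : ℝ) {j : ℕ} (hj : j < n) :
    Function.update T (s + (m : ℕ)) x (s + (j : ℕ)) = if j = m then x else T (s + (j : ℕ)) := by
  rw [Function.update_apply]
  by_cases h : j = m
  · rw [if_pos h, if_pos (by rw [h])]
  · rw [if_neg h, if_neg]
    intro h1
    have h2 := add_left_cancel h1
    rw [ZMod.natCast_eq_natCast_iff', Nat.mod_eq_of_lt hj, Nat.mod_eq_of_lt hm] at h2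
    exact h h2

theorem al_upd (n : ℕ) [NeZero n] {m : ℕ} (hm : 0 < m) (hm2 : 2 * m < n) (s : ZMod n) (T : ZMod n → ℝ) (x : ℝ) :
    al n m s (Function.update T (s + (m : ℕ)) x) = al n m s T := by
  refine Finset.sum_congr rfl fun j hj => ?_
  rw [upd_T n m (by omega) s T x (Finset.mem_range.1 hj)]
  by_cases h : j = m
  · rw [h, (aj_zero n hm hm2).2.1, zero_mul, zero_mul]
  · rw [if_neg h]

theorem be_upd (n : ℕ) [NeZero n] {m : ℕ} (hm : 0 < m) (hm2 : 2 * m < n) (s : ZMod n) (T : ZMod n → ℝ) (x : ℝ) :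
    be n m s (Function.update T (s + (m : ℕ)) x) = be n m s (Function.update T (s + (m : ℕ)) 0) + x := by
  have h1 : ∑ j ∈ Finset.range n, (if j = m then x else 0) = x := by
    rw [Finset.sum_ite_eq', if_pos (Finset.mem_range.2 (by omega))]
  unfold be
  calc _ = ∑ j ∈ Finset.range n, (bj n m j * Function.update T (s + (m : ℕ)) 0 (s + (j : ℕ)) +
        if j = m then x else 0) := by
        refine Finset.sum_congr rfl fun j hj => ?_
        rw [upd_T n m (by omega) s T x (Finset.mem_range.1 hj),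
          upd_T n m (by omega) s T 0 (Finset.mem_range.1 hj)]
        by_cases h : j = m
        · rw [if_pos h, if_pos h, if_pos h, h, (aj_zero n hm hm2).2.2.2]
          ring
        · rw [if_neg h, if_neg h, if_neg h]
          ring
    _ = _ := by rw [Finset.sum_add_distrib, h1]

theorem Aj_upd (n : ℕ) [NeZero n] {m : ℕ} (hm : 0 < m) (hm2 : 2 * m < n) (s : ZMod n) (T : ZMod n → ℝ) (x : ℝ) {l : ℕ} (hl : l < n) :
    Aj n m s (Function.update T (s + (m : ℕ)) x) l = Aj n m s T l := by
  refine Finset.sum_congr rfl fun j hj => ?_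
  have hj' := Finset.mem_range.1 hj
  rw [upd_T n m (by omega) s T x (j := j + 1) (by omega)]
  by_cases h : j + 1 = m
  · rw [h, (aj_zero n hm hm2).2.1, zero_mul, zero_mul]
  · rw [if_neg h]

theorem Bj_upd (n : ℕ) [NeZero n] {m : ℕ} (hm : 0 < m) (hm2 : 2 * m < n) (s : ZMod n) (T : ZMod n → ℝ) (x : ℝ) {l : ℕ} (hl : l < n) :
    Bj n m s (Function.update T (s + (m : ℕ)) x) l =
      Bj n m s (Function.update T (s + (m : ℕ)) 0) l + if m ≤ l then x else 0 := by
  have h1 : ∑ j ∈ Finset.range l, (if j + 1 = m then x else 0) = if m ≤ l then x else 0 := by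
    have h2 : ∀ j, (j + 1 = m) ↔ (j = m - 1) := fun j => by omega
    simp_rw [h2]
    rw [Finset.sum_ite_eq']
    by_cases h : m ≤ l
    · rw [if_pos h, if_pos (Finset.mem_range.2 (by omega))]
    · rw [if_neg h, if_neg (fun h3 => h (by have := Finset.mem_range.1 h3; omega))]
  unfold Bj
  calc _ = ∑ j ∈ Finset.range l, (bj n m (j + 1) *
        Function.update T (s + (m : ℕ)) 0 (s + ((j + 1 : ℕ) : ZMod n)) +
        if j + 1 = m then x else 0) := by
        refine Finset.sum_congr rfl fun j hj => ?_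
        have hj' := Finset.mem_range.1 hj
        rw [upd_T n m (by omega) s T x (j := j + 1) (by omega),
          upd_T n m (by omega) s T 0 (j := j + 1) (by omega)]
        by_cases h : j + 1 = m
        · rw [if_pos h, if_pos h, if_pos h, h, (aj_zero n hm hm2).2.2.2]
          ring
        · rw [if_neg h, if_neg h, if_neg h]
          ring
    _ = _ := by rw [Finset.sum_add_distrib, h1]

/-- `0` on the edges before `t = s + m`, `σ` on `t`, `1` after `t`. -/
noncomputable def chi (m l : ℕ) (σ : ℝ) : ℝ := if l + 1 < m then 0 else if l + 1 = m then σ else 1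

/-- The part of the density not depending on `x`. -/
noncomputable def Ee (n m : ℕ) (s : ZMod n) (T : ZMod n → ℝ) (l : ℕ) (σ : ℝ) : ℝ :=
  Real.sin (m * dl n) * (be n m s (Function.update T (s + (m : ℕ)) 0) * seg (Aj n m s T l) (Aj n m s T (l + 1)) σ -
    al n m s T * seg (Bj n m s (Function.update T (s + (m : ℕ)) 0) l) (Bj n m s (Function.update T (s + (m : ℕ)) 0) (l + 1)) σ)

/-- The coefficient of `x` in the density. -/
noncomputable def ph (n m : ℕ) (s : ZMod n) (T : ZMod n → ℝ) (l : ℕ) (σ : ℝ) : ℝ :=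
  Real.sin (m * dl n) * (seg (Aj n m s T l) (Aj n m s T (l + 1)) σ - al n m s T * chi m l σ)

private theorem C5a_pos {n m : ℕ} {s : ZMod n} {T : ZMod n → ℝ} (hT : ∀ i, 0 < T i) {x : ℝ}
    (hx : 0 < x) (i : ZMod n) : 0 < Function.update T (s + (m : ℕ)) x i := by
  rw [Function.update_apply]
  split_ifs
  · exact hx
  · exact hT i

theorem seg_upd (n : ℕ) [NeZero n] (hn : Odd n) (h3 : 3 ≤ n) {m : ℕ} (hm : 0 < m) (hm2 : 2 * m < n) (s : ZMod n)
    {T k : ZMod n → ℝ} (hT : ∀ i, 0 < T i) {x : ℝ} (hx : 0 < x) (ho : Opt (dir n) (Function.update T (s + (m : ℕ)) x) k)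
    {l : ℕ} (hl : l + 1 < n) (σ : ℝ) :
    seg (rr n (Function.update T (s + (m : ℕ)) x) k s l) (rr n (Function.update T (s + (m : ℕ)) x) k s (l + 1)) σ =
      rr n (Function.update T (s + (m : ℕ)) x) k s 0 + Ee n m s T l σ + ph n m s T l σ * x := by
  rw [pair_rho n hn h3 hm hm2 s (C5a_pos hT hx) ho l,
    pair_rho n hn h3 hm hm2 s (C5a_pos hT hx) ho (l + 1), be_upd n hm hm2, al_upd n hm hm2,
    Aj_upd n hm hm2 s T x (by omega), Aj_upd n hm hm2 s T x hl, Bj_upd n hm hm2 s T x (by omega),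
    Bj_upd n hm hm2 s T x hl]
  have h1 : chi m l σ = seg (if m ≤ l then 1 else 0) (if m ≤ l + 1 then 1 else 0) σ := by
    unfold chi seg
    by_cases h1 : l + 1 < m
    · rw [if_pos h1, if_neg (by omega), if_neg (by omega)]
      ring
    · rw [if_neg h1]
      by_cases h2 : l + 1 = m
      · rw [if_pos h2, if_neg (by omega), if_pos (by omega)]
        ring
      · rw [if_neg h2, if_pos (by omega), if_pos (by omega)]
        ring
  have h2 : ∀ P : Prop, [Decidable P] → (if P then x else 0) = x * (if P then 1 else 0) := by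
    intro P _
    split_ifs <;> simp
  unfold Ee ph
  rw [h1, h2, h2]
  unfold seg
  ring

/-- The identities `pair_one` and `pair_k` (the latter minus `A_m` times the former) written with `x`. -/
theorem pair_upd (n : ℕ) [NeZero n] (hn : Odd n) (h3 : 3 ≤ n) {m : ℕ} (hm : 0 < m) (hm2 : 2 * m < n) (s : ZMod n)
    {T k : ZMod n → ℝ} (hT : ∀ i, 0 < T i) {x : ℝ} (hx : 0 < x) (ho : Opt (dir n) (Function.update T (s + (m : ℕ)) x) k)
    {r : ℝ} (hr : r = rr n (Function.update T (s + (m : ℕ)) x) k s 0) :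
    ∑ l ∈ Finset.range (n - 1), (if l + 1 = m then x else bj n m (l + 1) * T (s + ((l + 1 : ℕ) : ZMod n))) *
        ∫ σ in (0:ℝ)..1, 1 / (r + Ee n m s T l σ + ph n m s T l σ * x) = 0 ∧
    al n m s T * k s = 1 - Real.sin (m * dl n) *
      ∑ l ∈ Finset.range (n - 1), (if l + 1 = m then 0 else bj n m (l + 1) * T (s + ((l + 1 : ℕ) : ZMod n))) *
        ∫ σ in (0:ℝ)..1, (seg (Aj n m s T l) (Aj n m s T (l + 1)) σ - Aj n m s T m) / (r + Ee n m s T l σ + ph n m s T l σ * x) := by
  subst hr
  have hc : ∀ l, l + 1 < n → bj n m (l + 1) *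
      Function.update T (s + (m : ℕ)) x (s + ((l + 1 : ℕ) : ZMod n)) =
      if l + 1 = m then x else bj n m (l + 1) * T (s + ((l + 1 : ℕ) : ZMod n)) := by
    intro l hl
    rw [upd_T n m (by omega) s T x (j := l + 1) hl]
    by_cases h : l + 1 = m
    · rw [if_pos h, if_pos h, h, (aj_zero n hm hm2).2.2.2, one_mul]
    · rw [if_neg h, if_neg h]
  have hl' : ∀ l ∈ Finset.range (n - 1), l + 1 < n := fun l hl => by
    have := Finset.mem_range.1 hl
    omega
  have hseg : ∀ l, l + 1 < n → ∀ σ,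
      rr n (Function.update T (s + (m : ℕ)) x) k s 0 + Ee n m s T l σ + ph n m s T l σ * x =
      seg (rr n (Function.update T (s + (m : ℕ)) x) k s l)
        (rr n (Function.update T (s + (m : ℕ)) x) k s (l + 1)) σ :=
    fun l hl σ => (seg_upd n hn h3 hm hm2 s hT hx ho hl σ).symm
  have hrr : ∀ l, 0 < rr n (Function.update T (s + (m : ℕ)) x) k s l := fun l =>
    rh_pos n hn h3 ho.fat _
  have hsp : ∀ l, ∀ σ ∈ Set.uIcc (0:ℝ) 1, 0 < seg (rr n (Function.update T (s + (m : ℕ)) x) k s l)
      (rr n (Function.update T (s + (m : ℕ)) x) k s (l + 1)) σ := by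
    intro l σ hσ
    rw [Set.uIcc_of_le zero_le_one] at hσ
    have h1 := hrr l
    have h2 := hrr (l + 1)
    have h3 : seg (rr n (Function.update T (s + (m : ℕ)) x) k s l)
        (rr n (Function.update T (s + (m : ℕ)) x) k s (l + 1)) σ =
        (1 - σ) * rr n (Function.update T (s + (m : ℕ)) x) k s l +
        σ * rr n (Function.update T (s + (m : ℕ)) x) k s (l + 1) := by
      unfold seg
      ring
    rw [h3]
    rcases eq_or_lt_of_le hσ.1 with h4 | h4
    · rw [← h4]
      simpa using h1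
    · have h5 : 0 ≤ (1 - σ) * rr n (Function.update T (s + (m : ℕ)) x) k s l :=
        mul_nonneg (by linarith [hσ.2]) h1.le
      have h6 : 0 < σ * rr n (Function.update T (s + (m : ℕ)) x) k s (l + 1) := mul_pos h4 h2
      linarith
  have hsc : ∀ a b : ℝ, Continuous (seg a b) := fun a b => by
    unfold seg
    fun_prop
  have hint : ∀ l (f : ℝ → ℝ), Continuous f → IntervalIntegrable (fun σ => f σ /
      seg (rr n (Function.update T (s + (m : ℕ)) x) k s l)
      (rr n (Function.update T (s + (m : ℕ)) x) k s (l + 1)) σ) volume 0 1 := by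
    intro l f hf
    refine ContinuousOn.intervalIntegrable ?_
    exact hf.continuousOn.div (hsc _ _).continuousOn fun σ hσ => (hsp l σ hσ).ne'
  have h1 := pair_one n hn h3 hm hm2 s (C5a_pos hT hx) ho
  have h2 := pair_k n hn h3 hm hm2 s (C5a_pos hT hx) ho
  rw [al_upd n hm hm2] at h2
  have h1' : ∑ l ∈ Finset.range (n - 1), (if l + 1 = m then x else bj n m (l + 1) * T (s + ((l + 1 : ℕ) : ZMod n))) *
      ∫ σ in (0:ℝ)..1, 1 / seg (rr n (Function.update T (s + (m : ℕ)) x) k s l)
        (rr n (Function.update T (s + (m : ℕ)) x) k s (l + 1)) σ = 0 := by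
    refine Eq.trans (Finset.sum_congr rfl fun l hl => ?_) h1
    rw [hc l (hl' l hl)]
  constructor
  · refine Eq.trans (Finset.sum_congr rfl fun l hl => ?_) h1'
    simp_rw [hseg l (hl' l hl)]
  · rw [h2]
    congr 2
    calc _ = ∑ l ∈ Finset.range (n - 1), ((if l + 1 = m then x else bj n m (l + 1) * T (s + ((l + 1 : ℕ) : ZMod n))) *
          (∫ σ in (0:ℝ)..1, seg (Aj n m s T l) (Aj n m s T (l + 1)) σ /
            seg (rr n (Function.update T (s + (m : ℕ)) x) k s l)
            (rr n (Function.update T (s + (m : ℕ)) x) k s (l + 1)) σ) -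
          Aj n m s T m * ((if l + 1 = m then x else bj n m (l + 1) * T (s + ((l + 1 : ℕ) : ZMod n))) *
            ∫ σ in (0:ℝ)..1, 1 / seg (rr n (Function.update T (s + (m : ℕ)) x) k s l)
            (rr n (Function.update T (s + (m : ℕ)) x) k s (l + 1)) σ)) := by
          rw [Finset.sum_sub_distrib, ← Finset.mul_sum, h1', mul_zero, sub_zero]
          refine Finset.sum_congr rfl fun l hl => ?_
          rw [hc l (hl' l hl), Aj_upd n hm hm2 s T x (by have := hl' l hl; omega),
            Aj_upd n hm hm2 s T x (hl' l hl)]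
      _ = _ := by
          refine Finset.sum_congr rfl fun l hl => ?_
          have h4 : ∫ σ in (0:ℝ)..1, (seg (Aj n m s T l) (Aj n m s T (l + 1)) σ - Aj n m s T m) /
              seg (rr n (Function.update T (s + (m : ℕ)) x) k s l)
              (rr n (Function.update T (s + (m : ℕ)) x) k s (l + 1)) σ =
              (∫ σ in (0:ℝ)..1, seg (Aj n m s T l) (Aj n m s T (l + 1)) σ /
              seg (rr n (Function.update T (s + (m : ℕ)) x) k s l)
              (rr n (Function.update T (s + (m : ℕ)) x) k s (l + 1)) σ) -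
              Aj n m s T m * ∫ σ in (0:ℝ)..1, 1 /
              seg (rr n (Function.update T (s + (m : ℕ)) x) k s l)
              (rr n (Function.update T (s + (m : ℕ)) x) k s (l + 1)) σ := by
            rw [← intervalIntegral.integral_const_mul, ← intervalIntegral.integral_sub
              (hint l _ (hsc _ _)) ((hint l _ continuous_const).const_mul _)]
            refine intervalIntegral.integral_congr fun σ _ => ?_
            show _ = _
            ring
          simp_rw [hseg l (hl' l hl)]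
          by_cases h : l + 1 = m
          · have h5 : Aj n m s T l = Aj n m s T m := by
              rw [← h]
              unfold Aj
              rw [Finset.sum_range_succ, h, (aj_zero n hm hm2).2.1, zero_mul, add_zero]
            have h6 : ∫ σ in (0:ℝ)..1, seg (Aj n m s T l) (Aj n m s T (l + 1)) σ /
                seg (rr n (Function.update T (s + (m : ℕ)) x) k s l)
                (rr n (Function.update T (s + (m : ℕ)) x) k s (l + 1)) σ =
                Aj n m s T m * ∫ σ in (0:ℝ)..1, 1 /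
                seg (rr n (Function.update T (s + (m : ℕ)) x) k s l)
                (rr n (Function.update T (s + (m : ℕ)) x) k s (l + 1)) σ := by
              rw [← intervalIntegral.integral_const_mul]
              refine intervalIntegral.integral_congr fun σ _ => ?_
              show _ = _
              rw [h5, h]
              unfold seg
              ring
            rw [h6, if_pos h, if_pos h]
            ring
          · rw [if_neg h, if_neg h, h4]
            ring

end Pool.Agent.Lib.MP_1dedaf_gt.LB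
end
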