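import Pool.Agent.Lib.MP_1dedaf_gt.DK.SDefs
import Pool.Agent.Lib.MP_1dedaf_gt.DK.A0
import Pool.Agent.Lib.MP_1dedaf_gt.Mg.G003
import Pool.Agent.Lib.MP_1dedaf_gt.Mg.G012
import Pool.Agent.Lib.MP_1dedaf_gt.Mg.G013
import Pool.Agent.Lib.MP_1dedaf_gt.Mg.G018
import Pool.Agent.Lib.MP_1dedaf_gt.DK.A2
import Pool.Agent.Lib.MP_1dedaf_gt.DK.A3
import Pool.Agent.Lib.MP_1dedaf_gt.DK.Goals
import Pool.Agent.Lib.MP_1dedaf_gt.Mg.G009
import Pool.Agent.Lib.MP_1dedaf_gt.Mg.G015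

section

/-!
# TASK DK B7: the tilt and the function `A` in the coordinates of `s`

Proof. `q_eq`, `p_eq`: `θ = al u_s + be u_t` (`th_pair`), `<u_t, u_s> = cos (m δ)`, `<u_t, rot (u_s)> = sin (m δ)` (`dir_inner`), so `p = - al - be cos`, `q = - be sin`
and `p + q k = - al` for `k = - cos / sin`. `Aj_eq`: `pair_rho` with `sin (m δ) * Bj l = Xj l` (`bj = sin / sin`): `rr l = rr 0 + sin (m δ) be Aj l - al Xj l`; solve for `Aj l`
(`q = - be sin ≠ 0`). `Aj_seg`: both sides of `Aj_eq` are affine in the interpolation parameter. `C_M`: `Xu_at` at `j = n - 1` (`sx (n-1) = 0`), `Xu 0 = - q M`: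
`- q C M = Xj (n-1) = ∑_{j<n-1} sin ((j+1) δ) T (s+j+1)`, and `<θ, rot (u s)> = ∑_i T i <u i, rot (u s)> = ∑_{j<n} T (s+j) sin (j δ)` (`sum_shift`, `dir_inner`; the term
`j = 0` vanishes) is the same sum, `= - q`; divide by `q`. `sv_reg`: B4.
-/

set_option autoImplicit false

open MeasureTheory Set Filter Topology

namespace Pool.Agent.Lib.MP_1dedaf_gt.DK

open Pool.Agent.Lib.MP_1dedaf_gt.LB

private theorem B7_inner_rot (n : ℕ) [NeZero n] (hn : Odd n) (h3 : 3 ≤ n) {m : ℕ} (hm : 0 < m)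
    (hm2 : 2 * m < n) (s : ZMod n) (T : ZMod n → ℝ) :
    inner ℝ (th (dir n) T) (rot (dir n s)) = be n m s T * Real.sin (m * dl n) := by
  rw [th_pair n hn h3 hm hm2 s T, inner_add_left, real_inner_smul_left, real_inner_smul_left,
    (dir_inner n s m).2.1]
  have h0 := (dir_inner n s 0).2.1
  simp only [Nat.cast_zero, add_zero, zero_mul, Real.sin_zero] at h0
  rw [h0]
  ring

private theorem B7_inner_dir (n : ℕ) [NeZero n] (hn : Odd n) (h3 : 3 ≤ n) {m : ℕ} (hm : 0 < m)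
    (hm2 : 2 * m < n) (s : ZMod n) (T : ZMod n → ℝ) :
    inner ℝ (th (dir n) T) (dir n s) = al n m s T + be n m s T * Real.cos (m * dl n) := by
  rw [th_pair n hn h3 hm hm2 s T, inner_add_left, real_inner_smul_left, real_inner_smul_left,
    (dir_inner n s m).1]
  have h0 := (dir_inner n s 0).1
  simp only [Nat.cast_zero, add_zero, zero_mul, Real.cos_zero] at h0
  rw [h0]
  ring

theorem q_eq (n : ℕ) [NeZero n] (hn : Odd n) (h3 : 3 ≤ n) {m : ℕ} (hm : 0 < m) (hm2 : 2 * m < n) (s : ZMod n) (T k : ZMod n → ℝ) :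
    (sv n k (th (dir n) T) s).q = - (be n m s T * Real.sin (m * dl n)) := by
  show - inner ℝ (th (dir n) T) (rot (dir n s)) = _
  rw [B7_inner_rot n hn h3 hm hm2]

theorem p_eq (n : ℕ) [NeZero n] (hn : Odd n) (h3 : 3 ≤ n) {m : ℕ} (hm : 0 < m) (hm2 : 2 * m < n) (s : ZMod n) (T k : ZMod n → ℝ) :
    - al n m s T = (sv n k (th (dir n) T) s).p + (sv n k (th (dir n) T) s).q * (- (Real.cos (m * dl n) / Real.sin (m * dl n))) := by
  rw [q_eq n hn h3 hm hm2 s T k]
  have h1 : (sv n k (th (dir n) T) s).p = - (al n m s T + be n m s T * Real.cos (m * dl n)) := by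
    show - inner ℝ (th (dir n) T) (dir n s) = _
    rw [B7_inner_dir n hn h3 hm hm2]
  rw [h1]
  have h2 : Real.sin (m * dl n) ≠ 0 := (sin_pos n hm hm2).ne'
  field_simp
  ring

theorem sv_reg (n : ℕ) [NeZero n] (hn : Odd n) (h3 : 3 ≤ n) {T k : ZMod n → ℝ} (hT : ∀ i, 0 < T i)
    (ho : Opt (dir n) T k) (s : ZMod n) (hq : (sv n k (th (dir n) T) s).q ≠ 0) : (sv n k (th (dir n) T) s).Reg := by
  have hw := sv_w_pos n hn h3 hT ho s
  have he := sv_ends n hn h3 hT ho s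
  refine ⟨hq, hw, (sv_l_cont n hn h3 k _ s).1, (sv_u_cont n hn h3 k _ s).1, ?_, ?_⟩
  · intro x hx
    rcases lt_or_eq_of_le hx.2 with h | h
    · exact (sv_lt n hn h3 hT ho s x hx.1 h).le
    · rw [h]
      exact he.2.2.2.le
  · exact ⟨0, ⟨le_rfl, hw.le⟩, he.2.2.1⟩

private theorem B7_Bj (n : ℕ) [NeZero n] {m : ℕ} (hm : 0 < m) (hm2 : 2 * m < n) (s : ZMod n)
    (T : ZMod n → ℝ) (l : ℕ) : Real.sin (m * dl n) * Bj n m s T l = Xj n T s l := by
  have h2 : Real.sin (m * dl n) ≠ 0 := (sin_pos n hm hm2).ne'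
  rw [Bj, Xj, Finset.mul_sum]
  refine Finset.sum_congr rfl fun j _ => ?_
  rw [bj]
  field_simp

theorem Aj_eq (n : ℕ) [NeZero n] (hn : Odd n) (h3 : 3 ≤ n) {T k : ZMod n → ℝ} (hT : ∀ i, 0 < T i)
    (ho : Opt (dir n) T k) (s : ZMod n) {m : ℕ} (hm : 0 < m) (hm2 : 2 * m < n) (hb : be n m s T ≠ 0) (l : ℕ) :
    Aj n m s T l = (- al n m s T * Xj n T s l - rr n T k s l + rr n T k s 0) / (sv n k (th (dir n) T) s).q := by
  have h2 : Real.sin (m * dl n) ≠ 0 := (sin_pos n hm hm2).ne'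
  have h3' := pair_rho n hn h3 hm hm2 s hT ho l
  have h4 := B7_Bj n hm hm2 s T l
  rw [q_eq n hn h3 hm hm2 s T k, eq_div_iff (neg_ne_zero.2 (mul_ne_zero hb h2)), h3', ← h4]
  ring

theorem Aj_seg (n : ℕ) [NeZero n] (hn : Odd n) (h3 : 3 ≤ n) {T k : ZMod n → ℝ} (hT : ∀ i, 0 < T i)
    (ho : Opt (dir n) T k) (s : ZMod n) {m : ℕ} (hm : 0 < m) (hm2 : 2 * m < n) (hb : be n m s T ≠ 0) (l : ℕ) (σ : ℝ) :
    seg (Aj n m s T l) (Aj n m s T (l + 1)) σ =
      (- al n m s T * seg (Xj n T s l) (Xj n T s (l + 1)) σ - seg (rr n T k s l) (rr n T k s (l + 1)) σ + rr n T k s 0) /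
        (sv n k (th (dir n) T) s).q := by
  rw [Aj_eq n hn h3 hT ho s hm hm2 hb l, Aj_eq n hn h3 hT ho s hm hm2 hb (l + 1)]
  simp only [seg]
  ring

theorem C_M (n : ℕ) [NeZero n] (hn : Odd n) (h3 : 3 ≤ n) {T k : ZMod n → ℝ} (hT : ∀ i, 0 < T i)
    (ho : Opt (dir n) T k) (s : ZMod n) (hq : (sv n k (th (dir n) T) s).q ≠ 0) :
    sC n k (th (dir n) T) s * (sv n k (th (dir n) T) s).M = 1 := by
  have h1 := Xu_at n hn h3 hT ho s hq (n - 1) (by omega) le_rfl
  rw [sx_last n hn h3, Dat.Xu_zero] at h1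
  have h2 : (sv n k (th (dir n) T) s).q = - Xj n T s (n - 1) := by
    show - inner ℝ (th (dir n) T) (rot (dir n s)) = _
    congr 1
    rw [th, sum_inner]
    have h3' : ∀ i, inner ℝ (T i • dir n i) (rot (dir n s)) = T i * inner ℝ (dir n i) (rot (dir n s)) :=
      fun i => real_inner_smul_left _ _ _
    simp only [h3']
    rw [sum_shift n s]
    have h4 : ∀ j : ℕ, T (s + (j : ℕ)) * inner ℝ (dir n (s + (j : ℕ))) (rot (dir n s)) =
        T (s + (j : ℕ)) * Real.sin (j * dl n) := fun j => by rw [(dir_inner n s j).2.1]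
    simp only [h4]
    obtain ⟨N, hN⟩ : ∃ N, n = N + 1 := ⟨n - 1, by omega⟩
    have h5 : n - 1 = N := by omega
    have h6 : Finset.range n = Finset.range (N + 1) := by rw [← hN]
    rw [h6, h5, Finset.sum_range_succ', Xj]
    simp only [Nat.cast_zero, zero_mul, Real.sin_zero, mul_zero, add_zero]
    refine Finset.sum_congr rfl fun j _ => ?_
    ring
  have h7 : Xj n T s (n - 1) = - (sv n k (th (dir n) T) s).q := by rw [h2]; ring
  rw [h7] at h1
  have h8 : (sv n k (th (dir n) T) s).q * (sC n k (th (dir n) T) s * (sv n k (th (dir n) T) s).M) =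
      (sv n k (th (dir n) T) s).q * 1 := by
    linear_combination - h1
  exact mul_left_cancel₀ hq h8

theorem rr_rl (n : ℕ) [NeZero n] (hn : Odd n) (h3 : 3 ≤ n) {T k : ZMod n → ℝ} (hT : ∀ i, 0 < T i)
    (ho : Opt (dir n) T k) (s : ZMod n) (j : ℕ) (hj : j ≤ (n - 1) / 2) :
    rr n T k s j = sC n k (th (dir n) T) s * (sv n k (th (dir n) T) s).rl (sx n k s j) := by
  have h1 : (sv n k (th (dir n) T) s).l (sx n k s j) = sy n k s j := by
    cases j with
    | zero =>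
      rw [sx_zero n hn h3]
      exact (sv_ends n hn h3 hT ho s).1
    | succ j =>
      rw [sv_l_eq n hn h3 hT ho s j (by omega) _
        ⟨(sx_lt_lo n hn h3 hT ho s j (by omega)).le, le_rfl⟩]
      exact ln_end n hn h3 k s j (sin_lo n hn h3 j (by omega)).ne'
  rw [rr_eq n hn h3, Dat.rl, h1]

end Pool.Agent.Lib.MP_1dedaf_gt.DK
end

section

/-!
# TASK DK B8: THE BRIDGE

Proof of `rker_eq`. `K = sv ..`, `C = sC ..`, `S = sin (m δ) > 0`, `κ = - al`, `xt = sx m`, `A X ρ = (κ X - ρ + C rl 0)/q`, `L X ρ = A X ρ - A (C Xl xt) (C rl xt)`. By `Aj_seg`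
(with `rr 0 = C rl 0`: `rr_rl` at `0`, `sx 0 = 0`) and `Aj_eq`, `Xl_at`, `rr_rl` at `m`: `af l σ = A (seg Xj) (seg rr) + (if m ≤ l then κ * 1 else 0)`, `At l σ = L (seg Xj) (seg rr)`, so by `br_eq`
`br (af * At) = (1/S)(loop (A L) + κ far L)`, `br af = (1/S)(loop A + κ far 1)`, `br 1 = (1/S) loop 1`, `br At = (1/S) loop L`. Insert in the definition of `Rker`
(`1/(S rr m) = (1/S) / (C rl xt)`): `Rker = (S/κ) [ ... ]` and `col_alg` says `(1/κ) [...] = K.j xt k`.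
`j_const`: if `l t = k t + c` on `[x0, x1]` then `d/dx [x + (a - Xl)/rl - (p + q k) (psi - Xi)] = 1 - 1 - (a - Xl)(p + q k)/rl + (p + q k)(a - Xl)/rl = 0` on `(x0, x1)`.
-/

set_option autoImplicit false

open MeasureTheory Set Filter Topology

namespace Pool.Agent.Lib.MP_1dedaf_gt.DK

open Pool.Agent.Lib.MP_1dedaf_gt.LB

/-- `j x k` is constant along an edge of slope `k`. -/
theorem j_const (K : Dat) (h : K.Reg) (k c x0 x1 : ℝ) (h01 : x0 ≤ x1) (hl : ∀ x ∈ Icc x0 x1, K.l x = k * x + c) :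
    K.j x1 k = K.j x0 k := by
  set g : ℝ → ℝ := fun x => Real.exp (K.p * x + K.q * (k * x + c)) with hg
  have hgd : ∀ x, HasDerivAt g (g x * (K.p + K.q * k)) x := by
    intro x
    have h1 : HasDerivAt (fun x : ℝ => K.p * x + K.q * (k * x + c)) (K.p * 1 + K.q * (k * 1)) x :=
      ((hasDerivAt_id x).const_mul K.p).add ((((hasDerivAt_id x).const_mul k).add_const c).const_mul K.q)
    have h2 := h1.exp
    convert h2 using 1
    simp only [hg]
    ring
  have hg0 : ∀ x, g x ≠ 0 := fun x => (Real.exp_pos _).ne'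
  have hrl : ∀ x ∈ Icc x0 x1, K.rl x = g x := by
    intro x hx
    simp only [Dat.rl, hg, hl x hx]
  have hl0 : ∀ x, K.rl x ≠ 0 := fun x => (K.rl_pos x).ne'
  have hXi : ∀ x, HasDerivAt K.Xi ((K.a - K.Xl x) / K.rl x) x := by
    intro x
    have hc : Continuous fun t => (K.a - K.Xl t) / K.rl t :=
      (continuous_const.sub (K.Xl_cont h.cl)).div (K.rl_cont h.cl) hl0
    exact (hc.integral_hasStrictDerivAt 0 x).hasDerivAt
  set f : ℝ → ℝ := fun x => x + (K.a - K.Xl x) / g x + (K.p + K.q * k) * K.Xi x with hf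
  have hfd : ∀ x, HasDerivAt f (1 + ((0 - K.rl x) * g x - (K.a - K.Xl x) * (g x * (K.p + K.q * k))) / g x ^ 2 +
      (K.p + K.q * k) * ((K.a - K.Xl x) / K.rl x)) x := by
    intro x
    exact ((hasDerivAt_id x).add (((hasDerivAt_const x K.a).sub (K.Xl_deriv h.cl x)).div (hgd x) (hg0 x))).add
      ((hXi x).const_mul _)
  have hcont : ContinuousOn f (Icc x0 x1) := fun x _ => (hfd x).continuousAt.continuousWithinAt
  have hder : ∀ x ∈ Ico x0 x1, HasDerivWithinAt f 0 (Ici x) x := by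
    intro x hx
    have h1 := (hfd x).hasDerivWithinAt (s := Ici x)
    have h2 : 1 + ((0 - K.rl x) * g x - (K.a - K.Xl x) * (g x * (K.p + K.q * k))) / g x ^ 2 +
        (K.p + K.q * k) * ((K.a - K.Xl x) / K.rl x) = 0 := by
      rw [hrl x ⟨hx.1, hx.2.le⟩]
      have := hg0 x
      field_simp
      ring
    rw [h2] at h1
    exact h1
  have hfe := constant_of_has_deriv_right_zero hcont hder x1 ⟨h01, le_refl _⟩
  simp only [hf] at hfe
  rw [← hrl x1 ⟨h01, le_refl _⟩, ← hrl x0 ⟨le_refl _, h01⟩] at hfe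
  unfold Dat.j Dat.Phi
  congr 1
  linear_combination hfe

private theorem B8_mem (n : ℕ) [NeZero n] (hn : Odd n) (h3 : 3 ≤ n) {T k : ZMod n → ℝ} (hT : ∀ i, 0 < T i)
    (ho : Opt (dir n) T k) (s : ZMod n) (m : ℕ) (hm : m ≤ (n - 1) / 2) :
    sx n k s m ∈ Icc 0 (sv n k (th (dir n) T) s).w := by
  have h1 : ∀ j, j ≤ (n - 1) / 2 → 0 ≤ sx n k s j := by
    intro j
    induction j with
    | zero => intro _; rw [sx_zero n hn h3]
    | succ j ih =>
      intro hj
      exact (ih (by omega)).trans (sx_lt_lo n hn h3 hT ho s j (by omega)).le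
  have h2 : ∀ d, m + d ≤ (n - 1) / 2 → sx n k s m ≤ sx n k s (m + d) := by
    intro d
    induction d with
    | zero => intro _; exact le_refl _
    | succ d ih =>
      intro hd
      exact (ih (by omega)).trans (sx_lt_lo n hn h3 hT ho s (m + d) (by omega)).le
  refine ⟨h1 m hm, ?_⟩
  have h3' := h2 ((n - 1) / 2 - m) (by omega)
  have h4 : m + ((n - 1) / 2 - m) = (n - 1) / 2 := by omega
  rw [h4] at h3'
  exact h3'

/-- The kernel of the polygon in the coordinates of the edge `s`. -/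
theorem rker_eq (n : ℕ) [NeZero n] (hn : Odd n) (h3 : 3 ≤ n) {T k : ZMod n → ℝ} (hT : ∀ i, 0 < T i)
    (ho : Opt (dir n) T k) (s : ZMod n) (m : ℕ) (hm : 0 < m) (hm2 : 2 * m < n) (ha : al n m s T ≠ 0) (hb : be n m s T ≠ 0) :
    Rker n m s T k = Real.sin (m * dl n) *
      (sv n k (th (dir n) T) s).j (sx n k s m) (- (Real.cos (m * dl n) / Real.sin (m * dl n))) := by
  have hS : Real.sin (m * dl n) ≠ 0 := (sin_pos n hm hm2).ne'
  have hmh : m ≤ (n - 1) / 2 := by omega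
  have hqe := q_eq n hn h3 hm hm2 s T k
  have hq : (sv n k (th (dir n) T) s).q ≠ 0 := by
    rw [hqe]
    exact neg_ne_zero.2 (mul_ne_zero hb hS)
  have hreg := sv_reg n hn h3 hT ho s hq
  have hC := sC_pos n hn h3 hT ho s
  have hCM := C_M n hn h3 hT ho s hq
  have hmem := B8_mem n hn h3 hT ho s m hmh
  have hp := p_eq n hn h3 hm hm2 s T k
  have hXt := Xl_at n hn h3 hT ho s m hmh
  have hrt := rr_rl n hn h3 hT ho s m hmh
  have hr0 := rr_rl n hn h3 hT ho s 0 (by omega)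
  rw [sx_zero n hn h3] at hr0
  have hseg := Aj_seg n hn h3 hT ho s hm hm2 hb
  have hAm := Aj_eq n hn h3 hT ho s hm hm2 hb m
  have hbr := fun G H hG hH κ => br_eq n hn h3 hT ho s m hm hm2 G H hG hH κ _ rfl hq _ rfl
  set K := sv n k (th (dir n) T) s with hK
  set C := sC n k (th (dir n) T) s with hCdef
  set κ := - al n m s T with hκ
  have hκ0 : κ ≠ 0 := neg_ne_zero.2 ha
  set A : ℝ → ℝ → ℝ := fun X ρ => (κ * X - ρ + C * K.rl 0) / K.q with hA
  set L : ℝ → ℝ → ℝ := fun X ρ => A X ρ - A (C * K.Xl (sx n k s m)) (C * K.rl (sx n k s m)) with hL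
  have hcol := K.col_alg hreg C hC hCM (sx n k s m) hmem _ κ hp hκ0 A L (fun _ _ => rfl) (fun _ _ => rfl)
  have cA : Continuous (fun z : ℝ × ℝ => A z.1 z.2) := by
    simp only [hA]
    fun_prop
  have cL : Continuous (fun z : ℝ × ℝ => L z.1 z.2) := by
    simp only [hL]
    exact cA.sub continuous_const
  have c1 : Continuous (fun z : ℝ × ℝ => (fun _ _ : ℝ => (1 : ℝ)) z.1 z.2) := continuous_const
  have hA1 : ∀ l σ, seg (Aj n m s T l) (Aj n m s T (l + 1)) σ =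
      A (seg (Xj n T s l) (Xj n T s (l + 1)) σ) (seg (rr n T k s l) (rr n T k s (l + 1)) σ) := by
    intro l σ
    rw [hseg l σ, hr0]
  have hAm1 : Aj n m s T m = A (C * K.Xl (sx n k s m)) (C * K.rl (sx n k s m)) := by
    rw [hAm, hr0, hXt, hrt]
  have hAt : ∀ l σ, At n m s T l σ =
      L (seg (Xj n T s l) (Xj n T s (l + 1)) σ) (seg (rr n T k s l) (rr n T k s (l + 1)) σ) := by
    intro l σ
    unfold At
    rw [hA1, hAm1]
  have haf : ∀ l σ, af n m s T l σ =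
      A (seg (Xj n T s l) (Xj n T s (l + 1)) σ) (seg (rr n T k s l) (rr n T k s (l + 1)) σ) +
        (if m ≤ l then κ * 1 else 0) := by
    intro l σ
    unfold af
    rw [hA1]
    split_ifs with h
    · rw [hκ]; ring
    · ring
  have b1 : br n m s T k (fun l σ => af n m s T l σ * At n m s T l σ) =
      1 / Real.sin (m * dl n) * (K.loop C (fun X ρ => A X ρ * L X ρ) + κ * K.far C (sx n k s m) L) := by
    rw [← hbr (fun X ρ => A X ρ * L X ρ) L (cA.mul cL) cL κ]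
    congr 1
    funext l σ
    rw [haf, hAt]
    split_ifs with h
    · ring
    · ring
  have b2 : br n m s T k (af n m s T) =
      1 / Real.sin (m * dl n) * (K.loop C A + κ * K.far C (sx n k s m) (fun _ _ => 1)) := by
    rw [← hbr A (fun _ _ => 1) cA c1 κ]
    congr 1
    funext l σ
    rw [haf]
  have b3 : br n m s T k (fun _ _ => 1) = 1 / Real.sin (m * dl n) * K.loop C (fun _ _ => 1) := by
    have h1 := hbr (fun _ _ => 1) (fun _ _ => 1) c1 c1 0
    simp only [zero_mul, ite_self, add_zero] at h1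
    exact h1
  have b4 : br n m s T k (At n m s T) = 1 / Real.sin (m * dl n) * K.loop C L := by
    have h1 := hbr L (fun _ _ => 1) cL c1 0
    simp only [zero_mul, ite_self, add_zero] at h1
    rw [← h1]
    congr 1
    funext l σ
    rw [hAt]
  unfold Rker
  rw [b1, b2, b3, b4, hrt, ← hcol]
  have hal : al n m s T = - κ := by rw [hκ]; ring
  rw [hal]
  set S := Real.sin (m * dl n) with hSdef
  set ρ := C * K.rl (sx n k s m) with hρ
  set l1 := K.loop C (fun X ρ => A X ρ * L X ρ) + κ * K.far C (sx n k s m) L with hl1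
  set l2 := K.loop C A + κ * K.far C (sx n k s m) (fun _ _ => 1) with hl2
  set l3 := K.loop C (fun _ _ => 1) with hl3
  set l4 := K.loop C L with hl4
  have e1 : 1 / (S * ρ) - 1 / S * l2 = 1 / S * (1 / ρ - l2) := by
    rw [mul_sub, ← one_div_mul_one_div]
  have hS1 : (1 / S) ≠ 0 := one_div_ne_zero hS
  rw [e1, mul_div_mul_left _ _ hS1]
  have e2 : 1 / S * l1 + (1 / ρ - l2) / l3 * (1 / S * l4) = 1 / S * (l1 + (1 / ρ - l2) / l3 * l4) := by ring
  rw [e2]
  generalize l1 + (1 / ρ - l2) / l3 * l4 = Y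
  field_simp

end Pool.Agent.Lib.MP_1dedaf_gt.DK
end

section

/-!
# TASK DK S2: continuity of the kernel along sequences

Proof. `int_tendsto`: for `a, b, c, d, e, f, r, r'` converging sequences with positive limits of `r`, `r'`: the integrand `(seg a b σ - α) * (seg c d σ - γ) / seg r r' σ ^ 2` (polynomial in `σ`) converges uniformly / is dominated (eventually `r, r' ≥ m > 0`, so `seg r r' σ ≥ m`), so the integral over
`[0,1]` converges (`intervalIntegral.tendsto_integral_filter_of_dominated_convergence`). `rr_tendsto`: `rh n k θ i = exp ⟨θ, ver n k i⟩ / Z (dir n) k θ`; `th (dir n) T` is continuous in `T` (finite sum), `ver n k i` in `k`, `Z (dir n)` in `(k, θ)` (`Z_cont` of LB.A0, `dir_adm`), and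
`Z > 0` at the limit (B2 `sg_pos`). `rker_tendsto`: `Aj`, `al` are finite sums, continuous in `T`; `af l σ = seg .. - const`, `At l σ = seg .. - const`, so each summand of the four brackets converges by `int_tendsto`; `al ≠ 0` at the limit, and `br 1 ≠ 0` at the limit: by `br_eq`
(`G = 1`, `κ = 0`) `br 1 = (1/sin (m δ)) loop C 1 = N 0 / (C sin (m δ)) ≠ 0` (`N0_ne`, `sv_reg`, `q ≠ 0` by `q_eq`, `be ≠ 0`); `rr m > 0`.
-/

set_option autoImplicit false

open MeasureTheory Set Filter Topology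

namespace Pool.Agent.Lib.MP_1dedaf_gt.DK

open Pool.Agent.Lib.MP_1dedaf_gt.LB

private theorem S2_seg_ge {x y m σ : ℝ} (hx : m ≤ x) (hy : m ≤ y) (h0 : 0 ≤ σ) (h1 : σ ≤ 1) : m ≤ seg x y σ := by
  unfold seg
  nlinarith [mul_nonneg h0 (sub_nonneg.2 hy), mul_nonneg (sub_nonneg.2 h1) (sub_nonneg.2 hx)]

private theorem S2_seg_abs {x y A σ : ℝ} (hx : |x| ≤ A) (hy : |y| ≤ A) (h0 : 0 ≤ σ) (h1 : σ ≤ 1) : |seg x y σ| ≤ A := by
  have e : seg x y σ = (1 - σ) * x + σ * y := by unfold seg; ring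
  rw [e]
  refine (abs_add_le _ _).trans ?_
  rw [abs_mul, abs_mul, abs_of_nonneg h0, abs_of_nonneg (sub_nonneg.2 h1)]
  nlinarith [mul_nonneg h0 (sub_nonneg.2 hy), mul_nonneg (sub_nonneg.2 h1) (sub_nonneg.2 hx)]

private theorem S2_bdd {a : ℕ → ℝ} {a0 : ℝ} (h : Tendsto a atTop (𝓝 a0)) : ∀ᶠ j in atTop, |a j| ≤ |a0| + 1 := by
  have h1 := h.abs
  exact (h1.eventually (gt_mem_nhds (lt_add_one |a0|))).mono fun j hj => hj.le

private theorem S2_seg_tendsto {a b : ℕ → ℝ} {a0 b0 : ℝ} (h1 : Tendsto a atTop (𝓝 a0)) (h2 : Tendsto b atTop (𝓝 b0)) (σ : ℝ) :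
    Tendsto (fun j => seg (a j) (b j) σ) atTop (𝓝 (seg a0 b0 σ)) := by
  unfold seg
  exact h1.add ((h2.sub h1).const_mul σ)

theorem int_tendsto (a b c d α γ r r' : ℕ → ℝ) (a0 b0 c0 d0 α0 γ0 r0 r0' : ℝ) (h1 : Tendsto a atTop (𝓝 a0)) (h2 : Tendsto b atTop (𝓝 b0))
    (h3 : Tendsto c atTop (𝓝 c0)) (h4 : Tendsto d atTop (𝓝 d0)) (h5 : Tendsto α atTop (𝓝 α0)) (h6 : Tendsto γ atTop (𝓝 γ0))
    (h7 : Tendsto r atTop (𝓝 r0)) (h8 : Tendsto r' atTop (𝓝 r0')) (hr : 0 < r0) (hr' : 0 < r0') :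
    Tendsto (fun j => ∫ σ in (0:ℝ)..1, (seg (a j) (b j) σ - α j) * (seg (c j) (d j) σ - γ j) / seg (r j) (r' j) σ ^ 2) atTop
      (𝓝 (∫ σ in (0:ℝ)..1, (seg a0 b0 σ - α0) * (seg c0 d0 σ - γ0) / seg r0 r0' σ ^ 2)) := by
  obtain ⟨m, hm, hm1, hm2⟩ : ∃ m : ℝ, 0 < m ∧ m < r0 ∧ m < r0' := by
    refine ⟨min (r0 / 2) (r0' / 2), lt_min (by linarith) (by linarith), ?_, ?_⟩
    · exact (min_le_left _ _).trans_lt (by linarith)
    · exact (min_le_right _ _).trans_lt (by linarith)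
  set A : ℝ := (|a0| + 1) + (|b0| + 1) with hA
  set B : ℝ := (|c0| + 1) + (|d0| + 1) with hB
  refine intervalIntegral.tendsto_integral_filter_of_dominated_convergence
    (fun _ => (A + (|α0| + 1)) * (B + (|γ0| + 1)) / m ^ 2) ?_ ?_ ?_ ?_
  · refine Filter.Eventually.of_forall fun j => Measurable.aestronglyMeasurable ?_
    unfold seg
    fun_prop
  · filter_upwards [S2_bdd h1, S2_bdd h2, S2_bdd h3, S2_bdd h4, S2_bdd h5, S2_bdd h6,
      h7.eventually (lt_mem_nhds hm1), h8.eventually (lt_mem_nhds hm2)] with j e1 e2 e3 e4 e5 e6 e7 e8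
    refine Filter.Eventually.of_forall fun σ hσ => ?_
    rw [uIoc_of_le zero_le_one] at hσ
    have hσ0 : 0 ≤ σ := hσ.1.le
    have hσ1 : σ ≤ 1 := hσ.2
    have f1 : |seg (a j) (b j) σ - α j| ≤ A + (|α0| + 1) :=
      (abs_sub _ _).trans (add_le_add (S2_seg_abs (e1.trans (by rw [hA]; linarith [abs_nonneg b0]))
        (e2.trans (by rw [hA]; linarith [abs_nonneg a0])) hσ0 hσ1) e5)
    have f2 : |seg (c j) (d j) σ - γ j| ≤ B + (|γ0| + 1) :=
      (abs_sub _ _).trans (add_le_add (S2_seg_abs (e3.trans (by rw [hB]; linarith [abs_nonneg d0]))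
        (e4.trans (by rw [hB]; linarith [abs_nonneg c0])) hσ0 hσ1) e6)
    have f3 : m ≤ seg (r j) (r' j) σ := S2_seg_ge e7.le e8.le hσ0 hσ1
    have f4 : m ^ 2 ≤ seg (r j) (r' j) σ ^ 2 := pow_le_pow_left₀ hm.le f3 2
    rw [Real.norm_eq_abs, abs_div, abs_mul, abs_of_nonneg (sq_nonneg (seg (r j) (r' j) σ))]
    have hAB : 0 ≤ A + (|α0| + 1) := (abs_nonneg _).trans f1
    exact div_le_div₀ (mul_nonneg hAB ((abs_nonneg _).trans f2)) (mul_le_mul f1 f2 (abs_nonneg _) hAB)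
      (by positivity) f4
  · exact intervalIntegrable_const
  · refine Filter.Eventually.of_forall fun σ hσ => ?_
    rw [uIoc_of_le zero_le_one] at hσ
    have f3 : m ≤ seg r0 r0' σ := S2_seg_ge hm1.le hm2.le hσ.1.le hσ.2
    exact (((S2_seg_tendsto h1 h2 σ).sub h5).mul ((S2_seg_tendsto h3 h4 σ).sub h6)).div
      ((S2_seg_tendsto h7 h8 σ).pow 2) (pow_pos (hm.trans_le f3) 2).ne'

theorem rr_tendsto (n : ℕ) [NeZero n] (hn : Odd n) (h3 : 3 ≤ n) {Ts ks : ℕ → ZMod n → ℝ} {T k : ZMod n → ℝ} (hT : ∀ i, 0 < T i)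
    (ho : Opt (dir n) T k) (h1 : Tendsto Ts atTop (𝓝 T)) (h2 : Tendsto ks atTop (𝓝 k)) (s : ZMod n) (l : ℕ) :
    Tendsto (fun j => rr n (Ts j) (ks j) s l) atTop (𝓝 (rr n T k s l)) ∧ 0 < rr n T k s l := by
  have hZ : 0 < Z (dir n) k (th (dir n) T) := (sg_pos n hn h3 hT ho s).2.2
  have hth : Continuous (fun S : ZMod n → ℝ => th (dir n) S) := by
    unfold th
    fun_prop
  have hver : Continuous (fun k : ZMod n → ℝ => ver n k (s + (l : ℕ))) := by
    unfold ver hi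
    fun_prop
  have t1 : Tendsto (fun j => th (dir n) (Ts j)) atTop (𝓝 (th (dir n) T)) := (hth.tendsto T).comp h1
  have t2 : Tendsto (fun j => ver n (ks j) (s + (l : ℕ))) atTop (𝓝 (ver n k (s + (l : ℕ)))) := (hver.tendsto k).comp h2
  have t3 : Tendsto (fun j => Z (dir n) (ks j) (th (dir n) (Ts j))) atTop (𝓝 (Z (dir n) k (th (dir n) T))) :=
    ((Z_cont (dir_adm n hn h3)).tendsto (k, th (dir n) T)).comp (h2.prodMk_nhds t1)
  refine ⟨?_, ?_⟩
  · unfold rr rh
    exact ((Real.continuous_exp.tendsto _).comp (t1.inner t2)).div t3 hZ.ne'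
  · unfold rr rh
    exact div_pos (Real.exp_pos _) hZ

private theorem S2_br_tendsto (n : ℕ) [NeZero n] (hn : Odd n) (h3 : 3 ≤ n) (m : ℕ) (s : ZMod n)
    {Ts ks : ℕ → ZMod n → ℝ} {T k : ZMod n → ℝ} (hT : ∀ i, 0 < T i)
    (ho : Opt (dir n) T k) (h1 : Tendsto Ts atTop (𝓝 T)) (h2 : Tendsto ks atTop (𝓝 k))
    (a b α c d γ : ℕ → ℕ → ℝ) (a0 b0 α0 c0 d0 γ0 : ℕ → ℝ)
    (e1 : ∀ l, Tendsto (fun j => a j l) atTop (𝓝 (a0 l))) (e2 : ∀ l, Tendsto (fun j => b j l) atTop (𝓝 (b0 l)))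
    (e3 : ∀ l, Tendsto (fun j => α j l) atTop (𝓝 (α0 l))) (e4 : ∀ l, Tendsto (fun j => c j l) atTop (𝓝 (c0 l)))
    (e5 : ∀ l, Tendsto (fun j => d j l) atTop (𝓝 (d0 l))) (e6 : ∀ l, Tendsto (fun j => γ j l) atTop (𝓝 (γ0 l))) :
    Tendsto (fun j => br n m s (Ts j) (ks j)
      (fun l σ => (seg (a j l) (b j l) σ - α j l) * (seg (c j l) (d j l) σ - γ j l))) atTop
      (𝓝 (br n m s T k (fun l σ => (seg (a0 l) (b0 l) σ - α0 l) * (seg (c0 l) (d0 l) σ - γ0 l)))) := by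
  unfold br
  refine tendsto_finsetSum _ fun l _ => ?_
  have hr := fun l => rr_tendsto n hn h3 hT ho h1 h2 s l
  have hTl : Tendsto (fun j => Ts j (s + ((l + 1 : ℕ) : ZMod n))) atTop (𝓝 (T (s + ((l + 1 : ℕ) : ZMod n)))) :=
    (tendsto_pi_nhds.1 h1) _
  exact (hTl.const_mul _).mul (int_tendsto _ _ _ _ _ _ _ _ _ _ _ _ _ _ _ _ (e1 l) (e2 l) (e4 l) (e5 l) (e3 l) (e6 l)
    (hr l).1 (hr (l + 1)).1 (hr l).2 (hr (l + 1)).2)

private theorem S2_br_one (n : ℕ) [NeZero n] (hn : Odd n) (h3 : 3 ≤ n) {m : ℕ} (hm : 0 < m) (hm2 : 2 * m < n) (s : ZMod n)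
    {T k : ZMod n → ℝ} (hT : ∀ i, 0 < T i) (ho : Opt (dir n) T k) (hbe : be n m s T ≠ 0) :
    br n m s T k (fun _ _ => 1) ≠ 0 := by
  have hs : Real.sin (m * dl n) ≠ 0 := (sin_pos n hm hm2).ne'
  have hq : (sv n k (th (dir n) T) s).q ≠ 0 := by
    rw [q_eq n hn h3 hm hm2 s T k]
    exact neg_ne_zero.2 (mul_ne_zero hbe hs)
  have hC := sC_pos n hn h3 hT ho s
  have h := br_eq n hn h3 hT ho s m hm hm2 (fun _ _ => 1) (fun _ _ => 0) continuous_const continuous_const 0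
    (sv n k (th (dir n) T) s) rfl hq (sC n k (th (dir n) T) s) rfl
  simp only [mul_zero, ite_self, add_zero, zero_mul] at h
  rw [h]
  have hN := Dat.N0_ne _ (sv_reg n hn h3 hT ho s hq)
  have hl : Dat.loop (sv n k (th (dir n) T) s) (sC n k (th (dir n) T) s) (fun _ _ => 1) =
      1 / sC n k (th (dir n) T) s * (sv n k (th (dir n) T) s).N 0 := by
    unfold Dat.loop Dat.N
    rw [← intervalIntegral.integral_const_mul]
    refine intervalIntegral.integral_congr fun x _ => ?_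
    have g1 := (Dat.rl_pos (sv n k (th (dir n) T) s) x).ne'
    have g2 := (Dat.ru_pos (sv n k (th (dir n) T) s) x).ne'
    have g3 := hC.ne'
    simp only [pow_zero]
    field_simp
  rw [hl]
  exact mul_ne_zero (one_div_ne_zero hs) (mul_ne_zero (one_div_ne_zero hC.ne') hN)

theorem rker_tendsto (n : ℕ) [NeZero n] (hn : Odd n) (h3 : 3 ≤ n) {m : ℕ} (hm : 0 < m) (hm2 : 2 * m < n) (s : ZMod n)
    {Ts ks : ℕ → ZMod n → ℝ} {T k : ZMod n → ℝ} (hT : ∀ i, 0 < T i)
    (ho : Opt (dir n) T k) (hal : al n m s T ≠ 0) (hbe : be n m s T ≠ 0) (h1 : Tendsto Ts atTop (𝓝 T)) (h2 : Tendsto ks atTop (𝓝 k)) :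
    Tendsto (fun j => Rker n m s (Ts j) (ks j)) atTop (𝓝 (Rker n m s T k)) := by
  have hs : Real.sin (m * dl n) ≠ 0 := (sin_pos n hm hm2).ne'
  have hAj : ∀ l, Tendsto (fun j => Aj n m s (Ts j) l) atTop (𝓝 (Aj n m s T l)) := by
    intro l
    have hc : Continuous (fun S : ZMod n → ℝ => Aj n m s S l) := by
      unfold Aj
      fun_prop
    exact (hc.tendsto T).comp h1
  have hal' : Tendsto (fun j => al n m s (Ts j)) atTop (𝓝 (al n m s T)) := by
    have hc : Continuous (fun S : ZMod n → ℝ => al n m s S) := by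
      unfold al
      fun_prop
    exact (hc.tendsto T).comp h1
  have hif : ∀ l, Tendsto (fun j => if m ≤ l then al n m s (Ts j) else 0) atTop (𝓝 (if m ≤ l then al n m s T else 0)) := by
    intro l
    by_cases hl : m ≤ l
    · simp only [if_pos hl]
      exact hal'
    · simp only [if_neg hl]
      exact tendsto_const_nhds
  have c0 : ∀ c : ℝ, Tendsto (fun _ : ℕ => c) atTop (𝓝 c) := fun c => tendsto_const_nhds
  have b1 := S2_br_tendsto n hn h3 m s hT ho h1 h2 (fun j l => Aj n m s (Ts j) l) (fun j l => Aj n m s (Ts j) (l + 1))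
    (fun j l => if m ≤ l then al n m s (Ts j) else 0) (fun j l => Aj n m s (Ts j) l) (fun j l => Aj n m s (Ts j) (l + 1))
    (fun j _ => Aj n m s (Ts j) m) (fun l => Aj n m s T l) (fun l => Aj n m s T (l + 1))
    (fun l => if m ≤ l then al n m s T else 0) (fun l => Aj n m s T l) (fun l => Aj n m s T (l + 1))
    (fun _ => Aj n m s T m) (fun l => hAj l) (fun l => hAj (l + 1)) hif (fun l => hAj l) (fun l => hAj (l + 1)) (fun _ => hAj m)
  have b2 := S2_br_tendsto n hn h3 m s hT ho h1 h2 (fun j l => Aj n m s (Ts j) l) (fun j l => Aj n m s (Ts j) (l + 1))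
    (fun j l => if m ≤ l then al n m s (Ts j) else 0) (fun _ _ => 1) (fun _ _ => 1)
    (fun _ _ => 0) (fun l => Aj n m s T l) (fun l => Aj n m s T (l + 1))
    (fun l => if m ≤ l then al n m s T else 0) (fun _ => 1) (fun _ => 1)
    (fun _ => 0) (fun l => hAj l) (fun l => hAj (l + 1)) hif (fun _ => c0 1) (fun _ => c0 1) (fun _ => c0 0)
  have b3 := S2_br_tendsto n hn h3 m s hT ho h1 h2 (fun _ _ => 1) (fun _ _ => 1)
    (fun _ _ => 0) (fun _ _ => 1) (fun _ _ => 1)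
    (fun _ _ => 0) (fun _ => 1) (fun _ => 1)
    (fun _ => 0) (fun _ => 1) (fun _ => 1)
    (fun _ => 0) (fun _ => c0 1) (fun _ => c0 1) (fun _ => c0 0) (fun _ => c0 1) (fun _ => c0 1) (fun _ => c0 0)
  have b4 := S2_br_tendsto n hn h3 m s hT ho h1 h2 (fun j l => Aj n m s (Ts j) l) (fun j l => Aj n m s (Ts j) (l + 1))
    (fun j _ => Aj n m s (Ts j) m) (fun _ _ => 1) (fun _ _ => 1)
    (fun _ _ => 0) (fun l => Aj n m s T l) (fun l => Aj n m s T (l + 1))
    (fun _ => Aj n m s T m) (fun _ => 1) (fun _ => 1)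
    (fun _ => 0) (fun l => hAj l) (fun l => hAj (l + 1)) (fun _ => hAj m) (fun _ => c0 1) (fun _ => c0 1) (fun _ => c0 0)
  have s1 : ∀ σ : ℝ, seg 1 1 σ - 0 = 1 := fun σ => by unfold seg; ring
  simp only [s1, mul_one] at b2 b3 b4
  have hr := rr_tendsto n hn h3 hT ho h1 h2 s m
  have hone := S2_br_one n hn h3 hm hm2 s hT ho hbe
  have q1 : Tendsto (fun j => 1 / (Real.sin (m * dl n) * rr n (Ts j) (ks j) s m)) atTop
      (𝓝 (1 / (Real.sin (m * dl n) * rr n T k s m))) :=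
    (c0 1).div (hr.1.const_mul _) (mul_ne_zero hs hr.2.ne')
  have q2 : Tendsto (fun j => - (Real.sin (m * dl n) ^ 2 / al n m s (Ts j))) atTop
      (𝓝 (- (Real.sin (m * dl n) ^ 2 / al n m s T))) :=
    ((c0 _).div hal' hal).neg
  exact q2.mul (b1.add (((q1.sub b2).div b3 hone).mul b4))

end Pool.Agent.Lib.MP_1dedaf_gt.DK
end

section

/-!
# TASK DK N3: continuity of `j` in the polygon

Proof of `dat_tendsto` (general data): `K_j.w → K.w`, `p`, `q` converge, `K_j.l → K.l`, `K_j.u → K.u` uniformly on compact sets (hypothesis: `K_j.l (x_j) → K.l x` whenever `x_j → x`; the same for `u`), all continuous. Then `rl`, `ru` have the same property, `Xl` (dominated convergence on `[0, x_j]`; write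
`∫_0^{x_j} f = x_j ∫_0^1 f (x_j t) dt`), `mu`, `mr` (`∫_{x_j}^{w_j}`), `M`, `xb`, `Xu`, `N i`, so `a = N1/N0` (limit `N0 ≠ 0`), `V`, `psi` (limit `M ≠ 0`, `q ≠ 0`), `Xi`, `Phi`, `j`. A uniform bound for the dominated convergence: a sequence of continuous functions which converges continuously on `ℝ` is bounded
uniformly on compact sets (if not, there are `x_j` in the compact set with `|f_j x_j| → ∞` along a subsequence, contradiction to continuous convergence along a convergent subsequence).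
Proof of `jcont`: `p`, `q` are continuous in `T`; `sx n (ks j) s m → sx n k s m` (`ver`, `hi` are continuous in `k`), `ln n (ks j) s i x_j → ln n k s i x`; suprema and infima of finitely many converging sequences converge (`Finset.sup'`, or `ciSup` over `Fin`; induct, or
use that `⨆` over a finite type is a continuous function of the family).
-/

set_option autoImplicit false

open MeasureTheory Set Filter Topology

namespace Pool.Agent.Lib.MP_1dedaf_gt.DK

open Pool.Agent.Lib.MP_1dedaf_gt.LB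

/-- Continuous convergence. -/
private def N3_CT (fs : ℕ → ℝ → ℝ) (f : ℝ → ℝ) : Prop :=
  ∀ x, Tendsto (fun p : ℕ × ℝ => fs p.1 p.2) (atTop ×ˢ 𝓝 x) (𝓝 (f x))

private theorem N3_of_seq {fs : ℕ → ℝ → ℝ} {f : ℝ → ℝ}
    (h : ∀ (xs : ℕ → ℝ) (x : ℝ) (φ : ℕ → ℕ), StrictMono φ → Tendsto xs atTop (𝓝 x) →
      Tendsto (fun j => fs (φ j) (xs j)) atTop (𝓝 (f x))) : N3_CT fs f := by
  intro x
  apply tendsto_of_subseq_tendsto
  intro ns hns
  have h1 : Tendsto (fun k => (ns k).1) atTop atTop := tendsto_fst.comp hns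
  obtain ⟨φ, hφ, hφ2⟩ := strictMono_subseq_of_tendsto_atTop h1
  have h2 : Tendsto (fun k => (ns (φ k)).2) atTop (𝓝 x) :=
    (tendsto_snd.comp hns).comp hφ.tendsto_atTop
  exact ⟨φ, h (fun k => (ns (φ k)).2) x _ hφ2 h2⟩

private theorem N3_at {fs : ℕ → ℝ → ℝ} {f : ℝ → ℝ} (h : N3_CT fs f) {xs : ℕ → ℝ} {x : ℝ}
    (hx : Tendsto xs atTop (𝓝 x)) : Tendsto (fun j => fs j (xs j)) atTop (𝓝 (f x)) :=
  (h x).comp (tendsto_id.prodMk hx)

private theorem N3_unif {fs : ℕ → ℝ → ℝ} {f : ℝ → ℝ} (h : N3_CT fs f) (hf : Continuous f)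
    (R ε : ℝ) (hε : 0 < ε) : ∀ᶠ j in atTop, ∀ y ∈ Icc (-R) R, |fs j y - f y| < ε := by
  have h1 : TendstoLocallyUniformly fs f atTop := by
    rw [tendstoLocallyUniformly_iff_forall_tendsto]
    intro x
    have h2 : Tendsto (fun y : ℕ × ℝ => f y.2) (atTop ×ˢ 𝓝 x) (𝓝 (f x)) :=
      (hf.tendsto x).comp tendsto_snd
    exact (h2.prodMk_nhds (h x)).mono_right (nhds_le_uniformity (f x))
  have h2 := (tendstoLocallyUniformly_iff_forall_isCompact).mp h1 (Icc (-R) R) isCompact_Icc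
  rw [Metric.tendstoUniformlyOn_iff] at h2
  filter_upwards [h2 ε hε] with j hj y hy
  have h3 := hj y hy
  rwa [dist_comm, Real.dist_eq] at h3

private theorem N3_int {ι : Type} {L : Filter ι} {F : ι → ℝ → ℝ} {f : ℝ → ℝ}
    (hF : ∀ R ε : ℝ, 0 < ε → ∀ᶠ i in L, ∀ y ∈ Icc (-R) R, |F i y - f y| < ε)
    (hFc : ∀ i, Continuous (F i)) (hf : Continuous f) {a b : ι → ℝ} {a0 b0 : ℝ}
    (ha : Tendsto a L (𝓝 a0)) (hb : Tendsto b L (𝓝 b0)) :
    Tendsto (fun i => ∫ t in a i..b i, F i t) L (𝓝 (∫ t in a0..b0, f t)) := by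
  have e : ∀ i, ∫ t in a i..b i, F i t =
      (∫ t in a i..b i, f t) + ∫ t in a i..b i, (F i t - f t) := by
    intro i
    rw [intervalIntegral.integral_sub ((hFc i).intervalIntegrable _ _) (hf.intervalIntegrable _ _)]
    ring
  have hG : Continuous (fun x => ∫ t in (0:ℝ)..x, f t) :=
    continuous_iff_continuousAt.mpr fun x =>
      ((hf.integral_hasStrictDerivAt 0 x).hasDerivAt).continuousAt
  have e2 : ∀ a b : ℝ, ∫ t in a..b, f t = (∫ t in (0:ℝ)..b, f t) - ∫ t in (0:ℝ)..a, f t := by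
    intro a b
    rw [← intervalIntegral.integral_interval_sub_left (hf.intervalIntegrable _ _)
      (hf.intervalIntegrable _ _)]
  have h1 : Tendsto (fun i => ∫ t in a i..b i, f t) L (𝓝 (∫ t in a0..b0, f t)) := by
    rw [e2 a0 b0]
    have h2 : (fun i => ∫ t in a i..b i, f t) =
        fun i => (∫ t in (0:ℝ)..b i, f t) - ∫ t in (0:ℝ)..a i, f t := funext fun i => e2 _ _
    rw [h2]
    exact ((hG.tendsto b0).comp hb).sub ((hG.tendsto a0).comp ha)
  have h2 : Tendsto (fun i => ∫ t in a i..b i, (F i t - f t)) L (𝓝 0) := by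
    rw [Metric.tendsto_nhds]
    intro ε hε
    set R : ℝ := max |a0| |b0| + 1 with hR
    have hR0 : 0 < R := by
      have := (abs_nonneg a0).trans (le_max_left |a0| |b0|)
      linarith
    have hε' : 0 < ε / (2 * R + 1) := by positivity
    have ha1 : ∀ᶠ i in L, |a i| < R :=
      ha.abs.eventually_lt_const (by have := le_max_left |a0| |b0|; linarith)
    have hb1 : ∀ᶠ i in L, |b i| < R :=
      hb.abs.eventually_lt_const (by have := le_max_right |a0| |b0|; linarith)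
    filter_upwards [ha1, hb1, hF R _ hε'] with i hai hbi hi
    rw [Real.dist_eq, sub_zero]
    have h3 : ‖∫ t in a i..b i, (F i t - f t)‖ ≤ ε / (2 * R + 1) * |b i - a i| := by
      apply intervalIntegral.norm_integral_le_of_norm_le_const
      intro x hx
      rw [Real.norm_eq_abs]
      refine (hi x ?_).le
      rw [abs_lt] at hai hbi
      have hx' := uIoc_subset_uIcc hx
      rw [mem_uIcc] at hx'
      rcases hx' with h | h
      · exact ⟨by linarith [h.1], by linarith [h.2]⟩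
      · exact ⟨by linarith [h.1], by linarith [h.2]⟩
    rw [Real.norm_eq_abs] at h3
    have h4 : |b i - a i| ≤ 2 * R := by
      have := abs_sub (b i) (a i)
      linarith
    have h5 : ε / (2 * R + 1) * |b i - a i| ≤ ε / (2 * R + 1) * (2 * R) :=
      mul_le_mul_of_nonneg_left h4 hε'.le
    have h6 : ε / (2 * R + 1) * (2 * R) < ε := by
      rw [div_mul_eq_mul_div, div_lt_iff₀ (by positivity)]
      nlinarith
    linarith
  have h3 := h1.add h2
  rw [add_zero] at h3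
  exact h3.congr fun i => (e i).symm

private theorem N3_CTint {fs : ℕ → ℝ → ℝ} {f : ℝ → ℝ} (h : N3_CT fs f)
    (hc : ∀ j, Continuous (fs j)) (hf : Continuous f) {ι : Type} {L : Filter ι} {n : ι → ℕ}
    (hn : Tendsto n L atTop) {a b : ι → ℝ} {a0 b0 : ℝ} (ha : Tendsto a L (𝓝 a0))
    (hb : Tendsto b L (𝓝 b0)) :
    Tendsto (fun i => ∫ t in a i..b i, fs (n i) t) L (𝓝 (∫ t in a0..b0, f t)) :=
  N3_int (F := fun i => fs (n i)) (fun R ε hε => hn.eventually (N3_unif h hf R ε hε))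
    (fun i => hc (n i)) hf ha hb

theorem dat_tendsto (Ks : ℕ → Dat) (K : Dat) (hK : K.Reg) (hc : ∀ j, Continuous (Ks j).l ∧ Continuous (Ks j).u) (hp : Tendsto (fun j => (Ks j).p) atTop (𝓝 K.p))
    (hq : Tendsto (fun j => (Ks j).q) atTop (𝓝 K.q)) (hw : Tendsto (fun j => (Ks j).w) atTop (𝓝 K.w))
    (hl : ∀ (xs : ℕ → ℝ) (x : ℝ) (φ : ℕ → ℕ), StrictMono φ → Tendsto xs atTop (𝓝 x) → Tendsto (fun j => (Ks (φ j)).l (xs j)) atTop (𝓝 (K.l x)))
    (hu : ∀ (xs : ℕ → ℝ) (x : ℝ) (φ : ℕ → ℕ), StrictMono φ → Tendsto xs atTop (𝓝 x) → Tendsto (fun j => (Ks (φ j)).u (xs j)) atTop (𝓝 (K.u x)))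
    (xs : ℕ → ℝ) (x : ℝ) (hx : Tendsto xs atTop (𝓝 x)) (k : ℝ) :
    Tendsto (fun j => (Ks j).j (xs j) k) atTop (𝓝 (K.j x k)) := by
  have cl : N3_CT (fun j => (Ks j).l) K.l := N3_of_seq hl
  have cu : N3_CT (fun j => (Ks j).u) K.u := N3_of_seq hu
  have tp : ∀ x : ℝ, Tendsto (fun p : ℕ × ℝ => (Ks p.1).p) (atTop ×ˢ 𝓝 x) (𝓝 K.p) :=
    fun x => hp.comp tendsto_fst
  have tq : ∀ x : ℝ, Tendsto (fun p : ℕ × ℝ => (Ks p.1).q) (atTop ×ˢ 𝓝 x) (𝓝 K.q) :=
    fun x => hq.comp tendsto_fst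
  have tw : ∀ x : ℝ, Tendsto (fun p : ℕ × ℝ => (Ks p.1).w) (atTop ×ˢ 𝓝 x) (𝓝 K.w) :=
    fun x => hw.comp tendsto_fst
  have tx : ∀ x : ℝ, Tendsto (fun p : ℕ × ℝ => p.2) (atTop ×ˢ 𝓝 x) (𝓝 x) :=
    fun x => tendsto_snd
  have crl : N3_CT (fun j => (Ks j).rl) K.rl := fun x =>
    (Real.continuous_exp.tendsto _).comp (((tp x).mul (tx x)).add ((tq x).mul (cl x)))
  have cru : N3_CT (fun j => (Ks j).ru) K.ru := fun x =>
    (Real.continuous_exp.tendsto _).comp (((tp x).mul (tx x)).add ((tq x).mul (cu x)))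
  have cmu : N3_CT (fun j => (Ks j).mu) K.mu := fun x =>
    ((cru x).sub (crl x)).div (tq x) hK.hq
  have kl := K.rl_cont hK.cl
  have ku := K.ru_cont hK.cu
  have km := K.mu_cont hK.cl hK.cu
  have kXl := K.Xl_cont hK.cl
  have kXu := K.Xu_cont hK.cl hK.cu
  have cXl : N3_CT (fun j => (Ks j).Xl) K.Xl := fun x =>
    N3_CTint crl (fun j => (Ks j).rl_cont (hc j).1) kl tendsto_fst tendsto_const_nhds (tx x)
  have cmr : N3_CT (fun j => (Ks j).mr) K.mr := fun x =>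
    N3_CTint cmu (fun j => (Ks j).mu_cont (hc j).1 (hc j).2) km tendsto_fst (tx x) (tw x)
  have cXu : N3_CT (fun j => (Ks j).Xu) K.Xu := fun x => (cXl x).sub ((tq x).mul (cmr x))
  have tM : Tendsto (fun j => (Ks j).M) atTop (𝓝 K.M) :=
    N3_CTint cmu (fun j => (Ks j).mu_cont (hc j).1 (hc j).2) km tendsto_id tendsto_const_nhds hw
  have txb : Tendsto (fun j => (Ks j).xb) atTop (𝓝 K.xb) :=
    N3_CTint (fs := fun j x => x * (Ks j).mu x) (f := fun x => x * K.mu x)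
      (fun x => (tx x).mul (cmu x))
      (fun j => continuous_id.mul ((Ks j).mu_cont (hc j).1 (hc j).2))
      (continuous_id.mul km) tendsto_id tendsto_const_nhds hw
  have tN : ∀ i : ℕ, Tendsto (fun j => (Ks j).N i) atTop (𝓝 (K.N i)) := by
    intro i
    refine N3_CTint (fs := fun j x => (Ks j).Xl x ^ i / (Ks j).rl x - (Ks j).Xu x ^ i / (Ks j).ru x)
      (f := fun x => K.Xl x ^ i / K.rl x - K.Xu x ^ i / K.ru x) ?_ ?_ ?_ tendsto_id
      tendsto_const_nhds hw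
    · intro x
      exact (((cXl x).pow i).div (crl x) (K.rl_pos x).ne').sub
        (((cXu x).pow i).div (cru x) (K.ru_pos x).ne')
    · intro j
      exact ((((Ks j).Xl_cont (hc j).1).pow i).div ((Ks j).rl_cont (hc j).1)
        (fun x => ((Ks j).rl_pos x).ne')).sub
        ((((Ks j).Xu_cont (hc j).1 (hc j).2).pow i).div ((Ks j).ru_cont (hc j).2)
        (fun x => ((Ks j).ru_pos x).ne'))
    · exact ((kXl.pow i).div kl (fun x => (K.rl_pos x).ne')).sub
        ((kXu.pow i).div ku (fun x => (K.ru_pos x).ne'))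
  have ta : Tendsto (fun j => (Ks j).a) atTop (𝓝 K.a) :=
    (tN 1).div (tN 0) (Dat.N0_ne K hK)
  have tV : Tendsto (fun j => (Ks j).V) atTop (𝓝 K.V) := (tN 2).sub (ta.mul (tN 1))
  have tpsi : Tendsto (fun j => (Ks j).psi) atTop (𝓝 K.psi) :=
    tV.neg.div (hq.mul tM) (mul_ne_zero hK.hq (Dat.M_pos K hK).ne')
  have cXi : N3_CT (fun j => (Ks j).Xi) K.Xi := by
    intro x
    refine N3_CTint (fs := fun j t => ((Ks j).a - (Ks j).Xl t) / (Ks j).rl t)
      (f := fun t => (K.a - K.Xl t) / K.rl t) ?_ ?_ ?_ tendsto_fst tendsto_const_nhds (tx x)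
    · intro x
      exact ((ta.comp tendsto_fst).sub (cXl x)).div (crl x) (K.rl_pos x).ne'
    · intro j
      exact (continuous_const.sub ((Ks j).Xl_cont (hc j).1)).div ((Ks j).rl_cont (hc j).1)
        (fun x => ((Ks j).rl_pos x).ne')
    · exact (continuous_const.sub kXl).div kl (fun x => (K.rl_pos x).ne')
  have tPhi : Tendsto (fun j => (Ks j).Phi (xs j)) atTop (𝓝 (K.Phi x)) :=
    tpsi.sub (N3_at cXi hx)
  have t1 : Tendsto (fun j => ((Ks j).a - (Ks j).Xl (xs j)) / (Ks j).rl (xs j)) atTop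
      (𝓝 ((K.a - K.Xl x) / K.rl x)) :=
    (ta.sub (N3_at cXl hx)).div (N3_at crl hx) (K.rl_pos x).ne'
  have t2 : Tendsto (fun j => 2 * (Ks j).xb / (Ks j).M) atTop (𝓝 (2 * K.xb / K.M)) :=
    (tendsto_const_nhds.mul txb).div tM (Dat.M_pos K hK).ne'
  have t3 : Tendsto (fun j => ((Ks j).p + (Ks j).q * k) * (Ks j).Phi (xs j)) atTop
      (𝓝 ((K.p + K.q * k) * K.Phi x)) :=
    (hp.add (hq.mul tendsto_const_nhds)).mul tPhi
  exact ((((hx.sub t2).add t1).sub t3).div hq hK.hq)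

private theorem N3_ln {n : ℕ} {ks : ℕ → ZMod n → ℝ} {k : ZMod n → ℝ} (h2 : Tendsto ks atTop (𝓝 k))
    (s : ZMod n) (i : ℕ) {φ : ℕ → ℕ} (hφ : StrictMono φ) {xs : ℕ → ℝ} {x : ℝ}
    (hx : Tendsto xs atTop (𝓝 x)) :
    Tendsto (fun j => ln n (ks (φ j)) s i (xs j)) atTop (𝓝 (ln n k s i x)) := by
  have h3 := tendsto_pi_nhds.mp h2
  have h4 : ∀ r, Tendsto (fun j => ks (φ j) r) atTop (𝓝 (k r)) :=
    fun r => (h3 r).comp hφ.tendsto_atTop
  exact ((((h4 s).sub hx).mul tendsto_const_nhds).sub (h4 _)).div_const _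

private theorem N3_ver {n : ℕ} {ks : ℕ → ZMod n → ℝ} {k : ZMod n → ℝ} (h2 : Tendsto ks atTop (𝓝 k))
    (s : ZMod n) : Tendsto (fun j => ver n (ks j) s) atTop (𝓝 (ver n k s)) := by
  have h3 := tendsto_pi_nhds.mp h2
  have h4 : Tendsto (fun j => hi n (ks j) s) atTop (𝓝 (hi n k s)) :=
    ((h3 _).sub ((h3 _).mul tendsto_const_nhds)).div_const _
  exact ((h3 s).smul tendsto_const_nhds).add (h4.smul tendsto_const_nhds)

private theorem N3_sx {n : ℕ} {ks : ℕ → ZMod n → ℝ} {k : ZMod n → ℝ} (h2 : Tendsto ks atTop (𝓝 k))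
    (s : ZMod n) (m : ℕ) : Tendsto (fun j => sx n (ks j) s m) atTop (𝓝 (sx n k s m)) := by
  have h3 := tendsto_pi_nhds.mp h2
  exact (h3 s).sub ((N3_ver h2 _).inner tendsto_const_nhds)

theorem jcont (n : ℕ) [NeZero n] (hn : Odd n) (h3 : 3 ≤ n) {Ts ks : ℕ → ZMod n → ℝ} {T k : ZMod n → ℝ} (hT : ∀ i, 0 < T i)
    (hTs : ∀ j i, 0 < Ts j i) (ho : Opt (dir n) T k) (hos : ∀ j, Opt (dir n) (Ts j) (ks j)) (h1 : Tendsto Ts atTop (𝓝 T)) (h2 : Tendsto ks atTop (𝓝 k))
    (s : ZMod n) (m : ℕ) (hm : 0 < m) (hm2 : 2 * m < n) (hq : (sv n k (th (dir n) T) s).q ≠ 0) :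
    Tendsto (fun j => (sv n (ks j) (th (dir n) (Ts j)) s).j (sx n (ks j) s m) (slk n m)) atTop
      (𝓝 ((sv n k (th (dir n) T) s).j (sx n k s m) (slk n m))) := by
  have hth : Tendsto (fun j => th (dir n) (Ts j)) atTop (𝓝 (th (dir n) T)) := by
    unfold th
    refine tendsto_finsetSum _ fun i _ => ?_
    exact ((tendsto_pi_nhds.mp h1) i).smul tendsto_const_nhds
  have hh : 0 < (n - 1) / 2 := by omega
  have : Nonempty (Fin ((n - 1) / 2)) := ⟨⟨0, hh⟩⟩
  refine dat_tendsto (fun j => sv n (ks j) (th (dir n) (Ts j)) s) (sv n k (th (dir n) T) s)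
    (sv_reg n hn h3 hT ho s hq) (fun j => ⟨(sv_l_cont n hn h3 _ _ s).1, (sv_u_cont n hn h3 _ _ s).1⟩)
    ?_ ?_ ?_ ?_ ?_ (fun j => sx n (ks j) s m) (sx n k s m) (N3_sx h2 s m) (slk n m)
  · exact (hth.inner tendsto_const_nhds).neg
  · exact (hth.inner tendsto_const_nhds).neg
  · exact N3_sx h2 s _
  · intro xs x φ hφ hx
    show Tendsto (fun j => ⨆ i : Fin ((n - 1) / 2), ln n (ks (φ j)) s (i.val + 1) (xs j)) atTop
      (𝓝 (⨆ i : Fin ((n - 1) / 2), ln n k s (i.val + 1) x))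
    simp only [← Finset.sup'_univ_eq_ciSup]
    exact Tendsto.finset_sup'_nhds_apply _ fun i _ => N3_ln h2 s _ hφ hx
  · intro xs x φ hφ hx
    show Tendsto (fun j => ⨅ i : Fin ((n - 1) / 2), ln n (ks (φ j)) s ((n - 1) / 2 + 1 + i.val) (xs j)) atTop
      (𝓝 (⨅ i : Fin ((n - 1) / 2), ln n k s ((n - 1) / 2 + 1 + i.val) x))
    simp only [← Finset.inf'_univ_eq_ciInf]
    exact Tendsto.finset_inf'_nhds_apply _ fun i _ => N3_ln h2 s _ hφ hx

end Pool.Agent.Lib.MP_1dedaf_gt.DK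
end
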