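import Pool.Agent.Lib.MP_1dedaf_gt.Mg.G001
import Pool.Agent.Lib.MP_1dedaf_gt.Mg.G029

section

/-!
# TASK LB P3: differentiation of a function along an implicitly defined curve

Proof. Put `p x = (r x, x)`, `p → p x0` by continuity. From `f (p x) = 0 = f (p x0)` and Frechet differentiability:
`f'(1,0) (r x - r x0) + f'(0,1) (x - x0) = o(|r x - r x0| + |x - x0|)`. As `f'(1,0) ≠ 0` and `|r x - r x0|` can be absorbed for `x` near `x0`,
`|r x - r x0| ≤ C |x - x0|`, so `r x - r x0 = - (f'(0,1)/f'(1,0)) (x - x0) + o(x - x0)`: `HasDerivAt r (-(f'(0,1)/f'(1,0))) x0`. Chain rule for `g`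
(`HasFDerivAt.comp_hasDerivAt`, `HasDerivAt.prodMk`).
-/

set_option autoImplicit false

open MeasureTheory Set Filter Topology

namespace Pool.Agent.Lib.MP_1dedaf_gt.LB

private theorem P3_lin (h : ℝ × ℝ →L[ℝ] ℝ) (a b : ℝ) : h (a, b) = a * h (1, 0) + b * h (0, 1) := by
  have e : ((a, b) : ℝ × ℝ) = a • ((1, 0) : ℝ × ℝ) + b • ((0, 1) : ℝ × ℝ) := by
    simp
  rw [e, map_add, map_smul, map_smul, smul_eq_mul, smul_eq_mul]

private theorem P3_deriv {f : ℝ × ℝ → ℝ} {f' : ℝ × ℝ →L[ℝ] ℝ} {r : ℝ → ℝ} {x0 : ℝ}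
    (hf : HasFDerivAt f f' (r x0, x0)) (hr : ContinuousAt r x0)
    (h0 : ∀ᶠ x in 𝓝 x0, f (r x, x) = 0) (hne : f' (1, 0) ≠ 0) :
    HasDerivAt r (-(f' (0, 1) / f' (1, 0))) x0 := by
  have hp : Tendsto (fun x : ℝ => ((r x, x) : ℝ × ℝ)) (𝓝 x0) (𝓝 (r x0, x0)) :=
    hr.prodMk continuousAt_id
  have h00 : f (r x0, x0) = 0 := h0.self_of_nhds
  have h1 := hf.isLittleO.comp_tendsto hp
  have h2 : (fun x => f' (((r x, x) : ℝ × ℝ) - (r x0, x0))) =o[𝓝 x0]
      (fun x => ((r x, x) : ℝ × ℝ) - (r x0, x0)) := by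
    refine h1.neg_left.congr' ?_ (Eventually.of_forall fun x => rfl)
    filter_upwards [h0] with x hx
    simp only [Function.comp]
    rw [hx, h00]
    ring
  have h3 : (fun x => (r x - r x0) + (f' (0, 1) / f' (1, 0)) * (x - x0)) =o[𝓝 x0]
      (fun x => ((r x, x) : ℝ × ℝ) - (r x0, x0)) := by
    refine (h2.const_mul_left (f' (1, 0))⁻¹).congr_left fun x => ?_
    rw [Prod.mk_sub_mk, P3_lin f' (r x - r x0) (x - x0)]
    field_simp
  have h4 : (fun x => (((r x - r x0) + (f' (0, 1) / f' (1, 0)) * (x - x0), (0 : ℝ)) : ℝ × ℝ)) =o[𝓝 x0]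
      (fun x => ((r x, x) : ℝ × ℝ) - (r x0, x0)) :=
    h3.prod_left (Asymptotics.isLittleO_zero _ _)
  have h5 := h4.right_isBigO_sub
  have h6 : (fun x => ((r x, x) : ℝ × ℝ) - (r x0, x0) -
      (((r x - r x0) + (f' (0, 1) / f' (1, 0)) * (x - x0), (0 : ℝ)) : ℝ × ℝ)) =O[𝓝 x0]
      (fun x => x - x0) := by
    have e : (fun x => ((r x, x) : ℝ × ℝ) - (r x0, x0) -
      (((r x - r x0) + (f' (0, 1) / f' (1, 0)) * (x - x0), (0 : ℝ)) : ℝ × ℝ)) =
      fun x => ((-(f' (0, 1) / f' (1, 0)) * (x - x0), x - x0) : ℝ × ℝ) := by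
      funext x
      ext
      · simp
      · simp
    rw [e]
    exact ((Asymptotics.isBigO_refl _ _).const_mul_left _).prod_left (Asymptotics.isBigO_refl _ _)
  rw [hasDerivAt_iff_isLittleO]
  refine (h3.trans_isBigO (h5.trans h6)).congr_left fun x => ?_
  rw [smul_eq_mul]
  ring

theorem implicit_deriv {f g : ℝ × ℝ → ℝ} {f' g' : ℝ × ℝ →L[ℝ] ℝ} {r : ℝ → ℝ} {x0 : ℝ}
    (hf : HasFDerivAt f f' (r x0, x0)) (hg : HasFDerivAt g g' (r x0, x0)) (hr : ContinuousAt r x0)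
    (h0 : ∀ᶠ x in 𝓝 x0, f (r x, x) = 0) (hne : f' (1, 0) ≠ 0) :
    HasDerivAt (fun x => g (r x, x)) (g' (0, 1) - g' (1, 0) * (f' (0, 1) / f' (1, 0))) x0 := by
  have hd : HasDerivAt (fun x : ℝ => ((r x, x) : ℝ × ℝ)) (-(f' (0, 1) / f' (1, 0)), 1) x0 :=
    (P3_deriv hf hr h0 hne).prodMk (hasDerivAt_id x0)
  have h := HasFDerivAt.comp_hasDerivAt (f := fun x : ℝ => ((r x, x) : ℝ × ℝ)) x0 hg hd
  have e : g' (-(f' (0, 1) / f' (1, 0)), 1) = g' (0, 1) - g' (1, 0) * (f' (0, 1) / f' (1, 0)) := by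
    rw [P3_lin g' (-(f' (0, 1) / f' (1, 0))) 1]
    ring
  rw [← e]
  exact h

end Pool.Agent.Lib.MP_1dedaf_gt.LB
end

section

/-!
# TASK OP U2: continuity of `oI, oP, oQ, oG`

Proof. `intervalIntegral.tendsto_integral_filter_of_dominated_convergence` with constant bounds (`Real.exp H` for `e^{± φ}`). First `exp`: for `0 ≤ x ≤ y ≤ w`,
`∫ t in x..y, exp (F n t) → ∫ t in x..y, exp (f t)` and `|∫ t in x..y, exp (F n t)| ≤ w e^H`; then the integrands of `oP, oQ, oG` converge pointwise on `[0, w]` and are bounded by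
`w e^{2H}`, `w e^{2H}`, `w² e^{3H}`; they are continuous (`F n` is continuous), so measurable.
-/

set_option autoImplicit false

open MeasureTheory Set Filter Topology

namespace Pool.Agent.Lib.MP_1dedaf_gt.DK

namespace OP

variable {F : ℕ → ℝ → ℝ} {f : ℝ → ℝ} {w H : ℝ}

private theorem U2_dom {G : ℕ → ℝ → ℝ} {g : ℝ → ℝ} {a b C : ℝ} (hab : a ≤ b) (hG : ∀ n, Continuous (G n))
    (hb : ∀ n, ∀ x ∈ Icc a b, |G n x| ≤ C) (hl : ∀ x ∈ Icc a b, Tendsto (fun n => G n x) atTop (𝓝 (g x))) :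
    Tendsto (fun n => ∫ x in a..b, G n x) atTop (𝓝 (∫ x in a..b, g x)) := by
  apply intervalIntegral.tendsto_integral_filter_of_dominated_convergence (fun _ => C)
  · exact Eventually.of_forall fun n => (hG n).aestronglyMeasurable
  · exact Eventually.of_forall fun n => ae_of_all _ fun x hx => by
      rw [uIoc_of_le hab] at hx
      rw [Real.norm_eq_abs]
      exact hb n x (Ioc_subset_Icc_self hx)
  · exact intervalIntegrable_const
  · exact ae_of_all _ fun x hx => by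
      rw [uIoc_of_le hab] at hx
      exact hl x (Ioc_subset_Icc_self hx)

private theorem U2_bd {φ : ℝ → ℝ} {w H x y : ℝ} (hb : ∀ x ∈ Icc 0 w, |φ x| ≤ H) (hx : 0 ≤ x) (hxy : x ≤ y)
    (hy : y ≤ w) : |∫ t in x..y, Real.exp (φ t)| ≤ w * Real.exp H := by
  have h1 : ‖∫ t in x..y, Real.exp (φ t)‖ ≤ Real.exp H * |y - x| := by
    apply intervalIntegral.norm_integral_le_of_norm_le_const
    intro t ht
    rw [uIoc_of_le hxy] at ht
    rw [Real.norm_eq_abs, Real.abs_exp]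
    exact Real.exp_le_exp.2 ((abs_le.1 (hb t ⟨hx.trans ht.1.le, ht.2.trans hy⟩)).2)
  rw [Real.norm_eq_abs, abs_of_nonneg (sub_nonneg.2 hxy)] at h1
  have h2 : y - x ≤ w := by linarith
  calc _ ≤ Real.exp H * (y - x) := h1
    _ ≤ Real.exp H * w := mul_le_mul_of_nonneg_left h2 (Real.exp_pos H).le
    _ = w * Real.exp H := mul_comm _ _

private theorem U2_in {F : ℕ → ℝ → ℝ} {f : ℝ → ℝ} {w H x y : ℝ} (hc : ∀ n, Continuous (F n))
    (hb : ∀ n, ∀ x ∈ Icc 0 w, |F n x| ≤ H)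
    (hl : ∀ x ∈ Icc 0 w, Tendsto (fun n => F n x) atTop (𝓝 (f x))) (hx : 0 ≤ x) (hxy : x ≤ y)
    (hy : y ≤ w) : Tendsto (fun n => ∫ t in x..y, Real.exp (F n t)) atTop (𝓝 (∫ t in x..y, Real.exp (f t))) := by
  refine U2_dom (C := Real.exp H) hxy (fun n => Real.continuous_exp.comp (hc n)) (fun n t ht => ?_) (fun t ht => ?_)
  · rw [Real.abs_exp]
    exact Real.exp_le_exp.2 ((abs_le.1 (hb n t ⟨hx.trans ht.1, ht.2.trans hy⟩)).2)
  · exact (Real.continuous_exp.tendsto _).comp (hl t ⟨hx.trans ht.1, ht.2.trans hy⟩)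

private theorem U2_neg {F : ℕ → ℝ → ℝ} {f : ℝ → ℝ} {w H : ℝ}
    (hb : ∀ n, ∀ x ∈ Icc 0 w, |F n x| ≤ H)
    (hl : ∀ x ∈ Icc 0 w, Tendsto (fun n => F n x) atTop (𝓝 (f x))) (x : ℝ) (hx : x ∈ Icc 0 w) :
    Tendsto (fun n => Real.exp (-F n x)) atTop (𝓝 (Real.exp (-f x))) ∧ ∀ n, |Real.exp (-F n x)| ≤ Real.exp H := by
  refine ⟨(Real.continuous_exp.tendsto _).comp (hl x hx).neg, fun n => ?_⟩
  rw [Real.abs_exp]
  exact Real.exp_le_exp.2 (by linarith [(abs_le.1 (hb n x hx)).1])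

private theorem U2_cl {φ : ℝ → ℝ} (hφ : Continuous φ) : Continuous fun x => ∫ t in (0:ℝ)..x, Real.exp (φ t) :=
  intervalIntegral.continuous_primitive (fun _ _ => (Real.continuous_exp.comp hφ).intervalIntegrable _ _) _

private theorem U2_cr {φ : ℝ → ℝ} (hφ : Continuous φ) (w : ℝ) : Continuous fun x => ∫ t in x..w, Real.exp (φ t) := by
  have h : (fun x => ∫ t in x..w, Real.exp (φ t)) = fun x => -∫ t in w..x, Real.exp (φ t) := by
    funext x
    rw [intervalIntegral.integral_symm]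
  rw [h]
  exact (intervalIntegral.continuous_primitive (fun _ _ => (Real.continuous_exp.comp hφ).intervalIntegrable _ _) _).neg

private theorem U2_ce {φ : ℝ → ℝ} (hφ : Continuous φ) : Continuous fun x => Real.exp (-φ x) :=
  Real.continuous_exp.comp hφ.neg

theorem oI_lim (hw : 0 < w) (hc : ∀ n, Continuous (F n)) (hf : Continuous f) (hb : ∀ n, ∀ x ∈ Icc 0 w, |F n x| ≤ H)
    (hl : ∀ x ∈ Icc 0 w, Tendsto (fun n => F n x) atTop (𝓝 (f x))) : Tendsto (fun n => oI w (F n)) atTop (𝓝 (oI w f)) := by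
  unfold oI
  exact U2_dom (C := Real.exp H) hw.le (fun n => U2_ce (hc n)) (fun n x hx => (U2_neg hb hl x hx).2 n)
    (fun x hx => (U2_neg hb hl x hx).1)

theorem oP_lim (hw : 0 < w) (hc : ∀ n, Continuous (F n)) (hf : Continuous f) (hb : ∀ n, ∀ x ∈ Icc 0 w, |F n x| ≤ H)
    (hl : ∀ x ∈ Icc 0 w, Tendsto (fun n => F n x) atTop (𝓝 (f x))) : Tendsto (fun n => oP w (F n)) atTop (𝓝 (oP w f)) := by
  unfold oP
  refine U2_dom (C := (w * Real.exp H) * Real.exp H) hw.le (fun n => (U2_cl (hc n)).mul (U2_ce (hc n)))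
    (fun n x hx => ?_) (fun x hx => ?_)
  · rw [abs_mul]
    exact mul_le_mul (U2_bd (hb n) le_rfl hx.1 hx.2) ((U2_neg hb hl x hx).2 n) (abs_nonneg _) (by positivity)
  · exact (U2_in hc hb hl le_rfl hx.1 hx.2).mul (U2_neg hb hl x hx).1

theorem oQ_lim (hw : 0 < w) (hc : ∀ n, Continuous (F n)) (hf : Continuous f) (hb : ∀ n, ∀ x ∈ Icc 0 w, |F n x| ≤ H)
    (hl : ∀ x ∈ Icc 0 w, Tendsto (fun n => F n x) atTop (𝓝 (f x))) : Tendsto (fun n => oQ w (F n)) atTop (𝓝 (oQ w f)) := by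
  unfold oQ
  refine U2_dom (C := (w * Real.exp H) * Real.exp H) hw.le (fun n => (U2_cr (hc n) w).mul (U2_ce (hc n)))
    (fun n x hx => ?_) (fun x hx => ?_)
  · rw [abs_mul]
    exact mul_le_mul (U2_bd (hb n) hx.1 hx.2 le_rfl) ((U2_neg hb hl x hx).2 n) (abs_nonneg _) (by positivity)
  · exact (U2_in hc hb hl hx.1 hx.2 le_rfl).mul (U2_neg hb hl x hx).1

theorem oG_lim (hw : 0 < w) (hc : ∀ n, Continuous (F n)) (hf : Continuous f) (hb : ∀ n, ∀ x ∈ Icc 0 w, |F n x| ≤ H)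
    (hl : ∀ x ∈ Icc 0 w, Tendsto (fun n => F n x) atTop (𝓝 (f x))) : Tendsto (fun n => oG w (F n)) atTop (𝓝 (oG w f)) := by
  unfold oG
  refine U2_dom (C := (w * Real.exp H) * (w * Real.exp H) * Real.exp H) hw.le
    (fun n => ((U2_cl (hc n)).mul (U2_cr (hc n) w)).mul (U2_ce (hc n))) (fun n x hx => ?_) (fun x hx => ?_)
  · rw [abs_mul, abs_mul]
    exact mul_le_mul (mul_le_mul (U2_bd (hb n) le_rfl hx.1 hx.2) (U2_bd (hb n) hx.1 hx.2 le_rfl) (abs_nonneg _)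
      (by positivity)) ((U2_neg hb hl x hx).2 n) (abs_nonneg _) (by positivity)
  · exact ((U2_in hc hb hl le_rfl hx.1 hx.2).mul (U2_in hc hb hl hx.1 hx.2 le_rfl)).mul (U2_neg hb hl x hx).1

end OP

end Pool.Agent.Lib.MP_1dedaf_gt.DK
end
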