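import Pool.Agent.Lib.MP_1dedaf_gt.Mg.G001
import Pool.Agent.Lib.MP_1dedaf_gt.Mg.G009
import Pool.Agent.Lib.MP_1dedaf_gt.Mg.G014
import Pool.Agent.Lib.MP_1dedaf_gt.LB.A7
import Pool.Agent.Lib.MP_1dedaf_gt.Mg.G007
import Pool.Agent.Lib.MP_1dedaf_gt.Mg.G004
import Pool.Agent.Lib.MP_1dedaf_gt.Mg.G012
import Pool.Agent.Lib.MP_1dedaf_gt.Mg.G018
import Pool.Agent.Lib.MP_1dedaf_gt.Mg.G021
import Pool.Agent.Lib.MP_1dedaf_gt.LB.P4
import Pool.Agent.Lib.MP_1dedaf_gt.DK.SDefs
import Pool.Agent.Lib.MP_1dedaf_gt.DK.A2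
import Pool.Agent.Lib.MP_1dedaf_gt.DK.A3
import Pool.Agent.Lib.MP_1dedaf_gt.Mg.G013
import Pool.Agent.Lib.MP_1dedaf_gt.Mg.G019
import Pool.Agent.Lib.MP_1dedaf_gt.DK.Goals

section

/-!
# TASK LB C5: the derivative of the support numbers

Notation: `S = sin (m δ)`, `t = s + m`, `T^x = update T t x`, `α = al n m s T`, `c l = bj (l+1) T (s+l+1)` for `l + 1 ≠ m` (`T^x` has the same values there), `A l σ = seg (Aj l) (Aj (l+1)) σ`,
`A_m = Aj m`, `E = Ee n m s T`, `φ = ph n m s T`, `r x = rr n T^x (k x) s 0`, continuous at `x0` (`rr` is continuous in `T`, `k`: `Z_cont`, `Z > 0`). The densities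
`r + E l σ + φ l σ x` are positive at `(r x0, x0)` (`seg_upd`, convex combinations of the positive `rr`). Define
`f (r,x) = ∑_{l+1≠m} c_l ∫_0^1 1/(r + E l + φ l x) + x ∫_0^1 1/(r + E_{m-1} + φ_{m-1} x)`, `g (r,x) = ∑_{l+1 ≠ m} c_l ∫_0^1 (A l σ - A_m)/(r + E l + φ l x)`. `pair_upd`:
`f (r x, x) = 0` for `x > 0` and `α k_s = 1 - S g (r x, x)`. `param_deriv` gives the Frechet derivatives at `(r x0, x0)`: with `<.>` = `br n m s T^{x0} (k x0)`
(whose weight of the edge `t` is `bj m x0 = x0`) `f'(1,0) = - <1>` (`≠ 0` by `pair_sq` and `hbe`), `g'(1,0) = - <At>`, `g'(0,1) = - S <af * At>` (`φ l = S af l` for `l + 1 ≠ m`; on `t`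
`At = 0` as `Aj (m-1) = Aj m = A_m`) and
`f'(0,1) = - S <af> + 1/ρ_m`: for the edge `t` (`l = m - 1`, `φ = S (A_m - α σ)`): `∫_0^1 1/ρ dσ - x ∫_0^1 S (A_m - α σ)/ρ² dσ = 1/ρ_m - x ∫_0^1 S A_m /ρ²`, because
`d/dσ (σ/ρ) = 1/ρ + S α x σ/ρ²` on `t` (there `dρ/dσ = - S α x`) and `ρ = ρ_m = rr m` at `σ = 1`.
`implicit_deriv`: `d/dx (α k_s) = - S (g'(0,1) - g'(1,0) f'(0,1)/f'(1,0)) = - S (- S <af At> - (-<At>) (1/ρ_m - S <af>)/(- <1>)) = S² (<af At> + y <At>)`,
`y = (1/(S ρ_m) - <af>)/<1>`. Divide by `α`. (`al`, `Aj`, `rr m` for `T^{x0}`: `al_upd`, `Aj_upd`.)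
-/

set_option autoImplicit false

open MeasureTheory Set Filter Topology

namespace Pool.Agent.Lib.MP_1dedaf_gt.LB

private theorem C5_seg_pos {a b σ : ℝ} (ha : 0 < a) (hb : 0 < b) (h : σ ∈ Icc (0:ℝ) 1) : 0 < seg a b σ := by
  unfold seg
  have h1 : a + σ * (b - a) = (1 - σ) * a + σ * b := by ring
  rw [h1]
  rcases h.1.eq_or_lt with h2 | h2
  · rw [← h2]
    linarith
  · have h3 : 0 < σ * b := mul_pos h2 hb
    have h4 : 0 ≤ (1 - σ) * a := mul_nonneg (by linarith [h.2]) ha.le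
    linarith

private theorem C5_ftc {a b : ℝ} (ha : 0 < a) (hb : 0 < b) :
    (∫ σ in (0:ℝ)..1, 1 / seg a b σ) + (a - b) * ∫ σ in (0:ℝ)..1, σ / seg a b σ ^ 2 = 1 / b := by
  have hc : Continuous (seg a b) := by
    unfold seg
    fun_prop
  have hne : ∀ σ ∈ uIcc (0:ℝ) 1, seg a b σ ≠ 0 := by
    intro σ hσ
    rw [uIcc_of_le zero_le_one] at hσ
    exact (C5_seg_pos ha hb hσ).ne'
  have hd : ∀ σ ∈ uIcc (0:ℝ) 1, HasDerivAt (fun σ => σ / seg a b σ)
      (1 / seg a b σ + (a - b) * (σ / seg a b σ ^ 2)) σ := by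
    intro σ hσ
    have h0 := hne σ hσ
    have h1 : HasDerivAt (seg a b) (b - a) σ := by
      have h2 := ((hasDerivAt_id σ).mul_const (b - a)).const_add a
      rw [one_mul] at h2
      exact h2
    have h3 := (hasDerivAt_id σ).div h1 h0
    refine h3.congr_deriv ?_
    simp only [id]
    field_simp
    ring
  have hi1 : IntervalIntegrable (fun σ => 1 / seg a b σ) volume 0 1 :=
    (continuousOn_const.div hc.continuousOn hne).intervalIntegrable
  have hi2 : IntervalIntegrable (fun σ => σ / seg a b σ ^ 2) volume 0 1 :=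
    (continuousOn_id.div (hc.continuousOn.pow 2) fun σ hσ => pow_ne_zero 2 (hne σ hσ)).intervalIntegrable
  have h1 := intervalIntegral.integral_eq_sub_of_hasDerivAt hd (hi1.add (hi2.const_mul (a - b)))
  rw [intervalIntegral.integral_add hi1 (hi2.const_mul (a - b)), intervalIntegral.integral_const_mul] at h1
  rw [h1]
  have h2 : seg a b 1 = b := by unfold seg; ring
  rw [h2, zero_div, sub_zero]

private theorem C5_rr_cont (n : ℕ) [NeZero n] (hn : Odd n) (h3 : 3 ≤ n) (m : ℕ) (s : ZMod n) (T : ZMod n → ℝ)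
    (k : ℝ → ZMod n → ℝ) {x0 : ℝ} (hc : ContinuousAt k x0) (hf : Fat (dir n) (k x0)) (l : ℕ) :
    ContinuousAt (fun x => rr n (Function.update T (s + (m : ℕ)) x) (k x) s l) x0 := by
  have hu := dir_adm n hn h3
  have hT : Continuous (fun x : ℝ => Function.update T (s + (m : ℕ)) x) :=
    continuous_const.update _ continuous_id
  have hth : Continuous (fun x : ℝ => th (dir n) (Function.update T (s + (m : ℕ)) x)) := by
    unfold th
    exact continuous_finset_sum _ fun i _ => ((continuous_apply i).comp hT).smul continuous_const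
  have hk : ∀ i, ContinuousAt (fun x => k x i) x0 := fun i => (continuous_apply i).continuousAt.comp hc
  have hver : ContinuousAt (fun x => ver n (k x) (s + (l : ℕ))) x0 := by
    unfold ver hi
    exact ((hk _).smul continuousAt_const).add
      ((((hk _).sub ((hk _).mul continuousAt_const)).div_const _).smul continuousAt_const)
  have hZ : ContinuousAt (fun x => Z (dir n) (k x) (th (dir n) (Function.update T (s + (m : ℕ)) x))) x0 :=
    (Z_cont hu).continuousAt.comp (f := fun x : ℝ => (k x, th (dir n) (Function.update T (s + (m : ℕ)) x)))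
      (hc.prodMk hth.continuousAt)
  unfold rr rh
  refine ContinuousAt.div ?_ hZ (Z_pos hu hf _).ne'
  exact Real.continuous_exp.continuousAt.comp (hth.continuousAt.inner hver)

theorem ks_deriv (n : ℕ) [NeZero n] (hn : Odd n) (h3 : 3 ≤ n) {m : ℕ} (hm : 0 < m) (hm2 : 2 * m < n) (s : ZMod n)
    {T : ZMod n → ℝ} (hT : ∀ i, 0 < T i) (k : ℝ → ZMod n → ℝ)
    (ho : ∀ x, 0 < x → Opt (dir n) (Function.update T (s + (m : ℕ)) x) (k x)) {x0 : ℝ} (hx0 : 0 < x0) (hc : ContinuousAt k x0)
    (hal : al n m s (Function.update T (s + (m : ℕ)) x0) ≠ 0) (hbe : be n m s (Function.update T (s + (m : ℕ)) x0) ≠ 0) :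
    HasDerivAt (fun x => k x s) (- Rker n m s (Function.update T (s + (m : ℕ)) x0) (k x0)) x0 := by
  have hu := dir_adm n hn h3
  have hmn : m < n := by omega
  have hS := sin_pos n hm hm2
  obtain ⟨-, ha2, -, hb2⟩ := aj_zero n hm hm2
  have hal1 := al_upd n hm hm2 s T x0
  have hal0 : al n m s T ≠ 0 := by rw [← hal1]; exact hal
  have hfat := (ho x0 hx0).fat
  have hrr : ∀ l, 0 < rr n (Function.update T (s + (m : ℕ)) x0) (k x0) s l := fun l => rh_pos n hn h3 hfat _
  have hT0 : ∀ i, 0 < Function.update T (s + (m : ℕ)) x0 i := by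
    intro i
    by_cases h : i = s + (m : ℕ)
    · rw [h, Function.update_self]
      exact hx0
    · rw [Function.update_of_ne h]
      exact hT i
  have hrc := C5_rr_cont n hn h3 m s T k hc hfat 0
  have hAj : ∀ l, l < n → Aj n m s (Function.update T (s + (m : ℕ)) x0) l = Aj n m s T l :=
    fun l hl => Aj_upd n hm hm2 s T x0 hl
  have hseg := fun (l : ℕ) (hl : l + 1 < n) (σ : ℝ) => seg_upd n hn h3 hm hm2 s hT hx0 (ho x0 hx0) hl σ
  have hupd := fun (l : ℕ) (hl : l + 1 < n) => upd_T n m hmn s T x0 (j := l + 1) hl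
  have hpair := fun (x : ℝ) (hx : 0 < x) => pair_upd n hn h3 hm hm2 s hT hx (ho x hx) rfl
  obtain ⟨N0, hN0, hsq⟩ := pair_sq n hn h3 hm hm2 s hT0 (ho x0 hx0)
  have hrho := fun l => pair_rho n hn h3 hm hm2 s hT0 (ho x0 hx0) l
  -- the edge t
  have hAm : ∀ l, l + 1 = m → Aj n m s T (l + 1) = Aj n m s T l := by
    intro l hl
    unfold Aj
    rw [Finset.sum_range_succ, hl, ha2, zero_mul, add_zero]
  have hdiff : ∀ l, l + 1 = m → rr n (Function.update T (s + (m : ℕ)) x0) (k x0) s l -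
      rr n (Function.update T (s + (m : ℕ)) x0) (k x0) s (l + 1) = Real.sin (m * dl n) * al n m s T * x0 := by
    intro l hl
    have e1 : Bj n m s (Function.update T (s + (m : ℕ)) x0) (l + 1) =
        Bj n m s (Function.update T (s + (m : ℕ)) x0) l + x0 := by
      unfold Bj
      rw [Finset.sum_range_succ, hupd l (by omega), if_pos hl, hl, hb2, one_mul]
    rw [hrho (l + 1), hrho l, e1, hal1, hAj (l + 1) (by omega), hAj l (by omega), hAm l hl]
    ring
  generalize hT' : Function.update T (s + (m : ℕ)) x0 = T0 at *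
  generalize hk' : k x0 = k0 at *
  obtain ⟨r, hr⟩ : ∃ r : ℝ → ℝ, r = fun x => rr n (Function.update T (s + (m : ℕ)) x) (k x) s 0 := ⟨_, rfl⟩
  have hr0 : r x0 = rr n T0 k0 s 0 := by
    rw [hr]
    show rr n (Function.update T (s + (m : ℕ)) x0) (k x0) s 0 = _
    rw [hT', hk']
  rw [← hr] at hrc
  have hcE : ∀ l, Continuous (fun σ => Ee n m s T l σ) := by
    intro l
    unfold Ee seg
    fun_prop
  have hcP : ∀ l, Continuous (fun σ => ph n m s T l σ) := by
    intro l
    unfold ph seg chi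
    split_ifs <;> fun_prop
  have hseg' : ∀ l, l + 1 < n → ∀ σ, seg (rr n T0 k0 s l) (rr n T0 k0 s (l + 1)) σ =
      r x0 + Ee n m s T l σ + ph n m s T l σ * x0 := by
    intro l hl σ
    rw [hseg l hl σ, hr0]
  have hden : ∀ l, l + 1 < n → ∀ σ ∈ Icc (0:ℝ) 1, 0 < r x0 + Ee n m s T l σ + ph n m s T l σ * x0 := by
    intro l hl σ hσ
    rw [← hseg' l hl σ]
    exact C5_seg_pos (hrr _) (hrr _) hσ
  -- the derivatives of the integrals
  have hex1 : ∀ l ∈ Finset.range (n - 1), ∃ D : ℝ × ℝ →L[ℝ] ℝ,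
      HasFDerivAt (fun p : ℝ × ℝ => ∫ σ in (0:ℝ)..1, 1 / (p.1 + Ee n m s T l σ + ph n m s T l σ * p.2)) D (r x0, x0) ∧
      D (1, 0) = - ∫ σ in (0:ℝ)..1, 1 / (r x0 + Ee n m s T l σ + ph n m s T l σ * x0) ^ 2 ∧
      D (0, 1) = - ∫ σ in (0:ℝ)..1, 1 * ph n m s T l σ / (r x0 + Ee n m s T l σ + ph n m s T l σ * x0) ^ 2 := by
    intro l hl
    rw [Finset.mem_range] at hl
    exact param_deriv (w := fun _ => 1) continuousOn_const (hcE l).continuousOn (hcP l).continuousOn
      (hden l (by omega))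
  have hex2 : ∀ l ∈ Finset.range (n - 1), ∃ D : ℝ × ℝ →L[ℝ] ℝ,
      HasFDerivAt (fun p : ℝ × ℝ => ∫ σ in (0:ℝ)..1, (seg (Aj n m s T l) (Aj n m s T (l + 1)) σ - Aj n m s T m) /
        (p.1 + Ee n m s T l σ + ph n m s T l σ * p.2)) D (r x0, x0) ∧
      D (1, 0) = - ∫ σ in (0:ℝ)..1, (seg (Aj n m s T l) (Aj n m s T (l + 1)) σ - Aj n m s T m) /
        (r x0 + Ee n m s T l σ + ph n m s T l σ * x0) ^ 2 ∧
      D (0, 1) = - ∫ σ in (0:ℝ)..1, (seg (Aj n m s T l) (Aj n m s T (l + 1)) σ - Aj n m s T m) *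
        ph n m s T l σ / (r x0 + Ee n m s T l σ + ph n m s T l σ * x0) ^ 2 := by
    intro l hl
    rw [Finset.mem_range] at hl
    have hw : Continuous fun σ => seg (Aj n m s T l) (Aj n m s T (l + 1)) σ - Aj n m s T m := by
      unfold seg
      fun_prop
    exact param_deriv (w := fun σ => seg (Aj n m s T l) (Aj n m s T (l + 1)) σ - Aj n m s T m)
      hw.continuousOn (hcE l).continuousOn (hcP l).continuousOn (hden l (by omega))
  choose! D1 hD1 using hex1
  choose! D2 hD2 using hex2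
  -- the two functions
  obtain ⟨c, hcdef⟩ : ∃ c : ℕ → ℝ, c = fun l => bj n m (l + 1) * T (s + ((l + 1 : ℕ) : ZMod n)) := ⟨_, rfl⟩
  have hf : HasFDerivAt (fun p : ℝ × ℝ => ∑ l ∈ Finset.range (n - 1), (if l + 1 = m then p.2 else c l) *
      ∫ σ in (0:ℝ)..1, 1 / (p.1 + Ee n m s T l σ + ph n m s T l σ * p.2))
      (∑ l ∈ Finset.range (n - 1), ((if l + 1 = m then x0 else c l) • D1 l +
        (∫ σ in (0:ℝ)..1, 1 / (r x0 + Ee n m s T l σ + ph n m s T l σ * x0)) •
          (if l + 1 = m then ContinuousLinearMap.snd ℝ ℝ ℝ else 0))) (r x0, x0) := by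
    refine HasFDerivAt.fun_sum fun l hl => ?_
    have h1 : HasFDerivAt (fun p : ℝ × ℝ => if l + 1 = m then p.2 else c l)
        (if l + 1 = m then ContinuousLinearMap.snd ℝ ℝ ℝ else 0) (r x0, x0) := by
      by_cases h : l + 1 = m
      · simp only [if_pos h]
        exact hasFDerivAt_snd
      · simp only [if_neg h]
        exact hasFDerivAt_const _ _
    exact h1.mul (hD1 l hl).1
  have hg : HasFDerivAt (fun p : ℝ × ℝ => ∑ l ∈ Finset.range (n - 1), (if l + 1 = m then 0 else c l) *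
      ∫ σ in (0:ℝ)..1, (seg (Aj n m s T l) (Aj n m s T (l + 1)) σ - Aj n m s T m) /
        (p.1 + Ee n m s T l σ + ph n m s T l σ * p.2))
      (∑ l ∈ Finset.range (n - 1), (if l + 1 = m then 0 else c l) • D2 l) (r x0, x0) :=
    HasFDerivAt.fun_sum fun l hl => (hD2 l hl).1.const_mul _
  -- the brackets
  have hbr : ∀ G : ℕ → ℝ → ℝ, br n m s T0 k0 G = ∑ l ∈ Finset.range (n - 1), (if l + 1 = m then x0 else c l) *
      ∫ σ in (0:ℝ)..1, G l σ / (r x0 + Ee n m s T l σ + ph n m s T l σ * x0) ^ 2 := by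
    intro G
    unfold br
    refine Finset.sum_congr rfl fun l hl => ?_
    rw [Finset.mem_range] at hl
    have e1 : bj n m (l + 1) * T0 (s + ((l + 1 : ℕ) : ZMod n)) = if l + 1 = m then x0 else c l := by
      rw [hupd l (by omega), hcdef]
      split_ifs with h
      · rw [h, hb2, one_mul]
      · rfl
    have e2 : (fun σ => G l σ / seg (rr n T0 k0 s l) (rr n T0 k0 s (l + 1)) σ ^ 2) =
        fun σ => G l σ / (r x0 + Ee n m s T l σ + ph n m s T l σ * x0) ^ 2 :=
      funext fun σ => by rw [hseg' l (by omega) σ]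
    rw [e1, e2]
  have hone : br n m s T0 k0 (fun _ _ => 1) ≠ 0 := by
    have e1 : br n m s T0 k0 (fun _ _ => 1) = - (N0 * be n m s T0) := hsq
    rw [e1]
    exact neg_ne_zero.2 (mul_ne_zero hN0.ne' hbe)
  have hAt : ∀ l, l + 1 < n → ∀ σ, At n m s T0 l σ = seg (Aj n m s T l) (Aj n m s T (l + 1)) σ - Aj n m s T m := by
    intro l hl σ
    unfold At
    rw [hAj l (by omega), hAj (l + 1) hl, hAj m hmn]
  have hAt0 : ∀ l, l + 1 = m → ∀ σ, seg (Aj n m s T l) (Aj n m s T (l + 1)) σ - Aj n m s T m = 0 := by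
    intro l hl σ
    have e : Aj n m s T m = Aj n m s T l := by
      have e1 := hAm l hl
      rwa [hl] at e1
    rw [hAm l hl, e]
    unfold seg
    ring
  have hph : ∀ l, l + 1 < n → l + 1 ≠ m → ∀ σ, ph n m s T l σ = Real.sin (m * dl n) * af n m s T0 l σ := by
    intro l hl hlm σ
    unfold ph af chi
    rw [hAj l (by omega), hAj (l + 1) hl, hal1]
    by_cases h : l + 1 < m
    · rw [if_pos h, if_neg (by omega)]
      ring
    · rw [if_neg h, if_neg hlm, if_pos (by omega)]
      ring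
  -- the values
  have f10 : (∑ l ∈ Finset.range (n - 1), ((if l + 1 = m then x0 else c l) • D1 l +
        (∫ σ in (0:ℝ)..1, 1 / (r x0 + Ee n m s T l σ + ph n m s T l σ * x0)) •
          (if l + 1 = m then ContinuousLinearMap.snd ℝ ℝ ℝ else 0))) (1, 0) = - br n m s T0 k0 (fun _ _ => 1) := by
    rw [hbr, ContinuousLinearMap.sum_apply, ← Finset.sum_neg_distrib]
    refine Finset.sum_congr rfl fun l hl => ?_
    have e1 : (if l + 1 = m then ContinuousLinearMap.snd ℝ ℝ ℝ else 0) ((1:ℝ), (0:ℝ)) = 0 := by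
      split_ifs <;> simp
    rw [ContinuousLinearMap.add_apply, ContinuousLinearMap.smul_apply, ContinuousLinearMap.smul_apply, e1,
      (hD1 l hl).2.1, smul_zero, add_zero, smul_eq_mul, mul_neg]
  have f01 : (∑ l ∈ Finset.range (n - 1), ((if l + 1 = m then x0 else c l) • D1 l +
        (∫ σ in (0:ℝ)..1, 1 / (r x0 + Ee n m s T l σ + ph n m s T l σ * x0)) •
          (if l + 1 = m then ContinuousLinearMap.snd ℝ ℝ ℝ else 0))) (0, 1) =
        - Real.sin (m * dl n) * br n m s T0 k0 (af n m s T0) + 1 / rr n T0 k0 s m := by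
    have e0 : (1 / rr n T0 k0 s m) = ∑ l ∈ Finset.range (n - 1), if l = m - 1 then 1 / rr n T0 k0 s m else 0 := by
      rw [Finset.sum_ite_eq', if_pos (Finset.mem_range.2 (by omega))]
    rw [hbr, ContinuousLinearMap.sum_apply, e0, Finset.mul_sum, ← Finset.sum_add_distrib]
    refine Finset.sum_congr rfl fun l hl => ?_
    have hl' : l + 1 < n := by
      rw [Finset.mem_range] at hl
      omega
    rw [ContinuousLinearMap.add_apply, ContinuousLinearMap.smul_apply, ContinuousLinearMap.smul_apply,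
      (hD1 l hl).2.2, smul_eq_mul, smul_eq_mul]
    by_cases h : l + 1 = m
    · rw [if_pos h, if_pos h, if_pos (show l = m - 1 by omega)]
      have e1 : (ContinuousLinearMap.snd ℝ ℝ ℝ) ((0:ℝ), (1:ℝ)) = 1 := rfl
      rw [e1, mul_one]
      have e2 := C5_ftc (hrr l) (hrr (l + 1))
      rw [hdiff l h] at e2
      have e3 : (fun σ => 1 / seg (rr n T0 k0 s l) (rr n T0 k0 s (l + 1)) σ) =
          fun σ => 1 / (r x0 + Ee n m s T l σ + ph n m s T l σ * x0) :=
        funext fun σ => by rw [hseg' l hl' σ]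
      have e4 : (fun σ => σ / seg (rr n T0 k0 s l) (rr n T0 k0 s (l + 1)) σ ^ 2) =
          fun σ => σ / (r x0 + Ee n m s T l σ + ph n m s T l σ * x0) ^ 2 :=
        funext fun σ => by rw [hseg' l hl' σ]
      rw [e3, e4] at e2
      have hrm : rr n T0 k0 s (l + 1) = rr n T0 k0 s m := by rw [h]
      rw [hrm] at e2
      rw [← e2]
      have hcρ : Continuous fun σ => r x0 + Ee n m s T l σ + ph n m s T l σ * x0 :=
        (continuous_const.add (hcE l)).add ((hcP l).mul continuous_const)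
      have hne : ∀ σ ∈ uIcc (0:ℝ) 1, (r x0 + Ee n m s T l σ + ph n m s T l σ * x0) ^ 2 ≠ 0 := by
        intro σ hσ
        rw [uIcc_of_le zero_le_one] at hσ
        exact pow_ne_zero 2 (hden l hl' σ hσ).ne'
      have i1 : IntervalIntegrable (fun σ => 1 / (r x0 + Ee n m s T l σ + ph n m s T l σ * x0) ^ 2) volume 0 1 :=
        (continuousOn_const.div (hcρ.continuousOn.pow 2) hne).intervalIntegrable
      have i2 : IntervalIntegrable (fun σ => σ / (r x0 + Ee n m s T l σ + ph n m s T l σ * x0) ^ 2) volume 0 1 :=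
        (continuousOn_id.div (hcρ.continuousOn.pow 2) hne).intervalIntegrable
      have e5 : (fun σ => 1 * ph n m s T l σ / (r x0 + Ee n m s T l σ + ph n m s T l σ * x0) ^ 2) =
          fun σ => Real.sin (m * dl n) * Aj n m s T l * (1 / (r x0 + Ee n m s T l σ + ph n m s T l σ * x0) ^ 2) -
            Real.sin (m * dl n) * al n m s T * (σ / (r x0 + Ee n m s T l σ + ph n m s T l σ * x0) ^ 2) := by
        funext σ
        have e6 : ph n m s T l σ = Real.sin (m * dl n) * Aj n m s T l - Real.sin (m * dl n) * al n m s T * σ := by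
          unfold ph chi
          rw [if_neg (by omega), if_pos h, hAm l h]
          unfold seg
          ring
        have e7 : 1 * ph n m s T l σ / (r x0 + Ee n m s T l σ + ph n m s T l σ * x0) ^ 2 =
            (Real.sin (m * dl n) * Aj n m s T l - Real.sin (m * dl n) * al n m s T * σ) /
              (r x0 + Ee n m s T l σ + ph n m s T l σ * x0) ^ 2 := by
          rw [one_mul]
          congr 1
        rw [e7]
        ring
      have e8 : (fun σ => af n m s T0 l σ / (r x0 + Ee n m s T l σ + ph n m s T l σ * x0) ^ 2) =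
          fun σ => Aj n m s T l * (1 / (r x0 + Ee n m s T l σ + ph n m s T l σ * x0) ^ 2) := by
        funext σ
        have e9 : af n m s T0 l σ = Aj n m s T l := by
          unfold af
          rw [hAj l (by omega), hAj (l + 1) hl', hAm l h, if_neg (by omega)]
          unfold seg
          ring
        rw [e9]
        ring
      rw [e5, e8, intervalIntegral.integral_sub (i1.const_mul _) (i2.const_mul _),
        intervalIntegral.integral_const_mul, intervalIntegral.integral_const_mul,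
        intervalIntegral.integral_const_mul]
      ring
    · rw [if_neg h, if_neg h, if_neg (show ¬ l = m - 1 by omega)]
      have e1 : (0 : ℝ × ℝ →L[ℝ] ℝ) ((0:ℝ), (1:ℝ)) = 0 := rfl
      have e5 : (fun σ => 1 * ph n m s T l σ / (r x0 + Ee n m s T l σ + ph n m s T l σ * x0) ^ 2) =
          fun σ => Real.sin (m * dl n) * (af n m s T0 l σ / (r x0 + Ee n m s T l σ + ph n m s T l σ * x0) ^ 2) := by
        funext σ
        rw [one_mul, ← mul_div_assoc, ← hph l hl' h σ]
      rw [e1, e5, intervalIntegral.integral_const_mul]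
      ring
  have g10 : (∑ l ∈ Finset.range (n - 1), (if l + 1 = m then 0 else c l) • D2 l) (1, 0) =
      - br n m s T0 k0 (At n m s T0) := by
    rw [hbr, ContinuousLinearMap.sum_apply, ← Finset.sum_neg_distrib]
    refine Finset.sum_congr rfl fun l hl => ?_
    have hl' : l + 1 < n := by
      rw [Finset.mem_range] at hl
      omega
    rw [ContinuousLinearMap.smul_apply, (hD2 l hl).2.1, smul_eq_mul]
    have e1 : (fun σ => At n m s T0 l σ / (r x0 + Ee n m s T l σ + ph n m s T l σ * x0) ^ 2) =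
        fun σ => (seg (Aj n m s T l) (Aj n m s T (l + 1)) σ - Aj n m s T m) /
          (r x0 + Ee n m s T l σ + ph n m s T l σ * x0) ^ 2 :=
      funext fun σ => by rw [hAt l hl' σ]
    rw [e1]
    by_cases h : l + 1 = m
    · have e2 : (fun σ => (seg (Aj n m s T l) (Aj n m s T (l + 1)) σ - Aj n m s T m) /
          (r x0 + Ee n m s T l σ + ph n m s T l σ * x0) ^ 2) = fun _ => (0:ℝ) :=
        funext fun σ => by rw [hAt0 l h σ, zero_div]
      rw [e2, intervalIntegral.integral_zero]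
      simp
    · rw [if_neg h, if_neg h, mul_neg]
  have g01 : (∑ l ∈ Finset.range (n - 1), (if l + 1 = m then 0 else c l) • D2 l) (0, 1) =
      - Real.sin (m * dl n) * br n m s T0 k0 (fun l σ => af n m s T0 l σ * At n m s T0 l σ) := by
    rw [hbr, ContinuousLinearMap.sum_apply, Finset.mul_sum]
    refine Finset.sum_congr rfl fun l hl => ?_
    have hl' : l + 1 < n := by
      rw [Finset.mem_range] at hl
      omega
    rw [ContinuousLinearMap.smul_apply, (hD2 l hl).2.2, smul_eq_mul]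
    by_cases h : l + 1 = m
    · have e2 : (fun σ => af n m s T0 l σ * At n m s T0 l σ /
          (r x0 + Ee n m s T l σ + ph n m s T l σ * x0) ^ 2) = fun _ => (0:ℝ) :=
        funext fun σ => by rw [hAt l hl' σ, hAt0 l h σ, mul_zero, zero_div]
      rw [if_pos h, e2, intervalIntegral.integral_zero]
      ring
    · have e1 : (fun σ => (seg (Aj n m s T l) (Aj n m s T (l + 1)) σ - Aj n m s T m) * ph n m s T l σ /
          (r x0 + Ee n m s T l σ + ph n m s T l σ * x0) ^ 2) =
          fun σ => Real.sin (m * dl n) * (af n m s T0 l σ * At n m s T0 l σ /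
            (r x0 + Ee n m s T l σ + ph n m s T l σ * x0) ^ 2) := by
        funext σ
        rw [← hAt l hl' σ]
        have e7 : At n m s T0 l σ * ph n m s T l σ / (r x0 + Ee n m s T l σ + ph n m s T l σ * x0) ^ 2 =
            At n m s T0 l σ * (Real.sin (m * dl n) * af n m s T0 l σ) /
              (r x0 + Ee n m s T l σ + ph n m s T l σ * x0) ^ 2 := by
          congr 2
          exact hph l hl' h σ
        rw [e7]
        ring
      rw [e1, intervalIntegral.integral_const_mul, if_neg h, if_neg h]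
      ring
  -- the curve
  have hev : ∀ᶠ x in 𝓝 x0, 0 < x := lt_mem_nhds hx0
  have hcurve := implicit_deriv hf hg hrc
    (by
      filter_upwards [hev] with x hx
      have e1 := (hpair x hx).1
      rw [hr, hcdef]
      exact e1)
    (by rw [f10]; exact neg_ne_zero.2 hone)
  rw [f10, f01, g10, g01] at hcurve
  have hfin := ((hasDerivAt_const x0 (1:ℝ)).sub (hcurve.const_mul (Real.sin (m * dl n)))).div_const (al n m s T)
  refine (hfin.congr_of_eventuallyEq ?_).congr_deriv ?_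
  · filter_upwards [hev] with x hx
    have e1 := (hpair x hx).2
    rw [eq_div_iff hal0, mul_comm, e1, hr, hcdef]
    rfl
  · unfold Rker
    rw [hal1]
    have hrm := (hrr m).ne'
    have hS' := hS.ne'
    generalize br n m s T0 k0 (fun l σ => af n m s T0 l σ * At n m s T0 l σ) = X at *
    generalize br n m s T0 k0 (At n m s T0) = Y at *
    generalize br n m s T0 k0 (af n m s T0) = U at *
    generalize br n m s T0 k0 (fun _ _ => 1) = V at *
    generalize rr n T0 k0 s m = ρ at *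
    generalize Real.sin (m * dl n) = S at *
    generalize al n m s T = α at *
    field_simp
    ring

end Pool.Agent.Lib.MP_1dedaf_gt.LB
end

section

/-!
# TASK DK B9: the kernel for `m = 1`

Proof. `ker_one`: `m = 1`, the line `ln 1 x = k x + c` of the edge `s+1` with `k = - cos δ / sin δ`. `K' := ⟨p + q k, q, w, l - ln 1, u - ln 1⟩`: `l' ≥ 0` (`l ≥ ln 1` by definition of the supremum), `l' = 0` on
`[0, sx 1]` (`sv_l_eq`), `l' 0 = 0`, `u' 0 = u 0 - l 0 > 0` (`sv_ends`). `exists_bd` gives `Kb : Bd` with `Kb.col = K'`, `Kb.CF`; `0 < Kb.u 0`; `0 < Kb.r 0` because the point `(sx 1, 0)` belongs to the body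
(`Kb.Ok.iff`). So `0 ≤ K'.J = K'.M K'.j 0 0` (`J_eq`), `0 ≤ K'.j 0 0 = K.j 0 k` (`shear`), and `K.j 0 k = K.j (sx 1) k`: use `rker_eq` with `j_const`, or prove `j` constant along the edge:

-/

set_option autoImplicit false

open MeasureTheory Set Filter Topology

namespace Pool.Agent.Lib.MP_1dedaf_gt.DK

open Pool.Agent.Lib.MP_1dedaf_gt.LB

private theorem B9_sx_le (n : ℕ) [NeZero n] (hn : Odd n) (h3 : 3 ≤ n) {T k : ZMod n → ℝ} (hT : ∀ i, 0 < T i)
    (ho : Opt (dir n) T k) (s : ZMod n) (j : ℕ) (hj : j + 1 ≤ (n - 1) / 2) : sx n k s 1 ≤ sx n k s (j + 1) := by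
  induction j with
  | zero => exact le_rfl
  | succ j ih => exact (ih (by omega)).trans (sx_lt_lo n hn h3 hT ho s (j + 1) (by omega)).le

private theorem B9_convex {l : ℝ → ℝ} {w : ℝ} (h : ConvexOn ℝ univ l) (a c : ℝ) :
    ConvexOn ℝ (Icc 0 w) (fun t => l t - (a * t + c)) := by
  refine ⟨convex_Icc _ _, fun x _ y _ b d hb hd hbd => ?_⟩
  have h1 := h.2 (mem_univ x) (mem_univ y) hb hd hbd
  simp only [smul_eq_mul] at h1 ⊢
  have e : b * (l x - (a * x + c)) + d * (l y - (a * y + c)) = b * l x + d * l y - (a * (b * x + d * y) + c) := by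
    linear_combination -c * hbd
  rw [e]
  linarith

private theorem B9_concave {u : ℝ → ℝ} {w : ℝ} (h : ConcaveOn ℝ univ u) (a c : ℝ) :
    ConcaveOn ℝ (Icc 0 w) (fun t => u t - (a * t + c)) := by
  refine ⟨convex_Icc _ _, fun x _ y _ b d hb hd hbd => ?_⟩
  have h1 := h.2 (mem_univ x) (mem_univ y) hb hd hbd
  simp only [smul_eq_mul] at h1 ⊢
  have e : b * (u x - (a * x + c)) + d * (u y - (a * y + c)) = b * u x + d * u y - (a * (b * x + d * y) + c) := by
    linear_combination -c * hbd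
  rw [e]
  linarith

/-- The kernel of adjacent edges. -/
theorem ker_one (hP : CFPos) (n : ℕ) [NeZero n] (hn : Odd n) (h3 : 3 ≤ n) {T k : ZMod n → ℝ} (hT : ∀ i, 0 < T i)
    (ho : Opt (dir n) T k) (s : ZMod n) (ha : al n 1 s T ≠ 0) (hb : be n 1 s T ≠ 0) : 0 ≤ Rker n 1 s T k := by
  have hh : 0 < (n - 1) / 2 := by omega
  have hsin : 0 < Real.sin ((1 : ℕ) * dl n) := sin_lo n hn h3 0 hh
  obtain ⟨K, hK⟩ : ∃ K, K = sv n k (th (dir n) T) s := ⟨_, rfl⟩
  obtain ⟨a, hka⟩ : ∃ a, a = - (Real.cos ((1 : ℕ) * dl n) / Real.sin ((1 : ℕ) * dl n)) := ⟨_, rfl⟩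
  obtain ⟨c, hc⟩ : ∃ c, c = (k s * Real.cos ((1 : ℕ) * dl n) - k (s + ((1 : ℕ) : ZMod n))) / Real.sin ((1 : ℕ) * dl n) := ⟨_, rfl⟩
  have hq : K.q ≠ 0 := by
    rw [hK, q_eq n hn h3 one_pos (by omega) s T k]
    exact neg_ne_zero.2 (mul_ne_zero hb hsin.ne')
  have hp : K.p + K.q * a ≠ 0 := by
    rw [hK, hka, ← p_eq n hn h3 one_pos (by omega) s T k]
    exact neg_ne_zero.2 ha
  have hreg : K.Reg := by
    rw [hK]
    exact sv_reg n hn h3 hT ho s (hK ▸ hq)
  have hx1 : 0 < sx n k s 1 := by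
    have := sx_lt_lo n hn h3 hT ho s 0 hh
    rwa [sx_zero n hn h3 k s] at this
  have hxw : sx n k s 1 ≤ K.w := by
    have := B9_sx_le n hn h3 hT ho s ((n - 1) / 2 - 1) (by omega)
    rw [show (n - 1) / 2 - 1 + 1 = (n - 1) / 2 by omega] at this
    rw [hK]
    exact this
  have hln : ∀ x, ln n k s 1 x = a * x + c := by
    intro x
    rw [hka, hc]
    unfold ln
    field_simp
    ring
  have hl1 : ∀ x ∈ Icc 0 (sx n k s 1), K.l x = a * x + c := by
    intro x hx
    rw [hK, sv_l_eq n hn h3 hT ho s 0 hh x (by rw [sx_zero n hn h3 k s]; exact hx)]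
    exact hln x
  have hlge : ∀ x, a * x + c ≤ K.l x := by
    intro x
    rw [← hln x, hK]
    exact le_ciSup (f := fun i : Fin ((n - 1) / 2) => ln n k s (i.val + 1) x) (Finite.bddAbove_range _) ⟨0, hh⟩
  have hlc := sv_l_cont n hn h3 k (th (dir n) T) s
  have huc := sv_u_cont n hn h3 k (th (dir n) T) s
  have hw := sv_w_pos n hn h3 hT ho s
  have hends := sv_ends n hn h3 hT ho s
  have hlt := sv_lt n hn h3 hT ho s
  rw [← hK] at hlc huc hw hends hlt
  have h00 : K.l 0 - (a * 0 + c) = 0 := by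
    rw [hl1 0 ⟨le_rfl, hx1.le⟩]; ring
  have hlu : ∀ x ∈ Icc 0 K.w, K.l x ≤ K.u x := by
    intro x hx
    rcases lt_or_eq_of_le hx.2 with h4 | h4
    · exact (hlt x hx.1 h4).le
    · rw [h4, hends.2.2.2]
  obtain ⟨Kb, hOk, hcol, hCF⟩ := exists_bd (K.p + K.q * a) K.q K.w (fun t => K.l t - (a * t + c)) (fun t => K.u t - (a * t + c))
    hp hq hw (hlc.1.sub (by fun_prop)) (huc.1.sub (by fun_prop)) (B9_convex hlc.2 a c) (B9_concave huc.2 a c)
    (fun x hx => sub_le_sub_right (hlu x hx) _) ⟨0, ⟨le_rfl, hw.le⟩, sub_lt_sub_right hends.2.2.1 _⟩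
    (fun x _ => sub_nonneg.2 (hlge x)) ⟨0, ⟨le_rfl, hw.le⟩, h00⟩
  have hCF' := hCF h00
  have hw' : Kb.w = K.w := congrArg Dat.w hcol
  have hl' : Kb.l = fun t => K.l t - (a * t + c) := congrArg Dat.l hcol
  have hu' : Kb.u = fun t => K.u t - (a * t + c) := congrArg Dat.u hcol
  have hu0 : 0 < Kb.u 0 := by
    rw [hu']
    have := hends.2.2.1
    simp only
    linarith
  have hr0 : 0 < Kb.r 0 := by
    have hm : Kb.mem (sx n k s 1) 0 := by
      refine ⟨hx1.le, by rw [hw']; exact hxw, ?_, ?_⟩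
      · rw [hl']
        simp only
        rw [hl1 _ ⟨hx1.le, le_rfl⟩, sub_self]
      · rw [hu']
        simp only
        have h5 := hlu _ ⟨hx1.le, hxw⟩
        rw [hl1 _ ⟨hx1.le, le_rfl⟩] at h5
        linarith
    exact lt_of_lt_of_le hx1 ((hOk.iff _ _).1 hm).2.2.2
  have hJ := hP Kb hCF' hr0 hu0
  have hregb : Kb.col.Reg := by
    obtain ⟨_, _, _, _, _, _, _, _, _, _, h6, _⟩ := cf_facts Kb hCF'
    exact h6
  have hJe := Dat.J_eq Kb.col hregb (by rw [hcol]; exact h00)
  have hM := Dat.M_pos Kb.col hregb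
  have hj : 0 ≤ Kb.col.j 0 0 := by
    rw [hJe] at hJ
    exact nonneg_of_mul_nonneg_right hJ hM
  rw [hcol, Dat.shear K hq a c 0] at hj
  have hjc := j_const K hreg a c 0 (sx n k s 1) hx1.le hl1
  rw [rker_eq n hn h3 hT ho s 1 one_pos (by omega) ha hb, ← hK, ← hka, hjc]
  exact mul_nonneg hsin.le hj

end Pool.Agent.Lib.MP_1dedaf_gt.DK
end
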