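import Pool.Agent.Lib.MP_1dedaf_gt.Mg.G001
import Pool.Agent.Lib.MP_1dedaf_gt.Mg.G009
import Pool.Agent.Lib.MP_1dedaf_gt.Mg.G020
import Pool.Agent.Lib.MP_1dedaf_gt.Mg.G014
import Pool.Agent.Lib.MP_1dedaf_gt.LB.A7a
import Pool.Agent.Lib.MP_1dedaf_gt.LB.A7
import Pool.Agent.Lib.MP_1dedaf_gt.LB.A8a
import Pool.Agent.Lib.MP_1dedaf_gt.LB.A8
import Pool.Agent.Lib.MP_1dedaf_gt.Mg.G007
import Pool.Agent.Lib.MP_1dedaf_gt.LB.C6
import Pool.Agent.Lib.MP_1dedaf_gt.DK.SDefs
import Pool.Agent.Lib.MP_1dedaf_gt.Mg.G005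
import Pool.Agent.Lib.MP_1dedaf_gt.Mg.G018
import Pool.Agent.Lib.MP_1dedaf_gt.Mg.G022

section

/-!
# TASK LB C7: the polygons depend continuously on the masses

Proof. Let `s0 = (1/2) min T i > 0`, `u = dir n`; for large `j` all `Ts j i ≥ s0`. `ks j i > 0` (`opt_pos`), `Tight` (`opt_tight`). By `psi_eq`, `psi_cont`
(`Ts j = exp (log (Ts j))`, `log (Ts j i) → log (T i)`) `G u (ks j) (Ts j) → Psi u T`, so
`w_j = Z u (ks j) (th u (Ts j)) exp (- ∑ Ts j i * ks j i) = exp (G ..) ≥ c₁ > 0` for large `j`. With `D_j = max_i ks j i` `w_bound` gives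
`c₁ ≤ C D_j² exp (- c s0 D_j)`, so `D_j ≤ R` for large `j` with a constant `R`. So `ks j` stays in a compact box; to show `ks j → k` it is enough that every
limit `k*` of a subsequence is `k`. By continuity (`Z_cont`; `th` is continuous) `Z u k* (th u T) exp (-∑ T i k* i) = exp (Psi u T) > 0`, so `k*` is Fat
(`fat_of_Z_pos`) and `G u k* T = Psi u T` is the maximum (`le_psi`), so `max_mass` gives `mass`; `cent` by `ZV_cont`. So `Opt u T k*`, `k* = k` by `opt_unique`.
-/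

set_option autoImplicit false

open MeasureTheory Set Filter Topology

namespace Pool.Agent.Lib.MP_1dedaf_gt.LB

private theorem C7_th_cont {ι : Type} [Fintype ι] (u : ι → E2) : Continuous fun S : ι → ℝ => th u S := by
  unfold th
  fun_prop

private theorem C7_w_eq {ι : Type} [Fintype ι] {u : ι → E2} {S k : ι → ℝ} (hZ : 0 < Z u k (th u S)) :
    Z u k (th u S) * Real.exp (-∑ i, S i * k i) = Real.exp (G u k S) := by
  rw [G, sub_eq_add_neg, Real.exp_add, Real.exp_log hZ]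

private theorem C7_w_cont {ι : Type} [Fintype ι] {u : ι → E2} (hu : Adm u) :
    Continuous fun p : (ι → ℝ) × (ι → ℝ) => Z u p.2 (th u p.1) * Real.exp (-∑ i, p.1 i * p.2 i) := by
  have h1 : Continuous fun p : (ι → ℝ) × (ι → ℝ) => Z u p.2 (th u p.1) :=
    (Z_cont hu).comp (continuous_snd.prodMk ((C7_th_cont u).comp continuous_fst))
  have h2 : Continuous fun p : (ι → ℝ) × (ι → ℝ) => Real.exp (-∑ i, p.1 i * p.2 i) := by
    fun_prop
  exact h1.mul h2

private theorem C7_psi_tendsto {ι : Type} [Fintype ι] {u : ι → E2} (hu : Adm u) {Ts : ℕ → ι → ℝ} {T : ι → ℝ}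
    (hT : ∀ i, 0 < T i) (hTs : ∀ j i, 0 < Ts j i) (hlim : Tendsto Ts atTop (𝓝 T)) :
    Tendsto (fun j => Psi u (Ts j)) atTop (𝓝 (Psi u T)) := by
  have h1 : Tendsto (fun j => fun i => Real.log (Ts j i)) atTop (𝓝 fun i => Real.log (T i)) := by
    rw [tendsto_pi_nhds] at hlim ⊢
    intro i
    exact (hlim i).log (hT i).ne'
  have h2 := ((psi_cont hu).tendsto (fun i => Real.log (T i))).comp h1
  have h3 : (fun i => Real.exp (Real.log (T i))) = T := by
    funext i
    exact Real.exp_log (hT i)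
  rw [h3] at h2
  refine h2.congr fun j => ?_
  show Psi u (fun i => Real.exp (Real.log (Ts j i))) = Psi u (Ts j)
  congr 1
  funext i
  exact Real.exp_log (hTs j i)

private theorem C7_decay {C a c1 : ℝ} (ha : 0 < a) (hc : 0 < c1) :
    ∃ R : ℝ, ∀ D : ℝ, R < D → C * D ^ 2 * Real.exp (-(a * D)) < c1 := by
  have h1 : Tendsto (fun D : ℝ => D ^ 2 * Real.exp (-D)) atTop (𝓝 0) :=
    Real.tendsto_pow_mul_exp_neg_atTop_nhds_zero 2
  have h2 : Tendsto (fun D : ℝ => a * D) atTop atTop := tendsto_id.const_mul_atTop ha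
  have h3 := (h1.comp h2).const_mul (C / a ^ 2)
  rw [mul_zero] at h3
  have h4 := h3.eventually (gt_mem_nhds hc)
  obtain ⟨R, hR⟩ := Filter.eventually_atTop.mp h4
  refine ⟨R, fun D hD => ?_⟩
  have h5 := hR D hD.le
  have h6 : C / a ^ 2 * (((fun D : ℝ => D ^ 2 * Real.exp (-D)) ∘ fun D : ℝ => a * D) D) =
      C * D ^ 2 * Real.exp (-(a * D)) := by
    show C / a ^ 2 * ((a * D) ^ 2 * Real.exp (-(a * D))) = _
    field_simp
  rw [h6] at h5
  exact h5

theorem opt_tendsto (n : ℕ) [NeZero n] (hn : Odd n) (h3 : 3 ≤ n) {Ts ks : ℕ → ZMod n → ℝ} {T k : ZMod n → ℝ}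
    (hT : ∀ i, 0 < T i) (hTs : ∀ j i, 0 < Ts j i) (hlim : Tendsto Ts atTop (𝓝 T)) (hth : th (dir n) T ≠ 0)
    (ho : ∀ j, Opt (dir n) (Ts j) (ks j)) (h : Opt (dir n) T k) : Tendsto ks atTop (𝓝 k) := by
  have hu : Adm (dir n) := dir_adm n hn h3
  have hpsi := C7_psi_tendsto hu hT hTs hlim
  have hw : ∀ j, Z (dir n) (ks j) (th (dir n) (Ts j)) * Real.exp (-∑ i, Ts j i * ks j i) =
      Real.exp (Psi (dir n) (Ts j)) := by
    intro j
    rw [C7_w_eq (Z_pos hu (ho j).fat _), psi_eq hu (ho j)]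
  -- the masses are bounded below
  obtain ⟨s0, hs0, hs0'⟩ : ∃ s0 : ℝ, 0 < s0 ∧ ∀ i, s0 < T i := by
    obtain ⟨i0, hi0⟩ := Finite.exists_min T
    exact ⟨T i0 / 2, half_pos (hT i0), fun i => lt_of_lt_of_le (half_lt_self (hT i0)) (hi0 i)⟩
  have hev1 : ∀ᶠ j in atTop, ∀ i, s0 ≤ Ts j i := by
    rw [Filter.eventually_all]
    intro i
    have h1 := (tendsto_pi_nhds.mp hlim) i
    exact (h1.eventually (lt_mem_nhds (hs0' i))).mono fun j hj => hj.le
  have hc1 : 0 < Real.exp (Psi (dir n) T) / 2 := half_pos (Real.exp_pos _)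
  have hev2 : ∀ᶠ j in atTop, Real.exp (Psi (dir n) T) / 2 < Real.exp (Psi (dir n) (Ts j)) := by
    have h1 := (Real.continuous_exp.tendsto _).comp hpsi
    exact h1.eventually (lt_mem_nhds (half_lt_self (Real.exp_pos _)))
  obtain ⟨C, c, hC, hc, hb⟩ := w_bound hu
  obtain ⟨R, hR⟩ := C7_decay (C := C) (mul_pos hc hs0) hc1
  have hev3 : ∀ᶠ j in atTop, ks j ∈ Set.Icc (fun _ => 0) (fun _ => R) := by
    filter_upwards [hev1, hev2] with j h1 h2
    obtain ⟨i0, hi0⟩ := Finite.exists_max (ks j)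
    have hpos : ∀ i, 0 < ks j i := fun i => opt_pos hu (ho j) i
    have h3 := hb s0 hs0 (Ts j) h1 (ks j) (opt_tight hu (ho j) (hTs j)) (fun i => (hpos i).le)
      (ks j i0) hi0 ⟨i0, rfl⟩
    rw [hw j] at h3
    have h4 : ks j i0 ≤ R := by
      by_contra hcon
      have h5 := hR (ks j i0) (not_le.mp hcon)
      linarith
    exact ⟨fun i => (hpos i).le, fun i => (hi0 i).trans h4⟩
  refine Filter.tendsto_of_subseq_tendsto fun ns hns => ?_
  obtain ⟨k', hk', φ, hφ, hlim'⟩ := (isCompact_Icc).tendsto_subseq' (x := ks ∘ ns)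
    ((hns.eventually hev3).frequently)
  refine ⟨φ, ?_⟩
  have hns' : Tendsto (fun j => ns (φ j)) atTop atTop := hns.comp hφ.tendsto_atTop
  have hTs' : Tendsto (fun j => Ts (ns (φ j))) atTop (𝓝 T) := hlim.comp hns'
  have hks' : Tendsto (fun j => ks (ns (φ j))) atTop (𝓝 k') := hlim'
  -- the limit is the optimal vector
  have hwlim : Z (dir n) k' (th (dir n) T) * Real.exp (-∑ i, T i * k' i) = Real.exp (Psi (dir n) T) := by
    have h1 := ((C7_w_cont hu).tendsto (T, k')).comp (hTs'.prodMk_nhds hks')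
    have h2 := (Real.continuous_exp.tendsto _).comp (hpsi.comp hns')
    refine tendsto_nhds_unique h1 (h2.congr fun j => ?_)
    exact (hw (ns (φ j))).symm
  have hZ : 0 < Z (dir n) k' (th (dir n) T) := by
    have h1 : 0 < Z (dir n) k' (th (dir n) T) * Real.exp (-∑ i, T i * k' i) := by
      rw [hwlim]; exact Real.exp_pos _
    exact pos_of_mul_pos_left h1 (Real.exp_pos _).le
  have hfat : Fat (dir n) k' := fat_of_Z_pos hu hZ
  have hG : G (dir n) k' T = Psi (dir n) T := by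
    rw [C7_w_eq hZ] at hwlim
    exact Real.exp_injective hwlim
  have hopt : Opt (dir n) T k' := by
    refine ⟨hfat, fun i => max_mass hu hfat (fun k'' hk'' => ?_) i, ?_⟩
    · rw [hG]
      exact le_psi hu hT hk''
    · have h1 := ((ZV_cont hu).tendsto (k', th (dir n) T)).comp
        (hks'.prodMk_nhds (((C7_th_cont (dir n)).tendsto T).comp hTs'))
      refine tendsto_nhds_unique h1 (tendsto_const_nhds.congr fun j => ?_)
      exact ((ho (ns (φ j))).cent).symm
  rw [opt_unique n hn h3 hT hth h hopt]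
  exact hks'

end Pool.Agent.Lib.MP_1dedaf_gt.LB
end

section

/-!
# TASK DK S3: a theorem on mixed derivatives; the derivative of `Psi`

Proof of `clairaut`. For `0 < h ≤ δ` let `Δ = f (x0+h) (y0+h) - f (x0+h) y0 - f x0 (y0+h) + f x0 y0`. The mean value theorem (`exists_hasDerivAt_eq_slope`) for `g x = f x (y0+h) - f x y0` on `[x0, x0+h]` gives `ξ` with `Δ = h g' ξ = - h (a ξ (y0+h) - a ξ y0)`, and for
`y ↦ a ξ y` on `[y0, y0+h]` a point `η` with `Δ = h² R ξ η`. In the same way `Δ = h² R' ξ' η'`. Take `h = δ/(j+1)`: the sequences `R (ξ_j) (η_j)` and `R' (ξ'_j) (η'_j)` are equal and converge to `R x0 y0` and `R' x0 y0`. Proof of `psi_deriv`: for `x > 0` near `x0`: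
`psi_lower` at `T^{x0}`: `Psi x ≥ Psi x0 - (x - x0) k x0 i` (the sum has one nonzero term), and at `T^x`: `Psi x0 ≥ Psi x - (x0 - x) k x i`; so `(Psi x - Psi x0)/(x - x0)` lies between `- k x0 i` and `- k x i`, and `k x i → k x0 i`.
`opt_cont`: sequential continuity from `opt_tendsto`.
-/

set_option autoImplicit false

open MeasureTheory Set Filter Topology

namespace Pool.Agent.Lib.MP_1dedaf_gt.DK

open Pool.Agent.Lib.MP_1dedaf_gt.LB

private theorem S3_step (f a R : ℝ → ℝ → ℝ) (x0 y0 h : ℝ) (hh : 0 < h)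
    (h1 : ∀ x ∈ Icc x0 (x0 + h), ∀ y ∈ Icc y0 (y0 + h),
      HasDerivAt (fun x => f x y) (- a x y) x ∧ HasDerivAt (fun y => a x y) (- R x y) y) :
    ∃ ξ ∈ Icc x0 (x0 + h), ∃ η ∈ Icc y0 (y0 + h),
      f (x0 + h) (y0 + h) - f (x0 + h) y0 - f x0 (y0 + h) + f x0 y0 = h ^ 2 * R ξ η := by
  have hy0 : y0 ∈ Icc y0 (y0 + h) := ⟨le_refl _, by linarith⟩
  have hy1 : y0 + h ∈ Icc y0 (y0 + h) := ⟨by linarith, le_refl _⟩
  have hg : ∀ x ∈ Icc x0 (x0 + h), HasDerivAt (fun x => f x (y0 + h) - f x y0)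
      (- a x (y0 + h) - - a x y0) x := fun x hx =>
    ((h1 x hx _ hy1).1).sub ((h1 x hx _ hy0).1)
  obtain ⟨ξ, hξ, e1⟩ := exists_hasDerivAt_eq_slope (fun x => f x (y0 + h) - f x y0)
    (fun x => - a x (y0 + h) - - a x y0) (show x0 < x0 + h by linarith)
    (fun x hx => (hg x hx).continuousAt.continuousWithinAt)
    (fun x hx => hg x (Ioo_subset_Icc_self hx))
  have hξ' : ξ ∈ Icc x0 (x0 + h) := Ioo_subset_Icc_self hξ
  have hk : ∀ y ∈ Icc y0 (y0 + h), HasDerivAt (fun y => a ξ y) (- R ξ y) y := fun y hy =>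
    (h1 ξ hξ' y hy).2
  obtain ⟨η, hη, e2⟩ := exists_hasDerivAt_eq_slope (fun y => a ξ y)
    (fun y => - R ξ y) (show y0 < y0 + h by linarith)
    (fun y hy => (hk y hy).continuousAt.continuousWithinAt)
    (fun y hy => hk y (Ioo_subset_Icc_self hy))
  refine ⟨ξ, hξ', η, Ioo_subset_Icc_self hη, ?_⟩
  have hh' : h ≠ 0 := hh.ne'
  have e3 : x0 + h - x0 = h := by ring
  have e4 : y0 + h - y0 = h := by ring
  simp only [e3] at e1
  simp only [e4] at e2
  rw [eq_div_iff hh'] at e1 e2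
  have e5 : a ξ (y0 + h) - a ξ y0 = - (R ξ η * h) := by linarith
  have e6 : f (x0 + h) (y0 + h) - f (x0 + h) y0 - f x0 (y0 + h) + f x0 y0 =
      - (a ξ (y0 + h) - a ξ y0) * h := by linarith
  rw [e6, e5]
  ring

theorem clairaut (f a b R R' : ℝ → ℝ → ℝ) (x0 y0 δ : ℝ) (hδ : 0 < δ)
    (h1 : ∀ x ∈ Icc x0 (x0 + δ), ∀ y ∈ Icc y0 (y0 + δ), HasDerivAt (fun x => f x y) (- a x y) x ∧ HasDerivAt (fun y => f x y) (- b x y) y ∧
      HasDerivAt (fun y => a x y) (- R x y) y ∧ HasDerivAt (fun x => b x y) (- R' x y) x)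
    (h2 : ∀ xs ys : ℕ → ℝ, (∀ j, xs j ∈ Icc x0 (x0 + δ)) → (∀ j, ys j ∈ Icc y0 (y0 + δ)) → Tendsto xs atTop (𝓝 x0) → Tendsto ys atTop (𝓝 y0) →
      Tendsto (fun j => R (xs j) (ys j)) atTop (𝓝 (R x0 y0)) ∧ Tendsto (fun j => R' (xs j) (ys j)) atTop (𝓝 (R' x0 y0))) :
    R x0 y0 = R' x0 y0 := by
  have key : ∀ h : ℝ, 0 < h → h ≤ δ → ∃ ξ ∈ Icc x0 (x0 + h), ∃ η ∈ Icc y0 (y0 + h),
      ∃ ξ' ∈ Icc x0 (x0 + h), ∃ η' ∈ Icc y0 (y0 + h), R ξ η = R' ξ' η' := by
    intro h hh hhδ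
    have hsx : Icc x0 (x0 + h) ⊆ Icc x0 (x0 + δ) := Icc_subset_Icc_right (by linarith)
    have hsy : Icc y0 (y0 + h) ⊆ Icc y0 (y0 + δ) := Icc_subset_Icc_right (by linarith)
    obtain ⟨ξ, hξ, η, hη, e1⟩ := S3_step f a R x0 y0 h hh fun x hx y hy =>
      ⟨(h1 x (hsx hx) y (hsy hy)).1, (h1 x (hsx hx) y (hsy hy)).2.2.1⟩
    obtain ⟨η', hη', ξ', hξ', e2⟩ := S3_step (fun y x => f x y) (fun y x => b x y)
      (fun y x => R' x y) y0 x0 h hh fun y hy x hx =>
      ⟨(h1 x (hsx hx) y (hsy hy)).2.1, (h1 x (hsx hx) y (hsy hy)).2.2.2⟩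
    refine ⟨ξ, hξ, η, hη, ξ', hξ', η', hη', ?_⟩
    have e3 : h ^ 2 * R ξ η = h ^ 2 * R' ξ' η' := by
      rw [← e1, ← e2]
      ring
    exact mul_left_cancel₀ (pow_ne_zero 2 hh.ne') e3
  have hpos : ∀ j : ℕ, 0 < δ / ((j : ℝ) + 1) := fun j => by positivity
  have hle : ∀ j : ℕ, δ / ((j : ℝ) + 1) ≤ δ := fun j => by
    refine div_le_self hδ.le ?_
    have : (0 : ℝ) ≤ j := Nat.cast_nonneg j
    linarith
  choose xs hxs ys hys xs' hxs' ys' hys' he using fun j : ℕ =>
    key (δ / ((j : ℝ) + 1)) (hpos j) (hle j)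
  have hlim0 : Tendsto (fun j : ℕ => δ / ((j : ℝ) + 1)) atTop (𝓝 0) := by
    have h3 := (tendsto_one_div_add_atTop_nhds_zero_nat (𝕜 := ℝ)).const_mul δ
    rw [mul_zero] at h3
    refine h3.congr fun j => ?_
    ring
  have hlim : ∀ (z : ℝ) (zs : ℕ → ℝ), (∀ j : ℕ, zs j ∈ Icc z (z + δ / ((j : ℝ) + 1))) →
      Tendsto zs atTop (𝓝 z) := by
    intro z zs hz
    refine tendsto_of_tendsto_of_tendsto_of_le_of_le tendsto_const_nhds ?_
      (fun j => (hz j).1) (fun j => (hz j).2)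
    have h4 := hlim0.const_add z
    rwa [add_zero] at h4
  have hin : ∀ (z : ℝ) (zs : ℕ → ℝ), (∀ j : ℕ, zs j ∈ Icc z (z + δ / ((j : ℝ) + 1))) →
      ∀ j, zs j ∈ Icc z (z + δ) := fun z zs hz j =>
    ⟨(hz j).1, (hz j).2.trans (by have := hle j; linarith)⟩
  have l1 := (h2 xs ys (hin x0 xs hxs) (hin y0 ys hys) (hlim x0 xs hxs) (hlim y0 ys hys)).1
  have l2 := (h2 xs' ys' (hin x0 xs' hxs') (hin y0 ys' hys') (hlim x0 xs' hxs')
    (hlim y0 ys' hys')).2
  exact tendsto_nhds_unique (l1.congr he) l2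

private theorem S3_pos {n : ℕ} {T : ZMod n → ℝ} (hT : ∀ i, 0 < T i) (i : ZMod n) {x : ℝ}
    (hx : 0 < x) (j : ZMod n) : 0 < Function.update T i x j := by
  rw [Function.update_apply]
  split_ifs
  · exact hx
  · exact hT j

theorem opt_cont (n : ℕ) [NeZero n] (hn : Odd n) (h3 : 3 ≤ n) {T : ZMod n → ℝ} (hT : ∀ i, 0 < T i) (i : ZMod n) (k : ℝ → ZMod n → ℝ)
    (ho : ∀ x, 0 < x → Opt (dir n) (Function.update T i x) (k x)) {x0 : ℝ} (hx0 : 0 < x0)
    (hth : th (dir n) (Function.update T i x0) ≠ 0) : ContinuousAt k x0 := by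
  refine tendsto_of_seq_tendsto fun xs hxs => ?_
  have hev : ∀ᶠ j in atTop, 0 < xs j := hxs.eventually (eventually_gt_nhds hx0)
  let ys : ℕ → ℝ := fun j => if 0 < xs j then xs j else x0
  have hypos : ∀ j, 0 < ys j := by
    intro j
    change 0 < (if 0 < xs j then xs j else x0)
    split_ifs with h
    · exact h
    · exact hx0
  have hyx : ∀ᶠ j in atTop, ys j = xs j := by
    filter_upwards [hev] with j hj
    exact if_pos hj
  have hylim : Tendsto ys atTop (𝓝 x0) := hxs.congr' (hyx.mono fun j hj => hj.symm)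
  have hlim : Tendsto (fun j => Function.update T i (ys j)) atTop
      (𝓝 (Function.update T i x0)) := tendsto_const_nhds.update i hylim
  have h4 := opt_tendsto n hn h3 (Ts := fun j => Function.update T i (ys j))
    (ks := fun j => k (ys j)) (fun j => S3_pos hT i hx0 j)
    (fun l j => S3_pos hT i (hypos l) j) hlim hth (fun l => ho (ys l) (hypos l)) (ho x0 hx0)
  refine h4.congr' (hyx.mono fun j hj => ?_)
  change k (ys j) = k (xs j)
  rw [hj]

private theorem S3_sum {n : ℕ} [NeZero n] (T : ZMod n → ℝ) (i : ZMod n) (x y : ℝ)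
    (k : ZMod n → ℝ) :
    ∑ j, (Function.update T i x j - Function.update T i y j) * k j = (x - y) * k i := by
  rw [Finset.sum_eq_single i]
  · rw [Function.update_self, Function.update_self]
  · intro j _ hj
    rw [Function.update_of_ne hj, Function.update_of_ne hj, sub_self, zero_mul]
  · intro h
    exact absurd (Finset.mem_univ _) h

theorem psi_deriv (n : ℕ) [NeZero n] (hn : Odd n) (h3 : 3 ≤ n) {T : ZMod n → ℝ} (hT : ∀ i, 0 < T i) (i : ZMod n) (k : ℝ → ZMod n → ℝ)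
    (ho : ∀ x, 0 < x → Opt (dir n) (Function.update T i x) (k x)) {x0 : ℝ} (hx0 : 0 < x0)
    (hth : th (dir n) (Function.update T i x0) ≠ 0) :
    HasDerivAt (fun x => Psi (dir n) (Function.update T i x)) (- k x0 i) x0 := by
  have hadm := dir_adm n hn h3
  have hc := opt_cont n hn h3 hT i k ho hx0 hth
  have hci : ContinuousAt (fun x => k x i) x0 := (continuous_apply i).continuousAt.comp hc
  rw [hasDerivAt_iff_isLittleO, Asymptotics.isLittleO_iff]
  intro c hc0
  have h4 : ∀ᶠ x in 𝓝 x0, |k x i - k x0 i| < c := by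
    have h5 := Metric.tendsto_nhds.1 hci.tendsto c hc0
    filter_upwards [h5] with x hx
    rwa [Real.dist_eq] at hx
  filter_upwards [h4, eventually_gt_nhds hx0] with x hx hxpos
  have a1 := psi_lower hadm (ho x0 hx0) (S' := Function.update T i x) (S3_pos hT i hxpos)
  have a2 := psi_lower hadm (ho x hxpos) (S' := Function.update T i x0) (S3_pos hT i hx0)
  rw [S3_sum] at a1 a2
  have b1 : 0 ≤ Psi (dir n) (Function.update T i x) - Psi (dir n) (Function.update T i x0) -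
      (x - x0) * (- k x0 i) := by linarith
  have b2 : Psi (dir n) (Function.update T i x) - Psi (dir n) (Function.update T i x0) -
      (x - x0) * (- k x0 i) ≤ |x - x0| * |k x i - k x0 i| := by
    have b3 : Psi (dir n) (Function.update T i x) - Psi (dir n) (Function.update T i x0) -
      (x - x0) * (- k x0 i) ≤ - ((x - x0) * (k x i - k x0 i)) := by linarith
    refine b3.trans ?_
    rw [← abs_mul]
    exact neg_le_abs _
  rw [smul_eq_mul, Real.norm_eq_abs, Real.norm_eq_abs, abs_of_nonneg b1]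
  refine b2.trans ?_
  rw [mul_comm]
  exact mul_le_mul_of_nonneg_right hx.le (abs_nonneg _)

end Pool.Agent.Lib.MP_1dedaf_gt.DK
end

section

/-!
# TASK LB C8: support numbers decrease when another mass increases

Proof. For `x > 0` let `k x` be an `Opt` vector for `T^x = update T (s+m) x` (`exists_opt`, `dir_adm`). `α = al n m s (T^x)` does not depend on `x`
(`aj n m m = 0`) and is not `0`; `be n m s (T^x) = β₀ + x` (`bj n m m = 1`). `th (T^x) = α u s + (..) u (s+m) ≠ 0` (`th_pair`, independence), so `k` is continuous on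
`(0, ∞)` (`opt_tendsto`, sequential continuity). At every `x > 0` with `β₀ + x ≠ 0` `ks_deriv` and `hker` show that `x ↦ k x s` has a derivative `≤ 0`. So it is
antitone on `(0, x*] ∩ (0,∞)` and on `[x*, ∞) ∩ (0, ∞)`, `x* = -β₀` (`antitoneOn_of_deriv_nonpos`), hence on `(0, ∞)`. The given Opt vectors `k1`, `k2` equal
`k x1`, `k x2` (`opt_unique`).
-/

set_option autoImplicit false

open MeasureTheory Set Filter Topology

namespace Pool.Agent.Lib.MP_1dedaf_gt.LB

private theorem C8_upd_pos {n : ℕ} {T : ZMod n → ℝ} (hT : ∀ i, 0 < T i) (t : ZMod n) {x : ℝ} (hx : 0 < x) :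
    ∀ i, 0 < Function.update T t x i := by
  intro i
  by_cases h : i = t
  · subst h
    rw [Function.update_self]
    exact hx
  · rw [Function.update_of_ne h]
    exact hT i

private theorem C8_th_ne (n : ℕ) [NeZero n] (hn : Odd n) (h3 : 3 ≤ n) {m : ℕ} (hm : 0 < m) (hm2 : 2 * m < n) (s : ZMod n)
    {T : ZMod n → ℝ} (hal : al n m s T ≠ 0) : th (dir n) T ≠ 0 := by
  intro h0
  rw [th_pair n hn h3 hm hm2 s T] at h0
  have h1 : al n m s T • dir n s + be n m s T • dir n (s + (m : ℕ)) =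
      (0 : ℝ) • dir n s + (0 : ℝ) • dir n (s + (m : ℕ)) := by
    rw [h0]; simp
  exact hal (pair_indep n hm hm2 s h1).1

/-- Two points without a critical point between them. -/
private theorem C8_anti {f : ℝ → ℝ} {a b : ℝ} (hab : a ≤ b) (hc : ∀ x, a ≤ x → x ≤ b → ContinuousAt f x)
    (hd : ∀ x, a < x → x < b → ∃ d, d ≤ 0 ∧ HasDerivAt f d x) : f b ≤ f a := by
  have h1 : AntitoneOn f (Set.Icc a b) := by
    apply antitoneOn_of_deriv_nonpos (convex_Icc a b)
    · intro x hx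
      exact (hc x hx.1 hx.2).continuousWithinAt
    · intro x hx
      rw [interior_Icc] at hx
      obtain ⟨d, _, h⟩ := hd x hx.1 hx.2
      exact h.differentiableAt.differentiableWithinAt
    · intro x hx
      rw [interior_Icc] at hx
      obtain ⟨d, h0, h⟩ := hd x hx.1 hx.2
      rw [h.deriv]
      exact h0
  exact h1 (Set.left_mem_Icc.mpr hab) (Set.right_mem_Icc.mpr hab) hab

theorem ks_anti (hker : Ker) (n : ℕ) [NeZero n] (hn : Odd n) (h3 : 3 ≤ n) {m : ℕ} (hm : 0 < m) (hm2 : 2 * m < n) (s : ZMod n)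
    {T : ZMod n → ℝ} (hT : ∀ i, 0 < T i) (hal : al n m s T ≠ 0) {x1 x2 : ℝ} (h1 : 0 < x1) (h12 : x1 ≤ x2) {k1 k2 : ZMod n → ℝ}
    (ho1 : Opt (dir n) (Function.update T (s + (m : ℕ)) x1) k1) (ho2 : Opt (dir n) (Function.update T (s + (m : ℕ)) x2) k2) :
    k2 s ≤ k1 s := by
  classical
  have hu : Adm (dir n) := dir_adm n hn h3
  have hex : ∀ x : ℝ, 0 < x → ∃ k, Opt (dir n) (Function.update T (s + (m : ℕ)) x) k := fun x hx =>
    exists_opt hu (C8_upd_pos hT _ hx)
  let k : ℝ → ZMod n → ℝ := fun x => if h : 0 < x then (hex x h).choose else 0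
  have hk : ∀ x, 0 < x → Opt (dir n) (Function.update T (s + (m : ℕ)) x) (k x) := by
    intro x hx
    have h := (hex x hx).choose_spec
    show Opt (dir n) (Function.update T (s + (m : ℕ)) x) (if h : 0 < x then (hex x h).choose else 0)
    rw [dif_pos hx]
    exact h
  have halx : ∀ x : ℝ, al n m s (Function.update T (s + (m : ℕ)) x) ≠ 0 := by
    intro x
    rw [al_upd n hm hm2 s T x]
    exact hal
  have hthx : ∀ x : ℝ, th (dir n) (Function.update T (s + (m : ℕ)) x) ≠ 0 := fun x =>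
    C8_th_ne n hn h3 hm hm2 s (halx x)
  have hcont : ∀ x, 0 < x → ContinuousAt k x := by
    intro x hx
    rw [ContinuousAt, tendsto_iff_seq_tendsto]
    intro xs hxs
    have hev : ∀ᶠ j in atTop, 0 < xs j := hxs.eventually (lt_mem_nhds hx)
    obtain ⟨N, hN⟩ := Filter.eventually_atTop.mp hev
    rw [← tendsto_add_atTop_iff_nat N]
    have hpos : ∀ j, 0 < xs (j + N) := fun j => hN _ (Nat.le_add_left _ _)
    have hxs' : Tendsto (fun j => xs (j + N)) atTop (𝓝 x) := (tendsto_add_atTop_iff_nat N).mpr hxs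
    refine opt_tendsto n hn h3 (Ts := fun j => Function.update T (s + (m : ℕ)) (xs (j + N)))
      (T := Function.update T (s + (m : ℕ)) x) (C8_upd_pos hT _ hx) (fun j => C8_upd_pos hT _ (hpos j))
      ?_ (hthx x) (fun j => hk _ (hpos j)) (hk x hx)
    rw [tendsto_pi_nhds]
    intro i
    by_cases h : i = s + (m : ℕ)
    · subst h
      simpa only [Function.update_self] using hxs'
    · simp only [Function.update_of_ne h]
      exact tendsto_const_nhds
  have hcont' : ∀ x, 0 < x → ContinuousAt (fun x => k x s) x := fun x hx =>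
    (continuous_apply s).continuousAt.comp (hcont x hx)
  have hder : ∀ x, 0 < x → be n m s (Function.update T (s + (m : ℕ)) x) ≠ 0 →
      ∃ d, d ≤ 0 ∧ HasDerivAt (fun x => k x s) d x := by
    intro x hx hbe
    refine ⟨_, ?_, ks_deriv n hn h3 hm hm2 s hT k hk hx (hcont x hx) (halx x) hbe⟩
    have h := hker n hn h3 m hm hm2 s (Function.update T (s + (m : ℕ)) x) (k x) (C8_upd_pos hT _ hx)
      (hk x hx) (halx x) hbe
    linarith
  have hstep : ∀ a b : ℝ, 0 < a → a ≤ b →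
      (∀ x, a < x → x < b → x ≠ - be n m s (Function.update T (s + (m : ℕ)) 0)) → k b s ≤ k a s := by
    intro a b ha hab hx
    refine C8_anti (f := fun x => k x s) hab (fun x h1 _ => hcont' x (lt_of_lt_of_le ha h1)) ?_
    intro x h1 h2
    refine hder x (ha.trans h1) ?_
    rw [be_upd n hm hm2 s T x]
    intro h
    exact hx x h1 h2 (by linarith)
  have e1 : k1 = k x1 := opt_unique n hn h3 (C8_upd_pos hT _ h1) (hthx x1) ho1 (hk x1 h1)
  have e2 : k2 = k x2 := opt_unique n hn h3 (C8_upd_pos hT _ (lt_of_lt_of_le h1 h12)) (hthx x2) ho2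
    (hk x2 (lt_of_lt_of_le h1 h12))
  rw [e1, e2]
  by_cases hx : x1 < - be n m s (Function.update T (s + (m : ℕ)) 0) ∧
      - be n m s (Function.update T (s + (m : ℕ)) 0) < x2
  · refine (hstep _ x2 (h1.trans hx.1) hx.2.le ?_).trans (hstep x1 _ h1 hx.1.le ?_)
    · intro x h _
      exact h.ne'
    · intro x _ h
      exact h.ne
  · refine hstep x1 x2 h1 h12 ?_
    intro x ha hb he
    subst he
    exact hx ⟨ha, hb⟩

end Pool.Agent.Lib.MP_1dedaf_gt.LB
end
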