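import Pool.Agent.Lib.MP_1dedaf_gt.DK.SDefs
import Pool.Agent.Lib.MP_1dedaf_gt.Mg.G014
import Pool.Agent.Lib.MP_1dedaf_gt.LB.A7
import Pool.Agent.Lib.MP_1dedaf_gt.LB.A8
import Pool.Agent.Lib.MP_1dedaf_gt.Mg.G007
import Pool.Agent.Lib.MP_1dedaf_gt.Mg.G018
import Pool.Agent.Lib.MP_1dedaf_gt.Mg.G022
import Pool.Agent.Lib.MP_1dedaf_gt.LB.C6
import Pool.Agent.Lib.MP_1dedaf_gt.Mg.G023
import Pool.Agent.Lib.MP_1dedaf_gt.Mg.G015

section

/-!
# TASK DK S1: reflection of the polygon

`R z = !₂[z 0, - z 1]` is a linear isometry of the plane with `R (dir n i) = dir n (-i)` (`cos`, `sin` of `dl n * (-i).val`: `(-i).val = n - i.val` for `i ≠ 0`, `dl n * n = 2 π`; both are periodic; see how LB.C0a handles `val`). Proof of `opt_neg`: `T' i = T (-i)`,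
`k' i = k (-i)`. `th (dir n) T' = ∑ T (-i) dir n i = ∑ T i dir n (-i) = R (th (dir n) T)`; `x ∈ Q (dir n) k' ↔ R x ∈ Q (dir n) k` (`⟨x, dir n i⟩ = ⟨R x, dir n (-i)⟩`); `Fat`; `R` is measure preserving, so `Z` is the same (`Z (dir n) k' (R θ) = Z (dir n) k θ`)
and the centroid integral is the reflected one (`= 0`); the edge `i` of `Q k'` is the reflected edge `-i` of `Q k`: `R (k' i dir n i + τ rot (dir n i)) = k (-i) dir n (-i) - τ rot (dir n (-i))` (as `R (rot u) = - rot (R u)`), so `sg (dir n) k' (R θ) i = sg (dir n) k θ (-i)` by `τ ↦ -τ`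
(`fac` is reflected; the Lebesgue measure on the line is invariant under negation).
-/

set_option autoImplicit false

open MeasureTheory Set Filter Topology

namespace Pool.Agent.Lib.MP_1dedaf_gt.DK

open Pool.Agent.Lib.MP_1dedaf_gt.LB

theorem dir_neg (n : ℕ) [NeZero n] (i : ZMod n) : dir n (-i) = !₂[dir n i 0, - dir n i 1] := by
  by_cases h : i = 0
  · subst h
    simp only [neg_zero, dir]
    ext j
    fin_cases j <;> simp
  · have hv : (((-i).val : ℕ) : ℝ) = n - (i.val : ℝ) := by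
      rw [ZMod.neg_val, if_neg h, Nat.cast_sub (ZMod.val_lt i).le]
    have hn0 : (n : ℝ) ≠ 0 := Nat.cast_ne_zero.mpr (NeZero.ne n)
    have ha : dl n * ((n : ℝ) - (i.val : ℝ)) = 2 * Real.pi - dl n * (i.val : ℝ) := by
      unfold dl
      field_simp
    simp only [dir]
    rw [hv, ha, Real.cos_two_pi_sub, Real.sin_two_pi_sub]
    ext j
    fin_cases j <;> simp

/-- The reflection. -/
noncomputable def RfS1 : E2 ≃ₗᵢ[ℝ] E2 :=
  LinearEquiv.isometryOfInner
    (LinearEquiv.ofInvolutive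
      { toFun := fun z : E2 => (!₂[z 0, - z 1] : E2)
        map_add' := by
          intro x y
          ext j
          fin_cases j
          · simp
          · simp; ring
        map_smul' := by
          intro c x
          ext j
          fin_cases j <;> simp }
      (by
        intro x
        ext j
        fin_cases j <;> simp))
    (by
      intro x y
      rw [PiLp.inner_apply, PiLp.inner_apply, Fin.sum_univ_two, Fin.sum_univ_two]
      change inner ℝ (x 0) (y 0) + inner ℝ (- x 1) (- y 1) = inner ℝ (x 0) (y 0) + inner ℝ (x 1) (y 1)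
      rw [inner_neg_neg])

theorem RfS1_apply (z : E2) : RfS1 z = !₂[z 0, - z 1] := rfl

theorem RfS1_inv (z : E2) : RfS1 (RfS1 z) = z := by
  rw [RfS1_apply, RfS1_apply]
  ext j
  fin_cases j <;> simp

theorem RfS1_inner (x y : E2) : inner ℝ (RfS1 x) (RfS1 y) = inner ℝ x y :=
  LinearIsometryEquiv.inner_map_map RfS1 x y

theorem RfS1_inner' (x y : E2) : inner ℝ (RfS1 x) y = inner ℝ x (RfS1 y) := by
  conv_lhs => rw [← RfS1_inv y]
  exact RfS1_inner x (RfS1 y)

theorem RfS1_rot (x : E2) : RfS1 (rot x) = - rot (RfS1 x) := by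
  rw [RfS1_apply, RfS1_apply]
  unfold rot
  ext j
  fin_cases j <;> simp

theorem RfS1_dir (n : ℕ) [NeZero n] (i : ZMod n) : RfS1 (dir n i) = dir n (-i) := by
  rw [RfS1_apply, dir_neg]

theorem RfS1_th (n : ℕ) [NeZero n] (T : ZMod n → ℝ) :
    th (dir n) (fun i => T (-i)) = RfS1 (th (dir n) T) := by
  unfold th
  rw [map_sum, ← Equiv.sum_comp (Equiv.neg (ZMod n))]
  refine Finset.sum_congr rfl fun i _ => ?_
  simp only [Equiv.neg_apply, neg_neg, map_smul, RfS1_dir]

theorem RfS1_Q (n : ℕ) [NeZero n] (k : ZMod n → ℝ) (x : E2) :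
    x ∈ Q (dir n) (fun i => k (-i)) ↔ RfS1 x ∈ Q (dir n) k := by
  unfold Q
  simp only [Set.mem_setOf_eq]
  constructor
  · intro h i
    have := h (-i)
    rw [neg_neg, ← RfS1_dir, ← RfS1_inner'] at this
    exact this
  · intro h i
    have := h (-i)
    rw [← RfS1_dir, RfS1_inner] at this
    exact this

theorem RfS1_mp : MeasurePreserving (RfS1 : E2 → E2) volume volume :=
  LinearIsometryEquiv.measurePreserving RfS1

theorem RfS1_emb : MeasurableEmbedding (RfS1 : E2 → E2) :=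
  RfS1.toHomeomorph.measurableEmbedding

theorem RfS1_Qset (n : ℕ) [NeZero n] (k : ZMod n → ℝ) :
    Q (dir n) (fun i => k (-i)) = (RfS1 : E2 → E2) ⁻¹' Q (dir n) k := by
  ext x
  rw [Set.mem_preimage]
  exact RfS1_Q n k x

theorem RfS1_Z (n : ℕ) [NeZero n] (k : ZMod n → ℝ) (θ : E2) :
    Z (dir n) (fun i => k (-i)) (RfS1 θ) = Z (dir n) k θ := by
  unfold Z
  rw [RfS1_Qset]
  have h := RfS1_mp.setIntegral_preimage_emb RfS1_emb (fun x => Real.exp (inner ℝ θ x)) (Q (dir n) k)
  rw [← h]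
  congr 1
  funext x
  rw [RfS1_inner']

theorem RfS1_pt (n : ℕ) [NeZero n] (i : ZMod n) (a τ : ℝ) :
    RfS1 (a • dir n i + τ • rot (dir n i)) = a • dir n (-i) + (-τ) • rot (dir n (-i)) := by
  rw [map_add, map_smul, map_smul, RfS1_rot, RfS1_dir, smul_neg, neg_smul]

theorem RfS1_sg (n : ℕ) [NeZero n] (k : ZMod n → ℝ) (θ : E2) (i : ZMod n) :
    sg (dir n) (fun i => k (-i)) (RfS1 θ) i = sg (dir n) k θ (-i) := by
  unfold sg
  have hset : fac (dir n) (fun i => k (-i)) i = (fun τ : ℝ => -τ) ⁻¹' fac (dir n) k (-i) := by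
    ext τ
    unfold fac
    rw [Set.mem_setOf_eq, Set.mem_preimage, Set.mem_setOf_eq, RfS1_Q, RfS1_pt]
  rw [hset]
  have h := (Measure.measurePreserving_neg (volume : Measure ℝ)).setIntegral_preimage_emb
    (Homeomorph.neg ℝ).measurableEmbedding
    (fun τ => Real.exp (inner ℝ θ (k (-i) • dir n (-i) + τ • rot (dir n (-i))))) (fac (dir n) k (-i))
  refine Eq.trans ?_ h
  congr 1
  funext τ
  rw [RfS1_inner', RfS1_pt]

theorem opt_neg (n : ℕ) [NeZero n] (hn : Odd n) (h3 : 3 ≤ n) {T k : ZMod n → ℝ} (ho : Opt (dir n) T k) :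
    Opt (dir n) (fun i => T (-i)) (fun i => k (-i)) := by
  have hth := RfS1_th n T
  refine ⟨?_, ?_, ?_⟩
  · obtain ⟨x, hx⟩ := ho.fat
    refine ⟨RfS1 x, fun i => ?_⟩
    rw [RfS1_inner', RfS1_dir]
    exact hx (-i)
  · intro i
    rw [hth, RfS1_sg, RfS1_Z]
    exact ho.mass (-i)
  · rw [hth, RfS1_Qset]
    have h := RfS1_mp.setIntegral_preimage_emb RfS1_emb
      (fun x => Real.exp (inner ℝ (th (dir n) T) x) • RfS1 x) (Q (dir n) k)
    have h1 : (∫ x in (RfS1 : E2 → E2) ⁻¹' Q (dir n) k, Real.exp (inner ℝ (RfS1 (th (dir n) T)) x) • x) =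
        ∫ x in (RfS1 : E2 → E2) ⁻¹' Q (dir n) k,
          (fun x => Real.exp (inner ℝ (th (dir n) T) x) • RfS1 x) (RfS1 x) := by
      congr 1
      funext x
      simp only [RfS1_inner', RfS1_inv]
    rw [h1, h]
    have h2 : (∫ x in Q (dir n) k, Real.exp (inner ℝ (th (dir n) T) x) • RfS1 x) =
        ∫ x in Q (dir n) k, RfS1.toContinuousLinearEquiv (Real.exp (inner ℝ (th (dir n) T) x) • x) := by
      congr 1
      funext x
      rw [map_smul]
      rfl
    rw [h2, ContinuousLinearEquiv.integral_comp_comm, ho.cent, map_zero]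

end Pool.Agent.Lib.MP_1dedaf_gt.DK
end

section

/-!
# Continuity method (campaign DC): definitions

`jj n k ξ s m` is the kernel of the edges `s`, `s + m` of the polygon `k` with the tilt `ξ` (seen from `s`), `ff n k ξ s m` the response
of `s` at the vertex `s + m`. `Gp`: all edges have positive length. `Gen`: the tilt is not orthogonal to any edge. The reflected
polygon is `fun i => k (-i)` with the tilt `RfS1 ξ` (file S1; `RfS1` is the reflection `(x, y) ↦ (x, -y)`).
-/

set_option autoImplicit false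

open MeasureTheory Set Filter Topology

namespace Pool.Agent.Lib.MP_1dedaf_gt.DK

open Pool.Agent.Lib.MP_1dedaf_gt.LB

/-- Critical case C: the statement for near arcs which remains to be proved. -/
def CaseD : Prop := ∀ K : Bd, K.Ok → 0 < K.g 0 → K.g 0 < K.r 0 → 0 < K.l 0 → K.l 0 < K.u 0 → K.l K.w = K.u K.w → K.g K.h = K.r K.h →
  0 ≤ K.col.Phi (K.g 0) → K.col.Phi (K.r 0) ≤ 0 → K.col.Phi K.w ≤ 0 →
  0 ≤ K.row.Phi (K.l 0) → K.row.Phi (K.u 0) ≤ 0 → K.row.Phi K.h ≤ 0 → K.col.j (K.g 0) 0 = 0 → False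

/-- The kernel of the edges `s` and `s + m`. -/
noncomputable def jj (n : ℕ) (k : ZMod n → ℝ) (ξ : E2) (s : ZMod n) (m : ℕ) : ℝ := (sv n k ξ s).j (sx n k s m) (slk n m)

/-- The response of the edge `s` at the vertex `s + m`. -/
noncomputable def ff (n : ℕ) (k : ZMod n → ℝ) (ξ : E2) (s : ZMod n) (m : ℕ) : ℝ := (sv n k ξ s).Phi (sx n k s m)

/-- All edges have positive length. -/
structure Gp (n : ℕ) (k : ZMod n → ℝ) : Prop where
  len : ∀ i, lo n k i < hi n k i
  fat : Fat (dir n) k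

/-- Generic tilt. -/
def Gen (n : ℕ) (ξ : E2) : Prop := ∀ i : ZMod n, inner ℝ ξ (rot (dir n i)) ≠ 0

/-- All kernels are nonnegative (both orientations). -/
def AllNN (n : ℕ) (k : ZMod n → ℝ) (ξ : E2) : Prop := ∀ (s : ZMod n) (m : ℕ), 0 < m → 2 * m < n →
  0 ≤ jj n k ξ s m ∧ 0 ≤ jj n (fun i => k (-i)) (RfS1 ξ) s m

/-- The body reflected in `y = 0`. -/
noncomputable def Dat.mir (K : Dat) : Dat := ⟨K.p, - K.q, K.w, fun x => - K.u x, fun x => - K.l x⟩

/-- Right triangle with the legs `A`, `B`. -/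
noncomputable def tri (p q A B : ℝ) : Dat := ⟨p, q, A, fun _ => 0, fun x => B * (1 - x / A)⟩

/-- The support numbers of the triangle with the vertices `(0, b)`, `(0, -b)`, `(- b tan (π / n), 0)`. -/
noncomputable def k0 (n : ℕ) (b : ℝ) (i : ZMod n) : ℝ := b * |Real.sin (dl n * (i.val : ℝ))|

end Pool.Agent.Lib.MP_1dedaf_gt.DK
end
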