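import Pool.Agent.Lib.MP_1dedaf_gt.DK.SDefs
import Pool.Agent.Lib.MP_1dedaf_gt.Mg.G024
import Pool.Agent.Lib.MP_1dedaf_gt.Mg.G019
import Pool.Agent.Lib.MP_1dedaf_gt.Mg.G023
import Pool.Agent.Lib.MP_1dedaf_gt.Mg.G022
import Pool.Agent.Lib.MP_1dedaf_gt.Mg.G004
import Pool.Agent.Lib.MP_1dedaf_gt.Mg.G012

section

/-!
# TASK DK S4: THE KERNEL IS SYMMETRIC

Proof. `t = s + m ≠ s`. For `x, y > 0` let `T^{x,y} = update (update T s x) t y`, `k^{x,y}` an `Opt` vector for it (`exists_opt`, `dir_adm`; choose it by `Classical.choose`, and `k^{x0,y0} = k` by `opt_unique` if `(x0, y0) = (T s, T t)`). `al n m s T^{x,y} = al n m s T + (x - x0)` (coefficient `aj 0 = 1` of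
`T s`, `aj m = 0` of `T t`), `be n m s T^{x,y} = be n m s T + (y - y0)`, so both are nonzero on `[x0, x0+δ] × [y0, y0+δ]` for a small `δ > 0`, and `th (dir n) T^{x,y} ≠ 0` there (`th_pair`, `pair_indep`). Apply `clairaut` with `f = Psi (dir n) T^{x,y}`, `a = k^{x,y} s`, `b = k^{x,y} t`, `R = Rker n m s T^{x,y} k^{x,y}`,
`R' = Rker n m (-t) (T^{x,y} ∘ neg) (k^{x,y} ∘ neg)`. Derivatives of `f`: `psi_deriv` (the two updates commute). `∂_y a = - R`: `ks_deriv` (continuity: `opt_cont`). `∂_x b = - R'`: `ks_deriv` for the reflected data (`opt_neg`): `s' = -t`, `s' + m = -s`,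
`update (T ∘ neg) (-s) x = (update T s x) ∘ neg`, `al n m (-t) (T∘neg) = be n m s T`, `be n m (-t) (T∘neg) = al n m s T` (`al_neg`). Continuity of `R`, `R'`: `opt_tendsto` and `rker_tendsto`.
`al_neg`: `th (dir n) (T∘neg) = al' dir(-t) + be' dir(-s)` is the reflection of `th (dir n) T = al dir s + be dir t` (`th_pair`, `dir_neg`); `pair_indep`. Or directly from the sums: `aj n m j` at `-t + j = -(t - j)` is `bj n m (m - j)`-like; the first way is easier.
-/

set_option autoImplicit false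

open MeasureTheory Set Filter Topology

namespace Pool.Agent.Lib.MP_1dedaf_gt.DK

open Pool.Agent.Lib.MP_1dedaf_gt.LB

private theorem S4_th_neg (n : ℕ) [NeZero n] (T : ZMod n → ℝ) (x y : ℝ) (p q : ZMod n)
    (h : th (dir n) (fun i => T (-i)) = x • dir n (-p) + y • dir n (-q)) :
    th (dir n) T = x • dir n p + y • dir n q := by
  have h1 : th (dir n) (fun i => T (-i)) = ∑ i, T i • dir n (-i) := by
    unfold th
    exact (Equiv.sum_comp (Equiv.neg (ZMod n)) (fun i => T (-i) • dir n i)).symm.trans (by simp)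
  rw [h1] at h
  unfold th
  ext c
  have h2 := congrArg (fun z : E2 => z c) h
  simp only [dir_neg] at h2
  fin_cases c
  · simp [Finset.sum_apply] at h2 ⊢
    exact h2
  · simp [Finset.sum_apply] at h2 ⊢
    linarith

theorem al_neg (n : ℕ) [NeZero n] (hn : Odd n) (h3 : 3 ≤ n) {m : ℕ} (hm : 0 < m) (hm2 : 2 * m < n) (s : ZMod n) (T : ZMod n → ℝ) :
    al n m (-(s + (m : ℕ))) (fun i => T (-i)) = be n m s T ∧ be n m (-(s + (m : ℕ))) (fun i => T (-i)) = al n m s T := by
  have h1 := th_pair n hn h3 hm hm2 (-(s + (m : ℕ))) (fun i => T (-i))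
  rw [show -(s + (m : ZMod n)) + (m : ZMod n) = -s by ring] at h1
  have h2 := S4_th_neg n T _ _ _ _ h1
  rw [th_pair n hn h3 hm hm2 s T, add_comm] at h2
  have h3' := pair_indep n hm hm2 s (x := al n m s T) (y := be n m s T)
    (x' := be n m (-(s + (m : ℕ))) (fun i => T (-i))) (y' := al n m (-(s + (m : ℕ))) (fun i => T (-i)))
    (by rw [add_comm, h2, add_comm])
  exact ⟨h3'.2.symm, h3'.1.symm⟩

private theorem S4_upd_neg (n : ℕ) (T : ZMod n → ℝ) (i : ZMod n) (x : ℝ) :
    (fun j => Function.update T i x (-j)) = Function.update (fun j => T (-j)) (-i) x := by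
  funext j
  by_cases h : j = -i
  · subst h
    simp
  · have h' : -j ≠ i := fun h1 => h (by rw [← h1, neg_neg])
    rw [Function.update_of_ne h', Function.update_of_ne h]

theorem rker_symm (n : ℕ) [NeZero n] (hn : Odd n) (h3 : 3 ≤ n) {m : ℕ} (hm : 0 < m) (hm2 : 2 * m < n) (s : ZMod n) {T k : ZMod n → ℝ}
    (hT : ∀ i, 0 < T i) (ho : Opt (dir n) T k) (hal : al n m s T ≠ 0) (hbe : be n m s T ≠ 0) :
    Rker n m s T k = Rker n m (-(s + (m : ℕ))) (fun i => T (-i)) (fun i => k (-i)) := by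
  have hadm := dir_adm n hn h3
  have hts : s + (m : ZMod n) ≠ s := by
    intro h
    have h1 : ((m : ℕ) : ZMod n) = 0 := by
      have h2 : s + (m : ZMod n) = s + 0 := by rw [h, add_zero]
      exact add_left_cancel h2
    rw [ZMod.natCast_eq_zero_iff] at h1
    exact absurd (Nat.le_of_dvd hm h1) (by omega)
  have hst : s ≠ s + (m : ZMod n) := fun h => hts h.symm
  -- names
  obtain ⟨t, ht⟩ : ∃ t : ZMod n, t = s + (m : ZMod n) := ⟨_, rfl⟩
  have hs' : -t + (m : ZMod n) = -s := by rw [ht]; ring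
  -- positivity of updates
  have hpos : ∀ (T' : ZMod n → ℝ) (i : ZMod n) (x : ℝ), (∀ i, 0 < T' i) → 0 < x → ∀ j, 0 < Function.update T' i x j := by
    intro T' i x h1 h2 j
    by_cases h : j = i
    · subst h
      simpa using h2
    · rw [Function.update_of_ne h]
      exact h1 j
  -- the family
  obtain ⟨T2, hT2⟩ : ∃ T2 : ℝ → ℝ → ZMod n → ℝ, ∀ x y, T2 x y = Function.update (Function.update T s x) t y :=
    ⟨_, fun _ _ => rfl⟩
  have hT2' : ∀ x y, T2 x y = Function.update (Function.update T t y) s x := by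
    intro x y
    rw [hT2]
    exact Function.update_comm (by rw [ht]; exact hst) _ _ _
  have hT2pos : ∀ x y, 0 < x → 0 < y → ∀ i, 0 < T2 x y i := by
    intro x y hx hy
    rw [hT2]
    exact hpos _ _ _ (hpos _ _ _ hT hx) hy
  have hT20 : T2 (T s) (T t) = T := by
    rw [hT2, Function.update_eq_self, Function.update_eq_self]
  have hex : ∀ x y, ∃ k' : ZMod n → ℝ, 0 < x → 0 < y → Opt (dir n) (T2 x y) k' := by
    intro x y
    by_cases h : 0 < x ∧ 0 < y
    · obtain ⟨k', hk'⟩ := exists_opt hadm (hT2pos x y h.1 h.2)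
      exact ⟨k', fun _ _ => hk'⟩
    · exact ⟨0, fun h1 h2 => absurd ⟨h1, h2⟩ h⟩
  choose k2 hk2 using hex
  -- the coefficients
  have hbeU : ∀ (T' : ZMod n → ℝ) (y : ℝ), be n m s (Function.update T' t y) =
      be n m s (Function.update T' t 0) + y := by
    intro T' y
    rw [ht]
    exact be_upd n hm hm2 s T' y
  have halU : ∀ (T' : ZMod n → ℝ) (y : ℝ), al n m s (Function.update T' t y) = al n m s T' := by
    intro T' y
    rw [ht]
    exact al_upd n hm hm2 s T' y
  have halX : ∀ (T' : ZMod n → ℝ) (x : ℝ), al n m s (Function.update T' s x) =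
      al n m s (Function.update T' s 0) + x := by
    intro T' x
    rw [← (al_neg n hn h3 hm hm2 s (Function.update T' s x)).2, ← (al_neg n hn h3 hm hm2 s (Function.update T' s 0)).2,
      S4_upd_neg, S4_upd_neg, ← ht, ← hs']
    exact be_upd n hm hm2 (-t) _ x
  have hbeX : ∀ (T' : ZMod n → ℝ) (x : ℝ), be n m s (Function.update T' s x) = be n m s T' := by
    intro T' x
    rw [← (al_neg n hn h3 hm hm2 s (Function.update T' s x)).1, ← (al_neg n hn h3 hm hm2 s T').1,
      S4_upd_neg, ← ht, ← hs']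
    exact al_upd n hm hm2 (-t) _ x
  have hAL : ∀ x y, al n m s (T2 x y) = al n m s T + (x - T s) := by
    intro x y
    rw [hT2, halU, halX]
    have h1 := halX T (T s)
    rw [Function.update_eq_self] at h1
    linarith
  have hBE : ∀ x y, be n m s (T2 x y) = be n m s T + (y - T t) := by
    intro x y
    rw [hT2', hbeX, hbeU]
    have h1 := hbeU T (T t)
    rw [Function.update_eq_self] at h1
    linarith
  -- the tilt
  have hthne : ∀ x y, al n m s (T2 x y) ≠ 0 → th (dir n) (T2 x y) ≠ 0 := by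
    intro x y h h0
    rw [th_pair n hn h3 hm hm2 s] at h0
    have h1 := pair_indep n hm hm2 s (x := al n m s (T2 x y)) (y := be n m s (T2 x y)) (x' := 0) (y' := 0)
      (by rw [h0]; simp)
    exact h h1.1
  obtain ⟨δ, hδ, hδ1, hδ2⟩ : ∃ δ : ℝ, 0 < δ ∧ (∀ h, 0 ≤ h → h ≤ δ → al n m s T + h ≠ 0) ∧
      ∀ h, 0 ≤ h → h ≤ δ → be n m s T + h ≠ 0 := by
    refine ⟨min (|al n m s T|) (|be n m s T|) / 2, by positivity, ?_, ?_⟩
    · intro h h1 h2 h0
      have h4 : al n m s T = -h := by linarith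
      have h5 := min_le_left (|al n m s T|) (|be n m s T|)
      have h6 : 0 < |al n m s T| := abs_pos.mpr hal
      rw [h4, abs_neg, abs_of_nonneg h1] at h5 h6
      rw [h4, abs_neg, abs_of_nonneg h1] at h2
      linarith
    · intro h h1 h2 h0
      have h4 : be n m s T = -h := by linarith
      have h5 := min_le_right (|al n m s T|) (|be n m s T|)
      have h6 : 0 < |be n m s T| := abs_pos.mpr hbe
      rw [h4, abs_neg, abs_of_nonneg h1] at h5 h6
      rw [h4, abs_neg, abs_of_nonneg h1] at h2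
      linarith
  have hALne : ∀ x ∈ Icc (T s) (T s + δ), ∀ y, al n m s (T2 x y) ≠ 0 := by
    intro x hx y
    rw [hAL]
    exact hδ1 _ (by linarith [hx.1]) (by linarith [hx.2])
  have hBEne : ∀ x, ∀ y ∈ Icc (T t) (T t + δ), be n m s (T2 x y) ≠ 0 := by
    intro x y hy
    rw [hBE]
    exact hδ2 _ (by linarith [hy.1]) (by linarith [hy.2])
  have hxpos : ∀ x ∈ Icc (T s) (T s + δ), 0 < x := fun x hx => lt_of_lt_of_le (hT s) hx.1
  have hypos : ∀ y ∈ Icc (T t) (T t + δ), 0 < y := fun y hy => lt_of_lt_of_le (hT t) hy.1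
  have hk20 : k2 (T s) (T t) = k := by
    refine opt_unique n hn h3 hT ?_ ?_ ho
    · have := hthne (T s) (T t) (by rw [hT20]; exact hal)
      rwa [hT20] at this
    · have := hk2 (T s) (T t) (hT s) (hT t)
      rwa [hT20] at this
  -- reflected data
  have hnegT2 : ∀ x y, (fun i => T2 x y (-i)) =
      Function.update (fun i => Function.update T t y (-i)) (-t + (m : ZMod n)) x := by
    intro x y
    rw [hT2', S4_upd_neg, hs']
  have hkey := clairaut (fun x y => Psi (dir n) (T2 x y)) (fun x y => k2 x y s) (fun x y => k2 x y t)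
    (fun x y => Rker n m s (T2 x y) (k2 x y))
    (fun x y => Rker n m (-t) (fun i => T2 x y (-i)) (fun i => k2 x y (-i))) (T s) (T t) δ hδ ?_ ?_
  · simp only [hT20, hk20] at hkey
    rw [ht] at hkey
    exact hkey
  · intro x hx y hy
    have hx0 := hxpos x hx
    have hy0 := hypos y hy
    have hthxy := hthne x y (hALne x hx y)
    have hoX : ∀ x', 0 < x' → Opt (dir n) (Function.update (Function.update T t y) s x') (k2 x' y) := by
      intro x' hx'
      rw [← hT2']
      exact hk2 x' y hx' hy0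
    have hoY : ∀ y', 0 < y' → Opt (dir n) (Function.update (Function.update T s x) t y') (k2 x y') := by
      intro y' hy'
      rw [← hT2]
      exact hk2 x y' hx0 hy'
    refine ⟨?_, ?_, ?_, ?_⟩
    · have h1 := psi_deriv n hn h3 (hpos T t y hT hy0) s (fun x' => k2 x' y) hoX hx0 (by rw [← hT2']; exact hthxy)
      simp only [← hT2'] at h1
      exact h1
    · have h1 := psi_deriv n hn h3 (hpos T s x hT hx0) t (fun y' => k2 x y') hoY hy0 (by rw [← hT2]; exact hthxy)
      simp only [← hT2] at h1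
      exact h1
    · have hc := opt_cont n hn h3 (hpos T s x hT hx0) t (fun y' => k2 x y') hoY hy0 (by rw [← hT2]; exact hthxy)
      have h1 := ks_deriv n hn h3 hm hm2 s (hpos T s x hT hx0) (fun y' => k2 x y') (by rw [← ht]; exact hoY) hy0 hc
        (by rw [← ht, ← hT2]; exact hALne x hx y) (by rw [← ht, ← hT2]; exact hBEne x y hy)
      rw [← ht, ← hT2] at h1
      exact h1
    · have hc := opt_cont n hn h3 (hpos T t y hT hy0) s (fun x' => k2 x' y) hoX hx0 (by rw [← hT2']; exact hthxy)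
      have hc' : ContinuousAt (fun x' => fun i => k2 x' y (-i)) x := by
        have h1 : Continuous (fun (q : ZMod n → ℝ) (i : ZMod n) => q (-i)) :=
          continuous_pi fun i => continuous_apply (-i)
        exact ContinuousAt.comp (g := fun (q : ZMod n → ℝ) (i : ZMod n) => q (-i)) h1.continuousAt hc
      have hpos' : ∀ i, 0 < (fun i => Function.update T t y (-i)) i := fun i => hpos T t y hT hy0 (-i)
      have h1 := ks_deriv n hn h3 hm hm2 (-t) hpos' (fun x' => fun i => k2 x' y (-i))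
        (by
          intro x' hx'
          rw [← hnegT2]
          exact opt_neg n hn h3 (hk2 x' y hx' hy0)) hx0 hc'
        (by
          rw [← hnegT2, ht, (al_neg n hn h3 hm hm2 s (T2 x y)).1]
          exact hBEne x y hy)
        (by
          rw [← hnegT2, ht, (al_neg n hn h3 hm hm2 s (T2 x y)).2]
          exact hALne x hx y)
      rw [← hnegT2] at h1
      simp only [neg_neg] at h1
      exact h1
  · intro xs ys hxs hys hxl hyl
    have hTl : Tendsto (fun j => T2 (xs j) (ys j)) atTop (𝓝 (T2 (T s) (T t))) := by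
      rw [tendsto_pi_nhds]
      intro i
      simp only [hT2]
      by_cases h1 : i = t
      · subst h1
        simpa using hyl
      · by_cases h2 : i = s
        · subst h2
          simp only [Function.update_of_ne h1, Function.update_self]
          exact hxl
        · simp only [Function.update_of_ne h1, Function.update_of_ne h2]
          exact tendsto_const_nhds
    have hx0 : T s ∈ Icc (T s) (T s + δ) := ⟨le_rfl, by linarith⟩
    have hy0 : T t ∈ Icc (T t) (T t + δ) := ⟨le_rfl, by linarith⟩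
    have hkl : Tendsto (fun j => k2 (xs j) (ys j)) atTop (𝓝 (k2 (T s) (T t))) := by
      refine opt_tendsto n hn h3 (hT2pos _ _ (hT s) (hT t)) (fun j => hT2pos _ _ (hxpos _ (hxs j)) (hypos _ (hys j)))
        hTl (hthne _ _ (hALne _ hx0 _)) (fun j => hk2 _ _ (hxpos _ (hxs j)) (hypos _ (hys j))) (hk2 _ _ (hT s) (hT t))
    have hneg : Continuous (fun (q : ZMod n → ℝ) (i : ZMod n) => q (-i)) :=
      continuous_pi fun i => continuous_apply (-i)
    refine ⟨?_, ?_⟩
    · exact rker_tendsto n hn h3 hm hm2 s (hT2pos _ _ (hT s) (hT t)) (hk2 _ _ (hT s) (hT t)) (hALne _ hx0 _)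
        (hBEne _ _ hy0) hTl hkl
    · refine rker_tendsto n hn h3 hm hm2 (-t) (T := fun i => T2 (T s) (T t) (-i)) (k := fun i => k2 (T s) (T t) (-i))
        (Ts := fun j i => T2 (xs j) (ys j) (-i)) (ks := fun j i => k2 (xs j) (ys j) (-i))
        (fun i => hT2pos _ _ (hT s) (hT t) (-i)) (opt_neg n hn h3 (hk2 _ _ (hT s) (hT t))) ?_ ?_
        ((hneg.tendsto _).comp hTl) ((hneg.tendsto _).comp hkl)
      · rw [ht, (al_neg n hn h3 hm hm2 s _).1, ← ht]
        exact hBEne _ _ hy0
      · rw [ht, (al_neg n hn h3 hm hm2 s _).2, ← ht]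
        exact hALne _ hx0 _

end Pool.Agent.Lib.MP_1dedaf_gt.DK
end

section

/-!
# TASK DC SM: the reflected polygon

`k' i = k (-i)`, tilt `RfS1 ξ`. Proof. `dir n (-i) = RfS1 (dir n i)` (`RfS1_dir`), `RfS1 (rot x) = - rot (RfS1 x)` (`RfS1_rot`), `RfS1_inner`. `p`: `- <RfS1 ξ, dir (-s)> = - <ξ, dir s>`; `q`: `- <RfS1 ξ, rot (dir (-s))> = <ξ, rot (dir s)>`.
Lines: `ln n k' (-s) j x = ((k s - x) cos (j dl) - k (s - j)) / sin (j dl)` and `s - j = s + (n - j)` in `ZMod n`, `cos ((n - j) dl) = cos (j dl)`, `sin ((n - j) dl) = - sin (j dl)` (`n dl = 2 π`), so `ln n k' (-s) j x = - ln n k s (n - j) x` for `j ≤ n`.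
Vertices: `sx n k' (-s) j = sx n k s (n - 1 - j)` for `j ≤ n - 1`: `ver n k' i = RfS1 (ver n k (-i-1))` (both are the intersection of two lines: use `ver_inner`, or the formula `B1_sx` for `sx` at the two indices: `hi n k' i = - lo n k (-i)`, `lo n k' i = - hi n k (-i)`).
`w`: `(n - 1)/2 = n - 1 - (n-1)/2` as `n` is odd. `l`: `⨆_{i < h} ln n k' (-s) (i+1) x = ⨆ - ln n k s (n - 1 - i) x = - ⨅ ln n k s (h + 1 + i') x` (reindex by `i' = h - 1 - i`, `h = (n-1)/2`, `n - 1 - i = h + 1 + i'`; suprema over a finite nonempty type; for example compare both inequalities with `ciSup_le`, `le_ciSup`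
(finite range is bounded), `Fin.rev`).
-/

set_option autoImplicit false

open MeasureTheory Set Filter Topology

namespace Pool.Agent.Lib.MP_1dedaf_gt.DK

open Pool.Agent.Lib.MP_1dedaf_gt.LB

private theorem sm_iSup {h : ℕ} (g : Fin h → ℝ) : (⨆ i : Fin h, - g (Fin.rev i)) = - ⨅ i : Fin h, g i := by
  have h1 : (Set.range fun i : Fin h => - g (Fin.rev i)) = - Set.range g := by
    ext y
    simp only [Set.mem_range, Set.mem_neg]
    constructor
    · rintro ⟨i, rfl⟩
      exact ⟨Fin.rev i, by ring⟩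
    · rintro ⟨i, hi⟩
      exact ⟨Fin.rev i, by rw [Fin.rev_rev, hi, neg_neg]⟩
  unfold iSup iInf
  rw [h1, Real.sSup_neg]

private theorem sm_iInf {h : ℕ} (g : Fin h → ℝ) : (⨅ i : Fin h, - g (Fin.rev i)) = - ⨆ i : Fin h, g i := by
  have h1 : (Set.range fun i : Fin h => - g (Fin.rev i)) = - Set.range g := by
    ext y
    simp only [Set.mem_range, Set.mem_neg]
    constructor
    · rintro ⟨i, rfl⟩
      exact ⟨Fin.rev i, by ring⟩
    · rintro ⟨i, hi⟩
      exact ⟨Fin.rev i, by rw [Fin.rev_rev, hi, neg_neg]⟩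
  unfold iSup iInf
  rw [h1, Real.sInf_neg]

private theorem sm_ver (n : ℕ) [NeZero n] (hn : Odd n) (h3 : 3 ≤ n) (k : ZMod n → ℝ) (i : ZMod n) :
    ver n (fun i => k (-i)) i = RfS1 (ver n k (-i - 1)) := by
  rw [ver_eq n hn h3 k (-i), RfS1_pt]
  unfold ver hi lo
  simp only [neg_neg]
  have e : -(i + 1) = -i - 1 := by ring
  rw [e]
  congr 2
  rw [← neg_div]
  congr 1
  ring

theorem ln_mir (n : ℕ) [NeZero n] (hn : Odd n) (h3 : 3 ≤ n) (k : ZMod n → ℝ) (s : ZMod n) (j : ℕ) (hj : j ≤ n) (x : ℝ) :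
    ln n (fun i => k (-i)) (-s) j x = - ln n k s (n - j) x := by
  have hn0 : (n : ℝ) ≠ 0 := Nat.cast_ne_zero.mpr (NeZero.ne n)
  have h1 : (((n - j : ℕ) : ℝ)) * dl n = 2 * Real.pi - j * dl n := by
    rw [Nat.cast_sub hj, sub_mul]
    congr 1
    unfold dl
    field_simp
  have h2 : s + ((n - j : ℕ) : ZMod n) = -(-s + (j : ZMod n)) := by
    rw [Nat.cast_sub hj, ZMod.natCast_self]
    ring
  unfold ln
  rw [h1, h2, Real.cos_two_pi_sub, Real.sin_two_pi_sub, div_neg, neg_neg]
  simp only [neg_neg]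

theorem sx_mir (n : ℕ) [NeZero n] (hn : Odd n) (h3 : 3 ≤ n) (k : ZMod n → ℝ) (s : ZMod n) (j : ℕ) (hj : j ≤ n - 1) :
    sx n (fun i => k (-i)) (-s) j = sx n k s (n - 1 - j) := by
  have h1 : -(-s + ((j : ℕ) : ZMod n)) - 1 = s + ((n - 1 - j : ℕ) : ZMod n) := by
    rw [Nat.cast_sub hj, Nat.cast_sub (by omega : 1 ≤ n)]
    simp
    ring
  unfold sx
  rw [sm_ver n hn h3, h1, ← RfS1_dir, RfS1_inner]
  simp only [neg_neg]

theorem sv_mir (n : ℕ) [NeZero n] (hn : Odd n) (h3 : 3 ≤ n) (k : ZMod n → ℝ) (ξ : E2) (s : ZMod n) :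
    sv n (fun i => k (-i)) (RfS1 ξ) (-s) = (sv n k ξ s).mir := by
  obtain ⟨m, hm⟩ := hn
  have hn' : Odd n := ⟨m, hm⟩
  have hh : (n - 1) / 2 = m := by omega
  unfold sv Dat.mir
  simp only
  have e1 : - inner ℝ (RfS1 ξ) (dir n (-s)) = - inner ℝ ξ (dir n s) := by
    rw [← RfS1_dir, RfS1_inner]
  have e2 : - inner ℝ (RfS1 ξ) (rot (dir n (-s))) = - - inner ℝ ξ (rot (dir n s)) := by
    rw [← RfS1_dir, ← neg_neg (rot (RfS1 (dir n s))), ← RfS1_rot, inner_neg_right, RfS1_inner]
  have e3 : sx n (fun i => k (-i)) (-s) ((n - 1) / 2) = sx n k s ((n - 1) / 2) := by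
    rw [sx_mir n hn' h3 k s _ (by omega)]
    congr 1
    omega
  have e4 : (fun x => ⨆ i : Fin ((n - 1) / 2), ln n (fun i => k (-i)) (-s) (i.val + 1) x) =
      fun x => - ⨅ i : Fin ((n - 1) / 2), ln n k s ((n - 1) / 2 + 1 + i.val) x := by
    funext x
    rw [← sm_iSup]
    congr 1
    funext i
    have hi := i.isLt
    rw [ln_mir n hn' h3 k s _ (by omega)]
    congr 2
    rw [Fin.val_rev]
    omega
  have e5 : (fun x => ⨅ i : Fin ((n - 1) / 2), ln n (fun i => k (-i)) (-s) ((n - 1) / 2 + 1 + i.val) x) =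
      fun x => - ⨆ i : Fin ((n - 1) / 2), ln n k s (i.val + 1) x := by
    funext x
    rw [← sm_iInf]
    congr 1
    funext i
    have hi := i.isLt
    rw [ln_mir n hn' h3 k s _ (by omega)]
    congr 2
    rw [Fin.val_rev]
    omega
  rw [e1, e2, e3, e4, e5]

end Pool.Agent.Lib.MP_1dedaf_gt.DK
end
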