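import Pool.Agent.Lib.MP_1dedaf_gt.Mg.G026
import Pool.Agent.Lib.MP_1dedaf_gt.DK.Goals
import Pool.Agent.Lib.MP_1dedaf_gt.DK.DC.CT
import Pool.Agent.Lib.MP_1dedaf_gt.DK.DC.LG
import Pool.Agent.Lib.MP_1dedaf_gt.Mg.G025
import Pool.Agent.Lib.MP_1dedaf_gt.Mg.G024

section

/-!
# Near arcs, rotations (campaign EP): the statement and the class

`K.Cx`: a convex body (as column data). `K.Arc T z kt`: the line of slope `kt` through `(z, l z)` supports the body from below and over `[0, z]`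
the lower boundary is covered by this line and the lines of `T` (pairs slope, value at `0`), whose slopes are `≤ kt`. `PosK k`: the kernel of `x = 0` and such a line is `≥ 0` if `T`
has at most `k` elements. `EB` are the fixed data of the class: `L` the fixed part of the lower boundary (near lines `S`, far part with slopes `≥ k0`), `u` the upper boundary; a member
`B.dat θ` has the lower boundary `max (L, e, t)` with two moving lines `e = ke x + he`, `t = kt x + ht`, and is truncated at `x = c`; `z` is the contact point of `t`; `kt ∈ [k1, k0]`.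
-/

set_option autoImplicit false

open MeasureTheory Set Filter Topology

namespace Pool.Agent.Lib.MP_1dedaf_gt.DK

/-- Convex column data. -/
structure Dat.Cx (K : Dat) : Prop extends K.Reg where
  vl : ConvexOn ℝ (Icc 0 K.w) K.l
  vu : ConcaveOn ℝ (Icc 0 K.w) K.u

/-- The line of slope `kt` through `(z, l z)` supports the body; over `[0, z]` the lower boundary is covered by it and by the lines of `T`. -/
structure Dat.Arc (K : Dat) (T : Finset (ℝ × ℝ)) (z kt : ℝ) : Prop where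
  z0 : 0 ≤ z
  zw : z ≤ K.w
  sup : ∀ x ∈ Icc 0 K.w, K.l z + kt * (x - z) ≤ K.l x
  sl : ∀ e ∈ T, e.1 ≤ kt
  le : ∀ e ∈ T, ∀ x ∈ Icc 0 z, e.1 * x + e.2 ≤ K.l x
  cov : ∀ x ∈ Icc 0 z, K.l x = K.l z + kt * (x - z) ∨ ∃ e ∈ T, K.l x = e.1 * x + e.2

/-- The kernel inequality for at most `k` near lines. -/
def PosK (k : ℕ) : Prop := ∀ (K : Dat) (T : Finset (ℝ × ℝ)) (z kt : ℝ), K.Cx → T.card ≤ k → K.Arc T z kt → 0 ≤ K.j z kt

/-- The fixed data of the class. -/
structure EB where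
  p : ℝ
  q : ℝ
  w : ℝ
  L : ℝ → ℝ
  u : ℝ → ℝ
  S : Finset (ℝ × ℝ)
  k0 : ℝ
  k1 : ℝ

/-- The parameters of a member. -/
structure Th where
  ke : ℝ
  he : ℝ
  kt : ℝ
  ht : ℝ
  z : ℝ
  c : ℝ

/-- Regularity of the fixed data. -/
structure EB.Ok (B : EB) : Prop where
  hq : B.q ≠ 0
  hw : 0 < B.w
  cL : Continuous B.L
  cu : Continuous B.u
  vL : ConvexOn ℝ (Icc 0 B.w) B.L
  vu : ConcaveOn ℝ (Icc 0 B.w) B.u
  Lu : ∀ x ∈ Icc 0 B.w, B.L x ≤ B.u x
  le : ∀ e ∈ B.S, ∀ x ∈ Icc 0 B.w, e.1 * x + e.2 ≤ B.L x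
  cov : ∀ x ∈ Icc 0 B.w, (∃ e ∈ B.S, B.L x = e.1 * x + e.2) ∨ ∀ y ∈ Icc x B.w, B.k0 * (y - x) ≤ B.L y - B.L x

/-- The member of the class with the parameters `θ`. -/
noncomputable def EB.dat (B : EB) (θ : Th) : Dat :=
  ⟨B.p, B.q, B.w - θ.c, fun x => max (B.L (θ.c + x)) (max (θ.ke * (θ.c + x) + θ.he) (θ.kt * (θ.c + x) + θ.ht)), fun x => B.u (θ.c + x)⟩

/-- `θ` is admissible. -/
structure EB.In (B : EB) (θ : Th) : Prop where
  sS : ∀ e ∈ B.S, e.1 ≤ θ.ke
  et : θ.ke ≤ θ.kt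
  t0 : θ.kt ≤ B.k0
  t1 : B.k1 ≤ θ.kt
  c0 : 0 ≤ θ.c
  cz : θ.c ≤ θ.z
  zw : θ.z ≤ B.w
  ew : θ.ke * B.w + θ.he ≤ B.L B.w
  tw : θ.kt * B.w + θ.ht ≤ B.L B.w
  ec : θ.ke * θ.c + θ.he ≤ B.u θ.c
  tc : θ.kt * θ.c + θ.ht ≤ B.u θ.c
  Lz : B.L θ.z ≤ θ.kt * θ.z + θ.ht
  ez : θ.ke * θ.z + θ.he ≤ θ.kt * θ.z + θ.ht
  cw : θ.c < B.w
  fat : ∃ x ∈ Icc θ.c B.w, max (B.L x) (max (θ.ke * x + θ.he) (θ.kt * x + θ.ht)) < B.u x

/-- The absolute kernel. -/
noncomputable def EB.val (B : EB) (θ : Th) : ℝ := Real.exp (B.p * θ.c) * ((B.dat θ).M * (B.dat θ).j (θ.z - θ.c) θ.kt)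

/-- `θ` is a negative minimiser. -/
structure EB.Min (B : EB) (θ : Th) : Prop where
  inn : B.In θ
  neg : B.val θ < 0
  le : ∀ θ' : Th, B.In θ' → B.val θ ≤ B.val θ'

/-- The lower bound for the slope of `t` is not attained, or it does not matter. -/
def EB.Good (B : EB) (θ : Th) : Prop :=
  B.k1 < θ.kt ∨ ∀ x ∈ Icc θ.z B.w, B.L x ≤ θ.kt * x + θ.ht → x < B.w ∧ (B.dat θ).Xl (x - θ.c) < (B.dat θ).a

/-- Normal position: `t` is the line `y = 0`, which touches over `[xt, x1]`, the line `e` has slope `-nu` and touches over `[xs, xt]`; no truncation. -/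
structure EB.Nf (B : EB) (nu xs xt x1 : ℝ) : Prop where
  ok : B.Ok
  k0 : 0 ≤ B.k0
  k1 : B.k1 ≤ 0
  hnu : 0 < nu
  hxs : 0 ≤ xs
  hst : xs < xt
  ht1 : xt ≤ x1
  hx1 : x1 ≤ B.w
  sS : ∀ e ∈ B.S, e.1 < - nu
  Ls : ∀ x ∈ Ico 0 xs, nu * (xt - x) < B.L x
  Le : ∀ x ∈ Ioo xs xt, B.L x < nu * (xt - x)
  Lt : ∀ x ∈ Icc xt x1, B.L x ≤ 0
  Lf : ∀ x ∈ Ioc x1 B.w, 0 < B.L x
  Lw : 0 ≤ B.L B.w
  eu : nu * xt ≤ B.u 0
  fat : ∃ x ∈ Icc 0 B.w, max (B.L x) (max (nu * (xt - x)) 0) < B.u x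

/-- The body in normal position. -/
noncomputable def EB.nd (B : EB) (nu xt : ℝ) : Dat := ⟨B.p, B.q, B.w, fun x => max (B.L x) (max (nu * (xt - x)) 0), B.u⟩

/-- The parameters of the body in normal position. -/
noncomputable def nth (nu xt x1 : ℝ) : Th := ⟨-nu, nu * xt, 0, 0, x1, 0⟩

end Pool.Agent.Lib.MP_1dedaf_gt.DK
end

section

/-!
# TASK DC SY: the symmetry for limits of polygons

`k1 = 1` has positive edges (`lo n k1 i = (cos dl - 1)/sin dl < 0`, `hi n k1 i = (1 - cos dl)/sin dl > 0`) and is `Fat` (the point `0`). `ks j i = (1 - t_j) k i + t_j`, `t_j = 1/(j+2)`: `lo`, `hi` are linear in `k`, so `Gp n (ks j)`; `Fat`: convex combination of the two interior points (`(1 - t) x0 + t 0`). `e3` for `ks j`, and `jj_tendsto` on both sides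
(the tilt is constant; `Reg` by `reg_gd` for `k` and for the reflected polygon, whose lengths are `≥ 0` and which is `Fat`, and `q ≠ 0` from `Gen`, `gen_rf`). `gd_neg`: `lo n k' i = - hi n k (-i)`, `hi n k' i = - lo n k (-i)`.
-/

set_option autoImplicit false

open MeasureTheory Set Filter Topology

namespace Pool.Agent.Lib.MP_1dedaf_gt.DK

open Pool.Agent.Lib.MP_1dedaf_gt.LB

private theorem SY_lo (n : ℕ) (k : ZMod n → ℝ) (i : ZMod n) :
    lo n (fun i => k (-i)) i = - hi n k (-i) ∧ hi n (fun i => k (-i)) i = - lo n k (-i) := by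
  unfold lo hi
  have h1 : -(i - 1) = -i + 1 := by ring
  have h2 : -(i + 1) = -i - 1 := by ring
  constructor
  · simp only [h1]
    ring
  · simp only [h2]
    ring

private theorem SY_lin (n : ℕ) (k k1 : ZMod n → ℝ) (t : ℝ) (i : ZMod n) :
    lo n (fun i => (1 - t) * k i + t * k1 i) i = (1 - t) * lo n k i + t * lo n k1 i ∧
      hi n (fun i => (1 - t) * k i + t * k1 i) i = (1 - t) * hi n k i + t * hi n k1 i := by
  unfold lo hi
  constructor <;> ring

private theorem SY_one (n : ℕ) [NeZero n] (hn : Odd n) (h3 : 3 ≤ n) : Gp n (fun _ => 1) := by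
  have hs : 0 < Real.sin (dl n) := by
    have h := sin_pos n (m := 1) one_pos (by omega)
    rwa [Nat.cast_one, one_mul] at h
  have hc : Real.cos (dl n) < 1 := by
    have h := Real.sin_sq_add_cos_sq (dl n)
    nlinarith [Real.cos_le_one (dl n), mul_pos hs hs]
  refine ⟨fun i => ?_, 0, fun i => ?_⟩
  · unfold lo hi
    rw [div_lt_div_iff_of_pos_right hs]
    linarith
  · rw [inner_zero_left]
    exact one_pos

theorem gd_neg (n : ℕ) [NeZero n] (hn : Odd n) (h3 : 3 ≤ n) {k : ZMod n → ℝ} (hl : ∀ i, lo n k i ≤ hi n k i) (hf : Fat (dir n) k) :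
    (∀ i, lo n (fun i => k (-i)) i ≤ hi n (fun i => k (-i)) i) ∧ Fat (dir n) (fun i => k (-i)) := by
  refine ⟨fun i => ?_, ?_⟩
  · rw [(SY_lo n k i).1, (SY_lo n k i).2]
    exact neg_le_neg (hl _)
  · obtain ⟨x, hx⟩ := hf
    refine ⟨RfS1 x, fun i => ?_⟩
    rw [RfS1_inner', RfS1_dir]
    exact hx (-i)

/-- Convex combinations with a polygon with positive edges have positive edges. -/
theorem gp_comb (n : ℕ) [NeZero n] (hn : Odd n) (h3 : 3 ≤ n) {k k1 : ZMod n → ℝ} (hl : ∀ i, lo n k i ≤ hi n k i) (hf : Fat (dir n) k) (hk : Gp n k1)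
    {t : ℝ} (ht : 0 < t) (ht1 : t ≤ 1) : Gp n (fun i => (1 - t) * k i + t * k1 i) := by
  refine ⟨fun i => ?_, ?_⟩
  · rw [(SY_lin n k k1 t i).1, (SY_lin n k k1 t i).2]
    exact add_lt_add_of_le_of_lt (mul_le_mul_of_nonneg_left (hl i) (by linarith))
      (mul_lt_mul_of_pos_left (hk.len i) ht)
  · obtain ⟨x, hx⟩ := hf
    obtain ⟨y, hy⟩ := hk.fat
    refine ⟨(1 - t) • x + t • y, fun i => ?_⟩
    rw [inner_add_left, real_inner_smul_left, real_inner_smul_left]
    exact add_lt_add_of_le_of_lt (mul_le_mul_of_nonneg_left (hx i).le (by linarith))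
      (mul_lt_mul_of_pos_left (hy i) ht)

theorem sym_gd (n : ℕ) [NeZero n] (hn : Odd n) (h3 : 3 ≤ n) {k : ZMod n → ℝ} (hl : ∀ i, lo n k i ≤ hi n k i) (hf : Fat (dir n) k) {ξ : E2} (hξ : Gen n ξ)
    (s : ZMod n) {m : ℕ} (hm : 0 < m) (hm2 : 2 * m < n) : jj n k ξ s m = jj n (fun i => k (-i)) (RfS1 ξ) (-(s + (m : ℕ))) m := by
  obtain ⟨t, ht⟩ : ∃ t : ℕ → ℝ, t = fun j : ℕ => 1 / ((j : ℝ) + 1) := ⟨_, rfl⟩
  have t0 : ∀ j, 0 < t j := fun j => by
    rw [ht]
    positivity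
  have t1 : ∀ j, t j ≤ 1 := fun j => by
    rw [ht]
    simp only
    rw [div_le_one (by positivity)]
    have : (0 : ℝ) ≤ j := by positivity
    linarith
  have tt : Tendsto t atTop (𝓝 0) := by
    rw [ht]
    exact tendsto_one_div_add_atTop_nhds_zero_nat
  obtain ⟨ks, hks⟩ : ∃ ks : ℕ → ZMod n → ℝ, ks = fun j i => (1 - t j) * k i + t j * 1 := ⟨_, rfl⟩
  have hG : ∀ j, Gp n (ks j) := fun j => by
    rw [hks]
    exact gp_comb n hn h3 hl hf (SY_one n hn h3) (t0 j) (t1 j)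
  have hcoord : ∀ i, Tendsto (fun j => ks j i) atTop (𝓝 (k i)) := fun i => by
    rw [hks]
    have h := ((tendsto_const_nhds (x := (1 : ℝ))).sub tt).mul_const (k i)
    have h' := h.add (tt.mul_const 1)
    simp only [sub_zero, one_mul, zero_mul, add_zero] at h'
    exact h'
  have hT : Tendsto ks atTop (𝓝 k) := tendsto_pi_nhds.2 hcoord
  have hT' : Tendsto (fun j i => ks j (-i)) atTop (𝓝 (fun i => k (-i))) :=
    tendsto_pi_nhds.2 fun i => hcoord (-i)
  obtain ⟨hl', hf'⟩ := gd_neg n hn h3 hl hf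
  have hR : (sv n k ξ s).Reg := reg_gd n hn h3 hl hf ξ s (neg_ne_zero.2 (hξ s))
  have hR' : (sv n (fun i => k (-i)) (RfS1 ξ) (-(s + (m : ℕ)))).Reg :=
    reg_gd n hn h3 hl' hf' (RfS1 ξ) _ (neg_ne_zero.2 (gen_rf n hn h3 hξ _))
  have c1 := (jj_tendsto n hn h3 hT (tendsto_const_nhds (x := ξ)) s m hR).1
  have c2 := (jj_tendsto n hn h3 hT' (tendsto_const_nhds (x := RfS1 ξ)) (-(s + (m : ℕ))) m hR').1
  refine tendsto_nhds_unique c1 ?_
  have h := c2
  refine h.congr fun j => ?_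
  exact (e3 n hn h3 (hG j) hξ s hm hm2).symm

end Pool.Agent.Lib.MP_1dedaf_gt.DK
end

section

/-!
# TASK NA B1: points of the polygon in the coordinates of the edge `s`, edges of length `≥ 0`

Same statement and same proof as `mem_Q` in N0, with the facts of DC/LG (`w_gd`, `reg_gd`, `end_gd`, `l_gd`, `LG_u_gd`) in place of `sv_ends`, `sv_lt`. For `z = (k s - x) dir s - y rot (dir s)`: `<z, dir (s+j)> - k (s+j) = sin (j dl) (ln j x - y)` for `j ≠ 0`, `<z, dir s> ≤ k s` iff `0 ≤ x`. So `z ∈ Q` iff `0 ≤ x` and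
`l x ≤ y ≤ u x` (finite sup / inf). If `x > w` then `z ∉ Q`: `dir s = - (dir (s+h) + dir (s+h+1))/(2 cos (dl/2))` gives `<z, dir s> ≥ k s - w` for `z ∈ Q` (`w = sx h`, see `w_gd`). `lu_gd`: from `reg_gd` if `q ≠ 0`; in general `sv` depends on `ξ` only through `p`, `q` (`l`, `u`, `w` do not contain `ξ`), so use a `ξ'` with `q ≠ 0`
(e.g. `ξ' = rot (dir s)`).
-/

set_option autoImplicit false

open MeasureTheory Set Filter Topology

namespace Pool.Agent.Lib.MP_1dedaf_gt.DK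

open Pool.Agent.Lib.MP_1dedaf_gt.LB

private theorem B1g_alg (y X : ℝ) {a b c d : ℝ} (hb : b ≠ 0) (hd : d ≠ 0) :
    y - X * (c / d) - (y - X * (a / b)) = X * ((d * a - c * b) / (b * d)) := by
  field_simp
  ring

private theorem B1g_ln_affine (n : ℕ) (k : ZMod n → ℝ) (s : ZMod n) (j : ℕ) (x y : ℝ) :
    ln n k s j x = ln n k s j y - (x - y) * (Real.cos (j * dl n) / Real.sin (j * dl n)) := by
  unfold ln
  ring

private theorem B1g_step (n : ℕ) [NeZero n] (hn : Odd n) (h3 : 3 ≤ n) (k : ZMod n → ℝ) (s : ZMod n)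
    (i : ℕ) (h1 : Real.sin ((i + 1 : ℕ) * dl n) ≠ 0) (h2 : Real.sin ((i + 1 + 1 : ℕ) * dl n) ≠ 0)
    (x : ℝ) : ln n k s (i + 1 + 1) x - ln n k s (i + 1) x = (x - sx n k s (i + 1)) *
      (Real.sin (dl n) / (Real.sin ((i + 1 : ℕ) * dl n) * Real.sin ((i + 1 + 1 : ℕ) * dl n))) := by
  have e1 := ln_end n hn h3 k s i h1
  have e2 := ln_start n hn h3 k s (i + 1) h2
  have a1 := B1g_ln_affine n k s (i + 1) x (sx n k s (i + 1))
  have a2 := B1g_ln_affine n k s (i + 1 + 1) x (sx n k s (i + 1))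
  rw [e1] at a1
  rw [e2] at a2
  rw [a1, a2]
  have hs : Real.sin (dl n) = Real.sin ((i + 1 + 1 : ℕ) * dl n) * Real.cos ((i + 1 : ℕ) * dl n) -
      Real.cos ((i + 1 + 1 : ℕ) * dl n) * Real.sin ((i + 1 : ℕ) * dl n) := by
    rw [← Real.sin_sub]
    congr 1
    push_cast
    ring
  rw [hs]
  exact B1g_alg _ _ h1 h2

private theorem B1g_sin_dl (n : ℕ) [NeZero n] (hn : Odd n) (h3 : 3 ≤ n) : 0 < Real.sin (dl n) := by
  have h := sin_lo n hn h3 0 (by omega)
  simpa using h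

private theorem B1g_frame (u θ z : E2) (hu : ‖u‖ = 1) :
    inner ℝ θ z = inner ℝ θ u * inner ℝ z u + inner ℝ θ (rot u) * inner ℝ z (rot u) := by
  have h1 : u 0 ^ 2 + u 1 ^ 2 = 1 := by
    have h := EuclideanSpace.real_norm_sq_eq u
    rw [Fin.sum_univ_two, hu] at h
    linarith
  simp only [PiLp.inner_apply, rot, Fin.sum_univ_two, RCLike.inner_apply, conj_trivial]
  simp
  linear_combination (-(z 0 * θ 0 + z 1 * θ 1)) * h1

private theorem B1g_pt (n : ℕ) [NeZero n] (k : ZMod n → ℝ) (s : ZMod n) (j : ℕ) (z : E2) (hs : Real.sin ((j : ℝ) * dl n) ≠ 0) :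
    inner ℝ z (dir n (s + (j : ℕ))) - k (s + (j : ℕ)) = Real.sin ((j : ℝ) * dl n) *
      (ln n k s j (k s - inner ℝ z (dir n s)) - (- inner ℝ z (rot (dir n s)))) := by
  obtain ⟨h1, h2, -⟩ := dir_inner n s j
  rw [B1g_frame (dir n s) z (dir n (s + (j : ℕ))) (dir_norm n s), h1, h2]
  unfold ln
  field_simp
  ring

private theorem B1g_rot_rot (x y : E2) : inner ℝ (rot x) (rot y) = inner ℝ x y := by
  simp [rot, EuclideanSpace.inner_eq_star_dotProduct, dotProduct, Fin.sum_univ_two]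
  ring

private theorem B1g_rot_self (x : E2) : inner ℝ x (rot x) = 0 := by
  simp [rot, EuclideanSpace.inner_eq_star_dotProduct, dotProduct, Fin.sum_univ_two]
  ring

private theorem B1g_c1 (n : ℕ) (s : ZMod n) (c y : ℝ) :
    inner ℝ (c • dir n s - y • rot (dir n s)) (dir n s) = c := by
  rw [inner_sub_left, real_inner_smul_left, real_inner_smul_left, real_inner_comm (dir n s) (rot (dir n s)),
    B1g_rot_self, real_inner_self_eq_norm_sq, dir_norm]
  ring

private theorem B1g_c2 (n : ℕ) (s : ZMod n) (c y : ℝ) :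
    inner ℝ (c • dir n s - y • rot (dir n s)) (rot (dir n s)) = - y := by
  rw [inner_sub_left, real_inner_smul_left, real_inner_smul_left, B1g_rot_self, B1g_rot_rot,
    real_inner_self_eq_norm_sq, dir_norm]
  ring

theorem lu_gd (n : ℕ) [NeZero n] (hn : Odd n) (h3 : 3 ≤ n) {k : ZMod n → ℝ} (hk : Gd n k) (ξ : E2) (s : ZMod n) :
    (∀ x ∈ Icc 0 (sv n k ξ s).w, (sv n k ξ s).l x ≤ (sv n k ξ s).u x) ∧ ∃ x ∈ Icc 0 (sv n k ξ s).w, (sv n k ξ s).l x < (sv n k ξ s).u x := by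
  have hq : (sv n k (rot (dir n s)) s).q ≠ 0 := by
    show - inner ℝ (rot (dir n s)) (rot (dir n s)) ≠ 0
    rw [B1g_rot_rot, real_inner_self_eq_norm_sq, dir_norm]
    norm_num
  have h := reg_gd n hn h3 hk.len hk.fat (rot (dir n s)) s hq
  exact ⟨h.lu, h.fat⟩

theorem mem_gd (n : ℕ) [NeZero n] (hn : Odd n) (h3 : 3 ≤ n) {k : ZMod n → ℝ} (hk : Gd n k) (ξ : E2) (s : ZMod n) (x y : ℝ) :
    (k s - x) • dir n s - y • rot (dir n s) ∈ Q (dir n) k ↔
      (0 ≤ x ∧ x ≤ (sv n k ξ s).w ∧ (sv n k ξ s).l x ≤ y ∧ y ≤ (sv n k ξ s).u x) := by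
  have hodd : n = 2 * ((n - 1) / 2) + 1 := by
    obtain ⟨m, rfl⟩ := hn
    omega
  have hpt : ∀ j : ℕ, Real.sin ((j : ℝ) * dl n) ≠ 0 →
      inner ℝ ((k s - x) • dir n s - y • rot (dir n s)) (dir n (s + (j : ℕ))) - k (s + (j : ℕ)) =
        Real.sin ((j : ℝ) * dl n) * (ln n k s j x - y) := by
    intro j hj
    rw [B1g_pt n k s j _ hj, B1g_c1, B1g_c2, sub_sub_cancel, neg_neg]
  constructor
  · intro hz
    have hlow : ∀ j, j < (n - 1) / 2 → ln n k s (j + 1) x ≤ y := by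
      intro j hj
      have h1 := sin_lo n hn h3 j hj
      have h2 := hpt (j + 1) h1.ne'
      have h4 := hz (s + ((j + 1 : ℕ) : ZMod n))
      by_contra h
      push Not at h
      have h5 := mul_pos h1 (sub_pos.2 h)
      linarith
    have hupp : ∀ j, (n - 1) / 2 ≤ j → j < n - 1 → y ≤ ln n k s (j + 1) x := by
      intro j hj hj2
      have h1 := sin_up n hn h3 j hj hj2
      have h2 := hpt (j + 1) h1.ne
      have h4 := hz (s + ((j + 1 : ℕ) : ZMod n))
      by_contra h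
      push Not at h
      have h5 := mul_pos (neg_pos.2 h1) (sub_pos.2 h)
      linarith
    refine ⟨?_, ?_, ?_, ?_⟩
    · have h := hz s
      rw [B1g_c1] at h
      linarith
    · show x ≤ sx n k s ((n - 1) / 2)
      have h1 := hlow ((n - 1) / 2 - 1) (by omega)
      have h2 := hupp ((n - 1) / 2) le_rfl (by omega)
      have s1 := sin_lo n hn h3 ((n - 1) / 2 - 1) (by omega)
      have s2 := sin_up n hn h3 ((n - 1) / 2) le_rfl (by omega)
      have e : (n - 1) / 2 - 1 + 1 = (n - 1) / 2 := by omega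
      have h4 := B1g_step n hn h3 k s ((n - 1) / 2 - 1) s1.ne' (by rw [e]; exact s2.ne) x
      rw [e] at h1 h4 s1
      have h5 : Real.sin (dl n) / (Real.sin (((n - 1) / 2 : ℕ) * dl n) * Real.sin (((n - 1) / 2 + 1 : ℕ) * dl n)) < 0 :=
        div_neg_of_pos_of_neg (B1g_sin_dl n hn h3) (mul_neg_of_pos_of_neg s1 s2)
      by_contra h
      push Not at h
      have h6 := mul_pos (sub_pos.2 h) (neg_pos.2 h5)
      linarith
    · show (⨆ i : Fin ((n - 1) / 2), ln n k s (i.val + 1) x) ≤ y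
      have : Nonempty (Fin ((n - 1) / 2)) := ⟨⟨0, by omega⟩⟩
      exact ciSup_le fun i => hlow i.val i.isLt
    · show y ≤ (⨅ i : Fin ((n - 1) / 2), ln n k s ((n - 1) / 2 + 1 + i.val) x)
      have : Nonempty (Fin ((n - 1) / 2)) := ⟨⟨0, by omega⟩⟩
      refine le_ciInf fun i => ?_
      have e : (n - 1) / 2 + 1 + i.val = (n - 1) / 2 + i.val + 1 := by omega
      rw [e]
      exact hupp ((n - 1) / 2 + i.val) (by omega) (by have := i.isLt; omega)
  · rintro ⟨hx, -, hl, hu⟩ i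
    have hi : s + (((i - s).val : ℕ) : ZMod n) = i := by
      rw [ZMod.natCast_val, ZMod.cast_id', id]
      ring
    have hlt : (i - s).val < n := ZMod.val_lt _
    rcases Nat.eq_zero_or_pos (i - s).val with h0 | h0
    · rw [h0] at hi
      have hs : i = s := by rw [← hi]; simp
      rw [hs, B1g_c1]
      linarith
    · rcases le_or_gt (i - s).val ((n - 1) / 2) with h1 | h1
      · have e : (i - s).val - 1 + 1 = (i - s).val := by omega
        have hs := sin_lo n hn h3 ((i - s).val - 1) (by omega)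
        rw [e] at hs
        have h2 := hpt (i - s).val hs.ne'
        rw [hi] at h2
        have h4 : ln n k s (i - s).val x ≤ y := by
          refine le_trans ?_ hl
          show _ ≤ (⨆ i : Fin ((n - 1) / 2), ln n k s (i.val + 1) x)
          have h5 := le_ciSup (f := fun i : Fin ((n - 1) / 2) => ln n k s (i.val + 1) x)
            (Set.finite_range _).bddAbove ⟨(i - s).val - 1, by omega⟩
          simp only [e] at h5
          exact h5
        have h6 := mul_nonneg hs.le (sub_nonneg.2 h4)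
        linarith
      · have e : (i - s).val - 1 + 1 = (i - s).val := by omega
        have hs := sin_up n hn h3 ((i - s).val - 1) (by omega) (by omega)
        rw [e] at hs
        have h2 := hpt (i - s).val hs.ne
        rw [hi] at h2
        have h4 : y ≤ ln n k s (i - s).val x := by
          refine le_trans hu ?_
          show (⨅ i : Fin ((n - 1) / 2), ln n k s ((n - 1) / 2 + 1 + i.val) x) ≤ _
          have h5 := ciInf_le (f := fun i : Fin ((n - 1) / 2) => ln n k s ((n - 1) / 2 + 1 + i.val) x)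
            (Set.finite_range _).bddBelow ⟨(i - s).val - 1 - (n - 1) / 2, by omega⟩
          have e2 : (n - 1) / 2 + 1 + ((i - s).val - 1 - (n - 1) / 2) = (i - s).val := by omega
          simp only [e2] at h5
          exact h5
        have h6 := mul_nonneg (neg_nonneg.2 hs.le) (sub_nonneg.2 h4)
        linarith

end Pool.Agent.Lib.MP_1dedaf_gt.DK
end
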