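import Pool.Agent.Lib.MP_1dedaf_gt.Mg.G026
import Pool.Agent.Lib.MP_1dedaf_gt.DK.A0
import Pool.Agent.Lib.MP_1dedaf_gt.Mg.G003
import Pool.Agent.Lib.MP_1dedaf_gt.DK.C4
import Pool.Agent.Lib.MP_1dedaf_gt.Mg.G027
import Pool.Agent.Lib.MP_1dedaf_gt.Mg.G013
import Pool.Agent.Lib.MP_1dedaf_gt.Mg.G019
import Pool.Agent.Lib.MP_1dedaf_gt.DK.N0

section

/-!
# TASK NA A2: a uniform bound: mass times kernel is at most a constant times the mass

Proof (as `cut_bound` in C4). All constants depend only on `B`, `b`. For `x ∈ [0, w]`: `|p x + q l x| ≤ 2 B²`, so with `E = exp (2 B²)` the densities `rl x`, `ru x` lie in `[1/E, E]`; `0 ≤ Xl x ≤ B E`; `0 ≤ mr x ≤ M` (`mu ≥ 0`), `xb = ∫ x mu ∈ [0, B M]`; `|Xu x| ≤ B E + B M`, and `M ≤ B (2 B E)`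
(`mu x = (ru - rl)/q = ∫_l^u e^{..}`, or: `mu ≤ E (u - l)` from `e^a - e^b ≤ e^a (a - b)`; alternatively `|ru - rl| ≤ E`, `|q| ≥ b`: `mu ≤ E/b`). `D = ∫ mu/(rl ru)` (`A1_D_eq`), so `M ≤ E² D` and `D ≤ E² M`. `|N 1| ≤ C D` and `|N 2| ≤ C D` as in C4: `N 1 = ∫ Xl (1/rl - 1/ru) + q ∫ mr/ru` (`N1_eq'`),
`1/rl - 1/ru = q mu/(rl ru)`, `∫ mr = xb ≤ B M` (`xb_eq`); `Xl²/rl - Xu²/ru = Xl² (1/rl - 1/ru) + q mr (Xl + Xu)/ru`. So `|a| = |N 1/(q D)| ≤ C`, `|V| ≤ C M`, `M psi = - V/q`, `|Xi x| ≤ C`, and `M j = (1/q)(M x - 2 xb + M (a - Xl x)/rl x - (p + q k) M (psi - Xi x))`.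
-/

set_option autoImplicit false

open MeasureTheory Set Filter Topology

namespace Pool.Agent.Lib.MP_1dedaf_gt.DK

private theorem A2_dens (K : Dat) (x : ℝ) :
    1 / K.rl x - 1 / K.ru x = (K.ru x - K.rl x) / (K.rl x * K.ru x) := by
  have h1 := (K.rl_pos x).ne'
  have h2 := (K.ru_pos x).ne'
  field_simp

/-- the bounds for one data, with bounds for its functions -/
private theorem A2_one (K : Dat) (hq : K.q ≠ 0) (hw : 0 ≤ K.w) (cl : Continuous K.l) (cu : Continuous K.u)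
    (lu : ∀ x ∈ Icc 0 K.w, K.l x ≤ K.u x) (C W : ℝ) (hC : 0 ≤ C) (hW : K.w ≤ W)
    (b1 : ∀ x ∈ Icc 0 K.w, K.rl x ≤ C) (b2 : ∀ x ∈ Icc 0 K.w, K.ru x ≤ C)
    (b3 : ∀ x ∈ Icc 0 K.w, 1 / K.rl x ≤ C) (b4 : ∀ x ∈ Icc 0 K.w, 1 / K.ru x ≤ C)
    (b5 : ∀ x ∈ Icc 0 K.w, |K.Xl x| ≤ C) (b6 : ∀ x ∈ Icc 0 K.w, |K.Xu x| ≤ C) :
    0 ≤ K.D ∧ K.N 0 = K.q * K.D ∧ |K.M| ≤ C ^ 2 * K.D ∧ |K.xb| ≤ W * C ^ 2 * K.D ∧
      |K.N 1| ≤ |K.q| * (C + C * (W * C ^ 2)) * K.D ∧
      |K.N 2| ≤ |K.q| * (C ^ 2 + 2 * C ^ 2 * (W * C ^ 2)) * K.D := by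
  have hmu : ∀ x ∈ Icc 0 K.w, 0 ≤ K.mu x := by
    intro x hx
    rcases (lu x hx).lt_or_eq with h1 | h1
    · exact (K.A1_mu_pos hq x h1).le
    · unfold Dat.mu Dat.rl Dat.ru
      rw [h1]
      simp
  have cmu := K.mu_cont cl cu
  have crl := K.rl_cont cl
  have cru := K.ru_cont cu
  have cXl := K.Xl_cont cl
  have cXu := K.Xu_cont cl cu
  have cmr := K.mr_cont cl cu
  have hmr : ∀ x ∈ Icc 0 K.w, 0 ≤ K.mr x := by
    intro x hx
    exact intervalIntegral.integral_nonneg hx.2 (fun t ht => hmu t ⟨hx.1.trans ht.1, ht.2⟩)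
  have prr : ∀ x, 0 < K.rl x * K.ru x := fun x => mul_pos (K.rl_pos x) (K.ru_pos x)
  set d : ℝ → ℝ := fun x => K.mu x / (K.rl x * K.ru x) with hd
  have cd : Continuous d := cmu.div (crl.mul cru) fun x => (prr x).ne'
  have hD : K.D = ∫ x in (0:ℝ)..K.w, d x := K.A1_D_eq hq
  have hd0 : ∀ x ∈ Icc 0 K.w, 0 ≤ d x := fun x hx => div_nonneg (hmu x hx) (prr x).le
  have hD0 : 0 ≤ K.D := by
    rw [hD]
    exact intervalIntegral.integral_nonneg hw hd0
  have hN0 : K.N 0 = K.q * K.D := by rw [hD, K.A1_N0_eq hq]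
  have hmud : ∀ x ∈ Icc 0 K.w, K.mu x ≤ C ^ 2 * d x := by
    intro x hx
    have h1 : K.mu x = (K.rl x * K.ru x) * d x := by
      show K.mu x = (K.rl x * K.ru x) * (K.mu x / (K.rl x * K.ru x))
      rw [mul_comm, div_mul_cancel₀ _ (prr x).ne']
    rw [h1]
    refine mul_le_mul_of_nonneg_right ?_ (hd0 x hx)
    rw [sq]
    exact mul_le_mul (b1 x hx) (b2 x hx) (K.ru_pos x).le hC
  have ii : ∀ {f : ℝ → ℝ}, Continuous f → IntervalIntegrable f volume 0 K.w :=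
    fun hf => hf.intervalIntegrable _ _
  have hM0 : 0 ≤ K.M := intervalIntegral.integral_nonneg hw hmu
  have hM : K.M ≤ C ^ 2 * K.D := by
    rw [hD, ← intervalIntegral.integral_const_mul]
    exact intervalIntegral.integral_mono_on hw (ii cmu) (ii (continuous_const.mul cd)) hmud
  have hx0 : 0 ≤ K.xb := intervalIntegral.integral_nonneg hw
    (fun x hx => mul_nonneg hx.1 (hmu x hx))
  have hW0 : 0 ≤ W := hw.trans hW
  have hxb : K.xb ≤ W * C ^ 2 * K.D := by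
    rw [hD, ← intervalIntegral.integral_const_mul]
    refine intervalIntegral.integral_mono_on hw (ii (continuous_id.mul cmu))
      (ii (continuous_const.mul cd)) fun x hx => ?_
    calc x * K.mu x ≤ W * K.mu x := mul_le_mul_of_nonneg_right (hx.2.trans hW) (hmu x hx)
      _ ≤ W * (C ^ 2 * d x) := mul_le_mul_of_nonneg_left (hmud x hx) hW0
      _ = W * C ^ 2 * d x := by ring
  have hxb' := K.xb_eq cl cu
  -- an integral of mr times a bounded function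
  have key : ∀ (f : ℝ → ℝ) (B : ℝ), Continuous f → 0 ≤ B → (∀ x ∈ Icc 0 K.w, |f x| ≤ B) →
      |∫ x in (0:ℝ)..K.w, f x * K.mr x| ≤ B * (W * C ^ 2 * K.D) := by
    intro f B hf hB hfb
    calc |∫ x in (0:ℝ)..K.w, f x * K.mr x| ≤ ∫ x in (0:ℝ)..K.w, |f x * K.mr x| :=
          intervalIntegral.abs_integral_le_integral_abs hw
      _ ≤ ∫ x in (0:ℝ)..K.w, B * K.mr x := by
          refine intervalIntegral.integral_mono_on hw (ii (hf.mul cmr).abs)
            (ii (continuous_const.mul cmr)) fun x hx => ?_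
          rw [abs_mul, abs_of_nonneg (hmr x hx)]
          exact mul_le_mul_of_nonneg_right (hfb x hx) (hmr x hx)
      _ = B * K.xb := by rw [intervalIntegral.integral_const_mul, hxb']
      _ ≤ B * (W * C ^ 2 * K.D) := mul_le_mul_of_nonneg_left hxb hB
  have key2 : ∀ (f : ℝ → ℝ) (B : ℝ), Continuous f → 0 ≤ B → (∀ x ∈ Icc 0 K.w, |f x| ≤ B) →
      |∫ x in (0:ℝ)..K.w, f x * d x| ≤ B * K.D := by
    intro f B hf hB hfb
    calc |∫ x in (0:ℝ)..K.w, f x * d x| ≤ ∫ x in (0:ℝ)..K.w, |f x * d x| :=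
          intervalIntegral.abs_integral_le_integral_abs hw
      _ ≤ ∫ x in (0:ℝ)..K.w, B * d x := by
          refine intervalIntegral.integral_mono_on hw (ii (hf.mul cd).abs)
            (ii (continuous_const.mul cd)) fun x hx => ?_
          rw [abs_mul, abs_of_nonneg (hd0 x hx)]
          exact mul_le_mul_of_nonneg_right (hfb x hx) (hd0 x hx)
      _ = B * K.D := by rw [intervalIntegral.integral_const_mul, hD]
  have hdd : ∀ x, 1 / K.rl x - 1 / K.ru x = K.q * d x := by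
    intro x
    rw [A2_dens, hd]
    show _ = K.q * ((K.ru x - K.rl x) / K.q / (K.rl x * K.ru x))
    have := (prr x).ne'
    field_simp
  have crl' : Continuous (fun x => 1 / K.rl x) := continuous_const.div crl fun x => (K.rl_pos x).ne'
  have cru' : Continuous (fun x => 1 / K.ru x) := continuous_const.div cru fun x => (K.ru_pos x).ne'
  refine ⟨hD0, hN0, ?_, ?_, ?_, ?_⟩
  · rw [abs_of_nonneg hM0]
    exact hM
  · rw [abs_of_nonneg hx0]
    exact hxb
  · have h1 : K.N 1 = K.q * ((∫ x in (0:ℝ)..K.w, K.Xu x * d x) + ∫ x in (0:ℝ)..K.w, (1 / K.rl x) * K.mr x) := by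
      rw [K.N1_eq cl cu, mul_add, ← intervalIntegral.integral_const_mul K.q (fun x => K.Xu x * d x)]
      congr 1
      · refine intervalIntegral.integral_congr fun x _ => ?_
        show K.Xu x * (1 / K.rl x - 1 / K.ru x) = K.q * (K.Xu x * d x)
        rw [hdd x]
        ring
      · congr 1
        refine intervalIntegral.integral_congr fun x _ => ?_
        show K.mr x / K.rl x = 1 / K.rl x * K.mr x
        ring
    have h2 := key2 K.Xu C cXu hC b6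
    have h3 := key (fun x => 1 / K.rl x) C crl' hC (fun x hx => by
      rw [abs_of_pos (one_div_pos.2 (K.rl_pos x))]
      exact b3 x hx)
    rw [h1, abs_mul]
    calc |K.q| * |(∫ x in (0:ℝ)..K.w, K.Xu x * d x) + ∫ x in (0:ℝ)..K.w, (1 / K.rl x) * K.mr x|
        ≤ |K.q| * (C * K.D + C * (W * C ^ 2 * K.D)) :=
          mul_le_mul_of_nonneg_left ((abs_add_le _ _).trans (add_le_add h2 h3)) (abs_nonneg _)
      _ = |K.q| * (C + C * (W * C ^ 2)) * K.D := by ring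
  · have h1 : K.N 2 = K.q * ((∫ x in (0:ℝ)..K.w, K.Xl x ^ 2 * d x) +
        ∫ x in (0:ℝ)..K.w, ((K.Xl x + K.Xu x) * (1 / K.ru x)) * K.mr x) := by
      have c1 : Continuous (fun x => K.Xl x ^ 2 * d x) := (cXl.pow 2).mul cd
      have c2 : Continuous (fun x => ((K.Xl x + K.Xu x) * (1 / K.ru x)) * K.mr x) :=
        ((cXl.add cXu).mul cru').mul cmr
      rw [← intervalIntegral.integral_add (ii c1) (ii c2), ← intervalIntegral.integral_const_mul]
      unfold Dat.N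
      refine intervalIntegral.integral_congr fun x _ => ?_
      show K.Xl x ^ 2 / K.rl x - K.Xu x ^ 2 / K.ru x =
        K.q * (K.Xl x ^ 2 * d x + ((K.Xl x + K.Xu x) * (1 / K.ru x)) * K.mr x)
      have e1 : K.q * (K.Xl x ^ 2 * d x + ((K.Xl x + K.Xu x) * (1 / K.ru x)) * K.mr x) =
          K.Xl x ^ 2 * (K.q * d x) + (K.Xl x + K.Xu x) * (1 / K.ru x) * (K.q * K.mr x) := by ring
      have e2 : K.q * K.mr x = K.Xl x - K.Xu x := by
        unfold Dat.Xu
        ring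
      rw [e1, ← hdd x, e2]
      ring
    have h2 := key2 (fun x => K.Xl x ^ 2) (C ^ 2) (cXl.pow 2) (by positivity) (fun x hx => by
      rw [abs_pow]
      exact pow_le_pow_left₀ (abs_nonneg _) (b5 x hx) 2)
    have h3 := key (fun x => (K.Xl x + K.Xu x) * (1 / K.ru x)) (2 * C ^ 2) ((cXl.add cXu).mul cru')
      (by positivity) (fun x hx => by
        rw [abs_mul, abs_of_pos (one_div_pos.2 (K.ru_pos x))]
        have h4 : |K.Xl x + K.Xu x| ≤ 2 * C := (abs_add_le _ _).trans (by linarith [b5 x hx, b6 x hx])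
        calc |K.Xl x + K.Xu x| * (1 / K.ru x) ≤ (2 * C) * C :=
              mul_le_mul h4 (b4 x hx) (one_div_pos.2 (K.ru_pos x)).le (by positivity)
          _ = 2 * C ^ 2 := by ring)
    rw [h1, abs_mul]
    calc |K.q| * |(∫ x in (0:ℝ)..K.w, K.Xl x ^ 2 * d x) +
          ∫ x in (0:ℝ)..K.w, ((K.Xl x + K.Xu x) * (1 / K.ru x)) * K.mr x|
        ≤ |K.q| * (C ^ 2 * K.D + 2 * C ^ 2 * (W * C ^ 2 * K.D)) :=
          mul_le_mul_of_nonneg_left ((abs_add_le _ _).trans (add_le_add h2 h3)) (abs_nonneg _)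
      _ = |K.q| * (C ^ 2 + 2 * C ^ 2 * (W * C ^ 2)) * K.D := by ring

private theorem A2_DM (K : Dat) (h : K.Reg) (C : ℝ) (hC : 0 ≤ C)
    (b3 : ∀ x ∈ Icc 0 K.w, 1 / K.rl x ≤ C) (b4 : ∀ x ∈ Icc 0 K.w, 1 / K.ru x ≤ C) :
    K.D ≤ C ^ 2 * K.M := by
  have prr : ∀ x, 0 < K.rl x * K.ru x := fun x => mul_pos (K.rl_pos x) (K.ru_pos x)
  have cmu := K.mu_cont h.cl h.cu
  have cd : Continuous fun x => K.mu x / (K.rl x * K.ru x) :=
    cmu.div ((K.rl_cont h.cl).mul (K.ru_cont h.cu)) fun x => (prr x).ne'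
  rw [K.A1_D_eq h.hq]
  unfold Dat.M
  rw [← intervalIntegral.integral_const_mul]
  refine intervalIntegral.integral_mono_on h.hw.le (cd.intervalIntegrable _ _)
    ((continuous_const.mul cmu).intervalIntegrable _ _) fun x hx => ?_
  have h1 := K.mu_nonneg h x hx
  have h2 := K.rl_pos x
  have h3 := K.ru_pos x
  calc K.mu x / (K.rl x * K.ru x) = (1 / K.rl x * (1 / K.ru x)) * K.mu x := by
        field_simp
    _ ≤ (C * C) * K.mu x :=
        mul_le_mul_of_nonneg_right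
          (mul_le_mul (b3 x hx) (b4 x hx) (one_div_pos.2 h3).le hC) h1
    _ = C ^ 2 * K.mu x := by ring

/-- The bound for one data, with bounds for its functions. -/
private theorem A2_core (K : Dat) (h : K.Reg) (C B b : ℝ) (hC : 0 ≤ C) (hB : 0 < B) (hb : 0 < b)
    (hp : |K.p| ≤ B) (hqB : |K.q| ≤ B) (hqb : b ≤ |K.q|) (hW : K.w ≤ B)
    (b1 : ∀ x ∈ Icc 0 K.w, K.rl x ≤ C) (b2 : ∀ x ∈ Icc 0 K.w, K.ru x ≤ C)
    (b3 : ∀ x ∈ Icc 0 K.w, 1 / K.rl x ≤ C) (b4 : ∀ x ∈ Icc 0 K.w, 1 / K.ru x ≤ C)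
    (b5 : ∀ x ∈ Icc 0 K.w, |K.Xl x| ≤ C) (b6 : ∀ x ∈ Icc 0 K.w, |K.Xu x| ≤ C)
    (c2 c3 : ℝ) (hc2 : c2 = C + C * (B * C ^ 2)) (hc3 : c3 = C ^ 2 + 2 * C ^ 2 * (B * C ^ 2)) :
    ∀ x ∈ Icc 0 K.w, ∀ k : ℝ, |k| ≤ B → |K.M * K.j x k| ≤
      ((B + 2 * (B * C ^ 2 * C ^ 2) + (c2 + C) * C +
        (B + B * B) * ((c3 + c2 * c2) * C ^ 2 + B * ((c2 + C) * C))) / b) * K.M := by
  intro x hx k hk
  obtain ⟨r1, r2, r3, r4, r5, r6⟩ := A2_one K h.hq h.hw.le h.cl h.cu h.lu C B hC hW b1 b2 b3 b4 b5 b6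
  rw [← hc2] at r5
  rw [← hc3] at r6
  have hM := K.M_pos h
  have hD := K.D_pos h
  have hDM := A2_DM K h C hC b3 b4
  have hq0 : 0 < |K.q| := lt_of_lt_of_le hb hqb
  have hc20 : 0 ≤ c2 := by rw [hc2]; positivity
  have hc30 : 0 ≤ c3 := by rw [hc3]; positivity
  have ha : |K.a| ≤ c2 := by
    unfold Dat.a
    rw [r2, abs_div, abs_mul, abs_of_pos hD, div_le_iff₀ (by positivity)]
    linarith
  have hV : |K.V| ≤ |K.q| * (c3 + c2 * c2) * (C ^ 2 * K.M) := by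
    unfold Dat.V
    calc |K.N 2 - K.a * K.N 1| ≤ |K.N 2| + |K.a * K.N 1| := abs_sub _ _
      _ ≤ |K.q| * c3 * K.D + c2 * (|K.q| * c2 * K.D) := by
          refine add_le_add r6 ?_
          rw [abs_mul]
          exact mul_le_mul ha r5 (abs_nonneg _) hc20
      _ = |K.q| * (c3 + c2 * c2) * K.D := by ring
      _ ≤ _ := mul_le_mul_of_nonneg_left hDM (by positivity)
  have hpsi : |K.M * K.psi| ≤ (c3 + c2 * c2) * C ^ 2 * K.M := by
    have e1 : K.M * K.psi = -K.V / K.q := by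
      unfold Dat.psi
      have := h.hq
      field_simp
    rw [e1, abs_div, abs_neg, div_le_iff₀ hq0]
    calc |K.V| ≤ _ := hV
      _ = _ := by ring
  have hxb : |K.xb| ≤ B * C ^ 2 * C ^ 2 * K.M := by
    calc |K.xb| ≤ B * C ^ 2 * K.D := r4
      _ ≤ B * C ^ 2 * (C ^ 2 * K.M) := mul_le_mul_of_nonneg_left hDM (by positivity)
      _ = _ := by ring
  have hfr : ∀ t ∈ Icc 0 K.w, |(K.a - K.Xl t) / K.rl t| ≤ (c2 + C) * C := by
    intro t ht
    have e1 : (K.a - K.Xl t) / K.rl t = (K.a - K.Xl t) * (1 / K.rl t) := by ring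
    rw [e1, abs_mul, abs_of_pos (one_div_pos.2 (K.rl_pos t))]
    refine mul_le_mul ((abs_sub _ _).trans (add_le_add ha (b5 t ht))) (b3 t ht)
      (one_div_pos.2 (K.rl_pos t)).le (by positivity)
  have hXi : |K.Xi x| ≤ B * ((c2 + C) * C) := by
    unfold Dat.Xi
    have e1 : ‖∫ t in (0:ℝ)..x, (K.a - K.Xl t) / K.rl t‖ ≤ ((c2 + C) * C) * |x - 0| := by
      refine intervalIntegral.norm_integral_le_of_norm_le_const fun t ht => ?_
      rw [uIoc_of_le hx.1] at ht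
      exact hfr t ⟨ht.1.le, ht.2.trans hx.2⟩
    rw [Real.norm_eq_abs, sub_zero, abs_of_nonneg hx.1] at e1
    have e2 : x ≤ B := hx.2.trans hW
    calc |∫ t in (0:ℝ)..x, (K.a - K.Xl t) / K.rl t| ≤ ((c2 + C) * C) * x := e1
      _ ≤ ((c2 + C) * C) * B := mul_le_mul_of_nonneg_left e2 (by positivity)
      _ = _ := by ring
  have hPhi : |K.M * K.Phi x| ≤ ((c3 + c2 * c2) * C ^ 2 + B * ((c2 + C) * C)) * K.M := by
    unfold Dat.Phi
    have e1 : K.M * (K.psi - K.Xi x) = K.M * K.psi - K.M * K.Xi x := by ring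
    rw [e1]
    refine (abs_sub _ _).trans ?_
    have e2 : |K.M * K.Xi x| ≤ B * ((c2 + C) * C) * K.M := by
      rw [abs_mul, abs_of_pos hM, mul_comm]
      exact mul_le_mul_of_nonneg_right hXi hM.le
    linarith
  have hpk : |K.p + K.q * k| ≤ B + B * B := by
    refine (abs_add_le _ _).trans (add_le_add hp ?_)
    rw [abs_mul]
    exact mul_le_mul hqB hk (abs_nonneg _) hB.le
  have e1 : K.M * K.j x k = (K.M * x - 2 * K.xb + K.M * ((K.a - K.Xl x) / K.rl x) -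
      (K.p + K.q * k) * (K.M * K.Phi x)) / K.q := by
    unfold Dat.j
    have := h.hq
    have := hM.ne'
    field_simp
  rw [e1, abs_div]
  have f1 : |K.M * x| ≤ B * K.M := by
    rw [abs_mul, abs_of_pos hM, abs_of_nonneg hx.1, mul_comm]
    exact mul_le_mul_of_nonneg_right (hx.2.trans hW) hM.le
  have f2 : |2 * K.xb| ≤ 2 * (B * C ^ 2 * C ^ 2) * K.M := by
    rw [abs_mul, abs_of_pos (by norm_num : (0:ℝ) < 2)]
    linarith
  have f3 : |K.M * ((K.a - K.Xl x) / K.rl x)| ≤ (c2 + C) * C * K.M := by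
    rw [abs_mul, abs_of_pos hM, mul_comm]
    exact mul_le_mul_of_nonneg_right (hfr x hx) hM.le
  have f4 : |(K.p + K.q * k) * (K.M * K.Phi x)| ≤
      (B + B * B) * ((c3 + c2 * c2) * C ^ 2 + B * ((c2 + C) * C)) * K.M := by
    rw [abs_mul]
    calc |K.p + K.q * k| * |K.M * K.Phi x| ≤
        (B + B * B) * (((c3 + c2 * c2) * C ^ 2 + B * ((c2 + C) * C)) * K.M) :=
          mul_le_mul hpk hPhi (abs_nonneg _) (by positivity)
      _ = _ := by ring
  have f5 : |K.M * x - 2 * K.xb + K.M * ((K.a - K.Xl x) / K.rl x) -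
      (K.p + K.q * k) * (K.M * K.Phi x)| ≤ (B + 2 * (B * C ^ 2 * C ^ 2) + (c2 + C) * C +
        (B + B * B) * ((c3 + c2 * c2) * C ^ 2 + B * ((c2 + C) * C))) * K.M := by
    refine (abs_sub _ _).trans ?_
    have g1 := abs_add_le (K.M * x - 2 * K.xb) (K.M * ((K.a - K.Xl x) / K.rl x))
    have g2 := abs_sub (K.M * x) (2 * K.xb)
    linarith
  set Q := B + 2 * (B * C ^ 2 * C ^ 2) + (c2 + C) * C +
        (B + B * B) * ((c3 + c2 * c2) * C ^ 2 + B * ((c2 + C) * C)) with hQ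
  have hQ0 : 0 ≤ Q := by rw [hQ]; positivity
  calc |K.M * x - 2 * K.xb + K.M * ((K.a - K.Xl x) / K.rl x) -
      (K.p + K.q * k) * (K.M * K.Phi x)| / |K.q| ≤ (Q * K.M) / b :=
        div_le_div₀ (by positivity) f5 hb hqb
    _ = Q / b * K.M := by ring

theorem bound_j (B b : ℝ) (hB : 0 < B) (hb : 0 < b) : ∃ C : ℝ, 0 ≤ C ∧ ∀ K : Dat, K.Reg → |K.p| ≤ B → |K.q| ≤ B → b ≤ |K.q| → K.w ≤ B →
    (∀ x ∈ Icc 0 K.w, |K.l x| ≤ B ∧ |K.u x| ≤ B) → ∀ x ∈ Icc 0 K.w, ∀ k : ℝ, |k| ≤ B → |K.M * K.j x k| ≤ C * K.M := by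
  obtain ⟨E, hE⟩ : ∃ E : ℝ, E = Real.exp (2 * B ^ 2) := ⟨_, rfl⟩
  have hE0 : 0 < E := by rw [hE]; exact Real.exp_pos _
  obtain ⟨C, hC⟩ : ∃ C : ℝ, C = E + 2 * (B * E) := ⟨_, rfl⟩
  have hBE : 0 < B * E := mul_pos hB hE0
  have hC0 : 0 ≤ C := by rw [hC]; linarith
  have hEC : E ≤ C := by rw [hC]; linarith
  have hBEC : B * E + B * E ≤ C := by rw [hC]; linarith
  obtain ⟨c2, hc2⟩ : ∃ c2 : ℝ, c2 = C + C * (B * C ^ 2) := ⟨_, rfl⟩
  obtain ⟨c3, hc3⟩ : ∃ c3 : ℝ, c3 = C ^ 2 + 2 * C ^ 2 * (B * C ^ 2) := ⟨_, rfl⟩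
  have hc20 : 0 ≤ c2 := by rw [hc2]; positivity
  have hc30 : 0 ≤ c3 := by rw [hc3]; positivity
  refine ⟨(B + 2 * (B * C ^ 2 * C ^ 2) + (c2 + C) * C +
        (B + B * B) * ((c3 + c2 * c2) * C ^ 2 + B * ((c2 + C) * C))) / b, by positivity,
    fun K h hp hq hqb hw hlu => ?_⟩
  have harg : ∀ x y : ℝ, x ∈ Icc 0 K.w → |y| ≤ B → |K.p * x + K.q * y| ≤ 2 * B ^ 2 := by
    intro x y hx hy
    refine (abs_add_le _ _).trans ?_
    rw [abs_mul, abs_mul, abs_of_nonneg hx.1]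
    have e1 : |K.p| * x ≤ B * B := mul_le_mul hp (hx.2.trans hw) hx.1 hB.le
    have e2 : |K.q| * |y| ≤ B * B := mul_le_mul hq hy (abs_nonneg _) hB.le
    nlinarith
  have hup : ∀ t : ℝ, |t| ≤ 2 * B ^ 2 → Real.exp t ≤ E := fun t ht => by
    rw [hE]
    exact Real.exp_le_exp.2 ((le_abs_self t).trans ht)
  have hlow : ∀ t : ℝ, |t| ≤ 2 * B ^ 2 → 1 / Real.exp t ≤ E := fun t ht => by
    rw [one_div, ← Real.exp_neg]
    exact hup _ (by rwa [abs_neg])
  have b1 : ∀ x ∈ Icc 0 K.w, K.rl x ≤ E := fun x hx => hup _ (harg x _ hx (hlu x hx).1)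
  have b2 : ∀ x ∈ Icc 0 K.w, K.ru x ≤ E := fun x hx => hup _ (harg x _ hx (hlu x hx).2)
  have b3 : ∀ x ∈ Icc 0 K.w, 1 / K.rl x ≤ E := fun x hx => hlow _ (harg x _ hx (hlu x hx).1)
  have b4 : ∀ x ∈ Icc 0 K.w, 1 / K.ru x ≤ E := fun x hx => hlow _ (harg x _ hx (hlu x hx).2)
  have b5 : ∀ x ∈ Icc 0 K.w, |K.Xl x| ≤ B * E := by
    intro x hx
    unfold Dat.Xl
    have e1 : ‖∫ t in (0:ℝ)..x, K.rl t‖ ≤ E * |x - 0| := by
      refine intervalIntegral.norm_integral_le_of_norm_le_const fun t ht => ?_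
      rw [uIoc_of_le hx.1] at ht
      rw [Real.norm_eq_abs, abs_of_pos (K.rl_pos t)]
      exact b1 t ⟨ht.1.le, ht.2.trans hx.2⟩
    rw [Real.norm_eq_abs, sub_zero, abs_of_nonneg hx.1] at e1
    calc |∫ t in (0:ℝ)..x, K.rl t| ≤ E * x := e1
      _ ≤ E * B := mul_le_mul_of_nonneg_left (hx.2.trans hw) hE0.le
      _ = _ := by ring
  have b6 : ∀ x ∈ Icc 0 K.w, |K.Xu x| ≤ B * E + B * E := by
    intro x hx
    have e0 : K.q * K.mr x = ∫ t in x..K.w, (K.ru t - K.rl t) := by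
      unfold Dat.mr Dat.mu
      rw [intervalIntegral.integral_div, mul_div_cancel₀ _ h.hq]
    have e1 : |K.q * K.mr x| ≤ B * E := by
      rw [e0]
      have e2 : ‖∫ t in x..K.w, (K.ru t - K.rl t)‖ ≤ E * |K.w - x| := by
        refine intervalIntegral.norm_integral_le_of_norm_le_const fun t ht => ?_
        rw [uIoc_of_le hx.2] at ht
        have ht' : t ∈ Icc 0 K.w := ⟨hx.1.trans ht.1.le, ht.2⟩
        have g1 := b1 t ht'
        have g2 := b2 t ht'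
        have g3 := K.rl_pos t
        have g4 := K.ru_pos t
        rw [Real.norm_eq_abs, abs_le]
        constructor <;> linarith
      rw [Real.norm_eq_abs, abs_of_nonneg (sub_nonneg.2 hx.2)] at e2
      have e3 : K.w - x ≤ B := by linarith [hx.1]
      calc |∫ t in x..K.w, (K.ru t - K.rl t)| ≤ E * (K.w - x) := e2
        _ ≤ E * B := mul_le_mul_of_nonneg_left e3 hE0.le
        _ = _ := by ring
    unfold Dat.Xu
    exact (abs_sub _ _).trans (add_le_add (b5 x hx) e1)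
  have hBEC1 : B * E ≤ C := by linarith
  exact A2_core K h C B b hC0 hB hb hp hq hqb hw
    (fun x hx => (b1 x hx).trans hEC) (fun x hx => (b2 x hx).trans hEC)
    (fun x hx => (b3 x hx).trans hEC) (fun x hx => (b4 x hx).trans hEC)
    (fun x hx => (b5 x hx).trans hBEC1) (fun x hx => (b6 x hx).trans hBEC) c2 c3 hc2 hc3

end Pool.Agent.Lib.MP_1dedaf_gt.DK
end

section

/-!
# The kernel of the polygons is nonnegative if `PosK k` holds for all `k`
-/

set_option autoImplicit false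

open MeasureTheory Set Filter Topology

namespace Pool.Agent.Lib.MP_1dedaf_gt.DK

open Pool.Agent.Lib.MP_1dedaf_gt.LB

/-- The vertices are ordered. -/
private theorem sx_mono_lo (n : ℕ) [NeZero n] (hn : Odd n) (h3 : 3 ≤ n) {T k : ZMod n → ℝ} (hT : ∀ i, 0 < T i)
    (ho : Opt (dir n) T k) (s : ZMod n) (i j : ℕ) (hij : i ≤ j) (hj : j ≤ (n - 1) / 2) : sx n k s i ≤ sx n k s j := by
  induction j with
  | zero =>
    have : i = 0 := by omega
    rw [this]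
  | succ j ih =>
    rcases Nat.lt_or_ge i (j + 1) with h | h
    · exact (ih (by omega) (by omega)).trans (sx_lt_lo n hn h3 hT ho s j (by omega)).le
    · have : i = j + 1 := by omega
      rw [this]

/-- Every point of `[0, sx m]` lies between two consecutive vertices. -/
private theorem sx_cov (n : ℕ) [NeZero n] (hn : Odd n) (h3 : 3 ≤ n) {T k : ZMod n → ℝ} (hT : ∀ i, 0 < T i)
    (ho : Opt (dir n) T k) (s : ZMod n) (m : ℕ) (hm : 0 < m) (hm2 : m ≤ (n - 1) / 2) (x : ℝ) (h0 : sx n k s 0 ≤ x) (h1 : x ≤ sx n k s m) :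
    ∃ j < m, x ∈ Icc (sx n k s j) (sx n k s (j + 1)) := by
  induction m with
  | zero => omega
  | succ m ih =>
    by_cases h : sx n k s m ≤ x
    · exact ⟨m, by omega, h, h1⟩
    · rcases Nat.eq_zero_or_pos m with h2 | h2
      · rw [h2] at h
        exact absurd h0 h
      · obtain ⟨j, hj, hx⟩ := ih h2 (by omega) (not_le.1 h).le
        exact ⟨j, by omega, hx⟩

/-- The lines are below the lower boundary. -/
private theorem ln_le_l (n : ℕ) [NeZero n] (T k : ZMod n → ℝ) (s : ZMod n) (j : ℕ) (hj : j < (n - 1) / 2) (x : ℝ) :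
    ln n k s (j + 1) x ≤ (sv n k (th (dir n) T) s).l x := by
  show ln n k s (j + 1) x ≤ ⨆ i : Fin ((n - 1) / 2), ln n k s (i.val + 1) x
  exact le_ciSup (f := fun i : Fin ((n - 1) / 2) => ln n k s (i.val + 1) x) (Set.finite_range _).bddAbove ⟨j, hj⟩

private theorem slk_mono (n : ℕ) [NeZero n] {m : ℕ} (hm2 : 2 * m < n) (j : ℕ) (hj : 1 ≤ j) (hjm : j ≤ m) : slk n j ≤ slk n m := by
  induction m with
  | zero => omega
  | succ m ih =>
    rcases Nat.lt_or_ge j (m + 1) with h | h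
    · have h1 := slk_lt n (m := m + 1) (by omega) hm2
      exact (ih (by omega) (by omega)).trans (by simpa using h1.le)
    · have : j = m + 1 := by omega
      rw [this]

/-- The arc of the near edges of a polygon. -/
theorem sv_arc (n : ℕ) [NeZero n] (hn : Odd n) (h3 : 3 ≤ n) {T k : ZMod n → ℝ} (hT : ∀ i, 0 < T i)
    (ho : Opt (dir n) T k) (s : ZMod n) (m : ℕ) (hm : 0 < m) (hm2 : 2 * m < n) :
    (sv n k (th (dir n) T) s).Arc ((Finset.range (m - 1)).image fun j => (slk n (j + 1), sle n k s (j + 1))) (sx n k s m) (slk n m) := by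
  have hm3 : m ≤ (n - 1) / 2 := by omega
  have hz0 : sx n k s 0 = 0 := sx_zero n hn h3 k s
  obtain ⟨m', rfl⟩ : ∃ m', m = m' + 1 := ⟨m - 1, by omega⟩
  have hlz : (sv n k (th (dir n) T) s).l (sx n k s (m' + 1)) = ln n k s (m' + 1) (sx n k s (m' + 1)) :=
    sv_l_eq n hn h3 hT ho s m' (by omega) _ ⟨(sx_lt_lo n hn h3 hT ho s m' (by omega)).le, le_rfl⟩
  have hline : ∀ x, (sv n k (th (dir n) T) s).l (sx n k s (m' + 1)) + slk n (m' + 1) * (x - sx n k s (m' + 1)) = ln n k s (m' + 1) x := by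
    intro x
    rw [hlz, ln_aff, ln_aff]
    ring
  refine ⟨?_, ?_, ?_, ?_, ?_, ?_⟩
  · rw [← hz0]
    exact sx_mono_lo n hn h3 hT ho s 0 (m' + 1) (by omega) hm3
  · exact sx_mono_lo n hn h3 hT ho s (m' + 1) ((n - 1) / 2) hm3 le_rfl
  · intro x _
    rw [hline]
    exact ln_le_l n T k s m' (by omega) x
  · intro e he
    obtain ⟨j, hj, rfl⟩ := Finset.mem_image.1 he
    rw [Finset.mem_range] at hj
    exact slk_mono n hm2 (j + 1) (by omega) (by omega)
  · intro e he x _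
    obtain ⟨j, hj, rfl⟩ := Finset.mem_image.1 he
    rw [Finset.mem_range] at hj
    have h1 := ln_le_l n T k s j (by omega) x
    rw [ln_aff] at h1
    exact h1
  · intro x hx
    obtain ⟨j, hj, hxj⟩ := sx_cov n hn h3 hT ho s (m' + 1) (by omega) hm3 x (by rw [hz0]; exact hx.1) hx.2
    have h1 := sv_l_eq n hn h3 hT ho s j (by omega) x hxj
    rcases Nat.lt_or_ge j m' with h | h
    · right
      refine ⟨(slk n (j + 1), sle n k s (j + 1)), Finset.mem_image.2 ⟨j, Finset.mem_range.2 (by omega), rfl⟩, ?_⟩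
      rw [h1, ln_aff]
    · left
      have : j = m' := by omega
      rw [hline, h1, this]

/-- **The kernel of the polygons.** -/
theorem ker_of_pos (h : ∀ k, PosK k) : Ker := by
  intro n _ hn h3 m hm hm2 s T k hT ho ha hb
  have hsin := sin_pos n hm hm2
  have hq : (sv n k (th (dir n) T) s).q ≠ 0 := by
    rw [q_eq n hn h3 hm hm2 s T k]
    exact neg_ne_zero.2 (mul_ne_zero hb hsin.ne')
  have hR := sv_reg n hn h3 hT ho s hq
  have hC : (sv n k (th (dir n) T) s).Cx :=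
    ⟨hR, (sv_l_cont n hn h3 k _ s).2.subset (subset_univ _) (convex_Icc _ _), (sv_u_cont n hn h3 k _ s).2.subset (subset_univ _) (convex_Icc _ _)⟩
  rw [rker_eq n hn h3 hT ho s m hm hm2 ha hb]
  exact mul_nonneg hsin.le (h _ _ _ _ _ hC le_rfl (sv_arc n hn h3 hT ho s m hm hm2))

end Pool.Agent.Lib.MP_1dedaf_gt.DK
end
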