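import Pool.Agent.Lib.MP_1dedaf_gt.Mg.G024
import Pool.Agent.Lib.MP_1dedaf_gt.DK.N1
import Pool.Agent.Lib.MP_1dedaf_gt.Mg.G015
import Pool.Agent.Lib.MP_1dedaf_gt.DK.A2
import Pool.Agent.Lib.MP_1dedaf_gt.Mg.G004
import Pool.Agent.Lib.MP_1dedaf_gt.Mg.G012
import Pool.Agent.Lib.MP_1dedaf_gt.Mg.G013
import Pool.Agent.Lib.MP_1dedaf_gt.Mg.G019
import Pool.Agent.Lib.MP_1dedaf_gt.Mg.G022
import Pool.Agent.Lib.MP_1dedaf_gt.DK.N0
import Pool.Agent.Lib.MP_1dedaf_gt.Mg.G025
import Pool.Agent.Lib.MP_1dedaf_gt.Mg.G014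
import Pool.Agent.Lib.MP_1dedaf_gt.Mg.G007
import Pool.Agent.Lib.MP_1dedaf_gt.Mg.G018
import Pool.Agent.Lib.MP_1dedaf_gt.Mg.G023
import Pool.Agent.Lib.MP_1dedaf_gt.DK.DC.OF
import Pool.Agent.Lib.MP_1dedaf_gt.DK.DC.TR
import Pool.Agent.Lib.MP_1dedaf_gt.Mg.G003
import Pool.Agent.Lib.MP_1dedaf_gt.DK.A0
import Pool.Agent.Lib.MP_1dedaf_gt.DK.A3
import Pool.Agent.Lib.MP_1dedaf_gt.DK.A4
import Pool.Agent.Lib.MP_1dedaf_gt.DK.C3

section

/-!
# Near arcs, minimum argument (campaign NA): definitions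

`K.sh a` is the part of the body to the right of `a`, moved to the origin. `K.Sd z` is the derivative of the absolute kernel
`mass * j` of the line `x = 0` and the line `y = 0` (touching at abscissa `z`) when the line `x = 0` is moved inward. `Gd`: polygons
with edges of length `≥ 0`. `F n ξ k s m` is mass times kernel of the edges `s`, `s + m`. `K.Near`: a body in the quadrant with edges of positive
length on both axes which does not contain the corner. `OPP`, `FIN` are the two inequalities which the campaign uses as input.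
-/

set_option autoImplicit false

open MeasureTheory Set Filter Topology

namespace Pool.Agent.Lib.MP_1dedaf_gt.DK

open Pool.Agent.Lib.MP_1dedaf_gt.LB

/-- The part to the right of `a`. -/
noncomputable def Dat.sh (K : Dat) (a : ℝ) : Dat := ⟨K.p, K.q, K.w - a, fun x => K.l (a + x), fun x => K.u (a + x)⟩

/-- The integral of `dy / density` over the edge `x = 0`. -/
noncomputable def Dat.n0 (K : Dat) : ℝ := (1 / K.rl 0 - 1 / K.ru 0) / K.q

/-- Minus the residual of the edge `x = 0`. -/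
noncomputable def Dat.ms (K : Dat) : ℝ := K.M / K.ru 0 - K.n0 * K.a

/-- The integral of `(a - X) |dy| / density` over the near arc. -/
noncomputable def Dat.Nz (K : Dat) (z : ℝ) : ℝ := ((K.a - K.Xl z) / K.rl z - K.a / K.rl 0 + z + K.p * K.Xi z) / K.q

/-- The pivot of `y = 0` minus the `Y`-coordinate of the lower end of the edge `x = 0`. -/
noncomputable def Dat.et (K : Dat) (z : ℝ) : ℝ :=
  (K.M / K.D * (1 / K.rl z + K.p * ∫ t in (0:ℝ)..z, 1 / K.rl t) - K.rl 0 - K.p * K.a - K.p * K.q * K.M) / K.q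

/-- The derivative of the absolute kernel when the line `x = 0` is moved inward. -/
noncomputable def Dat.Sd (K : Dat) (z : ℝ) : ℝ := K.mu 0 * (K.ms - K.Nz z) - K.et z * K.ms

/-- Polygons with edges of length `≥ 0` and interior points. -/
structure Gd (n : ℕ) (k : ZMod n → ℝ) : Prop where
  len : ∀ i, lo n k i ≤ hi n k i
  fat : Fat (dir n) k

/-- Mass times kernel. -/
noncomputable def F (n : ℕ) (ξ : E2) (k : ZMod n → ℝ) (s : ZMod n) (m : ℕ) : ℝ := Z (dir n) k ξ * jj n k ξ s m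

/-- A body in the quadrant with edges on both axes which does not contain the corner. -/
structure Bd.Near (K : Bd) : Prop extends K.Ok where
  g0 : 0 < K.g 0
  g1 : K.g 0 < K.r 0
  l0 : 0 < K.l 0
  l1 : K.l 0 < K.u 0
  kw : K.l K.w = K.u K.w
  kh : K.g K.h = K.r K.h

/-- The response of the edge `x = 0` at the opposite vertex is not positive. -/
def OPP : Prop := ∀ K : Dat, K.Reg → ConvexOn ℝ (Icc 0 K.w) K.l → ConcaveOn ℝ (Icc 0 K.w) K.u → K.l K.w = K.u K.w → K.Phi K.w ≤ 0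

/-- The inequality for near arcs at a minimum. -/
def FIN : Prop := ∀ K : Bd, K.Near → 0 ≤ K.col.Sd (K.g 0) → 0 ≤ K.row.Sd (K.l 0) →
  K.col.Xl (K.g 0) ≤ K.col.a → K.row.Xl (K.l 0) ≤ K.row.a →
  0 ≤ K.col.Phi (K.g 0) → 0 ≤ K.row.Phi (K.l 0) → K.col.Phi (K.r 0) ≤ 0 → K.row.Phi (K.u 0) ≤ 0 → 0 ≤ K.col.j (K.g 0) 0

/-- `(k, s, m)` minimises mass times kernel over all polygons inside `k1` and all pairs, the minimum is negative, and `m` is least. -/
structure IsMin (n : ℕ) (ξ : E2) (k1 k : ZMod n → ℝ) (s : ZMod n) (m : ℕ) : Prop where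
  gd : Gd n k
  le : ∀ i, k i ≤ k1 i
  hm : 0 < m
  hm2 : 2 * m < n
  neg : F n ξ k s m < 0
  min : ∀ k' : ZMod n → ℝ, Gd n k' → (∀ i, k' i ≤ k1 i) → ∀ (s' : ZMod n) (m' : ℕ), 0 < m' → 2 * m' < n → F n ξ k s m ≤ F n ξ k' s' m'
  least : ∀ k' : ZMod n → ℝ, Gd n k' → (∀ i, k' i ≤ k1 i) → ∀ (s' : ZMod n) (m' : ℕ), 0 < m' → m' < m → F n ξ k s m < F n ξ k' s' m'

end Pool.Agent.Lib.MP_1dedaf_gt.DK
end

section

/-!
# Near arcs, rotations (campaign EP): the first variation density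

For a line `t` of slope `k` which touches the body from below at `(z, l z)`: `q * M * j z k` has the first variation
`∫ η * rl * Gt` under `l ↦ l + ε η`, `η` supported in `[0, z]`. `Fl = (a - X) / density`, `Ri = ∫ 1 / density`, `qE = q * E_t` and
`al = density + c * E_s` on the lower boundary (`c = p + q k`), `HH` is `density ^ 2 * Gt' / 2` (with `ν = k - l'`).
-/

set_option autoImplicit false

open MeasureTheory Set Filter Topology

namespace Pool.Agent.Lib.MP_1dedaf_gt.DK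

/-- `E_s / density` on the lower boundary. -/
noncomputable def Dat.Fl (K : Dat) (x : ℝ) : ℝ := (K.a - K.Xl x) / K.rl x

/-- The integral of `dx / density` along the lower boundary. -/
noncomputable def Dat.Ri (K : Dat) (x : ℝ) : ℝ := ∫ t in (0:ℝ)..x, 1 / K.rl t

/-- The constant `Λ` of the line of slope `k` which touches at `(z, l z)`. -/
noncomputable def Dat.Lam (K : Dat) (z k : ℝ) : ℝ := K.M * (1 / (K.D * K.rl z) + (K.p + K.q * k) * (K.Ri z / K.D - K.q))

/-- The first variation density. -/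
noncomputable def Dat.Gt (K : Dat) (z k x : ℝ) : ℝ :=
  2 * x - z - K.Fl z + (K.p + K.q * k) * (2 * K.Xi x - K.Xi z - K.Fl x ^ 2) + K.Lam z k * (K.Fl x / K.rl x - K.Ri x)

/-- `density + c * E_s` on the lower boundary (constant on `t`). -/
noncomputable def Dat.al (K : Dat) (k x : ℝ) : ℝ := K.rl x + (K.p + K.q * k) * (K.a - K.Xl x)

/-- `q * E_t` on the lower boundary (constant on `t`). -/
noncomputable def Dat.qE (K : Dat) (z k x : ℝ) : ℝ := K.Lam z k - K.al k x

/-- `density ^ 2 * Gt' / 2` on an edge of slope `k - ν`. -/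
noncomputable def Dat.HH (K : Dat) (z k ν x : ℝ) : ℝ :=
  K.q * ν * (K.a - K.Xl x) * (K.qE z k x + K.rl x) - K.al k x * K.qE z k x

end Pool.Agent.Lib.MP_1dedaf_gt.DK
end

section

/-!
# TASK DK N2: THE INDUCTION OVER THE NEAR EDGES

`K = sv .. s`, `V = sx (m-1)` the common vertex of the edges `s + m - 1`, `s + m`. Proof of `step_s` (`m ≥ 2`): `rker_eq` for `m` (with `j` evaluated at `sx m`; `j_const` along the edge `s + m`: also at `sx (m-1)`; the line of the edge is `ln_aff`, `sv_l_eq`) and for `m - 1` (at `sx (m-1)`): `Rker m = sin (m δ) j V (slk m)`,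
`Rker (m-1) = sin ((m-1) δ) j V (slk (m-1))`, and `j V (slk m) = j V (slk (m-1)) - (slk m - slk (m-1)) Phi V` (`j_step`) with `slk m > slk (m-1)` (`cot` decreasing), so `Phi V ≤ 0` and `0 ≤ Rker (m-1)` give `0 ≤ Rker m`. If `al n (m-1) s T = 0` `rker_eq` for `m - 1` is not available (it needs `al ≠ 0`): so the hypothesis of
`step_s` is stated with `j` instead of `Rker`. `step_t`: the same for the reflected polygon (`opt_neg`). Proof of `ker_of`: for the polygon `(T, k)` let `P m` be: for all `s` and all polygons (both the polygon and its reflection are polygons, so quantify over all `T, k`) `0 ≤ (sv ..).j (sx m) (slk m)` if `be ≠ 0` (i.e. `(sv ..).q ≠ 0`).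
PERTURBATION when `al = 0`: `j` makes sense for `al = 0` (only `q ≠ 0` is needed). `jnn`: `0 ≤ (sv n k (th T) s).j (sx m) (slk m)` for all `m ≥ 1`, `2m < n`, whenever `(sv ..).q ≠ 0`, by induction on `m`: if `al n m s T ≠ 0`: `m = 1`: `ker_one`, `rker_eq`. `m ≥ 2`: if `Phi V ≤ 0`: induction hypothesis for `m - 1` and the same `s` (same `q`).
If `Phi' V' ≤ 0` for the reflected polygon seen from `-t` (`sv'`, its `q' = - al S ≠ 0`): `0 ≤ (sv' ..).j` at `m - 1` by the induction hypothesis applied to the reflected polygon, so `0 ≤ (sv' ..).j` at `m`, `0 ≤ Rker n m (-t) (T∘neg) (k∘neg)` (`rker_eq`, `al_neg`) `= Rker n m s T k` (`rker_symm`), so `0 ≤ j`. Otherwise `poly_bd` and `CaseC`: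
`K.col.Phi (K.g 0) = (sv ..).Phi (sx (m-1)) > 0` (`Phi_shr`), `K.row.Phi (K.l 0) = (1/S)² (sv' ..).Phi (sx' (m-1)) > 0` (`Phi_scale` with `c = 1/S`), so `0 ≤ K.col.j (K.g 0) 0 = (sv ..).j (sx (m-1)) (slk m)` (`j_shr`) `= j (sx m) (slk m)`.
If `al n m s T = 0`: change the mass `T s` a little: `T^ε = update T s (T s + ε)`, `k^ε` the `Opt` vector (`exists_opt`); `al n m s T^ε = ε ≠ 0` (`aj 0 = 1`), `be` does not change (`bj 0 = 0`), so `0 ≤ j` for `T^ε`, and `j` is continuous at `ε = 0` (`opt_tendsto`; `(sv ..).j (sx m) (slk m)` depends continuously on `(T, k)` for `q ≠ 0`: `jcont`).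
Finally `ker_of`: `rker_eq` and `jnn`.
-/

set_option autoImplicit false

open MeasureTheory Set Filter Topology

namespace Pool.Agent.Lib.MP_1dedaf_gt.DK

open Pool.Agent.Lib.MP_1dedaf_gt.LB

theorem slk_lt (n : ℕ) [NeZero n] {m : ℕ} (hm : 2 ≤ m) (hm2 : 2 * m < n) : slk n (m - 1) < slk n m := by
  have h1 : 0 < Real.sin (((m - 1 : ℕ) : ℝ) * dl n) := sin_pos n (by omega) (by omega)
  have h2 : 0 < Real.sin ((m : ℝ) * dl n) := sin_pos n (by omega) hm2
  have h3 : 0 < Real.sin (((1 : ℕ) : ℝ) * dl n) := sin_pos n (by omega) (by omega)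
  unfold slk
  rw [neg_lt_neg_iff, div_lt_div_iff₀ h2 h1]
  have e : ((m : ℕ) : ℝ) * dl n - ((m - 1 : ℕ) : ℝ) * dl n = ((1 : ℕ) : ℝ) * dl n := by
    rw [Nat.cast_sub (by omega : 1 ≤ m)]
    push_cast
    ring
  rw [← e, Real.sin_sub] at h3
  linarith [mul_comm (Real.cos ((m : ℝ) * dl n)) (Real.sin (((m - 1 : ℕ) : ℝ) * dl n)),
    mul_comm (Real.cos (((m - 1 : ℕ) : ℝ) * dl n)) (Real.sin ((m : ℝ) * dl n))]

theorem j_edge (n : ℕ) [NeZero n] (hn : Odd n) (h3 : 3 ≤ n) {T k : ZMod n → ℝ} (hT : ∀ i, 0 < T i)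
    (ho : Opt (dir n) T k) (s : ZMod n) {m : ℕ} (hm : 0 < m) (hm2 : 2 * m < n) (hq : (sv n k (th (dir n) T) s).q ≠ 0) :
    (sv n k (th (dir n) T) s).j (sx n k s (m - 1)) (slk n m) = (sv n k (th (dir n) T) s).j (sx n k s m) (slk n m) := by
  have h := sx_lt_lo n hn h3 hT ho s (m - 1) (by omega)
  rw [show m - 1 + 1 = m by omega] at h
  refine (j_const _ (sv_reg n hn h3 hT ho s hq) (slk n m) (sle n k s m) _ _ h.le fun x hx => ?_).symm
  have h1 := sv_l_eq n hn h3 hT ho s (m - 1) (by omega) x (by rw [show m - 1 + 1 = m by omega]; exact hx)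
  rw [show m - 1 + 1 = m by omega] at h1
  rw [h1, ln_aff]

theorem step_s (n : ℕ) [NeZero n] (hn : Odd n) (h3 : 3 ≤ n) {T k : ZMod n → ℝ} (hT : ∀ i, 0 < T i)
    (ho : Opt (dir n) T k) (s : ZMod n) {m : ℕ} (hm : 2 ≤ m) (hm2 : 2 * m < n) (hq : (sv n k (th (dir n) T) s).q ≠ 0)
    (h1 : (sv n k (th (dir n) T) s).Phi (sx n k s (m - 1)) ≤ 0)
    (h2 : 0 ≤ (sv n k (th (dir n) T) s).j (sx n k s (m - 1)) (slk n (m - 1))) :
    0 ≤ (sv n k (th (dir n) T) s).j (sx n k s m) (slk n m) := by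
  rw [← j_edge n hn h3 hT ho s (by omega) hm2 hq, j_step _ hq _ (slk n (m - 1)) (slk n m)]
  have h4 := mul_nonneg (sub_nonneg.2 (slk_lt n hm hm2).le) (neg_nonneg.2 h1)
  linarith

private theorem N2_al (n : ℕ) [NeZero n] {m : ℕ} (hm : 0 < m) (hm2 : 2 * m < n) (s : ZMod n) (T : ZMod n → ℝ) (x : ℝ) :
    al n m s (Function.update T s x) = al n m s T + (x - T s) ∧ be n m s (Function.update T s x) = be n m s T := by
  obtain ⟨N, hN⟩ : ∃ N, n = N + 1 := ⟨n - 1, by omega⟩
  have hz := aj_zero n hm hm2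
  have hne : ∀ j : ℕ, j < N → s + ((j + 1 : ℕ) : ZMod n) ≠ s := by
    intro j hj h
    have h1 : ((j + 1 : ℕ) : ZMod n) = 0 := by
      have := congrArg (fun z => z - s) h
      simpa using this
    rw [ZMod.natCast_eq_zero_iff] at h1
    exact absurd (Nat.le_of_dvd (by omega) h1) (by omega)
  have hsum : ∀ c : ℕ → ℝ, ∑ j ∈ Finset.range n, c j * Function.update T s x (s + (j : ℕ)) =
      ∑ j ∈ Finset.range n, c j * T (s + (j : ℕ)) + c 0 * (x - T s) := by
    intro c
    have hr : Finset.range n = Finset.range (N + 1) := by rw [hN]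
    rw [hr, Finset.sum_range_succ', Finset.sum_range_succ']
    have h0 : Function.update T s x (s + ((0 : ℕ) : ZMod n)) = x := by simp
    have h0' : T (s + ((0 : ℕ) : ZMod n)) = T s := by simp
    rw [h0, h0']
    have h1 : ∑ j ∈ Finset.range N, c (j + 1) * Function.update T s x (s + ((j + 1 : ℕ) : ZMod n)) =
        ∑ j ∈ Finset.range N, c (j + 1) * T (s + ((j + 1 : ℕ) : ZMod n)) := by
      refine Finset.sum_congr rfl fun j hj => ?_
      rw [Function.update_of_ne (hne j (Finset.mem_range.1 hj))]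
    rw [h1]
    ring
  constructor
  · unfold al
    rw [hsum (aj n m), hz.1]
    ring
  · unfold be
    rw [hsum (bj n m), hz.2.2.1]
    ring

theorem jnn (h1 : CFPos) (h2 : CaseC) (n : ℕ) [NeZero n] (hn : Odd n) (h3 : 3 ≤ n) (m : ℕ) (hm : 0 < m) (hm2 : 2 * m < n) (T k : ZMod n → ℝ)
    (hT : ∀ i, 0 < T i) (ho : Opt (dir n) T k) (s : ZMod n) (hq : (sv n k (th (dir n) T) s).q ≠ 0) :
    0 ≤ (sv n k (th (dir n) T) s).j (sx n k s m) (slk n m) := by
  induction m generalizing T k s with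
  | zero => exact absurd hm (lt_irrefl 0)
  | succ m ih =>
    -- the case `al ≠ 0`
    have main : ∀ (T k : ZMod n → ℝ), (∀ i, 0 < T i) → Opt (dir n) T k → ∀ s : ZMod n, (sv n k (th (dir n) T) s).q ≠ 0 →
        al n (m + 1) s T ≠ 0 → 0 ≤ (sv n k (th (dir n) T) s).j (sx n k s (m + 1)) (slk n (m + 1)) := by
      intro T k hT ho s hq ha
      have hsin : 0 < Real.sin (((m + 1 : ℕ) : ℝ) * dl n) := sin_pos n (by omega) hm2
      have hb : be n (m + 1) s T ≠ 0 := by
        intro h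
        rw [q_eq n hn h3 (by omega : 0 < m + 1) hm2 s T k, h] at hq
        exact hq (by ring)
      have hR := rker_eq n hn h3 hT ho s (m + 1) (by omega) hm2 ha hb
      have hRj : 0 ≤ Rker n (m + 1) s T k → 0 ≤ (sv n k (th (dir n) T) s).j (sx n k s (m + 1)) (slk n (m + 1)) := by
        intro h
        rw [hR] at h
        exact nonneg_of_mul_nonneg_right h hsin
      rcases Nat.eq_zero_or_pos m with hm0 | hmp
      · subst hm0
        exact hRj (ker_one h1 n hn h3 hT ho s ha hb)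
      · have hm2' : 2 ≤ m + 1 := by omega
        by_cases hP : (sv n k (th (dir n) T) s).Phi (sx n k s (m + 1 - 1)) ≤ 0
        · exact step_s n hn h3 hT ho s hm2' hm2 hq hP (by simpa using ih hmp (by omega) T k hT ho s hq)
        · have hT' : ∀ i, 0 < (fun i => T (-i)) i := fun i => hT (-i)
          have ho' := opt_neg n hn h3 ho
          have hal := al_neg n hn h3 (by omega : 0 < m + 1) hm2 s T
          have hq' : (sv n (fun i => k (-i)) (th (dir n) (fun i => T (-i))) (-(s + ((m + 1 : ℕ) : ZMod n)))).q ≠ 0 := by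
            rw [q_eq n hn h3 (by omega : 0 < m + 1) hm2 (-(s + ((m + 1 : ℕ) : ZMod n))) (fun i => T (-i)) (fun i => k (-i)), hal.2]
            exact neg_ne_zero.2 (mul_ne_zero ha hsin.ne')
          by_cases hP' : (sv n (fun i => k (-i)) (th (dir n) (fun i => T (-i))) (-(s + ((m + 1 : ℕ) : ZMod n)))).Phi
              (sx n (fun i => k (-i)) (-(s + ((m + 1 : ℕ) : ZMod n))) (m + 1 - 1)) ≤ 0
          · have h5 := step_s n hn h3 hT' ho' (-(s + ((m + 1 : ℕ) : ZMod n))) hm2' hm2 hq' hP'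
              (by simpa using ih hmp (by omega) _ _ hT' ho' (-(s + ((m + 1 : ℕ) : ZMod n))) hq')
            have h6 := rker_eq n hn h3 hT' ho' (-(s + ((m + 1 : ℕ) : ZMod n))) (m + 1) (by omega) hm2
              (by rw [hal.1]; exact hb) (by rw [hal.2]; exact ha)
            apply hRj
            rw [rker_symm n hn h3 (by omega : 0 < m + 1) hm2 s hT ho ha hb, h6]
            exact mul_nonneg hsin.le h5
          · obtain ⟨K, hOk, hcol, hrow, hw, hh, hg0, hr0, hl0, hu0⟩ := poly_bd n hn h3 hT ho s (by omega : 0 < m + 1) hm2 ha hb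
            have hlen := sx_lt_lo n hn h3 hT ho s (m + 1 - 1) (by omega)
            have hlen' := sx_lt_lo n hn h3 hT' ho' (-(s + ((m + 1 : ℕ) : ZMod n))) (m + 1 - 1) (by omega)
            have hpos : ∀ (T k : ZMod n → ℝ), (∀ i, 0 < T i) → Opt (dir n) T k → ∀ s : ZMod n, 0 < sx n k s (m + 1 - 1) := by
              intro T k hT ho s
              have h7 : ∀ j : ℕ, j + 1 ≤ (n - 1) / 2 → 0 < sx n k s (j + 1) := by
                intro j
                induction j with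
                | zero =>
                  intro hj
                  have := sx_lt_lo n hn h3 hT ho s 0 (by omega)
                  rwa [sx_zero n hn h3 k s] at this
                | succ j ihj =>
                  intro hj
                  exact (ihj (by omega)).trans (sx_lt_lo n hn h3 hT ho s (j + 1) (by omega))
              have h8 := h7 (m - 1) (by omega)
              rwa [show m - 1 + 1 = m + 1 - 1 by omega] at h8
            have e1 : m + 1 - 1 + 1 = m + 1 := by omega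
            rw [e1] at hlen hlen'
            have h9 := h2 K hOk (by rw [hg0]; exact hpos T k hT ho s) (by rw [hg0, hr0]; exact hlen)
              (by rw [hl0]; exact div_pos (hpos _ _ hT' ho' _) hsin) (by rw [hl0, hu0]; exact (div_lt_div_iff_of_pos_right hsin).2 hlen') hw hh
              (by rw [hcol, Phi_shr _ hq, hg0]; exact not_le.1 hP)
              (by
                rw [hrow, hl0]
                have e2 : sx n (fun i => k (-i)) (-(s + ((m + 1 : ℕ) : ZMod n))) (m + 1 - 1) / Real.sin (((m + 1 : ℕ) : ℝ) * dl n) =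
                    1 / Real.sin (((m + 1 : ℕ) : ℝ) * dl n) * sx n (fun i => k (-i)) (-(s + ((m + 1 : ℕ) : ZMod n))) (m + 1 - 1) := by ring
                rw [e2, Phi_scale _ _ _ (one_div_pos.2 hsin) hsin]
                refine mul_pos (pow_pos (one_div_pos.2 hsin) 2) ?_
                unfold sv'
                rw [Phi_shr _ hq']
                exact not_le.1 hP')
            rw [hcol, j_shr _ hq, hg0] at h9
            rw [← j_edge n hn h3 hT ho s (by omega) hm2 hq]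
            exact h9
    by_cases ha : al n (m + 1) s T = 0
    · -- perturbation
      have hsin : 0 < Real.sin (((m + 1 : ℕ) : ℝ) * dl n) := sin_pos n (by omega) hm2
      have hb : be n (m + 1) s T ≠ 0 := by
        intro h
        rw [q_eq n hn h3 (by omega : 0 < m + 1) hm2 s T k, h] at hq
        exact hq (by ring)
      have hth : th (dir n) T ≠ 0 := by
        intro h
        apply hq
        simp [sv, h]
      let ε : ℕ → ℝ := fun j => 1 / ((j : ℝ) + 1)
      have hε : ∀ j, 0 < ε j := fun j => Nat.one_div_pos_of_nat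
      let Ts : ℕ → ZMod n → ℝ := fun j => Function.update T s (T s + ε j)
      have hTs : ∀ j i, 0 < Ts j i := by
        intro j i
        by_cases hi : i = s
        · subst hi
          simp only [Ts, Function.update_self]
          linarith [hT i, hε j]
        · simp only [Ts, Function.update_of_ne hi]
          exact hT i
      have hex : ∀ j, ∃ k, Opt (dir n) (Ts j) k := fun j => exists_opt (dir_adm n hn h3) (hTs j)
      choose ks hks using hex
      have hlim : Tendsto Ts atTop (𝓝 T) := by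
        rw [tendsto_pi_nhds]
        intro i
        by_cases hi : i = s
        · subst hi
          simp only [Ts, Function.update_self]
          have := (tendsto_one_div_add_atTop_nhds_zero_nat (𝕜 := ℝ)).const_add (T i)
          rw [add_zero] at this
          exact this
        · simp only [Ts, Function.update_of_ne hi]
          exact tendsto_const_nhds
      have hklim : Tendsto ks atTop (𝓝 k) := opt_tendsto n hn h3 hT hTs hlim hth hks ho
      refine ge_of_tendsto' (jcont n hn h3 hT hTs ho hks hlim hklim s (m + 1) (by omega) hm2 hq) fun j => ?_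
      have hab := N2_al n (by omega : 0 < m + 1) hm2 s T (T s + ε j)
      refine main (Ts j) (ks j) (hTs j) (hks j) s ?_ ?_
      · rw [q_eq n hn h3 (by omega : 0 < m + 1) hm2 s (Ts j) (ks j)]
        simp only [Ts]
        rw [hab.2]
        exact neg_ne_zero.2 (mul_ne_zero hb hsin.ne')
      · simp only [Ts]
        rw [hab.1, ha]
        have := hε j
        intro h
        simp at h
        linarith
    · exact main T k hT ho s hq ha

theorem ker_of (h1 : CFPos) (h2 : CaseC) : Ker := by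
  intro n _ hn h3 m hm hm2 s T k hT ho ha hb
  have hsin : 0 < Real.sin ((m : ℝ) * dl n) := sin_pos n hm hm2
  rw [rker_eq n hn h3 hT ho s m hm hm2 ha hb]
  refine mul_nonneg hsin.le (jnn h1 h2 n hn h3 m hm hm2 T k hT ho s ?_)
  rw [q_eq n hn h3 hm hm2 s T k]
  exact neg_ne_zero.2 (mul_ne_zero hb hsin.ne')

end Pool.Agent.Lib.MP_1dedaf_gt.DK
end

section

/-!
# TASK DC E1: adjacent pairs, the step, the symmetry, for polygons with positive edges

Take `T`, `c` from `opt_of`, `k' i = k i - <c, dir i>`; `Opt (dir n) T k'`, `th (dir n) T = ξ`. The reflected pair: `fun i => k' (-i) = fun i => k (-i) - <RfS1 c, dir i>` (`<c, dir (-i)> = <RfS1 c, dir i>`), `opt_neg`, `th (dir n) (fun i => T (-i)) = RfS1 ξ` (`RfS1_th`).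
`al_be_ne`: `be ≠ 0` from `q_eq` (`(sv n k ξ s).q = - <ξ, rot (dir s)> ≠ 0`), `al ≠ 0` from `al_neg` (S4) and `q_eq` for the reflected pair at `-(s+m)` (`(sv ..).q = <ξ, rot (dir (s+m))> ≠ 0`).
`e1`: `ker_one` and `rker_eq` for `k'` (`slk n m` is `- (cos (m dl) / sin (m dl))` by definition), `sin (dl) > 0`, `jj_tr`. `e2`: `step_s` (N2) for `k'`, `jj_tr`. `e3`: `rker_symm` and twice `rker_eq` (`sin (m dl) > 0`: `sin_pos`), `jj_tr` for `k` and for the reflected polygon.
-/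

set_option autoImplicit false

open MeasureTheory Set Filter Topology

namespace Pool.Agent.Lib.MP_1dedaf_gt.DK

open Pool.Agent.Lib.MP_1dedaf_gt.LB

private theorem E1_rf_q (n : ℕ) [NeZero n] (ξ : E2) (i : ZMod n) :
    inner ℝ (RfS1 ξ) (rot (dir n i)) = - inner ℝ ξ (rot (dir n (-i))) := by
  rw [RfS1_inner', RfS1_rot, RfS1_dir, inner_neg_right]

private theorem E1_q (n : ℕ) [NeZero n] (k : ZMod n → ℝ) {ξ : E2} (hξ : Gen n ξ) (s : ZMod n) : (sv n k ξ s).q ≠ 0 := by
  show - inner ℝ ξ (rot (dir n s)) ≠ 0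
  exact neg_ne_zero.2 (hξ s)

theorem al_be_ne (n : ℕ) [NeZero n] (hn : Odd n) (h3 : 3 ≤ n) {T : ZMod n → ℝ} {ξ : E2} (hξ : Gen n ξ) (hT : th (dir n) T = ξ)
    (s : ZMod n) {m : ℕ} (hm : 0 < m) (hm2 : 2 * m < n) : al n m s T ≠ 0 ∧ be n m s T ≠ 0 := by
  constructor
  · intro h
    have h1 := q_eq n hn h3 hm hm2 (-(s + (m : ℕ))) (fun i => T (-i)) (fun _ => 0)
    rw [(al_neg n hn h3 hm hm2 s T).2, h, zero_mul, neg_zero] at h1
    have h2 : - inner ℝ (th (dir n) (fun i => T (-i))) (rot (dir n (-(s + (m : ℕ))))) = (0 : ℝ) := h1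
    rw [RfS1_th, hT, E1_rf_q, neg_neg, neg_neg] at h2
    exact hξ _ h2
  · intro h
    have h1 := q_eq n hn h3 hm hm2 s T (fun _ => 0)
    rw [h, zero_mul, neg_zero] at h1
    have h2 : - inner ℝ (th (dir n) T) (rot (dir n s)) = (0 : ℝ) := h1
    rw [hT, neg_eq_zero] at h2
    exact hξ _ h2

theorem gen_rf (n : ℕ) [NeZero n] (hn : Odd n) (h3 : 3 ≤ n) {ξ : E2} (hξ : Gen n ξ) : Gen n (RfS1 ξ) := by
  intro i
  rw [E1_rf_q]
  exact neg_ne_zero.2 (hξ (-i))

theorem gp_neg (n : ℕ) [NeZero n] (hn : Odd n) (h3 : 3 ≤ n) {k : ZMod n → ℝ} (hk : Gp n k) : Gp n (fun i => k (-i)) := by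
  refine ⟨fun i => ?_, ?_⟩
  · have e1 : lo n (fun i => k (-i)) i = - hi n k (-i) := by
      unfold lo hi
      beta_reduce
      rw [show -(i - 1) = -i + 1 by ring, ← neg_div]
      congr 1
      ring
    have e2 : hi n (fun i => k (-i)) i = - lo n k (-i) := by
      unfold lo hi
      beta_reduce
      rw [show -(i + 1) = -i - 1 by ring, ← neg_div]
      congr 1
      ring
    rw [e1, e2]
    exact neg_lt_neg (hk.len (-i))
  · obtain ⟨x, hx⟩ := hk.fat
    refine ⟨RfS1 x, fun i => ?_⟩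
    rw [RfS1_inner', RfS1_dir]
    exact hx (-i)

theorem e1 (hP : CFPos) (n : ℕ) [NeZero n] (hn : Odd n) (h3 : 3 ≤ n) {k : ZMod n → ℝ} (hk : Gp n k) {ξ : E2} (hξ : Gen n ξ)
    (s : ZMod n) : 0 ≤ jj n k ξ s 1 := by
  obtain ⟨T, c, hT, hth, ho⟩ := opt_of n hn h3 hk ξ
  have hab := al_be_ne n hn h3 hξ hth s one_pos (by omega : 2 * 1 < n)
  have h1 := ker_one hP n hn h3 hT ho s hab.1 hab.2
  rw [rker_eq n hn h3 hT ho s 1 one_pos (by omega) hab.1 hab.2, hth] at h1
  have hsin : 0 < Real.sin (((1 : ℕ) : ℝ) * dl n) := sin_pos n one_pos (by omega)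
  have h2 := nonneg_of_mul_nonneg_right h1 hsin
  rw [← (jj_tr n hn h3 k ξ c s (E1_q n k hξ s) 1).1]
  exact h2

theorem e2 (n : ℕ) [NeZero n] (hn : Odd n) (h3 : 3 ≤ n) {k : ZMod n → ℝ} (hk : Gp n k) {ξ : E2} (hξ : Gen n ξ) (s : ZMod n)
    {m : ℕ} (hm : 2 ≤ m) (hm2 : 2 * m < n) (h1 : ff n k ξ s (m - 1) ≤ 0) (h2 : 0 ≤ jj n k ξ s (m - 1)) : 0 ≤ jj n k ξ s m := by
  obtain ⟨T, c, hT, hth, ho⟩ := opt_of n hn h3 hk ξ
  have ht := fun m => jj_tr n hn h3 k ξ c s (E1_q n k hξ s) m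
  rw [← (ht (m - 1)).2] at h1
  rw [← (ht (m - 1)).1] at h2
  rw [← (ht m).1]
  unfold ff at h1
  unfold jj at h2 ⊢
  rw [← hth] at h1 h2 ⊢
  exact step_s n hn h3 hT ho s hm hm2 (by rw [hth]; exact E1_q n _ hξ s) h1 h2

theorem e3 (n : ℕ) [NeZero n] (hn : Odd n) (h3 : 3 ≤ n) {k : ZMod n → ℝ} (hk : Gp n k) {ξ : E2} (hξ : Gen n ξ) (s : ZMod n)
    {m : ℕ} (hm : 0 < m) (hm2 : 2 * m < n) : jj n k ξ s m = jj n (fun i => k (-i)) (RfS1 ξ) (-(s + (m : ℕ))) m := by
  obtain ⟨T, c, hT, hth, ho⟩ := opt_of n hn h3 hk ξ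
  have hab := al_be_ne n hn h3 hξ hth s hm hm2
  have hsin : 0 < Real.sin ((m : ℝ) * dl n) := sin_pos n hm hm2
  have hT' : ∀ i, 0 < (fun i => T (-i)) i := fun i => hT (-i)
  have ho' := opt_neg n hn h3 ho
  have hal := al_neg n hn h3 hm hm2 s T
  have h1 := rker_symm n hn h3 hm hm2 s hT ho hab.1 hab.2
  have h2 := rker_eq n hn h3 hT ho s m hm hm2 hab.1 hab.2
  have h4 := rker_eq n hn h3 hT' ho' (-(s + (m : ℕ))) m hm hm2 (by rw [hal.1]; exact hab.2) (by rw [hal.2]; exact hab.1)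
  rw [h2, h4, RfS1_th, hth] at h1
  have h5 := mul_left_cancel₀ hsin.ne' h1
  have e : (fun i => (fun i => k i - inner ℝ c (dir n i)) (-i)) = fun i => (fun i => k (-i)) i - inner ℝ (RfS1 c) (dir n i) := by
    funext i
    rw [RfS1_inner', RfS1_dir]
  rw [← (jj_tr n hn h3 k ξ c s (E1_q n k hξ s) m).1,
    ← (jj_tr n hn h3 (fun i => k (-i)) (RfS1 ξ) (RfS1 c) (-(s + (m : ℕ))) (E1_q n _ (gen_rf n hn h3 hξ) _) m).1, ← e]
  exact h5

end Pool.Agent.Lib.MP_1dedaf_gt.DK
end

section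

/-!
# EP MU: the residual of the edge `x = 0` when the pivot lies beyond the opposite vertex

`G x = (a - Xu x) - (a - Xl x) * exp (q * (u x - l x))` (that is `ru * (F_u - F_l)`). For `x ≤ y`: `G x - G y = ∫_x^y rl t (exp (q h t) - exp (q h x)) dt + (a - Xl y) (exp (q h y) - exp (q h x))`,
`h = u - l`. `q < 0`, `Xl w ≤ a`: `G` is monotone where `h` is monotone, antitone where `h` is antitone; `0 ≤ G w`; `∫ G / ru = 0`. If `ms < 0` then `0 < G 0`, so `G ≥ 0` on `[0, w]`,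
contradiction.
-/

set_option autoImplicit false

open MeasureTheory Set Filter Topology

namespace Pool.Agent.Lib.MP_1dedaf_gt.DK

/-- `ru * (F_u - F_l)`. -/
private noncomputable def MUG (K : Dat) (x : ℝ) : ℝ :=
  (K.a - K.Xu x) - (K.a - K.Xl x) * Real.exp (K.q * (K.u x - K.l x))

private theorem MU_ratio (K : Dat) (x : ℝ) : Real.exp (K.q * (K.u x - K.l x)) = K.ru x / K.rl x := by
  unfold Dat.ru Dat.rl
  rw [← Real.exp_sub]
  congr 1
  ring

private theorem MU_mul (K : Dat) (x : ℝ) : K.rl x * Real.exp (K.q * (K.u x - K.l x)) = K.ru x := by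
  rw [MU_ratio, mul_div_cancel₀ _ (K.rl_pos x).ne']

private theorem MU_Xl (K : Dat) (cl : Continuous K.l) (x y : ℝ) : K.Xl y - K.Xl x = ∫ t in x..y, K.rl t := by
  unfold Dat.Xl
  rw [intervalIntegral.integral_interval_sub_left] <;>
  exact (K.rl_cont cl).intervalIntegrable _ _

private theorem MU_Xu (K : Dat) (hq : K.q ≠ 0) (cl : Continuous K.l) (cu : Continuous K.u) (x y : ℝ) :
    K.Xu y - K.Xu x = ∫ t in x..y, K.ru t :=
  (intervalIntegral.integral_eq_sub_of_hasDerivAt (fun t _ => K.Xu_deriv hq cl cu t)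
    ((K.ru_cont cu).intervalIntegrable _ _)).symm

private theorem MU_diff (K : Dat) (h : K.Reg) (x y : ℝ) :
    MUG K x - MUG K y = (∫ t in x..y, K.rl t * (Real.exp (K.q * (K.u t - K.l t)) - Real.exp (K.q * (K.u x - K.l x)))) +
      (K.a - K.Xl y) * (Real.exp (K.q * (K.u y - K.l y)) - Real.exp (K.q * (K.u x - K.l x))) := by
  have h1 := MU_Xl K h.cl x y
  have h2 := MU_Xu K h.hq h.cl h.cu x y
  have h3 : (∫ t in x..y, K.rl t * (Real.exp (K.q * (K.u t - K.l t)) - Real.exp (K.q * (K.u x - K.l x)))) =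
      (∫ t in x..y, K.ru t) - (∫ t in x..y, K.rl t) * Real.exp (K.q * (K.u x - K.l x)) := by
    have hi : IntervalIntegrable (fun t => K.rl t * Real.exp (K.q * (K.u x - K.l x))) volume x y :=
      Continuous.intervalIntegrable ((K.rl_cont h.cl).mul continuous_const) _ _
    rw [← intervalIntegral.integral_mul_const, ← intervalIntegral.integral_sub ((K.ru_cont h.cu).intervalIntegrable _ _) hi]
    congr 1
    funext t
    rw [mul_sub, MU_mul]
  rw [h3, ← h1, ← h2]
  unfold MUG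
  ring

/-- The residual is not negative. -/
theorem ms_nonneg (K : Dat) (h : K.Reg) (hq : K.q < 0) (vl : ConvexOn ℝ (Icc 0 K.w) K.l) (vu : ConcaveOn ℝ (Icc 0 K.w) K.u)
    (hw : K.Xl K.w ≤ K.a) : 0 ≤ K.ms := by
  by_contra hms
  push Not at hms
  have hw0 := h.hw
  -- the height
  set H : ℝ → ℝ := fun x => K.u x - K.l x with hH
  have hHc : Continuous H := h.cu.sub h.cl
  have vH : ConcaveOn ℝ (Icc 0 K.w) H := vu.sub vl
  obtain ⟨c, hc, hmax⟩ := isCompact_Icc.exists_isMaxOn (nonempty_Icc.2 hw0.le) hHc.continuousOn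
  have hmax' : ∀ x ∈ Icc 0 K.w, H x ≤ H c := fun x hx => hmax hx
  have hup : ∀ x y, 0 ≤ x → x ≤ y → y ≤ c → H x ≤ H y := by
    intro x y hx hxy hyc
    have hxm : x ∈ Icc 0 K.w := ⟨hx, by linarith [hc.2]⟩
    have hy : y ∈ segment ℝ x c := by
      rw [segment_eq_Icc (hxy.trans hyc)]
      exact ⟨hxy, hyc⟩
    have := vH.min_le_of_mem_segment hxm hc hy
    rwa [min_eq_left (hmax' x hxm)] at this
  have hdn : ∀ x y, c ≤ x → x ≤ y → y ≤ K.w → H y ≤ H x := by
    intro x y hcx hxy hyw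
    have hym : y ∈ Icc 0 K.w := ⟨by linarith [hc.1], hyw⟩
    have hx : x ∈ segment ℝ c y := by
      rw [segment_eq_Icc (hcx.trans hxy)]
      exact ⟨hcx, hxy⟩
    have := vH.min_le_of_mem_segment hc hym hx
    rwa [min_eq_right (hmax' y hym)] at this
  have hXmono : Monotone K.Xl := by
    refine monotone_of_deriv_nonneg (fun x => (K.Xl_deriv h.cl x).differentiableAt) fun x => ?_
    rw [(K.Xl_deriv h.cl x).deriv]
    exact (K.rl_pos x).le
  have hE : ∀ y, y ≤ K.w → 0 ≤ K.a - K.Xl y := fun y hy => by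
    have := hXmono hy
    linarith
  have hexp : ∀ x y, H x ≤ H y → Real.exp (K.q * (K.u y - K.l y)) ≤ Real.exp (K.q * (K.u x - K.l x)) := by
    intro x y hxy
    apply Real.exp_le_exp.2
    exact mul_le_mul_of_nonpos_left hxy hq.le
  -- `G` on the two parts
  have hG1 : ∀ x, 0 ≤ x → x ≤ c → MUG K 0 ≤ MUG K x := by
    intro x hx hxc
    have e := MU_diff K h 0 x
    have i1 : (∫ t in (0:ℝ)..x, K.rl t * (Real.exp (K.q * (K.u t - K.l t)) - Real.exp (K.q * (K.u 0 - K.l 0)))) ≤ 0 := by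
      have i3 : 0 ≤ ∫ t in (0:ℝ)..x, - (K.rl t * (Real.exp (K.q * (K.u t - K.l t)) - Real.exp (K.q * (K.u 0 - K.l 0)))) := by
        apply intervalIntegral.integral_nonneg hx
        intro t ht
        have h3 := (K.rl_pos t).le
        have := hexp 0 t (hup 0 t le_rfl ht.1 (ht.2.trans hxc))
        nlinarith
      rw [intervalIntegral.integral_neg] at i3
      linarith
    have i2 : (K.a - K.Xl x) * (Real.exp (K.q * (K.u x - K.l x)) - Real.exp (K.q * (K.u 0 - K.l 0))) ≤ 0 := by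
      refine mul_nonpos_of_nonneg_of_nonpos (hE x (by linarith [hc.2])) ?_
      have := hexp 0 x (hup 0 x le_rfl hx hxc)
      linarith
    linarith
  have hG2 : ∀ x, c ≤ x → x ≤ K.w → MUG K K.w ≤ MUG K x := by
    intro x hcx hxw
    have e := MU_diff K h x K.w
    have i1 : 0 ≤ (∫ t in x..K.w, K.rl t * (Real.exp (K.q * (K.u t - K.l t)) - Real.exp (K.q * (K.u x - K.l x)))) := by
      apply intervalIntegral.integral_nonneg hxw
      intro t ht
      refine mul_nonneg (K.rl_pos t).le ?_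
      have := hexp t x (hdn x t hcx ht.1 ht.2)
      linarith
    have i2 : 0 ≤ (K.a - K.Xl K.w) * (Real.exp (K.q * (K.u K.w - K.l K.w)) - Real.exp (K.q * (K.u x - K.l x))) := by
      refine mul_nonneg (hE K.w le_rfl) ?_
      have := hexp K.w x (hdn x K.w hcx hxw le_rfl)
      linarith
    linarith
  have hGw : 0 ≤ MUG K K.w := by
    have e : MUG K K.w = (K.a - K.Xl K.w) * (1 - Real.exp (K.q * (K.u K.w - K.l K.w))) := by
      unfold MUG
      rw [K.Xu_w]
      ring
    rw [e]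
    refine mul_nonneg (hE K.w le_rfl) ?_
    have h1 : Real.exp (K.q * (K.u K.w - K.l K.w)) ≤ 1 := by
      apply Real.exp_le_one_iff.2
      have := h.lu K.w ⟨hw0.le, le_rfl⟩
      exact mul_nonpos_of_nonpos_of_nonneg hq.le (by linarith)
    linarith
  have hG0 : 0 < MUG K 0 := by
    have e : MUG K 0 = K.ru 0 * (K.q * K.ms) := by
      unfold MUG Dat.ms Dat.n0
      rw [MU_ratio, K.Xu_zero, K.Xl_zero]
      have h1 := (K.rl_pos 0).ne'
      have h2 := (K.ru_pos 0).ne'
      have h3 := h.hq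
      field_simp
      ring
    rw [e]
    exact mul_pos (K.ru_pos 0) (mul_pos_of_neg_of_neg hq hms)
  have hGnn : ∀ x ∈ Icc 0 K.w, 0 ≤ MUG K x := by
    intro x hx
    rcases le_total x c with hxc | hxc
    · exact hG0.le.trans (hG1 x hx.1 hxc)
    · exact hGw.trans (hG2 x hxc hx.2)
  have hGc : Continuous (MUG K) := by
    unfold MUG
    have h1 := K.Xu_cont h.cl h.cu
    have h2 := K.Xl_cont h.cl
    have h3 := h.cl
    have h4 := h.cu
    fun_prop
  have hcont : Continuous fun x => MUG K x / K.ru x := hGc.div (K.ru_cont h.cu) fun x => (K.ru_pos x).ne'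
  have hpos : 0 < ∫ x in (0:ℝ)..K.w, MUG K x / K.ru x := by
    refine intervalIntegral.integral_pos hw0 hcont.continuousOn (fun x hx => ?_) ⟨0, ⟨le_rfl, hw0.le⟩, ?_⟩
    · exact div_nonneg (hGnn x ⟨hx.1.le, hx.2⟩) (K.ru_pos x).le
    · exact div_pos hG0 (K.ru_pos 0)
  have hzero : (∫ x in (0:ℝ)..K.w, MUG K x / K.ru x) = 0 := by
    have hrl := K.rl_cont h.cl
    have hru := K.ru_cont h.cu
    have hXl := K.Xl_cont h.cl
    have hXu := K.Xu_cont h.cl h.cu
    have e : ∀ x, MUG K x / K.ru x = (K.Xl x ^ 1 / K.rl x - K.Xu x ^ 1 / K.ru x) - K.a * (K.Xl x ^ 0 / K.rl x - K.Xu x ^ 0 / K.ru x) := by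
      intro x
      unfold MUG
      rw [MU_ratio]
      have h1 := (K.rl_pos x).ne'
      have h2 := (K.ru_pos x).ne'
      field_simp
      ring
    have c1 : ∀ i : ℕ, Continuous fun x => K.Xl x ^ i / K.rl x - K.Xu x ^ i / K.ru x := fun i =>
      ((hXl.pow i).div hrl fun x => (K.rl_pos x).ne').sub ((hXu.pow i).div hru fun x => (K.ru_pos x).ne')
    have c2 : IntervalIntegrable (fun x => K.a * (K.Xl x ^ 0 / K.rl x - K.Xu x ^ 0 / K.ru x)) volume 0 K.w :=
      Continuous.intervalIntegrable (continuous_const.mul (c1 0)) _ _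
    rw [intervalIntegral.integral_congr fun x _ => e x, intervalIntegral.integral_sub ((c1 1).intervalIntegrable _ _) c2,
      intervalIntegral.integral_const_mul]
    have e1 : (∫ x in (0:ℝ)..K.w, (K.Xl x ^ 1 / K.rl x - K.Xu x ^ 1 / K.ru x)) = K.N 1 := rfl
    have e0 : (∫ x in (0:ℝ)..K.w, (K.Xl x ^ 0 / K.rl x - K.Xu x ^ 0 / K.ru x)) = K.N 0 := rfl
    rw [e1, e0]
    unfold Dat.a
    rw [div_mul_cancel₀ _ (K.N0_ne h), sub_self]
  linarith

end Pool.Agent.Lib.MP_1dedaf_gt.DK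
end

section

/-!
# Near arcs, minimum argument (campaign NA): translation of the near lines

`K.up f ε`: the lines whose upper envelope is `f` are moved up by `ε`. `K.Gx z`: the derivative of the absolute kernel `mass * j` under this
motion, when `f` is the near arc (the part of the lower boundary over `[0, z]`). `FINX` is the final inequality, with all the information which
is available at a minimum.
-/

set_option autoImplicit false

open MeasureTheory Set Filter Topology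

namespace Pool.Agent.Lib.MP_1dedaf_gt.DK

open Pool.Agent.Lib.MP_1dedaf_gt.LB

/-- The lines with the upper envelope `f` are moved up by `ε`. -/
noncomputable def Dat.up (K : Dat) (f : ℝ → ℝ) (ε : ℝ) : Dat := ⟨K.p, K.q, K.w, fun x => max (f x + ε) (K.l x), K.u⟩

/-- The derivative of the absolute kernel when the near arc is moved up. -/
noncomputable def Dat.Gx (K : Dat) (z : ℝ) : ℝ :=
  (K.a - K.Xl z) * (K.et z * (∫ t in (0:ℝ)..z, 1 / K.rl t) +
      (K.rl 0 * (∫ t in (0:ℝ)..z, 1 / K.rl t) - K.Xl z / K.rl z) / K.q) -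
    (K.p * (∫ t in (0:ℝ)..z, K.Xl t * (K.Xl z - K.Xl t) / K.rl t) - ∫ t in (0:ℝ)..z, (K.Xl z - 2 * K.Xl t)) / K.q

/-- The inequality for near arcs at a minimum, with the translations of the near arc. -/
def FINX : Prop := ∀ K : Bd, K.Near → 0 ≤ K.col.Gx (K.g 0) → 0 ≤ K.row.Gx (K.l 0) →
  0 ≤ K.col.Sd (K.g 0) → 0 ≤ K.row.Sd (K.l 0) →
  K.col.Xl (K.g 0) ≤ K.col.a → K.row.Xl (K.l 0) ≤ K.row.a →
  0 ≤ K.col.Phi (K.g 0) → 0 ≤ K.row.Phi (K.l 0) → K.col.Phi (K.r 0) ≤ 0 → K.row.Phi (K.u 0) ≤ 0 → 0 ≤ K.col.j (K.g 0) 0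

end Pool.Agent.Lib.MP_1dedaf_gt.DK
end

section

/-!
# TASK NA A1: moving the side `x = 0` inward: the derivative of the kernel, near arc

Model: file C3 (`scut_scale`, `s_move`; its private lemmas about the shifted data `C3_sh K a`, which is the same as `K.sh a`, can be copied). Notation: `nn K i a` from C3, `z` fixed, `0 ≤ a < z`.
(1) The data of `K.sh a`: densities `e^{-p a} rl (a + x)`, `e^{-p a} ru (a + x)`, `X`-functions `e^{-p a} (Xl (a+x) - Xl a)`, `e^{-p a} (Xu (a+x) - Xl a)`; with `e = e^{-p a}`: `M = e mr a`, `xb = e ∫_a^w mr` (`xb_eq`),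
`N 0 = e⁻¹ nn 0 a`, `N 1 = nn 1 a - Xl a nn 0 a`, `N 2 = e (nn 2 a - 2 Xl a nn 1 a + (Xl a)² nn 0 a)`, pivot `e (κ - Xl a)` with `κ a = nn 1 a / nn 0 a`, `V = e (nn 2 a - κ nn 1 a)`, `(pivot - X)/density` at `x` equals `(κ - Xl (a+x))/rl (a+x)`, so `Xi (z - a) = ∫_a^z (κ - Xl)/rl = κ ∫_a^z 1/rl - ∫_a^z Xl/rl`.
Hence (`nn 0 a ≠ 0` near `a = 0`, `M ≠ 0`): `e^{p a} * (M * j (z - a) 0)` of `K.sh a` is
`(1/q) [ mr a (z - a) - 2 ∫_a^w mr + mr a (κ - Xl z)/rl z + p ( (nn 2 a - κ nn 1 a)/q + mr a (κ ∫_a^z 1/rl - ∫_a^z Xl/rl) ) ]` (as `Phi = psi - Xi`, `psi = - V/(q M)`).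
(2) Differentiate at `a = 0` (all integrands are continuous, lower limits): `mr' = - mu 0`, `(∫_a^w mr)' = - M`, `nn0' = -(1/r - 1/R)`, `nn1' = Xu 0/R = - q M/R`, `nn2' = (Xu 0)²/R = q² M²/R` (`Xl 0 = 0`, `Xu 0 = - q M`; `r = rl 0`, `R = ru 0`, `mu 0 = (R - r)/q`), `(∫_a^z 1/rl)' = - 1/r`, `(∫_a^z Xl/rl)' = 0`,
`κ' = (nn1' - κ nn0')/N0 = - ms/D` (`N 0 = q D`). Put `I = ∫_0^z 1/rl`, `Y = (κ - Xl z)/rl z + z + p Xi z = q Nz z + κ/r`, `B = (M/D)(1/rl z + p I) = q et z + r + p κ + p q M`. The derivative times `q` is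
`- mu 0 Y + M - ms B + p [ ((nn2' - κ nn1')/q - κ' nn 1/q ... ]`: with `V' = nn2' - 2 κ nn1' + κ² nn0'` (because `V = nn2 - nn1²/nn0`) one gets `q * derivative = - mu 0 Y + M - ms B + p (V'/q - M κ/r)` and `V'/q = - κ² n0 + 2 M κ/R + q M²/R`, `M κ/R - M κ/r = - q n0 M κ`,
so `V'/q - M κ/r = ms (κ + q M)`; finally `- mu 0 κ/r + M = R ms` (`mu 0 = r R n0`) and `R + p κ + p q M - B = q (mu 0 - et z)`. All this is one `field_simp; ring` after the derivative has been computed (as in C3). Numerically checked. In the last step generalize the values `rl 0`, `ru 0`, `rl z`, `Xl z`, `I`, `N 0`, `N 1`, `M`, ...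
-/

set_option autoImplicit false

open MeasureTheory Set Filter Topology

namespace Pool.Agent.Lib.MP_1dedaf_gt.DK

private theorem NA1_ft {f : ℝ → ℝ} (hf : Continuous f) (w a : ℝ) :
    HasDerivAt (fun a => ∫ x in a..w, f x) (- f a) a := by
  have h1 : (fun a => ∫ x in a..w, f x) = fun x => - ∫ t in w..x, f t := by
    funext x
    exact intervalIntegral.integral_symm _ _
  rw [h1]
  exact (hf.integral_hasStrictDerivAt w a).hasDerivAt.neg

private theorem NA1_cont (K : Dat) (cl : Continuous K.l) (cu : Continuous K.u) (i : ℕ) :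
    Continuous (fun x => K.Xl x ^ i / K.rl x - K.Xu x ^ i / K.ru x) :=
  (((K.Xl_cont cl).pow i).div (K.rl_cont cl) fun x => (K.rl_pos x).ne').sub
    (((K.Xu_cont cl cu).pow i).div (K.ru_cont cu) fun x => (K.ru_pos x).ne')

private theorem NA1_nn_deriv (K : Dat) (cl : Continuous K.l) (cu : Continuous K.u) (i : ℕ) (a : ℝ) :
    HasDerivAt (nn K i) (- (K.Xl a ^ i / K.rl a - K.Xu a ^ i / K.ru a)) a :=
  NA1_ft (NA1_cont K cl cu i) K.w a

private theorem NA1_rl (K : Dat) (a x : ℝ) :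
    (K.sh a).rl x = Real.exp (-(K.p * a)) * K.rl (a + x) := by
  unfold Dat.rl Dat.sh
  rw [← Real.exp_add]
  congr 1
  ring

private theorem NA1_ru (K : Dat) (a x : ℝ) :
    (K.sh a).ru x = Real.exp (-(K.p * a)) * K.ru (a + x) := by
  unfold Dat.ru Dat.sh
  rw [← Real.exp_add]
  congr 1
  ring

private theorem NA1_mu (K : Dat) (a x : ℝ) :
    (K.sh a).mu x = Real.exp (-(K.p * a)) * K.mu (a + x) := by
  unfold Dat.mu
  rw [NA1_rl, NA1_ru, ← mul_sub, mul_div_assoc]
  rfl

private theorem NA1_Xl (K : Dat) (cl : Continuous K.l) (a x : ℝ) :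
    (K.sh a).Xl x = Real.exp (-(K.p * a)) * (K.Xl (a + x) - K.Xl a) := by
  have h1 : (K.sh a).rl = fun x => Real.exp (-(K.p * a)) * K.rl (a + x) :=
    funext fun x => NA1_rl K a x
  unfold Dat.Xl
  rw [h1, intervalIntegral.integral_const_mul, intervalIntegral.integral_comp_add_left, add_zero,
    intervalIntegral.integral_interval_sub_left ((K.rl_cont cl).intervalIntegrable _ _)
      ((K.rl_cont cl).intervalIntegrable _ _)]

private theorem NA1_mr (K : Dat) (a x : ℝ) :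
    (K.sh a).mr x = Real.exp (-(K.p * a)) * K.mr (a + x) := by
  have h1 : (K.sh a).mu = fun x => Real.exp (-(K.p * a)) * K.mu (a + x) :=
    funext fun x => NA1_mu K a x
  have h2 : a + (K.sh a).w = K.w := by
    change a + (K.w - a) = K.w
    ring
  unfold Dat.mr
  rw [h1, intervalIntegral.integral_const_mul, intervalIntegral.integral_comp_add_left, h2]

private theorem NA1_Xu (K : Dat) (cl : Continuous K.l) (a x : ℝ) :
    (K.sh a).Xu x = Real.exp (-(K.p * a)) * (K.Xu (a + x) - K.Xl a) := by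
  unfold Dat.Xu
  rw [NA1_Xl K cl, NA1_mr]
  change _ - K.q * _ = _
  ring

private theorem NA1_int (K : Dat) (a : ℝ) (f : ℝ → ℝ) :
    ∫ x in (0:ℝ)..(K.sh a).w, f (a + x) = ∫ x in a..K.w, f x := by
  have h2 : a + (K.sh a).w = K.w := by
    change a + (K.w - a) = K.w
    ring
  rw [intervalIntegral.integral_comp_add_left, h2, add_zero]

private theorem NA1_M (K : Dat) (a : ℝ) :
    (K.sh a).M = Real.exp (-(K.p * a)) * K.mr a := by
  rw [← (K.sh a).mr_zero, NA1_mr, add_zero]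

private theorem NA1_xb (K : Dat) (cl : Continuous K.l) (cu : Continuous K.u) (a : ℝ) :
    (K.sh a).xb = Real.exp (-(K.p * a)) * ∫ x in a..K.w, K.mr x := by
  have h0 : Continuous (K.sh a).l := cl.comp (continuous_const.add continuous_id)
  have h1 : Continuous (K.sh a).u := cu.comp (continuous_const.add continuous_id)
  have h2 : (K.sh a).mr = fun x => Real.exp (-(K.p * a)) * K.mr (a + x) :=
    funext fun x => NA1_mr K a x
  rw [Dat.xb_eq _ h0 h1, h2, intervalIntegral.integral_const_mul, NA1_int]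

private theorem NA1_N0 (K : Dat) (a : ℝ) :
    (K.sh a).N 0 = Real.exp (K.p * a) * nn K 0 a := by
  have e : Real.exp (K.p * a) * nn K 0 a = ∫ x in a..K.w,
      Real.exp (K.p * a) * (K.Xl x ^ 0 / K.rl x - K.Xu x ^ 0 / K.ru x) := by
    unfold nn
    rw [← intervalIntegral.integral_const_mul]
  rw [e, ← NA1_int K a (fun x => Real.exp (K.p * a) * (K.Xl x ^ 0 / K.rl x - K.Xu x ^ 0 / K.ru x))]
  unfold Dat.N
  refine intervalIntegral.integral_congr fun x _ => ?_
  have h1 := (K.rl_pos (a + x)).ne'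
  have h2 := (K.ru_pos (a + x)).ne'
  simp only [NA1_rl, NA1_ru, pow_zero, Real.exp_neg]
  have h3 := (Real.exp_pos (K.p * a)).ne'
  field_simp

private theorem NA1_N1 (K : Dat) (cl : Continuous K.l) (cu : Continuous K.u) (a : ℝ) :
    (K.sh a).N 1 = nn K 1 a - K.Xl a * nn K 0 a := by
  have e : (nn K 1 a - K.Xl a * nn K 0 a) = ∫ x in a..K.w,
      ((K.Xl x ^ 1 / K.rl x - K.Xu x ^ 1 / K.ru x) -
        K.Xl a * (K.Xl x ^ 0 / K.rl x - K.Xu x ^ 0 / K.ru x)) := by
    have c1 := NA1_cont K cl cu 1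
    have c0 : Continuous fun x => K.Xl a * (K.Xl x ^ 0 / K.rl x - K.Xu x ^ 0 / K.ru x) :=
      continuous_const.mul (NA1_cont K cl cu 0)
    unfold nn
    rw [intervalIntegral.integral_sub (c1.intervalIntegrable _ _) (c0.intervalIntegrable _ _),
      intervalIntegral.integral_const_mul]
  rw [e, ← NA1_int K a (fun x => (K.Xl x ^ 1 / K.rl x - K.Xu x ^ 1 / K.ru x) -
        K.Xl a * (K.Xl x ^ 0 / K.rl x - K.Xu x ^ 0 / K.ru x))]
  unfold Dat.N
  refine intervalIntegral.integral_congr fun x _ => ?_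
  have h1 := (K.rl_pos (a + x)).ne'
  have h2 := (K.ru_pos (a + x)).ne'
  have h3 := (Real.exp_pos (-(K.p * a))).ne'
  simp only [NA1_rl, NA1_ru, NA1_Xl K cl, NA1_Xu K cl, pow_zero, pow_one]
  rw [mul_div_mul_left _ _ h3, mul_div_mul_left _ _ h3]
  ring

private theorem NA1_N2 (K : Dat) (cl : Continuous K.l) (cu : Continuous K.u) (a : ℝ) :
    (K.sh a).N 2 = Real.exp (-(K.p * a)) *
      (nn K 2 a - 2 * K.Xl a * nn K 1 a + K.Xl a ^ 2 * nn K 0 a) := by
  have e : (nn K 2 a - 2 * K.Xl a * nn K 1 a + K.Xl a ^ 2 * nn K 0 a) = ∫ x in a..K.w,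
      (((K.Xl x ^ 2 / K.rl x - K.Xu x ^ 2 / K.ru x) -
        2 * K.Xl a * (K.Xl x ^ 1 / K.rl x - K.Xu x ^ 1 / K.ru x)) +
        K.Xl a ^ 2 * (K.Xl x ^ 0 / K.rl x - K.Xu x ^ 0 / K.ru x)) := by
    have c2 := NA1_cont K cl cu 2
    have c1 : Continuous fun x => 2 * K.Xl a * (K.Xl x ^ 1 / K.rl x - K.Xu x ^ 1 / K.ru x) :=
      continuous_const.mul (NA1_cont K cl cu 1)
    have c0 : Continuous fun x => K.Xl a ^ 2 * (K.Xl x ^ 0 / K.rl x - K.Xu x ^ 0 / K.ru x) :=
      continuous_const.mul (NA1_cont K cl cu 0)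
    have c3 : Continuous fun x => (K.Xl x ^ 2 / K.rl x - K.Xu x ^ 2 / K.ru x) -
        2 * K.Xl a * (K.Xl x ^ 1 / K.rl x - K.Xu x ^ 1 / K.ru x) := c2.sub c1
    unfold nn
    rw [intervalIntegral.integral_add (c3.intervalIntegrable _ _) (c0.intervalIntegrable _ _),
      intervalIntegral.integral_sub (c2.intervalIntegrable _ _) (c1.intervalIntegrable _ _),
      intervalIntegral.integral_const_mul, intervalIntegral.integral_const_mul]
  rw [e, ← NA1_int K a (fun x => ((K.Xl x ^ 2 / K.rl x - K.Xu x ^ 2 / K.ru x) -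
        2 * K.Xl a * (K.Xl x ^ 1 / K.rl x - K.Xu x ^ 1 / K.ru x)) +
        K.Xl a ^ 2 * (K.Xl x ^ 0 / K.rl x - K.Xu x ^ 0 / K.ru x)),
    ← intervalIntegral.integral_const_mul]
  unfold Dat.N
  refine intervalIntegral.integral_congr fun x _ => ?_
  have h1 := (K.rl_pos (a + x)).ne'
  have h2 := (K.ru_pos (a + x)).ne'
  have h3 := (Real.exp_pos (-(K.p * a))).ne'
  simp only [NA1_rl, NA1_ru, NA1_Xl K cl, NA1_Xu K cl, pow_zero, pow_one, mul_pow]
  rw [pow_two (Real.exp (-(K.p * a))), mul_assoc, mul_assoc, mul_div_mul_left _ _ h3,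
    mul_div_mul_left _ _ h3]
  ring

private theorem NA1_Xi (K : Dat) (cl : Continuous K.l) (cu : Continuous K.u) (z a : ℝ) (hn : nn K 0 a ≠ 0) :
    (K.sh a).Xi (z - a) = nn K 1 a / nn K 0 a * (∫ t in a..z, 1 / K.rl t) - ∫ t in a..z, K.Xl t / K.rl t := by
  have h3 := (Real.exp_pos (K.p * a)).ne'
  have h4 := (Real.exp_pos (-(K.p * a))).ne'
  have hA : (K.sh a).a = Real.exp (-(K.p * a)) * (nn K 1 a / nn K 0 a - K.Xl a) := by
    change (K.sh a).N 1 / (K.sh a).N 0 = _
    rw [NA1_N0, NA1_N1 K cl cu, Real.exp_neg]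
    field_simp
  have c1 : Continuous fun t => 1 / K.rl t := continuous_const.div (K.rl_cont cl) fun x => (K.rl_pos x).ne'
  have c2 : Continuous fun t => K.Xl t / K.rl t := (K.Xl_cont cl).div (K.rl_cont cl) fun x => (K.rl_pos x).ne'
  have e1 : (K.sh a).Xi (z - a) = ∫ t in (0:ℝ)..(z - a), (fun y => (nn K 1 a / nn K 0 a - K.Xl y) / K.rl y) (a + t) := by
    unfold Dat.Xi
    refine intervalIntegral.integral_congr fun t _ => ?_
    simp only [NA1_rl, NA1_Xl K cl, hA]
    rw [← mul_sub, mul_div_mul_left _ _ h4]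
    congr 1
    ring
  rw [e1, intervalIntegral.integral_comp_add_left (fun y => (nn K 1 a / nn K 0 a - K.Xl y) / K.rl y) a, add_zero, show a + (z - a) = z by ring]
  have e2 : (∫ y in a..z, (nn K 1 a / nn K 0 a - K.Xl y) / K.rl y) =
      ∫ y in a..z, (nn K 1 a / nn K 0 a * (1 / K.rl y) - K.Xl y / K.rl y) := by
    refine intervalIntegral.integral_congr fun t _ => ?_
    change (nn K 1 a / nn K 0 a - K.Xl t) / K.rl t = nn K 1 a / nn K 0 a * (1 / K.rl t) - K.Xl t / K.rl t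
    ring
  have c3 : Continuous fun t => nn K 1 a / nn K 0 a * (1 / K.rl t) := continuous_const.mul c1
  rw [e2, intervalIntegral.integral_sub (c3.intervalIntegrable _ _) (c2.intervalIntegrable _ _),
    intervalIntegral.integral_const_mul]

private theorem NA1_scale (K : Dat) (h : K.Reg) (z a : ℝ) (hn : nn K 0 a ≠ 0) (hm : K.mr a ≠ 0) :
    Real.exp (K.p * a) * ((K.sh a).M * (K.sh a).j (z - a) 0) =
    (K.mr a * (z - a) - 2 * (∫ x in a..K.w, K.mr x) + K.mr a * ((nn K 1 a / nn K 0 a - K.Xl z) / K.rl z) +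
      K.p * ((nn K 2 a - nn K 1 a ^ 2 / nn K 0 a) / K.q + K.mr a * (nn K 1 a / nn K 0 a * (∫ t in a..z, 1 / K.rl t) -
        ∫ t in a..z, K.Xl t / K.rl t))) / K.q := by
  have hj : (K.sh a).j (z - a) 0 = ((z - a) - 2 * (K.sh a).xb / (K.sh a).M +
      ((K.sh a).N 1 / (K.sh a).N 0 - (K.sh a).Xl (z - a)) / (K.sh a).rl (z - a) -
      (K.p + K.q * 0) * (- ((K.sh a).N 2 - (K.sh a).N 1 / (K.sh a).N 0 * (K.sh a).N 1) / (K.q * (K.sh a).M) -
        (K.sh a).Xi (z - a))) / K.q := rfl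
  rw [hj, NA1_Xi K h.cl h.cu z a hn, NA1_xb K h.cl h.cu, NA1_M, NA1_N0, NA1_N1 K h.cl h.cu, NA1_N2 K h.cl h.cu,
    NA1_Xl K h.cl, NA1_rl, show a + (z - a) = z by ring, Real.exp_neg]
  have h3 := (Real.exp_pos (K.p * a)).ne'
  have hq := h.hq
  have hr := (K.rl_pos z).ne'
  generalize (∫ t in a..z, 1 / K.rl t) = I1
  generalize (∫ t in a..z, K.Xl t / K.rl t) = I2
  generalize (∫ x in a..K.w, K.mr x) = I3
  generalize nn K 0 a = n0 at hn
  generalize nn K 1 a = n1
  generalize nn K 2 a = n2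
  generalize K.mr a = m at hm
  generalize K.rl z = r at hr
  generalize Real.exp (K.p * a) = e at h3
  generalize K.q = q at hq
  field_simp
  ring

theorem near_move (K : Dat) (h : K.Reg) (z : ℝ) (hz : 0 < z) (hzw : z ≤ K.w) :
    HasDerivWithinAt (fun a => Real.exp (K.p * a) * ((K.sh a).M * (K.sh a).j (z - a) 0)) (K.Sd z) (Ici 0) 0 := by
  have hR := h
  have hN := Dat.N0_ne K hR
  have hq : K.q ≠ 0 := h.hq
  have cl : Continuous K.l := h.cl
  have cu : Continuous K.u := h.cu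
  have hM := K.M_pos h
  have hn0 : nn K 0 0 = K.N 0 := rfl
  have hn1 : nn K 1 0 = K.N 1 := rfl
  have c1 : Continuous fun t => 1 / K.rl t := continuous_const.div (K.rl_cont cl) fun x => (K.rl_pos x).ne'
  have c2 : Continuous fun t => K.Xl t / K.rl t := (K.Xl_cont cl).div (K.rl_cont cl) fun x => (K.rl_pos x).ne'
  have d0 := NA1_nn_deriv K cl cu 0 0
  have d1 := NA1_nn_deriv K cl cu 1 0
  have d2 := NA1_nn_deriv K cl cu 2 0
  have dm := K.mr_deriv cl cu 0
  have dI : HasDerivAt (fun a => ∫ x in a..K.w, K.mr x) (- K.mr 0) 0 :=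
    NA1_ft (K.mr_cont cl cu) K.w 0
  have dI1 : HasDerivAt (fun a => ∫ x in a..z, 1 / K.rl x) (- (1 / K.rl 0)) 0 := NA1_ft c1 z 0
  have dI2 : HasDerivAt (fun a => ∫ x in a..z, K.Xl x / K.rl x) (- (K.Xl 0 / K.rl 0)) 0 := NA1_ft c2 z 0
  have dz : HasDerivAt (fun a : ℝ => z - a) (-1) 0 := (hasDerivAt_id (0:ℝ)).const_sub z
  have dk := d1.div d0 (by rw [hn0]; exact hN)
  have hF := ((((dm.mul dz).sub (dI.const_mul (2:ℝ))).add (dm.mul ((dk.sub_const (K.Xl z)).div_const (K.rl z)))).add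
    ((((d2.sub ((d1.pow 2).div d0 (by rw [hn0]; exact hN))).div_const K.q).add
      (dm.mul ((dk.mul dI1).sub dI2))).const_mul K.p)).div_const K.q
  have hcont : ContinuousAt (nn K 0) 0 := d0.continuousAt
  have hev : ∀ᶠ a in 𝓝[Ici 0] (0:ℝ), nn K 0 a ≠ 0 :=
    nhdsWithin_le_nhds (hcont.eventually_ne (by rw [hn0]; exact hN))
  have hev2 : ∀ᶠ a in 𝓝[Ici 0] (0:ℝ), K.mr a ≠ 0 :=
    nhdsWithin_le_nhds ((K.mr_cont cl cu).continuousAt.eventually_ne (by rw [K.mr_zero]; exact hM.ne'))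
  have heq : (fun a => Real.exp (K.p * a) * ((K.sh a).M * (K.sh a).j (z - a) 0)) =ᶠ[𝓝[Ici 0] 0]
      fun a => (K.mr a * (z - a) - 2 * (∫ x in a..K.w, K.mr x) + K.mr a * ((nn K 1 a / nn K 0 a - K.Xl z) / K.rl z) +
      K.p * ((nn K 2 a - nn K 1 a ^ 2 / nn K 0 a) / K.q + K.mr a * (nn K 1 a / nn K 0 a * (∫ t in a..z, 1 / K.rl t) -
        ∫ t in a..z, K.Xl t / K.rl t))) / K.q := by
    filter_upwards [hev, hev2] with a h1 h2
    exact NA1_scale K h z a h1 h2
  have heq0 : Real.exp (K.p * 0) * ((K.sh 0).M * (K.sh 0).j (z - 0) 0) =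
      (K.mr 0 * (z - 0) - 2 * (∫ x in (0:ℝ)..K.w, K.mr x) + K.mr 0 * ((nn K 1 0 / nn K 0 0 - K.Xl z) / K.rl z) +
      K.p * ((nn K 2 0 - nn K 1 0 ^ 2 / nn K 0 0) / K.q + K.mr 0 * (nn K 1 0 / nn K 0 0 * (∫ t in (0:ℝ)..z, 1 / K.rl t) -
        ∫ t in (0:ℝ)..z, K.Xl t / K.rl t))) / K.q :=
    NA1_scale K h z 0 (by rw [hn0]; exact hN) (by rw [K.mr_zero]; exact hM.ne')
  have hF' := (hF.hasDerivWithinAt (s := Ici 0)).congr_of_eventuallyEq heq heq0
  refine hF'.congr_deriv ?_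
  have hXi : K.Xi z = K.N 1 / K.N 0 * (∫ t in (0:ℝ)..z, 1 / K.rl t) - ∫ t in (0:ℝ)..z, K.Xl t / K.rl t := by
    have e1 : K.Xi z = ∫ y in (0:ℝ)..z, (K.N 1 / K.N 0 * (1 / K.rl y) - K.Xl y / K.rl y) := by
      unfold Dat.Xi
      refine intervalIntegral.integral_congr fun t _ => ?_
      have : K.a = K.N 1 / K.N 0 := rfl
      simp only [this]
      ring
    have c3 : Continuous fun t => K.N 1 / K.N 0 * (1 / K.rl t) := continuous_const.mul c1
    rw [e1, intervalIntegral.integral_sub (c3.intervalIntegrable _ _) (c2.intervalIntegrable _ _),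
      intervalIntegral.integral_const_mul]
  have hSd : K.Sd z = (K.ru 0 - K.rl 0) / K.q * ((K.M / K.ru 0 - (1 / K.rl 0 - 1 / K.ru 0) / K.q * (K.N 1 / K.N 0)) -
      ((K.N 1 / K.N 0 - K.Xl z) / K.rl z - K.N 1 / K.N 0 / K.rl 0 + z + K.p * K.Xi z) / K.q) -
      (K.M / (K.N 0 / K.q) * (1 / K.rl z + K.p * ∫ t in (0:ℝ)..z, 1 / K.rl t) - K.rl 0 - K.p * (K.N 1 / K.N 0) -
        K.p * K.q * K.M) / K.q * (K.M / K.ru 0 - (1 / K.rl 0 - 1 / K.ru 0) / K.q * (K.N 1 / K.N 0)) := rfl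
  have hmu : K.mu 0 = (K.ru 0 - K.rl 0) / K.q := rfl
  have h1 := (K.rl_pos 0).ne'
  have h2 := (K.ru_pos 0).ne'
  have h3 := (K.rl_pos z).ne'
  have hM' := hM.ne'
  rw [hSd, hXi]
  simp only [K.Xl_zero, K.Xu_zero, K.mr_zero, hn0, hn1, hmu,
    pow_zero, pow_one, Pi.pow_apply, Pi.mul_apply, Pi.div_apply,
    Pi.sub_apply, Nat.cast_ofNat, show (2 - 1 : ℕ) = 1 from rfl]
  generalize (∫ t in (0:ℝ)..z, 1 / K.rl t) = I1
  generalize (∫ t in (0:ℝ)..z, K.Xl t / K.rl t) = I2
  generalize K.ru 0 = R at h2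
  generalize K.rl 0 = r at h1
  generalize K.rl z = r' at h3
  generalize K.Xl z = X
  generalize K.N 1 = n1
  generalize K.M = m at hM'
  generalize K.N 0 = n0 at hN
  generalize K.q = q at hq
  generalize K.p = p
  field_simp
  ring

end Pool.Agent.Lib.MP_1dedaf_gt.DK
end
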