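import Pool.Agent.Lib.MP_1dedaf_gt.Mg.G027
import Pool.Agent.Lib.MP_1dedaf_gt.DK.EP.SY4
import Pool.Agent.Lib.MP_1dedaf_gt.DK.OP.Glue

section

/-!
# Near arcs, the other view (campaign EP, files VW*): definitions

`OPU`: the inequality for opposite edges (proved in `EP/OPU.lean`). `SYM`: the kernel and the pivot of the other side of a body which does not contain the corner, computed in the two views (files SY*).
-/

set_option autoImplicit false

open MeasureTheory Set Filter Topology

namespace Pool.Agent.Lib.MP_1dedaf_gt.DK

/-- The inequality for opposite edges. -/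
def OPU : Prop := ∀ K : Dat, K.Cx → K.Phi K.w ≤ 0

/-- The two views of a body which does not contain the corner give the same kernel and the same pivots. -/
def SYM : Prop := ∀ B : Bd, B.Ok → 0 < B.g 0 → 0 < B.l 0 →
  B.col.j (B.g 0) 0 = B.row.j (B.l 0) 0 ∧ B.col.et (B.g 0) = B.row.a - B.row.Xl (B.l 0)

end Pool.Agent.Lib.MP_1dedaf_gt.DK
end

section

/-!
# The two views of a body which does not contain the corner
-/

set_option autoImplicit false

namespace Pool.Agent.Lib.MP_1dedaf_gt.DK

theorem sym : SYM := fun B h _ _ => ⟨j_symm_near B h, et_symm_near B h⟩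

end Pool.Agent.Lib.MP_1dedaf_gt.DK
end

section

/-!
# Opposite pairs for all convex column data
-/

set_option autoImplicit false

namespace Pool.Agent.Lib.MP_1dedaf_gt.DK

/-- **The response at the opposite vertex is not positive.** -/
theorem opu : OPU := fun K h => opp_gen K h.toReg h.vl h.vu

end Pool.Agent.Lib.MP_1dedaf_gt.DK
end
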