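import Pool.Agent.Lib.MP_1dedaf_gt.DK.EP.VW3
import Pool.Agent.Lib.MP_1dedaf_gt.Mg.G019
import Pool.Agent.Lib.MP_1dedaf_gt.Mg.G041

section

/-!
# DK EP VW4: THE PIVOT OF `t` IS ON THE RIGHT SIDE (`es_other`)

`C` from `es_unif`. Case `p + q kt ≠ 0`: `es_unif` with `p' = p` (`⟨K.p, K.q, K.w, K.l, K.u⟩ = K` by `rfl`): `0 < (kt - e.1) (- K.j z kt) ≤ K.qE z kt 0 / K.q * C`, so `0 < K.qE z kt 0 / K.q`.
Case `p + q kt = 0`: `K_j := ⟨p + 1/(j+1), q, w, l, u⟩`; `p_j + q kt = 1/(j+1) ≠ 0`, `|p_j - p| ≤ 1`; `K_j.j z kt → K.j z kt` (`dat_tendsto` of N3, constant sequences `l`, `u`) and `K_j.qE z kt 0 → K.qE z kt 0` (`VW4_qE`). For all large `j` the kernel is negative and `es_unif` gives `e_j ∈ T` with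
`e_j.1 < kt`. Let `m > 0` be the minimum of `kt - e.1` over the `e ∈ T` with `e.1 < kt`. Then `m (- K_j.j z kt) ≤ K_j.qE z kt 0 / q * C` for all large `j`; in the limit `0 < m (- K.j z kt) ≤ K.qE z kt 0 / q * C`.
-/

set_option autoImplicit false

open MeasureTheory Set Filter Topology

namespace Pool.Agent.Lib.MP_1dedaf_gt.DK

/-- The data with another tilt in the first coordinate. -/
private noncomputable def VW4_d (K : Dat) (p : ℝ) : Dat := ⟨p, K.q, K.w, K.l, K.u⟩

section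

variable (K : Dat) (cl : Continuous K.l) (cu : Continuous K.u)

include cl in
private theorem VW4_rl : Continuous (fun y : ℝ × ℝ => (VW4_d K y.1).rl y.2) := by
  show Continuous (fun y : ℝ × ℝ => Real.exp (y.1 * y.2 + K.q * K.l y.2))
  fun_prop

include cu in
private theorem VW4_ru : Continuous (fun y : ℝ × ℝ => (VW4_d K y.1).ru y.2) := by
  show Continuous (fun y : ℝ × ℝ => Real.exp (y.1 * y.2 + K.q * K.u y.2))
  fun_prop

include cl cu in
private theorem VW4_mu : Continuous (fun y : ℝ × ℝ => (VW4_d K y.1).mu y.2) :=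
  ((VW4_ru K cu).sub (VW4_rl K cl)).div_const K.q

include cl in
private theorem VW4_Xl : Continuous (fun y : ℝ × ℝ => (VW4_d K y.1).Xl y.2) :=
  intervalIntegral.continuous_parametric_primitive_of_continuous (a₀ := (0:ℝ)) (μ := volume)
    (f := fun (p : ℝ) (t : ℝ) => (VW4_d K p).rl t) (VW4_rl K cl)

include cl cu in
private theorem VW4_mr : Continuous (fun y : ℝ × ℝ => (VW4_d K y.1).mr y.2) := by
  have h : Continuous (fun y : ℝ × ℝ => ∫ t in K.w..y.2, (VW4_d K y.1).mu t) :=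
    intervalIntegral.continuous_parametric_primitive_of_continuous (a₀ := K.w) (μ := volume)
      (f := fun (p : ℝ) (t : ℝ) => (VW4_d K p).mu t) (VW4_mu K cl cu)
  refine h.neg.congr fun y => ?_
  show -(∫ t in K.w..y.2, (VW4_d K y.1).mu t) = ∫ t in y.2..K.w, (VW4_d K y.1).mu t
  rw [← intervalIntegral.integral_symm]

include cl cu in
private theorem VW4_Xu : Continuous (fun y : ℝ × ℝ => (VW4_d K y.1).Xu y.2) :=
  (VW4_Xl K cl).sub (continuous_const.mul (VW4_mr K cl cu))

include cl cu in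
private theorem VW4_M : Continuous (fun p : ℝ => (VW4_d K p).M) :=
  intervalIntegral.continuous_parametric_intervalIntegral_of_continuous' (μ := volume)
    (f := fun (p : ℝ) (t : ℝ) => (VW4_d K p).mu t) (VW4_mu K cl cu) 0 K.w

include cl cu in
private theorem VW4_N (i : ℕ) : Continuous (fun p : ℝ => (VW4_d K p).N i) := by
  refine intervalIntegral.continuous_parametric_intervalIntegral_of_continuous' (μ := volume)
    (f := fun (p : ℝ) (x : ℝ) => (VW4_d K p).Xl x ^ i / (VW4_d K p).rl x -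
      (VW4_d K p).Xu x ^ i / (VW4_d K p).ru x) ?_ 0 K.w
  exact (((VW4_Xl K cl).pow i).div (VW4_rl K cl) fun y => (Dat.rl_pos _ _).ne').sub
    (((VW4_Xu K cl cu).pow i).div (VW4_ru K cu) fun y => (Dat.ru_pos _ _).ne')

include cl in
private theorem VW4_Ri (z : ℝ) : Continuous (fun p : ℝ => (VW4_d K p).Ri z) := by
  refine intervalIntegral.continuous_parametric_intervalIntegral_of_continuous' (μ := volume)
    (f := fun (p : ℝ) (x : ℝ) => 1 / (VW4_d K p).rl x) ?_ 0 z
  exact continuous_const.div (VW4_rl K cl) fun y => (Dat.rl_pos _ _).ne'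

include cl in
private theorem VW4_rl1 (x : ℝ) : Continuous (fun p : ℝ => (VW4_d K p).rl x) :=
  (VW4_rl K cl).comp (Continuous.prodMk continuous_id continuous_const)

include cl in
private theorem VW4_Xl1 (x : ℝ) : Continuous (fun p : ℝ => (VW4_d K p).Xl x) :=
  (VW4_Xl K cl).comp (Continuous.prodMk continuous_id continuous_const)

end

/-- The pivot of `t` is continuous in the tilt. -/
theorem VW4_qE (K : Dat) (hK : K.Reg) (z k : ℝ) :
    ContinuousAt (fun p : ℝ => (⟨p, K.q, K.w, K.l, K.u⟩ : Dat).qE z k 0) K.p := by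
  have cl := hK.cl
  have cu := hK.cu
  have hN : (VW4_d K K.p).N 0 ≠ 0 := Dat.N0_ne K hK
  have hD : (VW4_d K K.p).D ≠ 0 := (Dat.D_pos K hK).ne'
  have cN : ∀ i, ContinuousAt (fun p : ℝ => (VW4_d K p).N i) K.p := fun i => (VW4_N K cl cu i).continuousAt
  have cM : ContinuousAt (fun p : ℝ => (VW4_d K p).M) K.p := (VW4_M K cl cu).continuousAt
  have ca : ContinuousAt (fun p : ℝ => (VW4_d K p).a) K.p := (cN 1).div (cN 0) hN
  have cD : ContinuousAt (fun p : ℝ => (VW4_d K p).D) K.p := (cN 0).div_const K.q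
  have crl : ∀ x, ContinuousAt (fun p : ℝ => (VW4_d K p).rl x) K.p := fun x => (VW4_rl1 K cl x).continuousAt
  have cXl : ∀ x, ContinuousAt (fun p : ℝ => (VW4_d K p).Xl x) K.p := fun x => (VW4_Xl1 K cl x).continuousAt
  have cRi : ContinuousAt (fun p : ℝ => (VW4_d K p).Ri z) K.p := (VW4_Ri K cl z).continuousAt
  have cs : ContinuousAt (fun p : ℝ => p + K.q * k) K.p := by fun_prop
  have cLam : ContinuousAt (fun p : ℝ => (VW4_d K p).Lam z k) K.p :=
    cM.mul ((continuousAt_const.div (cD.mul (crl z)) (mul_ne_zero hD (Dat.rl_pos _ _).ne')).add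
      (cs.mul ((cRi.div cD hD).sub continuousAt_const)))
  have cal : ContinuousAt (fun p : ℝ => (VW4_d K p).al k 0) K.p :=
    (crl 0).add (cs.mul (ca.sub (cXl 0)))
  exact cLam.sub cal

theorem es_other (k : ℕ) (hP : PosK k) (hO : OPU) (hS : SYM) (K : Dat) (h : K.Cx) (T : Finset (ℝ × ℝ)) (z kt : ℝ) (hT : T.card ≤ k + 1)
    (hA : K.Arc T z kt) (hj : K.j z kt < 0) : 0 < K.qE z kt 0 / K.q := by
  obtain ⟨C, hC, hE⟩ := es_unif k hP hO hS K h T z kt hT hA
  by_cases hpq : K.p + K.q * kt = 0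
  · -- perturbation of the tilt
    set ps : ℕ → ℝ := fun j => K.p + 1 / ((j : ℝ) + 1) with hps
    have h1 : Tendsto ps atTop (𝓝 K.p) := by
      have := tendsto_one_div_add_atTop_nhds_zero_nat (𝕜 := ℝ)
      have h2 := (tendsto_const_nhds (x := K.p)).add this
      rwa [add_zero] at h2
    have hps1 : ∀ j, |ps j - K.p| ≤ 1 := by
      intro j
      have h3 : ps j - K.p = 1 / ((j : ℝ) + 1) := by simp [hps]
      have h4 : (0:ℝ) < (j : ℝ) + 1 := by positivity
      rw [h3, abs_of_pos (by positivity), div_le_one h4]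
      have : (0:ℝ) ≤ j := Nat.cast_nonneg j
      linarith
    have hps2 : ∀ j, ps j + K.q * kt ≠ 0 := by
      intro j
      have h3 : ps j + K.q * kt = 1 / ((j : ℝ) + 1) := by
        simp only [hps]
        linarith
      have h4 : (0:ℝ) < (j : ℝ) + 1 := by positivity
      rw [h3]
      positivity
    have tj : Tendsto (fun j => (⟨ps j, K.q, K.w, K.l, K.u⟩ : Dat).j z kt) atTop (𝓝 (K.j z kt)) :=
      dat_tendsto (fun j => ⟨ps j, K.q, K.w, K.l, K.u⟩) K h.toReg (fun j => ⟨h.cl, h.cu⟩) h1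
        tendsto_const_nhds tendsto_const_nhds
        (fun xs x φ _ hx => (h.cl.tendsto x).comp hx) (fun xs x φ _ hx => (h.cu.tendsto x).comp hx)
        (fun _ => z) z tendsto_const_nhds kt
    have tE : Tendsto (fun j => (⟨ps j, K.q, K.w, K.l, K.u⟩ : Dat).qE z kt 0) atTop (𝓝 (K.qE z kt 0)) :=
      (VW4_qE K h.toReg z kt).tendsto.comp h1
    have hneg : ∀ᶠ j in atTop, (⟨ps j, K.q, K.w, K.l, K.u⟩ : Dat).j z kt < 0 :=
      tj.eventually_lt_const hj
    set T' : Finset (ℝ × ℝ) := T.filter (fun e => e.1 < kt) with hT'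
    have hne : T'.Nonempty := by
      obtain ⟨j, hj0⟩ := hneg.exists
      obtain ⟨e, he, hlt, _⟩ := hE (ps j) (hps1 j) (hps2 j) hj0
      exact ⟨e, by rw [hT', Finset.mem_filter]; exact ⟨he, hlt⟩⟩
    obtain ⟨e0, he0, hmin⟩ := T'.exists_min_image (fun e => kt - e.1) hne
    have hm : 0 < kt - e0.1 := by
      rw [hT', Finset.mem_filter] at he0
      linarith [he0.2]
    have hle : ∀ᶠ j in atTop, (kt - e0.1) * (- (⟨ps j, K.q, K.w, K.l, K.u⟩ : Dat).j z kt) ≤
        (⟨ps j, K.q, K.w, K.l, K.u⟩ : Dat).qE z kt 0 / K.q * C := by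
      filter_upwards [hneg] with j hj0
      obtain ⟨e, he, hlt, h5⟩ := hE (ps j) (hps1 j) (hps2 j) hj0
      have h6 : kt - e0.1 ≤ kt - e.1 := hmin e (by rw [hT', Finset.mem_filter]; exact ⟨he, hlt⟩)
      have h7 : (kt - e0.1) * (- (⟨ps j, K.q, K.w, K.l, K.u⟩ : Dat).j z kt) ≤
          (kt - e.1) * (- (⟨ps j, K.q, K.w, K.l, K.u⟩ : Dat).j z kt) :=
        mul_le_mul_of_nonneg_right h6 (by linarith)
      exact h7.trans h5
    have hfin : (kt - e0.1) * (- K.j z kt) ≤ K.qE z kt 0 / K.q * C :=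
      le_of_tendsto_of_tendsto (tendsto_const_nhds.mul tj.neg) ((tE.div_const K.q).mul_const C) hle
    have hpos : 0 < (kt - e0.1) * (- K.j z kt) := mul_pos hm (by linarith)
    have h8 : 0 < K.qE z kt 0 / K.q * C := hpos.trans_le hfin
    exact pos_of_mul_pos_left h8 hC.le
  · obtain ⟨e, _, hlt, h5⟩ := hE K.p (by simp) hpq hj
    have hpos : 0 < (kt - e.1) * (- K.j z kt) := mul_pos (by linarith) (by linarith)
    have h8 : 0 < K.qE z kt 0 / K.q * C := hpos.trans_le h5
    exact pos_of_mul_pos_left h8 hC.le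

end Pool.Agent.Lib.MP_1dedaf_gt.DK
end

section

/-!
# The pivot of `t` in the other view is on the right side: final form
-/

set_option autoImplicit false

namespace Pool.Agent.Lib.MP_1dedaf_gt.DK

theorem es_oth (k : ℕ) (hP : PosK k) (K : Dat) (h : K.Cx) (T : Finset (ℝ × ℝ)) (z kt : ℝ) (hT : T.card ≤ k + 1)
    (hA : K.Arc T z kt) (hj : K.j z kt < 0) : 0 < K.qE z kt 0 / K.q :=
  es_other k hP opu sym K h T z kt hT hA hj

end Pool.Agent.Lib.MP_1dedaf_gt.DK
end
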