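import Pool.Agent.Lib.MP_1dedaf_gt.Mg.G052
import Pool.Agent.Lib.MP_1dedaf_gt.Mg.G051
import Pool.Agent.Lib.MP_1dedaf_gt.Mg.G002
import Pool.Agent.Lib.MP_1dedaf_gt.LB.E1a
import Pool.Agent.Lib.MP_1dedaf_gt.Mg.G053
import Pool.Agent.Lib.MP_1dedaf_gt.Mg.G046
import Pool.Agent.Lib.MP_1dedaf_gt.LB.E6b
import Pool.Agent.Lib.MP_1dedaf_gt.LB.E7

section

/-!
# TASK LB E8: symmetry and linearity of the mixed area, Minkowski inequality

(`MV_symm`) `A + B = B + A`. (`MV_lin`) `MV_eq` and `hs (s N1 + r N2) = s hs N1 + r hs N2`; the integrands are bounded measurable (`nu_meas`, `hs_cont`, `hs ≥ c > 0` on the circle) hence integrable.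
(`MV_ge`) `pl2` (Prekopa-Leindler) for the indicators of `s A` and `B`: `ar (s A) ar B ≤ (ar ((1/2)(s A + B)))² = (ar (s A + B)/4)²`. With `s = √(ar B / ar A)`: `s² ar A = ar B`, `ar (s A + B) = 2 ar B + 2 s MV A B` (`ar_comb`, `r = 1`)
and `≥ 4 s √(ar A ar B) = 4 ar B`. So `s MV A B ≥ ar B`, i.e. `MV A B ≥ √(ar A ar B)`.
(`int_nu`) bounded measurable function on a set of finite measure.
-/

set_option autoImplicit false

open MeasureTheory Set Filter Topology

namespace Pool.Agent.Lib.MP_1dedaf_gt.LB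

open scoped Pointwise

theorem MV_symm (A B : Set E2) : MV A B = MV B A := by
  unfold MV
  rw [add_comm A B]
  ring

theorem int_nu {B : Set E2} (hB : Body B) {ψ : E2 → ℝ} (hψ : ContinuousOn ψ (Metric.sphere 0 1)) :
    IntegrableOn (fun x => ψ (nu B x)) B := by
  obtain ⟨ψ', hc, he⟩ := exists_ext hψ
  have h1 : IntegrableOn (fun x => ψ' (nu B x)) B := by
    obtain ⟨M, hM⟩ := (isCompact_closedBall (0 : E2) 1).exists_bound_of_continuousOn
      hc.continuousOn
    refine MeasureTheory.Measure.integrableOn_of_bounded (M := M) hB.comp.measure_lt_top.ne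
      (hc.measurable.comp (nu_meas B)).aestronglyMeasurable ?_
    refine Filter.Eventually.of_forall fun x => hM _ ?_
    rw [mem_closedBall_zero_iff]
    exact nu_norm_le B x
  refine h1.congr ?_
  filter_upwards [ae_restrict_of_ae (good_ae hB)] with x hx
  exact he _ (nu_norm hB hx)

private theorem E8_cont {A B : Set E2} (hA : Body A) (hB : Body B) :
    ContinuousOn (fun u => hs B u / hs A u) (Metric.sphere 0 1) := by
  refine (hs_cont hB).continuousOn.div (hs_cont hA).continuousOn ?_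
  intro u hu
  have h1 : ‖u‖ = 1 := by simpa using hu
  refine (hs_pos hA ?_).ne'
  rintro rfl
  simp at h1

theorem MV_lin {A N1 N2 : Set E2} (hA : Body A) (h1 : Body N1) (h2 : Body N2) {s r : ℝ} (hs0 : 0 < s) (hr0 : 0 < r) :
    MV A (s • N1 + r • N2) = s * MV A N1 + r * MV A N2 := by
  have hb1 := smul_body h1 hs0
  have hb2 := smul_body h2 hr0
  have hb := add_body hb1.1 hb2.1
  rw [MV_eq hA hb.1, MV_eq hA h1, MV_eq hA h2]
  have e : ∀ x, hs (s • N1 + r • N2) (nu A x) / hs A (nu A x)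
      = s * (hs N1 (nu A x) / hs A (nu A x)) + r * (hs N2 (nu A x) / hs A (nu A x)) := by
    intro x
    rw [hb.2, hb1.2, hb2.2]
    ring
  simp_rw [e]
  have i1 : IntegrableOn (fun x => hs N1 (nu A x) / hs A (nu A x)) A := int_nu hA (E8_cont hA h1)
  have i2 : IntegrableOn (fun x => hs N2 (nu A x) / hs A (nu A x)) A := int_nu hA (E8_cont hA h2)
  rw [integral_add (i1.const_mul s) (i2.const_mul r), integral_const_mul, integral_const_mul]

theorem MV_ge {A B : Set E2} (hA : Body A) (hB : Body B) : Real.sqrt (ar A * ar B) ≤ MV A B := by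
  have ha := ar_pos hA
  have hb := ar_pos hB
  set s : ℝ := Real.sqrt (ar B / ar A) with hs
  have hs0 : 0 < s := Real.sqrt_pos.2 (div_pos hb ha)
  have hs2 : s ^ 2 * ar A = ar B := by
    rw [hs, Real.sq_sqrt (div_pos hb ha).le, div_mul_cancel₀ _ ha.ne']
  have hsA := smul_body hA hs0
  have hsum := add_body hsA.1 hB
  have hhalf := smul_body hsum.1 (show (0 : ℝ) < 1 / 2 by norm_num)
  have hpl := pl2 ((s • A).indicator 1) (B.indicator 1) (((1 / 2 : ℝ) • (s • A + B)).indicator 1)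
    (measurable_one.indicator hsA.1.comp.measurableSet)
    (measurable_one.indicator hB.comp.measurableSet)
    (measurable_one.indicator hhalf.1.comp.measurableSet) (by
      intro x y
      by_cases hx : x ∈ s • A
      · by_cases hy : y ∈ B
        · have hxy : (1 / 2 : ℝ) • (x + y) ∈ (1 / 2 : ℝ) • (s • A + B) :=
            Set.smul_mem_smul_set (Set.add_mem_add hx hy)
          rw [Set.indicator_of_mem hx, Set.indicator_of_mem hy, Set.indicator_of_mem hxy]
          simp
        · rw [Set.indicator_of_notMem hy]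
          simp
      · rw [Set.indicator_of_notMem hx]
        simp)
  rw [lintegral_indicator_one hsA.1.comp.measurableSet, lintegral_indicator_one hB.comp.measurableSet,
    lintegral_indicator_one hhalf.1.comp.measurableSet] at hpl
  have hfin : (volume ((1 / 2 : ℝ) • (s • A + B)) : ENNReal) ^ 2 ≠ ⊤ :=
    ENNReal.pow_ne_top hhalf.1.comp.measure_lt_top.ne
  have h2 := ENNReal.toReal_mono hfin hpl
  rw [ENNReal.toReal_mul, ENNReal.toReal_pow] at h2
  change ar (s • A) * ar B ≤ (ar ((1 / 2 : ℝ) • (s • A + B))) ^ 2 at h2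
  rw [ar_smul hs0.le, hs2, ar_smul (show (0 : ℝ) ≤ 1 / 2 by norm_num)] at h2
  have hc := ar_comb hA hB hs0 one_pos
  rw [one_smul, hs2] at hc
  have h3 : ar B ≤ (1 / 2) ^ 2 * ar (s • A + B) := by
    have hp : 0 ≤ (1 / 2 : ℝ) ^ 2 * ar (s • A + B) :=
      mul_nonneg (by norm_num) (ar_pos hsum.1).le
    nlinarith [hp, hb, h2]
  have h4 : ar B ≤ s * MV A B := by
    rw [hc] at h3
    nlinarith
  have h5 : s * Real.sqrt (ar A * ar B) = ar B := by
    rw [hs, ← Real.sqrt_mul (div_pos hb ha).le]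
    have : ar B / ar A * (ar A * ar B) = ar B ^ 2 := by
      field_simp
    rw [this, Real.sqrt_sq hb.le]
  rw [← h5] at h4
  exact le_of_mul_le_mul_left h4 hs0

end Pool.Agent.Lib.MP_1dedaf_gt.LB
end

section

/-!
# TASK LB E10a: mixed areas in the equality case

Notation: `L = LC t K C`, `f = h_K^(1-t) h_C^t`, `y = yy K C = log (h_C/h_K)` (continuous on the circle), `a0 = ar K = ar C = ar L`. On the circle `h_C/h_K = exp y`, `f/h_K = exp (t y)`, `f / h_C = exp (-(1-t) y)`.
(`MV_KC`) `MV K C = ∫_K h_C/h_K (nu K) = a0 EE K (exp y)` and `MV K C = MV C K = ∫_C h_K/h_C (nu C) = a0 EE C (exp (-y)) = a0 EE K (exp (-y))` (`lawC`); the mean is `a0 EE K (cosh y)`.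
(`MV_LK`) `MV L K = ∫_L h_K/h_L (nu L) = ∫_L h_K/f (nu L) = a0 EE L (exp (-t y)) = a0 EE K (exp (-t y))` (`contact`, `lawL`), and `MV L K = MV K L = ∫_K h_L/h_K (nu K) ≤ ∫_K f/h_K (nu K) = a0 EE K (exp (t y))`
(`hs_Wu_le`); the mean. (`MV_LC`) the same: `MV L C = a0 EE K (exp ((1-t) y))` and `MV C L ≤ ∫_C f/h_C (nu C) = a0 EE K (exp (-(1-t) y))`.
-/

set_option autoImplicit false

open MeasureTheory Set Filter Topology

namespace Pool.Agent.Lib.MP_1dedaf_gt.LB

private theorem E10a_MV {A B : Set E2} (hA : Body A) (hB : Body B) :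
    MV A B = ar A * EE A (fun u => hs B u / hs A u) := by
  rw [MV_eq hA hB]
  unfold EE
  rw [mul_div_cancel₀ _ (ar_pos hA).ne']

private theorem E10a_hs {K : Set E2} (hK : Body K) {u : E2} (hu : ‖u‖ = 1) : 0 < hs K u := by
  refine hs_pos hK ?_
  rintro rfl
  simp at hu

private theorem E10a_yy {K C : Set E2} (hK : Body K) (hC : Body C) :
    ContinuousOn (yy K C) (Metric.sphere 0 1) := by
  unfold yy
  refine ContinuousOn.log ((hs_cont hC).continuousOn.div (hs_cont hK).continuousOn ?_) ?_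
  · intro u hu
    exact (E10a_hs hK (mem_sphere_zero_iff_norm.1 hu)).ne'
  · intro u hu
    exact (div_pos (E10a_hs hC (mem_sphere_zero_iff_norm.1 hu))
      (E10a_hs hK (mem_sphere_zero_iff_norm.1 hu))).ne'

private theorem E10a_exp {g : E2 → ℝ} (hg : ContinuousOn g (Metric.sphere 0 1)) :
    ContinuousOn (fun u => Real.exp (g u)) (Metric.sphere 0 1) :=
  Real.continuous_exp.comp_continuousOn hg

private theorem E10a_expn {g : E2 → ℝ} (hg : ContinuousOn g (Metric.sphere 0 1)) :
    ContinuousOn (fun u => Real.exp (- g u)) (Metric.sphere 0 1) :=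
  Real.continuous_exp.comp_continuousOn hg.neg

private theorem E10a_Wu (t : ℝ) {K C : Set E2} (hK : Body K) (hC : Body C) :
    ContinuousOn (fun u => hs K u ^ (1 - t) * hs C u ^ t) (Metric.sphere (0 : E2) 1) ∧
    ∀ u : E2, ‖u‖ = 1 → 0 < hs K u ^ (1 - t) * hs C u ^ t := by
  constructor
  · refine ContinuousOn.mul ?_ ?_
    · refine (hs_cont hK).continuousOn.rpow_const fun u hu => Or.inl ?_
      exact (E10a_hs hK (mem_sphere_zero_iff_norm.1 hu)).ne'
    · refine (hs_cont hC).continuousOn.rpow_const fun u hu => Or.inl ?_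
      exact (E10a_hs hC (mem_sphere_zero_iff_norm.1 hu)).ne'
  · intro u hu
    exact mul_pos (Real.rpow_pos_of_pos (E10a_hs hK hu) _) (Real.rpow_pos_of_pos (E10a_hs hC hu) _)

private theorem E10a_cosh {K : Set E2} (hK : Body K) {g : E2 → ℝ}
    (hg : ContinuousOn g (Metric.sphere 0 1)) :
    EE K (fun u => Real.cosh (g u)) =
      (EE K (fun u => Real.exp (g u)) + EE K (fun u => Real.exp (- g u))) / 2 := by
  have h1 := int_nu hK (E10a_exp hg)
  have h2 := int_nu hK (E10a_expn hg)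
  have h3 : (∫ x in K, Real.cosh (g (nu K x))) =
      ((∫ x in K, Real.exp (g (nu K x))) + ∫ x in K, Real.exp (- g (nu K x))) / 2 := by
    rw [← integral_add h1 h2, ← integral_div]
    refine integral_congr_ae (ae_of_all _ fun x => ?_)
    simp only [Real.cosh_eq]
  unfold EE
  rw [h3]
  ring

private theorem E10a_mono {K : Set E2} (hK : Body K) {φ ψ : E2 → ℝ}
    (hφ : ContinuousOn φ (Metric.sphere 0 1)) (hψ : ContinuousOn ψ (Metric.sphere 0 1))
    (h : ∀ u : E2, ‖u‖ = 1 → φ u ≤ ψ u) : EE K φ ≤ EE K ψ := by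
  unfold EE
  refine div_le_div_of_nonneg_right ?_ (ar_pos hK).le
  refine integral_mono_ae (int_nu hK hφ) (int_nu hK hψ) ?_
  have h1 : ∀ᵐ x ∂(volume.restrict K), Good K x := ae_restrict_of_ae (good_ae hK)
  filter_upwards [h1] with x hx
  exact h _ (nu_norm hK hx)

private theorem E10a_gen {K Q : Set E2} {f g : E2 → ℝ} (hK : Body K) (hQ : Body Q)
    (hf : ContinuousOn f (Metric.sphere 0 1)) (hp : ∀ u : E2, ‖u‖ = 1 → 0 < f u)
    (hg : ContinuousOn g (Metric.sphere 0 1))
    (hfg : ∀ u : E2, ‖u‖ = 1 → f u = hs Q u * Real.exp (g u))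
    (arQ : ar Q = ar K) (arL : ar (Wu f) = ar K)
    (lawQ : ∀ ψ : E2 → ℝ, ContinuousOn ψ (Metric.sphere 0 1) → EE Q ψ = EE K ψ)
    (lawL : ∀ ψ : E2 → ℝ, ContinuousOn ψ (Metric.sphere 0 1) → EE (Wu f) ψ = EE K ψ) :
    MV (Wu f) Q ≤ ar K * EE K (fun u => Real.cosh (g u)) := by
  have hL : Body (Wu f) := Wu_body hf hp
  have e1 : MV (Wu f) Q = ar K * EE K (fun u => Real.exp (- g u)) := by
    rw [E10a_MV hL hQ, arL, ← lawL _ (E10a_expn hg)]
    congr 1
    unfold EE
    congr 1
    refine integral_congr_ae ?_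
    have h1 : ∀ᵐ x ∂(volume.restrict (Wu f)), Good (Wu f) x := ae_restrict_of_ae (good_ae hL)
    filter_upwards [h1] with x hx
    have hn := nu_norm hL hx
    have hc := contact hf hp hx
    have hh := E10a_hs hQ hn
    have he := Real.exp_pos (g (nu (Wu f) x))
    rw [← hc, hfg _ hn]
    rw [Real.exp_neg]
    field_simp
  have e2 : MV Q (Wu f) ≤ ar K * EE K (fun u => Real.exp (g u)) := by
    rw [E10a_MV hQ hL, arQ, ← lawQ _ (E10a_exp hg)]
    refine mul_le_mul_of_nonneg_left ?_ (ar_pos hK).le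
    refine E10a_mono hQ ?_ (E10a_exp hg) ?_
    · refine (hs_cont hL).continuousOn.div (hs_cont hQ).continuousOn ?_
      intro u hu
      exact (E10a_hs hQ (mem_sphere_zero_iff_norm.1 hu)).ne'
    · intro u hu
      have hh := E10a_hs hQ hu
      rw [div_le_iff₀ hh, mul_comm]
      rw [← hfg u hu]
      exact hs_Wu_le hf hp hu
  rw [MV_symm] at e2
  rw [E10a_cosh hK hg]
  have e1' := e1.le
  nlinarith

private theorem E10a_fK (t : ℝ) {K C : Set E2} (hK : Body K) (hC : Body C) {u : E2}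
    (hu : ‖u‖ = 1) :
    hs K u ^ (1 - t) * hs C u ^ t = hs K u * Real.exp (t * yy K C u) := by
  have h1 := E10a_hs hK hu
  have h2 := E10a_hs hC hu
  unfold yy
  rw [Real.log_div h2.ne' h1.ne', Real.rpow_def_of_pos h1, Real.rpow_def_of_pos h2,
    ← Real.exp_add]
  have h3 : hs K u * Real.exp (t * (Real.log (hs C u) - Real.log (hs K u))) =
      Real.exp (Real.log (hs K u) + t * (Real.log (hs C u) - Real.log (hs K u))) := by
    rw [Real.exp_add, Real.exp_log h1]
  rw [h3]
  congr 1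
  ring

private theorem E10a_fC (t : ℝ) {K C : Set E2} (hK : Body K) (hC : Body C) {u : E2}
    (hu : ‖u‖ = 1) :
    hs K u ^ (1 - t) * hs C u ^ t = hs C u * Real.exp (-((1 - t) * yy K C u)) := by
  have h1 := E10a_hs hK hu
  have h2 := E10a_hs hC hu
  have h3 : hs C u = hs K u * Real.exp (yy K C u) := by
    unfold yy
    rw [Real.exp_log (div_pos h2 h1)]
    field_simp
  rw [E10a_fK t hK hC hu]
  have h4 : hs C u * Real.exp (-((1 - t) * yy K C u)) =
      hs K u * Real.exp (yy K C u) * Real.exp (-((1 - t) * yy K C u)) := by rw [← h3]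
  rw [h4, mul_assoc, ← Real.exp_add]
  congr 2
  ring

theorem MV_KC {t : ℝ} (ht0 : 0 < t) (ht1 : t < 1) {K C : Set E2} (h : EqCase t K C) :
    MV K C = ar K * EE K (fun u => Real.cosh (yy K C u)) ∧ MV K C = ar K * EE K (fun u => Real.exp (yy K C u)) := by
  have hK := h.bK
  have hC := h.bC
  have hy := E10a_yy hK hC
  have e1 : MV K C = ar K * EE K (fun u => Real.exp (yy K C u)) := by
    rw [E10a_MV hK hC]
    congr 1
    refine EE_congr hK fun u hu => ?_
    unfold yy
    rw [Real.exp_log (div_pos (E10a_hs hC hu) (E10a_hs hK hu))]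
  have e2 : MV C K = ar K * EE K (fun u => Real.exp (- yy K C u)) := by
    rw [E10a_MV hC hK, h.arC, ← h.lawC _ (E10a_expn hy)]
    congr 1
    refine EE_congr hC fun u hu => ?_
    unfold yy
    rw [Real.exp_neg, Real.exp_log (div_pos (E10a_hs hC hu) (E10a_hs hK hu)), inv_div]
  refine ⟨?_, e1⟩
  rw [MV_symm] at e2
  rw [E10a_cosh hK hy]
  linarith

theorem MV_LK {t : ℝ} (ht0 : 0 < t) (ht1 : t < 1) {K C : Set E2} (h : EqCase t K C) :
    MV (LC t K C) K ≤ ar K * EE K (fun u => Real.cosh (t * yy K C u)) := by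
  have hK := h.bK
  have hC := h.bC
  obtain ⟨hf, hp⟩ := E10a_Wu t hK hC
  exact E10a_gen (f := fun u => hs K u ^ (1 - t) * hs C u ^ t) (g := fun u => t * yy K C u) hK hK
    hf hp (continuousOn_const.mul (E10a_yy hK hC)) (fun u hu => E10a_fK t hK hC hu) rfl h.arL
    (fun ψ _ => rfl) h.lawL

theorem MV_LC {t : ℝ} (ht0 : 0 < t) (ht1 : t < 1) {K C : Set E2} (h : EqCase t K C) :
    MV (LC t K C) C ≤ ar K * EE K (fun u => Real.cosh ((1 - t) * yy K C u)) := by
  have hK := h.bK
  have hC := h.bC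
  obtain ⟨hf, hp⟩ := E10a_Wu t hK hC
  have e := E10a_gen (f := fun u => hs K u ^ (1 - t) * hs C u ^ t)
    (g := fun u => -((1 - t) * yy K C u)) hK hC
    hf hp (continuousOn_const.mul (E10a_yy hK hC)).neg (fun u hu => E10a_fC t hK hC hu) h.arC h.arL
    h.lawC h.lawL
  simp only [Real.cosh_neg] at e
  exact e

end Pool.Agent.Lib.MP_1dedaf_gt.LB
end
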