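import Pool.Agent.Lib.MP_1dedaf_gt.Mg.G052
import Pool.Agent.Lib.MP_1dedaf_gt.Mg.G051
import Pool.Agent.Lib.MP_1dedaf_gt.LB.E1a
import Pool.Agent.Lib.MP_1dedaf_gt.Mg.G053
import Pool.Agent.Lib.MP_1dedaf_gt.Mg.G046
import Pool.Agent.Lib.MP_1dedaf_gt.LB.E6b
import Pool.Agent.Lib.MP_1dedaf_gt.Mg.G055
import Pool.Agent.Lib.MP_1dedaf_gt.LB.E7
import Pool.Agent.Lib.MP_1dedaf_gt.LB.E13b

section

/-!
# TASK LB E10b: the support functions are proportional with factors exp (±γ)

Proof. `y = yy K C`, `g = EE K (cosh y) ≥ 1`; take `γ ≥ 0` with `cosh γ = g`. If `γ = 0`: `∫_K (cosh y(nu) - 1) = 0` with a nonnegative integrand, so `cosh y(nu) = 1`, `y(nu) = 0` a.e. on `K`. Let `γ > 0`, `L = LC t K C`,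
`a = sinh ((1-t)γ)`, `c = sinh (tγ)`, `N = a • K + c • C`, `a0 = ar K`. `ar N = a0 (a² + c² + 2 a c cosh γ) = a0 sinh² γ` (`ar_comb`, `MV_KC`; with `α = (1-t)γ`, `β = tγ`: `sinh²α + sinh²β + 2 sinh α sinh β cosh (α+β) = sinh² (α+β)`), so
`MV L N ≥ √(ar L ar N) = a0 sinh γ` (`MV_ge`). By `MV_lin`, `MV_LK`, `MV_LC`: `sinh γ ≤ a EE K (cosh (t y)) + c EE K (cosh ((1-t) y))`. By `cosh_ineq` and `EE K (cosh y) = cosh γ`: `EE K (cosh (t y)) ≤ cosh (tγ)` and
`EE K (cosh ((1-t) y)) ≤ cosh ((1-t)γ)`, `a cosh (tγ) + c cosh ((1-t)γ) = sinh γ`. So `EE K (cosh (t y)) = cosh (tγ)` (`a, c > 0`), i.e. the nonnegative function `cosh (tγ) + t (sinh (tγ)/sinh γ)(cosh y - cosh γ) - cosh (t y)` of `nu K x` has integral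
`0` over `K`, so it vanishes a.e. on `K` and `cosh_eq` gives `|y(nu K x)| = γ` a.e. on `K`, hence a.e. (`ae_of_ae_body`).
-/

set_option autoImplicit false

open MeasureTheory Set Filter Topology
open scoped Pointwise

namespace Pool.Agent.Lib.MP_1dedaf_gt.LB

private theorem E10b_y {K C : Set E2} (hK : Body K) (hC : Body C) :
    ContinuousOn (yy K C) (Metric.sphere 0 1) := by
  have h0 : ∀ u ∈ Metric.sphere (0 : E2) 1, u ≠ 0 := by
    intro u hu h
    rw [h] at hu
    simp at hu
  refine ContinuousOn.log ((hs_cont hC).continuousOn.div (hs_cont hK).continuousOn ?_) ?_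
  · intro u hu
    exact (hs_pos hK (h0 u hu)).ne'
  · intro u hu
    exact (div_pos (hs_pos hC (h0 u hu)) (hs_pos hK (h0 u hu))).ne'

private theorem E10b_lin {K : Set E2} (hK : Body K) {ψ : E2 → ℝ} (hψ : ContinuousOn ψ (Metric.sphere 0 1)) (a b : ℝ) :
    EE K (fun u => a + b * ψ u) = a + b * EE K ψ := by
  have h0 := (ar_pos hK).ne'
  have hi := int_nu hK hψ
  have h1 : ∫ x in K, (a + b * ψ (nu K x)) = a * ar K + b * ∫ x in K, ψ (nu K x) := by
    have hc : IntegrableOn (fun _ : E2 => a) K := continuousOn_const.integrableOn_compact hK.comp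
    rw [integral_add hc (hi.const_mul b), setIntegral_const, integral_const_mul]
    rw [smul_eq_mul, mul_comm (volume.real K) a]
    rfl
  rw [EE, EE, h1]
  field_simp

private theorem E10b_sub {K : Set E2} (hK : Body K) {ψ φ : E2 → ℝ} (hψ : ContinuousOn ψ (Metric.sphere 0 1))
    (hφ : ContinuousOn φ (Metric.sphere 0 1)) :
    EE K (fun u => ψ u - φ u) = EE K ψ - EE K φ := by
  rw [EE, EE, EE, ← sub_div, ← integral_sub (int_nu hK hψ) (int_nu hK hφ)]

private theorem E10b_nn {K : Set E2} (hK : Body K) {ψ : E2 → ℝ} (h : ∀ u : E2, ‖u‖ = 1 → 0 ≤ ψ u) :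
    ∀ᵐ x ∂(volume.restrict K : Measure E2), 0 ≤ ψ (nu K x) := by
  refine ae_restrict_of_ae ?_
  filter_upwards [good_ae hK] with x hx
  exact h _ (nu_norm hK hx)

private theorem E10b_nonneg {K : Set E2} (hK : Body K) {ψ : E2 → ℝ} (h : ∀ u : E2, ‖u‖ = 1 → 0 ≤ ψ u) :
    0 ≤ EE K ψ :=
  div_nonneg (integral_nonneg_of_ae (E10b_nn hK h)) (ar_pos hK).le

private theorem E10b_zero {K : Set E2} (hK : Body K) {ψ : E2 → ℝ} (hψ : ContinuousOn ψ (Metric.sphere 0 1))
    (h : ∀ u : E2, ‖u‖ = 1 → 0 ≤ ψ u) (h0 : EE K ψ = 0) :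
    ∀ᵐ x ∂(volume.restrict K : Measure E2), ψ (nu K x) = 0 := by
  have h1 : ∫ x in K, ψ (nu K x) = 0 := by
    have := (ar_pos hK).ne'
    rw [EE, div_eq_zero_iff] at h0
    tauto
  have h2 := (integral_eq_zero_iff_of_nonneg_ae (E10b_nn hK h) (int_nu hK hψ)).1 h1
  filter_upwards [h2] with x hx
  exact hx

private theorem E10b_id (α β : ℝ) : Real.sinh α ^ 2 + Real.sinh β ^ 2 + 2 * Real.sinh α * Real.sinh β * Real.cosh (α + β) =
    Real.sinh (α + β) ^ 2 := by
  rw [Real.cosh_add, Real.sinh_add]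
  have h1 := Real.cosh_sq α
  have h2 := Real.cosh_sq β
  have e : (Real.sinh α * Real.cosh β + Real.cosh α * Real.sinh β) ^ 2 =
    Real.sinh α ^ 2 * Real.cosh β ^ 2 + Real.cosh α ^ 2 * Real.sinh β ^ 2 +
      2 * Real.sinh α * Real.sinh β * (Real.cosh α * Real.cosh β) := by ring
  rw [e, h1, h2]
  ring

theorem abs_y {t : ℝ} (ht0 : 0 < t) (ht1 : t < 1) {K C : Set E2} (h : EqCase t K C) :
    ∃ γ : ℝ, 0 ≤ γ ∧ ∀ᵐ x ∂(volume : Measure E2), |yy K C (nu K x)| = γ := by
  have hK := h.bK
  have hC := h.bC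
  have hy := E10b_y hK hC
  have ha0 := ar_pos hK
  have hcont : ∀ r : ℝ, ContinuousOn (fun u => Real.cosh (r * yy K C u)) (Metric.sphere 0 1) := fun r =>
    Real.continuous_cosh.comp_continuousOn (continuousOn_const.mul hy)
  have hcont1 : ContinuousOn (fun u => Real.cosh (yy K C u)) (Metric.sphere 0 1) :=
    Real.continuous_cosh.comp_continuousOn hy
  have hg : 1 ≤ EE K (fun u => Real.cosh (yy K C u)) := by
    have h1 := E10b_nonneg hK (ψ := fun u => -1 + 1 * Real.cosh (yy K C u)) (by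
      intro u _
      have := Real.one_le_cosh (yy K C u)
      linarith)
    rw [E10b_lin hK hcont1] at h1
    linarith
  obtain ⟨γ, hγ0, hγ⟩ := Real.cosh_surjOn hg
  rw [Set.mem_Ici] at hγ0
  refine ⟨γ, hγ0, ae_of_ae_body hK K (P := fun u => |yy K C u| = γ) ?_⟩
  rcases hγ0.eq_or_lt with h0 | hpos
  · have h1 := E10b_zero hK (ψ := fun u => -1 + 1 * Real.cosh (yy K C u))
      (continuousOn_const.add (continuousOn_const.mul hcont1)) (by
      intro u _
      have := Real.one_le_cosh (yy K C u)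
      linarith) (by
      rw [E10b_lin hK hcont1, ← hγ, ← h0, Real.cosh_zero]
      norm_num)
    filter_upwards [h1] with x hx
    have h2 : ¬ 1 < Real.cosh (yy K C (nu K x)) := by linarith
    rw [Real.one_lt_cosh, not_not] at h2
    rw [h2, abs_zero]
    exact h0
  · have hS := Real.sinh_pos_iff.2 hpos
    have haa : 0 < Real.sinh ((1 - t) * γ) := Real.sinh_pos_iff.2 (mul_pos (by linarith) hpos)
    have hcc : 0 < Real.sinh (t * γ) := Real.sinh_pos_iff.2 (mul_pos ht0 hpos)
    have hL : Body (LC t K C) := LC_body hK hC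
    have hN : Body (Real.sinh ((1 - t) * γ) • K + Real.sinh (t * γ) • C) :=
      (add_body (smul_body hK haa).1 (smul_body hC hcc).1).1
    have eγ : (1 - t) * γ + t * γ = γ := by ring
    have hNar : ar (Real.sinh ((1 - t) * γ) • K + Real.sinh (t * γ) • C) = ar K * Real.sinh γ ^ 2 := by
      rw [ar_comb hK hC haa hcc, (MV_KC ht0 ht1 h).1, ← hγ, h.arC]
      have e1 := E10b_id ((1 - t) * γ) (t * γ)
      rw [eγ] at e1
      rw [← e1]
      ring
    have hge := MV_ge hL hN
    have hsq : Real.sqrt (ar (LC t K C) * ar (Real.sinh ((1 - t) * γ) • K + Real.sinh (t * γ) • C)) =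
        ar K * Real.sinh γ := by
      rw [hNar, h.arL]
      have : ar K * (ar K * Real.sinh γ ^ 2) = (ar K * Real.sinh γ) ^ 2 := by ring
      rw [this, Real.sqrt_sq (mul_pos ha0 hS).le]
    rw [hsq, MV_lin hL hK hC haa hcc] at hge
    have m1 := MV_LK ht0 ht1 h
    have m2 := MV_LC ht0 ht1 h
    have key : ∀ r : ℝ, 0 < r → r < 1 → 0 ≤ Real.cosh (r * γ) - EE K (fun u => Real.cosh (r * yy K C u)) ∧
        (Real.cosh (r * γ) - EE K (fun u => Real.cosh (r * yy K C u)) = 0 →
          ∀ᵐ x ∂(volume.restrict K : Measure E2), |yy K C (nu K x)| = γ) := by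
      intro r hr0 hr1
      have hD : ContinuousOn (fun u => (Real.cosh (r * γ) - r * (Real.sinh (r * γ) / Real.sinh γ) * Real.cosh γ +
          (r * (Real.sinh (r * γ) / Real.sinh γ)) * Real.cosh (yy K C u))) (Metric.sphere 0 1) :=
        continuousOn_const.add (continuousOn_const.mul hcont1)
      have e1 : EE K (fun u => (Real.cosh (r * γ) - r * (Real.sinh (r * γ) / Real.sinh γ) * Real.cosh γ +
          (r * (Real.sinh (r * γ) / Real.sinh γ)) * Real.cosh (yy K C u)) - Real.cosh (r * yy K C u)) =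
          Real.cosh (r * γ) - EE K (fun u => Real.cosh (r * yy K C u)) := by
        rw [E10b_sub hK hD (hcont r), E10b_lin hK hcont1, ← hγ]
        ring
      have hnn : ∀ u : E2, ‖u‖ = 1 → 0 ≤ (Real.cosh (r * γ) - r * (Real.sinh (r * γ) / Real.sinh γ) * Real.cosh γ +
          (r * (Real.sinh (r * γ) / Real.sinh γ)) * Real.cosh (yy K C u)) - Real.cosh (r * yy K C u) := by
        intro u _
        have := cosh_ineq hr0 hr1 hpos (yy K C u)
        linarith
      refine ⟨e1 ▸ E10b_nonneg hK hnn, fun h0 => ?_⟩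
      filter_upwards [E10b_zero hK (hD.sub (hcont r)) hnn (e1.trans h0)] with x hx
      refine cosh_eq hr0 hr1 hpos ?_
      rw [Pi.sub_apply] at hx
      linarith
    have k1 := key t ht0 ht1
    have k2 := key (1 - t) (by linarith) (by linarith)
    refine k1.2 (le_antisymm ?_ k1.1)
    have e2 : Real.sinh γ = Real.sinh ((1 - t) * γ) * Real.cosh (t * γ) + Real.cosh ((1 - t) * γ) * Real.sinh (t * γ) := by
      rw [← Real.sinh_add, eγ]
    have n1 := mul_le_mul_of_nonneg_left m1 haa.le
    have n2 := mul_le_mul_of_nonneg_left m2 hcc.le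
    have n3 : ar K * Real.sinh γ ≤ ar K * (Real.sinh ((1 - t) * γ) * EE K (fun u => Real.cosh (t * yy K C u)) +
        Real.sinh (t * γ) * EE K (fun u => Real.cosh ((1 - t) * yy K C u))) := by
      calc _ ≤ _ := hge
        _ ≤ _ := add_le_add n1 n2
        _ = _ := by ring
    have n4 := le_of_mul_le_mul_left n3 ha0
    have n5 := mul_nonneg hcc.le k2.1
    have n6 : Real.sinh ((1 - t) * γ) * (Real.cosh (t * γ) - EE K (fun u => Real.cosh (t * yy K C u))) ≤ 0 := by
      nlinarith
    by_contra hcon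
    rw [not_le] at hcon
    have := mul_pos haa hcon
    linarith

end Pool.Agent.Lib.MP_1dedaf_gt.LB
end

section

/-!
# TASK LB E12: the surface area measure is balanced

Proof. Both sides are linear in `z`, so let `z` be small: `ball 0 r ⊆ B`, `‖z‖ < r`, `B' = {z} + B` is a body with `hs B' u = hs B u + <z, u>`. `ar (B + B') = ar (B + B)`, `ar B' = ar B` (translations), so `MV B B' = MV B B`, and
`MV_eq` gives `∫_B (hs B + <z, .>)/hs B (nu B) = ∫_B hs B/hs B (nu B)`; subtract (`int_nu`).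
-/

set_option autoImplicit false

open MeasureTheory Set Filter Topology

namespace Pool.Agent.Lib.MP_1dedaf_gt.LB

open scoped Pointwise in
private theorem E12_ar (w : E2) (S : Set E2) : ar ({w} + S) = ar S := by
  unfold ar
  rw [Set.singleton_add, Set.image_add_left, measure_preimage_add]

open scoped Pointwise in
private theorem E12_body {B : Set E2} (hB : Body B) {w : E2} (hw : -w ∈ interior B) : Body ({w} + B) := by
  refine ⟨(convex_singleton w).add hB.conv, isCompact_singleton.add hB.comp, ?_⟩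
  refine mem_interior.mpr ⟨{w} + interior B, Set.add_subset_add_left interior_subset,
    isOpen_interior.add_left, ?_⟩
  exact ⟨w, rfl, -w, hw, by simp⟩

open scoped Pointwise in
private theorem E12_hs {B : Set E2} (hB : Body B) (w u : E2) :
    hs ({w} + B) u = hs B u + inner ℝ w u := by
  have hne : B.Nonempty := ⟨0, interior_subset hB.zero⟩
  apply le_antisymm
  · refine hs_le ((Set.singleton_nonempty w).add hne) ?_
    rintro _ ⟨_, rfl, y, hy, rfl⟩
    have h1 := inner_le_hs hB.comp hy u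
    rw [inner_add_left]
    linarith
  · obtain ⟨y, hy, hyu⟩ := hs_attained hB.comp hne u
    have h1 := inner_le_hs (isCompact_singleton.add hB.comp) (Set.add_mem_add (Set.mem_singleton w) hy) u
    rw [inner_add_left] at h1
    linarith

open scoped Pointwise in
private theorem E12_small {B : Set E2} (hB : Body B) {w : E2} (hw : -w ∈ interior B) :
    ∫ x in B, inner ℝ w (nu B x) / hs B (nu B x) = 0 := by
  have hB' := E12_body hB hw
  have hne : ∀ u : E2, u ∈ Metric.sphere (0 : E2) 1 → hs B u ≠ 0 := by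
    intro u hu
    have hu1 : u ≠ 0 := by
      rintro rfl
      simp at hu
    exact (hs_pos hB hu1).ne'
  have hc1 : ContinuousOn (fun u : E2 => hs B u / hs B u) (Metric.sphere 0 1) :=
    (hs_cont hB).continuousOn.div (hs_cont hB).continuousOn hne
  have hc2 : ContinuousOn (fun u : E2 => inner ℝ w u / hs B u) (Metric.sphere 0 1) :=
    (Continuous.continuousOn (by fun_prop)).div (hs_cont hB).continuousOn hne
  have h1 := MV_eq hB hB'
  have h2 := MV_eq hB hB
  have h3 : MV B ({w} + B) = MV B B := by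
    have h4 : B + ({w} + B) = {w} + (B + B) := by
      rw [← add_assoc, add_comm B {w}, add_assoc]
    unfold MV
    rw [h4, E12_ar, E12_ar]
  have h5 : (fun x => hs ({w} + B) (nu B x) / hs B (nu B x)) =
      fun x => hs B (nu B x) / hs B (nu B x) + inner ℝ w (nu B x) / hs B (nu B x) := by
    funext x
    rw [E12_hs hB, add_div]
  rw [h5, integral_add (int_nu hB hc1) (int_nu hB hc2)] at h1
  rw [h3, h2] at h1
  linarith

theorem balanced {B : Set E2} (hB : Body B) (z : E2) : ∫ x in B, inner ℝ z (nu B x) / hs B (nu B x) = 0 := by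
  have hnb : interior B ∈ 𝓝 (0 : E2) := isOpen_interior.mem_nhds hB.zero
  obtain ⟨r, hr, hrB⟩ := Metric.mem_nhds_iff.mp hnb
  set ε : ℝ := r / (2 * (‖z‖ + 1)) with hε
  have hz1 : 0 < ‖z‖ + 1 := by positivity
  have hε0 : 0 < ε := by positivity
  have hw : -(ε • z) ∈ interior B := by
    apply hrB
    rw [mem_ball_zero_iff, norm_neg, norm_smul, Real.norm_eq_abs, abs_of_pos hε0, hε,
      div_mul_eq_mul_div, div_lt_iff₀ (by positivity)]
    nlinarith [norm_nonneg z]
  have h1 := E12_small hB hw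
  have h2 : (fun x => inner ℝ (ε • z) (nu B x) / hs B (nu B x)) =
      fun x => ε * (inner ℝ z (nu B x) / hs B (nu B x)) := by
    funext x
    rw [real_inner_smul_left, mul_div_assoc]
  rw [h2, integral_const_mul] at h1
  exact (mul_eq_zero.mp h1).resolve_left hε0.ne'

end Pool.Agent.Lib.MP_1dedaf_gt.LB
end

section

/-!
# TASK LB E13a: the two parts of the boundary

Notation: `Kσ = {x ∈ K | h_C (nu K x) = exp (σγ) h_K (nu K x)}` for `σ = 1, -1`. Almost every `x ∈ K` is in exactly one of `K1`, `K(-1)` (`hy`; `exp γ ≠ exp (-γ)`). By `MV_KC` `EE K (exp y) = EE K (cosh y)`, so `EE K (exp y) = EE K (exp (-y))`: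
`exp γ |K1| + exp (-γ) |K(-1)| = exp (-γ) |K1| + exp γ |K(-1)|`, so `|K1| = |K(-1)| = |K|/2 > 0`.
Balance: `balanced` for `K`: `∫_K <z,nu>/h_K(nu) = 0`; `balanced` for `C` and `lawC` (`ψ u = <z,u>/h_C(u)`): `0 = EE C ψ = EE K ψ`, i.e. `∫_K <z,nu>/h_C (nu) = 0`. With `I_σ = ∫_{Kσ} <z,nu>/h_K(nu)`: `I_1 + I_{-1} = 0`,
`exp (-γ) I_1 + exp γ I_{-1} = 0`, so `I_1 = I_{-1} = 0`.
-/

set_option autoImplicit false

open MeasureTheory Set Filter Topology

namespace Pool.Agent.Lib.MP_1dedaf_gt.LB

private theorem E13a_yy {K C : Set E2} (bK : Body K) (bC : Body C) : ContinuousOn (yy K C) (Metric.sphere 0 1) := by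
  have hne : ∀ u ∈ Metric.sphere (0 : E2) 1, u ≠ 0 := by
    intro u hu h0
    rw [h0] at hu
    simp at hu
  unfold yy
  refine ContinuousOn.log ?_ ?_
  · exact ((hs_cont bC).continuousOn).div ((hs_cont bK).continuousOn) (fun u hu => (hs_pos bK (hne u hu)).ne')
  · intro u hu
    exact (div_pos (hs_pos bC (hne u hu)) (hs_pos bK (hne u hu))).ne'

private theorem E13a_ne {B : Set E2} (hB : Body B) {x : E2} (hx : Good B x) : nu B x ≠ 0 := by
  intro h0
  have := nu_norm hB hx
  rw [h0, norm_zero] at this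
  exact zero_ne_one this

private theorem E13a_iff {K C : Set E2} (bK : Body K) (bC : Body C) {u : E2} (hu : u ≠ 0) (a : ℝ) :
    hs C u = Real.exp a * hs K u ↔ yy K C u = a := by
  have hk := hs_pos bK hu
  have hc := hs_pos bC hu
  unfold yy
  rw [← div_eq_iff hk.ne']
  constructor
  · intro h
    rw [h, Real.log_exp]
  · intro h
    rw [← h, Real.exp_log (div_pos hc hk)]

theorem halves {t : ℝ} (ht0 : 0 < t) (ht1 : t < 1) {K C : Set E2} (h : EqCase t K C) {γ : ℝ} (hγ : 0 < γ)
    (hy : ∀ᵐ x ∂(volume : Measure E2), |yy K C (nu K x)| = γ) {σ : ℝ} (hσ : σ = 1 ∨ σ = -1) :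
    0 < volume {x | x ∈ K ∧ hs C (nu K x) = Real.exp (σ * γ) * hs K (nu K x)} ∧
    ∀ z : E2, ∫ x in {x | x ∈ K ∧ hs C (nu K x) = Real.exp (σ * γ) * hs K (nu K x)}, inner ℝ z (nu K x) / hs K (nu K x) = 0 := by
  have bK := h.bK
  have bC := h.bC
  have hKm : MeasurableSet K := bK.comp.isClosed.measurableSet
  have har : 0 < ar K := ar_pos bK
  have hKfin : volume K ≠ ⊤ := bK.comp.measure_lt_top.ne
  -- the set where the quotient is `exp a`
  let P : ℝ → Set E2 := fun a => {x | hs C (nu K x) = Real.exp a * hs K (nu K x)}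
  have hPm : ∀ a, MeasurableSet (P a) := fun a =>
    measurableSet_eq_fun ((hs_cont bC).measurable.comp (nu_meas K))
      (((hs_cont bK).measurable.comp (nu_meas K)).const_mul _)
  have hset : ∀ a, {x | x ∈ K ∧ hs C (nu K x) = Real.exp a * hs K (nu K x)} = K ∩ P a := fun a => rfl
  have hgood := good_ae bK
  have hdiff : (K \ P γ : Set E2) =ᵐ[volume] (K ∩ P (-γ) : Set E2) := by
    filter_upwards [hgood, hy] with x hx hyx
    have hne := E13a_ne bK hx
    have h1 : (x ∈ K \ P γ) = (x ∈ K ∩ P (-γ)) := by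
      apply propext
      constructor
      · rintro ⟨h2, h3⟩
        refine ⟨h2, ?_⟩
        rcases (abs_eq hγ.le).1 hyx with h4 | h4
        · exact absurd ((E13a_iff bK bC hne γ).2 h4) h3
        · exact (E13a_iff bK bC hne (-γ)).2 h4
      · rintro ⟨h2, h3⟩
        refine ⟨h2, fun h4 => ?_⟩
        have h5 := (E13a_iff bK bC hne (-γ)).1 h3
        have h6 := (E13a_iff bK bC hne γ).1 h4
        linarith
    exact h1
  -- splitting of integrals
  have hsplit : ∀ F : E2 → ℝ, IntegrableOn F K →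
      (∫ x in K ∩ P γ, F x) + ∫ x in K ∩ P (-γ), F x = ∫ x in K, F x := by
    intro F hF
    rw [← integral_inter_add_sdiff (hPm γ) hF, setIntegral_congr_set hdiff]
  -- values on the parts
  have hval : ∀ a, ∀ F G : E2 → ℝ, (∀ x, Good K x → yy K C (nu K x) = a → F x = G x) →
      ∫ x in K ∩ P a, F x = ∫ x in K ∩ P a, G x := by
    intro a F G hFG
    refine setIntegral_congr_ae (hKm.inter (hPm a)) ?_
    filter_upwards [hgood] with x hx hxm
    exact hFG x hx ((E13a_iff bK bC (E13a_ne bK hx) a).1 hxm.2)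
  have hyc := E13a_yy bK bC
  have hexp : ContinuousOn (fun u => Real.exp (yy K C u)) (Metric.sphere 0 1) := hyc.rexp
  have hcosh : ContinuousOn (fun u => Real.cosh (yy K C u)) (Metric.sphere 0 1) :=
    Real.continuous_cosh.comp_continuousOn hyc
  have hMV := MV_KC ht0 ht1 h
  have hE : (∫ x in K, Real.cosh (yy K C (nu K x))) = ∫ x in K, Real.exp (yy K C (nu K x)) := by
    have h1 : ar K * EE K (fun u => Real.cosh (yy K C u)) = ar K * EE K (fun u => Real.exp (yy K C u)) :=
      hMV.1.symm.trans hMV.2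
    unfold EE at h1
    rw [mul_div_cancel₀ _ har.ne', mul_div_cancel₀ _ har.ne'] at h1
    exact h1
  set m1 : ℝ := (volume (K ∩ P γ)).toReal with hm1
  set m2 : ℝ := (volume (K ∩ P (-γ))).toReal with hm2
  have hconst : ∀ a c : ℝ, ∫ _ in K ∩ P a, c = (volume (K ∩ P a)).toReal * c := by
    intro a c
    rw [setIntegral_const, smul_eq_mul, Measure.real]
  have hc1 : (∫ x in K, Real.cosh (yy K C (nu K x))) = m1 * Real.cosh γ + m2 * Real.cosh γ := by
    rw [← hsplit _ (int_nu bK hcosh), hval γ _ (fun _ => Real.cosh γ) (fun x _ hx => by rw [hx]),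
      hval (-γ) _ (fun _ => Real.cosh γ) (fun x _ hx => by rw [hx, Real.cosh_neg]), hconst, hconst]
  have he1 : (∫ x in K, Real.exp (yy K C (nu K x))) = m1 * Real.exp γ + m2 * Real.exp (-γ) := by
    rw [← hsplit _ (int_nu bK hexp), hval γ _ (fun _ => Real.exp γ) (fun x _ hx => by rw [hx]),
      hval (-γ) _ (fun _ => Real.exp (-γ)) (fun x _ hx => by rw [hx]), hconst, hconst]
  have hsum : m1 + m2 = ar K := by
    have h1 := hsplit (fun _ => (1 : ℝ)) (integrableOn_const hKfin)
    rw [hconst, hconst, mul_one, mul_one, setIntegral_const, smul_eq_mul, mul_one] at h1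
    exact h1
  have hlt : Real.exp (-γ) < Real.exp γ := Real.exp_lt_exp.2 (by linarith)
  have hm : m1 = m2 := by
    have h1 : m1 * Real.cosh γ + m2 * Real.cosh γ = m1 * Real.exp γ + m2 * Real.exp (-γ) := by
      rw [← hc1, ← he1, hE]
    rw [Real.cosh_eq] at h1
    have h2 : (m1 - m2) * (Real.exp γ - Real.exp (-γ)) = 0 := by linarith
    rcases mul_eq_zero.1 h2 with h3 | h3
    · linarith
    · exact absurd h3 (by linarith)
  have hm1pos : 0 < m1 := by linarith
  have hm2pos : 0 < m2 := by linarith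
  have hpos1 : 0 < volume (K ∩ P γ) := (ENNReal.toReal_pos_iff.1 hm1pos).1
  have hpos2 : 0 < volume (K ∩ P (-γ)) := (ENNReal.toReal_pos_iff.1 hm2pos).1
  -- the balance
  have hbal : ∀ z : E2, (∫ x in K ∩ P γ, inner ℝ z (nu K x) / hs K (nu K x)) = 0 ∧
      (∫ x in K ∩ P (-γ), inner ℝ z (nu K x) / hs K (nu K x)) = 0 := by
    intro z
    have hne : ∀ u ∈ Metric.sphere (0 : E2) 1, u ≠ 0 := by
      intro u hu h0
      rw [h0] at hu
      simp at hu
    have hcK : ContinuousOn (fun u : E2 => inner ℝ z u / hs K u) (Metric.sphere 0 1) :=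
      (Continuous.continuousOn (by fun_prop)).div ((hs_cont bK).continuousOn) (fun u hu => (hs_pos bK (hne u hu)).ne')
    have hcC : ContinuousOn (fun u : E2 => inner ℝ z u / hs C u) (Metric.sphere 0 1) :=
      (Continuous.continuousOn (by fun_prop)).div ((hs_cont bC).continuousOn) (fun u hu => (hs_pos bC (hne u hu)).ne')
    have h1 := hsplit _ (int_nu bK hcK)
    rw [balanced bK z] at h1
    have h2 := hsplit _ (int_nu bK hcC)
    have h3 : ∫ x in K, inner ℝ z (nu K x) / hs C (nu K x) = 0 := by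
      have h4 := h.lawC _ hcC
      unfold EE at h4
      rw [balanced bC z, zero_div] at h4
      rcases div_eq_zero_iff.1 h4.symm with h5 | h5
      · exact h5
      · exact absurd h5 har.ne'
    rw [h3] at h2
    have h6 : ∀ a : ℝ, ∫ x in K ∩ P a, inner ℝ z (nu K x) / hs C (nu K x) =
        Real.exp (-a) * ∫ x in K ∩ P a, inner ℝ z (nu K x) / hs K (nu K x) := by
      intro a
      rw [← integral_const_mul]
      refine hval a _ _ (fun x hx hxa => ?_)
      have h7 := (E13a_iff bK bC (E13a_ne bK hx) a).2 hxa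
      have h8 := hs_pos bK (E13a_ne bK hx)
      rw [h7, Real.exp_neg]
      have h9 := Real.exp_pos a
      field_simp
    rw [h6 γ, h6 (-γ), neg_neg] at h2
    set I1 := ∫ x in K ∩ P γ, inner ℝ z (nu K x) / hs K (nu K x) with hI1
    set I2 := ∫ x in K ∩ P (-γ), inner ℝ z (nu K x) / hs K (nu K x) with hI2
    have h10 : I1 * (Real.exp γ - Real.exp (-γ)) = 0 := by
      have h11 : I2 = - I1 := by linarith
      rw [h11] at h2
      linarith
    have h12 : I1 = 0 := by
      rcases mul_eq_zero.1 h10 with h13 | h13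
      · exact h13
      · exact absurd h13 (by linarith)
    exact ⟨h12, by linarith⟩
  rcases hσ with rfl | rfl
  · rw [hset (1 * γ), one_mul]
    exact ⟨hpos1, fun z => (hbal z).1⟩
  · rw [hset (-1 * γ), neg_one_mul]
    exact ⟨hpos2, fun z => (hbal z).2⟩

end Pool.Agent.Lib.MP_1dedaf_gt.LB
end

section

/-!
# TASK LB E13c: the normals of one part do not positively span the plane

Proof. `P = {u | ‖u‖ = 1 ∧ h_C u = exp (σγ) h_K u}` is closed. If the claim fails, `P` positively spans the plane and `body_of_normals` gives a body `A` with `nu A x ∈ P` for almost all `x`. `MV A C = ∫_A h_C/h_A (nu A) = exp (σγ) ∫_A h_K/h_A (nu A) = exp (σγ) MV A K`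
(`MV_eq`). By symmetry, `MV_eq`, `lawC`, `arC`: `MV A C = MV C A = ∫_C h_A/h_C (nu C) = ∫_K h_A/h_C (nu K)` and `MV A K = ∫_K h_A/h_K (nu K)`. So `∫_K (h_A/h_C - exp (σγ) h_A/h_K)(nu K) = 0`. The integrand is `0` where
`h_C = exp (-σγ) h_K` and it is `(exp (-σγ) - exp (σγ)) h_A/h_K` where `h_C = exp (σγ) h_K`, a set of positive measure (`halves`); `h_A/h_K > 0`: the integral is not `0`, a contradiction.
-/

set_option autoImplicit false

open MeasureTheory Set Filter Topology

namespace Pool.Agent.Lib.MP_1dedaf_gt.LB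

private theorem E13c_contOn {A B : Set E2} (hA : Body A) (hB : Body B) :
    ContinuousOn (fun u => hs A u / hs B u) (Metric.sphere 0 1) := by
  refine ContinuousOn.div (hs_cont hA).continuousOn (hs_cont hB).continuousOn ?_
  intro u hu
  have hu1 : ‖u‖ = 1 := by simpa using hu
  have hu0 : u ≠ 0 := by
    intro h0
    rw [h0, norm_zero] at hu1
    exact zero_ne_one hu1
  exact (hs_pos hB hu0).ne'

theorem not_span {t : ℝ} (ht0 : 0 < t) (ht1 : t < 1) {K C : Set E2} (h : EqCase t K C) {γ : ℝ} (hγ : 0 < γ)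
    (hy : ∀ᵐ x ∂(volume : Measure E2), |yy K C (nu K x)| = γ) {σ : ℝ} (hσ : σ = 1 ∨ σ = -1) :
    ∃ x0 : E2, x0 ≠ 0 ∧ ∀ u : E2, ‖u‖ = 1 → hs C u = Real.exp (σ * γ) * hs K u → inner ℝ x0 u ≤ 0 := by
  by_contra hcon
  push Not at hcon
  have hK := h.bK
  have hC := h.bC
  have hclosed : IsClosed {u : E2 | ‖u‖ = 1 ∧ hs C u = Real.exp (σ * γ) * hs K u} := by
    apply IsClosed.inter
    · exact isClosed_eq continuous_norm continuous_const
    · exact isClosed_eq (hs_cont hC) (continuous_const.mul (hs_cont hK))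
  obtain ⟨A, hA, hAn⟩ := body_of_normals hclosed (fun u hu => hu.1) (by
    intro x hx
    obtain ⟨u, hu1, hu2, hu3⟩ := hcon x hx
    exact ⟨u, ⟨hu1, hu2⟩, hu3⟩)
  -- the mixed areas with A
  have h1 : MV A C = Real.exp (σ * γ) * MV A K := by
    rw [MV_eq hA hC, MV_eq hA hK, ← integral_const_mul]
    apply integral_congr_ae
    filter_upwards [ae_restrict_of_ae (good_ae hA)] with x hx
    rw [(hAn x hx).2]
    ring
  have hKA : MV A K = ∫ x in K, hs A (nu K x) / hs K (nu K x) := by
    rw [MV_symm, MV_eq hK hA]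
  have hCA : MV A C = ∫ x in K, hs A (nu K x) / hs C (nu K x) := by
    rw [MV_symm, MV_eq hC hA]
    have hlaw := h.lawC (fun u => hs A u / hs C u) (E13c_contOn hA hC)
    unfold EE at hlaw
    have hpos := ar_pos hK
    rw [h.arC] at hlaw
    have := (div_left_inj' hpos.ne').1 hlaw
    exact this
  have hint1 : IntegrableOn (fun x => hs A (nu K x) / hs C (nu K x)) K :=
    int_nu (ψ := fun u => hs A u / hs C u) hK (E13c_contOn hA hC)
  have hint2 : IntegrableOn (fun x => hs A (nu K x) / hs K (nu K x)) K :=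
    int_nu (ψ := fun u => hs A u / hs K u) hK (E13c_contOn hA hK)
  set F : E2 → ℝ := fun x => -σ * (hs A (nu K x) / hs C (nu K x)
    - Real.exp (σ * γ) * (hs A (nu K x) / hs K (nu K x))) with hF
  have hFi : IntegrableOn F K := (hint1.sub (hint2.const_mul _)).const_mul _
  have hF0 : ∫ x in K, F x = 0 := by
    rw [hF, integral_const_mul, integral_sub hint1 (hint2.const_mul _), integral_const_mul, ← hCA, ← hKA, h1]
    ring
  -- pointwise facts
  have hpt : ∀ᵐ x ∂(volume : Measure E2), 0 ≤ F x ∧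
      (hs C (nu K x) = Real.exp (σ * γ) * hs K (nu K x) → 0 < F x) := by
    filter_upwards [good_ae hK, hy] with x hx hxy
    have hn1 : ‖nu K x‖ = 1 := nu_norm hK hx
    have hn0 : nu K x ≠ 0 := by
      intro h0
      rw [h0, norm_zero] at hn1
      exact zero_ne_one hn1
    have pK := hs_pos hK hn0
    have pC := hs_pos hC hn0
    have pA := hs_pos hA hn0
    have hq : 0 < hs C (nu K x) / hs K (nu K x) := div_pos pC pK
    have hlt : Real.exp (-γ) < Real.exp γ := Real.exp_lt_exp.2 (by linarith)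
    have hmul : Real.exp (-γ) * Real.exp γ = 1 := by
      rw [← Real.exp_add]; simp
    have hAK : 0 < hs A (nu K x) / hs K (nu K x) := div_pos pA pK
    unfold yy at hxy
    rcases (abs_eq hγ.le).1 hxy with hl | hl
    · -- hs C = exp γ * hs K
      have e1 : hs C (nu K x) = Real.exp γ * hs K (nu K x) := by
        have := Real.exp_log hq
        rw [hl] at this
        rw [this]; field_simp
      have e2 : hs A (nu K x) / hs C (nu K x) = Real.exp (-γ) * (hs A (nu K x) / hs K (nu K x)) := by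
        rw [e1, Real.exp_neg]; field_simp
      rcases hσ with rfl | rfl
      · have : F x = (Real.exp γ - Real.exp (-γ)) * (hs A (nu K x) / hs K (nu K x)) := by
          simp only [hF, e2, one_mul]; ring
        rw [this]
        have hp : 0 < (Real.exp γ - Real.exp (-γ)) * (hs A (nu K x) / hs K (nu K x)) :=
          mul_pos (by linarith) hAK
        exact ⟨hp.le, fun _ => hp⟩
      · have : F x = 0 := by
          simp only [hF, e2, neg_mul, one_mul]; ring
        rw [this]
        refine ⟨le_rfl, fun h3 => ?_⟩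
        rw [e1, neg_mul, one_mul] at h3
        have := mul_right_cancel₀ pK.ne' h3
        exact absurd this hlt.ne'
    · have e1 : hs C (nu K x) = Real.exp (-γ) * hs K (nu K x) := by
        have := Real.exp_log hq
        rw [hl] at this
        rw [this]; field_simp
      have e2 : hs A (nu K x) / hs C (nu K x) = Real.exp γ * (hs A (nu K x) / hs K (nu K x)) := by
        rw [e1, Real.exp_neg]; field_simp
      rcases hσ with rfl | rfl
      · have : F x = 0 := by
          simp only [hF, e2, one_mul]; ring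
        rw [this]
        refine ⟨le_rfl, fun h3 => ?_⟩
        rw [e1, one_mul] at h3
        have := mul_right_cancel₀ pK.ne' h3
        exact absurd this hlt.ne
      · have : F x = (Real.exp γ - Real.exp (-γ)) * (hs A (nu K x) / hs K (nu K x)) := by
          simp only [hF, e2, neg_mul, one_mul]; ring
        rw [this]
        have hp : 0 < (Real.exp γ - Real.exp (-γ)) * (hs A (nu K x) / hs K (nu K x)) :=
          mul_pos (by linarith) hAK
        exact ⟨hp.le, fun _ => hp⟩
  have hKm : MeasurableSet K := hK.comp.measurableSet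
  have hFz : F =ᵐ[volume.restrict K] 0 := by
    refine (integral_eq_zero_iff_of_nonneg_ae ?_ hFi).1 hF0
    filter_upwards [ae_restrict_of_ae hpt] with x hx
    exact hx.1
  have hFz' : ∀ᵐ x ∂(volume : Measure E2), x ∈ K → F x = 0 := (ae_restrict_iff' hKm).1 hFz
  obtain ⟨hpos, _⟩ := halves ht0 ht1 h hγ hy hσ
  have hnull : volume {x | x ∈ K ∧ hs C (nu K x) = Real.exp (σ * γ) * hs K (nu K x)} = 0 := by
    have hae : ∀ᵐ x ∂(volume : Measure E2), ¬ (x ∈ K ∧ hs C (nu K x) = Real.exp (σ * γ) * hs K (nu K x)) := by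
      filter_upwards [hpt, hFz'] with x hx1 hx2 hx3
      have := hx1.2 hx3.2
      rw [hx2 hx3.1] at this
      exact lt_irrefl _ this
    rw [ae_iff] at hae
    simpa only [not_not] using hae
  rw [hnull] at hpos
  exact lt_irrefl _ hpos

end Pool.Agent.Lib.MP_1dedaf_gt.LB
end
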