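import Pool.Agent.Lib.MP_1dedaf_gt.Mg.G052
import Pool.Agent.Lib.MP_1dedaf_gt.Mg.G051
import Pool.Agent.Lib.MP_1dedaf_gt.Mg.G001
import Pool.Agent.Lib.MP_1dedaf_gt.LB.E1a
import Pool.Agent.Lib.MP_1dedaf_gt.Mg.G053
import Pool.Agent.Lib.MP_1dedaf_gt.Mg.G055
import Pool.Agent.Lib.MP_1dedaf_gt.Mg.G056
import Pool.Agent.Lib.MP_1dedaf_gt.Mg.G014
import Pool.Agent.Lib.MP_1dedaf_gt.LB.A7
import Pool.Agent.Lib.MP_1dedaf_gt.LB.A8a
import Pool.Agent.Lib.MP_1dedaf_gt.LB.A8
import Pool.Agent.Lib.MP_1dedaf_gt.Mg.G007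
import Pool.Agent.Lib.MP_1dedaf_gt.Mg.G005
import Pool.Agent.Lib.MP_1dedaf_gt.Mg.G018
import Pool.Agent.Lib.MP_1dedaf_gt.LB.C6
import Pool.Agent.Lib.MP_1dedaf_gt.Mg.G023

section

/-!
# TASK LB E13d: the normals are four vectors

Proof. For `σ = 1` take `x0` from `not_span`; `∫_{K1} <x0, nu>/h_K(nu) = 0` (`halves`) and the integrand is `≤ 0`, so `<x0, nu K x> = 0` for almost every `x ∈ K1`, and the unit vector `nu K x` is `v` or `-v`, `v = rot x0 / ‖x0‖` (`rot_decomp`). The same for `σ = -1` gives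
`w`. Almost every `x ∈ K` is in `K1` or `K(-1)` (`hy`). `ae_of_ae_body`.
-/

set_option autoImplicit false

open MeasureTheory Set Filter Topology

namespace Pool.Agent.Lib.MP_1dedaf_gt.LB

private theorem E13d_pm {x0 u : E2} (hx0 : x0 ≠ 0) (hu : ‖u‖ = 1) (h : inner ℝ x0 u = 0) :
    u = rot ((‖x0‖)⁻¹ • x0) ∨ u = -rot ((‖x0‖)⁻¹ • x0) := by
  have hn : ‖(‖x0‖)⁻¹ • x0‖ = 1 := by
    rw [norm_smul, norm_inv, norm_norm]
    exact inv_mul_cancel₀ (norm_ne_zero_iff.mpr hx0)
  have h1 := rot_decomp ((‖x0‖)⁻¹ • x0) hn u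
  have h2 : inner ℝ u ((‖x0‖)⁻¹ • x0) = (0 : ℝ) := by
    rw [inner_smul_right, real_inner_comm, h, mul_zero]
  rw [h2, zero_smul, zero_add] at h1
  have h3 : ‖(inner ℝ u (rot ((‖x0‖)⁻¹ • x0)) : ℝ)‖ = 1 := by
    have h4 := congrArg norm h1
    rw [norm_smul, rot_norm, hn, mul_one, hu] at h4
    exact h4.symm
  rw [Real.norm_eq_abs] at h3
  rcases (abs_eq zero_le_one).mp h3 with h5 | h5
  · left
    rw [h5, one_smul] at h1
    exact h1
  · right
    rw [h5, neg_smul, one_smul] at h1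
    exact h1

private theorem E13d_half {t : ℝ} (ht0 : 0 < t) (ht1 : t < 1) {K C : Set E2} (h : EqCase t K C)
    {γ : ℝ} (hγ : 0 < γ) (hy : ∀ᵐ x ∂(volume : Measure E2), |yy K C (nu K x)| = γ) {σ : ℝ}
    (hσ : σ = 1 ∨ σ = -1) :
    ∃ v : E2, ‖v‖ = 1 ∧ ∀ᵐ x ∂(volume : Measure E2),
      x ∈ K ∧ hs C (nu K x) = Real.exp (σ * γ) * hs K (nu K x) → nu K x = v ∨ nu K x = -v := by
  obtain ⟨x0, hx0, hle⟩ := not_span ht0 ht1 h hγ hy hσ
  have hn : ‖(‖x0‖)⁻¹ • x0‖ = 1 := by
    rw [norm_smul, norm_inv, norm_norm]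
    exact inv_mul_cancel₀ (norm_ne_zero_iff.mpr hx0)
  refine ⟨rot ((‖x0‖)⁻¹ • x0), by rw [rot_norm, hn], ?_⟩
  have hint := (halves ht0 ht1 h hγ hy hσ).2 x0
  have hKm : MeasurableSet K := h.bK.comp.isClosed.measurableSet
  have hmeas : MeasurableSet {x | x ∈ K ∧ hs C (nu K x) = Real.exp (σ * γ) * hs K (nu K x)} := by
    refine hKm.inter (measurableSet_eq_fun ?_ ?_)
    · exact (hs_cont h.bC).measurable.comp (nu_meas K)
    · exact ((hs_cont h.bK).measurable.comp (nu_meas K)).const_mul _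
  have hsub : {x | x ∈ K ∧ hs C (nu K x) = Real.exp (σ * γ) * hs K (nu K x)} ⊆ K := fun x hx => hx.1
  have hψ : ContinuousOn (fun u : E2 => inner ℝ x0 u / hs K u) (Metric.sphere 0 1) := by
    refine ContinuousOn.div ?_ (hs_cont h.bK).continuousOn fun u hu => ?_
    · exact (continuous_const.inner continuous_id).continuousOn
    · have : u ≠ 0 := by
        intro h0
        rw [h0, mem_sphere_zero_iff_norm, norm_zero] at hu
        exact zero_ne_one hu
      exact (hs_pos h.bK this).ne'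
  have hI := (int_nu h.bK hψ).mono_set hsub
  have hgood : ∀ᵐ x ∂(volume : Measure E2), Good K x := good_ae h.bK
  have hpos : ∀ x, Good K x → 0 < hs K (nu K x) := by
    intro x hx
    refine hs_pos h.bK fun h0 => ?_
    have := nu_norm h.bK hx
    rw [h0, norm_zero] at this
    exact zero_ne_one this
  have hneg : 0 ≤ᵐ[volume.restrict {x | x ∈ K ∧ hs C (nu K x) = Real.exp (σ * γ) * hs K (nu K x)}]
      fun x => -(inner ℝ x0 (nu K x) / hs K (nu K x)) := by
    rw [Filter.EventuallyLE, ae_restrict_iff' hmeas]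
    filter_upwards [hgood] with x hx hxs
    have h1 := hle (nu K x) (nu_norm h.bK hx) hxs.2
    have h2 := hpos x hx
    show (0 : ℝ) ≤ -(inner ℝ x0 (nu K x) / hs K (nu K x))
    rw [neg_nonneg]
    exact div_nonpos_of_nonpos_of_nonneg h1 h2.le
  have hI' : IntegrableOn (fun x => -(inner ℝ x0 (nu K x) / hs K (nu K x)))
      {x | x ∈ K ∧ hs C (nu K x) = Real.exp (σ * γ) * hs K (nu K x)} := hI.neg
  have hz : ∫ x in {x | x ∈ K ∧ hs C (nu K x) = Real.exp (σ * γ) * hs K (nu K x)},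
      -(inner ℝ x0 (nu K x) / hs K (nu K x)) = 0 := by
    rw [integral_neg, hint, neg_zero]
  have hae := (setIntegral_eq_zero_iff_of_nonneg_ae hneg hI').mp hz
  rw [Filter.EventuallyEq, ae_restrict_iff' hmeas] at hae
  filter_upwards [hgood, hae] with x hx hx2 hxs
  refine E13d_pm hx0 (nu_norm h.bK hx) ?_
  have h1 : -(inner ℝ x0 (nu K x) / hs K (nu K x)) = 0 := hx2 hxs
  have h2 := hpos x hx
  rw [neg_eq_zero, div_eq_zero_iff] at h1
  rcases h1 with h1 | h1
  · exact h1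
  · exact absurd h1 h2.ne'

theorem four_normals {t : ℝ} (ht0 : 0 < t) (ht1 : t < 1) {K C : Set E2} (h : EqCase t K C) {γ : ℝ} (hγ : 0 < γ)
    (hy : ∀ᵐ x ∂(volume : Measure E2), |yy K C (nu K x)| = γ) :
    ∃ v w : E2, ‖v‖ = 1 ∧ ‖w‖ = 1 ∧ ∀ᵐ x ∂(volume : Measure E2), nu K x = v ∨ nu K x = -v ∨ nu K x = w ∨ nu K x = -w := by
  obtain ⟨v, hv, hv'⟩ := E13d_half ht0 ht1 h hγ hy (Or.inl rfl)
  obtain ⟨w, hw, hw'⟩ := E13d_half ht0 ht1 h hγ hy (Or.inr rfl)
  refine ⟨v, w, hv, hw, ?_⟩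
  refine ae_of_ae_body (K := K) h.bK K (P := fun n => n = v ∨ n = -v ∨ n = w ∨ n = -w) ?_
  rw [ae_restrict_iff' h.bK.comp.isClosed.measurableSet]
  filter_upwards [hv', hw', hy, good_ae h.bK] with x h1 h2 h3 h4 hxK
  have hne : nu K x ≠ 0 := by
    intro h0
    have := nu_norm h.bK h4
    rw [h0, norm_zero] at this
    exact zero_ne_one this
  have hK := hs_pos h.bK hne
  have hC := hs_pos h.bC hne
  have key : ∀ r : ℝ, yy K C (nu K x) = r → hs C (nu K x) = Real.exp r * hs K (nu K x) := by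
    intro r hr
    rw [← hr, yy, Real.exp_log (div_pos hC hK), div_mul_cancel₀ _ hK.ne']
  rcases (abs_eq hγ.le).mp h3 with h5 | h5
  · rcases h1 ⟨hxK, by rw [key _ h5, one_mul]⟩ with h6 | h6
    · exact Or.inl h6
    · exact Or.inr (Or.inl h6)
  · rcases h2 ⟨hxK, by rw [key _ h5, neg_one_mul]⟩ with h6 | h6
    · exact Or.inr (Or.inr (Or.inl h6))
    · exact Or.inr (Or.inr (Or.inr h6))

end Pool.Agent.Lib.MP_1dedaf_gt.LB
end

section

/-!
# TASK LB C9a: Psi is pairwise supermodular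

Proof. `n` is odd, so `j = i + m` or `i = j + m` with `0 < m`, `2m < n`; the claim is symmetric in `(i,a)`, `(j,b)`, so let `s = i`, `t = j = s + m`.
`f (a,b) = Psi (S + a e_s + b e_t)`, continuous on `[0,∞)²` (`psi_cont`). `al n m s (S + a e_s + b e_t) = α₀ + a` (`aj_zero`). Let `k(a,b)` be `Opt`
vectors (`exists_opt`). `psi_lower` twice: for `a1 < a2`: `-(a2 - a1) k_s(a1,b) ≤ f (a2,b) - f (a1,b) ≤ -(a2 - a1) k_s(a2,b)`. Let `[a1,a2]` not contain `-α₀`, `b ≤ b'`. By `ks_anti`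
`k_s(a,b') ≤ k_s(a,b)` for `a ∈ [a1,a2]`. Divide `[a1,a2]` into `N` equal parts with points `x_q`:
`f (a2,b') - f (a1,b') ≥ - ∑ h k_s(x_q, b') ≥ - ∑ h k_s(x_q,b)` (`h = (a2-a1)/N`, `q < N`) and `f (a2,b) - f (a1,b) ≤ - ∑ h k_s(x_{q+1}, b)`; the difference is
`≥ h (k_s(a2,b) - k_s(a1,b)) → 0` as `N → ∞`. So `f (a2,b') - f (a1,b') ≥ f (a2,b) - f (a1,b)`. If `-α₀ ∈ [a1,a2]` split there and approximate the two intervals from
inside (continuity of `f`). Take `a1 = 0`, `a2 = a`, `b = 0`, `b' = b`.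
-/

set_option autoImplicit false

open MeasureTheory Set Filter Topology

namespace Pool.Agent.Lib.MP_1dedaf_gt.LB

/-- A difference inequality along a partition. -/
private theorem C9a_open {D K K' : ℝ → ℝ} {c d : ℝ} (hcd : c ≤ d)
    (h1 : ∀ x y, c ≤ x → x ≤ y → y ≤ d → (y - x) * (K y - K' x) ≤ D y - D x)
    (h2 : ∀ x, c < x → x < d → K' x ≤ K x) : D c ≤ D d := by
  rcases eq_or_lt_of_le hcd with hcd | hcd
  · rw [hcd]
  have key : ∀ N : ℕ, 0 < N → (d - c) / N * (K d - K' c) ≤ D d - D c := by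
    intro N hN
    have hN' : (0 : ℝ) < N := Nat.cast_pos.2 hN
    set h : ℝ := (d - c) / N with hh
    have hh0 : 0 < h := div_pos (sub_pos.2 hcd) hN'
    have hNh : (N : ℝ) * h = d - c := by rw [hh]; field_simp
    have step : ∀ q : ℕ, q + 1 ≤ N →
        h * (K (c + (q + 1 : ℕ) * h) - K' c) ≤ D (c + (q + 1 : ℕ) * h) - D c := by
      intro q
      induction q with
      | zero =>
        intro hq
        have hle : (((0 + 1 : ℕ) : ℝ)) * h ≤ N * h :=
          mul_le_mul_of_nonneg_right (by exact_mod_cast hq) hh0.le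
        have := h1 c (c + ((0 + 1 : ℕ) : ℝ) * h) le_rfl (by push_cast; linarith) (by linarith)
        have e : c + ((0 + 1 : ℕ) : ℝ) * h - c = h := by push_cast; ring
        rwa [e] at this
      | succ q ih =>
        intro hq
        have ih' := ih (by omega)
        have hle : (((q + 1 + 1 : ℕ) : ℝ)) * h ≤ N * h :=
          mul_le_mul_of_nonneg_right (by exact_mod_cast hq) hh0.le
        have e : (((q + 1 + 1 : ℕ) : ℝ)) * h = ((q + 1 : ℕ) : ℝ) * h + h := by push_cast; ring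
        have hpos : 0 < ((q + 1 : ℕ) : ℝ) * h := by positivity
        have s1 := h1 (c + ((q + 1 : ℕ) : ℝ) * h) (c + ((q + 1 + 1 : ℕ) : ℝ) * h) (by linarith)
          (by linarith) (by linarith)
        have s2 := h2 (c + ((q + 1 : ℕ) : ℝ) * h) (by linarith) (by linarith)
        have e2 : c + ((q + 1 + 1 : ℕ) : ℝ) * h - (c + ((q + 1 : ℕ) : ℝ) * h) = h := by
          rw [e]; ring
        rw [e2] at s1
        have s3 := mul_le_mul_of_nonneg_left s2 hh0.le
        linarith [s1, s3, ih']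
    have last := step (N - 1) (by omega)
    have e3 : N - 1 + 1 = N := by omega
    rw [e3, hNh] at last
    have e4 : c + (d - c) = d := by ring
    rwa [e4] at last
  have hlim : Tendsto (fun N : ℕ => (d - c) / N * (K d - K' c)) atTop (𝓝 (0 * (K d - K' c))) :=
    (tendsto_const_div_atTop_nhds_zero_nat (d - c)).mul_const _
  rw [zero_mul] at hlim
  have h0 : 0 ≤ D d - D c :=
    le_of_tendsto hlim ((eventually_gt_atTop 0).mono fun N hN => key N hN)
  linarith

/-- The same with one exceptional point. -/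
private theorem C9a_exc {D K K' : ℝ → ℝ} {c d x₀ : ℝ} (hcd : c ≤ d)
    (h1 : ∀ x y, c ≤ x → x ≤ y → y ≤ d → (y - x) * (K y - K' x) ≤ D y - D x)
    (h2 : ∀ x, c ≤ x → x ≤ d → x ≠ x₀ → K' x ≤ K x) : D c ≤ D d := by
  by_cases hx : c < x₀ ∧ x₀ < d
  · obtain ⟨hx1, hx2⟩ := hx
    have e1 : D c ≤ D x₀ := C9a_open hx1.le (fun x y h h' h'' => h1 x y h h' (by linarith))
      (fun x h h' => h2 x h.le (by linarith) h'.ne)
    have e2 : D x₀ ≤ D d := C9a_open hx2.le (fun x y h h' h'' => h1 x y (by linarith) h' h'')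
      (fun x h h' => h2 x (by linarith) h'.le h.ne')
    exact e1.trans e2
  · refine C9a_open hcd h1 fun x h h' => h2 x h.le h'.le ?_
    rintro rfl
    exact hx ⟨h, h'⟩

private theorem C9a_al (n : ℕ) [NeZero n] {m : ℕ} (hm : 0 < m) (hm2 : 2 * m < n) (s : ZMod n)
    (S : ZMod n → ℝ) (x : ℝ) : al n m s (S + Pi.single s x) = al n m s S + x := by
  unfold al
  have h : ∀ j ∈ Finset.range n, aj n m j * (S + Pi.single s x : ZMod n → ℝ) (s + (j : ℕ)) =
      aj n m j * S (s + (j : ℕ)) + if j = 0 then x else 0 := by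
    intro j hj
    rw [Pi.add_apply, mul_add]
    congr 1
    by_cases h0 : j = 0
    · subst h0
      simp [(aj_zero n hm hm2).1]
    · have hne : s + ((j : ℕ) : ZMod n) ≠ s := by
        intro h
        have h' : ((j : ℕ) : ZMod n) = 0 := by simpa using h
        rw [ZMod.natCast_eq_zero_iff] at h'
        have := Nat.le_of_dvd (Nat.pos_of_ne_zero h0) h'
        have := Finset.mem_range.1 hj
        omega
      rw [Pi.single_eq_of_ne hne, if_neg h0, mul_zero]
  rw [Finset.sum_congr rfl h, Finset.sum_add_distrib, Finset.sum_ite_eq' (Finset.range n) 0,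
    if_pos (Finset.mem_range.2 (Nat.pos_of_ne_zero (NeZero.ne n)))]

private theorem C9a_main (hker : Ker) (n : ℕ) [NeZero n] (hn : Odd n) (h3 : 3 ≤ n)
    {S : ZMod n → ℝ} (hS : ∀ i, 0 < S i) {m : ℕ} (hm : 0 < m) (hm2 : 2 * m < n) (s t : ZMod n)
    (ht : t = s + (m : ℕ)) {a b : ℝ} (ha : 0 ≤ a) (hb : 0 ≤ b) :
    Psi (dir n) (S + Pi.single s a) + Psi (dir n) (S + Pi.single t b) ≤
      Psi (dir n) (S + Pi.single s a + Pi.single t b) + Psi (dir n) S := by
  have hu : Adm (dir n) := dir_adm n hn h3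
  have hpos : ∀ x y : ℝ, 0 ≤ x → 0 ≤ y → ∀ i, 0 < (S + Pi.single s x + Pi.single t y : ZMod n → ℝ) i := by
    intro x y hx hy i
    have h1 : (0 : ℝ) ≤ (Pi.single s x : ZMod n → ℝ) i := by
      by_cases h : i = s
      · subst h; simpa using hx
      · rw [Pi.single_eq_of_ne h]
    have h2 : (0 : ℝ) ≤ (Pi.single t y : ZMod n → ℝ) i := by
      by_cases h : i = t
      · subst h; simpa using hy
      · rw [Pi.single_eq_of_ne h]
    have h3 := hS i
    simp only [Pi.add_apply]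
    linarith
  have hex : ∀ x y : ℝ, ∃ k : ZMod n → ℝ,
      0 ≤ x → 0 ≤ y → Opt (dir n) (S + Pi.single s x + Pi.single t y) k := by
    intro x y
    by_cases hx : 0 ≤ x
    · by_cases hy : 0 ≤ y
      · obtain ⟨k, hk⟩ := exists_opt hu (hpos x y hx hy)
        exact ⟨k, fun _ _ => hk⟩
      · exact ⟨0, fun _ h => absurd h hy⟩
    · exact ⟨0, fun h => absurd h hx⟩
  choose k hk using hex
  have hsum : ∀ x x' y : ℝ, ∀ κ : ZMod n → ℝ,
      ∑ i, ((S + Pi.single s x' + Pi.single t y : ZMod n → ℝ) i -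
        (S + Pi.single s x + Pi.single t y : ZMod n → ℝ) i) * κ i =
        (x' - x) * κ s := by
    intro x x' y κ
    rw [Finset.sum_eq_single s]
    · simp only [Pi.add_apply, Pi.single_eq_same]
      ring
    · intro i _ hi
      simp only [Pi.add_apply, Pi.single_eq_of_ne hi]
      ring
    · intro h
      exact absurd (Finset.mem_univ s) h
  have hlow : ∀ x x' y : ℝ, 0 ≤ x → 0 ≤ x' → 0 ≤ y →
      Psi (dir n) (S + Pi.single s x + Pi.single t y) - (x' - x) * k x y s ≤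
        Psi (dir n) (S + Pi.single s x' + Pi.single t y) := by
    intro x x' y hx hx' hy
    have h := psi_lower hu (hk x y hx hy) (hpos x' y hx' hy)
    rwa [hsum] at h
  have hanti : ∀ x : ℝ, 0 ≤ x → x ≠ -(al n m s S) → k x b s ≤ k x 0 s := by
    intro x hx hx0
    have hst : s ≠ t := by
      intro h
      rw [ht] at h
      have h' : ((m : ℕ) : ZMod n) = 0 := by simpa using h.symm
      rw [ZMod.natCast_eq_zero_iff] at h'
      have := Nat.le_of_dvd hm h'
      omega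
    have hT : ∀ i, 0 < (S + Pi.single s x + Pi.single t (0 : ℝ) : ZMod n → ℝ) i := hpos x 0 hx le_rfl
    have hal : al n m s (S + Pi.single s x + Pi.single t (0 : ℝ)) ≠ 0 := by
      rw [Pi.single_zero, add_zero, C9a_al n hm hm2]
      intro h
      exact hx0 (by linarith)
    have e1 : Function.update (S + Pi.single s x + Pi.single t (0 : ℝ)) (s + (m : ℕ)) (S t) =
        S + Pi.single s x + Pi.single t (0 : ℝ) := by
      rw [← ht]
      funext i
      by_cases h : i = t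
      · subst h
        simp [Pi.single_eq_of_ne hst.symm]
      · simp [Function.update_of_ne h]
    have e2 : Function.update (S + Pi.single s x + Pi.single t (0 : ℝ)) (s + (m : ℕ)) (S t + b) =
        S + Pi.single s x + Pi.single t b := by
      rw [← ht]
      funext i
      by_cases h : i = t
      · subst h
        simp [Pi.single_eq_of_ne hst.symm]
      · simp [Function.update_of_ne h, Pi.single_eq_of_ne h]
    refine ks_anti hker n hn h3 hm hm2 s hT hal (hS t) (by linarith : S t ≤ S t + b)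
      (k1 := k x 0) (k2 := k x b) ?_ ?_
    · rw [e1]
      exact hk x 0 hx le_rfl
    · rw [e2]
      exact hk x b hx hb
  have fin := C9a_exc
    (D := fun x => Psi (dir n) (S + Pi.single s x + Pi.single t b) -
      Psi (dir n) (S + Pi.single s x + Pi.single t 0))
    (K := fun x => k x 0 s) (K' := fun x => k x b s) (x₀ := -(al n m s S)) ha
    (fun x y hx hxy hy => by
      have h1 := hlow x y b hx (hx.trans hxy) hb
      have h2 := hlow y x 0 (hx.trans hxy) hx le_rfl
      linarith)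
    (fun x hx _ hx0 => hanti x hx hx0)
  simp only [Pi.single_zero, add_zero] at fin
  linarith

theorem psi_super (hker : Ker) (n : ℕ) [NeZero n] (hn : Odd n) (h3 : 3 ≤ n) {S : ZMod n → ℝ} (hS : ∀ i, 0 < S i) (i j : ZMod n)
    (hij : i ≠ j) {a b : ℝ} (ha : 0 ≤ a) (hb : 0 ≤ b) :
    Psi (dir n) (S + Pi.single i a) + Psi (dir n) (S + Pi.single j b) ≤
      Psi (dir n) (S + Pi.single i a + Pi.single j b) + Psi (dir n) S := by
  have hne : (j - i).val ≠ 0 := by
    rw [Ne, ZMod.val_eq_zero]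
    exact sub_ne_zero.2 hij.symm
  have hlt : (j - i).val < n := ZMod.val_lt _
  obtain ⟨q, hq⟩ := hn
  by_cases h : 2 * (j - i).val < n
  · refine C9a_main hker n ⟨q, hq⟩ h3 hS (Nat.pos_of_ne_zero hne) h i j ?_ ha hb
    rw [ZMod.natCast_zmod_val]
    ring
  · have hval : (i - j).val = n - (j - i).val := by
      rw [← neg_sub j i]
      have : NeZero (j - i) := ⟨sub_ne_zero.2 hij.symm⟩
      exact ZMod.val_neg_of_ne_zero _
    have h' := C9a_main hker n ⟨q, hq⟩ h3 hS (m := (i - j).val) (by omega) (by omega) j i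
      (by rw [ZMod.natCast_zmod_val]; ring) hb ha
    rw [add_right_comm S (Pi.single i a) (Pi.single j b)]
    linarith

end Pool.Agent.Lib.MP_1dedaf_gt.LB
end
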