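import Pool.Agent.Lib.MP_1dedaf_gt.Mg.G052
import Pool.Agent.Lib.MP_1dedaf_gt.Mg.G051
import Pool.Agent.Lib.MP_1dedaf_gt.LB.E1a
import Pool.Agent.Lib.MP_1dedaf_gt.Mg.G053
import Pool.Agent.Lib.MP_1dedaf_gt.Mg.G055
import Pool.Agent.Lib.MP_1dedaf_gt.Mg.G057
import Pool.Agent.Lib.MP_1dedaf_gt.LB.E14a
import Pool.Agent.Lib.MP_1dedaf_gt.LB.D0
import Pool.Agent.Lib.MP_1dedaf_gt.LB.F0
import Pool.Agent.Lib.MP_1dedaf_gt.Mg.G046
import Pool.Agent.Lib.MP_1dedaf_gt.Mg.G056
import Pool.Agent.Lib.MP_1dedaf_gt.Mg.G054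
import Pool.Agent.Lib.MP_1dedaf_gt.LB.E14c
import Pool.Agent.Lib.MP_1dedaf_gt.LB.E15a
import Pool.Agent.Lib.MP_1dedaf_gt.LB.E15b

section

/-!
# TASK LB E14b: the second body has the same normals

Proof. `ψ u = (1 - <u,v>²)(1 - <u,w>²) ≥ 0` for unit `u`, with `ψ u = 0` iff `u ∈ {v, -v, w, -w}` (equality in Cauchy-Schwarz). `EE K ψ = 0`, so `EE C ψ = 0` (`lawC`), so `ψ(nu C x) = 0` for almost every `x ∈ C`; `ae_of_ae_body`.
(`par_both`) `par_of_normals` for `K` and `C`.
-/

set_option autoImplicit false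

open MeasureTheory Set Filter Topology

namespace Pool.Agent.Lib.MP_1dedaf_gt.LB

private theorem E14b_unit {u v : E2} (hu : ‖u‖ = 1) (hv : ‖v‖ = 1) (h : 1 - inner ℝ u v ^ 2 = 0) :
    u = v ∨ u = -v := by
  have h1 : (inner ℝ u v - 1) * (inner ℝ u v + 1) = 0 := by ring_nf; linarith
  rcases mul_eq_zero.mp h1 with h2 | h2
  · left
    have h3 : ‖u - v‖ ^ 2 = 0 := by
      rw [norm_sub_sq_real, hu, hv]
      linarith
    exact sub_eq_zero.mp (norm_eq_zero.mp (pow_eq_zero_iff two_ne_zero |>.mp h3))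
  · right
    have h3 : ‖u + v‖ ^ 2 = 0 := by
      rw [norm_add_sq_real, hu, hv]
      linarith
    exact eq_neg_of_add_eq_zero_left (norm_eq_zero.mp (pow_eq_zero_iff two_ne_zero |>.mp h3))

private theorem E14b_sq_le {u v : E2} (hu : ‖u‖ ≤ 1) (hv : ‖v‖ = 1) : 0 ≤ 1 - inner ℝ u v ^ 2 := by
  have h1 : |inner ℝ u v| ≤ 1 := by
    refine (abs_real_inner_le_norm u v).trans ?_
    rw [hv, mul_one]
    exact hu
  have h2 := sq_le_one_iff_abs_le_one (inner ℝ u v : ℝ) |>.mpr h1
  linarith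

theorem normals_C {t : ℝ} {K C : Set E2} (h : EqCase t K C) {v w : E2} (hv : ‖v‖ = 1) (hw : ‖w‖ = 1)
    (hn : ∀ᵐ x ∂(volume : Measure E2), nu K x = v ∨ nu K x = -v ∨ nu K x = w ∨ nu K x = -w) :
    ∀ᵐ x ∂(volume : Measure E2), nu C x = v ∨ nu C x = -v ∨ nu C x = w ∨ nu C x = -w := by
  set ψ : E2 → ℝ := fun u => (1 - inner ℝ u v ^ 2) * (1 - inner ℝ u w ^ 2) with hψ
  have hcont : Continuous ψ := by
    rw [hψ]
    exact (continuous_const.sub ((continuous_id.inner continuous_const).pow 2)).mul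
      (continuous_const.sub ((continuous_id.inner continuous_const).pow 2))
  have hvv : inner ℝ v v = (1 : ℝ) := by rw [real_inner_self_eq_norm_sq, hv]; norm_num
  have hww : inner ℝ w w = (1 : ℝ) := by rw [real_inner_self_eq_norm_sq, hw]; norm_num
  have hK : EE K ψ = 0 := by
    have h1 : ∫ x in K, ψ (nu K x) = 0 := by
      refine integral_eq_zero_of_ae ?_
      filter_upwards [ae_restrict_of_ae hn] with x hx
      show ψ (nu K x) = 0
      rw [hψ]
      show (1 - inner ℝ (nu K x) v ^ 2) * (1 - inner ℝ (nu K x) w ^ 2) = 0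
      rcases hx with hx | hx | hx | hx
      · rw [hx, hvv]; ring
      · rw [hx, inner_neg_left, hvv]; ring
      · rw [hx, hww]; ring
      · rw [hx, inner_neg_left, inner_neg_left, hww]; ring
    rw [EE, h1, zero_div]
  have hC : EE C ψ = 0 := by rw [h.lawC ψ hcont.continuousOn, hK]
  have hpos : ar C ≠ 0 := (ar_pos h.bC).ne'
  have hint : ∫ x in C, ψ (nu C x) = 0 := by
    rw [EE] at hC
    exact (div_eq_zero_iff.mp hC).resolve_right hpos
  have hnn : ∀ x, 0 ≤ ψ (nu C x) := by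
    intro x
    rw [hψ]
    exact mul_nonneg (E14b_sq_le (nu_norm_le C x) hv) (E14b_sq_le (nu_norm_le C x) hw)
  have hI : IntegrableOn (fun x => ψ (nu C x)) C := int_nu h.bC hcont.continuousOn
  have hae : (fun x => ψ (nu C x)) =ᵐ[volume.restrict C] 0 :=
    (integral_eq_zero_iff_of_nonneg_ae (Eventually.of_forall hnn) hI).mp hint
  refine ae_of_ae_body h.bC C (P := fun u => u = v ∨ u = -v ∨ u = w ∨ u = -w) ?_
  filter_upwards [hae, ae_restrict_of_ae (good_ae h.bC)] with x hx hg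
  have hnorm : ‖nu C x‖ = 1 := nu_norm h.bC hg
  have hx' : (1 - inner ℝ (nu C x) v ^ 2) * (1 - inner ℝ (nu C x) w ^ 2) = 0 := hx
  rcases mul_eq_zero.mp hx' with h1 | h1
  · rcases E14b_unit hnorm hv h1 with h2 | h2
    · exact Or.inl h2
    · exact Or.inr (Or.inl h2)
  · rcases E14b_unit hnorm hw h1 with h2 | h2
    · exact Or.inr (Or.inr (Or.inl h2))
    · exact Or.inr (Or.inr (Or.inr h2))

theorem par_both {t : ℝ} (ht0 : 0 < t) (ht1 : t < 1) {K C : Set E2} (h : EqCase t K C) (h0 : ∫ x in K, x = 0) (h0' : ∫ x in C, x = 0)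
    {γ : ℝ} (hγ : 0 < γ) (hy : ∀ᵐ x ∂(volume : Measure E2), |yy K C (nu K x)| = γ) :
    ∃ v w : E2, inner ℝ v (rot w) ≠ 0 ∧ ∃ a b a' b' : ℝ, 0 < a ∧ 0 < b ∧ 0 < a' ∧ 0 < b' ∧ K = par v w a b ∧ C = par v w a' b' := by
  obtain ⟨v, w, hv, hw, hn⟩ := four_normals ht0 ht1 h hγ hy
  obtain ⟨h1, a, b, ha, hb, hK⟩ := par_of_normals h.bK h0 hv hw hn
  obtain ⟨-, a', b', ha', hb', hC⟩ := par_of_normals h.bC h0' hv hw (normals_C h hv hw hn)
  exact ⟨v, w, h1, a, b, a', b', ha, hb, ha', hb', hK, hC⟩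

end Pool.Agent.Lib.MP_1dedaf_gt.LB
end

section

/-!
# TASK LB E16: the planar theorem with the equality cases, from Theorem A

Proof. `body_of_centroid`: bodies. Inequality: `hA` with `mK = log (ar K)`, `mC = log (ar C)` (`jensen_area`), exponentiate (`hineq`). Dec ⇒ equality: `dec_cases` and `ar_LC_smul`, or `ar_LC_par` together with the inequality. Equality ⇒ Dec: `r = √(ar K/ar C)`, `C' = r • C`: body, centroid `0`,
`ar C' = ar K`, `LC t K C' = r^t • LC t K C` (`LC_scale`) has area `r^(2t) (ar K)^(1-t) (ar C)^t = ar K`, so `EqCase t K C'` by `eqCase`. `abs_y`: if `γ = 0` then `K = C'` (`eq_of_y_zero`), `Dec K (1 • K)` (`dec_smul`); if `γ > 0` `par_both` and `dec_par`. In both cases `Dec K (r • C)`, so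
`Dec K C` (`dec_scale`).
-/

set_option autoImplicit false

open MeasureTheory Set Filter Topology

namespace Pool.Agent.Lib.MP_1dedaf_gt.LB

open scoped Pointwise

theorem planar_full {t : ℝ} (ht0 : 0 < t) (ht1 : t < 1) (hA : ThmA t) {K C : Set E2} (hc : Convex ℝ K) (hK : IsCompact K)
    (hi : (interior K).Nonempty) (h0 : (∫ x in K, x ∂volume) = 0) (hc' : Convex ℝ C) (hC : IsCompact C) (hi' : (interior C).Nonempty)
    (h0' : (∫ x in C, x ∂volume) = 0) :
    ar K ^ (1 - t) * ar C ^ t ≤ ar (LC t K C) ∧ (ar (LC t K C) = ar K ^ (1 - t) * ar C ^ t ↔ Dec K C) := by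
  have bK : Body K := body_of_centroid hc hK hi h0
  have bC : Body C := body_of_centroid hc' hC hi' h0'
  have pK := ar_pos bK
  have pC := ar_pos bC
  have bL : Body (LC t K C) := LC_body bK bC
  have pL := ar_pos bL
  have hineq : ar K ^ (1 - t) * ar C ^ t ≤ ar (LC t K C) := by
    have h1 := hA K C bK bC (Real.log (ar K)) (Real.log (ar C))
      (fun c => Real.log_le_log pK (jensen_area bK h0 c))
      (fun c => Real.log_le_log pC (jensen_area bC h0' c))
    rw [Real.rpow_def_of_pos pK, Real.rpow_def_of_pos pC, ← Real.exp_add]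
    rw [← Real.exp_log pL]
    exact Real.exp_le_exp.2 (by linarith)
  refine ⟨hineq, ?_, ?_⟩
  · intro heq
    have hq : 0 < ar K / ar C := div_pos pK pC
    set r : ℝ := Real.sqrt (ar K / ar C) with hr
    have hr0 : 0 < r := Real.sqrt_pos.2 hq
    have hr2 : r ^ 2 = ar K / ar C := Real.sq_sqrt hq.le
    have bC' : Body (r • C) := (smul_body bC hr0).1
    have har : ar (r • C) = ar K := by
      rw [ar_smul hr0.le, hr2, div_mul_cancel₀ _ pC.ne']
    have hcen : ∫ x in r • C, x = 0 := by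
      have h1 := MeasureTheory.Measure.setIntegral_comp_smul (volume : Measure E2) (fun x : E2 => x) C
        (R := r) hr0.ne'
      have h2 : ∫ x in C, r • x = 0 := by
        rw [integral_smul, h0', smul_zero]
      rw [h2] at h1
      have h3 := h1.symm
      rw [smul_eq_zero] at h3
      rcases h3 with h3 | h3
      · exfalso
        rw [abs_eq_zero, inv_eq_zero] at h3
        exact (pow_pos hr0 _).ne' h3
      · exact h3
    have harL : ar (LC t K (r • C)) = ar K := by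
      rw [LC_scale ht0 ht1 bK bC hr0, ar_smul (Real.rpow_nonneg hr0.le t), heq]
      have h1 : (r ^ t) ^ 2 = (ar K / ar C) ^ t := by
        rw [← hr2, ← Real.rpow_natCast (r ^ t) 2, ← Real.rpow_natCast r 2, ← Real.rpow_mul hr0.le,
          ← Real.rpow_mul hr0.le, mul_comm t]
      rw [h1, Real.div_rpow pK.le pC.le]
      have h2 : ar C ^ t ≠ 0 := (Real.rpow_pos_of_pos pC t).ne'
      have h3 : ar K ^ t * ar K ^ (1 - t) = ar K := by
        rw [← Real.rpow_add pK]
        simp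
      calc ar K ^ t / ar C ^ t * (ar K ^ (1 - t) * ar C ^ t)
          = (ar K ^ t * ar K ^ (1 - t)) * (ar C ^ t / ar C ^ t) := by ring
        _ = ar K := by rw [h3, div_self h2, mul_one]
    have hcase : EqCase t K (r • C) := by
      refine eqCase ht0 ht1 hA bK bC' h0 hcen har ?_
      rw [harL, har]
      ring
    refine dec_scale hr0 ?_
    obtain ⟨γ, hγ, hy⟩ := abs_y ht0 ht1 hcase
    rcases hγ.eq_or_lt with h | h
    · rw [← h] at hy
      have h1 := eq_of_y_zero hcase hy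
      have h2 := dec_smul bK one_pos
      rw [one_smul] at h2
      rw [← h1]
      exact h2
    · obtain ⟨v, w, hvw, a, b, a', b', ha, hb, ha', hb', h1, h2⟩ := par_both ht0 ht1 hcase h0 hcen h hy
      rw [h1, h2]
      exact dec_par hvw ha hb ha' hb'
  · intro hd
    rcases dec_cases bK bC h0 h0' hd with ⟨r, hr, h1⟩ | ⟨v, w, hvw, a, b, a', b', ha, hb, ha', hb', h1, h2⟩
    · rw [h1]
      exact ar_LC_smul ht0 ht1 bK hr
    · refine le_antisymm ?_ hineq
      rw [h1, h2]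
      exact ar_LC_par ht0 ht1 hvw ha hb ha' hb' (h1 ▸ bK) (h2 ▸ bC)

end Pool.Agent.Lib.MP_1dedaf_gt.LB
end
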