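import Pool.Agent.Lib.MP_1dedaf_gt.Mg.G001
import Pool.Agent.Lib.MP_1dedaf_gt.Mg.G051
import Pool.Agent.Lib.MP_1dedaf_gt.Mg.G009
import Pool.Agent.Lib.MP_1dedaf_gt.LB.A5
import Pool.Agent.Lib.MP_1dedaf_gt.LB.A7
import Pool.Agent.Lib.MP_1dedaf_gt.LB.A8a
import Pool.Agent.Lib.MP_1dedaf_gt.LB.A9a
import Pool.Agent.Lib.MP_1dedaf_gt.LB.D0
import Pool.Agent.Lib.MP_1dedaf_gt.Mg.G007
import Pool.Agent.Lib.MP_1dedaf_gt.LB.D2

section

/-!
# TASK LB A9: the log-Minkowski inequality against polygons

Proof. `I = Z u k θ > 0` (Fat: `0` is interior), `S i = sg i / I ≥ 0`, `μ i = k i S i ≥ 0`, `h i = hs K (u i) > 0`. By `sg_sum`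
`th u S = θ`, so `Opt u S k`; by `opt_sum` `∑ μ i = 2`; `G u k S = log I - 2`. Let `η > 0`; `S' i = μ i / h i` if `S i > 0`, `S' i = η` otherwise.
`psi_log_tangent`: `Psi u S' ≤ log I - 2 + ∑ μ i log (h i / k i)` (`S i / S' i = h i / k i` if `S i > 0`; otherwise both terms vanish).
`K ⊆ Q u h` and `Psi u S' ≥ G u h S' ≥ log ∫_K exp <th u S', x> - ∑ S' i h i ≥ m - 2 - η ∑ h i` (`le_psi`, `hm`; `h` is Fat).
So `m ≤ log I + ∑ μ i log (h i / k i) + η ∑ h i` for all `η > 0`.
-/

set_option autoImplicit false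

open MeasureTheory Set Filter Topology

namespace Pool.Agent.Lib.MP_1dedaf_gt.LB

variable {ι : Type} [Fintype ι]

theorem LM {u : ι → E2} (hu : Adm u) (hL : ConcaveOn ℝ univ (fun s : ι → ℝ => Psi u (fun i => Real.exp (s i))))
    {k : ι → ℝ} (hk : ∀ i, 0 < k i) {θ : E2} (hθ : ∫ x in Q u k, Real.exp (inner ℝ θ x) • x = 0)
    {K : Set E2} (hK : Body K) {m : ℝ} (hm : ∀ c : E2, m ≤ Real.log (∫ x in K, Real.exp (inner ℝ c x))) :
    m ≤ Real.log (Z u k θ) + ∑ i, k i * sg u k θ i / Z u k θ * Real.log (hs K (u i) / k i) := by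
  have hfat : Fat u k := ⟨0, fun i => by rw [inner_zero_left]; exact hk i⟩
  have hI := Z_pos hu hfat θ
  obtain ⟨I, hIdef⟩ : ∃ I, I = Z u k θ := ⟨_, rfl⟩
  rw [← hIdef] at hI ⊢
  obtain ⟨S, hS⟩ : ∃ S : ι → ℝ, S = fun i => sg u k θ i / I := ⟨_, rfl⟩
  have hS0 : ∀ i, 0 ≤ S i := fun i => by rw [hS]; exact div_nonneg (sg_nonneg u k θ i) hI.le
  have hth : th u S = θ := by
    unfold th
    have h1 := sg_sum hu hfat θ
    rw [← hIdef] at h1
    have h2 : ∑ i, S i • u i = (1 / I) • ∑ i, sg u k θ i • u i := by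
      rw [Finset.smul_sum]
      refine Finset.sum_congr rfl fun i _ => ?_
      rw [hS, smul_smul]
      congr 1
      ring
    rw [h2, h1, smul_smul]
    have h3 : 1 / I * I = 1 := by field_simp
    rw [h3, one_smul]
  have hO : Opt u S k := by
    refine ⟨hfat, ?_, ?_⟩
    · intro i
      rw [hth, ← hIdef, hS]
      field_simp
    · rw [hth]; exact hθ
  have hsum := opt_sum hu hO
  have hh : ∀ i, 0 < hs K (u i) := by
    intro i
    apply hs_pos hK
    intro h0
    have h1 := hu.unit i
    rw [h0, norm_zero] at h1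
    exact zero_ne_one h1
  obtain ⟨h, hhd⟩ : ∃ h : ι → ℝ, h = fun i => hs K (u i) := ⟨_, rfl⟩
  have hh' : ∀ i, 0 < h i := fun i => by rw [hhd]; exact hh i
  have hH0 : 0 ≤ ∑ i, h i := Finset.sum_nonneg fun i _ => (hh' i).le
  have hKQ : K ⊆ Q u h := by
    intro x hx i
    rw [hhd]
    exact inner_le_hs hK.comp hx (u i)
  have hfath : Fat u h := ⟨0, fun i => by rw [inner_zero_left]; exact hh' i⟩
  have hvol : 0 < volume K := (ENNReal.toReal_pos_iff.1 (ar_pos hK)).1
  have key : ∀ η : ℝ, 0 < η → m ≤ Real.log I + ∑ i, k i * S i * Real.log (h i / k i) + η * ∑ i, h i := by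
    intro η hη
    obtain ⟨S', hS'⟩ : ∃ S' : ι → ℝ, S' = fun i => if 0 < S i then k i * S i / h i else η := ⟨_, rfl⟩
    have hS'0 : ∀ i, 0 < S' i := by
      intro i
      rw [hS']
      show 0 < if 0 < S i then k i * S i / h i else η
      split_ifs with hi
      · exact div_pos (mul_pos (hk i) hi) (hh' i)
      · exact hη
    have a1 := psi_log_tangent hu hL hO hS0 hS'0
    have a2 := le_psi hu hS'0 hfath
    have a3 : ∀ i, S i * k i * Real.log (S i / S' i) = k i * S i * Real.log (h i / k i) := by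
      intro i
      rw [hS']
      show S i * k i * Real.log (S i / if 0 < S i then k i * S i / h i else η) = _
      split_ifs with hi
      · have e : S i / (k i * S i / h i) = h i / k i := by
          have := (hk i).ne'
          have := (hh' i).ne'
          have := hi.ne'
          field_simp
        rw [e]; ring
      · have e : S i = 0 := le_antisymm (not_lt.1 hi) (hS0 i)
        rw [e]; ring
    have a4 : ∀ i, S' i * h i ≤ k i * S i + η * h i := by
      intro i
      rw [hS']
      show (if 0 < S i then k i * S i / h i else η) * h i ≤ _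
      have p1 := (hh' i)
      have p2 := mul_pos hη p1
      have p3 := mul_nonneg (hk i).le (hS0 i)
      split_ifs with hi
      · have e : k i * S i / h i * h i = k i * S i := by field_simp
        rw [e]; linarith
      · linarith
    have a5 : ∑ i, S' i * h i ≤ 2 + η * ∑ i, h i := by
      calc ∑ i, S' i * h i ≤ ∑ i, (k i * S i + η * h i) := Finset.sum_le_sum fun i _ => a4 i
        _ = ∑ i, S i * k i + η * ∑ i, h i := by
            rw [Finset.sum_add_distrib, Finset.mul_sum]
            congr 1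
            exact Finset.sum_congr rfl fun i _ => mul_comm _ _
        _ = _ := by rw [hsum]
    rw [Finset.sum_congr rfl (fun i _ => a3 i)] at a1
    unfold G at a1 a2
    rw [hth, ← hIdef, hsum] at a1
    have a6 : Real.log (∫ x in K, Real.exp (inner ℝ (th u S') x)) ≤ Real.log (Z u h (th u S')) := by
      apply Real.log_le_log
      · rw [setIntegral_pos_iff_support_of_nonneg_ae (Eventually.of_forall fun x => (Real.exp_pos _).le)
          ((Z_integrable hu h (th u S')).mono_set hKQ)]
        have : Function.support (fun x : E2 => Real.exp (inner ℝ (th u S') x)) = univ := by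
          ext x
          simp [(Real.exp_pos _).ne']
        rw [this, univ_inter]
        exact hvol
      · exact setIntegral_mono_set (Z_integrable hu h (th u S'))
          (Eventually.of_forall fun x => (Real.exp_pos _).le) (Eventually.of_forall hKQ)
    have a7 := hm (th u S')
    linarith
  have hgoal : ∑ i, k i * sg u k θ i / I * Real.log (hs K (u i) / k i) = ∑ i, k i * S i * Real.log (h i / k i) := by
    refine Finset.sum_congr rfl fun i _ => ?_
    rw [hS, hhd]
    show k i * sg u k θ i / I * Real.log (hs K (u i) / k i) = k i * (sg u k θ i / I) * Real.log (hs K (u i) / k i)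
    ring
  rw [hgoal]
  apply le_of_forall_pos_le_add
  intro ε hε
  have hH1 : 0 < ∑ i, h i + 1 := by linarith
  refine (key (ε / (∑ i, h i + 1)) (div_pos hε hH1)).trans ?_
  have : ε / (∑ i, h i + 1) * ∑ i, h i ≤ ε := by
    rw [div_mul_eq_mul_div, div_le_iff₀ hH1]
    nlinarith
  linarith

end Pool.Agent.Lib.MP_1dedaf_gt.LB
end

section

/-!
# TASK LB D1: the inequality for finitely many directions

Proof. `k i = hs K (u i)^(1-t) * hs C (u i)^t > 0`. `Q u k` is a body (`Q_compact`, `Q_convex`, `0` is interior as all `k i > 0`).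
`exists_tilt` gives `θ`; `LM` for `K` (with `mK`) times `1 - t` plus `LM` for `C` times `t`: the sum of the logarithms is
`(1-t) log (hs K (u i)/k i) + t log (hs C (u i)/k i) = 0`. So `(1-t) mK + t mC ≤ log (Z u k θ) ≤ log (ar (Q u k))` (`tilt_le`).
-/

set_option autoImplicit false

open MeasureTheory Set Filter Topology

namespace Pool.Agent.Lib.MP_1dedaf_gt.LB

variable {ι : Type} [Fintype ι]

theorem poly_ineq {u : ι → E2} (hu : Adm u)
    (hL : ConcaveOn ℝ univ (fun s : ι → ℝ => Psi u (fun i => Real.exp (s i))))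
    {K C : Set E2} (hK : Body K) (hC : Body C) {t : ℝ} (ht0 : 0 < t) (ht1 : t < 1) {mK mC : ℝ}
    (hmK : ∀ c : E2, mK ≤ Real.log (∫ x in K, Real.exp (inner ℝ c x)))
    (hmC : ∀ c : E2, mC ≤ Real.log (∫ x in C, Real.exp (inner ℝ c x))) :
    (1 - t) * mK + t * mC ≤ Real.log (ar (Q u (fun i => hs K (u i) ^ (1 - t) * hs C (u i) ^ t))) := by
  have hne : ∀ i, u i ≠ 0 := fun i h => by
    have h1 := hu.unit i
    rw [h, norm_zero] at h1
    exact zero_ne_one h1
  have hKp : ∀ i, 0 < hs K (u i) := fun i => hs_pos hK (hne i)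
  have hCp : ∀ i, 0 < hs C (u i) := fun i => hs_pos hC (hne i)
  set k : ι → ℝ := fun i => hs K (u i) ^ (1 - t) * hs C (u i) ^ t with hk
  have hkp : ∀ i, 0 < k i := fun i =>
    mul_pos (Real.rpow_pos_of_pos (hKp i) _) (Real.rpow_pos_of_pos (hCp i) _)
  have hfat : Fat u k := ⟨0, fun i => by rw [inner_zero_left]; exact hkp i⟩
  have hopen : IsOpen {x : E2 | ∀ i, inner ℝ x (u i) < k i} := by
    rw [Set.ofPred_forall]
    exact isOpen_iInter_of_finite fun i =>
      isOpen_lt (continuous_id.inner continuous_const) continuous_const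
  have hsub : {x : E2 | ∀ i, inner ℝ x (u i) < k i} ⊆ Q u k := fun x hx i => (hx i).le
  have hbody : Body (Q u k) := by
    refine ⟨Q_convex u k, Q_compact hu k, interior_maximal hsub hopen ?_⟩
    intro i
    rw [inner_zero_left]
    exact hkp i
  obtain ⟨θ, hθ⟩ := exists_tilt hbody
  have h1 := LM hu hL hkp hθ hK hmK
  have h2 := LM hu hL hkp hθ hC hmC
  have hZ : 0 < Z u k θ := Z_pos hu hfat θ
  have hle : Z u k θ ≤ ar (Q u k) := tilt_le hbody hθ
  have hlog : Real.log (Z u k θ) ≤ Real.log (ar (Q u k)) := Real.log_le_log hZ hle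
  have hterm : ∀ i, (1 - t) * Real.log (hs K (u i) / k i) + t * Real.log (hs C (u i) / k i) = 0 := by
    intro i
    rw [Real.log_div (hKp i).ne' (hkp i).ne', Real.log_div (hCp i).ne' (hkp i).ne']
    have e : Real.log (k i) = (1 - t) * Real.log (hs K (u i)) + t * Real.log (hs C (u i)) := by
      rw [hk]
      simp only
      rw [Real.log_mul (Real.rpow_pos_of_pos (hKp i) _).ne' (Real.rpow_pos_of_pos (hCp i) _).ne',
        Real.log_rpow (hKp i), Real.log_rpow (hCp i)]
    rw [e]
    ring
  have hsum : (1 - t) * (∑ i, k i * sg u k θ i / Z u k θ * Real.log (hs K (u i) / k i)) +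
      t * (∑ i, k i * sg u k θ i / Z u k θ * Real.log (hs C (u i) / k i)) = 0 := by
    rw [Finset.mul_sum, Finset.mul_sum, ← Finset.sum_add_distrib]
    refine Finset.sum_eq_zero fun i _ => ?_
    have := hterm i
    calc (1 - t) * (k i * sg u k θ i / Z u k θ * Real.log (hs K (u i) / k i)) +
        t * (k i * sg u k θ i / Z u k θ * Real.log (hs C (u i) / k i))
        = k i * sg u k θ i / Z u k θ * ((1 - t) * Real.log (hs K (u i) / k i) +
          t * Real.log (hs C (u i) / k i)) := by ring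
      _ = 0 := by rw [this, mul_zero]
  have h1' := mul_le_mul_of_nonneg_left h1 (sub_nonneg.2 ht1.le)
  have h2' := mul_le_mul_of_nonneg_left h2 ht0.le
  have h3 : (1 - t) * mK + t * mC ≤ Real.log (Z u k θ) := by
    calc (1 - t) * mK + t * mC
        ≤ (1 - t) * (Real.log (Z u k θ) +
            ∑ i, k i * sg u k θ i / Z u k θ * Real.log (hs K (u i) / k i)) +
          t * (Real.log (Z u k θ) +
            ∑ i, k i * sg u k θ i / Z u k θ * Real.log (hs C (u i) / k i)) := add_le_add h1' h2'
      _ = Real.log (Z u k θ) + ((1 - t) * (∑ i, k i * sg u k θ i / Z u k θ *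
            Real.log (hs K (u i) / k i)) +
          t * (∑ i, k i * sg u k θ i / Z u k θ * Real.log (hs C (u i) / k i))) := by ring
      _ = Real.log (Z u k θ) := by rw [hsum, add_zero]
  exact h3.trans hlog

end Pool.Agent.Lib.MP_1dedaf_gt.LB
end

section

/-!
# TASK LB D3: Theorem A: the inequality for bodies, from the concavity of Psi

Proof. `poly_ineq` for `u = dir (3^(j+1))` (`dir_adm`) and `ar_tendsto` with `f u = hs K u^(1-t) * hs C u^t` (continuous and positive
on the circle: `hs_cont`, `hs_pos`), `log` is continuous at `ar (Wu f) > 0`; limits preserve `≤`.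
-/

set_option autoImplicit false

open MeasureTheory Set Filter Topology

namespace Pool.Agent.Lib.MP_1dedaf_gt.LB

theorem thmA (hL : ∀ j : ℕ, ConcaveOn ℝ univ
      (fun s : ZMod (3 ^ (j + 1)) → ℝ => Psi (dir (3 ^ (j + 1))) (fun i => Real.exp (s i))))
    {K C : Set E2} (hK : Body K) (hC : Body C) {t : ℝ} (ht0 : 0 < t) (ht1 : t < 1) {mK mC : ℝ}
    (hmK : ∀ c : E2, mK ≤ Real.log (∫ x in K, Real.exp (inner ℝ c x)))
    (hmC : ∀ c : E2, mC ≤ Real.log (∫ x in C, Real.exp (inner ℝ c x))) :
    (1 - t) * mK + t * mC ≤ Real.log (ar (Wu (fun u => hs K u ^ (1 - t) * hs C u ^ t))) := by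
  have hne : ∀ u : E2, ‖u‖ = 1 → u ≠ 0 := by
    intro u hu h0
    rw [h0, norm_zero] at hu
    exact zero_ne_one hu
  have hfp : ∀ u : E2, ‖u‖ = 1 → 0 < hs K u ^ (1 - t) * hs C u ^ t := fun u hu =>
    mul_pos (Real.rpow_pos_of_pos (hs_pos hK (hne u hu)) _)
      (Real.rpow_pos_of_pos (hs_pos hC (hne u hu)) _)
  have hfc : ContinuousOn (fun u => hs K u ^ (1 - t) * hs C u ^ t) (Metric.sphere 0 1) := by
    refine ContinuousOn.mul ?_ ?_
    · exact (hs_cont hK).continuousOn.rpow_const fun u hu =>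
        Or.inl (hs_pos hK (hne u (mem_sphere_zero_iff_norm.1 hu))).ne'
    · exact (hs_cont hC).continuousOn.rpow_const fun u hu =>
        Or.inl (hs_pos hC (hne u (mem_sphere_zero_iff_norm.1 hu))).ne'
  have hb : Body (Wu (fun u => hs K u ^ (1 - t) * hs C u ^ t)) := Wu_body hfc hfp
  have h1 := ar_tendsto hfc
  have h2 := (Real.continuousAt_log (ar_pos hb).ne').tendsto.comp h1
  refine ge_of_tendsto h2 (Eventually.of_forall fun j => ?_)
  exact poly_ineq (dir_adm (3 ^ (j + 1)) (Odd.pow (by decide))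
    (by rw [pow_succ]; have := Nat.one_le_pow j 3 (by norm_num); omega)) (hL j) hK hC ht0 ht1 hmK hmC

end Pool.Agent.Lib.MP_1dedaf_gt.LB
end
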