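import Pool.Agent.Lib.MP_1dedaf_gt.Mg.G001
import Pool.Agent.Lib.MP_1dedaf_gt.LB.A8a
import Pool.Agent.Lib.MP_1dedaf_gt.LB.A8
import Pool.Agent.Lib.MP_1dedaf_gt.LB.B1
import Pool.Agent.Lib.MP_1dedaf_gt.Mg.G007
import Pool.Agent.Lib.MP_1dedaf_gt.Mg.G057
import Pool.Agent.Lib.MP_1dedaf_gt.Mg.G051
import Pool.Agent.Lib.MP_1dedaf_gt.LB.D0
import Pool.Agent.Lib.MP_1dedaf_gt.Mg.G060
import Pool.Agent.Lib.MP_1dedaf_gt.LB.F0

section

/-!
# TASK LB C9: the concavity of Psi

Proof. `lconcave` for `L s = Psi (exp s)`: `hc` = `psi_cont`; `ht` with `c = -2` = `psi_smul` (`exp (s i + r) = exp r exp (s i)`); `hp`: `exp (s i + a) =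
exp (s i) + (exp a - 1) exp (s i)`, so `psi_super` with `S = exp s`.
-/

set_option autoImplicit false

open MeasureTheory Set Filter Topology

namespace Pool.Agent.Lib.MP_1dedaf_gt.LB

theorem exp_add_single {ι : Type} [DecidableEq ι] (s : ι → ℝ) (i : ι) (a : ℝ) :
    (fun j => Real.exp ((s + Pi.single i a : ι → ℝ) j)) =
      (fun j => Real.exp (s j)) + Pi.single i ((Real.exp a - 1) * Real.exp (s i)) := by
  funext j
  by_cases h : j = i
  · subst h
    simp only [Pi.add_apply, Pi.single_eq_same, Real.exp_add]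
    ring
  · simp only [Pi.add_apply, Pi.single_eq_of_ne h, add_zero]

theorem psi_concave (hker : Ker) (n : ℕ) [NeZero n] (hn : Odd n) (h3 : 3 ≤ n) :
    ConcaveOn ℝ univ (fun s : ZMod n → ℝ => Psi (dir n) (fun i => Real.exp (s i))) := by
  have hu : Adm (dir n) := dir_adm n hn h3
  refine lconcave (psi_cont hu) (-2) ?_ ?_
  · intro s r
    have h := psi_smul hu (S := fun i => Real.exp (s i)) (fun i => Real.exp_pos _) (Real.exp_pos r)
    have h2 : (fun i => Real.exp (s i + r)) = fun i => Real.exp r * Real.exp (s i) := by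
      funext i
      rw [Real.exp_add, mul_comm]
    beta_reduce
    rw [h2, h, Real.log_exp]
    ring
  · intro s i j hij a b ha hb
    have ha' : 0 ≤ (Real.exp a - 1) * Real.exp (s i) :=
      mul_nonneg (sub_nonneg.2 (Real.one_le_exp ha)) (Real.exp_pos _).le
    have hb' : 0 ≤ (Real.exp b - 1) * Real.exp (s j) :=
      mul_nonneg (sub_nonneg.2 (Real.one_le_exp hb)) (Real.exp_pos _).le
    have h := psi_super hker n hn h3 (S := fun i => Real.exp (s i)) (fun i => Real.exp_pos _) i j hij ha' hb'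
    have e1 := exp_add_single s i a
    have e2 := exp_add_single s j b
    have e3 := exp_add_single (s + Pi.single i a) j b
    rw [e1] at e3
    have e4 : (s + Pi.single i a : ZMod n → ℝ) j = s j := by
      rw [Pi.add_apply, Pi.single_eq_of_ne (Ne.symm hij), add_zero]
    rw [e4] at e3
    rw [e1, e2, e3]
    exact h

end Pool.Agent.Lib.MP_1dedaf_gt.LB
end

section

/-!
# TASK LB F1: the planar logarithmic Brunn-Minkowski inequality, from the kernel inequality

Proof. `body_of_centroid`; `thmA` with `hL` from `psi_concave` (`3^(j+1)` is odd and `≥ 3`), `mK = log (ar K)`, `mC = log (ar C)`: `log (ar K) ≤ log ∫_K exp <c,x>`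
by `jensen_area`. Exponentiate: `(ar K)^(1-t) (ar C)^t = exp ((1-t) log ar K + t log ar C) ≤ ar (Wu ..)`. The general version `thmA'` is `thmA` with the
hypothesis discharged.
-/

set_option autoImplicit false

open MeasureTheory Set Filter Topology

namespace Pool.Agent.Lib.MP_1dedaf_gt.LB

theorem thmA' (hker : Ker) {K C : Set E2} (hK : Body K) (hC : Body C) {t : ℝ} (ht0 : 0 < t) (ht1 : t < 1) {mK mC : ℝ}
    (hmK : ∀ c : E2, mK ≤ Real.log (∫ x in K, Real.exp (inner ℝ c x)))
    (hmC : ∀ c : E2, mC ≤ Real.log (∫ x in C, Real.exp (inner ℝ c x))) :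
    (1 - t) * mK + t * mC ≤ Real.log (ar (Wu (fun u => hs K u ^ (1 - t) * hs C u ^ t))) := by
  refine thmA ?_ hK hC ht0 ht1 hmK hmC
  intro j
  refine psi_concave hker (3 ^ (j + 1)) ?_ ?_
  · exact Odd.pow (by decide)
  · calc 3 = 3 ^ 1 := by norm_num
      _ ≤ 3 ^ (j + 1) := Nat.pow_le_pow_right (by norm_num) (by omega)

theorem planar_ineq (hker : Ker) {K C : Set E2} (hK : Body K) (hC : Body C) (h0 : ∫ x in K, x = 0) (h0' : ∫ x in C, x = 0)
    {t : ℝ} (ht0 : 0 < t) (ht1 : t < 1) :
    ar K ^ (1 - t) * ar C ^ t ≤ ar (Wu (fun u => hs K u ^ (1 - t) * hs C u ^ t)) := by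
  have pK := ar_pos hK
  have pC := ar_pos hC
  have hW : Body (Wu (fun u => hs K u ^ (1 - t) * hs C u ^ t)) := by
    apply Wu_body
    · have cK : ContinuousOn (hs K) (Metric.sphere 0 1) := (hs_cont hK).continuousOn
      have cC : ContinuousOn (hs C) (Metric.sphere 0 1) := (hs_cont hC).continuousOn
      apply ContinuousOn.mul
      · exact cK.rpow_const (fun x _ => Or.inr (by linarith))
      · exact cC.rpow_const (fun x _ => Or.inr ht0.le)
    · intro u hu
      have hu0 : u ≠ 0 := by
        intro h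
        rw [h, norm_zero] at hu
        exact zero_ne_one hu
      have h1 := hs_pos hK hu0
      have h2 := hs_pos hC hu0
      positivity
  have pW := ar_pos hW
  have h := thmA' hker hK hC ht0 ht1 (mK := Real.log (ar K)) (mC := Real.log (ar C))
    (fun c => Real.log_le_log pK (jensen_area hK h0 c)) (fun c => Real.log_le_log pC (jensen_area hC h0' c))
  have e : ar K ^ (1 - t) * ar C ^ t = Real.exp ((1 - t) * Real.log (ar K) + t * Real.log (ar C)) := by
    rw [Real.exp_add, Real.rpow_def_of_pos pK, Real.rpow_def_of_pos pC, mul_comm (Real.log (ar K)), mul_comm (Real.log (ar C))]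
  rw [e]
  calc Real.exp ((1 - t) * Real.log (ar K) + t * Real.log (ar C))
      ≤ Real.exp (Real.log (ar (Wu (fun u => hs K u ^ (1 - t) * hs C u ^ t)))) := Real.exp_le_exp.2 h
    _ = _ := Real.exp_log pW

end Pool.Agent.Lib.MP_1dedaf_gt.LB
end
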