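import Pool.Agent.Lib.MP_1dedaf_gt.Mg.G027
import Pool.Agent.Lib.MP_1dedaf_gt.DK.DC.CS
import Pool.Agent.Lib.MP_1dedaf_gt.DK.DC.CT
import Pool.Agent.Lib.MP_1dedaf_gt.Mg.G026
import Pool.Agent.Lib.MP_1dedaf_gt.DK.DC.PS
import Pool.Agent.Lib.MP_1dedaf_gt.DK.A2
import Pool.Agent.Lib.MP_1dedaf_gt.DK.A3
import Pool.Agent.Lib.MP_1dedaf_gt.DK.N0
import Pool.Agent.Lib.MP_1dedaf_gt.Mg.G019
import Pool.Agent.Lib.MP_1dedaf_gt.Mg.G013

section

/-!
# TASK NA B5: pairs without near arc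

`jj1_gd`: `kt t = (1 - t) k + t k1` with `k1 = 1` is `Gp` for `0 < t ≤ 1` (`gp_comb`; `k1` is `Gp`: see DC/SY), so `0 ≤ jj n (kt t) ξ s 1` (`e1`), and `t → 0` with `jj_tendsto`. `j0_nonneg`, case `l 0 < u 0`: first case of the proof of `psi_nonneg` (DC/PS, lemma `PS_j`, private there: copy): `K.shr k (l 0)` has `l' ≥ 0`, `l' 0 = 0`, `u' 0 > 0`; `exists_bd`, `cf_nonneg`,
`J_eq`, `j_shr`. Case `l 0 = u 0`: as in the second case of `psi_nonneg` (DC/PS): `a_j → 0+` with `l a_j < u a_j`; `K_j = ⟨p, q, w - a_j, l (a_j + ·), u (a_j + ·)⟩` is of the first kind with the same slope `k` (for `x > 0`, `a > 0` convexity gives `(l (a + x) - l a)/x ≥ (l a - l 0)/a ≥ k`), so `0 ≤ K_j.j 0 k`, and `K_j.j 0 k → K.j 0 k` by `dat_tendsto` (N3).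
`jj_corner`: `sx (m-1) = 0`, so by `j_gd` `jj n k ξ s m = (sv ..).j 0 (slk n m)`; the line `ln m = slk m * x + sle m` (`ln_aff`) is below `l` (`l` is the supremum of the lines `1, ..., h`) and passes through the vertex `m - 1`, i.e. through `(0, l 0)` (`l_gd` at `x = sx (m-1) = 0` with `j = m - 1`).
`p + q slk m = <ξ, rot (dir (s+m))>/sin (m dl) ≠ 0` (`Gen`; see B4 or E1: `al_be_ne`). Continuity and convexity of `l`, `u` of `sv`: `sv_l_cont`, `sv_u_cont` (B4 of the folder above), `Reg`: `reg_gd`.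
-/

set_option autoImplicit false

open MeasureTheory Set Filter Topology

namespace Pool.Agent.Lib.MP_1dedaf_gt.DK

open Pool.Agent.Lib.MP_1dedaf_gt.LB

private theorem B5_convex {w : ℝ} {l : ℝ → ℝ} (vl : ConvexOn ℝ (Icc 0 w) l) (k c : ℝ) :
    ConvexOn ℝ (Icc 0 w) (fun t => l t - (k * t + c)) := by
  refine ⟨convex_Icc _ _, fun x hx y hy a b ha hb hab => ?_⟩
  have h := vl.2 hx hy ha hb hab
  simp only [smul_eq_mul] at h ⊢
  have e : k * (a * x + b * y) + c = a * (k * x + c) + b * (k * y + c) := by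
    linear_combination (-c) * hab
  rw [e]
  linarith [mul_sub a (l x) (k * x + c), mul_sub b (l y) (k * y + c)]

private theorem B5_concave {w : ℝ} {u : ℝ → ℝ} (vu : ConcaveOn ℝ (Icc 0 w) u) (k c : ℝ) :
    ConcaveOn ℝ (Icc 0 w) (fun t => u t - (k * t + c)) := by
  refine ⟨convex_Icc _ _, fun x hx y hy a b ha hb hab => ?_⟩
  have h := vu.2 hx hy ha hb hab
  simp only [smul_eq_mul] at h ⊢
  have e : k * (a * x + b * y) + c = a * (k * x + c) + b * (k * y + c) := by
    linear_combination (-c) * hab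
  rw [e]
  linarith [mul_sub a (u x) (k * x + c), mul_sub b (u y) (k * y + c)]

private theorem B5_j (hP : CFPos) (K : Dat) (h : K.Reg) (vl : ConvexOn ℝ (Icc 0 K.w) K.l)
    (vu : ConcaveOn ℝ (Icc 0 K.w) K.u) (k0 : ℝ) (hk0 : ∀ x ∈ Icc 0 K.w, K.l 0 + k0 * x ≤ K.l x)
    (h0 : K.l 0 < K.u 0) (k : ℝ) (hk : k ≤ k0) (hpk : K.p + K.q * k ≠ 0) : 0 ≤ K.j 0 k := by
  have hl0 : K.l 0 - (k * 0 + K.l 0) = 0 := by ring
  have lu : ∀ x ∈ Icc 0 K.w, K.l x - (k * x + K.l 0) ≤ K.u x - (k * x + K.l 0) := by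
    intro x hx
    linarith [h.lu x hx]
  have fat : ∃ x ∈ Icc 0 K.w, K.l x - (k * x + K.l 0) < K.u x - (k * x + K.l 0) := by
    obtain ⟨x, hx, h1⟩ := h.fat
    exact ⟨x, hx, by linarith⟩
  have cl : Continuous (fun t => K.l t - (k * t + K.l 0)) :=
    h.cl.sub ((continuous_const.mul continuous_id).add continuous_const)
  have cu : Continuous (fun t => K.u t - (k * t + K.l 0)) :=
    h.cu.sub ((continuous_const.mul continuous_id).add continuous_const)
  obtain ⟨K', hok, hcol, hcf⟩ := exists_bd (K.p + K.q * k) K.q K.w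
    (fun t => K.l t - (k * t + K.l 0)) (fun t => K.u t - (k * t + K.l 0)) hpk h.hq h.hw cl cu
    (B5_convex vl k (K.l 0)) (B5_concave vu k (K.l 0)) lu fat
    (fun x hx => by
      have h1 := hk0 x hx
      have h2 : k * x ≤ k0 * x := mul_le_mul_of_nonneg_right hk hx.1

      linarith)
    ⟨0, ⟨le_rfl, h.hw.le⟩, hl0⟩
  have hcol' : K'.col = K.shr k (K.l 0) := hcol
  have hu : 0 < K'.u 0 := by
    have h1 : K'.u 0 = K'.col.u 0 := rfl
    rw [h1, hcol']
    show 0 < K.u 0 - (k * 0 + K.l 0)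
    linarith
  have hJ := cf_nonneg hP K' (hcf hl0) hu
  rw [hcol'] at hJ
  have hreg : (K.shr k (K.l 0)).Reg := ⟨h.hq, h.hw, cl, cu, lu, fat⟩
  rw [Dat.J_eq _ hreg hl0] at hJ
  have hM := Dat.M_pos _ hreg
  have h2 : 0 ≤ (K.shr k (K.l 0)).j 0 0 := by
    by_contra hneg
    push Not at hneg
    have := mul_neg_of_pos_of_neg hM hneg
    linarith
  rwa [j_shr K h.hq] at h2

/-- The data cut at `a` and moved. -/
private noncomputable def B5_cut (K : Dat) (a : ℝ) : Dat :=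
  ⟨K.p, K.q, K.w - a, fun x => K.l (a + x), fun x => K.u (a + x)⟩

private theorem B5_cutj (hP : CFPos) (K : Dat) (h : K.Reg) (vl : ConvexOn ℝ (Icc 0 K.w) K.l)
    (vu : ConcaveOn ℝ (Icc 0 K.w) K.u) (a : ℝ) (ha : 0 < a) (haw : a < K.w) (hau : K.l a < K.u a)
    (k : ℝ) (hk : ∀ x ∈ Icc 0 K.w, K.l 0 + k * x ≤ K.l x) (hp : K.p + K.q * k ≠ 0) :
    0 ≤ (B5_cut K a).j 0 k := by
  have hin : ∀ x ∈ Icc 0 (K.w - a), a + x ∈ Icc 0 K.w := fun x hx =>
    ⟨by linarith [hx.1], by linarith [hx.2]⟩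
  have hreg : (B5_cut K a).Reg := by
    refine ⟨h.hq, ?_, h.cl.comp (continuous_const.add continuous_id),
      h.cu.comp (continuous_const.add continuous_id), ?_, ?_⟩
    · show 0 < K.w - a
      linarith
    · intro x hx
      exact h.lu (a + x) (hin x hx)
    · refine ⟨0, ⟨le_rfl, ?_⟩, ?_⟩
      · show 0 ≤ K.w - a
        linarith
      · show K.l (a + 0) < K.u (a + 0)
        rw [add_zero]
        exact hau
  have e : ∀ s t x y : ℝ, s + t = 1 → a + (s * x + t * y) = s * (a + x) + t * (a + y) := by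
    intro s t x y hst
    linear_combination (-a) * hst
  refine B5_j hP (B5_cut K a) hreg ?_ ?_ k ?_ ?_ k le_rfl hp
  · refine ⟨convex_Icc _ _, fun x hx y hy s t hs ht hst => ?_⟩
    have h1 := vl.2 (hin x hx) (hin y hy) hs ht hst
    simp only [smul_eq_mul] at h1 ⊢
    show K.l (a + (s * x + t * y)) ≤ s * K.l (a + x) + t * K.l (a + y)
    rw [e s t x y hst]
    exact h1
  · refine ⟨convex_Icc _ _, fun x hx y hy s t hs ht hst => ?_⟩
    have h1 := vu.2 (hin x hx) (hin y hy) hs ht hst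
    simp only [smul_eq_mul] at h1 ⊢
    show s * K.u (a + x) + t * K.u (a + y) ≤ K.u (a + (s * x + t * y))
    rw [e s t x y hst]
    exact h1
  · intro x hx
    have hx' : x ∈ Icc 0 (K.w - a) := hx
    show K.l (a + 0) + k * x ≤ K.l (a + x)
    rw [add_zero]
    have hax : 0 < a + x := by linarith [hx'.1]
    have h1 := vl.2 (⟨le_rfl, h.hw.le⟩ : (0:ℝ) ∈ Icc 0 K.w) (hin x hx')
      (div_nonneg hx'.1 hax.le) (div_nonneg ha.le hax.le)
      (by rw [← add_div, add_comm x a, div_self hax.ne'])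
    simp only [smul_eq_mul, mul_zero, zero_add] at h1
    rw [div_mul_cancel₀ _ hax.ne'] at h1
    have h2 := hk a ⟨ha.le, haw.le⟩
    have h3 : (a + x) * K.l a ≤ x * K.l 0 + a * K.l (a + x) := by
      have h4 := mul_le_mul_of_nonneg_left h1 hax.le
      have h5 : (a + x) * (x / (a + x) * K.l 0 + a / (a + x) * K.l (a + x)) =
          x * K.l 0 + a * K.l (a + x) := by
        field_simp
      rwa [h5] at h4
    have h6 := mul_le_mul_of_nonneg_left h2 hx'.1
    have h7 : a * (K.l a + k * x) ≤ a * K.l (a + x) := by nlinarith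
    exact le_of_mul_le_mul_left h7 ha
  · show K.l (a + 0) < K.u (a + 0)
    rw [add_zero]
    exact hau

private theorem B5_one (n : ℕ) [NeZero n] (hn : Odd n) (h3 : 3 ≤ n) : Gp n (fun _ => 1) := by
  have hs : 0 < Real.sin (dl n) := by
    have h := sin_pos n (m := 1) one_pos (by omega)
    rwa [Nat.cast_one, one_mul] at h
  have hc : Real.cos (dl n) < 1 := by
    have h := Real.sin_sq_add_cos_sq (dl n)
    nlinarith [Real.cos_le_one (dl n), mul_pos hs hs]
  refine ⟨fun i => ?_, 0, fun i => ?_⟩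
  · unfold lo hi
    rw [div_lt_div_iff_of_pos_right hs]
    linarith
  · rw [inner_zero_left]
    exact one_pos

private theorem B5_rot {v w : E2} (ξ : E2) {c s : ℝ} (hv : ‖v‖ = 1) (h1 : inner ℝ w v = c)
    (h2 : inner ℝ w (rot v) = s) :
    inner ℝ ξ (rot w) = c * inner ℝ ξ (rot v) - s * inner ℝ ξ v := by
  have hv' : v 0 ^ 2 + v 1 ^ 2 = 1 := by
    have h := EuclideanSpace.norm_sq_eq v
    rw [hv] at h
    simp only [Fin.sum_univ_two, Real.norm_eq_abs, sq_abs] at h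
    linarith
  subst h1 h2
  simp only [PiLp.inner_apply, rot, Fin.sum_univ_two, RCLike.inner_apply, conj_trivial,
    Matrix.cons_val_zero, Matrix.cons_val_one]
  linear_combination (ξ 0 * w 1 - ξ 1 * w 0) * hv'

private theorem B5_pq (n : ℕ) [NeZero n] {k : ZMod n → ℝ} {ξ : E2} (hξ : Gen n ξ)
    (s : ZMod n) {m : ℕ} (hm : 0 < m) (hm2 : 2 * m < n) :
    (sv n k ξ s).p + (sv n k ξ s).q * slk n m ≠ 0 := by
  have hsin := sin_pos n hm hm2
  have h1 := B5_rot ξ (dir_norm n s) (dir_inner n s m).1 (dir_inner n s m).2.1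
  have h2 : (sv n k ξ s).p + (sv n k ξ s).q * slk n m =
      inner ℝ ξ (rot (dir n (s + (m : ℕ)))) / Real.sin (m * dl n) := by
    show - inner ℝ ξ (dir n s) + (- inner ℝ ξ (rot (dir n s))) * slk n m = _
    rw [h1]
    unfold slk
    field_simp
    ring
  rw [h2]
  exact div_ne_zero (hξ _) hsin.ne'

theorem jj1_gd (hP : CFPos) (n : ℕ) [NeZero n] (hn : Odd n) (h3 : 3 ≤ n) {k : ZMod n → ℝ} (hk : Gd n k) {ξ : E2} (hξ : Gen n ξ)
    (s : ZMod n) : 0 ≤ jj n k ξ s 1 := by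
  obtain ⟨t, ht⟩ : ∃ t : ℕ → ℝ, t = fun j : ℕ => 1 / ((j : ℝ) + 1) := ⟨_, rfl⟩
  have t0 : ∀ j, 0 < t j := fun j => by
    rw [ht]
    positivity
  have t1 : ∀ j, t j ≤ 1 := fun j => by
    rw [ht]
    simp only
    rw [div_le_one (by positivity)]
    have : (0 : ℝ) ≤ j := by positivity
    linarith
  have tt : Tendsto t atTop (𝓝 0) := by
    rw [ht]
    exact tendsto_one_div_add_atTop_nhds_zero_nat
  obtain ⟨ks, hks⟩ : ∃ ks : ℕ → ZMod n → ℝ, ks = fun j i => (1 - t j) * k i + t j * 1 := ⟨_, rfl⟩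
  have hG : ∀ j, Gp n (ks j) := fun j => by
    rw [hks]
    exact gp_comb n hn h3 hk.len hk.fat (B5_one n hn h3) (t0 j) (t1 j)
  have hcoord : ∀ i, Tendsto (fun j => ks j i) atTop (𝓝 (k i)) := fun i => by
    rw [hks]
    have h := ((tendsto_const_nhds (x := (1 : ℝ))).sub tt).mul_const (k i)
    have h' := h.add (tt.mul_const 1)
    simp only [sub_zero, one_mul, zero_mul, add_zero] at h'
    exact h'
  have hT : Tendsto ks atTop (𝓝 k) := tendsto_pi_nhds.2 hcoord
  have hR : (sv n k ξ s).Reg := reg_gd n hn h3 hk.len hk.fat ξ s (neg_ne_zero.2 (hξ s))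
  have c1 := (jj_tendsto n hn h3 hT (tendsto_const_nhds (x := ξ)) s 1 hR).1
  exact ge_of_tendsto' c1 (fun j => e1 hP n hn h3 (hG j) hξ s)

theorem j0_nonneg (hP : CFPos) (K : Dat) (h : K.Reg) (vl : ConvexOn ℝ (Icc 0 K.w) K.l) (vu : ConcaveOn ℝ (Icc 0 K.w) K.u)
    (k : ℝ) (hk : ∀ x ∈ Icc 0 K.w, K.l 0 + k * x ≤ K.l x) (hp : K.p + K.q * k ≠ 0) : 0 ≤ K.j 0 k := by
  rcases (h.lu 0 ⟨le_rfl, h.hw.le⟩).lt_or_eq with h0 | h0
  · exact B5_j hP K h vl vu k hk h0 k le_rfl hp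
  · obtain ⟨x1, hx1, hfat⟩ := h.fat
    have hx1pos : 0 < x1 := by
      rcases hx1.1.lt_or_eq with h1 | h1
      · exact h1
      · rw [← h1, h0] at hfat
        exact absurd hfat (lt_irrefl _)
    have hlt : ∀ a : ℝ, 0 < a → a ≤ x1 → K.l a < K.u a := by
      intro a ha ha1
      have hs : 0 < a / x1 := div_pos ha hx1pos
      have hs1 : a / x1 ≤ 1 := (div_le_one hx1pos).2 ha1
      have ht : 0 ≤ 1 - a / x1 := by linarith
      have h2 := vl.2 hx1 (⟨le_rfl, h.hw.le⟩ : (0:ℝ) ∈ Icc 0 K.w) hs.le ht (by ring)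
      have h3 := vu.2 hx1 (⟨le_rfl, h.hw.le⟩ : (0:ℝ) ∈ Icc 0 K.w) hs.le ht (by ring)
      simp only [smul_eq_mul, mul_zero, add_zero] at h2 h3
      rw [div_mul_cancel₀ _ hx1pos.ne'] at h2 h3
      rw [h0] at h2
      have h4 := mul_lt_mul_of_pos_left hfat hs
      linarith
    obtain ⟨A, hA⟩ : ∃ A : ℕ → ℝ, A = fun j : ℕ => x1 / ((j : ℝ) + 2) := ⟨_, rfl⟩
    have hApos : ∀ j, 0 < A j := fun j => by
      rw [hA]
      exact div_pos hx1pos (by positivity)
    have hAle : ∀ j, A j < x1 := by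
      intro j
      rw [hA]
      show x1 / ((j : ℝ) + 2) < x1
      rw [div_lt_iff₀ (by positivity)]
      nlinarith [Nat.cast_nonneg (α := ℝ) j]
    have hAlim : Tendsto A atTop (𝓝 0) := by
      have h1 : Tendsto (fun j : ℕ => (j : ℝ) + 2) atTop atTop :=
        tendsto_atTop_add_const_right _ _ tendsto_natCast_atTop_atTop
      rw [hA]
      exact h1.const_div_atTop x1
    have hj : ∀ j, 0 ≤ (B5_cut K (A j)).j 0 k := fun j =>
      B5_cutj hP K h vl vu (A j) (hApos j) ((hAle j).trans_le hx1.2)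
        (hlt _ (hApos j) (hAle j).le) k hk hp
    have hlim : Tendsto (fun j => (B5_cut K (A j)).j 0 k) atTop (𝓝 (K.j 0 k)) := by
      refine dat_tendsto (fun j => B5_cut K (A j)) K h
        (fun j => ⟨h.cl.comp (continuous_const.add continuous_id),
          h.cu.comp (continuous_const.add continuous_id)⟩)
        tendsto_const_nhds tendsto_const_nhds ?_ ?_ ?_ (fun _ => 0) 0 tendsto_const_nhds k
      · show Tendsto (fun j => K.w - A j) atTop (𝓝 K.w)
        have h1 := (tendsto_const_nhds (x := K.w)).sub hAlim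
        rwa [sub_zero] at h1
      · intro xs x φ hφ hxs
        show Tendsto (fun j => K.l (A (φ j) + xs j)) atTop (𝓝 (K.l x))
        have h1 := (hAlim.comp hφ.tendsto_atTop).add hxs
        rw [zero_add] at h1
        exact (h.cl.tendsto x).comp h1
      · intro xs x φ hφ hxs
        show Tendsto (fun j => K.u (A (φ j) + xs j)) atTop (𝓝 (K.u x))
        have h1 := (hAlim.comp hφ.tendsto_atTop).add hxs
        rw [zero_add] at h1
        exact (h.cu.tendsto x).comp h1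
    exact ge_of_tendsto' hlim hj

theorem jj_corner (hP : CFPos) (n : ℕ) [NeZero n] (hn : Odd n) (h3 : 3 ≤ n) {k : ZMod n → ℝ} (hk : Gd n k) {ξ : E2} (hξ : Gen n ξ)
    (s : ZMod n) {m : ℕ} (hm : 0 < m) (hm2 : 2 * m < n) (h0 : sx n k s (m - 1) = 0) : 0 ≤ jj n k ξ s m := by
  have hR : (sv n k ξ s).Reg := reg_gd n hn h3 hk.len hk.fat ξ s (neg_ne_zero.2 (hξ s))
  rw [j_gd n hn h3 hk.len ξ s hR hm hm2, h0]
  have hmh : m - 1 < (n - 1) / 2 := by omega
  have hm1 : m - 1 + 1 = m := by omega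
  have hl0 : (sv n k ξ s).l 0 = ln n k s m 0 := by
    have h1 := l_gd n hn h3 hk.len ξ s (m - 1) hmh 0
      ⟨h0.le, by
        have := sx_mono n hn h3 hk.len s (m - 1) hmh
        rwa [h0] at this⟩
    rwa [hm1] at h1
  refine j0_nonneg hP _ hR
    ((sv_l_cont n hn h3 k ξ s).2.subset (subset_univ _) (convex_Icc _ _))
    ((sv_u_cont n hn h3 k ξ s).2.subset (subset_univ _) (convex_Icc _ _)) _ ?_
    (B5_pq n hξ s hm hm2)
  intro x _
  have h1 : ln n k s m x ≤ (sv n k ξ s).l x := by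
    show ln n k s m x ≤ ⨆ i : Fin ((n - 1) / 2), ln n k s (i.val + 1) x
    have h2 := le_ciSup (f := fun i : Fin ((n - 1) / 2) => ln n k s (i.val + 1) x)
      (Set.finite_range _).bddAbove ⟨m - 1, hmh⟩
    simp only [hm1] at h2
    exact h2
  rw [ln_aff] at h1
  rw [hl0, ln_aff, mul_zero, zero_add]
  linarith

end Pool.Agent.Lib.MP_1dedaf_gt.DK
end

section

/-!
# TASK EP CD1: change of coordinates: the minimiser is moved to `c = 0`, `t = {y = 0}`

`B.reb k c e`: the fixed data in the coordinates `x' = x - c`, `y' = y - (k x' + e)`. `θ.up k c e`: the parameters in the old coordinates. `reb_dat`: equality of structures: `p`, `q`, `w` by `ring`, the functions by `funext`, `congr`, `ring_nf` and `max_sub_max`-type identities (`max (a - c) (b - c) = max a b - c`: `max_sub_sub_right`).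
`reb_ok`: translations of `B.Ok`; convexity of `x ↦ L (c + x) - (k x + e)` on `[0, w - c]`; `cov`: `s ∈ S` becomes `(s.1 - k, s.1 c + s.2 - e)`; far slopes: `k0 (y - x) ≤ L (c+y) - L (c+x)` gives `(k0 - k) (y - x) ≤ ..`. `reb_in`, `reb_in'`: all conditions by `linarith` after rewriting (`nlinarith`/`ring_nf`): e.g. `ew`: `ke' (w - c) + he' ≤ L (c + (w - c)) - (k (w - c) + e)`.
`reb_val`: with `K = B.dat (θ.up k c e)`: `(K.shr k e').M = exp (- q e') K.M` (`mu` of the sheared data is `exp (- q e') mu`; as in N0), `(K.shr k e').j x kt' = K.j x (kt' + k)` (`j_step` and `j_shr`, `Phi_shr`: `(K.shr).j x kt' = (K.shr).j x 0 - kt' Phi = K.j x k - kt' Phi = K.j x (k + kt')`), `e' = e + k θ.c`,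
`exp ((p + q k) θ.c) exp (- q (e + k θ.c)) = exp (- q e - p c) exp (p (θ.c + c))`. `reb_min`: from `reb_in`, `reb_in'`, `reb_val`. `reb_good`: `(K.shr k e').Xl x = exp (- q e') K.Xl x`, `(K.shr k e').a = exp (- q e') K.a` (`N 1` is unchanged, `N 0` has the factor `exp (q e')`).
`reb_main`: `k = θ.kt`, `c = θ.c`, `e = θ.kt θ.c + θ.ht`, `θ' = ⟨ke - kt, (ke c + he) - (kt c + ht), 0, 0, z - c, 0⟩`, `θ'.up k c e = θ`.
-/

set_option autoImplicit false

open MeasureTheory Set Filter Topology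

namespace Pool.Agent.Lib.MP_1dedaf_gt.DK

/-- The fixed data in the coordinates `x' = x - c`, `y' = y - (k x' + e)`. -/
noncomputable def EB.reb (B : EB) (k c e : ℝ) : EB :=
  ⟨B.p + B.q * k, B.q, B.w - c, fun x => B.L (c + x) - (k * x + e), fun x => B.u (c + x) - (k * x + e),
    B.S.image (fun s => (s.1 - k, s.1 * c + s.2 - e)), B.k0 - k, B.k1 - k⟩

/-- The parameters in the old coordinates. -/
noncomputable def Th.up (θ : Th) (k c e : ℝ) : Th :=
  ⟨θ.ke + k, θ.he + e - (θ.ke + k) * c, θ.kt + k, θ.ht + e - (θ.kt + k) * c, θ.z + c, θ.c + c⟩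

private theorem CD1_rl (K : Dat) (k c x : ℝ) : (K.shr k c).rl x = Real.exp (-(K.q * c)) * K.rl x := by
  change Real.exp ((K.p + K.q * k) * x + K.q * (K.l x - (k * x + c))) =
    Real.exp (-(K.q * c)) * Real.exp (K.p * x + K.q * K.l x)
  rw [← Real.exp_add]
  congr 1
  ring

private theorem CD1_ru (K : Dat) (k c x : ℝ) : (K.shr k c).ru x = Real.exp (-(K.q * c)) * K.ru x := by
  change Real.exp ((K.p + K.q * k) * x + K.q * (K.u x - (k * x + c))) =
    Real.exp (-(K.q * c)) * Real.exp (K.p * x + K.q * K.u x)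
  rw [← Real.exp_add]
  congr 1
  ring

private theorem CD1_Xl (K : Dat) (k c x : ℝ) : (K.shr k c).Xl x = Real.exp (-(K.q * c)) * K.Xl x := by
  unfold Dat.Xl
  rw [← intervalIntegral.integral_const_mul]
  exact intervalIntegral.integral_congr fun t _ => CD1_rl K k c t

private theorem CD1_mu (K : Dat) (k c x : ℝ) : (K.shr k c).mu x = Real.exp (-(K.q * c)) * K.mu x := by
  unfold Dat.mu
  rw [CD1_rl, CD1_ru]
  change (Real.exp (-(K.q * c)) * K.ru x - Real.exp (-(K.q * c)) * K.rl x) / K.q = _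
  ring

private theorem CD1_mr (K : Dat) (k c x : ℝ) : (K.shr k c).mr x = Real.exp (-(K.q * c)) * K.mr x := by
  unfold Dat.mr
  rw [← intervalIntegral.integral_const_mul]
  exact intervalIntegral.integral_congr fun t _ => CD1_mu K k c t

private theorem CD1_M (K : Dat) (k c : ℝ) : (K.shr k c).M = Real.exp (-(K.q * c)) * K.M := by
  unfold Dat.M
  rw [← intervalIntegral.integral_const_mul]
  exact intervalIntegral.integral_congr fun t _ => CD1_mu K k c t

private theorem CD1_Xu (K : Dat) (k c x : ℝ) : (K.shr k c).Xu x = Real.exp (-(K.q * c)) * K.Xu x := by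
  unfold Dat.Xu
  rw [CD1_Xl, CD1_mr]
  change Real.exp (-(K.q * c)) * K.Xl x - K.q * (Real.exp (-(K.q * c)) * K.mr x) = _
  ring

private theorem CD1_N (K : Dat) (k c : ℝ) (i : ℕ) :
    (K.shr k c).N i = Real.exp (-(K.q * c)) ^ i / Real.exp (-(K.q * c)) * K.N i := by
  unfold Dat.N
  rw [← intervalIntegral.integral_const_mul]
  refine intervalIntegral.integral_congr fun t _ => ?_
  change (K.shr k c).Xl t ^ i / (K.shr k c).rl t - (K.shr k c).Xu t ^ i / (K.shr k c).ru t =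
    Real.exp (-(K.q * c)) ^ i / Real.exp (-(K.q * c)) * (K.Xl t ^ i / K.rl t - K.Xu t ^ i / K.ru t)
  rw [CD1_Xl, CD1_Xu, CD1_rl, CD1_ru, mul_pow, mul_pow, mul_div_mul_comm, mul_div_mul_comm]
  ring

private theorem CD1_a (K : Dat) (k c : ℝ) : (K.shr k c).a = Real.exp (-(K.q * c)) * K.a := by
  have he0 : Real.exp (-(K.q * c)) ≠ 0 := (Real.exp_pos _).ne'
  unfold Dat.a
  rw [CD1_N, CD1_N]
  rw [pow_zero, pow_one]
  rw [div_self he0, one_mul]
  by_cases h0 : K.N 0 = 0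
  · rw [h0]; simp
  · field_simp

private theorem CD1_j (K : Dat) (hq : K.q ≠ 0) (k c x k' : ℝ) : (K.shr k c).j x k' = K.j x (k' + k) := by
  rw [j_step (K.shr k c) hq x 0 k', j_shr K hq, Phi_shr K hq, j_step K hq x k (k' + k)]
  ring

theorem reb_dat (B : EB) (θ : Th) (k c e : ℝ) : (B.reb k c e).dat θ = (B.dat (θ.up k c e)).shr k (e + k * θ.c) := by
  have hl : (fun x => max (B.L (c + (θ.c + x)) - (k * (θ.c + x) + e)) (max (θ.ke * (θ.c + x) + θ.he) (θ.kt * (θ.c + x) + θ.ht))) =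
      fun t => max (B.L (θ.c + c + t)) (max ((θ.ke + k) * (θ.c + c + t) + (θ.he + e - (θ.ke + k) * c))
        ((θ.kt + k) * (θ.c + c + t) + (θ.ht + e - (θ.kt + k) * c))) - (k * t + (e + k * θ.c)) := by
    funext x
    rw [← max_sub_sub_right, ← max_sub_sub_right]
    congr 1
    · rw [show c + (θ.c + x) = θ.c + c + x by ring]
      ring
    · congr 1
      · ring
      · ring
  have hu : (fun x => B.u (c + (θ.c + x)) - (k * (θ.c + x) + e)) = fun t => B.u (θ.c + c + t) - (k * t + (e + k * θ.c)) := by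
    funext x
    rw [show c + (θ.c + x) = θ.c + c + x by ring]
    ring
  have hw : B.w - c - θ.c = B.w - (θ.c + c) := by ring
  show Dat.mk (B.p + B.q * k) B.q (B.w - c - θ.c)
      (fun x => max (B.L (c + (θ.c + x)) - (k * (θ.c + x) + e)) (max (θ.ke * (θ.c + x) + θ.he) (θ.kt * (θ.c + x) + θ.ht)))
      (fun x => B.u (c + (θ.c + x)) - (k * (θ.c + x) + e)) =
    Dat.mk (B.p + B.q * k) B.q (B.w - (θ.c + c))
      (fun t => max (B.L (θ.c + c + t)) (max ((θ.ke + k) * (θ.c + c + t) + (θ.he + e - (θ.ke + k) * c))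
        ((θ.kt + k) * (θ.c + c + t) + (θ.ht + e - (θ.kt + k) * c))) - (k * t + (e + k * θ.c)))
      (fun t => B.u (θ.c + c + t) - (k * t + (e + k * θ.c)))
  rw [hl, hu, hw]

theorem reb_ok (B : EB) (hB : B.Ok) (k c e : ℝ) (hc : 0 ≤ c) (hcw : c < B.w) : (B.reb k c e).Ok := by
  have hmem : ∀ x ∈ Icc 0 (B.w - c), c + x ∈ Icc 0 B.w := fun x hx => ⟨by linarith [hx.1], by linarith [hx.2]⟩
  refine
    { hq := hB.hq
      hw := by show 0 < B.w - c; linarith
      cL := (hB.cL.comp (continuous_const.add continuous_id)).sub (by fun_prop)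
      cu := (hB.cu.comp (continuous_const.add continuous_id)).sub (by fun_prop)
      vL := ?_
      vu := ?_
      Lu := ?_
      le := ?_
      cov := ?_ }
  · refine ⟨convex_Icc _ _, ?_⟩
    intro x hx y hy a b ha hb hab
    have h1 := hB.vL.2 (hmem x hx) (hmem y hy) ha hb hab
    simp only [smul_eq_mul] at h1
    have h2 : a * (c + x) + b * (c + y) = c + (a * x + b * y) := by
      have h3 : a * (c + x) + b * (c + y) = (a + b) * c + (a * x + b * y) := by ring
      rw [h3, hab, one_mul]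
    rw [h2] at h1
    show B.L (c + (a * x + b * y)) - (k * (a * x + b * y) + e) ≤ a * (B.L (c + x) - (k * x + e)) + b * (B.L (c + y) - (k * y + e))
    have h4 : a * (B.L (c + x) - (k * x + e)) + b * (B.L (c + y) - (k * y + e)) =
        (a * B.L (c + x) + b * B.L (c + y)) - k * (a * x + b * y) - (a + b) * e := by ring
    rw [h4, hab]
    linarith
  · refine ⟨convex_Icc _ _, ?_⟩
    intro x hx y hy a b ha hb hab
    have h1 := hB.vu.2 (hmem x hx) (hmem y hy) ha hb hab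
    simp only [smul_eq_mul] at h1
    have h2 : a * (c + x) + b * (c + y) = c + (a * x + b * y) := by
      have h3 : a * (c + x) + b * (c + y) = (a + b) * c + (a * x + b * y) := by ring
      rw [h3, hab, one_mul]
    rw [h2] at h1
    show a * (B.u (c + x) - (k * x + e)) + b * (B.u (c + y) - (k * y + e)) ≤ B.u (c + (a * x + b * y)) - (k * (a * x + b * y) + e)
    have h4 : a * (B.u (c + x) - (k * x + e)) + b * (B.u (c + y) - (k * y + e)) =
        (a * B.u (c + x) + b * B.u (c + y)) - k * (a * x + b * y) - (a + b) * e := by ring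
    rw [h4, hab]
    linarith
  · intro x hx
    have h1 := hB.Lu _ (hmem x hx)
    show B.L (c + x) - (k * x + e) ≤ B.u (c + x) - (k * x + e)
    linarith
  · intro s' hs' x hx
    obtain ⟨s, hs, h1⟩ := Finset.mem_image.1 hs'
    rw [← h1]
    show (s.1 - k) * x + (s.1 * c + s.2 - e) ≤ B.L (c + x) - (k * x + e)
    have h2 := hB.le s hs _ (hmem x hx)
    linarith
  · intro x hx
    rcases hB.cov _ (hmem x hx) with ⟨s, hs, h1⟩ | h1
    · left
      refine ⟨(s.1 - k, s.1 * c + s.2 - e), Finset.mem_image.2 ⟨s, hs, rfl⟩, ?_⟩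
      show B.L (c + x) - (k * x + e) = (s.1 - k) * x + (s.1 * c + s.2 - e)
      rw [h1]
      ring
    · right
      intro y hy
      have hy' : y ≤ B.w - c := hy.2
      have h2 := h1 (c + y) ⟨by linarith [hy.1], by linarith⟩
      show (B.k0 - k) * (y - x) ≤ (B.L (c + y) - (k * y + e)) - (B.L (c + x) - (k * x + e))
      linarith

theorem reb_in (B : EB) (θ : Th) (k c e : ℝ) (hc : 0 ≤ c) (h : (B.reb k c e).In θ) : B.In (θ.up k c e) := by
  have hcw : c + (B.w - c) = B.w := by ring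
  have hew : θ.ke * (B.w - c) + θ.he ≤ B.L (c + (B.w - c)) - (k * (B.w - c) + e) := h.ew
  have htw : θ.kt * (B.w - c) + θ.ht ≤ B.L (c + (B.w - c)) - (k * (B.w - c) + e) := h.tw
  have hec : θ.ke * θ.c + θ.he ≤ B.u (c + θ.c) - (k * θ.c + e) := h.ec
  have htc : θ.kt * θ.c + θ.ht ≤ B.u (c + θ.c) - (k * θ.c + e) := h.tc
  have hLz : B.L (c + θ.z) - (k * θ.z + e) ≤ θ.kt * θ.z + θ.ht := h.Lz
  have hez : θ.ke * θ.z + θ.he ≤ θ.kt * θ.z + θ.ht := h.ez
  have hzw : θ.z ≤ B.w - c := h.zw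
  have hcw' : θ.c < B.w - c := h.cw
  have ht0 : θ.kt ≤ B.k0 - k := h.t0
  have ht1 : B.k1 - k ≤ θ.kt := h.t1
  have hcz := h.cz
  have hc0 := h.c0
  have het := h.et
  rw [hcw] at hew htw
  rw [show c + θ.c = θ.c + c by ring] at hec htc
  rw [show c + θ.z = θ.z + c by ring] at hLz
  refine
    { sS := ?_
      et := by show θ.ke + k ≤ θ.kt + k; linarith
      t0 := by show θ.kt + k ≤ B.k0; linarith
      t1 := by show B.k1 ≤ θ.kt + k; linarith
      c0 := by show 0 ≤ θ.c + c; linarith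
      cz := by show θ.c + c ≤ θ.z + c; linarith
      zw := by show θ.z + c ≤ B.w; linarith
      ew := by show (θ.ke + k) * B.w + (θ.he + e - (θ.ke + k) * c) ≤ B.L B.w; linarith
      tw := by show (θ.kt + k) * B.w + (θ.ht + e - (θ.kt + k) * c) ≤ B.L B.w; linarith
      ec := by show (θ.ke + k) * (θ.c + c) + (θ.he + e - (θ.ke + k) * c) ≤ B.u (θ.c + c); linarith
      tc := by show (θ.kt + k) * (θ.c + c) + (θ.ht + e - (θ.kt + k) * c) ≤ B.u (θ.c + c); linarith
      Lz := by show B.L (θ.z + c) ≤ (θ.kt + k) * (θ.z + c) + (θ.ht + e - (θ.kt + k) * c); linarith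
      ez := by
        show (θ.ke + k) * (θ.z + c) + (θ.he + e - (θ.ke + k) * c) ≤ (θ.kt + k) * (θ.z + c) + (θ.ht + e - (θ.kt + k) * c)
        linarith
      cw := by show θ.c + c < B.w; linarith
      fat := ?_ }
  · intro s hs
    have h1 : s.1 - k ≤ θ.ke := h.sS (s.1 - k, s.1 * c + s.2 - e) (Finset.mem_image.2 ⟨s, hs, rfl⟩)
    show s.1 ≤ θ.ke + k
    linarith
  · obtain ⟨x, hx, h1⟩ := h.fat
    have hx2 : x ≤ B.w - c := hx.2
    have h2 : max (B.L (c + x) - (k * x + e)) (max (θ.ke * x + θ.he) (θ.kt * x + θ.ht)) < B.u (c + x) - (k * x + e) := h1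
    rw [max_lt_iff, max_lt_iff] at h2
    obtain ⟨h3, h4, h5⟩ := h2
    refine ⟨c + x, ⟨by show θ.c + c ≤ c + x; linarith [hx.1], by linarith⟩, ?_⟩
    show max (B.L (c + x)) (max ((θ.ke + k) * (c + x) + (θ.he + e - (θ.ke + k) * c)) ((θ.kt + k) * (c + x) + (θ.ht + e - (θ.kt + k) * c))) < B.u (c + x)
    rw [max_lt_iff, max_lt_iff]
    exact ⟨by linarith, by linarith, by linarith⟩

theorem reb_in' (B : EB) (θ : Th) (k c e : ℝ) (hc : 0 ≤ θ.c) (h : B.In (θ.up k c e)) : (B.reb k c e).In θ := by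
  have hcw : c + (B.w - c) = B.w := by ring
  have hew : (θ.ke + k) * B.w + (θ.he + e - (θ.ke + k) * c) ≤ B.L B.w := h.ew
  have htw : (θ.kt + k) * B.w + (θ.ht + e - (θ.kt + k) * c) ≤ B.L B.w := h.tw
  have hec : (θ.ke + k) * (θ.c + c) + (θ.he + e - (θ.ke + k) * c) ≤ B.u (θ.c + c) := h.ec
  have htc : (θ.kt + k) * (θ.c + c) + (θ.ht + e - (θ.kt + k) * c) ≤ B.u (θ.c + c) := h.tc
  have hLz : B.L (θ.z + c) ≤ (θ.kt + k) * (θ.z + c) + (θ.ht + e - (θ.kt + k) * c) := h.Lz
  have hez : (θ.ke + k) * (θ.z + c) + (θ.he + e - (θ.ke + k) * c) ≤ (θ.kt + k) * (θ.z + c) + (θ.ht + e - (θ.kt + k) * c) := h.ez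
  have hzw : θ.z + c ≤ B.w := h.zw
  have hcw' : θ.c + c < B.w := h.cw
  have ht0 : θ.kt + k ≤ B.k0 := h.t0
  have ht1 : B.k1 ≤ θ.kt + k := h.t1
  have hcz : θ.c + c ≤ θ.z + c := h.cz
  have het : θ.ke + k ≤ θ.kt + k := h.et
  rw [show θ.c + c = c + θ.c by ring] at hec htc
  rw [show θ.z + c = c + θ.z by ring] at hLz hez
  refine
    { sS := ?_
      et := by linarith
      t0 := by show θ.kt ≤ B.k0 - k; linarith
      t1 := by show B.k1 - k ≤ θ.kt; linarith
      c0 := hc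
      cz := by linarith
      zw := by show θ.z ≤ B.w - c; linarith
      ew := by show θ.ke * (B.w - c) + θ.he ≤ B.L (c + (B.w - c)) - (k * (B.w - c) + e); rw [hcw]; linarith
      tw := by show θ.kt * (B.w - c) + θ.ht ≤ B.L (c + (B.w - c)) - (k * (B.w - c) + e); rw [hcw]; linarith
      ec := by show θ.ke * θ.c + θ.he ≤ B.u (c + θ.c) - (k * θ.c + e); linarith
      tc := by show θ.kt * θ.c + θ.ht ≤ B.u (c + θ.c) - (k * θ.c + e); linarith
      Lz := by show B.L (c + θ.z) - (k * θ.z + e) ≤ θ.kt * θ.z + θ.ht; linarith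
      ez := by linarith
      cw := by show θ.c < B.w - c; linarith
      fat := ?_ }
  · intro s' hs'
    obtain ⟨s, hs, h1⟩ := Finset.mem_image.1 hs'
    rw [← h1]
    show s.1 - k ≤ θ.ke
    have h2 : s.1 ≤ θ.ke + k := h.sS s hs
    linarith
  · obtain ⟨x, hx, h1⟩ := h.fat
    have hx1 : θ.c + c ≤ x := hx.1
    have h2 : max (B.L x) (max ((θ.ke + k) * x + (θ.he + e - (θ.ke + k) * c)) ((θ.kt + k) * x + (θ.ht + e - (θ.kt + k) * c))) < B.u x := h1
    rw [max_lt_iff, max_lt_iff] at h2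
    obtain ⟨h3, h4, h5⟩ := h2
    refine ⟨x - c, ⟨by linarith, by show x - c ≤ B.w - c; linarith [hx.2]⟩, ?_⟩
    show max (B.L (c + (x - c)) - (k * (x - c) + e)) (max (θ.ke * (x - c) + θ.he) (θ.kt * (x - c) + θ.ht)) < B.u (c + (x - c)) - (k * (x - c) + e)
    rw [show c + (x - c) = x by ring, max_lt_iff, max_lt_iff]
    exact ⟨by linarith, by linarith, by linarith⟩

theorem reb_val (B : EB) (hB : B.Ok) (θ : Th) (k c e : ℝ) : (B.reb k c e).val θ = Real.exp (- (B.q * e) - B.p * c) * B.val (θ.up k c e) := by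
  have hq : (B.dat (θ.up k c e)).q ≠ 0 := hB.hq
  unfold EB.val
  rw [reb_dat, CD1_M, CD1_j _ hq]
  show Real.exp ((B.p + B.q * k) * θ.c) * (Real.exp (-(B.q * (e + k * θ.c))) * (B.dat (θ.up k c e)).M *
      (B.dat (θ.up k c e)).j (θ.z - θ.c) (θ.kt + k)) =
    Real.exp (-(B.q * e) - B.p * c) * (Real.exp (B.p * (θ.c + c)) * ((B.dat (θ.up k c e)).M *
      (B.dat (θ.up k c e)).j (θ.z + c - (θ.c + c)) (θ.kt + k)))
  rw [show θ.z + c - (θ.c + c) = θ.z - θ.c by ring]
  have h1 : Real.exp ((B.p + B.q * k) * θ.c) * Real.exp (-(B.q * (e + k * θ.c))) =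
      Real.exp (-(B.q * e) - B.p * c) * Real.exp (B.p * (θ.c + c)) := by
    rw [← Real.exp_add, ← Real.exp_add]
    congr 1
    ring
  calc Real.exp ((B.p + B.q * k) * θ.c) * (Real.exp (-(B.q * (e + k * θ.c))) * (B.dat (θ.up k c e)).M *
      (B.dat (θ.up k c e)).j (θ.z - θ.c) (θ.kt + k))
      = (Real.exp ((B.p + B.q * k) * θ.c) * Real.exp (-(B.q * (e + k * θ.c)))) * ((B.dat (θ.up k c e)).M *
      (B.dat (θ.up k c e)).j (θ.z - θ.c) (θ.kt + k)) := by ring
    _ = _ := by rw [h1]; ring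

theorem reb_main (B : EB) (hB : B.Ok) (θ : Th) (hm : B.Min θ) (hg : B.Good θ) :
    ∃ (B' : EB) (ke he z : ℝ), B'.Ok ∧ B'.S.card ≤ B.S.card ∧ B'.Min ⟨ke, he, 0, 0, z, 0⟩ ∧ B'.Good ⟨ke, he, 0, 0, z, 0⟩ := by
  obtain ⟨ke, he, kt, ht, z, c⟩ := θ
  have hc0 : 0 ≤ c := hm.inn.c0
  have hcw : c < B.w := hm.inn.cw
  have hup : (Th.mk (ke - kt) ((ke * c + he) - (kt * c + ht)) 0 0 (z - c) 0).up kt c (kt * c + ht) = ⟨ke, he, kt, ht, z, c⟩ := by
    show Th.mk (ke - kt + kt) ((ke * c + he) - (kt * c + ht) + (kt * c + ht) - (ke - kt + kt) * c) (0 + kt)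
      (0 + (kt * c + ht) - (0 + kt) * c) (z - c + c) (0 + c) = ⟨ke, he, kt, ht, z, c⟩
    congr 1 <;> ring
  refine ⟨B.reb kt c (kt * c + ht), ke - kt, (ke * c + he) - (kt * c + ht), z - c, reb_ok B hB kt c _ hc0 hcw, Finset.card_image_le, ?_, ?_⟩
  · refine ⟨?_, ?_, ?_⟩
    · refine reb_in' B _ kt c _ (le_refl _) ?_
      rw [hup]
      exact hm.inn
    · rw [reb_val B hB, hup]
      exact mul_neg_of_pos_of_neg (Real.exp_pos _) hm.neg
    · intro θ' h'
      rw [reb_val B hB, reb_val B hB, hup]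
      exact mul_le_mul_of_nonneg_left (hm.le _ (reb_in B θ' kt c _ hc0 h')) (Real.exp_pos _).le
  · rcases hg with h1 | h1
    · left
      have h2 : B.k1 < kt := h1
      show B.k1 - kt < 0
      linarith
    · right
      intro x hx hLx
      have hx1 : z - c ≤ x := hx.1
      have hx2 : x ≤ B.w - c := hx.2
      have hL : B.L (c + x) - (kt * x + (kt * c + ht)) ≤ 0 * x + 0 := hLx
      obtain ⟨h2, h3⟩ := h1 (c + x) ⟨by show z ≤ c + x; linarith, by linarith⟩ (by show B.L (c + x) ≤ kt * (c + x) + ht; linarith)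
      refine ⟨by show x < B.w - c; linarith, ?_⟩
      rw [reb_dat, hup, CD1_Xl, CD1_a]
      refine mul_lt_mul_of_pos_left ?_ (Real.exp_pos _)
      have h4 : c + x - c = x - 0 := by ring
      have h5 : (B.dat ⟨ke, he, kt, ht, z, c⟩).Xl (c + x - c) < (B.dat ⟨ke, he, kt, ht, z, c⟩).a := h3
      rw [h4] at h5
      exact h5

end Pool.Agent.Lib.MP_1dedaf_gt.DK
end
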