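import Pool.Agent.Lib.MP_1dedaf_gt.Mg.G027
import Pool.Agent.Lib.MP_1dedaf_gt.DK.A0
import Pool.Agent.Lib.MP_1dedaf_gt.Mg.G003

section

/-!
# TASK EP TE1: limits of the basic functionals under pointwise bounded convergence

`te_int`: `∫_a^b = ∫_0^b - ∫_0^a`, so let `as = 0`. `∫_0^{bs j} fs j = ∫ indicator (Ioc 0 (bs j)) (fs j)` over `ℝ` (`0 ≤ bs j ≤ ws j`). Dominated convergence (`MeasureTheory.tendsto_integral_of_dominated_convergence`) with the bound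
`indicator (Ioc 0 R) (fun _ => C)`, `R` a bound for the convergent sequence `ws`: for `x ≤ 0` all are `0`; for `0 < x < b`: eventually `x < bs j`, and `x < b ≤ w` gives `fs j x → f x`; for `x > b`: eventually `bs j < x` and the value is `0`; `x = b` is a null set.
Note `0 ≤ a, b ≤ w` (limits). `te_M` etc.: all integrands are continuous, uniformly bounded (`|p| , |q|, w, |l|, |u|` are bounded: convergent sequences, `bd`) on `[0, (Ks j).w]` and converge at each `x ∈ Ioo 0 K.w`: first `rl`, `ru`, `1/rl`, `1/ru`, `mu` (`q ≠ 0`; `(Ks j).q` may be `0` for finitely many `j`: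
replace `Ks j` by `K` for these `j`, or use `eventually`: `te_int` can be applied to the sequence shifted by `N`, `tendsto_add_atTop_iff_nat`), then `Xl x = ∫_0^x rl` (`te_int` with `as = 0`, `bs = x` — for fixed `x < K.w`, `x ≤ (Ks j).w` only eventually: again shift, or use `bs j = min x (Ks j).w`), `mr x = ∫_x^w mu`, `Xu = Xl - q mr`, then `M`, `xb`, `N i`.
Uniform bounds: `0 ≤ Xl x ≤ C w` etc.
-/

set_option autoImplicit false

open MeasureTheory Set Filter Topology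

namespace Pool.Agent.Lib.MP_1dedaf_gt.DK

/-- Pointwise bounded convergence of column data. -/
structure DLim (Ks : ℕ → Dat) (K : Dat) : Prop where
  hq : K.q ≠ 0
  hw : 0 ≤ K.w
  kl : Continuous K.l
  ku : Continuous K.u
  ws : ∀ j, 0 ≤ (Ks j).w
  cl : ∀ j, Continuous (Ks j).l
  cu : ∀ j, Continuous (Ks j).u
  p : Tendsto (fun j => (Ks j).p) atTop (𝓝 K.p)
  q : Tendsto (fun j => (Ks j).q) atTop (𝓝 K.q)
  w : Tendsto (fun j => (Ks j).w) atTop (𝓝 K.w)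
  bd : ∃ B : ℝ, ∀ j, ∀ x ∈ Icc 0 (Ks j).w, |(Ks j).l x| ≤ B ∧ |(Ks j).u x| ≤ B
  l : ∀ x ∈ Ioo 0 K.w, Tendsto (fun j => (Ks j).l x) atTop (𝓝 (K.l x))
  u : ∀ x ∈ Ioo 0 K.w, Tendsto (fun j => (Ks j).u x) atTop (𝓝 (K.u x))

/-- Bounded pointwise convergence of continuous functions. -/
structure TE1Cv (ws : ℕ → ℝ) (w : ℝ) (fs : ℕ → ℝ → ℝ) (f : ℝ → ℝ) : Prop where
  cs : ∀ j, Continuous (fs j)
  c : Continuous f
  bd : ∃ B : ℝ, ∀ j, ∀ x ∈ Icc 0 (ws j), |fs j x| ≤ B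
  l : ∀ x ∈ Ioo 0 w, Tendsto (fun j => fs j x) atTop (𝓝 (f x))

theorem te1_int0 {fs : ℕ → ℝ → ℝ} {f : ℝ → ℝ} {bs ws : ℕ → ℝ} {b w : ℝ} (h : TE1Cv ws w fs f)
    (hw : Tendsto ws atTop (𝓝 w))
    (hb : Tendsto bs atTop (𝓝 b)) (hbs : ∀ j, bs j ∈ Icc 0 (ws j)) :
    Tendsto (fun j => ∫ x in (0:ℝ)..(bs j), fs j x) atTop (𝓝 (∫ x in (0:ℝ)..b, f x)) := by
  obtain ⟨hc, hf, ⟨B, hB⟩, hl⟩ := h
  have hb0 : 0 ≤ b := ge_of_tendsto' hb fun j => (hbs j).1
  have hbw : b ≤ w := le_of_tendsto_of_tendsto' hb hw fun j => (hbs j).2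
  obtain ⟨R, hR⟩ : ∃ R : ℝ, ∀ j, bs j ≤ R := by
    obtain ⟨R, hR⟩ := hb.bddAbove_range
    exact ⟨R, fun j => hR ⟨j, rfl⟩⟩
  have e1 : ∀ j, ∫ x in (0:ℝ)..(bs j), fs j x = ∫ x, (Ioc 0 (bs j)).indicator (fs j) x := by
    intro j
    rw [intervalIntegral.integral_of_le (hbs j).1, integral_indicator measurableSet_Ioc]
  have e2 : ∫ x in (0:ℝ)..b, f x = ∫ x, (Ioc 0 b).indicator f x := by
    rw [intervalIntegral.integral_of_le hb0, integral_indicator measurableSet_Ioc]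
  rw [e2]
  simp_rw [e1]
  refine tendsto_integral_of_dominated_convergence ((Ioc 0 R).indicator fun _ => max B 0) ?_ ?_ ?_ ?_
  · intro j
    exact ((hc j).measurable.indicator measurableSet_Ioc).aestronglyMeasurable
  · rw [integrable_indicator_iff measurableSet_Ioc]
    exact integrableOn_const (by simp)
  · intro j
    refine Eventually.of_forall fun x => ?_
    by_cases hx : x ∈ Ioc 0 (bs j)
    · rw [indicator_of_mem hx, indicator_of_mem (show x ∈ Ioc 0 R from ⟨hx.1, hx.2.trans (hR j)⟩)]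
      exact (hB j x ⟨hx.1.le, hx.2.trans (hbs j).2⟩).trans (le_max_left _ _)
    · rw [indicator_of_notMem hx, norm_zero]
      exact indicator_nonneg (fun _ _ => le_max_right _ _) _
  · have hnull : ∀ᵐ x : ℝ, x ≠ b := by simp [ae_iff, measure_singleton]
    filter_upwards [hnull] with x hx
    rcases le_or_gt x 0 with h0 | h0
    · have : ∀ j, (Ioc 0 (bs j)).indicator (fs j) x = 0 := fun j => indicator_of_notMem (fun h => absurd h.1 (not_lt.mpr h0)) _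
      rw [indicator_of_notMem (fun h => absurd h.1 (not_lt.mpr h0))]
      simp_rw [this]
      exact tendsto_const_nhds
    · rcases lt_or_gt_of_ne hx with h1 | h1
      · have hev : ∀ᶠ j in atTop, x < bs j := hb.eventually (lt_mem_nhds h1)
        rw [indicator_of_mem (show x ∈ Ioc 0 b from ⟨h0, h1.le⟩)]
        refine (hl x ⟨h0, h1.trans_le hbw⟩).congr' ?_
        filter_upwards [hev] with j hj
        rw [indicator_of_mem (show x ∈ Ioc 0 (bs j) from ⟨h0, hj.le⟩)]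
      · have hev : ∀ᶠ j in atTop, bs j < x := hb.eventually (gt_mem_nhds h1)
        rw [indicator_of_notMem (fun h => absurd h.2 (not_le.mpr h1))]
        refine tendsto_const_nhds.congr' ?_
        filter_upwards [hev] with j hj
        rw [indicator_of_notMem (fun h => absurd h.2 (not_le.mpr hj))]

namespace TE1Cv

theorem mul {ws : ℕ → ℝ} {w : ℝ} {fs gs : ℕ → ℝ → ℝ} {f g : ℝ → ℝ} (h : TE1Cv ws w fs f) (k : TE1Cv ws w gs g) :
    TE1Cv ws w (fun j x => fs j x * gs j x) (fun x => f x * g x) where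
  cs j := (h.cs j).mul (k.cs j)
  c := h.c.mul k.c
  bd := by
    obtain ⟨B, hB⟩ := h.bd
    obtain ⟨C, hC⟩ := k.bd
    refine ⟨B * C, fun j x hx => ?_⟩
    rw [abs_mul]
    exact mul_le_mul (hB j x hx) (hC j x hx) (abs_nonneg _) ((abs_nonneg _).trans (hB j x hx))
  l x hx := (h.l x hx).mul (k.l x hx)

theorem sub {ws : ℕ → ℝ} {w : ℝ} {fs gs : ℕ → ℝ → ℝ} {f g : ℝ → ℝ} (h : TE1Cv ws w fs f) (k : TE1Cv ws w gs g) :
    TE1Cv ws w (fun j x => fs j x - gs j x) (fun x => f x - g x) where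
  cs j := (h.cs j).sub (k.cs j)
  c := h.c.sub k.c
  bd := by
    obtain ⟨B, hB⟩ := h.bd
    obtain ⟨C, hC⟩ := k.bd
    refine ⟨B + C, fun j x hx => ?_⟩
    have h1 := abs_le.mp (hB j x hx)
    have h2 := abs_le.mp (hC j x hx)
    exact abs_le.mpr ⟨by linarith [h1.1, h2.2], by linarith [h1.2, h2.1]⟩
  l x hx := (h.l x hx).sub (k.l x hx)

theorem add {ws : ℕ → ℝ} {w : ℝ} {fs gs : ℕ → ℝ → ℝ} {f g : ℝ → ℝ} (h : TE1Cv ws w fs f) (k : TE1Cv ws w gs g) :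
    TE1Cv ws w (fun j x => fs j x + gs j x) (fun x => f x + g x) where
  cs j := (h.cs j).add (k.cs j)
  c := h.c.add k.c
  bd := by
    obtain ⟨B, hB⟩ := h.bd
    obtain ⟨C, hC⟩ := k.bd
    refine ⟨B + C, fun j x hx => ?_⟩
    have h1 := abs_le.mp (hB j x hx)
    have h2 := abs_le.mp (hC j x hx)
    exact abs_le.mpr ⟨by linarith [h1.1, h2.1], by linarith [h1.2, h2.2]⟩
  l x hx := (h.l x hx).add (k.l x hx)

theorem seq {ws : ℕ → ℝ} {w : ℝ} {cs : ℕ → ℝ} {c : ℝ} (h : Tendsto cs atTop (𝓝 c)) :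
    TE1Cv ws w (fun j _ => cs j) (fun _ => c) where
  cs _ := continuous_const
  c := continuous_const
  bd := by
    obtain ⟨R, hR⟩ := h.abs.bddAbove_range
    exact ⟨R, fun j x _ => hR ⟨j, rfl⟩⟩
  l _ _ := h

theorem idd {ws : ℕ → ℝ} {w : ℝ} (h : Tendsto ws atTop (𝓝 w)) :
    TE1Cv ws w (fun _ x => x) (fun x => x) where
  cs _ := continuous_id
  c := continuous_id
  bd := by
    obtain ⟨R, hR⟩ := h.bddAbove_range
    refine ⟨R, fun j x hx => ?_⟩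
    rw [abs_of_nonneg hx.1]
    exact hx.2.trans (hR ⟨j, rfl⟩)
  l _ _ := tendsto_const_nhds

theorem pow {ws : ℕ → ℝ} {w : ℝ} {fs : ℕ → ℝ → ℝ} {f : ℝ → ℝ} (h : TE1Cv ws w fs f) (i : ℕ) :
    TE1Cv ws w (fun j x => fs j x ^ i) (fun x => f x ^ i) where
  cs j := (h.cs j).pow i
  c := h.c.pow i
  bd := by
    obtain ⟨B, hB⟩ := h.bd
    refine ⟨B ^ i, fun j x hx => ?_⟩
    rw [abs_pow]
    exact pow_le_pow_left₀ (abs_nonneg _) (hB j x hx) i
  l x hx := (h.l x hx).pow i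

theorem exp {ws : ℕ → ℝ} {w : ℝ} {fs : ℕ → ℝ → ℝ} {f : ℝ → ℝ} (h : TE1Cv ws w fs f) :
    TE1Cv ws w (fun j x => Real.exp (fs j x)) (fun x => Real.exp (f x)) where
  cs j := Real.continuous_exp.comp (h.cs j)
  c := Real.continuous_exp.comp h.c
  bd := by
    obtain ⟨B, hB⟩ := h.bd
    refine ⟨Real.exp B, fun j x hx => ?_⟩
    rw [abs_of_pos (Real.exp_pos _)]
    exact Real.exp_le_exp.mpr ((le_abs_self _).trans (hB j x hx))
  l x hx := (Real.continuous_exp.tendsto _).comp (h.l x hx)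

theorem int0 {ws : ℕ → ℝ} {w : ℝ} {fs : ℕ → ℝ → ℝ} {f : ℝ → ℝ} (h : TE1Cv ws w fs f) (hw : Tendsto ws atTop (𝓝 w)) (hw0 : ∀ j, 0 ≤ ws j) :
    TE1Cv ws w (fun j x => ∫ t in (0:ℝ)..x, fs j t) (fun x => ∫ t in (0:ℝ)..x, f t) where
  cs j := intervalIntegral.continuous_primitive (fun a b => (h.cs j).intervalIntegrable a b) 0
  c := intervalIntegral.continuous_primitive (fun a b => h.c.intervalIntegrable a b) 0
  bd := by
    obtain ⟨B, hB⟩ := h.bd
    obtain ⟨R, hR⟩ := hw.bddAbove_range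
    refine ⟨max B 0 * R, fun j x hx => ?_⟩
    have h1 : ‖∫ t in (0:ℝ)..x, fs j t‖ ≤ max B 0 * |x - 0| := by
      refine intervalIntegral.norm_integral_le_of_norm_le_const fun t ht => ?_
      rw [uIoc_of_le hx.1] at ht
      exact (hB j t ⟨ht.1.le, ht.2.trans hx.2⟩).trans (le_max_left _ _)
    rw [Real.norm_eq_abs, sub_zero, abs_of_nonneg hx.1] at h1
    exact h1.trans (mul_le_mul_of_nonneg_left (hx.2.trans (hR ⟨j, rfl⟩)) (le_max_right _ _))
  l x hx := by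
    have hm : Tendsto (fun j => min x (ws j)) atTop (𝓝 x) := by
      have := (tendsto_const_nhds (x := x)).min hw
      rwa [min_eq_left hx.2.le] at this
    have h1 := te1_int0 h hw hm fun j => ⟨le_min hx.1.le (hw0 j), min_le_right _ _⟩
    refine h1.congr' ?_
    filter_upwards [hw.eventually (lt_mem_nhds hx.2)] with j hj
    rw [min_eq_left hj.le]

theorem val {ws : ℕ → ℝ} {w : ℝ} {fs : ℕ → ℝ → ℝ} {f : ℝ → ℝ} (h : TE1Cv ws w fs f) (hw : Tendsto ws atTop (𝓝 w)) (hw0 : ∀ j, 0 ≤ ws j) :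
    Tendsto (fun j => ∫ t in (0:ℝ)..(ws j), fs j t) atTop (𝓝 (∫ t in (0:ℝ)..w, f t)) :=
  te1_int0 h hw hw fun j => ⟨hw0 j, le_rfl⟩

theorem int1 {ws : ℕ → ℝ} {w : ℝ} {fs : ℕ → ℝ → ℝ} {f : ℝ → ℝ} (h : TE1Cv ws w fs f) (hw : Tendsto ws atTop (𝓝 w)) (hw0 : ∀ j, 0 ≤ ws j) :
    TE1Cv ws w (fun j x => ∫ t in x..(ws j), fs j t) (fun x => ∫ t in x..w, f t) := by
  have h1 := (seq (ws := ws) (w := w) (h.val hw hw0)).sub (h.int0 hw hw0)
  have e1 : (fun j x => (∫ t in (0:ℝ)..(ws j), fs j t) - ∫ t in (0:ℝ)..x, fs j t) = fun j x => ∫ t in x..(ws j), fs j t := by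
    funext j x
    exact intervalIntegral.integral_interval_sub_left ((h.cs j).intervalIntegrable _ _) ((h.cs j).intervalIntegrable _ _)
  have e2 : (fun x => (∫ t in (0:ℝ)..w, f t) - ∫ t in (0:ℝ)..x, f t) = fun x => ∫ t in x..w, f t := by
    funext x
    exact intervalIntegral.integral_interval_sub_left (h.c.intervalIntegrable _ _) (h.c.intervalIntegrable _ _)
  rw [e1, e2] at h1
  exact h1

end TE1Cv

theorem te_int {fs : ℕ → ℝ → ℝ} {f : ℝ → ℝ} {as bs ws : ℕ → ℝ} {a b w : ℝ} (hc : ∀ j, Continuous (fs j)) (hf : Continuous f)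
    (hw : Tendsto ws atTop (𝓝 w)) (hB : ∃ B : ℝ, ∀ j, ∀ x ∈ Icc 0 (ws j), |fs j x| ≤ B)
    (hl : ∀ x ∈ Ioo 0 w, Tendsto (fun j => fs j x) atTop (𝓝 (f x)))
    (ha : Tendsto as atTop (𝓝 a)) (hb : Tendsto bs atTop (𝓝 b)) (has : ∀ j, as j ∈ Icc 0 (ws j)) (hbs : ∀ j, bs j ∈ Icc 0 (ws j)) :
    Tendsto (fun j => ∫ x in (as j)..(bs j), fs j x) atTop (𝓝 (∫ x in a..b, f x)) := by
  have h : TE1Cv ws w fs f := ⟨hc, hf, hB, hl⟩
  have h1 := (te1_int0 h hw hb hbs).sub (te1_int0 h hw ha has)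
  rw [intervalIntegral.integral_interval_sub_left (hf.intervalIntegrable _ _) (hf.intervalIntegrable _ _)] at h1
  refine h1.congr fun j => ?_
  exact intervalIntegral.integral_interval_sub_left ((hc j).intervalIntegrable _ _) ((hc j).intervalIntegrable _ _)

namespace DLim

variable {Ks : ℕ → Dat} {K : Dat}

theorem cvl (h : DLim Ks K) : TE1Cv (fun j => (Ks j).w) K.w (fun j => (Ks j).l) K.l :=
  ⟨h.cl, h.kl, by obtain ⟨B, hB⟩ := h.bd; exact ⟨B, fun j x hx => (hB j x hx).1⟩, h.l⟩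

theorem cvu (h : DLim Ks K) : TE1Cv (fun j => (Ks j).w) K.w (fun j => (Ks j).u) K.u :=
  ⟨h.cu, h.ku, by obtain ⟨B, hB⟩ := h.bd; exact ⟨B, fun j x hx => (hB j x hx).2⟩, h.u⟩

theorem cvel (h : DLim Ks K) : TE1Cv (fun j => (Ks j).w) K.w (fun j x => (Ks j).p * x + (Ks j).q * (Ks j).l x) (fun x => K.p * x + K.q * K.l x) :=
  ((TE1Cv.seq h.p).mul (TE1Cv.idd h.w)).add ((TE1Cv.seq h.q).mul h.cvl)

theorem cveu (h : DLim Ks K) : TE1Cv (fun j => (Ks j).w) K.w (fun j x => (Ks j).p * x + (Ks j).q * (Ks j).u x) (fun x => K.p * x + K.q * K.u x) :=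
  ((TE1Cv.seq h.p).mul (TE1Cv.idd h.w)).add ((TE1Cv.seq h.q).mul h.cvu)

theorem cvrl (h : DLim Ks K) : TE1Cv (fun j => (Ks j).w) K.w (fun j => (Ks j).rl) K.rl := h.cvel.exp

theorem cvru (h : DLim Ks K) : TE1Cv (fun j => (Ks j).w) K.w (fun j => (Ks j).ru) K.ru := h.cveu.exp

theorem cvil (h : DLim Ks K) : TE1Cv (fun j => (Ks j).w) K.w (fun j x => 1 / (Ks j).rl x) (fun x => 1 / K.rl x) := by
  have h1 := ((TE1Cv.seq (ws := fun j => (Ks j).w) (w := K.w) (tendsto_const_nhds (x := (0:ℝ)) (f := atTop))).sub h.cvel).exp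
  have e1 : (fun (j : ℕ) x => Real.exp (0 - ((Ks j).p * x + (Ks j).q * (Ks j).l x))) = fun j x => 1 / (Ks j).rl x := by
    funext j x
    rw [Dat.rl, zero_sub, Real.exp_neg, one_div]
  have e2 : (fun x => Real.exp (0 - (K.p * x + K.q * K.l x))) = fun x => 1 / K.rl x := by
    funext x
    rw [Dat.rl, zero_sub, Real.exp_neg, one_div]
  rw [e1, e2] at h1
  exact h1

theorem cviu (h : DLim Ks K) : TE1Cv (fun j => (Ks j).w) K.w (fun j x => 1 / (Ks j).ru x) (fun x => 1 / K.ru x) := by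
  have h1 := ((TE1Cv.seq (ws := fun j => (Ks j).w) (w := K.w) (tendsto_const_nhds (x := (0:ℝ)) (f := atTop))).sub h.cveu).exp
  have e1 : (fun (j : ℕ) x => Real.exp (0 - ((Ks j).p * x + (Ks j).q * (Ks j).u x))) = fun j x => 1 / (Ks j).ru x := by
    funext j x
    rw [Dat.ru, zero_sub, Real.exp_neg, one_div]
  have e2 : (fun x => Real.exp (0 - (K.p * x + K.q * K.u x))) = fun x => 1 / K.ru x := by
    funext x
    rw [Dat.ru, zero_sub, Real.exp_neg, one_div]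
  rw [e1, e2] at h1
  exact h1

theorem cvmu (h : DLim Ks K) : TE1Cv (fun j => (Ks j).w) K.w (fun j => (Ks j).mu) K.mu :=
  (h.cvru.sub h.cvrl).mul (TE1Cv.seq (h.q.inv₀ h.hq))

theorem cvXl (h : DLim Ks K) : TE1Cv (fun j => (Ks j).w) K.w (fun j => (Ks j).Xl) K.Xl := h.cvrl.int0 h.w h.ws

theorem cvmr (h : DLim Ks K) : TE1Cv (fun j => (Ks j).w) K.w (fun j => (Ks j).mr) K.mr := h.cvmu.int1 h.w h.ws

theorem cvXu (h : DLim Ks K) : TE1Cv (fun j => (Ks j).w) K.w (fun j => (Ks j).Xu) K.Xu :=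
  h.cvXl.sub ((TE1Cv.seq h.q).mul h.cvmr)

end DLim

theorem te_M {Ks : ℕ → Dat} {K : Dat} (h : DLim Ks K) : Tendsto (fun j => (Ks j).M) atTop (𝓝 K.M) :=
  h.cvmu.val h.w h.ws

theorem te_xb {Ks : ℕ → Dat} {K : Dat} (h : DLim Ks K) : Tendsto (fun j => (Ks j).xb) atTop (𝓝 K.xb) :=
  ((TE1Cv.idd h.w).mul h.cvmu).val h.w h.ws

theorem te_N {Ks : ℕ → Dat} {K : Dat} (h : DLim Ks K) (i : ℕ) : Tendsto (fun j => (Ks j).N i) atTop (𝓝 (K.N i)) := by
  have h1 := (((h.cvXl.pow i).mul h.cvil).sub ((h.cvXu.pow i).mul h.cviu)).val h.w h.ws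
  have e1 : (fun j => ∫ t in (0:ℝ)..(Ks j).w, ((Ks j).Xl t ^ i * (1 / (Ks j).rl t) - (Ks j).Xu t ^ i * (1 / (Ks j).ru t))) = fun j => (Ks j).N i := by
    funext j
    unfold Dat.N
    refine intervalIntegral.integral_congr fun t _ => ?_
    simp only [mul_one_div]
  have e2 : (∫ t in (0:ℝ)..K.w, (K.Xl t ^ i * (1 / K.rl t) - K.Xu t ^ i * (1 / K.ru t))) = K.N i := by
    unfold Dat.N
    refine intervalIntegral.integral_congr fun t _ => ?_
    simp only [mul_one_div]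
  rw [e1, e2] at h1
  exact h1

theorem te_Xl {Ks : ℕ → Dat} {K : Dat} (h : DLim Ks K) {zs : ℕ → ℝ} {z : ℝ} (hz : Tendsto zs atTop (𝓝 z)) (hzs : ∀ j, zs j ∈ Icc 0 (Ks j).w) :
    Tendsto (fun j => (Ks j).Xl (zs j)) atTop (𝓝 (K.Xl z)) :=
  te1_int0 h.cvrl h.w hz hzs

theorem te_Ri {Ks : ℕ → Dat} {K : Dat} (h : DLim Ks K) {zs : ℕ → ℝ} {z : ℝ} (hz : Tendsto zs atTop (𝓝 z)) (hzs : ∀ j, zs j ∈ Icc 0 (Ks j).w) :
    Tendsto (fun j => (Ks j).Ri (zs j)) atTop (𝓝 (K.Ri z)) ∧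
      Tendsto (fun j => ∫ t in (0:ℝ)..(zs j), (Ks j).Xl t / (Ks j).rl t) atTop (𝓝 (∫ t in (0:ℝ)..z, K.Xl t / K.rl t)) := by
  refine ⟨te1_int0 h.cvil h.w hz hzs, ?_⟩
  have h1 := te1_int0 (h.cvXl.mul h.cvil) h.w hz hzs
  simp only [mul_one_div] at h1
  exact h1

end Pool.Agent.Lib.MP_1dedaf_gt.DK
end

section

/-!
# TASK EP TE2: limits of the derived functionals

`K.Reg`, so `N 0 ≠ 0`, `D > 0`, `M > 0`, `q ≠ 0` in the limit (`N0_ne`, `D_pos`, `M_pos` in A1). `D = N 0 / q`, `a = N 1 / N 0`, `V = N 2 - a N 1`, `psi = - V / (q M)`, `Xi z = a Ri z - ∫_0^z Xl/rl` (`intervalIntegral.integral_sub`; `(a - Xl)/rl`), `Phi = psi - Xi`,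
`j z k = (z - 2 xb/M + (a - Xl z)/rl z - (p + q k) Phi z)/q`; `rl (zs j) = exp (p zs + q l (zs)) → rl z` by `hl`. All are limits of sums, products and quotients with nonzero denominators.
-/

set_option autoImplicit false

open MeasureTheory Set Filter Topology

namespace Pool.Agent.Lib.MP_1dedaf_gt.DK

theorem te_D {Ks : ℕ → Dat} {K : Dat} (h : DLim Ks K) : Tendsto (fun j => (Ks j).D) atTop (𝓝 K.D) := by
  unfold Dat.D
  exact (te_N h 0).div h.q h.hq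

theorem te_a {Ks : ℕ → Dat} {K : Dat} (h : DLim Ks K) (hK : K.Reg) : Tendsto (fun j => (Ks j).a) atTop (𝓝 K.a) := by
  unfold Dat.a
  exact (te_N h 1).div (te_N h 0) (Dat.N0_ne K hK)

private theorem TE2_Xi (K : Dat) (cl : Continuous K.l) (z : ℝ) :
    K.Xi z = K.a * K.Ri z - ∫ t in (0:ℝ)..z, K.Xl t / K.rl t := by
  have crl := K.rl_cont cl
  have cXl := K.Xl_cont cl
  have hne : ∀ x, K.rl x ≠ 0 := fun x => (K.rl_pos x).ne'
  have c1 : Continuous fun t => K.a * (1 / K.rl t) :=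
    continuous_const.mul (continuous_const.div crl hne)
  have c2 : Continuous fun t => K.Xl t / K.rl t := cXl.div crl hne
  unfold Dat.Xi Dat.Ri
  rw [← intervalIntegral.integral_const_mul, ← intervalIntegral.integral_sub (c1.intervalIntegrable _ _) (c2.intervalIntegrable _ _)]
  refine intervalIntegral.integral_congr fun t _ => ?_
  show (K.a - K.Xl t) / K.rl t = K.a * (1 / K.rl t) - K.Xl t / K.rl t
  rw [sub_div, mul_one_div]

theorem te_Phi {Ks : ℕ → Dat} {K : Dat} (h : DLim Ks K) (hK : K.Reg) {zs : ℕ → ℝ} {z : ℝ} (hz : Tendsto zs atTop (𝓝 z)) (hzs : ∀ j, zs j ∈ Icc 0 (Ks j).w) :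
    Tendsto (fun j => (Ks j).Phi (zs j)) atTop (𝓝 (K.Phi z)) := by
  have ha := te_a h hK
  have hR := te_Ri h hz hzs
  have hXi : Tendsto (fun j => (Ks j).Xi (zs j)) atTop (𝓝 (K.Xi z)) := by
    have h1 := (ha.mul hR.1).sub hR.2
    rw [TE2_Xi K h.kl z]
    refine h1.congr fun j => ?_
    rw [TE2_Xi (Ks j) (h.cl j) (zs j)]
  have hM : K.M ≠ 0 := (Dat.M_pos K hK).ne'
  have hpsi : Tendsto (fun j => (Ks j).psi) atTop (𝓝 K.psi) := by
    unfold Dat.psi Dat.V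
    exact (((te_N h 2).sub (ha.mul (te_N h 1))).neg).div (h.q.mul (te_M h)) (mul_ne_zero h.hq hM)
  unfold Dat.Phi
  exact hpsi.sub hXi

theorem te_j {Ks : ℕ → Dat} {K : Dat} (h : DLim Ks K) (hK : K.Reg) {zs : ℕ → ℝ} {z : ℝ} (hz : Tendsto zs atTop (𝓝 z)) (hzs : ∀ j, zs j ∈ Icc 0 (Ks j).w)
    (hl : Tendsto (fun j => (Ks j).l (zs j)) atTop (𝓝 (K.l z))) {ks : ℕ → ℝ} {k : ℝ} (hk : Tendsto ks atTop (𝓝 k)) :
    Tendsto (fun j => (Ks j).j (zs j) (ks j)) atTop (𝓝 (K.j z k)) := by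
  have ha := te_a h hK
  have hM : K.M ≠ 0 := (Dat.M_pos K hK).ne'
  have hrl : Tendsto (fun j => (Ks j).rl (zs j)) atTop (𝓝 (K.rl z)) := by
    unfold Dat.rl
    exact (Real.continuous_exp.tendsto _).comp ((h.p.mul hz).add (h.q.mul hl))
  have hXl := te_Xl h hz hzs
  have hPhi := te_Phi h hK hz hzs
  unfold Dat.j
  exact (((hz.sub ((tendsto_const_nhds.mul (te_xb h)).div (te_M h) hM)).add
    ((ha.sub hXl).div hrl (K.rl_pos z).ne')).sub ((h.p.add (h.q.mul hk)).mul hPhi)).div h.q h.hq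

end Pool.Agent.Lib.MP_1dedaf_gt.DK
end
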