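import Pool.Agent.Lib.MP_1dedaf_gt.DK.EP.CB2
import Pool.Agent.Lib.MP_1dedaf_gt.Mg.G033

section

/-!
# TASK EP CC0: uniform bounds for the class

`cl_bd`: `L`, `u` are continuous, so bounded on `[0, w]`; `L (c + x) ≤ l x ≤ u (c + x)` for members (`in_cx`: `lu`), `c + x ∈ [0, w]`. `val_bd`: `bound_j` (NA/A2) with `B := max H K0` (also `≥ 1`), `b := |q|` for the member (`in_cx`: `Reg`), `z - c ∈ [0, w - c]`; `exp (p c) ≤ exp (H * H)`.
`val_lo`: (`dat`, `val` and `Ok` do not depend on `k1`.) `neg_facts` for `B.wk k1`: `val = exp (p c) M j (x0 - c) kt`, `Phi (x0 - c) > 0`. With `k := max kt 0`: `j (x0 - c) kt = j (x0 - c) k - (kt - k) Phi (x0 - c) ≥ j (x0 - c) k` (`j_step`), `|k| ≤ |k0|`, `bound_j`.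
-/

set_option autoImplicit false

open MeasureTheory Set Filter Topology

namespace Pool.Agent.Lib.MP_1dedaf_gt.DK

/-- The same data with another lower bound for `kt`. -/
def EB.wk (B : EB) (k1 : ℝ) : EB := ⟨B.p, B.q, B.w, B.L, B.u, B.S, B.k0, k1⟩

theorem wk_ok (B : EB) (hB : B.Ok) (k1 : ℝ) : (B.wk k1).Ok := by
  exact ⟨hB.hq, hB.hw, hB.cL, hB.cu, hB.vL, hB.vu, hB.Lu, hB.le, hB.cov⟩

theorem cl_bd (B : EB) (hB : B.Ok) : ∃ H : ℝ, 0 < H ∧ |B.p| ≤ H ∧ |B.q| ≤ H ∧ B.w ≤ H ∧ |B.k0| ≤ H ∧ (∀ x ∈ Icc 0 B.w, |B.L x| ≤ H ∧ |B.u x| ≤ H) ∧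
    ∀ (k1 : ℝ) (θ : Th), (B.wk k1).In θ → ∀ x ∈ Icc 0 (B.dat θ).w, |(B.dat θ).l x| ≤ H ∧ |(B.dat θ).u x| ≤ H := by
  obtain ⟨HL, hHL⟩ := (isCompact_Icc (a := (0:ℝ)) (b := B.w)).exists_bound_of_continuousOn hB.cL.continuousOn
  obtain ⟨Hu, hHu⟩ := (isCompact_Icc (a := (0:ℝ)) (b := B.w)).exists_bound_of_continuousOn hB.cu.continuousOn
  have hw := hB.hw
  have h1 := abs_nonneg B.p
  have h2 := abs_nonneg B.q
  have h3 := abs_nonneg B.k0
  have h4 := abs_nonneg HL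
  have h5 := abs_nonneg Hu
  have h6 := le_abs_self HL
  have h7 := le_abs_self Hu
  refine ⟨|B.p| + |B.q| + B.w + |B.k0| + |HL| + |Hu| + 1, by linarith, by linarith, by linarith, by linarith, by linarith, ?_, ?_⟩
  · intro x hx
    have h8 := hHL x hx
    have h9 := hHu x hx
    rw [Real.norm_eq_abs] at h8 h9
    exact ⟨by linarith, by linarith⟩
  · intro k1 θ hθ x hx
    have hc := (in_cx (B.wk k1) (wk_ok B hB k1) θ hθ).1
    have hx' : x ∈ Icc 0 (B.w - θ.c) := hx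
    have hcx : θ.c + x ∈ Icc 0 B.w := ⟨by linarith [hθ.c0, hx'.1], by linarith [hx'.2]⟩
    have h8 := hHL _ hcx
    have h9 := hHu _ hcx
    rw [Real.norm_eq_abs] at h8 h9
    have h10 : (B.dat θ).l x ≤ B.u (θ.c + x) := hc.lu x hx
    have h11 : B.L (θ.c + x) ≤ (B.dat θ).l x := le_max_left _ _
    have h12 := abs_le.1 h8
    have h13 := abs_le.1 h9
    refine ⟨abs_le.2 ⟨by linarith, by linarith⟩, ?_⟩
    show |B.u (θ.c + x)| ≤ _
    linarith

theorem val_bd (B : EB) (hB : B.Ok) (K0 : ℝ) : ∃ C : ℝ, 0 ≤ C ∧ ∀ θ : Th, B.In θ → |θ.kt| ≤ K0 → |B.val θ| ≤ C * (B.dat θ).M := by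
  obtain ⟨H, hH, hp, hq, hw, hk, hLu, hlu⟩ := cl_bd B hB
  obtain ⟨C, hC, hb⟩ := bound_j (max H K0) |B.q| (lt_max_of_lt_left hH) (abs_pos.2 hB.hq)
  have hHm : H ≤ max H K0 := le_max_left _ _
  refine ⟨Real.exp (H * H) * C, by positivity, ?_⟩
  intro θ hθ hkt
  have hc := (in_cx B hB θ hθ).1
  have hM := Dat.M_pos (B.dat θ) hc.toReg
  have hcw : θ.c ≤ B.w := hθ.cw.le
  have h1 := hb (B.dat θ) hc.toReg (hp.trans hHm) (hq.trans hHm) (le_refl _)
    (by show B.w - θ.c ≤ _; linarith [hθ.c0])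
    (fun x hx => ⟨(hlu B.k1 θ hθ x hx).1.trans hHm, (hlu B.k1 θ hθ x hx).2.trans hHm⟩)
    (θ.z - θ.c) ⟨by linarith [hθ.cz], by show θ.z - θ.c ≤ B.w - θ.c; linarith [hθ.zw]⟩ θ.kt (hkt.trans (le_max_right _ _))
  have h2 : B.p * θ.c ≤ H * H := by
    have h3 : B.p * θ.c ≤ |B.p| * θ.c := mul_le_mul_of_nonneg_right (le_abs_self _) hθ.c0
    have h4 : |B.p| * θ.c ≤ H * H := mul_le_mul hp (hcw.trans hw) hθ.c0 hH.le
    linarith
  unfold EB.val
  rw [abs_mul, abs_of_pos (Real.exp_pos _), mul_assoc]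
  exact mul_le_mul (Real.exp_le_exp.2 h2) h1 (abs_nonneg _) (Real.exp_pos _).le

theorem val_lo {m : ℕ} (hm : PosK m) (B : EB) (hB : B.Ok) (hS : B.S.card ≤ m) :
    ∃ C : ℝ, 0 ≤ C ∧ ∀ (k1 : ℝ) (θ : Th), (B.wk k1).In θ → B.val θ < 0 → - (C * (B.dat θ).M) ≤ B.val θ := by
  obtain ⟨H, hH, hp, hq, hw, hk, hLu, hlu⟩ := cl_bd B hB
  obtain ⟨C, hC, hb⟩ := bound_j H |B.q| hH (abs_pos.2 hB.hq)
  refine ⟨Real.exp (H * H) * C, by positivity, ?_⟩
  intro k1 θ hθ hneg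
  have hc : (B.dat θ).Cx := (in_cx (B.wk k1) (wk_ok B hB k1) θ hθ).1
  have hM := Dat.M_pos (B.dat θ) hc.toReg
  have hcw : θ.c ≤ B.w := hθ.cw.le
  have hzw : θ.z ≤ B.w := hθ.zw
  obtain ⟨-, hkk, x0, hx0, hx0z, -, -, -, hj, hPhi, -⟩ := neg_facts hm (B.wk k1) (wk_ok B hB k1) hS θ hθ hneg
  have hj' : (B.dat θ).j (x0 - θ.c) θ.kt = (B.dat θ).j (θ.z - θ.c) θ.kt := hj
  have hPhi' : 0 < (B.dat θ).Phi (x0 - θ.c) := hPhi
  have ht0 : θ.kt ≤ B.k0 := hθ.t0
  have hkb : |max θ.kt 0| ≤ H := by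
    refine le_trans ?_ hk
    rw [abs_of_nonneg (le_max_right _ _)]
    exact max_le (ht0.trans (le_abs_self _)) (abs_nonneg _)
  have h1 := hb (B.dat θ) hc.toReg hp hq (le_refl _)
    (by show B.w - θ.c ≤ _; linarith [hθ.c0])
    (fun x hx => hlu k1 θ hθ x hx)
    (x0 - θ.c) ⟨by linarith, by show x0 - θ.c ≤ B.w - θ.c; linarith⟩ (max θ.kt 0) hkb
  have h2 : B.p * θ.c ≤ H * H := by
    have h3 : B.p * θ.c ≤ |B.p| * θ.c := mul_le_mul_of_nonneg_right (le_abs_self _) hθ.c0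
    have h4 : |B.p| * θ.c ≤ H * H := mul_le_mul hp (hcw.trans hw) hθ.c0 hH.le
    linarith
  have h5 := j_step (B.dat θ) hc.hq (x0 - θ.c) (max θ.kt 0) θ.kt
  have h6 : (B.dat θ).j (x0 - θ.c) (max θ.kt 0) ≤ (B.dat θ).j (θ.z - θ.c) θ.kt := by
    rw [← hj', h5]
    have h7 : θ.kt - max θ.kt 0 ≤ 0 := by linarith [le_max_left θ.kt 0]
    have h8 := mul_nonpos_of_nonpos_of_nonneg h7 hPhi'.le
    linarith
  have h9 : - (C * (B.dat θ).M) ≤ (B.dat θ).M * (B.dat θ).j (θ.z - θ.c) θ.kt := by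
    have h10 := (abs_le.1 h1).1
    have h11 := mul_le_mul_of_nonneg_left h6 hM.le
    linarith
  unfold EB.val
  have h12 : 0 ≤ C * (B.dat θ).M := mul_nonneg hC hM.le
  have h13 := mul_le_mul_of_nonneg_left h9 (Real.exp_pos (B.p * θ.c)).le
  have h14 := mul_le_mul_of_nonneg_right (Real.exp_le_exp.2 h2) h12
  linarith

end Pool.Agent.Lib.MP_1dedaf_gt.DK
end

section

/-!
# TASK EP CD2: normal position

`nf_dat`: `0 + x = x`, `w - 0 = w`, `-nu x + nu xt = nu (xt - x)`, `0 * x + 0 = 0`. `nf_of`: `θ = ⟨ke, he, 0, 0, z, 0⟩`. `neg_facts`: all slopes of `S` are `< ke < 0`, `x0 =: xt` with `0 < xt ≤ z`, `ke xt + he = 0`, `x' ∈ [0, xt)` with `L x' < e x'`, `L ≤ 0` on `[xt, z]`. `nu := -ke > 0`, `he = nu xt`. `x1 := sSup {x ∈ [xt, w] | L x ≤ 0}` (compact, nonempty: contains `xt`, `z`), so `L x1 ≤ 0`,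
`L > 0` on `(x1, w]`, `z ≤ x1`, and `L ≤ 0` on `[xt, x1]` by convexity. `xs := sInf {x ∈ [0, xt] | L x ≤ nu (xt - x)}` (closed, contains `x'`), so `L xs ≤ nu (xt - xs)`, `L x > nu (xt - x)` on `[0, xs)`, `xs ≤ x' < xt`. On `(xs, xt)`: `L - e` is convex, `≤ 0` at `xs` and `xt`, `< 0` at `x'`, so `< 0` (`x` is between `xs` and `x'`, or between `x'` and `xt`, with positive weight at `x'`).
The other fields are the conditions of `In` (`t0`, `t1`, `tw`, `ec`, `fat`). `B.In (nth nu xt x1)`: as for `θ` (`Lz`: `L x1 ≤ 0`, `ez`: `nu (xt - x1) ≤ 0`). `val` is the same: `B.dat θ` and `B.dat (nth ..)` are the same data (he = nu xt), `j z 0 = j x1 0` by `j_aff` (on `[z, x1]`: `l = 0`, as `L ≤ 0`, `e ≤ 0`). So `Min`. `Good` at `x = x1`.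
`nf_cx`, `nf_l`: from `in_cx` and the definition (`max`). `nf_arc`: near set `S ∪ {(-nu, nu xt)}` as in `in_arc`: for `x ∈ [0, x1]` with `L x > 0`, `L x > nu (xt - x)`: `Ok.cov`: otherwise `L x1 - L x ≥ k0 (x1 - x) ≥ 0`, but `L x1 ≤ 0`. `nf_phi`: `neg_facts` for `nth nu xt x1` (its `x0` is `xt`: `-nu x0 + nu xt = 0`).
-/

set_option autoImplicit false

open MeasureTheory Set Filter Topology

namespace Pool.Agent.Lib.MP_1dedaf_gt.DK

theorem nf_dat (B : EB) (nu xt x1 : ℝ) : B.dat (nth nu xt x1) = B.nd nu xt := by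
  unfold EB.dat EB.nd nth
  congr 1
  · simp
  · funext x
    simp only [zero_add, zero_mul, add_zero]
    have : -nu * x + nu * xt = nu * (xt - x) := by ring
    rw [this]
  · funext x
    simp only [zero_add]

private theorem CD2_conv {w : ℝ} {f : ℝ → ℝ} (hf : ConvexOn ℝ (Icc 0 w) f) {x y z : ℝ} (hx : 0 ≤ x)
    (hxy : x < y) (hyz : y < z) (hz : z ≤ w) : (z - x) * f y ≤ (z - y) * f x + (y - x) * f z := by
  have hzx : 0 < z - x := by linarith
  have h := hf.2 (⟨hx, by linarith⟩ : x ∈ Icc 0 w) (⟨by linarith, hz⟩ : z ∈ Icc 0 w)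
    (div_nonneg (by linarith : 0 ≤ z - y) hzx.le) (div_nonneg (by linarith : 0 ≤ y - x) hzx.le)
    (by rw [← add_div, show z - y + (y - x) = z - x by ring, div_self hzx.ne'])
  have e : ((z - y) / (z - x)) • x + ((y - x) / (z - x)) • z = y := by
    simp only [smul_eq_mul]
    have h0 : z - x ≠ 0 := hzx.ne'
    field_simp
    ring
  rw [e] at h
  simp only [smul_eq_mul] at h
  have h2 := mul_le_mul_of_nonneg_left h hzx.le
  have e2 : (z - x) * ((z - y) / (z - x) * f x + (y - x) / (z - x) * f z) =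
      (z - y) * f x + (y - x) * f z := by
    have h0 : z - x ≠ 0 := hzx.ne'
    field_simp
  rw [e2] at h2
  exact h2

private theorem CD2_in (B : EB) {nu xs xt x1 : ℝ} (h : B.Nf nu xs xt x1) : B.In (nth nu xt x1) := by
  have hxt : 0 ≤ xt := h.hxs.trans h.hst.le
  have hx1 : 0 ≤ x1 := hxt.trans h.ht1
  have hnu := h.hnu
  have hLw := h.Lw
  have hw : xt ≤ B.w := h.ht1.trans h.hx1
  have hp : 0 ≤ nu * (B.w - xt) := mul_nonneg hnu.le (by linarith)
  have hp1 : 0 ≤ nu * (x1 - xt) := mul_nonneg hnu.le (by linarith [h.ht1])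
  have hp2 : 0 ≤ nu * xt := mul_nonneg hnu.le hxt
  have heu := h.eu
  exact {
    sS := fun e he => (h.sS e he).le
    et := by simp only [nth]; linarith
    t0 := h.k0
    t1 := h.k1
    c0 := le_rfl
    cz := hx1
    zw := h.hx1
    ew := by simp only [nth]; nlinarith
    tw := by simp only [nth]; linarith
    ec := by simp only [nth]; linarith
    tc := by simp only [nth]; linarith
    Lz := by
      simp only [nth]
      have := h.Lt x1 ⟨h.ht1, le_rfl⟩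
      linarith
    ez := by simp only [nth]; nlinarith
    cw := h.ok.hw
    fat := by
      obtain ⟨x, hx, hf⟩ := h.fat
      refine ⟨x, hx, ?_⟩
      simp only [nth, zero_mul, add_zero]
      have e : -nu * x + nu * xt = nu * (xt - x) := by ring
      rw [e]
      exact hf }

theorem nf_of {m : ℕ} (hm : PosK m) (B : EB) (hB : B.Ok) (hS : B.S.card ≤ m) {ke he z : ℝ} (h : B.Min ⟨ke, he, 0, 0, z, 0⟩) (hg : B.Good ⟨ke, he, 0, 0, z, 0⟩) :
    ∃ nu xs xt x1 : ℝ, B.Nf nu xs xt x1 ∧ B.Min (nth nu xt x1) ∧ (B.k1 < 0 ∨ (x1 < B.w ∧ (B.nd nu xt).Xl x1 < (B.nd nu xt).a)) := by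
  obtain ⟨hsl, hke, xt, hxt0, hxtz, hext, ⟨x', hx', hLx'⟩, hLt, _, _, _⟩ :=
    neg_facts hm B hB hS ⟨ke, he, 0, 0, z, 0⟩ h.inn h.neg
  simp only at hsl hke hxt0 hxtz hext hx' hLx' hLt
  obtain ⟨nu, rfl⟩ : ∃ nu, ke = -nu := ⟨-ke, by simp⟩
  have hnu : 0 < nu := by linarith
  obtain rfl : he = nu * xt := by linarith
  have hzw : z ≤ B.w := h.inn.zw
  -- the point x1
  let S1 : Set ℝ := Icc xt B.w ∩ {x | B.L x ≤ 0}
  have hS1c : IsCompact S1 :=
    isCompact_Icc.inter_right (isClosed_le hB.cL continuous_const)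
  have hzS1 : z ∈ S1 := ⟨⟨hxtz, hzw⟩, by
    have := hLt z ⟨hxtz, le_rfl⟩
    simpa using this⟩
  have hS1n : S1.Nonempty := ⟨z, hzS1⟩
  obtain ⟨x1, hx1def⟩ : ∃ x1, x1 = sSup S1 := ⟨_, rfl⟩
  have hx1S : x1 ∈ S1 := hx1def ▸ hS1c.sSup_mem hS1n
  have hx1max : ∀ x ∈ S1, x ≤ x1 := fun x hx => hx1def ▸ le_csSup hS1c.bddAbove hx
  have hzx1 : z ≤ x1 := hx1max z hzS1
  have hx1w : x1 ≤ B.w := hx1S.1.2
  have hxtx1 : xt ≤ x1 := hx1S.1.1
  have hLxt : B.L xt ≤ 0 := by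
    have := hLt xt ⟨le_rfl, hxtz⟩
    simpa using this
  have hLx1 : B.L x1 ≤ 0 := hx1S.2
  have hLt1 : ∀ x ∈ Icc xt x1, B.L x ≤ 0 := fun x hx =>
    (hB.vL.le_max_of_mem_Icc (⟨hxt0.le, hxtx1.trans hx1w⟩ : xt ∈ Icc 0 B.w)
      (⟨hxt0.le.trans hxtx1, hx1w⟩ : x1 ∈ Icc 0 B.w) hx).trans (max_le hLxt hLx1)
  have hLf : ∀ x ∈ Ioc x1 B.w, 0 < B.L x := by
    intro x hx
    by_contra hcon
    exact absurd (hx1max x ⟨⟨hxtx1.trans hx.1.le, hx.2⟩, not_lt.mp hcon⟩) (not_le.mpr hx.1)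
  -- the point xs
  let S2 : Set ℝ := Icc 0 xt ∩ {x | B.L x ≤ nu * (xt - x)}
  have hS2c : IsCompact S2 :=
    isCompact_Icc.inter_right (isClosed_le hB.cL (by fun_prop))
  have hLx'' : B.L x' < nu * (xt - x') := by
    have e : -nu * x' + nu * xt = nu * (xt - x') := by ring
    linarith
  have hx'S2 : x' ∈ S2 := ⟨⟨hx'.1, hx'.2.le⟩, hLx''.le⟩
  obtain ⟨xs, hxsdef⟩ : ∃ xs, xs = sInf S2 := ⟨_, rfl⟩
  have hxsS : xs ∈ S2 := hxsdef ▸ hS2c.sInf_mem ⟨x', hx'S2⟩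
  have hxsmin : ∀ x ∈ S2, xs ≤ x := fun x hx => hxsdef ▸ csInf_le hS2c.bddBelow hx
  have hxsx' : xs ≤ x' := hxsmin x' hx'S2
  have hxsxt : xs < xt := lt_of_le_of_lt hxsx' hx'.2
  have hLs : ∀ x ∈ Ico 0 xs, nu * (xt - x) < B.L x := by
    intro x hx
    by_contra hcon
    exact absurd (hxsmin x ⟨⟨hx.1, hx.2.le.trans hxsxt.le⟩, not_lt.mp hcon⟩) (not_le.mpr hx.2)
  have hLxs : B.L xs ≤ nu * (xt - xs) := hxsS.2
  have hLe : ∀ x ∈ Ioo xs xt, B.L x < nu * (xt - x) := by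
    intro x hx
    rcases lt_trichotomy x x' with hlt | heq | hgt
    · have hc := CD2_conv hB.vL (x := xs) (y := x) (z := x') hxsS.1.1 hx.1 hlt
        (hx'.2.le.trans (hxtx1.trans hx1w))
      have h1 : 0 < x' - xs := by linarith [hx.1]
      have h2 : 0 ≤ x' - x := by linarith
      have h3 : 0 < x - xs := by linarith [hx.1]
      have h4 := mul_le_mul_of_nonneg_left hLxs h2
      have h5 := mul_lt_mul_of_pos_left hLx'' h3
      have h6 : (x' - xs) * B.L x < (x' - xs) * (nu * (xt - x)) := by nlinarith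
      exact lt_of_mul_lt_mul_left h6 h1.le
    · rw [heq]; exact hLx''
    · have hc := CD2_conv hB.vL (x := x') (y := x) (z := xt) hx'.1 hgt hx.2
        (hxtx1.trans hx1w)
      have h1 : 0 < xt - x' := by linarith [hx.2]
      have h2 : 0 < xt - x := by linarith [hx.2]
      have h3 : 0 ≤ x - x' := by linarith
      have h4 := mul_le_mul_of_nonneg_left hLxt h3
      have h5 := mul_lt_mul_of_pos_left hLx'' h2
      have h6 : (xt - x') * B.L x < (xt - x') * (nu * (xt - x)) := by nlinarith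
      exact lt_of_mul_lt_mul_left h6 h1.le
  have hec : nu * xt ≤ B.u 0 := by
    have := h.inn.ec
    simp only at this
    linarith
  have hNf : B.Nf nu xs xt x1 := {
    ok := hB
    k0 := h.inn.t0
    k1 := h.inn.t1
    hnu := hnu
    hxs := hxsS.1.1
    hst := hxsxt
    ht1 := hxtx1
    hx1 := hx1w
    sS := hsl
    Ls := hLs
    Le := hLe
    Lt := hLt1
    Lf := hLf
    Lw := by
      have := h.inn.tw
      simp only at this
      linarith
    eu := hec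
    fat := by
      obtain ⟨x, hx, hf⟩ := h.inn.fat
      refine ⟨x, hx, ?_⟩
      simp only [zero_mul, add_zero] at hf
      have e : -nu * x + nu * xt = nu * (xt - x) := by ring
      rw [e] at hf
      exact hf }
  have hdat : B.dat ⟨-nu, nu * xt, 0, 0, z, 0⟩ = B.nd nu xt := nf_dat B nu xt z
  have hReg : (B.nd nu xt).Reg := hdat ▸ (in_cx B hB _ h.inn).1.toReg
  have hj : (B.nd nu xt).j x1 0 = (B.nd nu xt).j z 0 := by
    have hl0 : ∀ x ∈ Icc z x1, (B.nd nu xt).l x = 0 := by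
      intro x hx
      have h1 : B.L x ≤ 0 := hLt1 x ⟨hxtz.trans hx.1, hx.2⟩
      have h2 : nu * (xt - x) ≤ 0 :=
        mul_nonpos_of_nonneg_of_nonpos hnu.le (by linarith [hx.1])
      simp only [EB.nd]
      rw [max_eq_right h2, max_eq_right h1]
    refine j_aff _ hReg hzx1 fun x hx => ?_
    rw [hl0 x hx, hl0 z ⟨le_rfl, hzx1⟩]
    ring
  have hval : B.val (nth nu xt x1) = B.val ⟨-nu, nu * xt, 0, 0, z, 0⟩ := by
    unfold EB.val
    rw [nf_dat, hdat]
    simp only [nth, sub_zero]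
    rw [hj]
  have hMin : B.Min (nth nu xt x1) := {
    inn := CD2_in B hNf
    neg := by rw [hval]; exact h.neg
    le := fun θ' hθ' => by rw [hval]; exact h.le θ' hθ' }
  refine ⟨nu, xs, xt, x1, hNf, hMin, ?_⟩
  rcases hg with hg | hg
  · exact Or.inl hg
  · right
    have := hg x1 ⟨hzx1, hx1w⟩ (by simpa using hLx1)
    rw [hdat] at this
    simpa using this

theorem nf_cx (B : EB) {nu xs xt x1 : ℝ} (h : B.Nf nu xs xt x1) : (B.nd nu xt).Cx := by
  have := (in_cx B h.ok (nth nu xt x1) (CD2_in B h)).1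
  rwa [nf_dat] at this

theorem nf_l (B : EB) {nu xs xt x1 : ℝ} (h : B.Nf nu xs xt x1) :
    (∀ x ∈ Icc xs xt, (B.nd nu xt).l x = nu * (xt - x)) ∧ (∀ x ∈ Icc xt x1, (B.nd nu xt).l x = 0) ∧ (∀ x ∈ Icc 0 B.w, 0 ≤ (B.nd nu xt).l x) ∧
      (∀ x ∈ Ico 0 xs, (B.nd nu xt).l x = B.L x) ∧ (∀ x ∈ Ioc x1 B.w, (B.nd nu xt).l x = B.L x) := by
  have hnu := h.hnu
  have hcl : ∀ x ∈ Icc xs xt, B.L x ≤ nu * (xt - x) := by
    have hc : IsClosed {x : ℝ | B.L x ≤ nu * (xt - x)} := isClosed_le h.ok.cL (by fun_prop)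
    have hsub : Ioo xs xt ⊆ {x : ℝ | B.L x ≤ nu * (xt - x)} := fun x hx => (h.Le x hx).le
    have := closure_minimal hsub hc
    rw [closure_Ioo h.hst.ne] at this
    exact fun x hx => this hx
  refine ⟨?_, ?_, ?_, ?_, ?_⟩
  · intro x hx
    have h2 : 0 ≤ nu * (xt - x) := mul_nonneg hnu.le (by linarith [hx.2])
    simp only [EB.nd]
    rw [max_eq_left h2, max_eq_right (hcl x hx)]
  · intro x hx
    have h2 : nu * (xt - x) ≤ 0 :=
      mul_nonpos_of_nonneg_of_nonpos hnu.le (by linarith [hx.1])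
    simp only [EB.nd]
    rw [max_eq_right h2, max_eq_right (h.Lt x hx)]
  · intro x _
    simp only [EB.nd]
    exact (le_max_right _ _).trans (le_max_right _ _)
  · intro x hx
    have h1 := h.Ls x hx
    have h2 : 0 ≤ nu * (xt - x) := mul_nonneg hnu.le (by linarith [hx.2, h.hst])
    simp only [EB.nd]
    rw [max_eq_left h2, max_eq_left h1.le]
  · intro x hx
    have h1 := h.Lf x hx
    have h2 : nu * (xt - x) ≤ 0 :=
      mul_nonpos_of_nonneg_of_nonpos hnu.le (by linarith [hx.1, h.ht1])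
    simp only [EB.nd]
    rw [max_eq_right h2, max_eq_left h1.le]

theorem nf_arc (B : EB) {nu xs xt x1 : ℝ} (h : B.Nf nu xs xt x1) : (B.nd nu xt).Arc (insert (-nu, nu * xt) B.S) x1 0 := by
  obtain ⟨_, hl2, hl3, _, _⟩ := nf_l B h
  have hxt : 0 ≤ xt := h.hxs.trans h.hst.le
  have hx1 : 0 ≤ x1 := hxt.trans h.ht1
  have hlx1 : (B.nd nu xt).l x1 = 0 := hl2 x1 ⟨h.ht1, le_rfl⟩
  have hnu := h.hnu
  exact {
    z0 := hx1
    zw := h.hx1
    sup := fun x hx => by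
      rw [hlx1]
      have := hl3 x hx
      linarith
    sl := fun e he => by
      rcases Finset.mem_insert.1 he with rfl | he
      · simp only
        linarith
      · have := h.sS e he
        linarith
    le := fun e he x hx => by
      have hxw : x ∈ Icc 0 B.w := ⟨hx.1, hx.2.trans h.hx1⟩
      rcases Finset.mem_insert.1 he with rfl | he
      · simp only [EB.nd]
        have e : -nu * x + nu * xt = nu * (xt - x) := by ring
        rw [e]
        exact (le_max_left _ _).trans (le_max_right _ _)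
      · simp only [EB.nd]
        exact (h.ok.le e he x hxw).trans (le_max_left _ _)
    cov := fun x hx => by
      have hxw : x ∈ Icc 0 B.w := ⟨hx.1, hx.2.trans h.hx1⟩
      rw [hlx1]
      simp only [zero_add, zero_mul]
      by_cases hA : B.L x ≤ max (nu * (xt - x)) 0
      · rcases le_total (nu * (xt - x)) 0 with h2 | h2
        · left
          simp only [EB.nd]
          rw [max_eq_right hA, max_eq_right h2]
        · right
          refine ⟨(-nu, nu * xt), Finset.mem_insert_self _ _, ?_⟩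
          simp only [EB.nd]
          rw [max_eq_right hA, max_eq_left h2]
          ring
      · right
        have hA' := not_le.1 hA
        have hlx : (B.nd nu xt).l x = B.L x := by
          simp only [EB.nd]
          exact max_eq_left hA'.le
        have hpos : 0 < B.L x := lt_of_le_of_lt (le_max_right _ _) hA'
        rcases h.ok.cov x hxw with ⟨e, he, h3⟩ | h3
        · exact ⟨e, Finset.mem_insert_of_mem he, by rw [hlx, h3]⟩
        · exfalso
          have h4 := h3 x1 ⟨hx.2, h.hx1⟩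
          have h5 := h.Lt x1 ⟨h.ht1, le_rfl⟩
          have h6 : 0 ≤ B.k0 * (x1 - x) := mul_nonneg h.k0 (by linarith [hx.2])
          linarith }

theorem nf_phi {m : ℕ} (hm : PosK m) (B : EB) (hS : B.S.card ≤ m) {nu xs xt x1 : ℝ} (h : B.Nf nu xs xt x1) (hn : B.Min (nth nu xt x1)) :
    (B.nd nu xt).j x1 0 < 0 ∧ 0 < (B.nd nu xt).Phi xt ∧ (B.nd nu xt).Xl xt < (B.nd nu xt).a := by
  obtain ⟨_, _, x0, _, _, hx0, _, _, _, hPhi, hXl⟩ :=
    neg_facts hm B h.ok hS (nth nu xt x1) hn.inn hn.neg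
  simp only [nth] at hx0
  have hnu := h.hnu
  have hx0t : x0 = xt := by
    have : nu * (xt - x0) = 0 := by linarith
    rcases mul_eq_zero.1 this with h1 | h1
    · exact absurd h1 hnu.ne'
    · linarith
  have hc : (nth nu xt x1).c = 0 := rfl
  rw [nf_dat, hc, sub_zero, hx0t] at hPhi hXl
  refine ⟨?_, hPhi, hXl⟩
  have hneg := hn.neg
  unfold EB.val at hneg
  rw [nf_dat, hc, sub_zero] at hneg
  have hk : (nth nu xt x1).kt = 0 := rfl
  have hz : (nth nu xt x1).z = x1 := rfl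
  rw [hk, hz] at hneg
  have hM : 0 < (B.nd nu xt).M := Dat.M_pos _ (nf_cx B h).toReg
  by_contra hcon
  have hcon' := not_lt.1 hcon
  have : 0 ≤ Real.exp (B.p * 0) * ((B.nd nu xt).M * (B.nd nu xt).j x1 0) :=
    mul_nonneg (Real.exp_pos _).le (mul_nonneg hM.le hcon')
  linarith

end Pool.Agent.Lib.MP_1dedaf_gt.DK
end
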