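import Pool.Agent.Lib.MP_1dedaf_gt.Mg.G043

section

/-!
# TASK TM M0b: two inequalities for one row of a strip

`loss1` (`0 ≤ d`): let `S v = sinh (v - E') - sinh (v - (E' - d))`, then `2 sinh ((R-L)/2) (cosh ((R+L)/2 - E') - cosh ((R+L)/2 - (E'-d))) = S R - S L`
(`sinh A - sinh B = 2 cosh ((A+B)/2) sinh ((A-B)/2)`). `S' v = cosh (v - E') - cosh (v - E' + d)`; `S' v ≤ 0` for `v ≥ E'`; for `v = E' - r`, `r ≥ 0`:
`S' v = cosh r - cosh (r - d) ≤ d sinh r` (convexity: `cosh (r - d) ≥ cosh r - d sinh r`). So `S v + d (cosh (E' - v) - 1)` is decreasing on `v ≤ E'` and `S` is decreasing on `v ≥ E'`.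
Cases `L ≥ E'`: `S R ≤ S L`. `R ≤ E'`: `S R - S L ≤ d (cosh (E'-L) - 1) - d (cosh (E'-R) - 1) ≤ d (cosh (E'-L) - 1)`. `L ≤ E' ≤ R`: `S R ≤ S E'`, `S E' - S L ≤ d (cosh (E'-L) - 1)`.

`loss2` (`0 ≤ d`, `1 ≤ k`): `S v = k sinh (v - e) - sinh (v - (e - d))`, the left side is `S R - S L`. For `τ = v - e ≥ 0`: `S' v = k cosh τ - cosh (τ + d) ≤ (k - cosh d) cosh τ ≤ max 0 (k - cosh d) cosh τ`
(`cosh (τ+d) ≥ cosh τ cosh d`). For `v = e - r`, `r ≥ 0`: `S' v = (k-1) cosh r + (cosh r - cosh (r - d)) ≤ (k-1) cosh r + d sinh r`. Let `c = max 0 (k - cosh d)`. So `S v - c sinh (v - e)` is decreasing for `v ≥ e`, and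
`S v + (k-1) sinh (e-v) + d (cosh (e-v) - 1)` is decreasing for `v ≤ e`. Cases: `e ≤ L`: `S R - S L ≤ c (sinh (R-e) - sinh (L-e)) ≤ c sinh (R - e)`. `R ≤ e`: `S R - S L ≤ (k-1)(sinh (e-L) - sinh (e-R)) + d (cosh (e-L) - cosh (e-R)) ≤ (k-1) sinh (e-L) + d (cosh (e-L) - 1)`.
`L ≤ e ≤ R`: split at `e` and add the two.
-/

set_option autoImplicit false

open MeasureTheory Set Filter Topology

namespace Pool.Agent.Lib.MP_1dedaf_gt.DK

/-- A function with nonpositive derivative on an interval decreases. -/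
private theorem M0b_dec (f f' : ℝ → ℝ) (hf : ∀ x, HasDerivAt f (f' x) x) {a b : ℝ} (hab : a ≤ b)
    (h : ∀ x, a ≤ x → x ≤ b → f' x ≤ 0) : f b ≤ f a := by
  have hanti : AntitoneOn f (Set.Icc a b) := by
    refine antitoneOn_of_deriv_nonpos (convex_Icc a b) (fun x _ => (hf x).continuousAt.continuousWithinAt)
      (fun x _ => (hf x).differentiableAt.differentiableWithinAt) (fun x hx => ?_)
    rw [interior_Icc] at hx
    rw [(hf x).deriv]
    exact h x hx.1.le hx.2.le
  exact hanti (Set.left_mem_Icc.mpr hab) (Set.right_mem_Icc.mpr hab) hab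

private theorem M0b_key (r d : ℝ) (hr : 0 ≤ r) (hd : 0 ≤ d) :
    Real.cosh r - Real.cosh (r - d) ≤ d * Real.sinh r := by
  have h1 : Real.cosh (r - d) = Real.cosh r * Real.cosh d - Real.sinh r * Real.sinh d := Real.cosh_sub r d
  have h2 : Real.cosh d - Real.sinh d = Real.exp (-d) := Real.cosh_sub_sinh d
  have h3 := Real.add_one_le_exp (-d)
  have h4 : d ≤ Real.sinh d := Real.self_le_sinh_iff.mpr hd
  have h5 : 0 ≤ Real.sinh r := Real.sinh_nonneg_iff.mpr hr
  have h6 : Real.sinh r ≤ Real.cosh r := (Real.sinh_lt_cosh r).le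
  have h7 : Real.sinh d - d ≤ Real.cosh d - 1 := by linarith
  have h8 : Real.sinh r * (Real.sinh d - d) ≤ Real.cosh r * (Real.cosh d - 1) :=
    mul_le_mul h6 h7 (by linarith) (by linarith)
  rw [h1]
  nlinarith [h8]

private theorem M0b_ss (R L e : ℝ) :
    Real.sinh (R - e) - Real.sinh (L - e) = 2 * (Real.sinh ((R - L) / 2) * Real.cosh ((R + L) / 2 - e)) := by
  have h1 : Real.sinh (R - e) = Real.sinh ((R + L) / 2 - e) * Real.cosh ((R - L) / 2) +
      Real.cosh ((R + L) / 2 - e) * Real.sinh ((R - L) / 2) := by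
    rw [← Real.sinh_add]; congr 1; ring
  have h2 : Real.sinh (L - e) = Real.sinh ((R + L) / 2 - e) * Real.cosh ((R - L) / 2) -
      Real.cosh ((R + L) / 2 - e) * Real.sinh ((R - L) / 2) := by
    rw [← Real.sinh_sub]; congr 1; ring
  rw [h1, h2]
  ring

private theorem M0b_dsinh (a x : ℝ) : HasDerivAt (fun v => Real.sinh (v - a)) (Real.cosh (x - a)) x := by
  have h := ((hasDerivAt_id x).sub_const a).sinh
  simpa using h

private theorem M0b_dsinh' (a x : ℝ) : HasDerivAt (fun v => Real.sinh (a - v)) (-Real.cosh (a - x)) x := by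
  have h := ((hasDerivAt_id x).const_sub a).sinh
  simpa using h

private theorem M0b_dcosh' (a x : ℝ) : HasDerivAt (fun v => Real.cosh (a - v)) (-Real.sinh (a - x)) x := by
  have h := ((hasDerivAt_id x).const_sub a).cosh
  simpa using h

/-- The left part (`v ≤ e`). -/
private theorem M0b_left (e d k : ℝ) (hd : 0 ≤ d) {a b : ℝ} (hab : a ≤ b) (hb : b ≤ e) :
    (k * Real.sinh (b - e) - Real.sinh (b - (e - d))) - (k * Real.sinh (a - e) - Real.sinh (a - (e - d))) ≤
      (k - 1) * (Real.sinh (e - a) - Real.sinh (e - b)) + d * (Real.cosh (e - a) - Real.cosh (e - b)) := by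
  have h := M0b_dec
    (fun v => k * Real.sinh (v - e) - Real.sinh (v - (e - d)) + ((k - 1) * Real.sinh (e - v) + d * Real.cosh (e - v)))
    (fun v => k * Real.cosh (v - e) - Real.cosh (v - (e - d)) +
      ((k - 1) * (-Real.cosh (e - v)) + d * (-Real.sinh (e - v))))
    (fun x => (((M0b_dsinh e x).const_mul k).sub (M0b_dsinh (e - d) x)).add
      (((M0b_dsinh' e x).const_mul (k - 1)).add ((M0b_dcosh' e x).const_mul d))) hab
    (fun x _ hx => by
      have h1 := M0b_key (e - x) d (by linarith) hd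
      have h2 : Real.cosh (x - e) = Real.cosh (e - x) := by rw [← Real.cosh_neg]; ring_nf
      have h3 : Real.cosh (x - (e - d)) = Real.cosh (e - x - d) := by rw [← Real.cosh_neg]; ring_nf
      rw [h2, h3]
      nlinarith [h1])
  linarith

/-- The right part (`e ≤ v`). -/
private theorem M0b_right (e d k : ℝ) (hd : 0 ≤ d) {a b : ℝ} (hab : a ≤ b) (ha : e ≤ a) :
    (k * Real.sinh (b - e) - Real.sinh (b - (e - d))) - (k * Real.sinh (a - e) - Real.sinh (a - (e - d))) ≤
      max 0 (k - Real.cosh d) * (Real.sinh (b - e) - Real.sinh (a - e)) := by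
  have h := M0b_dec
    (fun v => k * Real.sinh (v - e) - Real.sinh (v - (e - d)) - max 0 (k - Real.cosh d) * Real.sinh (v - e))
    (fun v => k * Real.cosh (v - e) - Real.cosh (v - (e - d)) - max 0 (k - Real.cosh d) * Real.cosh (v - e))
    (fun x => (((M0b_dsinh e x).const_mul k).sub (M0b_dsinh (e - d) x)).sub
      ((M0b_dsinh e x).const_mul (max 0 (k - Real.cosh d)))) hab
    (fun x hx _ => by
      have h1 : x - (e - d) = (x - e) + d := by ring
      have h2 : Real.cosh (x - (e - d)) = Real.cosh (x - e) * Real.cosh d + Real.sinh (x - e) * Real.sinh d := by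
        rw [h1, Real.cosh_add]
      have h3 : 0 ≤ Real.sinh (x - e) := Real.sinh_nonneg_iff.mpr (by linarith)
      have h4 : 0 ≤ Real.sinh d := Real.sinh_nonneg_iff.mpr hd
      have h5 : 0 ≤ Real.cosh (x - e) := (Real.cosh_pos _).le
      have h6 : k - Real.cosh d ≤ max 0 (k - Real.cosh d) := le_max_right _ _
      have h7 := mul_nonneg h3 h4
      have h8 := mul_le_mul_of_nonneg_right h6 h5
      rw [h2]
      nlinarith [h7, h8])
  linarith

theorem loss1 (L R E' d : ℝ) (hLR : L ≤ R) (hd : 0 ≤ d) :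
    2 * (Real.sinh ((R - L) / 2) * (Real.cosh ((R + L) / 2 - E') - Real.cosh ((R + L) / 2 - (E' - d)))) ≤
      d * (Real.cosh (max 0 (E' - L)) - 1) := by
  have h1 := M0b_ss R L E'
  have h2 := M0b_ss R L (E' - d)
  have hc : 1 - Real.cosh d ≤ 0 := by linarith [Real.one_le_cosh d]
  have hm : max 0 (1 - Real.cosh d) = 0 := max_eq_left hc
  rcases le_total E' L with h | h
  · have h3 := M0b_right E' d 1 hd hLR h
    rw [hm] at h3
    rw [max_eq_left (by linarith : E' - L ≤ 0), Real.cosh_zero]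
    nlinarith [h1, h2, h3]
  · rw [max_eq_right (by linarith : 0 ≤ E' - L)]
    rcases le_total R E' with h' | h'
    · have h3 := M0b_left E' d 1 hd hLR h'
      have h4 := Real.one_le_cosh (E' - R)
      have h5 : 0 ≤ d * (Real.cosh (E' - R) - 1) := mul_nonneg hd (by linarith)
      nlinarith [h1, h2, h3, h5]
    · have h3 := M0b_left E' d 1 hd h le_rfl
      have h4 := M0b_right E' d 1 hd h' le_rfl
      rw [hm] at h4
      rw [sub_self, Real.sinh_zero, Real.cosh_zero] at h3
      rw [sub_self, Real.sinh_zero] at h4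
      nlinarith [h1, h2, h3, h4]

theorem loss2 (L R e d k : ℝ) (hLR : L ≤ R) (hd : 0 ≤ d) (hk : 1 ≤ k) :
    2 * (Real.sinh ((R - L) / 2) * (k * Real.cosh ((R + L) / 2 - e) - Real.cosh ((R + L) / 2 - (e - d)))) ≤
      max 0 (k - Real.cosh d) * Real.sinh (max 0 (R - e)) + (k - 1) * Real.sinh (max 0 (e - L)) +
        d * (Real.cosh (max 0 (e - L)) - 1) := by
  have h1 := M0b_ss R L e
  have h2 := M0b_ss R L (e - d)
  have hc : 0 ≤ max 0 (k - Real.cosh d) := le_max_left _ _
  rcases le_total e L with h | h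
  · have h3 := M0b_right e d k hd hLR h
    rw [max_eq_left (by linarith : e - L ≤ 0), max_eq_right (by linarith : 0 ≤ R - e), Real.cosh_zero, Real.sinh_zero]
    have h4 : 0 ≤ Real.sinh (L - e) := Real.sinh_nonneg_iff.mpr (by linarith)
    have h5 := mul_nonneg hc h4
    nlinarith [h1, h2, h3, h5]
  · rw [max_eq_right (by linarith : 0 ≤ e - L)]
    rcases le_total R e with h' | h'
    · have h3 := M0b_left e d k hd hLR h'
      have h4 := Real.one_le_cosh (e - R)
      have h5 : 0 ≤ d * (Real.cosh (e - R) - 1) := mul_nonneg hd (by linarith)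
      have h6 : 0 ≤ Real.sinh (e - R) := Real.sinh_nonneg_iff.mpr (by linarith)
      have h7 : 0 ≤ (k - 1) * Real.sinh (e - R) := mul_nonneg (by linarith) h6
      rw [max_eq_left (by linarith : R - e ≤ 0), Real.sinh_zero]
      nlinarith [h1, h2, h3, h5, h7]
    · have h3 := M0b_left e d k hd h le_rfl
      have h4 := M0b_right e d k hd h' le_rfl
      rw [max_eq_right (by linarith : 0 ≤ R - e)]
      rw [sub_self, Real.sinh_zero, Real.cosh_zero] at h3
      rw [sub_self, Real.sinh_zero] at h4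
      nlinarith [h1, h2, h3, h4]

end Pool.Agent.Lib.MP_1dedaf_gt.DK
end

section

/-!
# TASK TM M1a: basic properties of `om`, `ec`, `Om`

`strip_neg`: `om (-R) (-L) = om L R`, `ec (-R) (-L) = - ec L R`, `cosh` is even. `Om_cont`: `cosh (e t - e x) = cosh (e t) cosh (e x) - sinh (e t) sinh (e x)`,
so `Om x = cosh (e x) ∫_x^w sinh om cosh e - sinh (e x) ∫_x^w sinh om sinh e`. `om_pos`: `om` is concave on `[0, w]`, `om w ≥ 0`: `om x ≥ (1 - x/w) om 0`. `Om_nonneg`, `Om_pos`: the integrand is `≥ 0` (`> 0` on `[x, w)`), `intervalIntegral.integral_pos`.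
-/

set_option autoImplicit false

open MeasureTheory Set Filter Topology

namespace Pool.Agent.Lib.MP_1dedaf_gt.DK

private theorem M1a_om_nonneg {w : ℝ} {L R : ℝ → ℝ} (h : Strip w L R) (x : ℝ) (hx : x ∈ Icc 0 w) :
    0 ≤ om L R x := by
  unfold om
  have := h.le x hx
  linarith

theorem strip_neg {w : ℝ} {L R : ℝ → ℝ} (h : Strip w L R) : Strip w (fun x => - R x) (fun x => - L x) ∧
    (∀ x, om (fun x => - R x) (fun x => - L x) x = om L R x) ∧ (∀ x, ec (fun x => - R x) (fun x => - L x) x = - ec L R x) ∧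
    ∀ x, Om w (fun x => - R x) (fun x => - L x) x = Om w L R x := by
  have e1 : ∀ x, om (fun x => - R x) (fun x => - L x) x = om L R x := by
    intro x
    simp only [om]
    ring
  have e2 : ∀ x, ec (fun x => - R x) (fun x => - L x) x = - ec L R x := by
    intro x
    simp only [ec]
    ring
  refine ⟨⟨h.hw, h.cR.neg, h.cL.neg, h.vR.neg, h.vL.neg, fun x hx => neg_le_neg (h.le x hx)⟩, e1, e2, ?_⟩
  intro x
  unfold Om
  refine intervalIntegral.integral_congr fun t _ => ?_
  rw [e1 t, e2 t, e2 x]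
  have e3 : - ec L R t - - ec L R x = - (ec L R t - ec L R x) := by ring
  rw [e3, Real.cosh_neg]

theorem om_cont {w : ℝ} {L R : ℝ → ℝ} (h : Strip w L R) : Continuous (om L R) ∧ Continuous (ec L R) := by
  constructor
  · unfold om
    exact (h.cR.sub h.cL).div_const _
  · unfold ec
    exact (h.cR.add h.cL).div_const _

theorem om_conc {w : ℝ} {L R : ℝ → ℝ} (h : Strip w L R) : ConcaveOn ℝ (Icc 0 w) (om L R) := by
  have h1 : ConcaveOn ℝ (Icc 0 w) (R - L) := h.vR.sub h.vL
  have h2 := h1.smul (c := (1 / 2 : ℝ)) (by norm_num)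
  have h3 : om L R = fun x => (1 / 2 : ℝ) • (R - L) x := by
    funext x
    simp only [om, Pi.sub_apply, smul_eq_mul]
    ring
  rw [h3]
  exact h2

private theorem M1a_prim_cont {f : ℝ → ℝ} (hf : Continuous f) (w : ℝ) :
    Continuous (fun x => ∫ t in x..w, f t) := by
  have h1 : (fun x => ∫ t in x..w, f t) = fun x => - ∫ t in w..x, f t := by
    funext x
    exact intervalIntegral.integral_symm _ _
  rw [h1]
  exact (continuous_iff_continuousAt.mpr fun x =>
    (hf.integral_hasStrictDerivAt w x).hasDerivAt.continuousAt).neg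

theorem Om_cont {w : ℝ} {L R : ℝ → ℝ} (h : Strip w L R) : Continuous (Om w L R) := by
  obtain ⟨ho, he⟩ := om_cont h
  have hs : Continuous (fun t => Real.sinh (om L R t)) := Real.continuous_sinh.comp ho
  have hec : Continuous (fun t => Real.cosh (ec L R t)) := Real.continuous_cosh.comp he
  have hes : Continuous (fun t => Real.sinh (ec L R t)) := Real.continuous_sinh.comp he
  have hf1 : Continuous (fun t => Real.sinh (om L R t) * Real.cosh (ec L R t)) := hs.mul hec
  have hf2 : Continuous (fun t => Real.sinh (om L R t) * Real.sinh (ec L R t)) := hs.mul hes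
  have h1 : Om w L R = fun x =>
      (∫ t in x..w, Real.sinh (om L R t) * Real.cosh (ec L R t)) * Real.cosh (ec L R x) -
        (∫ t in x..w, Real.sinh (om L R t) * Real.sinh (ec L R t)) * Real.sinh (ec L R x) := by
    funext x
    unfold Om
    have g1 : Continuous (fun t => Real.sinh (om L R t) * Real.cosh (ec L R t) * Real.cosh (ec L R x)) :=
      hf1.mul continuous_const
    have g2 : Continuous (fun t => Real.sinh (om L R t) * Real.sinh (ec L R t) * Real.sinh (ec L R x)) :=
      hf2.mul continuous_const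
    rw [← intervalIntegral.integral_mul_const, ← intervalIntegral.integral_mul_const,
      ← intervalIntegral.integral_sub (g1.intervalIntegrable _ _) (g2.intervalIntegrable _ _)]
    refine intervalIntegral.integral_congr fun t _ => ?_
    rw [Real.cosh_sub]
    ring
  rw [h1]
  exact ((M1a_prim_cont hf1 w).mul hec).sub ((M1a_prim_cont hf2 w).mul hes)

theorem om_pos {w : ℝ} {L R : ℝ → ℝ} (h : Strip w L R) (h0 : 0 < om L R 0) : ∀ x, 0 ≤ x → x < w → 0 < om L R x := by
  intro x hx0 hxw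
  have hw := h.hw
  have h1 : x / w < 1 := (div_lt_one hw).2 hxw
  have h2 : 0 ≤ x / w := div_nonneg hx0 hw.le
  have h30 : (0:ℝ) ≤ 1 - x / w := by linarith
  have h31 : (1 - x / w) + x / w = 1 := by ring
  have h3 := (om_conc h).2 (left_mem_Icc.2 hw.le) (right_mem_Icc.2 hw.le) h30 h2 h31
  have h4 : (1 - x / w) • (0:ℝ) + (x / w) • w = x := by
    simp only [smul_eq_mul, mul_zero, zero_add]
    exact div_mul_cancel₀ _ hw.ne'
  rw [h4] at h3
  simp only [smul_eq_mul] at h3
  have h5 : 0 ≤ om L R w := M1a_om_nonneg h w (right_mem_Icc.2 hw.le)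
  have h6 : 0 < (1 - x / w) * om L R 0 := mul_pos (by linarith) h0
  have h7 : 0 ≤ (x / w) * om L R w := mul_nonneg h2 h5
  linarith

private theorem M1a_int_nonneg {w : ℝ} {L R : ℝ → ℝ} (h : Strip w L R) (x t : ℝ) (ht : t ∈ Icc 0 w) :
    0 ≤ Real.sinh (om L R t) * Real.cosh (ec L R t - ec L R x) :=
  mul_nonneg (Real.sinh_nonneg_iff.2 (M1a_om_nonneg h t ht)) (Real.cosh_pos _).le

theorem Om_nonneg {w : ℝ} {L R : ℝ → ℝ} (h : Strip w L R) : ∀ x ∈ Icc 0 w, 0 ≤ Om w L R x := by
  intro x hx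
  unfold Om
  exact intervalIntegral.integral_nonneg hx.2 fun t ht => M1a_int_nonneg h x t ⟨hx.1.trans ht.1, ht.2⟩

theorem Om_pos {w : ℝ} {L R : ℝ → ℝ} (h : Strip w L R) (h0 : 0 < om L R 0) : ∀ x, 0 ≤ x → x < w → 0 < Om w L R x := by
  intro x hx0 hxw
  obtain ⟨ho, he⟩ := om_cont h
  unfold Om
  refine intervalIntegral.integral_pos hxw ?_ ?_ ?_
  · exact ((Real.continuous_sinh.comp ho).mul
      (Real.continuous_cosh.comp (he.sub continuous_const))).continuousOn
  · intro t ht
    exact M1a_int_nonneg h x t ⟨hx0.trans ht.1.le, ht.2⟩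
  · exact ⟨x, left_mem_Icc.2 hxw.le, mul_pos (Real.sinh_pos_iff.2 (om_pos h h0 x hx0 hxw))
      (Real.cosh_pos _)⟩

end Pool.Agent.Lib.MP_1dedaf_gt.DK
end
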