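import Pool.Agent.Lib.MP_1dedaf_gt.DK.Goals
import Pool.Agent.Lib.MP_1dedaf_gt.DK.A0
import Pool.Agent.Lib.MP_1dedaf_gt.Mg.G003
import Pool.Agent.Lib.MP_1dedaf_gt.DK.A3
import Pool.Agent.Lib.MP_1dedaf_gt.DK.C1b
import Pool.Agent.Lib.MP_1dedaf_gt.Mg.G043
import Pool.Agent.Lib.MP_1dedaf_gt.Mg.G047
import Pool.Agent.Lib.MP_1dedaf_gt.DK.TM.M1
import Pool.Agent.Lib.MP_1dedaf_gt.DK.TM.M2
import Pool.Agent.Lib.MP_1dedaf_gt.DK.TM.P2ib

section

/-!
# TM Y0: monotonicity and convexity of the boundary curve in the coordinates `X`, `Y`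
-/

set_option autoImplicit false

open MeasureTheory Set Filter Topology

namespace Pool.Agent.Lib.MP_1dedaf_gt.DK

private theorem Y0_aux (κ : ℝ) (v : ℝ → ℝ) (cv : Continuous v) (x1 x2 : ℝ) (h12 : x1 ≤ x2)
    (hv : MonotoneOn v (Icc x1 x2)) :
    0 ≤ Real.exp (κ * x2) * v x2 - Real.exp (κ * x1) * v x1 - κ * ∫ t in x1..x2, Real.exp (κ * t) * v t := by
  have hE : κ * ∫ t in x1..x2, Real.exp (κ * t) = Real.exp (κ * x2) - Real.exp (κ * x1) := by
    rw [← intervalIntegral.integral_const_mul]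
    refine intervalIntegral.integral_eq_sub_of_hasDerivAt (f := fun t : ℝ => Real.exp (κ * t))
      (f' := fun t : ℝ => κ * Real.exp (κ * t)) (fun t _ => ?_) ?_
    · have := ((hasDerivAt_id t).const_mul κ).exp
      simpa [mul_comm] using this
    · exact (by fun_prop : Continuous fun t : ℝ => κ * Real.exp (κ * t)).intervalIntegrable _ _
  have hi : ∀ a b : ℝ, IntervalIntegrable (fun t => Real.exp (κ * t) * v t) volume a b := fun a b =>
    ((by fun_prop : Continuous fun t : ℝ => Real.exp (κ * t)).mul cv).intervalIntegrable a b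
  have hi2 : ∀ (c a b : ℝ), IntervalIntegrable (fun t => Real.exp (κ * t) * c) volume a b := fun c a b =>
    (by fun_prop : Continuous fun t : ℝ => Real.exp (κ * t) * c).intervalIntegrable a b
  have h1m : x1 ∈ Icc x1 x2 := ⟨le_rfl, h12⟩
  have h2m : x2 ∈ Icc x1 x2 := ⟨h12, le_rfl⟩
  have hup : ∫ t in x1..x2, Real.exp (κ * t) * v t ≤ ∫ t in x1..x2, Real.exp (κ * t) * v x2 :=
    intervalIntegral.integral_mono_on h12 (hi _ _) (hi2 _ _ _) fun t ht =>
      mul_le_mul_of_nonneg_left (hv ht h2m ht.2) (Real.exp_pos _).le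
  have hlo : ∫ t in x1..x2, Real.exp (κ * t) * v x1 ≤ ∫ t in x1..x2, Real.exp (κ * t) * v t :=
    intervalIntegral.integral_mono_on h12 (hi2 _ _ _) (hi _ _) fun t ht =>
      mul_le_mul_of_nonneg_left (hv h1m ht ht.1) (Real.exp_pos _).le
  rw [intervalIntegral.integral_mul_const] at hup hlo
  have hv12 := hv h1m h2m h12
  have e1 := Real.exp_pos (κ * x1)
  have e2 := Real.exp_pos (κ * x2)
  rcases le_total 0 κ with hκ | hκ
  · have h3 := mul_le_mul_of_nonneg_left hup hκ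
    rw [← mul_assoc, hE] at h3
    have h4 := mul_nonneg e1.le (sub_nonneg.2 hv12)
    nlinarith
  · have h3 := mul_le_mul_of_nonpos_left hlo hκ
    rw [← mul_assoc κ, hE] at h3
    have h4 := mul_nonneg e2.le (sub_nonneg.2 hv12)
    nlinarith

private theorem Y0_exp (p q k c t : ℝ) : Real.exp (p * t + q * c) =
    Real.exp ((p + q * k) * t) * Real.exp (q * (c - k * t)) := by
  rw [← Real.exp_add]
  congr 1
  ring

/-- Along an arc `y = c t` for which `c t - k t` is increasing, `Y - k X` is increasing. -/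
theorem arc_mono (p q k : ℝ) (hq : q ≠ 0) (c : ℝ → ℝ) (cc : Continuous c) (x1 x2 : ℝ) (h12 : x1 ≤ x2)
    (hm : MonotoneOn (fun t => c t - k * t) (Icc x1 x2)) :
    0 ≤ (Real.exp (p * x2 + q * c x2) - Real.exp (p * x1 + q * c x1) -
      (p + q * k) * ∫ t in x1..x2, Real.exp (p * t + q * c t)) / q := by
  have e : ∀ t, Real.exp (p * t + q * c t) =
      Real.exp ((p + q * k) * t) * Real.exp (q * (c t - k * t)) := fun t => Y0_exp p q k (c t) t
  simp only [e]
  have cv : Continuous fun t => Real.exp (q * (c t - k * t)) := by fun_prop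
  rcases lt_or_gt_of_ne hq with hq' | hq'
  · have hv : MonotoneOn (fun t => -Real.exp (q * (c t - k * t))) (Icc x1 x2) := by
      intro a ha b hb hab
      have h1 := mul_le_mul_of_nonpos_left (hm ha hb hab) hq'.le
      exact neg_le_neg (Real.exp_le_exp.2 h1)
    have h2 := Y0_aux (p + q * k) _ cv.neg x1 x2 h12 hv
    have h3 : (fun t : ℝ => Real.exp ((p + q * k) * t) * -Real.exp (q * (c t - k * t))) =
        fun t => -(Real.exp ((p + q * k) * t) * Real.exp (q * (c t - k * t))) := by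
      funext t
      ring
    simp only [Pi.neg_apply, h3, intervalIntegral.integral_neg] at h2
    apply div_nonneg_of_nonpos _ hq'.le
    linarith
  · have hv : MonotoneOn (fun t => Real.exp (q * (c t - k * t))) (Icc x1 x2) := by
      intro a ha b hb hab
      have h1 := mul_le_mul_of_nonneg_left (hm ha hb hab) hq'.le
      exact Real.exp_le_exp.2 h1
    have h2 := Y0_aux (p + q * k) _ cv x1 x2 h12 hv
    exact div_nonneg h2 hq'.le

/-- Along an arc `y = c t` for which `c t - k t` is decreasing, `Y - k X` is decreasing. -/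
theorem arc_anti (p q k : ℝ) (hq : q ≠ 0) (c : ℝ → ℝ) (cc : Continuous c) (x1 x2 : ℝ) (h12 : x1 ≤ x2)
    (hm : AntitoneOn (fun t => c t - k * t) (Icc x1 x2)) :
    (Real.exp (p * x2 + q * c x2) - Real.exp (p * x1 + q * c x1) -
      (p + q * k) * ∫ t in x1..x2, Real.exp (p * t + q * c t)) / q ≤ 0 := by
  have h1 := arc_mono p (-q) (-k) (neg_ne_zero.2 hq) (fun t => - c t) cc.neg x1 x2 h12 (by
    intro a ha b hb hab
    have := hm ha hb hab
    simp only at this ⊢
    linarith)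
  simp only [neg_mul_neg] at h1
  rw [div_neg] at h1
  linarith

namespace Dat

theorem Xl_sub (K : Dat) (cl : Continuous K.l) (x1 x2 : ℝ) : K.Xl x2 - K.Xl x1 = ∫ t in x1..x2, K.rl t := by
  unfold Xl
  have h := fun a b : ℝ => (K.rl_cont cl).intervalIntegrable (μ := volume) a b
  rw [intervalIntegral.integral_interval_sub_left (h _ _) (h _ _)]

theorem Xu_sub (K : Dat) (hq : K.q ≠ 0) (cl : Continuous K.l) (cu : Continuous K.u) (x1 x2 : ℝ) :
    K.Xu x2 - K.Xu x1 = ∫ t in x1..x2, K.ru t := by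
  refine (intervalIntegral.integral_eq_sub_of_hasDerivAt (fun t _ => K.Xu_deriv hq cl cu t) ?_).symm
  exact (K.ru_cont cu).intervalIntegrable _ _

theorem Xl_strictMono (K : Dat) (cl : Continuous K.l) : StrictMono K.Xl := by
  refine strictMono_of_deriv_pos fun x => ?_
  rw [(K.Xl_deriv cl x).deriv]
  exact K.rl_pos x

theorem Xu_strictMono (K : Dat) (hq : K.q ≠ 0) (cl : Continuous K.l) (cu : Continuous K.u) : StrictMono K.Xu := by
  refine strictMono_of_deriv_pos fun x => ?_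
  rw [(K.Xu_deriv hq cl cu x).deriv]
  exact K.ru_pos x

private theorem Y0_alg (q p k C A B I : ℝ) (hq : q ≠ 0) (X1 X2 : ℝ) (hI : X2 - X1 = I) :
    (B - 1 - C - p * X2) / q - (A - 1 - C - p * X1) / q - k * (X2 - X1) = (B - A - (p + q * k) * I) / q := by
  rw [← hI]
  field_simp
  ring

/-- `Yl - k Xl` increases where `l t - k t` increases. -/
theorem Yl_slope (K : Dat) (hq : K.q ≠ 0) (cl : Continuous K.l) (k x1 x2 : ℝ) (h12 : x1 ≤ x2)
    (hm : MonotoneOn (fun t => K.l t - k * t) (Icc x1 x2)) : k * (K.Xl x2 - K.Xl x1) ≤ K.Yl x2 - K.Yl x1 := by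
  have h1 := arc_mono K.p K.q k hq K.l cl x1 x2 h12 hm
  have h2 := Y0_alg K.q K.p k (K.p * K.q * K.M) (K.rl x1) (K.rl x2) _ hq _ _ (K.Xl_sub cl x1 x2)
  have h3 : K.Yl x2 - K.Yl x1 - k * (K.Xl x2 - K.Xl x1) = (K.rl x2 - K.rl x1 -
      (K.p + K.q * k) * ∫ t in x1..x2, K.rl t) / K.q := h2
  have h4 : 0 ≤ K.Yl x2 - K.Yl x1 - k * (K.Xl x2 - K.Xl x1) := by rw [h3]; exact h1
  linarith

/-- `Yl - k Xl` decreases where `l t - k t` decreases. -/
theorem Yl_slope' (K : Dat) (hq : K.q ≠ 0) (cl : Continuous K.l) (k x1 x2 : ℝ) (h12 : x1 ≤ x2)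
    (hm : AntitoneOn (fun t => K.l t - k * t) (Icc x1 x2)) : K.Yl x2 - K.Yl x1 ≤ k * (K.Xl x2 - K.Xl x1) := by
  have h1 := arc_anti K.p K.q k hq K.l cl x1 x2 h12 hm
  have h2 := Y0_alg K.q K.p k (K.p * K.q * K.M) (K.rl x1) (K.rl x2) _ hq _ _ (K.Xl_sub cl x1 x2)
  have h3 : K.Yl x2 - K.Yl x1 - k * (K.Xl x2 - K.Xl x1) = (K.rl x2 - K.rl x1 -
      (K.p + K.q * k) * ∫ t in x1..x2, K.rl t) / K.q := h2
  have h4 : K.Yl x2 - K.Yl x1 - k * (K.Xl x2 - K.Xl x1) ≤ 0 := by rw [h3]; exact h1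
  linarith

/-- `Yu - k Xu` increases where `u t - k t` increases. -/
theorem Yu_slope (K : Dat) (hq : K.q ≠ 0) (cl : Continuous K.l) (cu : Continuous K.u) (k x1 x2 : ℝ) (h12 : x1 ≤ x2)
    (hm : MonotoneOn (fun t => K.u t - k * t) (Icc x1 x2)) : k * (K.Xu x2 - K.Xu x1) ≤ K.Yu x2 - K.Yu x1 := by
  have h1 := arc_mono K.p K.q k hq K.u cu x1 x2 h12 hm
  have h2 := Y0_alg K.q K.p k (K.p * K.q * K.M) (K.ru x1) (K.ru x2) _ hq _ _ (K.Xu_sub hq cl cu x1 x2)
  have h3 : K.Yu x2 - K.Yu x1 - k * (K.Xu x2 - K.Xu x1) = (K.ru x2 - K.ru x1 -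
      (K.p + K.q * k) * ∫ t in x1..x2, K.ru t) / K.q := h2
  have h4 : 0 ≤ K.Yu x2 - K.Yu x1 - k * (K.Xu x2 - K.Xu x1) := by rw [h3]; exact h1
  linarith

/-- `Yu - k Xu` decreases where `u t - k t` decreases. -/
theorem Yu_slope' (K : Dat) (hq : K.q ≠ 0) (cl : Continuous K.l) (cu : Continuous K.u) (k x1 x2 : ℝ) (h12 : x1 ≤ x2)
    (hm : AntitoneOn (fun t => K.u t - k * t) (Icc x1 x2)) : K.Yu x2 - K.Yu x1 ≤ k * (K.Xu x2 - K.Xu x1) := by
  have h1 := arc_anti K.p K.q k hq K.u cu x1 x2 h12 hm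
  have h2 := Y0_alg K.q K.p k (K.p * K.q * K.M) (K.ru x1) (K.ru x2) _ hq _ _ (K.Xu_sub hq cl cu x1 x2)
  have h3 : K.Yu x2 - K.Yu x1 - k * (K.Xu x2 - K.Xu x1) = (K.ru x2 - K.ru x1 -
      (K.p + K.q * k) * ∫ t in x1..x2, K.ru t) / K.q := h2
  have h4 : K.Yu x2 - K.Yu x1 - k * (K.Xu x2 - K.Xu x1) ≤ 0 := by rw [h3]; exact h1
  linarith

/-- `Yu` increases where `u` increases. -/
theorem Yu_le (K : Dat) (hq : K.q ≠ 0) (cl : Continuous K.l) (cu : Continuous K.u) (x1 x2 : ℝ) (h12 : x1 ≤ x2)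
    (hm : MonotoneOn K.u (Icc x1 x2)) : K.Yu x1 ≤ K.Yu x2 := by
  have := K.Yu_slope hq cl cu 0 x1 x2 h12 (by simpa using hm)
  linarith

/-- `Yu` decreases where `u` decreases. -/
theorem Yu_ge (K : Dat) (hq : K.q ≠ 0) (cl : Continuous K.l) (cu : Continuous K.u) (x1 x2 : ℝ) (h12 : x1 ≤ x2)
    (hm : AntitoneOn K.u (Icc x1 x2)) : K.Yu x2 ≤ K.Yu x1 := by
  have := K.Yu_slope' hq cl cu 0 x1 x2 h12 (by simpa using hm)
  linarith

/-- `Yl w ≤ Yu w`. -/
theorem Yw (K : Dat) (h : K.Reg) : K.Yl K.w ≤ K.Yu K.w := by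
  have h1 := K.mu_nonneg h K.w ⟨h.hw.le, le_rfl⟩
  have h2 : K.Yu K.w - K.Yl K.w = K.mu K.w := by
    unfold Yu Yl mu
    rw [K.Xu_w]
    have hq := h.hq
    field_simp
    ring
  linarith

end Dat

namespace Bd

/-- The highest point. -/
theorem exists_top (K : Bd) (h : K.Ok) : ∃ xN ∈ Icc 0 K.w, MonotoneOn K.u (Icc 0 xN) ∧ AntitoneOn K.u (Icc xN K.w) := by
  obtain ⟨xN, hxN, hmax⟩ := (isCompact_Icc (a := (0:ℝ)) (b := K.w)).exists_isMaxOn
    ⟨0, le_rfl, h.hw.le⟩ h.cu.continuousOn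
  refine ⟨xN, hxN, ?_, ?_⟩
  · intro a ha b hb hab
    have h1 : min (K.u a) (K.u xN) ≤ K.u b :=
      h.vu.min_le_of_mem_Icc ⟨ha.1, ha.2.trans hxN.2⟩ hxN ⟨hab, hb.2⟩
    have h2 : K.u a ≤ K.u xN := hmax ⟨ha.1, ha.2.trans hxN.2⟩
    rwa [min_eq_left h2] at h1
  · intro a ha b hb hab
    have h1 : min (K.u xN) (K.u b) ≤ K.u a :=
      h.vu.min_le_of_mem_Icc hxN ⟨hxN.1.trans hb.1, hb.2⟩ ⟨ha.1, hab⟩
    have h2 : K.u b ≤ K.u xN := hmax ⟨hxN.1.trans hb.1, hb.2⟩
    rwa [min_eq_right h2] at h1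

/-- `Yl` is increasing. -/
theorem Yl_mono (K : Bd) (h : K.CF) : MonotoneOn K.col.Yl (Icc 0 K.w) := by
  intro a ha b hb hab
  have := K.col.Yl_slope h.hq h.cl 0 a b hab (by
    have := (l_mono K h).1
    intro c hc d hd hcd
    simp only [zero_mul, sub_zero]
    exact this ⟨ha.1.trans hc.1, hc.2.trans hb.2⟩ ⟨ha.1.trans hd.1, hd.2.trans hb.2⟩ hcd)
  linarith

/-- `Yu` is quasiconcave. -/
theorem Yu_qc (K : Bd) (h : K.CF) (x x' x'' : ℝ) (h0 : 0 ≤ x) (h1 : x ≤ x') (h2 : x' ≤ x'') (h3 : x'' ≤ K.w) :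
    min (K.col.Yu x) (K.col.Yu x'') ≤ K.col.Yu x' := by
  obtain ⟨xN, hxN, hm, ha⟩ := exists_top K h.toOk
  rcases le_total x' xN with hc | hc
  · refine (min_le_left _ _).trans ?_
    exact K.col.Yu_le h.hq h.cl h.cu x x' h1 (hm.mono fun t ht => ⟨h0.trans ht.1, ht.2.trans hc⟩)
  · refine (min_le_right _ _).trans ?_
    exact K.col.Yu_ge h.hq h.cl h.cu x' x'' h2 (ha.mono fun t ht => ⟨hc.trans ht.1, ht.2.trans h3⟩)

end Bd

end Pool.Agent.Lib.MP_1dedaf_gt.DK
end

section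

/-!
# TASK TM P2c: the integral inequality for strips

Let `lam = om 0`, `F x = om x - lam`: continuous, concave on `[0, w]`, `F 0 = 0`. `A = {x ∈ [0, w] | 0 ≤ F x}` is compact and contains `0`; let `s` be its maximum (`IsCompact.exists_isGreatest`). By concavity `F ≥ 0` on `[0, s]`, and `F < 0` on `(s, w]`.
`Om` is continuous, `≥ 0`, and `> 0` on `[0, w)` (`Om_cont`, `Om_pos`).
Case `s = w`: `F ≥ 0`, the integrand is `≥ 0` and continuous, and it is positive somewhere: `F x ≠ 0` for some `x`, so `F x > 0`, and by continuity at some `x < w`; use `intervalIntegral.integral_pos`.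
Case `s < w`: `F s = 0` (continuity). `s > 0`: otherwise `F < 0` on `(0, w]` and `∫ F < 0`. Let `g x = sinh (F x) Om x - F x Om s` (continuous). For `x ∈ [0, s)`: `F x ≥ 0`, `sinh F ≥ F`, and `Om s < Om x` (`strip_M1` with `y = x`), so `g x ≥ 0`, and `> 0` if `F x > 0`. For `x ∈ (s, w]`:
`strip_M2` with `y = x`, `phi = - F x > 0` gives `sinh phi Om x ≤ phi Om s`, i.e. `g x ≥ 0`. There is `x0 ∈ (0, s)` with `F x0 > 0`: otherwise `F = 0` on `[0, s]` and `∫_0^w F = ∫_s^w F < 0`. Hence `∫_0^w g > 0` (`intervalIntegral.integral_pos`), that is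
`∫ sinh F Om > Om s ∫ F ≥ 0`.
-/

set_option autoImplicit false

open MeasureTheory Set Filter Topology

namespace Pool.Agent.Lib.MP_1dedaf_gt.DK

theorem strip_P2 {w : ℝ} {L R : ℝ → ℝ} (h : Strip w L R) (h0 : 0 < om L R 0)
    (hI : 0 ≤ ∫ x in (0:ℝ)..w, (om L R x - om L R 0)) (hne : ∃ x ∈ Icc 0 w, om L R x ≠ om L R 0) :
    0 < ∫ x in (0:ℝ)..w, Real.sinh (om L R x - om L R 0) * Om w L R x := by
  obtain ⟨hoc, -⟩ := om_cont h
  have hOc := Om_cont h
  have hconc := om_conc h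
  have hw := h.hw
  have hcv : ∀ x ∈ Icc 0 w, ∀ y ∈ Icc 0 w, ∀ a b : ℝ, 0 ≤ a → 0 ≤ b → a + b = 1 →
      a * om L R x + b * om L R y ≤ om L R (a * x + b * y) := fun x hx y hy a b ha hb hab =>
    hconc.2 hx hy ha hb hab
  set F : ℝ → ℝ := fun x => om L R x - om L R 0 with hF
  have hFc : Continuous F := hoc.sub continuous_const
  have hF0 : F 0 = 0 := sub_self _
  have hGc : Continuous fun x => Real.sinh (F x) * Om w L R x := (Real.continuous_sinh.comp hFc).mul hOc
  show 0 < ∫ x in (0:ℝ)..w, Real.sinh (F x) * Om w L R x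
  have hI' : 0 ≤ ∫ x in (0:ℝ)..w, F x := hI
  -- concavity between `0` and a point with `0 ≤ F`
  have hcc : ∀ b ∈ Icc 0 w, 0 ≤ F b → ∀ x ∈ Icc 0 b, 0 ≤ F x := by
    intro b hb hFb x hx
    rcases hx.1.eq_or_lt with h1 | h1
    · rw [← h1, hF0]
    · have hb0 : 0 < b := lt_of_lt_of_le h1 hx.2
      have h2 := hcv 0 ⟨le_rfl, hw.le⟩ b hb (1 - x / b) (x / b)
        (by
          rw [sub_nonneg, div_le_one hb0]
          exact hx.2) (div_nonneg hx.1 hb0.le) (by ring)
      rw [mul_zero, zero_add] at h2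
      rw [div_mul_cancel₀ _ hb0.ne'] at h2
      have h3 : 0 ≤ x / b * F b := mul_nonneg (div_nonneg hx.1 hb0.le) hFb
      have h4 : x / b * F b = x / b * om L R b - x / b * om L R 0 := by
        show x / b * (om L R b - om L R 0) = _
        ring
      have h5 : (1 - x / b) * om L R 0 = om L R 0 - x / b * om L R 0 := by ring
      show 0 ≤ om L R x - om L R 0
      linarith
  obtain ⟨s, hs, hsmax⟩ : ∃ s, s ∈ {x | x ∈ Icc 0 w ∧ 0 ≤ F x} ∧ ∀ x ∈ {x | x ∈ Icc 0 w ∧ 0 ≤ F x}, x ≤ s := by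
    have hcomp : IsCompact {x | x ∈ Icc 0 w ∧ 0 ≤ F x} := by
      have e : {x | x ∈ Icc 0 w ∧ 0 ≤ F x} = Icc 0 w ∩ F ⁻¹' Ici 0 := rfl
      rw [e]
      exact isCompact_Icc.inter_right (isClosed_Ici.preimage hFc)
    obtain ⟨s, hs⟩ := hcomp.exists_isGreatest ⟨0, ⟨le_rfl, hw.le⟩, hF0.ge⟩
    exact ⟨s, hs.1, fun x hx => hs.2 hx⟩
  obtain ⟨hsI, hFs⟩ := hs
  have hpos : ∀ x ∈ Icc 0 s, 0 ≤ F x := hcc s hsI hFs
  have hneg : ∀ x, s < x → x ≤ w → F x < 0 := by
    intro x hx hxw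
    by_contra hcon
    exact absurd (hsmax x ⟨⟨hsI.1.trans hx.le, hxw⟩, not_lt.1 hcon⟩) (not_le.2 hx)
  rcases hsI.2.eq_or_lt with hsw | hsw
  · -- `s = w`
    have hp : ∀ x ∈ Icc 0 w, 0 ≤ F x := by
      rw [← hsw]
      exact hpos
    obtain ⟨x0, hx0, hx0n⟩ := hne
    have hx0p : 0 < F x0 := lt_of_le_of_ne (hp x0 hx0) (fun hh => hx0n (sub_eq_zero.1 hh.symm))
    have hx1 : ∃ c ∈ Icc 0 w, 0 < F c ∧ c < w := by
      rcases hx0.2.eq_or_lt with h1 | h1
      · refine ⟨w / 2, ⟨by linarith, by linarith⟩, ?_, by linarith⟩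
        have h2 := hcv 0 ⟨le_rfl, hw.le⟩ w ⟨hw.le, le_rfl⟩ (1 / 2) (1 / 2)
          (by norm_num) (by norm_num) (by norm_num)
        rw [mul_zero, zero_add] at h2
        have h3 : (1 : ℝ) / 2 * w = w / 2 := by ring
        rw [h3] at h2
        rw [h1] at hx0p
        have h4 : 0 < om L R w - om L R 0 := hx0p
        show 0 < om L R (w / 2) - om L R 0
        linarith
      · exact ⟨x0, hx0, hx0p, h1⟩
    obtain ⟨c, hc, hcp, hcw⟩ := hx1
    refine intervalIntegral.integral_pos hw hGc.continuousOn (fun x hx => ?_) ⟨c, hc, ?_⟩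
    · exact mul_nonneg (Real.sinh_nonneg_iff.2 (hp x ⟨hx.1.le, hx.2⟩)) (Om_nonneg h x ⟨hx.1.le, hx.2⟩)
    · exact mul_pos (Real.sinh_pos_iff.2 hcp) (Om_pos h h0 c hc.1 hcw)
  · -- `s < w`
    have hcontra : (∀ x ∈ Ioc 0 w, F x ≤ 0) → False := by
      intro hall
      have h1 : 0 < ∫ x in (0:ℝ)..w, -F x :=
        intervalIntegral.integral_pos hw hFc.neg.continuousOn (fun x hx => neg_nonneg.2 (hall x hx))
          ⟨w, ⟨hw.le, le_rfl⟩, neg_pos.2 (hneg w hsw le_rfl)⟩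
      rw [intervalIntegral.integral_neg] at h1
      linarith
    have hFs0 : F s = 0 := by
      by_contra hcon
      have h1 : 0 < F s := lt_of_le_of_ne hFs (Ne.symm hcon)
      have h2 : (0 : ℝ) ∈ Icc (F w) (F s) := ⟨(hneg w hsw le_rfl).le, h1.le⟩
      obtain ⟨c, hc, hc0⟩ := intermediate_value_Icc' hsw.le hFc.continuousOn h2
      have h3 : c ≤ s := hsmax c ⟨⟨hsI.1.trans hc.1, hc.2⟩, hc0.ge⟩
      have h4 : c = s := le_antisymm h3 hc.1
      rw [h4] at hc0
      exact hcon hc0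
    have homs : om L R s = om L R 0 := sub_eq_zero.1 hFs0
    obtain ⟨x0, hx00, hx0s, hx0p⟩ : ∃ x0, 0 < x0 ∧ x0 < s ∧ 0 < F x0 := by
      by_contra hcon
      push Not at hcon
      refine hcontra fun x hx => ?_
      rcases lt_trichotomy x s with h1 | h1 | h1
      · exact hcon x hx.1 h1
      · rw [h1, hFs0]
      · exact (hneg x h1 hx.2).le
    have hM1 : ∀ x, 0 ≤ x → x < s → Om w L R s < Om w L R x := by
      intro x hx hxs
      refine strip_M1 h hx hxs hsI.2 h0 (fun y hy => ?_) homs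
      have h1 := hpos y ⟨hx.trans hy.1, hy.2⟩
      have h2 : 0 ≤ om L R y - om L R 0 := h1
      linarith
    have hOs := Om_nonneg h s hsI
    have hlow : ∀ x, 0 ≤ x → x < s → F x * Om w L R x ≤ Real.sinh (F x) * Om w L R x := by
      intro x hx hxs
      exact mul_le_mul_of_nonneg_right (Real.self_le_sinh_iff.2 (hpos x ⟨hx, hxs.le⟩))
        (Om_nonneg h x ⟨hx, (hxs.trans hsw).le⟩)
    have hg : Continuous fun x => Real.sinh (F x) * Om w L R x - F x * Om w L R s :=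
      hGc.sub (hFc.mul continuous_const)
    have hint : 0 < ∫ x in (0:ℝ)..w, (Real.sinh (F x) * Om w L R x - F x * Om w L R s) := by
      refine intervalIntegral.integral_pos hw hg.continuousOn (fun x hx => ?_)
        ⟨x0, ⟨hx00.le, (hx0s.trans hsw).le⟩, ?_⟩
      · rcases lt_trichotomy x s with h1 | h1 | h1
        · have h2 := hlow x hx.1.le h1
          have h3 : F x * Om w L R s ≤ F x * Om w L R x :=
            mul_le_mul_of_nonneg_left (hM1 x hx.1.le h1).le (hpos x ⟨hx.1.le, h1.le⟩)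
          linarith
        · rw [h1, hFs0, Real.sinh_zero]
          simp
        · have h2 := hneg x h1 hx.2
          have h3 := strip_M2 h (y := x) (phi := -F x) hsI.1 h1 hx.2 homs (by
            show om L R x = om L R 0 - -(om L R x - om L R 0)
            ring) (neg_pos.2 h2)
          rw [Real.sinh_neg] at h3
          linarith
      · have h2 := hlow x0 hx00.le hx0s
        have h3 : F x0 * Om w L R s < F x0 * Om w L R x0 :=
          mul_lt_mul_of_pos_left (hM1 x0 hx00.le hx0s) hx0p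
        linarith
    have hcs : Continuous fun x => F x * Om w L R s := hFc.mul continuous_const
    rw [intervalIntegral.integral_sub (hGc.intervalIntegrable _ _) (hcs.intervalIntegrable _ _),
      intervalIntegral.integral_mul_const] at hint
    have h5 : 0 ≤ (∫ x in (0:ℝ)..w, F x) * Om w L R s := mul_nonneg hI' hOs
    linarith

end Pool.Agent.Lib.MP_1dedaf_gt.DK
end

section

/-!
# TASK TM P2id: the identity behind P2

`a D = N 1 / q` (`a = N 1/N 0`, `D = N 0/q`, `N0_ne`). `Ss := ee q (u 0)`; `o = om L R`, `e = ec L R`; `e 0 = q (u 0)/2` (as `l 0 = 0`), so `1 + q Ss/2 = (1 + exp (q u 0))/2 = exp (e 0) cosh (o 0)`, `Ss = (2/|q|) exp (e 0) sinh (o 0)`. By `P2_MD`, `P2_N1`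
`(M - a Ss) D = M D (1 + q Ss/2) - Ss (4/|q|) ∫ cosh o Om = (8/q^2) exp (e 0) ∫ (cosh (o 0) sinh o - sinh (o 0) cosh o) Om = (8/q^2) exp (e 0) ∫ sinh (o - o 0) Om` (`Real.sinh_sub`; all functions are continuous, `Om` as well: reprove as in M1a or import M1a).
-/

set_option autoImplicit false

open MeasureTheory Set Filter Topology

namespace Pool.Agent.Lib.MP_1dedaf_gt.DK

namespace Dat

private theorem P2id_prim_cont {f : ℝ → ℝ} (hf : Continuous f) (w : ℝ) :
    Continuous (fun x => ∫ t in x..w, f t) := by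
  have h1 : (fun x => ∫ t in x..w, f t) = fun x => - ∫ t in w..x, f t := by
    funext x
    exact intervalIntegral.integral_symm _ _
  rw [h1]
  exact (intervalIntegral.continuous_primitive (fun a b => hf.intervalIntegrable a b) w).neg

private theorem P2id_Om_cont (w : ℝ) {L R : ℝ → ℝ} (ho : Continuous (om L R)) (he : Continuous (ec L R)) :
    Continuous (Om w L R) := by
  have hs : Continuous (fun t => Real.sinh (om L R t)) := Real.continuous_sinh.comp ho
  have h1 : Continuous (fun t => Real.sinh (om L R t) * Real.cosh (ec L R t)) := hs.mul (Real.continuous_cosh.comp he)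
  have h2 : Continuous (fun t => Real.sinh (om L R t) * Real.sinh (ec L R t)) := hs.mul (Real.continuous_sinh.comp he)
  have e : Om w L R = fun x => Real.cosh (ec L R x) * (∫ t in x..w, Real.sinh (om L R t) * Real.cosh (ec L R t)) -
      Real.sinh (ec L R x) * ∫ t in x..w, Real.sinh (om L R t) * Real.sinh (ec L R t) := by
    funext x
    unfold Om
    rw [← intervalIntegral.integral_const_mul, ← intervalIntegral.integral_const_mul,
      ← intervalIntegral.integral_sub ((h1.intervalIntegrable _ _).const_mul _) ((h2.intervalIntegrable _ _).const_mul _)]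
    refine intervalIntegral.integral_congr fun t _ => ?_
    change Real.sinh (om L R t) * Real.cosh (ec L R t - ec L R x) =
      Real.cosh (ec L R x) * (Real.sinh (om L R t) * Real.cosh (ec L R t)) -
      Real.sinh (ec L R x) * (Real.sinh (om L R t) * Real.sinh (ec L R t))
    rw [Real.cosh_sub]
    ring
  rw [e]
  exact ((Real.continuous_cosh.comp he).mul (P2id_prim_cont h1 w)).sub
    ((Real.continuous_sinh.comp he).mul (P2id_prim_cont h2 w))

theorem P2_id (K : Dat) (h : K.Reg) (h0 : K.l 0 = 0) :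
    (K.M - K.a * ee K.q (K.u 0)) * K.D = 8 / K.q ^ 2 * Real.exp (K.q * K.u 0 / 2) *
      ∫ x in (0:ℝ)..K.w, Real.sinh (om K.sL K.sR x - om K.sL K.sR 0) * Om K.w K.sL K.sR x := by
  have hq := h.hq
  have hN0 := K.N0_ne h
  have hLL : Continuous K.sL := by
    have := h.cl
    have := h.cu
    unfold sL
    fun_prop
  have hRR : Continuous K.sR := by
    have := h.cl
    have := h.cu
    unfold sR
    fun_prop
  have ho : Continuous (om K.sL K.sR) := by
    unfold om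
    fun_prop
  have he : Continuous (ec K.sL K.sR) := by
    unfold ec
    fun_prop
  have hOm := P2id_Om_cont K.w ho he
  have hMD := K.P2_MD h
  have hN1 := K.P2_N1 h
  have hom0 : om K.sL K.sR 0 = |K.q| * K.u 0 / 2 := by
    rw [K.P2_om 0, h0, sub_zero]
  have haD : K.a * K.D = K.N 1 / K.q := by
    unfold a D
    field_simp
  have key : K.q * K.u 0 / 2 + K.q * K.u 0 / 2 = K.q * K.u 0 := by ring
  have e1 : Real.exp (K.q * K.u 0 / 2) * Real.cosh (om K.sL K.sR 0) = (1 + Real.exp (K.q * K.u 0)) / 2 := by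
    have hc : Real.cosh (om K.sL K.sR 0) = Real.cosh (K.q * K.u 0 / 2) := by
      rw [hom0]
      rcases le_total 0 K.q with hs | hs
      · rw [abs_of_nonneg hs]
      · rw [abs_of_nonpos hs, ← Real.cosh_neg]
        congr 1
        ring
    rw [hc, Real.cosh_eq]
    have h1 : Real.exp (K.q * K.u 0 / 2) * Real.exp (K.q * K.u 0 / 2) = Real.exp (K.q * K.u 0) := by
      rw [← Real.exp_add, key]
    have h2 : Real.exp (K.q * K.u 0 / 2) * Real.exp (-(K.q * K.u 0 / 2)) = 1 := by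
      rw [← Real.exp_add, add_neg_cancel, Real.exp_zero]
    linear_combination (1 / 2 : ℝ) * h1 + (1 / 2 : ℝ) * h2
  have e2 : ee K.q (K.u 0) = 2 / |K.q| * (Real.exp (K.q * K.u 0 / 2) * Real.sinh (om K.sL K.sR 0)) := by
    have h1 : Real.exp (K.q * K.u 0 / 2) * Real.exp (K.q * K.u 0 / 2) = Real.exp (K.q * K.u 0) := by
      rw [← Real.exp_add, key]
    have h2 : Real.exp (K.q * K.u 0 / 2) * Real.exp (-(K.q * K.u 0 / 2)) = 1 := by
      rw [← Real.exp_add, add_neg_cancel, Real.exp_zero]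
    have hs : 2 / |K.q| * Real.sinh (om K.sL K.sR 0) = 2 / K.q * Real.sinh (K.q * K.u 0 / 2) := by
      rw [hom0]
      rcases le_total 0 K.q with hs | hs
      · rw [abs_of_nonneg hs]
      · rw [abs_of_nonpos hs]
        have : -K.q * K.u 0 / 2 = -(K.q * K.u 0 / 2) := by ring
        rw [this, Real.sinh_neg]
        field_simp
    have h3 : 2 / |K.q| * (Real.exp (K.q * K.u 0 / 2) * Real.sinh (om K.sL K.sR 0)) =
        Real.exp (K.q * K.u 0 / 2) * (2 / |K.q| * Real.sinh (om K.sL K.sR 0)) := by ring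
    rw [h3, hs, Real.sinh_eq]
    unfold ee
    have h4 : Real.exp (K.q * K.u 0 / 2) * (2 / K.q * ((Real.exp (K.q * K.u 0 / 2) - Real.exp (-(K.q * K.u 0 / 2))) / 2)) =
        (Real.exp (K.q * K.u 0 / 2) * Real.exp (K.q * K.u 0 / 2) -
          Real.exp (K.q * K.u 0 / 2) * Real.exp (-(K.q * K.u 0 / 2))) / K.q := by
      field_simp
    rw [h4, h1, h2]
  have e3 : 1 + K.q * ee K.q (K.u 0) / 2 = Real.exp (K.q * K.u 0 / 2) * Real.cosh (om K.sL K.sR 0) := by
    rw [e1]
    unfold ee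
    field_simp
    ring
  have i1 : IntervalIntegrable (fun x => Real.sinh (om K.sL K.sR x) * Om K.w K.sL K.sR x) volume 0 K.w :=
    ((Real.continuous_sinh.comp ho).mul hOm).intervalIntegrable _ _
  have i2 : IntervalIntegrable (fun x => Real.cosh (om K.sL K.sR x) * Om K.w K.sL K.sR x) volume 0 K.w :=
    ((Real.continuous_cosh.comp ho).mul hOm).intervalIntegrable _ _
  have e4 : (∫ x in (0:ℝ)..K.w, Real.sinh (om K.sL K.sR x - om K.sL K.sR 0) * Om K.w K.sL K.sR x) =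
      Real.cosh (om K.sL K.sR 0) * (∫ x in (0:ℝ)..K.w, Real.sinh (om K.sL K.sR x) * Om K.w K.sL K.sR x) -
      Real.sinh (om K.sL K.sR 0) * ∫ x in (0:ℝ)..K.w, Real.cosh (om K.sL K.sR x) * Om K.w K.sL K.sR x := by
    rw [← intervalIntegral.integral_const_mul, ← intervalIntegral.integral_const_mul,
      ← intervalIntegral.integral_sub (i1.const_mul _) (i2.const_mul _)]
    refine intervalIntegral.integral_congr fun x _ => ?_
    change Real.sinh (om K.sL K.sR x - om K.sL K.sR 0) * Om K.w K.sL K.sR x =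
      Real.cosh (om K.sL K.sR 0) * (Real.sinh (om K.sL K.sR x) * Om K.w K.sL K.sR x) -
      Real.sinh (om K.sL K.sR 0) * (Real.cosh (om K.sL K.sR x) * Om K.w K.sL K.sR x)
    rw [Real.sinh_sub]
    ring
  have hab : |K.q| * |K.q| = K.q ^ 2 := by rw [abs_mul_abs_self]; ring
  have habs : |K.q| ≠ 0 := abs_ne_zero.2 hq
  rw [e4]
  generalize (∫ x in (0:ℝ)..K.w, Real.sinh (om K.sL K.sR x) * Om K.w K.sL K.sR x) = I1 at *
  generalize (∫ x in (0:ℝ)..K.w, Real.cosh (om K.sL K.sR x) * Om K.w K.sL K.sR x) = I2 at *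
  have t1 : (K.M - K.a * ee K.q (K.u 0)) * K.D = K.M * K.D - ee K.q (K.u 0) * (K.a * K.D) := by ring
  rw [t1, haD, hN1]
  have t2 : K.M * K.D - ee K.q (K.u 0) * (-(K.q / 2) * (K.M * K.D) + 4 / |K.q| * I2) =
      (1 + K.q * ee K.q (K.u 0) / 2) * (K.M * K.D) - ee K.q (K.u 0) * (4 / |K.q| * I2) := by ring
  rw [t2, e3, hMD, e2]
  have t3 : 2 / |K.q| * (Real.exp (K.q * K.u 0 / 2) * Real.sinh (om K.sL K.sR 0)) * (4 / |K.q| * I2) =
      8 / K.q ^ 2 * (Real.exp (K.q * K.u 0 / 2) * Real.sinh (om K.sL K.sR 0) * I2) := by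
    rw [← hab]
    field_simp
    ring
  rw [t3]
  ring

end Dat

end Pool.Agent.Lib.MP_1dedaf_gt.DK
end
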