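import Pool.Agent.Lib.MP_1dedaf_gt.DK.OP.B2
import Pool.Agent.Lib.MP_1dedaf_gt.Mg.G029

section

/-!
# TASK OP L2: convex case

Proof. `K x = mL φ x b - β`, `F x = K x e^{-φ x}`, `Ξ = mQ - β mI = ∫_a^b F` (`mQ_int`, `mI_int`), `F a = Fa φ β a b`, `F b = -β e^{-φ b}`, `F' = -1 - φ' F = -N e^{-φ}`,
`N x = e^{φ x} + φ' x * K x`. For `x ≤ y` with `K y ≥ 0`: `N y - N x = ∫_x^y (φ' t - φ' x) e^{φ t} dt + (φ' y - φ' x) K y ≥ 0` (as `K x = K y + ∫_x^y e^φ`).
With `m = Ξ / (b - a) > 0`: `F a ≥ m`. Let `c` be the supremum (maximum) of the `x ∈ [a, b]` with `F x ≥ m`; `F c = m` (as `F b ≤ 0 < m`, continuity), `F x < m` on `(c, b]`, and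
`K c > 0`, so `K > 0` on `[a, c]` (`K` is decreasing). If `F x < m` for some `x ∈ (a, c)`, the mean value theorem gives `ξ₁ ∈ (a, x)` with `F' ξ₁ < 0`, `ξ₂ ∈ (x, c)` with
`F' ξ₂ > 0`, i.e. `N ξ₁ > 0 > N ξ₂`: against monotonicity of `N`. So `F - m ≥ 0` on `[a, c]`, `≤ 0` on `[c, b]`, `∫ (F - m) = 0`; `cheb`: `∫ φ' F ≤ m (φ b - φ a)`, and
`∫ φ' F = -(b - a) - (F b - F a)`.
-/

set_option autoImplicit false

open MeasureTheory Set Filter Topology

namespace Pool.Agent.Lib.MP_1dedaf_gt.DK

namespace OP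

variable {φ φ' : ℝ → ℝ} {a b β : ℝ}

private theorem L2_Fderiv (hd : ∀ x, HasDerivAt φ (φ' x) x) (β b x : ℝ) :
    HasDerivAt (fun x => (mL φ x b - β) * Real.exp (-φ x)) (-1 - φ' x * ((mL φ x b - β) * Real.exp (-φ x))) x := by
  have hφ : Continuous φ := continuous_iff_continuousAt.2 (fun x => (hd x).continuousAt)
  have h1 : HasDerivAt (fun x => mL φ x b - β) (-Real.exp (φ x)) x := by
    have h := ((cA_deriv hφ x).const_sub (cA φ b)).sub_const β
    exact h
  have h2 : HasDerivAt (fun x => Real.exp (-φ x)) (Real.exp (-φ x) * (-φ' x)) x := (hd x).neg.exp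
  have h3 := h1.mul h2
  refine h3.congr_deriv ?_
  have he : Real.exp (φ x) * Real.exp (-φ x) = 1 := by
    rw [← Real.exp_add]; simp
  calc -Real.exp (φ x) * Real.exp (-φ x) + (mL φ x b - β) * (Real.exp (-φ x) * -φ' x)
      = -(Real.exp (φ x) * Real.exp (-φ x)) - φ' x * ((mL φ x b - β) * Real.exp (-φ x)) := by ring
    _ = -1 - φ' x * ((mL φ x b - β) * Real.exp (-φ x)) := by rw [he]

private theorem L2_N (hd : ∀ x, HasDerivAt φ (φ' x) x) (mono : MonotoneOn φ' (Icc a b)) {x y : ℝ} (hx : x ∈ Icc a b) (hy : y ∈ Icc a b)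
    (hxy : x ≤ y) (hK : 0 ≤ mL φ y b - β) :
    Real.exp (φ x) + φ' x * (mL φ x b - β) ≤ Real.exp (φ y) + φ' y * (mL φ y b - β) := by
  have hφ : Continuous φ := continuous_iff_continuousAt.2 (fun x => (hd x).continuousAt)
  have hder : ∀ t, HasDerivAt (fun t => Real.exp (φ t) - φ' x * cA φ t) (Real.exp (φ t) * φ' t - φ' x * Real.exp (φ t)) t := by
    intro t
    exact ((hd t).exp).sub ((cA_deriv hφ t).const_mul (φ' x))
  have hmono : MonotoneOn (fun t => Real.exp (φ t) - φ' x * cA φ t) (Icc x y) := by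
    apply monotoneOn_of_deriv_nonneg (convex_Icc x y)
    · exact fun t _ => (hder t).continuousAt.continuousWithinAt
    · exact fun t _ => (hder t).differentiableAt.differentiableWithinAt
    · intro t ht
      rw [interior_Icc] at ht
      rw [(hder t).deriv]
      have h1 : φ' x ≤ φ' t := mono hx ⟨hx.1.trans ht.1.le, ht.2.le.trans hy.2⟩ ht.1.le
      have h2 : 0 < Real.exp (φ t) := Real.exp_pos _
      nlinarith
  have h0 := hmono (left_mem_Icc.2 hxy) (right_mem_Icc.2 hxy) hxy
  have h0' : Real.exp (φ x) - φ' x * cA φ x ≤ Real.exp (φ y) - φ' x * cA φ y := h0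
  have h1 : φ' x ≤ φ' y := mono hx hy hxy
  have h2 : 0 ≤ (φ' y - φ' x) * (mL φ y b - β) := mul_nonneg (by linarith) hK
  have h3 : mL φ x b = mL φ y b + (cA φ y - cA φ x) := by
    unfold mL; ring
  rw [h3]
  nlinarith

private theorem L2_pos_of (hφ : Continuous φ) {x y b β : ℝ} (hxy : x ≤ y) : mL φ y b - β ≤ mL φ x b - β := by
  rcases eq_or_lt_of_le hxy with h | h
  · rw [h]
  · have h1 := mL_pos hφ h
    have h2 := mL_cat φ x y b
    linarith

theorem L2 (hd : ∀ x, HasDerivAt φ (φ' x) x) (hc : Continuous φ') (hab : a < b) (mono : MonotoneOn φ' (Icc a b)) (hβ : 0 ≤ β)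
    (hX : 0 < mQ φ a b - β * mI φ a b) (hF : mQ φ a b - β * mI φ a b ≤ (b - a) * Fa φ β a b) :
    (b - a) * (Fa φ β a b + β * Real.exp (-φ b) - (b - a)) ≤ (φ b - φ a) * (mQ φ a b - β * mI φ a b) := by
  have hφ : Continuous φ := continuous_iff_continuousAt.2 (fun x => (hd x).continuousAt)
  have hba : 0 < b - a := sub_pos.2 hab
  obtain ⟨F, hFdef⟩ : ∃ F : ℝ → ℝ, F = fun x => (mL φ x b - β) * Real.exp (-φ x) := ⟨_, rfl⟩
  have hFd : ∀ x, HasDerivAt F (-1 - φ' x * F x) x := by
    intro x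
    have h := L2_Fderiv hd β b x
    rw [hFdef]
    exact h
  have hFc : Continuous F := continuous_iff_continuousAt.2 (fun x => (hFd x).continuousAt)
  have hFx : ∀ x, F x = (mL φ x b - β) * Real.exp (-φ x) := fun x => by rw [hFdef]
  have hFN : ∀ x, -1 - φ' x * F x = -((Real.exp (φ x) + φ' x * (mL φ x b - β)) * Real.exp (-φ x)) := by
    intro x
    have he : Real.exp (φ x) * Real.exp (-φ x) = 1 := by
      rw [← Real.exp_add]; simp
    rw [hFx]
    linear_combination he
  -- the integral of F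
  have hXi : ∫ x in a..b, F x = mQ φ a b - β * mI φ a b := by
    have hcL : Continuous (fun x => mL φ x b) := by
      unfold mL
      exact continuous_const.sub (cA_cont hφ)
    have hce : Continuous (fun x => Real.exp (-φ x)) := Real.continuous_exp.comp hφ.neg
    rw [mQ_int hφ, mI_int hφ, ← intervalIntegral.integral_const_mul, ← intervalIntegral.integral_sub]
    · apply intervalIntegral.integral_congr
      intro x _
      simp only [hFdef]
      ring
    · exact (hcL.mul hce).intervalIntegrable _ _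
    · exact (continuous_const.mul hce).intervalIntegrable _ _
  obtain ⟨m, hm⟩ : ∃ m : ℝ, m = (mQ φ a b - β * mI φ a b) / (b - a) := ⟨_, rfl⟩
  have hmpos : 0 < m := by rw [hm]; exact div_pos hX hba
  have hmX : m * (b - a) = mQ φ a b - β * mI φ a b := by
    rw [hm]; exact div_mul_cancel₀ _ hba.ne'
  have hFa : F a = Fa φ β a b := by rw [hFx]; rfl
  have hFa_ge : m ≤ F a := by
    rw [hFa, hm, div_le_iff₀ hba]
    linarith
  have hFb : F b = -β * Real.exp (-φ b) := by
    rw [hFx]
    have : mL φ b b = 0 := by unfold mL; ring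
    rw [this]; ring
  have hFb_le : F b ≤ 0 := by
    rw [hFb]
    have : 0 < Real.exp (-φ b) := Real.exp_pos _
    nlinarith
  -- the last point where F ≥ m
  obtain ⟨c, hcm, hcmax⟩ : ∃ c ∈ Icc a b ∩ {x | m ≤ F x}, ∀ x ∈ Icc a b ∩ {x | m ≤ F x}, x ≤ c := by
    have hcomp : IsCompact (Icc a b ∩ {x | m ≤ F x}) := isCompact_Icc.inter_right (isClosed_le continuous_const hFc)
    have hne : (Icc a b ∩ {x | m ≤ F x}).Nonempty := ⟨a, left_mem_Icc.2 hab.le, hFa_ge⟩
    obtain ⟨c, hc1, hc2⟩ := hcomp.exists_isGreatest hne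
    exact ⟨c, hc1, fun x hx => hc2 hx⟩
  have hcF : m ≤ F c := hcm.2
  have hac : a ≤ c := hcm.1.1
  have hcb' : c ≤ b := hcm.1.2
  have hcb : c < b := by
    rcases eq_or_lt_of_le hcb' with h | h
    · rw [h] at hcF; linarith
    · exact h
  have hlt : ∀ x, c < x → x ≤ b → F x < m := by
    intro x h1 h2
    by_contra hcon
    push Not at hcon
    have := hcmax x ⟨⟨hac.trans h1.le, h2⟩, hcon⟩
    linarith
  have hFc_le : F c ≤ m := by
    have hcl : c ∈ closure (Ioc c b) := by
      rw [closure_Ioc hcb.ne]; exact left_mem_Icc.2 hcb.le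
    have hclosed : IsClosed {x | F x ≤ m} := isClosed_le hFc continuous_const
    have hsub : Ioc c b ⊆ {x | F x ≤ m} := fun x hx => (hlt x hx.1 hx.2).le
    exact closure_minimal hsub hclosed hcl
  have hFc_eq : F c = m := le_antisymm hFc_le hcF
  have hKc : 0 < mL φ c b - β := by
    have h1 : 0 < (mL φ c b - β) * Real.exp (-φ c) := by
      rw [← hFx, hFc_eq]; exact hmpos
    exact pos_of_mul_pos_left h1 (Real.exp_pos _).le
  have hK : ∀ x, x ≤ c → 0 < mL φ x b - β := fun x hx => hKc.trans_le (L2_pos_of hφ hx)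
  -- F ≥ m on [a, c]
  have hge : ∀ x ∈ Icc a c, m ≤ F x := by
    intro x hx
    by_contra hcon
    push Not at hcon
    have hax : a < x := by
      rcases eq_or_lt_of_le hx.1 with h | h
      · rw [← h] at hcon; linarith
      · exact h
    have hxc : x < c := by
      rcases eq_or_lt_of_le hx.2 with h | h
      · rw [h] at hcon; linarith
      · exact h
    obtain ⟨ξ, hξ, hξe⟩ := exists_hasDerivAt_eq_slope F (fun x => -1 - φ' x * F x) hax hFc.continuousOn (fun t _ => hFd t)
    obtain ⟨η, hη, hηe⟩ := exists_hasDerivAt_eq_slope F (fun x => -1 - φ' x * F x) hxc hFc.continuousOn (fun t _ => hFd t)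
    have h1 : -1 - φ' ξ * F ξ < 0 := by
      have : (F x - F a) / (x - a) < 0 := div_neg_of_neg_of_pos (by linarith) (by linarith)
      have h2 : -1 - φ' ξ * F ξ = (F x - F a) / (x - a) := hξe
      rw [h2]; exact this
    have h2 : 0 < -1 - φ' η * F η := by
      have : 0 < (F c - F x) / (c - x) := div_pos (by linarith) (by linarith)
      have h2 : -1 - φ' η * F η = (F c - F x) / (c - x) := hηe
      rw [h2]; exact this
    rw [hFN] at h1 h2
    have e1 : 0 < Real.exp (-φ ξ) := Real.exp_pos _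
    have e2 : 0 < Real.exp (-φ η) := Real.exp_pos _
    have n1 : 0 < Real.exp (φ ξ) + φ' ξ * (mL φ ξ b - β) := by
      have h3 : 0 < (Real.exp (φ ξ) + φ' ξ * (mL φ ξ b - β)) * Real.exp (-φ ξ) := by linarith
      exact pos_of_mul_pos_left h3 e1.le
    have n2 : Real.exp (φ η) + φ' η * (mL φ η b - β) < 0 := by
      by_contra h
      push Not at h
      have := mul_nonneg h e2.le
      linarith
    have hξm : ξ ∈ Icc a b := ⟨hξ.1.le, (hξ.2.trans (hxc.trans hcb)).le⟩
    have hηm : η ∈ Icc a b := ⟨(hax.trans hη.1).le, (hη.2.trans hcb).le⟩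
    have h5 := L2_N (β := β) hd mono hξm hηm (hξ.2.trans hη.1).le (hK η hη.2.le).le
    linarith
  have hle : ∀ x ∈ Icc c b, F x ≤ m := by
    intro x hx
    rcases eq_or_lt_of_le hx.1 with h | h
    · rw [← h]; exact hFc_le
    · exact (hlt x h hx.2).le
  have h0 : ∫ x in a..b, (F x - m) = 0 := by
    rw [intervalIntegral.integral_sub (hFc.intervalIntegrable _ _) (continuous_const.intervalIntegrable _ _), hXi,
      intervalIntegral.integral_const, smul_eq_mul]
    linarith
  have hch := cheb hc (hFc.sub continuous_const) hac hcb' mono (fun x hx => sub_nonneg.2 (hge x hx)) (fun x hx => sub_nonpos.2 (hle x hx)) h0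
  have hcF' : Continuous (fun x => φ' x * F x) := hc.mul hFc
  have hcm' : Continuous (fun x => m * φ' x) := continuous_const.mul hc
  have e1 : ∫ x in a..b, φ' x * (F x - m) = (∫ x in a..b, φ' x * F x) - m * (φ b - φ a) := by
    have e2 : ∫ x in a..b, φ' x = φ b - φ a :=
      intervalIntegral.integral_eq_sub_of_hasDerivAt (fun x _ => hd x) (hc.intervalIntegrable _ _)
    have e3 : ∫ x in a..b, φ' x * (F x - m) = ∫ x in a..b, (φ' x * F x - m * φ' x) := by
      apply intervalIntegral.integral_congr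
      intro x _
      ring
    rw [e3, intervalIntegral.integral_sub (hcF'.intervalIntegrable _ _) (hcm'.intervalIntegrable _ _),
      intervalIntegral.integral_const_mul, e2]
  have e4 : ∫ x in a..b, φ' x * F x = -(b - a) - (F b - F a) := by
    have e5 : ∫ x in a..b, (-1 - φ' x * F x) = F b - F a :=
      intervalIntegral.integral_eq_sub_of_hasDerivAt (fun x _ => hFd x)
        ((continuous_const.sub (hc.mul hFc)).intervalIntegrable _ _)
    rw [intervalIntegral.integral_sub (continuous_const.intervalIntegrable _ _) (hcF'.intervalIntegrable _ _),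
      intervalIntegral.integral_const, smul_eq_mul] at e5
    linarith
  have hch' : ∫ x in a..b, φ' x * (F x - m) ≤ 0 := hch
  rw [e1, e4, hFb, hFa] at hch'
  have hfin : Fa φ β a b + β * Real.exp (-φ b) - (b - a) ≤ m * (φ b - φ a) := by linarith
  calc (b - a) * (Fa φ β a b + β * Real.exp (-φ b) - (b - a)) ≤ (b - a) * (m * (φ b - φ a)) :=
        mul_le_mul_of_nonneg_left hfin hba.le
    _ = (φ b - φ a) * (m * (b - a)) := by ring
    _ = (φ b - φ a) * (mQ φ a b - β * mI φ a b) := by rw [hmX]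

end OP

end Pool.Agent.Lib.MP_1dedaf_gt.DK
end

section

/-!
# TASK OP X1: the function `H(x) = (A(x) - p) e^{-φ(x)}`

Proof. `X1_pos`: by `mPQ`, `mQ_pos`: `p * mI < mL * mI`. For the others put `H x = (mL φ a x - p) * exp (-φ x)`. Then `H' = 1 - φ' H`, `H a = -p e^{-φ a}`
(`m_self`), `∫_a^b H = mP - p mI = 0` (`mP_int`, `mI_int`). `K x = mL φ a x - p` is continuous, `K a = -p < 0` (`p > 0` by `mP_pos`, `mI_pos`), `K b > 0` (`X1_pos`),
increasing; let `c ∈ [a, b]` be its zero (`intermediate_value_Icc`): `H ≤ 0` on `[a, c]`, `H ≥ 0` on `[c, b]`. Apply `cheb` / `cheb'` to `v = -H`, `u = φ'`: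
`∫ φ' H ≥ 0` when `φ'` is monotone, `≤ 0` when antitone. Fundamental theorem: `H b - H a = ∫ (1 - φ' H) = (b - a) - ∫ φ' H`.
-/

set_option autoImplicit false

open MeasureTheory Set Filter Topology

namespace Pool.Agent.Lib.MP_1dedaf_gt.DK

namespace OP

variable {φ φ' : ℝ → ℝ} {a b p : ℝ}

private theorem X1_m0 (a : ℝ) : mL φ a a = 0 := (m_self φ a).1

private theorem X1_mcont (h : Continuous φ) (a : ℝ) : Continuous (fun x => mL φ a x) := by
  have h1 : Continuous (fun x => cA φ x - cA φ a) := (cA_cont h).sub continuous_const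
  exact h1

private theorem X1_Hcont (h : Continuous φ) (a p : ℝ) : Continuous (fun x => (mL φ a x - p) * Real.exp (-φ x)) :=
  ((X1_mcont h a).sub continuous_const).mul (Real.continuous_exp.comp h.neg)

private theorem X1_int0 (h : Continuous φ) (hp : mP φ a b = p * mI φ a b) : ∫ x in a..b, (mL φ a x - p) * Real.exp (-φ x) = 0 := by
  have e : (fun x => (mL φ a x - p) * Real.exp (-φ x)) = fun x => mL φ a x * Real.exp (-φ x) - p * Real.exp (-φ x) := by
    funext x
    ring
  have c1 : Continuous (fun x => mL φ a x * Real.exp (-φ x)) := (X1_mcont h a).mul (Real.continuous_exp.comp h.neg)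
  have c2 : Continuous (fun x => p * Real.exp (-φ x)) := continuous_const.mul (Real.continuous_exp.comp h.neg)
  rw [e, intervalIntegral.integral_sub (c1.intervalIntegrable _ _) (c2.intervalIntegrable _ _), intervalIntegral.integral_const_mul,
    ← mP_int h a b, ← mI_int h a b, hp]
  ring

theorem X1_pos (h : Continuous φ) (hab : a < b) (hp : mP φ a b = p * mI φ a b) : 0 < mL φ a b - p := by
  have h1 := mPQ φ a b
  have h2 := mQ_pos h hab
  have h3 := mI_pos h hab
  have h4 : 0 < (mL φ a b - p) * mI φ a b := by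
    have : (mL φ a b - p) * mI φ a b = mQ φ a b := by
      rw [hp] at h1
      linarith
    rw [this]
    exact h2
  exact (mul_pos_iff_of_pos_right h3).1 h4

private theorem X1_cross (h : Continuous φ) (hab : a < b) (hp : mP φ a b = p * mI φ a b) :
    ∃ c, a ≤ c ∧ c ≤ b ∧ (∀ x ∈ Icc a c, (mL φ a x - p) * Real.exp (-φ x) ≤ 0) ∧ (∀ x ∈ Icc c b, 0 ≤ (mL φ a x - p) * Real.exp (-φ x)) := by
  have hp0 : 0 < p := by
    have h1 := mP_pos h hab
    have h2 := mI_pos h hab
    rw [hp] at h1
    exact (mul_pos_iff_of_pos_right h2).1 h1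
  have hb := X1_pos h hab hp
  have hmono : ∀ x y, x ≤ y → mL φ a x ≤ mL φ a y := by
    intro x y hxy
    rcases eq_or_lt_of_le hxy with e | e
    · rw [e]
    · have h1 := mL_pos h e
      have h2 := mL_cat φ a x y
      linarith
  have hc : ContinuousOn (fun x => mL φ a x - p) (Icc a b) := ((X1_mcont h a).sub continuous_const).continuousOn
  have hm : (0:ℝ) ∈ Icc ((fun x => mL φ a x - p) a) ((fun x => mL φ a x - p) b) := by
    refine ⟨?_, hb.le⟩
    show mL φ a a - p ≤ 0
    rw [X1_m0]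
    linarith
  obtain ⟨c, hc1, hc2⟩ := intermediate_value_Icc hab.le hc hm
  have hc3 : mL φ a c - p = 0 := hc2
  refine ⟨c, hc1.1, hc1.2, ?_, ?_⟩
  · intro x hx
    have h1 := hmono x c hx.2
    exact mul_nonpos_of_nonpos_of_nonneg (by linarith) (Real.exp_pos _).le
  · intro x hx
    have h1 := hmono c x hx.1
    exact mul_nonneg (by linarith) (Real.exp_pos _).le

private theorem X1_ftc (hd : ∀ x, HasDerivAt φ (φ' x) x) (hc : Continuous φ') (a b p : ℝ) :
    (mL φ a b - p) * Real.exp (-φ b) + p * Real.exp (-φ a) = (b - a) - ∫ x in a..b, φ' x * ((mL φ a x - p) * Real.exp (-φ x)) := by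
  have h : Continuous φ := continuous_iff_continuousAt.2 fun x => (hd x).continuousAt
  have hD : ∀ x ∈ uIcc a b, HasDerivAt (fun x => (mL φ a x - p) * Real.exp (-φ x)) (1 - φ' x * ((mL φ a x - p) * Real.exp (-φ x))) x := by
    intro x _
    have h1 : HasDerivAt (fun x => mL φ a x - p) (Real.exp (φ x)) x := by
      have h2 : HasDerivAt (fun x => cA φ x - cA φ a - p) (Real.exp (φ x)) x := ((cA_deriv h x).sub_const _).sub_const _
      exact h2
    have h2 : HasDerivAt (fun x => Real.exp (-φ x)) (Real.exp (-φ x) * (-φ' x)) x := ((hd x).neg).exp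
    have h3 := h1.mul h2
    have e : Real.exp (φ x) * Real.exp (-φ x) + (mL φ a x - p) * (Real.exp (-φ x) * (-φ' x)) = 1 - φ' x * ((mL φ a x - p) * Real.exp (-φ x)) := by
      rw [← Real.exp_add]
      simp
      ring
    rw [← e]
    exact h3
  have c1 : Continuous (fun x => φ' x * ((mL φ a x - p) * Real.exp (-φ x))) := hc.mul (X1_Hcont h a p)
  have c2 : Continuous (fun x => 1 - φ' x * ((mL φ a x - p) * Real.exp (-φ x))) := continuous_const.sub c1
  have h4 := intervalIntegral.integral_eq_sub_of_hasDerivAt hD (c2.intervalIntegrable _ _)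
  rw [intervalIntegral.integral_sub (continuous_const.intervalIntegrable _ _) (c1.intervalIntegrable _ _), intervalIntegral.integral_const] at h4
  have h5 : (fun x => (mL φ a x - p) * Real.exp (-φ x)) a = - (p * Real.exp (-φ a)) := by
    show (mL φ a a - p) * Real.exp (-φ a) = _
    rw [X1_m0]
    ring
  simp only [smul_eq_mul, mul_one] at h4
  rw [X1_m0] at h4
  linarith

theorem X1_cvx (hd : ∀ x, HasDerivAt φ (φ' x) x) (hc : Continuous φ') (hab : a < b) (hp : mP φ a b = p * mI φ a b) (mono : MonotoneOn φ' (Icc a b)) :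
    (mL φ a b - p) * Real.exp (-φ b) + p * Real.exp (-φ a) ≤ b - a := by
  have h : Continuous φ := continuous_iff_continuousAt.2 fun x => (hd x).continuousAt
  obtain ⟨c, h1, h2, h3, h4⟩ := X1_cross h hab hp
  have h5 := cheb (u := φ') (v := fun x => -((mL φ a x - p) * Real.exp (-φ x))) hc (X1_Hcont h a p).neg h1 h2 mono
    (fun x hx => by have := h3 x hx; linarith) (fun x hx => by have := h4 x hx; linarith)
    (by rw [intervalIntegral.integral_neg, X1_int0 h hp, neg_zero])
  have h6 : ∫ x in a..b, φ' x * -((mL φ a x - p) * Real.exp (-φ x)) = - ∫ x in a..b, φ' x * ((mL φ a x - p) * Real.exp (-φ x)) := by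
    rw [← intervalIntegral.integral_neg]
    congr 1
    funext x
    ring
  rw [h6] at h5
  rw [X1_ftc hd hc a b p]
  linarith

theorem X1_ccv (hd : ∀ x, HasDerivAt φ (φ' x) x) (hc : Continuous φ') (hab : a < b) (hp : mP φ a b = p * mI φ a b) (anti : AntitoneOn φ' (Icc a b)) :
    b - a ≤ (mL φ a b - p) * Real.exp (-φ b) + p * Real.exp (-φ a) := by
  have h : Continuous φ := continuous_iff_continuousAt.2 fun x => (hd x).continuousAt
  obtain ⟨c, h1, h2, h3, h4⟩ := X1_cross h hab hp
  have h5 := cheb' (u := φ') (v := fun x => -((mL φ a x - p) * Real.exp (-φ x))) hc (X1_Hcont h a p).neg h1 h2 anti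
    (fun x hx => by have := h3 x hx; linarith) (fun x hx => by have := h4 x hx; linarith)
    (by rw [intervalIntegral.integral_neg, X1_int0 h hp, neg_zero])
  have h6 : ∫ x in a..b, φ' x * -((mL φ a x - p) * Real.exp (-φ x)) = - ∫ x in a..b, φ' x * ((mL φ a x - p) * Real.exp (-φ x)) := by
    rw [← intervalIntegral.integral_neg]
    congr 1
    funext x
    ring
  rw [h6] at h5
  rw [X1_ftc hd hc a b p]
  linarith

end OP

end Pool.Agent.Lib.MP_1dedaf_gt.DK
end

section

/-!
# TASK OP X2: short intervals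

Proof. `X2_I`: `mI φ a x / (x - a)` is the slope at `a` of `cI φ`, whose derivative at `a` is `exp (-φ a)` (`cI_deriv`, `hasDerivAt_iff_tendsto_slope`).
`X2_P`: given `ε > 0`, by continuity `|φ t - φ a| ≤ ε` for `a ≤ t ≤ x`, `x` near `a`; so `e^{-2ε} (t - a) ≤ mL φ a t * e^{-φ t} ≤ e^{2ε} (t - a)` and
`e^{-2ε} (x - a)² / 2 ≤ mP φ a x ≤ e^{2ε} (x - a)² / 2` (`mP_int`, integrate). (Or by L'Hôpital.) `X2`: `W(x) / (x - a)³ → (e^{-f a} - e^{-g a}) / 2 > 0`.
-/

set_option autoImplicit false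

open MeasureTheory Set Filter Topology

namespace Pool.Agent.Lib.MP_1dedaf_gt.DK

namespace OP

theorem X2_I {φ : ℝ → ℝ} (h : Continuous φ) (a : ℝ) : Tendsto (fun x => mI φ a x / (x - a)) (𝓝[>] a) (𝓝 (Real.exp (-φ a))) := by
  have h1 := (hasDerivAt_iff_tendsto_slope.mp (cI_deriv h a)).mono_left (nhdsWithin_mono a (fun x (hx : x ∈ Ioi a) => ne_of_gt hx))
  refine h1.congr (fun x => ?_)
  simp only [slope_def_field, mI]

private theorem X2_L {φ : ℝ → ℝ} (h : Continuous φ) (a : ℝ) : Tendsto (fun x => mL φ a x / (x - a)) (𝓝[>] a) (𝓝 (Real.exp (φ a))) := by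
  have h1 := (hasDerivAt_iff_tendsto_slope.mp (cA_deriv h a)).mono_left (nhdsWithin_mono a (fun x (hx : x ∈ Ioi a) => ne_of_gt hx))
  refine h1.congr (fun x => ?_)
  simp only [slope_def_field, mL]

private theorem X2_dP {φ : ℝ → ℝ} (h : Continuous φ) (a x : ℝ) : HasDerivAt (fun y => mP φ a y) (mL φ a x * Real.exp (-φ x)) x := by
  have h1 := ((cP_deriv h x).sub_const (cP φ a)).sub (((cI_deriv h x).sub_const (cI φ a)).const_mul (cA φ a))
  have h2 : (fun y => mP φ a y) = (fun y => cP φ y - cP φ a) - (fun y => cA φ a * (cI φ y - cI φ a)) := by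
    funext y
    simp only [mP, mI, Pi.sub_apply]
  rw [h2]
  have h3 : mL φ a x * Real.exp (-φ x) = cA φ x * Real.exp (-φ x) - cA φ a * Real.exp (-φ x) := by
    unfold mL; ring
  rw [h3]
  exact h1

theorem X2_P {φ : ℝ → ℝ} (h : Continuous φ) (a : ℝ) : Tendsto (fun x => mP φ a x / (x - a) ^ 2) (𝓝[>] a) (𝓝 (1 / 2)) := by
  have hc : Tendsto (fun x => mP φ a x) (𝓝[>] a) (𝓝 0) := by
    have h1 : ContinuousAt (fun x => mP φ a x) a := (X2_dP h a a).continuousAt
    have h2 := h1.tendsto.mono_left (nhdsWithin_le_nhds (s := Ioi a))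
    simpa [(m_self φ a).2.2.1] using h2
  have hd : Tendsto (fun x : ℝ => (x - a) ^ 2) (𝓝[>] a) (𝓝 0) := by
    have h1 : ContinuousAt (fun x : ℝ => (x - a) ^ 2) a := by fun_prop
    have h2 := h1.tendsto.mono_left (nhdsWithin_le_nhds (s := Ioi a))
    simpa using h2
  refine HasDerivAt.lhopital_zero_nhdsGT (f' := fun x => mL φ a x * Real.exp (-φ x)) (g' := fun x => 2 * (x - a)) ?_ ?_ ?_ hc hd ?_
  · exact Eventually.of_forall (fun x => X2_dP h a x)
  · refine Eventually.of_forall (fun x => ?_)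
    have h1 := ((hasDerivAt_id x).sub_const a).pow 2
    have h2 : (2 : ℝ) * (x - a) = ((2 : ℕ) : ℝ) * (id x - a) ^ (2 - 1) * 1 := by
      simp
    rw [h2]
    exact h1
  · filter_upwards [self_mem_nhdsWithin] with x hx
    have : a < x := hx
    have : 0 < x - a := by linarith
    positivity
  · have h1 : Tendsto (fun x => Real.exp (-φ x)) (𝓝[>] a) (𝓝 (Real.exp (-φ a))) := by
      have : ContinuousAt (fun x => Real.exp (-φ x)) a := by fun_prop
      exact this.tendsto.mono_left nhdsWithin_le_nhds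
    have h2 := ((X2_L h a).mul h1).mul_const (1 / 2 : ℝ)
    have h3 : Real.exp (φ a) * Real.exp (-φ a) * (1 / 2) = 1 / 2 := by
      rw [← Real.exp_add]; simp
    rw [h3] at h2
    refine h2.congr' ?_
    filter_upwards [self_mem_nhdsWithin] with x hx
    have : a < x := hx
    have : x - a ≠ 0 := by
      have : 0 < x - a := by linarith
      exact this.ne'
    field_simp

theorem X2 {f g : ℝ → ℝ} (hf : Continuous f) (hg : Continuous g) {a : ℝ} (ha : f a < g a) :
    ∀ᶠ x in 𝓝[>] a, 0 < mP g a x * mI f a x - mP f a x * mI g a x := by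
  have h1 := ((X2_P hg a).mul (X2_I hf a)).sub ((X2_P hf a).mul (X2_I hg a))
  have hpos : 0 < 1 / 2 * Real.exp (-f a) - 1 / 2 * Real.exp (-g a) := by
    have : Real.exp (-g a) < Real.exp (-f a) := Real.exp_lt_exp.mpr (by linarith)
    linarith
  filter_upwards [h1.eventually_const_lt hpos, self_mem_nhdsWithin] with x hx hax
  have hax' : a < x := hax
  have h0 : 0 < x - a := by linarith
  have h3 : mP g a x / (x - a) ^ 2 * (mI f a x / (x - a)) - mP f a x / (x - a) ^ 2 * (mI g a x / (x - a)) =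
      (mP g a x * mI f a x - mP f a x * mI g a x) / (x - a) ^ 3 := by
    field_simp
  rw [h3] at hx
  exact (div_pos_iff_of_pos_right (pow_pos h0 3)).mp hx

end OP

end Pool.Agent.Lib.MP_1dedaf_gt.DK
end
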