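import Pool.Agent.Lib.MP_1dedaf_gt.DK.OP.B2
import Pool.Agent.Lib.MP_1dedaf_gt.DK.OP.B3

section

/-!
# TASK OP K1: bounds

Proof. `E = e^H`, `w = b - a`. On `[a, b]`: `e^{±f}, e^{±g} ≤ E`, so `mL φ x y ≤ E w` for `a ≤ x ≤ y ≤ b`; `e^g - e^f = e^{f + g} (e^{-f} - e^{-g}) ≤ E² (e^{-f} - e^{-g})`, so
`0 ≤ mL g x y - mL f x y ≤ E² dD` for `a ≤ x ≤ y ≤ b`. `K1_P`: `mP g - mP f = ∫ (A_g - A_f) e^{-g} - ∫ A_f (e^{-f} - e^{-g})`, both integrals lie in `[0, E³ w dD]`
(`mP_int`, `E ≥ 1`). `K1_Q`: the same with `B`. `K1_G`: `A_g B_g e^{-g} - A_f B_f e^{-f} = (A_g - A_f) B_g e^{-g} + A_f (B_g - B_f) e^{-g} - A_f B_f (e^{-f} - e^{-g})`; the first two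
are in `[0, E⁴ w dD]` pointwise, the integral of the last is in `[0, E² w² dD]`. `K1_J`: `dJ = (mG g - mG f) + (mP f - mP g) (mQ f - mQ g) / dD`.
`al_lim`: with `H` a bound of `|f|, |g|` on `[a, b]`, `|al f g a v| ≤ e^{3H} (v - a)` for `v ∈ (a, b]` (`K1_P` on `[a, v]`, `PD.sub`, `dD_pos'`); `be_lim` the same.
-/

set_option autoImplicit false

open MeasureTheory Set Filter Topology

namespace Pool.Agent.Lib.MP_1dedaf_gt.DK

namespace OP

variable {f g f' g' : ℝ → ℝ} {a b H : ℝ}

private theorem K1_E {u H : ℝ} (hu : |u| ≤ H) : Real.exp u ≤ Real.exp H ∧ Real.exp (-u) ≤ Real.exp H := by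
  have h := abs_le.mp hu
  exact ⟨Real.exp_le_exp.mpr h.2, Real.exp_le_exp.mpr (by linarith)⟩

private theorem K1_E1 (hab : a ≤ b) (bf : ∀ x ∈ Icc a b, |f x| ≤ H) : 1 ≤ Real.exp H :=
  Real.one_le_exp (le_trans (abs_nonneg _) (bf a ⟨le_refl a, hab⟩))

private theorem K1_L (hf : Continuous f) (bf : ∀ x ∈ Icc a b, |f x| ≤ H) {x y : ℝ} (hx : a ≤ x) (hxy : x ≤ y) (hy : y ≤ b) :
    0 ≤ mL f x y ∧ mL f x y ≤ Real.exp H * (b - a) := by
  rw [mL_int hf]
  constructor
  · exact intervalIntegral.integral_nonneg hxy (fun t _ => (Real.exp_pos _).le)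
  · have h1 : ∫ t in x..y, Real.exp (f t) ≤ ∫ _t in x..y, Real.exp H := by
      apply intervalIntegral.integral_mono_on hxy
      · exact (Real.continuous_exp.comp hf).intervalIntegrable _ _
      · exact continuous_const.intervalIntegrable _ _
      · intro t ht
        exact (K1_E (bf t ⟨le_trans hx ht.1, le_trans ht.2 hy⟩)).1
    rw [intervalIntegral.integral_const, smul_eq_mul] at h1
    have h2 : (y - x) * Real.exp H ≤ (b - a) * Real.exp H :=
      mul_le_mul_of_nonneg_right (by linarith) (Real.exp_pos _).le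
    linarith [mul_comm (b - a) (Real.exp H)]

private theorem K1_D (hf : Continuous f) (hg : Continuous g) : dD f g a b = ∫ x in a..b, (Real.exp (-f x) - Real.exp (-g x)) := by
  unfold dD
  rw [mI_int hf, mI_int hg, intervalIntegral.integral_sub]
  · exact (Real.continuous_exp.comp hf.neg).intervalIntegrable _ _
  · exact (Real.continuous_exp.comp hg.neg).intervalIntegrable _ _

private theorem K1_D0 (hf : Continuous f) (hg : Continuous g) (hab : a ≤ b) (hle : ∀ x ∈ Icc a b, f x ≤ g x) : 0 ≤ dD f g a b := by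
  rw [K1_D hf hg]
  apply intervalIntegral.integral_nonneg hab
  intro x hx
  have := Real.exp_le_exp.mpr (neg_le_neg (hle x hx))
  linarith

private theorem K1_dL (hf : Continuous f) (hg : Continuous g) (hle : ∀ x ∈ Icc a b, f x ≤ g x) (bf : ∀ x ∈ Icc a b, |f x| ≤ H)
    (bg : ∀ x ∈ Icc a b, |g x| ≤ H) {x y : ℝ} (hx : a ≤ x) (hxy : x ≤ y) (hy : y ≤ b) :
    0 ≤ mL g x y - mL f x y ∧ mL g x y - mL f x y ≤ Real.exp H ^ 2 * dD f g a b := by
  have cf : Continuous fun t => Real.exp (f t) := Real.continuous_exp.comp hf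
  have cg : Continuous fun t => Real.exp (g t) := Real.continuous_exp.comp hg
  have cf' : Continuous fun t => Real.exp (-f t) := Real.continuous_exp.comp hf.neg
  have cg' : Continuous fun t => Real.exp (-g t) := Real.continuous_exp.comp hg.neg
  rw [mL_int hf, mL_int hg, ← intervalIntegral.integral_sub (cg.intervalIntegrable _ _) (cf.intervalIntegrable _ _)]
  constructor
  · apply intervalIntegral.integral_nonneg hxy
    intro t ht
    have := Real.exp_le_exp.mpr (hle t ⟨le_trans hx ht.1, le_trans ht.2 hy⟩)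
    linarith
  · have h1 : ∫ t in x..y, (Real.exp (g t) - Real.exp (f t)) ≤ ∫ t in x..y, Real.exp H ^ 2 * (Real.exp (-f t) - Real.exp (-g t)) := by
      apply intervalIntegral.integral_mono_on hxy
      · exact (cg.sub cf).intervalIntegrable _ _
      · exact (continuous_const.mul (cf'.sub cg')).intervalIntegrable _ _
      · intro t ht
        have ht' : t ∈ Icc a b := ⟨le_trans hx ht.1, le_trans ht.2 hy⟩
        have e1 := (K1_E (bf t ht')).1
        have e2 := (K1_E (bg t ht')).1
        have e3 := Real.exp_le_exp.mpr (neg_le_neg (hle t ht'))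
        have e4 : Real.exp (g t) - Real.exp (f t) = Real.exp (f t) * Real.exp (g t) * (Real.exp (-f t) - Real.exp (-g t)) := by
          have k1 : Real.exp (f t) * Real.exp (-f t) = 1 := by rw [← Real.exp_add]; simp
          have k2 : Real.exp (g t) * Real.exp (-g t) = 1 := by rw [← Real.exp_add]; simp
          linear_combination (-Real.exp (g t)) * k1 + (Real.exp (f t)) * k2
        rw [e4]
        apply mul_le_mul_of_nonneg_right _ (by linarith)
        rw [sq]
        exact mul_le_mul e1 e2 (Real.exp_pos _).le (Real.exp_pos _).le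
    have h2 : ∫ t in x..y, Real.exp H ^ 2 * (Real.exp (-f t) - Real.exp (-g t)) ≤
        ∫ t in a..b, Real.exp H ^ 2 * (Real.exp (-f t) - Real.exp (-g t)) := by
      apply intervalIntegral.integral_mono_interval hx hxy hy
      · refine (ae_restrict_mem measurableSet_Ioc).mono (fun t ht => ?_)
        have e3 := Real.exp_le_exp.mpr (neg_le_neg (hle t ⟨ht.1.le, ht.2⟩))
        have : (0 : ℝ) ≤ Real.exp (-f t) - Real.exp (-g t) := by linarith
        show (0 : ℝ) ≤ _
        positivity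
      · exact (continuous_const.mul (cf'.sub cg')).intervalIntegrable _ _
    rw [intervalIntegral.integral_const_mul, intervalIntegral.integral_const_mul] at h2
    rw [intervalIntegral.integral_const_mul] at h1
    rw [K1_D hf hg]
    linarith

/-- The common estimate: `F e^{-f} - G e^{-g} = F (e^{-f} - e^{-g}) - (G - F) e^{-g}`. -/
private theorem K1_core (hf : Continuous f) (hg : Continuous g) (hab : a ≤ b) (hle : ∀ x ∈ Icc a b, f x ≤ g x)
    (bg : ∀ x ∈ Icc a b, |g x| ≤ H) {F G : ℝ → ℝ} (cF : Continuous F) (cG : Continuous G) {M1 M2 B : ℝ}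
    (h1 : ∀ x ∈ Icc a b, 0 ≤ F x ∧ F x ≤ M1) (h2 : ∀ x ∈ Icc a b, 0 ≤ G x - F x ∧ G x - F x ≤ M2)
    (hB1 : M1 * dD f g a b ≤ B) (hB2 : M2 * Real.exp H * (b - a) ≤ B) :
    |(∫ x in a..b, F x * Real.exp (-f x)) - ∫ x in a..b, G x * Real.exp (-g x)| ≤ B := by
  have cf' : Continuous fun t => Real.exp (-f t) := Real.continuous_exp.comp hf.neg
  have cg' : Continuous fun t => Real.exp (-g t) := Real.continuous_exp.comp hg.neg
  have c1 : Continuous fun x => F x * Real.exp (-f x) := cF.mul cf'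
  have c2 : Continuous fun x => G x * Real.exp (-g x) := cG.mul cg'
  have c3 : Continuous fun x => F x * (Real.exp (-f x) - Real.exp (-g x)) := cF.mul (cf'.sub cg')
  have c4 : Continuous fun x => (G x - F x) * Real.exp (-g x) := (cG.sub cF).mul cg'
  have key : (∫ x in a..b, F x * Real.exp (-f x)) - (∫ x in a..b, G x * Real.exp (-g x)) =
      (∫ x in a..b, F x * (Real.exp (-f x) - Real.exp (-g x))) - ∫ x in a..b, (G x - F x) * Real.exp (-g x) := by
    rw [← intervalIntegral.integral_sub (c1.intervalIntegrable _ _) (c2.intervalIntegrable _ _),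
      ← intervalIntegral.integral_sub (c3.intervalIntegrable _ _) (c4.intervalIntegrable _ _)]
    congr 1
    ext x
    ring
  rw [key]
  have a0 : 0 ≤ ∫ x in a..b, F x * (Real.exp (-f x) - Real.exp (-g x)) := by
    apply intervalIntegral.integral_nonneg hab
    intro x hx
    have e3 := Real.exp_le_exp.mpr (neg_le_neg (hle x hx))
    exact mul_nonneg (h1 x hx).1 (by linarith)
  have a1 : ∫ x in a..b, F x * (Real.exp (-f x) - Real.exp (-g x)) ≤ B := by
    refine le_trans ?_ hB1
    rw [K1_D hf hg, ← intervalIntegral.integral_const_mul]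
    apply intervalIntegral.integral_mono_on hab
    · exact (cF.mul (cf'.sub cg')).intervalIntegrable _ _
    · exact (continuous_const.mul (cf'.sub cg')).intervalIntegrable _ _
    · intro x hx
      have e3 := Real.exp_le_exp.mpr (neg_le_neg (hle x hx))
      exact mul_le_mul_of_nonneg_right (h1 x hx).2 (by linarith)
  have b0 : 0 ≤ ∫ x in a..b, (G x - F x) * Real.exp (-g x) := by
    apply intervalIntegral.integral_nonneg hab
    intro x hx
    exact mul_nonneg (h2 x hx).1 (Real.exp_pos _).le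
  have b1 : ∫ x in a..b, (G x - F x) * Real.exp (-g x) ≤ B := by
    refine le_trans ?_ hB2
    have : ∫ x in a..b, (G x - F x) * Real.exp (-g x) ≤ ∫ _x in a..b, M2 * Real.exp H := by
      apply intervalIntegral.integral_mono_on hab
      · exact ((cG.sub cF).mul cg').intervalIntegrable _ _
      · exact continuous_const.intervalIntegrable _ _
      · intro x hx
        have e := (K1_E (bg x hx)).2
        exact mul_le_mul (h2 x hx).2 e (Real.exp_pos _).le (le_trans (h2 x hx).1 (h2 x hx).2)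
    rw [intervalIntegral.integral_const, smul_eq_mul] at this
    linarith [mul_comm (b - a) (M2 * Real.exp H)]
  rw [abs_le]
  constructor <;> linarith

private theorem K1_cL1 (hf : Continuous f) (a : ℝ) : Continuous fun x => mL f a x := by
  unfold mL
  exact (cA_cont hf).sub continuous_const

private theorem K1_cL2 (hf : Continuous f) (b : ℝ) : Continuous fun x => mL f x b := by
  unfold mL
  exact continuous_const.sub (cA_cont hf)

theorem K1_P (hf : Continuous f) (hg : Continuous g) (hab : a ≤ b) (hle : ∀ x ∈ Icc a b, f x ≤ g x) (bf : ∀ x ∈ Icc a b, |f x| ≤ H) (bg : ∀ x ∈ Icc a b, |g x| ≤ H) :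
    |mP f a b - mP g a b| ≤ Real.exp (3 * H) * (b - a) * dD f g a b := by
  have hE : Real.exp (3 * H) = Real.exp H ^ 3 := by rw [← Real.exp_nat_mul]; norm_num
  have hE1 := K1_E1 hab bf
  have hD := K1_D0 hf hg hab hle
  have hw : 0 ≤ b - a := by linarith
  rw [hE, mP_int hf, mP_int hg]
  apply K1_core (H := H) hf hg hab hle bg (K1_cL1 hf a) (K1_cL1 hg a) (M1 := Real.exp H * (b - a)) (M2 := Real.exp H ^ 2 * dD f g a b)
  · intro x hx
    exact K1_L hf bf le_rfl hx.1 hx.2
  · intro x hx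
    exact K1_dL hf hg hle bf bg le_rfl hx.1 hx.2
  · have : Real.exp H ≤ Real.exp H ^ 3 := le_self_pow₀ hE1 (by norm_num)
    exact mul_le_mul_of_nonneg_right (mul_le_mul_of_nonneg_right this hw) hD
  · apply le_of_eq; ring

theorem K1_Q (hf : Continuous f) (hg : Continuous g) (hab : a ≤ b) (hle : ∀ x ∈ Icc a b, f x ≤ g x) (bf : ∀ x ∈ Icc a b, |f x| ≤ H) (bg : ∀ x ∈ Icc a b, |g x| ≤ H) :
    |mQ f a b - mQ g a b| ≤ Real.exp (3 * H) * (b - a) * dD f g a b := by
  have hE : Real.exp (3 * H) = Real.exp H ^ 3 := by rw [← Real.exp_nat_mul]; norm_num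
  have hE1 := K1_E1 hab bf
  have hD := K1_D0 hf hg hab hle
  have hw : 0 ≤ b - a := by linarith
  rw [hE, mQ_int hf, mQ_int hg]
  apply K1_core (H := H) hf hg hab hle bg (K1_cL2 hf b) (K1_cL2 hg b) (M1 := Real.exp H * (b - a)) (M2 := Real.exp H ^ 2 * dD f g a b)
  · intro x hx
    exact K1_L hf bf hx.1 hx.2 le_rfl
  · intro x hx
    exact K1_dL hf hg hle bf bg hx.1 hx.2 le_rfl
  · have : Real.exp H ≤ Real.exp H ^ 3 := le_self_pow₀ hE1 (by norm_num)
    exact mul_le_mul_of_nonneg_right (mul_le_mul_of_nonneg_right this hw) hD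
  · apply le_of_eq; ring

theorem K1_G (hf : Continuous f) (hg : Continuous g) (hab : a ≤ b) (hle : ∀ x ∈ Icc a b, f x ≤ g x) (bf : ∀ x ∈ Icc a b, |f x| ≤ H) (bg : ∀ x ∈ Icc a b, |g x| ≤ H) :
    |mG g a b - mG f a b| ≤ 2 * Real.exp (4 * H) * (b - a) ^ 2 * dD f g a b := by
  have hE : Real.exp (4 * H) = Real.exp H ^ 4 := by rw [← Real.exp_nat_mul]; norm_num
  have hE1 := K1_E1 hab bf
  have hE0 := Real.exp_pos H
  have hD := K1_D0 hf hg hab hle
  have hw : 0 ≤ b - a := by linarith
  rw [hE, mG_int hf, mG_int hg, abs_sub_comm]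
  apply K1_core (H := H) hf hg hab hle bg ((K1_cL1 hf a).mul (K1_cL2 hf b)) ((K1_cL1 hg a).mul (K1_cL2 hg b))
    (M1 := (Real.exp H * (b - a)) * (Real.exp H * (b - a))) (M2 := 2 * ((Real.exp H ^ 2 * dD f g a b) * (Real.exp H * (b - a))))
  · intro x hx
    have h1 := K1_L hf bf le_rfl hx.1 hx.2
    have h2 := K1_L hf bf hx.1 hx.2 le_rfl
    exact ⟨mul_nonneg h1.1 h2.1, mul_le_mul h1.2 h2.2 h2.1 (le_trans h1.1 h1.2)⟩
  · intro x hx
    have f1 := K1_L hf bf le_rfl hx.1 hx.2
    have f2 := K1_L hg bg hx.1 hx.2 le_rfl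
    have d1 := K1_dL hf hg hle bf bg le_rfl hx.1 hx.2
    have d2 := K1_dL hf hg hle bf bg hx.1 hx.2 le_rfl
    have e : mL g a x * mL g x b - mL f a x * mL f x b = (mL g a x - mL f a x) * mL g x b + mL f a x * (mL g x b - mL f x b) := by ring
    have u1 : 0 ≤ (mL g a x - mL f a x) * mL g x b := mul_nonneg d1.1 f2.1
    have u2 : 0 ≤ mL f a x * (mL g x b - mL f x b) := mul_nonneg f1.1 d2.1
    have v1 : (mL g a x - mL f a x) * mL g x b ≤ (Real.exp H ^ 2 * dD f g a b) * (Real.exp H * (b - a)) :=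
      mul_le_mul d1.2 f2.2 f2.1 (le_trans d1.1 d1.2)
    have v2 : mL f a x * (mL g x b - mL f x b) ≤ (Real.exp H * (b - a)) * (Real.exp H ^ 2 * dD f g a b) :=
      mul_le_mul f1.2 d2.2 d2.1 (le_trans f1.1 f1.2)
    show 0 ≤ mL g a x * mL g x b - mL f a x * mL f x b ∧ mL g a x * mL g x b - mL f a x * mL f x b ≤ _
    rw [e]
    constructor
    · linarith
    · linarith [mul_comm (Real.exp H * (b - a)) (Real.exp H ^ 2 * dD f g a b)]
  · have h4 : Real.exp H ^ 2 ≤ Real.exp H ^ 4 := pow_le_pow_right₀ hE1 (by norm_num)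
    have h5 : 0 ≤ (b - a) ^ 2 * dD f g a b := by positivity
    have h6 : Real.exp H ^ 2 * ((b - a) ^ 2 * dD f g a b) ≤ Real.exp H ^ 4 * ((b - a) ^ 2 * dD f g a b) :=
      mul_le_mul_of_nonneg_right h4 h5
    have h7 : 0 ≤ Real.exp H ^ 4 * ((b - a) ^ 2 * dD f g a b) := by positivity
    nlinarith [h6, h7]
  · apply le_of_eq; ring

theorem K1_J (hf : Continuous f) (hg : Continuous g) (hab : a ≤ b) (hle : ∀ x ∈ Icc a b, f x ≤ g x) (bf : ∀ x ∈ Icc a b, |f x| ≤ H) (bg : ∀ x ∈ Icc a b, |g x| ≤ H) :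
    |dJ f g a b| ≤ 3 * Real.exp (6 * H) * (b - a) ^ 2 * dD f g a b := by
  have hP := K1_P hf hg hab hle bf bg
  have hQ := K1_Q hf hg hab hle bf bg
  have hG := K1_G hf hg hab hle bf bg
  have hD := K1_D0 hf hg hab hle
  have hE1 := K1_E1 hab bf
  have hE0 := Real.exp_pos H
  have hw : 0 ≤ b - a := by linarith
  have h3 : Real.exp (3 * H) = Real.exp H ^ 3 := by rw [← Real.exp_nat_mul]; norm_num
  have h4 : Real.exp (4 * H) = Real.exp H ^ 4 := by rw [← Real.exp_nat_mul]; norm_num
  have h6 : Real.exp (6 * H) = Real.exp H ^ 6 := by rw [← Real.exp_nat_mul]; norm_num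
  rw [h3] at hP hQ
  rw [h4] at hG
  rw [h6]
  unfold dJ
  refine le_trans (abs_add_le _ _) ?_
  have k1 : |(mP f a b - mP g a b) * (mQ f a b - mQ g a b) / dD f g a b| ≤ Real.exp H ^ 6 * ((b - a) ^ 2 * dD f g a b) := by
    rw [abs_div, abs_mul, abs_of_nonneg hD]
    rcases hD.eq_or_lt with h0 | h0
    · rw [← h0]; simp
    · rw [div_le_iff₀ h0]
      calc |mP f a b - mP g a b| * |mQ f a b - mQ g a b| ≤ (Real.exp H ^ 3 * (b - a) * dD f g a b) * (Real.exp H ^ 3 * (b - a) * dD f g a b) :=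
            mul_le_mul hP hQ (abs_nonneg _) (le_trans (abs_nonneg _) hP)
        _ = Real.exp H ^ 6 * ((b - a) ^ 2 * dD f g a b) * dD f g a b := by ring
  have k2 : Real.exp H ^ 4 ≤ Real.exp H ^ 6 := pow_le_pow_right₀ hE1 (by norm_num)
  have k3 : 0 ≤ (b - a) ^ 2 * dD f g a b := by positivity
  have k4 := mul_le_mul_of_nonneg_right k2 k3
  nlinarith [k1, k4, hG]

private theorem K1_bd (h : PD f g f' g' a b) : ∃ H, (∀ x ∈ Icc a b, |f x| ≤ H) ∧ ∀ x ∈ Icc a b, |g x| ≤ H := by
  obtain ⟨C1, h1⟩ := (isCompact_Icc (a := a) (b := b)).exists_bound_of_continuousOn h.conf.continuousOn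
  obtain ⟨C2, h2⟩ := (isCompact_Icc (a := a) (b := b)).exists_bound_of_continuousOn h.cong.continuousOn
  refine ⟨max C1 C2, fun x hx => ?_, fun x hx => ?_⟩
  · exact le_trans (by simpa [Real.norm_eq_abs] using h1 x hx) (le_max_left _ _)
  · exact le_trans (by simpa [Real.norm_eq_abs] using h2 x hx) (le_max_right _ _)

theorem al_lim (h : PD f g f' g' a b) : Tendsto (fun v => al f g a v) (𝓝[>] a) (𝓝 0) := by
  obtain ⟨H, bf, bg⟩ := K1_bd h
  have hb : ∀ᶠ v in 𝓝[>] a, |al f g a v| ≤ Real.exp (3 * H) * (v - a) := by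
    filter_upwards [Ioc_mem_nhdsGT h.ab] with v hv
    have hsub : Icc a v ⊆ Icc a b := Icc_subset_Icc le_rfl hv.2
    have hP := K1_P h.conf h.cong hv.1.le (fun x hx => h.le x (hsub hx)) (fun x hx => bf x (hsub hx)) (fun x hx => bg x (hsub hx))
    have hD := K1_D0 h.conf h.cong hv.1.le (fun x hx => h.le x (hsub hx))
    have hw : 0 ≤ v - a := by linarith [hv.1]
    unfold al
    rw [abs_div, abs_of_nonneg hD]
    rcases hD.eq_or_lt with h0 | h0
    · rw [← h0]; simp; positivity
    · rw [div_le_iff₀ h0]; exact hP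
  have hlim : Tendsto (fun v => Real.exp (3 * H) * (v - a)) (𝓝[>] a) (𝓝 0) := by
    have : Continuous fun v : ℝ => Real.exp (3 * H) * (v - a) := by fun_prop
    have h2 := this.tendsto a
    simp only [sub_self, mul_zero] at h2
    exact h2.mono_left nhdsWithin_le_nhds
  exact squeeze_zero_norm' (by simpa [Real.norm_eq_abs] using hb) hlim

theorem be_lim (h : PD f g f' g' a b) : Tendsto (fun v => be f g v b) (𝓝[<] b) (𝓝 0) := by
  obtain ⟨H, bf, bg⟩ := K1_bd h
  have hb : ∀ᶠ v in 𝓝[<] b, |be f g v b| ≤ Real.exp (3 * H) * (b - v) := by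
    filter_upwards [Ico_mem_nhdsLT h.ab] with v hv
    have hsub : Icc v b ⊆ Icc a b := Icc_subset_Icc hv.1 le_rfl
    have hP := K1_Q h.conf h.cong hv.2.le (fun x hx => h.le x (hsub hx)) (fun x hx => bf x (hsub hx)) (fun x hx => bg x (hsub hx))
    have hD := K1_D0 h.conf h.cong hv.2.le (fun x hx => h.le x (hsub hx))
    have hw : 0 ≤ b - v := by linarith [hv.2]
    unfold be
    rw [abs_div, abs_of_nonneg hD]
    rcases hD.eq_or_lt with h0 | h0
    · rw [← h0]; simp; positivity
    · rw [div_le_iff₀ h0]; exact hP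
  have hlim : Tendsto (fun v => Real.exp (3 * H) * (b - v)) (𝓝[<] b) (𝓝 0) := by
    have : Continuous fun v : ℝ => Real.exp (3 * H) * (b - v) := by fun_prop
    have h2 := this.tendsto b
    simp only [sub_self, mul_zero] at h2
    exact h2.mono_left nhdsWithin_le_nhds
  exact squeeze_zero_norm' (by simpa [Real.norm_eq_abs] using hb) hlim

end OP

end Pool.Agent.Lib.MP_1dedaf_gt.DK
end

section

set_option autoImplicit false

open MeasureTheory Set Filter Topology

namespace Pool.Agent.Lib.MP_1dedaf_gt.DK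

namespace OP

variable {f g f' g' : ℝ → ℝ} {a b : ℝ}

private theorem dmI {φ : ℝ → ℝ} (h : Continuous φ) (b v : ℝ) : HasDerivAt (fun v => mI φ v b) (-Real.exp (-φ v)) v :=
  (cI_deriv h v).const_sub (cI φ b)

private theorem dmQ {φ : ℝ → ℝ} (h : Continuous φ) (b v : ℝ) : HasDerivAt (fun v => mQ φ v b) (-(mL φ v b * Real.exp (-φ v))) v := by
  have h1 := ((dmI h b v).const_mul (cA φ b)).sub ((cP_deriv h v).const_sub (cP φ b))
  refine h1.congr_deriv ?_
  unfold mL
  ring

theorem be_der (h : PD f g f' g' a b) :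
    HasDerivAt (fun v => be f g v b) ((Fa g (be f g a b) a b - Fa f (be f g a b) a b) / dD f g a b) a := by
  have hf := h.conf
  have hg := h.cong
  have hD : dD f g a b ≠ 0 := (dD_pos' hf hg h.ab h.le h.fat).ne'
  have h1 := ((dmQ hf b a).sub (dmQ hg b a)).div ((dmI hf b a).sub (dmI hg b a)) hD
  refine h1.congr_deriv ?_
  simp only [Pi.sub_apply]
  unfold Fa be
  change _ / dD f g a b ^ 2 = _
  have e : mI f a b - mI g a b = dD f g a b := rfl
  rw [e]
  field_simp
  ring

private theorem ev (hab : a < b) : ∀ᶠ v in 𝓝[>] a, v ∈ Ioo a b := Ioo_mem_nhdsGT hab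

private theorem slope_be (h : PD f g f' g' a b) :
    Tendsto (fun v => (be f g a b - be f g v b) / (v - a)) (𝓝[>] a)
      (𝓝 ((Fa f (be f g a b) a b - Fa g (be f g a b) a b) / dD f g a b)) := by
  have h1 := ((hasDerivAt_iff_tendsto_slope.1 (be_der h)).mono_left (nhdsWithin_mono a (fun x (hx : a < x) => hx.ne'))).neg
  refine (h1.congr' ?_).trans ?_
  · filter_upwards [self_mem_nhdsWithin] with v hv
    rw [slope_def_field]
    have : v - a ≠ 0 := (sub_pos.2 hv).ne'
    field_simp
    ring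
  · rw [← neg_div, neg_sub]

theorem S1' (h : PD f g f' g' a b) (hY : ∀ v ∈ Ioo a b, be f g v b < be f g a b) : Fa g (be f g a b) a b ≤ Fa f (be f g a b) a b := by
  have hD : 0 < dD f g a b := dD_pos' h.conf h.cong h.ab h.le h.fat
  have h1 := ge_of_tendsto (slope_be h) (by
    filter_upwards [ev h.ab] with v hv
    exact div_nonneg (sub_nonneg.2 (hY v hv).le) (sub_nonneg.2 hv.1.le))
  have h2 := mul_nonneg h1 hD.le
  rw [div_mul_cancel₀ _ hD.ne'] at h2
  linarith

theorem S1 (h : PD f g f' g' a b)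
    (hC : ∀ v ∈ Ioo a b, dM f g a v * Xi f g v b + dD f g a b * (al f g a b - al f g a v) * (be f g a b - be f g v b) ≤ 0) :
    (Real.exp (g a) - Real.exp (f a)) * Xi f g a b + al f g a b * (Fa f (be f g a b) a b - Fa g (be f g a b) a b) ≤ 0 := by
  have hf := h.conf
  have hg := h.cong
  have hD : 0 < dD f g a b := dD_pos' hf hg h.ab h.le h.fat
  -- dM f g a v / (v - a)
  have t1 : Tendsto (fun v => dM f g a v / (v - a)) (𝓝[>] a) (𝓝 (Real.exp (g a) - Real.exp (f a))) := by
    have d1 : HasDerivAt (fun v => dM f g a v) (Real.exp (g a) - Real.exp (f a)) a := by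
      have := ((cA_deriv hg a).sub_const (cA g a)).sub ((cA_deriv hf a).sub_const (cA f a))
      exact this
    have h1 := (hasDerivAt_iff_tendsto_slope.1 d1).mono_left (nhdsWithin_mono a (fun x (hx : a < x) => hx.ne'))
    refine h1.congr' ?_
    filter_upwards [self_mem_nhdsWithin] with v hv
    rw [slope_def_field]
    have : dM f g a a = 0 := by unfold dM mL; ring
    rw [this, sub_zero]
  have t2 : Tendsto (fun v => Xi f g v b) (𝓝[>] a) (𝓝 (Xi f g a b)) := by
    have c : ContinuousAt (fun v => Xi f g v b) a := by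
      unfold Xi
      exact (dmQ hf b a).continuousAt.sub ((be_der h).continuousAt.mul (dmI hf b a).continuousAt)
    exact c.tendsto.mono_left nhdsWithin_le_nhds
  have t3 : Tendsto (fun v => al f g a b - al f g a v) (𝓝[>] a) (𝓝 (al f g a b)) := by
    simpa using (tendsto_const_nhds (x := al f g a b)).sub (al_lim h)
  have t := (t1.mul t2).add (((tendsto_const_nhds (x := dD f g a b)).mul t3).mul (slope_be h))
  have hle := le_of_tendsto t (b := (0:ℝ)) (by
    filter_upwards [ev h.ab] with v hv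
    have hv' : 0 < v - a := sub_pos.2 hv.1
    have := hC v hv
    have e : dM f g a v / (v - a) * Xi f g v b + dD f g a b * (al f g a b - al f g a v) * ((be f g a b - be f g v b) / (v - a))
        = (dM f g a v * Xi f g v b + dD f g a b * (al f g a b - al f g a v) * (be f g a b - be f g v b)) / (v - a) := by
      field_simp
    rw [e]
    exact div_nonpos_of_nonpos_of_nonneg this hv'.le)
  have e : dD f g a b * al f g a b * ((Fa f (be f g a b) a b - Fa g (be f g a b) a b) / dD f g a b)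
      = al f g a b * (Fa f (be f g a b) a b - Fa g (be f g a b) a b) := by
    field_simp
  rw [e] at hle
  exact hle

end OP

end Pool.Agent.Lib.MP_1dedaf_gt.DK
end
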