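import Pool.Agent.Lib.MP_1dedaf_gt.DK.OP.C1
import Pool.Agent.Lib.MP_1dedaf_gt.DK.OP.X3
import Pool.Agent.Lib.MP_1dedaf_gt.Mg.G020
import Pool.Agent.Lib.MP_1dedaf_gt.Mg.G030
import Pool.Agent.Lib.MP_1dedaf_gt.Mg.G031
import Pool.Agent.Lib.MP_1dedaf_gt.DK.OP.R1
import Pool.Agent.Lib.MP_1dedaf_gt.DK.OP.Q1

section

/-!
# OP N1: the left case
-/

set_option autoImplicit false

open MeasureTheory Set Filter Topology

namespace Pool.Agent.Lib.MP_1dedaf_gt.DK

namespace OP

variable {f g f' g' : ℝ → ℝ} {a b m : ℝ}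

theorem PD.D_pos (h : PD f g f' g' a b) : 0 < dD f g a b := dD_pos' h.conf h.cong h.ab h.le h.fat

theorem PD.M_pos (h : PD f g f' g' a b) : 0 < dM f g a b := dM_pos' h.conf h.cong h.ab h.le h.fat

theorem Xi_eq (h : PD f g f' g' a b) : Xi f g a b = mQ g a b - be f g a b * mI g a b := by
  have hD := h.D_pos.ne'
  unfold Xi be
  unfold dD at *
  field_simp
  ring

theorem L3 (h : PD f g f' g' a b) (hb : f b = g b) (hβ : 0 ≤ be f g a b) (hF : Fa g (be f g a b) a b ≤ Fa f (be f g a b) a b) :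
    Fa f (be f g a b) a b - Fa g (be f g a b) a b ≤ (g a - f a) / (b - a) * Xi f g a b := by
  have hX := Xi_pos h
  have hXg : Xi f g a b = mQ g a b - be f g a b * mI g a b := Xi_eq h
  have hXf : Xi f g a b = mQ f a b - be f g a b * mI f a b := rfl
  have hw : 0 < b - a := sub_pos.2 h.ab
  have e1 := L1_a h.dg h.cg h.ab h.mg hβ (hXg ▸ hX)
  have e2 := L1_b h.dg h.cg h.ab h.mg hβ (hXg ▸ hX)
  rw [← hXg] at e1 e2
  have e3 := L2 h.df h.cf h.ab h.mf hβ (hXf ▸ hX) (by
    rw [← hXf]; exact e1.trans (mul_le_mul_of_nonneg_left hF hw.le))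
  rw [← hXf, hb] at e3
  rw [div_mul_eq_mul_div, le_div_iff₀ hw]
  nlinarith [e1, e2, e3]

theorem cut_le (h : PD f g f' g' a b) (hm : Mn f g a b m) {v : ℝ} (hv : v ∈ Ioo a b) :
    dM f g v b * Xi' f g a v + dM f g a v * Xi f g v b + dD f g a b * (al f g a b - al f g a v) * (be f g a b - be f g v b) ≤ 0 := by
  have h1 := h.sub le_rfl hv.1 hv.2.le
  have h2 := h.sub hv.1.le hv.2 le_rfl
  have c := cut f g a v b h1.D_pos.ne' h2.D_pos.ne' h.D_pos.ne'
  have z : (fun x => f x + 0) = f := by funext x; simp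
  have m1 := hm.2 a v 0 le_rfl hv.1 hv.2.le le_rfl (fun x hx => by simpa using h1.le x hx) (by
    obtain ⟨x, hx, hx'⟩ := h1.fat; exact ⟨x, hx, by simpa using hx'⟩)
  have m2 := hm.2 v b 0 hv.1.le hv.2 le_rfl le_rfl (fun x hx => by simpa using h2.le x hx) (by
    obtain ⟨x, hx, hx'⟩ := h2.fat; exact ⟨x, hx, by simpa using hx'⟩)
  rw [z] at m1 m2
  have m0 := hm.1
  nlinarith [m0, m1, m2, c]


theorem N1 (h : PD f g f' g' a b) (hm0 : 0 < m) (hm : Mn f g a b m) (hX : ∀ v ∈ Ioo a b, al f g a b < al f g a v)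
    (hY : ∀ v ∈ Ioo a b, be f g v b < be f g a b) : False := by
  have hab := h.ab
  have hw : 0 < b - a := sub_pos.2 hab
  have hα : al f g a b ≤ 0 := by
    refine ge_of_tendsto (al_lim h) ?_
    filter_upwards [Ioo_mem_nhdsGT hab] with v hv using (hX v hv).le
  have hβ : 0 ≤ be f g a b := by
    refine le_of_tendsto (be_lim h) ?_
    filter_upwards [Ioo_mem_nhdsLT hab] with v hv using (hY v hv).le
  have hC : ∀ v ∈ Ioo a b, dM f g a v * Xi f g v b + dD f g a b * (al f g a b - al f g a v) * (be f g a b - be f g v b) ≤ 0 := by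
    intro v hv
    have h1 := h.sub le_rfl hv.1 hv.2.le
    have h2 := h.sub hv.1.le hv.2 le_rfl
    have c := cut_le h hm hv
    have := mul_pos h2.M_pos (Xi'_pos h1)
    linarith
  have s := S1 h hC
  have s' := S1' h hY
  have hXi := Xi_pos h
  have hM := h.M_pos
  have hD := h.D_pos
  have hIf := mI_pos h.conf hab
  have hGf := mG_pos h.conf hab
  have hLf := mL_pos h.conf hab
  set β := be f g a b with hβd
  set α := al f g a b with hαd
  -- the left end is fat
  have hle : f a ≤ g a := h.le a ⟨le_rfl, hab.le⟩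
  have hlt : f a < g a := by
    rcases hle.lt_or_eq with h' | h'
    · exact h'
    · exfalso
      have : Fa g β a b - Fa f β a b = dM f g a b * Real.exp (-g a) := by
        unfold Fa dM; rw [h']; ring
      have := mul_pos hM (Real.exp_pos (-g a))
      linarith
  have hE : Real.exp (f a) < Real.exp (g a) := Real.exp_lt_exp.2 hlt
  have hF : 0 ≤ Fa f β a b - Fa g β a b := by linarith
  -- raising is excluded
  have hbb : f b = g b := by
    rcases (h.le b ⟨hab.le, le_rfl⟩).lt_or_eq with h' | h'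
    · exfalso
      have r := R1 h hm hlt h'
      have : α * β * mI f a b ≤ 0 := mul_nonpos_of_nonpos_of_nonneg (mul_nonpos_of_nonpos_of_nonneg hα hβ) hIf.le
      linarith
    · exact h'
  have l3 := L3 h hbb hβ s'
  have r2 := R2 h hm0.le hm hlt hbb
  have cv := h.cvx
  set k := (g a - f a) / (b - a) with hk
  have hk0 : 0 < k := div_pos (sub_pos.2 hlt) hw
  set u0 := Real.exp (g a) with hu0
  set l0 := Real.exp (f a) with hl0
  -- (u0 - l0) ≤ -α k
  have q1 : (u0 - l0) ≤ -α * k := by
    have : (u0 - l0) * Xi f g a b ≤ (-α * k) * Xi f g a b := by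
      have : -α * (Fa f β a b - Fa g β a b) ≤ -α * (k * Xi f g a b) := mul_le_mul_of_nonneg_left l3 (by linarith)
      nlinarith
    exact le_of_mul_le_mul_right this hXi
  -- M < (u0 - l0) L / l0
  have q2 : dM f g a b * l0 ≤ (u0 - l0) * mL f a b := by
    have e1 : Fa g β a b * u0 = mL f a b + dM f g a b - β := by
      unfold Fa dM; rw [hu0, mul_assoc, ← Real.exp_add]; simp
    have e2 : Fa f β a b * l0 = mL f a b - β := by
      unfold Fa; rw [hl0, mul_assoc, ← Real.exp_add]; simp
    have l0p : 0 < l0 := Real.exp_pos _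
    have u0p : 0 < u0 := Real.exp_pos _
    have : Fa g β a b * u0 * l0 ≤ Fa f β a b * l0 * u0 := by nlinarith [mul_pos l0p u0p]
    rw [e1, e2] at this
    nlinarith
  have q3 : dM f g a b * Real.exp (-g b) ≤ (u0 - l0) * mI f a b := by
    have l0p : 0 < l0 := Real.exp_pos _
    have e3 : mL f a b ≤ l0 * (Real.exp (f b) * mI f a b) := by
      have : mL f a b * Real.exp (-f a) * l0 ≤ Real.exp (f b) * mI f a b * l0 := mul_le_mul_of_nonneg_right cv l0p.le
      have e4 : mL f a b * Real.exp (-f a) * l0 = mL f a b := by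
        rw [hl0, mul_assoc, ← Real.exp_add]; simp
      linarith
    have e5 : dM f g a b * l0 ≤ (u0 - l0) * (l0 * (Real.exp (f b) * mI f a b)) :=
      q2.trans (mul_le_mul_of_nonneg_left e3 (by linarith))
    have e6 : dM f g a b ≤ (u0 - l0) * (Real.exp (f b) * mI f a b) := by
      have : dM f g a b * l0 ≤ ((u0 - l0) * (Real.exp (f b) * mI f a b)) * l0 := by linarith
      exact le_of_mul_le_mul_right this l0p
    have e7 : dM f g a b * Real.exp (-g b) ≤ (u0 - l0) * (Real.exp (f b) * mI f a b) * Real.exp (-g b) :=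
      mul_le_mul_of_nonneg_right e6 (Real.exp_pos _).le
    have e8 : (u0 - l0) * (Real.exp (f b) * mI f a b) * Real.exp (-g b) = (u0 - l0) * mI f a b := by
      have : Real.exp (f b) * Real.exp (-g b) = 1 := by rw [hbb, ← Real.exp_add]; simp
      calc (u0 - l0) * (Real.exp (f b) * mI f a b) * Real.exp (-g b) = (u0 - l0) * mI f a b * (Real.exp (f b) * Real.exp (-g b)) := by ring
        _ = _ := by rw [this, mul_one]
    linarith
  have q4 : β * dM f g a b * Real.exp (-g b) ≤ β * ((u0 - l0) * mI f a b) := by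
    rw [mul_assoc]; exact mul_le_mul_of_nonneg_left q3 hβ
  have q5 : β * ((u0 - l0) * mI f a b) ≤ β * ((-α * k) * mI f a b) :=
    mul_le_mul_of_nonneg_left (mul_le_mul_of_nonneg_right q1 hIf.le) hβ
  have q6 := mul_pos hk0 hGf
  nlinarith [q4, q5, q6, r2]

end OP

end Pool.Agent.Lib.MP_1dedaf_gt.DK
end

section

/-!
# OP N2: no minimum, and `dJ ≥ 0`
-/

set_option autoImplicit false

open MeasureTheory Set Filter Topology

namespace Pool.Agent.Lib.MP_1dedaf_gt.DK

namespace OP

variable {f g f' g' : ℝ → ℝ} {a b m : ℝ}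

theorem dD_neg (f g : ℝ → ℝ) (x y : ℝ) : dD (fun t => f (-t)) (fun t => g (-t)) (-y) (-x) = dD f g x y := by
  unfold dD; rw [mI_neg, mI_neg]

theorem al_neg (f g : ℝ → ℝ) (x y : ℝ) : al (fun t => f (-t)) (fun t => g (-t)) (-y) (-x) = be f g x y := by
  unfold al be; rw [dD_neg, mP_neg, mP_neg]

theorem be_neg (f g : ℝ → ℝ) (x y : ℝ) : be (fun t => f (-t)) (fun t => g (-t)) (-y) (-x) = al f g x y := by
  unfold al be; rw [dD_neg, mQ_neg, mQ_neg]

theorem dJ_neg (f g : ℝ → ℝ) (x y : ℝ) : dJ (fun t => f (-t)) (fun t => g (-t)) (-y) (-x) = dJ f g x y := by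
  unfold dJ; rw [dD_neg, mG_neg, mG_neg, mP_neg, mP_neg, mQ_neg, mQ_neg]; ring

theorem Mn_neg (hm : Mn f g a b m) : Mn (fun t => f (-t)) (fun t => g (-t)) (-b) (-a) m := by
  constructor
  · rw [dJ_neg, hm.1]; ring
  · intro a' b' c h1 h2 h3 hc hle hfat
    have := hm.2 (-b') (-a') c (by linarith) (by linarith) (by linarith) hc (fun x hx => by
      have := hle (-x) ⟨by linarith [hx.2], by linarith [hx.1]⟩
      simpa using this) (by
      obtain ⟨x, hx, hx'⟩ := hfat
      exact ⟨-x, ⟨by linarith [hx.2], by linarith [hx.1]⟩, hx'⟩)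
    have e := dJ_neg (fun x => f x + c) g (-b') (-a')
    simp only [neg_neg] at e
    rw [e]
    linarith

theorem cI_cont {φ : ℝ → ℝ} (h : Continuous φ) : Continuous (cI φ) := continuous_iff_continuousAt.2 fun x => (cI_deriv h x).continuousAt

theorem cP_cont {φ : ℝ → ℝ} (h : Continuous φ) : Continuous (cP φ) := continuous_iff_continuousAt.2 fun x => (cP_deriv h x).continuousAt

theorem al_contOn (h : PD f g f' g' a b) : ContinuousOn (fun v => al f g a v) (Ioo a b) := by
  have hf := h.conf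
  have hg := h.cong
  have c1 := cA_cont hf
  have c2 := cA_cont hg
  have c3 := cI_cont hf
  have c4 := cI_cont hg
  have c5 := cP_cont hf
  have c6 := cP_cont hg
  unfold al
  refine ContinuousOn.div ?_ ?_ ?_
  · refine Continuous.continuousOn ?_
    unfold mP mI
    fun_prop
  · refine Continuous.continuousOn ?_
    unfold dD mI
    fun_prop
  · intro v hv
    exact (h.sub le_rfl hv.1 hv.2.le).D_pos.ne'

theorem be_contOn (h : PD f g f' g' a b) : ContinuousOn (fun v => be f g v b) (Ioo a b) := by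
  have hf := h.conf
  have hg := h.cong
  have c1 := cA_cont hf
  have c2 := cA_cont hg
  have c3 := cI_cont hf
  have c4 := cI_cont hg
  have c5 := cP_cont hf
  have c6 := cP_cont hg
  unfold be
  refine ContinuousOn.div ?_ ?_ ?_
  · refine Continuous.continuousOn ?_
    unfold mQ mI
    fun_prop
  · refine Continuous.continuousOn ?_
    unfold dD mI
    fun_prop
  · intro v hv
    exact (h.sub hv.1.le hv.2 le_rfl).D_pos.ne'

private theorem sign_const {F : ℝ → ℝ} (hF : ContinuousOn F (Ioo a b)) (h0 : ∀ x ∈ Ioo a b, F x ≠ 0) :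
    (∀ x ∈ Ioo a b, F x < 0) ∨ (∀ x ∈ Ioo a b, 0 < F x) := by
  by_contra hcon
  push Not at hcon
  obtain ⟨⟨x, hx, hx'⟩, ⟨y, hy, hy'⟩⟩ := hcon
  obtain ⟨z, hz, hz'⟩ := isPreconnected_Ioo.intermediate_value hy hx hF ⟨hy', hx'⟩
  exact h0 z hz hz'

theorem no_min (h : PD f g f' g' a b) (hm0 : 0 < m) (hm : Mn f g a b m) : False := by
  have hXY : ∀ v ∈ Ioo a b, (al f g a b - al f g a v) * (be f g a b - be f g v b) < 0 := by
    intro v hv
    have h1 := h.sub le_rfl hv.1 hv.2.le
    have h2 := h.sub hv.1.le hv.2 le_rfl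
    have c := cut_le h hm hv
    have p1 := mul_pos h2.M_pos (Xi'_pos h1)
    have p2 := mul_pos h1.M_pos (Xi_pos h2)
    have p3 := h.D_pos
    by_contra hcon
    have := mul_nonneg p3.le (not_lt.1 hcon)
    nlinarith
  rcases sign_const (F := fun v => al f g a b - al f g a v) (continuousOn_const.sub (al_contOn h))
    (fun v hv h0 => by have := hXY v hv; simp only [h0, zero_mul, lt_irrefl] at this) with hs | hs
  · refine N1 h hm0 hm (fun v hv => by have := hs v hv; linarith) (fun v hv => ?_)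
    have h1 := hs v hv
    have h2 := hXY v hv
    have h1 := h1
    have : 0 < be f g a b - be f g v b := by
      by_contra hcon
      have := mul_nonneg_of_nonpos_of_nonpos h1.le (not_lt.1 hcon)
      linarith
    linarith
  · refine N1 h.refl hm0 (Mn_neg hm) (fun v hv => ?_) (fun v hv => ?_)
    · have hv' : -v ∈ Ioo a b := ⟨by linarith [hv.2], by linarith [hv.1]⟩
      have e1 := al_neg f g a b
      have e2 := al_neg f g (-v) b
      rw [neg_neg] at e2
      rw [e1, e2]
      have h1 := hs _ hv'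
      have h2 := hXY _ hv'
      have h1 := h1
      have : be f g a b - be f g (-v) b < 0 := by
        by_contra hcon
        have := mul_nonneg h1.le (not_lt.1 hcon)
        linarith
      linarith
    · have hv' : -v ∈ Ioo a b := ⟨by linarith [hv.2], by linarith [hv.1]⟩
      have e1 := be_neg f g a b
      have e2 := be_neg f g a (-v)
      rw [neg_neg] at e2
      rw [e1, e2]
      have h1 := hs _ hv'
      have h1 := h1
      linarith

theorem dJ_nonneg (h : PD f g f' g' a b) : 0 ≤ dJ f g a b := by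
  by_contra hJ
  obtain ⟨a', b', c, m, hm0, hp, hm⟩ := exists_min h (not_le.1 hJ)
  exact no_min hp hm0 hm

end OP

end Pool.Agent.Lib.MP_1dedaf_gt.DK
end
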