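import Pool.Agent.Lib.MP_1dedaf_gt.Mg.G034
import Pool.Agent.Lib.MP_1dedaf_gt.Mg.G035
import Pool.Agent.Lib.MP_1dedaf_gt.DK.EP.CC2

section

/-!
# TASK EP CC1: the slope of `e` cannot tend to `-∞`

`S = ∅` (an `s ∈ S` has `s.1 ≤ ke n`). `t n (z n)` is a value of `l` (`in_cx`), so `|t n (z n)| ≤ H` (`cl_bd`), `kt n ∈ [k1, k0]`, `z n, c n ∈ [0, w]`, so `ht n` is bounded. Pass to a subsequence with `kt → kt*`, `ht → ht*`, `z → z*`, `c → c*` (four times `tendsto_subseq_of_bounded` / `IsCompact.tendsto_subseq` for `Icc`).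
`K* := ⟨p, q, w - c*, fun x => max (L (c* + x)) (kt* (c* + x) + ht*), fun x => u (c* + x)⟩`. `DLim (fun n => B.dat (θs n)) K*`: for `x ∈ (0, w - c*)`: `e n (c n + x) = e n (c n) + ke n x ≤ H + ke n x → -∞` (`ec`, `|u| ≤ H`), `L (c n + x) → L (c* + x)`, `t n (c n + x) → kt* (c* + x) + ht*`, so eventually `l` is the maximum of the other two. Bounds: `cl_bd`.
`M n → M*` (`te_M`). `|val n| ≤ C M n` (`val_bd`), `val n ≤ -δ`, so `M* ≥ δ/C > 0` (`C > 0`). So `c* < w` (`M* = 0` for `w - c* = 0`, `intervalIntegral.integral_same`), `l* ≤ u*` on `[0, w - c*]` (limits for `x` in the interior, continuity at the ends), and `l* < u*` somewhere (otherwise `mu = 0` on `[0, w - c*]`, `M* = 0`).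
So `K*.Cx` (maximum of convex functions). `L z* ≤ kt* z* + ht*` (limit of `Lz`, `L` continuous), so `l* (z* - c*) = kt* z* + ht*`. `K*.Arc ∅ (z* - c*) kt*`: for `X ∈ [c*, z*]`: `Ok.cov` at `X` with `S = ∅`: `L z* - L X ≥ k0 (z* - X) ≥ kt* (z* - X)`, so `L X ≤ t* X`, `l* = t*` there. `h0 : PosK 0` gives `0 ≤ K*.j (z* - c*) kt*`.
`te_j` (`zs n = z n - c n`; `l n (zs n) = kt n z n + ht n` by `in_cx`): `val n → exp (p c*) M* j* ≥ 0`, contradiction to `val n ≤ -δ`.
-/

set_option autoImplicit false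

open MeasureTheory Set Filter Topology

namespace Pool.Agent.Lib.MP_1dedaf_gt.DK

theorem CC1_conv (h0 : PosK 0) (B : EB) (hB : B.Ok) (θs : ℕ → Th) (hθ : ∀ n, B.In (θs n)) (hke : Tendsto (fun n => (θs n).ke) atTop atBot)
    {δ : ℝ} (hδ : 0 < δ) (hv : ∀ n, B.val (θs n) ≤ - δ) {kt ht z c : ℝ} (t3 : Tendsto (fun n => (θs n).kt) atTop (𝓝 kt))
    (t4 : Tendsto (fun n => (θs n).ht) atTop (𝓝 ht)) (t5 : Tendsto (fun n => (θs n).z) atTop (𝓝 z))
    (t6 : Tendsto (fun n => (θs n).c) atTop (𝓝 c)) : False := by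
  obtain ⟨H, hH, hp, hq, hw, hk0, hLu, hbd⟩ := cl_bd B hB
  have hS : ∀ e ∈ B.S, False := by
    intro e he
    obtain ⟨n, hn⟩ := (hke.eventually (eventually_lt_atBot e.1)).exists
    exact absurd ((hθ n).sS e he) (not_le.mpr hn)
  have hcz : c ≤ z := le_of_tendsto_of_tendsto' t6 t5 fun n => (hθ n).cz
  have hzw : z ≤ B.w := le_of_tendsto' t5 fun n => (hθ n).zw
  have hc0 : 0 ≤ c := ge_of_tendsto' t6 fun n => (hθ n).c0
  have hcw : c ≤ B.w := hcz.trans hzw
  have hkt : kt ≤ B.k0 := le_of_tendsto' t3 fun n => (hθ n).t0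
  have hLz : B.L z ≤ kt * z + ht :=
    le_of_tendsto_of_tendsto' ((hB.cL.tendsto z).comp t5) ((t3.mul t5).add t4) fun n => (hθ n).Lz
  obtain ⟨K, hK⟩ : ∃ K : Dat, K = ⟨B.p, B.q, B.w - c, fun x => max (B.L (c + x)) (kt * (c + x) + ht), fun x => B.u (c + x)⟩ := ⟨_, rfl⟩
  have Kp : K.p = B.p := by rw [hK]
  have Kq : K.q = B.q := by rw [hK]
  have Kw : K.w = B.w - c := by rw [hK]
  have Kl : K.l = fun x => max (B.L (c + x)) (kt * (c + x) + ht) := by rw [hK]
  have Ku : K.u = fun x => B.u (c + x) := by rw [hK]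
  have Klc : Continuous K.l := by
    rw [Kl]
    exact (hB.cL.comp (continuous_const.add continuous_id)).max
      ((continuous_const.mul (continuous_const.add continuous_id)).add continuous_const)
  have Kuc : Continuous K.u := by
    rw [Ku]
    exact hB.cu.comp (continuous_const.add continuous_id)
  have hDL : DLim (fun n => B.dat (θs n)) K := by
    refine ⟨by rw [Kq]; exact hB.hq, by rw [Kw]; linarith, Klc, Kuc, fun n => ?_, fun n => ?_, fun n => ?_,
      ?_, ?_, ?_, ⟨H, fun n x hx => hbd B.k1 (θs n) (hθ n) x hx⟩, fun x hx => ?_, fun x hx => ?_⟩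
    · have := (hθ n).cw
      change 0 ≤ B.w - (θs n).c
      linarith
    · change Continuous fun x => max (B.L ((θs n).c + x)) (max ((θs n).ke * ((θs n).c + x) + (θs n).he) ((θs n).kt * ((θs n).c + x) + (θs n).ht))
      exact (hB.cL.comp (continuous_const.add continuous_id)).max
        (((continuous_const.mul (continuous_const.add continuous_id)).add continuous_const).max
          ((continuous_const.mul (continuous_const.add continuous_id)).add continuous_const))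
    · change Continuous fun x => B.u ((θs n).c + x)
      exact hB.cu.comp (continuous_const.add continuous_id)
    · rw [Kp]; exact tendsto_const_nhds
    · rw [Kq]; exact tendsto_const_nhds
    · rw [Kw]; exact tendsto_const_nhds.sub t6
    · rw [Kl]
      have e1 : Tendsto (fun n => (θs n).kt * ((θs n).c + x) + (θs n).ht) atTop (𝓝 (kt * (c + x) + ht)) :=
        (t3.mul (t6.add_const x)).add t4
      have e2 : Tendsto (fun n => B.L ((θs n).c + x)) atTop (𝓝 (B.L (c + x))) :=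
        (hB.cL.tendsto (c + x)).comp (t6.add_const x)
      have e3 : Tendsto (fun n => H + (θs n).ke * x) atTop atBot :=
        tendsto_atBot_add_const_left _ _ (hke.atBot_mul_const hx.1)
      have e4 : ∀ᶠ n in atTop, H + (θs n).ke * x < kt * (c + x) + ht - 1 :=
        e3.eventually (eventually_lt_atBot _)
      have e5 : ∀ᶠ n in atTop, kt * (c + x) + ht - 1 < (θs n).kt * ((θs n).c + x) + (θs n).ht :=
        e1.eventually (lt_mem_nhds (by linarith))
      refine (e2.max e1).congr' ?_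
      filter_upwards [e4, e5] with n h4 h5
      have e6 : (θs n).ke * (θs n).c + (θs n).he ≤ H := by
        have h7 := (hθ n).ec
        have h8 := (hLu (θs n).c ⟨(hθ n).c0, (hθ n).cz.trans (hθ n).zw⟩).2
        exact h7.trans ((le_abs_self _).trans h8)
      have e7 : (θs n).ke * ((θs n).c + x) + (θs n).he ≤ (θs n).kt * ((θs n).c + x) + (θs n).ht := by
        have h9 : (θs n).ke * ((θs n).c + x) + (θs n).he = ((θs n).ke * (θs n).c + (θs n).he) + (θs n).ke * x := by ring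
        rw [h9]
        linarith
      change _ = max (B.L ((θs n).c + x)) (max ((θs n).ke * ((θs n).c + x) + (θs n).he) ((θs n).kt * ((θs n).c + x) + (θs n).ht))
      rw [max_eq_right e7]
    · rw [Ku]
      exact (hB.cu.tendsto (c + x)).comp (t6.add_const x)
  have hM := te_M hDL
  obtain ⟨C, hC, hCv⟩ := val_bd B hB (max |B.k0| |B.k1|)
  have hM1 : δ ≤ C * K.M := by
    refine ge_of_tendsto' (hM.const_mul C) fun n => ?_
    have h1 : |(θs n).kt| ≤ max |B.k0| |B.k1| := by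
      rw [max_comm]
      exact abs_le_max_abs_abs (hθ n).t1 (hθ n).t0
    have h2 := hCv (θs n) (hθ n) h1
    have h3 := neg_le_abs (B.val (θs n))
    have h4 := hv n
    change δ ≤ C * (B.dat (θs n)).M
    linarith
  have hM0 : 0 < K.M := by
    by_contra h
    have : C * K.M ≤ 0 := mul_nonpos_of_nonneg_of_nonpos hC (not_lt.mp h)
    linarith
  have hcw' : c < B.w := by
    rcases hcw.lt_or_eq with h | h
    · exact h
    · exfalso
      have : K.M = 0 := by
        unfold Dat.M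
        rw [Kw, h, sub_self]
        exact intervalIntegral.integral_same
      rw [this] at hM0
      exact lt_irrefl _ hM0
  have hKw : 0 < K.w := by rw [Kw]; linarith
  have hlu : ∀ x ∈ Icc 0 K.w, K.l x ≤ K.u x := by
    have h1 : Ioo 0 K.w ⊆ {x | K.l x ≤ K.u x} := by
      intro x hx
      have h2 : ∀ᶠ n in atTop, x < (B.dat (θs n)).w := hDL.w.eventually (lt_mem_nhds hx.2)
      refine le_of_tendsto_of_tendsto (hDL.l x hx) (hDL.u x hx) ?_
      filter_upwards [h2] with n hn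
      exact (in_cx B hB (θs n) (hθ n)).1.lu x ⟨hx.1.le, hn.le⟩
    have h3 : IsClosed {x | K.l x ≤ K.u x} := isClosed_le Klc Kuc
    have h4 := h3.closure_subset_iff.mpr h1
    rw [closure_Ioo hKw.ne] at h4
    exact fun x hx => h4 hx
  have hfat : ∃ x ∈ Icc 0 K.w, K.l x < K.u x := by
    by_contra h
    have h1 : ∀ x ∈ Icc 0 K.w, K.l x = K.u x := by
      intro x hx
      by_contra h2
      exact h ⟨x, hx, lt_of_le_of_ne (hlu x hx) h2⟩
    have h2 : K.M = 0 := by
      unfold Dat.M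
      rw [intervalIntegral.integral_congr (g := fun _ => (0 : ℝ)), intervalIntegral.integral_zero]
      intro x hx
      rw [uIcc_of_le hKw.le] at hx
      change K.mu x = 0
      unfold Dat.mu Dat.ru Dat.rl
      rw [h1 x hx, sub_self, zero_div]
    rw [h2] at hM0
    exact lt_irrefl _ hM0
  have hReg : K.Reg := ⟨by rw [Kq]; exact hB.hq, hKw, Klc, Kuc, hlu, hfat⟩
  have hsub : Icc 0 K.w ⊆ (fun x => c + x) ⁻¹' (Icc 0 B.w) := by
    intro x hx
    rw [Kw] at hx
    exact ⟨by have := hx.1; change 0 ≤ c + x; linarith, by have := hx.2; change c + x ≤ B.w; linarith⟩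
  have hCx : K.Cx := by
    refine { toReg := hReg, vl := ?_, vu := ?_ }
    · rw [Kl]
      have h1 : ConvexOn ℝ (Icc 0 K.w) (B.L ∘ fun x => c + x) :=
        (hB.vL.translate_right c).subset hsub (convex_Icc _ _)
      have h2 : ConvexOn ℝ (Icc 0 K.w) (fun x => kt * (c + x) + ht) := by
        refine ⟨convex_Icc _ _, fun x _ y _ a b _ _ hab => ?_⟩
        simp only [smul_eq_mul]
        have : b = 1 - a := by linarith
        subst this
        nlinarith
      exact h1.sup h2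
    · rw [Ku]
      exact (hB.vu.translate_right c).subset hsub (convex_Icc _ _)
  have hlz : K.l (z - c) = kt * z + ht := by
    rw [Kl]
    change max (B.L (c + (z - c))) (kt * (c + (z - c)) + ht) = _
    rw [add_sub_cancel, max_eq_right hLz]
  have hle : ∀ x ∈ Icc 0 (z - c), B.L (c + x) ≤ kt * (c + x) + ht := by
    intro x hx
    have hX : c + x ∈ Icc 0 B.w := ⟨by linarith [hx.1], by linarith [hx.2]⟩
    rcases hB.cov (c + x) hX with ⟨e, he, _⟩ | h
    · exact (hS e he).elim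
    · have h1 := h z ⟨by linarith [hx.2], hzw⟩
      have h2 : kt * (z - (c + x)) ≤ B.k0 * (z - (c + x)) :=
        mul_le_mul_of_nonneg_right hkt (by linarith [hx.2])
      nlinarith
  have hArc : K.Arc ∅ (z - c) kt := by
    refine ⟨by linarith, by rw [Kw]; linarith, fun x hx => ?_, fun e he => ?_, fun e he => ?_, fun x hx => ?_⟩
    · rw [hlz, Kl]
      refine le_trans (le_of_eq ?_) (le_max_right _ _)
      ring
    · simp at he
    · simp at he
    · left
      rw [hlz, Kl]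
      change max (B.L (c + x)) (kt * (c + x) + ht) = _
      rw [max_eq_right (hle x hx)]
      ring
  have hj : 0 ≤ K.j (z - c) kt := h0 K ∅ (z - c) kt hCx (by simp) hArc
  have hjl := te_j hDL hReg (zs := fun n => (θs n).z - (θs n).c) (z := z - c) (t5.sub t6)
    (fun n => ⟨by have := (hθ n).cz; change 0 ≤ (θs n).z - (θs n).c; linarith,
      by have := (hθ n).zw; change (θs n).z - (θs n).c ≤ B.w - (θs n).c; linarith⟩)
    (by
      rw [hlz]
      refine ((t3.mul t5).add t4).congr fun n => ?_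
      exact (in_cx B hB (θs n) (hθ n)).2.symm) (ks := fun n => (θs n).kt) t3
  have hexp : Tendsto (fun n => Real.exp (B.p * (θs n).c)) atTop (𝓝 (Real.exp (B.p * c))) :=
    (Real.continuous_exp.tendsto _).comp (t6.const_mul B.p)
  have hval : Tendsto (fun n => B.val (θs n)) atTop (𝓝 (Real.exp (B.p * c) * (K.M * K.j (z - c) kt))) :=
    hexp.mul (hM.mul hjl)
  have hfin : Real.exp (B.p * c) * (K.M * K.j (z - c) kt) ≤ - δ := le_of_tendsto' hval hv
  have hpos : 0 ≤ Real.exp (B.p * c) * (K.M * K.j (z - c) kt) :=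
    mul_nonneg (Real.exp_pos _).le (mul_nonneg hM0.le hj)
  linarith

theorem esc_e (h0 : PosK 0) (B : EB) (hB : B.Ok) (θs : ℕ → Th) (hθ : ∀ n, B.In (θs n)) (hke : Tendsto (fun n => (θs n).ke) atTop atBot)
    {δ : ℝ} (hδ : 0 < δ) (hv : ∀ n, B.val (θs n) ≤ - δ) : False := by
  obtain ⟨H, hH, hp, hq, hw, hk0, hLu, hbd⟩ := cl_bd B hB
  obtain ⟨K1, hK1⟩ : ∃ K1 : ℝ, K1 = max |B.k0| |B.k1| := ⟨_, rfl⟩
  have hkt : ∀ n, |(θs n).kt| ≤ K1 := by
    intro n
    rw [hK1, max_comm]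
    exact abs_le_max_abs_abs (hθ n).t1 (hθ n).t0
  have hK0 : 0 ≤ K1 := (abs_nonneg _).trans (hkt 0)
  have hht : ∀ n, |(θs n).ht| ≤ H + K1 * B.w := by
    intro n
    have hz0 : 0 ≤ (θs n).z := (hθ n).c0.trans (hθ n).cz
    have h1 := (hbd B.k1 (θs n) (hθ n) ((θs n).z - (θs n).c)
      ⟨by have := (hθ n).cz; linarith, by have := (hθ n).zw; change (θs n).z - (θs n).c ≤ B.w - (θs n).c; linarith⟩).1
    rw [(in_cx B hB (θs n) (hθ n)).2] at h1
    have h2 : |(θs n).kt * (θs n).z| ≤ K1 * B.w := by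
      rw [abs_mul, abs_of_nonneg hz0]
      exact mul_le_mul (hkt n) (hθ n).zw hz0 hK0
    have h3 : (θs n).ht = ((θs n).kt * (θs n).z + (θs n).ht) - (θs n).kt * (θs n).z := by ring
    rw [h3]
    exact (abs_sub _ _).trans (add_le_add h1 h2)
  have hcpt : IsCompact (Icc (-K1) K1 ×ˢ (Icc (-(H + K1 * B.w)) (H + K1 * B.w) ×ˢ (Icc 0 B.w ×ˢ Icc 0 B.w)) : Set (ℝ × ℝ × ℝ × ℝ)) :=
    isCompact_Icc.prod (isCompact_Icc.prod (isCompact_Icc.prod isCompact_Icc))
  obtain ⟨a, _, φ, hφ, hφt⟩ := hcpt.tendsto_subseq (x := fun n => ((θs n).kt, (θs n).ht, (θs n).z, (θs n).c)) (fun n =>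
    ⟨abs_le.mp (hkt n), abs_le.mp (hht n), ⟨(hθ n).c0.trans (hθ n).cz, (hθ n).zw⟩, ⟨(hθ n).c0, (hθ n).cz.trans (hθ n).zw⟩⟩)
  have g1 := (continuous_fst.tendsto a).comp hφt
  have g2 := (continuous_snd.tendsto a).comp hφt
  have g3 := (continuous_fst.tendsto a.2).comp g2
  have g4 := (continuous_snd.tendsto a.2).comp g2
  have g5 := (continuous_fst.tendsto a.2.2).comp g4
  have g6 := (continuous_snd.tendsto a.2.2).comp g4
  exact CC1_conv h0 B hB (fun n => θs (φ n)) (fun n => hθ (φ n)) (hke.comp hφ.tendsto_atTop) hδ (fun n => hv (φ n))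
    (kt := a.1) (ht := a.2.1) (z := a.2.2.1) (c := a.2.2.2) g1 g3 g5 g6

end Pool.Agent.Lib.MP_1dedaf_gt.DK
end

section

/-!
# TASK EP CC3: existence of a minimiser

`seq_lim`: `ke n` is bounded below along some subsequence: otherwise `Tendsto ke atTop atBot` (`tendsto_atBot`: for each `b` eventually `ke n < b`; if this fails for some `b`, infinitely many `n` have `ke n ≥ b`: `Filter.extraction_of_frequently_atTop`), contradiction to `esc_e`. Above: `ke ≤ kt ≤ k0`. `kt ∈ [k1, k0]`, `z, c ∈ [0, w]`.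
`ht`: `kt z + ht = l (z - c)` (`in_cx`), bounded by `H` (`cl_bd`). `he`: `neg_facts` gives `x ∈ [c, x0)` with `L x < ke x + he`, and `ke x + he ≤ l (x - c) ≤ H` (`cl_bd`), `L x ≥ -H`; `ke` bounded, so `he` is bounded. Six bounded real sequences: a common convergent subsequence (`tendsto_subseq_of_bounded` six times, or once in `ℝ × ℝ × ℝ × ℝ × ℝ × ℝ`).
Then `lim_in` for the subsequence. `exists_min`: let `V = {v | ∃ θ, B.In θ ∧ B.val θ = v}`. `V` is bounded below: otherwise there are `θs n` with `val (θs n) ≤ -(n + 1) ≤ -1`, and `seq_lim` with `δ = 1` gives a convergent subsequence of `val`, contradiction. Let `v = sInf V ≤ val θ0 < 0`; choose `θs n` with `val (θs n) < v + ε n`, `ε n = - v/(2 (n + 1))`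
(`exists_lt_of_csInf_lt`), so `val (θs n) ≤ v/2 =: - δ`; `seq_lim` gives `θ` with `val θ = lim = v` and `csInf_le`.
-/

set_option autoImplicit false

open MeasureTheory Set Filter Topology

namespace Pool.Agent.Lib.MP_1dedaf_gt.DK

private theorem CC3_sub (h0 : PosK 0) (B : EB) (hB : B.Ok) (θs : ℕ → Th) (hθ : ∀ n, B.In (θs n))
    {δ : ℝ} (hδ : 0 < δ) (hv : ∀ n, B.val (θs n) ≤ - δ) :
    ∃ (φ : ℕ → ℕ) (b : ℝ), StrictMono φ ∧ ∀ n, b ≤ (θs (φ n)).ke := by
  by_cases h : Tendsto (fun n => (θs n).ke) atTop atBot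
  · exact (esc_e h0 B hB θs hθ h hδ hv).elim
  · rw [tendsto_atBot] at h
    push Not at h
    obtain ⟨b, hb⟩ := h
    obtain ⟨φ, h1, h2⟩ := extraction_of_frequently_atTop hb
    exact ⟨φ, b, h1, fun n => le_of_lt (by simpa using h2 n)⟩

theorem seq_lim {m : ℕ} (hm : PosK m) (h0 : PosK 0) (B : EB) (hB : B.Ok) (hS : B.S.card ≤ m) (θs : ℕ → Th) (hθ : ∀ n, B.In (θs n))
    {δ : ℝ} (hδ : 0 < δ) (hv : ∀ n, B.val (θs n) ≤ - δ) :
    ∃ (φ : ℕ → ℕ) (θ : Th), StrictMono φ ∧ B.In θ ∧ Tendsto (fun n => B.val (θs (φ n))) atTop (𝓝 (B.val θ)) := by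
  obtain ⟨φ, b, hφ, hb⟩ := CC3_sub h0 B hB θs hθ hδ hv
  obtain ⟨H, hH, -, -, hw, hk0, hLu, hl⟩ := cl_bd B hB
  have hwk : B.wk B.k1 = B := rfl
  have ket : ∀ n, (θs (φ n)).ke ∈ Icc b B.k0 := fun n =>
    ⟨hb n, (hθ (φ n)).et.trans (hθ (φ n)).t0⟩
  have ktt : ∀ n, (θs (φ n)).kt ∈ Icc B.k1 B.k0 := fun n => ⟨(hθ (φ n)).t1, (hθ (φ n)).t0⟩
  have cz : ∀ n, (θs (φ n)).z ∈ Icc 0 B.w := fun n =>
    ⟨(hθ (φ n)).c0.trans (hθ (φ n)).cz, (hθ (φ n)).zw⟩
  have cc : ∀ n, (θs (φ n)).c ∈ Icc 0 B.w := fun n =>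
    ⟨(hθ (φ n)).c0, (hθ (φ n)).cz.trans (hθ (φ n)).zw⟩
  -- bounds of the slopes
  have hkt : ∀ n, |(θs (φ n)).kt| ≤ |B.k1| + |B.k0| := by
    intro n
    rw [abs_le]
    have h1 := neg_abs_le B.k1
    have h2 := le_abs_self B.k0
    have h3 := abs_nonneg B.k1
    have h4 := abs_nonneg B.k0
    exact ⟨by linarith [(ktt n).1], by linarith [(ktt n).2]⟩
  have hke : ∀ n, |(θs (φ n)).ke| ≤ |b| + |B.k0| := by
    intro n
    rw [abs_le]
    have h1 := neg_abs_le b
    have h2 := le_abs_self B.k0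
    have h3 := abs_nonneg b
    have h4 := abs_nonneg B.k0
    exact ⟨by linarith [(ket n).1], by linarith [(ket n).2]⟩
  have hmul : ∀ (k x K : ℝ), |k| ≤ K → x ∈ Icc 0 B.w → |k * x| ≤ K * H := by
    intro k x K hk hx
    rw [abs_mul, abs_of_nonneg hx.1]
    exact mul_le_mul hk (hx.2.trans hw) hx.1 ((abs_nonneg k).trans hk)
  have htt : ∀ n, (θs (φ n)).ht ∈ Icc (-(H + (|B.k1| + |B.k0|) * H)) (H + (|B.k1| + |B.k0|) * H) := by
    intro n
    obtain ⟨-, h2⟩ := in_cx B hB _ (hθ (φ n))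
    have h3 := hl B.k1 (θs (φ n)) (hθ (φ n)) ((θs (φ n)).z - (θs (φ n)).c)
      ⟨by linarith [(hθ (φ n)).cz], by
        have : (B.dat (θs (φ n))).w = B.w - (θs (φ n)).c := rfl
        rw [this]
        linarith [(hθ (φ n)).zw]⟩
    rw [h2] at h3
    have h4 := abs_le.1 h3.1
    have h5 := abs_le.1 (hmul _ _ _ (hkt n) (cz n))
    constructor
    · linarith [h4.1, h5.2]
    · linarith [h4.2, h5.1]
  have het : ∀ n, (θs (φ n)).he ∈ Icc (-(H + (|b| + |B.k0|) * H)) (H + (|b| + |B.k0|) * H) := by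
    intro n
    obtain ⟨-, -, x0, h1, h2, -, ⟨x, hx, h3⟩, -⟩ := neg_facts hm B hB hS _ (hθ (φ n))
      (by have := hv (φ n); linarith)
    have hx' : x ∈ Icc 0 B.w :=
      ⟨(hθ (φ n)).c0.trans hx.1, (hx.2.le.trans h2).trans (hθ (φ n)).zw⟩
    have h4 := abs_le.1 (hmul _ _ _ (hke n) hx')
    have h5 := abs_le.1 (hLu x hx').1
    have h6 := abs_le.1 (hmul _ _ _ (hke n) (cc n))
    have h7 := abs_le.1 (hLu _ (cc n)).2
    have h8 := (hθ (φ n)).ec
    constructor
    · linarith [h4.2, h5.1]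
    · linarith [h6.1, h7.2]
  -- the common convergent subsequence
  have hcpt : IsCompact (Icc b B.k0 ×ˢ (Icc (-(H + (|b| + |B.k0|) * H)) (H + (|b| + |B.k0|) * H) ×ˢ
      (Icc B.k1 B.k0 ×ˢ (Icc (-(H + (|B.k1| + |B.k0|) * H)) (H + (|B.k1| + |B.k0|) * H) ×ˢ
      (Icc 0 B.w ×ˢ Icc 0 B.w))))) :=
    isCompact_Icc.prod (isCompact_Icc.prod (isCompact_Icc.prod (isCompact_Icc.prod
      (isCompact_Icc.prod isCompact_Icc))))
  obtain ⟨a, -, ψ, hψ, hlim⟩ := hcpt.tendsto_subseq (x := fun n => ((θs (φ n)).ke, (θs (φ n)).he,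
    (θs (φ n)).kt, (θs (φ n)).ht, (θs (φ n)).z, (θs (φ n)).c))
    (fun n => ⟨ket n, het n, ktt n, htt n, cz n, cc n⟩)
  have l1 := (continuous_fst.tendsto a).comp hlim
  have r1 := (continuous_snd.tendsto a).comp hlim
  have l2 := (continuous_fst.tendsto a.2).comp r1
  have r2 := (continuous_snd.tendsto a.2).comp r1
  have l3 := (continuous_fst.tendsto a.2.2).comp r2
  have r3 := (continuous_snd.tendsto a.2.2).comp r2
  have l4 := (continuous_fst.tendsto a.2.2.2).comp r3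
  have r4 := (continuous_snd.tendsto a.2.2.2).comp r3
  have l5 := (continuous_fst.tendsto a.2.2.2.2).comp r4
  have r5 := (continuous_snd.tendsto a.2.2.2.2).comp r4
  obtain ⟨h1, h2⟩ := lim_in B hB (fun n => θs (φ (ψ n))) (fun n => hθ _) hδ (fun n => hv _)
    ⟨a.1, a.2.1, a.2.2.1, a.2.2.2.1, a.2.2.2.2.1, a.2.2.2.2.2⟩ l1 l2 l3 l4 l5 r5
  exact ⟨fun n => φ (ψ n), _, hφ.comp hψ, h1, h2⟩

theorem exists_minE {m : ℕ} (hm : PosK m) (h0 : PosK 0) (B : EB) (hB : B.Ok) (hS : B.S.card ≤ m) (θ0 : Th) (h : B.In θ0) (hn : B.val θ0 < 0) :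
    ∃ θ : Th, B.Min θ ∧ B.val θ ≤ B.val θ0 := by
  set V : Set ℝ := {v | ∃ θ, B.In θ ∧ B.val θ = v} with hV
  have hne : V.Nonempty := ⟨_, θ0, h, rfl⟩
  have hbd : BddBelow V := by
    by_contra hb
    have h1 : ∀ n : ℕ, ∃ θ, B.In θ ∧ B.val θ < -((n : ℝ) + 1) := by
      intro n
      by_contra h2
      push Not at h2
      refine hb ⟨-((n : ℝ) + 1), ?_⟩
      rintro _ ⟨θ, h3, rfl⟩
      exact h2 θ h3
    choose θs h2 h3 using h1
    obtain ⟨φ, θ, hφ, -, hlim⟩ := seq_lim hm h0 B hB hS θs h2 one_pos (fun n => by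
      have := h3 n
      have h4 : (0 : ℝ) ≤ n := Nat.cast_nonneg n
      linarith)
    have h5 : Tendsto (fun n => B.val (θs (φ n))) atTop atBot := by
      refine tendsto_atBot_mono (f := fun n : ℕ => -(n : ℝ)) (fun n => ?_)
        (tendsto_neg_atTop_atBot.comp tendsto_natCast_atTop_atTop)
      have h6 := h3 (φ n)
      have h7 : (n : ℝ) ≤ (φ n : ℝ) := by exact_mod_cast hφ.le_apply
      linarith
    exact not_tendsto_nhds_of_tendsto_atBot h5 _ hlim
  set v := sInf V with hvdef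
  have hv0 : v ≤ B.val θ0 := csInf_le hbd ⟨θ0, h, rfl⟩
  have hvn : v < 0 := hv0.trans_lt hn
  have h1 : ∀ n : ℕ, ∃ θ, B.In θ ∧ B.val θ < v + (-v / 2) / ((n : ℝ) + 1) := by
    intro n
    have h2 : 0 < (-v / 2) / ((n : ℝ) + 1) := by
      apply div_pos
      · linarith
      · positivity
    obtain ⟨_, ⟨θ, h3, rfl⟩, h4⟩ := exists_lt_of_csInf_lt hne (show sInf V < v + (-v / 2) / ((n : ℝ) + 1) by
      rw [← hvdef]
      linarith)
    exact ⟨θ, h3, h4⟩
  choose θs h2 h3 using h1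
  have h4 : ∀ n, B.val (θs n) ≤ -(-v / 2) := by
    intro n
    have h5 : (-v / 2) / ((n : ℝ) + 1) ≤ -v / 2 := by
      apply div_le_self
      · linarith
      · have : (0 : ℝ) ≤ n := Nat.cast_nonneg n
        linarith
    linarith [h3 n]
  obtain ⟨φ, θ, hφ, h5, hlim⟩ := seq_lim hm h0 B hB hS θs h2 (show 0 < -v / 2 by linarith) h4
  have h6 : Tendsto (fun n : ℕ => v + (-v / 2) / ((φ n : ℝ) + 1)) atTop (𝓝 (v + 0)) := by
    refine tendsto_const_nhds.add ?_
    refine Tendsto.div_atTop tendsto_const_nhds ?_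
    exact tendsto_atTop_add_const_right _ _ (tendsto_natCast_atTop_atTop.comp hφ.tendsto_atTop)
  rw [add_zero] at h6
  have h7 : Tendsto (fun n => B.val (θs (φ n))) atTop (𝓝 v) := by
    refine tendsto_of_tendsto_of_tendsto_of_le_of_le tendsto_const_nhds h6 (fun n => ?_)
      (fun n => (h3 (φ n)).le)
    exact csInf_le hbd ⟨_, h2 _, rfl⟩
  have h8 : B.val θ = v := tendsto_nhds_unique hlim h7
  refine ⟨θ, ⟨h5, by rw [h8]; exact hvn, fun θ' hθ' => ?_⟩, by rw [h8]; exact hv0⟩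
  rw [h8]
  exact csInf_le hbd ⟨θ', hθ', rfl⟩

end Pool.Agent.Lib.MP_1dedaf_gt.DK
end
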