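import Pool.Agent.Lib.MP_1dedaf_gt.Mg.G036
import Pool.Agent.Lib.MP_1dedaf_gt.Mg.G006
import Pool.Agent.Lib.MP_1dedaf_gt.DK.EP.EG
import Pool.Agent.Lib.MP_1dedaf_gt.DK.EP.ST1
import Pool.Agent.Lib.MP_1dedaf_gt.Mg.G028

section

/-!
# TASK EP CC5: a good minimiser

For `n : ℕ` with `-n ≤ B.k1` let `B n = B.wk (-n)`; `θ0` is admissible for `B n` (only `t1` changes), `exists_minE` gives a minimiser `θ n` of `B n` with `val (θ n) ≤ val θ0 = - δ`. If one of them is `Good` we are done (`k1 := -n`). Otherwise (for all large `n`): `kt n = -n` (`t1`: `-n ≤ kt n`, not `-n < kt n`) and there is `X n ∈ [z n, w]` with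
`L (X n) ≤ kt n X n + ht n` and (`X n = w` or `Xl n (X n - c n) ≥ a n`), `Xl n := (B.dat (θ n)).Xl`, `a n := (B.dat (θ n)).a`. `M n ≥ δ / C` (`val_lo`, `C > 0`). `t n (c n) ≤ u (c n) ≤ H`, `t n (X n) ≥ L (X n) ≥ - H`, so `n (X n - c n) ≤ 2 H`, `X n - c n → 0`. Subsequence with `c n → c* ∈ [0, w]`.
`K* := ⟨p, q, w - c*, fun x => L (c* + x), fun x => u (c* + x)⟩`, `DLim (fun n => B.dat (θ n)) K*`: for `x > 0`: `t n (c n + x) = t n (c n) - n x ≤ H - n x → -∞`, the same for `e` (`ke n ≤ kt n`, `ec`), so eventually `l n x = L (c n + x) → L (c* + x)`. `M n → M*`, so `M* ≥ δ/C > 0`, so `c* < w`, `L < u` somewhere on `[c*, w]`, `K*.Reg`.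
`te_a`: `a n → K*.a > 0` (`Dat.a_pos`, C6). `te_Xl`: `Xl n (X n - c n) → K*.Xl 0 = 0`. So for large `n` (of the subsequence) `Xl n (X n - c n) < a n` and `X n - c n < w - c n` (limits `0 < w - c*`), so `X n < w`: contradiction.
-/

set_option autoImplicit false

open MeasureTheory Set Filter Topology

namespace Pool.Agent.Lib.MP_1dedaf_gt.DK

private theorem CC5_in (B : EB) (θ : Th) (h : B.In θ) (k : ℝ) (hk : k ≤ B.k1) : (B.wk k).In θ :=
  ⟨h.sS, h.et, h.t0, le_trans hk h.t1, h.c0, h.cz, h.zw, h.ew, h.tw, h.ec, h.tc, h.Lz, h.ez, h.cw, h.fat⟩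

theorem exists_good {m : ℕ} (hm : PosK m) (h0 : PosK 0) (B : EB) (hB : B.Ok) (hS : B.S.card ≤ m) (θ0 : Th) (h : B.In θ0) (hn : B.val θ0 < 0) :
    ∃ (k1 : ℝ) (θ : Th), (B.wk k1).Min θ ∧ (B.wk k1).Good θ := by
  by_contra hno
  push Not at hno
  have hκ1 : ∀ n : ℕ, -((n : ℝ) + |B.k1|) ≤ B.k1 := fun n => by
    have h1 := neg_abs_le B.k1
    have h2 : (0 : ℝ) ≤ n := Nat.cast_nonneg n
    linarith
  have hex : ∀ n : ℕ, ∃ θ : Th, (B.wk (-((n : ℝ) + |B.k1|))).Min θ ∧ B.val θ ≤ B.val θ0 := fun n =>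
    exists_minE hm h0 (B.wk (-((n : ℝ) + |B.k1|))) (wk_ok B hB _) hS θ0 (CC5_in B θ0 h _ (hκ1 n)) hn
  choose θ hθ1 hθ2 using hex
  obtain ⟨H, hH0, _, _, _, _, hH1, hH2⟩ := cl_bd B hB
  obtain ⟨C, hC0, hC⟩ := val_lo hm B hB hS
  have hkt : ∀ n, (θ n).kt = -((n : ℝ) + |B.k1|) := fun n => by
    have h1 := hno _ _ (hθ1 n)
    have h2 := (hθ1 n).inn.t1
    by_contra h3
    exact h1 (Or.inl (lt_of_le_of_ne h2 (Ne.symm h3)))
  have hX : ∀ n, ∃ X ∈ Icc (θ n).z B.w, B.L X ≤ (θ n).kt * X + (θ n).ht ∧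
      (X < B.w → (B.dat (θ n)).a ≤ (B.dat (θ n)).Xl (X - (θ n).c)) := fun n => by
    by_contra h3
    refine hno _ _ (hθ1 n) (Or.inr fun X hX1 hX2 => ?_)
    by_contra h4
    refine h3 ⟨X, hX1, hX2, fun h5 => ?_⟩
    by_contra h6
    exact h4 ⟨h5, not_le.1 h6⟩
  choose X hX1 hX2 hX3 using hX
  have hc0 : ∀ n, 0 ≤ (θ n).c := fun n => (hθ1 n).inn.c0
  have hcw : ∀ n, (θ n).c < B.w := fun n => (hθ1 n).inn.cw
  have hcI : ∀ n, (θ n).c ∈ Icc 0 B.w := fun n => ⟨hc0 n, (hcw n).le⟩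
  have hcX : ∀ n, (θ n).c ≤ X n := fun n => le_trans (hθ1 n).inn.cz (hX1 n).1
  have hXI : ∀ n, X n ∈ Icc 0 B.w := fun n => ⟨le_trans (hc0 n) (hcX n), (hX1 n).2⟩
  have htc : ∀ n, (θ n).kt * (θ n).c + (θ n).ht ≤ H := fun n =>
    le_trans (hθ1 n).inn.tc (le_trans (le_abs_self _) (hH1 _ (hcI n)).2)
  have hec : ∀ n, (θ n).ke * (θ n).c + (θ n).he ≤ H := fun n =>
    le_trans (hθ1 n).inn.ec (le_trans (le_abs_self _) (hH1 _ (hcI n)).2)
  have hXc : ∀ n : ℕ, (n : ℝ) * (X n - (θ n).c) ≤ 2 * H := fun n => by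
    have h1 := hX2 n
    have h2 := (abs_le.1 (hH1 _ (hXI n)).1).1
    have h3 := htc n
    have h4 : (θ n).kt * X n + (θ n).ht = ((θ n).kt * (θ n).c + (θ n).ht) + (θ n).kt * (X n - (θ n).c) := by ring
    rw [h4, hkt n] at h1
    rw [hkt n] at h3
    have h5 : 0 ≤ |B.k1| * (X n - (θ n).c) := mul_nonneg (abs_nonneg _) (by linarith [hcX n])
    nlinarith
  have hXc0 : Tendsto (fun n => X n - (θ n).c) atTop (𝓝 0) := by
    have h1 : Tendsto (fun n : ℕ => 2 * H / (n : ℝ)) atTop (𝓝 0) :=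
      tendsto_const_div_atTop_nhds_zero_nat (2 * H)
    refine tendsto_of_tendsto_of_tendsto_of_le_of_le' tendsto_const_nhds h1 ?_ ?_
    · exact Eventually.of_forall fun n => sub_nonneg.2 (hcX n)
    · filter_upwards [eventually_gt_atTop 0] with n hn0
      have h2 : (0 : ℝ) < n := Nat.cast_pos.2 hn0
      rw [le_div_iff₀ h2]
      linarith [hXc n]
  obtain ⟨c, hcs, φ, hφ, hcφ⟩ := isCompact_Icc.tendsto_subseq hcI
  have hcφ' : Tendsto (fun j => (θ (φ j)).c) atTop (𝓝 c) := hcφ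
  have hφT := hφ.tendsto_atTop
  have hktT : Tendsto (fun j => (θ (φ j)).kt) atTop atBot := by
    have h1 : (fun j => (θ (φ j)).kt) = fun j => -(((φ j : ℕ) : ℝ) + |B.k1|) := by
      funext j
      exact hkt (φ j)
    rw [h1]
    refine tendsto_neg_atTop_atBot.comp ?_
    exact tendsto_atTop_add_const_right _ _ (tendsto_natCast_atTop_atTop.comp hφT)
  have hlim : DLim (fun j => B.dat (θ (φ j))) ⟨B.p, B.q, B.w - c, fun x => B.L (c + x), fun x => B.u (c + x)⟩ := by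
    refine ⟨hB.hq, sub_nonneg.2 hcs.2, ?_, ?_, ?_, ?_, ?_, tendsto_const_nhds, tendsto_const_nhds, ?_, ?_, ?_, ?_⟩
    · exact hB.cL.comp (continuous_const.add continuous_id)
    · exact hB.cu.comp (continuous_const.add continuous_id)
    · intro j
      exact sub_nonneg.2 (hcw (φ j)).le
    · intro j
      have h1 := hB.cL
      show Continuous fun x => max (B.L ((θ (φ j)).c + x)) (max ((θ (φ j)).ke * ((θ (φ j)).c + x) + (θ (φ j)).he) ((θ (φ j)).kt * ((θ (φ j)).c + x) + (θ (φ j)).ht))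
      fun_prop
    · intro j
      exact hB.cu.comp (continuous_const.add continuous_id)
    · exact tendsto_const_nhds.sub hcφ'
    · exact ⟨H, fun j => hH2 _ _ (hθ1 (φ j)).inn⟩
    · intro x hx
      have hx0 : 0 < x := hx.1
      have hxw : c + x < B.w := by
        have h1 : x < B.w - c := hx.2
        linarith
      have h1 : Tendsto (fun j => (θ (φ j)).c + x) atTop (𝓝 (c + x)) := hcφ'.add tendsto_const_nhds
      have h2 : Tendsto (fun j => B.L ((θ (φ j)).c + x)) atTop (𝓝 (B.L (c + x))) :=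
        (hB.cL.tendsto (c + x)).comp h1
      refine h2.congr' ?_
      have h3 : Tendsto (fun j => H + (θ (φ j)).kt * x) atTop atBot :=
        tendsto_atBot_add_const_left _ _ (hktT.atBot_mul_const hx0)
      filter_upwards [h1.eventually (gt_mem_nhds hxw), h3.eventually (eventually_le_atBot (-H))] with j h4 h5
      have h6 : (θ (φ j)).c + x ∈ Icc 0 B.w := ⟨by linarith [hc0 (φ j)], h4.le⟩
      have h7 := (abs_le.1 (hH1 _ h6).1).1
      have h8 := htc (φ j)
      have h9 := hec (φ j)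
      have h10 := (hθ1 (φ j)).inn.et
      have h11 : (θ (φ j)).ke * x ≤ (θ (φ j)).kt * x := mul_le_mul_of_nonneg_right h10 hx0.le
      symm
      show max (B.L ((θ (φ j)).c + x)) (max ((θ (φ j)).ke * ((θ (φ j)).c + x) + (θ (φ j)).he) ((θ (φ j)).kt * ((θ (φ j)).c + x) + (θ (φ j)).ht)) = B.L ((θ (φ j)).c + x)
      refine max_eq_left (max_le ?_ ?_)
      · nlinarith
      · nlinarith
    · intro x hx
      have h1 : Tendsto (fun j => (θ (φ j)).c + x) atTop (𝓝 (c + x)) := hcφ'.add tendsto_const_nhds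
      exact (hB.cu.tendsto (c + x)).comp h1
  have hM := te_M hlim
  set K : Dat := ⟨B.p, B.q, B.w - c, fun x => B.L (c + x), fun x => B.u (c + x)⟩ with hK
  have hCM : - B.val θ0 ≤ C * K.M := by
    refine ge_of_tendsto' (hM.const_mul C) fun j => ?_
    have h1 := hC _ _ (hθ1 (φ j)).inn (hθ1 (φ j)).neg
    have h2 := hθ2 (φ j)
    linarith
  have hMpos : K.M ≠ 0 := by
    intro h1
    rw [h1, mul_zero] at hCM
    linarith
  have hcw' : c < B.w := by
    rcases lt_or_eq_of_le hcs.2 with h1 | h1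
    · exact h1
    · exfalso
      apply hMpos
      unfold Dat.M
      have h2 : K.w = 0 := by
        show B.w - c = 0
        rw [h1, sub_self]
      rw [h2, intervalIntegral.integral_same]
  have hfat : ∃ x ∈ Icc 0 K.w, K.l x < K.u x := by
    by_contra h1
    apply hMpos
    unfold Dat.M
    have h2 : ∫ t in (0:ℝ)..K.w, K.mu t = ∫ _t in (0:ℝ)..K.w, (0 : ℝ) := by
      refine intervalIntegral.integral_congr fun t ht => ?_
      have hw0 : (0 : ℝ) ≤ K.w := sub_nonneg.2 hcs.2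
      rw [uIcc_of_le hw0] at ht
      have ht2 : t ≤ B.w - c := ht.2
      have h3 : K.l t ≤ K.u t := hB.Lu (c + t) ⟨by linarith [hcs.1, ht.1], by linarith⟩
      have h4 : K.u t ≤ K.l t := by
        by_contra h5
        exact h1 ⟨t, ht, not_le.1 h5⟩
      have h5 : K.l t = K.u t := le_antisymm h3 h4
      show (K.ru t - K.rl t) / K.q = 0
      unfold Dat.ru Dat.rl
      rw [h5, sub_self, zero_div]
    rw [h2, intervalIntegral.integral_zero]
  have hReg : K.Reg := ⟨hB.hq, sub_pos.2 hcw', hlim.kl, hlim.ku,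
    fun x hx => hB.Lu (c + x) ⟨by linarith [hcs.1, hx.1], by
      have h1 : x ≤ B.w - c := hx.2
      linarith⟩, hfat⟩
  have ha := te_a hlim hReg
  have ha0 := Dat.a_pos K hReg
  have hz : Tendsto (fun j => X (φ j) - (θ (φ j)).c) atTop (𝓝 0) := hXc0.comp hφT
  have hXl := te_Xl hlim hz (fun j => ⟨sub_nonneg.2 (hcX (φ j)), sub_le_sub_right (hXI (φ j)).2 _⟩)
  have hXl0 : K.Xl 0 = 0 := by
    unfold Dat.Xl
    exact intervalIntegral.integral_same
  rw [hXl0] at hXl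
  have hw1 : Tendsto (fun j => B.w - (θ (φ j)).c) atTop (𝓝 (B.w - c)) := tendsto_const_nhds.sub hcφ'
  have e1 := hXl.eventually_lt ha ha0
  have e2 := hz.eventually_lt hw1 (sub_pos.2 hcw')
  obtain ⟨j, hj1, hj2⟩ := (e1.and e2).exists
  exact absurd (hX3 (φ j) (by linarith)) (not_le.2 hj1)

end Pool.Agent.Lib.MP_1dedaf_gt.DK
end

section

/-!
# Campaign EP, IN: the induction on the number of near lines
-/

set_option autoImplicit false

open MeasureTheory Set Filter Topology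

namespace Pool.Agent.Lib.MP_1dedaf_gt.DK

theorem posK_succ (h0 : PosK 0) (hES : ESO) {m : ℕ} (hm : PosK m) : PosK (m + 1) := by
  intro K T z kt h hT hA
  by_contra hj
  push Not at hj
  have hne : T.Nonempty := by
    rcases T.eq_empty_or_nonempty with h1 | h1
    · exfalso
      have h2 := hm K T z kt h (by rw [h1]; simp) hA
      linarith
    · exact h1
  obtain ⟨B, θ0, hB, hS, hin, hneg⟩ := start K h T z kt hne hT hA hj
  obtain ⟨k1, θ, hmin, hgood⟩ := exists_good hm h0 B hB hS θ0 hin hneg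
  obtain ⟨B', ke, he, z', hB', hS', hmin', hgood'⟩ := reb_main (B.wk k1) (wk_ok B hB k1) θ hmin hgood
  have hS2 : B'.S.card ≤ m := hS'.trans hS
  obtain ⟨nu, xs, xt, x1, hN, hM, hG⟩ := nf_of hm B' hB' hS2 hmin' hgood'
  exact nf_false hm hES B' hS2 hN hM hG

theorem posK_all (hP : CFPos) (hES : ESO) : ∀ k, PosK k := by
  intro k
  induction k with
  | zero => exact posK_zero hP
  | succ k ih => exact posK_succ (posK_zero hP) hES ih

end Pool.Agent.Lib.MP_1dedaf_gt.DK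
end
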