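import Pool.Agent.Lib.MP_1dedaf_gt.DK.EP.FVDefs

section

/-!
# Campaign EP, FV0: the calculus of families with a one-sided derivative almost everywhere
-/

set_option autoImplicit false

open MeasureTheory Set Filter Topology

namespace Pool.Agent.Lib.MP_1dedaf_gt.DK

namespace Nice

theorem base {w : ℝ} {S : Set ℝ} {g : ℝ → ℝ → ℝ} {g0 g' : ℝ → ℝ} (h : Nice w S g g0 g')
    {x : ℝ} (hx : x ∈ Icc 0 w) : g 0 x = g0 x := by
  obtain ⟨C, hC⟩ := h.lip
  have h1 := hC 0 ⟨le_rfl, zero_le_one⟩ x hx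
  rw [mul_zero] at h1
  have h2 := abs_nonpos_iff.mp h1
  linarith

theorem bound {w : ℝ} {S : Set ℝ} {g : ℝ → ℝ → ℝ} {g0 g' : ℝ → ℝ} (h : Nice w S g g0 g') :
    ∃ B : ℝ, 0 ≤ B ∧ ∀ ε ∈ Icc (0:ℝ) 1, ∀ x ∈ Icc 0 w, |g ε x| ≤ B ∧ |g0 x| ≤ B := by
  obtain ⟨C, hC⟩ := h.lip
  obtain ⟨B, hB⟩ := isCompact_Icc.exists_bound_of_continuousOn (h.ct0.continuousOn (s := Icc 0 w))
  refine ⟨|B| + |C|, by positivity, fun ε hε x hx => ?_⟩
  have h1 := hC ε hε x hx
  have h2 := hB x hx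
  rw [Real.norm_eq_abs] at h2
  have h3 : C * ε ≤ |C| := by
    calc C * ε ≤ |C| * ε := mul_le_mul_of_nonneg_right (le_abs_self C) hε.1
      _ ≤ |C| * 1 := mul_le_mul_of_nonneg_left hε.2 (abs_nonneg _)
      _ = |C| := mul_one _
  have h4 : |g ε x| ≤ |g0 x| + |g ε x - g0 x| := by
    have h5 := abs_add_le (g0 x) (g ε x - g0 x)
    rwa [add_sub_cancel] at h5
  have h6 := le_abs_self B
  have h7 := abs_nonneg C
  constructor
  · linarith
  · linarith

theorem const {w : ℝ} {S : Set ℝ} {g0 : ℝ → ℝ} (h : Continuous g0) :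
    Nice w S (fun _ x => g0 x) g0 (fun _ => 0) := by
  refine ⟨fun _ => h, h, ⟨0, fun ε _ x _ => ?_⟩, fun x _ _ => hasDerivWithinAt_const _ _ _⟩
  rw [sub_self, abs_zero, zero_mul]

theorem congr {w : ℝ} {S : Set ℝ} {g : ℝ → ℝ → ℝ} {g0 g' : ℝ → ℝ} (h : Nice w S g g0 g')
    {k : ℝ → ℝ → ℝ} {k0 k' : ℝ → ℝ} (h1 : ∀ ε x, k ε x = g ε x) (h2 : ∀ x, k0 x = g0 x)
    (h3 : ∀ x ∈ Icc 0 w, x ∉ S → k' x = g' x) : Nice w S k k0 k' := by
  have e1 : k = g := by
    funext ε x
    exact h1 ε x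
  have e2 : k0 = g0 := funext h2
  rw [e1, e2]
  refine ⟨h.ct, h.ct0, h.lip, fun x hx hxz => ?_⟩
  rw [h3 x hx hxz]
  exact h.der x hx hxz

theorem sub {w : ℝ} {S : Set ℝ} {g k : ℝ → ℝ → ℝ} {g0 g' k0 k' : ℝ → ℝ}
    (h : Nice w S g g0 g') (h' : Nice w S k k0 k') :
    Nice w S (fun ε x => g ε x - k ε x) (fun x => g0 x - k0 x) (fun x => g' x - k' x) := by
  obtain ⟨C, hC⟩ := h.lip
  obtain ⟨C', hC'⟩ := h'.lip
  refine ⟨fun ε => (h.ct ε).sub (h'.ct ε), h.ct0.sub h'.ct0, ⟨C + C', fun ε hε x hx => ?_⟩,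
    fun x hx hxz => (h.der x hx hxz).sub (h'.der x hx hxz)⟩
  have h1 := hC ε hε x hx
  have h2 := hC' ε hε x hx
  have h3 : g ε x - k ε x - (g0 x - k0 x) = (g ε x - g0 x) - (k ε x - k0 x) := by ring
  rw [h3]
  have h4 := abs_sub (g ε x - g0 x) (k ε x - k0 x)
  linarith

theorem mul {w : ℝ} {S : Set ℝ} {g k : ℝ → ℝ → ℝ} {g0 g' k0 k' : ℝ → ℝ}
    (h : Nice w S g g0 g') (h' : Nice w S k k0 k') :
    Nice w S (fun ε x => g ε x * k ε x) (fun x => g0 x * k0 x)
      (fun x => g' x * k0 x + g0 x * k' x) := by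
  obtain ⟨C, hC⟩ := h.lip
  obtain ⟨C', hC'⟩ := h'.lip
  obtain ⟨B, hB0, hB⟩ := bound h
  obtain ⟨B', hB0', hB'⟩ := bound h'
  refine ⟨fun ε => (h.ct ε).mul (h'.ct ε), h.ct0.mul h'.ct0, ⟨C * B' + B * C', fun ε hε x hx => ?_⟩,
    fun x hx hxz => ?_⟩
  · have h1 := hC ε hε x hx
    have h2 := hC' ε hε x hx
    have h3 : g ε x * k ε x - g0 x * k0 x = (g ε x - g0 x) * k ε x + g0 x * (k ε x - k0 x) := by
      ring
    rw [h3]
    have h4 := abs_add_le ((g ε x - g0 x) * k ε x) (g0 x * (k ε x - k0 x))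
    rw [abs_mul, abs_mul] at h4
    have h5 : |g ε x - g0 x| * |k ε x| ≤ C * ε * B' :=
      mul_le_mul h1 (hB' ε hε x hx).1 (abs_nonneg _) ((abs_nonneg _).trans h1)
    have h6 : |g0 x| * |k ε x - k0 x| ≤ B * (C' * ε) :=
      mul_le_mul (hB ε hε x hx).2 h2 (abs_nonneg _) hB0
    nlinarith
  · have h1 := (h.der x hx hxz).mul (h'.der x hx hxz)
    rw [base h hx, base h' hx] at h1
    exact h1

theorem exp {w : ℝ} {S : Set ℝ} {g : ℝ → ℝ → ℝ} {g0 g' : ℝ → ℝ} (h : Nice w S g g0 g') :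
    Nice w S (fun ε x => Real.exp (g ε x)) (fun x => Real.exp (g0 x))
      (fun x => Real.exp (g0 x) * g' x) := by
  obtain ⟨C, hC⟩ := h.lip
  obtain ⟨B, hB0, hB⟩ := bound h
  refine ⟨fun ε => Real.continuous_exp.comp (h.ct ε), Real.continuous_exp.comp h.ct0,
    ⟨Real.exp B * C, fun ε hε x hx => ?_⟩, fun x hx hxz => ?_⟩
  · have h1 := hC ε hε x hx
    obtain ⟨h2, h3⟩ := hB ε hε x hx
    have key : ∀ s t : ℝ, |s| ≤ B → Real.exp s - Real.exp t ≤ Real.exp B * |s - t| := by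
      intro s t hs
      have h4 := Real.add_one_le_exp (t - s)
      have h5 : Real.exp s * (t - s + 1) ≤ Real.exp t := by
        calc Real.exp s * (t - s + 1) ≤ Real.exp s * Real.exp (t - s) :=
              mul_le_mul_of_nonneg_left h4 (Real.exp_pos _).le
          _ = Real.exp t := by rw [← Real.exp_add, add_sub_cancel]
      have h6 : Real.exp s * (s - t) ≤ Real.exp B * |s - t| := by
        calc Real.exp s * (s - t) ≤ Real.exp s * |s - t| :=
              mul_le_mul_of_nonneg_left (le_abs_self _) (Real.exp_pos _).le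
          _ ≤ Real.exp B * |s - t| := mul_le_mul_of_nonneg_right
              (Real.exp_le_exp.mpr ((le_abs_self s).trans hs)) (abs_nonneg _)
      nlinarith
    have h4 := key (g ε x) (g0 x) h2
    have h5 := key (g0 x) (g ε x) h3
    rw [abs_sub_comm (g0 x) (g ε x)] at h5
    have h6 : Real.exp B * |g ε x - g0 x| ≤ Real.exp B * C * ε := by
      rw [mul_assoc]
      exact mul_le_mul_of_nonneg_left h1 (Real.exp_pos _).le
    rw [abs_le]
    constructor
    · linarith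
    · linarith
  · have h1 := (h.der x hx hxz).exp
    rw [base h hx] at h1
    exact h1

theorem int_der {w : ℝ} {S : Set ℝ} (hS : S.Countable) {g : ℝ → ℝ → ℝ} {g0 g' : ℝ → ℝ} (h : Nice w S g g0 g')
    {a b : ℝ} (ha : a ∈ Icc 0 w) (hb : b ∈ Icc 0 w) :
    HasDerivWithinAt (fun ε => ∫ t in a..b, g ε t) (∫ t in a..b, g' t) (Ici 0) 0 := by
  obtain ⟨C, hC⟩ := h.lip
  have hsub : ∀ t, t ∈ Set.uIoc a b → t ∈ Icc 0 w := by
    intro t ht
    have h1 := Set.uIoc_subset_uIcc ht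
    rw [Set.mem_uIcc] at h1
    rcases h1 with h1 | h1
    · exact ⟨ha.1.trans h1.1, h1.2.trans hb.2⟩
    · exact ⟨hb.1.trans h1.1, h1.2.trans ha.2⟩
  rw [hasDerivWithinAt_iff_tendsto_slope]
  have hev : ∀ᶠ ε in 𝓝[Ici (0:ℝ) \ {0}] 0, ε ∈ Icc (0:ℝ) 1 ∧ 0 < ε := by
    have h1 : ∀ᶠ ε in 𝓝[Ici (0:ℝ) \ {0}] 0, ε ∈ Ici (0:ℝ) \ {0} := eventually_mem_nhdsWithin
    have h2 : ∀ᶠ ε : ℝ in 𝓝[Ici (0:ℝ) \ {0}] 0, ε < 1 :=
      nhdsWithin_le_nhds (Iio_mem_nhds one_pos)
    filter_upwards [h1, h2] with ε h3 h4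
    have h5 : 0 < ε := lt_of_le_of_ne h3.1 (Ne.symm h3.2)
    exact ⟨⟨h3.1, h4.le⟩, h5⟩
  have hint : ∀ ε : ℝ, IntervalIntegrable (g ε) volume a b := fun ε =>
    (h.ct ε).intervalIntegrable _ _
  have heq : ∀ ε : ℝ, (∫ t in a..b, slope (fun ε => g ε t) 0 ε) =
      slope (fun ε => ∫ t in a..b, g ε t) 0 ε := by
    intro ε
    simp only [slope_def_field]
    rw [intervalIntegral.integral_div, intervalIntegral.integral_sub (hint _) (hint _)]
  have hmain : Tendsto (fun ε => ∫ t in a..b, slope (fun ε => g ε t) 0 ε)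
      (𝓝[Ici (0:ℝ) \ {0}] 0) (𝓝 (∫ t in a..b, g' t)) := by
    refine intervalIntegral.tendsto_integral_filter_of_dominated_convergence (fun _ => C)
      ?_ ?_ intervalIntegrable_const ?_
    · refine Eventually.of_forall fun ε => ?_
      have h1 : Continuous fun t => slope (fun ε => g ε t) 0 ε := by
        simp only [slope_def_field]
        exact ((h.ct ε).sub (h.ct 0)).div_const _
      exact h1.aestronglyMeasurable
    · filter_upwards [hev] with ε hε
      refine Eventually.of_forall fun t ht => ?_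
      have h1 := hC ε hε.1 t (hsub t ht)
      rw [slope_def_field, base h (hsub t ht), sub_zero, Real.norm_eq_abs, abs_div,
        abs_of_pos hε.2, div_le_iff₀ hε.2]
      exact h1
    · have h1 : ∀ᵐ t : ℝ, t ∉ S := hS.ae_notMem volume
      filter_upwards [h1] with t ht1 ht2
      have h2 := h.der t (hsub t ht2) ht1
      rw [hasDerivWithinAt_iff_tendsto_slope] at h2
      exact h2
  refine hmain.congr fun ε => heq ε

theorem int {w : ℝ} {S : Set ℝ} (hS : S.Countable) {g : ℝ → ℝ → ℝ} {g0 g' : ℝ → ℝ} (h : Nice w S g g0 g')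
    {α β : ℝ → ℝ} (hα : Continuous α) (hβ : Continuous β) (hα' : ∀ x ∈ Icc 0 w, α x ∈ Icc 0 w)
    (hβ' : ∀ x ∈ Icc 0 w, β x ∈ Icc 0 w) :
    Nice w S (fun ε x => ∫ t in α x..β x, g ε t) (fun x => ∫ t in α x..β x, g0 t)
      (fun x => ∫ t in α x..β x, g' t) := by
  have hcont : ∀ k : ℝ → ℝ, Continuous k → Continuous fun x => ∫ t in α x..β x, k t := by
    intro k hk
    have h1 : (fun x => ∫ t in α x..β x, k t) =
        fun x => (∫ t in (0:ℝ)..β x, k t) - ∫ t in (0:ℝ)..α x, k t := by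
      funext x
      rw [intervalIntegral.integral_interval_sub_left (hk.intervalIntegrable _ _)
        (hk.intervalIntegrable _ _)]
    have h2 : Continuous fun x => ∫ t in (0:ℝ)..x, k t :=
      intervalIntegral.continuous_primitive (fun a b => hk.intervalIntegrable a b) 0
    rw [h1]
    exact (h2.comp hβ).sub (h2.comp hα)
  obtain ⟨C, hC⟩ := h.lip
  refine ⟨fun ε => hcont _ (h.ct ε), hcont _ h.ct0, ⟨|C| * w, fun ε hε x hx => ?_⟩,
    fun x hx _ => int_der hS h (hα' x hx) (hβ' x hx)⟩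
  have ha := hα' x hx
  have hb := hβ' x hx
  rw [← intervalIntegral.integral_sub ((h.ct ε).intervalIntegrable _ _)
    (h.ct0.intervalIntegrable _ _)]
  have h1 : ‖∫ t in α x..β x, (g ε t - g0 t)‖ ≤ |C| * ε * |β x - α x| := by
    refine intervalIntegral.norm_integral_le_of_norm_le_const fun t ht => ?_
    have h2 : t ∈ Icc 0 w := by
      have h3 := Set.uIoc_subset_uIcc ht
      rw [Set.mem_uIcc] at h3
      rcases h3 with h3 | h3
      · exact ⟨ha.1.trans h3.1, h3.2.trans hb.2⟩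
      · exact ⟨hb.1.trans h3.1, h3.2.trans ha.2⟩
    refine (hC ε hε t h2).trans ?_
    exact mul_le_mul_of_nonneg_right (le_abs_self C) hε.1
  have h2 : |β x - α x| ≤ w := by
    rw [abs_le]
    constructor
    · linarith [ha.2, hb.1]
    · linarith [ha.1, hb.2]
  rw [Real.norm_eq_abs] at h1
  refine h1.trans ?_
  calc |C| * ε * |β x - α x| ≤ |C| * ε * w :=
        mul_le_mul_of_nonneg_left h2 (mul_nonneg (abs_nonneg _) hε.1)
    _ = |C| * w * ε := by ring

end Nice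

/-- Integration by parts for `∫_0^x f` with a right-continuous `f`. -/
theorem fv_parts (f G g : ℝ → ℝ) (hf : ∀ x, ContinuousWithinAt f (Ici x) x) (fi : ∀ a b, IntervalIntegrable f volume a b)
    (hG : ∀ x, HasDerivAt G (g x) x) (hg : Continuous g) (b : ℝ) :
    ∫ x in (0:ℝ)..b, (∫ t in (0:ℝ)..x, f t) * g x = (∫ t in (0:ℝ)..b, f t) * G b - ∫ x in (0:ℝ)..b, f x * G x := by
  have hc : Continuous fun x => ∫ t in (0:ℝ)..x, f t := intervalIntegral.continuous_primitive (fun a b => fi a b) 0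
  have hGc : Continuous G := continuous_iff_continuousAt.mpr fun x => (hG x).continuousAt
  have h := intervalIntegral.integral_mul_deriv_eq_deriv_mul_of_hasDeriv_right (a := 0) (b := b)
    (u := fun x => ∫ t in (0:ℝ)..x, f t) (v := G) (u' := f) (v' := g) hc.continuousOn hGc.continuousOn
    (fun x _ => by
      have h1 : StronglyMeasurableAtFilter f (𝓝[Ioi x] x) := by
        refine ⟨Ioc x (x + 1), Ioc_mem_nhdsGT (by linarith), ?_⟩
        exact (intervalIntegrable_iff_integrableOn_Ioc_of_le (by linarith)).1 (fi x (x + 1)) |>.aestronglyMeasurable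
      have h2 : HasDerivWithinAt (fun y => ∫ t in (0:ℝ)..y, f t) (f x) (Ici x) x :=
        intervalIntegral.integral_hasDerivWithinAt_right (fi 0 x) (t := Ioi x) h1 ((hf x).mono Ioi_subset_Ici_self)
      exact h2.mono Ioi_subset_Ici_self)
    (fun x _ => (hG x).hasDerivWithinAt) (fi 0 b) (hg.intervalIntegrable _ _)
  rw [h]
  simp

end Pool.Agent.Lib.MP_1dedaf_gt.DK
end

section

/-!
# Campaign EP, FV1: the derivatives of the functionals
-/

set_option autoImplicit false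

open MeasureTheory Set Filter Topology

namespace Pool.Agent.Lib.MP_1dedaf_gt.DK

namespace LVar

variable {K : Dat} {S : Set ℝ} {L : ℝ → ℝ → ℝ} {η : ℝ → ℝ} {z ηz : ℝ}

theorem w0 (h : LVar K S L η z ηz) : 0 ≤ K.w := h.z0.trans h.zw

theorem m0 (h : LVar K S L η z ηz) : (0:ℝ) ∈ Icc 0 K.w := ⟨le_rfl, h.w0⟩

theorem mz (h : LVar K S L η z ηz) : z ∈ Icc 0 K.w := ⟨h.z0, h.zw⟩

theorem mw (h : LVar K S L η z ηz) : K.w ∈ Icc 0 K.w := ⟨h.w0, le_rfl⟩

theorem iis (h : LVar K S L η z ηz) (g : ℝ → ℝ) (hg : Continuous g) (a b : ℝ) :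
    IntervalIntegrable (fun t => η t * g t) volume a b := (h.ii a b).mul_continuousOn hg.continuousOn

theorem tail (h : LVar K S L η z ηz) (g : ℝ → ℝ) (hg : Continuous g) :
    ∫ t in (0:ℝ)..K.w, η t * g t = ∫ t in (0:ℝ)..z, η t * g t := by
  rw [← intervalIntegral.integral_add_adjacent_intervals (h.iis g hg 0 z) (h.iis g hg z K.w)]
  have h1 : ∫ t in z..K.w, η t * g t = 0 := by
    rw [intervalIntegral.integral_congr_ae (g := fun _ => (0:ℝ)), intervalIntegral.integral_zero]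
    refine Eventually.of_forall fun t ht => ?_
    rw [Set.uIoc_of_le h.zw] at ht
    rw [h.zr t ht.1, zero_mul]
  rw [h1, add_zero]

theorem rlc (h : LVar K S L η z ηz) : Continuous K.rl := K.rl_cont h.reg.cl

theorem rlic (h : LVar K S L η z ηz) : Continuous fun x => 1 / K.rl x :=
  continuous_const.div h.rlc fun x => (K.rl_pos x).ne'

theorem ruic (h : LVar K S L η z ηz) : Continuous fun x => 1 / K.ru x :=
  continuous_const.div (K.ru_cont h.reg.cu) fun x => (K.ru_pos x).ne'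

private theorem ex (h : LVar K S L η z ηz) (A B : ℝ) :
    Nice K.w S (fun ε x => Real.exp (A * x + B * L ε x)) (fun x => Real.exp (A * x + B * K.l x))
      (fun x => B * (η x * Real.exp (A * x + B * K.l x))) := by
  have h1 : Nice K.w S (fun _ x => A * x) (fun x => A * x) (fun _ => 0) :=
    Nice.const (continuous_const.mul continuous_id)
  have h2 : Nice K.w S (fun _ _ => -B) (fun _ => -B) (fun _ => 0) := Nice.const continuous_const
  have h3 := Nice.exp (Nice.sub h1 (Nice.mul h2 h.nice))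
  refine Nice.congr h3 (fun ε x => ?_) (fun x => ?_) (fun x hx _ => ?_)
  · congr 1
    ring
  · congr 1
    ring
  · have h4 : A * x - -B * K.l x = A * x + B * K.l x := by ring
    simp only [h4]
    ring

theorem nrl (h : LVar K S L η z ηz) :
    Nice K.w S (fun ε x => (K.low (L ε)).rl x) K.rl (fun x => K.q * (η x * K.rl x)) := ex h K.p K.q

theorem nrli (h : LVar K S L η z ηz) :
    Nice K.w S (fun ε x => 1 / (K.low (L ε)).rl x) (fun x => 1 / K.rl x)
      (fun x => - (K.q * (η x * (1 / K.rl x)))) := by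
  have key : ∀ x y : ℝ, 1 / Real.exp (K.p * x + K.q * y) = Real.exp (-K.p * x + -K.q * y) := by
    intro x y
    rw [one_div, ← Real.exp_neg]
    congr 1
    ring
  refine Nice.congr (ex h (-K.p) (-K.q)) (fun ε x => key x _) (fun x => key x _) (fun x _ _ => ?_)
  rw [← key x (K.l x), neg_mul]
  rfl

theorem nXl (h : LVar K S L η z ηz) :
    Nice K.w S (fun ε x => (K.low (L ε)).Xl x) K.Xl (fun x => K.q * ∫ t in (0:ℝ)..x, η t * K.rl t) := by
  have h1 := Nice.int h.cS h.nrl (α := fun _ => 0) (β := fun x => x) continuous_const continuous_id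
    (fun x hx => h.m0) (fun x hx => hx)
  refine Nice.congr h1 (fun ε x => rfl) (fun x => rfl) (fun x hx _ => ?_)
  rw [intervalIntegral.integral_const_mul]

theorem nXu (h : LVar K S L η z ηz) :
    Nice K.w S (fun ε x => (K.low (L ε)).Xu x) K.Xu (fun _ => K.q * ∫ t in (0:ℝ)..z, η t * K.rl t) := by
  have h1 := Nice.int h.cS h.nrl (α := fun _ => 0) (β := fun _ => K.w) continuous_const continuous_const
    (fun x hx => h.m0) (fun x hx => h.mw)
  have hru := K.ru_cont h.reg.cu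
  have h2 : Nice K.w S (fun _ x => ∫ t in x..K.w, K.ru t) (fun x => ∫ t in x..K.w, K.ru t)
      (fun _ => 0) := by
    refine Nice.const ?_
    have h3 : (fun x => ∫ t in x..K.w, K.ru t) = fun x => - ∫ t in K.w..x, K.ru t := by
      funext x
      exact intervalIntegral.integral_symm _ _
    rw [h3]
    exact (intervalIntegral.continuous_primitive (fun a b => hru.intervalIntegrable a b) K.w).neg
  refine Nice.congr (Nice.sub h1 h2) (fun ε x => ?_) (fun x => ?_) (fun x hx _ => ?_)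
  · exact Dat.Xu_eq (K.low (L ε)) h.reg.hq (h.nice.ct ε) h.reg.cu x
  · exact K.Xu_eq h.reg.hq h.reg.cl h.reg.cu x
  · rw [sub_zero, intervalIntegral.integral_const_mul, h.tail K.rl h.rlc]

theorem nmu (h : LVar K S L η z ηz) :
    Nice K.w S (fun ε x => (K.low (L ε)).mu x) K.mu (fun x => - (η x * K.rl x)) := by
  have h1 : Nice K.w S (fun _ x => K.ru x) K.ru (fun _ => 0) := Nice.const (K.ru_cont h.reg.cu)
  have h2 : Nice K.w S (fun _ _ => 1 / K.q) (fun _ => 1 / K.q) (fun _ => 0) := Nice.const continuous_const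
  have hq := h.reg.hq
  refine Nice.congr (Nice.mul (Nice.sub h1 h.nrl) h2) (fun ε x => ?_) (fun x => ?_) (fun x hx _ => ?_)
  · exact div_eq_mul_one_div _ _
  · exact div_eq_mul_one_div _ _
  · field_simp
    ring

theorem dM (h : LVar K S L η z ηz) :
    HasDerivWithinAt (fun ε => (K.low (L ε)).M) (- ∫ t in (0:ℝ)..z, η t * K.rl t) (Ici 0) 0 := by
  have h1 := Nice.int_der h.cS h.nmu h.m0 h.mw
  rw [intervalIntegral.integral_neg, h.tail K.rl h.rlc] at h1
  exact h1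

theorem dxb (h : LVar K S L η z ηz) :
    HasDerivWithinAt (fun ε => (K.low (L ε)).xb) (- ∫ t in (0:ℝ)..z, η t * (t * K.rl t)) (Ici 0) 0 := by
  have h0 : Nice K.w S (fun _ x => x) (fun x => x) (fun _ => 0) := Nice.const continuous_id
  have h1 := Nice.int_der h.cS (Nice.mul h0 h.nmu) h.m0 h.mw
  have h2 : (∫ t in (0:ℝ)..K.w, (0 * K.mu t + t * -(η t * K.rl t))) = - ∫ t in (0:ℝ)..z, η t * (t * K.rl t) := by
    rw [← h.tail (fun t => t * K.rl t) (continuous_id.mul h.rlc), ← intervalIntegral.integral_neg]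
    refine intervalIntegral.integral_congr fun t _ => ?_
    ring
  rw [h2] at h1
  exact h1

theorem dN0 (h : LVar K S L η z ηz) :
    HasDerivWithinAt (fun ε => (K.low (L ε)).N 0) (- (K.q * ∫ t in (0:ℝ)..z, η t * (1 / K.rl t))) (Ici 0) 0 := by
  have h0 : Nice K.w S (fun _ x => 1 / K.ru x) (fun x => 1 / K.ru x) (fun _ => 0) := Nice.const h.ruic
  have h1 := Nice.int_der h.cS (Nice.sub h.nrli h0) h.m0 h.mw
  have h2 : (∫ t in (0:ℝ)..K.w, (-(K.q * (η t * (1 / K.rl t))) - 0)) =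
      - (K.q * ∫ t in (0:ℝ)..z, η t * (1 / K.rl t)) := by
    simp only [sub_zero]
    rw [intervalIntegral.integral_neg, intervalIntegral.integral_const_mul, h.tail _ h.rlic]
  rw [h2] at h1
  refine h1.congr_of_eventuallyEq (Eventually.of_forall fun ε => ?_) ?_
  · show (K.low (L ε)).N 0 = _
    unfold Dat.N
    simp only [pow_zero]
    rfl
  · show (K.low (L 0)).N 0 = _
    unfold Dat.N
    simp only [pow_zero]
    rfl

theorem Ri_der (h : LVar K S L η z ηz) (x : ℝ) : HasDerivAt K.Ri (1 / K.rl x) x :=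
  (h.rlic.integral_hasStrictDerivAt 0 x).hasDerivAt

theorem Ixc (h : LVar K S L η z ηz) : Continuous fun t => K.Xl t / K.rl t :=
  (K.Xl_cont h.reg.cl).div h.rlc fun x => (K.rl_pos x).ne'

theorem Ix_der (h : LVar K S L η z ηz) (x : ℝ) : HasDerivAt K.Ix (K.Xl x / K.rl x) x :=
  (h.Ixc.integral_hasStrictDerivAt 0 x).hasDerivAt

theorem rc' (h : LVar K S L η z ηz) (g : ℝ → ℝ) (hg : Continuous g) (x : ℝ) :
    ContinuousWithinAt (fun t => η t * g t) (Ici x) x := (h.rc x).mul hg.continuousWithinAt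

/-- Integration by parts on `[0, w]`. -/
theorem parts (h : LVar K S L η z ηz) (G g : ℝ → ℝ) (hG : ∀ x, HasDerivAt G (g x) x) (hg : Continuous g) :
    ∫ x in (0:ℝ)..K.w, (∫ t in (0:ℝ)..x, η t * K.rl t) * g x =
      (∫ t in (0:ℝ)..z, η t * K.rl t) * G K.w - ∫ x in (0:ℝ)..z, η x * (K.rl x * G x) := by
  have hGc : Continuous G := continuous_iff_continuousAt.mpr fun x => (hG x).continuousAt
  have h1 := fv_parts (fun t => η t * K.rl t) G g (h.rc' K.rl h.rlc) (h.iis K.rl h.rlc) hG hg K.w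
  rw [h1, h.tail K.rl h.rlc, ← h.tail (fun x => K.rl x * G x) (h.rlc.mul hGc)]
  congr 1
  refine intervalIntegral.integral_congr fun t _ => ?_
  ring

/-- Integration by parts on `[0, z]`. -/
theorem partsz (h : LVar K S L η z ηz) (G g : ℝ → ℝ) (hG : ∀ x, HasDerivAt G (g x) x) (hg : Continuous g) :
    ∫ x in (0:ℝ)..z, (∫ t in (0:ℝ)..x, η t * K.rl t) * g x =
      (∫ t in (0:ℝ)..z, η t * K.rl t) * G z - ∫ x in (0:ℝ)..z, η x * (K.rl x * G x) := by
  have h1 := fv_parts (fun t => η t * K.rl t) G g (h.rc' K.rl h.rlc) (h.iis K.rl h.rlc) hG hg z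
  rw [h1]
  congr 1
  refine intervalIntegral.integral_congr fun t _ => ?_
  ring

theorem Hc (h : LVar K S L η z ηz) : Continuous fun x => ∫ t in (0:ℝ)..x, η t * K.rl t :=
  intervalIntegral.continuous_primitive (fun a b => h.iis K.rl h.rlc a b) 0

theorem dN1 (h : LVar K S L η z ηz) :
    HasDerivWithinAt (fun ε => (K.low (L ε)).N 1)
      (K.q * ((∫ t in (0:ℝ)..z, η t * K.rl t) * K.N 0 - (∫ t in (0:ℝ)..z, η t * (K.rl t * K.Ri t)) -
        ∫ t in (0:ℝ)..z, η t * (K.Xl t / K.rl t))) (Ici 0) 0 := by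
  have h0 : Nice K.w S (fun _ x => 1 / K.ru x) (fun x => 1 / K.ru x) (fun _ => 0) := Nice.const h.ruic
  have h1 := Nice.int_der h.cS (Nice.sub (Nice.mul h.nXl h.nrli) (Nice.mul h.nXu h0)) h.m0 h.mw
  have hi := h.rlic
  have hiu := h.ruic
  have c1 : Continuous fun t => (∫ s in (0:ℝ)..t, η s * K.rl s) * (1 / K.rl t) := h.Hc.mul hi
  have h2 : (∫ t in (0:ℝ)..K.w, (((K.q * ∫ s in (0:ℝ)..t, η s * K.rl s) * (1 / K.rl t) +
      K.Xl t * (-(K.q * (η t * (1 / K.rl t))))) -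
      (K.q * (∫ s in (0:ℝ)..z, η s * K.rl s) * (1 / K.ru t) + K.Xu t * 0))) =
      K.q * ((∫ t in (0:ℝ)..z, η t * K.rl t) * K.N 0 - (∫ t in (0:ℝ)..z, η t * (K.rl t * K.Ri t)) -
        ∫ t in (0:ℝ)..z, η t * (K.Xl t / K.rl t)) := by
    have h3 : (∫ t in (0:ℝ)..K.w, (((K.q * ∫ s in (0:ℝ)..t, η s * K.rl s) * (1 / K.rl t) +
      K.Xl t * (-(K.q * (η t * (1 / K.rl t))))) -
      (K.q * (∫ s in (0:ℝ)..z, η s * K.rl s) * (1 / K.ru t) + K.Xu t * 0))) =
        ∫ t in (0:ℝ)..K.w, (K.q * ((∫ s in (0:ℝ)..t, η s * K.rl s) * (1 / K.rl t)) -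
          K.q * (η t * (K.Xl t / K.rl t)) - K.q * (∫ s in (0:ℝ)..z, η s * K.rl s) * (1 / K.ru t)) := by
      refine intervalIntegral.integral_congr fun t _ => ?_
      have := (K.rl_pos t).ne'
      field_simp
      ring
    have i1 : IntervalIntegrable (fun t => K.q * ((∫ s in (0:ℝ)..t, η s * K.rl s) * (1 / K.rl t))) volume 0 K.w :=
      (continuous_const.mul c1).intervalIntegrable _ _
    have i2 : IntervalIntegrable (fun t => K.q * (η t * (K.Xl t / K.rl t))) volume 0 K.w :=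
      (h.iis _ h.Ixc _ _).const_mul _
    have i3 : IntervalIntegrable (fun t => K.q * (∫ s in (0:ℝ)..z, η s * K.rl s) * (1 / K.ru t)) volume 0 K.w :=
      (continuous_const.mul hiu).intervalIntegrable _ _
    rw [h3, intervalIntegral.integral_sub (i1.sub i2) i3, intervalIntegral.integral_sub i1 i2,
      intervalIntegral.integral_const_mul, intervalIntegral.integral_const_mul, intervalIntegral.integral_const_mul,
      h.parts K.Ri (fun x => 1 / K.rl x) h.Ri_der hi, h.tail _ h.Ixc]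
    have h4 : K.N 0 = K.Ri K.w - ∫ t in (0:ℝ)..K.w, 1 / K.ru t := by
      unfold Dat.N Dat.Ri
      simp only [pow_zero]
      rw [intervalIntegral.integral_sub (hi.intervalIntegrable _ _) (hiu.intervalIntegrable _ _)]
    rw [h4]
    ring
  rw [h2] at h1
  have h5 : ∀ ε, (K.low (L ε)).N 1 = ∫ t in (0:ℝ)..K.w, ((K.low (L ε)).Xl t * (1 / (K.low (L ε)).rl t) -
      (K.low (L ε)).Xu t * (1 / K.ru t)) := by
    intro ε
    unfold Dat.N
    refine intervalIntegral.integral_congr fun t _ => ?_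
    simp only [pow_one]
    rw [div_eq_mul_one_div ((K.low (L ε)).Xl t), div_eq_mul_one_div ((K.low (L ε)).Xu t)]
    rfl
  exact h1.congr_of_eventuallyEq (Eventually.of_forall fun ε => h5 ε) (h5 0)

theorem dN2 (h : LVar K S L η z ηz) :
    HasDerivWithinAt (fun ε => (K.low (L ε)).N 2)
      (K.q * (2 * (∫ t in (0:ℝ)..z, η t * K.rl t) * K.N 1 - 2 * (∫ t in (0:ℝ)..z, η t * (K.rl t * K.Ix t)) -
        ∫ t in (0:ℝ)..z, η t * (K.Xl t ^ 2 / K.rl t))) (Ici 0) 0 := by
  have h0 : Nice K.w S (fun _ x => 1 / K.ru x) (fun x => 1 / K.ru x) (fun _ => 0) := Nice.const h.ruic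
  have h1 := Nice.int_der h.cS (Nice.sub (Nice.mul (Nice.mul h.nXl h.nXl) h.nrli)
    (Nice.mul (Nice.mul h.nXu h.nXu) h0)) h.m0 h.mw
  have hi := h.rlic
  have hiu := h.ruic
  have hX := K.Xl_cont h.reg.cl
  have hXu := K.Xu_cont h.reg.cl h.reg.cu
  have c2 : Continuous fun t => K.Xl t ^ 2 / K.rl t := (hX.pow 2).div h.rlc fun x => (K.rl_pos x).ne'
  have c3 : Continuous fun t => K.Xu t / K.ru t :=
    hXu.div (K.ru_cont h.reg.cu) fun x => (K.ru_pos x).ne'
  have c1 : Continuous fun t => (∫ s in (0:ℝ)..t, η s * K.rl s) * (K.Xl t / K.rl t) := h.Hc.mul h.Ixc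
  have h2 : (∫ t in (0:ℝ)..K.w, ((((K.q * ∫ s in (0:ℝ)..t, η s * K.rl s) * K.Xl t +
      K.Xl t * (K.q * ∫ s in (0:ℝ)..t, η s * K.rl s)) * (1 / K.rl t) +
      K.Xl t * K.Xl t * (-(K.q * (η t * (1 / K.rl t))))) -
      (((K.q * ∫ s in (0:ℝ)..z, η s * K.rl s) * K.Xu t + K.Xu t * (K.q * ∫ s in (0:ℝ)..z, η s * K.rl s)) *
        (1 / K.ru t) + K.Xu t * K.Xu t * 0))) =
      K.q * (2 * (∫ t in (0:ℝ)..z, η t * K.rl t) * K.N 1 - 2 * (∫ t in (0:ℝ)..z, η t * (K.rl t * K.Ix t)) -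
        ∫ t in (0:ℝ)..z, η t * (K.Xl t ^ 2 / K.rl t)) := by
    have h3 : (∫ t in (0:ℝ)..K.w, ((((K.q * ∫ s in (0:ℝ)..t, η s * K.rl s) * K.Xl t +
      K.Xl t * (K.q * ∫ s in (0:ℝ)..t, η s * K.rl s)) * (1 / K.rl t) +
      K.Xl t * K.Xl t * (-(K.q * (η t * (1 / K.rl t))))) -
      (((K.q * ∫ s in (0:ℝ)..z, η s * K.rl s) * K.Xu t + K.Xu t * (K.q * ∫ s in (0:ℝ)..z, η s * K.rl s)) *
        (1 / K.ru t) + K.Xu t * K.Xu t * 0))) =
        ∫ t in (0:ℝ)..K.w, (2 * K.q * ((∫ s in (0:ℝ)..t, η s * K.rl s) * (K.Xl t / K.rl t)) -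
          K.q * (η t * (K.Xl t ^ 2 / K.rl t)) - 2 * K.q * (∫ s in (0:ℝ)..z, η s * K.rl s) * (K.Xu t / K.ru t)) := by
      refine intervalIntegral.integral_congr fun t _ => ?_
      have := (K.rl_pos t).ne'
      have := (K.ru_pos t).ne'
      field_simp
      ring
    have i1 : IntervalIntegrable (fun t => 2 * K.q * ((∫ s in (0:ℝ)..t, η s * K.rl s) * (K.Xl t / K.rl t))) volume 0 K.w :=
      (continuous_const.mul c1).intervalIntegrable _ _
    have i2 : IntervalIntegrable (fun t => K.q * (η t * (K.Xl t ^ 2 / K.rl t))) volume 0 K.w :=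
      (h.iis _ c2 _ _).const_mul _
    have i3 : IntervalIntegrable (fun t => 2 * K.q * (∫ s in (0:ℝ)..z, η s * K.rl s) * (K.Xu t / K.ru t)) volume 0 K.w :=
      (continuous_const.mul c3).intervalIntegrable _ _
    rw [h3, intervalIntegral.integral_sub (i1.sub i2) i3, intervalIntegral.integral_sub i1 i2,
      intervalIntegral.integral_const_mul, intervalIntegral.integral_const_mul, intervalIntegral.integral_const_mul,
      h.parts K.Ix (fun x => K.Xl x / K.rl x) h.Ix_der h.Ixc, h.tail _ c2]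
    have h4 : K.N 1 = K.Ix K.w - ∫ t in (0:ℝ)..K.w, K.Xu t / K.ru t := by
      unfold Dat.N Dat.Ix
      simp only [pow_one]
      rw [intervalIntegral.integral_sub (h.Ixc.intervalIntegrable _ _) (c3.intervalIntegrable _ _)]
    rw [h4]
    ring
  rw [h2] at h1
  have h5 : ∀ ε, (K.low (L ε)).N 2 = ∫ t in (0:ℝ)..K.w,
      ((K.low (L ε)).Xl t * (K.low (L ε)).Xl t * (1 / (K.low (L ε)).rl t) -
      (K.low (L ε)).Xu t * (K.low (L ε)).Xu t * (1 / K.ru t)) := by
    intro ε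
    unfold Dat.N
    refine intervalIntegral.integral_congr fun t _ => ?_
    simp only [pow_two]
    rw [div_eq_mul_one_div ((K.low (L ε)).Xl t * (K.low (L ε)).Xl t),
      div_eq_mul_one_div ((K.low (L ε)).Xu t * (K.low (L ε)).Xu t)]
    rfl
  exact h1.congr_of_eventuallyEq (Eventually.of_forall fun ε => h5 ε) (h5 0)

theorem dXz (h : LVar K S L η z ηz) :
    HasDerivWithinAt (fun ε => (K.low (L ε)).Xl z) (K.q * ∫ t in (0:ℝ)..z, η t * K.rl t) (Ici 0) 0 := by
  have h1 := Nice.int_der h.cS h.nrl h.m0 h.mz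
  rw [intervalIntegral.integral_const_mul] at h1
  exact h1

theorem dRi (h : LVar K S L η z ηz) :
    HasDerivWithinAt (fun ε => (K.low (L ε)).Ri z) (- (K.q * ∫ t in (0:ℝ)..z, η t * (1 / K.rl t))) (Ici 0) 0 := by
  have h1 := Nice.int_der h.cS h.nrli h.m0 h.mz
  rw [intervalIntegral.integral_neg, intervalIntegral.integral_const_mul] at h1
  exact h1

theorem dIx (h : LVar K S L η z ηz) :
    HasDerivWithinAt (fun ε => (K.low (L ε)).Ix z)
      (K.q * ((∫ t in (0:ℝ)..z, η t * K.rl t) * K.Ri z - (∫ t in (0:ℝ)..z, η t * (K.rl t * K.Ri t)) -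
        ∫ t in (0:ℝ)..z, η t * (K.Xl t / K.rl t))) (Ici 0) 0 := by
  have h1 := Nice.int_der h.cS (Nice.mul h.nXl h.nrli) h.m0 h.mz
  have hi := h.rlic
  have c1 : Continuous fun t => (∫ s in (0:ℝ)..t, η s * K.rl s) * (1 / K.rl t) := h.Hc.mul hi
  have h2 : (∫ t in (0:ℝ)..z, ((K.q * ∫ s in (0:ℝ)..t, η s * K.rl s) * (1 / K.rl t) +
      K.Xl t * (-(K.q * (η t * (1 / K.rl t)))))) =
      K.q * ((∫ t in (0:ℝ)..z, η t * K.rl t) * K.Ri z - (∫ t in (0:ℝ)..z, η t * (K.rl t * K.Ri t)) -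
        ∫ t in (0:ℝ)..z, η t * (K.Xl t / K.rl t)) := by
    have h3 : (∫ t in (0:ℝ)..z, ((K.q * ∫ s in (0:ℝ)..t, η s * K.rl s) * (1 / K.rl t) +
      K.Xl t * (-(K.q * (η t * (1 / K.rl t)))))) =
        ∫ t in (0:ℝ)..z, (K.q * ((∫ s in (0:ℝ)..t, η s * K.rl s) * (1 / K.rl t)) -
          K.q * (η t * (K.Xl t / K.rl t))) := by
      refine intervalIntegral.integral_congr fun t _ => ?_
      have := (K.rl_pos t).ne'
      field_simp
      ring
    have i1 : IntervalIntegrable (fun t => K.q * ((∫ s in (0:ℝ)..t, η s * K.rl s) * (1 / K.rl t))) volume 0 z :=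
      (continuous_const.mul c1).intervalIntegrable _ _
    have i2 : IntervalIntegrable (fun t => K.q * (η t * (K.Xl t / K.rl t))) volume 0 z :=
      (h.iis _ h.Ixc _ _).const_mul _
    rw [h3, intervalIntegral.integral_sub i1 i2,
      intervalIntegral.integral_const_mul, intervalIntegral.integral_const_mul,
      h.partsz K.Ri (fun x => 1 / K.rl x) h.Ri_der hi]
    ring
  rw [h2] at h1
  have h5 : ∀ ε, (K.low (L ε)).Ix z = ∫ t in (0:ℝ)..z, ((K.low (L ε)).Xl t * (1 / (K.low (L ε)).rl t)) := by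
    intro ε
    unfold Dat.Ix
    refine intervalIntegral.integral_congr fun t _ => ?_
    exact div_eq_mul_one_div _ _
  exact h1.congr_of_eventuallyEq (Eventually.of_forall fun ε => h5 ε) (h5 0)

theorem drlz (h : LVar K S L η z ηz) :
    HasDerivWithinAt (fun ε => (K.low (L ε)).rl z) (K.q * ηz * K.rl z) (Ici 0) 0 := by
  have h1 := ((h.dz.const_mul K.q).const_add (K.p * z)).exp
  have h2 : L 0 z = K.l z := h.nice.base h.mz
  rw [h2] at h1
  refine h1.congr_deriv ?_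
  show Real.exp (K.p * z + K.q * K.l z) * (K.q * ηz) = K.q * ηz * Real.exp (K.p * z + K.q * K.l z)
  ring

end LVar

end Pool.Agent.Lib.MP_1dedaf_gt.DK
end
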