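import Pool.Agent.Lib.MP_1dedaf_gt.Mg.G038
import Pool.Agent.Lib.MP_1dedaf_gt.DK.EP.MONO
import Pool.Agent.Lib.MP_1dedaf_gt.Mg.G041

section

/-!
# Campaign EP, FV2: the first variation of `mass * j`
-/

set_option autoImplicit false

open MeasureTheory Set Filter Topology

namespace Pool.Agent.Lib.MP_1dedaf_gt.DK

theorem Xi_eq (K : Dat) (cl : Continuous K.l) (z : ℝ) : K.Xi z = K.a * K.Ri z - K.Ix z := by
  have hrl := K.rl_cont cl
  have hi : Continuous fun x => 1 / K.rl x := continuous_const.div hrl fun x => (K.rl_pos x).ne'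
  have hx : Continuous fun t => K.Xl t / K.rl t := (K.Xl_cont cl).div hrl fun x => (K.rl_pos x).ne'
  have i1 : IntervalIntegrable (fun t => K.a * (1 / K.rl t)) volume 0 z := (continuous_const.mul hi).intervalIntegrable _ _
  have i2 : IntervalIntegrable (fun t => K.Xl t / K.rl t) volume 0 z := hx.intervalIntegrable _ _
  unfold Dat.Xi Dat.Ri Dat.Ix
  rw [← intervalIntegral.integral_const_mul, ← intervalIntegral.integral_sub i1 i2]
  refine intervalIntegral.integral_congr fun t _ => ?_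
  ring

/-- `mass * j` without `mass` in the denominator. -/
theorem Mj_eq (K : Dat) (hM : K.M ≠ 0) (cl : Continuous K.l) (z k : ℝ) : K.M * K.j z k =
    (K.M * z - 2 * K.xb + K.M * (K.N 1 / K.N 0 - K.Xl z) / K.rl z -
      (K.p + K.q * k) * (-(K.N 2 - K.N 1 / K.N 0 * K.N 1) / K.q - K.M * (K.N 1 / K.N 0 * K.Ri z - K.Ix z))) / K.q := by
  have hXi : K.Xi z = K.a * K.Ri z - K.Ix z := Xi_eq K cl z
  have e : K.M * K.psi = -(K.N 2 - K.N 1 / K.N 0 * K.N 1) / K.q := by
    have e1 : K.psi = -K.V / K.q / K.M := by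
      unfold Dat.psi
      rw [div_div]
    have e2 : K.V = K.N 2 - K.N 1 / K.N 0 * K.N 1 := rfl
    rw [e1, mul_div_cancel₀ _ hM, e2]
  have ha : K.N 1 / K.N 0 = K.a := rfl
  rw [← e, ha]
  unfold Dat.j Dat.Phi
  rw [hXi]
  have e3 : K.M * (2 * K.xb / K.M) = 2 * K.xb := by
    rw [mul_div_cancel₀ _ hM]
  have e5 : K.M * (z - 2 * K.xb / K.M + (K.a - K.Xl z) / K.rl z - (K.p + K.q * k) * (K.psi - (K.a * K.Ri z - K.Ix z))) =
      K.M * z - K.M * (2 * K.xb / K.M) + K.M * (K.a - K.Xl z) / K.rl z - (K.p + K.q * k) * (K.M * K.psi - K.M * (K.a * K.Ri z - K.Ix z)) := by ring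
  rw [mul_div_assoc', e5, e3]

private theorem FV2_alg (q p z k k' M N0 N1 N2 X R Ri Ix D a F Xi Lam ηz Ir Ixr Ii IrRi IXi IrIx IX2 psi Phi : ℝ) (hq : q ≠ 0) (hM : M ≠ 0)
    (hD : D ≠ 0) (hR : R ≠ 0) (hN0 : N0 = q * D) (hN1 : N1 = a * (q * D)) (hF : F = (a - X) / R) (hXi : Xi = a * Ri - Ix)
    (hL : Lam = M * (1 / (D * R) + (p + q * k) * (Ri / D - q))) (hpsi : psi = -(N2 - a * N1) / (q * M)) (hPhi : Phi = psi - Xi) :
    (((-Ir) * z - 2 * (-Ixr) + (((-Ir) * (N1 / N0 - X) + M * ((q * (Ir * N0 - IrRi - IXi) * N0 - N1 * (-(q * Ii))) / N0 ^ 2 - q * Ir)) * R -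
        M * (N1 / N0 - X) * (q * ηz * R)) / R ^ 2) -
      ((q * k') * (-(N2 - N1 / N0 * N1) / q - M * (N1 / N0 * Ri - Ix)) +
       (p + q * k) * (-(q * (2 * Ir * N1 - 2 * IrIx - IX2) - ((q * (Ir * N0 - IrRi - IXi) * N0 - N1 * (-(q * Ii))) / N0 ^ 2 * N1 +
          N1 / N0 * (q * (Ir * N0 - IrRi - IXi)))) / q -
        ((-Ir) * (N1 / N0 * Ri - Ix) + M * (((q * (Ir * N0 - IrRi - IXi) * N0 - N1 * (-(q * Ii))) / N0 ^ 2 * Ri + N1 / N0 * (-(q * Ii))) -
          q * (Ir * Ri - IrRi - IXi)))))) / q =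
    (2 * Ixr - (z + F + (p + q * k) * Xi) * Ir + (p + q * k) * (2 * a * IrRi - 2 * IrIx - a ^ 2 * Ii + 2 * a * IXi - IX2) +
      Lam * (a * Ii - IXi - IrRi)) / q - M * (ηz * F + k' * Phi) := by
  subst hN0 hN1 hF hXi hL hPhi hpsi
  field_simp
  ring

namespace LVar

variable {K : Dat} {S : Set ℝ} {L : ℝ → ℝ → ℝ} {η : ℝ → ℝ} {z ηz : ℝ}

private theorem fv_expand (h : LVar K S L η z ηz) (k : ℝ) :
    ∫ x in (0:ℝ)..z, η x * (K.rl x * K.Gt z k x) =
      2 * (∫ t in (0:ℝ)..z, η t * (t * K.rl t)) - (z + K.Fl z + (K.p + K.q * k) * K.Xi z) * (∫ t in (0:ℝ)..z, η t * K.rl t) +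
      (K.p + K.q * k) * (2 * K.a * (∫ t in (0:ℝ)..z, η t * (K.rl t * K.Ri t)) - 2 * (∫ t in (0:ℝ)..z, η t * (K.rl t * K.Ix t)) -
        K.a ^ 2 * (∫ t in (0:ℝ)..z, η t * (1 / K.rl t)) + 2 * K.a * (∫ t in (0:ℝ)..z, η t * (K.Xl t / K.rl t)) -
        ∫ t in (0:ℝ)..z, η t * (K.Xl t ^ 2 / K.rl t)) +
      K.Lam z k * (K.a * (∫ t in (0:ℝ)..z, η t * (1 / K.rl t)) - (∫ t in (0:ℝ)..z, η t * (K.Xl t / K.rl t)) -
        ∫ t in (0:ℝ)..z, η t * (K.rl t * K.Ri t)) := by
  have hX := K.Xl_cont h.reg.cl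
  have hrl := h.rlc
  have hRi := Ri_cont K h.reg.cl
  have hIx : Continuous K.Ix := continuous_iff_continuousAt.mpr fun x => (h.Ix_der x).continuousAt
  have c1 : Continuous fun t => t * K.rl t := continuous_id.mul hrl
  have c3 : Continuous fun t => K.rl t * K.Ri t := hrl.mul hRi
  have c4 : Continuous fun t => K.rl t * K.Ix t := hrl.mul hIx
  have c5 := h.rlic
  have c6 := h.Ixc
  have c7 : Continuous fun t => K.Xl t ^ 2 / K.rl t := (hX.pow 2).div hrl fun x => (K.rl_pos x).ne'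
  have i1 := h.iis _ c1 0 z
  have i2 := h.iis _ hrl 0 z
  have i3 := h.iis _ c3 0 z
  have i4 := h.iis _ c4 0 z
  have i5 := h.iis _ c5 0 z
  have i6 := h.iis _ c6 0 z
  have i7 := h.iis _ c7 0 z
  have hXi : ∀ x, K.Xi x = K.a * K.Ri x - K.Ix x := fun x => Xi_eq K h.reg.cl x
  simp only [← intervalIntegral.integral_const_mul]
  rw [← intervalIntegral.integral_sub (i3.const_mul _) (i4.const_mul _),
    ← intervalIntegral.integral_sub ((i3.const_mul _).sub (i4.const_mul _)) (i5.const_mul _),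
    ← intervalIntegral.integral_add (((i3.const_mul _).sub (i4.const_mul _)).sub (i5.const_mul _)) (i6.const_mul _),
    ← intervalIntegral.integral_sub ((((i3.const_mul _).sub (i4.const_mul _)).sub (i5.const_mul _)).add (i6.const_mul _)) i7,
    ← intervalIntegral.integral_sub (i5.const_mul _) i6,
    ← intervalIntegral.integral_sub ((i5.const_mul _).sub i6) i3,
    ← intervalIntegral.integral_const_mul, ← intervalIntegral.integral_const_mul,
    ← intervalIntegral.integral_sub (i1.const_mul _) (i2.const_mul _),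
    ← intervalIntegral.integral_add ((i1.const_mul _).sub (i2.const_mul _))
      ((((((i3.const_mul _).sub (i4.const_mul _)).sub (i5.const_mul _)).add (i6.const_mul _)).sub i7).const_mul _),
    ← intervalIntegral.integral_add (((i1.const_mul _).sub (i2.const_mul _)).add
      ((((((i3.const_mul _).sub (i4.const_mul _)).sub (i5.const_mul _)).add (i6.const_mul _)).sub i7).const_mul _))
      ((((i5.const_mul _).sub i6).sub i3).const_mul _)]
  refine intervalIntegral.integral_congr fun t _ => ?_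
  have h0 := (K.rl_pos t).ne'
  simp only [Dat.Gt, hXi t]
  have e : K.Fl t = (K.a - K.Xl t) / K.rl t := rfl
  rw [e]
  field_simp
  ring

/-- The first variation of `mass * j`. -/
theorem dMj (h : LVar K S L η z ηz) (k k' : ℝ) :
    HasDerivWithinAt (fun ε => (K.low (L ε)).M * (K.low (L ε)).j z (k + ε * k'))
      ((∫ x in (0:ℝ)..z, η x * (K.rl x * K.Gt z k x)) / K.q - K.M * (ηz * K.Fl z + k' * K.Phi z)) (Ici 0) 0 := by
  have hq := h.reg.hq
  have hMp := K.M_pos h.reg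
  have hD := K.D_pos h.reg
  have hN0 := K.N0_ne h.reg
  have hR := K.rl_pos z
  have dM := h.dM
  have dxb := h.dxb
  have dN0 := h.dN0
  have dN1 := h.dN1
  have dN2 := h.dN2
  have dX := h.dXz
  have dRi := h.dRi
  have dIx := h.dIx
  have drl := h.drlz
  have eb : ∀ x ∈ Icc 0 K.w, L 0 x = K.l x := fun x hx => h.nice.base hx
  have bM : (K.low (L 0)).M = K.M := by
    show ∫ x in (0:ℝ)..K.w, (K.low (L 0)).mu x = ∫ x in (0:ℝ)..K.w, K.mu x
    refine intervalIntegral.integral_congr fun x hx => ?_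
    rw [Set.uIcc_of_le h.w0] at hx
    exact h.nmu.base hx
  have bxb : (K.low (L 0)).xb = K.xb := by
    show ∫ x in (0:ℝ)..K.w, x * (K.low (L 0)).mu x = ∫ x in (0:ℝ)..K.w, x * K.mu x
    refine intervalIntegral.integral_congr fun x hx => ?_
    rw [Set.uIcc_of_le h.w0] at hx
    show x * (K.low (L 0)).mu x = x * K.mu x
    rw [h.nmu.base hx]
  have bN : ∀ i, (K.low (L 0)).N i = K.N i := by
    intro i
    show ∫ x in (0:ℝ)..K.w, ((K.low (L 0)).Xl x ^ i / (K.low (L 0)).rl x - (K.low (L 0)).Xu x ^ i / K.ru x) =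
      ∫ x in (0:ℝ)..K.w, (K.Xl x ^ i / K.rl x - K.Xu x ^ i / K.ru x)
    refine intervalIntegral.integral_congr fun x hx => ?_
    rw [Set.uIcc_of_le h.w0] at hx
    have hx' : x ∈ Icc 0 K.w := hx
    show (K.low (L 0)).Xl x ^ i / (K.low (L 0)).rl x - (K.low (L 0)).Xu x ^ i / K.ru x = K.Xl x ^ i / K.rl x - K.Xu x ^ i / K.ru x
    rw [h.nXl.base hx', h.nXu.base hx', h.nrl.base hx']
  have bX : (K.low (L 0)).Xl z = K.Xl z := h.nXl.base h.mz
  have brl : (K.low (L 0)).rl z = K.rl z := h.nrl.base h.mz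
  have bRi : (K.low (L 0)).Ri z = K.Ri z := by
    unfold Dat.Ri
    refine intervalIntegral.integral_congr fun x hx => ?_
    rw [Set.uIcc_of_le h.z0] at hx
    exact h.nrli.base ⟨hx.1, hx.2.trans h.zw⟩
  have bIx : (K.low (L 0)).Ix z = K.Ix z := by
    unfold Dat.Ix
    refine intervalIntegral.integral_congr fun x hx => ?_
    rw [Set.uIcc_of_le h.z0] at hx
    have hx' : x ∈ Icc 0 K.w := ⟨hx.1, hx.2.trans h.zw⟩
    show (K.low (L 0)).Xl x / (K.low (L 0)).rl x = K.Xl x / K.rl x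
    rw [h.nXl.base hx', h.nrl.base hx']
  have hk : HasDerivWithinAt (fun ε : ℝ => K.p + K.q * (k + ε * k')) (K.q * k') (Ici 0) 0 := by
    have h1 : HasDerivAt (fun ε : ℝ => K.p + K.q * (k + ε * k')) (K.q * (1 * k')) 0 :=
      (((((hasDerivAt_id (0:ℝ)).mul_const k').const_add k).const_mul K.q).const_add K.p)
    rw [one_mul] at h1
    exact h1.hasDerivWithinAt
  have da := dN1.div dN0 (by rw [bN 0]; exact hN0)
  have d1 := (((dM.mul_const z).sub (dxb.const_mul 2)).add ((dM.mul (da.sub dX)).div drl (by rw [brl]; exact hR.ne'))).sub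
    (hk.mul ((((dN2.sub (da.mul dN1)).neg).div_const K.q).sub (dM.mul ((da.mul dRi).sub dIx))))
  have d2 := d1.div_const K.q
  have hev : (fun ε => (K.low (L ε)).M * (K.low (L ε)).j z (k + ε * k')) =ᶠ[𝓝[Ici 0] 0] fun ε =>
      ((K.low (L ε)).M * z - 2 * (K.low (L ε)).xb + (K.low (L ε)).M * ((K.low (L ε)).N 1 / (K.low (L ε)).N 0 - (K.low (L ε)).Xl z) / (K.low (L ε)).rl z -
      (K.p + K.q * (k + ε * k')) * (-((K.low (L ε)).N 2 - (K.low (L ε)).N 1 / (K.low (L ε)).N 0 * (K.low (L ε)).N 1) / K.q -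
        (K.low (L ε)).M * ((K.low (L ε)).N 1 / (K.low (L ε)).N 0 * (K.low (L ε)).Ri z - (K.low (L ε)).Ix z))) / K.q := by
    have h1 : ∀ᶠ ε in 𝓝[Ici 0] 0, (K.low (L ε)).M ≠ 0 := by
      have h2 : Tendsto (fun ε => (K.low (L ε)).M) (𝓝[Ici 0] 0) (𝓝 (K.low (L 0)).M) := dM.continuousWithinAt
      rw [bM] at h2
      exact h2.eventually_ne hMp.ne'
    filter_upwards [h1] with ε hε
    exact Mj_eq (K.low (L ε)) hε (h.nice.ct ε) z (k + ε * k')
  have h00 : (K.low (L 0)).M ≠ 0 := by rw [bM]; exact hMp.ne'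
  have d3 := d2.congr_of_eventuallyEq hev (Mj_eq (K.low (L 0)) h00 (h.nice.ct 0) z (k + 0 * k'))
  refine d3.congr_deriv ?_
  simp only [Pi.mul_apply, Pi.sub_apply, Pi.neg_apply, Pi.div_apply]
  rw [bM, bN 0, bN 1, bN 2, bX, brl, bRi, bIx, zero_mul, add_zero, fv_expand h k]
  have e1 : K.N 0 = K.q * K.D := by
    unfold Dat.D
    rw [mul_div_cancel₀ _ hq]
  have e2 : K.N 1 = K.a * (K.q * K.D) := by
    rw [← e1]
    unfold Dat.a
    rw [div_mul_cancel₀ _ hN0]
  have e3 : K.Xi z = K.a * K.Ri z - K.Ix z := Xi_eq K h.reg.cl z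
  have key := FV2_alg K.q K.p z k k' K.M (K.N 0) (K.N 1) (K.N 2) (K.Xl z) (K.rl z) (K.Ri z) (K.Ix z) K.D K.a (K.Fl z) (K.Xi z) (K.Lam z k) ηz
    (∫ t in (0:ℝ)..z, η t * K.rl t) (∫ t in (0:ℝ)..z, η t * (t * K.rl t)) (∫ t in (0:ℝ)..z, η t * (1 / K.rl t))
    (∫ t in (0:ℝ)..z, η t * (K.rl t * K.Ri t)) (∫ t in (0:ℝ)..z, η t * (K.Xl t / K.rl t)) (∫ t in (0:ℝ)..z, η t * (K.rl t * K.Ix t))
    (∫ t in (0:ℝ)..z, η t * (K.Xl t ^ 2 / K.rl t)) K.psi (K.Phi z) hq hMp.ne' hD.ne' hR.ne' e1 e2 rfl e3 rfl rfl rfl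
  rw [← key]

end LVar

end Pool.Agent.Lib.MP_1dedaf_gt.DK
end

section

/-!
# TASK DK EP VW1: the near lines in the other view

`row_cx`: the rows of an `Ok` body are convex column data. All fields are fields of `Ok` (`hp`, `hh`, `cg`, `cr`, `gr`, `vg`, `vr`) except `fat`: this is the private theorem `A3_rowfat` of file A3 (copy its proof).

`near_row`. `B : Bd`, `Ok`, `0 < g 0`, `0 < l 0`; over `[0, g 0]` the function `l` is covered by `0` and by the (at most `k + 1`) lines `e = (slope, value at 0)` of `T`. In the row view the near arc is the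
graph of `g` over `[0, l 0]`; the edge at `S0 = (0, l 0)` lies on a line `e0 ∈ T`; the others give the near lines of the pair (`y = 0`, line `e0`).

Proof. (0) `hA.sup`, `hA.z0`, `hA.zw` speak about the line `y = l (g 0) + 0 * (x - g 0)`; `l (g 0) = 0`: the point `(g 0, 0)` belongs to the body (`iff`, `gr`), so `l (g 0) ≤ 0`, and `0 ≤ l` on `[0, w]` by `iff` (the point `(x, l x)` belongs to the body by `lu`).
(1) Choice of `e0`: by `cov` at `x = 0` and `l 0 > 0` the set `T.filter (fun e => e.2 = l 0)` is not empty; let `e0` be an element of it with the largest slope (`Finset.exists_max_image`). Write `μ = e0.1`. `μ < 0`, because `μ * g 0 + e0.2 ≤ l (g 0) = 0 < e0.2` (`le` at `g 0`).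
For all `e ∈ T`: `e.2 ≤ l 0 = e0.2` (`le` at `0`); if `e.1 ≤ μ` then `e.1 * x + e.2 ≤ μ * x + e0.2` for all `x ≥ 0`.
(2) `T' := ((T.erase e0).filter (fun e => μ < e.1 ∧ e.1 < 0)).image (fun e => (1 / e.1, - e.2 / e.1))` (the inverse lines `x = (y - e.2) / e.1`). Its cardinality is at most `card T - 1 ≤ k` (`Finset.card_image_le`, `Finset.card_filter_le`, `Finset.card_erase_of_mem`).
(3) `z0`, `zw`: `l 0 ∈ [0, h]`: `(0, l 0)` belongs to the body, `iff`. Also `g (l 0) = 0` (`iff`: `g (l 0) ≤ 0`; and `0 ≤ g` on `[0, h]` since `(g y, y)` belongs to the body by `gr` and `iff`).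
(4) `sup`: for `y ∈ [0, h]`: `g (l 0) + (1/μ) (y - l 0) ≤ g y`, i.e. `(y - e0.2) / μ ≤ g y`. Put `x = g y ≥ 0`; `(x, y)` belongs to the body, so `l x ≤ y`. If `x ≤ g 0`: `μ x + e0.2 ≤ l x ≤ y` (`le`), so `x ≥ (y - e0.2)/μ` (division by `μ < 0`). If `x > g 0`:
`μ x + e0.2 ≤ μ g 0 + e0.2 ≤ l (g 0) = 0 ≤ y`, the same.
(5) `sl`: `1 / e.1 ≤ 1 / μ` if `μ < e.1 < 0` (`one_div_le_one_div_of_neg`).
(6) `le`: for `y ∈ [0, l 0]` and `e ∈ T` with `e.1 < 0`: `(y - e.2)/e.1 ≤ g y`: `x = g y`, as in (4) with `e` instead of `e0` (`e.1 * g 0 + e.2 ≤ l (g 0) = 0`).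
(7) `cov`: for `y ∈ (0, l 0]`: let `x = g y`. Then `x ≤ g 0`: by the intermediate value theorem there is `x' ∈ [0, g 0]` with `l x' = y` (`l (g 0) = 0 ≤ y ≤ l 0`), and `l x' = y ≤ u x'` by `lu`; so `(x', y)`
belongs to the body and `g y ≤ x'`. `l x = y`: `l x ≤ y` since `(x, y)` belongs to the body. If `l x < y` then `x > 0` (else `l 0 < y ≤ l 0`); by continuity there is `x'' < x`, `0 ≤ x''`, with `l x'' < y`; `y ≤ u x''` because `u` is concave on `[0, w]`, `y ≤ l 0 ≤ u 0`, `y ≤ u x`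
(a concave function is `≥ y` between two points where it is `≥ y`); so `(x'', y)` belongs to the body and `g y ≤ x''`, a contradiction. Now `l x = y > 0`, so by `cov` there is `e ∈ T` with `y = e.1 * x + e.2`. `e.1 < 0`: otherwise `e.1 = 0` (`sl`), and `y = e.2 ≤ l (g 0) = 0` (`le` at `g 0`), a contradiction. If `μ < e.1`
then `e ≠ e0` and `g y = x = (y - e.2) / e.1` is the value of a line of `T'`. If `e.1 ≤ μ` then `y = e.1 x + e.2 ≤ μ x + e0.2 ≤ l x = y`, so `x = (y - e0.2)/μ`: the first alternative of `cov` (the line through `(l 0, g (l 0)) = (l 0, 0)` with slope `1/μ`).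
For `y = 0`: the set of the `y ∈ [0, l 0]` with the first alternative or one of the (finitely many) alternatives `e ∈ T'` is closed (a finite union of closed sets, `cg`) and contains `(0, l 0]`, whose closure contains `0`.
-/

set_option autoImplicit false

open MeasureTheory Set Filter Topology

namespace Pool.Agent.Lib.MP_1dedaf_gt.DK

private theorem VW1_rowfat (K : Bd) (h : K.Ok) : ∃ y ∈ Icc 0 K.h, K.g y < K.r y := by
  obtain ⟨x, hx, hlt⟩ := h.fat
  obtain ⟨y, hy1, hy2⟩ := exists_between hlt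
  have hopen : IsOpen {z | K.l z < y ∧ y < K.u z} :=
    (isOpen_lt h.cl continuous_const).inter (isOpen_lt continuous_const h.cu)
  obtain ⟨ε, hε, hball⟩ := Metric.isOpen_iff.1 hopen x ⟨hy1, hy2⟩
  have hex : ∃ z ∈ Icc 0 K.w, z ≠ x ∧ z ∈ Metric.ball x ε := by
    rcases lt_or_ge x K.w with h1 | h1
    · refine ⟨x + min (ε / 2) (K.w - x), ?_, ?_, ?_⟩
      · have h2 : 0 < min (ε / 2) (K.w - x) := lt_min (by linarith) (by linarith)
        exact ⟨by linarith [hx.1], by linarith [min_le_right (ε / 2) (K.w - x)]⟩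
      · have h2 : 0 < min (ε / 2) (K.w - x) := lt_min (by linarith) (by linarith)
        intro h3
        linarith
      · have h2 : 0 < min (ε / 2) (K.w - x) := lt_min (by linarith) (by linarith)
        rw [Metric.mem_ball, Real.dist_eq, add_sub_cancel_left, abs_of_pos h2]
        linarith [min_le_left (ε / 2) (K.w - x)]
    · have hxw : x = K.w := le_antisymm hx.2 h1
      have hw := h.hw
      have h2 : 0 < min (ε / 2) x := lt_min (by linarith) (by linarith)
      refine ⟨x - min (ε / 2) x, ?_, ?_, ?_⟩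
      · exact ⟨by linarith [min_le_right (ε / 2) x], by linarith⟩
      · intro h3
        linarith
      · rw [Metric.mem_ball, Real.dist_eq, sub_sub_cancel_left, abs_neg, abs_of_pos h2]
        linarith [min_le_left (ε / 2) x]
  obtain ⟨z, hz, hzx, hzb⟩ := hex
  have hz2 := hball hzb
  have m1 := (h.iff x y).1 ⟨hx.1, hx.2, hy1.le, hy2.le⟩
  have m2 := (h.iff z y).1 ⟨hz.1, hz.2, hz2.1.le, hz2.2.le⟩
  refine ⟨y, ⟨m1.1, m1.2.1⟩, ?_⟩
  rcases lt_or_gt_of_ne hzx with h3 | h3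
  · linarith [m2.2.2.1, m1.2.2.2]
  · linarith [m1.2.2.1, m2.2.2.2]

theorem row_cx (B : Bd) (h : B.Ok) : B.row.Cx := by
  exact ⟨⟨h.hp, h.hh, h.cg, h.cr, h.gr, VW1_rowfat B h⟩, h.vg, h.vr⟩

theorem near_row (k : ℕ) (B : Bd) (h : B.Ok) (hg : 0 < B.g 0) (hl : 0 < B.l 0) (T : Finset (ℝ × ℝ)) (hT : T.card ≤ k + 1)
    (hA : B.col.Arc T (B.g 0) 0) :
    ∃ e ∈ T, e.1 < 0 ∧ ∃ T' : Finset (ℝ × ℝ), T'.card ≤ k ∧ B.row.Arc T' (B.l 0) (1 / e.1) := by
  classical
  have hmg : ∀ y ∈ Icc 0 B.h, 0 ≤ B.g y ∧ B.g y ≤ B.w ∧ B.l (B.g y) ≤ y ∧ y ≤ B.u (B.g y) := fun y hy =>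
    (h.iff (B.g y) y).2 ⟨hy.1, hy.2, le_refl _, h.gr y hy⟩
  have hml : ∀ x ∈ Icc 0 B.w, 0 ≤ B.l x ∧ B.l x ≤ B.h ∧ B.g (B.l x) ≤ x ∧ x ≤ B.r (B.l x) := fun x hx =>
    (h.iff x (B.l x)).1 ⟨hx.1, hx.2, le_refl _, h.lu x hx⟩
  have h0h : (0 : ℝ) ∈ Icc 0 B.h := ⟨le_refl _, h.hh.le⟩
  have h0w : (0 : ℝ) ∈ Icc 0 B.w := ⟨le_refl _, h.hw.le⟩
  have hg0 := hmg 0 h0h
  have hgw : B.g 0 ≤ B.w := hg0.2.1
  have hlg : B.l (B.g 0) = 0 := le_antisymm hg0.2.2.1 (hml _ ⟨hg0.1, hgw⟩).1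
  have hl0 := hml 0 h0w
  have hlh : B.l 0 ≤ B.h := hl0.2.1
  have hgl : B.g (B.l 0) = 0 := le_antisymm hl0.2.2.1 (hmg _ ⟨hl0.1, hlh⟩).1
  have hle : ∀ e ∈ T, ∀ x ∈ Icc 0 (B.g 0), e.1 * x + e.2 ≤ B.l x := hA.le
  have hcov : ∀ x ∈ Icc 0 (B.g 0), B.l x = 0 ∨ ∃ e ∈ T, B.l x = e.1 * x + e.2 := by
    intro x hx
    rcases hA.cov x hx with h1 | h1
    · left
      have h2 : B.l x = B.l (B.g 0) + 0 * (x - B.g 0) := h1
      rw [h2, hlg]
      ring
    · right
      exact h1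
  have hz : (0 : ℝ) ∈ Icc 0 (B.g 0) := ⟨le_refl _, hg.le⟩
  have hzg : B.g 0 ∈ Icc 0 (B.g 0) := ⟨hg.le, le_refl _⟩
  obtain ⟨e0, he0, he02⟩ : ∃ e ∈ T, e.2 = B.l 0 := by
    rcases hcov 0 hz with h1 | ⟨e, he, h1⟩
    · exact absurd h1 hl.ne'
    · exact ⟨e, he, by rw [h1]; ring⟩
  have hall : ∀ e ∈ T, e.2 ≤ B.l 0 := by
    intro e he
    have h1 := hle e he 0 hz
    rw [mul_zero, zero_add] at h1
    exact h1
  have hallg : ∀ e ∈ T, e.1 * B.g 0 + e.2 ≤ 0 := by
    intro e he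
    have h1 := hle e he _ hzg
    rw [hlg] at h1
    exact h1
  have hmu : e0.1 < 0 := by
    have h1 := hallg e0 he0
    by_contra h2
    have h3 := mul_nonneg (not_lt.1 h2) hg.le
    linarith
  have hlow : ∀ e ∈ T, e.1 < 0 → ∀ y ∈ Icc 0 B.h, e.1 * B.g y + e.2 ≤ y := by
    intro e he hneg y hy
    have h1 := hmg y hy
    rcases le_or_gt (B.g y) (B.g 0) with h2 | h2
    · exact (hle e he _ ⟨h1.1, h2⟩).trans h1.2.2.1
    · have h3 := mul_le_mul_of_nonpos_left h2.le hneg.le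
      have h4 := hallg e he
      linarith [hy.1]
  refine ⟨e0, he0, hmu, ((T.erase e0).filter (fun e => e0.1 < e.1 ∧ e.1 < 0)).image (fun e => (1 / e.1, - e.2 / e.1)), ?_, ?_⟩
  · refine Finset.card_image_le.trans ((Finset.card_filter_le _ _).trans ?_)
    rw [Finset.card_erase_of_mem he0]
    omega
  · set T' : Finset (ℝ × ℝ) := ((T.erase e0).filter (fun e => e0.1 < e.1 ∧ e.1 < 0)).image (fun e => (1 / e.1, - e.2 / e.1)) with hT'
    have hmem : ∀ e' ∈ T', ∃ e ∈ T, e0.1 < e.1 ∧ e.1 < 0 ∧ e' = (1 / e.1, - e.2 / e.1) := by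
      intro e' he'
      rw [hT', Finset.mem_image] at he'
      obtain ⟨e, he, h1⟩ := he'
      rw [Finset.mem_filter] at he
      exact ⟨e, Finset.mem_of_mem_erase he.1, he.2.1, he.2.2, h1.symm⟩
    have hcl : ∀ y ∈ Icc 0 (B.l 0), B.g y = B.g (B.l 0) + 1 / e0.1 * (y - B.l 0) ∨ ∃ e ∈ T', B.g y = e.1 * y + e.2 := by
      have hclosed : IsClosed ({y | B.g y = B.g (B.l 0) + 1 / e0.1 * (y - B.l 0)} ∪ ⋃ e ∈ T', {y | B.g y = e.1 * y + e.2}) := by
        refine (isClosed_eq h.cg (by fun_prop)).union ?_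
        exact isClosed_biUnion_finset fun e _ => isClosed_eq h.cg (by fun_prop)
      have hsub : Ioc 0 (B.l 0) ⊆ ({y | B.g y = B.g (B.l 0) + 1 / e0.1 * (y - B.l 0)} ∪ ⋃ e ∈ T', {y | B.g y = e.1 * y + e.2}) := by
        intro y hy
        have hyh : y ∈ Icc 0 B.h := ⟨hy.1.le, hy.2.trans hlh⟩
        have h1 := hmg y hyh
        have hxw : ∀ x' ∈ Icc 0 B.w, B.l x' = y → B.g y ≤ x' := by
          intro x' hx' h2
          have h3 := (hml x' hx').2.2.1
          rw [h2] at h3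
          exact h3
        have hgy : B.g y ≤ B.g 0 := by
          obtain ⟨x', hx', h2⟩ := intermediate_value_Icc' hg.le h.cl.continuousOn (show y ∈ Icc (B.l (B.g 0)) (B.l 0) from
            ⟨by rw [hlg]; exact hy.1.le, hy.2⟩)
          exact (hxw x' ⟨hx'.1, hx'.2.trans hgw⟩ h2).trans hx'.2
        have hlx : B.l (B.g y) = y := by
          obtain ⟨x', hx', h2⟩ := intermediate_value_Icc' h1.1 h.cl.continuousOn (show y ∈ Icc (B.l (B.g y)) (B.l 0) from
            ⟨h1.2.2.1, hy.2⟩)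
          have h3 := hxw x' ⟨hx'.1, hx'.2.trans h1.2.1⟩ h2
          have h4 : x' = B.g y := le_antisymm hx'.2 h3
          rw [h4] at h2
          exact h2
        have hxI : B.g y ∈ Icc 0 (B.g 0) := ⟨h1.1, hgy⟩
        rcases hcov _ hxI with h2 | ⟨e, he, h2⟩
        · rw [hlx] at h2
          exact absurd h2 hy.1.ne'
        · rw [hlx] at h2
          have hneg : e.1 < 0 := by
            have h3 : e.1 ≤ 0 := hA.sl e he
            rcases lt_or_eq_of_le h3 with h4 | h4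
            · exact h4
            · exfalso
              have h5 := hallg e he
              rw [h4] at h2 h5
              have := hy.1
              linarith
          rcases lt_or_ge e0.1 e.1 with h3 | h3
          · right
            rw [mem_iUnion₂]
            refine ⟨(1 / e.1, - e.2 / e.1), ?_, ?_⟩
            · rw [hT', Finset.mem_image]
              refine ⟨e, ?_, rfl⟩
              rw [Finset.mem_filter]
              refine ⟨Finset.mem_erase.2 ⟨?_, he⟩, h3, hneg⟩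
              intro h4
              rw [h4] at h3
              exact lt_irrefl _ h3
            · show B.g y = 1 / e.1 * y + - e.2 / e.1
              have h5 : B.g y = (y - e.2) / e.1 := by
                rw [eq_div_iff hneg.ne]
                linarith
              rw [h5]
              ring
          · left
            show B.g y = B.g (B.l 0) + 1 / e0.1 * (y - B.l 0)
            have h4 := hle e0 he0 _ hxI
            rw [hlx] at h4
            have h5 := mul_le_mul_of_nonneg_right h3 h1.1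
            have h6 := hall e he
            have h7 : y = e0.1 * B.g y + e0.2 := le_antisymm (by rw [he02]; linarith) h4
            have h8 : B.g y = (y - B.l 0) / e0.1 := by
              rw [eq_div_iff hmu.ne]
              rw [← he02]
              linarith
            rw [hgl, h8]
            ring
      intro y hy
      have h1 : y ∈ closure (Ioc 0 (B.l 0)) := by
        rw [closure_Ioc hl.ne]
        exact hy
      have h2 := (hclosed.closure_subset_iff.2 hsub) h1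
      rcases h2 with h3 | h3
      · left
        exact h3
      · right
        rw [mem_iUnion₂] at h3
        obtain ⟨e, he, h4⟩ := h3
        exact ⟨e, he, h4⟩
    refine
      { z0 := hl.le
        zw := hlh
        sup := ?_
        sl := ?_
        le := ?_
        cov := hcl }
    · intro y hy
      show B.g (B.l 0) + 1 / e0.1 * (y - B.l 0) ≤ B.g y
      have h1 := hlow e0 he0 hmu y hy
      have h2 : (y - B.l 0) / e0.1 ≤ B.g y := by
        rw [div_le_iff_of_neg hmu, ← he02]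
        linarith
      rw [hgl]
      have h3 : 0 + 1 / e0.1 * (y - B.l 0) = (y - B.l 0) / e0.1 := by ring
      rw [h3]
      exact h2
    · intro e' he'
      obtain ⟨e, he, h1, h2, h3⟩ := hmem e' he'
      rw [h3]
      exact (one_div_le_one_div_of_neg h2 hmu).2 h1.le
    · intro e' he' y hy
      obtain ⟨e, he, h1, h2, h3⟩ := hmem e' he'
      rw [h3]
      show 1 / e.1 * y + - e.2 / e.1 ≤ B.g y
      have h4 := hlow e he h2 y ⟨hy.1, hy.2.trans hlh⟩
      have h5 : (y - e.2) / e.1 ≤ B.g y := by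
        rw [div_le_iff_of_neg h2]
        linarith
      have h6 : 1 / e.1 * y + - e.2 / e.1 = (y - e.2) / e.1 := by ring
      rw [h6]
      exact h5

end Pool.Agent.Lib.MP_1dedaf_gt.DK
end
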