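import Pool.Agent.Lib.MP_1dedaf_gt.DK.TN.B1
import Pool.Agent.Lib.MP_1dedaf_gt.DK.A3
import Pool.Agent.Lib.MP_1dedaf_gt.DK.C1b
import Pool.Agent.Lib.MP_1dedaf_gt.Mg.G004

section

/-!
# TASK TN B2: pointwise lower bounds of the column integrand, densities decreasing

`K` corner-filled, `p < 0`, `q < 0`, `x1 = r 0`, `y1 = u 0`, `(x1, y1)` in the body. Write `α = - p > 0`, `β = - q > 0`, `e x := ee q (u x) = ∫_0^{u x} e^{q t} dt`, `Ss = e 0 = ee q y1 = ∫_0^{y1} e^{q t} dt`.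
`uge`: `u ≥ y1` on `[0, x1]` (`u` concave, `u 0 = y1`, `u x1 ≥ y1`). `umin`: `min (u 0) (u x) ≤ u t` for `0 ≤ t ≤ x` (concave).
`Yu_e`: `Yu x = e^{p x} e x - p ∫_0^x e^{p t} e t dt`: by `Yu_eq`, `ru = e^{p x}(1 + q e x)` and `∫_0^x e^{p t} dt = (e^{p x} - 1)/p`.
`Pl_nonneg`: with `E t := 1/rl t = exp (- p t - q l t)`: `q Pl x = 1 - E x - p ∫_0^x E`. `l` is nondecreasing, `l 0 = 0`, so with `λ t = e^{-p t}` and `F t = exp (- q l t)` (`1 = F 0 ≤ F t ≤ F x` as `-q > 0`) `E = λ F`; `- p > 0`: `- p ∫_0^x λ F ≤ F x (λ x - 1)`, so `q Pl x ≤ 1 - F x λ x + F x (λ x - 1) = 1 - F x ≤ 0`, hence `Pl x ≥ 0`.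
On `[0, x1]`: `l = 0`, `Pl x = 0` (`1 - e^{-p x} = p ∫_0^x e^{-p t} dt`).
`left_le` (`0 ≤ x ≤ x1`): `e t ≥ Ss` for `t ≤ x`, so `Yu x ≥ e^{p x} e x + Ss (1 - e^{p x})`, `Yu x - Ss ≥ e^{p x} (e x - Ss) ≥ 0`; `nu x = e^{-p x} ee (-q) (u x) > 0` (`l x = 0`). So `(Yu x - Ss) nu x ≥ (e x - Ss) ee (-q) (u x)`. With `s = u x - y1 ≥ 0`: `e x - Ss = e^{-β y1}(1 - e^{-β s})/β`,
`ee (-q) (u x) = (e^{β (y1 + s)} - 1)/β`, the product is `(e^{β s} - 1)(1 - e^{-β (y1 + s)})/β²` and `Ss * ee (-q) s = (1 - e^{-β y1})(e^{β s} - 1)/β²`. So it is `≥ Ss * ee (-q) s`, strictly if `s > 0`.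
`right_le` (`x1 ≤ x ≤ w`): `Pl x * mu x ≥ 0` (`mu_nonneg`). If `u x ≥ y1`: `e t ≥ Ss` for all `t ≤ x` (`umin`), so `Yu x ≥ Ss`, `nu x ≥ 0`, and the right side is `≤ 0`. If `u x < y1`: `e t ≥ Ss` for `t ≤ x1`, `e t ≥ e x` for `x1 ≤ t ≤ x`, so
`Yu x ≥ e^{p x} e x + Ss (1 - e^{p x1}) + e x (e^{p x1} - e^{p x})`, that is `Yu x - Ss ≥ - e^{p x1} (Ss - e x)`; `nu x = e^{-p x} ∫_{l x}^{u x} e^{β y} dy ≤ e^{-p x} e^{β u x} (u x - l x)`, and `(Ss - e x) e^{β u x} = ∫_{u x}^{y1} e^{-β (t - u x)} dt = ∫_0^{y1 - u x} e^{-β t} dt ≤ Ss` (as `0 ≤ u x`).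
So `(Yu x - Ss) nu x ≥ - e^{-p (x - x1)} Ss (u x - l x)`, and `max (min (u x) y1 - l x) 0 = u x - l x`. (`ee k x = ∫_0^x e^{k t} dt` for `k ≠ 0`.)
-/

set_option autoImplicit false

open MeasureTheory Set Filter Topology

namespace Pool.Agent.Lib.MP_1dedaf_gt.DK

private theorem B2_ee_le (k : ℝ) (hk : k ≠ 0) {a b : ℝ} (h : a ≤ b) : ee k a ≤ ee k b := by
  unfold ee
  rcases lt_or_gt_of_ne hk with h1 | h1
  · have h2 : Real.exp (k * b) ≤ Real.exp (k * a) := Real.exp_le_exp.2 (by nlinarith)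
    exact div_le_div_of_nonpos_of_le h1.le (by linarith)
  · have h2 : Real.exp (k * a) ≤ Real.exp (k * b) := Real.exp_le_exp.2 (by nlinarith)
    exact div_le_div_of_nonneg_right (by linarith) h1.le

private theorem B2_ee_zero (k : ℝ) : ee k 0 = 0 := by
  unfold ee
  simp

private theorem B2_ee_nonneg (k : ℝ) (hk : k ≠ 0) {b : ℝ} (h : 0 ≤ b) : 0 ≤ ee k b := by
  have := B2_ee_le k hk h
  rwa [B2_ee_zero] at this

private theorem B2_intexp (k : ℝ) (hk : k ≠ 0) (a b : ℝ) :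
    ∫ t in a..b, Real.exp (k * t) = (Real.exp (k * b) - Real.exp (k * a)) / k := by
  have h1 : ∀ t ∈ uIcc a b, HasDerivAt (fun t => Real.exp (k * t) / k) (Real.exp (k * t)) t := by
    intro t _
    have h2 := ((hasDerivAt_id t).const_mul k).exp.div_const k
    have h3 : Real.exp (k * id t) * (k * 1) / k = Real.exp (k * t) := by
      simp only [id, mul_one]
      field_simp
    rw [h3] at h2
    exact h2
  rw [intervalIntegral.integral_eq_sub_of_hasDerivAt h1
    (Continuous.intervalIntegrable (by fun_prop) _ _)]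
  ring

private theorem B2_econt (K : Bd) (h : K.CF) : Continuous fun t => Real.exp (K.p * t) * ee K.q (K.u t) := by
  unfold ee
  have := h.cu
  fun_prop

private theorem B2_int (K : Bd) (h : K.CF) (hp : K.p < 0) (a b c : ℝ) (hab : a ≤ b)
    (hc : ∀ t ∈ Icc a b, c ≤ ee K.q (K.u t)) :
    c * (Real.exp (K.p * a) - Real.exp (K.p * b)) ≤ -(K.p * ∫ t in a..b, Real.exp (K.p * t) * ee K.q (K.u t)) := by
  have h1 : ∫ t in a..b, Real.exp (K.p * t) * c ≤ ∫ t in a..b, Real.exp (K.p * t) * ee K.q (K.u t) := by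
    refine intervalIntegral.integral_mono_on hab (Continuous.intervalIntegrable (by fun_prop) _ _)
      ((B2_econt K h).intervalIntegrable _ _) fun t ht => ?_
    exact mul_le_mul_of_nonneg_left (hc t ht) (Real.exp_pos _).le
  rw [intervalIntegral.integral_mul_const, B2_intexp K.p hp.ne] at h1
  have hp0 : K.p ≠ 0 := hp.ne
  have h2 : (Real.exp (K.p * b) - Real.exp (K.p * a)) / K.p * c * K.p = (Real.exp (K.p * b) - Real.exp (K.p * a)) * c := by
    field_simp
  nlinarith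

private theorem B2_umin (K : Bd) (h : K.CF) {a b t : ℝ} (ha : a ∈ Icc 0 K.w) (hb : b ∈ Icc 0 K.w) (ht : t ∈ Icc a b) :
    min (K.u a) (K.u b) ≤ K.u t :=
  h.vu.min_le_of_mem_Icc ha hb ht

theorem uge (K : Bd) (h : K.CF) (hm : K.mem (K.r 0) (K.u 0)) (x : ℝ) (h0 : 0 ≤ x) (h1 : x ≤ K.r 0) : K.u 0 ≤ K.u x := by
  have h2 := B2_umin K h (⟨le_refl _, h.hw.le⟩ : (0:ℝ) ∈ Icc 0 K.w) (⟨hm.1, hm.2.1⟩ : K.r 0 ∈ Icc 0 K.w)
    (⟨h0, h1⟩ : x ∈ Icc 0 (K.r 0))
  have h3 : K.u 0 ≤ K.u (K.r 0) := hm.2.2.2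
  rwa [min_eq_left h3] at h2

theorem Yu_e (K : Bd) (h : K.CF) (x : ℝ) :
    K.col.Yu x = Real.exp (K.p * x) * ee K.q (K.u x) - K.p * ∫ t in (0:ℝ)..x, Real.exp (K.p * t) * ee K.q (K.u t) := by
  have hR : K.col.Reg := (cf_facts K h).2.2.2.2.2.2.2.2.2.2.1
  have hq := h.hq
  have hp := h.hp
  have hru : ∀ t, K.col.ru t = Real.exp (K.p * t) + K.q * (Real.exp (K.p * t) * ee K.q (K.u t)) := by
    intro t
    show Real.exp (K.p * t + K.q * K.u t) = _
    unfold ee
    rw [Real.exp_add]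
    field_simp
    ring
  rw [Dat.Yu_eq K.col hR x]
  have h1 : ∫ t in (0:ℝ)..x, K.col.ru t = (Real.exp (K.p * x) - 1) / K.p +
      K.q * ∫ t in (0:ℝ)..x, Real.exp (K.p * t) * ee K.q (K.u t) := by
    rw [intervalIntegral.integral_congr (g := fun t => Real.exp (K.p * t) + K.q * (Real.exp (K.p * t) * ee K.q (K.u t)))
      (fun t _ => hru t)]
    rw [intervalIntegral.integral_add (Continuous.intervalIntegrable (by fun_prop) _ _)
      (((B2_econt K h).const_mul _).intervalIntegrable _ _), intervalIntegral.integral_const_mul, B2_intexp K.p hp]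
    simp
  rw [h1, hru x]
  show (_ - 1 - K.p * _) / K.q = _
  field_simp
  ring

private theorem B2_cf (K : Bd) (h : K.CF) : K.l 0 = 0 ∧ 0 ≤ K.u 0 ∧ 0 ≤ K.r 0 ∧ (∀ x ∈ Icc 0 K.w, 0 ≤ K.l x) ∧
    (∀ x, 0 ≤ x → x ≤ K.r 0 → x ≤ K.w ∧ K.l x = 0) ∧ K.r 0 ≤ K.w ∧ K.col.Reg := by
  obtain ⟨h1, -, h3, h4, h5, -, h7, -, h9, -, h11, -⟩ := cf_facts K h
  exact ⟨h1, h3, h4, h5, fun x a b => ⟨(h7 x a b).1, (h7 x a b).2.1⟩, h9, h11⟩

theorem Pl_nonneg (K : Bd) (h : K.CF) (hp : K.p < 0) (hq : K.q < 0) (x : ℝ) (h0 : 0 ≤ x) (h1 : x ≤ K.w) : 0 ≤ K.col.Pl x := by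
  obtain ⟨hl0, -, -, hl, -⟩ := B2_cf K h
  have hmono := (Bd.l_mono K h).1
  have hE : ∀ t, 1 / K.col.rl t = Real.exp (-K.p * t) * Real.exp (-K.q * K.l t) := by
    intro t
    show 1 / Real.exp (K.p * t + K.q * K.l t) = _
    rw [one_div, ← Real.exp_neg, ← Real.exp_add]
    congr 1
    ring
  have hx : x ∈ Icc 0 K.w := ⟨h0, h1⟩
  have hF1 : 1 ≤ Real.exp (-K.q * K.l x) := Real.one_le_exp (mul_nonneg (by linarith) (hl x hx))
  have h2 : ∫ t in (0:ℝ)..x, 1 / K.col.rl t ≤ ∫ t in (0:ℝ)..x, Real.exp (-K.p * t) * Real.exp (-K.q * K.l x) := by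
    refine intervalIntegral.integral_mono_on h0 ?_ (Continuous.intervalIntegrable (by fun_prop) _ _) fun t ht => ?_
    · refine Continuous.intervalIntegrable ?_ _ _
      have h3 : (fun t => 1 / K.col.rl t) = fun t => Real.exp (-K.p * t) * Real.exp (-K.q * K.l t) := funext hE
      rw [h3]
      have := h.cl
      fun_prop
    · rw [hE]
      have h4 : K.l t ≤ K.l x := hmono ⟨ht.1, ht.2.trans h1⟩ hx ht.2
      exact mul_le_mul_of_nonneg_left (Real.exp_le_exp.2 (by nlinarith)) (Real.exp_pos _).le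
  rw [intervalIntegral.integral_mul_const, B2_intexp (-K.p) (by linarith)] at h2
  have h3 : (Real.exp (-K.p * x) - Real.exp (-K.p * 0)) / -K.p * Real.exp (-K.q * K.l x) * (-K.p) =
      (Real.exp (-K.p * x) - 1) * Real.exp (-K.q * K.l x) := by
    have hp0 : -K.p ≠ 0 := by linarith
    rw [mul_zero, Real.exp_zero, mul_assoc, mul_comm (Real.exp (-K.q * K.l x)) (-K.p), ← mul_assoc, div_mul_cancel₀ _ hp0]
  have h5 : -K.p * ∫ t in (0:ℝ)..x, 1 / K.col.rl t ≤ (Real.exp (-K.p * x) - 1) * Real.exp (-K.q * K.l x) := by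
    rw [← h3]
    have := mul_le_mul_of_nonneg_right h2 (by linarith : 0 ≤ -K.p)
    linarith
  unfold Dat.Pl
  have h6 : 1 - 1 / K.col.rl x - K.col.p * ∫ t in (0:ℝ)..x, 1 / K.col.rl t ≤ 0 := by
    rw [hE x]
    show 1 - _ - K.p * _ ≤ 0
    nlinarith
  exact div_nonneg_of_nonpos h6 hq.le

private theorem B2_nu (K : Bd) (x : ℝ) :
    K.col.nu x = Real.exp (-K.p * x) * ((Real.exp (-K.q * K.l x) - Real.exp (-K.q * K.u x)) / K.q) := by
  show (1 / Real.exp (K.p * x + K.q * K.l x) - 1 / Real.exp (K.p * x + K.q * K.u x)) / K.q = _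
  rw [one_div, ← Real.exp_neg, one_div, ← Real.exp_neg]
  have e1 : Real.exp (-(K.p * x + K.q * K.l x)) = Real.exp (-K.p * x) * Real.exp (-K.q * K.l x) := by
    rw [← Real.exp_add]
    congr 1
    ring
  have e2 : Real.exp (-(K.p * x + K.q * K.u x)) = Real.exp (-K.p * x) * Real.exp (-K.q * K.u x) := by
    rw [← Real.exp_add]
    congr 1
    ring
  rw [e1, e2]
  ring

private theorem B2_nu_nonneg (K : Bd) (h : K.CF) (x : ℝ) (hx : x ∈ Icc 0 K.w) : 0 ≤ K.col.nu x := by
  rw [B2_nu]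
  refine mul_nonneg (Real.exp_pos _).le ?_
  have h1 := h.lu x hx
  rcases lt_or_gt_of_ne h.hq with h2 | h2
  · have h3 : Real.exp (-K.q * K.l x) ≤ Real.exp (-K.q * K.u x) := Real.exp_le_exp.2 (by nlinarith)
    exact div_nonneg_of_nonpos (by linarith) h2.le
  · have h3 : Real.exp (-K.q * K.u x) ≤ Real.exp (-K.q * K.l x) := Real.exp_le_exp.2 (by nlinarith)
    exact div_nonneg (by linarith) h2.le

private theorem B2_left (K : Bd) (h : K.CF) (hp : K.p < 0) (hq : K.q < 0) (hm : K.mem (K.r 0) (K.u 0)) (x : ℝ) (h0 : 0 ≤ x)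
    (h1 : x ≤ K.r 0) :
    ∃ c : ℝ, 0 ≤ c ∧ (K.u 0 < K.u x → 0 < c) ∧
      K.Ss * ee (-K.q) (K.u x - K.u 0) + c ≤ (K.col.Yu x - K.Ss) * K.col.nu x + K.col.Pl x * K.col.mu x := by
  obtain ⟨hl0, hu0, hr0, hl, hb, hrw, hR⟩ := B2_cf K h
  have hx : x ∈ Icc 0 K.w := ⟨h0, h1.trans hrw⟩
  have hlx : K.l x = 0 := (hb x h0 h1).2
  have hP := mul_nonneg (Pl_nonneg K h hp hq x h0 hx.2) (Dat.mu_nonneg K.col hR x hx)
  have hint := B2_int K h hp 0 x K.Ss h0 fun t ht => B2_ee_le K.q h.hq (uge K h hm t ht.1 (ht.2.trans h1))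
  rw [mul_zero, Real.exp_zero] at hint
  have hY : Real.exp (K.p * x) * (ee K.q (K.u x) - K.Ss) ≤ K.col.Yu x - K.Ss := by
    rw [Yu_e K h x]
    nlinarith
  have hnu : K.col.nu x = Real.exp (-K.p * x) * ee (-K.q) (K.u x) := by
    rw [B2_nu, hlx]
    unfold ee
    rw [mul_zero, Real.exp_zero]
    have := h.hq
    congr 1
    rw [div_neg, ← neg_div]
    congr 1
    ring
  have hnn : 0 ≤ K.col.nu x := B2_nu_nonneg K h x hx
  have hee : Real.exp (K.p * x) * Real.exp (-K.p * x) = 1 := by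
    rw [← Real.exp_add]
    simp
  have h2 : (ee K.q (K.u x) - K.Ss) * ee (-K.q) (K.u x) ≤ (K.col.Yu x - K.Ss) * K.col.nu x := by
    have h3 := mul_le_mul_of_nonneg_right hY hnn
    refine le_trans (le_of_eq ?_) h3
    rw [hnu]
    calc (ee K.q (K.u x) - K.Ss) * ee (-K.q) (K.u x)
        = (Real.exp (K.p * x) * Real.exp (-K.p * x)) * ((ee K.q (K.u x) - K.Ss) * ee (-K.q) (K.u x)) := by
          rw [hee, one_mul]
      _ = _ := by ring
  set s : ℝ := K.u x - K.u 0 with hs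
  have hux : K.u x = K.u 0 + s := by rw [hs]; ring
  refine ⟨Real.exp (K.q * K.u 0) * Real.exp (-K.q * s) * (Real.exp (K.q * s) - 1) ^ 2 / K.q ^ 2, by positivity, ?_, ?_⟩
  · intro h3
    have h4 : 0 < s := by rw [hs]; linarith
    have h5 : Real.exp (K.q * s) < 1 := by
      rw [Real.exp_lt_one_iff]
      nlinarith
    have h6 : 0 < (Real.exp (K.q * s) - 1) ^ 2 := by
      have : Real.exp (K.q * s) - 1 ≠ 0 := by linarith
      positivity
    have h7 : 0 < K.q ^ 2 := by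
      have := h.hq
      positivity
    positivity
  · have h3 : (ee K.q (K.u x) - K.Ss) * ee (-K.q) (K.u x) = K.Ss * ee (-K.q) s +
        Real.exp (K.q * K.u 0) * Real.exp (-K.q * s) * (Real.exp (K.q * s) - 1) ^ 2 / K.q ^ 2 := by
      unfold Bd.Ss
      rw [hux]
      unfold ee
      have hq0 := h.hq
      have e1 : Real.exp (K.q * (K.u 0 + s)) = Real.exp (K.q * K.u 0) * Real.exp (K.q * s) := by
        rw [← Real.exp_add]
        congr 1
        ring
      have e2 : Real.exp (-K.q * (K.u 0 + s)) = (Real.exp (K.q * K.u 0))⁻¹ * (Real.exp (K.q * s))⁻¹ := by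
        rw [← Real.exp_neg, ← Real.exp_neg, ← Real.exp_add]
        congr 1
        ring
      have e3 : Real.exp (-K.q * s) = (Real.exp (K.q * s))⁻¹ := by
        rw [← Real.exp_neg]
        congr 1
        ring
      rw [e1, e2, e3]
      have hA := Real.exp_pos (K.q * K.u 0)
      have hB := Real.exp_pos (K.q * s)
      generalize Real.exp (K.q * K.u 0) = A at *
      generalize Real.exp (K.q * s) = B at *
      field_simp
      ring
    linarith

theorem left_le (K : Bd) (h : K.CF) (hp : K.p < 0) (hq : K.q < 0) (hm : K.mem (K.r 0) (K.u 0)) (x : ℝ) (h0 : 0 ≤ x) (h1 : x ≤ K.r 0) :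
    K.Ss * ee (-K.q) (K.u x - K.u 0) ≤ (K.col.Yu x - K.Ss) * K.col.nu x + K.col.Pl x * K.col.mu x := by
  obtain ⟨c, h2, -, h3⟩ := B2_left K h hp hq hm x h0 h1
  linarith

theorem left_lt (K : Bd) (h : K.CF) (hp : K.p < 0) (hq : K.q < 0) (hm : K.mem (K.r 0) (K.u 0)) (x : ℝ) (h0 : 0 ≤ x) (h1 : x ≤ K.r 0)
    (h2 : K.u 0 < K.u x) :
    K.Ss * ee (-K.q) (K.u x - K.u 0) < (K.col.Yu x - K.Ss) * K.col.nu x + K.col.Pl x * K.col.mu x := by
  obtain ⟨c, -, h3, h4⟩ := B2_left K h hp hq hm x h0 h1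
  linarith [h3 h2]

theorem right_le (K : Bd) (h : K.CF) (hp : K.p < 0) (hq : K.q < 0) (hm : K.mem (K.r 0) (K.u 0)) (x : ℝ) (h0 : K.r 0 ≤ x) (h1 : x ≤ K.w) :
    - (K.Ss * (Real.exp (-K.p * (x - K.r 0)) * max (min (K.u x) (K.u 0) - K.l x) 0)) ≤
      (K.col.Yu x - K.Ss) * K.col.nu x + K.col.Pl x * K.col.mu x := by
  obtain ⟨hl0, hu0, hr0, hl, hb, hrw, hR⟩ := B2_cf K h
  have hx0 : 0 ≤ x := hr0.trans h0
  have hx : x ∈ Icc 0 K.w := ⟨hx0, h1⟩
  have hP := mul_nonneg (Pl_nonneg K h hp hq x hx0 hx.2) (Dat.mu_nonneg K.col hR x hx)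
  have hnn : 0 ≤ K.col.nu x := B2_nu_nonneg K h x hx
  have hSs : 0 ≤ K.Ss := B2_ee_nonneg K.q h.hq hu0
  have hux0 : 0 ≤ K.u x := (hl x hx).trans (h.lu x hx)
  rcases le_or_gt (K.u 0) (K.u x) with hc | hc
  · have hint := B2_int K h hp 0 x K.Ss hx0 fun t ht => B2_ee_le K.q h.hq (by
      have := B2_umin K h (⟨le_refl _, h.hw.le⟩ : (0:ℝ) ∈ Icc 0 K.w) hx ht
      rwa [min_eq_left hc] at this)
    rw [mul_zero, Real.exp_zero] at hint
    have hY : 0 ≤ K.col.Yu x - K.Ss := by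
      have h2 : Real.exp (K.p * x) * (ee K.q (K.u x) - K.Ss) ≤ K.col.Yu x - K.Ss := by
        rw [Yu_e K h x]
        nlinarith
      refine le_trans (mul_nonneg (Real.exp_pos _).le ?_) h2
      exact sub_nonneg.2 (B2_ee_le K.q h.hq hc)
    have h3 := mul_nonneg hY hnn
    have h4 : 0 ≤ K.Ss * (Real.exp (-K.p * (x - K.r 0)) * max (min (K.u x) (K.u 0) - K.l x) 0) :=
      mul_nonneg hSs (mul_nonneg (Real.exp_pos _).le (le_max_right _ _))
    linarith
  · have hul := h.lu x hx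
    rw [min_eq_left hc.le, max_eq_left (sub_nonneg.2 hul)]
    have hrm : K.r 0 ∈ Icc 0 K.w := ⟨hr0, hrw⟩
    have hint1 := B2_int K h hp 0 (K.r 0) K.Ss hr0 fun t ht => B2_ee_le K.q h.hq (uge K h hm t ht.1 ht.2)
    have hint2 := B2_int K h hp (K.r 0) x (ee K.q (K.u x)) h0 fun t ht => B2_ee_le K.q h.hq (by
      have h5 := B2_umin K h hrm hx ht
      have h6 : K.u 0 ≤ K.u (K.r 0) := hm.2.2.2
      rwa [min_eq_right (hc.le.trans h6)] at h5)
    rw [mul_zero, Real.exp_zero] at hint1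
    have hadd : (∫ t in (0:ℝ)..(K.r 0), Real.exp (K.p * t) * ee K.q (K.u t)) +
        (∫ t in (K.r 0)..x, Real.exp (K.p * t) * ee K.q (K.u t)) =
        ∫ t in (0:ℝ)..x, Real.exp (K.p * t) * ee K.q (K.u t) :=
      intervalIntegral.integral_add_adjacent_intervals ((B2_econt K h).intervalIntegrable _ _)
        ((B2_econt K h).intervalIntegrable _ _)
    have hY : -(Real.exp (K.p * K.r 0) * (K.Ss - ee K.q (K.u x))) ≤ K.col.Yu x - K.Ss := by
      rw [Yu_e K h x, ← hadd]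
      nlinarith
    have hnu : K.col.nu x ≤ Real.exp (-K.p * x) * (Real.exp (-K.q * K.u x) * (K.u x - K.l x)) := by
      rw [B2_nu]
      refine mul_le_mul_of_nonneg_left ?_ (Real.exp_pos _).le
      rw [div_le_iff_of_neg hq]
      have e1 : Real.exp (-K.q * K.l x) = Real.exp (-K.q * K.u x) * Real.exp (K.q * (K.u x - K.l x)) := by
        rw [← Real.exp_add]
        congr 1
        ring
      have e2 := Real.add_one_le_exp (K.q * (K.u x - K.l x))
      have e3 := Real.exp_pos (-K.q * K.u x)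
      rw [e1]
      nlinarith [mul_le_mul_of_nonneg_left e2 e3.le]
    have hd : (K.Ss - ee K.q (K.u x)) * Real.exp (-K.q * K.u x) ≤ K.Ss := by
      have e1 : (K.Ss - ee K.q (K.u x)) * Real.exp (-K.q * K.u x) = ee K.q (K.u 0 - K.u x) := by
        unfold Bd.Ss ee
        have hq0 := h.hq
        have e2 : Real.exp (K.q * (K.u 0 - K.u x)) = Real.exp (K.q * K.u 0) * Real.exp (-K.q * K.u x) := by
          rw [← Real.exp_add]
          congr 1
          ring
        have e3 : Real.exp (K.q * K.u x) * Real.exp (-K.q * K.u x) = 1 := by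
          rw [← Real.exp_add]
          simp
        rw [e2, ← sub_div, div_mul_eq_mul_div]
        congr 1
        linarith
      rw [e1]
      exact B2_ee_le K.q h.hq (by linarith)
    have hd0 : 0 ≤ K.Ss - ee K.q (K.u x) := sub_nonneg.2 (B2_ee_le K.q h.hq hc.le)
    have h5 : Real.exp (K.p * K.r 0) * (K.Ss - ee K.q (K.u x)) * K.col.nu x ≤
        K.Ss * (Real.exp (-K.p * (x - K.r 0)) * (K.u x - K.l x)) := by
      have e0 : Real.exp (K.p * K.r 0) * Real.exp (-K.p * x) = Real.exp (-K.p * (x - K.r 0)) := by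
        rw [← Real.exp_add]
        congr 1
        ring
      have e1 : Real.exp (K.p * K.r 0) * (K.Ss - ee K.q (K.u x)) * K.col.nu x ≤
          Real.exp (K.p * K.r 0) * (K.Ss - ee K.q (K.u x)) *
            (Real.exp (-K.p * x) * (Real.exp (-K.q * K.u x) * (K.u x - K.l x))) :=
        mul_le_mul_of_nonneg_left hnu (mul_nonneg (Real.exp_pos _).le hd0)
      have e2 : Real.exp (K.p * K.r 0) * (K.Ss - ee K.q (K.u x)) *
            (Real.exp (-K.p * x) * (Real.exp (-K.q * K.u x) * (K.u x - K.l x))) =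
          ((K.Ss - ee K.q (K.u x)) * Real.exp (-K.q * K.u x)) *
            (Real.exp (-K.p * (x - K.r 0)) * (K.u x - K.l x)) := by
        rw [← e0]
        ring
      have e3 : ((K.Ss - ee K.q (K.u x)) * Real.exp (-K.q * K.u x)) *
            (Real.exp (-K.p * (x - K.r 0)) * (K.u x - K.l x)) ≤
          K.Ss * (Real.exp (-K.p * (x - K.r 0)) * (K.u x - K.l x)) :=
        mul_le_mul_of_nonneg_right hd (mul_nonneg (Real.exp_pos _).le (sub_nonneg.2 hul))
      linarith
    have h6 := mul_le_mul_of_nonneg_right hY hnn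
    linarith

end Pool.Agent.Lib.MP_1dedaf_gt.DK
end

section

/-!
# TASK TN B3: the column inequality

`gU` is the integral of `exp (-q (y - y1))` over the part of the body over `[0, x1]` above `y1`, `gV` the integral of `exp (-p (x - x1))` over the part to the right of `x1` below `y1`. Proof. `D b - Ss D = ∫_0^w ((Yu - Ss) nu + Pl mu)` (`Db_formula`, `D_nu`); split at `x1 = r 0 ∈ [0, w]` (`cf_facts`) and use
`left_le`, `right_le` (all functions are continuous: `nu_cont`, `Pl_cont`, `mu_cont`, `Yu` is continuous). Strict version: if `u 0 < u x` for some `x ∈ (0, x1)`, the continuous difference of both sides of `left_le` is `≥ 0` on `[0, x1]` and positive at `x`, so its integral is positive.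
-/

set_option autoImplicit false

open MeasureTheory Set Filter Topology

namespace Pool.Agent.Lib.MP_1dedaf_gt.DK

/-- The upper pocket. -/
noncomputable def Bd.gU (K : Bd) : ℝ := ∫ x in (0:ℝ)..(K.r 0), ee (-K.q) (K.u x - K.u 0)

/-- The right pocket. -/
noncomputable def Bd.gV (K : Bd) : ℝ := ∫ x in (K.r 0)..K.w, Real.exp (-K.p * (x - K.r 0)) * max (min (K.u x) (K.u 0) - K.l x) 0

private theorem B3_ee_cont {k : ℝ} {f : ℝ → ℝ} (hf : Continuous f) : Continuous (fun x => ee k (f x)) := by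
  unfold ee
  exact ((Real.continuous_exp.comp (continuous_const.mul hf)).sub continuous_const).div_const _

private theorem B3_Yu_cont (K : Bd) (h : K.CF) : Continuous K.col.Yu := by
  have h1 : K.col.Yu = fun x => Real.exp (K.p * x) * ee K.q (K.u x) - K.p * ∫ t in (0:ℝ)..x, Real.exp (K.p * t) * ee K.q (K.u t) :=
    funext fun x => Yu_e K h x
  rw [h1]
  have h2 : Continuous (fun t => Real.exp (K.p * t) * ee K.q (K.u t)) :=
    (Real.continuous_exp.comp (continuous_const.mul continuous_id)).mul (B3_ee_cont h.cu)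
  exact h2.sub (continuous_const.mul (intervalIntegral.continuous_primitive (fun a b => h2.intervalIntegrable a b) 0))

/-- The integrand minus `Ss * nu`. -/
private noncomputable def B3_F (K : Bd) (x : ℝ) : ℝ := (K.col.Yu x - K.Ss) * K.col.nu x + K.col.Pl x * K.col.mu x

private theorem B3_F_cont (K : Bd) (h : K.CF) : Continuous (B3_F K) :=
  ((B3_Yu_cont K h).sub continuous_const).mul (K.col.nu_cont h.cl h.cu) |>.add
    ((K.col.Pl_cont h.cl).mul (K.col.mu_cont h.cl h.cu))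

private theorem B3_eq (K : Bd) (h : K.CF) :
    K.col.D * K.col.b - K.Ss * K.col.D = (∫ x in (0:ℝ)..K.r 0, B3_F K x) + ∫ x in (K.r 0)..K.w, B3_F K x := by
  have hreg : K.col.Reg := (cf_facts K h).2.2.2.2.2.2.2.2.2.2.1
  have hcY := B3_Yu_cont K h
  have hcn : Continuous K.col.nu := K.col.nu_cont h.cl h.cu
  have hcP : Continuous K.col.Pl := K.col.Pl_cont h.cl
  have hcm : Continuous K.col.mu := K.col.mu_cont h.cl h.cu
  have hF := B3_F_cont K h
  rw [intervalIntegral.integral_add_adjacent_intervals (hF.intervalIntegrable _ _) (hF.intervalIntegrable _ _),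
    K.col.Db_formula hreg]
  conv_lhs => rw [K.col.D_nu hreg]
  change (∫ x in (0:ℝ)..K.w, (K.col.Yu x * K.col.nu x + K.col.Pl x * K.col.mu x)) - K.Ss * (∫ x in (0:ℝ)..K.w, K.col.nu x) = _
  have i1 : IntervalIntegrable (fun x => K.col.Yu x * K.col.nu x + K.col.Pl x * K.col.mu x) volume 0 K.w :=
    Continuous.intervalIntegrable (by fun_prop) _ _
  have i2 : IntervalIntegrable (fun x => K.Ss * K.col.nu x) volume 0 K.w :=
    Continuous.intervalIntegrable (by fun_prop) _ _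
  rw [← intervalIntegral.integral_const_mul, ← intervalIntegral.integral_sub i1 i2]
  refine intervalIntegral.integral_congr fun x _ => ?_
  simp only [B3_F]
  ring

private theorem B3_right (K : Bd) (h : K.CF) (hp : K.p < 0) (hq : K.q < 0) (hm : K.mem (K.r 0) (K.u 0)) :
    - (K.Ss * K.gV) ≤ ∫ x in (K.r 0)..K.w, B3_F K x := by
  have hF := B3_F_cont K h
  have hle := (cf_facts K h).2.2.2.2.2.2.2.2.1
  have hc : Continuous (fun x => - (K.Ss * (Real.exp (-K.p * (x - K.r 0)) * max (min (K.u x) (K.u 0) - K.l x) 0))) := by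
    have hu := h.cu
    have hl := h.cl
    fun_prop
  have h1 : - (K.Ss * K.gV) = ∫ x in (K.r 0)..K.w, - (K.Ss * (Real.exp (-K.p * (x - K.r 0)) * max (min (K.u x) (K.u 0) - K.l x) 0)) := by
    unfold Bd.gV
    rw [intervalIntegral.integral_neg, intervalIntegral.integral_const_mul]
  rw [h1]
  exact intervalIntegral.integral_mono_on hle (hc.intervalIntegrable _ _) (hF.intervalIntegrable _ _)
    (fun x hx => right_le K h hp hq hm x hx.1 hx.2)

private theorem B3_gU (K : Bd) : K.Ss * K.gU = ∫ x in (0:ℝ)..K.r 0, K.Ss * ee (-K.q) (K.u x - K.u 0) := by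
  unfold Bd.gU
  rw [intervalIntegral.integral_const_mul]

private theorem B3_gU_cont (K : Bd) (h : K.CF) : Continuous (fun x => K.Ss * ee (-K.q) (K.u x - K.u 0)) :=
  continuous_const.mul (B3_ee_cont (h.cu.sub continuous_const))

theorem col_le (K : Bd) (h : K.CF) (hp : K.p < 0) (hq : K.q < 0) (hm : K.mem (K.r 0) (K.u 0)) :
    K.Ss * (K.col.D + K.gU - K.gV) ≤ K.col.D * K.col.b := by
  have hr0 := (cf_facts K h).2.2.2.1
  have h1 := B3_eq K h
  have h2 := B3_right K h hp hq hm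
  have h3 : K.Ss * K.gU ≤ ∫ x in (0:ℝ)..K.r 0, B3_F K x := by
    rw [B3_gU]
    exact intervalIntegral.integral_mono_on hr0 ((B3_gU_cont K h).intervalIntegrable _ _)
      ((B3_F_cont K h).intervalIntegrable _ _) (fun x hx => left_le K h hp hq hm x hx.1 hx.2)
  have h4 : K.Ss * (K.col.D + K.gU - K.gV) = K.Ss * K.col.D + K.Ss * K.gU + - (K.Ss * K.gV) := by ring
  rw [h4]
  linarith

theorem col_lt (K : Bd) (h : K.CF) (hp : K.p < 0) (hq : K.q < 0) (hm : K.mem (K.r 0) (K.u 0)) (x : ℝ) (h0 : 0 < x) (h1 : x < K.r 0)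
    (h2 : K.u 0 < K.u x) : K.Ss * (K.col.D + K.gU - K.gV) < K.col.D * K.col.b := by
  have h1' := B3_eq K h
  have h2' := B3_right K h hp hq hm
  have h3 : K.Ss * K.gU < ∫ x in (0:ℝ)..K.r 0, B3_F K x := by
    rw [B3_gU]
    exact intervalIntegral.integral_lt_integral_of_continuousOn_of_le_of_exists_lt (h0.trans h1)
      (B3_gU_cont K h).continuousOn (B3_F_cont K h).continuousOn (fun x hx => left_le K h hp hq hm x hx.1.le hx.2)
      ⟨x, ⟨h0.le, h1.le⟩, left_lt K h hp hq hm x h0.le h1.le h2⟩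
  have h4 : K.Ss * (K.col.D + K.gU - K.gV) = K.Ss * K.col.D + K.Ss * K.gU + - (K.Ss * K.gV) := by ring
  rw [h4]
  linarith

end Pool.Agent.Lib.MP_1dedaf_gt.DK
end

section

/-!
# TASK TN B4: the pockets by columns and by rows

`K.swap.gV = ∫_{y1}^{h} exp (-q (y - y1)) max (min (r y) x1 - g y) 0 dy` (`K.swap.r 0 = K.u 0`, `K.swap.u 0 = K.r 0`, `K.swap.w = K.h`, `K.swap.p = K.q`). Both sides of `pocket` are the integral of `φ (z) = exp (-q (z.2 - y1))` over the set `P = {z ∈ S : z.1 ≤ x1, y1 ≤ z.2}` (Fubini in both orders, bounded measurable function on a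
bounded set). Columns: for `x ∈ [0, x1]` the column of `P` is `[max (l x) y1, u x] = [y1, u x]` (`l x = 0` for `x ≤ r 0`, `cf_facts`; `u x ≥ y1` by `uge`), `∫_{y1}^{u x} e^{-q (y - y1)} dy = ee (-q) (u x - y1)`; for `x > x1` it is empty.
Rows (`K.iff`): for `y ∈ [y1, h]` the row is `[g y, min (r y) x1]` or empty, of length `max (min (r y) x1 - g y) 0`. `pocket'` is `pocket` for `K.swap` (`K.swap.CF` by `cf_facts`, `K.swap.swap = K`; `K.swap.mem (K.u 0) (K.r 0)` by `K.iff`).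
-/

set_option autoImplicit false

open MeasureTheory Set Filter Topology

namespace Pool.Agent.Lib.MP_1dedaf_gt.DK

private def B4_T (a b : ℝ) (l u : ℝ → ℝ) : Set (ℝ × ℝ) :=
  {z | a ≤ z.1 ∧ z.1 ≤ b ∧ l z.1 ≤ z.2 ∧ z.2 ≤ u z.1}

private theorem B4_T_closed (a b : ℝ) {l u : ℝ → ℝ} (cl : Continuous l) (cu : Continuous u) :
    IsClosed (B4_T a b l u) := by
  refine (isClosed_le continuous_const continuous_fst).inter
    ((isClosed_le continuous_fst continuous_const).inter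
      ((isClosed_le (cl.comp continuous_fst) continuous_snd).inter
        (isClosed_le continuous_snd (cu.comp continuous_fst))))

private theorem B4_T_compact (a b : ℝ) {l u : ℝ → ℝ} (cl : Continuous l) (cu : Continuous u) :
    IsCompact (B4_T a b l u) := by
  rcases (Icc a b).eq_empty_or_nonempty with h | h
  · have h1 : B4_T a b l u = ∅ := by
      ext z
      simp only [mem_empty_iff_false, iff_false]
      intro hz
      have : z.1 ∈ Icc a b := ⟨hz.1, hz.2.1⟩
      rw [h] at this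
      exact this
    rw [h1]
    exact isCompact_empty
  · obtain ⟨x1, -, h1⟩ := isCompact_Icc.exists_isMinOn h cl.continuousOn
    obtain ⟨x2, -, h2⟩ := isCompact_Icc.exists_isMaxOn h cu.continuousOn
    refine IsCompact.of_isClosed_subset
      ((isCompact_Icc (a := a) (b := b)).prod (isCompact_Icc (a := l x1) (b := u x2)))
      (B4_T_closed a b cl cu) ?_
    rintro ⟨x, y⟩ ⟨ha, hb, hl, hu⟩
    refine ⟨⟨ha, hb⟩, ?_, ?_⟩
    · exact (h1 ⟨ha, hb⟩ : l x1 ≤ l x).trans hl
    · exact le_trans hu (h2 ⟨ha, hb⟩ : u x ≤ u x2)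

private theorem B4_fub {a b : ℝ} (hab : a ≤ b) {l u : ℝ → ℝ} (cl : Continuous l) (cu : Continuous u)
    (F : ℝ × ℝ → ℝ) (hF : Continuous F) :
    ∫ z in B4_T a b l u, F z = ∫ x in a..b, ∫ y in (l x)..(max (l x) (u x)), F (x, y) := by
  have hm : MeasurableSet (B4_T a b l u) := (B4_T_closed a b cl cu).measurableSet
  have hi : Integrable ((B4_T a b l u).indicator F) ((volume : Measure ℝ).prod volume) := by
    have h1 : IntegrableOn F (B4_T a b l u) volume :=
      hF.continuousOn.integrableOn_compact (B4_T_compact a b cl cu)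
    exact (integrable_indicator_iff hm).2 h1
  rw [← integral_indicator hm]
  have h2 : ∫ z, (B4_T a b l u).indicator F z =
      ∫ x, ∫ y, (B4_T a b l u).indicator F (x, y) := by
    rw [Measure.volume_eq_prod]
    exact integral_prod _ hi
  rw [h2, intervalIntegral.integral_of_le hab, ← integral_Icc_eq_integral_Ioc,
    ← integral_indicator measurableSet_Icc]
  congr 1
  funext x
  by_cases hx : x ∈ Icc a b
  · rw [indicator_of_mem hx]
    rcases le_total (l x) (u x) with hlu | hlu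
    · rw [max_eq_right hlu, intervalIntegral.integral_of_le hlu,
        ← integral_Icc_eq_integral_Ioc, ← integral_indicator measurableSet_Icc]
      congr 1
      funext y
      by_cases hy : y ∈ Icc (l x) (u x)
      · rw [indicator_of_mem hy, indicator_of_mem]
        exact ⟨hx.1, hx.2, hy.1, hy.2⟩
      · rw [indicator_of_notMem hy, indicator_of_notMem]
        rintro ⟨-, -, h3, h4⟩
        exact hy ⟨h3, h4⟩
    · rw [max_eq_left hlu, intervalIntegral.integral_same]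
      have h3 : (fun y => (B4_T a b l u).indicator F (x, y)) =ᵐ[volume] fun _ => (0:ℝ) := by
        have h4 : ∀ᵐ y ∂(volume : Measure ℝ), y ≠ l x := by
          simp [ae_iff, measure_singleton]
        filter_upwards [h4] with y hy
        rw [indicator_of_notMem]
        rintro ⟨-, -, h5, h6⟩
        exact hy (le_antisymm (h6.trans hlu) h5)
      rw [integral_congr_ae h3, integral_zero]
  · rw [indicator_of_notMem hx]
    have h3 : ∀ y, (B4_T a b l u).indicator F (x, y) = 0 := by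
      intro y
      rw [indicator_of_notMem]
      rintro ⟨h3, h4, -⟩
      exact hx ⟨h3, h4⟩
    simp only [h3, integral_zero]

private theorem B4_swap (s : Set (ℝ × ℝ)) (F : ℝ × ℝ → ℝ) :
    ∫ z in Prod.swap ⁻¹' s, F z = ∫ z in s, F z.swap := by
  have h1 : MeasurePreserving (Prod.swap : ℝ × ℝ → ℝ × ℝ) volume volume := by
    rw [Measure.volume_eq_prod]
    exact Measure.measurePreserving_swap
  have h2 := h1.setIntegral_preimage_emb MeasurableEquiv.prodComm.measurableEmbedding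
    (fun z => F z.swap) s
  simpa using h2

private theorem B4_in {k : ℝ} (hk : k ≠ 0) (c b : ℝ) :
    ∫ y in c..b, Real.exp (k * (y - c)) = ee k (b - c) := by
  have h1 : ∀ y ∈ uIcc c b, HasDerivAt (fun y => Real.exp (k * (y - c)) / k) (Real.exp (k * (y - c))) y := by
    intro y _
    have h2 : HasDerivAt (fun y : ℝ => k * (y - c)) k y := by
      simpa using ((hasDerivAt_id y).sub_const c).const_mul k
    have h3 := h2.exp.div_const k
    have h4 : Real.exp (k * (y - c)) * k / k = Real.exp (k * (y - c)) := by field_simp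
    rw [h4] at h3
    exact h3
  rw [intervalIntegral.integral_eq_sub_of_hasDerivAt h1]
  · unfold ee
    rw [sub_self, mul_zero, Real.exp_zero]
    ring
  · exact (Real.continuous_exp.comp (continuous_const.mul
      (continuous_id.sub continuous_const))).intervalIntegrable _ _

theorem pocket (K : Bd) (h : K.CF) (hm : K.mem (K.r 0) (K.u 0)) : K.gU = K.swap.gV := by
  obtain ⟨hl0, hg0, hu, hr, hl, hg, hx, hx', hrw, huh, -, -, -⟩ := cf_facts K h
  have hF : Continuous fun z : ℝ × ℝ => Real.exp (-K.q * (z.2 - K.u 0)) :=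
    Real.continuous_exp.comp (continuous_const.mul (continuous_snd.sub continuous_const))
  have hset : B4_T 0 (K.r 0) (fun _ => K.u 0) K.u =
      Prod.swap ⁻¹' B4_T (K.u 0) K.h K.g (fun y => min (K.r y) (K.r 0)) := by
    ext z
    constructor
    · rintro ⟨h1, h2, h3, h4⟩
      have h3' : K.u 0 ≤ z.2 := h3
      have h5 := hx z.1 h1 h2
      have h6 : K.mem z.1 z.2 := ⟨h1, h5.1, by rw [h5.2.1]; exact hu.trans h3', h4⟩
      obtain ⟨h7, h8, h9, h10⟩ := (h.iff _ _).1 h6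
      exact ⟨h3', h8, h9, le_min h10 h2⟩
    · rintro ⟨h1, h2, h3, h4⟩
      have h1' : K.u 0 ≤ z.2 := h1
      have h2' : z.2 ≤ K.h := h2
      have h3' : K.g z.2 ≤ z.1 := h3
      have h4' : z.1 ≤ min (K.r z.2) (K.r 0) := h4
      have h6 : K.mem z.1 z.2 := (h.iff _ _).2 ⟨hu.trans h1', h2', h3', h4'.trans (min_le_left _ _)⟩
      exact ⟨h6.1, h4'.trans (min_le_right _ _), h1', h6.2.2.2⟩
  have hA : ∫ z in B4_T 0 (K.r 0) (fun _ => K.u 0) K.u, Real.exp (-K.q * (z.2 - K.u 0)) = K.gU := by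
    rw [B4_fub hr continuous_const h.cu _ hF]
    unfold Bd.gU
    refine intervalIntegral.integral_congr fun x hx1 => ?_
    rw [uIcc_of_le hr] at hx1
    have h5 := uge K h hm x hx1.1 hx1.2
    show ∫ y in (K.u 0)..(max (K.u 0) (K.u x)), Real.exp (-K.q * (y - K.u 0)) = _
    rw [max_eq_right h5]
    exact B4_in (neg_ne_zero.2 h.hq) _ _
  have hB : ∫ z in B4_T 0 (K.r 0) (fun _ => K.u 0) K.u, Real.exp (-K.q * (z.2 - K.u 0)) = K.swap.gV := by
    rw [hset, B4_swap, B4_fub huh h.cg (h.cr.min continuous_const)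
      (fun z => Real.exp (-K.q * (z.swap.2 - K.u 0))) (hF.comp continuous_swap)]
    show _ = ∫ y in (K.u 0)..K.h, Real.exp (-K.q * (y - K.u 0)) * max (min (K.r y) (K.r 0) - K.g y) 0
    refine intervalIntegral.integral_congr fun y _ => ?_
    show ∫ x in (K.g y)..(max (K.g y) (min (K.r y) (K.r 0))), Real.exp (-K.q * (y - K.u 0)) = _
    rw [intervalIntegral.integral_const, smul_eq_mul, mul_comm]
    congr 1
    rcases le_total (K.g y) (min (K.r y) (K.r 0)) with h5 | h5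
    · rw [max_eq_right h5, max_eq_left (sub_nonneg.2 h5)]
    · rw [max_eq_left h5, max_eq_right (sub_nonpos.2 h5), sub_self]
  rw [← hA, hB]

theorem pocket' (K : Bd) (h : K.CF) (hm : K.mem (K.r 0) (K.u 0)) : K.swap.gU = K.gV := by
  obtain ⟨-, -, -, -, -, -, -, -, -, -, -, -, hs⟩ := cf_facts K h
  exact pocket K.swap hs ((h.iff _ _).1 hm)

end Pool.Agent.Lib.MP_1dedaf_gt.DK
end
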